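import Mathlib

namespace Pool.Agent.H1.Asy

open Filter Topology Set BoundedContinuousFunction
open scoped ComplexOrder InnerProductSpace

variable {H : Type} [NormedAddCommGroup H] [InnerProductSpace ℂ H] [CompleteSpace H]
  {L : (ℕ →ᵇ ℂ) →ₗ[ℂ] ℂ} {T A : H →L[ℂ] H} {M : ℝ}

omit [CompleteSpace H] in
lemma sq (hM : ∀ n, ‖T ^ n‖ ≤ M) (B : H →L[ℂ] H) (x y : H) :
    ∃ s : ℕ →ᵇ ℂ, ∀ n, s n = ⟪(T ^ n) y, B ((T ^ n) x)⟫_ℂ :=
  ⟨ofNormedAddCommGroupDiscrete (fun n => ⟪(T ^ n) y, B ((T ^ n) x)⟫_ℂ) (M * ‖y‖ * (‖B‖ * (M * ‖x‖)))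
    fun n => (norm_inner_le_norm _ _).trans (mul_le_mul ((T ^ n).le_of_opNorm_le (hM n) y)
      (B.le_opNorm_of_le ((T ^ n).le_of_opNorm_le (hM n) x)) (norm_nonneg _)
      (mul_nonneg ((norm_nonneg _).trans (hM 0)) (norm_nonneg _))), fun _ => rfl⟩

lemma low (hp : ∀ s : ℕ →ᵇ ℂ, (∀ n, 0 ≤ s n) → 0 ≤ L s) (h1 : L 1 = 1) {s : ℕ →ᵇ ℂ} {c : ℝ}
    (h : ∀ n, (c : ℂ) ≤ s n) : c ≤ (L s).re := by
  have := hp (s - (c : ℂ) • 1) fun n => by simpa using h n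
  rw [map_sub, map_smul, h1, smul_eq_mul, mul_one, sub_nonneg] at this
  simpa using (Complex.le_def.1 this).1

omit [CompleteSpace H] in
lemma inv (hM : ∀ n, ‖T ^ n‖ ≤ M) (hs : ∀ s s' : ℕ →ᵇ ℂ, (∀ n, s' n = s (n + 1)) → L s' = L s)
    (hA : ∀ x y (s : ℕ →ᵇ ℂ), (∀ n, s n = ⟪(T ^ n) y, (T ^ n) x⟫_ℂ) → ⟪y, A x⟫_ℂ = L s) (n : ℕ) (x y : H) :
    ⟪(T ^ n) y, A ((T ^ n) x)⟫_ℂ = ⟪y, A x⟫_ℂ := by
  induction n with
  | zero => rfl
  | succ n ih =>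
    obtain ⟨s, h1⟩ := sq hM 1 ((T ^ n) x) ((T ^ n) y)
    obtain ⟨s', h2⟩ := sq hM 1 ((T ^ (n + 1)) x) ((T ^ (n + 1)) y)
    rw [← ih, hA _ _ s h1, hA _ _ s' h2]
    refine hs s s' fun k => ?_
    rw [h1, h2]
    simp only [← mul_apply_eq_comp, ← pow_add, add_assoc, add_comm 1 n]

theorem not_compact (hH : ¬FiniteDimensional ℂ H) (hM : ∀ n, ‖T ^ n‖ ≤ M)
    (hp : ∀ s : ℕ →ᵇ ℂ, (∀ n, 0 ≤ s n) → 0 ≤ L s) (h1 : L 1 = 1)
    (hs : ∀ s s' : ℕ →ᵇ ℂ, (∀ n, s' n = s (n + 1)) → L s' = L s)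
    (hA : ∀ x y (s : ℕ →ᵇ ℂ), (∀ n, s n = ⟪(T ^ n) y, (T ^ n) x⟫_ℂ) → ⟪y, A x⟫_ℂ = L s)
    (pos : A.IsPositive) (hi : Function.Injective A) (hc : IsCompactOperator A) : False := by
  have M0 : 0 ≤ M := (norm_nonneg _).trans (hM 0)
  have p0 := (ContinuousLinearMap.nonneg_iff_isPositive A).2 pos
  set B := CFC.sqrt A
  have b1 : B * B = A := CFC.sqrt_mul_sqrt_self A
  have b2 : IsSelfAdjoint B := (CFC.sqrt_nonneg A).isSelfAdjoint
  have b3 : ∀ u, ‖B u‖ ^ 2 = (⟪u, A u⟫_ℂ).re := fun u => by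
    rw [B.apply_norm_sq_eq_inner_adjoint_right, b2.adjoint_eq, ← b1]; rfl
  have cau : ∀ {u : ℕ → H} {R : ℝ}, (∀ n, ‖u n‖ ≤ R) → ∃ φ : ℕ → ℕ, StrictMono φ ∧
      ∃ l, Tendsto (fun k => A (u (φ k))) atTop (𝓝 l) := fun {u R} hu => by
    obtain ⟨K, hK, hs⟩ := hc.image_closedBall_subset_compact (f := (A : H →ₗ[ℂ] H)) R
    obtain ⟨_, -, φ, h2, h3⟩ := hK.tendsto_subseq (x := fun k => A (u k))
      fun k => hs ⟨_, mem_closedBall_zero_iff.2 (hu k), rfl⟩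
    exact ⟨φ, h2, _, h3⟩
  have dn : Dense (LinearMap.range (A : H →ₗ[ℂ] H) : Set H) := by
    rw [Submodule.dense_iff_topologicalClosure_eq_top, Submodule.topologicalClosure_eq_top_iff,
      eq_bot_iff]
    intro x hx
    refine hi ((ext_inner_left ℂ fun v => ?_).trans (map_zero A).symm)
    rw [inner_zero_right, ← pos.isSelfAdjoint.adjoint_eq, ContinuousLinearMap.adjoint_inner_right]
    exact hx _ ⟨v, rfl⟩
  have a1 : ∀ x n, ‖x‖ ≤ M * ‖(T ^ n) x‖ := fun x n => by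
    have b4 : ∀ k, ‖(T ^ k) x‖ ≤ M * ‖x‖ := fun k => (T ^ k).le_of_opNorm_le (hM k) x
    obtain ⟨φ, h2, l, h3⟩ := cau b4
    have b5 : ∀ z, ‖⟪A z, x⟫_ℂ‖ ≤ ‖A z‖ * (M * ‖(T ^ n) x‖) := fun z => by
      have t1 : Tendsto (fun k => ‖A ((T ^ φ (k + n)) x) - A ((T ^ φ k) x)‖) atTop (𝓝 0) := by
        simpa using ((h3.comp (tendsto_add_atTop_nat n)).sub h3).norm
      have t2 := ((t1.const_mul (2 * (M * ‖x‖))).sqrt.const_mul ‖B z‖).const_add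
        (‖A z‖ * (M * ‖(T ^ n) x‖))
      rw [mul_zero, Real.sqrt_zero, mul_zero, add_zero] at t2
      refine ge_of_tendsto' t2 fun k => ?_
      obtain ⟨r, hr⟩ : ∃ r, φ (k + n) = φ k + (r + n) := ⟨φ (k + n) - φ k - n, by
        have := h2.add_le_nat n k; rw [add_comm n k] at this; omega⟩
      set u := (T ^ (r + n)) x - x with hu
      have c1 : (T ^ φ k) u = (T ^ φ (k + n)) x - (T ^ φ k) x := by
        rw [hu, map_sub, hr, pow_add T (φ k), mul_apply_eq_comp]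
      have c2 : ‖B u‖ ≤ √(2 * (M * ‖x‖) * ‖A ((T ^ φ (k + n)) x) - A ((T ^ φ k) x)‖) := by
        refine Real.le_sqrt_of_sq_le ?_
        rw [b3, ← inv hM hs hA (φ k), c1, map_sub A]
        exact (Complex.re_le_norm _).trans ((norm_inner_le_norm _ _).trans (mul_le_mul_of_nonneg_right
          ((norm_sub_le _ _).trans (by linarith [b4 (φ (k + n)), b4 (φ k)])) (norm_nonneg _)))
      have c3 : ⟪A z, x⟫_ℂ = ⟪A z, (T ^ r) ((T ^ n) x)⟫_ℂ - ⟪B z, B u⟫_ℂ := by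
        rw [← ContinuousLinearMap.adjoint_inner_left B, b2.adjoint_eq,
          ← mul_apply_eq_comp B, b1, hu, inner_sub_right, pow_add, mul_apply_eq_comp, sub_sub_cancel]
      rw [c3]
      exact (norm_sub_le _ _).trans (add_le_add ((norm_inner_le_norm _ _).trans
        (mul_le_mul_of_nonneg_left ((T ^ r).le_of_opNorm_le (hM r) _) (norm_nonneg _)))
        ((norm_inner_le_norm _ _).trans (mul_le_mul_of_nonneg_left c2 (norm_nonneg _))))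
    have b6 : ‖⟪x, x⟫_ℂ‖ ≤ ‖x‖ * (M * ‖(T ^ n) x‖) :=
      closure_minimal (t := {w | ‖⟪w, x⟫_ℂ‖ ≤ ‖w‖ * (M * ‖(T ^ n) x‖)})
        (by rintro _ ⟨z, rfl⟩; exact b5 z) (isClosed_le (by fun_prop) (by fun_prop)) (dn x)
    rw [inner_self_eq_norm_sq_to_K, norm_pow, RCLike.norm_ofReal, abs_norm, pow_two] at b6
    rcases (norm_nonneg x).eq_or_lt with h | h
    · rw [← h]; positivity
    · exact le_of_mul_le_mul_left b6 h
  have a2 : ∀ x, ‖x‖ ^ 2 / (M + 1) ^ 2 ≤ ‖x‖ * ‖A x‖ := fun x => by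
    obtain ⟨s, h2⟩ := sq hM 1 x x
    refine (low hp h1 (s := s) fun n => ?_).trans ?_
    · rw [h2, one_apply_eq_self, inner_self_eq_norm_sq_to_K]
      norm_cast
      refine Complex.real_le_real.2 (show _ ≤ ‖(T ^ n) x‖ ^ 2 from ?_)
      rw [div_le_iff₀ (by positivity), ← mul_pow]
      exact pow_le_pow_left₀ (norm_nonneg _) (by nlinarith [a1 x n, norm_nonneg ((T ^ n) x)]) 2
    · rw [← hA x x s h2]; exact (Complex.re_le_norm _).trans (norm_inner_le_norm _ _)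
  obtain ⟨R, f, -, h2, h3⟩ := exists_seq_norm_le_one_le_norm_sub hH
  obtain ⟨φ, h4, l, h5⟩ := cau h2
  obtain ⟨N, hN⟩ := Metric.cauchySeq_iff'.1 h5.cauchySeq (1 / (M + 1) ^ 2) (by positivity)
  have c1 := hN (N + 1) (by omega)
  have c2 := h3 (h4 (lt_add_one N)).ne'
  have c3 := a2 (f (φ (N + 1)) - f (φ N))
  rw [dist_eq_norm, ← map_sub, lt_div_iff₀ (by positivity)] at c1
  rw [div_le_iff₀ (by positivity)] at c3
  nlinarith

lemma ess {t : ℝ} (hA : IsSelfAdjoint A) (h : ∀ l : ℝ, l ≠ t → ∃ B : H →L[ℂ] H,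
    IsCompactOperator (B * (A - (l : ℂ) • 1) - 1 : H →L[ℂ] H)) :
    IsCompactOperator (A - (t : ℂ) • 1 : H →L[ℂ] H) := by
  set Φ := cfcHom (R := ℝ) hA
  let I : Ideal C(spectrum ℝ A, ℝ) :=
    { carrier := {g | IsCompactOperator (Φ g)}
      add_mem' := fun {f g} h1 h2 => by
        simp only [mem_ofPred_eq, map_add] at h1 h2 ⊢; exact h1.add h2
      zero_mem' := by simp only [mem_ofPred_eq, map_zero]; exact isCompactOperator_zero
      smul_mem' := fun f g h1 => by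
        simp only [mem_ofPred_eq, smul_eq_mul, map_mul] at h1 ⊢; exact h1.clm_comp (Φ f) }
  have hI : IsClosed (I : Set C(spectrum ℝ A, ℝ)) :=
    isClosed_setOfPred_isCompactOperator.preimage (cfcHom_continuous hA)
  have e : ∀ l : ℝ, Φ ((ContinuousMap.id ℝ).restrict (spectrum ℝ A) - algebraMap ℝ _ l) =
      A - (l : ℂ) • 1 := fun l => by
    rw [map_sub, cfcHom_id, AlgHomClass.commutes, Algebra.algebraMap_eq_smul_one]; rfl
  rw [← e]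
  change _ ∈ I
  rw [← ContinuousMap.idealOfSet_ofIdeal_isClosed hI, ContinuousMap.mem_idealOfSet]
  intro x hx
  by_contra hn
  obtain ⟨B, hB⟩ := h x fun h => hn (by simp [h])
  set δ := 1 / (‖B‖ + 1)
  have δ0 : 0 < δ := by positivity
  let g : C(spectrum ℝ A, ℝ) := ⟨fun s => max 0 (δ - |(s : ℝ) - x|), by fun_prop⟩
  let k : C(spectrum ℝ A, ℝ) := ⟨fun s => max (-δ) (min δ (s - x)), by fun_prop⟩
  refine hx (ContinuousMap.mem_setOfIdeal.2 ⟨g, ?_, by simp [g, δ0]⟩)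
  have k1 : ‖B * Φ k‖ < 1 := by
    have : ‖Φ k‖ ≤ δ := by
      rw [norm_cfcHom A k hA]
      exact (ContinuousMap.norm_le _ δ0.le).2 fun s => abs_le.2
        ⟨le_max_left _ _, max_le (by linarith) (min_le_left _ _)⟩
    refine (norm_mul_le _ _).trans_lt ((mul_le_mul_of_nonneg_left this (norm_nonneg _)).trans_lt ?_)
    rw [mul_one_div, div_lt_one (by positivity)]; linarith
  have e1 : (A - ((x : ℝ) : ℂ) • 1) * Φ g = Φ k * Φ g := by
    rw [← e, ← map_mul, ← map_mul]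
    congr 1; ext s
    change ((s : ℝ) - x) * max 0 (δ - |(s : ℝ) - x|) = max (-δ) (min δ (s - x)) * max 0 (δ - |(s : ℝ) - x|)
    rcases le_total δ |(s : ℝ) - x| with h1 | h1
    · rw [max_eq_left (sub_nonpos.2 h1), mul_zero, mul_zero]
    · rw [min_eq_right (abs_le.1 h1).2, max_eq_right (abs_le.1 h1).1]
  have e2 : Φ g = -(((Units.oneSub _ k1)⁻¹ : (H →L[ℂ] H)ˣ) * ((B * (A - ((x : ℝ) : ℂ) • 1) - 1) * Φ g)) := by
    rw [sub_mul, mul_assoc, e1, ← mul_neg, neg_sub, ← mul_assoc B, ← sub_mul, ← Units.val_oneSub _ k1,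
      Units.inv_mul_cancel_left]
  change IsCompactOperator (Φ g)
  rw [e2]
  exact ((hB.comp_clm (Φ g)).clm_comp _).neg

lemma avg {K : H →L[ℂ] H} (hK : IsCompactOperator K) {v : ℕ → H} (hv : Orthonormal ℂ v) {δ : ℝ}
    (hδ : 0 < δ) (M0 : 0 < M) : ∃ C : ℝ, ∀ (m : ℕ) (R : H →L[ℂ] H), ‖R‖ ≤ M →
      ∑ i ∈ Finset.range m, ‖⟪R (v i), K (R (v i))⟫_ℂ‖ ≤ δ * m + C := by
  obtain ⟨S, hS, hs⟩ := hK.image_closedBall_subset_compact (f := (K : H →ₗ[ℂ] H)) M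
  obtain ⟨F, -, hF, h2⟩ := hS.finite_cover_balls (e := δ / 2 / M) (by positivity)
  lift F to Finset H using hF
  set η := δ / 2 / (F.card + 1)
  have η0 : 0 < η := by positivity
  refine ⟨∑ e ∈ F, (M * ‖e‖) ^ 2 / η, fun m R hR => ?_⟩
  have a1 : ∀ i, ‖⟪R (v i), K (R (v i))⟫_ℂ‖ ≤ δ + ∑ e ∈ F, ‖⟪v i, star R e⟫_ℂ‖ ^ 2 / η := fun i => by
    have b1 : ‖R (v i)‖ ≤ M := by simpa [hv.1 i] using R.le_of_opNorm_le hR (v i)
    obtain ⟨e, he, h3⟩ := mem_iUnion₂.1 (h2 (hs ⟨_, mem_closedBall_zero_iff.2 b1, rfl⟩))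
    have b2 : ‖⟪R (v i), K (R (v i)) - e⟫_ℂ‖ ≤ M * (δ / 2 / M) := (norm_inner_le_norm _ _).trans
      (mul_le_mul b1 (mem_ball_iff_norm.1 h3).le (norm_nonneg _) M0.le)
    have b3 : ‖⟪R (v i), e⟫_ℂ‖ ≤ η + ‖⟪v i, star R e⟫_ℂ‖ ^ 2 / η := by
      rw [ContinuousLinearMap.star_eq_adjoint, ContinuousLinearMap.adjoint_inner_right,
        add_div' _ _ _ η0.ne', le_div_iff₀ η0]
      nlinarith [sq_nonneg (η - ‖⟪R (v i), e⟫_ℂ‖), mul_nonneg η0.le (norm_nonneg ⟪R (v i), e⟫_ℂ)]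
    have b4 := Finset.single_le_sum (f := fun e => ‖⟪v i, star R e⟫_ℂ‖ ^ 2 / η)
      (fun _ _ => by positivity) he
    have b5 : η ≤ δ / 2 := div_le_self (by positivity) (by simp)
    rw [mul_div_cancel₀ _ M0.ne', inner_sub_right] at b2
    linarith [norm_le_norm_sub_add ⟪R (v i), K (R (v i))⟫_ℂ ⟪R (v i), e⟫_ℂ]
  refine (Finset.sum_le_sum fun i _ => a1 i).trans ?_
  rw [Finset.sum_add_distrib, Finset.sum_const, Finset.card_range, nsmul_eq_mul, mul_comm,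
    Finset.sum_comm]
  refine add_le_add le_rfl (Finset.sum_le_sum fun e _ => ?_)
  rw [← Finset.sum_div]
  exact div_le_div_of_nonneg_right ((hv.sum_inner_products_le _).trans (pow_le_pow_left₀
    (norm_nonneg _) ((star R).le_of_opNorm_le (by rwa [norm_star]) e) 2)) η0.le

theorem eq_one (hH : ¬FiniteDimensional ℂ H) (hM : ∀ n, ‖T ^ n‖ ≤ M)
    (hp : ∀ s : ℕ →ᵇ ℂ, (∀ n, 0 ≤ s n) → 0 ≤ L s) (h1 : L 1 = 1)
    (hs : ∀ s s' : ℕ →ᵇ ℂ, (∀ n, s' n = s (n + 1)) → L s' = L s)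
    (hA : ∀ x y (s : ℕ →ᵇ ℂ), (∀ n, s n = ⟪(T ^ n) y, (T ^ n) x⟫_ℂ) → ⟪y, A x⟫_ℂ = L s)
    (sa : IsSelfAdjoint A) {t : ℝ} (ht : 0 < t) (hK : IsCompactOperator (A - (t : ℂ) • 1 : H →L[ℂ] H)) :
    t = 1 := by
  obtain ⟨w, b, -⟩ := exists_hilbertBasis ℂ H
  have hw : Infinite w := by
    by_contra hn
    rw [not_infinite_iff_finite] at hn
    cases nonempty_fintype w
    exact hH b.toOrthonormalBasis.toBasis.finiteDimensional_of_finite
  have hv := b.orthonormal.comp _ (Infinite.natEmbedding w).injective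
  set v := b ∘ Infinite.natEmbedding w
  set K := A - (t : ℂ) • 1 with hKd
  have ks : IsSelfAdjoint K := sa.sub (IsSelfAdjoint.smul (Complex.conj_ofReal t) (.one _))
  have M0 : 0 ≤ M := (norm_nonneg _).trans (hM 0)
  have e0 : ∀ x, ⟪x, K x⟫_ℂ = ⟪x, A x⟫_ℂ - t * ⟪x, x⟫_ℂ := fun x => by
    rw [← inner_smul_right, ← inner_sub_right]; rfl
  choose s hs1 using fun i => sq hM K (v i) (v i)
  have e1 : ∀ i, L (s i) = (1 - t) * (t + ⟪v i, K (v i)⟫_ℂ) := fun i => by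
    obtain ⟨u, h2⟩ := sq hM 1 (v i) (v i)
    have : s i = ⟪v i, A (v i)⟫_ℂ • 1 - (t : ℂ) • u := by
      ext n; rw [hs1, e0, inv hM hs hA]; simp [h2]
    rw [this, map_sub, map_smul, map_smul, h1, ← hA _ _ u h2, e0, inner_self_eq_norm_sq_to_K, hv.1 i]
    simp; ring
  by_contra hn
  have c0 : 0 < |1 - t| := abs_pos.2 (sub_ne_zero.2 (Ne.symm hn))
  set δ := |1 - t| * t / (2 * (|1 - t| + 1)) with hδ
  obtain ⟨C, hC⟩ := avg hK hv (δ := δ) (by positivity) (show 0 < M + 1 by linarith)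
  obtain ⟨m, hm⟩ := exists_nat_gt ((|1 - t| + 1) * C / (|1 - t| * t / 2))
  set S := ∑ i ∈ Finset.range m, s i
  have a1 : ∀ n, (S n).im = 0 ∧ |(S n).re| ≤ δ * m + C := fun n => by
    simp only [S, coe_sum, Finset.sum_apply, hs1]
    refine ⟨?_, (Complex.abs_re_le_norm _).trans ((norm_sum_le _ _).trans
      (hC m _ (by linarith [hM n])))⟩
    rw [Complex.im_sum]
    exact Finset.sum_eq_zero fun i _ => ks.isSymmetric.im_inner_self_apply _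
  have a2 := low hp h1 (s := S) (c := -(δ * m + C)) fun n =>
    Complex.le_def.2 ⟨(abs_le.1 (a1 n).2).1, (a1 n).1.symm⟩
  have a3 := low hp h1 (s := -S) (c := -(δ * m + C)) fun n =>
    Complex.le_def.2 ⟨neg_le_neg (abs_le.1 (a1 n).2).2, by simp [(a1 n).1]⟩
  have a4 : (L S).re = (1 - t) * (t * m + (∑ i ∈ Finset.range m, ⟪v i, K (v i)⟫_ℂ).re) := by
    simp only [S, map_sum, e1, ← Finset.mul_sum, Finset.sum_add_distrib]
    simp [mul_comm]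
  have a5 := (Complex.abs_re_le_norm _).trans ((norm_sum_le _ _).trans
    (hC m 1 (ContinuousLinearMap.norm_id_le.trans (by linarith))))
  simp only [one_apply_eq_self] at a5
  rw [map_neg, Complex.neg_re] at a3
  have a6 : |(L S).re| ≤ δ * m + C := abs_le.2 ⟨a2, by linarith⟩
  rw [a4, abs_mul] at a6
  have a7 := mul_le_mul_of_nonneg_left ((show t * m - (δ * m + C) ≤ t * m +
    (∑ i ∈ Finset.range m, ⟪v i, K (v i)⟫_ℂ).re by linarith [(abs_le.1 a5).1]).trans (le_abs_self _)) c0.le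
  rw [div_lt_iff₀ (by positivity)] at hm
  have a8 : (|1 - t| + 1) * δ = |1 - t| * t / 2 := by rw [hδ]; field_simp
  nlinarith [congrArg (· * (m : ℝ)) a8]

end Pool.Agent.H1.Asy
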