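import Mathlib

namespace Pool.Agent.H1.Atom

open Metric Filter Topology Set Complex Function

lemma inv_an {α : ℂ → ℂ} {U : Set ℂ} (hU : IsOpen U) (hc : IsPreconnected U)
    (hα : AnalyticOnNhd ℂ α U) (hn : ∃ a ∈ U, ∃ b ∈ U, α a ≠ α b) (hi : InjOn α U) :
    AnalyticOnNhd ℂ (invFunOn α U) (α '' U) := by
  obtain ⟨a, ha, b, hb, hab⟩ := hn
  have ho := (hα.is_constant_or_isOpen hc).resolve_left fun ⟨w, h⟩ => hab (by rw [h a ha, h b hb])
  have hl := hi.leftInvOn_invFunOn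
  have cont : ∀ z ∈ U, ContinuousAt (invFunOn α U) (α z) := fun z hz => by
    rw [ContinuousAt, hl hz]
    refine tendsto_nhds.2 fun V hV hzV => mem_of_superset
      ((ho _ inter_subset_right (hV.inter hU)).mem_nhds ⟨z, ⟨hzV, hz⟩, rfl⟩) ?_
    rintro _ ⟨x, hx, rfl⟩
    rw [mem_preimage, hl hx.2]; exact hx.1
  rintro _ ⟨z, hz, rfl⟩
  have ev : ∀ᶠ x in 𝓝[≠] z, deriv α x ≠ 0 := by
    by_contra h
    have := hα.deriv.eqOn_zero_of_preconnected_of_frequently_eq_zero hc hz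
      ((not_eventually.1 h).mono fun x hx => not_not.1 hx)
    exact hab (hU.is_const_of_deriv_eq_zero hc hα.differentiableOn this ha hb)
  obtain ⟨V, hV, Vo, zV⟩ := _root_.eventually_nhds_iff.1
    ((eventually_nhdsWithin_iff.1 ev).and (hU.mem_nhds hz))
  have so := (ho V (fun x hx => (hV x hx).2) Vo).mem_nhds ⟨z, zV, rfl⟩
  refine ((differentiableOn_compl_singleton_and_continuousAt_iff so).1
    ⟨?_, cont z hz⟩).analyticAt so
  rintro _ ⟨⟨x, hx, rfl⟩, hne⟩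
  have xU := (hV x hx).2
  refine (HasDerivAt.of_local_left_inverse (f := α) (f' := deriv α x) (cont x xU) ?_
    ((hV x hx).1 fun e => hne (by rw [mem_singleton_iff.1 e]; rfl)) ?_).differentiableAt
    |>.differentiableWithinAt
  · rw [hl xU]; exact (hα x xU).differentiableAt.hasDerivAt
  · filter_upwards [(ho U subset_rfl hU).mem_nhds ⟨x, xU, rfl⟩] with y hy
    exact invFunOn_eq hy

lemma step {β : ℂ → ℂ} (hβ : AnalyticOnNhd ℂ β (ball 0 1))
    (hu : ∀ C : ℝ, ∃ z ∈ ball (0 : ℂ) 1, C < ‖β z‖) (n : ℕ)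
    (s : {p : (ℂ → ℂ) × ℝ // Differentiable ℂ p.1 ∧ 0 ≤ p.2}) :
    ∃ t : {p : (ℂ → ℂ) × ℝ // Differentiable ℂ p.1 ∧ 0 ≤ p.2}, s.1.2 + 1 ≤ t.1.2 ∧
      (∀ u, ‖u‖ ≤ s.1.2 → dist (s.1.1 u) (t.1.1 u) ≤ 1 / 2 ^ n) ∧
      ∃ ζ ε, 0 < ε ∧ closedBall ζ ε ⊆ ball 0 1 ∧ (∀ z ∈ closedBall ζ ε, ‖β z‖ ≤ t.1.2) ∧
        ∀ z ∈ sphere ζ ε, ‖t.1.1 (β ζ)‖ + 2 * n + 10 ≤ ‖t.1.1 (β z)‖ := by
  obtain ⟨⟨P, ρ⟩, hP, hρ⟩ := s
  simp only at hP hρ ⊢
  obtain ⟨ζ, hζ, h3⟩ := hu (ρ + 3)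
  have ev : ∀ᶠ x in 𝓝[≠] ζ, β x ≠ β ζ := by
    by_contra h
    have := hβ.eqOn_of_preconnected_of_frequently_eq analyticOnNhd_const
      (convex_ball 0 1).isPreconnected hζ ((not_eventually.1 h).mono fun x hx => not_not.1 hx)
    obtain ⟨x, hx, h⟩ := hu ‖β ζ‖
    rw [this hx] at h; exact lt_irrefl _ h
  obtain ⟨ε, ε0, hε⟩ := nhds_basis_closedBall.eventually_iff.1 ((eventually_nhdsWithin_iff.1 ev).and
    ((show ∀ᶠ x in 𝓝 ζ, x ∈ ball (0 : ℂ) 1 from isOpen_ball.mem_nhds hζ).and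
      ((hβ ζ hζ).continuousAt.eventually (ball_mem_nhds _ one_pos))))
  have bc : ContinuousOn β (sphere ζ ε) :=
    hβ.continuousOn.mono fun z hz => (hε (sphere_subset_closedBall hz)).2.1
  obtain ⟨M, hM⟩ := (isCompact_sphere ζ ε).exists_bound_of_continuousOn
    (hP.continuous.comp_continuousOn bc)
  obtain ⟨x, hx, hδ⟩ := (isCompact_sphere ζ ε).exists_isMinOn (NormedSpace.sphere_nonempty.2 ε0.le)
    (bc.sub continuousOn_const (g := fun _ => β ζ)).norm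
  have δ0 : 0 < ‖β x - β ζ‖ := norm_pos_iff.2 (sub_ne_zero.2 ((hε (sphere_subset_closedBall hx)).1
    fun e => by rw [mem_singleton_iff.1 e] at hx; simp at hx; linarith))
  have r0 : 0 < ρ + 1 := by linarith
  have t1 := (tendsto_pow_atTop_nhds_zero_of_lt_one (r := ρ / (ρ + 1)) (by positivity)
    (by rw [div_lt_one r0]; linarith)).mul_const (ρ + ‖β ζ‖)
  have t2 := (tendsto_pow_atTop_atTop_of_one_lt (r := (ρ + 2) / (ρ + 1))
    (by rw [one_lt_div r0]; linarith)).atTop_mul_const δ0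
  obtain ⟨m, m1, m2⟩ := ((t1.eventually_le_const (u := 1 / 2 ^ n) (by rw [zero_mul]; positivity)).and
    (t2.eventually_ge_atTop (M + ‖P (β ζ)‖ + 2 * n + 10))).exists
  have nT : ∀ u : ℂ, ‖(u / (ρ + 1 : ℝ)) ^ m * (u - β ζ)‖ = (‖u‖ / (ρ + 1)) ^ m * ‖u - β ζ‖ :=
    fun u => by rw [norm_mul, norm_pow, norm_div, norm_real, Real.norm_of_nonneg r0.le]
  have hb : ∀ z ∈ closedBall ζ ε, |‖β z‖ - ‖β ζ‖| ≤ 1 := fun z hz =>
    (abs_norm_sub_norm_le _ _).trans (mem_ball_iff_norm.1 (hε hz).2.2).le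
  refine ⟨⟨(fun u => P u + (u / (ρ + 1 : ℝ)) ^ m * (u - β ζ), ‖β ζ‖ + 1), by fun_prop,
    by positivity⟩, by simp only; linarith, fun u hu => ?_, ζ, ε, ε0, fun z hz => (hε hz).2.1,
    fun z hz => by simp only; linarith [(abs_le.1 (hb z hz)).2], fun z hz => ?_⟩
  · simp only
    rw [dist_self_add_right, nT]
    refine le_trans ?_ m1
    gcongr
    exact (norm_sub_le _ _).trans (by linarith)
  · simp only [sub_self, mul_zero, add_zero]
    have h1 : ((ρ + 2) / (ρ + 1)) ^ m * ‖β x - β ζ‖ ≤ ‖(β z / (ρ + 1 : ℝ)) ^ m * (β z - β ζ)‖ := by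
      rw [nT]
      gcongr
      · linarith [(abs_le.1 (hb z (sphere_subset_closedBall hz))).1]
      · exact hδ hz
    have h2 := norm_sub_le (P (β z) + (β z / (ρ + 1 : ℝ)) ^ m * (β z - β ζ)) (P (β z))
    rw [add_sub_cancel_left] at h2
    have := hM z hz
    simp only [comp] at this
    linarith

lemma surj {β : ℂ → ℂ} (hβ : AnalyticOnNhd ℂ β (ball 0 1))
    (hu : ∀ C : ℝ, ∃ z ∈ ball (0 : ℂ) 1, C < ‖β z‖) :
    ∃ E : ℂ → ℂ, Differentiable ℂ E ∧ ∀ t, ∃ z ∈ ball (0 : ℂ) 1, E (β z) + z = t := by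
  choose F hF using step hβ hu
  set s : ℕ → {p : (ℂ → ℂ) × ℝ // Differentiable ℂ p.1 ∧ 0 ≤ p.2} := fun n =>
    Nat.rec ⟨(0, 0), differentiable_const 0, le_rfl⟩ F n with hs
  have hs' : ∀ n, s (n + 1) = F n (s n) := fun n => rfl
  have mono : Monotone fun n => (s n).1.2 := monotone_nat_of_le_succ fun n => by
    rw [hs']; linarith [(hF n (s n)).1]
  have big : ∀ n : ℕ, (n : ℝ) ≤ (s n).1.2 := fun n => by
    induction n with
    | zero => simpa using (s 0).2.2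
    | succ n ih => rw [hs']; push_cast; linarith [(hF n (s n)).1]
  set E : ℂ → ℂ := fun u => limUnder atTop fun n => (s n).1.1 u
  have key : ∀ k u, ‖u‖ ≤ (s k).1.2 → dist ((s k).1.1 u) (E u) ≤ 2 / 2 ^ k := fun k u h => by
    have h1 : ∀ j, dist ((s (j + k)).1.1 u) ((s (j + 1 + k)).1.1 u) ≤ 2 / 2 ^ k / 2 / 2 ^ j :=
      fun j => by
        rw [add_right_comm, hs']
        refine ((hF _ _).2.1 u (h.trans (mono (Nat.le_add_left k j)))).trans_eq ?_
        rw [pow_add]; field_simp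
    have h2 := (cauchySeq_shift (u := fun n => (s n).1.1 u) k).1
      (cauchySeq_of_le_geometric_two (f := fun j => (s (j + k)).1.1 u) h1)
    simpa using dist_le_of_le_geometric_two_of_tendsto₀ h1
      ((tendsto_add_atTop_iff_nat k).2 h2.tendsto_limUnder)
  have hE : Differentiable ℂ E := fun u => by
    obtain ⟨N, hN⟩ := exists_nat_gt ‖u‖
    have : TendstoUniformlyOn (fun n => (s n).1.1) E atTop (ball 0 N) := by
      refine Metric.tendstoUniformlyOn_iff.2 fun ε hε => ?_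
      have t := (tendsto_pow_atTop_atTop_of_one_lt (one_lt_two (α := ℝ))).const_div_atTop 2
      filter_upwards [t.eventually (gt_mem_nhds hε), eventually_ge_atTop N] with k h1 h2 x hx
      rw [dist_comm]
      exact (key k x ((mem_ball_zero_iff.1 hx).le.trans ((big N).trans (mono h2)))).trans_lt h1
    exact (this.tendstoLocallyUniformlyOn.differentiableOn (Eventually.of_forall fun n =>
      (s n).2.1.differentiableOn) isOpen_ball).differentiableAt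
      (isOpen_ball.mem_nhds (mem_ball_zero_iff.2 hN))
  refine ⟨E, hE, fun t => ?_⟩
  obtain ⟨n, hn⟩ := exists_nat_ge ‖t‖
  obtain ⟨ζ, ε, ε0, h1, h2, h3⟩ := (hF n (s n)).2.2
  rw [← hs'] at h2 h3
  by_contra hne
  push Not at hne
  have cl : ∀ z ∈ closedBall ζ ε, |‖E (β z) + z - t‖ - ‖(s (n + 1)).1.1 (β z)‖| ≤ n + 2 :=
    fun z hz => by
      refine (abs_norm_sub_norm_le _ _).trans ?_
      have a := key (n + 1) (β z) (h2 z hz)
      have : (2 : ℝ) / 2 ^ (n + 1) ≤ 1 := by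
        rw [div_le_one (by positivity)]; exact le_self_pow₀ one_le_two n.succ_ne_zero
      have b := (mem_ball_zero_iff.1 (h1 hz)).le
      rw [dist_comm, dist_eq_norm] at a
      rw [show E (β z) + z - t - (s (n + 1)).1.1 (β z) = (E (β z) - (s (n + 1)).1.1 (β z)) + z - t
        by ring]
      linarith [norm_sub_le ((E (β z) - (s (n + 1)).1.1 (β z)) + z) t,
        norm_add_le (E (β z) - (s (n + 1)).1.1 (β z)) z]
  have hd : DifferentiableOn ℂ (fun z => (E (β z) + z - t)⁻¹) (closedBall ζ ε) :=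
    (((hE.comp_differentiableOn (hβ.differentiableOn.mono h1)).add differentiableOn_id).sub_const
      t).inv fun z hz => sub_ne_zero.2 (hne z (h1 hz))
  have a0 := norm_nonneg ((s (n + 1)).1.1 (β ζ))
  have := norm_le_of_forall_mem_frontier_norm_le (C := (‖(s (n + 1)).1.1 (β ζ)‖ + n + 8)⁻¹)
    isBounded_ball (hd.mono closure_ball_subset_closedBall).diffContOnCl (fun z hz => by
      have hz := frontier_ball_subset_sphere hz
      rw [norm_inv]
      exact inv_anti₀ (by positivity)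
        (by linarith [(abs_le.1 (cl z (sphere_subset_closedBall hz))).1, h3 z hz]))
    (subset_closure (mem_ball_self ε0))
  rw [norm_inv, inv_le_inv₀ (norm_pos_iff.2 (sub_ne_zero.2 (hne ζ (h1 (mem_closedBall_self ε0.le)))))
    (by positivity)] at this
  linarith [(abs_le.1 (cl ζ (mem_closedBall_self ε0.le))).2]

lemma chi {α : ℂ → ℂ} (hα : AnalyticOnNhd ℂ α (ball 0 1))
    (hn : ∃ a ∈ ball (0 : ℂ) 1, ∃ b ∈ ball (0 : ℂ) 1, α a ≠ α b) :
    ∃ χ : ℂ → ℂ, AnalyticOnNhd ℂ χ (α '' ball 0 1) ∧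
      ∀ C : ℝ, ∃ z ∈ ball (0 : ℂ) 1, C < ‖χ (α z)‖ := by
  by_cases h : ∀ C : ℝ, ∃ z ∈ ball (0 : ℂ) 1, C < ‖α z‖
  · exact ⟨id, analyticOnNhd_id, h⟩
  push Not at h
  obtain ⟨C, hC⟩ := h
  obtain ⟨a, ha, b, hb, hab⟩ := hn
  have ho := (hα.is_constant_or_isOpen (convex_ball 0 1).isPreconnected).resolve_left
    (fun ⟨w, h⟩ => hab (by rw [h a ha, h b hb])) _ subset_rfl isOpen_ball
  obtain ⟨p, hp⟩ := (nonempty_frontier_iff (s := α '' ball 0 1)).2 ⟨⟨_, a, ha, rfl⟩, fun e => by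
    obtain ⟨z, hz, h⟩ := e.ge (mem_univ ((|C| + 1 : ℝ) : ℂ))
    have := hC z hz
    rw [h, norm_real, Real.norm_of_nonneg (by positivity)] at this
    linarith [le_abs_self C]⟩
  rw [ho.frontier_eq] at hp
  have ne : ∀ w ∈ α '' ball 0 1, w - p ≠ 0 := fun w hw e => hp.2 (sub_eq_zero.1 e ▸ hw)
  refine ⟨fun w => (w - p)⁻¹, fun w hw => (analyticAt_id.sub analyticAt_const).inv (ne w hw),
    fun D => ?_⟩
  obtain ⟨_, ⟨z, hz, rfl⟩, h⟩ := Metric.mem_closure_iff.1 hp.1 (|D| + 1)⁻¹ (by positivity)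
  refine ⟨z, hz, ?_⟩
  rw [dist_comm, dist_eq_norm, lt_inv_comm₀ (norm_pos_iff.2 (ne _ ⟨z, hz, rfl⟩)) (by positivity)] at h
  rw [norm_inv]; linarith [le_abs_self D]

end Pool.Agent.H1.Atom
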