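import Mathlib

set_option autoImplicit false

namespace Pool.Agent.H1.Bac
open ContinuousLinearMap

def BAC (A : Type) [NormedRing A] [NormedAlgebra ℂ A] : Prop :=
  ∀ (X : Type) [NormedAddCommGroup X] [NormedSpace ℂ X] [CompleteSpace X]
          (L R : A →L[ℂ] X →L[ℂ] X),
          (∀ a b : A, L (a * b) = (L a).comp (L b)) →
          (∀ a b : A, R (a * b) = (R b).comp (R a)) →
          (∀ a b : A, (L a).comp (R b) = (R b).comp (L a)) →
          ∀ D : A →L[ℂ] X, (∀ a b : A, D (a * b) = L a (D b) + R b (D a)) →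
            ∃ C : ℝ, ∀ F : Finset A, ∀ ε : ℝ, 0 < ε → ∃ ξ : X,
              (∀ a : A, ‖L a ξ - R a ξ‖ ≤ C * ‖a‖) ∧
                ∀ a ∈ F, ‖D a - (L a ξ - R a ξ)‖ < ε

variable {A : Type} [NormedRing A] [NormedAlgebra ℂ A]

noncomputable def res {Y : Type} [NormedAddCommGroup Y] [NormedSpace ℂ Y]
    (L : A →L[ℂ] Y →L[ℂ] Y) (X : Submodule ℂ Y) (h : ∀ a, ∀ y ∈ X, L a y ∈ X) :
    A →L[ℂ] X →L[ℂ] X :=
  LinearMap.mkContinuous₂ (LinearMap.mk₂ ℂ (fun a (y : X) => (⟨L a y, h a y y.2⟩ : X))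
    (fun a b y => Subtype.ext (by simp))
    (fun c a y => Subtype.ext (by simp))
    (fun a y z => Subtype.ext (by simp))
    (fun c a y => Subtype.ext (by simp))) ‖L‖ (fun a y => by
      change ‖L a y‖ ≤ _
      exact L.le_opNorm₂ a y)

lemma res_apply {Y : Type} [NormedAddCommGroup Y] [NormedSpace ℂ Y]
    (L : A →L[ℂ] Y →L[ℂ] Y) (X : Submodule ℂ Y) (h : ∀ a, ∀ y ∈ X, L a y ∈ X) (a : A) (y : X) :
    ((res L X h a y : X) : Y) = L a y := rfl

lemma sub (H : BAC A) {Y : Type} [NormedAddCommGroup Y] [NormedSpace ℂ Y] [CompleteSpace Y]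
    (L R : A →L[ℂ] Y →L[ℂ] Y) (hL : ∀ a b : A, L (a * b) = (L a).comp (L b))
    (hR : ∀ a b : A, R (a * b) = (R b).comp (R a))
    (hLR : ∀ a b : A, (L a).comp (R b) = (R b).comp (L a))
    (X : Submodule ℂ Y) (hX : IsClosed (X : Set Y))
    (hXL : ∀ a, ∀ y ∈ X, L a y ∈ X) (hXR : ∀ a, ∀ y ∈ X, R a y ∈ X) (m : Y)
    (hm : ∀ a, L a m - R a m ∈ X) :
    ∃ C : ℝ, 0 ≤ C ∧ ∀ F : Finset A, ∀ ε : ℝ, 0 < ε → ∃ M : Y, m - M ∈ X ∧
      (∀ a, ‖L a M - R a M‖ ≤ C * ‖a‖) ∧ ∀ a ∈ F, ‖L a M - R a M‖ < ε := by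
  haveI : CompleteSpace X := hX.completeSpace_coe
  let D0 : A →L[ℂ] Y := L.flip m - R.flip m
  have hD0 : ∀ a, D0 a = L a m - R a m := fun a => rfl
  let D : A →L[ℂ] X := D0.codRestrict X (fun a => hm a)
  have hD : ∀ a, (D a : Y) = L a m - R a m := fun a => rfl
  obtain ⟨C, hC⟩ := H X (res L X hXL) (res R X hXR)
    (fun a b => by ext y; simp [res_apply, hL])
    (fun a b => by ext y; simp [res_apply, hR])
    (fun a b => by
      ext y
      have := congrArg (fun T => T (y : Y)) (hLR a b)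
      simpa [res_apply] using this) D
    (fun a b => by
      ext
      have := congrArg (fun T => T m) (hLR a b)
      simp only [comp_apply] at this
      simp only [hD, Submodule.coe_add, res_apply, hL, hR, comp_apply, map_sub, this]
      abel)
  refine ⟨|C| + ‖D0‖, by positivity, fun F ε hε => ?_⟩
  obtain ⟨ξ, h1, h2⟩ := hC F ε hε
  have key : ∀ a, L a (m - ξ) - R a (m - ξ) = D0 a - (L a ξ - R a ξ) := by
    intro a; simp only [hD0, map_sub]; abel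
  refine ⟨m - ξ, by simp, fun a => ?_, fun a ha => ?_⟩
  · rw [key]
    have h3 : ‖L a ξ - R a ξ‖ ≤ C * ‖a‖ := h1 a
    have h4 := D0.le_opNorm a
    have h5 := norm_sub_le (D0 a) (L a ξ - R a ξ)
    have h6 : C * ‖a‖ ≤ |C| * ‖a‖ := mul_le_mul_of_nonneg_right (le_abs_self C) (norm_nonneg _)
    nlinarith
  · rw [key]; exact h2 a ha

section op
variable {U V : Type} [NormedAddCommGroup U] [NormedSpace ℂ U] [NormedAddCommGroup V]
  [NormedSpace ℂ V]

noncomputable def post (l : A →L[ℂ] V →L[ℂ] V) : A →L[ℂ] (U →L[ℂ] V) →L[ℂ] (U →L[ℂ] V) :=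
  (compL ℂ U V V).comp l

noncomputable def pre (l : A →L[ℂ] U →L[ℂ] U) : A →L[ℂ] (U →L[ℂ] V) →L[ℂ] (U →L[ℂ] V) :=
  ((compL ℂ U U V).flip).comp l

@[simp] lemma post_apply (l : A →L[ℂ] V →L[ℂ] V) (a : A) (T : U →L[ℂ] V) (u : U) :
    post l a T u = l a (T u) := rfl

@[simp] lemma pre_apply (l : A →L[ℂ] U →L[ℂ] U) (a : A) (T : U →L[ℂ] V) (u : U) :
    pre l a T u = T (l a u) := rfl
end op

/-- operators with range in `I` vanishing on `I` -/
def XI (I : Submodule ℂ A) : Submodule ℂ (A →L[ℂ] A) where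
  carrier := {T | (∀ x, T x ∈ I) ∧ ∀ x ∈ I, T x = 0}
  add_mem' := by
    rintro S T ⟨h1, h2⟩ ⟨h3, h4⟩
    exact ⟨fun x => I.add_mem (h1 x) (h3 x), fun x hx => by simp [h2 x hx, h4 x hx]⟩
  zero_mem' := ⟨fun x => I.zero_mem, fun x _ => rfl⟩
  smul_mem' := by
    rintro c T ⟨h1, h2⟩
    exact ⟨fun x => I.smul_mem c (h1 x), fun x hx => by simp [h2 x hx]⟩

lemma XI_closed (I : Submodule ℂ A) (hI : IsClosed (I : Set A)) :
    IsClosed (XI I : Set (A →L[ℂ] A)) := by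
  have : (XI I : Set (A →L[ℂ] A)) = (⋂ x, (fun T : A →L[ℂ] A => T x) ⁻¹' (I : Set A)) ∩
      ⋂ x ∈ I, (fun T : A →L[ℂ] A => T x) ⁻¹' {0} := by
    ext T; simp [XI]
  rw [this]
  refine (isClosed_iInter fun x => hI.preimage (by fun_prop)).inter
    (isClosed_biInter fun x _ => isClosed_singleton.preimage (by fun_prop))

lemma right_ai [CompleteSpace A] (H : BAC A) (I : Submodule ℂ A) (hI : IsClosed (I : Set A))
    (hc : I.ClosedComplemented) (hl : ∀ a, ∀ x ∈ I, a * x ∈ I) :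
    ∃ K : ℝ, 0 ≤ K ∧ ∀ F : Finset A, (∀ x ∈ F, x ∈ I) → ∀ ε : ℝ, 0 < ε → ∃ u ∈ I,
      (∀ x ∈ I, ‖x * u‖ ≤ K * ‖x‖) ∧ ∀ x ∈ F, ‖x * u - x‖ < ε := by
  obtain ⟨p, hp⟩ := hc
  let P : A →L[ℂ] A := I.subtypeL.comp p
  have hP1 : ∀ x, P x ∈ I := fun x => (p x).2
  have hP2 : ∀ x ∈ I, P x = x := fun x hx => congrArg Subtype.val (hp ⟨x, hx⟩)
  obtain ⟨C, hC0, hC⟩ := sub H (post (U := A) (mul ℂ A)) (pre (V := A) (mul ℂ A))
    (fun a b => by ext T x; simp [mul_assoc]) (fun a b => by ext T x; simp [mul_assoc])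
    (fun a b => by ext T x; simp) (XI I) (XI_closed I hI)
    (fun a T hT => ⟨fun x => by simpa using hl a _ (hT.1 x), fun x hx => by simp [hT.2 x hx]⟩)
    (fun a T hT => ⟨fun x => by simpa using hT.1 _, fun x hx => by simpa using hT.2 _ (hl a x hx)⟩)
    P (fun a => ⟨fun x => by simpa using I.sub_mem (hl a _ (hP1 x)) (hP1 _),
      fun x hx => by simp [hP2 x hx, hP2 _ (hl a x hx)]⟩)
  refine ⟨C * ‖(1 : A)‖ + 1, by positivity, fun F hF ε hε => ?_⟩
  obtain ⟨M, hM, h1, h2⟩ := hC F (ε / (‖(1 : A)‖ + 1)) (by positivity)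
  have hM1 : M 1 ∈ I := by
    have := I.sub_mem (hP1 1) (hM.1 1)
    simpa using this
  have hM2 : ∀ x ∈ I, M x = x := fun x hx => by
    have := hM.2 x hx
    simp only [sub_apply, hP2 x hx] at this
    exact (sub_eq_zero.mp this).symm
  have key : ∀ x ∈ I, ‖x * M 1 - x‖ ≤
      ‖post (U := A) (mul ℂ A) x M - pre (V := A) (mul ℂ A) x M‖ * ‖(1 : A)‖ := by
    intro x hx
    have := (post (U := A) (mul ℂ A) x M - pre (V := A) (mul ℂ A) x M).le_opNorm 1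
    simpa [hM2 x hx] using this
  refine ⟨M 1, hM1, fun x hx => ?_, fun x hx => ?_⟩
  · have h3 := key x hx
    have h4 := mul_le_mul_of_nonneg_right (h1 x) (norm_nonneg (1 : A))
    have h5 := norm_add_le (x * M 1 - x) x
    simp only [sub_add_cancel] at h5
    nlinarith
  · have h3 := key x (hF x hx)
    have h4 := h2 x hx
    rw [lt_div_iff₀ (by positivity)] at h4
    nlinarith [norm_nonneg (post (U := A) (mul ℂ A) x M - pre (V := A) (mul ℂ A) x M)]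

lemma left_ai [CompleteSpace A] (H : BAC A) (I : Submodule ℂ A) (hI : IsClosed (I : Set A))
    (hc : I.ClosedComplemented) (hl : ∀ a, ∀ x ∈ I, x * a ∈ I) :
    ∃ K : ℝ, 0 ≤ K ∧ ∀ F : Finset A, (∀ x ∈ F, x ∈ I) → ∀ ε : ℝ, 0 < ε → ∃ u ∈ I,
      (∀ x ∈ I, ‖u * x‖ ≤ K * ‖x‖) ∧ ∀ x ∈ F, ‖u * x - x‖ < ε := by
  obtain ⟨p, hp⟩ := hc
  let P : A →L[ℂ] A := I.subtypeL.comp p
  have hP1 : ∀ x, P x ∈ I := fun x => (p x).2
  have hP2 : ∀ x ∈ I, P x = x := fun x hx => congrArg Subtype.val (hp ⟨x, hx⟩)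
  obtain ⟨C, hC0, hC⟩ := sub H (pre (V := A) (mul ℂ A).flip) (post (U := A) (mul ℂ A).flip)
    (fun a b => by ext T x; simp [mul_assoc]) (fun a b => by ext T x; simp [mul_assoc])
    (fun a b => by ext T x; simp) (XI I) (XI_closed I hI)
    (fun a T hT => ⟨fun x => by simpa using hT.1 _, fun x hx => by simpa using hT.2 _ (hl a x hx)⟩)
    (fun a T hT => ⟨fun x => by simpa using hl a _ (hT.1 x), fun x hx => by simp [hT.2 x hx]⟩)
    P (fun a => ⟨fun x => by simpa using I.sub_mem (hP1 _) (hl a _ (hP1 x)),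
      fun x hx => by simp [hP2 x hx, hP2 _ (hl a x hx)]⟩)
  refine ⟨C * ‖(1 : A)‖ + 1, by positivity, fun F hF ε hε => ?_⟩
  obtain ⟨M, hM, h1, h2⟩ := hC F (ε / (‖(1 : A)‖ + 1)) (by positivity)
  have hM1 : M 1 ∈ I := by
    have := I.sub_mem (hP1 1) (hM.1 1)
    simpa using this
  have hM2 : ∀ x ∈ I, M x = x := fun x hx => by
    have := hM.2 x hx
    simp only [sub_apply, hP2 x hx] at this
    exact (sub_eq_zero.mp this).symm
  have key : ∀ x ∈ I, ‖M 1 * x - x‖ ≤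
      ‖pre (V := A) (mul ℂ A).flip x M - post (U := A) (mul ℂ A).flip x M‖ * ‖(1 : A)‖ := by
    intro x hx
    have := (pre (V := A) (mul ℂ A).flip x M - post (U := A) (mul ℂ A).flip x M).le_opNorm 1
    rw [norm_sub_rev]
    simpa [hM2 x hx] using this
  refine ⟨M 1, hM1, fun x hx => ?_, fun x hx => ?_⟩
  · have h3 := key x hx
    have h4 := mul_le_mul_of_nonneg_right (h1 x) (norm_nonneg (1 : A))
    have h5 := norm_add_le (M 1 * x - x) x
    simp only [sub_add_cancel] at h5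
    nlinarith
  · have h3 := key x (hF x hx)
    have h4 := h2 x hx
    rw [lt_div_iff₀ (by positivity)] at h4
    nlinarith [norm_nonneg (pre (V := A) (mul ℂ A).flip x M - post (U := A) (mul ℂ A).flip x M)]

end Pool.Agent.H1.Bac
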