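import Pool.Agent.H1.BacA

set_option autoImplicit false

namespace Pool.Agent.H1.Bac
open ContinuousLinearMap Finset

variable {A : Type} [NormedRing A] [NormedAlgebra ℂ A]

/-- right translation of functionals -/
noncomputable def mu : A →L[ℂ] (A →L[ℂ] ℂ) →L[ℂ] (A →L[ℂ] ℂ) := pre (V := ℂ) (mul ℂ A).flip

@[simp] lemma mu_apply (a : A) (θ : A →L[ℂ] ℂ) (x : A) : mu a θ x = θ (x * a) := rfl

structure Frame (J : Submodule ℂ A) (ι κ : Type) [Fintype ι] [Fintype κ] [DecidableEq ι] where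
  b : ι → A
  φ : ι → (A →L[ℂ] ℂ)
  s : ι → κ → A
  t : ι → κ → A
  k0 : ι
  hl : ∀ a, ∀ x ∈ J, a * x ∈ J
  hr : ∀ a, ∀ x ∈ J, x * a ∈ J
  hφJ : ∀ k, ∀ x ∈ J, φ k x = 0
  hP : ∀ x, x - ∑ k, φ k x • b k ∈ J
  hbi : ∀ k l, φ k (b l) = if k = l then 1 else 0
  hext : ∀ k x, ∑ m, s k m * x * t k m - φ k x • (1 : A) ∈ J
  h0 : φ k0 1 = 1

variable {J : Submodule ℂ A} {ι κ : Type} [Fintype ι] [Fintype κ] [DecidableEq ι]

noncomputable def Frame.P (f : Frame J ι κ) : A →L[ℂ] A :=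
  ContinuousLinearMap.id ℂ A - ∑ k, (f.φ k).smulRight (f.b k)

lemma Frame.P_apply (f : Frame J ι κ) (x : A) : f.P x = x - ∑ k, f.φ k x • f.b k := by
  simp [Frame.P]

lemma Frame.P_mem (f : Frame J ι κ) (x : A) : f.P x ∈ J := by
  rw [f.P_apply]; exact f.hP x

lemma Frame.P_self (f : Frame J ι κ) (x : A) (hx : x ∈ J) : f.P x = x := by
  rw [f.P_apply]; simp [f.hφJ _ x hx]

lemma Frame.mu_split (f : Frame J ι κ) (a : A) (θ : A →L[ℂ] ℂ) :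
    mu a θ = (mu a θ).comp f.P + ∑ l, θ (f.b l * a) • f.φ l := by
  ext x
  simp only [mu_apply, add_apply, comp_apply, f.P_apply, _root_.sum_apply,
    smul_apply, map_sub, map_sum, map_smul, smul_eq_mul]
  simp [mul_comm]

lemma Frame.phi_sum (f : Frame J ι κ) (c : ι → ℂ) (k : ι) : f.φ k (∑ l, c l • f.b l) = c k := by
  simp [map_sum, f.hbi]

lemma le_of_unb {a b c : ℝ} {S : Set ℝ} (hS : ∀ N, ∃ r ∈ S, N < r)
    (h : ∀ r ∈ S, a * r ≤ b * r + c) : a ≤ b := by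
  by_contra hab
  push Not at hab
  obtain ⟨r, hr, hN⟩ := hS (c / (a - b))
  have := h r hr
  rw [div_lt_iff₀ (by linarith)] at hN
  nlinarith

lemma stepA (f : Frame J ι κ) (M : (A →L[ℂ] ℂ) →L[ℂ] A) (C K K' : ℝ) (hC0 : 0 ≤ C) (hK : 0 ≤ K)
    (hK' : 0 ≤ K')
    (hC : ∀ a, ‖post (U := A →L[ℂ] ℂ) (mul ℂ A) a M - pre (V := A) mu a M‖ ≤ C * ‖a‖)
    (hunb : ∀ N, ∃ g ∈ J, (∀ x ∈ J, ‖x * g‖ ≤ K * ‖x‖) ∧ N < ‖g‖)
    (l : A) (hl : l ∈ J) (hlK : ∀ x ∈ J, ‖l * x‖ ≤ K' * ‖x‖) (k : ι) :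
    ‖l * f.P (M (f.φ k))‖ ≤ K' * ‖f.P‖ * C * ∑ m, ‖f.s k m‖ * ‖f.t k m‖ := by
  obtain ⟨ψ, hψ1, hψ2⟩ := exists_dual_vector'' ℂ (l * f.P (M (f.φ k)))
  set x : A := ∑ i, ψ (l * f.P (M (f.φ i))) • f.b i with hx
  have hlP : ∀ y, ‖ψ (l * f.P y)‖ ≤ K' * ‖f.P‖ * ‖y‖ := by
    intro y
    have h1 := ψ.le_opNorm (l * f.P y)
    have h2 := hlK _ (f.P_mem y)
    have h3 := f.P.le_opNorm y
    have h4 := mul_le_mul_of_nonneg_left h3 hK'
    have h5 := mul_le_mul_of_nonneg_right hψ1 (norm_nonneg (l * f.P y))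
    nlinarith
  have hxt : ∀ t : A, ∀ g ∈ J, (∀ x ∈ J, ‖x * g‖ ≤ K * ‖x‖) →
      ‖x * t * g‖ ≤ K' * ‖f.P‖ * C * ‖t‖ * ‖g‖ +
        (K * ‖l * t‖ * ‖M‖ + K' * ‖f.P‖ * (‖M‖ * (K * ‖f.P‖ * ‖t‖))) := by
    intro t g hg hgK
    obtain ⟨θ, hθ1, hθ2⟩ := exists_dual_vector'' ℂ (x * t * g)
    have ha : t * g ∈ J := f.hl _ _ hg
    have e1 : θ (x * t * g) = ψ (l * t * g * M θ) -
        ψ (l * f.P ((post (U := A →L[ℂ] ℂ) (mul ℂ A) (t * g) M - pre (V := A) mu (t * g) M) θ)) -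
        ψ (l * f.P (M ((mu (t * g) θ).comp f.P))) := by
      have e2 : M (mu (t * g) θ) = M ((mu (t * g) θ).comp f.P) +
          ∑ i, θ (f.b i * (t * g)) • M (f.φ i) := by
        conv_lhs => rw [f.mu_split (t * g) θ]
        simp [map_sum]
      have e3 : f.P (t * (g * M θ)) = t * (g * M θ) :=
        f.P_self _ (f.hl _ _ (f.hr _ _ hg))
      simp only [sub_apply, post_apply, pre_apply, mul_apply', map_sub, e2, e3, map_add, map_sum,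
        map_smul, mul_sub, mul_add, Finset.mul_sum, mul_smul_comm, smul_eq_mul, hx,
        Finset.sum_mul, smul_mul_assoc, mul_assoc]
      simp only [mul_comm]
      ring
    have b1 : ‖ψ (l * t * g * M θ)‖ ≤ K * ‖l * t‖ * ‖M‖ := by
      have h1 := ψ.le_opNorm (l * t * g * M θ)
      have h2 := hgK _ (f.hr t _ hl)
      have h3 : ‖M θ‖ ≤ ‖M‖ := (M.le_opNorm θ).trans (by nlinarith [norm_nonneg M])
      have h4 := norm_mul_le (l * t * g) (M θ)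
      have h5 := mul_le_mul h2 h3 (norm_nonneg _) (by positivity)
      have h6 := mul_le_mul_of_nonneg_right hψ1 (norm_nonneg (l * t * g * M θ))
      linarith
    have b2 : ‖ψ (l * f.P ((post (U := A →L[ℂ] ℂ) (mul ℂ A) (t * g) M -
        pre (V := A) mu (t * g) M) θ))‖ ≤ K' * ‖f.P‖ * C * ‖t‖ * ‖g‖ := by
      refine (hlP _).trans ?_
      have h1 := (post (U := A →L[ℂ] ℂ) (mul ℂ A) (t * g) M - pre (V := A) mu (t * g) M).le_opNorm θ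
      have h2 := hC (t * g)
      have h3 := mul_le_mul_of_nonneg_left (norm_mul_le t g) hC0
      have h4 := mul_le_mul h2 hθ1 (norm_nonneg _) (by positivity)
      have h5 : ‖(post (U := A →L[ℂ] ℂ) (mul ℂ A) (t * g) M - pre (V := A) mu (t * g) M) θ‖ ≤
        C * (‖t‖ * ‖g‖) := by linarith
      have := mul_le_mul_of_nonneg_left h5 (show 0 ≤ K' * ‖f.P‖ by positivity)
      linarith
    have b3 : ‖ψ (l * f.P (M ((mu (t * g) θ).comp f.P)))‖ ≤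
        K' * ‖f.P‖ * (‖M‖ * (K * ‖f.P‖ * ‖t‖)) := by
      refine (hlP _).trans (mul_le_mul_of_nonneg_left ?_ (by positivity))
      refine (M.le_opNorm _).trans (mul_le_mul_of_nonneg_left ?_ (by positivity))
      refine opNorm_le_bound _ (by positivity) fun y => ?_
      simp only [comp_apply, mu_apply]
      have h1 := θ.le_opNorm (f.P y * (t * g))
      have h2 := hgK _ (f.hr t _ (f.P_mem y))
      rw [mul_assoc] at h2
      have h3 := mul_le_mul_of_nonneg_right hθ1 (norm_nonneg (f.P y * (t * g)))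
      have h4 := norm_mul_le (f.P y) t
      have h5 := mul_le_mul_of_nonneg_right (f.P.le_opNorm y) (norm_nonneg t)
      have h6 := mul_le_mul_of_nonneg_left (h4.trans h5) hK
      nlinarith
    have e4 : ‖x * t * g‖ = ‖θ (x * t * g)‖ := by rw [hθ2]; simp
    rw [e4, e1]
    have := norm_sub_le (ψ (l * t * g * M θ) -
        ψ (l * f.P ((post (U := A →L[ℂ] ℂ) (mul ℂ A) (t * g) M - pre (V := A) mu (t * g) M) θ)))
        (ψ (l * f.P (M ((mu (t * g) θ).comp f.P))))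
    have := norm_sub_le (ψ (l * t * g * M θ))
        (ψ (l * f.P ((post (U := A →L[ℂ] ℂ) (mul ℂ A) (t * g) M - pre (V := A) mu (t * g) M) θ)))
    linarith
  have e5 : ‖l * f.P (M (f.φ k))‖ = ‖f.φ k x‖ := by
    rw [hx, f.phi_sum, hψ2]; simp
  rw [e5]
  refine le_of_unb (S := {r | ∃ g ∈ J, (∀ x ∈ J, ‖x * g‖ ≤ K * ‖x‖) ∧ r = ‖g‖})
    (c := ∑ m, ‖f.s k m‖ * (K * ‖l * f.t k m‖ * ‖M‖ +
      K' * ‖f.P‖ * (‖M‖ * (K * ‖f.P‖ * ‖f.t k m‖))) +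
      K * ‖∑ m, f.s k m * x * f.t k m - f.φ k x • (1 : A)‖) ?_ ?_
  · intro N
    obtain ⟨g, hg, h1, h2⟩ := hunb N
    exact ⟨_, ⟨g, hg, h1, rfl⟩, h2⟩
  · rintro r ⟨g, hg, hgK, rfl⟩
    have e6 : f.φ k x • g = ∑ m, f.s k m * (x * f.t k m * g) -
        (∑ m, f.s k m * x * f.t k m - f.φ k x • (1 : A)) * g := by
      simp [sub_mul, Finset.sum_mul, mul_assoc]
    rw [← norm_smul, e6]
    refine (norm_sub_le _ _).trans ?_
    have h1 := hgK _ (f.hext k x)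
    have h2 : ‖∑ m, f.s k m * (x * f.t k m * g)‖ ≤ ∑ m, ‖f.s k m‖ *
        (K' * ‖f.P‖ * C * ‖f.t k m‖ * ‖g‖ + (K * ‖l * f.t k m‖ * ‖M‖ +
          K' * ‖f.P‖ * (‖M‖ * (K * ‖f.P‖ * ‖f.t k m‖)))) :=
      (norm_sum_le _ _).trans (Finset.sum_le_sum fun m _ => (norm_mul_le _ _).trans
        (mul_le_mul_of_nonneg_left (hxt _ g hg hgK) (norm_nonneg _)))
    have h3 : ∑ m, ‖f.s k m‖ *
        (K' * ‖f.P‖ * C * ‖f.t k m‖ * ‖g‖ + (K * ‖l * f.t k m‖ * ‖M‖ +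
          K' * ‖f.P‖ * (‖M‖ * (K * ‖f.P‖ * ‖f.t k m‖)))) =
        (K' * ‖f.P‖ * C * ∑ m, ‖f.s k m‖ * ‖f.t k m‖) * ‖g‖ +
        ∑ m, ‖f.s k m‖ * (K * ‖l * f.t k m‖ * ‖M‖ +
          K' * ‖f.P‖ * (‖M‖ * (K * ‖f.P‖ * ‖f.t k m‖))) := by
      rw [Finset.mul_sum, Finset.sum_mul, ← Finset.sum_add_distrib]
      exact Finset.sum_congr rfl fun m _ => by ring
    linarith

end Pool.Agent.H1.Bac
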