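import Pool.Agent.H1.BacB

set_option autoImplicit false

namespace Pool.Agent.H1.Bac
open ContinuousLinearMap Finset

variable {A : Type} [NormedRing A] [NormedAlgebra ℂ A]
variable {J : Submodule ℂ A} {ι κ : Type} [Fintype ι] [Fintype κ] [DecidableEq ι]

noncomputable def Frame.piL (f : Frame J ι κ) : ((A →L[ℂ] ℂ) →L[ℂ] A) →L[ℂ] A :=
  ∑ k, ((mul ℂ A).flip (f.b k)).comp (ContinuousLinearMap.apply ℂ A (f.φ k))

lemma Frame.piL_apply (f : Frame J ι κ) (T : (A →L[ℂ] ℂ) →L[ℂ] A) :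
    f.piL T = ∑ k, T (f.φ k) * f.b k := by
  simp [Frame.piL]

lemma Frame.mu_phi (f : Frame J ι κ) (a : A) (k : ι) :
    mu a (f.φ k) = ∑ l, f.φ k (f.b l * a) • f.φ l := by
  rw [f.mu_split a]
  have : (mu a (f.φ k)).comp f.P = 0 := by
    ext x; simpa using f.hφJ k _ (f.hr a _ (f.P_mem x))
  rw [this, zero_add]

lemma dichot [CompleteSpace A] (H : BAC A) (hJ : IsClosed (J : Set A)) (f : Frame J ι κ) (K : ℝ)
    (hK : 0 ≤ K) (hunb : ∀ N, ∃ g ∈ J, (∀ x ∈ J, ‖x * g‖ ≤ K * ‖x‖) ∧ N < ‖g‖) :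
    ∃ N : ℝ, ∀ e ∈ J, (∀ x ∈ J, ‖e * x‖ ≤ K * ‖x‖) → ‖e‖ ≤ N := by
  classical
  let m0 : (A →L[ℂ] ℂ) →L[ℂ] A := (ContinuousLinearMap.apply ℂ ℂ (1 : A)).smulRight (1 : A)
  have hm0 : ∀ θ, m0 θ = θ 1 • (1 : A) := fun θ => rfl
  obtain ⟨C, hC0, hC⟩ := sub H (post (U := A →L[ℂ] ℂ) (mul ℂ A)) (pre (V := A) mu)
    (fun a b => by ext T x; simp [mul_assoc])
    (fun a b => by
      ext T x
      simp only [pre_apply, comp_apply]
      congr 1; ext y; simp [mul_assoc])
    (fun a b => by ext T x; simp) (J.comap f.piL.toLinearMap)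
    (hJ.preimage f.piL.continuous)
    (fun a T hT => by
      simp only [Submodule.mem_comap, ContinuousLinearMap.coe_coe, f.piL_apply] at hT ⊢
      have := f.hl a _ hT
      simpa [Finset.mul_sum, mul_assoc] using this)
    (fun a T hT => by
      simp only [Submodule.mem_comap, ContinuousLinearMap.coe_coe, f.piL_apply] at hT ⊢
      have h1 := f.hr a _ hT
      have h2 : ∑ l, T (f.φ l) * f.P (f.b l * a) ∈ J :=
        J.sum_mem fun l _ => f.hl _ _ (f.P_mem _)
      have h3 := J.sub_mem h1 h2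
      convert h3 using 1
      simp only [pre_apply, f.mu_phi, map_sum, map_smul, Finset.sum_mul, f.P_apply, mul_sub,
        Finset.mul_sum, smul_mul_assoc, mul_smul_comm, Finset.sum_sub_distrib, mul_assoc]
      rw [Finset.sum_comm]; abel)
    m0 (fun a => by
      simp only [Submodule.mem_comap, ContinuousLinearMap.coe_coe, f.piL_apply]
      have h1 := J.sub_mem (f.P_mem a) (f.hl a _ (f.P_mem 1))
      convert h1 using 1
      simp only [sub_apply, post_apply, pre_apply, hm0, mu_apply, mul_apply', f.P_apply, sub_mul,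
        mul_sub, Finset.mul_sum, smul_mul_assoc, mul_smul_comm, one_mul, mul_one,
        Finset.sum_sub_distrib]
      abel)
  let w : ι → ι → A := fun j l => ∑ m, f.s j m * f.b l * f.t j m - f.φ j (f.b l) • (1 : A)
  let W : ℝ := ∑ j, ∑ l, ‖w j l‖
  let γ : ℝ := ∑ k, ∑ l, ‖f.φ f.k0 (f.b l * f.b k)‖
  let c : ℝ := ∑ k, ∑ j, ∑ m, (‖f.φ k‖ + K * ‖f.s j m‖ * ‖f.P‖ * C *
    ∑ m, ‖f.s k m‖ * ‖f.t k m‖) * ‖f.t j m‖
  let D : ℝ := (Fintype.card ι : ℝ) * ((Fintype.card ι : ℝ) * (K * W))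
  have hW : 0 ≤ W := by positivity
  have hγ : 0 ≤ γ := by positivity
  have hc : 0 ≤ c := by positivity
  have hD : 0 ≤ D := by positivity
  refine ⟨D + 1 + γ * (c + D * c), fun e he heK => ?_⟩
  obtain ⟨M, hM, h1, h2⟩ := hC (Finset.univ.image fun p : ι × κ => e * f.s p.1 p.2) 1 one_pos
  let lam : ι → ι → ℂ := fun l k => f.φ l (M (f.φ k))
  let Λ : ℝ := ∑ k, ∑ l, ‖lam l k‖
  have hΛ : 0 ≤ Λ := by positivity
  have hlam : ∀ l k, ‖lam l k‖ ≤ Λ := fun l k =>
    (Finset.single_le_sum (f := fun l => ‖lam l k‖) (fun _ _ => norm_nonneg _)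
      (Finset.mem_univ l)).trans
      (Finset.single_le_sum (f := fun k => ∑ l, ‖lam l k‖) (fun _ _ => by positivity)
        (Finset.mem_univ k))
  have hβ : ∀ j m k, ‖e * f.s j m * ∑ l, lam l k • f.b l‖ ≤ ‖f.φ k‖ + K * ‖f.s j m‖ * ‖f.P‖ * C *
      ∑ m, ‖f.s k m‖ * ‖f.t k m‖ := by
    intro j m k
    have hl : e * f.s j m ∈ J := f.hr _ _ he
    have a1 := stepA f M C K (K * ‖f.s j m‖) hC0 hK (by positivity) h1 hunb _ hl (fun x hx => by
      rw [mul_assoc]
      refine (heK _ (f.hl _ _ hx)).trans ?_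
      rw [mul_assoc]
      exact mul_le_mul_of_nonneg_left (norm_mul_le _ _) hK) k
    have a2 := h2 (e * f.s j m) (Finset.mem_image.mpr ⟨(j, m), Finset.mem_univ _, rfl⟩)
    have a3 := (post (U := A →L[ℂ] ℂ) (mul ℂ A) (e * f.s j m) M -
      pre (V := A) mu (e * f.s j m) M).le_opNorm (f.φ k)
    have a4 : mu (e * f.s j m) (f.φ k) = 0 := by
      ext x; simpa using f.hφJ k _ (f.hl x _ hl)
    simp only [sub_apply, post_apply, pre_apply, a4, map_zero, sub_zero, mul_apply'] at a3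
    have a5 : e * f.s j m * ∑ l, lam l k • f.b l =
        e * f.s j m * M (f.φ k) - e * f.s j m * f.P (M (f.φ k)) := by
      rw [f.P_apply, ← mul_sub]; simp [lam]
    rw [a5]
    have a6 := mul_le_mul_of_nonneg_right a2.le (norm_nonneg (f.φ k))
    have := norm_sub_le (e * f.s j m * M (f.φ k)) (e * f.s j m * f.P (M (f.φ k)))
    linarith
  have hjk : ∀ k j, ‖lam j k‖ * ‖e‖ ≤ ∑ m, (‖f.φ k‖ + K * ‖f.s j m‖ * ‖f.P‖ * C *
      ∑ m, ‖f.s k m‖ * ‖f.t k m‖) * ‖f.t j m‖ + K * W * Λ := by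
    intro k j
    have e1 : lam j k • e = ∑ m, (e * f.s j m * ∑ l, lam l k • f.b l) * f.t j m -
        ∑ l, lam l k • (e * w j l) := by
      simp only [w, mul_sub, smul_sub, Finset.sum_sub_distrib, Finset.mul_sum, Finset.sum_mul,
        Finset.smul_sum, mul_smul_comm, smul_mul_assoc, mul_one, mul_assoc, f.hbi]
      rw [Finset.sum_comm]
      simp
    rw [← norm_smul, e1]
    refine (norm_sub_le _ _).trans (add_le_add ?_ ?_)
    · exact (norm_sum_le _ _).trans (Finset.sum_le_sum fun m _ => (norm_mul_le _ _).trans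
        (mul_le_mul_of_nonneg_right (hβ j m k) (norm_nonneg _)))
    · refine (norm_sum_le _ _).trans ?_
      have : ∀ l, ‖lam l k • (e * w j l)‖ ≤ K * Λ * ‖w j l‖ := fun l => by
        rw [norm_smul]
        have := mul_le_mul (hlam l k) (heK _ (f.hext j (f.b l))) (norm_nonneg _) hΛ
        simp only [w]; linarith
      refine (Finset.sum_le_sum fun l _ => this l).trans ?_
      rw [← Finset.mul_sum]
      have h5 : ∑ l, ‖w j l‖ ≤ W := Finset.single_le_sum (f := fun j => ∑ l, ‖w j l‖)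
        (fun _ _ => by positivity) (Finset.mem_univ j)
      have := mul_le_mul_of_nonneg_left h5 (show 0 ≤ K * Λ by positivity)
      linarith
  have hsum : Λ * ‖e‖ ≤ c + D * Λ := by
    have := Finset.sum_le_sum fun k (_ : k ∈ Finset.univ) =>
      Finset.sum_le_sum fun j (_ : j ∈ Finset.univ) => hjk k j
    simp only [Finset.sum_add_distrib, Finset.sum_const, Finset.card_univ, nsmul_eq_mul,
      ← Finset.sum_mul] at this
    simp only [Λ, c, D] at this ⊢
    linarith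
  have hone : 1 ≤ γ * Λ := by
    simp only [Submodule.mem_comap, ContinuousLinearMap.coe_coe, f.piL_apply] at hM
    have h3 := f.hφJ f.k0 _ hM
    have h4 : ∀ k, f.φ f.k0 (M (f.φ k) * f.b k) = ∑ l, lam l k * f.φ f.k0 (f.b l * f.b k) := by
      intro k
      have := f.hφJ f.k0 _ (f.hr (f.b k) _ (f.P_mem (M (f.φ k))))
      simp only [f.P_apply, sub_mul, map_sub, Finset.sum_mul, smul_mul_assoc, map_sum, map_smul,
        smul_eq_mul] at this
      exact sub_eq_zero.mp this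
    simp only [sub_apply, hm0, sub_mul, smul_mul_assoc, one_mul, map_sum, map_sub, map_smul,
      f.hbi, h4, Finset.sum_sub_distrib] at h3
    simp only [smul_eq_mul, mul_ite, mul_one, mul_zero, Finset.sum_ite_eq, Finset.mem_univ,
      if_true, f.h0] at h3
    have h5 := congrArg norm (sub_eq_zero.mp h3)
    rw [norm_one] at h5
    rw [h5]
    refine (norm_sum_le _ _).trans ?_
    simp only [γ, Finset.sum_mul]
    refine Finset.sum_le_sum fun k _ => (norm_sum_le _ _).trans (Finset.sum_le_sum fun l _ => ?_)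
    rw [norm_mul, mul_comm]
    exact mul_le_mul_of_nonneg_left (hlam l k) (norm_nonneg _)
  by_cases hbig : ‖e‖ ≤ D + 1
  · have : 0 ≤ γ * (c + D * c) := by positivity
    linarith
  · push Not at hbig
    have hΛc : Λ ≤ c := by nlinarith
    have h6 : ‖e‖ ≤ γ * (Λ * ‖e‖) := by nlinarith [norm_nonneg e]
    have h7 : Λ * ‖e‖ ≤ c + D * c := by nlinarith
    have := mul_le_mul_of_nonneg_left h7 hγ
    linarith

def HasBAI (J : Submodule ℂ A) : Prop :=
  ∃ C : ℝ, ∀ F : Finset A, (∀ x ∈ F, x ∈ J) → ∀ ε : ℝ, 0 < ε →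
    ∃ e ∈ J, ‖e‖ ≤ C ∧ ∀ x ∈ F, ‖e * x - x‖ < ε ∧ ‖x * e - x‖ < ε

lemma core [CompleteSpace A] (H : BAC A) (hJ : IsClosed (J : Set A)) (hc : J.ClosedComplemented)
    (f : Frame J ι κ) : HasBAI J := by
  obtain ⟨K1, hK1, hR⟩ := right_ai H J hJ hc f.hl
  obtain ⟨K2, hK2, hL⟩ := left_ai H J hJ hc f.hr
  have hb : ∃ N : ℝ, (∀ g ∈ J, (∀ x ∈ J, ‖x * g‖ ≤ K1 * ‖x‖) → ‖g‖ ≤ N) ∧
      ∀ e ∈ J, (∀ x ∈ J, ‖e * x‖ ≤ K2 * ‖x‖) → ‖e‖ ≤ N := by
    by_cases hu : ∀ N, ∃ g ∈ J, (∀ x ∈ J, ‖x * g‖ ≤ (K1 + K2) * ‖x‖) ∧ N < ‖g‖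
    · obtain ⟨N, hN⟩ := dichot H hJ f (K1 + K2) (by positivity) hu
      have hN' : ∀ e ∈ J, (∀ x ∈ J, ‖e * x‖ ≤ K2 * ‖x‖) → ‖e‖ ≤ |N| := fun e he h =>
        (hN e he fun x hx => (h x hx).trans (by nlinarith [norm_nonneg x])).trans (le_abs_self N)
      refine ⟨K1 * |N| + 1 + |N|, fun g hg hgK => ?_, fun e he h => (hN' e he h).trans ?_⟩
      · obtain ⟨e, he, h1, h2⟩ := hL {g} (by simpa using hg) 1 one_pos
        have h3 := h2 g (by simp)
        have h4 := hgK e he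
        have h5 := mul_le_mul_of_nonneg_left (hN' e he h1) hK1
        have h6 := norm_sub_le (e * g) (e * g - g)
        simp only [sub_sub_cancel] at h6
        linarith [abs_nonneg N]
      · have : 0 ≤ K1 * |N| := by positivity
        linarith
    · push Not at hu
      obtain ⟨N, hN⟩ := hu
      have hN' : ∀ g ∈ J, (∀ x ∈ J, ‖x * g‖ ≤ K1 * ‖x‖) → ‖g‖ ≤ |N| := fun g hg h =>
        (hN g hg fun x hx => (h x hx).trans (by nlinarith [norm_nonneg x])).trans (le_abs_self N)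
      refine ⟨K2 * |N| + 1 + |N|, fun g hg h => (hN' g hg h).trans ?_, fun e he heK => ?_⟩
      · have : 0 ≤ K2 * |N| := by positivity
        linarith
      · obtain ⟨g, hg, h1, h2⟩ := hR {e} (by simpa using he) 1 one_pos
        have h3 := h2 e (by simp)
        have h4 := heK g hg
        have h5 := mul_le_mul_of_nonneg_left (hN' g hg h1) hK2
        have h6 := norm_sub_le (e * g) (e * g - e)
        simp only [sub_sub_cancel] at h6
        linarith [abs_nonneg N]
  obtain ⟨N, hN1, hN2⟩ := hb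
  refine ⟨N + N + N * N, fun F hF ε hε => ?_⟩
  have hN0 : 0 ≤ N := (norm_nonneg _).trans (hN1 0 J.zero_mem fun x _ => by
    simp only [mul_zero, norm_zero]; positivity)
  obtain ⟨g, hg, g1, g2⟩ := hR F hF (ε / (N + 1)) (by positivity)
  obtain ⟨e, he, e1, e2⟩ := hL F hF (ε / (N + 1)) (by positivity)
  have g3 := hN1 g hg g1
  have e3 := hN2 e he e1
  refine ⟨e + g - g * e, J.sub_mem (J.add_mem he hg) (f.hl _ _ he), ?_, fun x hx => ⟨?_, ?_⟩⟩
  · have h1 := norm_sub_le (e + g) (g * e)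
    have h2 := norm_add_le e g
    have h3 := norm_mul_le g e
    have h4 := mul_le_mul g3 e3 (norm_nonneg _) hN0
    linarith
  · have h1 : (e + g - g * e) * x - x = (e * x - x) - g * (e * x - x) := by noncomm_ring
    have h2 := e2 x hx
    rw [lt_div_iff₀ (by positivity)] at h2
    have h3 := norm_sub_le (e * x - x) (g * (e * x - x))
    have h4 := norm_mul_le g (e * x - x)
    have h5 := mul_le_mul_of_nonneg_right g3 (norm_nonneg (e * x - x))
    rw [h1]; linarith
  · have h1 : x * (e + g - g * e) - x = (x * g - x) - (x * g - x) * e := by noncomm_ring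
    have h2 := g2 x hx
    rw [lt_div_iff₀ (by positivity)] at h2
    have h3 := norm_sub_le (x * g - x) ((x * g - x) * e)
    have h4 := norm_mul_le (x * g - x) e
    have h5 := mul_le_mul_of_nonneg_left e3 (norm_nonneg (x * g - x))
    rw [h1]; linarith

end Pool.Agent.H1.Bac
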