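import Pool.Agent.H1.BacC

set_option autoImplicit false

namespace Pool.Agent.H1.Bac
open ContinuousLinearMap Finset

variable {A : Type} [NormedRing A] [NormedAlgebra ℂ A]

lemma bai_top : HasBAI (⊤ : Submodule ℂ A) :=
  ⟨‖(1 : A)‖, fun F _ ε hε => ⟨1, trivial, le_rfl, fun x _ => by simpa using hε⟩⟩

lemma bai_inf (J1 J2 : Submodule ℂ A) (h1 : HasBAI J1) (h2 : HasBAI J2)
    (hr : ∀ a, ∀ x ∈ J1, x * a ∈ J1) (hl : ∀ a, ∀ x ∈ J2, a * x ∈ J2) : HasBAI (J1 ⊓ J2) := by
  obtain ⟨C1, h1⟩ := h1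
  obtain ⟨C2, h2⟩ := h2
  refine ⟨|C1| * |C2|, fun F hF ε hε => ?_⟩
  have hp : 0 < |C1| + |C2| + 1 := by positivity
  obtain ⟨e, he, e1, e2⟩ := h1 F (fun x hx => (hF x hx).1) (ε / (|C1| + |C2| + 1)) (by positivity)
  obtain ⟨g, hg, g1, g2⟩ := h2 F (fun x hx => (hF x hx).2) (ε / (|C1| + |C2| + 1)) (by positivity)
  have e3 := e1.trans (le_abs_self C1)
  have g3 := g1.trans (le_abs_self C2)
  refine ⟨e * g, ⟨hr _ _ he, hl _ _ hg⟩,
    (norm_mul_le _ _).trans (mul_le_mul e3 g3 (norm_nonneg _) (abs_nonneg _)), fun x hx => ?_⟩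
  obtain ⟨a1, a2⟩ := e2 x hx
  obtain ⟨a3, a4⟩ := g2 x hx
  set δ := ε / (|C1| + |C2| + 1) with hδ
  have hδ0 : 0 < δ := by positivity
  have hε' : ε = δ * (|C1| + |C2| + 1) := by rw [hδ]; field_simp
  constructor
  · have b1 : e * g * x - x = e * (g * x - x) + (e * x - x) := by noncomm_ring
    have b2 := norm_add_le (e * (g * x - x)) (e * x - x)
    have b3 := norm_mul_le e (g * x - x)
    have b4 := mul_le_mul e3 a3.le (norm_nonneg _) (abs_nonneg _)
    rw [b1]; nlinarith [abs_nonneg C2]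
  · have b1 : x * (e * g) - x = (x * e - x) * g + (x * g - x) := by noncomm_ring
    have b2 := norm_add_le ((x * e - x) * g) (x * g - x)
    have b3 := norm_mul_le (x * e - x) g
    have b4 := mul_le_mul a2.le g3 (norm_nonneg _) hδ0.le
    rw [b1]; nlinarith [abs_nonneg C1]

lemma bai_iInf {σ : Type} (J : σ → Submodule ℂ A) (h : ∀ i, HasBAI (J i))
    (hr : ∀ i a, ∀ x ∈ J i, x * a ∈ J i) (hl : ∀ i a, ∀ x ∈ J i, a * x ∈ J i) (s : Finset σ) :
    HasBAI (s.inf J) := by
  classical
  induction s using Finset.induction_on with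
  | empty => simpa using bai_top
  | insert i s _ ih =>
    rw [Finset.inf_insert]
    refine bai_inf _ _ (h i) ih (hr i) fun a x hx => ?_
    rw [Submodule.mem_finsetInf] at hx ⊢
    exact fun j hj => hl j a x (hx j hj)

lemma fin_of_le {J K : Submodule ℂ A} [FiniteDimensional ℂ (A ⧸ J)] (h : J ≤ K) :
    FiniteDimensional ℂ (A ⧸ K) :=
  Module.Finite.of_surjective (Submodule.factor h) (Submodule.factor_surjective h)

lemma bai_matrix [CompleteSpace A] (H : BAC A) (J : Submodule ℂ A) (hJ : IsClosed (J : Set A))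
    [FiniteDimensional ℂ (A ⧸ J)] (d : ℕ) [NeZero d] (ρ : A →ₐ[ℂ] Matrix (Fin d) (Fin d) ℂ)
    (hρ : Function.Surjective ρ) (hk : ∀ x ∈ J, ρ x = 0) :
    HasBAI (LinearMap.ker ρ.toLinearMap) := by
  have hle : J ≤ LinearMap.ker ρ.toLinearMap := fun x hx => hk x hx
  have hc := Submodule.isClosed_mono_of_finiteDimensional_quotient hJ hle
  have := fin_of_le hle
  choose E hE using hρ
  let φ0 : Fin d × Fin d → (A →ₗ[ℂ] ℂ) := fun k =>
    (Matrix.entryLinearMap ℂ ℂ k.1 k.2).comp ρ.toLinearMap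
  have hφ0 : ∀ k, Continuous (φ0 k) := fun k =>
    LinearMap.continuous_of_isClosed_ker _ (Submodule.isClosed_mono_of_finiteDimensional_quotient hJ
      (fun x hx => by simp [φ0, hk x hx]))
  let f : Frame (LinearMap.ker ρ.toLinearMap) (Fin d × Fin d) (Fin d) :=
    { b := fun k => E (Matrix.single k.1 k.2 1)
      φ := fun k => ⟨φ0 k, hφ0 k⟩
      s := fun k m => E (Matrix.single m k.1 1)
      t := fun k m => E (Matrix.single k.2 m 1)
      k0 := (0, 0)
      hl := fun a x hx => by
        have : ρ x = 0 := hx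
        simp [this]
      hr := fun a x hx => by
        have : ρ x = 0 := hx
        simp [this]
      hφJ := fun k x hx => by
        have : ρ x = 0 := hx
        simp [φ0, this]
      hP := fun x => by
        simp only [LinearMap.mem_ker, AlgHom.toLinearMap_apply, map_sub, map_sum, map_smul, hE]
        rw [sub_eq_zero, Fintype.sum_prod_type]
        conv_lhs => rw [Matrix.matrix_eq_sum_single (ρ x)]
        simp [φ0]
      hbi := fun k l => by
        obtain ⟨k1, k2⟩ := k
        obtain ⟨l1, l2⟩ := l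
        simp [φ0, hE, Matrix.single_apply, eq_comm]
      hext := fun k x => by
        simp only [LinearMap.mem_ker, AlgHom.toLinearMap_apply, map_sub, map_sum, map_smul, hE,
          map_mul, map_one, Matrix.single_mul_mul_single]
        rw [sub_eq_zero]
        ext i j
        simp [φ0, Matrix.sum_apply, Matrix.single_apply, Matrix.one_apply, ite_and, eq_comm]
      h0 := by simp [φ0] }
  exact core H hc (Submodule.ClosedComplemented.of_finiteDimensional_quotient hc) f

theorem main [CompleteSpace A] (H : BAC A) (J : Submodule ℂ A)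
    (hI : ∀ a x : A, x ∈ J → a * x ∈ J ∧ x * a ∈ J) (hJ : IsClosed (J : Set A))
    [FiniteDimensional ℂ (A ⧸ J)] : HasBAI J := by
  let I : Ideal A :=
    { carrier := J, add_mem' := J.add_mem, zero_mem' := J.zero_mem
      smul_mem' := fun a x hx => (hI a x hx).1 }
  have : I.IsTwoSided := ⟨fun b hx => (hI b _ hx).2⟩
  let q : A →ₐ[ℂ] A ⧸ I := Ideal.Quotient.mkₐ ℂ I
  have hq : Function.Surjective q := Ideal.Quotient.mkₐ_surjective ℂ I
  have hqk : ∀ x, q x = 0 ↔ x ∈ J := fun x => Ideal.Quotient.eq_zero_iff_mem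
  have hfin : FiniteDimensional ℂ (A ⧸ I) :=
    Module.Finite.of_surjective (J.liftQ q.toLinearMap fun x hx => (hqk x).mpr hx) (fun y => by
      obtain ⟨x, rfl⟩ := hq y
      exact ⟨J.mkQ x, rfl⟩)
  have hart : IsArtinianRing (A ⧸ I) := IsArtinianRing.of_finite ℂ _
  have hnoe : IsNoetherianRing (A ⧸ I) := inferInstance
  have hss : IsSemisimpleRing (A ⧸ I) := by
    rw [IsArtinianRing.isSemisimpleRing_iff_jacobson]
    set N := Ring.jacobson (A ⧸ I) with hN
    refine Submodule.FG.eq_bot_of_le_jacobson_smul (IsNoetherian.noetherian N) ?_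
    let N1 : Submodule ℂ A := (N.restrictScalars ℂ).comap q.toLinearMap
    let N2 : Submodule ℂ A := ((N • N : Submodule (A ⧸ I) (A ⧸ I)).restrictScalars ℂ).comap
      q.toLinearMap
    have l1 : J ≤ N1 := fun x hx => by simp [N1, (hqk x).mpr hx]
    have l2 : J ≤ N2 := fun x hx => by simp [N2, (hqk x).mpr hx]
    have c1 := Submodule.isClosed_mono_of_finiteDimensional_quotient hJ l1
    have c2 := Submodule.isClosed_mono_of_finiteDimensional_quotient hJ l2
    have := fin_of_le l1
    obtain ⟨K, -, hK⟩ := right_ai H N1 c1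
      (Submodule.ClosedComplemented.of_finiteDimensional_quotient c1) (fun a x hx => by
        have hx' : q x ∈ N := hx
        change q (a * x) ∈ N
        rw [map_mul]; exact N.mul_mem_left _ hx')
    intro y hy
    obtain ⟨x, rfl⟩ := hq y
    have : x ∈ closure (N2 : Set A) := by
      rw [Metric.mem_closure_iff]
      intro ε hε
      obtain ⟨u, hu, -, h2⟩ := hK {x} (fun z hz => by
        rw [Finset.mem_singleton.mp hz]; exact hy) ε hε
      refine ⟨x * u, ?_, ?_⟩
      · change q (x * u) ∈ (N • N : Submodule (A ⧸ I) (A ⧸ I))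
        rw [map_mul]
        exact Submodule.smul_mem_smul hy hu
      · rw [dist_comm, dist_eq_norm]; exact h2 x (by simp)
    rw [c2.closure_eq] at this
    exact this
  obtain ⟨n, d, hd, ⟨e⟩⟩ := IsSemisimpleRing.exists_algEquiv_pi_matrix_of_isAlgClosed ℂ (A ⧸ I)
  let ρ : ∀ i, A →ₐ[ℂ] Matrix (Fin (d i)) (Fin (d i)) ℂ := fun i =>
    (Pi.evalAlgHom ℂ (fun i => Matrix (Fin (d i)) (Fin (d i)) ℂ) i).comp (e.toAlgHom.comp q)
  have hρ : ∀ i x, ρ i x = e (q x) i := fun i x => rfl
  have hb := bai_iInf (fun i => LinearMap.ker (ρ i).toLinearMap)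
    (fun i => bai_matrix H J hJ (d i) (ρ i) (fun y => by
        obtain ⟨z, hz⟩ := e.surjective (Pi.single i y)
        obtain ⟨x, rfl⟩ := hq z
        exact ⟨x, by rw [hρ, hz]; simp⟩)
      (fun x hx => by rw [hρ, (hqk x).mpr hx]; simp))
    (fun i a x hx => by
      have : ρ i x = 0 := hx
      simp [this])
    (fun i a x hx => by
      have : ρ i x = 0 := hx
      simp [this]) Finset.univ
  convert hb using 1
  ext x
  rw [Submodule.mem_finsetInf, ← hqk]
  constructor
  · intro h i _
    change ρ i x = 0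
    rw [hρ, h]; simp
  · intro h
    apply e.injective
    ext1 i
    simpa [hρ] using h i (Finset.mem_univ i)

end Pool.Agent.H1.Bac
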