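import Mathlib

set_option autoImplicit false
open MeasureTheory Set Filter Topology Complex

namespace Pool.Agent.H1.Sharp

theorem norm_Gamma_le' (z : ℂ) (hz : 0 < z.re) : ‖Gamma z‖ ≤ Real.Gamma z.re := by
  rw [Gamma_eq_integral hz, Real.Gamma_eq_integral hz, GammaIntegral]
  refine le_trans (norm_integral_le_integral_norm _) (le_of_eq ?_)
  refine setIntegral_congr_fun measurableSet_Ioi fun x hx => ?_
  show ‖_ * _‖ = _
  rw [norm_mul, norm_cpow_eq_rpow_re_of_pos hx, Complex.norm_of_nonneg (Real.exp_pos _).le]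
  simp

theorem inv_Gamma_shift (w : ℂ) (N : ℕ) :
    (Gamma w)⁻¹ = (∏ j ∈ Finset.range N, (w + j)) * (Gamma (w + N))⁻¹ := by
  induction N with
  | zero => simp
  | succ N ih =>
    rw [ih, Finset.prod_range_succ, one_div_Gamma_eq_self_mul_one_div_Gamma_add_one (w + N)]
    push_cast
    rw [add_assoc]
    ring

theorem norm_sin_le' (z : ℂ) : ‖Complex.sin z‖ ≤ Real.exp |z.im| := by
  unfold Complex.sin
  rw [norm_div, norm_mul, norm_I, mul_one]
  have h1 : ‖cexp (-z * I)‖ ≤ Real.exp |z.im| := by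
    rw [norm_exp]
    apply Real.exp_le_exp.mpr
    simp [le_abs_self]
  have h2 : ‖cexp (z * I)‖ ≤ Real.exp |z.im| := by
    rw [norm_exp]
    apply Real.exp_le_exp.mpr
    simp [neg_le_abs]
  have h3 := norm_sub_le (cexp (-z * I)) (cexp (z * I))
  have h4 : ‖(2 : ℂ)‖ = 2 := by simp
  rw [h4]
  linarith

theorem inv_Gamma_strip (a b : ℝ) : ∃ C : ℝ, ∀ w : ℂ, a ≤ w.re → w.re ≤ b → 1 ≤ |w.im| →
    ‖(Gamma w)⁻¹‖ ≤ C * Real.exp (Real.pi * |w.im|) := by
  obtain ⟨N, hN⟩ := exists_nat_ge b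
  have hc : ContinuousOn Real.Gamma (Icc 1 (1 + N - a)) := by
    intro x hx
    refine (Real.differentiableAt_Gamma fun m hm => ?_).continuousAt.continuousWithinAt
    have : (0 : ℝ) ≤ m := Nat.cast_nonneg m
    linarith [hx.1]
  obtain ⟨C, hC⟩ := isCompact_Icc.exists_bound_of_continuousOn hc
  refine ⟨C, fun w ha hb hi => ?_⟩
  set z := w - N with hz
  have hzim : z.im = w.im := by simp [hz]
  have hzre : z.re = w.re - N := by simp [hz]
  have h1 := inv_Gamma_shift z N
  rw [show z + N = w by simp [hz]] at h1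
  have h2 : 1 ≤ ‖∏ j ∈ Finset.range N, (z + j)‖ := by
    rw [norm_prod]
    calc (1 : ℝ) = ∏ _j ∈ Finset.range N, (1 : ℝ) := by simp
      _ ≤ _ := by
        apply Finset.prod_le_prod (fun _ _ => zero_le_one)
        intro j _
        refine le_trans ?_ (abs_im_le_norm (z + j))
        simpa [hzim] using hi
  have h3 : ‖(Gamma w)⁻¹‖ ≤ ‖(Gamma z)⁻¹‖ := by
    rw [h1, norm_mul]
    exact le_mul_of_one_le_left (norm_nonneg _) h2
  have hG : Gamma z ≠ 0 := by
    apply Gamma_ne_zero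
    intro m hm
    have := congrArg Complex.im hm
    rw [hzim] at this
    simp at this
    rw [this] at hi
    norm_num at hi
  have hre : (1 - z).re = 1 + N - w.re := by simp [hzre]; ring
  have hG' : Gamma (1 - z) ≠ 0 := Gamma_ne_zero_of_re_pos (by rw [hre]; linarith)
  have h4 := Gamma_mul_Gamma_one_sub z
  have hs : Complex.sin (Real.pi * z) ≠ 0 := by
    intro h
    rw [h, div_zero] at h4
    exact mul_ne_zero hG hG' h4
  have hpi : (Real.pi : ℂ) ≠ 0 := by exact_mod_cast Real.pi_ne_zero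
  have h5 : (Gamma z)⁻¹ = Gamma (1 - z) * Complex.sin (Real.pi * z) / Real.pi := by
    rw [eq_div_iff hs] at h4
    rw [eq_div_iff hpi, inv_mul_eq_iff_eq_mul₀ hG, ← mul_assoc]
    exact h4.symm
  have h6 : ‖Gamma (1 - z)‖ ≤ C := by
    refine le_trans (norm_Gamma_le' _ (by rw [hre]; linarith)) ?_
    refine le_trans (le_abs_self _) (hC _ ?_)
    rw [hre]
    constructor <;> linarith
  have h7 : ‖Complex.sin (Real.pi * z)‖ ≤ Real.exp (Real.pi * |w.im|) := by
    refine le_trans (norm_sin_le' _) (le_of_eq ?_)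
    simp [hzim, abs_mul, abs_of_pos Real.pi_pos]
  refine le_trans h3 ?_
  rw [h5, norm_div, norm_mul, Complex.norm_of_nonneg Real.pi_pos.le]
  have h8 := mul_le_mul h6 h7 (norm_nonneg _) (le_trans (norm_nonneg _) h6)
  refine le_trans (div_le_self (by positivity) ?_) h8
  linarith [Real.pi_gt_three]

theorem pl_bound (L : ℂ → ℂ) (k : ℝ) (hk : 0 ≤ k) (hL : Differentiable ℂ L)
    (hstrip : ∀ a b : ℝ, ∃ C : ℝ, ∀ w : ℂ, a ≤ w.re → w.re ≤ b → ‖L w‖ ≤ C)
    (hsym : ∀ w : ℂ, ‖L (k - starRingEnd ℂ w)‖ = ‖L w‖) (R C0 : ℝ)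
    (hR : ∀ w : ℂ, R ≤ w.re → ‖L w * (Gamma w)⁻¹ * (6 : ℂ) ^ (-w)‖ ≤ C0)
    (N : ℕ) (hN1 : 1 ≤ N) (hN : R ≤ k / 2 + N / 2) (w : ℂ) (hw1 : k / 2 - N / 2 ≤ w.re)
    (hw2 : w.re ≤ k / 2 + N / 2) :
    ‖L w * (Gamma w)⁻¹ * (6 : ℂ) ^ (-w)‖ ≤ C0 * (6 * (N + 2)) ^ N * (‖w‖ + N + 1) ^ N := by
  set f : ℂ → ℂ := fun w => L w * (Gamma w)⁻¹ * (6 : ℂ) ^ (-w) with hf
  have hfd : Differentiable ℂ f :=
    (hL.mul differentiable_one_div_Gamma).mul
      (differentiable_id.neg.const_cpow (Or.inl (by norm_num)))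
  have hN0 : (1 : ℝ) ≤ N := by exact_mod_cast hN1
  have hC0 : 0 ≤ C0 := le_trans (norm_nonneg _) (hR R (by simp))
  set B : ℝ := N / 2 + 1 with hB
  set g : ℂ → ℂ := fun w => f w / (w + B) ^ N with hg
  have h6 : ∀ z : ℂ, ‖(6 : ℂ) ^ (-z)‖ = (6 : ℝ) ^ (-z.re) := by
    intro z
    have := norm_cpow_eq_rpow_re_of_pos (x := 6) (by norm_num) (-z)
    simpa using this
  have hone : ∀ z : ℂ, k / 2 - N / 2 ≤ z.re → 1 ≤ ‖z + B‖ := by
    intro z hz
    refine le_trans ?_ (re_le_norm _)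
    simp only [add_re, ofReal_re, hB]
    linarith
  have hgle : ∀ z : ℂ, k / 2 - N / 2 ≤ z.re → ‖g z‖ ≤ ‖f z‖ := by
    intro z hz
    simp only [hg]
    rw [norm_div, norm_pow]
    exact div_le_self (norm_nonneg _) (one_le_pow₀ (hone z hz))
  have hK : (1 : ℝ) ≤ (6 * (N + 2)) ^ N := one_le_pow₀ (by linarith)
  have key : ‖g w‖ ≤ C0 * (6 * (N + 2)) ^ N := by
    refine PhragmenLindelof.vertical_strip (a := k / 2 - N / 2) (b := k / 2 + N / 2) ?_ ?_ ?_ ?_
      hw1 hw2
    · apply DifferentiableOn.diffContOnCl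
      intro z hz
      have hz' : z ∈ re ⁻¹' Icc (k / 2 - N / 2) (k / 2 + N / 2) :=
        closure_minimal (preimage_mono Ioo_subset_Icc_self)
          (isClosed_Icc.preimage continuous_re) hz
      refine DifferentiableAt.differentiableWithinAt ?_
      refine (hfd z).div (by fun_prop) (pow_ne_zero _ ?_)
      intro h0
      have := hone z hz'.1
      rw [h0, norm_zero] at this
      linarith
    · have hd : k / 2 + N / 2 - (k / 2 - N / 2) = N := by ring
      rw [hd]
      have hc : 0 < Real.pi / N / 2 := by have := Real.pi_pos; positivity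
      refine ⟨Real.pi / N / 2, by linarith, 2 * N, ?_⟩
      obtain ⟨C1, hC1⟩ := hstrip (k / 2 - N / 2) (k / 2 + N / 2)
      obtain ⟨C2, hC2⟩ := inv_Gamma_strip (k / 2 - N / 2) (k / 2 + N / 2)
      refine Asymptotics.IsBigO.of_bound (|C1| * |C2| * (6 : ℝ) ^ (-(k / 2 - N / 2))) ?_
      rw [eventually_inf_principal]
      have hev : ∀ᶠ z : ℂ in comap (_root_.abs ∘ im) atTop, 1 ≤ |z.im| :=
        (eventually_ge_atTop (1 : ℝ)).comap (_root_.abs ∘ im)
      filter_upwards [hev] with z hz1 hz2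
      refine le_trans (hgle z hz2.1.le) ?_
      simp only [hf]
      rw [norm_mul, norm_mul, h6, Real.norm_of_nonneg (Real.exp_pos _).le]
      have e1 := le_trans (hC1 z hz2.1.le hz2.2.le) (le_abs_self _)
      have e2 : ‖(Gamma z)⁻¹‖ ≤ |C2| * Real.exp (2 * N * Real.exp (Real.pi / N / 2 * |z.im|)) := by
        refine le_trans (hC2 z hz2.1.le hz2.2.le hz1) ?_
        apply mul_le_mul (le_abs_self _) _ (Real.exp_pos _).le (abs_nonneg _)
        apply Real.exp_le_exp.mpr
        have e3 := Real.add_one_le_exp (Real.pi / N / 2 * |z.im|)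
        have e4 : Real.pi * |z.im| = 2 * N * (Real.pi / N / 2 * |z.im|) := by field_simp
        rw [e4]
        apply mul_le_mul_of_nonneg_left _ (by positivity)
        linarith
      have e3 : (6 : ℝ) ^ (-z.re) ≤ (6 : ℝ) ^ (-(k / 2 - N / 2)) :=
        Real.rpow_le_rpow_of_exponent_le (by norm_num) (by linarith [hz2.1])
      calc ‖L z‖ * ‖(Gamma z)⁻¹‖ * (6 : ℝ) ^ (-z.re)
          ≤ |C1| * (|C2| * Real.exp (2 * N * Real.exp (Real.pi / N / 2 * |z.im|))) *
            (6 : ℝ) ^ (-(k / 2 - N / 2)) := by gcongr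
        _ = _ := by ring
    · intro z hz
      have e1 : (k : ℂ) - starRingEnd ℂ z = z + N := by
        apply Complex.ext
        · simp [hz]; ring
        · simp
      have e2 := hsym z
      rw [e1] at e2
      have e3 := hR (z + N) (by simp [hz]; linarith)
      have e4 : ‖f z‖ = 6 ^ N * ‖∏ j ∈ Finset.range N, (z + j)‖ *
          ‖L (z + N) * (Gamma (z + N))⁻¹ * (6 : ℂ) ^ (-(z + N))‖ := by
        simp only [hf]
        rw [inv_Gamma_shift z N]
        simp only [norm_mul, h6, e2, add_re, natCast_re]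
        have : (6 : ℝ) ^ (-z.re) = 6 ^ N * (6 : ℝ) ^ (-(z.re + N)) := by
          rw [← Real.rpow_natCast, ← Real.rpow_add (by norm_num)]
          congr 1
          ring
        rw [this]
        ring
      have e5 : ‖∏ j ∈ Finset.range N, (z + j)‖ ≤ ((N + 2) * ‖z + B‖) ^ N := by
        rw [norm_prod]
        calc ∏ j ∈ Finset.range N, ‖z + j‖ ≤ ∏ j ∈ Finset.range N, ((N + 2) * ‖z + B‖) := by
              apply Finset.prod_le_prod (fun _ _ => norm_nonneg _)
              intro j hj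
              have hj' : (j : ℝ) ≤ N := by exact_mod_cast (Finset.mem_range.mp hj).le
              have hj0 : (0 : ℝ) ≤ j := Nat.cast_nonneg j
              have e6 : z + j = (z + B) + (((j : ℝ) - B : ℝ) : ℂ) := by push_cast; ring
              have e7 := norm_add_le (z + B) (((j : ℝ) - B : ℝ) : ℂ)
              rw [← e6, Complex.norm_real, Real.norm_eq_abs] at e7
              have e8 : |(j : ℝ) - B| ≤ N + 1 := by
                rw [abs_le]; constructor <;> linarith
              have e9 := hone z hz.ge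
              nlinarith
          _ = _ := by rw [Finset.prod_const, Finset.card_range]
      simp only [hg]
      have e9 := hone z hz.ge
      rw [norm_div, norm_pow, div_le_iff₀ (by positivity), e4]
      calc (6 : ℝ) ^ N * ‖∏ j ∈ Finset.range N, (z + j)‖ *
            ‖L (z + N) * (Gamma (z + N))⁻¹ * (6 : ℂ) ^ (-(z + N))‖
          ≤ 6 ^ N * ((N + 2) * ‖z + B‖) ^ N * C0 := by gcongr
        _ = _ := by rw [mul_pow, mul_pow]; ring
    · intro z hz
      refine le_trans (hgle z (by rw [hz]; linarith)) ?_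
      refine le_trans (hR z (by rw [hz]; exact hN)) ?_
      exact le_mul_of_one_le_right hC0 hK
  have e9 := hone w hw1
  simp only [hg] at key
  rw [norm_div, norm_pow, div_le_iff₀ (by positivity)] at key
  refine le_trans key ?_
  have e10 : ‖w + B‖ ≤ ‖w‖ + N + 1 := by
    refine le_trans (norm_add_le _ _) ?_
    rw [Complex.norm_real, Real.norm_eq_abs, abs_of_pos (by positivity)]
    linarith
  gcongr

theorem mellin_strip (θ : ℝ → ℂ) (h : ∀ s : ℂ, MellinConvergent θ s) (a b : ℝ) :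
    ∃ C : ℝ, ∀ w : ℂ, a ≤ w.re → w.re ≤ b → ‖mellin θ w‖ ≤ C := by
  have ha := (h a).norm
  have hb := (h b).norm
  refine ⟨_, fun w h1 h2 => norm_integral_le_of_norm_le (ha.add hb) ?_⟩
  filter_upwards [ae_restrict_mem measurableSet_Ioi] with t ht
  simp only [Pi.add_apply, norm_smul, norm_cpow_eq_rpow_re_of_pos ht, sub_re, ofReal_re, one_re]
  rw [← add_mul]
  apply mul_le_mul_of_nonneg_right _ (norm_nonneg _)
  have ht0 : (0 : ℝ) < t := ht
  rcases le_total t 1 with h3 | h3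
  · have := Real.rpow_le_rpow_of_exponent_ge ht0 h3 (show a - 1 ≤ w.re - 1 by linarith)
    have := Real.rpow_pos_of_pos ht0 (b - 1)
    linarith
  · have := Real.rpow_le_rpow_of_exponent_le h3 (show w.re - 1 ≤ b - 1 by linarith)
    have := Real.rpow_pos_of_pos ht0 (a - 1)
    linarith

theorem mellin_conj (θ : ℝ → ℝ) (w : ℂ) :
    mellin (fun t => (θ t : ℂ)) (starRingEnd ℂ w) =
      starRingEnd ℂ (mellin (fun t => (θ t : ℂ)) w) := by
  unfold mellin
  rw [← integral_conj]
  refine setIntegral_congr_fun measurableSet_Ioi fun t ht => ?_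
  simp only [smul_eq_mul, map_mul, conj_ofReal]
  congr 1
  have h1 : starRingEnd ℂ w - 1 = starRingEnd ℂ (w - 1) := by simp
  rw [h1, cpow_conj _ _ (by rw [arg_ofReal_of_nonneg (le_of_lt ht)]; exact Real.pi_ne_zero.symm),
    conj_ofReal]

end Pool.Agent.H1.Sharp
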