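import Mathlib
import Pool.Agent.H1.SharpC

set_option autoImplicit false
open MeasureTheory Set Filter Topology Complex Asymptotics

namespace Pool.Agent.H1.Barnes

theorem patch (E : ℕ → ℂ → ℂ) (G : ℂ → ℂ)
    (hd : ∀ N : ℕ, DifferentiableOn ℂ (E N) {z : ℂ | -(N : ℝ) < z.re})
    (hG : ∀ (N : ℕ) (z : ℂ), 0 < z.re → E N z = G z) :
    ∃ F : ℂ → ℂ, Differentiable ℂ F ∧ ∀ z : ℂ, 0 < z.re → F z = G z := by
  have ho : ∀ r : ℝ, IsOpen {z : ℂ | r < z.re} := fun r => isOpen_lt continuous_const continuous_re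
  have key : ∀ N M : ℕ, N ≤ M → ∀ z : ℂ, -(N : ℝ) < z.re → E N z = E M z := by
    intro N M hNM z hz
    have hNM' : (N : ℝ) ≤ M := by exact_mod_cast hNM
    have h1 : AnalyticOnNhd ℂ (E N) {z : ℂ | -(N : ℝ) < z.re} := (hd N).analyticOnNhd (ho _)
    have h2 : AnalyticOnNhd ℂ (E M) {z : ℂ | -(N : ℝ) < z.re} :=
      ((hd M).mono fun w hw => by
        simp only [mem_ofPred_eq] at hw ⊢
        linarith).analyticOnNhd (ho _)
    have h3 : (1 : ℂ) ∈ {z : ℂ | -(N : ℝ) < z.re} := by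
      simp only [mem_ofPred_eq, one_re]
      have : (0 : ℝ) ≤ N := Nat.cast_nonneg N
      linarith
    refine h1.eqOn_of_preconnected_of_eventuallyEq h2
      (convex_halfSpace_re_gt _).isPreconnected h3 ?_ hz
    filter_upwards [(ho 0).mem_nhds (show (1 : ℂ) ∈ {z : ℂ | (0 : ℝ) < z.re} by simp)] with w hw
    rw [hG N w hw, hG M w hw]
  have key2 : ∀ N M : ℕ, ∀ z : ℂ, -(N : ℝ) < z.re → -(M : ℝ) < z.re → E N z = E M z := by
    intro N M z h1 h2
    rcases le_total N M with h | h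
    · exact key N M h z h1
    · exact (key M N h z h2).symm
  have hc : ∀ z : ℂ, -((⌈-z.re⌉₊ + 1 : ℕ) : ℝ) < z.re := by
    intro z
    have := Nat.le_ceil (-z.re)
    push_cast
    linarith
  refine ⟨fun z => E (⌈-z.re⌉₊ + 1) z, fun z => ?_, fun z hz => hG _ z hz⟩
  have h1 := (hd (⌈-z.re⌉₊ + 1)).differentiableAt ((ho _).mem_nhds (hc z))
  refine h1.congr_of_eventuallyEq ?_
  filter_upwards [(ho _).mem_nhds (hc z)] with w hw
  exact key2 _ _ w (hc w) hw

theorem hasMellin_exp_pow (k : ℕ) (z : ℂ) (hz : 0 < z.re) :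
    HasMellin (fun x : ℝ => cexp (-(x : ℂ)) * (x : ℂ) ^ k) z (Gamma (z + k)) := by
  have hz' : 0 < (z + k).re := by
    have : (0 : ℝ) ≤ k := Nat.cast_nonneg k
    simp only [add_re, natCast_re]
    linarith
  have e : ∀ x ∈ Ioi (0 : ℝ), (x : ℂ) ^ (z - 1) • (cexp (-(x : ℂ)) * (x : ℂ) ^ k) =
      (Real.exp (-x) : ℂ) * (x : ℂ) ^ (z + k - 1) := by
    intro x hx
    have hx0 : (x : ℂ) ≠ 0 := by exact_mod_cast (ne_of_gt hx)
    rw [show z + k - 1 = (z - 1) + k by ring, cpow_add _ _ hx0, cpow_natCast]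
    push_cast
    rw [smul_eq_mul]
    ring
  constructor
  · exact (integrableOn_congr_fun e measurableSet_Ioi).mpr (GammaIntegral_convergent hz')
  · rw [Gamma_eq_integral hz', GammaIntegral, mellin]
    exact setIntegral_congr_fun measurableSet_Ioi e

theorem exists_entire (H : ℂ → ℂ) (hH : AnalyticAt ℂ H 0)
    (hc : ContinuousOn (fun x : ℝ => H x) (Ioi 0))
    (htop : (fun x : ℝ => H x) =O[atTop] fun x : ℝ => x ^ 3) :
    ∃ E : ℂ → ℂ, Differentiable ℂ E ∧ ∀ z : ℂ, 0 < z.re →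
      E z = mellin (fun x : ℝ => cexp (-(x : ℂ)) * H x) z * (Gamma z)⁻¹ := by
  obtain ⟨p, hp⟩ := hH
  set R : ℕ → ℝ → ℂ := fun N x =>
    cexp (-(x : ℂ)) * (H x - ∑ k ∈ Finset.range N, (x : ℂ) ^ k * p.coeff k) with hR
  have hli : ∀ N, LocallyIntegrableOn (R N) (Ioi 0) := by
    intro N
    refine ContinuousOn.locallyIntegrableOn ?_ measurableSet_Ioi
    exact ContinuousOn.mul (by fun_prop) (hc.sub (by fun_prop))
  have hexp : ∀ x : ℝ, ‖cexp (-(x : ℂ))‖ = Real.exp (-x) := by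
    intro x
    rw [norm_exp]
    simp
  have hRtop : ∀ N, R N =O[atTop] fun x : ℝ => Real.exp (-(1 / 2) * x) := by
    intro N
    have h1 : ∀ k : ℕ, (fun x : ℝ => x ^ k) =O[atTop] fun x : ℝ => Real.exp (1 / 2 * x) :=
      fun k => (isLittleO_pow_exp_pos_mul_atTop k (by norm_num)).isBigO
    have h2 : (fun x : ℝ => H x - ∑ k ∈ Finset.range N, (x : ℂ) ^ k * p.coeff k) =O[atTop]
        fun x : ℝ => Real.exp (1 / 2 * x) := by
      refine (htop.trans (h1 3)).sub (IsBigO.fun_sum fun k _ => ?_)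
      refine IsBigO.trans ?_ (h1 k)
      refine IsBigO.of_bound ‖p.coeff k‖ (Eventually.of_forall fun x => le_of_eq ?_)
      simp [mul_comm]
    have h3 : (fun x : ℝ => cexp (-(x : ℂ))) =O[atTop] fun x : ℝ => Real.exp (-x) :=
      IsBigO.of_bound 1 (Eventually.of_forall fun x => by rw [hexp]; simp)
    refine (h3.mul h2).congr_right fun x => ?_
    rw [← Real.exp_add]
    congr 1
    ring
  have hRbot : ∀ N : ℕ, R N =O[𝓝[>] 0] fun x : ℝ => x ^ (-(-(N : ℝ))) := by
    intro N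
    have h1 := (hp.isBigO_sub_partialSum_pow N).comp_tendsto
      ((continuous_ofReal.tendsto' 0 0 (by simp)).mono_left (nhdsWithin_le_nhds (s := Ioi 0)))
    have h2 : (fun x : ℝ => cexp (-(x : ℂ))) =O[𝓝[>] 0] fun _ : ℝ => (1 : ℝ) := by
      refine IsBigO.of_bound 1 ?_
      filter_upwards [self_mem_nhdsWithin] with x hx
      rw [hexp]
      simp only [norm_one, mul_one, Real.exp_le_one_iff]
      exact neg_nonpos.mpr (le_of_lt hx)
    refine (h2.mul h1).congr' (Eventually.of_forall fun x => ?_) ?_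
    · simp [hR, FormalMultilinearSeries.partialSum]
    · filter_upwards [self_mem_nhdsWithin] with x hx
      simp [abs_of_pos (show 0 < x from hx)]
  have hconv : ∀ (N : ℕ) (z : ℂ), -(N : ℝ) < z.re → MellinConvergent (R N) z := fun N z hz =>
    mellinConvergent_of_isBigO_rpow_exp (by norm_num) (hli N) (hRtop N) (hRbot N) hz
  refine patch (fun N z => mellin (R N) z * (Gamma z)⁻¹ +
    ∑ k ∈ Finset.range N, p.coeff k * ∏ j ∈ Finset.range k, (z + j)) _ (fun N z hz => ?_) ?_
  · refine DifferentiableAt.differentiableWithinAt ?_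
    refine ((mellin_differentiableAt_of_isBigO_rpow_exp (by norm_num) (hli N) (hRtop N)
      (hRbot N) hz).mul (differentiable_one_div_Gamma z)).add ?_
    fun_prop
  · intro N z hz
    induction N with
    | zero => simp [hR]
    | succ N ih =>
      rw [← ih, Finset.sum_range_succ]
      have hN : (0 : ℝ) ≤ N := Nat.cast_nonneg N
      have h1 := hasMellin_exp_pow N z hz
      have h2 := hasMellin_const_smul h1.1 (p.coeff N)
      have h3 := hasMellin_sub (hconv N z (by linarith)) h2.1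
      have h4 : R (N + 1) = fun x : ℝ =>
          R N x - p.coeff N • (cexp (-(x : ℂ)) * (x : ℂ) ^ N) := by
        funext x
        simp only [hR, Finset.sum_range_succ, smul_eq_mul]
        ring
      have h5 : Gamma (z + N) ≠ 0 := Gamma_ne_zero_of_re_pos (by simp; linarith)
      rw [h4, h3.2, h2.2, h1.2, Sharp.inv_Gamma_shift z N, smul_eq_mul]
      field_simp
      ring

end Pool.Agent.H1.Barnes
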