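import Mathlib
import Pool.Agent.H1.BarnesA

set_option autoImplicit false
open MeasureTheory Set Filter Topology Complex Asymptotics

namespace Pool.Agent.H1.Barnes

theorem hasSum_pi (n : ℕ) (f : Fin n → ℕ → ℝ) (s : Fin n → ℝ) (h0 : ∀ j m, 0 ≤ f j m)
    (h : ∀ j, HasSum (f j) (s j)) :
    HasSum (fun m : Fin n → ℕ => ∏ j, f j (m j)) (∏ j, s j) := by
  induction n with
  | zero =>
    simp
  | succ n ih =>
    have h1 := ih (fun j => f j.succ) (fun j => s j.succ) (fun j m => h0 _ m) (fun j => h _)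
    have h2 := HasSum.mul (h 0) h1 (Summable.mul_of_nonneg (h 0).summable h1.summable
      (fun m => h0 0 m) (fun m => Finset.prod_nonneg fun j _ => h0 _ _))
    rw [Fin.prod_univ_succ, ← (Fin.consEquiv fun _ => ℕ).hasSum_iff]
    refine h2.congr_fun fun x => ?_
    simp [Fin.prod_univ_succ, Fin.consEquiv]

/-- The nodes. -/
noncomputable def lam (w : Fin 3 → ℝ) (m : Fin 3 → ℕ) : ℝ := 1 + ∑ j, (m j : ℝ) * w j

theorem lam_ge {w : Fin 3 → ℝ} (hw : ∀ j, 1 ≤ w j) (m : Fin 3 → ℕ) (j : Fin 3) :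
    (m j : ℝ) + 1 ≤ lam w m := by
  unfold lam
  have h1 := Finset.single_le_sum (f := fun j => (m j : ℝ) * w j) (s := Finset.univ)
    (fun i _ => mul_nonneg (Nat.cast_nonneg _) (by linarith [hw i])) (Finset.mem_univ j)
  have h2 : (m j : ℝ) ≤ m j * w j := le_mul_of_one_le_right (Nat.cast_nonneg _) (hw j)
  linarith

theorem lam_one_le {w : Fin 3 → ℝ} (hw : ∀ j, 1 ≤ w j) (m : Fin 3 → ℕ) : 1 ≤ lam w m := by
  have := lam_ge hw m 0
  have h : (0 : ℝ) ≤ m 0 := Nat.cast_nonneg _
  linarith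

theorem summable_lam {w : Fin 3 → ℝ} (hw : ∀ j, 1 ≤ w j) {σ : ℝ} (hσ : 3 < σ) :
    Summable fun m => lam w m ^ (-σ) := by
  have h1 : Summable fun k : ℕ => ((k : ℝ) + 1) ^ (-(σ / 3)) := by
    have := (summable_nat_add_iff 1).mpr
      (Real.summable_nat_rpow.mpr (show -(σ / 3) < -1 by linarith))
    simpa using this
  have h2 := (hasSum_pi 3 (fun _ k => ((k : ℝ) + 1) ^ (-(σ / 3))) _ (fun _ _ => by positivity)
    fun _ => h1.hasSum).summable
  refine Summable.of_nonneg_of_le
    (fun m => Real.rpow_nonneg (by linarith [lam_one_le hw m]) _) (fun m => ?_) h2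
  have h3 : lam w m ^ (-σ) = ∏ _j : Fin 3, lam w m ^ (-(σ / 3)) := by
    rw [Finset.prod_const, Finset.card_univ, Fintype.card_fin, ← Real.rpow_natCast,
      ← Real.rpow_mul (by linarith [lam_one_le hw m])]
    congr 1
    push_cast
    ring
  rw [h3]
  refine Finset.prod_le_prod
    (fun _ _ => Real.rpow_nonneg (by linarith [lam_one_le hw m]) _) fun j _ => ?_
  exact Real.rpow_le_rpow_of_nonpos (by positivity) (lam_ge hw m j) (by linarith)

theorem hasSum_theta {w : Fin 3 → ℝ} (hw : ∀ j, 1 ≤ w j) {x : ℝ} (hx : 0 < x) :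
    HasSum (fun m => Real.exp (-lam w m * x))
      (Real.exp (-x) * ∏ j, (1 - Real.exp (-(w j * x)))⁻¹) := by
  have h1 : ∀ j, HasSum (fun k : ℕ => Real.exp (-(w j * x)) ^ k) (1 - Real.exp (-(w j * x)))⁻¹ := by
    intro j
    refine hasSum_geometric_of_lt_one (Real.exp_pos _).le ?_
    rw [Real.exp_lt_one_iff]
    have := mul_pos (show 0 < w j by linarith [hw j]) hx
    linarith
  refine ((hasSum_pi 3 _ _ (fun _ _ => by positivity) h1).mul_left
    (Real.exp (-x))).congr_fun fun m => ?_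
  simp only [← Real.exp_nat_mul, ← Real.exp_sum, ← Real.exp_add, lam, Fin.sum_univ_three]
  congr 1
  ring

theorem exists_E {w : Fin 3 → ℝ} (hw : ∀ j, 1 ≤ w j) :
    ∃ E : ℂ → ℂ, Differentiable ℂ E ∧ (∀ s : ℂ, E (starRingEnd ℂ s) = starRingEnd ℂ (E s)) ∧
      ∀ s : ℂ, 3 < s.re →
        E s = (s - 1) * (s - 2) * (s - 3) * ∑' m, ((lam w m : ℝ) : ℂ) ^ (-s) := by
  set φ : Fin 3 → ℂ → ℂ := fun j => dslope (fun z : ℂ => 1 - cexp (-(w j * z))) 0 with hφ
  have hφd : ∀ j, Differentiable ℂ (φ j) := by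
    intro j
    rw [← differentiableOn_univ]
    exact (differentiableOn_dslope univ_mem).mpr (by fun_prop)
  have hφ0 : ∀ j, φ j 0 ≠ 0 := by
    intro j
    have h1 : HasDerivAt (fun z : ℂ => 1 - cexp (-(w j * z))) (w j) 0 := by
      have := (((hasDerivAt_id (0 : ℂ)).const_mul (w j : ℂ)).neg.cexp).const_sub 1
      simpa using this
    simp only [hφ, dslope_same, h1.deriv]
    have : 0 < w j := by linarith [hw j]
    exact_mod_cast this.ne'
  have hpos : ∀ j, ∀ x : ℝ, 0 < x → 0 < 1 - Real.exp (-(w j * x)) := by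
    intro j x hx
    have := mul_pos (show 0 < w j by linarith [hw j]) hx
    have h2 : Real.exp (-(w j * x)) < 1 := by rw [Real.exp_lt_one_iff]; linarith
    linarith
  have hφx : ∀ j, ∀ x : ℝ, 0 < x →
      (φ j x)⁻¹ = ((x * (1 - Real.exp (-(w j * x)))⁻¹ : ℝ) : ℂ) := by
    intro j x hx
    have hx0 : (x : ℂ) ≠ 0 := by exact_mod_cast hx.ne'
    simp only [hφ]
    rw [dslope_of_ne _ hx0, slope_def_field]
    push_cast
    simp
    ring
  set H : ℂ → ℂ := fun z => ∏ j, (φ j z)⁻¹ with hH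
  have hHx : ∀ x : ℝ, 0 < x → H x = ((x ^ 3 * ∏ j, (1 - Real.exp (-(w j * x)))⁻¹ : ℝ) : ℂ) := by
    intro x hx
    simp only [hH, hφx _ x hx]
    rw [← ofReal_prod, Finset.prod_mul_distrib]
    simp
  obtain ⟨E, hE1, hE2⟩ := exists_entire H
    (Finset.analyticAt_fun_prod _ fun j _ => ((hφd j).analyticAt 0).inv (hφ0 j))
    (by
      refine ContinuousOn.congr ?_ fun x hx => hHx x hx
      refine continuous_ofReal.comp_continuousOn (ContinuousOn.mul (by fun_prop) ?_)
      refine continuousOn_finsetProd _ fun j _ => ContinuousOn.inv₀ (by fun_prop) ?_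
      exact fun x hx => (hpos j x hx).ne')
    (by
      refine IsBigO.of_bound ((1 - Real.exp (-1))⁻¹ ^ 3) ?_
      filter_upwards [eventually_ge_atTop (1 : ℝ)] with x hx
      have hx0 : 0 < x := by linarith
      rw [hHx x hx0, Complex.norm_real, norm_mul, mul_comm]
      apply mul_le_mul_of_nonneg_right _ (norm_nonneg _)
      rw [Real.norm_of_nonneg (Finset.prod_nonneg fun j _ => (inv_pos.mpr (hpos j x hx0)).le)]
      have h3 : (1 - Real.exp (-1))⁻¹ ^ 3 = ∏ _j : Fin 3, (1 - Real.exp (-1))⁻¹ := by simp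
      rw [h3]
      refine Finset.prod_le_prod (fun j _ => (inv_pos.mpr (hpos j x hx0)).le) fun j _ => ?_
      have h4 : Real.exp (-1) < 1 := by rw [Real.exp_lt_one_iff]; norm_num
      apply inv_anti₀ (by linarith)
      have : Real.exp (-(w j * x)) ≤ Real.exp (-1) := by
        apply Real.exp_le_exp.mpr
        nlinarith [hw j]
      linarith)
  have hmain : ∀ s : ℂ, 3 < s.re →
      E (s - 3) = (s - 1) * (s - 2) * (s - 3) * ∑' m, ((lam w m : ℝ) : ℂ) ^ (-s) := by
    intro s hs
    have hz : 0 < (s - 3).re := by simp; linarith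
    set θ : ℝ → ℂ := fun x => ((Real.exp (-x) * ∏ j, (1 - Real.exp (-(w j * x)))⁻¹ : ℝ) : ℂ)
      with hθ
    have h1 : mellin (fun x : ℝ => cexp (-(x : ℂ)) * H x) (s - 3) = mellin θ s := by
      have h2 := mellin_cpow_smul θ (s - 3) 3
      rw [sub_add_cancel] at h2
      rw [← h2]
      refine setIntegral_congr_fun measurableSet_Ioi fun x hx => ?_
      simp only [hHx x hx, hθ, smul_eq_mul]
      rw [show (3 : ℂ) = ((3 : ℕ) : ℂ) by norm_num, cpow_natCast]
      push_cast
      ring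
    have h2 := hasSum_mellin (a := fun _ : Fin 3 → ℕ => (1 : ℂ)) (p := lam w) (F := θ) (s := s)
      (fun m => Or.inr (by linarith [lam_one_le hw m])) (by linarith)
      (fun x hx => by
        simpa only [one_mul] using Complex.hasSum_ofReal.mpr (hasSum_theta hw hx))
      (by
        refine (summable_lam hw hs).congr fun m => ?_
        rw [Real.rpow_neg (by linarith [lam_one_le hw m]), norm_one, one_div])
    have h3 : mellin θ s = Gamma s * ∑' m, ((lam w m : ℝ) : ℂ) ^ (-s) := by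
      rw [← h2.tsum_eq, ← tsum_mul_left]
      congr 1
      funext m
      rw [cpow_neg, mul_one, div_eq_mul_inv]
    have h4 : Gamma s ≠ 0 := Gamma_ne_zero_of_re_pos (by linarith)
    have h5 := Sharp.inv_Gamma_shift (s - 3) 3
    rw [show s - 3 + (3 : ℕ) = s by push_cast; ring] at h5
    rw [hE2 _ hz, h1, h3, h5]
    simp only [Finset.prod_range_succ, Finset.prod_range_zero]
    push_cast
    field_simp
    ring
  have hEd : Differentiable ℂ fun s => E (s - 3) := hE1.comp (by fun_prop)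
  refine ⟨fun s => E (s - 3), hEd, ?_, hmain⟩
  have hc : Differentiable ℂ (starRingEnd ℂ ∘ (fun s => E (s - 3)) ∘ starRingEnd ℂ) :=
    fun s => differentiableAt_conj_conj_iff.mpr (hEd _)
  have h6 : (starRingEnd ℂ ∘ (fun s => E (s - 3)) ∘ starRingEnd ℂ) = fun s => E (s - 3) := by
    refine AnalyticOnNhd.eq_of_eventuallyEq (z₀ := 4) (fun z _ => hc.analyticAt z)
      (fun z _ => hEd.analyticAt z) ?_
    have ho : IsOpen {z : ℂ | 3 < z.re} := isOpen_lt continuous_const continuous_re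
    filter_upwards [ho.mem_nhds (show (4 : ℂ) ∈ {z : ℂ | 3 < z.re} by simp; norm_num)] with s hs
    simp only [Function.comp]
    rw [hmain _ (by simpa using hs), hmain s hs]
    simp only [map_mul, map_sub, conj_conj, map_one, map_ofNat, conj_tsum]
    congr 2
    funext m
    have h7 : (0 : ℝ) ≤ lam w m := by linarith [lam_one_le hw m]
    rw [← map_neg, cpow_conj _ _ (by rw [arg_ofReal_of_nonneg h7]; exact Real.pi_ne_zero.symm),
      conj_ofReal, conj_conj]
  intro s
  have h8 := congrFun h6 s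
  simp only [Function.comp] at h8
  simp only
  rw [← h8, conj_conj]

end Pool.Agent.H1.Barnes
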