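import Mathlib

set_option autoImplicit false
open MeasureTheory Set Filter Topology Complex Asymptotics

namespace Pool.Agent.H1.Barnes

theorem shift (f : ℂ → ℂ) (a b : ℝ) (hab : a ≤ b)
    (hd : DifferentiableOn ℂ f {s : ℂ | a ≤ s.re ∧ s.re ≤ b}) (B : ℝ → ℝ)
    (hB : Tendsto B atTop (𝓝 0))
    (hfB : ∀ σ t : ℝ, a ≤ σ → σ ≤ b → 1 ≤ |t| → ‖f (σ + t * I)‖ ≤ B |t|)
    (hia : Integrable fun t : ℝ => f (a + t * I)) (hib : Integrable fun t : ℝ => f (b + t * I)) :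
    ∫ t : ℝ, f (a + t * I) = ∫ t : ℝ, f (b + t * I) := by
  have h1 := intervalIntegral_tendsto_integral hia tendsto_neg_atTop_atBot tendsto_id
  have h2 := intervalIntegral_tendsto_integral hib tendsto_neg_atTop_atBot tendsto_id
  have hh : ∀ g : ℝ → ℝ, (∀ T, 0 ≤ T → |g T| = T) →
      Tendsto (fun T : ℝ => ∫ x : ℝ in a..b, f (x + (g T : ℝ) * I)) atTop (𝓝 0) := by
    intro g hg
    refine squeeze_zero_norm' (a := fun T => B T * |b - a|) ?_ (by simpa using hB.mul_const |b - a|)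
    filter_upwards [eventually_ge_atTop (1 : ℝ)] with T hT
    refine intervalIntegral.norm_integral_le_of_norm_le_const fun x hx => ?_
    rw [uIoc_of_le hab] at hx
    have := hfB x (g T) hx.1.le hx.2 (by rw [hg T (by linarith)]; exact hT)
    rwa [hg T (by linarith)] at this
  have h3 := hh (fun T => -T) fun T hT => by rw [abs_neg, abs_of_nonneg hT]
  have h4 := hh (fun T => T) fun T hT => abs_of_nonneg hT
  have h5 := ((h3.sub h4).add (h2.const_smul I)).sub (h1.const_smul I)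
  have h6 : ∀ T : ℝ, (∫ x : ℝ in a..b, f (x + ((-T : ℝ) : ℂ) * I)) - (∫ x : ℝ in a..b, f (x + T * I)) +
      I • (∫ y : ℝ in (-T)..(id T), f (b + y * I)) - I • (∫ y : ℝ in (-T)..(id T), f (a + y * I))
      = 0 := by
    intro T
    have := integral_boundary_rect_eq_zero_of_differentiableOn f ⟨a, -T⟩ ⟨b, T⟩
      (hd.mono fun s hs => by
        have := (mem_reProdIm.mp hs).1
        simp only [uIcc_of_le hab] at this
        exact this)
    simpa using this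
  simp only [h6] at h5
  have h7 := tendsto_nhds_unique h5 tendsto_const_nhds
  simp only [sub_zero, zero_add, smul_eq_mul] at h7
  rw [← mul_sub] at h7
  exact (sub_eq_zero.mp ((mul_eq_zero.mp h7).resolve_left I_ne_zero)).symm

/-- Gaussian kernel. -/
noncomputable def G (δ u : ℝ) (s : ℂ) : ℂ := cexp (δ ^ 2 * s ^ 2 + u * s)

theorem G_eq (δ u c t : ℝ) : G δ u (c + t * I) =
    cexp (((-δ ^ 2 : ℝ) : ℂ) * t ^ 2 + (I * (2 * δ ^ 2 * c + u)) * t + (δ ^ 2 * c ^ 2 + u * c)) := by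
  unfold G
  congr 1
  push_cast
  linear_combination (δ ^ 2 * t ^ 2 : ℂ) * I_sq

theorem G_norm (δ u c t : ℝ) : ‖G δ u (c + t * I)‖ =
    Real.exp (δ ^ 2 * c ^ 2 + u * c) * Real.exp (-δ ^ 2 * t ^ 2) := by
  rw [G_eq, norm_exp, ← Real.exp_add]
  congr 1
  simp [pow_two]
  ring

theorem G_integrable {δ : ℝ} (hδ : 0 < δ) (u c : ℝ) : Integrable fun t : ℝ => G δ u (c + t * I) := by
  simp only [G_eq]
  exact integrable_cexp_quadratic' (by rw [ofReal_re]; nlinarith) _ _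

theorem G_integral {δ : ℝ} (hδ : 0 < δ) (u c : ℝ) : ∫ t : ℝ, G δ u (c + t * I) =
    ((√Real.pi / δ * Real.exp (-(u ^ 2 / (4 * δ ^ 2))) : ℝ) : ℂ) := by
  simp only [G_eq]
  rw [integral_cexp_quadratic (by rw [ofReal_re]; nlinarith)]
  have hδ' : (δ : ℂ) ≠ 0 := by exact_mod_cast hδ.ne'
  rw [ofReal_mul, ofReal_exp]
  congr 1
  · have h1 : √Real.pi / δ = (Real.pi / δ ^ 2) ^ (1 / 2 : ℝ) := by
      rw [← Real.sqrt_eq_rpow, Real.sqrt_div Real.pi_pos.le, Real.sqrt_sq hδ.le]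
    rw [h1, ofReal_cpow (by have := Real.pi_pos; positivity)]
    push_cast
    rw [neg_neg]
  · congr 1
    push_cast
    field_simp
    linear_combination ((2 * δ ^ 2 * c + u) ^ 2 : ℂ) * I_sq

theorem line4 {ι : Type*} [Countable ι] (l : ι → ℝ) (hl : ∀ i, 1 ≤ l i)
    (hs : Summable fun i => l i ^ (-4 : ℝ)) {δ : ℝ} (hδ : 0 < δ) (u : ℝ) :
    HasSum (fun i => ((√Real.pi / δ * Real.exp (-((u - Real.log (l i)) ^ 2 / (4 * δ ^ 2))) : ℝ) : ℂ))
      (∫ t : ℝ, (∑' i, ((l i : ℝ) : ℂ) ^ (-(((4 : ℝ) : ℂ) + t * I))) * G δ u ((4 : ℝ) + t * I)) := by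
  have h1 := hasSum_integral_of_summable_integral_norm (μ := volume)
    (F := fun i (t : ℝ) => G δ (u - Real.log (l i)) ((4 : ℝ) + t * I))
    (fun i => G_integrable hδ _ _) (by
      refine (hs.mul_left (Real.exp (δ ^ 2 * 4 ^ 2 + u * 4) *
        ∫ t : ℝ, Real.exp (-δ ^ 2 * t ^ 2))).congr fun i => ?_
      simp only [G_norm]
      rw [integral_const_mul, Real.rpow_def_of_pos (by linarith [hl i]), mul_right_comm,
        ← Real.exp_add]
      congr 2
      ring)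
  simp only [G_integral hδ] at h1
  suffices hh : (fun t : ℝ => (∑' i, ((l i : ℝ) : ℂ) ^ (-(((4 : ℝ) : ℂ) + t * I))) *
      G δ u ((4 : ℝ) + t * I)) = fun t : ℝ => ∑' i, G δ (u - Real.log (l i)) ((4 : ℝ) + t * I) by
    rw [hh]
    exact h1
  funext t
  rw [← tsum_mul_right]
  congr 1
  funext i
  have h0 : 0 < l i := by linarith [hl i]
  unfold G
  rw [cpow_def_of_ne_zero (by exact_mod_cast h0.ne'), ← ofReal_log h0.le, ← Complex.exp_add]
  congr 1
  push_cast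
  ring

theorem wt {δ : ℝ} (h0 : 0 < δ) (h1 : δ ≤ 1) (t : ℝ) :
    (1 + |t|) ^ (1 / 8 : ℝ) * Real.exp (-δ ^ 2 * t ^ 2) ≤
      2 * δ ^ (-(1 / 8) : ℝ) * Real.exp (-(δ ^ 2 / 2) * t ^ 2) := by
  have ht := abs_nonneg t
  have e1 : 1 + |t| ≤ δ⁻¹ * (1 + δ * |t|) := by
    have : 1 ≤ δ⁻¹ := one_le_inv_iff₀.mpr ⟨h0, h1⟩
    rw [mul_add, ← mul_assoc, inv_mul_cancel₀ h0.ne']
    linarith
  have e2 : (1 + |t|) ^ (1 / 8 : ℝ) ≤ δ ^ (-(1 / 8) : ℝ) * (1 + δ * |t|) := by
    refine le_trans (Real.rpow_le_rpow (by positivity) e1 (by norm_num)) ?_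
    rw [Real.mul_rpow (by positivity) (by positivity), Real.inv_rpow h0.le, ← Real.rpow_neg h0.le]
    apply mul_le_mul_of_nonneg_left _ (by positivity)
    have : 0 ≤ δ * |t| := by positivity
    calc (1 + δ * |t|) ^ (1 / 8 : ℝ) ≤ (1 + δ * |t|) ^ (1 : ℝ) :=
          Real.rpow_le_rpow_of_exponent_le (by linarith) (by norm_num)
      _ = _ := Real.rpow_one _
  have e3 : 1 + δ * |t| ≤ 2 * Real.exp (δ ^ 2 / 2 * t ^ 2) := by
    have := Real.add_one_le_exp (δ ^ 2 / 2 * t ^ 2)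
    have h2 : t ^ 2 = |t| ^ 2 := (sq_abs t).symm
    rw [h2] at this ⊢
    nlinarith [sq_nonneg (δ * |t| - 1)]
  calc (1 + |t|) ^ (1 / 8 : ℝ) * Real.exp (-δ ^ 2 * t ^ 2)
      ≤ δ ^ (-(1 / 8) : ℝ) * (2 * Real.exp (δ ^ 2 / 2 * t ^ 2)) * Real.exp (-δ ^ 2 * t ^ 2) := by
        gcongr
        exact le_trans e2 (mul_le_mul_of_nonneg_left e3 (by positivity))
    _ = 2 * δ ^ (-(1 / 8) : ℝ) * (Real.exp (δ ^ 2 / 2 * t ^ 2) * Real.exp (-δ ^ 2 * t ^ 2)) := by
        ring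
    _ = _ := by
        rw [← Real.exp_add]
        congr 2
        ring

theorem main_ineq {ι : Type*} [Countable ι] (l : ι → ℝ) (hl : ∀ i, 1 ≤ l i)
    (hs : Summable fun i => l i ^ (-4 : ℝ)) (E : ℂ → ℂ) (hE : Differentiable ℂ E)
    (hE4 : ∀ s : ℂ, s.re = 4 → E s = (s - 1) * (s - 2) * (s - 3) * ∑' i, ((l i : ℝ) : ℂ) ^ (-s))
    (C : ℝ) (hC : ∀ σ t : ℝ, 3 / 2 ≤ σ → σ ≤ 4 → 1 ≤ |t| →
      ‖E (σ + t * I) / ((σ + t * I - 1) * (σ + t * I - 2) * (σ + t * I - 3))‖ ≤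
        C * |t| ^ (1 / 8 : ℝ)) :
    ∃ C' : ℝ, ∀ δ u h : ℝ, 0 < δ → δ ≤ 1 → 0 ≤ u → 0 < h →
      ∑' i, Real.exp (-((u - Real.log (l i)) ^ 2 / (4 * δ ^ 2))) ≤
        2 * ∑' i, Real.exp (-((u + h - Real.log (l i)) ^ 2 / (4 * δ ^ 2))) +
          C' * Real.exp (3 / 2 * u) * δ ^ (-(1 / 8) : ℝ) := by
  set F : ℂ → ℂ := fun s => E s / ((s - 1) * (s - 2) * (s - 3)) with hF
  have hne : ∀ (σ t : ℝ) (k : ℝ), σ ≠ k ∨ t ≠ 0 → (σ : ℂ) + t * I - k ≠ 0 := by
    intro σ t k hk h0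
    have h1 := congrArg re h0
    have h2 := congrArg im h0
    simp at h1 h2
    rcases hk with hk | hk
    · exact hk (by linarith)
    · exact hk h2
  have hline : ∀ σ : ℝ, σ = 3 / 2 ∨ σ = 4 → Continuous (fun t : ℝ => F (σ + t * I)) ∧
      ∃ D : ℝ, 0 ≤ D ∧ ∀ t : ℝ, ‖F (σ + t * I)‖ ≤ D * (1 + |t|) ^ (1 / 8 : ℝ) := by
    intro σ hσ
    have hc : Continuous (fun t : ℝ => F (σ + t * I)) := by
      refine Continuous.div (hE.continuous.comp (by fun_prop)) (by fun_prop) fun t => ?_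
      have a1 := hne σ t 1 (Or.inl (by rcases hσ with h | h <;> rw [h] <;> norm_num))
      have a2 := hne σ t 2 (Or.inl (by rcases hσ with h | h <;> rw [h] <;> norm_num))
      have a3 := hne σ t 3 (Or.inl (by rcases hσ with h | h <;> rw [h] <;> norm_num))
      exact mul_ne_zero (mul_ne_zero (by simpa using a1) (by simpa using a2)) (by simpa using a3)
    refine ⟨hc, ?_⟩
    obtain ⟨D, hD⟩ := (isCompact_Icc (a := (-1 : ℝ)) (b := 1)).exists_bound_of_continuousOn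
      hc.continuousOn
    refine ⟨|D| + |C|, by positivity, fun t => ?_⟩
    have ht := abs_nonneg t
    have h1 : 1 ≤ (1 + |t|) ^ (1 / 8 : ℝ) := Real.one_le_rpow (by linarith) (by norm_num)
    rcases le_total |t| 1 with h | h
    · have := hD t (abs_le.mp h)
      have h2 := le_abs_self D
      have h3 := abs_nonneg D
      have h4 := abs_nonneg C
      nlinarith
    · have := hC σ t (by rcases hσ with h | h <;> rw [h] <;> norm_num)
        (by rcases hσ with h | h <;> rw [h] <;> norm_num) h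
      refine le_trans this ?_
      apply mul_le_mul (by linarith [le_abs_self C, abs_nonneg D]) _ (by positivity) (by positivity)
      exact Real.rpow_le_rpow ht (by linarith) (by norm_num)
  have hbd : ∀ (σ D δ u : ℝ), 0 < δ → δ ≤ 1 → 0 ≤ D → ∀ t : ℝ,
      ‖F (σ + t * I)‖ ≤ D * (1 + |t|) ^ (1 / 8 : ℝ) → ‖F (σ + t * I) * G δ u (σ + t * I)‖ ≤
        D * Real.exp (δ ^ 2 * σ ^ 2 + u * σ) * (2 * δ ^ (-(1 / 8) : ℝ)) *
          Real.exp (-(δ ^ 2 / 2) * t ^ 2) := by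
    intro σ D δ u h0 h1 hD t ht
    rw [norm_mul, G_norm]
    calc ‖F (σ + t * I)‖ * (Real.exp (δ ^ 2 * σ ^ 2 + u * σ) * Real.exp (-δ ^ 2 * t ^ 2))
        ≤ D * (1 + |t|) ^ (1 / 8 : ℝ) *
          (Real.exp (δ ^ 2 * σ ^ 2 + u * σ) * Real.exp (-δ ^ 2 * t ^ 2)) := by gcongr
      _ = D * Real.exp (δ ^ 2 * σ ^ 2 + u * σ) *
          ((1 + |t|) ^ (1 / 8 : ℝ) * Real.exp (-δ ^ 2 * t ^ 2)) := by ring
      _ ≤ D * Real.exp (δ ^ 2 * σ ^ 2 + u * σ) *
          (2 * δ ^ (-(1 / 8) : ℝ) * Real.exp (-(δ ^ 2 / 2) * t ^ 2)) :=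
            mul_le_mul_of_nonneg_left (wt h0 h1 t) (by positivity)
      _ = _ := by ring
  have hGc : ∀ δ u σ : ℝ, Continuous fun t : ℝ => G δ u (σ + t * I) := by
    intro δ u σ
    unfold G
    fun_prop
  have hint : ∀ σ : ℝ, σ = 3 / 2 ∨ σ = 4 → ∀ δ u : ℝ, 0 < δ → δ ≤ 1 →
      Integrable fun t : ℝ => F (σ + t * I) * G δ u (σ + t * I) := by
    intro σ hσ δ u h0 h1
    obtain ⟨hc, D, hD0, hD⟩ := hline σ hσ
    refine Integrable.mono' ((integrable_exp_neg_mul_sq (b := δ ^ 2 / 2) (by positivity)).const_mul _)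
      (hc.mul (hGc δ u σ)).aestronglyMeasurable
      (Eventually.of_forall fun t => hbd σ D δ u h0 h1 hD0 t (hD t))
  obtain ⟨-, D, hD0, hD⟩ := hline (3 / 2) (Or.inl rfl)
  refine ⟨4 * D * Real.exp (9 / 4) * 2 * 2, fun δ u h h0 h1 hu hh => ?_⟩
  set K : ℝ → ℂ → ℂ := fun j s => 1 - cexp (h * (s - j)) with hK
  have hKd : ∀ j : ℝ, Differentiable ℂ (dslope (K j) j) := by
    intro j
    rw [← differentiableOn_univ]
    exact (differentiableOn_dslope univ_mem).mpr (by simp only [hK]; fun_prop)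
  have hKs : ∀ (j : ℝ) (s : ℂ), s - j ≠ 0 → dslope (K j) j s = K j s / (s - j) := by
    intro j s hs
    rw [dslope_of_ne _ (sub_ne_zero.mp hs), slope_def_field]
    simp [hK]
  have hKn : ∀ j σ t : ℝ, ‖K j (σ + t * I)‖ ≤ 1 + Real.exp (h * (σ - j)) := by
    intro j σ t
    refine le_trans (norm_sub_le _ _) (le_of_eq ?_)
    rw [norm_one, norm_exp]
    simp
  set f : ℂ → ℂ := fun s =>
    E s / (s - 1) * dslope (K 2) (2 : ℝ) s * dslope (K 3) (3 : ℝ) s * G δ u s with hf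
  have hfe : ∀ σ t : ℝ, (σ ≠ 1 ∧ σ ≠ 2 ∧ σ ≠ 3) ∨ t ≠ 0 → f (σ + t * I) =
      K 2 (σ + t * I) * K 3 (σ + t * I) * (F (σ + t * I) * G δ u (σ + t * I)) := by
    intro σ t hσ
    have a1 := hne σ t 1 (by tauto)
    have a2 := hne σ t 2 (by tauto)
    have a3 := hne σ t 3 (by tauto)
    simp only [hf, hF]
    rw [hKs 2 _ a2, hKs 3 _ a3]
    push_cast at a1 a2 a3 ⊢
    field_simp
  have hexp : ∀ s : ℂ, K 2 s * K 3 s * (F s * G δ u s) = F s * G δ u s -
      ((Real.exp (-2 * h) + Real.exp (-3 * h) : ℝ) : ℂ) * (F s * G δ (u + h) s) +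
      ((Real.exp (-5 * h) : ℝ) : ℂ) * (F s * G δ (u + h + h) s) := by
    intro s
    have b1 : cexp (h * (s - (2 : ℝ))) = cexp (-2 * h) * cexp (h * s) := by
      rw [← Complex.exp_add]; congr 1; push_cast; ring
    have b2 : cexp (h * (s - (3 : ℝ))) = cexp (-3 * h) * cexp (h * s) := by
      rw [← Complex.exp_add]; congr 1; push_cast; ring
    have b3 : ∀ v : ℝ, G δ (v + h) s = G δ v s * cexp (h * s) := by
      intro v
      unfold G
      rw [← Complex.exp_add]; congr 1; push_cast; ring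
    have b4 : cexp (-5 * h) = cexp (-2 * h) * cexp (-3 * h) := by
      rw [← Complex.exp_add]; congr 1; ring
    simp only [hK]
    rw [b1, b2, b3 (u + h), b3 u]
    push_cast
    rw [b4]
    ring
  have hfi : ∀ σ : ℝ, σ = 3 / 2 ∨ σ = 4 → (fun t : ℝ => f (σ + t * I)) = fun t : ℝ =>
      F (σ + t * I) * G δ u (σ + t * I) -
      ((Real.exp (-2 * h) + Real.exp (-3 * h) : ℝ) : ℂ) * (F (σ + t * I) * G δ (u + h) (σ + t * I)) +
      ((Real.exp (-5 * h) : ℝ) : ℂ) * (F (σ + t * I) * G δ (u + h + h) (σ + t * I)) := by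
    intro σ hσ
    funext t
    rw [hfe σ t (Or.inl (by rcases hσ with h | h <;> rw [h] <;> norm_num)), hexp]
  have hfint : ∀ σ : ℝ, σ = 3 / 2 ∨ σ = 4 → Integrable fun t : ℝ => f (σ + t * I) := by
    intro σ hσ
    rw [hfi σ hσ]
    exact ((hint σ hσ δ u h0 h1).sub ((hint σ hσ δ _ h0 h1).const_mul _)).add
      ((hint σ hσ δ _ h0 h1).const_mul _)
  have hshift := shift f (3 / 2) 4 (by norm_num) (by
      intro s hs
      refine DifferentiableAt.differentiableWithinAt ?_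
      refine ((((hE s).div (by fun_prop) ?_).mul (hKd 2 s)).mul (hKd 3 s)).mul ?_
      · intro h2
        have := congrArg re h2
        simp at this
        linarith [hs.1]
      · unfold G
        fun_prop)
    (fun T => (1 + Real.exp (h * 2)) ^ 2 * (|C| * Real.exp (δ ^ 2 * 4 ^ 2 + u * 4) *
      (2 * δ ^ (-(1 / 8) : ℝ)) * Real.exp (-(δ ^ 2 / 2) * T ^ 2)))
    (by
      have a1 : Tendsto (fun T : ℝ => Real.exp (-(δ ^ 2 / 2) * T ^ 2)) atTop (𝓝 0) :=
        Real.tendsto_exp_atBot.comp ((tendsto_pow_atTop two_ne_zero).const_mul_atTop_of_neg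
          (by have : 0 < δ ^ 2 / 2 := by positivity
              linarith))
      simpa using (a1.const_mul _).const_mul _)
    (by
      intro σ t a1 a2 a3
      have a4 : t ≠ 0 := by
        intro h2
        rw [h2] at a3
        norm_num at a3
      rw [hfe σ t (Or.inr a4), norm_mul, norm_mul, sq_abs]
      have a5 : ‖F (σ + t * I)‖ ≤ |C| * (1 + |t|) ^ (1 / 8 : ℝ) := by
        refine le_trans (hC σ t a1 a2 a3) ?_
        apply mul_le_mul (le_abs_self C) _ (by positivity) (by positivity)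
        exact Real.rpow_le_rpow (abs_nonneg t) (by linarith) (by norm_num)
      have a6 := hbd σ |C| δ u h0 h1 (abs_nonneg C) t a5
      have a7 : ‖K 2 (σ + t * I)‖ ≤ 1 + Real.exp (h * 2) := by
        refine le_trans (hKn 2 σ t) ?_
        gcongr
        linarith
      have a8 : ‖K 3 (σ + t * I)‖ ≤ 1 + Real.exp (h * 2) := by
        refine le_trans (hKn 3 σ t) ?_
        gcongr
        linarith
      rw [pow_two (1 + _)]
      refine mul_le_mul (mul_le_mul a7 a8 (norm_nonneg _) (by positivity)) (le_trans a6 ?_)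
        (norm_nonneg _) (by positivity)
      gcongr)
    (hfint _ (Or.inl rfl)) (hfint _ (Or.inr rfl))
  have hS : ∀ v : ℝ, ∫ t : ℝ, F ((4 : ℝ) + t * I) * G δ v ((4 : ℝ) + t * I) =
      ((√Real.pi / δ * ∑' i, Real.exp (-((v - Real.log (l i)) ^ 2 / (4 * δ ^ 2))) : ℝ) : ℂ) := by
    intro v
    rw [← tsum_mul_left, ofReal_tsum, (line4 l hl hs h0 v).tsum_eq]
    congr 1
    funext t
    congr 1
    have a1 := hne 4 t 1 (Or.inl (by norm_num))
    have a2 := hne 4 t 2 (Or.inl (by norm_num))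
    have a3 := hne 4 t 3 (Or.inl (by norm_num))
    simp only [hF]
    rw [hE4 _ (by simp)]
    push_cast at a1 a2 a3 ⊢
    field_simp
  have h4 := hint 4 (Or.inr rfl) δ
  rw [hfi 4 (Or.inr rfl), integral_add (by exact (h4 _ h0 h1).sub ((h4 _ h0 h1).const_mul _))
    ((h4 _ h0 h1).const_mul _), integral_sub (h4 _ h0 h1) ((h4 _ h0 h1).const_mul _),
    integral_const_mul, integral_const_mul, hS, hS, hS] at hshift
  have hnorm : ‖∫ t : ℝ, f ((3 / 2 : ℝ) + t * I)‖ ≤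
      √Real.pi / δ * (4 * D * Real.exp (9 / 4) * 2 * 2 * Real.exp (3 / 2 * u) *
        δ ^ (-(1 / 8) : ℝ)) := by
    have a1 := norm_integral_le_of_norm_le (f := fun t : ℝ => f ((3 / 2 : ℝ) + t * I))
      ((integrable_exp_neg_mul_sq (b := δ ^ 2 / 2) (by positivity)).const_mul
        (4 * (D * Real.exp (δ ^ 2 * (3 / 2) ^ 2 + u * (3 / 2)) * (2 * δ ^ (-(1 / 8) : ℝ)))))
      (Eventually.of_forall fun t => by
        rw [hfe (3 / 2) t (Or.inl (by norm_num)), norm_mul, norm_mul, mul_assoc 4]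
        have a7 : ‖K 2 ((3 / 2 : ℝ) + t * I)‖ ≤ 2 := by
          refine le_trans (hKn 2 _ t) ?_
          have : Real.exp (h * (3 / 2 - 2)) ≤ 1 := Real.exp_le_one_iff.mpr (by linarith)
          linarith
        have a8 : ‖K 3 ((3 / 2 : ℝ) + t * I)‖ ≤ 2 := by
          refine le_trans (hKn 3 _ t) ?_
          have : Real.exp (h * (3 / 2 - 3)) ≤ 1 := Real.exp_le_one_iff.mpr (by linarith)
          linarith
        refine mul_le_mul (le_trans (mul_le_mul a7 a8 (norm_nonneg _) (by norm_num)) (by norm_num))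
          (hbd _ D δ u h0 h1 hD0 t (hD t)) (norm_nonneg _) (by norm_num))
    refine le_trans a1 ?_
    rw [integral_const_mul, integral_gaussian]
    have a2 : √(Real.pi / (δ ^ 2 / 2)) ≤ √Real.pi / δ * 2 := by
      rw [Real.sqrt_le_left (by positivity), mul_pow, div_pow, Real.sq_sqrt Real.pi_pos.le,
        div_div_eq_mul_div, mul_div_right_comm]
      have := Real.pi_pos
      gcongr
      norm_num
    have a3 : Real.exp (δ ^ 2 * (3 / 2) ^ 2 + u * (3 / 2)) ≤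
        Real.exp (9 / 4) * Real.exp (3 / 2 * u) := by
      rw [← Real.exp_add]
      apply Real.exp_le_exp.mpr
      nlinarith
    calc 4 * (D * Real.exp (δ ^ 2 * (3 / 2) ^ 2 + u * (3 / 2)) * (2 * δ ^ (-(1 / 8) : ℝ))) *
          √(Real.pi / (δ ^ 2 / 2))
        ≤ 4 * (D * (Real.exp (9 / 4) * Real.exp (3 / 2 * u)) * (2 * δ ^ (-(1 / 8) : ℝ))) *
          (√Real.pi / δ * 2) := by gcongr
      _ = _ := by ring
  rw [hshift, ← ofReal_mul, ← ofReal_mul, ← ofReal_sub, ← ofReal_add, Complex.norm_real] at hnorm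
  have hpos : 0 < √Real.pi / δ := by have := Real.pi_pos; positivity
  have c0 : ∀ v : ℝ, 0 ≤ ∑' i, Real.exp (-((v - Real.log (l i)) ^ 2 / (4 * δ ^ 2))) :=
    fun v => tsum_nonneg fun i => (Real.exp_pos _).le
  have c1 : Real.exp (-2 * h) + Real.exp (-3 * h) ≤ 2 := by
    have a1 : Real.exp (-2 * h) ≤ 1 := Real.exp_le_one_iff.mpr (by linarith)
    have a2 : Real.exp (-3 * h) ≤ 1 := Real.exp_le_one_iff.mpr (by linarith)
    linarith
  have c2 := mul_nonneg (Real.exp_pos (-5 * h)).le (c0 (u + h + h))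
  have c3 := mul_le_mul_of_nonneg_right c1 (c0 (u + h))
  have c4 := le_trans (le_abs_self _) hnorm
  apply le_of_mul_le_mul_left _ hpos
  nlinarith

end Pool.Agent.H1.Barnes
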