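import Mathlib
import Pool.Agent.H1.BarnesB
import Pool.Agent.H1.BarnesC

set_option autoImplicit false
open Set Filter Topology

namespace Pool.Agent.H1.Barnes

theorem term_bound {δ η y l : ℝ} (hδ : 0 < δ) (hη : 0 ≤ η) (hy : 0 < y) (hl : 0 < l)
    (h : η ≤ |Real.log y - Real.log l|) :
    Real.exp (-((Real.log y - Real.log l) ^ 2 / (4 * δ ^ 2))) ≤
      Real.exp (-(η ^ 2 / (8 * δ ^ 2))) * Real.exp (32 * δ ^ 2) * y ^ 4 * l ^ (-4 : ℝ) := by
  have e1 : y ^ 4 = Real.exp (4 * Real.log y) := by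
    rw [show (4 : ℝ) = ((4 : ℕ) : ℝ) by norm_num, Real.exp_nat_mul, Real.exp_log hy]
  rw [e1, Real.rpow_def_of_pos hl, ← Real.exp_add, ← Real.exp_add, ← Real.exp_add]
  apply Real.exp_le_exp.mpr
  obtain ⟨D, hD⟩ : ∃ D, D = Real.log y - Real.log l := ⟨_, rfl⟩
  rw [← hD] at h ⊢
  have e2 : η ^ 2 ≤ D ^ 2 := by
    rw [← sq_abs D]
    exact pow_le_pow_left₀ hη h 2
  have e3 : η ^ 2 / (8 * δ ^ 2) ≤ D ^ 2 / (8 * δ ^ 2) := by gcongr
  have e4 : D ^ 2 / (4 * δ ^ 2) = D ^ 2 / (8 * δ ^ 2) + D ^ 2 / (8 * δ ^ 2) := by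
    field_simp
    ring
  have e5 : D ^ 2 / (8 * δ ^ 2) + 4 * D + 32 * δ ^ 2 = (D + 16 * δ ^ 2) ^ 2 / (8 * δ ^ 2) := by
    field_simp
    ring
  have e6 : 0 ≤ (D + 16 * δ ^ 2) ^ 2 / (8 * δ ^ 2) := by positivity
  linarith

theorem log_lower {a b M d : ℝ} (ha : 0 < a) (hb : 0 < b) (haM : a ≤ M) (hbM : b ≤ M)
    (hd : d ≤ |a - b|) : d / M ≤ |Real.log a - Real.log b| := by
  have key : ∀ a b : ℝ, 0 < a → 0 < b → a ≤ M → b ≤ a → (a - b) / M ≤ Real.log a - Real.log b := by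
    intro a b ha hb haM hba
    have h1 := Real.one_sub_inv_le_log_of_pos (div_pos ha hb)
    rw [Real.log_div ha.ne' hb.ne', inv_div] at h1
    have h2 : (a - b) / M ≤ (a - b) / a := by gcongr
    have h3 : (a - b) / a = 1 - b / a := by field_simp
    linarith
  have hM : 0 < M := by linarith
  refine le_trans (div_le_div_of_nonneg_right hd hM.le) ?_
  rcases le_total b a with h | h
  · rw [abs_of_nonneg (by linarith)]
    exact le_trans (key a b ha hb haM h) (le_abs_self _)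
  · rw [abs_sub_comm, abs_of_nonneg (by linarith), abs_sub_comm]
    exact le_trans (key b a hb ha hbM h) (le_abs_self _)

theorem log_upper {a b m d : ℝ} (hm : 0 < m) (ha : m ≤ a) (hb : m ≤ b)
    (hd : |a - b| ≤ d) : |Real.log a - Real.log b| ≤ d / m := by
  have key : ∀ a b : ℝ, m ≤ a → m ≤ b → |a - b| ≤ d → Real.log a - Real.log b ≤ d / m := by
    intro a b ha hb hd
    have ha0 : 0 < a := by linarith
    have hb0 : 0 < b := by linarith
    have h1 := Real.log_le_sub_one_of_pos (div_pos ha0 hb0)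
    rw [Real.log_div ha0.ne' hb0.ne'] at h1
    have h3 : a / b - 1 = (a - b) / b := by field_simp
    have h4 : (a - b) / b ≤ d / b := div_le_div_of_nonneg_right (le_trans (le_abs_self _) hd) hb0.le
    have h5 : d / b ≤ d / m := div_le_div_of_nonneg_left (le_trans (abs_nonneg _) hd) hm hb
    linarith
  rw [abs_le]
  have := key b a hb ha (by rwa [abs_sub_comm])
  exact ⟨by linarith, key a b ha hb hd⟩

theorem lam_eq (L : ℝ) (m : Fin 3 → ℕ) :
    lam ![1, L, L ^ 2] m = 1 + m 0 + m 1 * L + m 2 * L ^ 2 := by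
  simp [lam, Fin.sum_univ_three]
  ring

theorem w_ge {L : ℝ} (h1 : 1 < L) : ∀ j, (1 : ℝ) ≤ ![1, L, L ^ 2] j := by
  intro j
  fin_cases j
  · simp
  · simpa using h1.le
  · exact one_le_pow₀ (n := 2) h1.le

theorem approx {L ρ τ : ℝ} (h1 : 1 < L) (h2 : L < 2) (hτ : τ ≤ 1) (h : |L - ρ| ≤ τ) (a b : ℝ)
    (ha : 0 ≤ a) (hb : 0 ≤ b) :
    |a * L + b * L ^ 2 - (a * ρ + b * ρ ^ 2)| ≤ (a + 5 * b) * τ := by
  have e1 : a * L + b * L ^ 2 - (a * ρ + b * ρ ^ 2) = (a + b * (L + ρ)) * (L - ρ) := by ring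
  have e2 := abs_le.mp h
  have e3 : |a + b * (L + ρ)| ≤ a + 5 * b := by
    rw [abs_le]
    constructor <;> nlinarith
  rw [e1, abs_mul]
  exact mul_le_mul e3 h (abs_nonneg _) (by positivity)

theorem no_ineq {L : ℝ} (hL : Liouville L) (h1 : 1 < L) (h2 : L < 2) (C' : ℝ)
    (H : ∀ δ u h : ℝ, 0 < δ → δ ≤ 1 → 0 ≤ u → 0 < h →
      ∑' i, Real.exp (-((u - Real.log (lam ![1, L, L ^ 2] i)) ^ 2 / (4 * δ ^ 2))) ≤
        2 * ∑' i, Real.exp (-((u + h - Real.log (lam ![1, L, L ^ 2] i)) ^ 2 / (4 * δ ^ 2))) +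
          C' * Real.exp (3 / 2 * u) * δ ^ (-(1 / 8) : ℝ)) : False := by
  classical
  have hw := w_ge h1
  have hs := summable_lam hw (σ := 4) (by norm_num)
  have hl1 := lam_one_le hw
  obtain ⟨Z, hZ⟩ : ∃ Z, Z = ∑' m, lam ![1, L, L ^ 2] m ^ (-4 : ℝ) := ⟨_, rfl⟩
  have hZ0 : 0 ≤ Z := hZ ▸ tsum_nonneg fun m => Real.rpow_nonneg (by linarith [hl1 m]) _
  obtain ⟨B, hB⟩ : ∃ B, B = 24 * 2048 ^ 4 * Real.exp 32 * 16 * Z := ⟨_, rfl⟩
  have hB0 : 0 ≤ B := by rw [hB]; positivity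
  obtain ⟨q, ⟨a, -, ha⟩, hq⟩ := ((hL.frequently_exists_num 50).and_eventually
    ((eventually_ge_atTop 2).and (tendsto_natCast_atTop_atTop.eventually
      (eventually_gt_atTop (Real.exp (1 / 4) * (2 * B + 128 * |C'|)))))).exists
  have hq2 : (2 : ℝ) ≤ q := by exact_mod_cast hq.1
  have hq0 : (0 : ℝ) < q := by linarith
  have hq1 : (1 : ℝ) ≤ q := by linarith
  obtain ⟨τ, hτ⟩ : ∃ τ : ℝ, τ = 1 / (q : ℝ) ^ 50 := ⟨_, rfl⟩
  rw [← hτ] at ha
  have hτ0 : 0 < τ := by rw [hτ]; positivity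
  have hq10 : (1024 : ℝ) ≤ (q : ℝ) ^ 10 := le_trans (by norm_num) (pow_le_pow_left₀ (by norm_num) hq2 10)
  have hτ1 : τ * (1024 * (q : ℝ) ^ 40) ≤ 1 := by
    rw [hτ, div_mul_eq_mul_div, div_le_one (by positivity), show 50 = 10 + 40 by norm_num, pow_add]
    nlinarith [pow_pos hq0 40]
  have hq40 : (1 : ℝ) ≤ (q : ℝ) ^ 40 := one_le_pow₀ hq1
  have hτ2 : τ ≤ 1 / 2 := by nlinarith
  have ha' := abs_lt.mp ha
  have hρ1 : (1 / 2 : ℝ) < a / q := by linarith
  have hρ2 : (a : ℝ) / q < 3 := by linarith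
  have ha0 : (0 : ℝ) < a := by
    rw [lt_div_iff₀ hq0] at hρ1
    linarith
  obtain ⟨p, rfl⟩ : ∃ p : ℕ, a = p := ⟨a.toNat, by
    have : 0 < a := by exact_mod_cast ha0
    omega⟩
  push_cast at ha ha' hρ1 hρ2 ha0
  have hp1 : (1 : ℝ) ≤ p := by exact_mod_cast (show 0 < p by exact_mod_cast ha0)
  have hp3 : (p : ℝ) ≤ 3 * q := by
    rw [div_lt_iff₀ hq0] at hρ2
    exact hρ2.le
  obtain ⟨J, hJ⟩ : ∃ J : ℕ, J = q ^ 18 := ⟨_, rfl⟩
  have hJ' : (J : ℝ) = (q : ℝ) ^ 18 := by rw [hJ]; push_cast; rfl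
  obtain ⟨X, hX⟩ : ∃ X : ℝ, X = 1 + J * p + J * p ^ 2 := ⟨_, rfl⟩
  have hq18 : (1 : ℝ) ≤ (q : ℝ) ^ 18 := one_le_pow₀ hq1
  have hX1 : (q : ℝ) ^ 18 ≤ X := by rw [hX, hJ']; nlinarith [sq_nonneg (p : ℝ)]
  have hX2 : X ≤ 16 * (q : ℝ) ^ 20 := by
    have e1 : (p : ℝ) ^ 2 ≤ 9 * q ^ 2 := by nlinarith
    have e2 : (p : ℝ) ≤ 3 * q ^ 2 := by nlinarith
    have e3 : (1 : ℝ) ≤ (q : ℝ) ^ 18 * q ^ 2 := by nlinarith
    rw [hX, hJ', show 20 = 18 + 2 by norm_num, pow_add]
    nlinarith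
  have hX0 : 1 ≤ X := by linarith
  have hq4 : (q : ℝ) ^ 4 ≤ X := le_trans (pow_le_pow_right₀ hq1 (by norm_num)) hX1
  have hqq : (1 : ℝ) ≤ (q : ℝ) ^ 2 := one_le_pow₀ hq1
  obtain ⟨g, hg⟩ : ∃ g : ℝ, g = 1 / (4 * (q : ℝ) ^ 2) := ⟨_, rfl⟩
  have hg0 : 0 < g := by rw [hg]; positivity
  have hg1 : g * (4 * (q : ℝ) ^ 2) = 1 := by rw [hg]; field_simp
  have hg2 : g ≤ 1 / 4 := by nlinarith
  obtain ⟨y, hy⟩ : ∃ y : ℝ, y = X + 2 * g := ⟨_, rfl⟩
  have hy1 : X < y := by linarith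
  have hy2 : y ≤ 2 * X := by linarith
  have hy0 : 0 < y := by linarith
  obtain ⟨δ, hδ⟩ : ∃ δ : ℝ, δ = 1 / X ^ 2 := ⟨_, rfl⟩
  have hδ0 : 0 < δ := by rw [hδ]; positivity
  have hδ1 : δ ≤ 1 := by
    rw [hδ, div_le_one (by positivity)]
    exact one_le_pow₀ hX0
  have H1 := H δ (Real.log X) (Real.log y - Real.log X) hδ0 hδ1 (Real.log_nonneg hX0)
    (sub_pos.mpr (Real.log_lt_log (by linarith) hy1))
  rw [add_sub_cancel] at H1
  have hgap : ∀ m, g / (2 * y) ≤ |Real.log y - Real.log (lam ![1, L, L ^ 2] m)| := by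
    intro m
    have hm := hl1 m
    rcases le_total (lam ![1, L, L ^ 2] m) (2 * y) with hc | hc
    · refine log_lower hy0 (by linarith) (by linarith) hc ?_
      have b1 := lam_ge hw m 1
      have b2 := lam_ge hw m 2
      have b3 := approx h1 h2 (by linarith) ha.le (m 1) (m 2) (Nat.cast_nonneg _) (Nat.cast_nonneg _)
      have b4 : ((m 1 : ℝ) + 5 * m 2) * τ ≤ g := by
        have c1 : ((m 1 : ℝ) + 5 * m 2) ≤ 24 * (16 * (q : ℝ) ^ 20) := by linarith
        refine le_trans (mul_le_mul_of_nonneg_right c1 hτ0.le) ?_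
        rw [hg, le_div_iff₀ (by positivity)]
        refine le_trans ?_ hτ1
        have c2 : (2 : ℝ) * q ^ 22 ≤ q ^ 40 := by
          rw [show 40 = 18 + 22 by norm_num, pow_add]
          have : (2 : ℝ) ≤ q ^ 18 := le_trans hq2 (le_self_pow₀ hq1 (by norm_num))
          nlinarith [pow_pos hq0 22]
        have c3 : 24 * (16 * (q : ℝ) ^ 20) * τ * (4 * q ^ 2) = τ * (768 * (2 * q ^ 22)) := by ring
        rw [c3]
        apply mul_le_mul_of_nonneg_left _ hτ0.le
        linarith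
      obtain ⟨A, hA⟩ : ∃ A : ℝ, A = 1 + m 0 + (m 1 * (p / q) + m 2 * (p / q) ^ 2) := ⟨_, rfl⟩
      obtain ⟨k, hk⟩ : ∃ k : ℤ, y - A = 2 * g * (2 * k + 1) := by
        refine ⟨q ^ 2 * (J * p + J * p ^ 2) - (q ^ 2 * m 0 + m 1 * p * q + m 2 * p ^ 2), ?_⟩
        rw [hy, hA, hX, hg]
        push_cast
        field_simp
        ring
      have b5 : 2 * g ≤ |y - A| := by
        rw [hk, abs_mul, abs_of_pos (by linarith)]
        have : (1 : ℝ) ≤ |2 * (k : ℝ) + 1| := by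
          have c1 : (1 : ℤ) ≤ |2 * k + 1| := Int.one_le_abs (by omega)
          exact_mod_cast c1
        nlinarith
      have b6 : y - A = (y - lam ![1, L, L ^ 2] m) +
          (m 1 * L + m 2 * L ^ 2 - (m 1 * (p / q) + m 2 * (p / q) ^ 2)) := by
        rw [lam_eq, hA]
        ring
      have b7 := abs_add_le (y - lam ![1, L, L ^ 2] m)
        (m 1 * L + m 2 * L ^ 2 - (m 1 * (p / q) + m 2 * (p / q) ^ 2))
      rw [← b6] at b7
      linarith
    · have b1 := log_lower (d := lam ![1, L, L ^ 2] m / 2) hy0 (by linarith) (by linarith) le_rfl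
        (by rw [abs_sub_comm, abs_of_nonneg (by linarith)]; linarith)
      refine le_trans ?_ b1
      rw [div_div_cancel_left' (by linarith), div_le_iff₀ (by positivity)]
      linarith
  have hup : ∑' i, Real.exp (-((Real.log y - Real.log (lam ![1, L, L ^ 2] i)) ^ 2 / (4 * δ ^ 2)))
      ≤ B := by
    have b1 := fun m => term_bound hδ0 (by positivity) hy0 (by linarith [hl1 m]) (hgap m)
    refine le_trans (Summable.tsum_le_tsum b1 (Summable.of_nonneg_of_le
      (fun _ => (Real.exp_pos _).le) b1 (hs.mul_left _)) (hs.mul_left _)) ?_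
    rw [tsum_mul_left, ← hZ, hB]
    apply mul_le_mul_of_nonneg_right _ hZ0
    have b2 : X / 2048 ≤ (g / (2 * y)) ^ 2 / (8 * δ ^ 2) := by
      have c1 : g / (2 * (2 * X)) ≤ g / (2 * y) := by gcongr
      have c2 : (g / (2 * (2 * X))) ^ 2 / (8 * δ ^ 2) = X * (X / q ^ 4) / 2048 := by
        rw [hg, hδ]
        field_simp
        ring
      have c3 : 1 ≤ X / q ^ 4 := by rwa [one_le_div (by positivity)]
      calc X / 2048 ≤ X * (X / q ^ 4) / 2048 := by
            gcongr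
            exact le_mul_of_one_le_right (by linarith) c3
        _ = _ := c2.symm
        _ ≤ _ := by gcongr
    have b3 := Real.pow_div_factorial_le_exp (X / 2048) (by positivity) 4
    have b4 : Real.exp (-((g / (2 * y)) ^ 2 / (8 * δ ^ 2))) * X ^ 4 ≤ 24 * 2048 ^ 4 := by
      have c1 : Real.exp (-((g / (2 * y)) ^ 2 / (8 * δ ^ 2))) ≤ Real.exp (-(X / 2048)) :=
        Real.exp_le_exp.mpr (by linarith)
      have c2 : X ^ 4 ≤ 24 * 2048 ^ 4 * Real.exp (X / 2048) := by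
        norm_num [Nat.factorial, div_pow] at b3 ⊢
        linarith
      refine le_trans (mul_le_mul c1 c2 (by positivity) (by positivity)) (le_of_eq ?_)
      rw [mul_left_comm, ← Real.exp_add]
      simp
    have b5 : Real.exp (32 * δ ^ 2) ≤ Real.exp 32 := Real.exp_le_exp.mpr (by nlinarith)
    have b6 : y ^ 4 ≤ (2 * X) ^ 4 := by gcongr
    calc Real.exp (-((g / (2 * y)) ^ 2 / (8 * δ ^ 2))) * Real.exp (32 * δ ^ 2) * y ^ 4
        ≤ Real.exp (-((g / (2 * y)) ^ 2 / (8 * δ ^ 2))) * Real.exp 32 * (2 * X) ^ 4 := by gcongr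
      _ = Real.exp (-((g / (2 * y)) ^ 2 / (8 * δ ^ 2))) * X ^ 4 * Real.exp 32 * 16 := by ring
      _ ≤ _ := by gcongr
  have herr : Real.exp (3 / 2 * Real.log X) * δ ^ (-(1 / 8) : ℝ) ≤ 128 * (q : ℝ) ^ 35 := by
    have b1 : Real.log X ≤ 4 * Real.log 2 + 20 * Real.log q := by
      refine le_trans (Real.log_le_log (by linarith) hX2) (le_of_eq ?_)
      rw [Real.log_mul (by norm_num) (by positivity), show (16 : ℝ) = 2 ^ 4 by norm_num,
        Real.log_pow, Real.log_pow]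
      norm_num
    have b2 : Real.log δ = -(2 * Real.log X) := by
      rw [hδ, one_div, Real.log_inv, Real.log_pow]
      norm_num
    have b3 : 128 * (q : ℝ) ^ 35 = Real.exp (7 * Real.log 2 + 35 * Real.log q) := by
      rw [Real.exp_add, show (7 : ℝ) = ((7 : ℕ) : ℝ) by norm_num,
        show (35 : ℝ) = ((35 : ℕ) : ℝ) by norm_num, Real.exp_nat_mul, Real.exp_nat_mul,
        Real.exp_log (by norm_num), Real.exp_log hq0]
      norm_num
    rw [Real.rpow_def_of_pos hδ0, ← Real.exp_add, b2, b3]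
    apply Real.exp_le_exp.mpr
    linarith
  have hlow : (q : ℝ) ^ 36 * Real.exp (-(1 / 4)) ≤
      ∑' i, Real.exp (-((Real.log X - Real.log (lam ![1, L, L ^ 2] i)) ^ 2 / (4 * δ ^ 2))) := by
    have b1 := fun m => term_bound (y := X) hδ0 le_rfl (by linarith) (by linarith [hl1 m])
      (abs_nonneg (Real.log X - Real.log (lam ![1, L, L ^ 2] m)))
    have b2 := Summable.of_nonneg_of_le (fun _ => (Real.exp_pos _).le) b1 (hs.mul_left _)
    set φ : ℕ × ℕ → (Fin 3 → ℕ) := fun x =>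
      ![(J - x.1) * p + (J - x.2) * p ^ 2, q * x.1, q ^ 2 * x.2] with hφ
    have hinj : Function.Injective φ := by
      intro x x' hxx
      have c1 := congrFun hxx 1
      have c2 := congrFun hxx 2
      have c3 : q ≠ 0 := by omega
      simp [hφ, c3] at c1 c2
      exact Prod.ext c1 c2
    refine le_trans ?_ (b2.sum_le_tsum ((Finset.range J ×ˢ Finset.range J).image φ)
      fun _ _ => (Real.exp_pos _).le)
    have b3 := Finset.card_nsmul_le_sum ((Finset.range J ×ˢ Finset.range J).image φ)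
      (fun i => Real.exp (-((Real.log X - Real.log (lam ![1, L, L ^ 2] i)) ^ 2 / (4 * δ ^ 2))))
      (Real.exp (-(1 / 4))) (by
        intro i hi
        obtain ⟨x, hx, rfl⟩ := Finset.mem_image.mp hi
        obtain ⟨hx1, hx2⟩ := Finset.mem_product.mp hx
        have hx1' := (Finset.mem_range.mp hx1).le
        have hx2' := (Finset.mem_range.mp hx2).le
        have c1 : (x.1 : ℝ) ≤ (q : ℝ) ^ 18 := by rw [← hJ']; exact_mod_cast hx1'
        have c2 : (x.2 : ℝ) ≤ (q : ℝ) ^ 18 := by rw [← hJ']; exact_mod_cast hx2'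
        have c3 := approx h1 h2 (by linarith) ha.le ((q : ℝ) * x.1) ((q : ℝ) ^ 2 * x.2)
          (by positivity) (by positivity)
        have c4 : lam ![1, L, L ^ 2] (φ x) - X = (q : ℝ) * x.1 * L + (q : ℝ) ^ 2 * x.2 * L ^ 2 -
            ((q : ℝ) * x.1 * (p / q) + (q : ℝ) ^ 2 * x.2 * (p / q) ^ 2) := by
          rw [lam_eq, hX]
          simp only [hφ, Matrix.cons_val_zero, Matrix.cons_val_one, Matrix.cons_val]
          push_cast [hx1', hx2']
          field_simp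
          ring
        have c5 : ((q : ℝ) * x.1 + 5 * ((q : ℝ) ^ 2 * x.2)) * τ ≤ 1 / (2 * X) := by
          have d1 : (q : ℝ) * x.1 ≤ q ^ 2 * q ^ 18 :=
            mul_le_mul (by nlinarith) c1 (Nat.cast_nonneg _) (by positivity)
          have d2 : (q : ℝ) ^ 2 * x.2 ≤ q ^ 2 * q ^ 18 := by gcongr
          rw [le_div_iff₀ (by positivity)]
          refine le_trans ?_ hτ1
          calc ((q : ℝ) * x.1 + 5 * ((q : ℝ) ^ 2 * x.2)) * τ * (2 * X)
              ≤ (q ^ 2 * q ^ 18 + 5 * (q ^ 2 * q ^ 18)) * τ * (2 * (16 * q ^ 20)) := by gcongr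
            _ = τ * (192 * q ^ 40) := by ring
            _ ≤ _ := by gcongr; norm_num
        have c6 : |X - lam ![1, L, L ^ 2] (φ x)| ≤ 1 / (2 * X) := by
          rw [abs_sub_comm, c4]
          linarith
        have c7 : 1 / (2 * X) ≤ X / 2 := by
          rw [div_le_div_iff₀ (by positivity) (by norm_num)]
          nlinarith
        have c8 := log_upper (m := X / 2) (by linarith) (by linarith)
          (by linarith [(abs_le.mp c6).2]) c6
        have c9 : 1 / (2 * X) / (X / 2) = δ := by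
          rw [hδ]
          field_simp
        rw [c9] at c8
        apply Real.exp_le_exp.mpr
        rw [neg_le_neg_iff, div_le_iff₀ (by positivity), ← sq_abs]
        have := pow_le_pow_left₀ (abs_nonneg _) c8 2
        linarith)
    refine le_trans (le_of_eq ?_) b3
    rw [Finset.card_image_of_injective _ hinj, Finset.card_product, Finset.card_range,
      nsmul_eq_mul]
    push_cast
    rw [hJ']
    ring
  have hfin : (q : ℝ) ^ 36 * Real.exp (-(1 / 4)) ≤ (2 * B + 128 * |C'|) * q ^ 35 := by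
    have b1 : C' * Real.exp (3 / 2 * Real.log X) * δ ^ (-(1 / 8) : ℝ) ≤
        |C'| * (128 * (q : ℝ) ^ 35) := by
      rw [mul_assoc]
      exact mul_le_mul (le_abs_self _) herr (by positivity) (abs_nonneg _)
    have b2 : B ≤ B * (q : ℝ) ^ 35 := le_mul_of_one_le_right hB0 (one_le_pow₀ hq1)
    linarith
  have b1 : (q : ℝ) * Real.exp (-(1 / 4)) ≤ 2 * B + 128 * |C'| := by
    apply le_of_mul_le_mul_right _ (pow_pos hq0 35)
    refine le_trans (le_of_eq ?_) hfin
    ring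
  have b2 := mul_le_mul_of_nonneg_left b1 (Real.exp_pos (1 / 4)).le
  rw [mul_left_comm, ← Real.exp_add] at b2
  simp only [add_neg_cancel, Real.exp_zero, mul_one] at b2
  linarith [hq.2]

theorem finrank_three {L : ℝ} (hL : Liouville L) :
    Module.finrank ℚ (Submodule.span ℚ (Set.range ![1, L, L ^ 2])) = 3 := by
  have ht : Transcendental ℚ L := fun h =>
    hL.transcendental ((IsFractionRing.isAlgebraic_iff ℤ ℚ ℝ).mpr h)
  rw [finrank_span_eq_card, Fintype.card_fin]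
  rw [Fintype.linearIndependent_iff]
  intro c hc
  have h0 : (Polynomial.C (c 0) + Polynomial.C (c 1) * Polynomial.X +
      Polynomial.C (c 2) * Polynomial.X ^ 2 : Polynomial ℚ) = 0 := by
    refine (transcendental_iff.mp ht) _ ?_
    simpa [Fin.sum_univ_three, Algebra.smul_def] using hc
  have h1 := congrArg (Polynomial.coeff · 0) h0
  have h2 := congrArg (Polynomial.coeff · 1) h0
  have h3 := congrArg (Polynomial.coeff · 2) h0
  simp [Polynomial.coeff_X, Polynomial.coeff_C] at h1 h2 h3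
  intro i
  fin_cases i
  · exact h1
  · exact h2
  · exact h3

end Pool.Agent.H1.Barnes
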