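import Pool.Agent.H1.IsoB

namespace Pool.Agent.H1.Bm

open Metric Filter Topology Set MeasureTheory Real Pool.Agent.H1.Iso
open scoped RealInnerProductSpace ENNReal

lemma low {N : ℕ} (ν : Measure (E N)) [IsProbabilityMeasure ν] (h : ∀ᵐ x ∂ν, ‖x‖ ^ 2 ≤ 1 / 2) :
    1 ≤ ∫⁻ x, ∫⁻ y, edist x y ^ (-(1 / 2) : ℝ) ∂ν ∂ν := by
  have hν : ∀ᵐ x ∂ν, x ∈ closedBall (0 : E N) 1 := h.mono fun x hx =>
    mem_closedBall_zero_iff.2 (by nlinarith [norm_nonneg x])
  have h2 := (Measure.quasiMeasurePreserving_fst (μ := ν) (ν := ν)).ae h |>.and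
    ((Measure.quasiMeasurePreserving_snd (μ := ν) (ν := ν)).ae h)
  have k := ker (ι := Fin N) hν hν (U := fun i x => x i) (V := fun i x => x i) (by fun_prop)
    (by fun_prop) 1
  simp only [← inner_eq, pow_one] at k
  have h3 : 1 ≤ ∫ p, (1 + ⟪p.1, p.2⟫ / 2) ∂ν.prod ν := by
    rw [integral_add (integrable_const _) (int2 hν hν (by fun_prop)), integral_div, k]
    simp only [integral_const, probReal_univ, one_smul, le_add_iff_nonneg_right]
    exact div_nonneg (Finset.sum_nonneg fun f _ => mul_self_nonneg _) zero_le_two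
  rw [← lintegral_prod (fun p : E N × E N => edist p.1 p.2 ^ (-(1 / 2) : ℝ)) (by fun_prop)]
  refine (ENNReal.one_le_ofReal.2 h3).trans ?_
  rw [ofReal_integral_eq_lintegral_ofReal (int2 hν hν (by fun_prop)) (h2.mono fun p hp => by
    have := norm_add_sq_real p.1 p.2
    simp only [Pi.zero_apply]; nlinarith [sq_nonneg ‖p.1 + p.2‖])]
  refine lintegral_mono_ae (h2.mono fun p hp => ?_)
  rcases eq_or_ne p.1 p.2 with e | e
  · simp [e]
  have d0 : 0 < ‖p.1 - p.2‖ := norm_pos_iff.2 (sub_ne_zero.2 e)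
  rw [edist_dist, dist_eq_norm, ENNReal.ofReal_rpow_of_pos d0]
  refine ENNReal.ofReal_le_ofReal ?_
  have := norm_sub_sq_real p.1 p.2
  have a := add_one_le_exp (log ‖p.1 - p.2‖ * (-(1 / 2)))
  have b := log_le_sub_one_of_pos (pow_pos d0 2)
  rw [log_pow] at b
  rw [rpow_def_of_pos d0]
  push_cast at b
  linarith [hp.1, hp.2]

noncomputable def D : ℝ≥0∞ := ∫⁻ u in ball (0 : ℝ) 1, edist u 0 ^ (-(1 / 2) : ℝ)

lemma D_fin : D ≠ ⊤ := by
  have : IntegrableOn (fun u : ℝ => ‖u‖ ^ (-(1 / 2) : ℝ)) (ball 0 1) :=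
    integrableOn_ball_of_norm_le_rpow (C := 1) (α := 1 / 2) (by simp) (by norm_num)
      (ae_of_all _ fun x => by rw [Real.norm_of_nonneg (by positivity), one_mul])
      (Measurable.aestronglyMeasurable (by fun_prop))
  refine ne_top_of_le_ne_top this.2.ne (lintegral_mono_ae (ae_restrict_of_ae ?_))
  filter_upwards [compl_mem_ae_iff.2 (measure_singleton (0 : ℝ))] with u hu
  rw [edist_dist, dist_zero_right, ENNReal.ofReal_rpow_of_pos (norm_pos_iff.2 hu),
    Real.enorm_of_nonneg (by positivity)]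

def K (N : ℕ) (σ : ℝ) : Set (E N) := {x | ∀ i, 0 ≤ σ * x i} ∩ closedBall 0 1

lemma K_closed (N : ℕ) (σ : ℝ) : IsClosed (K N σ) := by
  refine IsClosed.inter ?_ isClosed_closedBall
  rw [ofPred_forall]
  exact isClosed_iInter fun i => isClosed_le continuous_const (by fun_prop)

lemma up {N : ℕ} (hN : 220 * D ≤ N) (N0 : N ≠ 0) {σ : ℝ} (hσ : σ ^ 2 = 1) :
    ∃ μ : Measure (E N), IsProbabilityMeasure μ ∧ μ (K N σ)ᶜ = 0 ∧
      ∫⁻ x, ∫⁻ y, edist x y ^ (-(1 / 2) : ℝ) ∂μ ∂μ ≤ ENNReal.ofReal (21 / 22) := by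
  set l : Measure ℝ := (10 : ℝ≥0∞) • volume.restrict (Icc (9 / 10) 1) with hl
  have l1 : l univ = 1 := by
    rw [hl, Measure.smul_apply, Measure.restrict_apply_univ, volume_Icc, smul_eq_mul,
      ← ENNReal.ofReal_ofNat, ← ENNReal.ofReal_mul (by norm_num)]; norm_num
  have la : ∀ᵐ t ∂l, t ∈ Icc (9 / 10 : ℝ) 1 :=
    Measure.ae_smul_measure (ae_restrict_mem measurableSet_Icc) _
  set g : Fin N → ℝ → E N := fun i t => EuclideanSpace.single i (σ * t) with hg
  have gm : ∀ i, Measurable (g i) := fun i => by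
    have : g i = fun t => (σ * t) • EuclideanSpace.single i (1 : ℝ) := by
      ext t j; simp [hg]
    rw [this]; fun_prop
  set μ : Measure (E N) := Measure.sum fun i => (N : ℝ≥0∞)⁻¹ • l.map (g i) with hμ
  have n1 : (N : ℝ≥0∞) * (N : ℝ≥0∞)⁻¹ = 1 := ENNReal.mul_inv_cancel (by simpa) (by simp)
  have s1 : |σ| = 1 := by rw [← sq_eq_sq₀ (abs_nonneg _) zero_le_one, sq_abs, hσ, one_pow]
  have V : ∀ i, ∀ t ∈ Icc (9 / 10 : ℝ) 1,
      ∫⁻ y, edist (g i t) y ^ (-(1 / 2) : ℝ) ∂μ ≤ ENNReal.ofReal (21 / 22) := by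
    intro i t ht
    have h1 : ∀ j, ∫⁻ y, edist (g i t) y ^ (-(1 / 2) : ℝ) ∂l.map (g j) ≤
        ENNReal.ofReal (10 / 11) + if j = i then 10 * D else 0 := fun j => by
      refine (lintegral_map_le _ _).trans ?_
      split_ifs with e
      · refine le_add_left ?_
        rw [hl, lintegral_smul_measure, smul_eq_mul, e, D, ← lintegral_indicator measurableSet_ball,
          ← lintegral_sub_left_eq_self (μ := volume) _ t, ← lintegral_indicator measurableSet_Icc]
        refine mul_le_mul_right (lintegral_mono fun u => ?_) _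
        by_cases hu : u ∈ Icc (9 / 10 : ℝ) 1
        · rw [indicator_of_mem hu, indicator_of_mem (mem_ball_zero_iff.2 (abs_lt.2
            ⟨by linarith [ht.1, hu.2], by linarith [ht.2, hu.1]⟩))]
          simp only [hg, PiLp.edist_single_same]
          rw [edist_dist, edist_dist, dist_zero_right, dist_eq_norm, ← mul_sub, norm_mul,
            Real.norm_eq_abs σ, s1, one_mul]
        · simp [hu]
      · rw [add_zero, ← mul_one (ENNReal.ofReal _), ← l1, ← lintegral_const]
        refine lintegral_mono_ae (la.mono fun u hu => ?_)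
        have : (11 / 10) ^ 2 ≤ ‖g i t - g j u‖ := by
          refine (pow_le_pow_iff_left₀ (by norm_num) (norm_nonneg _) two_ne_zero).1 ?_
          rw [norm_sub_sq_real]
          simp only [hg, EuclideanSpace.inner_single_left, PiLp.single_apply, if_neg
            (Ne.symm e), PiLp.norm_single, Real.norm_eq_abs, sq_abs, mul_pow, hσ]
          nlinarith [ht.1, hu.1]
        rw [edist_dist, dist_eq_norm, ENNReal.ofReal_rpow_of_pos (by linarith)]
        refine ENNReal.ofReal_le_ofReal ((rpow_le_rpow_of_nonpos (by norm_num) this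
          (by norm_num)).trans_eq ?_)
        rw [← rpow_two, ← rpow_mul (by norm_num)]; norm_num
    rw [hμ, lintegral_sum_measure, tsum_fintype]
    simp only [lintegral_smul_measure, smul_eq_mul]
    refine (Finset.sum_le_sum fun j _ => mul_le_mul_right (h1 j) _).trans ?_
    rw [← Finset.mul_sum, Finset.sum_add_distrib, Finset.sum_const, Finset.card_univ,
      Fintype.card_fin, Finset.sum_ite_eq', if_pos (Finset.mem_univ _), nsmul_eq_mul, mul_add,
      ← mul_assoc, mul_comm _ (N : ℝ≥0∞), n1, one_mul,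
      show (21 / 22 : ℝ) = 10 / 11 + 22⁻¹ by norm_num, ENNReal.ofReal_add (by norm_num) (by norm_num),
      ENNReal.ofReal_inv_of_pos (by norm_num), ENNReal.ofReal_ofNat]
    refine add_le_add_right (ENNReal.le_inv_iff_mul_le.2 ?_) _
    calc _ = (220 * D) * (N : ℝ≥0∞)⁻¹ := by ring
      _ ≤ _ := by rw [← n1]; gcongr
  refine ⟨μ, ⟨?_⟩, ?_, ?_⟩
  · rw [hμ, Measure.sum_apply _ MeasurableSet.univ, tsum_fintype]
    simp [Measure.map_apply (gm _), l1, n1]
  · change ∀ᵐ x ∂μ, x ∈ K N σ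
    rw [hμ, Measure.ae_sum_iff]
    refine fun i => Measure.ae_smul_measure ((ae_map_iff (gm i).aemeasurable
      (K_closed N σ).measurableSet).2 (la.mono fun t ht => ⟨fun j => ?_, ?_⟩)) _
    · simp only [hg, PiLp.single_apply]
      split_ifs <;> nlinarith [ht.1]
    · simp only [hg, mem_closedBall_zero_iff, PiLp.norm_single, Real.norm_eq_abs, abs_mul,
        s1, one_mul]
      exact abs_le.2 ⟨by linarith [ht.1], ht.2⟩
  · conv_lhs => arg 1; rw [hμ]
    rw [lintegral_sum_measure, tsum_fintype]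
    simp only [lintegral_smul_measure, smul_eq_mul]
    refine (Finset.sum_le_sum fun i _ => mul_le_mul_right ((lintegral_map_le _ (g i)).trans
      (lintegral_mono_ae (la.mono (V i)))) _).trans ?_
    rw [lintegral_const, l1, mul_one, Finset.sum_const, Finset.card_univ,
      Fintype.card_fin, nsmul_eq_mul, ← mul_assoc, n1, one_mul]

end Pool.Agent.H1.Bm
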