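import Mathlib

open Real MeasureTheory Set Polynomial

namespace Pool.Agent.H1.Bom

lemma ex_ge {H : ℂ → ℝ} (h : CircleIntegrable H 0 1) :
    ∃ u : ℂ, ‖u‖ = 1 ∧ circleAverage H 0 1 ≤ H u := by
  rw [circleAverage_eq_intervalAverage]
  have h1 : IntegrableOn (fun θ => H (circleMap 0 1 θ)) (uIoc 0 (2 * π)) volume :=
    intervalIntegrable_iff.1 h
  obtain ⟨x, -, hx⟩ := exists_setAverage_le (μ := volume) (s := uIoc 0 (2 * π))
    (by simp) (by rw [Real.volume_uIoc]; exact ENNReal.ofReal_ne_top) h1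
  exact ⟨circleMap 0 1 x, by simp [norm_circleMap_zero], hx⟩

lemma ci {H : ℂ → ℝ} (h : Continuous H) : CircleIntegrable H 0 1 :=
  h.continuousOn.circleIntegrable zero_le_one

lemma cont_avg {G : ℂ → ℂ → ℝ} (h : Continuous G.uncurry) :
    Continuous fun u => circleAverage (G u) 0 1 := by
  simp only [circleAverage_def, smul_eq_mul]
  refine continuous_const.mul ?_
  refine intervalIntegral.continuous_parametric_intervalIntegral_of_continuous' ?_ _ _
  exact h.comp (continuous_fst.prodMk ((continuous_circleMap 0 1).comp continuous_snd))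

lemma swap_avg {G : ℂ → ℂ → ℝ} (h : Continuous G.uncurry) :
    circleAverage (fun u => circleAverage (G u) 0 1) 0 1 =
      circleAverage (fun w => circleAverage (fun u => G u w) 0 1) 0 1 := by
  simp only [circleAverage_def, smul_eq_mul, intervalIntegral.integral_const_mul]
  congr 2
  refine intervalIntegral_intervalIntegral_swap
    (F := fun x y => G (circleMap 0 1 x) (circleMap 0 1 y)) ?_
  have hc : Continuous (Function.uncurry fun x y => G (circleMap 0 1 x) (circleMap 0 1 y)) :=
    h.comp (((continuous_circleMap 0 1).comp continuous_fst).prodMk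
      ((continuous_circleMap 0 1).comp continuous_snd))
  exact (hc.continuousOn.integrableOn_compact (isCompact_uIcc.prod isCompact_uIcc)).mono_set
    (prod_mono uIoc_subset_uIcc uIoc_subset_uIcc)

lemma cont_lm {X : Type*} [TopologicalSpace X] {f g : X → ℝ} (hf : Continuous f)
    (hg : Continuous g) (h1 : ∀ x, 1 ≤ g x) : Continuous fun x => log (max (f x) (g x)) :=
  (hf.max hg).log fun x => (lt_of_lt_of_le one_pos ((h1 x).trans (le_max_right _ _))).ne'

lemma pt (w b : ℂ) (g : ℝ) (hg : 1 ≤ g) :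
    log (max (max ‖w‖ ‖b‖) g) ≤ circleAverage (fun u => log (max ‖w + u * b‖ g)) 0 1 := by
  have hc : Continuous fun u : ℂ => log (max ‖w + u * b‖ g) :=
    cont_lm (by fun_prop) continuous_const fun _ => hg
  by_cases hb : b = 0
  · subst hb
    simp [circleAverage_const]
  rcases le_total (max ‖w‖ ‖b‖) g with h | h
  · rw [max_eq_right h]
    calc log g = circleAverage (fun _ : ℂ => log g) 0 1 := (circleAverage_const _ _ _).symm
      _ ≤ _ := circleAverage_mono (ci continuous_const) (ci hc) fun u _ =>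
        log_le_log (by linarith) (le_max_right _ _)
  · rw [max_eq_left h, max_comm ‖w‖, ← mahlerMeasure_C_mul_X_add_C hb,
      ← logMahlerMeasure_eq_log_MahlerMeasure, logMahlerMeasure_def]
    refine circleAverage_mono (C b * X + C w).intervalIntegrable_mahlerMeasure (ci hc) ?_
    intro u _
    have e : eval u (C b * X + C w) = w + u * b := by simp; ring
    simp only [e]
    rcases (norm_nonneg (w + u * b)).eq_or_lt with h0 | h0
    · rw [← h0, log_zero]
      exact log_nonneg (hg.trans (le_max_right _ _))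
    · exact log_le_log h0 (le_max_left _ _)

lemma step {f b : ℂ → ℂ} {g : ℂ → ℝ} (hf : Continuous f) (hb : Continuous b)
    (hg : Continuous g) (h1 : ∀ w, 1 ≤ g w) :
    ∃ u : ℂ, ‖u‖ = 1 ∧ circleAverage (fun w => log (max (max ‖f w‖ ‖b w‖) (g w))) 0 1 ≤
      circleAverage (fun w => log (max ‖f w + u * b w‖ (g w))) 0 1 := by
  set G : ℂ → ℂ → ℝ := fun u w => log (max ‖f w + u * b w‖ (g w)) with hG
  have hc : Continuous G.uncurry :=
    cont_lm (f := fun p : ℂ × ℂ => ‖f p.2 + p.1 * b p.2‖) (g := fun p : ℂ × ℂ => g p.2)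
      (by fun_prop) (by fun_prop) fun p => h1 _
  obtain ⟨u, hu, h⟩ := ex_ge (ci (cont_avg hc))
  refine ⟨u, hu, le_trans ?_ h⟩
  rw [swap_avg hc]
  refine circleAverage_mono (ci (cont_lm (by fun_prop) hg h1))
    (ci (cont_avg (G := fun w u => G u w) (hc.comp continuous_swap))) fun w _ => pt _ _ _ (h1 w)

/-- running maximum -/
noncomputable def mx (f : ℂ → ℂ) (b : ℕ → ℂ → ℂ) : ℕ → ℂ → ℝ
  | 0 => fun w => ‖f w‖
  | k + 1 => fun w => max (mx f b k w) ‖b k w‖

lemma mx_cont {f : ℂ → ℂ} {b : ℕ → ℂ → ℂ} (hf : Continuous f) (hb : ∀ j, Continuous (b j)) :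
    ∀ k, Continuous (mx f b k)
  | 0 => hf.norm
  | k + 1 => (mx_cont hf hb k).max (hb k).norm

lemma le_mx0 (f : ℂ → ℂ) (b : ℕ → ℂ → ℂ) (w : ℂ) : ∀ k, ‖f w‖ ≤ mx f b k w
  | 0 => le_rfl
  | k + 1 => (le_mx0 f b w k).trans (le_max_left _ _)

lemma le_mx (f : ℂ → ℂ) (b : ℕ → ℂ → ℂ) (w : ℂ) (j : ℕ) : ∀ k, j < k → ‖b j w‖ ≤ mx f b k w
  | 0, h => absurd h (Nat.not_lt_zero _)
  | k + 1, h => by
    rcases (Nat.lt_succ_iff.1 h).eq_or_lt with rfl | h'
    · exact le_max_right _ _
    · exact (le_mx f b w j k h').trans (le_max_left _ _)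

lemma iter {f : ℂ → ℂ} {b : ℕ → ℂ → ℂ} (hf : Continuous f) (hb : ∀ j, Continuous (b j)) (k : ℕ) :
    ∀ g : ℂ → ℝ, Continuous g → (∀ w, 1 ≤ g w) → ∃ e : ℕ → ℂ, (∀ j, ‖e j‖ = 1) ∧
      circleAverage (fun w => log (max (mx f b k w) (g w))) 0 1 ≤
      circleAverage (fun w => log (max ‖f w + ∑ j ∈ Finset.range k, e j * b j w‖ (g w))) 0 1 := by
  induction k with
  | zero => exact fun g _ _ => ⟨fun _ => 1, fun _ => norm_one, by simp [mx]⟩
  | succ k ih =>
    intro g hg h1
    obtain ⟨e, he, h⟩ := ih (fun w => max ‖b k w‖ (g w)) ((hb k).norm.max hg)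
      fun w => (h1 w).trans (le_max_right _ _)
    obtain ⟨u, hu, h'⟩ := step (f := fun w => f w + ∑ j ∈ Finset.range k, e j * b j w)
      (hf.add (continuous_finsetSum _ fun j _ => continuous_const.mul (hb j))) (hb k) hg h1
    refine ⟨Function.update e k u, fun j => ?_, ?_⟩
    · by_cases hj : j = k
      · subst hj; simpa using hu
      · simpa [Function.update_of_ne hj] using he j
    · have e1 : ∀ w, f w + ∑ j ∈ Finset.range (k + 1), Function.update e k u j * b j w =
          f w + ∑ j ∈ Finset.range k, e j * b j w + u * b k w := by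
        intro w
        rw [Finset.sum_range_succ, Function.update_self, add_assoc]
        congr 2
        exact Finset.sum_congr rfl fun j hj => by
          rw [Function.update_of_ne (Finset.mem_range.1 hj).ne]
      simp only [e1, mx, max_assoc] at h h' ⊢
      exact h.trans h'

lemma cartan (P : ℂ[X]) : ∃ a : ℂ, ‖a‖ = 1 ∧
    circleAverage (fun w => log (max ‖P.eval w‖ 1)) 0 1 ≤ (P - C a).logMahlerMeasure := by
  have hm : Meromorphic fun w => P.eval w := fun z =>
    ((analyticOnNhd_id (s := univ)).aeval_polynomial P z (mem_univ _)).meromorphicAt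
  obtain ⟨a, ha, h⟩ := ex_ge (ValueDistribution.circleIntegrable_circleAverage_log_norm_sub
    (R := 1) hm)
  refine ⟨a, ha, ?_⟩
  have := congrFun (ValueDistribution.circleAverage_circleAverage_eq_proximity_top hm) 1
  simp only [ValueDistribution.proximity_top] at this
  rw [this] at h
  simp only [logMahlerMeasure_def, eval_sub, eval_C]
  refine le_of_eq_of_le ?_ h
  congr 1
  ext w
  rw [posLog_eq_log_max_one (norm_nonneg _), max_comm]

end Pool.Agent.H1.Bom
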