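import Mathlib

open Polynomial

namespace Pool.Agent.H1.Bom

/-- `‖q‖`, the maximum of `|q(z)|` over the closed unit disc. -/
noncomputable def dn (q : ℂ[X]) : ℝ :=
  sSup ((fun z => ‖q.eval z‖) '' Metric.closedBall (0 : ℂ) 1)

/-- `[p] = max_{0 ≤ j ≤ n} |a_j| / C(n,j)`, with `n` the degree of `p`. -/
noncomputable def bn (p : ℂ[X]) : ℝ :=
  (Finset.range (p.natDegree + 1)).sup' ⟨0, by simp⟩
    fun j => ‖p.coeff j‖ / (p.natDegree.choose j : ℝ)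

/-- `S n = sup ‖q‖ / [p]` over monic `p` of degree `n` and monic `q ∣ p`. -/
noncomputable def S (n : ℕ) : ℝ :=
  sSup {r : ℝ | ∃ p q : ℂ[X], p.Monic ∧ p.natDegree = n ∧ q.Monic ∧ q ∣ p ∧ r = dn q / bn p}

/-- `K = exp((1/2π) ∫₀^{2π} log(1 + |1 + e^{it}|) dt)`. -/
noncomputable def K : ℝ :=
  Real.exp (1 / (2 * Real.pi) *
    ∫ t in (0 : ℝ)..2 * Real.pi, Real.log (1 + ‖1 + Complex.exp (t * Complex.I)‖))

end Pool.Agent.H1.Bom
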