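import Mathlib
import Pool.Agent.H1.BomDefs
import Pool.Agent.H1.BomA

open Real MeasureTheory Set Polynomial

namespace Pool.Agent.H1.Bom

/-- `log K` as a circle average -/
noncomputable def lK : ℝ := circleAverage (fun w : ℂ => log (1 + ‖w + 1‖)) 0 1

lemma K_eq : K = exp lK := by
  unfold K lK
  rw [circleAverage_def, smul_eq_mul, one_div]
  congr 3
  ext t
  simp [circleMap, add_comm]

lemma cont1 (a : ℂ) : Continuous fun w : ℂ => log (1 + ‖w + a‖) :=
  Continuous.log (by fun_prop) fun w => by positivity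

lemma rot {a : ℂ} (ha : ‖a‖ = 1) : circleAverage (fun w : ℂ => log (1 + ‖w + a‖)) 0 1 = lK := by
  have e : a = Complex.exp (a.arg * Complex.I) := by
    have := Complex.norm_mul_exp_arg_mul_I a
    rw [ha] at this
    simpa using this.symm
  unfold lK
  rw [circleAverage_eq_integral_add a.arg, circleAverage_def]
  congr 2
  ext t
  congr 2
  have : circleMap 0 1 (t + a.arg) + a = (circleMap 0 1 t + 1) * a := by
    conv_lhs => rw [circleMap]
    rw [circleMap]
    push_cast
    rw [add_mul (t : ℂ), Complex.exp_add, ← e]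
    ring
  rw [this, norm_mul, ha, mul_one]

lemma coeff_le (p : ℂ[X]) {j : ℕ} (hj : j ≤ p.natDegree) :
    ‖p.coeff j‖ ≤ bn p * p.natDegree.choose j := by
  have h := Finset.le_sup' (fun j => ‖p.coeff j‖ / (p.natDegree.choose j : ℝ))
    (Finset.mem_range.2 (Nat.lt_succ_of_le hj))
  have hp : (0 : ℝ) < p.natDegree.choose j := by exact_mod_cast Nat.choose_pos hj
  exact (div_le_iff₀ hp).1 h

lemma one_le_bn {p : ℂ[X]} (hp : p.Monic) : 1 ≤ bn p := by
  simpa [hp.coeff_natDegree] using coeff_le p le_rfl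

lemma eval_le (p : ℂ[X]) (z : ℂ) : ‖p.eval z‖ ≤ bn p * (1 + ‖z‖) ^ p.natDegree := by
  rw [eval_eq_sum_range, add_comm 1, add_pow, Finset.mul_sum]
  refine (norm_sum_le _ _).trans (Finset.sum_le_sum fun j hj => ?_)
  rw [norm_mul, norm_pow, one_pow, mul_one]
  have := coeff_le p (Nat.lt_succ_iff.1 (Finset.mem_range.1 hj))
  calc ‖p.coeff j‖ * ‖z‖ ^ j ≤ (bn p * p.natDegree.choose j) * ‖z‖ ^ j := by gcongr
    _ = _ := by ring

lemma mm_le {p : ℂ[X]} (hp : p.Monic) {a : ℂ} (ha : ‖a‖ = 1) :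
    (taylor a p).mahlerMeasure ≤ bn p * K ^ p.natDegree := by
  have h1 := one_le_bn hp
  have h0 : taylor a p ≠ 0 := by simpa using hp.ne_zero
  rw [K_eq, ← exp_nat_mul, ← exp_log (mahlerMeasure_pos_of_ne_zero h0),
    ← logMahlerMeasure_eq_log_MahlerMeasure, ← exp_log (show 0 < bn p by linarith), ← exp_add,
    exp_le_exp, ← rot ha, logMahlerMeasure_def, ← circleAverage_const (log (bn p)) 0 1,
    ← smul_eq_mul, ← circleAverage_fun_smul, ← circleAverage_fun_add (ci continuous_const)
      (ci ((cont1 a).fun_const_smul _))]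
  refine circleAverage_mono (taylor a p).intervalIntegrable_mahlerMeasure
    (ci (continuous_const.add ((cont1 a).fun_const_smul _))) fun w _ => ?_
  simp only [taylor_eval, smul_eq_mul]
  have h2 : (1 : ℝ) ≤ 1 + ‖w + a‖ := by linarith [norm_nonneg (w + a)]
  rcases (norm_nonneg (p.eval (w + a))).eq_or_lt with h0 | h0
  · rw [← h0, log_zero]
    exact add_nonneg (log_nonneg h1) (mul_nonneg (Nat.cast_nonneg _) (log_nonneg h2))
  · rw [← log_pow, ← log_mul (by positivity) (by positivity)]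
    exact log_le_log h0 (eval_le p _)

lemma ev_le {p q : ℂ[X]} (hp : p.Monic) (hq : q.Monic) (h : q ∣ p) (a : ℂ) :
    ‖q.eval a‖ ≤ (taylor a p).mahlerMeasure := by
  obtain ⟨r, rfl⟩ := h
  have hr : r.Monic := hq.of_mul_monic_left hp
  have h1 := norm_coeff_le_choose_mul_mahlerMeasure 0 (taylor a q)
  have h2 : 1 ≤ (taylor a r).mahlerMeasure :=
    one_le_mahlerMeasure_of_one_le_norm_leadingCoeff (by simp [hr.leadingCoeff])
  rw [taylor_mul, mahlerMeasure_mul]
  simp only [taylor_coeff_zero, Nat.choose_zero_right, Nat.cast_one, one_mul] at h1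
  exact h1.trans (le_mul_of_one_le_right (mahlerMeasure_nonneg _) h2)

lemma dn_le {p q : ℂ[X]} (hp : p.Monic) (hq : q.Monic) (h : q ∣ p) :
    dn q ≤ bn p * K ^ p.natDegree := by
  refine csSup_le ⟨_, 0, by simp, rfl⟩ ?_
  rintro _ ⟨z, hz, rfl⟩
  refine Complex.norm_le_of_forall_mem_frontier_norm_le (U := Metric.ball 0 1)
    Metric.isBounded_ball q.differentiable.diffContOnCl (fun a ha => ?_)
    (by rwa [closure_ball _ one_ne_zero])
  rw [frontier_ball _ one_ne_zero] at ha
  exact (ev_le hp hq h a).trans (mm_le hp (by simpa using ha))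

lemma le_dn (q : ℂ[X]) : ‖q.eval 1‖ ≤ dn q :=
  le_csSup ((isCompact_closedBall (0 : ℂ) 1).bddAbove_image
    q.continuous.norm.continuousOn) ⟨1, by simp, rfl⟩

lemma mt (s : Multiset ℂ) : (taylor 1 (s.map fun z => X - C z).prod).mahlerMeasure =
    ‖((s.filter fun z => 1 ≤ ‖1 - z‖).map fun z => X - C z).prod.eval 1‖ := by
  induction s using Multiset.induction_on with
  | empty => simp
  | cons a s ih =>
    have e : taylor 1 (X - C a) = X + C (1 - a) := by
      simp [add_sub_assoc]
    rw [Multiset.map_cons, Multiset.prod_cons, taylor_mul, mahlerMeasure_mul, ih, e,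
      mahlerMeasure_X_add_C]
    by_cases h : 1 ≤ ‖1 - a‖
    · rw [Multiset.filter_cons_of_pos (p := fun z => 1 ≤ ‖1 - z‖) _ h, Multiset.map_cons, Multiset.prod_cons, eval_mul,
        norm_mul, max_eq_right h]
      simp
    · rw [Multiset.filter_cons_of_neg (p := fun z => 1 ≤ ‖1 - z‖) _ h, max_eq_left (le_of_not_ge h), one_mul]

lemma ex_q {p : ℂ[X]} (hp : p.Monic) :
    ∃ q : ℂ[X], q.Monic ∧ q ∣ p ∧ (taylor 1 p).mahlerMeasure ≤ dn q := by
  refine ⟨((p.roots.filter fun z => 1 ≤ ‖1 - z‖).map fun z => X - C z).prod,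
    monic_multiset_prod_of_monic _ _ fun z _ => monic_X_sub_C z,
    (Multiset.prod_X_sub_C_dvd_iff_le_roots hp.ne_zero _).2 (Multiset.filter_le _ _), ?_⟩
  refine le_of_eq_of_le ?_ (le_dn _)
  rw [← mt, ← (IsAlgClosed.splits p).eq_prod_roots_of_monic hp]

lemma ex_p (k : ℕ) : ∃ p : ℂ[X], p.Monic ∧ p.natDegree = k + 1 ∧ bn p ≤ 1 ∧
    K ^ (k + 1) / (k + 2) ≤ (taylor 1 p).mahlerMeasure := by
  set f : ℂ → ℂ := fun w => (w + 1) ^ (k + 1) with hf
  set b : ℕ → ℂ → ℂ := fun j w => ((k + 1).choose (j + 1) : ℂ) * (w + 1) ^ (j + 1) with hb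
  have hfc : Continuous f := by fun_prop
  have hbc : ∀ j, Continuous (b j) := fun j => by fun_prop
  obtain ⟨e, he, h⟩ := iter hfc hbc k (fun _ => 1) continuous_const fun _ => le_rfl
  set P : ℂ[X] := X ^ (k + 1) +
    ∑ j ∈ Finset.range k, C (e j * (k + 1).choose (j + 1)) * X ^ (j + 1) with hP
  obtain ⟨a, ha, h'⟩ := cartan (taylor 1 P)
  have hc : ∀ j, (P - C a).coeff j = if j = k + 1 then 1 else if j = 0 then -a else
      if j ≤ k then e (j - 1) * (k + 1).choose j else 0 := by
    intro j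
    rcases j with _ | j
    · simp [hP]
    · simp only [hP, coeff_sub, coeff_add, coeff_X_pow, finsetSum_coeff, coeff_C_mul,
        coeff_C_succ, Nat.add_right_cancel_iff, mul_ite, mul_one, mul_zero, Finset.sum_ite_eq,
        Finset.mem_range, sub_zero, Nat.add_one_ne_zero, if_false, Nat.add_sub_cancel,
        Nat.add_one_le_iff]
      by_cases h1 : j = k
      · simp [h1]
      · simp [h1]
  have hd : (P - C a).natDegree = k + 1 := by
    refine natDegree_eq_of_le_of_coeff_ne_zero ?_ (by simp [hc])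
    refine natDegree_le_iff_coeff_eq_zero.2 fun j hj => ?_
    rw [hc, if_neg (by omega), if_neg (by omega), if_neg (by omega)]
  have hm : (P - C a).Monic := by
    rw [Monic, leadingCoeff, hd, hc, if_pos rfl]
  refine ⟨P - C a, hm, hd, ?_, ?_⟩
  · refine Finset.sup'_le _ _ fun j hj => ?_
    rw [hd] at hj ⊢
    have hj' : j ≤ k + 1 := Nat.lt_succ_iff.1 (Finset.mem_range.1 hj)
    have hp : (0 : ℝ) < (k + 1).choose j := by exact_mod_cast Nat.choose_pos hj'
    rw [div_le_one hp, hc]
    split_ifs with h1 h2 h3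
    · simp [h1]
    · simp [h2, ha]
    · simp [he]
    · simp
  · have h0 : taylor 1 (P - C a) ≠ 0 := by
      rw [Ne, taylor_eq_zero]; exact hm.ne_zero
    have hk : (0 : ℝ) < k + 2 := by positivity
    rw [K_eq, ← exp_nat_mul, ← exp_log (mahlerMeasure_pos_of_ne_zero h0),
      ← logMahlerMeasure_eq_log_MahlerMeasure, ← exp_log hk, ← exp_sub, exp_le_exp, map_sub,
      taylor_C]
    refine le_trans ?_ h'
    have e1 : ∀ w, (taylor 1 P).eval w = f w + ∑ j ∈ Finset.range k, e j * b j w := by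
      intro w
      simp [taylor_eval, hP, hf, hb, eval_finsetSum, mul_assoc]
    simp only [e1]
    refine le_trans ?_ h
    unfold lK
    rw [← circleAverage_const (log (k + 2 : ℝ)) 0 1, ← smul_eq_mul, ← circleAverage_fun_smul,
      ← circleAverage_fun_sub (ci ((cont1 1).fun_const_smul _)) (ci continuous_const)]
    refine circleAverage_mono (ci (((cont1 1).fun_const_smul _).sub continuous_const))
      (ci (cont_lm (mx_cont hfc hbc k) continuous_const fun _ => le_rfl)) fun w _ => ?_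
    simp only [smul_eq_mul]
    rw [← log_pow, ← log_div (by positivity) hk.ne']
    refine log_le_log (by positivity) ?_
    rw [div_le_iff₀ hk, add_comm 1, add_pow]
    refine (Finset.sum_le_card_nsmul _ _ (max (mx f b k w) 1) fun j hj => ?_).trans ?_
    · have hj' : j ≤ k + 1 := Nat.lt_succ_iff.1 (Finset.mem_range.1 hj)
      rcases j with _ | j
      · simp
      · rcases hj'.eq_or_lt with h1 | h1
        · refine le_trans ?_ ((le_mx0 f b w k).trans (le_max_left _ _))
          simp [h1, hf]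
        · refine le_trans ?_ ((le_mx f b w j k (by omega)).trans (le_max_left _ _))
          simp [hb, mul_comm]
    · simp only [Finset.card_range, nsmul_eq_mul]
      push_cast
      rw [mul_comm]
      apply le_of_eq
      ring

lemma K_pos : 0 < K := exp_pos _

lemma mem_le {n : ℕ} {r : ℝ}
    (h : r ∈ {r : ℝ | ∃ p q : ℂ[X], p.Monic ∧ p.natDegree = n ∧ q.Monic ∧ q ∣ p ∧
      r = dn q / bn p}) : r ≤ K ^ n := by
  obtain ⟨p, q, hp, rfl, hq, hd, rfl⟩ := h
  rw [div_le_iff₀ (by linarith [one_le_bn hp]), mul_comm]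
  exact dn_le hp hq hd

lemma S_le (n : ℕ) : S n ≤ K ^ n :=
  Real.sSup_le (fun _ h => mem_le h) (pow_pos K_pos n).le

lemma le_S {n : ℕ} (hn : 1 ≤ n) : K ^ n / (n + 1) ≤ S n := by
  obtain ⟨k, rfl⟩ : ∃ k, n = k + 1 := ⟨n - 1, by omega⟩
  obtain ⟨p, hp, hd, hb, h⟩ := ex_p k
  obtain ⟨q, hq, hqp, h'⟩ := ex_q hp
  refine le_trans ?_ (le_csSup ⟨_, fun _ h => mem_le h⟩ ⟨p, q, hp, hd, hq, hqp, rfl⟩)
  rw [le_antisymm hb (one_le_bn hp), div_one]
  refine le_trans (le_of_eq ?_) (h.trans h')
  push_cast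
  ring

lemma tend : Filter.Tendsto (fun n : ℕ => S n ^ (1 / (n : ℝ))) Filter.atTop (nhds K) := by
  have hK := K_pos
  have h1 : Filter.Tendsto (fun n : ℕ => K / ((n : ℝ) + 1) ^ (1 / (n : ℝ))) Filter.atTop
      (nhds K) := by
    have h2 := (tendsto_rpow_div_mul_add 1 1 (-1) zero_ne_one).comp
      (Filter.tendsto_atTop_add_const_right _ 1 tendsto_natCast_atTop_atTop)
    have h3 := (tendsto_const_nhds (x := K)).div h2 one_ne_zero
    rw [div_one] at h3
    refine h3.congr fun n => ?_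
    simp
  refine tendsto_of_tendsto_of_tendsto_of_le_of_le' h1 tendsto_const_nhds ?_ ?_
  · filter_upwards [Filter.eventually_ge_atTop 1] with n hn
    have := rpow_le_rpow (by positivity) (le_S hn) (show 0 ≤ 1 / (n : ℝ) by positivity)
    rwa [div_rpow (by positivity) (by positivity), one_div,
      pow_rpow_inv_natCast hK.le (by omega), ← one_div] at this
  · filter_upwards [Filter.eventually_ge_atTop 1] with n hn
    have := rpow_le_rpow (le_trans (by positivity) (le_S hn)) (S_le n)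
      (show 0 ≤ 1 / (n : ℝ) by positivity)
    rwa [one_div, pow_rpow_inv_natCast hK.le (by omega), ← one_div] at this

end Pool.Agent.H1.Bom
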