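import Pool.Agent.H1.SatD

namespace Pool.Agent.H1.Sat

open Filter Topology Set Metric Complex MeasureTheory Pool.Agent.H1.Wat

lemma fatou_real {G : ℕ → ℝ → ℝ} {f : ℝ → ℝ} {μ : Measure ℝ} {C : ℕ → ℝ} {c : ℝ}
    (h : ∀ᵐ x ∂μ, Tendsto (fun n => G n x) atTop (𝓝 (f x))) (hG : ∀ n, Integrable (G n) μ)
    (h0 : ∀ n x, 0 ≤ G n x) (hC : ∀ n, ∫ x, G n x ∂μ ≤ C n) (hc : Tendsto C atTop (𝓝 c)) :
    Integrable f μ ∧ ∫ x, f x ∂μ ≤ c := by
  have a1 : liminf (fun n => ∫⁻ x, ‖G n x‖ₑ ∂μ) atTop ≤ ENNReal.ofReal c := by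
    rw [← ((ENNReal.continuous_ofReal.tendsto c).comp hc).liminf_eq]
    refine liminf_le_liminf (Eventually.of_forall fun n => ?_)
    rw [← ofReal_integral_norm_eq_lintegral_enorm (hG n)]
    simp only [Real.norm_of_nonneg (h0 n _)]
    exact ENNReal.ofReal_le_ofReal (hC n)
  have a2 := integrable_of_tendsto h (fun n => (hG n).1) (ne_top_of_le_ne_top ENNReal.ofReal_ne_top a1)
  have a3 := (lintegral_enorm_le_liminf_of_tendsto h fun n => (hG n).1.aemeasurable.enorm).trans a1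
  have c0 : 0 ≤ c := ge_of_tendsto' hc fun n => (integral_nonneg (h0 n)).trans (hC n)
  rw [← ofReal_integral_norm_eq_lintegral_enorm a2, ENNReal.ofReal_le_ofReal_iff c0] at a3
  exact ⟨a2, (integral_mono a2 a2.norm fun x => le_abs_self _).trans a3⟩

lemma diff_le' {g : ℂ → ℂ} (hg : DifferentiableOn ℂ g (ball 0 1)) (hs : Summable fun k => ‖co g k‖ ^ 2)
    {r s : ℝ} (hr : r ∈ Ioo (0 : ℝ) 1) (hs' : s ∈ Ioo (0 : ℝ) 1) : ∫ t,
      ‖g (circleMap 0 r t) - g (circleMap 0 s t)‖ ^ 2 ∂ν0 ≤ 2 * Real.pi * (EE g r + EE g s) := by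
  rw [← intervalIntegral.integral_of_le Real.two_pi_pos.le]
  rcases le_total s r with h | h
  · exact (diff_le hg hs hs'.1 h hr.2).trans (mul_le_mul_of_nonneg_left
      (le_add_of_nonneg_left (EE_nonneg _)) Real.two_pi_pos.le)
  · simp only [norm_sub_rev (g (circleMap 0 r _))]
    exact (diff_le hg hs hr.1 h hs'.2).trans (mul_le_mul_of_nonneg_left
      (le_add_of_nonneg_right (EE_nonneg _)) Real.two_pi_pos.le)

/-- harmonic majorant of `‖g‖ ^ 2` for `g ∈ H²` -/
theorem maj' {g : ℂ → ℂ} (hg : DifferentiableOn ℂ g (ball 0 1)) (hs : Summable fun k => ‖co g k‖ ^ 2) :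
    ∃ H : ℂ → ℂ, DifferentiableOn ℂ H (ball 0 1) ∧ ∀ w, ‖w‖ < 1 → ‖g w‖ ^ 2 ≤ (H w).re ∧
      (H w).re ≤ 2 * ((1 + ‖w - 0‖) / (1 - ‖w - 0‖) * ∑' k, ‖co g k‖ ^ 2) := by
  obtain ⟨ρ, h1, h2, h3⟩ := ae_seq hg hs
  have h2' : Tendsto ρ atTop (𝓝[<] 1) :=
    tendsto_nhdsWithin_iff.2 ⟨h2, Eventually.of_forall fun m => (h1 m).2⟩
  set b : ℂ → ℂ := fun ζ => limUnder atTop fun m => g (ρ m * ζ)
  have h4 : ∀ᵐ t ∂ν0, Tendsto (fun m => g (circleMap 0 (ρ m) t)) atTop (𝓝 (b (circleMap 0 1 t))) :=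
    ae_restrict_of_ae (h3.mono fun t ht => by
      simp only [b, cm_scale, mul_one]; exact tendsto_nhds_limUnder ht)
  have uc : ∀ m, Continuous fun t => g (circleMap 0 (ρ m) t) := fun m => cm_cont hg (h1 m).1.le (h1 m).2
  have io : ∀ {F : ℝ → ℝ}, Continuous F → Integrable F ν0 := fun hF =>
    hF.integrableOn_Icc.mono_set Ioc_subset_Icc_self
  obtain ⟨a1, a1'⟩ := fatou_real (h4.mono fun t ht => ht.norm.pow 2) (fun m => io ((uc m).norm.pow 2))
    (fun _ _ => sq_nonneg _) (C := fun _ => 2 * Real.pi * ∑' k, ‖co g k‖ ^ 2) (fun m => by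
      have := II_le hg (fun N => hs.sum_le_tsum _ fun _ _ => sq_nonneg _) (h1 m).1 (h1 m).2
      rwa [II_eq, inv_mul_le_iff₀ Real.two_pi_pos] at this) tendsto_const_nhds
  have a2 := fun m => fatou_real (h4.mono fun t ht => (ht.const_sub (g (circleMap 0 (ρ m) t))).norm.pow 2)
    (fun l => io (((uc m).sub (uc l)).norm.pow 2)) (fun _ _ => sq_nonneg _)
    (fun l => diff_le' hg hs (h1 m) (h1 l)) ((((EE_lim hs).comp h2').const_add _).const_mul _)
  have c1 : CircleIntegrable (fun z => ‖b z‖ ^ 2) 0 1 :=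
    (intervalIntegrable_iff_integrableOn_Ioc_of_le Real.two_pi_pos.le).2 a1
  have c2 : CircleIntegrable (fun z => ((‖b z‖ ^ 2 : ℝ) : ℂ)) 0 1 := by
    simp only [CircleIntegrable, intervalIntegrable_iff] at c1 ⊢
    exact ofRealCLM.integrable_comp c1
  refine ⟨fun w => 2 * Real.circleAverage (fun ζ => herglotzRieszKernel 0 w ζ • ((‖b ζ‖ ^ 2 : ℝ) : ℂ)) 0 1,
    (differentiableOn_circleAverage_herglotzRieszKernel_smul c2).const_mul 2, fun w hw => ?_⟩
  have hw' : w ∈ ball (0 : ℂ) 1 := by simpa using hw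
  set K : ℝ → ℝ := fun t => (herglotzRieszKernel 0 w (circleMap 0 1 t)).re
  have kc : Continuous K := (continuous_re.comp_continuousOn
    (continuousOn_herglotzRieszKernel_sphere hw')).comp_continuous (continuous_circleMap 0 1)
    (circleMap_mem_sphere' 0 1)
  have k0 : ∀ t, 0 ≤ K t := fun t => le_trans (div_nonneg (by simpa using hw.le) (by positivity))
    (le_re_herglotzRieszKernel (circleMap_mem_sphere 0 zero_le_one t) hw')
  have k1 : ∀ t, K t ≤ (1 + ‖w - 0‖) / (1 - ‖w - 0‖) := fun t =>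
    re_herglotzRieszKernel_le (circleMap_mem_sphere 0 zero_le_one t) hw'
  generalize (1 + ‖w - 0‖) / (1 - ‖w - 0‖) = M at k1 ⊢
  have i1 : Integrable (fun t => K t * ‖b (circleMap 0 1 t)‖ ^ 2) ν0 :=
    a1.bdd_mul kc.aestronglyMeasurable (Eventually.of_forall fun t => by
      rw [Real.norm_of_nonneg (k0 t)]; exact k1 t)
  have d1 : ∀ m, ‖g (ρ m * w)‖ ^ 2 ≤ (2 * Real.pi)⁻¹ * (2 * ∫ t, K t * ‖b (circleMap 0 1 t)‖ ^ 2 ∂ν0 +
      2 * M * (2 * Real.pi * (EE g (ρ m) + 0))) := fun m => by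
    have hd : DifferentiableOn ℂ (fun z => g (ρ m * z) ^ 2) (closedBall 0 1) :=
      (hg.comp (by fun_prop) fun z hz => by
        rw [mem_closedBall_zero_iff] at hz
        rw [mem_ball_zero_iff, norm_mul, norm_real, Real.norm_of_nonneg (h1 m).1.le]
        nlinarith [(h1 m).1, (h1 m).2]).fun_pow 2
    have e := (hd.mono closure_ball_subset_closedBall).diffContOnCl.circleAverage_re_herglotzRieszKernel_smul hw'
    rw [← norm_pow, ← e, Real.circleAverage_def, norm_smul, Real.norm_of_nonneg (by positivity),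
      intervalIntegral.integral_of_le Real.two_pi_pos.le]
    refine mul_le_mul_of_nonneg_left ((norm_integral_le_of_norm_le ((i1.const_mul 2).add
      ((a2 m).1.const_mul (2 * M))) (Eventually.of_forall fun t => ?_)).trans ?_) (by positivity)
    · simp only [Pi.smul_apply', Function.comp, norm_smul, norm_pow, cm_scale, mul_one, Pi.add_apply]
      rw [Real.norm_of_nonneg (k0 t)]
      have := pow_le_pow_left₀ (norm_nonneg _) (norm_le_norm_add_norm_sub' (g (circleMap 0 (ρ m) t))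
        (b (circleMap 0 1 t))) 2
      have k2 := k0 t
      have k3 := mul_le_mul_of_nonneg_right (k1 t)
        (sq_nonneg ‖g (circleMap 0 (ρ m) t) - b (circleMap 0 1 t)‖)
      change K t * _ ≤ _
      nlinarith [mul_le_mul_of_nonneg_left this k2, mul_nonneg k2 (sq_nonneg (‖b (circleMap 0 1 t)‖ -
        ‖g (circleMap 0 (ρ m) t) - b (circleMap 0 1 t)‖))]
    · refine (integral_add (i1.const_mul 2) ((a2 m).1.const_mul (2 * M))).le.trans ?_
      rw [integral_const_mul, integral_const_mul]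
      exact add_le_add le_rfl (mul_le_mul_of_nonneg_left (a2 m).2 (by linarith [k0 0, k1 0]))
  have t1 : Tendsto (fun m => (ρ m : ℂ) * w) atTop (𝓝 w) := by
    simpa using ((continuous_ofReal.tendsto 1).comp h2).mul_const w
  have d2 := le_of_tendsto_of_tendsto' (((hg.continuousOn.continuousAt
    (isOpen_ball.mem_nhds hw')).tendsto.comp t1).norm.pow 2) (((((((EE_lim hs).comp h2').add_const
    0).const_mul _).const_mul _).const_add _).const_mul _) d1
  beta_reduce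
  rw [← ofReal_ofNat, re_ofReal_mul, re_circleAverage_herglotzRieszKernel_smul c1 hw', Real.circleAverage_def,
    intervalIntegral.integral_of_le Real.two_pi_pos.le]
  simp only [add_zero, mul_zero] at d2
  rw [mul_left_comm] at d2
  refine ⟨d2, mul_le_mul_of_nonneg_left ?_ zero_le_two⟩
  rw [smul_eq_mul, inv_mul_le_iff₀ Real.two_pi_pos, mul_left_comm]
  refine le_trans (integral_mono i1 (a1.const_mul M) fun t =>
    mul_le_mul_of_nonneg_right (k1 t) (sq_nonneg _)) ?_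
  rw [integral_const_mul]
  exact mul_le_mul_of_nonneg_left a1' ((k0 0).trans (k1 0))

theorem maj {g : ℂ → ℂ} (hg : DifferentiableOn ℂ g (ball 0 1)) (hs : Summable fun k => ‖co g k‖ ^ 2) :
    ∃ H : ℂ → ℂ, DifferentiableOn ℂ H (ball 0 1) ∧ ∀ w, ‖w‖ < 1 → ‖g w‖ ^ 2 ≤ (H w).re :=
  (maj' hg hs).imp fun _ h => ⟨h.1, fun w hw => (h.2 w hw).1⟩

lemma II_le_maj {g H : ℂ → ℂ} (hg : DifferentiableOn ℂ g (ball 0 1)) (hH : DifferentiableOn ℂ H (ball 0 1))
    (h : ∀ w, ‖w‖ < 1 → ‖g w‖ ^ 2 ≤ (H w).re) {r : ℝ} (h0 : 0 < r) (h1 : r < 1) : II g r ≤ (H 0).re := by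
  have d2 : Real.circleAverage H 0 r = H 0 := by
    refine DiffContOnCl.circleAverage ?_
    rw [abs_of_pos h0]
    exact (hH.mono (closure_ball_subset_closedBall.trans (closedBall_subset_ball h1))).diffContOnCl
  rw [← d2, ← reCLM_apply, ← reCLM.circleAverage_comp_comm (ci hH.continuousOn h0 h1)]
  exact Real.circleAverage_mono (ci (hg.continuousOn.norm.pow 2) h0 h1)
    (ci (reCLM.continuous.comp_continuousOn hH.continuousOn) h0 h1) fun z hz => h z (by
      rw [mem_sphere_zero_iff_norm, abs_of_pos h0] at hz; linarith)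

end Pool.Agent.H1.Sat
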