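import Pool.Agent.H1.BouA

namespace Pool.Agent.H1.Bou

open Filter Topology Set Metric Complex MeasureTheory

/-- the quadrant `|arg w| < π / 4` -/
def Om : Set ℂ := {w | |w.im| < w.re}

noncomputable def dp (w : ℂ) : ℝ := w.re - |w.im|

lemma Om_open : IsOpen Om := isOpen_lt (by fun_prop) continuous_re

lemma mem_Om {w : ℂ} : w ∈ Om ↔ 0 < dp w := by rw [dp, sub_pos]; rfl

lemma dp_seg (p q : ℂ) {x : ℝ} (h0 : 0 ≤ x) (h1 : x ≤ 1) :
    (1 - x) * dp p + x * dp q ≤ dp (p + x * (q - p)) := by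
  have e : (p + x * (q - p)).im = (1 - x) * p.im + x * q.im := by simp; ring
  have e2 : (p + x * (q - p)).re = (1 - x) * p.re + x * q.re := by simp; ring
  have := abs_add_le ((1 - x) * p.im) (x * q.im)
  rw [abs_mul, abs_mul, abs_of_nonneg h0, abs_of_nonneg (sub_nonneg.2 h1)] at this
  rw [dp, dp, dp, e, e2]; linarith

lemma Om_convex : Convex ℝ Om := by
  refine convex_iff_add_mem.2 fun p hp q hq a b ha hb hab => ?_
  have := dp_seg p q hb (by linarith)
  rw [show p + b * (q - p) = a • p + b • q by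
    rw [real_smul, real_smul, show a = 1 - b by linarith]; push_cast; ring] at this
  rw [mem_Om] at *
  rcases hb.eq_or_lt with rfl | h
  · linarith
  · nlinarith [mul_pos h hq, mul_nonneg (show 0 ≤ 1 - b by linarith) hp.le]

lemma dp_add (p z : ℂ) : dp p + dp z ≤ dp (p + z) := by
  rw [dp, dp, dp, add_re, add_im]; linarith [abs_add_le p.im z.im]

lemma dp_ge (z : ℂ) : -(2 * ‖z‖) ≤ dp z := by
  rw [dp]; linarith [abs_im_le_norm z, abs_re_le_norm z, neg_abs_le z.re]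

lemma dp_real (x : ℝ) : dp x = x := by simp [dp]

variable {H G : ℂ → ℂ}

lemma deriv_bd (hH : DifferentiableOn ℂ H Om) (hp : ∀ w ∈ Om, 0 < (H w).re) {p : ℂ} (h : 16 ≤ dp p) :
    ‖deriv H p‖ ≤ (H p).re / 2 := by
  have hb : ∀ z ∈ ball (0 : ℂ) 8, p + z ∈ Om := fun z hz => by
    rw [mem_ball_zero_iff] at hz
    rw [mem_Om]; linarith [dp_add p z, dp_ge z]
  have hp0 : p ∈ Om := mem_Om.2 (by linarith)
  have hd : DifferentiableOn ℂ (fun z => H p - H (p + z)) (ball 0 8) :=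
    (hH.comp (by fun_prop) hb).const_sub _
  have a1 := norm_deriv_le_of_forall_mem_sphere_norm_le (c := 0) (R := 4) (C := 2 * (H p).re) (by norm_num)
    (hd.mono (closure_ball_subset_closedBall.trans (closedBall_subset_ball (by norm_num)))).diffContOnCl
    fun z hz => by
      rw [mem_sphere_zero_iff_norm] at hz
      have := borelCaratheodory_zero (hp p hp0) hd (fun z hz => by
        simpa using (hp _ (hb z hz)).le) (by norm_num) (z := z) (by simp [hz]; norm_num) (by simp)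
      rw [hz] at this; linarith
  have a2 : HasDerivAt (fun z => H p - H (p + z)) (-deriv H p) 0 :=
    (HasDerivAt.comp_const_add p 0 (by
      rw [add_zero]; exact (hH.differentiableAt (Om_open.mem_nhds hp0)).hasDerivAt)).const_sub _
  rw [a2.deriv, norm_neg] at a1
  linarith

lemma harnack (hH : DifferentiableOn ℂ H Om) (hp : ∀ w ∈ Om, 0 < (H w).re) {p q : ℂ} (h : 16 ≤ dp p)
    (h' : 16 ≤ dp q) : (H q).re ≤ Real.exp (‖q - p‖ / 2) * (H p).re := by
  have hd : ∀ x ∈ Icc (0 : ℝ) 1, 16 ≤ dp (p + x * (q - p)) := fun x hx => by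
    nlinarith [dp_seg p q hx.1 hx.2, hx.1, hx.2]
  set c := ‖q - p‖ / 2
  have a1 : ∀ x ∈ Icc (0 : ℝ) 1, HasDerivAt (fun x : ℝ => Real.exp (-c * x) * (H (p + x * (q - p))).re)
      (Real.exp (-c * x) * (-c * 1) * (H (p + x * (q - p))).re +
        Real.exp (-c * x) * (deriv H (p + x * (q - p)) * (1 * (q - p))).re) x := fun x hx =>
    ((hasDerivAt_id x).const_mul (-c)).exp.mul (reCLM.hasFDerivAt.comp_hasDerivAt x
      ((hH.differentiableAt (Om_open.mem_nhds (mem_Om.2 (lt_of_lt_of_le (by norm_num) (hd x hx))))).hasDerivAt.comp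
        (x : ℂ) (((hasDerivAt_id (x : ℂ)).mul_const (q - p)).const_add p)).comp_ofReal)
  have a2 := antitoneOn_of_deriv_nonpos (convex_Icc 0 1) (HasDerivAt.continuousOn a1)
    (fun x hx => (a1 x (interior_subset hx)).differentiableAt.differentiableWithinAt)
    (fun x hx => by
      rw [(a1 x (interior_subset hx)).deriv, mul_assoc, ← mul_add]
      refine mul_nonpos_of_nonneg_of_nonpos (Real.exp_pos _).le ?_
      have b1 := re_le_norm (deriv H (p + x * (q - p)) * (1 * (q - p)))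
      rw [norm_mul, one_mul] at b1
      have b2 := mul_le_mul_of_nonneg_right (deriv_bd hH hp (hd x (interior_subset hx)))
        (norm_nonneg (q - p))
      rw [one_mul]; simp only [c]; linarith) (left_mem_Icc.2 zero_le_one) (right_mem_Icc.2 zero_le_one)
      zero_le_one
  simp only [mul_one, ofReal_one, one_mul, add_sub_cancel, mul_zero, Real.exp_zero, ofReal_zero,
    zero_mul, add_zero, Real.exp_neg] at a2
  rwa [inv_mul_le_iff₀ (Real.exp_pos _)] at a2

/-- data: an analytic function on the quadrant with a positive harmonic majorant of its square -/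
structure Dat (G H : ℂ → ℂ) : Prop where
  dG : DifferentiableOn ℂ G Om
  dH : DifferentiableOn ℂ H Om
  pos : ∀ w ∈ Om, 0 < (H w).re
  le : ∀ w ∈ Om, ‖G w‖ ^ 2 ≤ (H w).re

lemma Dat.gr (D : Dat G H) {p q : ℂ} (h : 16 ≤ dp p) (h' : 16 ≤ dp q) :
    ‖G q‖ ≤ Real.exp (‖q - p‖ / 4) * √(H p).re := by
  refine le_of_sq_le_sq ?_ (by positivity)
  rw [mul_pow, Real.sq_sqrt (D.pos p (mem_Om.2 (by linarith))).le, ← Real.exp_nat_mul]
  refine (D.le q (mem_Om.2 (by linarith))).trans ((harnack D.dH D.pos h h').trans (le_of_eq ?_))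
  congr 2; push_cast; ring

noncomputable def ee (σ : ℝ) : ℂ := 1 + σ * I
noncomputable def hh : ℝ := 37 / 2
noncomputable def EE (σ : ℝ) (t : ℂ) : ℂ := exp (-(2 * Real.pi * I * σ * t))
noncomputable def aa (σ : ℝ) (t : ℂ) : ℂ := exp t / (EE σ t - 1)

variable {σ : ℝ}

lemma dp_ee (hσ : |σ| = 1) {ρ : ℝ} (h : 0 ≤ ρ) : dp (ρ * ee σ) = 0 := by
  simp [dp, ee, abs_mul, hσ, abs_of_nonneg h]

lemma norm_ee (hσ : |σ| = 1) : ‖ee σ‖ ≤ 2 := by
  refine (norm_add_le _ _).trans ?_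
  rw [norm_mul, norm_real, Real.norm_eq_abs, hσ]; norm_num

lemma dp_pt (hσ : |σ| = 1) {w z : ℂ} (hw : w ∈ Om) (hz : ‖z‖ ≤ 1) {ρ : ℝ} (h : 0 ≤ ρ) :
    16 ≤ dp (w + hh + (ρ * ee σ + z)) := by
  have := dp_real hh
  linarith [dp_add (w + hh) (ρ * ee σ + z), dp_add w hh, dp_add (ρ * ee σ) z, dp_ee hσ h, dp_ge z,
    mem_Om.1 hw, show hh = 37 / 2 from rfl]

lemma Dat.gr' (D : Dat G H) (hσ : |σ| = 1) {w z : ℂ} (hw : w ∈ Om) (hz : ‖z‖ ≤ 1) {ρ : ℝ} (h : 0 ≤ ρ) :
    ‖G (w + hh + (ρ * ee σ + z))‖ ≤ Real.exp (ρ + 1) * √(H (w + hh)).re := by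
  refine (D.gr (p := w + hh) (by simpa using dp_pt hσ hw (z := 0) (by simp) le_rfl)
    (dp_pt hσ hw hz h)).trans (mul_le_mul_of_nonneg_right (Real.exp_le_exp.2 ?_) (Real.sqrt_nonneg _))
  have := norm_add_le (ρ * ee σ) z
  rw [norm_mul, norm_real, Real.norm_of_nonneg h] at this
  rw [add_sub_cancel_left]
  nlinarith [norm_ee hσ]

lemma norm_EE (t : ℂ) : ‖EE σ t‖ = Real.exp (2 * Real.pi * (σ * t.im)) := by
  rw [EE, norm_exp]; simp; ring

lemma norm_aa {t : ℂ} (h : 2 ≤ ‖EE σ t‖ ∨ (EE σ t).re ≤ 0) :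
    ‖aa σ t‖ ≤ 2 * Real.exp (t.re - 2 * Real.pi * (σ * t.im)) := by
  have a1 : ‖EE σ t‖ / 2 ≤ ‖EE σ t - 1‖ := by
    rcases h with h | h
    · have := norm_sub_norm_le (EE σ t) 1
      rw [norm_one] at this; linarith
    · refine le_of_sq_le_sq ?_ (norm_nonneg _)
      simp only [div_pow, ← normSq_eq_norm_sq, normSq_apply, sub_re, sub_im, one_re, one_im]
      nlinarith [mul_self_nonneg (EE σ t).re, mul_self_nonneg (EE σ t).im]
  rw [norm_EE] at a1
  rw [aa, norm_div, norm_exp, Real.exp_sub]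
  refine (div_le_div_of_nonneg_left (Real.exp_pos _).le (by positivity) a1).trans (le_of_eq ?_)
  field_simp

lemma sq_σ (hσ : |σ| = 1) : σ * σ = 1 := by rw [← abs_mul_abs_self, hσ, one_mul]

lemma aa_ray (hσ : |σ| = 1) {ρ : ℝ} (h : 0 ≤ ρ) : ‖aa σ (hh + ρ * ee σ)‖ ≤ 2 * Real.exp (hh - 5 * ρ) := by
  have e1 : σ * (hh + ρ * ee σ).im = ρ := by simp [ee]; linear_combination ρ * sq_σ hσ
  have e2 : (hh + ρ * ee σ).re = hh + ρ := by simp [ee]
  refine (norm_aa ?_).trans ?_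
  · rcases le_total ρ (1 / 4) with h1 | h1
    · right
      rw [EE, exp_re]
      refine mul_nonpos_of_nonneg_of_nonpos (Real.exp_pos _).le ?_
      rw [show (-(2 * Real.pi * I * σ * (hh + ρ * ee σ))).im = -(σ * (2 * Real.pi * (hh + ρ))) by
        simp [ee]; ring, Real.cos_neg, ← Real.cos_abs, abs_mul, hσ, one_mul, Real.cos_abs,
        show 2 * Real.pi * (hh + ρ) = 2 * Real.pi * ρ + Real.pi + (18 : ℕ) * (2 * Real.pi) by
          rw [hh]; push_cast; ring, Real.cos_add_nat_mul_two_pi, Real.cos_add_pi, neg_nonpos]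
      exact Real.cos_nonneg_of_mem_Icc ⟨by nlinarith [Real.pi_pos], by nlinarith [Real.pi_pos]⟩
    · left
      rw [norm_EE, e1]
      nlinarith [Real.add_one_le_exp (2 * Real.pi * ρ), Real.pi_gt_three]
  · rw [e1, e2]
    exact mul_le_mul_of_nonneg_left (Real.exp_le_exp.2 (by nlinarith [Real.pi_gt_three])) zero_le_two

lemma EE_int (hσ : |σ| = 1) {t : ℂ} (h : EE σ t = 1) : ∃ n : ℤ, t = n := by
  obtain ⟨n, hn⟩ := exp_eq_one_iff.1 h
  have hp : (2 * Real.pi * I : ℂ) ≠ 0 := two_pi_I_ne_zero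
  have : -(σ * t) = n := mul_right_cancel₀ hp (by linear_combination hn)
  rcases (abs_eq zero_le_one).1 hσ with rfl | rfl
  · exact ⟨-n, by push_cast at this ⊢; linear_combination -this⟩
  · exact ⟨n, by push_cast at this ⊢; linear_combination this⟩

lemma EE_add (hσ : |σ| = 1) (t : ℂ) : EE σ (t + 1) = EE σ t := by
  rcases (abs_eq zero_le_one).1 hσ with rfl | rfl
  · rw [EE, EE, ← exp_periodic]; congr 1; push_cast; ring
  · rw [EE, EE, ← exp_periodic (-(_ * t))]; congr 1; push_cast; ring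

noncomputable def gam (θ : ℝ) : ℂ := circleMap 19 (1 / 2) θ

lemma EE_ne (hσ : |σ| = 1) {θ ρ : ℝ} (h1 : 0 ≤ σ * Real.sin θ) (h : 0 ≤ ρ) :
    EE σ (gam θ + ρ * ee σ) ≠ 1 := fun h0 => by
  obtain ⟨n, hn⟩ := EE_int hσ h0
  have a1 := congrArg re hn
  have a2 := congrArg im hn
  simp [gam, circleMap, ee, exp_ofReal_mul_I_re, exp_ofReal_mul_I_im] at a1 a2
  have a3 : σ * Real.sin θ + 2 * ρ = 0 := by linear_combination 2 * σ * a2 - 2 * ρ * sq_σ hσ
  have a4 : ρ = 0 := by linarith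
  have a5 : Real.sin θ = 0 := by rw [a4] at a2; linarith
  have a6 : ((2 * (n - 19)) ^ 2 : ℝ) = 1 := by
    have := Real.sin_sq_add_cos_sq θ
    rw [a5] at this
    rw [show (2 * (n - 19) : ℝ) = Real.cos θ by linarith]; linarith
  have a7 : (2 * (n - 19)) ^ 2 = 1 := by exact_mod_cast a6
  have := congrArg (· % 2) a7
  simp [pow_two, mul_assoc] at this

lemma sweep {U : Set ℂ} (hU : IsOpen U) {f : ℂ → ℂ} (hf : DifferentiableOn ℂ f U) {γ γ' : ℝ → ℂ}
    (hγ : ∀ θ, HasDerivAt γ (γ' θ) θ) (hc : Continuous γ') (e : ℂ) {a b L : ℝ}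
    (hm : ∀ θ ∈ uIcc a b, ∀ ρ ∈ uIcc 0 L, γ θ + ρ * e ∈ U) :
    ∫ ρ in (0 : ℝ)..L, (f (γ b + ρ * e) - f (γ a + ρ * e)) * e =
      ∫ θ in a..b, (f (γ θ + L * e) - f (γ θ)) * γ' θ := by
  have γc : Continuous γ := continuous_iff_continuousAt.2 fun θ => (hγ θ).continuousAt
  have c1 : ContinuousOn (fun x : ℝ × ℝ => deriv f (γ x.1 + x.2 * e) * γ' x.1 * e) (uIcc a b ×ˢ uIcc 0 L) :=
    ((((hf.deriv hU).continuousOn.comp (by fun_prop) fun x hx => hm _ hx.1 _ hx.2).mul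
      (by fun_prop))).mul continuousOn_const
  have sw := intervalIntegral_intervalIntegral_swap
    (F := fun θ ρ => deriv f (γ θ + (ρ : ℝ) * e) * γ' θ * e) ((c1.integrableOn_compact
      (isCompact_uIcc.prod isCompact_uIcc)).mono_set (prod_mono uIoc_subset_uIcc uIoc_subset_uIcc))
  have df : ∀ θ ∈ uIcc a b, ∀ ρ ∈ uIcc 0 L, HasDerivAt f (deriv f (γ θ + ρ * e)) (γ θ + ρ * e) :=
    fun θ h1 ρ h2 => (hf.differentiableAt (hU.mem_nhds (hm θ h1 ρ h2))).hasDerivAt
  refine Eq.trans (intervalIntegral.integral_congr fun ρ hρ => ?_)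
    (sw.symm.trans (intervalIntegral.integral_congr fun θ hθ => ?_))
  · rw [intervalIntegral.integral_eq_sub_of_hasDerivAt (f := fun θ => f (γ θ + ρ * e) * e)
      (f' := fun θ => deriv f (γ θ + (ρ : ℝ) * e) * γ' θ * e)
      (fun θ hθ => (((df θ hθ ρ hρ).scomp θ ((hγ θ).add_const _)).mul_const e).congr_deriv (by
        rw [smul_eq_mul]; ring))
      ((c1.comp (Continuous.prodMk_left ρ).continuousOn fun θ hθ => ⟨hθ, hρ⟩).intervalIntegrable)]
    ring
  · rw [intervalIntegral.integral_eq_sub_of_hasDerivAt (f := fun ρ : ℝ => f (γ θ + ρ * e) * γ' θ)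
      (f' := fun ρ : ℝ => deriv f (γ θ + (ρ : ℝ) * e) * γ' θ * e)
      (fun ρ hρ => (((df θ hθ ρ hρ).scomp ρ (((hasDerivAt_id ρ).ofReal_comp.mul_const e).const_add
        _)).mul_const _).congr_deriv (by simp; ring))
      ((c1.comp (Continuous.prodMk_right θ).continuousOn fun ρ hρ => ⟨hθ, hρ⟩).intervalIntegrable)]
    simp; ring

end Pool.Agent.H1.Bou
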