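import Pool.Agent.H1.BouB

namespace Pool.Agent.H1.Bou

open Filter Topology Set Metric Complex MeasureTheory

variable {H G : ℂ → ℂ} {σ : ℝ}

lemma gam_pi : gam Real.pi = hh := by rw [gam, circleMap, exp_pi_mul_I, hh]; push_cast; norm_num
lemma gam_zero : gam 0 = hh + 1 := by rw [gam, circleMap, hh]; push_cast; norm_num
lemma gam_two_pi : gam (2 * Real.pi) = hh + 1 := by
  rw [← gam_zero, gam, gam, ← periodic_circleMap _ _ 0, zero_add]

lemma gam_sub (θ : ℝ) : ‖gam θ - hh‖ ≤ 1 := by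
  have a1 : ‖gam θ - 19‖ = 1 / 2 := by rw [gam, circleMap_sub_center, norm_circleMap_zero]; norm_num
  have a2 : ‖(19 : ℂ) - hh‖ = 1 / 2 := by
    rw [hh, show (19 : ℂ) - ((37 / 2 : ℝ) : ℂ) = ((1 / 2 : ℝ) : ℂ) by push_cast; norm_num, norm_real]
    norm_num
  linarith [norm_sub_le_norm_sub_add_norm_sub (gam θ) 19 hh]

lemma gam_deriv (θ : ℝ) : HasDerivAt gam (circleMap 0 (1 / 2) θ * I) θ := hasDerivAt_circleMap _ _ _

lemma EE_diff : Differentiable ℂ (EE σ) := by unfold EE; fun_prop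

lemma aa_diff {t : ℂ} (h : EE σ t ≠ 1) : DifferentiableAt ℂ (aa σ) t :=
  differentiable_exp.differentiableAt.div ((EE_diff t).sub_const 1) (sub_ne_zero.2 h)

lemma aa_add (hσ : |σ| = 1) (t : ℂ) : aa σ (t + 1) = exp 1 * aa σ t := by
  rw [aa, aa, EE_add hσ, Complex.exp_add]; ring

noncomputable def ff (σ : ℝ) (G : ℂ → ℂ) (w : ℂ) (ρ : ℝ) : ℂ :=
  aa σ (hh + ρ * ee σ) * G (w + (hh + ρ * ee σ)) * ee σ

noncomputable def AA (σ : ℝ) (G : ℂ → ℂ) (w : ℂ) : ℂ := ∫ ρ in Ioi (0 : ℝ), ff σ G w ρ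

lemma mem_pt (hσ : |σ| = 1) {w z : ℂ} (hw : w ∈ Om) (hz : ‖z‖ ≤ 1) {ρ : ℝ} (h : 0 ≤ ρ) :
    w + hh + (ρ * ee σ + z) ∈ Om := mem_Om.2 (lt_of_lt_of_le (by norm_num) (dp_pt hσ hw hz h))

lemma ff_meas (hσ : |σ| = 1) (hG : ContinuousOn G Om) {w z : ℂ} (hw : w ∈ Om) (hz : ‖z‖ ≤ 1) :
    AEStronglyMeasurable (ff σ G (w + z)) (volume.restrict (Ioi 0)) := by
  refine ContinuousOn.aestronglyMeasurable (fun ρ hρ => ContinuousAt.continuousWithinAt ?_)
    measurableSet_Ioi
  have c : Continuous fun ρ : ℝ => (hh : ℂ) + ρ * ee σ := by fun_prop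
  refine (ContinuousAt.mul (ContinuousAt.comp (aa_diff ?_).continuousAt c.continuousAt)
    (ContinuousAt.comp (f := fun ρ : ℝ => w + z + ((hh : ℂ) + ρ * ee σ))
      (hG.continuousAt (Om_open.mem_nhds ?_)) (by fun_prop))).mul continuousAt_const
  · rw [← gam_pi]; exact EE_ne hσ (by simp) hρ.le
  · convert mem_pt hσ hw hz hρ.le using 1; ring

lemma ff_bd (hσ : |σ| = 1) {w : ℂ} {ρ s : ℝ} (h : 0 ≤ ρ)
    (hs : ‖G (w + (hh + ρ * ee σ))‖ ≤ Real.exp (ρ + 1) * s) :
    ‖ff σ G w ρ‖ ≤ 4 * Real.exp (hh + 1) * s * Real.exp (-4 * ρ) := by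
  rw [ff, norm_mul, norm_mul]
  refine (mul_le_mul (mul_le_mul (aa_ray hσ h) hs (norm_nonneg _) (by positivity)) (norm_ee hσ)
    (norm_nonneg _) (mul_nonneg (by positivity) ((norm_nonneg _).trans hs))).trans (le_of_eq ?_)
  have : Real.exp (hh - 5 * ρ) * Real.exp (ρ + 1) = Real.exp (hh + 1) * Real.exp (-4 * ρ) := by
    rw [← Real.exp_add, ← Real.exp_add]; congr 1; ring
  linear_combination 4 * s * this

lemma int4 (c : ℝ) : Integrable (fun ρ : ℝ => c * Real.exp (-4 * ρ)) (volume.restrict (Ioi 0)) :=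
  (exp_neg_integrableOn_Ioi 0 (by norm_num)).const_mul c

lemma Dat.ff_le (D : Dat G H) (hσ : |σ| = 1) {w : ℂ} (hw : w ∈ Om) : ∀ᵐ ρ ∂volume.restrict (Ioi 0),
    ‖ff σ G w ρ‖ ≤ 4 * Real.exp (hh + 1) * √(H (w + hh)).re * Real.exp (-4 * ρ) :=
  (ae_restrict_mem measurableSet_Ioi).mono fun ρ hρ => ff_bd hσ hρ.le (by
    simpa [add_assoc] using D.gr' hσ hw (z := 0) (by simp) hρ.le)

lemma Dat.ff_int (D : Dat G H) (hσ : |σ| = 1) {w : ℂ} (hw : w ∈ Om) :
    Integrable (ff σ G w) (volume.restrict (Ioi 0)) :=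
  (int4 _).mono' (by simpa using ff_meas hσ D.dG.continuousOn hw (z := 0) (by simp)) (D.ff_le hσ hw)

lemma Dat.AA_le (D : Dat G H) (hσ : |σ| = 1) {w : ℂ} (hw : w ∈ Om) :
    ‖AA σ G w‖ ≤ Real.exp (hh + 1) * √(H (w + hh)).re := by
  refine (norm_integral_le_of_norm_le (int4 _) (D.ff_le hσ hw)).trans (le_of_eq ?_)
  rw [integral_const_mul, integral_exp_mul_Ioi (by norm_num)]
  simp; ring

lemma Dat.AA_diff (D : Dat G H) (hσ : |σ| = 1) : DifferentiableOn ℂ (AA σ G) Om := fun w hw => by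
  have hz : ∀ x ∈ ball w (1 / 2), ∀ ρ : ℝ, ∀ y ∈ closedBall (x + (hh + ρ * ee σ)) (1 / 2),
      ∃ z, ‖z‖ ≤ 1 ∧ y = w + hh + (ρ * ee σ + z) := fun x hx ρ y hy => by
    refine ⟨x - w + (y - (x + (hh + ρ * ee σ))), (norm_add_le _ _).trans ?_, by ring⟩
    rw [mem_ball, dist_eq_norm] at hx
    rw [mem_closedBall, dist_eq_norm] at hy
    linarith
  refine (hasDerivAt_integral_of_dominated_loc_of_deriv_le (s := ball w (1 / 2))
    (F' := ff σ (deriv G)) (bound := fun ρ => 4 * Real.exp (hh + 1) * (2 * √(H (w + hh)).re) *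
      Real.exp (-4 * ρ)) (ball_mem_nhds _ (by norm_num)) ?_ (D.ff_int hσ hw) ?_ ?_ (int4 _)
      ?_).2.differentiableAt.differentiableWithinAt
  · filter_upwards [ball_mem_nhds w one_pos] with x hx
    simpa using ff_meas hσ D.dG.continuousOn hw (z := x - w) (mem_ball_iff_norm.1 hx).le
  · simpa using ff_meas hσ (D.dG.deriv Om_open).continuousOn hw (z := 0) (by simp)
  · refine (ae_restrict_mem measurableSet_Ioi).mono fun ρ hρ x hx => ff_bd hσ hρ.le ?_
    refine (norm_deriv_le_of_forall_mem_sphere_norm_le (R := 1 / 2)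
      (C := Real.exp (ρ + 1) * √(H (w + hh)).re) (by norm_num)
      (D.dG.mono fun y hy => ?_).diffContOnCl fun y hy => ?_).trans (le_of_eq (by ring))
    · obtain ⟨z, h1, rfl⟩ := hz x hx ρ y (closure_ball_subset_closedBall hy)
      exact mem_pt hσ hw h1 hρ.le
    · obtain ⟨z, h1, rfl⟩ := hz x hx ρ y (sphere_subset_closedBall hy)
      exact D.gr' hσ hw h1 hρ.le
  · refine (ae_restrict_mem measurableSet_Ioi).mono fun ρ hρ x hx => ?_
    obtain ⟨z, h1, h2⟩ := hz x hx ρ _ (mem_closedBall_self (by norm_num))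
    exact (((D.dG.differentiableAt (Om_open.mem_nhds (h2 ▸ mem_pt hσ hw h1 hρ.le))).hasDerivAt.comp_add_const
      x _).const_mul _).mul_const _

lemma add_mem {w : ℂ} (hw : w ∈ Om) {x : ℝ} (hx : 0 ≤ x) : w + x ∈ Om := by
  rw [mem_Om] at *; linarith [dp_add w x, dp_real x]

lemma Dat.shift (D : Dat G H) (hσ : |σ| = 1) {w : ℂ} (hw : w ∈ Om) {b : ℝ} (hb : gam b = hh + 1)
    (hs : ∀ θ ∈ uIcc Real.pi b, 0 ≤ σ * Real.sin θ) : exp 1 * AA σ G (w + 1) - AA σ G w =
      -∫ θ in Real.pi..b, aa σ (gam θ) * G (w + gam θ) * (circleMap 0 (1 / 2) θ * I) := by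
  set U := {t | EE σ t ≠ 1} ∩ (fun t => w + t) ⁻¹' Om
  have hU : IsOpen U := (isOpen_ne_fun EE_diff.continuous continuous_const).inter
    (Om_open.preimage (by fun_prop))
  set f : ℂ → ℂ := fun t => aa σ t * G (w + t)
  have hf : DifferentiableOn ℂ f U := fun t ht => ((aa_diff ht.1).mul
    ((D.dG.differentiableAt (Om_open.mem_nhds ht.2)).comp t (by fun_prop))).differentiableWithinAt
  have e0 : ∀ θ (ρ : ℝ), w + (gam θ + ρ * ee σ) = w + hh + (ρ * ee σ + (gam θ - hh)) := fun _ _ => by ring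
  have hm : ∀ θ ∈ uIcc Real.pi b, ∀ ρ : ℝ, 0 ≤ ρ → gam θ + ρ * ee σ ∈ U := fun θ hθ ρ hρ =>
    ⟨EE_ne hσ (hs θ hθ) hρ, by rw [mem_preimage, e0]; exact mem_pt hσ hw (gam_sub θ) hρ⟩
  have gc : Continuous gam := continuous_circleMap _ _
  have c' : Continuous fun θ => circleMap 0 (1 / 2) θ * I := by fun_prop
  have ii : ∀ L : ℝ, 0 ≤ L → IntervalIntegrable (fun θ => f (gam θ + L * ee σ) *
      (circleMap 0 (1 / 2) θ * I)) volume Real.pi b := fun L hL =>
    ((hf.continuousOn.comp (by fun_prop) fun θ hθ => hm θ hθ L hL).mul c'.continuousOn).intervalIntegrable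
  have hw1 : w + 1 ∈ Om := by simpa using add_mem hw zero_le_one
  have t1 := intervalIntegral_tendsto_integral_Ioi 0
    (((D.ff_int hσ hw1).const_mul (exp 1)).sub (D.ff_int hσ hw)) tendsto_id
  have e1 : ∫ ρ in Ioi (0 : ℝ), ((fun ρ => exp 1 * ff σ G (w + 1) ρ) - ff σ G w) ρ =
      exp 1 * AA σ G (w + 1) - AA σ G w := by
    rw [AA, AA, ← integral_const_mul]
    exact integral_sub ((D.ff_int hσ hw1).const_mul (exp 1)) (D.ff_int hσ hw)
  rw [e1] at t1
  have t2 : Tendsto (fun L : ℝ => ∫ θ in Real.pi..b, f (gam θ + L * ee σ) * (circleMap 0 (1 / 2) θ * I))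
      atTop (𝓝 0) := by
    have t3 := ((Real.tendsto_exp_neg_atTop_nhds_zero.comp (tendsto_id.const_mul_atTop
      (show (0 : ℝ) < 4 by norm_num))).const_mul (Real.exp (hh + 2) * √(H (w + hh)).re)).mul_const
      |b - Real.pi|
    rw [mul_zero, zero_mul] at t3
    refine squeeze_zero_norm' ((eventually_ge_atTop 1).mono fun L hL =>
      intervalIntegral.norm_integral_le_of_norm_le_const fun θ hθ => ?_) t3
    have a1 : L ≤ σ * (gam θ + L * ee σ).im := by
      have := hs θ (uIoc_subset_uIcc hθ)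
      have e : σ * (gam θ + L * ee σ).im = σ * Real.sin θ / 2 + L := by
        simp [gam, circleMap, ee, exp_ofReal_mul_I_im]; linear_combination L * sq_σ hσ
      rw [e]; linarith
    have a2 : (gam θ + L * ee σ).re ≤ hh + 1 + L := by
      have := (re_le_norm _).trans (gam_sub θ)
      simp [ee] at this ⊢; linarith
    have a3 := mul_le_mul_of_nonneg_left a1 Real.two_pi_pos.le
    have a4 : ‖aa σ (gam θ + L * ee σ)‖ ≤ 2 * Real.exp (hh + 1 - 5 * L) := by
      refine (norm_aa (Or.inl ?_)).trans (mul_le_mul_of_nonneg_left (Real.exp_le_exp.2 ?_) zero_le_two)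
      · rw [norm_EE]
        nlinarith [Real.add_one_le_exp (2 * Real.pi * (σ * (gam θ + L * ee σ).im)), Real.pi_gt_three]
      · nlinarith [Real.pi_gt_three]
    have a5 := D.gr' hσ hw (gam_sub θ) (zero_le_one.trans hL)
    rw [← e0] at a5
    simp only [f, norm_mul, norm_I, norm_circleMap_zero, mul_one, Function.comp, id]
    rw [abs_of_pos (by norm_num)]
    refine (mul_le_mul_of_nonneg_right (mul_le_mul a4 a5 (norm_nonneg _) (by positivity))
      (by norm_num)).trans (le_of_eq ?_)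
    have : Real.exp (hh + 1 - 5 * L) * Real.exp (L + 1) = Real.exp (hh + 2) * Real.exp (-(4 * L)) := by
      rw [← Real.exp_add, ← Real.exp_add]; congr 1; ring
    linear_combination √(H (w + hh)).re * this
  have t4 := t2.sub_const (∫ θ in Real.pi..b, f (gam θ) * (circleMap 0 (1 / 2) θ * I))
  rw [zero_sub] at t4
  refine tendsto_nhds_unique t1 (t4.congr' ((eventually_ge_atTop 0).mono fun L hL => ?_))
  have := sweep hU hf gam_deriv c' (ee σ) (a := Real.pi) (b := b) (L := L) fun θ hθ ρ hρ =>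
    hm θ hθ ρ (by rw [uIcc_of_le hL] at hρ; exact hρ.1)
  have i0 := ii 0 le_rfl
  simp only [ofReal_zero, zero_mul, add_zero] at i0
  simp only [sub_mul (f _)] at this
  rw [intervalIntegral.integral_sub (ii L hL) i0] at this
  refine this.symm.trans (intervalIntegral.integral_congr fun ρ _ => ?_)
  simp only [f, Pi.sub_apply, ff, hb, gam_pi, add_right_comm (hh : ℂ) 1, aa_add hσ]
  rw [show w + (hh + ρ * ee σ + 1) = w + 1 + (hh + ρ * ee σ) by ring]
  ring

lemma resid (hG : DifferentiableOn ℂ G Om) {w : ℂ} (hw : w ∈ Om) : ∫ θ in (0 : ℝ)..2 * Real.pi,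
    aa (-1) (gam θ) * G (w + gam θ) * (circleMap 0 (1 / 2) θ * I) = exp 19 * G (w + 19) := by
  have e1 : EE (-1) 19 = 1 := exp_eq_one_iff.2 ⟨19, by push_cast; ring⟩
  have e2 : HasDerivAt (EE (-1)) (2 * Real.pi * I) 19 := by
    have := ((hasDerivAt_id (19 : ℂ)).const_mul (2 * Real.pi * I * (-1 : ℝ))).neg.cexp
    refine this.congr_deriv ?_
    rw [show exp ((-fun y : ℂ => 2 * Real.pi * I * (-1 : ℝ) * id y) 19) = 1 from e1]
    push_cast; ring
  have n1 : ∀ t ∈ closedBall (19 : ℂ) (1 / 2), dslope (EE (-1)) 19 t ≠ 0 := fun t ht => by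
    by_cases h : t = 19
    · rw [h, dslope_same, e2.deriv]; exact two_pi_I_ne_zero
    rw [dslope_of_ne _ h, slope_def_field, e1]
    refine div_ne_zero (sub_ne_zero.2 fun h0 => h ?_) (sub_ne_zero.2 h)
    obtain ⟨n, rfl⟩ := EE_int (by simp) h0
    rw [mem_closedBall, dist_eq_norm, show (n : ℂ) - 19 = ((n - 19 : ℤ) : ℂ) by push_cast; ring,
      norm_intCast] at ht
    have : |n - 19| < 1 := by exact_mod_cast ht.trans_lt (show (1 / 2 : ℝ) < 1 by norm_num)
    rw [show n = 19 by rw [abs_lt] at this; omega]; norm_num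
  have hd : DifferentiableOn ℂ (fun t => exp t * G (w + t) / dslope (EE (-1)) 19 t)
      (closedBall 19 (1 / 2)) := by
    refine (differentiable_exp.differentiableOn.mul (hG.comp (by fun_prop) fun t ht => ?_)).div
      (((differentiableOn_dslope univ_mem).2 EE_diff.differentiableOn).mono (subset_univ _)) n1
    rw [mem_closedBall, dist_eq_norm] at ht
    have := dp_add (w + (19 : ℝ)) (t - 19)
    rw [show w + (19 : ℝ) + (t - 19) = w + t by push_cast; ring] at this
    rw [mem_Om] at *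
    linarith [dp_add w (19 : ℝ), dp_real 19, dp_ge (t - 19)]
  have h := hd.circleIntegral_sub_inv_smul (w := 19) (mem_ball_self (by norm_num))
  rw [dslope_same, e2.deriv, smul_eq_mul, mul_div_cancel₀ _ two_pi_I_ne_zero, circleIntegral] at h
  refine Eq.trans (intervalIntegral.integral_congr fun θ _ => ?_) h
  have b : circleMap 19 (1 / 2) θ ≠ 19 := circleMap_ne_center (by norm_num)
  have b2 := sub_ne_zero.2 b
  simp only [deriv_circleMap, smul_eq_mul, gam, aa, dslope_of_ne _ b, slope_def_field, e1]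
  field_simp

lemma aa_sum {t : ℂ} (h : EE (-1) t ≠ 1) : aa 1 t = -aa (-1) t - exp t := by
  have e : EE 1 t = (EE (-1) t)⁻¹ := by rw [EE, EE, ← Complex.exp_neg]; congr 1; push_cast; ring
  have b : EE (-1) t ≠ 0 := exp_ne_zero _
  have b2 := sub_ne_zero.2 h
  have b3 := sub_ne_zero.2 h.symm
  rw [aa, aa, e]; field_simp; ring

lemma Dat.key (D : Dat G H) {B : ℂ → ℂ} (hB : ∀ w ∈ Om, HasDerivAt B (exp w * G w) w) {w : ℂ}
    (hw : w ∈ Om) : exp 1 * (AA 1 G (w + 1) + AA (-1) G (w + 1)) - (AA 1 G w + AA (-1) G w) =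
      exp (-w) * (B (w + 1 + hh) - B (w + hh)) - exp 19 * G (w + 19) := by
  have a1 := D.shift (σ := 1) (by simp) hw gam_zero fun θ hθ => by
    rw [uIcc_of_ge Real.pi_pos.le] at hθ
    rw [one_mul]; exact Real.sin_nonneg_of_mem_Icc hθ
  have a2 := D.shift (σ := -1) (by simp) hw gam_two_pi fun θ hθ => by
    rw [uIcc_of_le (by linarith [Real.pi_pos])] at hθ
    rw [neg_one_mul, ← Real.sin_sub_pi]
    exact Real.sin_nonneg_of_mem_Icc ⟨by linarith [hθ.1], by linarith [hθ.2]⟩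
  have hm : ∀ θ, w + gam θ ∈ Om := fun θ => by
    simpa using mem_pt (σ := 1) (by simp) hw (gam_sub θ) le_rfl
  have n1 : ∀ θ, EE (-1) (gam θ) ≠ 1 := fun θ h => by
    rcases le_total 0 (Real.sin θ) with h1 | h1
    · refine EE_ne (σ := 1) (θ := θ) (by simp) (by simpa using h1) le_rfl ?_
      rw [ofReal_zero, zero_mul, add_zero, ← inv_eq_one, ← h, EE, EE, ← Complex.exp_neg]
      congr 1; push_cast; ring
    · exact EE_ne (σ := -1) (θ := θ) (by simp) (by simpa using h1) le_rfl (by simpa using h)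
  have gc : Continuous gam := continuous_circleMap _ _
  have c1 : Continuous fun θ => G (w + gam θ) := D.dG.continuousOn.comp_continuous (by fun_prop) hm
  have c2 : Continuous fun θ => aa (-1) (gam θ) * G (w + gam θ) * (circleMap 0 (1 / 2) θ * I) :=
    ((continuous_iff_continuousAt.2 fun θ => (aa_diff (n1 θ)).continuousAt.comp gc.continuousAt).mul
      c1).mul (by fun_prop)
  have c3 : Continuous fun θ => exp (gam θ) * G (w + gam θ) * (circleMap 0 (1 / 2) θ * I) :=
    (gc.cexp.mul c1).mul (by fun_prop)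
  have a3 := intervalIntegral.integral_eq_sub_of_hasDerivAt (f := fun θ => exp (-w) * B (w + gam θ))
    (fun θ _ => (((hB _ (hm θ)).scomp θ ((gam_deriv θ).const_add w)).const_mul _).congr_deriv (by
      rw [smul_eq_mul, Complex.exp_add, Complex.exp_neg]; field_simp [exp_ne_zero]))
    (c3.intervalIntegrable Real.pi 0)
  have a4 := intervalIntegral.integral_add_adjacent_intervals (μ := volume) (c2.intervalIntegrable 0 Real.pi)
    (c2.intervalIntegrable Real.pi (2 * Real.pi))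
  rw [resid D.dG hw, intervalIntegral.integral_symm] at a4
  simp only [aa_sum (n1 _), sub_mul, neg_mul] at a1
  rw [intervalIntegral.integral_sub (c2.fun_neg.intervalIntegrable _ _) (c3.intervalIntegrable _ _),
    intervalIntegral.integral_neg, a3, gam_zero, gam_pi] at a1
  rw [show w + 1 + hh = w + (hh + 1) by ring]
  linear_combination a1 + a2 - a4

lemma hh_pos : 0 ≤ hh := by rw [hh]; norm_num

lemma Dat.R_le (D : Dat G H) {B : ℂ → ℂ} (hB : ∀ w ∈ Om, HasDerivAt B (exp w * G w) w) {w : ℂ}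
    (hw : w ∈ Om) : ‖exp (-w) * (B (w + hh) - B hh)‖ ≤ 4 * Real.exp hh * √(H (w + hh)).re := by
  have hd : ∀ x : ℝ, 0 ≤ x → 16 ≤ dp (hh + x * w) := fun x hx => by
    have e : dp (x * w) = x * dp w := by simp [dp, abs_mul, abs_of_nonneg hx]; ring
    nlinarith [dp_add hh (x * w), dp_real hh, mem_Om.1 hw, show hh = 37 / 2 from rfl]
  have hw' : |w.im| < w.re := hw
  have a0 : ‖w‖ ≤ 2 * w.re := by
    linarith [norm_le_abs_re_add_abs_im w, abs_of_pos ((abs_nonneg _).trans_lt hw')]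
  set s := √(H (w + hh)).re
  have s0 : 0 ≤ s := Real.sqrt_nonneg _
  have d1 : ∀ x : ℝ, 0 ≤ x → HasDerivAt (fun x : ℝ => exp (-w) * (B (hh + x * w) - B hh))
      (exp (-w) * (((1 : ℝ) * w) • (exp (hh + x * w) * G (hh + x * w)))) x := fun x hx =>
    (((hB _ (mem_Om.2 (lt_of_lt_of_le (by norm_num) (hd x hx)))).scomp x
      (((hasDerivAt_id x).ofReal_comp.mul_const w).const_add _)).sub_const _).const_mul _
  have h := image_norm_le_of_norm_deriv_right_le_deriv_boundary (a := 0) (b := 1)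
    (HasDerivAt.continuousOn fun x hx => d1 x hx.1) (fun x hx => (d1 x hx.1).hasDerivWithinAt)
    (B := fun x => 4 * Real.exp hh * s * Real.exp ((x - 1) * w.re / 2))
    (by simp; positivity) (fun x => ((((hasDerivAt_id x).sub_const 1).mul_const _).div_const
      2).exp.const_mul _) (fun x hx => ?_) (right_mem_Icc.2 zero_le_one)
  · simpa [add_comm] using h
  have a1 := D.gr (p := w + hh) (by simpa [add_comm] using hd 1 zero_le_one) (hd x hx.1)
  rw [show hh + x * w - (w + hh) = -((1 - x : ℝ) * w) by push_cast; ring, norm_neg, norm_mul, norm_real,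
    Real.norm_of_nonneg (sub_nonneg.2 hx.2.le)] at a1
  have a2 : Real.exp ((1 - x) * ‖w‖ / 4) ≤ Real.exp ((1 - x) * w.re / 2) :=
    Real.exp_le_exp.2 (by nlinarith [hx.2])
  have a3 := mul_le_mul a0 (mul_le_mul_of_nonneg_left (a1.trans (mul_le_mul_of_nonneg_right a2 s0))
    (Real.exp_pos (hh + x * w.re)).le) (by positivity) (by linarith [norm_nonneg w])
  rw [smul_eq_mul, norm_mul, norm_mul, norm_mul, norm_mul, norm_exp, norm_exp]
  simp only [ofReal_one, norm_one, one_mul, id, add_re, ofReal_re, re_ofReal_mul, neg_re]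
  refine (mul_le_mul_of_nonneg_left a3 (Real.exp_pos _).le).trans (le_of_eq ?_)
  have : Real.exp (-w.re) * Real.exp (hh + x * w.re) * Real.exp ((1 - x) * w.re / 2) =
      Real.exp hh * Real.exp ((x - 1) * w.re / 2) := by
    rw [← Real.exp_add, ← Real.exp_add, ← Real.exp_add]; congr 1; ring
  linear_combination 2 * w.re * s * this

/-- analytic on the quadrant with a harmonic majorant of the square -/
def Mj (G : ℂ → ℂ) : Prop := ∃ H, Dat G H

lemma Mj.of {G H : ℂ → ℂ} (dG : DifferentiableOn ℂ G Om) (dH : DifferentiableOn ℂ H Om)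
    (le : ∀ w ∈ Om, ‖G w‖ ^ 2 ≤ (H w).re) : Mj G :=
  ⟨fun w => H w + 1, dG, dH.add_const 1, fun w hw => by
    rw [add_re, one_re]; linarith [le w hw, sq_nonneg ‖G w‖], fun w hw => by
    rw [add_re, one_re]; linarith [le w hw]⟩

lemma Mj.add {F : ℂ → ℂ} (h1 : Mj F) (h2 : Mj G) : Mj fun w => F w + G w := by
  obtain ⟨H1, D1⟩ := h1
  obtain ⟨H2, D2⟩ := h2
  refine Mj.of (D1.dG.add D2.dG) (H := fun w => (2 : ℝ) * (H1 w + H2 w))
    ((D1.dH.add D2.dH).const_mul _) fun w hw => ?_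
  rw [re_ofReal_mul, add_re]
  nlinarith [D1.le w hw, D2.le w hw, pow_le_pow_left₀ (norm_nonneg _) (norm_add_le (F w) (G w)) 2,
    sq_nonneg (‖F w‖ - ‖G w‖)]

lemma Dat.of_le (D : Dat G H) {F : ℂ → ℂ} (hF : DifferentiableOn ℂ F Om) {x : ℝ} (hx : 0 ≤ x) {C : ℝ}
    (h : ∀ w ∈ Om, ‖F w‖ ≤ C * √(H (w + x)).re) : Mj F := by
  refine Mj.of hF (H := fun w => (C ^ 2 : ℝ) * H (w + x))
    ((D.dH.comp (by fun_prop) fun w hw => add_mem hw hx).const_mul _) fun w hw => ?_
  rw [re_ofReal_mul, ← Real.sq_sqrt (D.pos _ (add_mem hw hx)).le, ← mul_pow]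
  exact pow_le_pow_left₀ (norm_nonneg _) (h w hw) 2

lemma Dat.sh (D : Dat G H) (c : ℂ) (n : ℕ) : Mj fun w => c * G (w + n) := by
  have hm : ∀ w ∈ Om, w + n ∈ Om := fun w hw => by simpa using add_mem hw (Nat.cast_nonneg n)
  refine D.of_le ((D.dG.comp (by fun_prop) hm).const_mul _) (Nat.cast_nonneg n) (C := ‖c‖) fun w hw => ?_
  rw [norm_mul, ofReal_natCast]
  exact mul_le_mul_of_nonneg_left (Real.le_sqrt_of_sq_le (D.le _ (hm w hw))) (norm_nonneg _)

lemma prim (hG : DifferentiableOn ℂ G Om) : ∃ B : ℂ → ℂ, ∀ w ∈ Om, HasDerivAt B (exp w * G w) w := by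
  obtain ⟨B, hB⟩ := Om_convex.exists_forall_hasDerivWithinAt
    (differentiable_exp.differentiableOn.mul hG)
  exact ⟨B, fun w hw => (hB w hw).hasDerivAt (Om_open.mem_nhds hw)⟩

theorem solve (h : Mj G) : ∃ F, Mj F ∧ ∀ w ∈ Om, F (w + 1) - exp (-1) * F w = G w := by
  obtain ⟨H, D⟩ := h
  obtain ⟨B, hB⟩ := prim D.dG
  have m1 : ∀ N, Mj fun w => ∑ n ∈ Finset.range N, -exp (n + 1) * G (w + n) := fun N => by
    induction N with
    | zero => simpa using D.sh 0 0
    | succ N ih => simpa only [Finset.sum_range_succ] using ih.add (D.sh _ N)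
  have m2 : Mj fun w => -exp 1 * (AA 1 G w + AA (-1) G w - exp (-w) * (B (w + hh) - B hh)) := by
    refine D.of_le ((((D.AA_diff (by simp)).add (D.AA_diff (by simp))).sub (DifferentiableOn.mul
      (by fun_prop) (DifferentiableOn.sub_const (fun w hw => ((hB _ (add_mem hw hh_pos)).comp_add_const
        w _).differentiableAt.differentiableWithinAt) _))).const_mul _) hh_pos
      (C := ‖-exp 1‖ * (2 * Real.exp (hh + 1) + 4 * Real.exp hh)) fun w hw => ?_
    rw [norm_mul, mul_assoc]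
    refine mul_le_mul_of_nonneg_left ((norm_sub_le _ _).trans ?_) (norm_nonneg _)
    linarith [norm_add_le (AA 1 G w) (AA (-1) G w), D.AA_le (σ := 1) (by simp) hw,
      D.AA_le (σ := -1) (by simp) hw, D.R_le hB hw]
  refine ⟨_, (m1 19).add m2, fun w hw => ?_⟩
  have e1 : exp (-1) * exp 1 = 1 := by rw [← Complex.exp_add]; simp
  have e2 : exp (-(w + 1)) = exp (-1) * exp (-w) := by rw [← Complex.exp_add]; congr 1; ring
  have e3 : ∀ N : ℕ, ∑ n ∈ Finset.range N, -exp (n + 1) * G (w + 1 + n) -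
      exp (-1) * ∑ n ∈ Finset.range N, -exp (n + 1) * G (w + n) = G w - exp N * G (w + N) := fun N => by
    induction N with
    | zero => simp
    | succ N ih =>
      rw [Finset.sum_range_succ, Finset.sum_range_succ, show w + 1 + N = w + (N + 1 : ℕ) by
        push_cast; ring]
      push_cast
      rw [Complex.exp_add]
      linear_combination ih + exp N * G (w + N) * e1
  have e4 := e3 19
  rw [Nat.cast_ofNat] at e4
  rw [e2]
  linear_combination e4 - D.key hB hw + (AA 1 G w + AA (-1) G w - exp (-w) * (B (w + hh) - B hh) +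
    exp (-w) * (B (w + 1 + hh) - B hh)) * e1

theorem kern (h : Mj G) (h0 : ∀ w ∈ Om, G (w + 1) = exp (-1) * G w) :
    ∃ c, ∀ w ∈ Om, G w = c * exp (-w) := by
  obtain ⟨H, D⟩ := h
  obtain ⟨B, hB⟩ := prim D.dG
  have e1 : exp (-1) * exp 1 = 1 := by rw [← Complex.exp_add]; simp
  have m1 : ∀ w ∈ Om, w + 1 ∈ Om := fun w hw => by simpa using add_mem hw zero_le_one
  have a1 : ∀ σ : ℝ, |σ| = 1 → ∀ w ∈ Om, exp 1 * AA σ G (w + 1) = AA σ G w := fun σ hσ w hw => by
    rw [AA, AA, ← integral_const_mul]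
    refine setIntegral_congr_fun measurableSet_Ioi fun ρ hρ => ?_
    have := h0 _ (mem_pt hσ hw (z := 0) (by simp) hρ.le)
    rw [add_zero, add_assoc w] at this
    simp only [ff]
    rw [add_right_comm w 1, this]
    linear_combination aa σ (hh + ρ * ee σ) * G (w + (hh + ρ * ee σ)) * ee σ * e1
  have a2 : ∀ (n : ℕ), ∀ w ∈ Om, exp n * G (w + n) = G w := fun n w hw => by
    induction n with
    | zero => simp
    | succ n ih =>
      push_cast
      rw [← add_assoc, h0 _ (by simpa using add_mem hw (Nat.cast_nonneg n)), Complex.exp_add]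
      linear_combination ih + exp n * G (w + n) * e1
  have d1 : ∀ w ∈ Om, HasDerivAt (fun w => B (w + 1 + hh) - B (w + hh)) 0 w := fun w hw => by
    refine ((((hB _ (add_mem (m1 w hw) hh_pos)).comp_add_const (w + 1) _).comp_add_const w 1).sub
      ((hB _ (add_mem hw hh_pos)).comp_add_const w _)).congr_deriv ?_
    rw [add_right_comm w 1, h0 _ (add_mem hw hh_pos), Complex.exp_add]
    linear_combination exp (w + hh) * G (w + hh) * e1
  obtain ⟨c, hc⟩ := Om_open.exists_is_const_of_deriv_eq_zero Om_convex.isPreconnected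
    (fun w hw => (d1 w hw).differentiableAt.differentiableWithinAt) fun w hw => (d1 w hw).deriv
  refine ⟨c, fun w hw => ?_⟩
  have a3 := a2 19 w hw
  rw [Nat.cast_ofNat] at a3
  have a4 := D.key hB hw
  rw [hc w hw] at a4
  linear_combination a4 - a3 - a1 1 (by simp) w hw - a1 (-1) (by simp) w hw

end Pool.Agent.H1.Bou
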