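import Pool.Agent.H1.BouC

namespace Pool.Agent.H1.Bou

open Filter Topology Set Metric Complex MeasureTheory Pool.Agent.H1.Sat

noncomputable def kap (ξ : ℂ) : ℂ := ((1 + ξ) / (1 - ξ)) ^ (2⁻¹ : ℂ)
noncomputable def lam (w : ℂ) : ℂ := (w ^ 2 - 1) / (w ^ 2 + 1)

lemma cay_re {ξ : ℂ} (h : ‖ξ‖ < 1) : 0 < ((1 + ξ) / (1 - ξ)).re := by
  rw [Jc.re_cay norm_one]
  exact div_pos (Jc.sq_pos' h) (pow_pos (norm_pos_iff.2 (Jc.sub_ne' norm_one h)) 2)

lemma kap_sq (ξ : ℂ) : kap ξ ^ 2 = (1 + ξ) / (1 - ξ) := cpow_ofNat_inv_pow _ 2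

lemma kap_mem {ξ : ℂ} (h : ‖ξ‖ < 1) : kap ξ ∈ Om := by
  have a1 := cay_re h
  rw [← kap_sq, sq, mul_re] at a1
  have a2 : 0 ≤ (kap ξ).re := by rw [kap, cpow_inv_two_re]; exact Real.sqrt_nonneg _
  exact abs_lt_of_sq_lt_sq (by nlinarith) a2

lemma kap_diff : DifferentiableOn ℂ kap (ball 0 1) := fun ξ hξ => by
  have h : ‖ξ‖ < 1 := by simpa using hξ
  exact (DifferentiableAt.cpow_const (DifferentiableAt.div (by fun_prop) (by fun_prop)
    (Jc.sub_ne' norm_one h)) (Or.inl (cay_re h))).differentiableWithinAt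

lemma lam_kap {ξ : ℂ} (h : ‖ξ‖ < 1) : lam (kap ξ) = ξ := by
  have b := Jc.sub_ne' norm_one h
  rw [lam, kap_sq, div_sub_one b, div_add_one b, div_div_div_cancel_right₀ b]
  ring

lemma sq_re {w : ℂ} (h : w ∈ Om) : 0 < (w ^ 2).re := by
  have h' : |w.im| < w.re := h
  rw [sq, mul_re]; nlinarith [abs_lt.1 h']

lemma sq_ne {w : ℂ} (h : w ∈ Om) : w ^ 2 + 1 ≠ 0 := fun h0 => by
  have := congrArg re h0
  rw [add_re, one_re, zero_re] at this
  linarith [sq_re h]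

lemma lam_lt {w : ℂ} (h : w ∈ Om) : ‖lam w‖ < 1 := by
  rw [lam, norm_div, div_lt_one (norm_pos_iff.2 (sq_ne h))]
  refine lt_of_pow_lt_pow_left₀ 2 (norm_nonneg _) ?_
  have := sq_re h
  generalize w ^ 2 = z at this
  simp only [← normSq_eq_norm_sq, normSq_apply, sub_re, sub_im, add_re, add_im, one_re, one_im]
  nlinarith

lemma kap_lam {w : ℂ} (h : w ∈ Om) : kap (lam w) = w := by
  have b := sq_ne h
  have h' : |w.im| < w.re := h
  rw [kap, show (1 + lam w) / (1 - lam w) = w ^ 2 by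
    rw [lam, one_add_div b, one_sub_div b, div_div_div_cancel_right₀ b]; ring,
    sq_cpow_two_inv ((abs_nonneg _).trans_lt h')]

lemma lam_diff : DifferentiableOn ℂ lam Om := DifferentiableOn.div (by fun_prop) (by fun_prop) fun _ => sq_ne

lemma lam_maps : MapsTo lam Om (ball 0 1) := fun _ h => by simpa using lam_lt h
lemma kap_maps : MapsTo kap (ball 0 1) Om := fun _ h => kap_mem (by simpa using h)

def InH (f : ℂ → ℂ) : Prop := DifferentiableOn ℂ f (ball 0 1) ∧ (∀ z, z ∉ ball (0 : ℂ) 1 → f z = 0) ∧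
  ∃ M : ℝ, ∀ r : ℝ, 0 ≤ r → r < 1 → ∫ θ in (0 : ℝ)..2 * Real.pi, ‖f (r * exp (θ * I))‖ ^ 2 ≤ M

lemma II_le_iff (f : ℂ → ℂ) (r M : ℝ) : II f r ≤ M ↔
    ∫ θ in (0 : ℝ)..2 * Real.pi, ‖f (r * exp (θ * I))‖ ^ 2 ≤ 2 * Real.pi * M := by
  rw [II, Real.circleAverage_def, smul_eq_mul, inv_mul_le_iff₀ Real.two_pi_pos]
  simp only [circleMap, zero_add]

lemma InH.mj {f : ℂ → ℂ} (h : InH f) : Mj fun w => f (lam w) := by
  obtain ⟨h1, -, M, h2⟩ := h
  obtain ⟨H, h3, h4⟩ := maj h1 (summable_of_sum_range_le (fun _ => sq_nonneg _)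
    (sum_le h1 (tendsto_const_nhds (x := M / (2 * Real.pi))) fun r h0 h1 => (II_le_iff f r _).2 (by
      rw [mul_div_cancel₀ _ Real.two_pi_pos.ne']; exact h2 r h0.le h1)))
  exact Mj.of (h1.comp lam_diff lam_maps) (h3.comp lam_diff lam_maps) fun w hw => h4 _ (lam_lt hw)

lemma Mj.inH {F : ℂ → ℂ} (h : Mj F) : InH ((ball (0 : ℂ) 1).indicator fun ξ => F (kap ξ)) := by
  obtain ⟨H, D⟩ := h
  have h1 : DifferentiableOn ℂ ((ball (0 : ℂ) 1).indicator fun ξ => F (kap ξ)) (ball 0 1) :=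
    (D.dG.comp kap_diff kap_maps).congr fun z hz => indicator_of_mem hz _
  have h2 : ∀ z, ‖z‖ < 1 → ‖(ball (0 : ℂ) 1).indicator (fun ξ => F (kap ξ)) z‖ ^ 2 ≤ (H (kap z)).re :=
    fun z hz => by rw [indicator_of_mem (by simpa using hz)]; exact D.le _ (kap_mem hz)
  refine ⟨h1, fun z hz => indicator_of_notMem hz _, 2 * Real.pi * (H (kap 0)).re, fun r h0 hr => ?_⟩
  rcases h0.eq_or_lt with rfl | h0
  · simpa using mul_le_mul_of_nonneg_left (h2 0 (by simp)) Real.two_pi_pos.le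
  · exact (II_le_iff _ r _).1 (II_le_maj h1 (D.dH.comp kap_diff kap_maps) h2 h0 hr)

noncomputable def ph (ξ : ℂ) : ℂ := lam (kap ξ + 1)

lemma mem1 {w : ℂ} (hw : w ∈ Om) : w + 1 ∈ Om := by simpa using add_mem hw zero_le_one

lemma ph_diff : DifferentiableOn ℂ ph (ball 0 1) :=
  lam_diff.comp (kap_diff.add_const 1) fun _ h => mem1 (kap_maps h)

lemma ph_maps : MapsTo ph (ball 0 1) (ball 0 1) := fun _ h => lam_maps (mem1 (kap_maps h))

lemma kap_ph {z : ℂ} (h : z ∈ ball (0 : ℂ) 1) : kap (ph z) = kap z + 1 := kap_lam (mem1 (kap_maps h))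

lemma ph_ne (z : ℂ) (h : z ∈ ball (0 : ℂ) 1) : ph z ≠ z := fun h0 => by
  have := kap_ph h
  rw [h0] at this; simp at this

noncomputable def f0 : ℂ → ℂ := (ball (0 : ℂ) 1).indicator fun ξ => exp (-kap ξ)

lemma f0_in : InH f0 := Mj.inH (F := fun w => exp (-w)) (Mj.of (H := fun _ => 1) (by fun_prop)
  (by fun_prop) fun w hw => by
    have h' : |w.im| < w.re := hw
    rw [norm_exp, one_re]
    exact pow_le_one₀ (Real.exp_pos _).le (Real.exp_le_one_iff.2 (by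
      rw [neg_re]; linarith [abs_nonneg w.im])))

lemma f0_eig : (ball (0 : ℂ) 1).indicator (f0 ∘ ph) - exp (-1) • f0 = 0 := by
  funext z
  by_cases h : z ∈ ball (0 : ℂ) 1
  · simp only [Pi.sub_apply, Pi.smul_apply, f0, indicator_of_mem h, Function.comp,
      indicator_of_mem (ph_maps h), kap_ph h, smul_eq_mul, Pi.zero_apply, neg_add, Complex.exp_add]
    ring
  · simp [f0, indicator_of_notMem h]

lemma ker1 {f : ℂ → ℂ} (hf : InH f) (h : (ball (0 : ℂ) 1).indicator (f ∘ ph) = exp (-1) • f) :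
    ∃ c : ℂ, f = c • f0 := by
  obtain ⟨c, hc⟩ := kern hf.mj fun w hw => by
    have := congrFun h (lam w)
    rwa [indicator_of_mem (lam_maps hw), Function.comp, ph, kap_lam hw] at this
  refine ⟨c, funext fun z => ?_⟩
  by_cases hz : z ∈ ball (0 : ℂ) 1
  · have := hc _ (kap_maps hz)
    rw [lam_kap (by simpa using hz)] at this
    rw [this, Pi.smul_apply, f0, indicator_of_mem hz, smul_eq_mul]
  · rw [hf.2.1 z hz, Pi.smul_apply, f0, indicator_of_notMem hz, smul_zero]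

lemma surj {g : ℂ → ℂ} (hg : InH g) :
    ∃ f, InH f ∧ g = (ball (0 : ℂ) 1).indicator (f ∘ ph) - exp (-1) • f := by
  obtain ⟨F, h1, h2⟩ := solve hg.mj
  refine ⟨_, h1.inH, funext fun z => ?_⟩
  by_cases hz : z ∈ ball (0 : ℂ) 1
  · simp only [Pi.sub_apply, Pi.smul_apply, indicator_of_mem hz, Function.comp,
      indicator_of_mem (ph_maps hz), kap_ph hz, smul_eq_mul, h2 _ (kap_maps hz),
      lam_kap (mem_ball_zero_iff.1 hz)]
  · simp [hg.2.1 z hz, indicator_of_notMem hz]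

lemma zero_in : InH 0 := ⟨differentiableOn_const 0, fun _ _ => rfl, 0, fun _ _ _ => by simp⟩

lemma f0_ne : f0 ≠ 0 := fun h => by
  have := congrFun h 0
  rw [f0, indicator_of_mem (mem_ball_self one_pos)] at this
  exact exp_ne_zero _ this

end Pool.Agent.H1.Bou
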