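import Mathlib

set_option linter.unusedSectionVars false

namespace Pool.Agent.H1.Bt

open MeasureTheory Filter Topology
open scoped ENNReal NNReal ComplexConjugate InnerProductSpace

abbrev T : Type := AddCircle (1 : ℝ)
noncomputable abbrev μ : Measure T := AddCircle.haarAddCircle

variable {E : Type} [NormedAddCommGroup E] [InnerProductSpace ℂ E] [CompleteSpace E]

lemma int_L2 (f : Lp E 2 μ) : Integrable f μ := (Lp.memLp f).integrable (by norm_num)

lemma norm_coeff_le (f : Lp E 2 μ) (k : ℤ) : ‖fourierCoeff f k‖ ≤ 1 * ‖f‖ := by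
  rw [one_mul]
  refine (norm_integral_le_integral_norm _).trans ?_
  have e : ∀ t : T, ‖fourier (-k) t • f t‖ = ‖f t‖ := fun t => by
    rw [norm_smul]; simp [fourier_apply]
  simp_rw [e]
  rw [integral_norm_eq_lintegral_enorm (Lp.memLp f).1, Lp.norm_def, ← eLpNorm_one_eq_lintegral_enorm]
  exact ENNReal.toReal_mono (Lp.memLp f).2.ne
    (eLpNorm_le_eLpNorm_of_exponent_le (by norm_num) (Lp.memLp f).1)

/-- the `k`-th Fourier coefficient as a bounded linear map on `L²(𝕋, E)` -/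
noncomputable def coL (k : ℤ) : Lp E 2 μ →L[ℂ] E :=
  LinearMap.mkContinuous
    { toFun := fun f => fourierCoeff f k
      map_add' := fun f g => by
        rw [fourierCoeff_congr_ae (Lp.coeFn_add f g), fourierCoeff.add (int_L2 f) (int_L2 g)]; rfl
      map_smul' := fun c f => by
        rw [fourierCoeff_congr_ae (Lp.coeFn_smul c f), fourierCoeff.const_smul]; rfl }
    1 (fun f => norm_coeff_le f k)

lemma coL_apply (k : ℤ) (f : Lp E 2 μ) : coL k f = fourierCoeff f k := rfl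

variable (E) in
/-- the Hardy space `H²(𝕋, E)`: vanishing negative Fourier coefficients -/
noncomputable def H2 : Submodule ℂ (Lp E 2 μ) where
  carrier := {f | ∀ k < 0, fourierCoeff f k = 0}
  add_mem' := fun {f g} hf hg k hk => by
    rw [← coL_apply, map_add, coL_apply, coL_apply, hf k hk, hg k hk, add_zero]
  zero_mem' := fun k _ => by rw [← coL_apply, map_zero]
  smul_mem' := fun c f hf k hk => by rw [← coL_apply, map_smul, coL_apply, hf k hk, smul_zero]

lemma mem_H2 {f : Lp E 2 μ} : f ∈ H2 E ↔ ∀ k < 0, coL k f = 0 := Iff.rfl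

lemma H2_closed : IsClosed (H2 E : Set (Lp E 2 μ)) := by
  have : (H2 E : Set (Lp E 2 μ)) = ⋂ k, ⋂ _ : k < 0, {f | coL k f = 0} := by
    ext f; simp [mem_H2]
  rw [this]
  exact isClosed_iInter fun k => isClosed_iInter fun _ =>
    isClosed_eq (coL k).continuous continuous_const

instance : CompleteSpace (H2 E) := H2_closed.completeSpace_coe

/-- multiplication by an essentially bounded operator-valued function -/
noncomputable def mulOp (Φ : Lp (E →L[ℂ] E) ∞ μ) : Lp E 2 μ →L[ℂ] Lp E 2 μ :=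
  (ContinuousLinearMap.id ℂ (E →L[ℂ] E)).holderL μ ∞ 2 2 Φ

/-- the block Toeplitz operator `f ↦ P (Φ f)` on `H²(𝕋, E)` -/
noncomputable def toeplitz (Φ : Lp (E →L[ℂ] E) ∞ μ) : H2 E →L[ℂ] H2 E :=
  (H2 E).orthogonalProjectionOnto ∘L mulOp Φ ∘L (H2 E).subtypeL

lemma mulOp_ae (Φ : Lp (E →L[ℂ] E) ∞ μ) (f : Lp E 2 μ) : mulOp Φ f =ᵐ[μ] fun t => Φ t (f t) :=
  (ContinuousLinearMap.id ℂ (E →L[ℂ] E)).coeFn_holder (r := 2) Φ f

noncomputable def M {Ψ : T → E →L[ℂ] E} (h : MemLp Ψ ∞ μ) : Lp E 2 μ →L[ℂ] Lp E 2 μ :=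
  mulOp h.toLp

lemma M_ae {Ψ : T → E →L[ℂ] E} (h : MemLp Ψ ∞ μ) (f : Lp E 2 μ) :
    M h f =ᵐ[μ] fun t => Ψ t (f t) := by
  filter_upwards [mulOp_ae h.toLp f, h.coeFn_toLp] with t h1 h2
  rw [M, h1, h2]

lemma memLp_cont {F : Type} [NormedAddCommGroup F] {Ψ : T → F} (h : Continuous Ψ) :
    MemLp Ψ ∞ μ := by
  obtain ⟨C, hC⟩ := isCompact_univ.exists_bound_of_continuousOn h.continuousOn
  exact memLp_top_of_bound h.aestronglyMeasurable C (.of_forall fun x => hC x (Set.mem_univ _))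

lemma memLp_mul {Ψ Θ : T → E →L[ℂ] E} (h : MemLp Ψ ∞ μ) (k : MemLp Θ ∞ μ) :
    MemLp (fun t => Ψ t * Θ t) ∞ μ :=
  (ContinuousLinearMap.mul ℂ (E →L[ℂ] E)).memLp_of_bilin ∞ h k

lemma M_mul {Ψ Θ : T → E →L[ℂ] E} (h : MemLp Ψ ∞ μ) (k : MemLp Θ ∞ μ) (f : Lp E 2 μ) :
    M (memLp_mul h k) f = M h (M k f) := by
  apply Lp.ext
  filter_upwards [M_ae (memLp_mul h k) f, M_ae h (M k f), M_ae k f] with t h1 h2 h3
  rw [h1, h2, h3]; rfl

/-- multiplication by a continuous scalar function -/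
noncomputable def N {u : T → ℂ} (h : Continuous u) : Lp E 2 μ →L[ℂ] Lp E 2 μ :=
  M (Ψ := fun t => u t • (1 : E →L[ℂ] E)) (memLp_cont (h.smul continuous_const))

lemma N_ae {u : T → ℂ} (h : Continuous u) (f : Lp E 2 μ) : N h f =ᵐ[μ] fun t => u t • f t :=
  M_ae _ f

lemma M_N {Ψ : T → E →L[ℂ] E} (h : MemLp Ψ ∞ μ) {u : T → ℂ} (k : Continuous u) (f : Lp E 2 μ) :
    M h (N k f) = N k (M h f) := by
  apply Lp.ext
  filter_upwards [M_ae h (N k f), N_ae k f, N_ae k (M h f), M_ae h f] with t h1 h2 h3 h4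
  rw [h1, h2, h3, h4, map_smul]

noncomputable def Z (m : ℤ) : Lp E 2 μ →L[ℂ] Lp E 2 μ := N (map_continuous (fourier m))

lemma coL_Z (m k : ℤ) (f : Lp E 2 μ) : coL k (Z m f) = coL (k - m) f := by
  rw [coL_apply, coL_apply, Z, fourierCoeff_congr_ae (N_ae _ f)]
  unfold fourierCoeff
  congr 1; funext t
  rw [smul_smul, ← fourier_add]; congr 3; ring

lemma Z_Z (m k : ℤ) (f : Lp E 2 μ) : Z m (Z k f) = Z (m + k) f := by
  apply Lp.ext
  filter_upwards [N_ae (map_continuous (fourier m)) (Z k f), N_ae (map_continuous (fourier k)) f,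
    N_ae (map_continuous (fourier (m + k))) f] with t h1 h2 h3
  unfold Z at *
  rw [h1, h2, h3, smul_smul, fourier_add]

lemma Z_zero (f : Lp E 2 μ) : Z 0 f = f := by
  apply Lp.ext
  filter_upwards [N_ae (map_continuous (fourier 0)) f] with t h1
  rw [Z, h1]; simp

lemma inner_Z (m : ℤ) (f g : Lp E 2 μ) : ⟪Z m f, Z m g⟫_ℂ = ⟪f, g⟫_ℂ := by
  rw [L2.inner_def, L2.inner_def]
  apply integral_congr_ae
  filter_upwards [N_ae (map_continuous (fourier m)) f, N_ae (map_continuous (fourier m)) g]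
    with t h1 h2
  unfold Z
  rw [h1, h2, inner_smul_left, inner_smul_right, ← mul_assoc, ← fourier_neg, ← fourier_add]
  simp

lemma norm_Z (m : ℤ) (f : Lp E 2 μ) : ‖Z m f‖ = ‖f‖ := by
  rw [@norm_eq_sqrt_re_inner ℂ, inner_Z, ← @norm_eq_sqrt_re_inner ℂ]

/-- the constant function -/
noncomputable def ev (v : E) : Lp E 2 μ := (memLp_const v).toLp _

lemma ev_ae (v : E) : ev v =ᵐ[μ] fun _ => v := MemLp.coeFn_toLp _

lemma inner_ev (v : E) (f : Lp E 2 μ) : ⟪ev v, f⟫_ℂ = ⟪v, coL 0 f⟫_ℂ := by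
  rw [L2.inner_def, coL_apply, fourierCoeff, ← integral_inner ((int_L2 f).fourier_smul _)]
  apply integral_congr_ae
  filter_upwards [ev_ae v] with t h
  rw [h]; simp

lemma coL_ev (k : ℤ) (v : E) : coL k (ev v) = if k = 0 then v else 0 := by
  rw [coL_apply, fourierCoeff_congr_ae (ev_ae v), fourierCoeff, integral_smul_const]
  have := congrFun (fourierCoeff_fourier (T := 1) 0) k
  unfold fourierCoeff at this
  simp only [fourier_zero, smul_eq_mul, mul_one] at this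
  rw [this, Pi.single_apply]
  split_ifs <;> simp

lemma ev_mem (v : E) : ev v ∈ H2 E := mem_H2.2 fun k hk => by rw [coL_ev, if_neg hk.ne]

lemma norm_ev (v : E) : ‖ev v‖ = ‖v‖ := by
  rw [@norm_eq_sqrt_re_inner ℂ, inner_ev, coL_ev, if_pos rfl, ← @norm_eq_sqrt_re_inner ℂ]

lemma Z_mem {f : Lp E 2 μ} (hf : f ∈ H2 E) : Z 1 f ∈ H2 E :=
  mem_H2.2 fun k hk => by rw [coL_Z, mem_H2.1 hf _ (by omega)]

lemma proj_Z (u : Lp E 2 μ) :
    (H2 E).starProjection (Z 1 u) = Z 1 ((H2 E).starProjection u) + ev (coL (-1) u) := by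
  have hP := (H2 E).starProjection_apply_mem u
  refine Submodule.eq_starProjection_of_mem_of_inner_eq_zero
    ((H2 E).add_mem (Z_mem hP) (ev_mem _)) fun w hw => ?_
  have hw' : Z (-1) (w - ev (coL 0 w)) ∈ H2 E := mem_H2.2 fun k hk => by
    rw [coL_Z, map_sub, coL_ev]
    split_ifs with h
    · rw [h, sub_self]
    · rw [mem_H2.1 hw _ (by omega), sub_zero]
  have e : w = ev (coL 0 w) + Z 1 (Z (-1) (w - ev (coL 0 w))) := by
    rw [Z_Z]; simp [Z_zero]
  have a1 : ⟪Z 1 u - (Z 1 ((H2 E).starProjection u) + ev (coL (-1) u)), ev (coL 0 w)⟫_ℂ = 0 := by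
    rw [← inner_conj_symm, inner_ev, map_sub, map_add, coL_Z, coL_Z, coL_ev,
      mem_H2.1 hP _ (by omega)]
    simp
  have a2 : ⟪Z 1 u - (Z 1 ((H2 E).starProjection u) + ev (coL (-1) u)),
      Z 1 (Z (-1) (w - ev (coL 0 w)))⟫_ℂ = 0 := by
    rw [← sub_sub, inner_sub_left, ← map_sub, inner_Z, inner_ev, coL_Z,
      mem_H2.1 hw' _ (by omega), (H2 E).starProjection_inner_eq_zero u _ hw']
    simp
  rw [e, inner_add_right, a1, a2, add_zero]

lemma norm_proj_Z (u : Lp E 2 μ) : ‖(H2 E).starProjection (Z 1 u)‖ ^ 2 =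
    ‖(H2 E).starProjection u‖ ^ 2 + ‖coL (-1) u‖ ^ 2 := by
  have hP := (H2 E).starProjection_apply_mem u
  have h : ⟪Z 1 ((H2 E).starProjection u), ev (coL (-1) u)⟫_ℂ = 0 := by
    rw [← inner_conj_symm, inner_ev, coL_Z, mem_H2.1 hP _ (by omega)]; simp
  rw [proj_Z, sq, norm_add_sq_eq_norm_sq_add_norm_sq_of_inner_eq_zero _ _ h, norm_Z, norm_ev]
  ring

/-- the unilateral shift -/
noncomputable def S : H2 E →L[ℂ] H2 E := (Z 1).restrict fun _ h => Z_mem h

lemma S_coe (h : H2 E) : (S h : Lp E 2 μ) = Z 1 h := rfl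

lemma norm_S (h : H2 E) : ‖S h‖ = ‖h‖ := by
  rw [← Submodule.norm_coe, ← Submodule.norm_coe, S_coe, norm_Z]

lemma S_iter (k : ℕ) (h : H2 E) : ((S^[k] h : H2 E) : Lp E 2 μ) = Z k h := by
  induction k with
  | zero => simp [Z_zero]
  | succ k ih => rw [Function.iterate_succ_apply', S_coe, ih, Z_Z]; congr 2; push_cast; ring

lemma riemann_lebesgue (u : T → ℂ) : Tendsto (fun k : ℕ => fourierCoeff u (-k)) atTop (𝓝 0) := by
  have h := Real.tendsto_integral_exp_smul_cocompact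
    ((Set.Ioc (0 : ℝ) 1).indicator fun x : ℝ => u x)
  have h2 : Tendsto (fun k : ℕ => -(k : ℝ)) atTop (cocompact ℝ) :=
    (tendsto_neg_atTop_atBot.comp tendsto_natCast_atTop_atTop).mono_right atBot_le_cocompact
  refine (h.comp h2).congr fun k => ?_
  rw [fourierCoeff_eq_intervalIntegral u _ 0, intervalIntegral.integral_of_le (by norm_num),
    ← integral_indicator measurableSet_Ioc]
  simp only [Function.comp, div_one, one_smul, zero_add]
  congr 1; funext x
  by_cases hx : x ∈ Set.Ioc (0 : ℝ) 1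
  · rw [Set.indicator_of_mem hx, Set.indicator_of_mem hx, fourier_coe_apply, Circle.smul_def,
      Real.fourierChar_apply]
    congr 2; push_cast; ring
  · rw [Set.indicator_of_notMem hx, Set.indicator_of_notMem hx, smul_zero]

lemma weak_null (l : H2 E →L[ℂ] ℂ) (h : H2 E) : Tendsto (fun k => l (S^[k] h)) atTop (𝓝 0) := by
  obtain ⟨y, rfl⟩ := (InnerProductSpace.toDual ℂ (H2 E)).surjective l
  refine (riemann_lebesgue fun t => ⟪(y : Lp E 2 μ) t, (h : Lp E 2 μ) t⟫_ℂ).congr fun k => ?_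
  rw [InnerProductSpace.toDual_apply_apply, Submodule.coe_inner, S_iter, L2.inner_def, fourierCoeff]
  apply integral_congr_ae
  filter_upwards [N_ae (map_continuous (fourier k)) (h : Lp E 2 μ)] with t ht
  rw [Z, ht, inner_smul_right, neg_neg, smul_eq_mul]

lemma geo_zero {F : Type} [NormedAddCommGroup F] [NormedSpace ℂ F] (δ : H2 E →L[ℂ] F) {a : ℂ}
    (ha : ‖a‖ < 1) (h : ∀ x, δ x = a • δ (S x)) : δ = 0 := by
  have h1 : ‖δ‖ ≤ ‖a‖ * ‖δ‖ := δ.opNorm_le_bound (by positivity) fun x => by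
    rw [h x, norm_smul, mul_assoc, ← norm_S x]
    exact mul_le_mul_of_nonneg_left (δ.le_opNorm _) (norm_nonneg _)
  have h2 := δ.opNorm_nonneg
  have h3 : ‖δ‖ = 0 := by nlinarith
  exact (ContinuousLinearMap.opNorm_zero_iff δ).1 h3

end Pool.Agent.H1.Bt
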