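import Pool.Agent.H1.BtA

set_option linter.unusedSectionVars false

namespace Pool.Agent.H1.Bt

open MeasureTheory Filter Topology InnerProductSpace
open scoped ENNReal NNReal ComplexConjugate InnerProductSpace

variable {E : Type} [NormedAddCommGroup E] [InnerProductSpace ℂ E] [CompleteSpace E]

/-- the Blaschke factor `(z - a) / (1 - conj a * z)` -/
noncomputable def bl (a z : ℂ) : ℂ := (z - a) / (1 - conj a * z)

/-- the elementary factor `b(z) P + (I - P)` -/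
noncomputable def fac (d : ℂ × (E →L[ℂ] E)) (z : ℂ) : E →L[ℂ] E := bl d.1 z • d.2 + (1 - d.2)

/-- the Blaschke–Potapov product `ν ∏ (b_m(z) P_m + (I - P_m))` -/
noncomputable def bpp (ν : E →L[ℂ] E) (L : List (ℂ × (E →L[ℂ] E))) (z : ℂ) : E →L[ℂ] E :=
  ν * (L.map fun d => fac d z).prod

lemma den_ne {a z : ℂ} (ha : ‖a‖ < 1) (hz : ‖z‖ ≤ 1) : 1 - conj a * z ≠ 0 := by
  intro h
  have : ‖conj a * z‖ = 1 := by rw [← sub_eq_zero.1 h, norm_one]
  rw [norm_mul, RCLike.norm_conj] at this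
  nlinarith [norm_nonneg a, norm_nonneg z]

lemma norm_four (t : T) : ‖fourier 1 t‖ = 1 := by simp [fourier_apply]

lemma bl_cont {a : ℂ} (ha : ‖a‖ < 1) : Continuous fun t : T => bl a (fourier 1 t) := by
  unfold bl
  exact Continuous.div (by fun_prop) (by fun_prop) fun t => den_ne ha (norm_four t).le

lemma norm_bl {a z : ℂ} (ha : ‖a‖ < 1) (hz : ‖z‖ = 1) : ‖bl a z‖ = 1 := by
  have h1 : z * conj z = 1 := by rw [Complex.mul_conj', hz]; simp
  have h2 : 1 - conj a * z = z * conj (z - a) := by rw [map_sub]; linear_combination -h1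
  have h3 := den_ne ha hz.le
  rw [bl, norm_div, div_eq_one_iff_eq (norm_ne_zero_iff.2 h3), h2, norm_mul, hz, one_mul,
    RCLike.norm_conj]

lemma fac_cont {d : ℂ × (E →L[ℂ] E)} (ha : ‖d.1‖ < 1) :
    Continuous fun t : T => fac d (fourier 1 t) :=
  ((bl_cont ha).smul continuous_const).add continuous_const

lemma N_bl {a : ℂ} (ha : ‖a‖ < 1) (u : Lp E 2 μ) :
    N (bl_cont ha) u - conj a • N (bl_cont ha) (Z 1 u) = Z 1 u - a • u := by
  apply Lp.ext
  filter_upwards [Lp.coeFn_sub (N (bl_cont ha) u) (conj a • N (bl_cont ha) (Z 1 u)),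
    Lp.coeFn_smul (conj a) (N (bl_cont ha) (Z 1 u)), N_ae (bl_cont ha) u,
    N_ae (bl_cont ha) (Z 1 u), N_ae (map_continuous (fourier 1)) u,
    Lp.coeFn_sub (Z 1 u) (a • u), Lp.coeFn_smul a u] with t h1 h2 h3 h4 h5 h6 h7
  have h5' : Z 1 u t = fourier 1 t • u t := h5
  rw [h1, h6, Pi.sub_apply, Pi.sub_apply, h2, h7, Pi.smul_apply, Pi.smul_apply, h3, h4, h5',
    smul_smul, smul_smul, ← sub_smul, ← sub_smul]
  congr 1
  have := den_ne ha (norm_four t).le
  have h8 : bl a (fourier 1 t) * (1 - conj a * fourier 1 t) = fourier 1 t - a :=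
    div_mul_cancel₀ _ this
  linear_combination h8

lemma coL_fac {a : ℂ} (ha : ‖a‖ < 1) (Q : E →L[ℂ] E) (k : ℤ) (u : Lp E 2 μ) :
    coL k (M (memLp_cont (fac_cont (d := (a, Q)) ha)) u) =
      coL k u + Q (coL k (N (bl_cont ha) u) - coL k u) := by
  rw [← map_sub, coL_apply, coL_apply, coL_apply]
  unfold fourierCoeff
  have i1 := (int_L2 (N (bl_cont ha) u - u)).fourier_smul (-k)
  rw [← Q.integral_comp_comm i1, ← integral_add ((int_L2 u).fourier_smul _) (Q.integrable_comp i1)]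
  apply integral_congr_ae
  filter_upwards [M_ae (memLp_cont (fac_cont (d := (a, Q)) ha)) u,
    Lp.coeFn_sub (N (bl_cont ha) u) u, N_ae (bl_cont ha) u] with t h1 h2 h3
  rw [h1, h2, Pi.sub_apply, h3, map_smul, ← smul_add]
  congr 1
  simp only [fac, add_apply, smul_apply,
    sub_apply, one_apply_eq_self, map_sub, map_smul]
  abel

lemma N_bl_mem {a : ℂ} (ha : ‖a‖ < 1) {u : Lp E 2 μ} (hu : u ∈ H2 E) :
    N (bl_cont ha) u ∈ H2 E := by
  refine mem_H2.2 fun k hk => ?_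
  have := geo_zero (coL k ∘L N (bl_cont ha) ∘L (H2 E).subtypeL) (a := conj a) (by simpa using ha)
    (fun x => by
      have h := congrArg (coL k) (N_bl ha (x : Lp E 2 μ))
      rw [map_sub, map_sub, map_smul, map_smul, mem_H2.1 (Z_mem x.2) k hk, mem_H2.1 x.2 k hk,
        smul_zero, sub_zero, sub_eq_zero] at h
      exact h)
  exact congrArg (fun δ : H2 E →L[ℂ] E => δ ⟨u, hu⟩) this

lemma fac_mem {d : ℂ × (E →L[ℂ] E)} (ha : ‖d.1‖ < 1) {u : Lp E 2 μ} (hu : u ∈ H2 E) :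
    M (memLp_cont (fac_cont ha)) u ∈ H2 E :=
  mem_H2.2 fun k hk => by
    rw [coL_fac (a := d.1) ha d.2, mem_H2.1 hu k hk, mem_H2.1 (N_bl_mem ha hu) k hk]; simp

lemma lurk {V F : Type} [AddCommGroup V] [Module ℂ V] [NormedAddCommGroup F]
    [InnerProductSpace ℂ F] [FiniteDimensional ℂ F] (p q : V →ₗ[ℂ] F) (h : ∀ x, ‖p x‖ = ‖q x‖) :
    ∃ U : F →ₗᵢ[ℂ] F, ∀ x, U (p x) = q x := by
  have hk : LinearMap.ker p ≤ LinearMap.ker q := fun x hx => by
    rw [LinearMap.mem_ker, ← norm_eq_zero, ← h x, LinearMap.mem_ker.1 hx, norm_zero]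
  let l : LinearMap.range p →ₗ[ℂ] F :=
    ((LinearMap.ker p).liftQ q hk) ∘ₗ p.quotKerEquivRange.symm.toLinearMap
  have hl : ∀ x, l ⟨p x, LinearMap.mem_range_self p x⟩ = q x := fun x => by
    simp [l, LinearMap.quotKerEquivRange_symm_apply_image]
  let L : LinearMap.range p →ₗᵢ[ℂ] F :=
    { toLinearMap := l
      norm_map' := by
        rintro ⟨_, x, rfl⟩
        exact (congrArg norm (hl x)).trans (h x).symm }
  exact ⟨L.extend, fun x => (L.extend_apply ⟨p x, LinearMap.mem_range_self p x⟩).trans (hl x)⟩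

/-- coefficient of index `-1` of `Ψ h` -/
noncomputable def cf {Ψ : T → E →L[ℂ] E} (h : MemLp Ψ ∞ μ) : H2 E →L[ℂ] E :=
  coL (-1) ∘L M h ∘L (H2 E).subtypeL

lemma cf_apply {Ψ : T → E →L[ℂ] E} (h : MemLp Ψ ∞ μ) (x : H2 E) : cf h x = coL (-1) (M h x) := rfl

def Valid (L : List (ℂ × (E →L[ℂ] E))) : Prop :=
  ∀ d ∈ L, ‖d.1‖ < 1 ∧ ∃ v : E, ‖v‖ = 1 ∧ d.2 = rankOne ℂ v v

lemma bpp_cont (ν : E →L[ℂ] E) {L : List (ℂ × (E →L[ℂ] E))} (h : ∀ d ∈ L, ‖d.1‖ < 1) :
    Continuous fun t : T => bpp ν L (fourier 1 t) :=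
  continuous_const.mul (continuous_list_prod L fun d hd => fac_cont (h d hd))

lemma M_congr {Ψ Θ : T → E →L[ℂ] E} (h : MemLp Ψ ∞ μ) (k : MemLp Θ ∞ μ) (e : Ψ = Θ) :
    M h = M k := by subst e; rfl

lemma coL_const (A : E →L[ℂ] E) (k : ℤ) (u : Lp E 2 μ) :
    coL k (M (memLp_cont (continuous_const (y := A))) u) = A (coL k u) := by
  rw [coL_apply, coL_apply]
  unfold fourierCoeff
  rw [← A.integral_comp_comm ((int_L2 u).fourier_smul _)]
  apply integral_congr_ae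
  filter_upwards [M_ae (memLp_cont (continuous_const (y := A))) u] with t h1
  rw [h1, map_smul]

lemma norm_id {a x p : ℂ} {ρ : ℝ} (h : ‖a‖ ^ 2 + ρ ^ 2 = 1) :
    ‖conj a * x + ρ * p‖ ^ 2 + ‖ρ * x - a * p‖ ^ 2 = ‖x‖ ^ 2 + ‖p‖ ^ 2 := by
  simp only [← Complex.normSq_eq_norm_sq, Complex.normSq_apply] at *
  simp only [Complex.add_re, Complex.add_im, Complex.mul_re, Complex.mul_im, Complex.sub_re,
    Complex.sub_im, Complex.conj_re, Complex.conj_im, Complex.ofReal_re, Complex.ofReal_im]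
  linear_combination (x.re ^ 2 + x.im ^ 2 + p.re ^ 2 + p.im ^ 2) * h

lemma norm_upd {v f : E} (hv : ‖v‖ = 1) (η : ℂ) :
    ‖f + (η - ⟪v, f⟫_ℂ) • v‖ ^ 2 + ‖⟪v, f⟫_ℂ‖ ^ 2 = ‖f‖ ^ 2 + ‖η‖ ^ 2 := by
  rw [@norm_add_sq ℂ, inner_smul_right, norm_smul, hv, ← inner_conj_symm f v]
  set p := ⟪v, f⟫_ℂ
  simp only [mul_one, ← Complex.normSq_eq_norm_sq, Complex.normSq_apply, RCLike.re_to_complex,
    Complex.mul_re, Complex.sub_re, Complex.sub_im, Complex.conj_re, Complex.conj_im]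
  ring

theorem peel [FiniteDimensional ℂ E] (g : H2 E →L[ℂ] E) (r : ℕ) :
    ∀ (X : Type) [NormedAddCommGroup X] [InnerProductSpace ℂ X] [FiniteDimensional ℂ X],
    Module.finrank ℂ X = r → ∀ (π : H2 E →L[ℂ] X), Function.Surjective π →
    ∀ {Ψ : T → E →L[ℂ] E} (hΨ : MemLp Ψ ∞ μ),
    (∀ h, ‖π h‖ ^ 2 + ‖g h‖ ^ 2 = ‖π (S h)‖ ^ 2 + ‖cf hΨ h‖ ^ 2) →
    ∃ ν ∈ unitary (E →L[ℂ] E), ∃ (L : List (ℂ × (E →L[ℂ] E))) (hL : Valid L), L.length = r ∧
      ∀ h, g h = cf (memLp_mul (memLp_cont (bpp_cont ν fun d hd => (hL d hd).1)) hΨ) h := by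
  induction r with
  | zero =>
    intro X _ _ _ hX π _ Ψ hΨ hid
    have : Subsingleton X := Module.finrank_zero_iff.1 hX
    obtain ⟨U, hU⟩ := lurk (cf hΨ).toLinearMap g.toLinearMap fun x => by
      have := hid x
      rw [Subsingleton.elim (π x) 0, Subsingleton.elim (π (S x)) 0, add_right_inj] at this
      exact ((sq_eq_sq₀ (norm_nonneg _) (norm_nonneg _)).1 this).symm
    let ν := Unitary.linearIsometryEquiv.symm (U.toLinearIsometryEquiv rfl)
    refine ⟨ν.1, ν.2, [], fun d hd => by simp at hd, rfl, fun h => ?_⟩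
    have hc := memLp_cont (bpp_cont ν.1 (L := []) fun d hd => by simp at hd)
    rw [cf_apply, M_mul hc, M_congr hc (memLp_cont (continuous_const (y := ν.1))) (by
      funext t; simp [bpp]), coL_const]
    exact (hU h).symm
  | succ r ih =>
    intro X _ _ _ hX π hπ Ψ hΨ hid
    have : Nontrivial X := Module.nontrivial_of_finrank_eq_succ hX
    let pr : (X × E) ≃ₗ[ℂ] WithLp 2 (X × E) := (WithLp.linearEquiv 2 ℂ (X × E)).symm
    obtain ⟨U, hU⟩ := lurk (pr.toLinearMap ∘ₗ (π.toLinearMap.prod g.toLinearMap))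
      (pr.toLinearMap ∘ₗ ((π ∘L S).toLinearMap.prod (cf hΨ).toLinearMap)) fun x => by
        refine (sq_eq_sq₀ (norm_nonneg _) (norm_nonneg _)).1 ?_
        rw [WithLp.prod_norm_sq_eq_of_L2, WithLp.prod_norm_sq_eq_of_L2]
        exact hid x
    let A : Module.End ℂ X :=
      LinearMap.fst ℂ X E ∘ₗ pr.symm.toLinearMap ∘ₗ U.toLinearMap ∘ₗ pr.toLinearMap ∘ₗ
        LinearMap.inl ℂ X E
    obtain ⟨a, ha⟩ := Module.End.exists_eigenvalue A
    obtain ⟨e0, he0⟩ := ha.exists_hasEigenvector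
    have hn0 : ‖e0‖ ≠ 0 := norm_ne_zero_iff.2 he0.2
    set e : X := ((‖e0‖⁻¹ : ℝ) : ℂ) • e0 with he
    have he1 : ‖e‖ = 1 := by
      rw [he, norm_smul, Complex.norm_real, norm_inv, norm_norm, inv_mul_cancel₀ hn0]
    have hAe : A e = a • e := by rw [he, map_smul, he0.apply_eq_smul, smul_comm]
    set w : E := (U (pr (e, 0))).snd with hw
    have hfst : (U (pr (e, 0))).fst = a • e := hAe
    have hnorm : ‖a‖ ^ 2 + ‖w‖ ^ 2 = 1 := by
      have h1 := WithLp.prod_norm_sq_eq_of_L2 (U (pr (e, 0)))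
      rw [U.norm_map, hfst, WithLp.prod_norm_sq_eq_of_L2, norm_smul, he1] at h1
      have h2 : ‖(pr (e, 0)).fst‖ = 1 := he1
      have h3 : ‖(pr (e, 0)).snd‖ = 0 := norm_zero
      rw [h2, h3] at h1
      linarith
    have hrec : ∀ h, ⟪e, π h⟫_ℂ = conj a * ⟪e, π (S h)⟫_ℂ + ⟪w, cf hΨ h⟫_ℂ := by
      intro h
      have h1 := U.inner_map_map (pr (e, 0)) (pr (π h, g h))
      have h2 : U (pr (π h, g h)) = pr (π (S h), cf hΨ h) := hU h
      rw [h2, WithLp.prod_inner_apply, WithLp.prod_inner_apply] at h1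
      have h3 : ⟪a • e, π (S h)⟫_ℂ + ⟪w, cf hΨ h⟫_ℂ = ⟪e, π h⟫_ℂ + ⟪(0 : E), g h⟫_ℂ := by
        rw [← hfst]; exact h1
      rw [inner_smul_left, inner_zero_left, add_zero] at h3
      exact h3.symm
    have hw0 : ‖w‖ ≠ 0 := by
      intro h0
      have ha1 : ‖a‖ = 1 := by
        rw [h0] at hnorm
        exact (pow_eq_one_iff_of_nonneg (norm_nonneg _) two_ne_zero).1 (by linarith)
      obtain ⟨h, hh⟩ := hπ e
      have h1 : ∀ k, ‖⟪e, π (S^[k] h)⟫_ℂ‖ = 1 := by
        intro k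
        induction k with
        | zero => simp [hh, he1]
        | succ k ihk =>
          rw [hrec, norm_eq_zero.1 h0, inner_zero_left, add_zero, norm_mul, RCLike.norm_conj, ha1,
            one_mul] at ihk
          rw [Function.iterate_succ_apply', ihk]
      have h2 := (weak_null (innerSL ℂ e ∘L π) h).norm
      simp only [ContinuousLinearMap.comp_apply, innerSL_apply_apply, h1, norm_zero] at h2
      exact one_ne_zero (tendsto_nhds_unique tendsto_const_nhds h2)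
    have ha1 : ‖a‖ < 1 := by
      have : 0 < ‖w‖ ^ 2 := by positivity
      nlinarith [norm_nonneg a]
    set v : E := ((‖w‖⁻¹ : ℝ) : ℂ) • w with hv
    have hv1 : ‖v‖ = 1 := by
      rw [hv, norm_smul, Complex.norm_real, norm_inv, norm_norm, inv_mul_cancel₀ hw0]
    have hwv : ∀ y, ⟪w, y⟫_ℂ = (‖w‖ : ℂ) * ⟪v, y⟫_ℂ := fun y => by
      have : ((‖w‖ : ℝ) : ℂ) ≠ 0 := by exact_mod_cast hw0
      rw [hv, inner_smul_left, Complex.conj_ofReal]; push_cast; field_simp
    have hη : ∀ h : H2 E, ⟪v, coL (-1) (N (bl_cont ha1) (M hΨ h))⟫_ℂ =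
        ‖w‖ * ⟪e, π (S h)⟫_ℂ - a * ⟪v, cf hΨ h⟫_ℂ := by
      have := geo_zero (innerSL ℂ v ∘L coL (-1) ∘L N (bl_cont ha1) ∘L M hΨ ∘L (H2 E).subtypeL -
        ((‖w‖ : ℂ) • (innerSL ℂ e ∘L π ∘L S) - a • (innerSL ℂ v ∘L cf hΨ))) (a := conj a)
        (by simpa using ha1) (fun x => by
          have h1 := congrArg (fun y => ⟪v, coL (-1) y⟫_ℂ) (N_bl ha1 (M hΨ (x : Lp E 2 μ)))
          have h2 : Z 1 (M hΨ (x : Lp E 2 μ)) = M hΨ (S x : H2 E) := (M_N hΨ _ _).symm
          simp only [h2, map_sub, map_smul, inner_sub_right, inner_smul_right, ← cf_apply] at h1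
          have h3 := hrec (S x)
          rw [hwv] at h3
          have h4 : conj a * a + (‖w‖ : ℂ) ^ 2 = 1 := by
            rw [Complex.conj_mul']; exact_mod_cast hnorm
          simp only [sub_apply, ContinuousLinearMap.comp_apply,
            smul_apply, innerSL_apply_apply, smul_eq_mul,
            Submodule.subtypeL_apply]
          linear_combination h1 - (‖w‖ : ℂ) * h3 - ⟪v, cf hΨ (S x)⟫_ℂ * h4)
      intro h
      have h1 := congrArg (fun δ : H2 E →L[ℂ] ℂ => δ h) this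
      simp only [sub_apply, ContinuousLinearMap.comp_apply,
        smul_apply, innerSL_apply_apply, smul_eq_mul,
        Submodule.subtypeL_apply, zero_apply] at h1
      exact sub_eq_zero.1 h1
    have hβ := memLp_cont (fac_cont (d := (a, rankOne ℂ v v)) ha1)
    have : Fact (Module.finrank ℂ X = r + 1) := ⟨hX⟩
    have he0' : e ≠ 0 := by intro h; rw [h, norm_zero] at he1; exact zero_ne_one he1
    obtain ⟨ν, hν, L, hL, hlen, hg⟩ := ih (ℂ ∙ e)ᗮ (Submodule.finrank_orthogonal_span_singleton he0')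
      ((ℂ ∙ e)ᗮ.orthogonalProjectionOnto ∘L π) (by
        intro y
        obtain ⟨h, hh⟩ := hπ y
        exact ⟨h, by simp [hh]⟩) (memLp_mul hβ hΨ) (by
        intro h
        have p1 : ∀ x : X, ‖x‖ ^ 2 = ‖⟪e, x⟫_ℂ‖ ^ 2 + ‖(ℂ ∙ e)ᗮ.orthogonalProjectionOnto x‖ ^ 2 := by
          intro x
          rw [Submodule.norm_sq_eq_add_norm_sq_starProjection x (ℂ ∙ e),
            Submodule.starProjection_unit_singleton ℂ he1, norm_smul, he1, mul_one]
          rfl
        have p2 : cf (memLp_mul hβ hΨ) h = cf hΨ h +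
            (⟪v, coL (-1) (N (bl_cont ha1) (M hΨ h))⟫_ℂ - ⟪v, cf hΨ h⟫_ℂ) • v := by
          rw [cf_apply, M_mul hβ hΨ, coL_fac ha1, rankOne_apply, inner_sub_right]; rfl
        have p3 := norm_upd hv1 (f := cf hΨ h) ⟪v, coL (-1) (N (bl_cont ha1) (M hΨ h))⟫_ℂ
        rw [← p2, hη] at p3
        have p4 := norm_id (x := ⟪e, π (S h)⟫_ℂ) (p := ⟪v, cf hΨ h⟫_ℂ) hnorm
        rw [← hwv, ← hrec] at p4
        have p5 := hid h
        rw [p1 (π h), p1 (π (S h))] at p5
        simp only [ContinuousLinearMap.comp_apply]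
        linarith)
    have hL' : Valid (L ++ [(a, rankOne ℂ v v)]) := by
      intro d hd
      rcases List.mem_append.1 hd with hd | hd
      · exact hL d hd
      · rw [List.mem_singleton.1 hd]; exact ⟨ha1, v, hv1, rfl⟩
    refine ⟨ν, hν, _, hL', by simp [hlen], fun h => ?_⟩
    rw [hg h, cf_apply, cf_apply, M_congr]
    funext t
    simp [bpp, mul_assoc]

lemma coef_apply {Ψ : T → E →L[ℂ] E} (h : MemLp Ψ ∞ μ) (k : ℤ) (x : E) :
    fourierCoeff Ψ k x = coL k (M h (ev x)) := by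
  rw [coL_apply]
  unfold fourierCoeff
  rw [ContinuousLinearMap.integral_apply ((h.integrable le_top).fourier_smul _)]
  apply integral_congr_ae
  filter_upwards [M_ae h (ev x), ev_ae x] with t h1 h2
  rw [h1, h2]; rfl

lemma M_sub {Ψ Θ : T → E →L[ℂ] E} (h : MemLp Ψ ∞ μ) (k : MemLp Θ ∞ μ) (u : Lp E 2 μ) :
    M (h.sub k) u = M h u - M k u := by
  apply Lp.ext
  filter_upwards [M_ae (h.sub k) u, M_ae h u, M_ae k u, Lp.coeFn_sub (M h u) (M k u)]
    with t h1 h2 h3 h4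
  rw [h1, h4, Pi.sub_apply, Pi.sub_apply, h2, h3]; rfl

lemma bpp_mem {L : List (ℂ × (E →L[ℂ] E))} (hL : ∀ d ∈ L, ‖d.1‖ < 1) (ν : E →L[ℂ] E)
    {u : Lp E 2 μ} (hu : u ∈ H2 E) : M (memLp_cont (bpp_cont ν hL)) u ∈ H2 E := by
  induction L using List.reverseRecOn generalizing u with
  | nil =>
    rw [M_congr _ (memLp_cont (continuous_const (y := ν))) (by funext t; simp [bpp])]
    exact mem_H2.2 fun k hk => by rw [coL_const, mem_H2.1 hu k hk, map_zero]
  | append_singleton L d ih =>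
    have h1 : ∀ d ∈ L, ‖d.1‖ < 1 := fun d hd => hL d (by simp [hd])
    have h2 : ‖d.1‖ < 1 := hL d (by simp)
    have a1 := memLp_cont (bpp_cont ν h1)
    have a2 := memLp_cont (fac_cont h2)
    rw [M_congr _ (memLp_mul a1 a2) (by funext t; simp [bpp, mul_assoc]), M_mul a1 a2]
    exact ih h1 (fac_mem h2 hu)

lemma fac_apply (a z : ℂ) (v y : E) :
    fac (a, rankOne ℂ v v) z y = y + (bl a z * ⟪v, y⟫_ℂ - ⟪v, y⟫_ℂ) • v := by
  simp only [fac, add_apply, smul_apply, sub_apply, one_apply_eq_self, rankOne_apply, smul_smul,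
    sub_smul]
  abel

lemma norm_bpp {ν : E →L[ℂ] E} (hν : ν ∈ unitary (E →L[ℂ] E)) {L : List (ℂ × (E →L[ℂ] E))}
    (hL : Valid L) {z : ℂ} (hz : ‖z‖ = 1) : ‖bpp ν L z‖ ≤ 1 := by
  induction L using List.reverseRecOn with
  | nil =>
    refine ContinuousLinearMap.opNorm_le_bound _ zero_le_one fun x => ?_
    simp [bpp, ν.norm_map_of_mem_unitary hν]
  | append_singleton L d ih =>
    obtain ⟨h1, v, hv, h2⟩ := hL d (by simp)
    have h3 : ‖fac d z‖ ≤ 1 := by
      refine ContinuousLinearMap.opNorm_le_bound _ zero_le_one fun y => ?_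
      have := norm_upd hv (f := y) (bl d.1 z * ⟪v, y⟫_ℂ)
      rw [← fac_apply, ← h2, norm_mul, norm_bl h1 hz, one_mul, add_left_inj] at this
      rw [one_mul]
      exact ((sq_eq_sq₀ (norm_nonneg _) (norm_nonneg _)).1 this).le
    rw [show bpp ν (L ++ [d]) z = bpp ν L z * fac d z by simp [bpp, mul_assoc]]
    exact (norm_mul_le _ _).trans (mul_le_one₀ (ih fun d hd => hL d (by simp [hd]))
      (norm_nonneg _) h3)

lemma det_bpp [FiniteDimensional ℂ E] (ν : E →L[ℂ] E) {L : List (ℂ × (E →L[ℂ] E))}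
    (hL : Valid L) (z : ℂ) : (bpp ν L z).det = ν.det * (L.map fun d => bl d.1 z).prod := by
  induction L using List.reverseRecOn with
  | nil => simp [bpp]
  | append_singleton L d ih =>
    obtain ⟨h1, v, hv, h2⟩ := hL d (by simp)
    have h3 : (fac d z).det = bl d.1 z := by
      have : ((fac d z : E →L[ℂ] E) : E →ₗ[ℂ] E) =
          LinearMap.transvection ((bl d.1 z - 1) • (innerSL ℂ v).toLinearMap) v := by
        ext y
        have := fac_apply d.1 z v y
        rw [← h2] at this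
        simp only [ContinuousLinearMap.coe_coe, LinearMap.transvection.apply, LinearMap.smul_apply,
          innerSL_apply_apply, smul_eq_mul, sub_mul, one_mul]
        exact this
      rw [ContinuousLinearMap.det, this, LinearMap.transvection.det]
      simp [hv]
    rw [show bpp ν (L ++ [d]) z = bpp ν L z * fac d z by simp [bpp, mul_assoc],
      ContinuousLinearMap.det, ContinuousLinearMap.toLinearMap_mul, map_mul]
    rw [show LinearMap.det ((bpp ν L z : E →L[ℂ] E) : E →ₗ[ℂ] E) = _ from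
      ih fun d hd => hL d (by simp [hd]), show LinearMap.det ((fac d z : E →L[ℂ] E) : E →ₗ[ℂ] E) = _
      from h3]
    simp [mul_assoc]

lemma norm_toep {Ψ : T → E →L[ℂ] E} (h : MemLp Ψ ∞ μ) (x : H2 E) :
    ‖toeplitz h.toLp (S x)‖ ^ 2 = ‖toeplitz h.toLp x‖ ^ 2 + ‖cf h x‖ ^ 2 := by
  have := norm_proj_Z (M h (x : Lp E 2 μ))
  rw [show Z 1 (M h (x : Lp E 2 μ)) = M h (S x : H2 E) from (M_N h _ _).symm] at this
  exact this

lemma adj_toep {Φ : T → E →L[ℂ] E} (h0 : MemLp Φ ∞ μ) (h : MemLp (fun t => star (Φ t)) ∞ μ) :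
    ContinuousLinearMap.adjoint (toeplitz h0.toLp) = toeplitz h.toLp := by
  symm
  rw [ContinuousLinearMap.eq_adjoint_iff]
  intro x y
  have e1 : ⟪toeplitz h.toLp x, y⟫_ℂ = ⟪M h (x : Lp E 2 μ), (y : Lp E 2 μ)⟫_ℂ :=
    Submodule.inner_orthogonalProjectionOnto_eq_of_mem_right y _
  have e2 : ⟪x, toeplitz h0.toLp y⟫_ℂ = ⟪(x : Lp E 2 μ), M h0 (y : Lp E 2 μ)⟫_ℂ :=
    Submodule.inner_orthogonalProjectionOnto_eq_of_mem_left x _
  rw [e1, e2, L2.inner_def, L2.inner_def]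
  apply integral_congr_ae
  filter_upwards [M_ae h (x : Lp E 2 μ), M_ae h0 (y : Lp E 2 μ)] with t h1 h2
  rw [h1, h2, ContinuousLinearMap.star_eq_adjoint, ContinuousLinearMap.adjoint_inner_left]

lemma fin_sqrt {H : Type} [NormedAddCommGroup H] [InnerProductSpace ℂ H] [CompleteSpace H]
    (F : H →L[ℂ] H) (hF : F.IsPositive) (hfin : FiniteDimensional ℂ (LinearMap.range F.toLinearMap)) :
    ∃ (X : Type) (_ : NormedAddCommGroup X) (_ : InnerProductSpace ℂ X)
      (_ : FiniteDimensional ℂ X) (G : H →L[ℂ] X), Function.Surjective G ∧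
      Module.finrank ℂ X = Module.finrank ℂ (LinearMap.range F.toLinearMap) ∧
      ∀ x, ‖G x‖ ^ 2 = RCLike.re ⟪x, F x⟫_ℂ := by
  obtain ⟨G, rfl⟩ := CStarAlgebra.nonneg_iff_eq_star_mul_self.1
    ((ContinuousLinearMap.nonneg_iff_isPositive F).2 hF)
  have h1 : ∀ x, ‖G x‖ ^ 2 = RCLike.re ⟪x, (star G * G) x⟫_ℂ := fun x => by
    rw [mul_apply_eq_comp, ContinuousLinearMap.star_eq_adjoint,
      ContinuousLinearMap.adjoint_inner_right, @norm_sq_eq_re_inner ℂ]
  have hk : LinearMap.ker G.toLinearMap = LinearMap.ker (star G * G).toLinearMap := by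
    ext x
    simp only [LinearMap.mem_ker, ContinuousLinearMap.coe_coe]
    constructor
    · intro h; rw [mul_apply_eq_comp, h, map_zero]
    · intro h
      have := h1 x
      rw [h, inner_zero_right, map_zero] at this
      simpa using this
  let e := G.toLinearMap.quotKerEquivRange.symm ≪≫ₗ Submodule.quotEquivOfEq _ _ hk ≪≫ₗ
    (star G * G).toLinearMap.quotKerEquivRange
  exact ⟨LinearMap.range G.toLinearMap, inferInstance, inferInstance, e.symm.finiteDimensional,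
    G.rangeRestrict, by rintro ⟨_, x, rfl⟩; exact ⟨x, rfl⟩, e.finrank_eq, h1⟩

lemma inner_toep {Ψ : T → E →L[ℂ] E} (h : MemLp Ψ ∞ μ) (x y : H2 E) :
    ⟪y, toeplitz h.toLp x⟫_ℂ = ∫ t, ⟪(y : Lp E 2 μ) t, Ψ t ((x : Lp E 2 μ) t)⟫_ℂ ∂μ := by
  have e2 : ⟪y, toeplitz h.toLp x⟫_ℂ = ⟪(y : Lp E 2 μ), M h (x : Lp E 2 μ)⟫_ℂ :=
    Submodule.inner_orthogonalProjectionOnto_eq_of_mem_left y _
  rw [e2, L2.inner_def]
  apply integral_congr_ae
  filter_upwards [M_ae h (x : Lp E 2 μ)] with t h1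
  rw [h1]

lemma transfer {H K : Type} [NormedAddCommGroup H] [InnerProductSpace ℂ H] [CompleteSpace H]
    [NormedAddCommGroup K] [InnerProductSpace ℂ K] [CompleteSpace K] (e : H ≃ₗᵢ[ℂ] K)
    (A : H →L[ℂ] H) (B C : K →L[ℂ] K) (hC : ContinuousLinearMap.adjoint B = C)
    (h : ∀ x y, ⟪y, A x⟫_ℂ = ⟪e y, B (e x)⟫_ℂ) (F : H →L[ℂ] H)
    (hFd : F = ContinuousLinearMap.adjoint A ∘L A - A ∘L ContinuousLinearMap.adjoint A)
    (hF : F.IsPositive) (hfin : FiniteDimensional ℂ (LinearMap.range F.toLinearMap)) :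
    ∃ (X : Type) (_ : NormedAddCommGroup X) (_ : InnerProductSpace ℂ X)
      (_ : FiniteDimensional ℂ X) (G : K →L[ℂ] X), Function.Surjective G ∧
      Module.finrank ℂ X = Module.finrank ℂ (LinearMap.range F.toLinearMap) ∧
      ∀ x, ‖G x‖ ^ 2 = ‖B x‖ ^ 2 - ‖C x‖ ^ 2 := by
  obtain ⟨X, _, _, _, G, hG1, hG2, hG3⟩ := fin_sqrt F hF hfin
  have h1 : ∀ x, e (A x) = B (e x) := fun x => ext_inner_left ℂ fun w => by
    obtain ⟨y, rfl⟩ := e.surjective w
    rw [e.inner_map_map, h]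
  have h2 : ∀ x, e (ContinuousLinearMap.adjoint A x) = C (e x) := fun x =>
    ext_inner_left ℂ fun w => by
      obtain ⟨y, rfl⟩ := e.surjective w
      rw [e.inner_map_map, ← hC, ContinuousLinearMap.adjoint_inner_right,
        ContinuousLinearMap.adjoint_inner_right, ← h1, e.inner_map_map]
  refine ⟨X, inferInstance, inferInstance, inferInstance,
    G ∘L e.symm.toContinuousLinearEquiv.toContinuousLinearMap, hG1.comp e.symm.surjective, hG2,
    fun x => ?_⟩
  obtain ⟨y, rfl⟩ := e.surjective x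
  rw [← h1, ← h2, e.norm_map, e.norm_map]
  have : (G ∘L e.symm.toContinuousLinearEquiv.toContinuousLinearMap) (e y) = G y := by simp
  rw [this, hG3, hFd, sub_apply, inner_sub_right, map_sub,
    ContinuousLinearMap.comp_apply, ContinuousLinearMap.comp_apply,
    ContinuousLinearMap.adjoint_inner_right, ← ContinuousLinearMap.adjoint_inner_left A _ y,
    @norm_sq_eq_re_inner ℂ, @norm_sq_eq_re_inner ℂ]

theorem main [FiniteDimensional ℂ E] {H : Type} [NormedAddCommGroup H] [InnerProductSpace ℂ H]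
    [CompleteSpace H] (j : H →ₗᵢ[ℂ] Lp E 2 μ)
    (hj : ∀ f : Lp E 2 μ, f ∈ Set.range j ↔ ∀ k < 0, fourierCoeff f k = 0)
    {Φ : T → E →L[ℂ] E} (h0 : MemLp Φ ∞ μ) (A : H →L[ℂ] H)
    (hA : ∀ x y, ⟪y, A x⟫_ℂ = ∫ t, ⟪j y t, Φ t (j x t)⟫_ℂ ∂μ) (F : H →L[ℂ] H)
    (hFd : F = ContinuousLinearMap.adjoint A ∘L A - A ∘L ContinuousLinearMap.adjoint A)
    (hF : F.IsPositive) (hfin : FiniteDimensional ℂ (LinearMap.range F.toLinearMap)) :
    ∃ ν ∈ unitary (E →L[ℂ] E), ∃ L : List (ℂ × (E →L[ℂ] E)), Valid L ∧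
      L.length = Module.finrank ℂ (LinearMap.range F.toLinearMap) ∧
      MemLp (fun t => Φ t - bpp ν L (fourier 1 t) * star (Φ t)) ∞ μ ∧
      ∀ k < 0, fourierCoeff (fun t => Φ t - bpp ν L (fourier 1 t) * star (Φ t)) k = 0 := by
  have hs : MemLp (fun t => star (Φ t)) ∞ μ := h0.star
  let j' : H →ₗᵢ[ℂ] H2 E :=
    { toLinearMap := j.toLinearMap.codRestrict (H2 E) fun x => (hj _).1 ⟨x, rfl⟩
      norm_map' := fun x => j.norm_map x }
  let e : H ≃ₗᵢ[ℂ] H2 E := LinearIsometryEquiv.ofSurjective j' fun y => by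
    obtain ⟨x, hx⟩ := (hj y).2 y.2
    exact ⟨x, Subtype.ext hx⟩
  obtain ⟨X, _, _, _, G, hG1, hG2, hq⟩ := transfer e A (toeplitz h0.toLp) (toeplitz hs.toLp)
    (adj_toep h0 hs) (fun x y => by rw [hA]; exact (inner_toep h0 (e x) (e y)).symm) F hFd hF hfin
  obtain ⟨ν, hν, L, hL, hlen, hg⟩ := peel (cf h0) _ X hG2 G hG1 hs (fun h => by
      rw [hq, hq, norm_toep, norm_toep]; ring)
  have hm := memLp_mul (memLp_cont (bpp_cont ν fun d hd => (hL d hd).1)) hs
  refine ⟨ν, hν, L, hL, hlen, h0.sub hm, fun k hk => ?_⟩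
  ext x
  have hx : Z (-1 - k) (ev x) ∈ H2 E := mem_H2.2 fun j hj => by
    rw [coL_Z, coL_ev, if_neg (by omega)]
  have h1 := hg ⟨_, hx⟩
  rw [cf_apply, cf_apply] at h1
  have e : ∀ {Ψ : T → E →L[ℂ] E} (h : MemLp Ψ ∞ μ),
      coL (-1) (M h (Z (-1 - k) (ev x))) = coL k (M h (ev x)) := fun h => by
    rw [show M h (Z (-1 - k) (ev x)) = Z (-1 - k) (M h (ev x)) from M_N h _ _, coL_Z]
    congr 2; ring
  rw [e, e] at h1
  refine (coef_apply (h0.sub hm) k x).trans ?_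
  rw [M_sub h0 hm, map_sub, h1, sub_self]; rfl

lemma bl_an {a z : ℂ} (ha : ‖a‖ < 1) (hz : ‖z‖ < 1) : AnalyticAt ℂ (bl a) z := by
  unfold bl
  exact AnalyticAt.div (by fun_prop) (by fun_prop) (den_ne ha hz.le)

lemma order_bl {a z : ℂ} (ha : ‖a‖ < 1) (hz : ‖z‖ < 1) :
    analyticOrderAt (bl a) z = if a = z then 1 else 0 := by
  have hd := den_ne ha hz.le
  split_ifs with h
  · subst h
    rw [show (1 : ℕ∞) = (1 : ℕ) from rfl, (bl_an ha hz).analyticOrderAt_eq_natCast]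
    refine ⟨fun w => (1 - conj a * w)⁻¹, AnalyticAt.inv (by fun_prop) hd, inv_ne_zero hd,
      Eventually.of_forall fun w => by simp [bl, div_eq_mul_inv]⟩
  · rw [(bl_an ha hz).analyticOrderAt_eq_zero]
    exact div_ne_zero (sub_ne_zero.2 (Ne.symm h)) hd

lemma order_prod {c : ℂ} (hc : c ≠ 0) (L : List ℂ) (hL : ∀ a ∈ L, ‖a‖ < 1) {z : ℂ} (hz : ‖z‖ < 1) :
    AnalyticAt ℂ (fun w => c * (L.map fun a => bl a w).prod) z ∧
      analyticOrderAt (fun w => c * (L.map fun a => bl a w).prod) z = L.count z := by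
  induction L with
  | nil =>
    simp only [List.map_nil, List.prod_nil, mul_one, List.count_nil, Nat.cast_zero]
    exact ⟨analyticAt_const, analyticAt_const.analyticOrderAt_eq_zero.2 hc⟩
  | cons a L ih =>
    obtain ⟨h1, h2⟩ := ih fun b hb => hL b (by simp [hb])
    have ha := hL a (by simp)
    have e : (fun w => c * ((a :: L).map fun a => bl a w).prod) =
        (fun w => c * (L.map fun a => bl a w).prod) * bl a := by
      funext w; simp only [List.map_cons, List.prod_cons, Pi.mul_apply]; ring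
    rw [e]
    refine ⟨h1.mul (bl_an ha hz), ?_⟩
    rw [analyticOrderAt_mul h1 (bl_an ha hz), h2, order_bl ha hz, List.count_cons]
    by_cases h : a = z <;> simp [h]

lemma zeros_bpp [FiniteDimensional ℂ E] {ν : E →L[ℂ] E} (hν : ν ∈ unitary (E →L[ℂ] E))
    {L : List (ℂ × (E →L[ℂ] E))} (hL : Valid L) :
    ∑ᶠ z ∈ Metric.ball (0 : ℂ) 1, analyticOrderNatAt (fun w => (bpp ν L w).det) z = L.length := by
  have hc : ν.det ≠ 0 := by
    have h := congrArg ContinuousLinearMap.det (Unitary.star_mul_self_of_mem hν)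
    rw [ContinuousLinearMap.det, ContinuousLinearMap.toLinearMap_mul, map_mul] at h
    intro h0
    rw [show LinearMap.det (ν : E →ₗ[ℂ] E) = 0 from h0, mul_zero] at h
    exact zero_ne_one (h.trans (map_one LinearMap.det))
  have h1 : ∀ a ∈ L.map Prod.fst, ‖a‖ < 1 := by
    intro a ha
    obtain ⟨d, hd, rfl⟩ := List.mem_map.1 ha
    exact (hL d hd).1
  have e : (fun w => (bpp ν L w).det) =
      fun w => ν.det * ((L.map Prod.fst).map fun a => bl a w).prod := by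
    funext w; rw [det_bpp ν hL, List.map_map]; rfl
  rw [e, finsum_mem_congr rfl (g := fun z => (L.map Prod.fst).count z) (fun z hz => by
    rw [analyticOrderNatAt, (order_prod hc _ h1 (by simpa using hz)).2]; simp),
    finsum_mem_eq_sum_of_inter_support_eq _ (t := (L.map Prod.fst).toFinset),
    List.sum_toFinset_count_eq_length, List.length_map]
  ext z
  simp only [Set.mem_inter_iff, Function.mem_support, ne_eq, List.count_eq_zero, not_not,
    List.coe_toFinset, Set.mem_ofPred_eq]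
  exact ⟨fun h => ⟨h.2, h.2⟩, fun h => ⟨by simpa using h1 z h.1, h.1⟩⟩

end Pool.Agent.H1.Bt
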