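import Mathlib

set_option autoImplicit false

namespace Pool.Agent.H1.BwA

open Matrix Finset
open scoped ComplexOrder

variable {m n : Type} [Fintype m] [Fintype n]

noncomputable def fro (Y : Matrix m n ℂ) : ℝ := (trace (Y * Yᴴ)).re

noncomputable def E (Y : Matrix m n ℂ) : EuclideanSpace ℂ (m × n) :=
  WithLp.toLp 2 fun p => Y p.1 p.2

lemma fro_eq (Y : Matrix m n ℂ) : fro Y = ∑ i, ∑ j, ‖Y i j‖ ^ 2 := by
  simp only [fro, trace, Matrix.diag, mul_apply, conjTranspose_apply, Complex.re_sum]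
  refine sum_congr rfl fun i _ => sum_congr rfl fun j _ => ?_
  rw [Complex.star_def, Complex.mul_conj, Complex.ofReal_re, Complex.normSq_eq_norm_sq]

lemma fro_nonneg (Y : Matrix m n ℂ) : 0 ≤ fro Y := by rw [fro_eq]; positivity

lemma E_norm (Y : Matrix m n ℂ) : ‖E Y‖ ^ 2 = fro Y := by
  rw [EuclideanSpace.norm_sq_eq, fro_eq, Fintype.sum_prod_type]; rfl

lemma E_inner (Y Z : Matrix m n ℂ) : inner ℂ (E Y) (E Z) = trace (Z * Yᴴ) := by
  simp only [E, PiLp.inner_apply, trace, Matrix.diag, mul_apply, conjTranspose_apply,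
    Fintype.sum_prod_type]
  rfl

lemma fro_ct (Y : Matrix m n ℂ) : fro Yᴴ = fro Y := by
  simp only [fro, conjTranspose_conjTranspose]; rw [trace_mul_comm]

lemma fro_neg (Y : Matrix m n ℂ) : fro (-Y) = fro Y := by simp [fro]

lemma fro_left {k : Type} [Fintype k] [DecidableEq m] (U : Matrix k m ℂ) (hU : Uᴴ * U = 1)
    (Y : Matrix m n ℂ) : fro (U * Y) = fro Y := by
  rw [← fro_ct, ← fro_ct Y]
  simp only [fro, conjTranspose_conjTranspose, conjTranspose_mul]
  rw [Matrix.mul_assoc, ← Matrix.mul_assoc Uᴴ, hU, Matrix.one_mul]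

lemma fro_conj [DecidableEq n] (U V : Matrix n n ℂ) (hU : U * Uᴴ = 1) (hV : V * Vᴴ = 1)
    (Y : Matrix n n ℂ) : fro (Uᴴ * Y * V) = fro Y := by
  rw [← fro_ct, conjTranspose_mul, fro_left _ (by simpa using hV), fro_ct,
    fro_left _ (by simpa using hU)]

lemma svd [DecidableEq n] (G : Matrix n n ℂ) (μ : n → ℝ) (hμ : ∀ i, 0 ≤ μ i)
    (h : Gᴴ * G = diagonal fun i => (μ i : ℂ)) :
    ∃ W : Matrix n n ℂ, W * Wᴴ = 1 ∧ G = W * diagonal fun i => (√(μ i) : ℂ) := by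
  have hin : ∀ i j, ∑ k, star (G k i) * G k j = if i = j then (μ i : ℂ) else 0 := by
    intro i j
    have := congrFun (congrFun h i) j
    simpa [mul_apply, diagonal_apply] using this
  let v : n → EuclideanSpace ℂ n := fun i => WithLp.toLp 2 fun k => G k i / (√(μ i) : ℂ)
  have hv : Orthonormal ℂ (Set.domRestrict {i | μ i ≠ 0} v) := by
    rw [orthonormal_iff_ite]
    rintro ⟨i, hi⟩ ⟨j, hj⟩
    have hi' : (√(μ i) : ℂ) ≠ 0 := by
      exact_mod_cast (Real.sqrt_pos.2 (lt_of_le_of_ne (hμ i) (Ne.symm hi))).ne'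
    have e : inner ℂ (v i) (v j) = (∑ k, star (G k i) * G k j) / ((√(μ i) : ℂ) * (√(μ j) : ℂ)) := by
      simp only [v, PiLp.inner_apply, sum_div]
      refine sum_congr rfl fun k _ => ?_
      simp [div_mul_div_comm, mul_comm]
    change inner ℂ (v i) (v j) = _
    simp only [e, hin, Subtype.mk.injEq]
    split_ifs with hij
    · subst hij
      rw [div_eq_one_iff_eq (mul_ne_zero hi' hi')]
      exact_mod_cast (Real.mul_self_sqrt (hμ i)).symm
    · simp
  obtain ⟨b, hb⟩ := hv.exists_orthonormalBasis_extension_of_card_eq (by simp)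
  refine ⟨Matrix.of fun k i => b i k, ?_, ?_⟩
  · rw [mul_eq_one_comm]
    ext i j
    have := (orthonormal_iff_ite.1 b.orthonormal) i j
    simp only [PiLp.inner_apply] at this
    simp only [mul_apply, conjTranspose_apply, of_apply, one_apply, ← this]
    refine sum_congr rfl fun k _ => ?_
    simp [mul_comm]
  · ext k i
    rw [mul_diagonal, of_apply]
    by_cases hi : μ i = 0
    · have h1 := hin i i
      simp only [if_true, hi, Complex.ofReal_zero] at h1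
      have h2 := (sum_eq_zero_iff_of_nonneg (fun k _ => star_mul_self_nonneg (G k i))).1 h1 k
        (mem_univ k)
      simpa [hi] using h2
    · have hi' : (√(μ i) : ℂ) ≠ 0 := by
        exact_mod_cast (Real.sqrt_pos.2 (lt_of_le_of_ne (hμ i) (Ne.symm hi))).ne'
      rw [hb i hi]
      simp [v, hi']

lemma entry (a b : ℝ) (ha : 0 ≤ a) (hb : 0 ≤ b) (x y : ℂ) :
    ‖(√a : ℂ) * x - y * (√b : ℂ)‖ ^ 2 ≤ (a + b) * (‖x‖ ^ 2 + ‖y‖ ^ 2) := by
  have h1 : ‖(√a : ℂ) * x - y * (√b : ℂ)‖ ≤ √a * ‖x‖ + ‖y‖ * √b := by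
    refine (norm_sub_le _ _).trans (le_of_eq ?_)
    simp [abs_of_nonneg (Real.sqrt_nonneg _)]
  have h2 := pow_le_pow_left₀ (norm_nonneg _) h1 2
  have h3 := Real.sq_sqrt ha
  have h4 := Real.sq_sqrt hb
  nlinarith [sq_nonneg (√a * ‖y‖ - ‖x‖ * √b)]

lemma special [DecidableEq n] (X V : Matrix n n ℂ) (hV : V * Vᴴ = 1) (μ : n → ℝ)
    (hμ : ∀ i, 0 ≤ μ i) (h : (X * V)ᴴ * (X * V) = diagonal fun i => (μ i : ℂ)) (K : ℝ) (i0 : n)
    (h0 : μ i0 ≤ K) (h1 : ∀ i j, ¬(i = i0 ∧ j = i0) → μ i + μ j ≤ K)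
    (Y : Matrix n n ℂ) (hY : (Vᴴ * Y * V) i0 i0 = 0) : fro (X * Y - Y * X) ≤ 2 * K * fro Y := by
  obtain ⟨W, hW, hG⟩ := svd (X * V) μ hμ h
  have hW' : Wᴴ * W = 1 := mul_eq_one_comm.1 hW
  have hX : X = W * diagonal (fun i => (√(μ i) : ℂ)) * Vᴴ := by
    rw [← hG, Matrix.mul_assoc, hV, Matrix.mul_one]
  have e : Wᴴ * (X * Y - Y * X) * V = diagonal (fun i => (√(μ i) : ℂ)) * (Vᴴ * Y * V) -
      (Wᴴ * Y * W) * diagonal (fun i => (√(μ i) : ℂ)) := by
    rw [Matrix.mul_sub, Matrix.sub_mul]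
    congr 1
    · conv_lhs => rw [hX]
      simp only [← Matrix.mul_assoc, hW', Matrix.one_mul]
    · simp only [Matrix.mul_assoc, hG]
  have hK : 0 ≤ K := (hμ i0).trans h0
  rw [← fro_conj W V hW hV, e]
  have e2 : 2 * K * fro Y = K * (fro (Vᴴ * Y * V) + fro (Wᴴ * Y * W)) := by
    rw [fro_conj V V hV hV, fro_conj W W hW hW]; ring
  rw [e2, fro_eq, fro_eq, fro_eq, ← sum_add_distrib, mul_sum]
  refine sum_le_sum fun i _ => ?_
  rw [← sum_add_distrib, mul_sum]
  refine sum_le_sum fun j _ => ?_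
  rw [Matrix.sub_apply, diagonal_mul, mul_diagonal]
  by_cases hij : i = i0 ∧ j = i0
  · obtain ⟨rfl, rfl⟩ := hij
    rw [hY]
    simp only [mul_zero, zero_sub, norm_neg, norm_mul, mul_pow, norm_zero, Complex.norm_real,
      Real.norm_eq_abs, sq_abs, Real.sq_sqrt (hμ _)]
    nlinarith [sq_nonneg ‖(Wᴴ * Y * W) j j‖]
  · exact (entry _ _ (hμ i) (hμ j) _ _).trans
      (mul_le_mul_of_nonneg_right (h1 i j hij) (by positivity))

lemma fro_par (Y Z : Matrix m n ℂ) (c : ℂ) :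
    fro (Z + c • Y) + fro (Z - c • Y) = 2 * fro Z + 2 * ‖c‖ ^ 2 * fro Y := by
  have e1 : E (Z + c • Y) = E Z + c • E Y := rfl
  have e2 : E (Z - c • Y) = E Z - c • E Y := rfl
  have := parallelogram_law_with_norm ℂ (E Z) (c • E Y)
  simp only [← E_norm, e1, e2]
  rw [norm_smul] at this
  nlinarith

lemma exists_max [DecidableEq n] [Nonempty n] (X : Matrix n n ℂ) :
    ∃ Y : Matrix n n ℂ, fro Y = 1 ∧ ∀ Z, fro (X * Z - Z * X) ≤ fro (X * Y - Y * X) * fro Z := by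
  let M : EuclideanSpace ℂ (n × n) → Matrix n n ℂ := fun y => Matrix.of fun i j => y (i, j)
  let L : EuclideanSpace ℂ (n × n) →ₗ[ℂ] EuclideanSpace ℂ (n × n) :=
    { toFun := fun y => E (X * M y - M y * X)
      map_add' := fun y z => by
        have : M (y + z) = M y + M z := rfl
        rw [this, Matrix.mul_add, Matrix.add_mul, add_sub_add_comm]; rfl
      map_smul' := fun c y => by
        have : M (c • y) = c • M y := rfl
        rw [this, Matrix.mul_smul, Matrix.smul_mul, ← smul_sub]; rfl }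
  obtain ⟨y, hy, hmax⟩ := (isCompact_sphere (0 : EuclideanSpace ℂ (n × n)) 1).exists_isMaxOn
    (NormedSpace.sphere_nonempty.2 zero_le_one)
    (L.continuous_of_finiteDimensional.norm.continuousOn)
  have hy1 : ‖y‖ = 1 := by simpa using hy
  refine ⟨M y, ?_, fun Z => ?_⟩
  · rw [← E_norm]
    have : E (M y) = y := rfl
    rw [this, hy1]; norm_num
  · have h1 : ‖L (E Z)‖ ≤ ‖L y‖ * ‖E Z‖ := by
      by_cases hz : E Z = 0
      · simp [hz]
      · have hn : 0 < ‖E Z‖ := norm_pos_iff.2 hz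
        have h2 : ‖L (((‖E Z‖⁻¹ : ℝ) : ℂ) • E Z)‖ ≤ ‖L y‖ :=
          hmax (by simp [norm_smul, hn.ne'])
        rw [map_smul, norm_smul, Complex.norm_real, Real.norm_of_nonneg (by positivity),
          inv_mul_le_iff₀ hn] at h2
        linarith
    have h2 := pow_le_pow_left₀ (norm_nonneg _) h1 2
    rw [mul_pow] at h2
    simp only [← E_norm]
    exact h2

theorem bw [DecidableEq n] (X V : Matrix n n ℂ) (hV : V * Vᴴ = 1) (μ : n → ℝ)
    (hμ : ∀ i, 0 ≤ μ i) (h : (X * V)ᴴ * (X * V) = diagonal fun i => (μ i : ℂ)) (K : ℝ) (i0 : n)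
    (h0 : μ i0 ≤ K) (h1 : ∀ i j, ¬(i = i0 ∧ j = i0) → μ i + μ j ≤ K)
    (Z : Matrix n n ℂ) : fro (X * Z - Z * X) ≤ 2 * K * fro Z := by
  haveI : Nonempty n := ⟨i0⟩
  obtain ⟨Y, hY, hmax⟩ := exists_max X
  have hK : 0 ≤ K := (hμ i0).trans h0
  suffices hs : fro (X * Y - Y * X) ≤ 2 * K from
    (hmax Z).trans (mul_le_mul_of_nonneg_right hs (fro_nonneg Z))
  by_cases hy : (Vᴴ * Y * V) i0 i0 = 0
  · simpa [hY] using special X V hV μ hμ h K i0 h0 h1 Y hy
  set W := X * Y - Y * X with hW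
  have hα := fro_nonneg W
  -- `Wᴴ` is also a maximiser
  have hW1 : fro W * fro Wᴴ ≤ fro (X * Wᴴ - Wᴴ * X) := by
    have e1 : X * Wᴴ - Wᴴ * X = -(Xᴴ * W - W * Xᴴ)ᴴ := by simp
    have e2 : inner ℂ (E (Xᴴ * W - W * Xᴴ)) (E Y) = inner ℂ (E W) (E W) := by
      rw [E_inner, E_inner]
      conv_rhs => enter [1, 1]; rw [hW]
      simp only [conjTranspose_sub, conjTranspose_mul, conjTranspose_conjTranspose, Matrix.mul_sub,
        Matrix.sub_mul, trace_sub]
      rw [← Matrix.mul_assoc, trace_mul_cycle Y, Matrix.mul_assoc Y]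
    have e3 := norm_inner_le_norm (𝕜 := ℂ) (E (Xᴴ * W - W * Xᴴ)) (E Y)
    rw [e2, inner_self_eq_norm_sq_to_K] at e3
    have e4 := pow_le_pow_left₀ (norm_nonneg _) e3 2
    rw [mul_pow, E_norm, E_norm, hY] at e4
    simp only [norm_pow, RCLike.norm_ofReal, abs_norm, E_norm] at e4
    rw [e1, fro_neg, fro_ct, fro_ct]
    nlinarith
  set c : ℂ := -((Vᴴ * Wᴴ * V) i0 i0 / (Vᴴ * Y * V) i0 i0) with hc
  have hz : (Vᴴ * (Wᴴ + c • Y) * V) i0 i0 = 0 := by
    rw [Matrix.mul_add, Matrix.add_mul, Matrix.mul_smul, Matrix.smul_mul, Matrix.add_apply, Matrix.smul_apply,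
      hc, smul_eq_mul]
    field_simp
    ring
  have s1 := special X V hV μ hμ h K i0 h0 h1 _ hz
  have p1 := fro_par Y Wᴴ c
  have p2 := fro_par W (X * Wᴴ - Wᴴ * X) c
  have q1 : X * (Wᴴ + c • Y) - (Wᴴ + c • Y) * X = (X * Wᴴ - Wᴴ * X) + c • W := by
    rw [hW, Matrix.mul_add, Matrix.add_mul, Matrix.mul_smul, Matrix.smul_mul, smul_sub]; abel
  have q2 : X * (Wᴴ - c • Y) - (Wᴴ - c • Y) * X = (X * Wᴴ - Wᴴ * X) - c • W := by
    rw [hW, Matrix.mul_sub, Matrix.sub_mul, Matrix.mul_smul, Matrix.smul_mul, smul_sub]; abel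
  have m2 := hmax (Wᴴ - c • Y)
  rw [q2] at m2
  rw [q1] at s1
  have orth : inner ℂ (E Wᴴ) (c • E Y) = 0 := by
    rw [inner_smul_right, E_inner, conjTranspose_conjTranspose, hW, Matrix.mul_sub, trace_sub,
      ← Matrix.mul_assoc, ← Matrix.mul_assoc, trace_mul_cycle Y X Y]
    simp
  have n1 : fro Wᴴ ≤ fro (Wᴴ + c • Y) := by
    have e1 : E (Wᴴ + c • Y) = E Wᴴ + c • E Y := rfl
    have := norm_add_sq_eq_norm_sq_add_norm_sq_of_inner_eq_zero _ _ orth
    rw [← E_norm, ← E_norm, e1]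
    nlinarith [norm_nonneg (c • E Y)]
  rw [hY] at p1
  have key : fro W * fro (Wᴴ + c • Y) ≤ 2 * K * fro (Wᴴ + c • Y) := by
    have : fro (Wᴴ - c • Y) = 2 * fro Wᴴ + 2 * ‖c‖ ^ 2 * 1 - fro (Wᴴ + c • Y) := by linarith
    rw [this] at m2
    nlinarith
  rw [fro_ct] at n1
  by_contra hlt
  push Not at hlt
  have : 0 < fro (Wᴴ + c • Y) := by linarith
  nlinarith

theorem three [DecidableEq m] [DecidableEq n] (A C : Matrix m n ℂ) (B : Matrix n m ℂ)
    (V : Matrix n n ℂ) (hV : V * Vᴴ = 1) (μ : n → ℝ)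
    (hμ : ∀ i, 0 ≤ μ i) (h : (A * V)ᴴ * (A * V) = diagonal fun i => (μ i : ℂ)) (a b : ℝ) (i0 : n)
    (hb : 0 ≤ b) (h0 : ∀ i, μ i ≤ a) (h1 : ∀ i, i ≠ i0 → μ i ≤ b) (hba : b ≤ a)
    (hB : (1 - Bᴴ * B).PosSemidef) :
    fro (A * B * C - C * B * A) ≤ 2 * (a + b) * fro C := by
  open scoped MatrixOrder in
  obtain ⟨D, hD⟩ := CStarAlgebra.nonneg_iff_eq_star_mul_self.mp hB.nonneg
  rw [star_eq_conjTranspose] at hD
  have hU : (fromRows B D)ᴴ * fromRows B D = 1 := by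
    rw [conjTranspose_fromRows_eq_fromCols_conjTranspose, fromCols_mul_fromRows, ← hD]; abel
  set U := fromRows B D with hUdef
  have hAU : ∀ M : Matrix m n ℂ, fromCols M (0 : Matrix m m ℂ) * U = M * B := by
    intro M; rw [hUdef, fromCols_mul_fromRows]; simp
  have hf : ∀ M : Matrix m n ℂ, fro (fromCols M (0 : Matrix m m ℂ)) = fro M := by
    intro M; simp [fro_eq, Fintype.sum_sum_type]
  have key := bw (U * fromCols A (0 : Matrix m m ℂ)) (fromBlocks V 0 0 (1 : Matrix m m ℂ))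
    (by simp [fromBlocks_conjTranspose, fromBlocks_multiply, hV, fromBlocks_one])
    (Sum.elim μ fun _ => 0) (by rintro (i | i) <;> simp [hμ]) ?_ (a + b) (Sum.inl i0)
    (by simp only [Sum.elim_inl]; linarith [h0 i0]) ?_ (U * fromCols C (0 : Matrix m m ℂ))
  · have e : U * fromCols A (0 : Matrix m m ℂ) * (U * fromCols C (0 : Matrix m m ℂ)) -
        U * fromCols C (0 : Matrix m m ℂ) * (U * fromCols A (0 : Matrix m m ℂ)) =
        U * fromCols (A * B * C - C * B * A) (0 : Matrix m m ℂ) := by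
      rw [Matrix.mul_assoc U, Matrix.mul_assoc U, ← Matrix.mul_sub, ← Matrix.mul_assoc _ U,
        ← Matrix.mul_assoc _ U, hAU, hAU, mul_fromCols, mul_fromCols]
      congr 1
      ext i (j | j) <;> simp
    rwa [e, fro_left U hU, fro_left U hU, hf, hf] at key
  · rw [Matrix.mul_assoc U, conjTranspose_mul U, Matrix.mul_assoc, ← Matrix.mul_assoc Uᴴ, hU,
      Matrix.one_mul, fromCols_mul_fromBlocks, conjTranspose_fromCols_eq_fromRows_conjTranspose,
      fromRows_mul_fromCols]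
    simp only [Matrix.mul_zero, Matrix.zero_mul, add_zero, conjTranspose_zero, h]
    ext (i | i) (j | j) <;> simp [diagonal_apply]
  · have hb' : ∀ i : n ⊕ m, i ≠ Sum.inl i0 → Sum.elim μ (fun _ => (0 : ℝ)) i ≤ b := by
      rintro (i | i) hi
      · exact h1 i fun h => hi (by rw [h])
      · exact hb
    have ha' : ∀ i : n ⊕ m, Sum.elim μ (fun _ => (0 : ℝ)) i ≤ a := by
      rintro (i | i)
      · exact h0 i
      · exact hb.trans hba
    intro i j hij
    by_cases hi : i = Sum.inl i0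
    · linarith [ha' i, hb' j fun hj => hij ⟨hi, hj⟩]
    · linarith [hb' i hi, ha' j]

lemma diagz [DecidableEq n] (A : Matrix m n ℂ) :
    ∃ V : Matrix n n ℂ, V * Vᴴ = 1 ∧ (A * V)ᴴ * (A * V) =
      diagonal fun i => ((isHermitian_conjTranspose_mul_self A).eigenvalues i : ℂ) := by
  have hH := isHermitian_conjTranspose_mul_self A
  refine ⟨hH.eigenvectorUnitary, ?_, ?_⟩
  · exact hH.eigenvectorUnitary.2.2
  · have := hH.conjStarAlgAut_star_eigenvectorUnitary
    rw [Unitary.conjStarAlgAut_apply] at this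
    rw [conjTranspose_mul, Matrix.mul_assoc, ← Matrix.mul_assoc Aᴴ, ← Matrix.mul_assoc]
    simpa [star_eq_conjTranspose, Function.comp_def] using this

end Pool.Agent.H1.BwA
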