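import Mathlib

set_option autoImplicit false

namespace Pool.Agent.H1.CC

open Complex Filter Topology Finset
open scoped Nat

noncomputable def egf (u : ℕ → ℂ) (t : ℂ) : ℂ := ∑' n, u n * t ^ n / (n ! : ℂ)

lemma norm_term_le {u : ℕ → ℂ} {M R : ℝ} (h : ∀ n, ‖u n‖ ≤ M * R ^ n) (t : ℂ) (n : ℕ) :
    ‖u n * t ^ n / (n ! : ℂ)‖ ≤ M * ((R * ‖t‖) ^ n / n !) := by
  rw [norm_div, norm_mul, norm_pow, Complex.norm_natCast, mul_pow, ← mul_div_assoc, ← mul_assoc]
  gcongr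
  exact h n

lemma hasSum_exp (x : ℝ) : HasSum (fun n : ℕ => x ^ n / n !) (Real.exp x) := by
  rw [Real.exp_eq_exp_ℝ]
  exact NormedSpace.expSeries_div_hasSum_exp x

lemma hasSum_cexp (x : ℂ) : HasSum (fun n : ℕ => x ^ n / (n ! : ℂ)) (Complex.exp x) := by
  rw [Complex.exp_eq_exp_ℂ]
  exact NormedSpace.expSeries_div_hasSum_exp x

lemma summable_norm_term {u : ℕ → ℂ} {M R : ℝ} (h : ∀ n, ‖u n‖ ≤ M * R ^ n) (t : ℂ) :
    Summable fun n => ‖u n * t ^ n / (n ! : ℂ)‖ :=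
  Summable.of_nonneg_of_le (fun _ => norm_nonneg _) (norm_term_le h t)
    ((hasSum_exp _).summable.mul_left M)

lemma hasSum_egf {u : ℕ → ℂ} {M R : ℝ} (h : ∀ n, ‖u n‖ ≤ M * R ^ n) (t : ℂ) :
    HasSum (fun n => u n * t ^ n / (n ! : ℂ)) (egf u t) :=
  (summable_norm_term h t).of_norm.hasSum

lemma norm_egf_le {u : ℕ → ℂ} {M R : ℝ} (h : ∀ n, ‖u n‖ ≤ M * R ^ n) (t : ℂ) :
    ‖egf u t‖ ≤ M * Real.exp (R * ‖t‖) :=
  (hasSum_egf h t).norm_le_of_bounded ((hasSum_exp _).mul_left M) (norm_term_le h t)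

lemma differentiable_egf {u : ℕ → ℂ} {M R : ℝ} (hM : 0 ≤ M) (hR : 0 ≤ R)
    (h : ∀ n, ‖u n‖ ≤ M * R ^ n) : Differentiable ℂ (egf u) := by
  intro t
  have hd : DifferentiableOn ℂ (egf u) (Metric.ball 0 (‖t‖ + 1)) := by
    refine differentiableOn_tsum_of_summable_norm
      (u := fun n => M * ((R * (‖t‖ + 1)) ^ n / n !)) ((hasSum_exp _).summable.mul_left M)
      (fun n => by fun_prop) Metric.isOpen_ball (fun n w hw => ?_)
    refine (norm_term_le h w n).trans ?_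
    have : ‖w‖ ≤ ‖t‖ + 1 := by simpa using (mem_ball_zero_iff.1 hw).le
    gcongr
  exact hd.differentiableAt (Metric.isOpen_ball.mem_nhds (by simp))

lemma eq_zero_of_egf {u : ℕ → ℂ} {M R : ℝ} (h : ∀ n, ‖u n‖ ≤ M * R ^ n)
    (h0 : ∀ t, egf u t = 0) (n : ℕ) : u n = 0 := by
  have hp : HasFPowerSeriesAt (0 : ℂ → ℂ)
      (FormalMultilinearSeries.ofScalars ℂ (fun n => u n / (n ! : ℂ))) 0 := by
    rw [hasFPowerSeriesAt_iff]
    refine Eventually.of_forall fun z => ?_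
    have := hasSum_egf h z
    rw [h0] at this
    have e : (fun n => z ^ n • (FormalMultilinearSeries.ofScalars ℂ
        (fun n => u n / (n ! : ℂ))).coeff n) = fun n => u n * z ^ n / (n ! : ℂ) := by
      funext n
      simp only [FormalMultilinearSeries.coeff_ofScalars, smul_eq_mul]
      ring
    rw [e]
    exact this
  have h1 := hp.eq_zero
  have h2 : (FormalMultilinearSeries.ofScalars ℂ (fun n => u n / (n ! : ℂ))).coeff n = 0 := by
    rw [h1]; rfl
  simp only [FormalMultilinearSeries.coeff_ofScalars] at h2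
  have : (n ! : ℂ) ≠ 0 := by exact_mod_cast n.factorial_ne_zero
  simpa [this] using h2

lemma egf_conv {η a : ℕ → ℂ} {M R : ℝ} (h : ∀ n, ‖η n‖ ≤ M * R ^ n) (c : ℂ)
    (ha : ∀ n, a n = ∑ p ∈ antidiagonal n, (n.choose p.1 : ℂ) * c ^ p.1 * η p.2) (t : ℂ) :
    egf a t = Complex.exp (c * t) * egf η t := by
  have h1 : Summable fun n : ℕ => ‖(c * t) ^ n / (n ! : ℂ)‖ := by
    have := summable_norm_term (u := fun n => c ^ n) (M := 1) (R := ‖c‖) (fun n => by simp) t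
    simpa [mul_pow] using this
  rw [← (hasSum_cexp (c * t)).tsum_eq, egf, egf,
    tsum_mul_tsum_eq_tsum_sum_antidiagonal_of_summable_norm h1 (summable_norm_term h t)]
  refine tsum_congr fun n => ?_
  rw [ha, Finset.sum_mul, Finset.sum_div]
  refine Finset.sum_congr rfl fun p hp => ?_
  have hp' : p.1 + p.2 = n := mem_antidiagonal.1 hp
  have e : (n.choose p.1 : ℂ) * (p.1 ! : ℂ) * (p.2 ! : ℂ) = (n ! : ℂ) := by
    have := Nat.add_choose_mul_factorial_mul_factorial p.2 p.1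
    rw [add_comm p.2, hp'] at this
    have h3 : n.choose p.1 * p.1 ! * p.2 ! = n ! := by rw [← this]; ring
    exact_mod_cast h3
  have f1 : (p.1 ! : ℂ) ≠ 0 := by exact_mod_cast p.1.factorial_ne_zero
  have f2 : (p.2 ! : ℂ) ≠ 0 := by exact_mod_cast p.2.factorial_ne_zero
  have f3 : (n ! : ℂ) ≠ 0 := by exact_mod_cast n.factorial_ne_zero
  rw [← hp', pow_add, mul_pow, hp']
  field_simp
  rw [← e]; ring

/-- bounded on both axes and exponential type implies bounded -/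
lemma bounded_of_axes {G : ℂ → ℂ} (hG : Differentiable ℂ G) {K B : ℝ}
    (hB : ∀ z, ‖G z‖ ≤ K * Real.exp (B * ‖z‖)) (hre : ∀ x : ℝ, ‖G x‖ ≤ K)
    (him : ∀ x : ℝ, ‖G (x * I)‖ ≤ K) (z : ℂ) : ‖G z‖ ≤ K := by
  have hO : ∀ l : Filter ℂ, ∃ c < (2 : ℝ), ∃ B : ℝ,
      G =O[l] fun z => Real.exp (B * ‖z‖ ^ c) := fun l => by
    refine ⟨1, by norm_num, B, Asymptotics.IsBigO.of_bound K (Eventually.of_forall fun z => ?_)⟩
    simpa using hB z
  rcases le_total 0 z.re with h1 | h1 <;> rcases le_total 0 z.im with h2 | h2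
  · exact PhragmenLindelof.quadrant_I hG.diffContOnCl (hO _) (fun x _ => hre x)
      (fun x _ => him x) h1 h2
  · exact PhragmenLindelof.quadrant_IV hG.diffContOnCl (hO _) (fun x _ => hre x)
      (fun x _ => him x) h1 h2
  · exact PhragmenLindelof.quadrant_II hG.diffContOnCl (hO _) (fun x _ => hre x)
      (fun x _ => him x) h1 h2
  · exact PhragmenLindelof.quadrant_III hG.diffContOnCl (hO _) (fun x _ => hre x)
      (fun x _ => him x) h1 h2

/-- positivity step -/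
lemma pringsheim {a : ℕ → ℂ} {M R C K : ℝ} (h : ∀ n, ‖a n‖ ≤ M * R ^ n)
    (hC : ∀ n, (a n).re ≤ C) (hK : ∀ s : ℝ, 0 ≤ s → ‖egf a s‖ ≤ K * Real.exp s) (t : ℂ) :
    ‖egf a t + egf (fun n => (starRingEnd ℂ) (a n)) t‖ ≤ (4 * |C| + 2 * K) * Real.exp ‖t‖ := by
  have h' : ∀ n, ‖(starRingEnd ℂ) (a n)‖ ≤ M * R ^ n := fun n => by simpa using h n
  -- real series
  have s1 : HasSum (fun n => (a n).re * ‖t‖ ^ n / n !) (egf a (‖t‖ : ℝ)).re := by
    have := Complex.hasSum_re (hasSum_egf h (‖t‖ : ℝ))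
    convert this using 2 with n
    rw [← Complex.ofReal_pow, ← Complex.ofReal_natCast, mul_div_assoc, mul_div_assoc,
      ← Complex.ofReal_div, Complex.re_mul_ofReal]
  have s2 : HasSum (fun n => (C - (a n).re) * ‖t‖ ^ n / n !)
      (C * Real.exp ‖t‖ - (egf a (‖t‖ : ℝ)).re) := by
    have e : (fun n => (C - (a n).re) * ‖t‖ ^ n / n !) =
        fun n => C * (‖t‖ ^ n / n !) - (a n).re * ‖t‖ ^ n / n ! := by
      funext n; ring
    rw [e]
    exact ((hasSum_exp ‖t‖).mul_left C).sub s1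
  have s3 : HasSum (fun n => ((2 * (C - (a n).re) : ℝ) : ℂ) * t ^ n / (n ! : ℂ))
      (2 * C * Complex.exp t - (egf a t + egf (fun n => (starRingEnd ℂ) (a n)) t)) := by
    have e : (fun n => ((2 * (C - (a n).re) : ℝ) : ℂ) * t ^ n / (n ! : ℂ)) =
        fun n => 2 * (C : ℂ) * (t ^ n / (n ! : ℂ)) - (a n * t ^ n / (n ! : ℂ) +
          (starRingEnd ℂ) (a n) * t ^ n / (n ! : ℂ)) := by
      funext n
      rw [← add_div, ← add_mul, Complex.add_conj]
      push_cast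
      ring
    rw [e]
    exact ((hasSum_cexp t).mul_left (2 * (C : ℂ))).sub
      ((hasSum_egf h t).add (hasSum_egf h' t))
  have s4 := s3.norm_le_of_bounded (s2.mul_left 2) (fun n => by
    have : 0 ≤ C - (a n).re := sub_nonneg.2 (hC n)
    rw [norm_div, norm_mul, norm_pow, Complex.norm_natCast, Complex.norm_real,
      Real.norm_of_nonneg (by positivity)]
    apply le_of_eq; ring)
  have e1 : ‖2 * (C : ℂ) * Complex.exp t‖ ≤ 2 * |C| * Real.exp ‖t‖ := by
    rw [norm_mul, norm_mul, Complex.norm_real, Real.norm_eq_abs, Complex.norm_ofNat]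
    gcongr
    exact Complex.norm_exp_le_exp_norm t
  have e2 : -(egf a (‖t‖ : ℝ)).re ≤ K * Real.exp ‖t‖ :=
    (neg_le_abs _).trans ((Complex.abs_re_le_norm _).trans (hK _ (norm_nonneg t)))
  have e3 : C * Real.exp ‖t‖ ≤ |C| * Real.exp ‖t‖ := by gcongr; exact le_abs_self C
  set X := egf a t + egf (fun n => (starRingEnd ℂ) (a n)) t
  have e4 : ‖X‖ ≤ ‖2 * (C : ℂ) * Complex.exp t‖ + ‖2 * (C : ℂ) * Complex.exp t - X‖ := by
    have := norm_sub_le (2 * (C : ℂ) * Complex.exp t) (2 * (C : ℂ) * Complex.exp t - X)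
    simpa using this
  linarith

lemma egf_conj {a : ℕ → ℂ} (t : ℂ) :
    egf (fun n => (starRingEnd ℂ) (a n)) t = (starRingEnd ℂ) (egf a ((starRingEnd ℂ) t)) := by
  unfold egf
  rw [Complex.conj_tsum]
  refine tsum_congr fun n => ?_
  simp

end Pool.Agent.H1.CC
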