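import Mathlib
import Pool.Agent.H1.CCA

set_option autoImplicit false

namespace Pool.Agent.H1.CC

open Complex Filter Topology Finset
open scoped Nat

lemma scalar {η a : ℕ → ℂ} {M M' R C : ℝ} (h : ∀ n, ‖η n‖ ≤ M)
    (ha : ∀ n, a n = ∑ p ∈ antidiagonal n, (n.choose p.1 : ℂ) * (4 * I) ^ p.1 * η p.2)
    (hb : ∀ n, ‖a n‖ ≤ M' * R ^ n) (hC : ∀ n, (a n).re ≤ C) (n : ℕ) : η n = 0 := by
  have hM : 0 ≤ M := (norm_nonneg _).trans (h 0)
  have h1 : ∀ n, ‖η n‖ ≤ M * 1 ^ n := fun n => by simpa using h n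
  have hE := egf_conv h1 (4 * I) ha
  have hη : ∀ t, ‖egf η t‖ ≤ M * Real.exp ‖t‖ := fun t => by simpa using norm_egf_le h1 t
  have hn : ∀ t, ‖egf a t‖ = Real.exp (-4 * t.im) * ‖egf η t‖ := fun t => by
    rw [hE, norm_mul, Complex.norm_exp]
    congr 2
    simp
  have hK : ∀ s : ℝ, 0 ≤ s → ‖egf a s‖ ≤ M * Real.exp s := fun s hs => by
    rw [hn]
    have := hη s
    rw [Complex.norm_real, Real.norm_of_nonneg hs] at this
    simpa using this
  have hP := pringsheim hb hC hK
  set K := 4 * |C| + 3 * M with hKdef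
  have hK0 : M ≤ K := by have := abs_nonneg C; linarith
  -- lower half plane bound
  have hlow : ∀ t : ℂ, t.im ≤ 0 → ‖egf a t‖ ≤ K * Real.exp ‖t‖ := fun t ht => by
    have e1 := hP t
    have e2 : ‖egf (fun n => (starRingEnd ℂ) (a n)) t‖ ≤ M * Real.exp ‖t‖ := by
      rw [egf_conj, Complex.norm_conj, hn]
      have e3 := hη ((starRingEnd ℂ) t)
      rw [Complex.norm_conj] at e3
      have e4 : Real.exp (-4 * ((starRingEnd ℂ) t).im) ≤ 1 := by
        rw [Real.exp_le_one_iff]; simp; linarith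
      calc _ ≤ 1 * (M * Real.exp ‖t‖) := by gcongr
        _ = _ := one_mul _
    have e5 := norm_sub_le (egf a t + egf (fun n => (starRingEnd ℂ) (a n)) t)
      (egf (fun n => (starRingEnd ℂ) (a n)) t)
    rw [add_sub_cancel_right] at e5
    rw [hKdef]; linarith
  set g : ℂ → ℂ := fun t => egf η t * Complex.exp (2 * I * t) with hg
  have hgb : ∀ t, ‖g t‖ ≤ K * Real.exp (‖t‖ - 2 * |t.im|) := fun t => by
    have e0 : ‖g t‖ = ‖egf η t‖ * Real.exp (-2 * t.im) := by
      simp only [hg]
      rw [norm_mul, Complex.norm_exp]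
      congr 2
      simp
    rw [e0]
    rcases le_total 0 t.im with ht | ht
    · rw [abs_of_nonneg ht, sub_eq_add_neg, Real.exp_add, ← mul_assoc, neg_mul]
      gcongr
      exact (hη t).trans (by gcongr)
    · have e1 := hlow t ht
      rw [hn] at e1
      rw [abs_of_nonpos ht]
      have e2 : Real.exp (-2 * t.im) = Real.exp (-4 * t.im) * Real.exp (2 * t.im) := by
        rw [← Real.exp_add]; congr 1; ring
      have e3 : Real.exp (‖t‖ - 2 * -t.im) = Real.exp ‖t‖ * Real.exp (2 * t.im) := by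
        rw [← Real.exp_add]; congr 1; ring
      rw [e2, e3, ← mul_assoc, ← mul_assoc, mul_comm ‖egf η t‖]
      gcongr
  have hdη : Differentiable ℂ (egf η) := differentiable_egf hM zero_le_one h1
  set G : ℂ → ℂ := fun s => g ((1 + I) * s) with hG
  have hdG : Differentiable ℂ G := by
    simp only [hG, hg]
    fun_prop
  have hKn : 0 ≤ K := hM.trans hK0
  have hs2 : ‖(1 + I : ℂ)‖ ≤ 3 / 2 := by
    rw [← sq_le_sq₀ (norm_nonneg _) (by norm_num), Complex.sq_norm, Complex.normSq_apply]
    simp; norm_num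
  have hre : ∀ x : ℝ, ‖G x‖ ≤ K * Real.exp (-|x| / 2) := fun x => by
    refine (hgb _).trans ?_
    gcongr
    rw [norm_mul, Complex.norm_real, Real.norm_eq_abs]
    have : ((1 + I) * (x : ℂ)).im = x := by simp
    rw [this]
    have := abs_nonneg x
    nlinarith
  have him : ∀ x : ℝ, ‖G (x * I)‖ ≤ K * Real.exp (-|x| / 2) := fun x => by
    refine (hgb _).trans ?_
    gcongr
    rw [norm_mul, norm_mul, Complex.norm_real, Real.norm_eq_abs, Complex.norm_I, mul_one]
    have : ((1 + I) * ((x : ℂ) * I)).im = x := by simp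
    rw [this]
    have := abs_nonneg x
    nlinarith
  have hle : ∀ x : ℝ, K * Real.exp (-|x| / 2) ≤ K := fun x => by
    have : Real.exp (-|x| / 2) ≤ 1 := by
      rw [Real.exp_le_one_iff]; have := abs_nonneg x; linarith
    nlinarith
  have hbd : ∀ z, ‖G z‖ ≤ K := by
    refine bounded_of_axes hdG (B := 2) (fun z => ?_) (fun x => (hre x).trans (hle x))
      (fun x => (him x).trans (hle x))
    refine (hgb _).trans ?_
    gcongr
    rw [norm_mul]
    have := abs_nonneg ((1 + I) * z).im
    have := norm_nonneg z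
    nlinarith
  have hconst : ∀ z w, G z = G w :=
    hdG.apply_eq_apply_of_bounded (isBounded_iff_forall_norm_le.2 ⟨K, by
      rintro _ ⟨z, rfl⟩; exact hbd z⟩)
  have hG0 : ∀ z, G z = 0 := fun z => by
    have ht : Tendsto (fun x : ℝ => K * Real.exp (-|x| / 2)) atTop (𝓝 (K * 0)) := by
      refine Tendsto.const_mul K (Real.tendsto_exp_atBot.comp ?_)
      refine Tendsto.atBot_div_const (by norm_num) ?_
      exact tendsto_neg_atTop_atBot.comp tendsto_abs_atTop_atTop
    rw [mul_zero] at ht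
    have : ‖G z‖ ≤ 0 := ge_of_tendsto' ht (fun x => by rw [hconst z x]; exact hre x)
    exact norm_le_zero_iff.1 this
  refine eq_zero_of_egf h1 (fun t => ?_) n
  have hI : (1 + I : ℂ) ≠ 0 := by
    intro h0; have := congrArg Complex.re h0; simp at this
  have := hG0 (t / (1 + I))
  simp only [hG, hg] at this
  rw [mul_div_cancel₀ _ hI] at this
  exact (mul_eq_zero.1 this).resolve_right (Complex.exp_ne_zero _)

/-- minimum modulus: a series close to `z` has a zero in the disc of radius 1/2 -/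
lemma exists_zero {d : ℕ → ℂ} (hd : ∀ k, ‖d k‖ ≤ 1 / 8) :
    ∃ z : ℂ, ‖z‖ ≤ 1 / 2 ∧ z + ∑' k, d k * z ^ k = 0 := by
  by_contra hne
  push Not at hne
  set f : ℂ → ℂ := fun z => z + ∑' k, d k * z ^ k with hf
  have hdf : DifferentiableOn ℂ f (Metric.ball 0 (3 / 4)) := by
    refine differentiableOn_id.add ?_
    refine differentiableOn_tsum_of_summable_norm (u := fun k => 1 / 8 * (3 / 4 : ℝ) ^ k)
      ((summable_geometric_of_lt_one (by norm_num) (by norm_num)).mul_left _)
      (fun n => by fun_prop) Metric.isOpen_ball (fun n w hw => ?_)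
    rw [norm_mul, norm_pow]
    have : ‖w‖ ≤ 3 / 4 := (mem_ball_zero_iff.1 hw).le
    gcongr
    exact hd n
  have hsum : ∀ z : ℂ, ‖z‖ ≤ 1 / 2 → ‖∑' k, d k * z ^ k‖ ≤ 1 / 4 := fun z hz => by
    have := tsum_of_norm_bounded (f := fun k => d k * z ^ k)
      ((hasSum_geometric_two).mul_left (1 / 8 : ℝ)) (fun k => by
        rw [norm_mul, norm_pow]
        gcongr
        exact hd k)
    linarith
  have hdc : DiffContOnCl ℂ (fun z => (f z)⁻¹) (Metric.ball 0 (1 / 2)) := by
    refine DifferentiableOn.diffContOnCl ?_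
    rw [closure_ball _ (by norm_num)]
    refine DifferentiableOn.inv (hdf.mono (Metric.closedBall_subset_ball (by norm_num))) ?_
    intro z hz
    exact hne z (mem_closedBall_zero_iff.1 hz)
  have hmax : ‖(f 0)⁻¹‖ ≤ 4 := by
    refine Complex.norm_le_of_forall_mem_frontier_norm_le Metric.isBounded_ball hdc
      (fun z hz => ?_) (subset_closure (by simp))
    rw [frontier_ball _ (by norm_num), mem_sphere_zero_iff_norm] at hz
    have e1 := hsum z hz.le
    have e2 := norm_sub_le (f z) (∑' k, d k * z ^ k)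
    have e3 : f z - ∑' k, d k * z ^ k = z := by simp [hf]
    rw [e3, hz] at e2
    rw [norm_inv, inv_le_comm₀ (by linarith) (by norm_num)]
    linarith
  have h0 : f 0 = d 0 := by
    simp only [hf, zero_add]
    rw [tsum_eq_single 0]
    · simp
    · intro k hk; simp [hk]
  have hne0 : d 0 ≠ 0 := by rw [← h0]; exact hne 0 (by simp)
  rw [h0, norm_inv, inv_le_comm₀ (norm_pos_iff.2 hne0) (by norm_num)] at hmax
  have := hd 0
  linarith

end Pool.Agent.H1.CC
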