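import Mathlib

set_option autoImplicit false

namespace Pool.Agent.H1.CC

def IsConvexCyclic {X : Type} [NormedAddCommGroup X] [NormedSpace ℂ X] (T : X →L[ℂ] X) (x : X) :
    Prop :=
  Dense (convexHull ℝ (Set.range fun n : ℕ => (T ^ n) x))

end Pool.Agent.H1.CC
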