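import Mathlib
import Pool.Agent.H1.CCB
import Pool.Agent.H1.CCDefs
import Pool.Agent.H28.L2Ops

set_option autoImplicit false

namespace Pool.Agent.H1.CC

open Complex Filter Topology Finset Pool.Agent.H28.L2Ops
open scoped Nat InnerProductSpace

noncomputable def e (k : ℕ) : L2 ℂ := lp.single 2 k (1 : ℂ)

lemma norm_e (k : ℕ) : ‖e k‖ = 1 := by
  rw [e, lp.norm_single (by norm_num)]; simp

lemma e_apply (k n : ℕ) : e k n = if n = k then 1 else 0 := by
  simp [e, lp.single_apply, Pi.single_apply]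

lemma shift_e (k : ℕ) : shift (e k) = e (k + 1) := by
  ext n
  cases n with
  | zero => simp [e_apply]
  | succ n => simp [e_apply]

lemma shift_pow_e (k : ℕ) : (shift ^ k : L2 ℂ →L[ℂ] L2 ℂ) (e 0) = e k := by
  induction k with
  | zero => simp
  | succ k ih => rw [pow_succ', mul_apply_eq_comp, ih, shift_e]

lemma eq_zero_of_e (ψ : L2 ℂ →L[ℂ] ℂ) (h : ∀ k, ψ (e k) = 0) : ψ = 0 := by
  ext1 x
  have h1 := (lp.hasSum_single (p := 2) (by norm_num) x).mapL ψ
  have h2 : (fun i => ψ (lp.single 2 i (x i))) = fun _ => 0 := by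
    funext i
    have : (lp.single 2 i (x i) : L2 ℂ) = x i • e i := by
      rw [e, ← lp.single_smul]; simp
    rw [this, map_smul, h, smul_zero]
  rw [h2] at h1
  exact h1.unique hasSum_zero

noncomputable def TT : L2 ℂ →L[ℂ] L2 ℂ := (4 * I) • (1 : L2 ℂ →L[ℂ] L2 ℂ) + shift

lemma TT_pow (n : ℕ) : (TT ^ n) (e 0) =
    ∑ p ∈ antidiagonal n, ((n.choose p.1 : ℂ) * (4 * I) ^ p.1) • e p.2 := by
  have hc : Commute ((4 * I) • (1 : L2 ℂ →L[ℂ] L2 ℂ)) shift :=
    (Commute.one_left _).smul_left _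
  rw [TT, hc.add_pow', _root_.sum_apply]
  refine Finset.sum_congr rfl fun p _ => ?_
  rw [smul_pow, one_pow, smul_mul_assoc, one_mul, _root_.smul_apply,
    _root_.smul_apply, shift_pow_e, mul_smul, Nat.cast_smul_eq_nsmul]

lemma sep {X : Type} [NormedAddCommGroup X] [NormedSpace ℂ X] (T : X →L[ℂ] X) (x : X)
    (h : ∀ (ψ : X →L[ℂ] ℂ) (C : ℝ), (∀ n, (ψ ((T ^ n) x)).re ≤ C) → ψ = 0) :
    IsConvexCyclic T x := by
  intro y
  by_contra hy
  obtain ⟨ψ, C, h1, h2⟩ := RCLike.geometric_hahn_banach_closed_point (𝕜 := ℂ)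
    (convex_convexHull ℝ _).closure isClosed_closure hy
  have h0 := h ψ C (fun n => (h1 _ (subset_closure (subset_convexHull ℝ _ ⟨n, rfl⟩))).le)
  have h3 := h1 _ (subset_closure (subset_convexHull ℝ _ ⟨0, rfl⟩))
  rw [h0] at h2 h3
  simp at h2 h3
  linarith

lemma not_cc {X : Type} [NormedAddCommGroup X] [NormedSpace ℂ X] (T : X →L[ℂ] X) (x : X)
    (ψ : X →L[ℂ] ℂ) (h : ∀ n, ψ ((T ^ n) x) = 0) (y : X) (hy : ψ y ≠ 0) :
    ¬ IsConvexCyclic T x := by
  intro hc
  have hcl : IsClosed {v | ψ v = 0} := isClosed_eq ψ.continuous continuous_const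
  have hcv : Convex ℝ {v | ψ v = 0} := by
    intro u hu v hv a b _ _ _
    have hu' : ψ u = 0 := hu
    have hv' : ψ v = 0 := hv
    change ψ (a • u + b • v) = 0
    rw [map_add, ← Complex.coe_smul, ← Complex.coe_smul, map_smul, map_smul, hu', hv']
    simp
  have hsub : convexHull ℝ (Set.range fun n : ℕ => (T ^ n) x) ⊆ {v | ψ v = 0} :=
    convexHull_min (by rintro _ ⟨n, rfl⟩; exact h n) hcv
  exact hy (hcl.closure_subset_iff.2 hsub (hc y))

lemma cyclic_e0 : IsConvexCyclic TT (e 0) := by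
  refine sep _ _ fun ψ C hC => eq_zero_of_e ψ ?_
  refine scalar (η := fun k => ψ (e k)) (a := fun n => ψ ((TT ^ n) (e 0))) (M := ‖ψ‖)
    (M' := ‖ψ‖) (R := ‖TT‖) (fun k => ?_) (fun n => ?_) (fun n => ?_) hC
  · simpa [norm_e] using ψ.le_opNorm (e k)
  · simp only [TT_pow, map_sum, map_smul, smul_eq_mul]
  · refine (ψ.le_opNorm _).trans ?_
    gcongr
    refine ((TT ^ n).le_opNorm _).trans ?_
    rw [norm_e, mul_one]
    rcases Nat.eq_zero_or_pos n with rfl | hn
    · rw [pow_zero, pow_zero]; exact ContinuousLinearMap.norm_id_le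
    · exact norm_pow_le' _ hn

noncomputable def ker (z : ℂ) (hz : ‖z‖ ≤ 1 / 2) : L2 ℂ :=
  ⟨fun k => (starRingEnd ℂ) (z ^ k), by
    refine (mem_iff _).2 (Summable.of_nonneg_of_le (fun n => by positivity) (fun n => ?_)
      summable_geometric_two)
    rw [Complex.norm_conj, norm_pow]
    have h1 : ‖z‖ ^ n ≤ (1 / 2) ^ n := by gcongr
    have h2 : ‖z‖ ^ n ≤ 1 := pow_le_one₀ (norm_nonneg _) (by linarith)
    have h3 : 0 ≤ ‖z‖ ^ n := by positivity
    nlinarith⟩

lemma hasSum_ev (z : ℂ) (hz : ‖z‖ ≤ 1 / 2) (x : L2 ℂ) :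
    HasSum (fun k => x k * z ^ k) ⟪ker z hz, x⟫_ℂ := by
  have := lp.hasSum_inner (𝕜 := ℂ) (ker z hz) x
  simpa [ker] using this

lemma ev_shift (z : ℂ) (hz : ‖z‖ ≤ 1 / 2) (x : L2 ℂ) :
    ⟪ker z hz, shift x⟫_ℂ = z * ⟪ker z hz, x⟫_ℂ := by
  have h1 := (hasSum_nat_add_iff' 1).2 (hasSum_ev z hz (shift x))
  have h2 := (hasSum_ev z hz x).mul_left z
  simp only [shift_succ, range_one, sum_singleton, shift_zero, zero_mul, sub_zero] at h1
  refine h1.unique ?_
  have e : (fun n => x n * z ^ (n + 1)) = fun n => z * (x n * z ^ n) := by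
    funext n; ring
  rw [e]; exact h2

lemma not_cyclic (g : L2 ℂ) (hg : ‖g - e 1‖ < 1 / 8) : ¬ IsConvexCyclic TT g := by
  obtain ⟨z, hz, h0⟩ := exists_zero (d := fun k => (g - e 1) k)
    (fun k => (lp.norm_apply_le_norm (by norm_num) (g - e 1) k).trans hg.le)
  have he : ∀ k, ⟪ker z hz, e k⟫_ℂ = z ^ k := fun k => by
    have h1 := hasSum_ev z hz (e k)
    have h2 : HasSum (fun n => e k n * z ^ n) (e k k * z ^ k) :=
      hasSum_single k (fun n hn => by simp [e_apply, hn])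
    rw [h1.unique h2]; simp [e_apply]
  have hg0 : ⟪ker z hz, g⟫_ℂ = 0 := by
    rw [(hasSum_ev z hz (g - e 1)).tsum_eq, inner_sub_right, he] at h0
    simpa using h0
  have horb : ∀ n, ⟪ker z hz, (TT ^ n) g⟫_ℂ = 0 := fun n => by
    induction n with
    | zero => simpa using hg0
    | succ n ih =>
      rw [pow_succ', mul_apply_eq_comp, TT, _root_.add_apply,
        inner_add_right, ev_shift, _root_.smul_apply, inner_smul_right,
        one_apply_eq_self, ← TT, ih]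
      simp
  refine not_cc TT g (innerSL ℂ (ker z hz)) horb (e 0) ?_
  rw [innerSL_apply_apply, he]
  simp

theorem main : ∃ (X : Type) (_ : NormedAddCommGroup X) (_ : InnerProductSpace ℂ X)
    (_ : CompleteSpace X) (T : X →L[ℂ] X),
    (∃ x, IsConvexCyclic T x) ∧ ¬ Dense {x | IsConvexCyclic T x} := by
  refine ⟨L2 ℂ, inferInstance, inferInstance, inferInstance, TT, ⟨e 0, cyclic_e0⟩, fun hd => ?_⟩
  obtain ⟨g, hg, hg'⟩ := hd.exists_dist_lt (e 1) (by norm_num : (0 : ℝ) < 1 / 8)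
  rw [dist_comm, dist_eq_norm] at hg'
  exact not_cyclic g hg' hg

end Pool.Agent.H1.CC
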