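import Pool.Agent.H1.EqnA

namespace Pool.Agent.H1.Car

open Filter Topology Set Metric Complex MeasureTheory
open scoped ComplexConjugate

noncomputable def kk (s x : ℂ) : ℝ := (1 - ‖x‖ ^ 2) / ‖1 - conj x * s‖ ^ 2

lemma kk_nonneg (s : ℂ) {x : ℂ} (h : ‖x‖ ≤ 1) : 0 ≤ kk s x :=
  div_nonneg (by nlinarith [norm_nonneg x]) (sq_nonneg _)

lemma den_ge {s x : ℂ} (hs : ‖s‖ ≤ 1) : 1 - ‖x‖ ≤ ‖1 - conj x * s‖ := by
  have := norm_sub_norm_le 1 (conj x * s)
  rw [norm_one, norm_mul, norm_conj] at this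
  nlinarith [norm_nonneg x]

lemma den_symm (s x : ℂ) : ‖1 - conj x * s‖ = ‖1 - conj s * x‖ := by
  rw [← norm_conj]; simp [mul_comm]

lemma kk_le {s x : ℂ} {r : ℝ} (hs : ‖s‖ ≤ 1) (hx : ‖x‖ ≤ r) (hr : r < 1) : kk s x ≤ 1 / (1 - r) ^ 2 :=
  div_le_div₀ zero_le_one (by nlinarith [norm_nonneg x]) (pow_pos (by linarith) 2)
    (pow_le_pow_left₀ (by linarith) (by linarith [den_ge (x := x) hs]) 2)

lemma quasi {s t x : ℂ} (hs : ‖s‖ ≤ 1) (ht : ‖t‖ ≤ 1) (hx : ‖x‖ ≤ 1) :
    ‖1 - conj t * x‖ ≤ 2 * (‖1 - conj t * s‖ + ‖1 - conj x * s‖) := by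
  have e : 1 - conj t * x = (1 - conj t * s) + conj t * (s * (1 - conj s * x) - x * (1 - s * conj s)) := by
    ring
  have a1 : ‖1 - s * conj s‖ ≤ 2 * (1 - ‖s‖) := by
    rw [mul_conj', ← ofReal_pow, ← ofReal_one, ← ofReal_sub, norm_real,
      Real.norm_of_nonneg (by nlinarith [norm_nonneg s])]
    nlinarith
  have a2 := den_ge (x := s) ht
  have a3 := den_ge (x := s) hx
  have a4 := norm_sub_le (s * (1 - conj s * x)) (x * (1 - s * conj s))
  rw [norm_mul, norm_mul] at a4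
  have a5 := mul_le_of_le_one_left (norm_nonneg (1 - conj s * x)) hs
  have a6 := mul_le_of_le_one_left (norm_nonneg (1 - s * conj s)) hx
  rw [e]
  refine (norm_add_le _ _).trans ?_
  rw [norm_mul, norm_conj, den_symm s t, den_symm s x]
  nlinarith [mul_le_of_le_one_left (norm_nonneg (s * (1 - conj s * x) - x * (1 - s * conj s))) ht]

lemma kk_one {s t x : ℂ} (hs : ‖s‖ ≤ 1) (ht : ‖t‖ < 1) (hx : ‖x‖ ≤ 1)
    (h : ‖1 - conj x * s‖ ≤ ‖1 - conj t * s‖) : kk s t ≤ 16 * kk x t := by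
  have a1 := quasi hs ht.le hx
  have a2 := den_ge (x := t) hx
  have a3 := den_ge (x := t) hs
  rw [kk, kk, ← mul_div_assoc, div_le_div_iff₀ (pow_pos (by linarith) 2) (pow_pos (by linarith) 2),
    mul_comm 16, mul_assoc]
  refine mul_le_mul_of_nonneg_left ?_ (Jc.sq_pos' ht).le
  nlinarith [pow_le_pow_left₀ (norm_nonneg _) (show ‖1 - conj t * x‖ ≤ 4 * ‖1 - conj t * s‖ by linarith) 2]

lemma kk_mul {s t x : ℂ} (hs : ‖s‖ ≤ 1) (ht : ‖t‖ < 1) (hx : ‖x‖ < 1) :
    kk s t * kk s x ≤ 16 * kk x t * kk s x + 16 * kk t x * kk s t := by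
  have b1 := kk_nonneg s ht.le
  have b2 := kk_nonneg s hx.le
  have b3 := kk_nonneg x ht.le
  have b4 := kk_nonneg t hx.le
  rcases le_total ‖1 - conj x * s‖ ‖1 - conj t * s‖ with h | h
  · nlinarith [mul_le_mul_of_nonneg_right (kk_one hs ht hx.le h) b2, mul_nonneg b4 b1]
  · nlinarith [mul_le_mul_of_nonneg_right (kk_one hs hx ht.le h) b1, mul_nonneg b3 b2]

lemma geo_le {s t : ℂ} {r : ℝ} (hs : ‖s‖ ≤ r) (ht : ‖t‖ ≤ r) (hr : r < 1) (M : ℕ) :
    ‖∑ k ∈ Finset.range M, ((conj t * s) ^ k + (conj s * t) ^ k)‖ ≤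
      kk s t + kk t s + 1 + 2 / (1 - r) * r ^ M := by
  have r0 := (norm_nonneg s).trans hs
  have a1 := den_ge (x := t) (hs.trans hr.le)
  have a0 : 0 < ‖1 - conj t * s‖ := by linarith
  have n1 : 1 - conj t * s ≠ 0 := norm_pos_iff.1 a0
  have e1 : ∑ k ∈ Finset.range M, (conj t * s) ^ k = (1 - conj t * s)⁻¹ -
      (conj t * s) ^ M * (1 - conj t * s)⁻¹ := by
    rw [← one_sub_mul, ← geom_sum_mul_neg, mul_inv_cancel_right₀ n1]
  have e2 : ∑ k ∈ Finset.range M, (conj s * t) ^ k = conj (∑ k ∈ Finset.range M, (conj t * s) ^ k) := by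
    simp [mul_comm]
  rw [Finset.sum_add_distrib, e2, add_conj, norm_real, e1, sub_re, mul_sub]
  refine (norm_sub_le _ _).trans (add_le_add ?_ ?_)
  · have a2 := Jc.mob_id t s
    have a3 : ‖s - t‖ ^ 2 = ‖s‖ ^ 2 + ‖t‖ ^ 2 - 2 * (conj t * s).re := by
      simp only [← normSq_eq_norm_sq, normSq_apply, sub_re, sub_im, mul_re, conj_re, conj_im]; ring
    have a4 := mul_nonneg (Jc.sq_pos' (ht.trans_lt hr)).le (Jc.sq_pos' (hs.trans_lt hr)).le
    have a5 := re_le_norm (conj t * s)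
    rw [norm_mul, norm_conj] at a5
    rw [inv_re, normSq_eq_norm_sq, sub_re, one_re, Real.norm_of_nonneg (mul_nonneg zero_le_two
      (div_nonneg (by nlinarith [norm_nonneg t]) (sq_nonneg _))), kk, kk, den_symm t s, ← add_div,
      div_add_one (pow_pos a0 2).ne', ← mul_div_assoc]
    exact div_le_div_of_nonneg_right (by linarith) (sq_nonneg _)
  · rw [norm_mul, Real.norm_two, div_mul_eq_mul_div, mul_div_assoc]
    refine mul_le_mul_of_nonneg_left ((abs_re_le_norm _).trans ?_) zero_le_two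
    rw [norm_mul, norm_inv, norm_pow, norm_mul, norm_conj, ← div_eq_mul_inv]
    exact div_le_div₀ (by positivity) (pow_le_pow_left₀ (by positivity)
      (by nlinarith [norm_nonneg t]) M) (by linarith) (by linarith)

variable {Z : Type} [MeasurableSpace Z] {ν : Measure Z} [IsFiniteMeasure ν] {p : Z → ℂ} {C r : ℝ}

lemma kk_meas {α : Type} [MeasurableSpace α] {f g : α → ℂ} (hf : Measurable f) (hg : Measurable g) :
    Measurable fun a => kk (f a) (g a) := by
  unfold kk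
  have := continuous_conj.measurable.comp hg
  exact (measurable_const.sub (hg.norm.pow_const 2)).div
    ((measurable_const.sub (this.mul hf)).norm.pow_const 2)

lemma ib {α E : Type} [MeasurableSpace α] {μ : Measure α} [IsFiniteMeasure μ] [NormedAddCommGroup E]
    [SecondCountableTopology E] [MeasurableSpace E] [BorelSpace E] {F : α → E} (hF : Measurable F)
    (B : ℝ) (h : ∀ a, ‖F a‖ ≤ B) : Integrable F μ :=
  Integrable.of_bound hF.aestronglyMeasurable B (Eventually.of_forall h)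

lemma vs (hp : Measurable p) (hr : r < 1) (hb : ∀ s, ‖p s‖ ≤ r) (hC : 0 < C)
    (h : ∀ x, ‖x‖ < 1 → ∫ s, kk (p s) x ∂ν ≤ C) {G : Z → ℝ} (hG : Measurable G) {B : ℝ}
    (G0 : ∀ s, 0 ≤ G s) (G1 : ∀ s, G s ≤ B) :
    ∫ z, kk (p z.1) (p z.2) * (G z.1 * G z.2) ∂ν.prod ν ≤ 32 * C * ∫ s, G s ^ 2 ∂ν := by
  set K := 1 / (1 - r) ^ 2
  have l1 : ∀ s, ‖p s‖ < 1 := fun s => (hb s).trans_lt hr
  have k0 : ∀ s t, 0 ≤ kk (p s) (p t) := fun s t => kk_nonneg _ (l1 t).le
  have k1 : ∀ s t, kk (p s) (p t) ≤ K := fun s t => kk_le (l1 s).le (hb t) hr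
  have K0 : 0 ≤ K := by positivity
  have n1 : ∀ s t u, ‖kk (p s) (p t) * G u‖ ≤ K * B := fun s t u => by
    rw [Real.norm_of_nonneg (mul_nonneg (k0 _ _) (G0 _))]; exact mul_le_mul (k1 _ _) (G1 _) (G0 _) K0
  have nG : ∀ s, ‖G s‖ ≤ B := fun s => by rw [Real.norm_of_nonneg (G0 _)]; exact G1 s
  have nm : ∀ {a b A B : ℝ}, ‖a‖ ≤ A → ‖b‖ ≤ B → ‖a * b‖ ≤ A * B := fun h1 h2 =>
    (norm_mul_le _ _).trans (mul_le_mul h1 h2 (norm_nonneg _) ((norm_nonneg _).trans h1))
  have m1 : Measurable fun z : Z × Z => kk (p z.1) (p z.2) := kk_meas (by fun_prop) (by fun_prop)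
  have m2 : Measurable fun z : Z × Z => kk (p z.2) (p z.1) := kk_meas (by fun_prop) (by fun_prop)
  have i0 : Integrable (fun z : Z × Z => kk (p z.1) (p z.2) * G z.2) (ν.prod ν) :=
    ib (by fun_prop) _ fun z => n1 _ _ _
  have i1 : Integrable (fun z : Z × Z => kk (p z.1) (p z.2) * (G z.1 * G z.2)) (ν.prod ν) :=
    ib (by fun_prop) _ fun z => by rw [← mul_assoc]; exact nm (n1 _ _ _) (nG _)
  have i2 : Integrable (fun z : Z × Z => kk (p z.2) (p z.1) * (G z.1 * G z.2)) (ν.prod ν) :=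
    ib (by fun_prop) _ fun z => by rw [← mul_assoc]; exact nm (n1 _ _ _) (nG _)
  set Q := ∫ z, kk (p z.1) (p z.2) * (G z.1 * G z.2) ∂ν.prod ν with hQ
  have e2 : ∫ z, kk (p z.2) (p z.1) * (G z.1 * G z.2) ∂ν.prod ν = Q := by
    rw [hQ, ← integral_prod_swap]
    exact integral_congr_ae (Eventually.of_forall fun z => congrArg _ (mul_comm _ _))
  set L : Z → ℝ := fun s => ∫ t, kk (p s) (p t) * G t ∂ν
  have i3 : Integrable (Function.uncurry fun (s : Z) (z : Z × Z) =>
      kk (p s) (p z.1) * G z.1 * (kk (p s) (p z.2) * G z.2)) (ν.prod (ν.prod ν)) :=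
    ib (((kk_meas (by fun_prop) (by fun_prop)).mul (by fun_prop)).mul
      ((kk_meas (by fun_prop) (by fun_prop)).mul (by fun_prop))) _ fun z => nm (n1 _ _ _) (n1 _ _ _)
  have e3 : ∀ s, L s ^ 2 = ∫ z, kk (p s) (p z.1) * G z.1 * (kk (p s) (p z.2) * G z.2) ∂ν.prod ν :=
    fun s => by rw [integral_prod_mul (f := fun t => kk (p s) (p t) * G t)
      (g := fun t => kk (p s) (p t) * G t), sq]
  have ik : ∀ t, Integrable (fun s => kk (p s) (p t)) ν := fun t =>
    ib (kk_meas hp measurable_const) K fun s => by rw [Real.norm_of_nonneg (k0 _ _)]; exact k1 _ _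
  have a1 : ∫ s, L s ^ 2 ∂ν ≤ 32 * C * Q := by
    simp only [e3]
    rw [integral_integral_swap i3]
    refine (integral_mono i3.integral_prod_right ((i2.add i1).const_mul (16 * C)) fun z => ?_).trans
      (le_of_eq ?_)
    · refine (integral_mono (f := fun s => kk (p s) (p z.1) * G z.1 * (kk (p s) (p z.2) * G z.2))
        (ib (((kk_meas hp measurable_const).mul_const _).mul
        ((kk_meas hp measurable_const).mul_const _)) _ fun s => nm (n1 _ _ _) (n1 _ _ _))
        ((((ik z.2).const_mul (16 * kk (p z.2) (p z.1))).add ((ik z.1).const_mul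
          (16 * kk (p z.1) (p z.2)))).mul_const (G z.1 * G z.2)) fun s => ?_).trans ?_
      · have := mul_le_mul_of_nonneg_right (kk_mul (l1 s).le (l1 z.1) (l1 z.2))
          (mul_nonneg (G0 z.1) (G0 z.2))
        simp only [Pi.add_apply]; linarith
      · rw [integral_mul_const, integral_add' ((ik z.2).const_mul _) ((ik z.1).const_mul _),
          integral_const_mul, integral_const_mul]
        have b1 := mul_le_mul_of_nonneg_left (h _ (l1 z.2)) (k0 z.2 z.1)
        have b2 := mul_le_mul_of_nonneg_left (h _ (l1 z.1)) (k0 z.1 z.2)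
        simp only [Pi.add_apply]
        nlinarith [mul_le_mul_of_nonneg_right (add_le_add b1 b2) (mul_nonneg (G0 z.1) (G0 z.2))]
    · rw [integral_const_mul, integral_add' i2 i1, e2]; ring
  have iG : Integrable (fun s => G s ^ 2) ν := ib (by fun_prop) _ fun s => by
    rw [sq]; exact nm (nG s) (nG s)
  have iL : Integrable (fun s => L s ^ 2) ν := by simp only [e3]; exact i3.integral_prod_left
  have a2 : Q ≤ 16 * C * ∫ s, G s ^ 2 ∂ν + (64 * C)⁻¹ * ∫ s, L s ^ 2 ∂ν := by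
    rw [hQ, integral_prod _ i1, ← integral_const_mul, ← integral_const_mul,
      ← integral_add (iG.const_mul _) (iL.const_mul _)]
    refine integral_mono i1.integral_prod_left ((iG.const_mul _).add (iL.const_mul _)) fun s => ?_
    simp only [mul_left_comm (kk _ _), integral_const_mul]
    change G s * L s ≤ _
    rw [← sub_nonneg, show 16 * C * G s ^ 2 + (64 * C)⁻¹ * L s ^ 2 - G s * L s =
      (64 * C)⁻¹ * (32 * C * G s - L s) ^ 2 by field_simp; ring]
    positivity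
  have a3 := mul_le_mul_of_nonneg_left a1 (show 0 ≤ (64 * C)⁻¹ by positivity)
  rw [show (64 * C)⁻¹ * (32 * C * Q) = Q / 2 by field_simp; ring] at a3
  linarith

lemma emb_r (hp : Measurable p) (hr : r < 1) (hb : ∀ s, ‖p s‖ ≤ r) (hC : 0 < C)
    (h : ∀ x, ‖x‖ < 1 → ∫ s, kk (p s) x ∂ν ≤ C) (a : ℕ → ℂ) (N : ℕ) :
    ∫ s, ‖∑ k ∈ Finset.range N, a k * p s ^ k‖ ^ 2 ∂ν ≤ 65 * C * ∑ k ∈ Finset.range N, ‖a k‖ ^ 2 := by
  set g : Z → ℂ := fun s => ∑ k ∈ Finset.range N, a k * p s ^ k with hg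
  have l1 : ∀ s, ‖p s‖ ≤ 1 := fun s => (hb s).trans hr.le
  have pk : ∀ s k, ‖p s ^ k‖ ≤ 1 := fun s k => by rw [norm_pow]; exact pow_le_one₀ (norm_nonneg _) (l1 s)
  have nm : ∀ {a b : ℂ} {A B : ℝ}, ‖a‖ ≤ A → ‖b‖ ≤ B → ‖a * b‖ ≤ A * B := fun h1 h2 =>
    (norm_mul_le _ _).trans (mul_le_mul h1 h2 (norm_nonneg _) ((norm_nonneg _).trans h1))
  set B := ∑ k ∈ Finset.range N, ‖a k‖ * 1
  have gB : ∀ s, ‖g s‖ ≤ B := fun s => (norm_sum_le _ _).trans
    (Finset.sum_le_sum fun k _ => nm le_rfl (pk s k))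
  have gm : Measurable g := Finset.measurable_sum _ fun k _ => by fun_prop
  have cm : Measurable fun z : ℂ => conj z := continuous_conj.measurable
  have gB' : ∀ s, ‖conj (g s)‖ ≤ B := fun s => by rw [norm_conj]; exact gB s
  have pk' : ∀ s k, ‖conj (p s) ^ k‖ ≤ 1 := fun s k => by rw [← map_pow, norm_conj]; exact pk s k
  set A := ∫ s, ‖g s‖ ^ 2 ∂ν with hA
  have A0 : 0 ≤ A := integral_nonneg fun s => sq_nonneg _
  set d : ℕ → ℂ := fun k => ∫ s, conj (g s) * p s ^ k ∂ν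
  set e : ℕ → ℂ := fun k => ∫ s, conj (g s) * conj (p s) ^ k ∂ν
  have a1 : A ≤ ∑ k ∈ Finset.range N, ‖a k‖ * ‖d k‖ := by
    have e1 : (A : ℂ) = ∑ k ∈ Finset.range N, a k * d k := by
      simp only [d, ← integral_const_mul]
      rw [← integral_finsetSum (f := fun k s => a k * (conj (g s) * p s ^ k)) _ fun k _ =>
        ib (by fun_prop) _ fun s => nm le_rfl (nm (gB' s) (pk s k)), hA, ← integral_complex_ofReal]
      refine integral_congr_ae (Eventually.of_forall fun s => ?_)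
      simp only [mul_left_comm (a _), ← Finset.mul_sum]
      rw [ofReal_pow, ← conj_mul']
    rw [← Real.norm_of_nonneg A0, ← norm_real, e1]
    exact (norm_sum_le _ _).trans (Finset.sum_le_sum fun k _ => norm_mul_le _ _)
  have cj : ∀ {u : Z → ℂ}, (‖∫ s, u s ∂ν‖ ^ 2 : ℝ) = ∫ z, u z.1 * conj (u z.2) ∂ν.prod ν := fun {u} => by
    rw [integral_prod_mul (f := u) (g := fun s => conj (u s)), integral_conj, mul_conj', ofReal_pow]
  have vv := vs hp hr hb hC h (G := fun s => ‖g s‖) gm.norm (fun _ => norm_nonneg _) gB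
  have nG : ∀ z : Z × Z, ‖‖g z.1‖ * ‖g z.2‖‖ ≤ B * B := fun z => by
    rw [← norm_mul, norm_norm]; exact nm (gB _) (gB _)
  have i0 : Integrable (fun z : Z × Z => ‖g z.1‖ * ‖g z.2‖) (ν.prod ν) := ib (by fun_prop) _ nG
  have kb : ∀ s t, ‖kk (p s) (p t)‖ ≤ 1 / (1 - r) ^ 2 := fun s t => by
    rw [Real.norm_of_nonneg (kk_nonneg _ (l1 t))]; exact kk_le (l1 s) (hb t) hr
  have i1 : Integrable (fun z : Z × Z => kk (p z.1) (p z.2) * (‖g z.1‖ * ‖g z.2‖)) (ν.prod ν) :=
    i0.bdd_mul (kk_meas (by fun_prop) (by fun_prop)).aestronglyMeasurable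
      (Eventually.of_forall fun z => kb _ _)
  have i2 : Integrable (fun z : Z × Z => kk (p z.2) (p z.1) * (‖g z.1‖ * ‖g z.2‖)) (ν.prod ν) :=
    i0.bdd_mul (kk_meas (by fun_prop) (by fun_prop)).aestronglyMeasurable
      (Eventually.of_forall fun z => kb _ _)
  have e2 : ∫ z, kk (p z.2) (p z.1) * (‖g z.1‖ * ‖g z.2‖) ∂ν.prod ν =
      ∫ z, kk (p z.1) (p z.2) * (‖g z.1‖ * ‖g z.2‖) ∂ν.prod ν := by
    rw [← integral_prod_swap]
    exact integral_congr_ae (Eventually.of_forall fun z => congrArg _ (mul_comm _ _))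
  set J := ∫ z, ‖g z.1‖ * ‖g z.2‖ ∂ν.prod ν with hJ
  have iG : Integrable (fun s => ‖g s‖ ^ 2) ν := ib (by fun_prop) _ fun s => by
    rw [sq]; exact nG (s, s)
  have a2 : J ≤ C * A := by
    have b1 : ν.real univ ≤ C := by simpa [kk] using h 0 (by simp)
    have j1 := iG.mul_prod (integrable_const (1 / 2 : ℝ) (μ := ν))
    have j2 := (integrable_const (1 / 2 : ℝ) (μ := ν)).mul_prod iG
    have := integral_mono i0 (j1.add j2) fun z => by
      simp only [Pi.add_apply]; nlinarith [sq_nonneg (‖g z.1‖ - ‖g z.2‖)]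
    rw [integral_add' j1 j2, integral_prod_mul (f := fun s => ‖g s‖ ^ 2) (g := fun _ => (1 / 2 : ℝ)),
      integral_prod_mul (g := fun s => ‖g s‖ ^ 2) (f := fun _ => (1 / 2 : ℝ)), integral_const,
      smul_eq_mul] at this
    nlinarith [mul_le_mul_of_nonneg_right b1 A0]
  have a3 : ∀ M, ∑ k ∈ Finset.range M, (‖d k‖ ^ 2 + ‖e k‖ ^ 2) ≤ 65 * C * A + 2 / (1 - r) * r ^ M * J := by
    intro M
    have ia : ∀ k, Integrable (fun z : Z × Z => conj (g z.1) * p z.1 ^ k *
        conj (conj (g z.2) * p z.2 ^ k)) (ν.prod ν) := fun k => ib (by fun_prop) _ fun z =>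
      nm (nm (gB' _) (pk _ k)) (by rw [norm_conj]; exact nm (gB' _) (pk _ k))
    have ie : ∀ k, Integrable (fun z : Z × Z => conj (g z.1) * conj (p z.1) ^ k *
        conj (conj (g z.2) * conj (p z.2) ^ k)) (ν.prod ν) := fun k => ib (by fun_prop) _ fun z =>
      nm (nm (gB' _) (pk' _ k)) (by rw [norm_conj]; exact nm (gB' _) (pk' _ k))
    have e1 : ((∑ k ∈ Finset.range M, (‖d k‖ ^ 2 + ‖e k‖ ^ 2) : ℝ) : ℂ) = ∫ z, conj (g z.1) * g z.2 *
        ∑ k ∈ Finset.range M, ((conj (p z.2) * p z.1) ^ k + (conj (p z.1) * p z.2) ^ k) ∂ν.prod ν := by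
      simp only [ofReal_sum, ofReal_add, d, e, cj]
      rw [Finset.sum_congr rfl fun k _ => (integral_add (ia k) (ie k)).symm,
        ← integral_finsetSum (f := fun k (z : Z × Z) => conj (g z.1) * p z.1 ^ k *
        conj (conj (g z.2) * p z.2 ^ k) + conj (g z.1) * conj (p z.1) ^ k *
        conj (conj (g z.2) * conj (p z.2) ^ k)) _ fun k _ => (ia k).add (ie k)]
      refine integral_congr_ae (Eventually.of_forall fun z => ?_)
      simp only [Finset.mul_sum, map_mul, map_pow, conj_conj]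
      exact Finset.sum_congr rfl fun k _ => by ring
    rw [← Real.norm_of_nonneg (Finset.sum_nonneg fun _ _ => by positivity), ← norm_real, e1]
    refine (norm_integral_le_of_norm_le (((i1.add i2).add i0).add (i0.const_mul (2 / (1 - r) * r ^ M)))
      (Eventually.of_forall fun z => ?_)).trans ?_
    · rw [norm_mul, norm_mul, norm_conj]
      exact (mul_le_mul_of_nonneg_left (geo_le (hb _) (hb _) hr M) (by positivity)).trans
        (le_of_eq (by simp only [Pi.add_apply]; ring))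
    · rw [integral_add' ((i1.add i2).add i0) (i0.const_mul _), integral_add' (i1.add i2) i0,
        integral_add' i1 i2, integral_const_mul, e2]
      linarith
  have a4 : ∑ k ∈ Finset.range N, ‖d k‖ ^ 2 ≤ 65 * C * A := by
    rcases isEmpty_or_nonempty Z with hZ | ⟨⟨s⟩⟩
    · simp only [d, integral_of_isEmpty, norm_zero, sq, zero_mul, Finset.sum_const_zero]; positivity
    have t := (((tendsto_pow_atTop_nhds_zero_of_lt_one ((norm_nonneg _).trans (hb s)) hr).const_mul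
      (2 / (1 - r))).mul_const J).const_add (65 * C * A)
    rw [mul_zero, zero_mul, add_zero] at t
    refine ge_of_tendsto t ((eventually_ge_atTop N).mono fun M hM => le_trans ?_ (a3 M))
    exact (Finset.sum_le_sum fun k _ => le_add_of_nonneg_right (sq_nonneg _)).trans
      (Finset.sum_le_sum_of_subset_of_nonneg (Finset.range_subset_range.2 hM) fun _ _ _ => by positivity)
  have a5 := (pow_le_pow_left₀ A0 a1 2).trans ((Finset.sum_mul_sq_le_sq_mul_sq _ _ _).trans
    (mul_le_mul_of_nonneg_left a4 (Finset.sum_nonneg fun _ _ => sq_nonneg _)))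
  rcases A0.eq_or_lt with h0 | h0
  · rw [← h0]; exact mul_nonneg (by positivity) (Finset.sum_nonneg fun _ _ => sq_nonneg _)
  · exact le_of_mul_le_mul_right (by nlinarith) h0

/-- Carleson embedding from the reproducing kernel test -/
theorem emb (hp : Measurable p) (hb : ∀ s, ‖p s‖ ≤ 1) (hC : 0 < C)
    (h : ∀ x, ‖x‖ < 1 → ∫ s, kk (p s) x ∂ν ≤ C) (a : ℕ → ℂ) (N : ℕ) :
    ∫ s, ‖∑ k ∈ Finset.range N, a k * p s ^ k‖ ^ 2 ∂ν ≤ 65 * C * ∑ k ∈ Finset.range N, ‖a k‖ ^ 2 := by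
  have nr : ∀ r ∈ Ioo (0 : ℝ) 1, ∀ z : ℂ, ‖r * z‖ = r * ‖z‖ := fun r hr z => by
    rw [norm_mul, norm_real, Real.norm_of_nonneg hr.1.le]
  have t := tendsto_integral_filter_of_dominated_convergence (μ := ν) (l := 𝓝[<] (1 : ℝ))
    (F := fun (r : ℝ) s => ‖∑ k ∈ Finset.range N, a k * (r * p s) ^ k‖ ^ 2)
    (f := fun s => ‖∑ k ∈ Finset.range N, a k * p s ^ k‖ ^ 2) (fun _ => (∑ k ∈ Finset.range N, ‖a k‖) ^ 2)
    (Eventually.of_forall fun r => ((Finset.measurable_sum _ fun k _ => by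
      fun_prop).norm.pow_const 2).aestronglyMeasurable)
    (Sat.ev01.mono fun r hr => Eventually.of_forall fun s => by
      rw [norm_pow, norm_norm]
      refine pow_le_pow_left₀ (norm_nonneg _) ((norm_sum_le _ _).trans (Finset.sum_le_sum fun k _ => ?_)) 2
      rw [norm_mul, norm_pow]
      exact mul_le_of_le_one_right (norm_nonneg _) (pow_le_one₀ (norm_nonneg _) (by
        rw [nr r hr]; nlinarith [hb s, hr.1, hr.2, norm_nonneg (p s)]))) (integrable_const _)
    (Eventually.of_forall fun s => by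
      have c : Continuous fun r : ℝ => ‖∑ k ∈ Finset.range N, a k * (r * p s) ^ k‖ ^ 2 := by fun_prop
      simpa using (c.tendsto 1).mono_left nhdsWithin_le_nhds)
  refine le_of_tendsto t (Sat.ev01.mono fun r hr => emb_r (p := fun s => r * p s) (by fun_prop) hr.2
    (fun s => by rw [nr r hr]; exact mul_le_of_le_one_right hr.1.le (hb s)) hC (fun x hx => ?_) a N)
  have hx2 : ‖r * x‖ ≤ ‖x‖ := by rw [nr r hr]; exact mul_le_of_le_one_left (norm_nonneg _) hr.2.le
  refine le_trans (integral_mono_of_nonneg (Eventually.of_forall fun s => kk_nonneg _ hx.le)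
    (ib (kk_meas hp measurable_const) _ fun s => by
      rw [Real.norm_of_nonneg (kk_nonneg _ (hx2.trans hx.le))]; exact kk_le (hb s) hx2 hx)
    (Eventually.of_forall fun s => ?_)) (h (r * x) (hx2.trans_lt hx))
  simp only [kk, map_mul, conj_ofReal]
  rw [show conj x * (r * p s) = r * conj x * p s by ring]
  exact div_le_div_of_nonneg_right (by nlinarith [norm_nonneg (r * x)]) (sq_nonneg _)

end Pool.Agent.H1.Car
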