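import Pool.Agent.H1.CarA

namespace Pool.Agent.H1.Car

open Filter Topology Set Metric Complex MeasureTheory Pool.Agent.H1.Sat
open scoped ComplexConjugate InnerProductSpace

lemma embw {p : ℝ → ℂ} {w : ℝ → ℝ} {C : ℝ} (hp : Measurable p) (hb : ∀ s, ‖p s‖ ≤ 1)
    (hw : Measurable w) (w0 : ∀ s, 0 ≤ w s) (w1 : ∀ s, w s ≤ 1) (hC : 0 < C)
    (h : ∀ x, ‖x‖ < 1 → ∫ s, w s * kk (p s) x ∂ν0 ≤ C) (a : ℕ → ℂ) (N : ℕ) :
    ∫ s, w s * ‖∑ k ∈ Finset.range N, a k * p s ^ k‖ ^ 2 ∂ν0 ≤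
      65 * C * ∑ k ∈ Finset.range N, ‖a k‖ ^ 2 := by
  have iw : Integrable w ν0 := ib hw 1 fun s => by rw [Real.norm_of_nonneg (w0 s)]; exact w1 s
  have := isFiniteMeasure_withDensity_ofReal iw.2
  have e : ∀ g : ℝ → ℝ, ∫ s, g s ∂ν0.withDensity (fun s => ENNReal.ofReal (w s)) =
      ∫ s, w s * g s ∂ν0 := fun g => by
    rw [integral_withDensity_eq_integral_toReal_smul hw.ennreal_ofReal
      (Eventually.of_forall fun _ => ENNReal.ofReal_lt_top)]
    simp only [ENNReal.toReal_ofReal (w0 _), smul_eq_mul]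
  rw [← e]
  exact emb hp hb hC (fun x hx => by rw [e]; exact h x hx) a N

variable {φ : ℂ → ℂ} {p : ℝ → ℂ} {T S : L2 →L[ℂ] L2}

lemma nrm (hm : ∀ z, ‖z‖ < 1 → ‖φ z‖ < 1)
    (hb : ∀ᵐ t ∂ν0, Tendsto (fun r : ℝ => φ (circleMap 0 r t)) (𝓝[<] 1) (𝓝 (p t)))
    (hT : ∀ a : L2, ∀ z, ‖z‖ < 1 → FF (T a) z = FF a (φ z)) (a : L2) {F : ℂ → ℂ}
    (hF : ContinuousOn F (closedBall 0 1)) (e : ∀ z, ‖z‖ < 1 → FF a z = F z) :
    ‖T a‖ ^ 2 = (2 * Real.pi)⁻¹ * ∫ t, ‖F (p t)‖ ^ 2 ∂ν0 := by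
  obtain ⟨B, hB⟩ := (isCompact_closedBall (0 : ℂ) 1).exists_bound_of_continuousOn hF
  have d := FF_diff (l2_bd (T a))
  have hz : ∀ r ∈ Ioo (0 : ℝ) 1, ∀ t, ‖circleMap 0 r t‖ < 1 := fun r hr t => by
    rw [norm_cm hr.1.le]; exact hr.2
  have h : Tendsto (II (FF (T a))) (𝓝[<] 1) (𝓝 ((2 * Real.pi)⁻¹ * ∫ t, ‖F (p t)‖ ^ 2 ∂ν0)) := by
    rw [funext (II_eq (FF (T a)))]
    refine (tendsto_integral_filter_of_dominated_convergence (fun _ => B ^ 2) (ev01.mono fun r hr =>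
      ((cm_cont d hr.1.le hr.2).norm.pow 2).aestronglyMeasurable) (ev01.mono fun r hr =>
      Eventually.of_forall fun t => ?_) (integrable_const _) ?_).const_mul _
    · rw [Pi.pow_apply, norm_pow, norm_norm, hT _ _ (hz r hr t), e _ (hm _ (hz r hr t))]
      exact pow_le_pow_left₀ (norm_nonneg _) (hB _ (mem_closedBall_zero_iff.2 (hm _ (hz r hr t)).le)) 2
    · filter_upwards [hb, b_le hm hb] with t h1 h2
      have := (hF _ (mem_closedBall_zero_iff.2 h2)).tendsto.comp (tendsto_nhdsWithin_iff.2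
        ⟨h1, ev01.mono fun r hr => mem_closedBall_zero_iff.2 (hm _ (hz r hr t)).le⟩)
      refine (this.norm.pow 2).congr' (ev01.mono fun r hr => ?_)
      simp only [Function.comp, Pi.pow_apply, hT _ _ (hz r hr t), e _ (hm _ (hz r hr t))]
  refine le_antisymm (l2_le _ fun N => ?_)
    (le_of_tendsto h (ev01.mono fun r hr => II_le d (fun N => ?_) hr.1 hr.2))
  · simpa only [co_FF (l2_bd _)] using sum_le d h (fun _ _ _ => le_rfl) N
  · simpa only [co_FF (l2_bd _)] using l2_fin (T a) N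

lemma shift (hS : ∀ a : L2, ∀ z, ‖z‖ < 1 → FF (S a) z = z * FF a z) (n : ℕ) (a : L2) {z : ℂ}
    (hz : ‖z‖ < 1) : FF ((S ^ n) a) z = z ^ n * FF a z := by
  induction n with
  | zero => simp
  | succ n ih => rw [pow_succ', mul_apply_eq_comp, hS _ z hz, ih, pow_succ', mul_assoc]

noncomputable def wt (p : ℝ → ℂ) (n : ℕ) (t : ℝ) : ℝ := if ‖p t‖ < 1 then (‖p t‖ ^ 2) ^ n else 0

lemma wt0 (n : ℕ) (t : ℝ) : 0 ≤ wt p n t := by unfold wt; split_ifs <;> positivity

lemma wt1 (n : ℕ) (t : ℝ) : wt p n t ≤ 1 := by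
  unfold wt; split_ifs with h
  · exact pow_le_one₀ (sq_nonneg _) (pow_le_one₀ (norm_nonneg _) h.le)
  · exact zero_le_one

lemma wtm (hp : Measurable p) (n : ℕ) : Measurable (wt p n) :=
  Measurable.ite (measurableSet_lt hp.norm measurable_const) (by fun_prop) measurable_const

lemma wti (hp : Measurable p) (n : ℕ) {G : ℝ → ℝ} (hG : Measurable G) {B : ℝ} (h : ∀ t, ‖G t‖ ≤ B) :
    Integrable (fun t => wt p n t * G t) ν0 := ib ((wtm hp n).mul hG) B fun t => by
  rw [norm_mul, Real.norm_of_nonneg (wt0 n t)]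
  exact (mul_le_of_le_one_left (norm_nonneg _) (wt1 n t)).trans (h t)

lemma wtl (hp : Measurable p) {G : ℝ → ℝ} (hG : Measurable G) {B : ℝ} (h : ∀ t, ‖G t‖ ≤ B) :
    Tendsto (fun n => ∫ t, wt p n t * G t ∂ν0) atTop (𝓝 0) := by
  have := tendsto_integral_of_dominated_convergence (μ := ν0) (F := fun n t => wt p n t * G t)
    (f := fun _ => 0) (fun _ => B) (fun n => (wti hp n hG h).1) (integrable_const _)
    (fun n => Eventually.of_forall fun t => by
      rw [norm_mul, Real.norm_of_nonneg (wt0 n t)]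
      exact (mul_le_of_le_one_left (norm_nonneg _) (wt1 n t)).trans (h t))
    (Eventually.of_forall fun t => by
      rw [← zero_mul (G t)]
      refine Tendsto.mul_const _ ?_
      unfold wt; split_ifs with h
      · exact tendsto_pow_atTop_nhds_zero_of_lt_one (sq_nonneg _)
          (pow_lt_one₀ (norm_nonneg _) h two_ne_zero)
      · exact tendsto_const_nhds)
  rwa [integral_zero] at this

lemma dif (hm : ∀ z, ‖z‖ < 1 → ‖φ z‖ < 1) (hp : Measurable p) (p1 : ∀ t, ‖p t‖ ≤ 1)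
    (hb : ∀ᵐ t ∂ν0, Tendsto (fun r : ℝ => φ (circleMap 0 r t)) (𝓝[<] 1) (𝓝 (p t)))
    (hT : ∀ a : L2, ∀ z, ‖z‖ < 1 → FF (T a) z = FF a (φ z))
    (hS : ∀ a : L2, ∀ z, ‖z‖ < 1 → FF (S a) z = z * FF a z) (a : L2) {F : ℂ → ℂ}
    (hF : ContinuousOn F (closedBall 0 1)) (mF : Measurable F) (e : ∀ z, ‖z‖ < 1 → FF a z = F z)
    (n m : ℕ) : ‖(T * S ^ n) a‖ ^ 2 - ‖(T * S ^ m) a‖ ^ 2 = (2 * Real.pi)⁻¹ *
      (∫ t, wt p n t * ‖F (p t)‖ ^ 2 ∂ν0 - ∫ t, wt p m t * ‖F (p t)‖ ^ 2 ∂ν0) := by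
  obtain ⟨B, hB⟩ := (isCompact_closedBall (0 : ℂ) 1).exists_bound_of_continuousOn hF
  have b1 : ∀ t, ‖F (p t)‖ ≤ B := fun t => hB _ (mem_closedBall_zero_iff.2 (p1 t))
  have e1 : ∀ n, ‖(T * S ^ n) a‖ ^ 2 = (2 * Real.pi)⁻¹ * ∫ t, ‖p t ^ n * F (p t)‖ ^ 2 ∂ν0 := fun n =>
    nrm hm hb hT _ (F := fun z => z ^ n * F z) ((continuous_pow n).continuousOn.mul hF)
      fun z hz => (shift hS n a hz).trans (by rw [e z hz])
  have i1 : ∀ n, Integrable (fun t => ‖p t ^ n * F (p t)‖ ^ 2) ν0 := fun n =>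
    ib (by fun_prop) (B ^ 2) fun t => by
      rw [norm_pow, norm_norm, norm_mul, norm_pow]
      exact pow_le_pow_left₀ (by positivity) ((mul_le_of_le_one_left (norm_nonneg _)
        (pow_le_one₀ (norm_nonneg _) (p1 t))).trans (b1 t)) 2
  have i2 : ∀ n, Integrable (fun t => wt p n t * ‖F (p t)‖ ^ 2) ν0 := fun n =>
    wti hp n (by fun_prop) (B := B ^ 2) fun t => by
      rw [norm_pow, norm_norm]; exact pow_le_pow_left₀ (norm_nonneg _) (b1 t) 2
  rw [e1, e1, ← mul_sub, ← integral_sub (i1 n) (i1 m), ← integral_sub (i2 n) (i2 m)]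
  refine congrArg _ (integral_congr_ae (Eventually.of_forall fun t => ?_))
  simp only [wt, norm_mul, norm_pow]
  split_ifs with h
  · ring
  · rw [le_antisymm (p1 t) (not_lt.1 h)]; ring

lemma hil1 (U V : L2 →L[ℂ] L2) (a : L2) :
    ‖U a‖ ^ 2 - ‖V a‖ ^ 2 = (star U * U - star V * V).reApplyInnerSelf a := by
  rw [ContinuousLinearMap.apply_norm_sq_eq_inner_adjoint_left,
    ContinuousLinearMap.apply_norm_sq_eq_inner_adjoint_left, ← map_sub, ← inner_sub_left]
  rfl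

lemma hil2 (U V : L2 →L[ℂ] L2) (a : L2) :
    ‖U a‖ ^ 2 - ‖V a‖ ^ 2 ≤ ‖star U * U - star V * V‖ * ‖a‖ ^ 2 := by
  rw [hil1, sq, ← mul_assoc]
  exact (RCLike.re_le_norm _).trans ((norm_inner_le_norm _ _).trans
    (mul_le_mul_of_nonneg_right (ContinuousLinearMap.le_opNorm _ _) (norm_nonneg _)))

lemma hil3 (U V : L2 →L[ℂ] L2) {ε : ℝ} (h0 : 0 ≤ ε)
    (h : ∀ a, |‖U a‖ ^ 2 - ‖V a‖ ^ 2| ≤ ε * ‖a‖ ^ 2) : ‖star U * U - star V * V‖ ≤ ε := by
  rw [ContinuousLinearMap.norm_eq_iSup_rayleighQuotient _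
    ((IsSelfAdjoint.star_mul_self U).sub (IsSelfAdjoint.star_mul_self V)).isSymmetric]
  refine ciSup_le fun a => ?_
  rw [ContinuousLinearMap.rayleighQuotient, abs_div, abs_sq, ← hil1]
  exact div_le_of_le_mul₀ (sq_nonneg _) h0 (h a)

theorem main0 (hm : ∀ z, ‖z‖ < 1 → ‖φ z‖ < 1) (hp : Measurable p) (p1 : ∀ t, ‖p t‖ ≤ 1)
    (hb : ∀ᵐ t ∂ν0, Tendsto (fun r : ℝ => φ (circleMap 0 r t)) (𝓝[<] 1) (𝓝 (p t)))
    (hT : ∀ a : L2, ∀ z, ‖z‖ < 1 → FF (T a) z = FF a (φ z))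
    (hS : ∀ a : L2, ∀ z, ‖z‖ < 1 → FF (S a) z = z * FF a z) :
    CauchySeq (fun n => star (T * S ^ n) * (T * S ^ n)) ↔
      Tendsto (fun x => ∫ t, wt p 0 t * kk (p t) x ∂ν0) (comap norm (𝓝[<] 1)) (𝓝 0) := by
  have c0 : 0 < (2 * Real.pi)⁻¹ := by positivity
  have kb : ∀ {x : ℂ} {r : ℝ}, ‖x‖ ≤ r → r < 1 → ∀ t, ‖kk (p t) x‖ ≤ 1 / (1 - r) ^ 2 := fun h1 h2 t => by
    rw [Real.norm_of_nonneg (kk_nonneg _ (h1.trans h2.le))]; exact kk_le (p1 t) h1 h2
  have km : ∀ x, Measurable fun t => kk (p t) x := fun x => kk_meas hp measurable_const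
  have ev : ∀ᶠ x : ℂ in comap norm (𝓝[<] 1), ‖x‖ < 1 := tendsto_comap.eventually self_mem_nhdsWithin
  constructor
  · intro h
    rw [Metric.tendsto_nhds]
    intro ε hε
    obtain ⟨N, hN⟩ := Metric.cauchySeq_iff'.1 h ((2 * Real.pi)⁻¹ * (ε / 2)) (by positivity)
    have a1 : ∀ x : ℂ, ‖x‖ < 1 → ∫ t, wt p N t * kk (p t) x ∂ν0 ≤ ε / 2 := fun x hx => by
      have x0 := Jc.sq_pos' hx
      have s1 : HasSum (fun k : ℕ => ‖conj x ^ k‖ ^ 2) (1 - ‖x‖ ^ 2)⁻¹ := by
        simpa only [norm_pow, norm_conj, ← pow_mul, mul_comm 2] using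
          hasSum_geometric_of_lt_one (sq_nonneg ‖x‖) (by linarith)
      set a : L2 := ⟨fun k => conj x ^ k, (memℓp_gen_iff (by simp)).2 (by simpa using s1.summable)⟩
      have n1 : ‖a‖ ^ 2 = (1 - ‖x‖ ^ 2)⁻¹ := (l2_sum a).unique s1
      have hF : ContinuousOn (fun z => (1 - conj x * z)⁻¹) (closedBall 0 1) :=
        ContinuousOn.inv₀ (by fun_prop) fun z hz => norm_pos_iff.1
          (by linarith [den_ge (x := x) (mem_closedBall_zero_iff.1 hz)])
      have d := dif hm hp p1 hb hT hS a hF (by fun_prop) (fun z hz => by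
        rw [FF, ← tsum_geometric_of_norm_lt_one (by
          rw [norm_mul, norm_conj]; nlinarith [norm_nonneg x, norm_nonneg z])]
        simp only [mul_pow]; rfl) N
      have e1 : ∀ n, ∫ t, wt p n t * kk (p t) x ∂ν0 =
          (1 - ‖x‖ ^ 2) * ∫ t, wt p n t * ‖(1 - conj x * p t)⁻¹‖ ^ 2 ∂ν0 := fun n => by
        rw [← integral_const_mul]
        exact integral_congr_ae (Eventually.of_forall fun t => by
          simp only [kk, norm_inv, inv_pow, div_eq_mul_inv]; ring)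
      have t := (wtl hp (km x) (kb le_rfl hx)).add_const (ε / 2)
      rw [zero_add] at t
      refine ge_of_tendsto t ((eventually_ge_atTop N).mono fun m hm => ?_)
      have b1 := hil2 (T * S ^ N) (T * S ^ m) a
      have b2 := hN m hm
      rw [dist_comm, dist_eq_norm] at b2
      rw [d m, n1] at b1
      have b3 := le_of_mul_le_mul_left ((b1.trans (mul_le_mul_of_nonneg_right b2.le
        (by positivity))).trans_eq (mul_assoc _ _ _)) c0
      rw [← div_eq_mul_inv, le_div_iff₀ x0] at b3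
      rw [e1, e1]; linarith
    have a2 := tendsto_integral_filter_of_dominated_convergence (μ := ν0) (l := comap norm (𝓝[<] 1))
      (F := fun (x : ℂ) t => (wt p 0 t - wt p N t) * kk (p t) x) (f := fun _ => 0) (fun _ => (N : ℝ))
      (Eventually.of_forall fun x => (((wtm hp 0).sub (wtm hp N)).mul (km x)).aestronglyMeasurable)
      (ev.mono fun x hx => Eventually.of_forall fun t => by
        simp only [wt]
        split_ifs with h
        · have q0 := Jc.sq_pos' h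
          have b1 := one_add_mul_le_pow (a := ‖p t‖ ^ 2 - 1) (by nlinarith [sq_nonneg ‖p t‖]) N
          have b2 : (‖p t‖ ^ 2) ^ N ≤ 1 := pow_le_one₀ (sq_nonneg _) (by linarith)
          have b3 : (1 - ‖p t‖ ^ 2) * kk (p t) x ≤ 1 := by
            rw [kk, ← mul_div_assoc]
            exact div_le_one_of_le₀ (by nlinarith [Jc.mob_id x (p t), sq_nonneg ‖p t - x‖]) (sq_nonneg _)
          have b4 := kk_nonneg (p t) hx.le
          rw [add_sub_cancel] at b1
          rw [Real.norm_of_nonneg (mul_nonneg (by simpa using b2) b4), pow_zero]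
          nlinarith [mul_le_mul_of_nonneg_left b3 (Nat.cast_nonneg (α := ℝ) N),
            mul_le_mul_of_nonneg_right b1 b4]
        · simp) (integrable_const _)
      (Eventually.of_forall fun t => by
        simp only [wt]
        split_ifs with h
        · rw [← mul_zero ((‖p t‖ ^ 2) ^ 0 - (‖p t‖ ^ 2) ^ N)]
          refine Tendsto.const_mul _ (squeeze_zero' (g := fun x => (1 - ‖x‖ ^ 2) / (1 - ‖p t‖) ^ 2)
            (ev.mono fun x hx => kk_nonneg _ hx.le) (ev.mono fun x hx => ?_) ?_)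
          · refine div_le_div_of_nonneg_left (Jc.sq_pos' hx).le (pow_pos (by linarith) 2)
              (pow_le_pow_left₀ (by linarith) ?_ 2)
            rw [den_symm]; exact den_ge hx.le
          · have c : Continuous fun r : ℝ => (1 - r ^ 2) / (1 - ‖p t‖) ^ 2 := by fun_prop
            simpa [Function.comp_def] using ((c.tendsto 1).mono_left nhdsWithin_le_nhds).comp
              (tendsto_comap (f := (norm : ℂ → ℝ)) (x := 𝓝[<] 1))
        · simp only [sub_self, zero_mul]; exact tendsto_const_nhds)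
    rw [integral_zero] at a2
    filter_upwards [ev, a2.eventually (gt_mem_nhds (half_pos hε))] with x hx h2
    simp only [sub_mul] at h2
    rw [integral_sub (wti hp 0 (km x) (kb le_rfl hx)) (wti hp N (km x) (kb le_rfl hx))] at h2
    rw [dist_zero_right, Real.norm_of_nonneg
      (integral_nonneg fun t => mul_nonneg (wt0 _ _) (kk_nonneg _ hx.le))]
    linarith [a1 x hx]
  · intro h
    refine Metric.cauchySeq_iff.2 fun ε hε => ?_
    set C := ε / 200
    have hC : 0 < C := by positivity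
    obtain ⟨r, r1, hr⟩ := mem_nhdsLT_iff_exists_Ioo_subset.1
      (eventually_comap.1 (h.eventually (gt_mem_nhds hC)))
    obtain ⟨N, hN⟩ := eventually_atTop.1 ((wtl hp (G := fun _ => 1 / (1 - r) ^ 2) measurable_const
      fun _ => le_rfl).eventually (gt_mem_nhds hC))
    have a1 : ∀ n ≥ N, ∀ x, ‖x‖ < 1 → ∫ t, wt p n t * kk (p t) x ∂ν0 ≤ C := fun n hn x hx => by
      rcases le_or_gt ‖x‖ r with h1 | h1
      · exact (integral_mono (wti hp n (km x) (kb le_rfl hx)) (wti hp n measurable_const fun _ => le_rfl)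
          fun t => mul_le_mul_of_nonneg_left (kk_le (p1 t) h1 r1) (wt0 _ _)).trans (hN n hn).le
      · refine (integral_mono (wti hp n (km x) (kb le_rfl hx)) (wti hp 0 (km x) (kb le_rfl hx))
          fun t => mul_le_mul_of_nonneg_right ?_ (kk_nonneg _ hx.le)).trans (hr ⟨h1, hx⟩ x rfl).le
        have := wt1 (p := p) n t
        unfold wt at this ⊢
        split_ifs at this ⊢
        · rwa [pow_zero]
        · rfl
    refine ⟨N, fun n hn m hm' => ?_⟩
    rw [dist_eq_norm]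
    refine (hil3 _ _ (ε := ε / 2) (by positivity) fun a => ?_).trans_lt (half_lt_self hε)
    have t := (lp.hasSum_single (by simp) a).tendsto_sum_nat
    refine le_of_tendsto' ((((T * S ^ n).continuous.tendsto a).comp t).norm.pow 2 |>.sub
      ((((T * S ^ m).continuous.tendsto a).comp t).norm.pow 2)).abs fun M => ?_
    have d := dif hm hp p1 hb hT hS (∑ k ∈ Finset.range M, lp.single 2 k (a k))
      (F := fun z => ∑ k ∈ Finset.range M, a k * z ^ k) (by fun_prop)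
      (Finset.measurable_sum _ fun k _ => by fun_prop) (fun z _ => by
        have e0 : ∀ k, (∑ k ∈ Finset.range M, lp.single 2 k (a k) : L2) k =
            if k ∈ Finset.range M then a k else 0 := fun k => by
          rw [lp.coeFn_sum, Finset.sum_apply]
          simp only [lp.single_apply, Pi.single_apply, Finset.sum_ite_eq]
        rw [FF, tsum_eq_sum (s := Finset.range M) fun k hk => by rw [e0, if_neg hk, zero_mul]]
        exact Finset.sum_congr rfl fun k hk => by rw [e0, if_pos hk]) n m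
    have b1 := fun n (hn : n ≥ N) => embw hp p1 (wtm hp n) (wt0 n) (wt1 n) hC (a1 n hn) a M
    have b2 : ∀ n, 0 ≤ ∫ s, wt p n s * ‖∑ k ∈ Finset.range M, a k * p s ^ k‖ ^ 2 ∂ν0 := fun n =>
      integral_nonneg fun t => mul_nonneg (wt0 _ _) (sq_nonneg _)
    have b3 := mul_le_mul_of_nonneg_left (l2_fin a M) hC.le
    have b4 : (2 * Real.pi)⁻¹ ≤ 1 := inv_le_one_of_one_le₀ (by linarith [Real.pi_gt_three])
    simp only [Function.comp]
    rw [d, abs_mul, abs_of_pos c0]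
    refine (mul_le_of_le_one_left (abs_nonneg _) b4).trans (abs_le.2 ⟨?_, ?_⟩)
    · have := b1 m hm'; have := b2 n; simp only [C] at *; nlinarith [sq_nonneg ‖a‖]
    · have := b1 n hn; have := b2 m; simp only [C] at *; nlinarith [sq_nonneg ‖a‖]

theorem main (hφ : DifferentiableOn ℂ φ (ball 0 1)) (hm : ∀ z, ‖z‖ < 1 → ‖φ z‖ < 1)
    (hT : ∀ a : L2, ∀ z, ‖z‖ < 1 → FF (T a) z = FF a (φ z))
    (hS : ∀ a : L2, ∀ z, ‖z‖ < 1 → FF (S a) z = z * FF a z) {b : ℝ → ℂ}
    (hb : b = fun t => limUnder (𝓝[<] 1) fun r : ℝ => φ (circleMap 0 r t)) :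
    (∃ A, Tendsto (fun n => star S ^ n * (star T * T) * S ^ n) atTop (𝓝 A)) ↔
      Tendsto (fun x => ∫ t, if ‖b t‖ < 1 then kk (b t) x else 0 ∂ν0) (comap norm (𝓝[<] 1)) (𝓝 0) := by
  obtain ⟨c, hc⟩ := fatou hφ fun z hz => (hm z hz).le
  have h1 : ∀ᵐ t ∂ν0, Tendsto (fun r : ℝ => φ (circleMap 0 r t)) (𝓝[<] 1) (𝓝 (b t)) :=
    ae_restrict_of_ae (hc.mono fun t ht => by rw [hb]; exact tendsto_nhds_limUnder ⟨_, ht⟩)
  have h2 := b_meas hφ h1
  have h3 := h2.measurable_mk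
  set p : ℝ → ℂ := fun t => if ‖h2.mk b t‖ ≤ 1 then h2.mk b t else 0
  have h4 : ∀ᵐ t ∂ν0, p t = b t := by
    filter_upwards [h2.ae_eq_mk, b_le hm h1] with t e1 e2
    simp only [p, ← e1, if_pos e2]
  have := main0 hm (p := p) (Measurable.ite (measurableSet_le h3.norm measurable_const) h3
    measurable_const) (fun t => by simp only [p]; split_ifs with h; exacts [h, by simp])
    (by filter_upwards [h1, h4] with t e1 e2; rwa [e2]) hT hS
  simp only [star_mul, star_pow, ← mul_assoc] at this ⊢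
  rw [← cauchy_map_iff_exists_tendsto]
  refine this.trans (tendsto_congr fun x => integral_congr_ae (h4.mono fun t e => ?_))
  simp only [wt, e, pow_zero, ite_mul, one_mul, zero_mul]

end Pool.Agent.H1.Car
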