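import Mathlib

namespace Pool.Agent.H1.Cat

open Metric Filter Topology Set Complex InnerProductSpace
open scoped Real

abbrev E := EuclideanSpace ℝ (Fin 3)

def CH (Ω : Set E) (g : ℂ → E) : Prop :=
  ContDiffOn ℝ 2 g (ball (0 : ℂ) 1) ∧ (∀ z ∈ ball (0 : ℂ) 1, g z ∈ Ω) ∧
    (∀ z ∈ ball (0 : ℂ) 1, ‖fderiv ℝ g z (1 : ℂ)‖ = ‖fderiv ℝ g z I‖ ∧
      inner ℝ (fderiv ℝ g z (1 : ℂ)) (fderiv ℝ g z I) = 0) ∧
    (∀ z ∈ ball (0 : ℂ) 1, fderiv ℝ (fun w => fderiv ℝ g w (1 : ℂ)) z (1 : ℂ) +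
      fderiv ℝ (fun w => fderiv ℝ g w I) z I = 0)

lemma schwarz {Ω : Set E} {g : ℂ → E} (h : CH Ω g) (hΩ : ∀ x ∈ Ω, |x 2| < π / 2) (h0 : g 0 = 0) :
    fderiv ℝ g 0 I 2 ≤ 2 := by
  have b0 : ball (0 : ℂ) 1 ∈ 𝓝 0 := ball_mem_nhds _ one_pos
  have hg : HarmonicOnNhd g (ball 0 1) := fun z hz => ⟨h.1.contDiffAt (isOpen_ball.mem_nhds hz), by
    filter_upwards [isOpen_ball.mem_nhds hz] with w hw
    have d : DifferentiableAt ℝ (fderiv ℝ g) w := ((h.1.contDiffAt (isOpen_ball.mem_nhds hw)).fderiv_right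
      (m := 1) le_rfl).differentiableAt one_ne_zero
    have := h.2.2.2 w hw
    rw [fderiv_clm_apply d (by fun_prop), fderiv_clm_apply d (by fun_prop)] at this
    simpa [laplacian_eq_iteratedFDeriv_complexPlane, iteratedFDeriv_two_apply] using this⟩
  obtain ⟨F, hF, e⟩ := (hg.comp_CLM (EuclideanSpace.proj (𝕜 := ℝ) (2 : Fin 3))).exists_analyticOnNhd_ball_re_eq
  have q : ∀ z ∈ ball (0 : ℂ) 1, 0 < (exp (I * (F z - F 0))).re := fun z hz => by
    have e1 : (F z).re = g z 2 := e hz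
    have e0 : (F 0).re = g 0 2 := e (mem_of_mem_nhds b0)
    rw [exp_re]
    refine mul_pos (Real.exp_pos _) (Real.cos_pos_of_mem_Ioo ?_)
    simpa [e1, e0, h0] using abs_lt.1 (hΩ _ (h.2.1 z hz))
  have n : ∀ z ∈ ball (0 : ℂ) 1, exp (I * (F z - F 0)) + 1 ≠ 0 := fun z hz k => by
    have := congrArg re k
    simp only [add_re, one_re, zero_re] at this; linarith [q z hz]
  have dE : DifferentiableOn ℂ (fun z => exp (I * (F z - F 0))) (ball 0 1) :=
    ((hF.differentiableOn.sub_const _).const_mul _).cexp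
  have s := norm_deriv_le_one_of_mapsTo_ball (f := fun z => (exp (I * (F z - F 0)) - 1) /
    (exp (I * (F z - F 0)) + 1)) ((dE.sub_const _).div (dE.add_const _) n) (fun z hz => by
      simp only [sub_self, mul_zero, exp_zero, zero_div, mem_closedBall_zero_iff, norm_div]
      refine div_le_one_of_le₀ ?_ (norm_nonneg _)
      rw [← sq_le_sq₀ (norm_nonneg _) (norm_nonneg _), Complex.sq_norm, Complex.sq_norm, normSq_apply,
        normSq_apply]
      simp only [sub_re, sub_im, add_re, add_im, one_re, one_im]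
      linarith [q z hz]) one_pos
  have d := (hF 0 (mem_of_mem_nhds b0)).differentiableAt.hasDerivAt
  have d1 := ((d.sub_const (F 0)).const_mul I).cexp
  rw [((d1.sub_const 1).fun_div (d1.add_const 1) (n 0 (mem_of_mem_nhds b0))).deriv] at s
  have d2 := ((EuclideanSpace.proj (𝕜 := ℝ) (2 : Fin 3)).hasFDerivAt.comp 0 ((h.1.contDiffAt
    b0).differentiableAt two_ne_zero).hasFDerivAt).unique ((reCLM.hasFDerivAt.comp 0
      (d.hasFDerivAt.restrictScalars ℝ)).congr_of_eventuallyEq (mem_of_superset b0 e.symm))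
  have := congrArg (· I) d2
  simp at this s
  rw [this]
  norm_num at s
  linarith [neg_abs_le (deriv F 0).im, abs_im_le_norm (deriv F 0)]

noncomputable def L : (Fin 3 → ℂ) →L[ℝ] E :=
  (EuclideanSpace.equiv (Fin 3) ℝ).symm.toContinuousLinearMap ∘L
    ContinuousLinearMap.pi fun i => reCLM ∘L ContinuousLinearMap.proj i

lemma L_ap (v : Fin 3 → ℂ) (i : Fin 3) : L v i = (v i).re := rfl

lemma fd {Φ : ℂ → Fin 3 → ℂ} {z : ℂ} {v : Fin 3 → ℂ} (h : HasDerivAt Φ v z) (c : ℂ) :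
    fderiv ℝ (fun z => L (Φ z)) z c = L (c • v) := by
  have := (L.hasFDerivAt.comp z (h.hasFDerivAt.restrictScalars ℝ)).fderiv
  exact congrArg (· c) this

lemma ch {Ω : Set E} {Φ : ℂ → Fin 3 → ℂ} (h : DifferentiableOn ℂ Φ (ball 0 1))
    (h1 : ∀ z ∈ ball (0 : ℂ) 1, L (Φ z) ∈ Ω)
    (h2 : ∀ z ∈ ball (0 : ℂ) 1, ∑ i, deriv Φ z i ^ 2 = 0) : CH Ω fun z => L (Φ z) := by
  have d : ∀ z ∈ ball (0 : ℂ) 1, HasDerivAt Φ (deriv Φ z) z := fun z hz =>
    (h.differentiableAt (isOpen_ball.mem_nhds hz)).hasDerivAt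
  refine ⟨L.contDiff.comp_contDiffOn ((h.contDiffOn isOpen_ball).restrict_scalars ℝ), h1,
    fun z hz => ?_, fun z hz => ?_⟩
  · have a := congrArg re (h2 z hz)
    have b := congrArg im (h2 z hz)
    rw [fd (d z hz), fd (d z hz), EuclideanSpace.norm_eq, EuclideanSpace.norm_eq]
    simp [Fin.sum_univ_three, pow_two, L_ap, PiLp.inner_apply] at a b ⊢
    exact ⟨congrArg _ (by linarith), by linarith⟩
  · have e : ∀ c : ℂ, fderiv ℝ (fun w => fderiv ℝ (fun z => L (Φ z)) w c) z c =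
        L (c • c • deriv (deriv Φ) z) := fun c => by
      rw [← fd (((h.deriv isOpen_ball).differentiableAt (isOpen_ball.mem_nhds hz)).hasDerivAt.const_smul c)]
      congr 1
      exact Filter.EventuallyEq.fderiv_eq (mem_of_superset (isOpen_ball.mem_nhds hz) fun w hw =>
        fd (d w hw) c)
    rw [e, e, ← map_add, smul_smul, smul_smul, I_mul_I]; simp

noncomputable def W (z : ℂ) : ℂ := log ((1 + z) / (1 - z))

lemma Wp {z : ℂ} (hz : z ∈ ball (0 : ℂ) 1) : 1 - z ≠ 0 ∧ 0 < ((1 + z) / (1 - z)).re := by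
  have n : 1 - z ≠ 0 := fun e => by rw [← sub_eq_zero.1 e] at hz; simp at hz
  have l : normSq z < 1 := by
    rw [normSq_eq_norm_sq]; exact pow_lt_one₀ (norm_nonneg z) (mem_ball_zero_iff.1 hz) two_ne_zero
  refine ⟨n, ?_⟩
  rw [div_re, ← add_div]
  refine div_pos ?_ (normSq_pos.2 n)
  rw [normSq_apply] at l
  simp; linarith

lemma Wd {z : ℂ} (hz : z ∈ ball (0 : ℂ) 1) : DifferentiableAt ℂ W z :=
  (DifferentiableAt.div (by fun_prop) (by fun_prop) (Wp hz).1).clog (Or.inl (Wp hz).2)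

lemma W0 : HasDerivAt W 2 0 := by
  refine ((((hasDerivAt_id (0 : ℂ)).const_add 1).fun_div ((hasDerivAt_id (0 : ℂ)).const_sub 1)
    (by simp)).clog (by simp)).congr_deriv ?_
  norm_num

noncomputable def Φ (a : ℝ) (z : ℂ) : Fin 3 → ℂ := ![sin (W z), a * (1 - cos (W z)), -I * W z]

lemma Φd (a : ℝ) {z w : ℂ} (h : HasDerivAt W w z) :
    HasDerivAt (Φ a) ![cos (W z) * w, a * (sin (W z) * w), -I * w] z := by
  refine hasDerivAt_pi.2 fun i => ?_
  fin_cases i
  · exact h.csin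
  · simpa [Φ] using (h.ccos.const_sub 1).const_mul (a : ℂ)
  · exact h.const_mul (-I)

lemma cat {Ω : Set E} (hΩ : ∀ x : E, |x 2| < π / 2 → x 0 ^ 2 + x 1 ^ 2 ≤ 2 * (1 + Real.cosh 2) ^ 2 →
    x ∈ Ω) {a : ℝ} (ha : a ^ 2 = 1) : CH Ω fun z => L (Φ a z) := by
  refine ch (fun z hz => (Φd a (Wd hz).hasDerivAt).differentiableAt.differentiableWithinAt)
    (fun z hz => ?_) fun z hz => ?_
  · have t : |(W z).im| < π / 2 := by
      rw [W, log_im]; exact abs_arg_lt_pi_div_two_iff.2 (Or.inl (Wp hz).2)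
    refine hΩ _ (by simpa [L_ap, Φ] using t) ?_
    have c : Real.cosh (W z).im ≤ Real.cosh 2 := Real.cosh_le_cosh.2 (by
      rw [abs_two]; linarith [Real.pi_le_four])
    have := Real.cosh_pos (W z).im
    simp only [L_ap, Φ, Matrix.cons_val_zero, Matrix.cons_val_one, re_ofReal_mul, mul_pow, ha]
    have s1 : (sin (W z)).re = Real.sin (W z).re * Real.cosh (W z).im := by
      rw [sin_eq]; simp [sin_ofReal_re]
    have s2 : (cos (W z)).re = Real.cos (W z).re * Real.cosh (W z).im := by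
      rw [cos_eq]; simp [cos_ofReal_re]
    rw [sub_re, one_re, s1, s2]
    have := mul_le_mul_of_nonneg_right (Real.neg_one_le_cos (W z).re) (Real.cosh_pos (W z).im).le
    have : (Real.sin (W z).re * Real.cosh (W z).im) ^ 2 + (Real.cos (W z).re * Real.cosh (W z).im) ^ 2
      = Real.cosh (W z).im ^ 2 := by linear_combination Real.cosh (W z).im ^ 2 * Real.sin_sq_add_cos_sq (W z).re
    nlinarith
  · rw [(Φd a (Wd hz).hasDerivAt).deriv]
    have : (a : ℂ) ^ 2 = 1 := by exact_mod_cast ha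
    simp only [Fin.sum_univ_three, Matrix.cons_val_zero, Matrix.cons_val_one, Matrix.cons_val]
    linear_combination deriv W z ^ 2 * (sin_sq_add_cos_sq (W z) + sin (W z) ^ 2 * this + I_mul_I)

noncomputable def χ (s : ℝ) : ℝ := s * expNegInvGlue s

lemma χc : ConvexOn ℝ univ χ ∧ Monotone χ := by
  have d1 : ∀ s, HasDerivAt χ ((1 + Polynomial.X : Polynomial ℝ).eval s⁻¹ * expNegInvGlue s) s :=
    fun s => by
    refine ((hasDerivAt_id s).fun_mul (by
      simpa using expNegInvGlue.hasDerivAt_polynomial_eval_inv_mul 1 s)).congr_deriv ?_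
    by_cases h : s = 0
    · simp [h]
    · simp; field_simp
  have e : deriv χ = _ := funext fun s => (d1 s).deriv
  have p : ∀ (s : ℝ) (c : ℝ), (0 < s → 0 ≤ c) → 0 ≤ c * expNegInvGlue s := fun s c h =>
    (le_or_gt s 0).elim (fun l => by simp [expNegInvGlue.zero_of_nonpos l]) fun l =>
      mul_nonneg (h l) (expNegInvGlue.nonneg s)
  refine ⟨convexOn_univ_of_deriv2_nonneg (fun s => (d1 s).differentiableAt)
    (e ▸ expNegInvGlue.differentiable_polynomial_eval_inv_mul _) fun s => ?_,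
    monotone_of_deriv_nonneg (fun s => (d1 s).differentiableAt) fun s => ?_⟩
  · simp only [Function.iterate_succ, Function.iterate_zero, Function.comp, id, e]
    rw [(expNegInvGlue.hasDerivAt_polynomial_eval_inv_mul _ s).deriv]
    exact p _ _ fun h => by simp; positivity
  · rw [e]; exact p _ _ fun h => by simp; positivity

noncomputable def ρ (R : ℝ) (x : E) : ℝ := x 2 ^ 2 - (π / 2) ^ 2 + χ (x 0 ^ 2 + x 1 ^ 2 - R)

lemma χ0 (s : ℝ) : 0 ≤ χ s ∧ (s ≤ 0 → χ s = 0) :=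
  ⟨(le_total s 0).elim (fun l => by simp [χ, expNegInvGlue.zero_of_nonpos l]) fun l =>
    mul_nonneg l (expNegInvGlue.nonneg s), fun l => by simp [χ, expNegInvGlue.zero_of_nonpos l]⟩

lemma ρc (R : ℝ) : ConvexOn ℝ univ (ρ R) := ⟨convex_univ, fun x _ y _ a b ha hb h => by
  have sq : ∀ u v : ℝ, (a * u + b * v) ^ 2 ≤ a * u ^ 2 + b * v ^ 2 := fun u v => by
    obtain rfl : b = 1 - a := by linarith
    nlinarith [mul_nonneg (mul_nonneg ha hb) (sq_nonneg (u - v))]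
  have h1 := χc.1.2 (mem_univ (x 0 ^ 2 + x 1 ^ 2 - R)) (mem_univ (y 0 ^ 2 + y 1 ^ 2 - R)) ha hb h
  have h2 := χc.2 (show (a * x 0 + b * y 0) ^ 2 + (a * x 1 + b * y 1) ^ 2 - R ≤
    a • (x 0 ^ 2 + x 1 ^ 2 - R) + b • (y 0 ^ 2 + y 1 ^ 2 - R) by
      simp only [smul_eq_mul]; linear_combination sq (x 0) (y 0) + sq (x 1) (y 1) + R * h)
  simp only [ρ, smul_eq_mul, PiLp.add_apply, PiLp.smul_apply] at *
  linear_combination h1 + h2 + sq (x 2) (y 2) + (π / 2) ^ 2 * h⟩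

lemma ρs (R : ℝ) : ContDiff ℝ ((⊤ : ℕ∞) : WithTop ℕ∞) (ρ R) := by
  have : ContDiff ℝ ((⊤ : ℕ∞) : WithTop ℕ∞) χ := contDiff_id.mul expNegInvGlue.contDiff
  unfold ρ; fun_prop

lemma ρb (R : ℝ) : Bornology.IsBounded {x | ρ R x < 0} := by
  have p := expNegInvGlue.pos_of_pos one_pos
  refine (isBounded_iff_forall_norm_le.2 ⟨√(5 + R + 4 / expNegInvGlue 1), fun x hx => ?_⟩)
  have hx : ρ R x < 0 := hx
  rw [EuclideanSpace.norm_eq]
  refine Real.sqrt_le_sqrt ?_
  simp only [ρ, Fin.sum_univ_three, Real.norm_eq_abs, sq_abs] at *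
  have h4 : (π / 2) ^ 2 ≤ 4 := by nlinarith [Real.pi_le_four, Real.pi_pos]
  have := (χ0 (x 0 ^ 2 + x 1 ^ 2 - R)).1
  have : x 0 ^ 2 + x 1 ^ 2 - R ≤ 1 + 4 / expNegInvGlue 1 := by
    rcases le_total (x 0 ^ 2 + x 1 ^ 2 - R) 1 with l | l
    · exact l.trans (le_add_of_nonneg_right (by positivity))
    · refine le_add_of_nonneg_of_le zero_le_one ((le_div_iff₀ p).2 ?_)
      have := mul_le_mul_of_nonneg_left (expNegInvGlue.monotone l) (zero_le_one.trans l)
      rw [χ] at hx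
      nlinarith [sq_nonneg (x 2)]
  linarith

lemma ρd {R : ℝ} (h0 : ρ R 0 < 0) {x : E} (hx : ρ R x = 0) : fderiv ℝ (ρ R) x ≠ 0 := fun e => by
  have d : HasFDerivAt (ρ R) (0 : E →L[ℝ] ℝ) ((1 : ℝ) • x) := by
    rw [one_smul, ← e]; exact ((ρs R).differentiable (by simp) x).hasFDerivAt
  have := ((ρc R).comp_linearMap (LinearMap.toSpanSingleton ℝ E x)).slope_le_of_hasDerivAt
    (mem_univ _) (mem_univ _) zero_lt_one (d.comp_hasDerivAt 1 ((hasDerivAt_id 1).smul_const x))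
  simp [slope_def_field, hx] at this
  linarith

end Pool.Agent.H1.Cat
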