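import Mathlib

set_option autoImplicit false

namespace Pool.Agent.H1.Cor

universe u

def SPP (A : Type) [NormedCommRing A] [NormedAlgebra ℂ A] : Prop :=
  ∀ (B : Type u) [NormedCommRing B] [NormedAlgebra ℂ B] [CompleteSpace B] (ι : A →ₐ[ℂ] B),
    Topology.IsClosedEmbedding ι → ∀ x : A, spectrum ℂ x = spectrum ℂ (ι x)

def InCortex {A : Type} [NormedCommRing A] [NormedAlgebra ℂ A] (φ : A →ₐ[ℂ] ℂ) : Prop :=
  ∀ (B : Type) [NormedCommRing B] [NormedAlgebra ℂ B] [CompleteSpace B] (ι : A →ₐ[ℂ] B),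
    Isometry ι → ∃ ψ : B →ₐ[ℂ] ℂ, ∀ x, ψ (ι x) = φ x

def IsTDZ {A : Type} [NormedCommRing A] (x : A) : Prop :=
  ∃ y : ℕ → A, (∀ n, ‖y n‖ = 1) ∧ Filter.Tendsto (fun n => ‖x * y n‖) Filter.atTop (nhds 0)

end Pool.Agent.H1.Cor
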