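import Mathlib
import Pool.Agent.H1.CorDefs

set_option autoImplicit false

namespace Pool.Agent.H1.Cor

open Set Metric Filter Topology

universe u

lemma spp_of_tdz (A : Type) [NormedCommRing A] [NormedAlgebra ℂ A]
    (h : ∀ x : A, ¬ IsUnit x → IsTDZ x) : SPP.{u} A := by
  intro B _ _ _ ι hι x
  ext c
  simp only [spectrum.mem_iff]
  have e : algebraMap ℂ B c - ι x = ι (algebraMap ℂ A c - x) := by simp
  rw [e]
  refine ⟨fun hx hu => ?_, fun hx hu => hx (hu.map ι)⟩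
  obtain ⟨y, hy, hy'⟩ := h _ hx
  set w := algebraMap ℂ A c - x
  have h1 : Tendsto (fun n => w * y n) atTop (𝓝 0) := tendsto_zero_iff_norm_tendsto_zero.2 hy'
  have h2 : Tendsto (fun n => ι (w * y n)) atTop (𝓝 (ι 0)) := (hι.continuous.tendsto 0).comp h1
  obtain ⟨v, hv⟩ := hu.exists_left_inv
  have h3 := h2.const_mul v
  simp only [map_mul, ← mul_assoc, hv, one_mul, map_zero, mul_zero] at h3
  have h4 : Tendsto y atTop (𝓝 0) := by
    rw [hι.isInducing.tendsto_nhds_iff]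
    simpa [Function.comp_def] using h3
  have h5 := h4.norm
  simp only [hy, norm_zero] at h5
  exact one_ne_zero (tendsto_nhds_unique tendsto_const_nhds h5)

abbrev II : Type := Icc (0 : ℝ) 1
abbrev DD : Type := closedBall (0 : ℂ) 1
abbrev KK : Type := II × DD

noncomputable def ρ (z : ℂ) : DD := ⟨z / ((max 1 ‖z‖ : ℝ) : ℂ), by
  have h : (0 : ℝ) < max 1 ‖z‖ := lt_of_lt_of_le one_pos (le_max_left _ _)
  rw [mem_closedBall_zero_iff, norm_div, Complex.norm_real, Real.norm_of_nonneg h.le,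
    div_le_one h]
  exact le_max_right _ _⟩

lemma ρ_cont : Continuous ρ := by
  refine Continuous.subtype_mk (Continuous.div continuous_id (by fun_prop) fun z => ?_) _
  have h : (0 : ℝ) < max 1 ‖z‖ := lt_of_lt_of_le one_pos (le_max_left _ _)
  exact_mod_cast h.ne'

lemma ρ_coe {z : ℂ} (hz : ‖z‖ ≤ 1) : (ρ z : ℂ) = z := by
  simp [ρ, max_eq_left hz]

lemma ρ_self (z : DD) : ρ z = z := Subtype.ext (ρ_coe (mem_closedBall_zero_iff.1 z.2))

def one' : II := ⟨1, by norm_num⟩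

noncomputable def AA : Subalgebra ℂ C(KK, ℂ) where
  carrier := {f | (∀ t, DifferentiableOn ℂ (fun z => f (t, ρ z)) (ball 0 1)) ∧
    ∀ z w, f (one', z) = f (one', w)}
  mul_mem' := fun {f g} hf hg => ⟨fun t => (hf.1 t).mul (hg.1 t), fun z w => by
    simp only [ContinuousMap.mul_apply]; rw [hf.2 z w, hg.2 z w]⟩
  add_mem' := fun {f g} hf hg => ⟨fun t => (hf.1 t).add (hg.1 t), fun z w => by
    simp only [ContinuousMap.add_apply]; rw [hf.2 z w, hg.2 z w]⟩
  algebraMap_mem' := fun c => ⟨fun t => by simp [differentiableOn_const], fun _ _ => by simp⟩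

lemma mem_AA {f : C(KK, ℂ)} : f ∈ AA ↔ (∀ t, DifferentiableOn ℂ (fun z => f (t, ρ z)) (ball 0 1)) ∧
    ∀ z w, f (one', z) = f (one', w) := Iff.rfl

lemma closed_AA : IsClosed (AA : Set C(KK, ℂ)) := by
  refine isClosed_of_closure_subset fun f hf => ?_
  obtain ⟨F, hF, hF'⟩ := mem_closure_iff_seq_limit.1 hf
  refine mem_AA.2 ⟨fun t => ?_, fun z w => ?_⟩
  · have h1 := ContinuousMap.tendsto_iff_tendstoUniformly.1 hF'
    have h2 := (h1.comp (fun z : ℂ => (t, ρ z))).tendstoUniformlyOn (s := ball 0 1)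
    exact h2.tendstoLocallyUniformlyOn.differentiableOn
      (Eventually.of_forall fun n => (mem_AA.1 (hF n)).1 t) isOpen_ball
  · have h1 := ((continuous_eval_const (one', z)).tendsto f).comp hF'
    have h2 := ((continuous_eval_const (one', w)).tendsto f).comp hF'
    refine tendsto_nhds_unique h1 (h2.congr fun n => ?_)
    exact ((mem_AA.1 (hF n)).2 z w).symm

instance : CompleteSpace AA := closed_AA.completeSpace_coe

lemma dcc (f : AA) (t : II) : DiffContOnCl ℂ (fun z => f.1 (t, ρ z)) (ball 0 1) :=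
  ⟨(mem_AA.1 f.2).1 t, (f.1.continuous.comp (continuous_const.prodMk ρ_cont)).continuousOn⟩

lemma maxp {g : ℂ → ℂ} (hg : DiffContOnCl ℂ g (ball 0 1)) {C : ℝ}
    (h : ∀ z, ‖z‖ = 1 → ‖g z‖ ≤ C) (z : DD) : ‖g z‖ ≤ C := by
  refine Complex.norm_le_of_forall_mem_frontier_norm_le isBounded_ball hg (fun w hw => ?_) ?_
  · rw [frontier_ball _ one_ne_zero, mem_sphere_zero_iff_norm] at hw
    exact h w hw
  · rw [closure_ball _ one_ne_zero]; exact z.2

lemma no_zero (f : AA) (h : ∀ p : KK, ‖(p.2 : ℂ)‖ = 1 → f.1 p ≠ 0) (p : KK) : f.1 p ≠ 0 := by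
  have hc : IsCompact {p : KK | ‖(p.2 : ℂ)‖ = 1} :=
    (isClosed_eq (by fun_prop) continuous_const).isCompact
  have e1 : DD := ⟨1, by simp⟩
  obtain ⟨q, hq, hq'⟩ := hc.exists_isMinOn ⟨(one', ⟨1, by simp⟩), by simp⟩
    (f := fun p => ‖f.1 p‖) (by fun_prop)
  have hm : 0 < ‖f.1 q‖ := norm_pos_iff.2 (h q hq)
  have hZ : Prod.fst '' {p : KK | f.1 p = 0} = Prod.fst '' {p : KK | ‖f.1 p‖ < ‖f.1 q‖} := by
    refine Subset.antisymm (image_mono fun p hp => ?_) ?_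
    · simp only [mem_ofPred_eq] at hp ⊢
      rw [hp, norm_zero]; exact hm
    · rintro _ ⟨⟨t, z⟩, hp, rfl⟩
      by_contra hne
      have hne' : ∀ w, f.1 (t, w) ≠ 0 := fun w hw => hne ⟨(t, w), hw, rfl⟩
      have h1 := maxp ((dcc f t).inv fun w _ => hne' _) (C := ‖f.1 q‖⁻¹) (fun w hw => by
        rw [Pi.inv_apply, norm_inv]
        exact inv_anti₀ hm (hq' (show ‖((t, ρ w).2 : ℂ)‖ = 1 by rw [ρ_coe hw.le, hw]))) z
      rw [Pi.inv_apply, norm_inv, ρ_self,
        inv_le_inv₀ (norm_pos_iff.2 (hne' z)) hm] at h1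
      exact absurd hp (not_lt.2 h1)
  have hcl : IsClopen (Prod.fst '' {p : KK | f.1 p = 0}) := by
    refine ⟨((isClosed_eq f.1.continuous continuous_const).isCompact.image
      continuous_fst).isClosed, ?_⟩
    rw [hZ]
    exact isOpenMap_fst _ (isOpen_lt (by fun_prop) continuous_const)
  intro hp
  have hu := hcl.eq_univ ⟨p.1, p, hp, rfl⟩
  have : one' ∈ Prod.fst '' {p : KK | f.1 p = 0} := hu ▸ mem_univ _
  obtain ⟨⟨t, z⟩, hz, rfl⟩ := this
  refine h (one', ⟨1, by simp⟩) (by simp) ?_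
  rw [(mem_AA.1 f.2).2 _ z]; exact hz

lemma isUnit_of (f : AA) (h : ∀ p, f.1 p ≠ 0) : IsUnit f := by
  let g : C(KK, ℂ) := ⟨fun p => (f.1 p)⁻¹, f.1.continuous.inv₀ h⟩
  have hg : g ∈ AA := mem_AA.2 ⟨fun t => ((mem_AA.1 f.2).1 t).inv fun _ _ => h _, fun z w => by
    simp only [g, ContinuousMap.coe_mk]; rw [(mem_AA.1 f.2).2 z w]⟩
  refine IsUnit.of_mul_eq_one ⟨g, hg⟩ (Subtype.ext ?_)
  ext p
  exact mul_inv_cancel₀ (h p)

lemma tdz_of_peak (f g : AA) (q : KK) (hq : g.1 q = 1) (hg : ∀ p, ‖g.1 p‖ ≤ 1)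
    (hf : ∀ p, ‖g.1 p‖ = 1 → f.1 p = 0) : IsTDZ f := by
  refine ⟨fun n => g ^ n, fun n => ?_, ?_⟩
  · change ‖g.1 ^ n‖ = 1
    refine le_antisymm ((ContinuousMap.norm_le _ zero_le_one).2 fun p => ?_) ?_
    · rw [ContinuousMap.pow_apply, norm_pow]; exact pow_le_one₀ (norm_nonneg _) (hg p)
    · have := (g.1 ^ n).norm_coe_le_norm q
      rwa [ContinuousMap.pow_apply, hq, one_pow, norm_one] at this
  · rw [Metric.tendsto_atTop]
    intro ε hε
    have hc : IsCompact {p : KK | ε / 2 ≤ ‖f.1 p‖} :=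
      (isClosed_le continuous_const (by fun_prop)).isCompact
    obtain ⟨θ, hθ0, hθ1, hθ⟩ : ∃ θ : ℝ, 0 ≤ θ ∧ θ < 1 ∧ ∀ p, ε / 2 ≤ ‖f.1 p‖ → ‖g.1 p‖ ≤ θ := by
      rcases {p : KK | ε / 2 ≤ ‖f.1 p‖}.eq_empty_or_nonempty with h | h
      · exact ⟨0, le_rfl, one_pos, fun p hp => absurd (show p ∈ (∅ : Set KK) from h ▸ hp)
          (notMem_empty p)⟩
      · obtain ⟨r, hr, hr'⟩ := hc.exists_isMaxOn h (f := fun p => ‖g.1 p‖) (by fun_prop)
        refine ⟨‖g.1 r‖, norm_nonneg _, lt_of_le_of_ne (hg r) fun e => ?_, fun p hp => hr' hp⟩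
        have h1 : ε / 2 ≤ ‖f.1 r‖ := hr
        rw [hf r e, norm_zero] at h1
        linarith
    have ht := (tendsto_pow_atTop_nhds_zero_of_lt_one hθ0 hθ1).const_mul ‖f.1‖
    rw [mul_zero] at ht
    obtain ⟨N, hN⟩ := eventually_atTop.1 (ht.eventually (gt_mem_nhds (half_pos hε)))
    refine ⟨N, fun n hn => ?_⟩
    rw [Real.dist_eq, sub_zero]
    change |‖f.1 * g.1 ^ n‖| < ε
    rw [abs_norm]
    refine lt_of_le_of_lt ((ContinuousMap.norm_le _ (half_pos hε).le).2 fun p => ?_)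
      (half_lt_self hε)
    rw [ContinuousMap.mul_apply, ContinuousMap.pow_apply, norm_mul, norm_pow]
    by_cases hp : ε / 2 ≤ ‖f.1 p‖
    · refine le_trans ?_ (hN n hn).le
      gcongr
      · exact f.1.norm_coe_le_norm p
      · exact hθ p hp
    · have := pow_le_one₀ (norm_nonneg _) (hg p) (n := n)
      have h2 := norm_nonneg (f.1 p)
      nlinarith [not_le.1 hp]

noncomputable def uu (c : ℂ) : AA :=
  ⟨⟨fun p => (1 - ((p.1 : ℝ) : ℂ)) * (c * p.2), by fun_prop⟩, mem_AA.2 ⟨fun t => by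
    refine DifferentiableOn.congr (f := fun z => (1 - ((t : ℝ) : ℂ)) * (c * z)) (by fun_prop) ?_
    intro z hz
    simp only [ContinuousMap.coe_mk]
    rw [ρ_coe (mem_ball_zero_iff.1 hz).le], fun z w => by simp [one']⟩⟩

noncomputable def vv (h : ℝ → ℝ) (hh : Continuous fun t : II => h t) : AA :=
  ⟨⟨fun p => ((h p.1 : ℝ) : ℂ), Complex.continuous_ofReal.comp (hh.comp continuous_fst)⟩,
    mem_AA.2 ⟨fun t => differentiableOn_const ((h t : ℝ) : ℂ), fun _ _ => rfl⟩⟩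

lemma tdz (f : AA) (hf : ¬ IsUnit f) : IsTDZ f := by
  obtain ⟨⟨s, ζ⟩, hζ, h0⟩ : ∃ p : KK, ‖(p.2 : ℂ)‖ = 1 ∧ f.1 p = 0 := by
    by_contra h
    push Not at h
    exact hf (isUnit_of f (no_zero f h))
  simp only at hζ
  have hpos : ∀ t : II, (0 : ℝ) < 2 - t := fun t => by have := t.2.2; linarith
  let g : AA := vv (fun t => (1 - |t - s| / 2) / (2 - t))
    (Continuous.div (by fun_prop) (by fun_prop) fun t => (hpos t).ne') *
      (1 + uu ((starRingEnd ℂ) ζ))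
  have hg : ∀ p : KK, g.1 p = (((1 - |(p.1 : ℝ) - s| / 2) / (2 - p.1) : ℝ) : ℂ) *
      (1 + (1 - ((p.1 : ℝ) : ℂ)) * ((starRingEnd ℂ) ζ * p.2)) := fun p => rfl
  have hζζ : (starRingEnd ℂ) ζ * ζ = 1 := by
    rw [Complex.conj_mul', hζ]; simp
  have ha : ∀ t : II, 0 < 1 - |(t : ℝ) - s| / 2 := fun t => by
    have : |(t : ℝ) - s| ≤ 1 := abs_le.2 ⟨by linarith [t.2.1, s.2.2], by linarith [t.2.2, s.2.1]⟩
    linarith
  have hw : ∀ z : DD, ‖(starRingEnd ℂ) ζ * z‖ ≤ 1 := fun z => by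
    rw [norm_mul, Complex.norm_conj, hζ, one_mul]; exact mem_closedBall_zero_iff.1 z.2
  have hb : ∀ p : KK, ‖1 + (1 - ((p.1 : ℝ) : ℂ)) * ((starRingEnd ℂ) ζ * p.2)‖ ≤ 2 - p.1 := by
    intro p
    refine (norm_add_le _ _).trans ?_
    have h1 : (0 : ℝ) ≤ 1 - p.1 := by linarith [p.1.2.2]
    rw [norm_one, norm_mul, ← Complex.ofReal_one, ← Complex.ofReal_sub, Complex.norm_real,
      Real.norm_of_nonneg h1]
    nlinarith [hw p.2]
  have hn : ∀ p : KK, ‖g.1 p‖ * (2 - p.1) = (1 - |(p.1 : ℝ) - s| / 2) *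
      ‖1 + (1 - ((p.1 : ℝ) : ℂ)) * ((starRingEnd ℂ) ζ * p.2)‖ := fun p => by
    rw [hg, norm_mul, Complex.norm_real, Real.norm_of_nonneg (div_pos (ha _) (hpos _)).le]
    field_simp [(hpos p.1).ne']
  refine tdz_of_peak f g (s, ζ) ?_ (fun p => ?_) (fun p hp => ?_)
  · rw [hg, hζζ]
    have : (2 : ℂ) - (s : ℝ) ≠ 0 := by exact_mod_cast (hpos s).ne'
    simp only [sub_self, abs_zero, zero_div, sub_zero]
    push_cast
    field_simp
    ring
  · have h1 := hn p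
    have h2 := hb p
    have h3 := ha p.1
    have h4 := abs_nonneg ((p.1 : ℝ) - s)
    have h5 := hpos p.1
    have h6 := norm_nonneg (1 + (1 - ((p.1 : ℝ) : ℂ)) * ((starRingEnd ℂ) ζ * p.2))
    by_contra hc
    nlinarith [not_le.1 hc]
  · obtain ⟨t, z⟩ := p
    have h1 := hn (t, z)
    have h2 := hb (t, z)
    have h4 := abs_nonneg ((t : ℝ) - s)
    have h5 := hpos t
    rw [hp, one_mul] at h1
    simp only at h1 h2
    set N := ‖1 + (1 - ((t : ℝ) : ℂ)) * ((starRingEnd ℂ) ζ * z)‖ with hN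
    have h6 : 0 ≤ N := norm_nonneg _
    have h7 : |(t : ℝ) - s| = 0 := by
      have h71 : |(t : ℝ) - s| * N ≤ 0 := by nlinarith
      have h72 : 0 < N := by
        rcases h6.eq_or_lt with e | e
        · rw [← e] at h1; linarith
        · exact e
      by_contra hc
      have := mul_pos (lt_of_le_of_ne h4 (Ne.symm hc)) h72
      linarith
    have hts : t = s := Subtype.ext (sub_eq_zero.1 (abs_eq_zero.1 h7))
    subst hts
    by_cases h8 : t = one'
    · subst h8; rw [(mem_AA.1 f.2).2 z ζ]; exact h0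
    have h9 : (0 : ℝ) < 1 - t := by
      have : (t : ℝ) ≠ 1 := fun e => h8 (Subtype.ext e)
      have := lt_of_le_of_ne t.2.2 this
      linarith
    rw [h7] at h1
    set w := (starRingEnd ℂ) ζ * z with hwdef
    have hw1 : ‖w‖ ≤ 1 := hw z
    have hsq : N ^ 2 = 1 + 2 * (1 - t) * w.re + (1 - t) ^ 2 * ‖w‖ ^ 2 := by
      rw [hN, Complex.sq_norm, Complex.sq_norm, Complex.normSq_apply, Complex.normSq_apply]
      simp
      ring
    have hw2 : ‖w‖ ^ 2 ≤ 1 := pow_le_one₀ (norm_nonneg _) hw1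
    have hre : 1 ≤ w.re := by
      have e : N = 2 - t := by linarith
      rw [e] at hsq
      by_contra hc
      nlinarith [mul_pos h9 (sub_pos.2 (not_le.1 hc)), mul_le_mul_of_nonneg_left hw2 (sq_nonneg (1 - (t : ℝ)))]
    have hw3 : w = 1 := by
      rw [Complex.sq_norm, Complex.normSq_apply] at hw2
      have him : w.im = 0 := by nlinarith
      have hre' : w.re = 1 := by nlinarith
      exact Complex.ext hre' him
    have hz : z = ζ := by
      apply Subtype.ext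
      have : (ζ : ℂ) * w = z := by
        rw [hwdef, ← mul_assoc, mul_comm (ζ : ℂ), hζζ, one_mul]
      rw [← this, hw3, mul_one]
    rw [hz]; exact h0

abbrev GG : Type := II × sphere (0 : ℂ) 1

def jj : C(GG, KK) := ⟨fun p => (p.1, ⟨p.2, sphere_subset_closedBall p.2.2⟩), by fun_prop⟩

noncomputable def res : AA →ₐ[ℂ] C(GG, ℂ) := (ContinuousMap.compRightAlgHom ℂ ℂ jj).comp AA.val

lemma res_iso : Isometry res := by
  refine AddMonoidHomClass.isometry_of_norm res fun f => le_antisymm ?_ ?_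
  · exact (ContinuousMap.norm_le _ (norm_nonneg _)).2 fun p => f.1.norm_coe_le_norm _
  · change ‖f.1‖ ≤ _
    refine (ContinuousMap.norm_le _ (norm_nonneg _)).2 fun p => ?_
    have := maxp (dcc f p.1) (C := ‖res f‖) (fun w hw => by
      have h1 := (res f).norm_coe_le_norm (p.1, ⟨w, mem_sphere_zero_iff_norm.2 hw⟩)
      have h2 : ρ w = ⟨w, mem_closedBall_zero_iff.2 hw.le⟩ := Subtype.ext (ρ_coe hw.le)
      rw [h2]; exact h1) p.2
    rwa [ρ_self] at this

noncomputable def ev0 : AA →ₐ[ℂ] ℂ :=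
  (ContinuousMap.evalAlgHom ℂ ℂ ((⟨0, by norm_num⟩, ⟨0, by simp⟩) : KK)).comp AA.val

lemma not_cortex : ¬ InCortex (A := AA) ev0 := by
  intro h
  obtain ⟨ψ, hψ⟩ := h C(GG, ℂ) res res_iso
  let a : C(GG, ℂ) := ⟨fun p => (starRingEnd ℂ) p.2, by fun_prop⟩
  have e : a * res (uu 1) + res (vv id continuous_subtype_val) = 1 := by
    ext p
    change (starRingEnd ℂ) p.2 * ((1 - ((p.1 : ℝ) : ℂ)) * (1 * p.2)) + ((p.1 : ℝ) : ℂ) = 1
    have : (starRingEnd ℂ) p.2 * p.2 = 1 := by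
      rw [Complex.conj_mul', mem_sphere_zero_iff_norm.1 p.2.2]; simp
    linear_combination (1 - ((p.1 : ℝ) : ℂ)) * this
  have e2 := congrArg ψ e
  rw [map_add, map_mul, hψ, hψ, map_one] at e2
  have e3 : ev0 (uu 1) = 0 := by simp [ev0, uu]
  have e4 : ev0 (vv id continuous_subtype_val) = 0 := by simp [ev0, vv]
  rw [e3, e4] at e2
  simp at e2

theorem main : ∃ (A : Type) (_ : NormedCommRing A) (_ : NormedAlgebra ℂ A) (_ : CompleteSpace A)
    (_ : NormOneClass A), SPP.{u} A ∧ (∀ x : A, ¬ IsUnit x → IsTDZ x) ∧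
      ∃ φ : A →ₐ[ℂ] ℂ, ¬ InCortex φ :=
  ⟨AA, inferInstance, inferInstance, inferInstance, ⟨by
    change ‖(1 : C(KK, ℂ))‖ = 1
    have : Nonempty KK := ⟨(one', ⟨0, by simp⟩)⟩
    exact norm_one⟩, spp_of_tdz _ tdz, tdz, ev0, not_cortex⟩

end Pool.Agent.H1.Cor
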