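import Mathlib

open Filter Topology

namespace Pool.Agent.H1.Cov

def OpSpec (X : Type) [NormedAddCommGroup X] [NormedSpace ℂ X] (P : (X → X) → Prop) (z : ℂ) :
    Prop :=
  ∃ H : X →L[ℂ] X, P H ∧ z ∈ spectrum ℂ H

def OpRes (X : Type) [NormedAddCommGroup X] [NormedSpace ℂ X] (P : (X → X) → Prop) (z : ℂ) :
    Prop :=
  ∃ H : X →L[ℂ] X, P H ∧ z ∉ spectrum ℂ H

structure WGraph where
  V : Type
  E : Type
  ends : E → Sym2 V
  wt : V → E → ℂ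

namespace WGraph

def star (G : WGraph) (v : G.V) : Set G.E := {e | v ∈ G.ends e}

open Classical in
noncomputable def other (G : WGraph) (v : G.V) (e : G.E) : G.V :=
  if h : v ∈ G.ends e then Sym2.Mem.other h else v

def Adj (G : WGraph) (u v : G.V) : Prop := ∃ e, G.ends e = s(u, v)

def Connected (G : WGraph) : Prop := Nonempty G.V ∧ ∀ u v, Relation.ReflTransGen G.Adj u v

def UnifBdd (G : WGraph) : Prop :=
  ∃ (D : ℕ) (C : ℝ), ∀ v, (G.star v).Finite ∧ (G.star v).ncard ≤ D ∧ ∀ e ∈ G.star v, ‖G.wt v e‖ ≤ C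

def Amenable (G : WGraph) : Prop :=
  ∃ F : ℕ → Finset G.V, Monotone F ∧ (∀ v, ∃ k, v ∈ F k) ∧
    Tendsto (fun k => (({v | v ∉ F k ∧ ∃ u ∈ F k, G.Adj u v}.ncard : ℝ) / ((F k).card : ℝ)))
      atTop (𝓝 0)

def Covers (G₁ G₂ : WGraph) : Prop :=
  ∃ (φ : G₁.V → G₂.V) (ψ : G₁.E → G₂.E), Function.Surjective φ ∧ Function.Surjective ψ ∧
    (∀ e, G₂.ends (ψ e) = (G₁.ends e).map φ) ∧
    (∀ v, Set.BijOn ψ (G₁.star v) (G₂.star (φ v))) ∧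
    ∀ v, ∀ e ∈ G₁.star v, G₁.wt v e = G₂.wt (φ v) (ψ e)

def ActsAsLaplace (G : WGraph) (T : lp (fun _ : G.V => ℂ) 2 → lp (fun _ : G.V => ℂ) 2) : Prop :=
  ∀ (f : lp (fun _ : G.V => ℂ) 2) (v : G.V),
    T f v = ∑ᶠ e ∈ G.star v, G.wt v e * f (G.other v e)

def InSpec (G : WGraph) (z : ℂ) : Prop :=
  OpSpec (lp (fun _ : G.V => ℂ) 2) G.ActsAsLaplace z

def NotInSpec (G : WGraph) (z : ℂ) : Prop :=
  OpRes (lp (fun _ : G.V => ℂ) 2) G.ActsAsLaplace z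

end WGraph

end Pool.Agent.H1.Cov
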