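import Mathlib
import Pool.Agent.H1.CovDefs

open Filter Topology
open scoped ENNReal

namespace Pool.Agent.H1.Cov

def WGraph.IsLaplace (G : WGraph) (H : lp (fun _ : G.V => ℂ) 2 →L[ℂ] lp (fun _ : G.V => ℂ) 2) : Prop :=
  ∀ (f : lp (fun _ : G.V => ℂ) 2) (v : G.V),
    H f v = ∑ᶠ e ∈ G.star v, G.wt v e * f (G.other v e)


abbrev I := Fin 4 ⊕ Bool

structure Inv (V : Type) where
  τ : I → V → V
  act : V → I → Bool
  hτ : ∀ i v, τ i (τ i v) = v
  hact : ∀ v i, act (τ i v) i = act v i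

namespace Inv
variable {V : Type} (S : Inv V)

abbrev G : WGraph where
  V := V
  E := {p : Sym2 V × I // ∃ v, S.act v p.2 = true ∧ p.1 = s(v, S.τ p.2 v)}
  ends := fun p => p.1.1
  wt := fun _ _ => 1

def edge (v : V) (i : {i : I // S.act v i = true}) : S.G.E := ⟨(s(v, S.τ i v), i), v, i.2, rfl⟩

lemma edge_inj (v : V) : Function.Injective (S.edge v) := fun _ _ h =>
  Subtype.ext (congrArg (fun p : S.G.E => p.1.2) h)

lemma star_eq (v : V) : S.G.star v = Set.range (S.edge v) := by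
  ext ⟨⟨p, i⟩, u, hu, hp⟩
  simp only at hu hp
  subst hp
  constructor
  · intro h
    rcases Sym2.mem_iff.1 h with h | h
    · subst h; exact ⟨⟨i, hu⟩, rfl⟩
    · subst h
      refine ⟨⟨i, by rw [S.hact]; exact hu⟩, ?_⟩
      simp only [edge, S.hτ, Sym2.eq_swap]
  · rintro ⟨j, hj⟩
    have : s(u, S.τ i u) = s(v, S.τ j v) := (congrArg (fun p : S.G.E => p.1.1) hj).symm
    change v ∈ s(u, S.τ i u)
    rw [this]; exact Sym2.mem_mk_left _ _

lemma other_edge (v : V) (i : {i : I // S.act v i = true}) : S.G.other v (S.edge v i) = S.τ i v := by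
  have h : v ∈ S.G.ends (S.edge v i) := Sym2.mem_mk_left _ _
  rw [WGraph.other, dif_pos h]
  exact Sym2.congr_right.1 (Sym2.other_spec h)

lemma adj_iff (u v : V) : S.G.Adj u v ↔ ∃ i, S.act u i = true ∧ v = S.τ i u := by
  constructor
  · rintro ⟨e, he⟩
    have : e ∈ S.G.star u := by
      change u ∈ S.G.ends e
      rw [he]; exact Sym2.mem_mk_left _ _
    rw [star_eq] at this
    obtain ⟨i, rfl⟩ := this
    exact ⟨i, i.2, (Sym2.congr_right.1 he).symm⟩
  · rintro ⟨i, hi, rfl⟩
    exact ⟨S.edge u ⟨i, hi⟩, rfl⟩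

lemma unif : S.G.UnifBdd := by
  refine ⟨6, 1, fun v => ⟨?_, ?_, fun _ _ => by simp⟩⟩
  · rw [star_eq]; exact Set.finite_range _
  · rw [star_eq, Set.ncard_range_of_injective (S.edge_inj v), Nat.card_eq_fintype_card]
    exact (Fintype.card_subtype_le _).trans (by simp)

lemma fin_eq (f : V → ℂ) (v : V) : ∑ᶠ e ∈ S.G.star v, S.G.wt v e * f (S.G.other v e) =
    ∑ i : I, if S.act v i = true then f (S.τ i v) else 0 := by
  rw [star_eq, finsum_mem_range (S.edge_inj v), finsum_eq_sum_of_fintype]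
  simp only [other_edge, one_mul]
  rw [← Finset.sum_filter]
  exact (Finset.sum_subtype _ (by simp) (fun i => f (S.τ i v))).symm

lemma covers {W : Type} (T : Inv W) (φ : V → W) (hφ : Function.Surjective φ)
    (h1 : ∀ i v, φ (S.τ i v) = T.τ i (φ v)) (h2 : ∀ v i, T.act (φ v) i = S.act v i) :
    S.G.Covers T.G := by
  refine ⟨φ, fun e => ⟨(e.1.1.map φ, e.1.2), ?_⟩, hφ, ?_, fun _ => rfl, fun v => ⟨?_, ?_, ?_⟩,
    fun _ _ _ => rfl⟩
  · obtain ⟨v, hv, he⟩ := e.2
    exact ⟨φ v, by rw [h2]; exact hv, by rw [he, Sym2.map_mk, h1]⟩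
  · rintro ⟨⟨p, i⟩, u, hu, hp⟩
    simp only at hu hp
    subst hp
    obtain ⟨v, rfl⟩ := hφ u
    exact ⟨S.edge v ⟨i, by rw [← h2]; exact hu⟩, by simp only [edge, Sym2.map_mk, h1]⟩
  · intro e he
    exact Sym2.mem_map.2 ⟨v, he, rfl⟩
  · rw [star_eq]
    rintro _ ⟨i, rfl⟩ _ ⟨j, rfl⟩ h
    have : i = j := Subtype.ext (congrArg (fun p : T.G.E => p.1.2) h)
    rw [this]
  · rw [star_eq, star_eq]
    rintro _ ⟨i, rfl⟩
    exact ⟨S.edge v ⟨i, by rw [← h2]; exact i.2⟩, ⟨_, rfl⟩, by simp only [edge, Sym2.map_mk, h1]⟩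

end Inv

lemma mem_iff {V : Type} (f : V → ℂ) : Memℓp f (2 : ℝ≥0∞) ↔ Summable (fun n => ‖f n‖ ^ 2) := by
  rw [memℓp_gen_iff (by norm_num)]
  simp

lemma normsq {V : Type} (x : lp (fun _ : V => ℂ) 2) : ‖x‖ ^ 2 = ∑' n, ‖x n‖ ^ 2 := by
  have := lp.norm_rpow_eq_tsum (p := 2) (by norm_num) x
  simpa using this

lemma schur {V : Type} (S : Inv V) (q : V → I → ℝ) (C : ℝ) (hC : 0 ≤ C) (hq : ∀ v i, 0 < q v i)
    (hq1 : ∀ v i, S.act v i = true → q v i * q (S.τ i v) i = 1)
    (hq2 : ∀ v, ∑ i, (if S.act v i = true then q v i else 0) ≤ C) :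
    ∃ H, S.G.IsLaplace H ∧ ‖H‖ ≤ C := by
  have key : ∀ f : lp (fun _ : V => ℂ) 2,
      Summable (fun v => ‖∑ i : I, if S.act v i = true then f (S.τ i v) else 0‖ ^ 2) ∧
      ∑' v, ‖∑ i : I, if S.act v i = true then f (S.τ i v) else 0‖ ^ 2 ≤ (C * ‖f‖) ^ 2 := by
    intro f
    have sf : Summable (fun v => ‖f v‖ ^ 2) := (mem_iff _).1 f.2
    obtain ⟨g, hg⟩ : ∃ g : I → V → ℝ,
        g = fun i u => (if S.act u i = true then q u i else 0) * ‖f u‖ ^ 2 := ⟨_, rfl⟩
    have g0 : ∀ i u, 0 ≤ (if S.act u i = true then q u i else 0) := fun i u => by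
      split_ifs; exacts [(hq u i).le, le_rfl]
    have gs : ∀ u, ∑ i, g i u ≤ C * ‖f u‖ ^ 2 := fun u => by
      simp only [hg, ← Finset.sum_mul]
      exact mul_le_mul_of_nonneg_right (hq2 u) (by positivity)
    have g1 : ∀ i u, 0 ≤ g i u := fun i u => by rw [hg]; exact mul_nonneg (g0 i u) (by positivity)
    have sg : ∀ i, Summable (g i) := fun i =>
      Summable.of_nonneg_of_le (g1 i) (fun u =>
        (Finset.single_le_sum (fun j _ => g1 j u) (Finset.mem_univ i)).trans (gs u)) (sf.mul_left C)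
    let e : I → V ≃ V := fun i => Function.Involutive.toPerm (S.τ i) (S.hτ i)
    have sg' : ∀ i, Summable (fun v => g i (S.τ i v)) := fun i => (e i).summable_iff.2 (sg i)
    have tg : ∀ i, ∑' v, g i (S.τ i v) = ∑' v, g i v := fun i => (e i).tsum_eq (g i)
    have pt : ∀ v, ‖∑ i : I, if S.act v i = true then f (S.τ i v) else 0‖ ^ 2 ≤
        C * ∑ i, g i (S.τ i v) := by
      intro v
      have h1 : ‖∑ i : I, if S.act v i = true then f (S.τ i v) else 0‖ ≤
          ∑ i : I, if S.act v i = true then ‖f (S.τ i v)‖ else 0 :=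
        (norm_sum_le _ _).trans (le_of_eq (Finset.sum_congr rfl fun i _ => by split_ifs <;> simp))
      have h2 := Finset.sum_sq_le_sum_mul_sum_of_sq_le_mul (s := Finset.univ)
        (r := fun i : I => if S.act v i = true then ‖f (S.τ i v)‖ else 0)
        (f := fun i : I => if S.act v i = true then q v i else 0)
        (g := fun i : I => g i (S.τ i v)) (fun i _ => g0 i v) (fun i _ => g1 i _)
        (fun i _ => by
          simp only [hg, S.hact]
          split_ifs with h
          · rw [← mul_assoc, hq1 v i h, one_mul]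
          · simp)
      refine (pow_le_pow_left₀ (norm_nonneg _) h1 2).trans (h2.trans ?_)
      exact mul_le_mul_of_nonneg_right (hq2 v) (Finset.sum_nonneg fun i _ => g1 i _)
    have s2 : Summable (fun v => C * ∑ i, g i (S.τ i v)) :=
      (summable_sum fun i _ => sg' i).mul_left C
    have s1 := Summable.of_nonneg_of_le (fun v => by positivity) pt s2
    refine ⟨s1, (s1.tsum_le_tsum pt s2).trans ?_⟩
    rw [tsum_mul_left, Summable.tsum_finsetSum (fun i _ => sg' i)]
    simp only [tg]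
    rw [← Summable.tsum_finsetSum (fun i _ => sg i), mul_pow, normsq, sq C, mul_assoc,
      ← tsum_mul_left (a := C) (f := fun n => ‖f n‖ ^ 2)]
    exact mul_le_mul_of_nonneg_left
      ((summable_sum fun i _ => sg i).tsum_le_tsum gs (sf.mul_left C)) hC
  let L : lp (fun _ : V => ℂ) 2 →ₗ[ℂ] lp (fun _ : V => ℂ) 2 :=
    { toFun := fun f => ⟨fun v => ∑ i : I, if S.act v i = true then f (S.τ i v) else 0,
        (mem_iff _).2 (key f).1⟩
      map_add' := fun x y => by
        ext v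
        change (∑ i : I, if S.act v i = true then x (S.τ i v) + y (S.τ i v) else 0) =
          (∑ i : I, if S.act v i = true then x (S.τ i v) else 0) +
          ∑ i : I, if S.act v i = true then y (S.τ i v) else 0
        rw [← Finset.sum_add_distrib]
        exact Finset.sum_congr rfl fun i _ => by split_ifs <;> simp
      map_smul' := fun c x => by
        ext v
        change (∑ i : I, if S.act v i = true then c * x (S.τ i v) else 0) =
          c * ∑ i : I, if S.act v i = true then x (S.τ i v) else 0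
        rw [Finset.mul_sum]
        exact Finset.sum_congr rfl fun i _ => by split_ifs <;> simp }
  have hL : ∀ f, ‖L f‖ ≤ C * ‖f‖ := fun f => by
    refine (sq_le_sq₀ (norm_nonneg _) (by positivity)).1 ?_
    rw [normsq]; exact (key f).2
  exact ⟨L.mkContinuous C hL, fun f v => (S.fin_eq f v).symm, L.mkContinuous_norm_le hC hL⟩

end Pool.Agent.H1.Cov
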