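import Mathlib
import Pool.Agent.H1.CovA

open Filter Topology
open scoped ENNReal

namespace Pool.Agent.H1.Cov

def mv (b : Bool) (n : ℕ) : ℕ :=
  if b then (if n = 0 then 0 else if n % 2 = 1 then n + 1 else n - 1)
  else (if n % 2 = 0 then n + 1 else n - 1)

lemma mv_mv (b : Bool) (n : ℕ) : mv b (mv b n) = n := by
  cases b <;> simp only [mv, Bool.false_eq_true, if_false, if_true] <;> split_ifs <;>
    first | omega | contradiction

def ac (n : ℕ) : I → Bool
  | .inl _ => n == 0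
  | .inr b => !b || n != 0

def t2 : I → ℕ → ℕ
  | .inl _, n => n
  | .inr b, n => mv b n

lemma ac_t2 (n : ℕ) (i : I) : ac (t2 i n) i = ac n i := by
  rcases i with i | b
  · rfl
  · cases b
    · simp [ac]
    · simp only [ac, t2, mv, if_true, Bool.not_true, Bool.false_or]
      have : (if n = 0 then 0 else if n % 2 = 1 then n + 1 else n - 1) = 0 ↔ n = 0 := by
        split_ifs <;> first | omega | simp_all
      rw [Bool.eq_iff_iff]; simpa using this.not

def S2 : Inv ℕ where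
  τ := t2
  act := ac
  hτ := fun i n => by
    rcases i with i | b
    · rfl
    · exact mv_mv b n
  hact := ac_t2

abbrev W := {l : List (Fin 4) // l.IsChain (· ≠ ·)}

def sg (i : Fin 4) : W → W
  | ⟨[], _⟩ => ⟨[i], by simp⟩
  | ⟨j :: t, h⟩ => if hj : i = j then ⟨t, h.tail⟩ else ⟨i :: j :: t, List.isChain_cons_cons.2 ⟨hj, h⟩⟩

lemma sg_sg (i : Fin 4) (w : W) : sg i (sg i w) = w := by
  rcases w with ⟨_ | ⟨j, t⟩, h⟩
  · simp [sg]
  · by_cases hj : i = j
    · subst hj
      rcases t with _ | ⟨k, t⟩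
      · simp [sg]
      · have := (List.isChain_cons_cons.1 h).1
        simp [sg, this]
    · simp [sg, hj]

def t1 : I → W × ℕ → W × ℕ
  | .inl i, p => if p.2 = 0 then (sg i p.1, p.2) else p
  | .inr b, p => (p.1, mv b p.2)

lemma t1_snd (i : I) (p : W × ℕ) : (t1 i p).2 = t2 i p.2 := by
  rcases i with i | b
  · simp only [t1, t2]; split_ifs <;> rfl
  · rfl

def S1 : Inv (W × ℕ) where
  τ := t1
  act := fun p i => ac p.2 i
  hτ := fun i p => by
    rcases i with i | b
    · by_cases h : p.2 = 0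
      · simp only [t1, h, if_true, sg_sg]; rw [← h]
      · simp only [t1, h, if_false]
    · simp only [t1, mv_mv]
  hact := fun p i => by rw [t1_snd, ac_t2]

lemma cov : S1.G.Covers S2.G :=
  S1.covers S2 Prod.snd (fun n => ⟨(⟨[], by simp⟩, n), rfl⟩) t1_snd (fun _ _ => rfl)

def ht (p : W × ℕ) : ℕ := p.1.1.length + p.2

lemma len_sg (i : Fin 4) (w : W) : ((sg i w).1.length + 1 = w.1.length ∧ w.1.head? = some i) ∨
    ((sg i w).1.length = w.1.length + 1 ∧ w.1.head? ≠ some i) := by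
  rcases w with ⟨_ | ⟨j, t⟩, h⟩
  · simp [sg]
  · by_cases hj : i = j
    · simp [sg, hj]
    · simp [sg, hj, Ne.symm hj]

lemma ht_ne (p : W × ℕ) (i : I) (h : ac p.2 i = true) : ht (t1 i p) ≠ ht p := by
  rcases i with i | b
  · have h0 : p.2 = 0 := by simpa [ac] using h
    simp only [t1, h0, if_true, ht]
    rcases len_sg i p.1 with h | h <;> omega
  · cases b <;> simp only [ac, t1, ht, mv, Bool.false_eq_true, if_false, if_true] at h ⊢ <;>
      split_ifs <;> simp_all <;> omega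

noncomputable def q1 (p : W × ℕ) (i : I) : ℝ := if ht (t1 i p) < ht p then 2 else 1 / 2

lemma op1 : ∃ H, S1.G.IsLaplace H ∧ ‖H‖ ≤ 4 := by
  refine schur S1 q1 4 (by norm_num) (fun v i => by unfold q1; split_ifs <;> norm_num)
    (fun v i h => ?_) (fun v => ?_)
  · have h1 := ht_ne v i h
    have h2 : t1 i (t1 i v) = v := S1.hτ i v
    change q1 v i * q1 (t1 i v) i = 1
    unfold q1
    rw [h2]
    split_ifs <;> first | omega | norm_num
  · obtain ⟨w, n⟩ := v
    change ∑ i, (if ac n i = true then q1 (w, n) i else 0) ≤ 4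
    rw [Fintype.sum_sum_type, Fintype.sum_bool]
    by_cases hn : n = 0
    · subst hn
      have a1 : q1 (w, 0) (.inr false) = 1 / 2 := by simp [q1, t1, ht, mv]
      have a2 : ∀ i : Fin 4, q1 (w, 0) (.inl i) = 1 / 2 + if w.1.head? = some i then 3 / 2 else 0 := by
        intro i
        simp only [q1, t1, ht, if_true]
        rcases len_sg i w with h | h
        · rw [if_pos (by omega), if_pos h.2]; norm_num
        · rw [if_neg (by omega), if_neg h.2]; norm_num
      simp only [ac, a1, a2]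
      rcases w.1.head? with _ | j
      · simp; norm_num
      · simp [Finset.sum_add_distrib]; norm_num
    · have a1 : ∀ b, q1 (w, n) (.inr b) ≤ 2 := fun b => by unfold q1; split_ifs <;> norm_num
      simp [ac, hn]
      linarith [a1 true, a1 false]

lemma op2 : ∃ H, S2.G.IsLaplace H ∧ (17 / 4 : ℂ) ∈ spectrum ℂ H := by
  obtain ⟨H, hH, -⟩ := schur S2 (fun _ _ => 1) 6 (by norm_num) (fun _ _ => one_pos)
    (fun _ _ _ => one_mul _) (fun v => by
      refine (Finset.sum_le_sum (g := fun _ => (1 : ℝ)) fun i _ => ?_).trans (by simp)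
      split_ifs <;> norm_num)
  refine ⟨H, hH, ?_⟩
  have hm : Memℓp (fun n : ℕ => ((1 / 4 : ℂ)) ^ n) (2 : ℝ≥0∞) := by
    rw [mem_iff]
    have : (fun n : ℕ => ‖((1 / 4 : ℂ)) ^ n‖ ^ 2) = fun n => (1 / 16 : ℝ) ^ n := by
      ext n; rw [norm_pow, ← pow_mul, mul_comm, pow_mul]; norm_num
    rw [this]; exact summable_geometric_of_lt_one (by norm_num) (by norm_num)
  let f : lp (fun _ : ℕ => ℂ) 2 := ⟨_, hm⟩
  have hf : H f = (17 / 4 : ℂ) • f := by
    ext n
    rw [hH f n, S2.fin_eq, Fintype.sum_sum_type, Fintype.sum_bool]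
    change (∑ i : Fin 4, if (n == 0) = true then (1 / 4 : ℂ) ^ n else 0) +
      ((if (!true || n != 0) = true then (1 / 4 : ℂ) ^ mv true n else 0) +
        if (!false || n != 0) = true then (1 / 4 : ℂ) ^ mv false n else 0) = 17 / 4 * (1 / 4 : ℂ) ^ n
    rcases n with _ | n
    · simp [mv]; norm_num
    · rcases Nat.mod_two_eq_zero_or_one (n + 1) with h | h <;> simp [mv, h, pow_succ] <;> ring
  rw [spectrum.mem_iff]
  rintro ⟨u, hu⟩
  have h1 : u.1 f = 0 := by
    rw [hu]; simp [hf, Algebra.algebraMap_eq_smul_one]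
  have h2 : f = 0 := by
    have := congrArg (fun T : lp (fun _ : ℕ => ℂ) 2 →L[ℂ] lp (fun _ : ℕ => ℂ) 2 => T f) u.inv_mul
    simp only [ContinuousLinearMap.mul_apply, h1, map_zero, ContinuousLinearMap.one_apply] at this
    exact this.symm
  have h3 : f 0 = 0 := by rw [h2]; rfl
  have h4 : f 0 = 1 := pow_zero _
  rw [h3] at h4; exact zero_ne_one h4

lemma adj_symm {u v : W × ℕ} (h : S1.G.Adj u v) : S1.G.Adj v u := by
  obtain ⟨e, he⟩ := h
  exact ⟨e, he.trans Sym2.eq_swap⟩

lemma conn : S1.G.Connected := by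
  have root : ∀ (k : ℕ) (p : W × ℕ), ht p = k → Relation.ReflTransGen S1.G.Adj p (⟨[], by simp⟩, 0) := by
    intro k
    induction k with
    | zero =>
      rintro ⟨⟨l, hl⟩, n⟩ h
      simp only [ht, Nat.add_eq_zero_iff, List.length_eq_zero_iff] at h
      obtain ⟨rfl, rfl⟩ := h
      exact .refl
    | succ k ih =>
      rintro ⟨⟨l, hl⟩, n⟩ h
      have : ∃ i, ac n i = true ∧ ht (t1 i (⟨l, hl⟩, n)) = k := by
        by_cases hn : n = 0
        · subst hn
          rcases l with _ | ⟨j, t⟩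
          · simp [ht] at h
          · exact ⟨.inl j, rfl, by simpa [ht, t1, sg] using h⟩
        · rcases Nat.mod_two_eq_zero_or_one n with h2 | h2
          · exact ⟨.inr true, by simp [ac, hn], by simp only [ht, t1, mv] at h ⊢; simp [hn, h2]; omega⟩
          · exact ⟨.inr false, by simp [ac], by simp only [ht, t1, mv] at h ⊢; simp [h2]; omega⟩
      obtain ⟨i, h1, h2⟩ := this
      exact .head ((S1.adj_iff _ _).2 ⟨i, h1, rfl⟩) (ih _ h2)
  refine ⟨⟨(⟨[], by simp⟩, 0)⟩, fun u v => (root _ u rfl).trans ?_⟩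
  have := (root _ v rfl).swap
  exact Relation.ReflTransGen.mono (fun _ _ h => adj_symm h) _ _ this

lemma amen : S1.G.Amenable := by
  classical
  have fin : ∀ k, {w : W | w.1.length ≤ k}.Finite := fun k =>
    (List.finite_length_le (Fin 4) k).preimage Subtype.val_injective.injOn
  refine ⟨fun k => (fin k).toFinset ×ˢ Finset.range (k + 1), fun a b hab => ?_, fun v => ?_, ?_⟩
  · intro p hp
    simp only [Finset.mem_product, Set.Finite.mem_toFinset, Set.mem_setOf_eq, Finset.mem_range] at hp ⊢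
    omega
  · refine ⟨ht v, ?_⟩
    simp only [Finset.mem_product, Set.Finite.mem_toFinset, Set.mem_setOf_eq, Finset.mem_range, ht]
    omega
  · have lim : Tendsto (fun k : ℕ => (5 : ℝ) * (1 / ((k : ℝ) + 1))) atTop (𝓝 (5 * 0)) :=
      tendsto_one_div_add_atTop_nhds_zero_nat.const_mul 5
    rw [mul_zero] at lim
    refine squeeze_zero (fun k => by positivity) (fun k => ?_) lim
    have hpos : 0 < (fin k).toFinset.card :=
      Finset.card_pos.2 ⟨⟨[], by simp⟩, by simp⟩
    let g : W × Option (Fin 4) → W × ℕ := fun p => match p.2 with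
      | none => (p.1, k + 1)
      | some i => (sg i p.1, 0)
    have sub : {v : W × ℕ | v ∉ (fin k).toFinset ×ˢ Finset.range (k + 1) ∧
        ∃ u ∈ (fin k).toFinset ×ˢ Finset.range (k + 1), S1.G.Adj u v} ⊆
        ↑(((fin k).toFinset ×ˢ (Finset.univ : Finset (Option (Fin 4)))).image g) := by
      rintro v ⟨hv, ⟨w, n⟩, hu, ha⟩
      obtain ⟨i, h1, rfl⟩ := (S1.adj_iff _ _).1 ha
      rw [Finset.mem_product] at hu hv
      rw [Finset.mem_coe, Finset.mem_image]
      rcases i with i | b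
      · have h0 : n = 0 := by simpa [S1, ac] using h1
        subst h0
        exact ⟨(w, some i), Finset.mem_product.2 ⟨hu.1, Finset.mem_univ _⟩, rfl⟩
      · refine ⟨(w, none), Finset.mem_product.2 ⟨hu.1, Finset.mem_univ _⟩, ?_⟩
        have h2 : ¬ mv b n < k + 1 := fun h => hv ⟨hu.1, Finset.mem_range.2 h⟩
        have h3 : n < k + 1 := Finset.mem_range.1 hu.2
        have h4 : mv b n ≤ n + 1 := by unfold mv; split_ifs <;> omega
        change (w, k + 1) = (w, mv b n)
        congr 1; omega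
    have h1 := Set.ncard_le_ncard sub (Finset.finite_toSet _)
    rw [Set.ncard_coe_finset] at h1
    have h2 := h1.trans Finset.card_image_le
    rw [Finset.card_product, Finset.card_univ, Fintype.card_option, Fintype.card_fin] at h2
    rw [Finset.card_product, Finset.card_range]
    have h3 : (0 : ℝ) < (fin k).toFinset.card := by exact_mod_cast hpos
    rw [div_le_iff₀ (by push_cast; positivity)]
    calc _ ≤ (((fin k).toFinset.card * (4 + 1) : ℕ) : ℝ) := by exact_mod_cast h2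
      _ = _ := by push_cast; field_simp

theorem main : ∃ (G₁ G₂ : WGraph)
    (H₁ : lp (fun _ : G₁.V => ℂ) 2 →L[ℂ] lp (fun _ : G₁.V => ℂ) 2)
    (H₂ : lp (fun _ : G₂.V => ℂ) 2 →L[ℂ] lp (fun _ : G₂.V => ℂ) 2),
    G₁.Amenable ∧ G₁.Connected ∧ G₁.UnifBdd ∧ G₁.Covers G₂ ∧ G₁.IsLaplace H₁ ∧ G₂.IsLaplace H₂ ∧
    (∀ v e, G₁.wt v e = 1) ∧ (∀ v e, G₂.wt v e = 1) ∧
    ∃ z : ℂ, z ∈ spectrum ℂ H₂ ∧ z ∉ spectrum ℂ H₁ := by
  obtain ⟨A, hA, hA'⟩ := op1
  obtain ⟨B, hB, hB'⟩ := op2
  refine ⟨S1.G, S2.G, A, B, amen, conn, S1.unif, cov, hA, hB, fun _ _ => rfl, fun _ _ => rfl,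
    17 / 4, hB', fun h => h ?_⟩
  refine spectrum.mem_resolventSet_of_norm_lt_mul ?_
  have h1 : ‖(1 : lp (fun _ : W × ℕ => ℂ) 2 →L[ℂ] lp (fun _ : W × ℕ => ℂ) 2)‖ ≤ 1 :=
    ContinuousLinearMap.norm_id_le
  have h2 : ‖(17 / 4 : ℂ)‖ = 17 / 4 := by simp
  rw [h2]
  nlinarith [norm_nonneg A, norm_nonneg
    (1 : lp (fun _ : W × ℕ => ℂ) 2 →L[ℂ] lp (fun _ : W × ℕ => ℂ) 2)]

end Pool.Agent.H1.Cov
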