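import Mathlib

open Filter Topology Set MeasureTheory

namespace Pool.Agent.H1.DjrA

structure Hyp (ω : ℝ → ℝ) (T : ℝ) : Prop where
  pos : ∀ t, 0 ≤ t → 0 < ω t
  cont : ContinuousOn ω (Ici 0)
  anti : AntitoneOn ω (Ici 0)
  int : ∀ k : ℕ, IntegrableOn (fun t => ω t * t ^ k) (Ioi 0)
  T_pos : 0 < T
  diff : ∀ t, T ≤ t → DifferentiableAt ℝ ω t
  lc : AntitoneOn (fun t => t * deriv ω t / ω t) (Ici T)

variable {ω : ℝ → ℝ} {T : ℝ}

lemma Hyp.shift (h : Hyp ω T) {α s t : ℝ} (h1 : T ≤ α) (h2 : α ≤ s) (h3 : s ≤ t) :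
    ω t * ω α ≤ ω s * ω (α / s * t) := by
  have hT := h.T_pos
  have hs : 0 < s := by linarith
  have hd : ∀ c, T ≤ c → ∀ u, 1 ≤ u → HasDerivAt (fun u => Real.log (ω (c * u)))
      (c * u * deriv ω (c * u) / ω (c * u) / u) u := by
    intro c hc u hu
    have e1 : T ≤ c * u := by nlinarith
    have e2 := ((h.diff _ e1).hasDerivAt.comp u ((hasDerivAt_id u).const_mul c)).log
      (h.pos _ (by linarith)).ne'
    refine HasDerivAt.congr_deriv e2 ?_
    simp only [Function.comp_apply]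
    field_simp
  have hd2 := fun u hu => (hd s (by linarith) u hu).sub (hd α h1 u hu)
  have ha : AntitoneOn (fun u => Real.log (ω (s * u)) - Real.log (ω (α * u))) (Ici 1) := by
    refine antitoneOn_of_deriv_nonpos (convex_Ici 1)
      (fun u hu => (hd2 u hu).continuousAt.continuousWithinAt)
      (fun u hu => (hd2 u (interior_subset hu)).differentiableAt.differentiableWithinAt)
      fun u hu => ?_
    have hu1 : 1 ≤ u := interior_subset hu
    rw [show deriv (fun u => Real.log (ω (s * u)) - Real.log (ω (α * u))) u = _ from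
      (hd2 u hu1).deriv, ← sub_div]
    refine div_nonpos_of_nonpos_of_nonneg (sub_nonpos.2 ?_) (by linarith)
    exact h.lc (show T ≤ α * u by nlinarith) (show T ≤ s * u by nlinarith) (by nlinarith)
  have h4 := ha self_mem_Ici
    (show t / s ∈ Ici 1 from (one_le_div hs).2 h3) ((one_le_div hs).2 h3)
  simp only [mul_one] at h4
  rw [mul_div_cancel₀ _ hs.ne', show α * (t / s) = α / s * t by ring] at h4
  have p1 := h.pos t (by linarith)
  have p2 := h.pos α (by linarith)
  have p3 := h.pos s hs.le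
  have p4 := h.pos (α / s * t) (mul_nonneg (div_nonneg (by linarith) hs.le) (by linarith))
  rw [← Real.log_le_log_iff (by positivity) (by positivity), Real.log_mul p1.ne' p2.ne',
    Real.log_mul p3.ne' p4.ne']
  linarith

noncomputable def M (ω : ℝ → ℝ) (k : ℕ) (r : ℝ) : ℝ := ∫ t in Ioi r, ω t * t ^ k
noncomputable def L (ω : ℝ → ℝ) (r : ℝ) : ℝ := ∫ t in Ioi r, ω t / t

lemma Hyp.nn (h : Hyp ω T) (k : ℕ) {r : ℝ} (hr : 0 ≤ r) :
    ∀ t ∈ Ioi r, 0 ≤ ω t * t ^ k := fun t ht =>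
  mul_nonneg (h.pos t (hr.trans (le_of_lt ht))).le (pow_nonneg (hr.trans (le_of_lt ht)) k)

lemma Hyp.intJ (h : Hyp ω T) (k : ℕ) {r : ℝ} (hr : 0 < r) :
    IntegrableOn (fun t => ω t / t ^ k) (Ioi r) := by
  refine Integrable.mono' (((h.int 0).mono_set (Ioi_subset_Ioi hr.le)).div_const (r ^ k))
    (ContinuousOn.aestronglyMeasurable ((h.cont.mono fun t ht => hr.le.trans (le_of_lt ht)).div
      (by fun_prop) fun t ht => pow_ne_zero _ (hr.trans ht).ne') measurableSet_Ioi) ?_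
  filter_upwards [ae_restrict_mem measurableSet_Ioi] with t ht
  have h1 : 0 < t := hr.trans ht
  have := h.pos t h1.le
  rw [Real.norm_of_nonneg (by positivity), pow_zero, mul_one]
  gcongr
  exact le_of_lt ht

lemma Hyp.intL (h : Hyp ω T) {r : ℝ} (hr : 0 < r) : IntegrableOn (fun t => ω t / t) (Ioi r) := by
  simpa using h.intJ 1 hr

lemma Hyp.L_ge (h : Hyp ω T) {r s : ℝ} (hr : 0 < r) (_hs : r ≤ s) :
    ∫ t in Ioc r s, ω t / t ≤ L ω r :=
  setIntegral_mono_set (h.intL hr) (by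
    filter_upwards [ae_restrict_mem measurableSet_Ioi] with t ht
    exact div_nonneg (h.pos t (hr.trans ht).le).le (hr.trans ht).le)
    (LE.le.eventuallyLE Ioc_subset_Ioi_self)

lemma Hyp.L_ge' (h : Hyp ω T) {r s : ℝ} (hr : 0 < r) (hs : r ≤ s) :
    ω s / s * (s - r) ≤ L ω r := by
  refine le_trans ?_ (h.L_ge hr hs)
  have := setIntegral_ge_of_const_le_real (μ := volume) (s := Ioc r s) (f := fun t => ω t / t)
    (c := ω s / s) measurableSet_Ioc (by simp) (fun t ht => by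
      have h1 : 0 < t := hr.trans ht.1
      exact div_le_div₀ (h.pos t h1.le).le (h.anti h1.le (h1.le.trans ht.2) ht.2) h1 ht.2)
    ((h.intL hr).mono_set Ioc_subset_Ioi_self)
  simpa [hs] using this

lemma Hyp.M_le (h : Hyp ω T) (k : ℕ) {r : ℝ} (hr : 0 ≤ r) : M ω k r ≤ M ω k 0 :=
  setIntegral_mono_set (h.int k) (by
    filter_upwards [ae_restrict_mem measurableSet_Ioi] with t ht using h.nn k le_rfl t ht)
    (LE.le.eventuallyLE (Ioi_subset_Ioi hr))

lemma Hyp.M_split (h : Hyp ω T) (k : ℕ) {r s : ℝ} (hr : 0 ≤ r) (hs : r ≤ s) :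
    M ω k r = (∫ t in Ioc r s, ω t * t ^ k) + M ω k s := by
  rw [M, M, ← setIntegral_union (Ioc_disjoint_Ioi le_rfl) measurableSet_Ioi
    ((h.int k).mono_set fun t ht => lt_of_le_of_lt hr ht.1)
    ((h.int k).mono_set (Ioi_subset_Ioi (hr.trans hs))), Ioc_union_Ioi_eq_Ioi hs]

lemma Hyp.M_nn (h : Hyp ω T) (k : ℕ) {r : ℝ} (hr : 0 ≤ r) : 0 ≤ M ω k r :=
  setIntegral_nonneg measurableSet_Ioi (h.nn k hr)

lemma pow_int (c : ℝ) (k : ℕ) {α : ℝ} (hα : 0 ≤ α) :
    ∫ t in Ioc 0 α, c * t ^ k = c * α ^ (k + 1) / (k + 1) := by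
  rw [← intervalIntegral.integral_of_le hα, intervalIntegral.integral_const_mul, integral_pow]
  simp [mul_div_assoc]

lemma Hyp.D_ge (h : Hyp ω T) (k : ℕ) {α : ℝ} (hα : 0 ≤ α) :
    ω α * α ^ (k + 1) ≤ (k + 1) * M ω k 0 := by
  have h1 : ∫ t in Ioc 0 α, ω α * t ^ k ≤ ∫ t in Ioc 0 α, ω t * t ^ k :=
    setIntegral_mono_on (Continuous.integrableOn_Ioc (by fun_prop))
      ((h.int k).mono_set Ioc_subset_Ioi_self) measurableSet_Ioc fun t ht =>
        mul_le_mul_of_nonneg_right (h.anti ht.1.le hα ht.2) (pow_nonneg ht.1.le k)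
  rw [pow_int _ _ hα, div_le_iff₀ (by positivity)] at h1
  have h2 := h.M_split k le_rfl hα
  have h3 := h.M_nn k hα
  nlinarith [(by positivity : (0 : ℝ) < k + 1)]

lemma Hyp.I_le (h : Hyp ω T) (k : ℕ) {r : ℝ} (hr : 0 ≤ r) :
    |∫ t in Ioc 0 r, ω t * t ^ k| ≤ ω 0 * r ^ (k + 1) := by
  have h1 : ∫ t in Ioc 0 r, ω t * t ^ k ≤ ∫ t in Ioc 0 r, ω 0 * t ^ k :=
    setIntegral_mono_on ((h.int k).mono_set Ioc_subset_Ioi_self)
      (Continuous.integrableOn_Ioc (by fun_prop)) measurableSet_Ioc fun t ht =>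
        mul_le_mul_of_nonneg_right (h.anti self_mem_Ici ht.1.le ht.1.le) (pow_nonneg ht.1.le k)
  rw [pow_int _ _ hr] at h1
  rw [abs_of_nonneg (setIntegral_nonneg measurableSet_Ioc fun t ht => h.nn k le_rfl t ht.1)]
  have := h.pos 0 le_rfl
  exact h1.trans (div_le_self (by positivity) (by linarith [(Nat.cast_nonneg k : (0 : ℝ) ≤ k)]))

lemma Hyp.J_le (h : Hyp ω T) (k : ℕ) {r : ℝ} (hr : 0 < r) :
    |∫ t in Ioi r, ω t / t ^ (k + 1)| ≤ L ω r / r ^ k := by
  rw [abs_of_nonneg (setIntegral_nonneg measurableSet_Ioi fun t ht =>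
    div_nonneg (h.pos t (hr.trans ht).le).le (pow_nonneg (hr.trans ht).le _)), L,
    ← integral_div]
  refine setIntegral_mono_on (h.intJ _ hr) ((h.intL hr).div_const _) measurableSet_Ioi
    fun t ht => ?_
  have h1 : 0 < t := hr.trans ht
  have := h.pos t h1.le
  rw [pow_succ', ← div_div]
  gcongr
  exact le_of_lt ht

lemma Hyp.tail (h : Hyp ω T) (k : ℕ) {α r : ℝ} (h1 : T ≤ α) (h2 : α ≤ r) :
    M ω k r ≤ 9 * L ω r * (r / α) ^ (k + 1) / ω α * ((k + 1) * M ω k 0) := by
  have hα : 0 < α := h.T_pos.trans_le h1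
  have hr : 0 < r := by linarith
  have hk : (0 : ℝ) < k + 1 := by positivity
  set s := (1 + 1 / ((k : ℝ) + 1)) * r with hs
  have hrs : r ≤ s := by rw [hs]; nlinarith [one_div_pos.2 hk]
  have hs0 : 0 < s := by linarith
  have e3 : s ^ (k + 1) ≤ 3 * r ^ (k + 1) := by
    rw [hs, mul_pow]
    gcongr
    calc _ ≤ Real.exp (1 / ((k : ℝ) + 1)) ^ (k + 1) := by
          gcongr; linarith [Real.add_one_le_exp (1 / ((k : ℝ) + 1))]
      _ = Real.exp 1 := by rw [← Real.exp_nat_mul]; congr 1; push_cast; field_simp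
      _ ≤ 3 := by linarith [Real.exp_one_lt_d9]
  have pα := h.pos α hα.le
  have ps := h.pos s hs0.le
  have hL0 : ω s ≤ 2 * (k + 1) * L ω r := by
    have e1 := h.L_ge' hr hrs
    have e2 : ω s / s * (s - r) = ω s / (k + 2) := by rw [hs]; field_simp; ring
    rw [e2, div_le_iff₀ (by positivity)] at e1
    have : 0 ≤ L ω r := by nlinarith
    nlinarith
  have hL : 0 ≤ L ω r := by nlinarith
  have p1 : ∫ t in Ioc r s, ω t * t ^ k ≤ 3 * r ^ (k + 1) * L ω r := by
    calc _ ≤ ∫ t in Ioc r s, s ^ (k + 1) * (ω t / t) := by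
          refine setIntegral_mono_on ((h.int k).mono_set fun t ht => hr.trans ht.1)
            (((h.intL hr).mono_set Ioc_subset_Ioi_self).const_mul _) measurableSet_Ioc
            fun t ht => ?_
          have t0 : 0 < t := hr.trans ht.1
          have := h.pos t t0.le
          rw [show ω t * t ^ k = t ^ (k + 1) * (ω t / t) by field_simp; ring]
          gcongr
          exact ht.2
      _ ≤ s ^ (k + 1) * L ω r := by
          rw [integral_const_mul]; gcongr; exact h.L_ge hr hrs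
      _ ≤ _ := by gcongr
  have hc : 0 < α / s := by positivity
  have p2 : M ω k s ≤ ω s / ω α * (s / α) ^ (k + 1) * M ω k 0 := by
    have i1 : IntegrableOn (fun t => ω (α / s * t) * (α / s * t) ^ k) (Ioi s) := by
      rw [integrableOn_Ioi_comp_mul_left_iff (fun t => ω t * t ^ k) s hc]
      exact (h.int k).mono_set (Ioi_subset_Ioi (by positivity))
    calc M ω k s ≤ ∫ t in Ioi s, ω s / ω α * (s / α) ^ k * (ω (α / s * t) * (α / s * t) ^ k) := by
          refine setIntegral_mono_on ((h.int k).mono_set (Ioi_subset_Ioi hs0.le)) (i1.const_mul _)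
            measurableSet_Ioi fun t ht => ?_
          have t0 : 0 < t := hs0.trans ht
          have e1 := h.shift h1 (h2.trans hrs) (le_of_lt ht)
          rw [show ω s / ω α * (s / α) ^ k * (ω (α / s * t) * (α / s * t) ^ k) =
            ω s * ω (α / s * t) / ω α * t ^ k by
              rw [mul_pow, div_pow, div_pow]; field_simp]
          gcongr
          rwa [le_div_iff₀ pα]
      _ = ω s / ω α * (s / α) ^ (k + 1) * M ω k α := by
          rw [integral_const_mul, integral_comp_mul_left_Ioi (fun t => ω t * t ^ k) s hc,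
            div_mul_cancel₀ _ hs0.ne', M, smul_eq_mul, pow_succ]
          field_simp
      _ ≤ _ := by gcongr; exact h.M_le k hα.le
  have hD := h.D_ge k hα.le
  have hM := h.M_nn k le_rfl
  have q1 : 3 * r ^ (k + 1) * L ω r ≤ 3 * L ω r * (r / α) ^ (k + 1) / ω α * ((k + 1) * M ω k 0) := by
    calc _ = 3 * L ω r * (r / α) ^ (k + 1) / ω α * (ω α * α ^ (k + 1)) := by
          rw [div_pow]; field_simp
      _ ≤ _ := by gcongr
  have q2 : ω s / ω α * (s / α) ^ (k + 1) * M ω k 0 ≤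
      6 * L ω r * (r / α) ^ (k + 1) / ω α * ((k + 1) * M ω k 0) := by
    calc _ ≤ (2 * (k + 1) * L ω r) / ω α * (3 * r ^ (k + 1) / α ^ (k + 1)) * M ω k 0 := by
          rw [div_pow]; gcongr
      _ = _ := by rw [div_pow]; ring
  rw [h.M_split k hr.le hrs]
  calc _ ≤ _ := add_le_add (p1.trans q1) (p2.trans q2)
    _ = _ := by ring

end Pool.Agent.H1.DjrA
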