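import Mathlib
import Pool.Agent.H1.DjrA

open Filter Topology Set MeasureTheory

namespace Pool.Agent.H1.DjrB
open DjrA

noncomputable def D (ω : ℝ → ℝ) (k : ℕ) : ℝ := k * ∫ t in Ioi (0 : ℝ), ω t * t ^ (k - 1)
noncomputable def I (ω : ℝ → ℝ) (k : ℕ) (r : ℝ) : ℝ := ∫ t in Ioc 0 r, ω t * t ^ (k - 1)
noncomputable def J (ω : ℝ → ℝ) (k : ℕ) (r : ℝ) : ℝ := ∫ t in Ioi r, ω t / t ^ (k + 1)
noncomputable def tm (ω : ℝ → ℝ) (σ : ℤ) (z a : ℂ) (k : ℕ) : ℂ :=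
  (a ^ (-(k : ℤ)) * I ω k ‖a‖ - (starRingEnd ℂ) a ^ (σ * k) * J ω k ‖a‖) * z ^ k / D ω k
noncomputable def W (ω : ℝ → ℝ) (σ : ℤ) (z a : ℂ) : ℂ := L ω ‖a‖ - ∑' k, tm ω σ z a (k + 1)
noncomputable def A (ω : ℝ → ℝ) (σ : ℤ) (z a : ℂ) : ℂ := (1 - z / a) * Complex.exp (-W ω σ z a)

variable {ω : ℝ → ℝ} {T : ℝ}

lemma D_eq (k : ℕ) : D ω (k + 1) = (k + 1) * M ω k 0 := by simp [D, M]

lemma D_ge (h : Hyp ω T) (k : ℕ) {α : ℝ} (hα : 0 ≤ α) : ω α * α ^ (k + 1) ≤ D ω (k + 1) := by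
  rw [D_eq]; exact h.D_ge k hα

lemma D_pos (h : Hyp ω T) (k : ℕ) : 0 < D ω (k + 1) :=
  lt_of_lt_of_le (by simpa using h.pos 1 zero_le_one) (D_ge h k zero_le_one)

lemma L_nn (h : Hyp ω T) {r : ℝ} (hr : 0 < r) : 0 ≤ L ω r := by simpa using h.L_ge' hr le_rfl

lemma Jt (h : Hyp ω T) {σ : ℤ} (hσ : σ = 1 ∨ σ = -1) {a : ℂ} (ha : a ≠ 0) (k : ℕ) {m : ℝ}
    (h1 : 1 ≤ m) (h2 : (‖a‖ ^ 2)⁻¹ ≤ m) :
    ‖(starRingEnd ℂ) a ^ (σ * k) * J ω k ‖a‖‖ ≤ L ω ‖a‖ * m ^ k := by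
  have hr := norm_pos_iff.2 ha
  have h3 := h.J_le k hr
  have hL := L_nn h hr
  rw [norm_mul, norm_zpow, Complex.norm_conj, Complex.norm_real, Real.norm_eq_abs]
  refine (mul_le_mul_of_nonneg_left h3 (by positivity)).trans ?_
  rcases hσ with rfl | rfl
  · rw [one_mul, zpow_natCast, mul_div_cancel₀ _ (pow_pos hr k).ne']
    exact le_mul_of_one_le_right hL (one_le_pow₀ h1)
  · rw [neg_mul, one_mul, zpow_neg, zpow_natCast]
    calc _ = L ω ‖a‖ * ((‖a‖ ^ 2)⁻¹) ^ k := by rw [inv_pow, ← pow_mul, two_mul, pow_add]; field_simp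
      _ ≤ _ := by gcongr

lemma tm_le (h : Hyp ω T) {σ : ℤ} (hσ : σ = 1 ∨ σ = -1) {a : ℂ} (ha : a ≠ 0) (x : ℝ) :
    ∃ C, ∀ k z, ‖z‖ ≤ x → ‖tm ω σ z a (k + 1)‖ ≤ C * (1 / 2) ^ k := by
  have hr := norm_pos_iff.2 ha
  set m := max 1 (‖a‖ ^ 2)⁻¹ with hm
  have m1 : 1 ≤ m := le_max_left _ _
  set β := 2 * m * (|x| + 1) with hβ
  have β0 : 0 < β := by positivity
  have p0 := h.pos 0 le_rfl
  have pβ := h.pos β β0.le
  have hL := L_nn h hr
  refine ⟨(ω 0 + L ω ‖a‖) / ω β, fun k z hz => ?_⟩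
  have e1 : ‖a ^ (-((k + 1 : ℕ) : ℤ)) * I ω (k + 1) ‖a‖‖ ≤ ω 0 * m ^ (k + 1) := by
    rw [norm_mul, norm_zpow, Complex.norm_real, Real.norm_eq_abs, zpow_neg, zpow_natCast,
      inv_mul_le_iff₀ (by positivity)]
    refine (h.I_le k hr.le).trans ?_
    rw [mul_comm]
    gcongr
    exact le_mul_of_one_le_right p0.le (one_le_pow₀ m1)
  have e2 := (norm_sub_le _ _).trans (add_le_add e1 (Jt h hσ ha (k + 1) m1 (le_max_right _ _)))
  have e3 : ‖z‖ ≤ |x| + 1 := by linarith [le_abs_self x]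
  rw [tm, norm_div, norm_mul, norm_pow, Complex.norm_real, Real.norm_of_nonneg (D_pos h k).le]
  calc _ ≤ (ω 0 * m ^ (k + 1) + L ω ‖a‖ * m ^ (k + 1)) * (|x| + 1) ^ (k + 1) /
        (ω β * β ^ (k + 1)) := by gcongr; exact D_ge h k β0.le
    _ = (ω 0 + L ω ‖a‖) / ω β * (1 / 2) ^ (k + 1) := by
        rw [hβ, mul_pow, mul_pow, one_div_pow]; field_simp
    _ ≤ _ := by gcongr ?_ * ?_; exact pow_le_pow_of_le_one (by norm_num) (by norm_num) (by omega)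

lemma tm_sum (h : Hyp ω T) {σ : ℤ} (hσ : σ = 1 ∨ σ = -1) {a : ℂ} (ha : a ≠ 0) (z : ℂ) :
    Summable fun k => tm ω σ z a (k + 1) := by
  obtain ⟨C, hC⟩ := tm_le h hσ ha ‖z‖
  exact Summable.of_norm_bounded (summable_geometric_two.mul_left C) fun k => hC k z le_rfl

lemma A_cont (h : Hyp ω T) {σ : ℤ} (hσ : σ = 1 ∨ σ = -1) {a : ℂ} (ha : a ≠ 0) {K : Set ℂ}
    {x : ℝ} (hK : ∀ z ∈ K, ‖z‖ ≤ x) : ContinuousOn (fun z => A ω σ z a) K := by
  obtain ⟨C, hC⟩ := tm_le h hσ ha x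
  have := continuousOn_tsum (f := fun k z => tm ω σ z a (k + 1)) (s := K)
    (fun k => by unfold tm; fun_prop) (summable_geometric_two.mul_left C)
    fun k z hz => hC k z (hK z hz)
  unfold A W
  exact ContinuousOn.mul (by fun_prop) (continuousOn_const.sub this).neg.cexp

lemma A_le (h : Hyp ω T) {σ : ℤ} (hσ : σ = 1 ∨ σ = -1) (x : ℝ) : ∃ R C : ℝ, 0 ≤ C ∧ ∀ a z : ℂ,
    R ≤ ‖a‖ → ‖z‖ ≤ x → C * L ω ‖a‖ ≤ 1 → ‖A ω σ z a - 1‖ ≤ 2 * (C * L ω ‖a‖) := by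
  set α := max T (2 * |x| + 1) with hα
  have a1 : T ≤ α := le_max_left _ _
  have a2 : 2 * |x| + 1 ≤ α := le_max_right _ _
  have x0 := abs_nonneg x
  have α0 : 0 < α := by linarith
  have pα := h.pos α α0.le
  refine ⟨α, 1 + 20 / ω α, by positivity, fun a z ha hz hC => ?_⟩
  have hr : 0 < ‖a‖ := by linarith
  have ha0 := norm_pos_iff.1 hr
  have hL := L_nn h hr
  have hz' : ‖z‖ ≤ α / 2 := by linarith [le_abs_self x]
  have hw : ‖z / a‖ < 1 := by rw [norm_div, div_lt_one hr]; linarith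
  have s1 := (Complex.hasSum_taylorSeries_neg_log' hw).sub (tm_sum h hσ ha0 z).hasSum
  have s2 := s1.norm_le_of_bounded (hasSum_geometric_two.mul_left (10 * L ω ‖a‖ / ω α)) fun k => by
    have d0 := D_pos h k
    have d1 : ((D ω (k + 1) : ℝ) : ℂ) ≠ 0 := by exact_mod_cast d0.ne'
    have e1 : (z / a) ^ (k + 1) / (k + 1) - tm ω σ z a (k + 1) =
        (((a ^ (k + 1))⁻¹ * M ω k ‖a‖ + (starRingEnd ℂ) a ^ (σ * (k + 1 : ℕ)) *
          J ω (k + 1) ‖a‖) * z ^ (k + 1)) / D ω (k + 1) := by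
      have e2 : (D ω (k + 1) : ℂ) = (k + 1) * (I ω (k + 1) ‖a‖ + M ω k ‖a‖) := by
        rw [D_eq, h.M_split k le_rfl hr.le]; push_cast; rfl
      have e3 : (k : ℂ) + 1 ≠ 0 := by exact_mod_cast Nat.succ_ne_zero k
      rw [tm, zpow_neg, zpow_natCast, eq_div_iff d1, sub_mul, div_mul_cancel₀ _ d1, e2, div_pow]
      field_simp
      ring
    have e4 : ‖(a ^ (k + 1))⁻¹ * M ω k ‖a‖‖ ≤ 9 * L ω ‖a‖ / ω α / α ^ (k + 1) * D ω (k + 1) := by
      rw [norm_mul, norm_inv, norm_pow, Complex.norm_real, Real.norm_of_nonneg (h.M_nn k hr.le),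
        inv_mul_le_iff₀ (by positivity), D_eq]
      refine (h.tail k a1 ha).trans (le_of_eq ?_)
      rw [div_pow]; ring
    have e5 : ‖(starRingEnd ℂ) a ^ (σ * (k + 1 : ℕ)) * J ω (k + 1) ‖a‖‖ ≤
        L ω ‖a‖ / ω α / α ^ (k + 1) * D ω (k + 1) := by
      refine (Jt h hσ ha0 (k + 1) le_rfl (inv_le_one_of_one_le₀ (by nlinarith))).trans ?_
      calc _ = L ω ‖a‖ / ω α / α ^ (k + 1) * (ω α * α ^ (k + 1)) := by field_simp; simp
        _ ≤ _ := by gcongr; exact D_ge h k α0.le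
    have e6 := (norm_add_le _ _).trans (add_le_add e4 e5)
    rw [e1, norm_div, norm_mul, norm_pow, Complex.norm_real, Real.norm_of_nonneg d0.le,
      div_le_iff₀ d0]
    calc _ ≤ (9 * L ω ‖a‖ / ω α / α ^ (k + 1) * D ω (k + 1) +
          L ω ‖a‖ / ω α / α ^ (k + 1) * D ω (k + 1)) * (α / 2) ^ (k + 1) := by gcongr
      _ = 10 * L ω ‖a‖ / ω α * (1 / 2) ^ (k + 1) * D ω (k + 1) := by
          rw [div_pow, one_div_pow]; field_simp; ring
      _ ≤ _ := by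
          gcongr ?_ * ?_ * _
          exact pow_le_pow_of_le_one (by norm_num) (by norm_num) (by omega)
  have e7 : 1 - z / a ≠ 0 := by
    intro h0
    rw [← sub_eq_zero.1 h0] at hw
    simp at hw
  have e8 : A ω σ z a = Complex.exp (-((-Complex.log (1 - z / a) - ∑' k, tm ω σ z a (k + 1)) +
      L ω ‖a‖)) := by
    rw [A, ← Complex.exp_log e7, ← Complex.exp_add, Complex.exp_log e7, W]
    congr 1; ring
  have e9 : ‖-((-Complex.log (1 - z / a) - ∑' k, tm ω σ z a (k + 1)) + L ω ‖a‖)‖ ≤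
      (1 + 20 / ω α) * L ω ‖a‖ := by
    rw [norm_neg]
    refine (norm_add_le _ _).trans ?_
    rw [Complex.norm_real, Real.norm_of_nonneg hL]
    refine (add_le_add s2 le_rfl).trans (le_of_eq ?_)
    ring
  rw [e8]
  exact (Complex.norm_exp_sub_one_le (e9.trans hC)).trans (by linarith)

theorem main (h : Hyp ω T) {σ : ℤ} (hσ : σ = 1 ∨ σ = -1) (a : ℕ → ℂ) (ha : ∀ n, a n ≠ 0)
    (hs : Summable fun n => L ω ‖a n‖) :
    ∃ P : ℂ → ℂ, (∀ K : Set ℂ, IsCompact K → TendstoUniformlyOn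
      (fun N z => ∏ n ∈ Finset.range N, A ω σ z (a n)) P atTop K) ∧
      ∀ z, (∀ n, z ≠ a n) → P z ≠ 0 := by
  have h0 := hs.tendsto_atTop_zero
  have hbig : ∀ R, ∀ᶠ n in atTop, R ≤ ‖a n‖ := by
    intro R
    set S := max R 1 with hS
    have S0 : 0 < S := lt_max_of_lt_right one_pos
    have p := h.pos (2 * S) (by positivity)
    filter_upwards [h0.eventually (gt_mem_nhds (show 0 < ω (2 * S) / 2 by positivity))] with n hn
    by_contra hh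
    have h1 : ‖a n‖ ≤ S := (not_le.1 hh).le.trans (le_max_left _ _)
    have h2 := h.L_ge' (norm_pos_iff.2 (ha n)) (show ‖a n‖ ≤ 2 * S by linarith)
    have h3 : ω (2 * S) / 2 ≤ ω (2 * S) / (2 * S) * (2 * S - ‖a n‖) := by
      calc _ = ω (2 * S) / (2 * S) * S := by field_simp
        _ ≤ _ := by gcongr; linarith
    linarith
  have key : ∀ x : ℝ, ∃ C : ℝ, ∀ᶠ n in atTop, ∀ z : ℂ, ‖z‖ ≤ x →
      ‖A ω σ z (a n) - 1‖ ≤ C * L ω ‖a n‖ := by
    intro x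
    obtain ⟨R, C, -, hC⟩ := A_le h hσ x
    have h1 := h0.const_mul C
    rw [mul_zero] at h1
    refine ⟨2 * C, ?_⟩
    filter_upwards [hbig R, h1.eventually (ge_mem_nhds one_pos)] with n h2 h3 z hz
    rw [mul_assoc]
    exact hC _ z h2 hz h3
  refine ⟨fun z => ∏' n, (1 + (A ω σ z (a n) - 1)), fun K hK => ?_, fun z hz => ?_⟩
  · obtain ⟨x, hx⟩ := hK.isBounded.exists_norm_le
    obtain ⟨C, hC⟩ := key x
    have := (Summable.hasProdUniformlyOn_nat_one_add (f := fun n z => A ω σ z (a n) - 1) hK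
      (hs.mul_left C) (hC.mono fun n hn z hz => hn z (hx z hz))
      fun n => (A_cont h hσ (ha n) hx).sub continuousOn_const).tendstoUniformlyOn_finsetRange
    simpa using this
  · obtain ⟨C, hC⟩ := key ‖z‖
    refine tprod_one_add_ne_zero_of_summable (fun n => ?_) ?_
    · rw [add_sub_cancel, A]
      refine mul_ne_zero (sub_ne_zero.2 fun h1 => hz n ?_) (Complex.exp_ne_zero _)
      exact ((div_eq_one_iff_eq (ha n)).1 h1.symm)
    · refine Summable.of_norm_bounded_eventually_nat (hs.mul_left C) ?_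
      filter_upwards [hC] with n hn
      simpa using hn z le_rfl

end Pool.Agent.H1.DjrB
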