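import Mathlib

open MeasureTheory Set

namespace Pool.Agent.H1.Lp

abbrev E := EuclideanSpace ℝ (Fin 2)

lemma inn (x u : E) : inner ℝ x u = x 0 * u 0 + x 1 * u 1 := by
  simp [PiLp.inner_apply, Fin.sum_univ_two]; ring

lemma nz {v : E} (hv : v ≠ 0) : 0 < v 0 ^ 2 + v 1 ^ 2 := by
  by_contra h
  apply hv
  have h0 : v 0 = 0 := by nlinarith [sq_nonneg (v 0), sq_nonneg (v 1)]
  have h1 : v 1 = 0 := by nlinarith [sq_nonneg (v 0), sq_nonneg (v 1)]
  ext i
  fin_cases i
  · simpa using h0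
  · simpa using h1

lemma par {v d w : E} (hv : v ≠ 0) (hd : d ≠ 0) (h1 : inner ℝ w v = 0) (h2 : inner ℝ d v = 0) :
    ∃ t : ℝ, w = t • d := by
  rw [inn] at h1 h2
  have a := nz hv
  have b := nz hd
  have c : w 0 * d 1 - w 1 * d 0 = 0 := by
    have : (w 0 * d 1 - w 1 * d 0) * (v 0 ^ 2 + v 1 ^ 2) = 0 := by
      linear_combination (d 1 * v 0 - d 0 * v 1) * h1 + (w 0 * v 1 - w 1 * v 0) * h2
    exact (mul_eq_zero.1 this).resolve_right a.ne'
  refine ⟨(w 0 * d 0 + w 1 * d 1) / (d 0 ^ 2 + d 1 ^ 2), ?_⟩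
  ext i
  fin_cases i
  · simp only [Fin.zero_eta, PiLp.smul_apply, smul_eq_mul]
    field_simp
    linear_combination d 1 * c
  · simp only [Fin.mk_one, PiLp.smul_apply, smul_eq_mul]
    field_simp
    linear_combination (-d 0) * c

noncomputable def F (A : Set E) (x : E) : ℝ :=
  sSup {t : ℝ | ∃ u : E, ‖u‖ = 1 ∧ (∀ y ∈ A, inner ℝ y u ≤ inner ℝ x u) ∧ t = inner ℝ x u}

variable {ι : Type} [Fintype ι]

def poly (ν : ι → E) (h : ι → ℝ) : Set E := {x | ∀ i, inner ℝ x (ν i) ≤ h i}

structure Good (ν P Q : ι → E) (h : ι → ℝ) : Prop where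
  unit : ∀ i, ‖ν i‖ = 1
  inj : Function.Injective ν
  Pm : ∀ i, P i ∈ poly ν h
  Qm : ∀ i, Q i ∈ poly ν h
  Pe : ∀ i, inner ℝ (P i) (ν i) = h i
  Qe : ∀ i, inner ℝ (Q i) (ν i) = h i
  l : ∀ i, ∃ j, inner ℝ (P i) (ν j) = h j ∧ inner ℝ (Q i) (ν j) < h j
  r : ∀ i, ∃ j, inner ℝ (Q i) (ν j) = h j ∧ inner ℝ (P i) (ν j) < h j
  c : ∃ R : E, ∀ i, inner ℝ R (ν i) < h i

omit [Fintype ι] in
lemma poly_closed (ν : ι → E) (h : ι → ℝ) : IsClosed (poly ν h) := by
  simp only [poly, ofPred_forall]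
  exact isClosed_iInter fun i => isClosed_le (by fun_prop) continuous_const

omit [Fintype ι] in
lemma poly_convex (ν : ι → E) (h : ι → ℝ) : Convex ℝ (poly ν h) := by
  intro x hx y hy a b ha hb hab i
  rw [inner_add_left, real_inner_smul_left, real_inner_smul_left]
  have h1 := mul_le_mul_of_nonneg_left (hx i) ha
  have h2 := mul_le_mul_of_nonneg_left (hy i) hb
  have : a * h i + b * h i = h i := by rw [← add_mul, hab, one_mul]
  linarith

lemma mem_int {ν : ι → E} {h : ι → ℝ} {x : E} (hx : ∀ i, inner ℝ x (ν i) < h i) :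
    x ∈ interior (poly ν h) := by
  have ho : IsOpen {x : E | ∀ i, inner ℝ x (ν i) < h i} := by
    simp only [ofPred_forall]
    exact isOpen_iInter_of_finite fun i => isOpen_lt (by fun_prop) continuous_const
  exact interior_maximal (fun y hy i => (hy i).le) ho hx

variable {ν P Q : ι → E} {h : ι → ℝ}

omit [Fintype ι] in
lemma Good.ne (G : Good ν P Q h) (i : ι) : Q i - P i ≠ 0 := by
  intro e
  obtain ⟨j, h1, h2⟩ := G.l i
  rw [sub_eq_zero.1 e] at h2
  exact h2.ne h1

omit [Fintype ι] in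
lemma Good.nz (G : Good ν P Q h) (i : ι) : ν i ≠ 0 := by
  intro e
  simpa [e] using G.unit i

omit [Fintype ι] in
lemma Good.seg (G : Good ν P Q h) (i : ι) {x : E} (hx : x ∈ segment ℝ (P i) (Q i)) :
    x ∈ poly ν h ∧ inner ℝ x (ν i) = h i := by
  refine ⟨(poly_convex ν h).segment_subset (G.Pm i) (G.Qm i) hx, ?_⟩
  obtain ⟨a, b, -, -, hab, rfl⟩ := hx
  rw [inner_add_left, real_inner_smul_left, real_inner_smul_left, G.Pe, G.Qe, ← add_mul, hab,
    one_mul]

omit [Fintype ι] in
lemma Good.uniq (G : Good ν P Q h) (i : ι) {x u : E} (hx : x ∈ openSegment ℝ (P i) (Q i))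
    (hu : ‖u‖ = 1) (hs : ∀ y ∈ poly ν h, inner ℝ y u ≤ inner ℝ x u) : u = ν i := by
  have hxi := (G.seg i (openSegment_subset_segment _ _ _ hx)).2
  obtain ⟨a, b, ha, hb, hab, rfl⟩ := hx
  have h1 := hs _ (G.Pm i)
  have h2 := hs _ (G.Qm i)
  rw [inner_add_left, real_inner_smul_left, real_inner_smul_left] at h1 h2
  have h3 : inner ℝ u (Q i - P i) = 0 := by
    rw [inner_sub_right, real_inner_comm, real_inner_comm (P i)]
    have e : a = 1 - b := by linarith
    subst e
    have h4 : 0 ≤ b * (inner ℝ (Q i) u - inner ℝ (P i) u) := by linarith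
    have h5 : (1 - b) * (inner ℝ (Q i) u - inner ℝ (P i) u) ≤ 0 := by linarith
    have h6 := (mul_nonneg_iff_of_pos_left hb).1 h4
    have h7 : inner ℝ (Q i) u - inner ℝ (P i) u ≤ 0 :=
      le_of_mul_le_mul_left (by rwa [mul_zero]) ha
    linarith
  have h4 : inner ℝ (ν i) (Q i - P i) = 0 := by
    rw [inner_sub_right, real_inner_comm, real_inner_comm (P i), G.Pe, G.Qe, sub_self]
  obtain ⟨t, rfl⟩ := par (G.ne i) (G.nz i) h3 h4
  rw [norm_smul, G.unit, mul_one, Real.norm_eq_abs] at hu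
  obtain ⟨R, hR⟩ := G.c
  have h5 := hs R fun j => (hR j).le
  rw [real_inner_smul_right, real_inner_smul_right, hxi] at h5
  rcases (abs_eq zero_le_one).1 hu with rfl | rfl
  · simp
  · linarith [hR i]

omit [Fintype ι] in
lemma Good.F_eq (G : Good ν P Q h) (i : ι) {x : E} (hx : x ∈ openSegment ℝ (P i) (Q i)) :
    F (poly ν h) x = h i := by
  have hxi := (G.seg i (openSegment_subset_segment _ _ _ hx)).2
  unfold F
  rw [← csSup_singleton (h i)]
  congr 1
  ext t
  constructor
  · rintro ⟨u, hu, hs, rfl⟩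
    rw [G.uniq i hx hu hs, hxi]
    rfl
  · rintro rfl
    exact ⟨ν i, G.unit i, fun y hy => hxi ▸ hy i, hxi.symm⟩

lemma Good.front (G : Good ν P Q h) : frontier (poly ν h) = ⋃ i, segment ℝ (P i) (Q i) := by
  ext x
  rw [(poly_closed ν h).frontier_eq, mem_iUnion]
  constructor
  · rintro ⟨h1, h2⟩
    have : ∃ i, inner ℝ x (ν i) = h i := by
      by_contra hc
      exact h2 (mem_int fun i => lt_of_le_of_ne (h1 i) fun e => hc ⟨i, e⟩)
    obtain ⟨i, hi⟩ := this
    obtain ⟨t, ht⟩ := par (w := x - P i) (G.nz i) (G.ne i)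
      (by rw [inner_sub_left, hi, G.Pe, sub_self]) (by rw [inner_sub_left, G.Qe, G.Pe, sub_self])
    have hx : x = (1 - t) • P i + t • Q i := by
      rw [← sub_add_cancel x (P i), ht]
      module
    refine ⟨i, 1 - t, t, ?_, ?_, by ring, hx.symm⟩
    · obtain ⟨j, e1, e2⟩ := G.r i
      have := h1 j
      rw [hx, inner_add_left, real_inner_smul_left, real_inner_smul_left, e1] at this
      by_contra hc
      nlinarith
    · obtain ⟨j, e1, e2⟩ := G.l i
      have := h1 j
      rw [hx, inner_add_left, real_inner_smul_left, real_inner_smul_left, e1] at this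
      by_contra hc
      nlinarith
  · rintro ⟨i, hi⟩
    obtain ⟨h1, h2⟩ := G.seg i hi
    refine ⟨h1, fun hc => ?_⟩
    obtain ⟨e, he, hb⟩ := Metric.mem_nhds_iff.1 (mem_interior_iff_mem_nhds.1 hc)
    have : x + (e / 2) • ν i ∈ poly ν h := hb (by
      rw [mem_ball_iff_norm, add_sub_cancel_left, norm_smul, G.unit, Real.norm_eq_abs,
        abs_of_pos (by linarith)]
      linarith)
    have := this i
    rw [inner_add_left, real_inner_smul_left, h2, real_inner_self_eq_norm_sq, G.unit] at this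
    linarith

lemma Good.int_eq (G : Good ν P Q h) (q : ℝ) :
    ∫ x in frontier (poly ν h), F (poly ν h) x ^ q ∂(μH[1]) =
      ∑ i, dist (P i) (Q i) * h i ^ q := by
  have : NullSingletonClass (μH[1] : Measure E) :=
    Measure.nullSingletonClass_hausdorff E one_pos
  set V : Set E := range P ∪ range Q with hV
  have hf : V.Finite := (finite_range P).union (finite_range Q)
  have h0 : (μH[1] : Measure E) V = 0 := hf.measure_zero _
  have ho : ∀ i, ∀ x ∈ segment ℝ (P i) (Q i) \ V, x ∈ openSegment ℝ (P i) (Q i) := by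
    intro i x hx
    refine mem_openSegment_of_ne_left_right ?_ ?_ hx.1
    · exact fun e => hx.2 (Or.inl ⟨i, e⟩)
    · exact fun e => hx.2 (Or.inr ⟨i, e⟩)
  have hm : ∀ i, MeasurableSet (segment ℝ (P i) (Q i) \ V) := by
    intro i
    refine MeasurableSet.diff (IsCompact.measurableSet ?_) hf.measurableSet
    rw [← convexHull_pair]
    exact (toFinite _).isCompact_convexHull ℝ
  have hμ : ∀ i, (μH[1] : Measure E) (segment ℝ (P i) (Q i) \ V) = edist (P i) (Q i) := by
    intro i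
    rw [measure_congr (sdiff_null_ae_eq_self h0), hausdorffMeasure_segment]
  have he : ∀ i, EqOn (fun x => F (poly ν h) x ^ q) (fun _ => h i ^ q)
      (segment ℝ (P i) (Q i) \ V) := fun i x hx => by simp only [G.F_eq i (ho i x hx)]
  rw [G.front, ← setIntegral_congr_set (sdiff_null_ae_eq_self h0), iUnion_sdiff,
    integral_iUnion_fintype hm]
  · refine Finset.sum_congr rfl fun i _ => ?_
    rw [setIntegral_congr_fun (hm i) (he i), setIntegral_const, smul_eq_mul, measureReal_def, hμ,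
      dist_edist]
  · intro i j hij
    refine Set.disjoint_left.2 fun x hi hj => hij (G.inj ?_)
    have hj' := (G.seg j hj.1).2
    exact (G.uniq i (ho i x hi) (G.unit j) fun y hy => hj' ▸ hy j).symm
  · intro i
    refine IntegrableOn.congr_fun ?_ (he i).symm (hm i)
    exact integrableOn_const (by rw [hμ]; exact edist_ne_top _ _)

end Pool.Agent.H1.Lp
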