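import Mathlib
import Pool.Agent.H1.LpA

open MeasureTheory Set
open scoped Pointwise

namespace Pool.Agent.H1.Lp

noncomputable def pt (a b : ℝ) : E := !₂[a, b]

@[simp] lemma pt0 (a b : ℝ) : pt a b 0 = a := rfl
@[simp] lemma pt1 (a b : ℝ) : pt a b 1 = b := rfl

lemma pt_unit {a b : ℝ} (h : a ^ 2 + b ^ 2 = 1) : ‖pt a b‖ = 1 := by
  rw [EuclideanSpace.norm_eq, Fin.sum_univ_two]
  simp [h]

lemma pt_dist {a b c d l : ℝ} (h : (a - c) ^ 2 + (b - d) ^ 2 = l ^ 2) (hl : 0 ≤ l) :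
    dist (pt a b) (pt c d) = l := by
  rw [EuclideanSpace.dist_eq, Fin.sum_univ_two]
  simp only [pt0, pt1, Real.dist_eq, sq_abs, h]
  exact Real.sqrt_sq hl

lemma pt_inj {a b c d : ℝ} : pt a b = pt c d ↔ a = c ∧ b = d :=
  ⟨fun h => ⟨by simpa using congrArg (fun x : E => x 0) h,
    by simpa using congrArg (fun x : E => x 1) h⟩, fun h => by rw [h.1, h.2]⟩

lemma cpt {A : Set E} (hc : IsClosed A) {r : ℝ} (h : ∀ x ∈ A, |x 0| ≤ r ∧ |x 1| ≤ r) :
    IsCompact A := by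
  refine Metric.isCompact_of_isClosed_isBounded hc
    (isBounded_iff_forall_norm_le.2 ⟨2 * r, fun x hx => ?_⟩)
  obtain ⟨h0, h1⟩ := h x hx
  have hr : 0 ≤ r := (abs_nonneg _).trans h0
  rw [EuclideanSpace.norm_eq, Fin.sum_univ_two, Real.sqrt_le_left (by linarith)]
  simp only [Real.norm_eq_abs]
  nlinarith [abs_nonneg (x 0), abs_nonneg (x 1)]

noncomputable def n1 : E := pt (-1800 / 810001) (809999 / 810001)
noncomputable def n2 : E := pt (600 / 90001) (89999 / 90001)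

noncomputable def νK : Fin 3 → E := ![pt 0 (-1), pt 1 0, n1]
noncomputable def hK : Fin 3 → ℝ := ![0, 0, 1800 * 809999 / 810001]
noncomputable def PK : Fin 3 → E := ![pt (-809999) 0, pt 0 0, pt 0 1800]
noncomputable def QK : Fin 3 → E := ![pt 0 0, pt 0 1800, pt (-809999) 0]

noncomputable def νL : Fin 3 → E := ![pt 0 (-1), n2, n1]
noncomputable def hL : Fin 3 → ℝ := ![0, 600 * 674996 / 90001, 1800 * 405000 / 810001]
noncomputable def PL : Fin 3 → E := ![pt (-405000) 0, pt 674996 0, pt 404999 1800]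
noncomputable def QL : Fin 3 → E := ![pt 674996 0, pt 404999 1800, pt (-405000) 0]

noncomputable def νM : Fin 4 → E := ![pt 0 (-1), pt 1 0, n2, n1]
noncomputable def hM : Fin 4 → ℝ :=
  ![0, 674996, (600 * 674996 + 89999 * 1800) / 90001, 1800 * 1214999 / 810001]
noncomputable def PM : Fin 4 → E :=
  ![pt (-1214999) 0, pt 674996 0, pt 674996 1800, pt 404999 3600]
noncomputable def QM : Fin 4 → E :=
  ![pt 674996 0, pt 674996 1800, pt 404999 3600, pt (-1214999) 0]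

lemma mK {x : E} : x ∈ poly νK hK ↔
    0 ≤ x 1 ∧ x 0 ≤ 0 ∧ 809999 * x 1 ≤ 1800 * (x 0 + 809999) := by
  simp only [poly, mem_ofPred_eq, Fin.forall_fin_succ, inn, νK, hK, n1]
  simp
  intro _ _
  constructor <;> intro h <;> linarith

lemma mL {x : E} : x ∈ poly νL hL ↔
    0 ≤ x 1 ∧ 89999 * x 1 ≤ 600 * (674996 - x 0) ∧ 809999 * x 1 ≤ 1800 * (x 0 + 405000) := by
  simp only [poly, mem_ofPred_eq, Fin.forall_fin_succ, inn, νL, hL, n1, n2]
  simp
  intro _
  constructor <;> rintro ⟨h1, h2⟩ <;> constructor <;> linarith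

lemma mM {x : E} : x ∈ poly νM hM ↔
    0 ≤ x 1 ∧ x 0 ≤ 674996 ∧ 89999 * (x 1 - 1800) ≤ 600 * (674996 - x 0) ∧
      809999 * x 1 ≤ 1800 * (x 0 + 1214999) := by
  simp only [poly, mem_ofPred_eq, Fin.forall_fin_succ, inn, νM, hM, n1, n2]
  simp
  intro _ _
  constructor <;> rintro ⟨h1, h2⟩ <;> constructor <;> linarith

lemma u1 : ‖n1‖ = 1 := pt_unit (by norm_num)
lemma u2 : ‖n2‖ = 1 := pt_unit (by norm_num)
lemma u3 : ‖pt 0 (-1)‖ = 1 := pt_unit (by norm_num)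
lemma u4 : ‖pt 1 0‖ = 1 := pt_unit (by norm_num)

lemma gK : Good νK PK QK hK where
  unit i := by fin_cases i <;> simp [νK, u1, u3, u4]
  inj i j h := by
    fin_cases i <;> fin_cases j <;> first | rfl | (norm_num [νK, n1, pt_inj] at h)
  Pm i := by fin_cases i <;> norm_num [mK, PK]
  Qm i := by fin_cases i <;> norm_num [mK, QK]
  Pe i := by fin_cases i <;> norm_num [inn, PK, νK, hK, n1]
  Qe i := by fin_cases i <;> norm_num [inn, QK, νK, hK, n1]
  l i := ⟨![2, 0, 1] i, by fin_cases i <;> simp [inn, PK, QK, νK, hK, n1] <;> norm_num⟩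
  r i := ⟨![1, 2, 0] i, by fin_cases i <;> simp [inn, PK, QK, νK, hK, n1] <;> norm_num⟩
  c := ⟨pt (-1000) 1, fun i => by fin_cases i <;> norm_num [inn, νK, hK, n1]⟩

lemma gL : Good νL PL QL hL where
  unit i := by fin_cases i <;> simp [νL, u1, u3, u2]
  inj i j h := by
    fin_cases i <;> fin_cases j <;> first | rfl | (norm_num [νL, n1, n2, pt_inj] at h)
  Pm i := by fin_cases i <;> norm_num [mL, PL]
  Qm i := by fin_cases i <;> norm_num [mL, QL]
  Pe i := by fin_cases i <;> norm_num [inn, PL, νL, hL, n1, n2]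
  Qe i := by fin_cases i <;> norm_num [inn, QL, νL, hL, n1, n2]
  l i := ⟨![2, 0, 1] i, by fin_cases i <;> simp [inn, PL, QL, νL, hL, n1, n2] <;> norm_num⟩
  r i := ⟨![1, 2, 0] i, by fin_cases i <;> simp [inn, PL, QL, νL, hL, n1, n2] <;> norm_num⟩
  c := ⟨pt 0 1, fun i => by fin_cases i <;> norm_num [inn, νL, hL, n1, n2]⟩

lemma gM : Good νM PM QM hM where
  unit i := by fin_cases i <;> simp [νM, u1, u3, u2, u4]
  inj i j h := by
    fin_cases i <;> fin_cases j <;> first | rfl | (norm_num [νM, n1, n2, pt_inj] at h)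
  Pm i := by fin_cases i <;> norm_num [mM, PM]
  Qm i := by fin_cases i <;> norm_num [mM, QM]
  Pe i := by fin_cases i <;> norm_num [inn, PM, νM, hM, n1, n2]
  Qe i := by fin_cases i <;> norm_num [inn, QM, νM, hM, n1, n2]
  l i := ⟨![3, 0, 1, 2] i, by fin_cases i <;> simp [inn, PM, QM, νM, hM, n1, n2] <;> norm_num⟩
  r i := ⟨![1, 2, 3, 0] i, by fin_cases i <;> simp [inn, PM, QM, νM, hM, n1, n2] <;> norm_num⟩
  c := ⟨pt 0 1, fun i => by fin_cases i <;> norm_num [inn, νM, hM, n1, n2]⟩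

lemma cK : IsCompact (poly νK hK) := cpt (poly_closed _ _) (r := 10 ^ 6) fun x hx => by
  obtain ⟨h1, h2, h3⟩ := mK.1 hx
  constructor <;> rw [abs_le] <;> constructor <;> linarith

lemma cL : IsCompact (poly νL hL) := cpt (poly_closed _ _) (r := 10 ^ 6) fun x hx => by
  obtain ⟨h1, h2, h3⟩ := mL.1 hx
  constructor <;> rw [abs_le] <;> constructor <;> linarith

lemma sumKL : poly νK hK + poly νL hL = poly νM hM := by
  ext x
  constructor
  · rintro ⟨y, hy, z, hz, rfl⟩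
    obtain ⟨h1, h2, h3⟩ := mK.1 hy
    obtain ⟨h4, h5, h6⟩ := mL.1 hz
    simp only [mM, PiLp.add_apply]
    refine ⟨?_, ?_, ?_, ?_⟩ <;> linarith
  · intro hx
    obtain ⟨h1, h2, h3, h4⟩ := mM.1 hx
    have key : ∀ y : E, y ∈ poly νK hK → x - y ∈ poly νL hL → x ∈ poly νK hK + poly νL hL :=
      fun y a b => ⟨y, a, x - y, b, by simp⟩
    rcases le_total (x 1) 1800 with a | a
    · rcases le_total (x 0 + 405000) 0 with b | b
      · refine key (pt (x 0 + 405000) (x 1)) ?_ ?_ <;>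
          simp only [mK, mL, PiLp.sub_apply, pt0, pt1] <;> refine ⟨?_, ?_, ?_⟩ <;> linarith
      · refine key (pt 0 (x 1)) ?_ ?_ <;>
          simp only [mK, mL, PiLp.sub_apply, pt0, pt1] <;> refine ⟨?_, ?_, ?_⟩ <;> linarith
    · refine key (pt 0 1800) ?_ ?_ <;>
        simp only [mK, mL, PiLp.sub_apply, pt0, pt1] <;> refine ⟨?_, ?_, ?_⟩ <;> linarith

lemma cube {x : ℝ} (hx : 0 ≤ x) : (x ^ (2 / 3 : ℝ)) ^ 3 = x ^ 2 := by
  rw [← Real.rpow_natCast, ← Real.rpow_mul hx]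
  norm_num

lemma lo {x s r : ℝ} (hs : 0 ≤ s) (hx : s ≤ x) (h : r ^ 3 ≤ s ^ 2) : r ≤ x ^ (2 / 3 : ℝ) := by
  refine le_of_pow_le_pow_left₀ three_ne_zero (Real.rpow_nonneg (hs.trans hx) _) ?_
  rw [cube (hs.trans hx)]
  exact h.trans (pow_le_pow_left₀ hs hx 2)

lemma hi {x s r : ℝ} (h0 : 0 ≤ x) (hx : x ≤ s) (hr : 0 ≤ r) (h : s ^ 2 ≤ r ^ 3) :
    x ^ (2 / 3 : ℝ) ≤ r := by
  refine le_of_pow_le_pow_left₀ three_ne_zero hr ?_
  rw [cube h0]
  exact (pow_le_pow_left₀ h0 hx 2).trans h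

noncomputable def Sp (A : Set E) : ℝ := ∫ x in frontier A, F A x ^ (1 / 2 : ℝ) ∂(μH[1])

lemma SK : 105600 ≤ Sp (poly νK hK) ^ (2 / 3 : ℝ) := by
  have d : dist (pt 0 1800) (pt (-809999) 0) = 810001 := pt_dist (by norm_num) (by norm_num)
  have s : 42.42 ≤ √(1800 * 809999 / 810001 : ℝ) := Real.le_sqrt_of_sq_le (by norm_num)
  refine lo (s := 34360000) (by norm_num) ?_ (by norm_num)
  rw [Sp, gK.int_eq, Fin.sum_univ_three]
  simp only [← Real.sqrt_eq_rpow, PK, QK, hK, Matrix.cons_val, Real.sqrt_zero, d]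
  linarith

lemma SL : 121500 ≤ Sp (poly νL hL) ^ (2 / 3 : ℝ) := by
  have d : dist (pt 404999 1800) (pt (-405000) 0) = 810001 := pt_dist (by norm_num) (by norm_num)
  have d' : dist (pt 674996 0) (pt 404999 1800) = 270003 := pt_dist (by norm_num) (by norm_num)
  have s : 29.99 ≤ √(1800 * 405000 / 810001 : ℝ) := Real.le_sqrt_of_sq_le (by norm_num)
  have s' : 67.08 ≤ √(600 * 674996 / 90001 : ℝ) := Real.le_sqrt_of_sq_le (by norm_num)
  refine lo (s := 42400000) (by norm_num) ?_ (by norm_num)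
  rw [Sp, gL.int_eq, Fin.sum_univ_three]
  simp only [← Real.sqrt_eq_rpow, PL, QL, hL, Matrix.cons_val, Real.sqrt_zero, d, d']
  linarith

lemma SM : Sp (poly νM hM) ^ (2 / 3 : ℝ) ≤ 225600 := by
  have d : dist (pt 404999 3600) (pt (-1214999) 0) = 1620002 :=
    pt_dist (by norm_num) (by norm_num)
  have d' : dist (pt 674996 1800) (pt 404999 3600) = 270003 := pt_dist (by norm_num) (by norm_num)
  have d'' : dist (pt 674996 0) (pt 674996 1800) = 1800 := pt_dist (by norm_num) (by norm_num)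
  have s : √(1800 * 1214999 / 810001 : ℝ) ≤ 51.97 := Real.sqrt_le_iff.2 (by norm_num)
  have s' : √((600 * 674996 + 89999 * 1800) / 90001 : ℝ) ≤ 79.38 :=
    Real.sqrt_le_iff.2 (by norm_num)
  have s'' : √(674996 : ℝ) ≤ 822 := Real.sqrt_le_iff.2 (by norm_num)
  rw [Sp, gM.int_eq, Fin.sum_univ_four]
  simp only [← Real.sqrt_eq_rpow, PM, QM, hM, Matrix.cons_val, Real.sqrt_zero, d, d', d'']
  refine hi (s := 107110000) (by positivity) (by linarith) (by norm_num) (by norm_num)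

lemma main : ¬ Sp (poly νK hK) ^ (2 / 3 : ℝ) + Sp (poly νL hL) ^ (2 / 3 : ℝ) ≤
    Sp (poly νK hK + poly νL hL) ^ (2 / 3 : ℝ) := by
  rw [sumKL]
  linarith [SK, SL, SM]

end Pool.Agent.H1.Lp
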