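import Mathlib
import Pool.Agent.H1.LpB

open MeasureTheory Set Real Filter Topology

namespace Pool.Agent.H1.Dp
open Pool.Agent.H1.Lp (E pt pt0 pt1 pt_inj)

/-- squared distance -/
def d2 (x y : E) : ℝ := (x 0 - y 0) ^ 2 + (x 1 - y 1) ^ 2

lemma dist_sq (x y : E) : dist x y ^ 2 = d2 x y := by
  rw [EuclideanSpace.dist_eq, Real.sq_sqrt (by positivity), Fin.sum_univ_two]
  simp [d2, Real.dist_eq, sq_abs]

lemma dist_le_iff {x y : E} {r : ℝ} (hr : 0 ≤ r) : dist x y ≤ r ↔ d2 x y ≤ r ^ 2 := by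
  rw [← dist_sq]
  exact (pow_le_pow_iff_left₀ dist_nonneg hr two_ne_zero).symm

lemma ext2 {x y : E} (h0 : x 0 = y 0) (h1 : x 1 = y 1) : x = y := by
  ext i
  fin_cases i
  · exact h0
  · exact h1

/-- point of the unit circle about `c` -/
noncomputable def γ (c : E) (θ : ℝ) : E := pt (c 0 + cos θ) (c 1 + sin θ)

@[simp] lemma γ0 (c : E) (θ : ℝ) : γ c θ 0 = c 0 + cos θ := rfl
@[simp] lemma γ1 (c : E) (θ : ℝ) : γ c θ 1 = c 1 + sin θ := rfl

lemma γ_cont (c : E) : Continuous (γ c) := by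
  unfold γ pt
  refine (PiLp.continuous_toLp 2 _).comp (continuous_pi fun i => ?_)
  fin_cases i
  · simpa using by fun_prop
  · simpa using by fun_prop

lemma d2γ (c : E) (a b : ℝ) : d2 (γ c a) (γ c b) = 4 * sin ((a - b) / 2) ^ 2 := by
  have h1 := cos_sub a b
  have h2 := cos_two_mul ((a - b) / 2)
  rw [show 2 * ((a - b) / 2) = a - b by ring] at h2
  simp only [d2, γ0, γ1]
  nlinarith [sin_sq_add_cos_sq a, sin_sq_add_cos_sq b, sin_sq_add_cos_sq ((a - b) / 2)]

lemma γ_inj (c : E) (a : ℝ) : InjOn (γ c) (Ico a (a + 2 * π)) := by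
  intro x hx y hy h
  have h1 := d2γ c x y
  rw [h] at h1
  have h2 : sin ((x - y) / 2) = 0 := by
    have : sin ((x - y) / 2) ^ 2 = 0 := by simp [d2] at h1 ⊢; exact h1
    exact pow_eq_zero_iff two_ne_zero |>.1 this
  have := (sin_eq_zero_iff_of_lt_of_lt (by linarith [hx.1, hy.2]) (by linarith [hx.2, hy.1])).1 h2
  linarith

lemma chord (c : E) {a b η : ℝ} (hη : η ≤ 1) (h : |a - b| ≤ η) :
    |a - b| ≤ (1 + η) * dist (γ c a) (γ c b) := by
  have h0 : 0 ≤ η := (abs_nonneg _).trans h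
  set x := |a - b| with hx
  have hx0 : 0 ≤ x := abs_nonneg _
  have e : dist (γ c a) (γ c b) = 2 * sin (x / 2) := by
    have hs : 0 ≤ sin (x / 2) := sin_nonneg_of_nonneg_of_le_pi (by linarith)
      (by linarith [pi_gt_three])
    refine (pow_left_inj₀ dist_nonneg (by positivity) two_ne_zero).1 ?_
    rw [dist_sq, d2γ]
    rcases abs_choice (a - b) with h | h
    · rw [hx, h]; ring
    · rw [hx, h, neg_div, sin_neg]; ring
  rw [e]
  rcases hx0.eq_or_lt with h1 | h1
  · rw [← h1]; simp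
  have h2 := sin_gt_sub_cube (show 0 < x / 2 by linarith)
  have h3 : x ^ 2 ≤ η := by nlinarith
  have h4 : x * (1 - η / 24) ≤ 2 * sin (x / 2) := by nlinarith
  have h5 : 1 ≤ (1 + η) * (1 - η / 24) := by nlinarith
  nlinarith

lemma arc (c : E) (a : ℝ) {A : Set ℝ} (hA : MeasurableSet A) (hs : A ⊆ Ico a (a + 2 * π)) :
    volume A ≤ μH[1] (γ c '' A) := by
  have key : ∀ η : ℝ, 0 < η → η ≤ 1 →
      volume A ≤ ENNReal.ofReal (1 + η) * μH[1] (γ c '' A) := by
    intro η h0 h1
    set B : ℤ → Set ℝ := fun n => A ∩ Ico (n • η) ((n + 1) • η) with hB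
    have hBm : ∀ n, MeasurableSet (B n) := fun n => hA.inter measurableSet_Ico
    have hi : ∀ n, InjOn (γ c) (B n) := fun n => (γ_inj c a).mono (inter_subset_left.trans hs)
    have e : A = ⋃ n, B n := by rw [← inter_iUnion, iUnion_Ico_zsmul h0, inter_univ]
    have p : ∀ n, volume (B n) ≤ ENNReal.ofReal (1 + η) * μH[1] (γ c '' B n) := by
      intro n
      have l : LipschitzOnWith (Real.toNNReal (1 + η)) (Function.invFunOn (γ c) (B n))
          (γ c '' B n) := by
        refine LipschitzOnWith.of_dist_le_mul ?_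
        rintro _ ⟨x, hx, rfl⟩ _ ⟨y, hy, rfl⟩
        rw [(hi n).leftInvOn_invFunOn hx, (hi n).leftInvOn_invFunOn hy,
          Real.coe_toNNReal _ (by linarith), Real.dist_eq]
        refine chord c h1 ?_
        have a1 := hx.2.1
        have a2 := hx.2.2
        have a3 := hy.2.1
        have a4 := hy.2.2
        simp only [zsmul_eq_mul, Int.cast_add, Int.cast_one] at a1 a2 a3 a4
        rw [abs_le]
        constructor <;> linarith
      have := l.hausdorffMeasure_image_le zero_le_one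
      rwa [(hi n).invFunOn_image Subset.rfl, hausdorffMeasure_real, ENNReal.rpow_one] at this
    have d : Pairwise (Function.onFun Disjoint fun n => γ c '' B n) := by
      intro i j hij
      refine disjoint_image_image fun x hx y hy hxy => ?_
      obtain rfl := γ_inj c a (hs hx.1) (hs hy.1) hxy
      exact Set.disjoint_left.1 (pairwise_disjoint_Ico_zsmul η hij) hx.2 hy.2
    calc volume A ≤ ∑' n, volume (B n) := by
          conv_lhs => rw [e]
          exact measure_iUnion_le _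
      _ ≤ ∑' n, ENNReal.ofReal (1 + η) * μH[1] (γ c '' B n) := ENNReal.tsum_le_tsum p
      _ = _ := by
          rw [ENNReal.tsum_mul_left, ← measure_iUnion d fun n =>
            (hBm n).image_of_continuousOn_injOn (γ_cont c).continuousOn (hi n), ← image_iUnion,
            ← e]
  have t : Tendsto (fun η : ℝ => ENNReal.ofReal (1 + η) * μH[1] (γ c '' A)) (𝓝[>] 0)
      (𝓝 (ENNReal.ofReal (1 + 0) * μH[1] (γ c '' A))) := by
    refine ENNReal.Tendsto.mul_const ?_ (Or.inl (by simp))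
    exact (ENNReal.continuous_ofReal.comp (continuous_const.add continuous_id)).continuousAt
      |>.tendsto.mono_left nhdsWithin_le_nhds
  have := ge_of_tendsto t (by
    filter_upwards [Ioc_mem_nhdsGT (show (0 : ℝ) < 1 by norm_num)] with η h using key η h.1 h.2)
  simpa using this

lemma fin_sph {c c' : E} (h : c ≠ c') : {z : E | dist z c = 1 ∧ dist z c' = 1}.Finite := by
  by_contra hi
  obtain ⟨s, hs, hc⟩ := Set.Infinite.exists_subset_card_eq hi 3
  obtain ⟨x, y, z, hxy, hxz, hyz, rfl⟩ := Finset.card_eq_three.1 hc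
  have hx := hs (show x ∈ _ by simp)
  have hy := hs (show y ∈ _ by simp)
  have hz := hs (show z ∈ _ by simp)
  rcases EuclideanGeometry.eq_of_dist_eq_of_dist_eq_of_finrank_eq_two (by simp) h hxy
    hx.1 hy.1 hz.1 hx.2 hy.2 hz.2 with h | h
  · exact hxz h.symm
  · exact hyz h.symm

lemma jreal {A B C : ℝ} (hA : A ≤ 3) (hB : B ≤ 3) (hC : C ≤ 3) (h0 : 0 ≤ A) (h1 : 0 ≤ B)
    (h2 : 0 ≤ C) : ∃ p q r : ℝ, p + q + r = 1 ∧
      q * C + r * B - (q * r * A + p * r * B + p * q * C) ≤ 1 ∧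
      p * C + r * A - (q * r * A + p * r * B + p * q * C) ≤ 1 ∧
      p * B + q * A - (q * r * A + p * r * B + p * q * C) ≤ 1 := by
  by_cases a : B + C ≤ A
  · exact ⟨0, 1 / 2, 1 / 2, by norm_num, by linarith, by linarith, by linarith⟩
  by_cases b : A + C ≤ B
  · exact ⟨1 / 2, 0, 1 / 2, by norm_num, by linarith, by linarith, by linarith⟩
  by_cases c : A + B ≤ C
  · exact ⟨1 / 2, 1 / 2, 0, by norm_num, by linarith, by linarith, by linarith⟩
  obtain ⟨X, Y, Z, hX, hY, hZ, rfl, rfl, rfl⟩ : ∃ X Y Z : ℝ, 0 < X ∧ 0 < Y ∧ 0 < Z ∧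
      A = Y + Z ∧ B = X + Z ∧ C = X + Y :=
    ⟨(B + C - A) / 2, (A + C - B) / 2, (A + B - C) / 2, by linarith, by linarith, by linarith,
      by ring, by ring, by ring⟩
  have hD : 0 < X * Y + Y * Z + Z * X := by positivity
  have key : (Y + Z) * (X + Z) * (X + Y) / (4 * (X * Y + Y * Z + Z * X)) ≤ 1 := by
    rw [div_le_one (by positivity)]
    have hxy := mul_pos hX hY
    have hyz := mul_pos hY hZ
    have hzx := mul_pos hZ hX
    by_cases s : X + Y + Z ≤ 4
    · nlinarith [mul_pos hxy hZ]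
    · have e1 : 3 * (X + Y + Z - 4) ≤ X := by linarith
      have e2 : 3 * (X + Y + Z - 4) ≤ Y := by linarith
      have e3 : 3 * (X + Y + Z - 4) ≤ Z := by linarith
      nlinarith [mul_le_mul_of_nonneg_right e1 hyz.le, mul_le_mul_of_nonneg_right e2 hzx.le,
        mul_le_mul_of_nonneg_right e3 hxy.le]
  refine ⟨(Y + Z) * X / (2 * (X * Y + Y * Z + Z * X)), (X + Z) * Y / (2 * (X * Y + Y * Z + Z * X)),
    (X + Y) * Z / (2 * (X * Y + Y * Z + Z * X)), ?_, ?_, ?_, ?_⟩
  · field_simp; ring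
  all_goals
    refine le_of_eq_of_le ?_ key
    field_simp
    ring

lemma j3 (a b c : E) (h1 : d2 b c ≤ 3) (h2 : d2 a c ≤ 3) (h3 : d2 a b ≤ 3) :
    ∃ x : E, d2 x a ≤ 1 ∧ d2 x b ≤ 1 ∧ d2 x c ≤ 1 := by
  obtain ⟨p, q, r, e, k1, k2, k3⟩ := jreal h1 h2 h3 (by unfold d2; positivity)
    (by unfold d2; positivity) (by unfold d2; positivity)
  obtain rfl : r = 1 - p - q := by linarith
  refine ⟨pt (p * a 0 + q * b 0 + (1 - p - q) * c 0) (p * a 1 + q * b 1 + (1 - p - q) * c 1),
    le_of_eq_of_le ?_ k1, le_of_eq_of_le ?_ k2, le_of_eq_of_le ?_ k3⟩ <;>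
  simp only [d2, pt0, pt1] <;> ring

lemma jung (C : Finset E) (h : ∀ x ∈ C, ∀ y ∈ C, d2 x y ≤ 3) :
    (⋂ c ∈ C, Metric.closedBall c (1 : ℝ)).Nonempty := by
  refine Convex.helly_theorem' (𝕜 := ℝ) (fun c _ => convex_closedBall c 1) fun I hI hc => ?_
  have hc' : I.card ≤ 3 := by simpa using hc
  rcases I.eq_empty_or_nonempty with rfl | ⟨a0, ha0⟩
  · simp
  obtain ⟨a, b, c, ha, hb, hc, hs⟩ : ∃ a b c, a ∈ I ∧ b ∈ I ∧ c ∈ I ∧
      ∀ z ∈ I, z = a ∨ z = b ∨ z = c := by
    have h0 : 0 < I.card := Finset.card_pos.2 ⟨a0, ha0⟩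
    obtain h | h | h : I.card = 1 ∨ I.card = 2 ∨ I.card = 3 := by omega
    · obtain ⟨a, rfl⟩ := Finset.card_eq_one.1 h
      exact ⟨a, a, a, by simp, by simp, by simp, by simp⟩
    · obtain ⟨a, b, -, rfl⟩ := Finset.card_eq_two.1 h
      exact ⟨a, b, b, by simp, by simp, by simp, by simp⟩
    · obtain ⟨a, b, c, -, -, -, rfl⟩ := Finset.card_eq_three.1 h
      exact ⟨a, b, c, by simp, by simp, by simp, by simp⟩
  obtain ⟨x, k1, k2, k3⟩ := j3 a b c (h _ (hI hb) _ (hI hc)) (h _ (hI ha) _ (hI hc))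
    (h _ (hI ha) _ (hI hb))
  refine ⟨x, mem_iInter₂.2 fun z hz => ?_⟩
  rw [Metric.mem_closedBall, dist_le_iff zero_le_one, one_pow]
  rcases hs z hz with rfl | rfl | rfl <;> assumption

lemma comb {s s' θ ρ p q : ℝ} (h1 : s ≤ θ) (h2 : θ ≤ s') (h3 : s' - s < π) (hρ : 0 ≤ ρ)
    (a : ρ + (p * cos s + q * sin s) ≤ 0) (b : ρ + (p * cos s' + q * sin s') ≤ 0) :
    ρ + (p * cos θ + q * sin θ) ≤ 0 := by
  rcases (h1.trans h2).eq_or_lt with rfl | hlt
  · rwa [le_antisymm h2 h1]
  have k0 : 0 < sin (s' - s) := sin_pos_of_pos_of_lt_pi (by linarith) h3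
  have k1 : 0 ≤ sin (s' - θ) := sin_nonneg_of_nonneg_of_le_pi (by linarith) (by linarith)
  have k2 : 0 ≤ sin (θ - s) := sin_nonneg_of_nonneg_of_le_pi (by linarith) (by linarith)
  have k3 : sin (s' - s) ≤ sin (s' - θ) + sin (θ - s) := by
    rw [show s' - s = (s' - θ) + (θ - s) by ring, sin_add]
    nlinarith [cos_le_one (s' - θ), cos_le_one (θ - s)]
  have k4 : sin (s' - s) * (p * cos θ + q * sin θ) =
      sin (s' - θ) * (p * cos s + q * sin s) + sin (θ - s) * (p * cos s' + q * sin s') := by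
    simp only [sin_sub]
    ring
  have k5 : sin (s' - s) * (ρ + (p * cos θ + q * sin θ)) ≤ 0 := by
    nlinarith [mul_nonneg k1 (neg_nonneg.2 a), mul_nonneg k2 (neg_nonneg.2 b),
      mul_le_mul_of_nonneg_right k3 hρ]
  exact le_of_mul_le_mul_left (by rwa [mul_zero]) k0

lemma sturm {k x : ℝ} (hk : 1 ≤ k) (hk' : k ≤ 3) (h0 : 0 ≤ x) (h1 : x ≤ π / 6) :
    2 * sin (k * (π / 6)) * sin x ≤ sin (k * x) := by
  have hp := pi_pos
  have g : ∀ y ∈ Icc 0 (π / 6), k * cos (k * y) * sin y - sin (k * y) * cos y ≤ 0 := by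
    intro y hy
    have hd : ∀ y, HasDerivAt (fun y => k * cos (k * y) * sin y - sin (k * y) * cos y)
        ((1 - k ^ 2) * (sin (k * y) * sin y)) y := by
      intro y
      have a := (hasDerivAt_id y).const_mul k
      have := ((a.cos.const_mul k).mul (hasDerivAt_sin y)).sub (a.sin.mul (hasDerivAt_cos y))
      refine this.congr_deriv ?_
      simp only [id]
      ring
    have := antitoneOn_of_deriv_nonpos (convex_Icc 0 (π / 6))
      (fun y _ => (hd y).continuousAt.continuousWithinAt)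
      (fun y _ => (hd y).differentiableAt.differentiableWithinAt) (fun y hy => by
        rw [(hd y).deriv]
        rw [interior_Icc] at hy
        refine mul_nonpos_of_nonpos_of_nonneg (by nlinarith) (mul_nonneg ?_ ?_)
        · exact sin_nonneg_of_nonneg_of_le_pi (by nlinarith [hy.1]) (by nlinarith [hy.1, hy.2])
        · exact sin_nonneg_of_nonneg_of_le_pi hy.1.le (by linarith [hy.2]))
      (left_mem_Icc.2 (by linarith)) hy hy.1
    simpa using this
  rcases h0.eq_or_lt with rfl | h0'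
  · simp
  have hs : ∀ y ∈ Icc x (π / 6), 0 < sin y := fun y hy =>
    sin_pos_of_pos_of_lt_pi (by linarith [hy.1]) (by linarith [hy.2])
  have hd : ∀ y ∈ Icc x (π / 6), HasDerivAt (fun y => sin (k * y) / sin y)
      ((k * cos (k * y) * sin y - sin (k * y) * cos y) / sin y ^ 2) y := by
    intro y hy
    have a := (hasDerivAt_id y).const_mul k
    refine (a.sin.div (hasDerivAt_sin y) (hs y hy).ne').congr_deriv ?_
    simp only [id]
    ring
  have := antitoneOn_of_deriv_nonpos (convex_Icc x (π / 6))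
    (fun y hy => (hd y hy).continuousAt.continuousWithinAt)
    (fun y hy => (hd y (interior_subset hy)).differentiableAt.differentiableWithinAt)
    (fun y hy => by
      have hy' := interior_subset hy
      rw [(hd y hy').deriv]
      exact div_nonpos_of_nonpos_of_nonneg (g y ⟨h0.trans hy'.1, hy'.2⟩) (sq_nonneg _))
    (left_mem_Icc.2 h1) (right_mem_Icc.2 h1) h1
  simp only [sin_pi_div_six] at this
  rw [div_le_div_iff₀ (by norm_num) (hs x (left_mem_Icc.2 h1))] at this
  linarith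

end Pool.Agent.H1.Dp
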