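import Mathlib
import Pool.Agent.H1.DpA

open MeasureTheory Set Real Filter Topology

namespace Pool.Agent.H1.Dp
open Pool.Agent.H1.Lp (E pt pt0 pt1 pt_inj)

noncomputable def ip (w : E) (θ : ℝ) : ℝ := w 0 * cos θ + w 1 * sin θ
noncomputable def jp (w : E) (θ : ℝ) : ℝ := -w 0 * sin θ + w 1 * cos θ

def W (C : Finset E) (t : ℝ) : Set E := {y | ∀ z, (∀ c ∈ C, d2 z c ≤ t ^ 2) → d2 y z ≤ t ^ 2}

noncomputable def H (C : Finset E) (t θ : ℝ) : ℝ := sSup ((fun y => -ip y θ) '' W C t)

lemma d2_comm (x y : E) : d2 x y = d2 y x := by unfold d2; ring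

lemma int_ip (w : E) (a b : ℝ) : ∫ θ in a..b, -ip w θ = jp w b - jp w a := by
  refine intervalIntegral.integral_eq_sub_of_hasDerivAt (fun x _ => ?_)
    (Continuous.intervalIntegrable (by unfold ip; fun_prop) _ _)
  refine (((hasDerivAt_sin x).const_mul (-w 0)).add ((hasDerivAt_cos x).const_mul (w 1))).congr_deriv
    ?_
  unfold ip
  ring

lemma ip_cont (w : E) : Continuous (ip w) := by unfold ip; fun_prop

variable {C : Finset E} {t : ℝ}

lemma C_sub {c : E} (hc : c ∈ C) : c ∈ W C t := fun z hz => by rw [d2_comm]; exact hz c hc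

lemma W_cpt (ht : 0 ≤ t) (h : ∀ x ∈ C, ∀ y ∈ C, d2 x y ≤ t ^ 2) {c : E} (hc : c ∈ C) :
    IsCompact (W C t) := by
  refine (isCompact_closedBall c t).of_isClosed_subset ?_ fun y hy => ?_
  · simp only [W, ofPred_forall]
    exact isClosed_iInter fun z => isClosed_iInter fun _ =>
      isClosed_le (by unfold d2; fun_prop) continuous_const
  · exact (dist_le_iff ht).2 (hy c (h c hc))

lemma H_cont (hW : IsCompact (W C t)) : Continuous (H C t) :=
  hW.continuous_sSup (f := fun θ y => -ip y θ) (by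
    unfold ip
    change Continuous fun p : ℝ × E => -(p.2 0 * cos p.1 + p.2 1 * sin p.1)
    fun_prop)

lemma le_H (hW : IsCompact (W C t)) {y : E} (hy : y ∈ W C t) (θ : ℝ) : -ip y θ ≤ H C t θ :=
  le_csSup (hW.bddAbove_image (by unfold ip; fun_prop)) ⟨y, hy, rfl⟩

lemma H_sum (ht : 0 ≤ t) (h : ∀ x ∈ C, ∀ y ∈ C, d2 x y ≤ t ^ 2) {c : E} (hc : c ∈ C) (θ : ℝ) :
    H C t θ + H C t (θ + π) ≤ t := by
  rw [← le_sub_iff_add_le]
  refine csSup_le ⟨_, c, C_sub hc, rfl⟩ ?_
  rintro _ ⟨y, hy, rfl⟩
  rw [le_sub_comm]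
  refine csSup_le ⟨_, c, C_sub hc, rfl⟩ ?_
  rintro _ ⟨y', hy', rfl⟩
  have k := hy y' fun c hc => hy' c (h c hc)
  simp only [ip, cos_add_pi, sin_add_pi, d2] at k ⊢
  have : (y' 0 - y 0) * cos θ + (y' 1 - y 1) * sin θ ≤ t := by
    refine (abs_le_of_sq_le_sq' ?_ ht).2
    nlinarith [sin_sq_add_cos_sq θ, sq_nonneg ((y' 0 - y 0) * sin θ - (y' 1 - y 1) * cos θ)]
  linarith

lemma int_H (ht : 0 ≤ t) (h : ∀ x ∈ C, ∀ y ∈ C, d2 x y ≤ t ^ 2) {c : E} (hc : c ∈ C) (a : ℝ) :
    ∫ θ in a..a + 2 * π, H C t θ ≤ π * t := by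
  have hc' := H_cont (W_cpt ht h hc)
  have e := intervalIntegral.integral_comp_add_right (H C t) (a := a) (b := a + π) π
  rw [← intervalIntegral.integral_add_adjacent_intervals (b := a + π)
    (hc'.intervalIntegrable _ _) (hc'.intervalIntegrable _ _),
    show a + 2 * π = a + π + π by ring, ← e, ← intervalIntegral.integral_add
    (hc'.intervalIntegrable _ _) (Continuous.intervalIntegrable (by fun_prop) _ _)]
  have := intervalIntegral.integral_mono_on (μ := volume) (a := a) (b := a + π)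
    (f := fun θ => H C t θ + H C t (θ + π)) (g := fun _ => t) (by linarith [pi_pos])
    (Continuous.intervalIntegrable (by fun_prop) _ _) (by simp) fun θ _ => H_sum ht h hc θ
  simpa using this

lemma le_int (hW : IsCompact (W C t)) {a b : ℝ} (hab : a ≤ b) (w : E) (r : ℝ)
    (h : ∀ θ ∈ Icc a b, -ip w θ + r ≤ H C t θ) :
    jp w b - jp w a + r * (b - a) ≤ ∫ θ in a..b, H C t θ := by
  have := intervalIntegral.integral_mono_on (μ := volume) (f := fun θ => -ip w θ + r) hab
    (((ip_cont w).neg.add continuous_const).intervalIntegrable _ _)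
    ((H_cont hW).intervalIntegrable _ _) h
  rw [intervalIntegral.integral_add ((ip_cont w).fun_neg.intervalIntegrable _ _) (by simp),
    int_ip] at this
  simpa [mul_comm] using this

lemma asin_half : arcsin (1 / 2) = π / 6 := by
  rw [← sin_pi_div_six, arcsin_sin] <;> linarith [pi_pos]

lemma jump (ht : 1 ≤ t) (ht2 : t ≤ 2) (h : ∀ x ∈ C, ∀ y ∈ C, d2 x y ≤ t ^ 2) {c c' : E}
    (hc : c ∈ C) (hc' : c' ∈ C) {a b : ℝ} (hab : a ≤ b) (hb : b < a + π)
    (e : γ c a = γ c' b) :
    π * t / (6 * arcsin (t / 2)) * (b - a) + (jp c' b - jp c a) ≤ ∫ θ in a..b, H C t θ := by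
  have hp := pi_pos
  have hW := W_cpt (by linarith) h hc
  have hH := H_cont hW
  obtain ⟨m, A, rfl, rfl⟩ : ∃ m A, a = m - A ∧ b = m + A :=
    ⟨(a + b) / 2, (b - a) / 2, by ring, by ring⟩
  have A0 : 0 ≤ A := by linarith
  have A1 : A < π / 2 := by linarith
  have e0 : c' 0 = c 0 + 2 * sin m * sin A := by
    have := congrArg (fun x : E => x 0) e
    simp only [γ0, cos_sub, cos_add] at this
    linarith
  have e1 : c' 1 = c 1 - 2 * cos m * sin A := by
    have := congrArg (fun x : E => x 1) e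
    simp only [γ1, sin_sub, sin_add] at this
    linarith
  have sA : 0 ≤ sin A := sin_nonneg_of_nonneg_of_le_pi A0 (by linarith)
  have sA' : 2 * sin A ≤ t := by
    have := h c hc c' hc'
    simp only [d2, e0, e1] at this
    refine (abs_le_of_sq_le_sq' ?_ (by linarith)).2
    nlinarith [sin_sq_add_cos_sq m]
  set β := arcsin (sin A / t) with hβ
  have q0 : 0 ≤ sin A / t := by positivity
  have q1 : sin A / t ≤ 1 / 2 := by rw [div_le_iff₀ (by linarith)]; linarith
  have sβ : t * sin β = sin A := by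
    rw [hβ, sin_arcsin (by linarith) (by linarith)]
    field_simp
  have β0 : 0 ≤ β := arcsin_nonneg.2 q0
  have β1 : β ≤ π / 6 := asin_half ▸ monotone_arcsin q1
  have β2 : β ≤ A := by
    rw [← arcsin_sin (x := A) (by linarith) A1.le]
    exact monotone_arcsin (div_le_self sA ht)
  have a1 : π / 6 ≤ arcsin (t / 2) := asin_half ▸ monotone_arcsin (by linarith)
  have a2 := arcsin_le_pi_div_two (t / 2)
  have key : π * t / (6 * arcsin (t / 2)) * (m + A - (m - A)) ≤ t * (m + β - (m - β)) := by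
    set k := 6 * arcsin (t / 2) / π with hk
    have k1 : 1 ≤ k := by rw [hk, le_div_iff₀ hp]; linarith
    have k3 : k ≤ 3 := by rw [hk, div_le_iff₀ hp]; linarith
    have s := sturm k1 k3 β0 β1
    rw [show k * (π / 6) = arcsin (t / 2) by rw [hk]; field_simp,
      sin_arcsin (by linarith) (by linarith)] at s
    have l : A ≤ k * β := by
      rw [← arcsin_sin (x := A) (by linarith) A1.le,
        ← arcsin_sin (x := k * β) (by nlinarith) (by nlinarith)]
      exact monotone_arcsin (by linarith)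
    rw [show π * t / (6 * arcsin (t / 2)) = t / k by
      rw [hk]; field_simp, div_mul_eq_mul_div, div_le_iff₀ (by linarith)]
    nlinarith
  set w : E := pt (c 0 + t * cos (m - β)) (c 1 + t * sin (m - β)) with hw
  have w0 : w 0 = c 0 + t * cos (m - β) := rfl
  have w1 : w 1 = c 1 + t * sin (m - β) := rfl
  have w0' : w 0 = c' 0 + t * cos (m + β) := by
    rw [w0, e0, ← sβ, cos_sub, cos_add]; ring
  have w1' : w 1 = c' 1 + t * sin (m + β) := by
    rw [w1, e1, ← sβ, sin_sub, sin_add]; ring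
  have i1 := le_int hW (show m - A ≤ m - β by linarith) c 0 fun θ _ => by
    simpa using le_H hW (C_sub hc) θ
  have i3 := le_int hW (show m + β ≤ m + A by linarith) c' 0 fun θ _ => by
    simpa using le_H hW (C_sub hc') θ
  have i2 := le_int hW (show m - β ≤ m + β by linarith) w t fun θ hθ => by
    have hy : pt (w 0 - t * cos θ) (w 1 - t * sin θ) ∈ W C t := by
      intro z hz
      have z1 := hz c hc
      have z2 := hz c' hc'
      have := comb (ρ := d2 w z) (p := -2 * t * (w 0 - z 0)) (q := -2 * t * (w 1 - z 1))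
        hθ.1 hθ.2 (by linarith) (by unfold d2; positivity)
        (by
          simp only [d2, w0, w1] at z1 ⊢
          nlinarith [sin_sq_add_cos_sq (m - β)])
        (by
          simp only [d2, w0', w1'] at z2 ⊢
          nlinarith [sin_sq_add_cos_sq (m + β)])
      simp only [d2, pt0, pt1] at this ⊢
      nlinarith [sin_sq_add_cos_sq θ]
    refine le_of_eq_of_le ?_ (le_H hW hy θ)
    simp only [ip, pt0, pt1]
    linear_combination (-t) * sin_sq_add_cos_sq θ
  have j1 : jp w (m - β) = jp c (m - β) := by simp only [jp, w0, w1]; ring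
  have j2 : jp w (m + β) = jp c' (m + β) := by simp only [jp, w0', w1']; ring
  rw [← intervalIntegral.integral_add_adjacent_intervals (b := m - β)
    (hH.intervalIntegrable _ _) (hH.intervalIntegrable _ _),
    ← intervalIntegral.integral_add_adjacent_intervals (a := m - β) (b := m + β)
    (hH.intervalIntegrable _ _) (hH.intervalIntegrable _ _)]
  linarith

end Pool.Agent.H1.Dp
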