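import Mathlib
import Pool.Agent.H1.DpB

open MeasureTheory Set Real Filter Topology

namespace Pool.Agent.H1.Dp
open Pool.Agent.H1.Lp (E pt pt0 pt1 pt_inj)

def D (C : Finset E) : Set E := {z | ∀ c ∈ C, d2 z c ≤ 1}

def U (C : Finset E) : Set ℝ := {θ | ∃ c ∈ C, γ c θ ∈ D C}

lemma D_eq (C : Finset E) : (⋂ c ∈ C, Metric.closedBall c (1 : ℝ)) = D C := by
  ext z
  simp [D, dist_le_iff]

lemma D_closed (C : Finset E) : IsClosed (D C) :=
  D_eq C ▸ isClosed_biInter fun _ _ => Metric.isClosed_closedBall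

lemma U_closed (C : Finset E) : IsClosed (U C) := by
  have : U C = ⋃ c ∈ C, γ c ⁻¹' D C := by ext; simp [U]
  rw [this]
  exact isClosed_biUnion_finset fun c _ => (D_closed C).preimage (γ_cont c)

variable {C : Finset E} {t : ℝ}

lemma ip_γ (c : E) (θ : ℝ) : ip (γ c θ) θ = ip c θ + 1 := by
  simp only [ip, γ0, γ1]
  linear_combination sin_sq_add_cos_sq θ

lemma ip_le {z c : E} (hz : z ∈ D C) (hc : c ∈ C) (θ : ℝ) : ip z θ ≤ ip c θ + 1 := by
  have := hz c hc
  simp only [ip, d2] at this ⊢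
  nlinarith [sin_sq_add_cos_sq θ, sq_nonneg (z 0 - c 0 - cos θ), sq_nonneg (z 1 - c 1 - sin θ)]

lemma uniq {v c : E} (hv : v ∈ D C) (hc : c ∈ C) {θ : ℝ} (h : ip c θ + 1 ≤ ip v θ) :
    v = γ c θ := by
  have := hv c hc
  simp only [ip, d2] at this h
  have k : (v 0 - c 0 - cos θ) ^ 2 + (v 1 - c 1 - sin θ) ^ 2 ≤ 0 := by
    nlinarith [sin_sq_add_cos_sq θ]
  refine ext2 ?_ ?_
  · have : v 0 - c 0 - cos θ = 0 := by nlinarith [sq_nonneg (v 1 - c 1 - sin θ)]
    rw [γ0]; linarith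
  · have : v 1 - c 1 - sin θ = 0 := by nlinarith [sq_nonneg (v 0 - c 0 - cos θ)]
    rw [γ1]; linarith

lemma start (hne : C.Nonempty) (h : ∀ x ∈ C, ∀ y ∈ C, d2 x y ≤ 3) : (U C).Nonempty := by
  obtain ⟨c0, hc0⟩ := hne
  have hK : IsCompact (D C) := (isCompact_closedBall c0 1).of_isClosed_subset (D_closed C)
    fun z hz => (dist_le_iff zero_le_one).2 (by simpa using hz c0 hc0)
  obtain ⟨v, hv, hm⟩ := hK.exists_isMaxOn (D_eq C ▸ jung C h) (f := fun z : E => z 0)
    (by fun_prop)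
  obtain ⟨c, hc, e⟩ : ∃ c ∈ C, d2 v c = 1 := by
    by_contra hn
    have : ∀ᶠ e in 𝓝[>] (0 : ℝ), ∀ c ∈ C, d2 (pt (v 0 + e) (v 1)) c < 1 := by
      refine (eventually_all_finset C).2 fun c hc => mem_nhdsWithin_of_mem_nhds ?_
      have l : d2 v c < 1 := lt_of_le_of_ne (hv c hc) fun e => hn ⟨c, hc, e⟩
      refine ContinuousAt.eventually_lt (g := fun _ => 1) ?_ continuousAt_const
        (by simpa [d2] using l)
      simp only [d2, pt0, pt1]
      fun_prop
    obtain ⟨e, h1, h2⟩ := (this.and self_mem_nhdsWithin).exists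
    have := hm (show pt (v 0 + e) (v 1) ∈ D C from fun c hc => (h1 c hc).le)
    simp only [mem_ofPred_eq, pt0] at this
    exact absurd h2 (by simp; linarith)
  set z : ℂ := ⟨v 0 - c 0, v 1 - c 1⟩ with hz
  have n : ‖z‖ = 1 := by
    rw [Complex.norm_eq_sqrt_sq_add_sq, sqrt_eq_one]
    exact e
  have z0 : z ≠ 0 := by
    intro e
    simp [e] at n
  refine ⟨z.arg, c, hc, ?_⟩
  convert hv
  refine ext2 ?_ ?_
  · rw [γ0, Complex.cos_arg z0, n]; simp [hz]
  · rw [γ1, Complex.sin_arg, n]; simp [hz]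

noncomputable def lam (t : ℝ) : ℝ := π * t / (6 * arcsin (t / 2))

noncomputable def ind (C : Finset E) : ℝ → ℝ := (U C)ᶜ.indicator fun _ => 1

noncomputable def Kf (C : Finset E) (t θ : ℝ) : ℝ := H C t θ - lam t * ind C θ

lemma ind_int (C : Finset E) (a b : ℝ) : IntervalIntegrable (ind C) volume a b :=
  ⟨(integrableOn_const (by simp)).indicator (U_closed C).measurableSet.compl,
    (integrableOn_const (by simp)).indicator (U_closed C).measurableSet.compl⟩

lemma Kf_int (hW : IsCompact (W C t)) (a b : ℝ) : IntervalIntegrable (Kf C t) volume a b :=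
  ((H_cont hW).intervalIntegrable a b).sub ((ind_int C a b).const_mul _)

lemma lam_pos (ht : 1 ≤ t) : 0 < lam t :=
  div_pos (mul_pos pi_pos (by linarith)) (mul_pos (by norm_num) (arcsin_pos.2 (by linarith)))

lemma step (ht : 1 ≤ t) (ht3 : t ^ 2 ≤ 3) (h : ∀ x ∈ C, ∀ y ∈ C, d2 x y ≤ t ^ 2) {c c0 : E}
    (hc : c ∈ C) (hc0 : c0 ∈ C) {a T : ℝ} (haT : a < T) (ha : γ c a ∈ D C) (hT : γ c0 T ∈ D C) :
    ∃ b ∈ Ioc a T, ∃ c' ∈ C, γ c' b ∈ D C ∧ jp c' b - jp c a ≤ ∫ θ in a..b, Kf C t θ := by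
  have hW := W_cpt (by linarith) h hc
  by_cases hA : ∀ c' ∈ C, ∀ᶠ θ in 𝓝[>] a, d2 (γ c θ) c' ≤ 1
  · obtain ⟨u, hu, hs⟩ := mem_nhdsGT_iff_exists_Ioo_subset.1 ((eventually_all_finset C).2 hA)
    have hu' : a < u := hu
    have hb : a < min T ((a + u) / 2) := lt_min haT (by linarith)
    have hD : ∀ θ ∈ Icc a (min T ((a + u) / 2)), γ c θ ∈ D C := by
      intro θ hθ
      rcases hθ.1.eq_or_lt with rfl | l
      · exact ha
      · exact hs ⟨l, by linarith [hθ.2, min_le_right T ((a + u) / 2)]⟩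
    refine ⟨_, ⟨hb, min_le_left _ _⟩, c, hc, hD _ (right_mem_Icc.2 hb.le), ?_⟩
    rw [← int_ip]
    refine intervalIntegral.integral_mono_on hb.le ((ip_cont c).fun_neg.intervalIntegrable _ _)
      (Kf_int hW _ _) fun θ hθ => ?_
    have : ind C θ = 0 := indicator_of_notMem (by simpa using ⟨c, hc, hD θ hθ⟩) _
    rw [Kf, this, mul_zero, sub_zero]
    exact le_H hW (C_sub hc) θ
  obtain ⟨c', hA⟩ := not_forall.1 hA
  obtain ⟨hc', hn⟩ := Classical.not_imp.1 hA
  set P := (c 0 - c' 0) * cos a + (c 1 - c' 1) * sin a with hP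
  set J := -(c 0 - c' 0) * sin a + (c 1 - c' 1) * cos a with hJ
  have hd : HasDerivAt (fun θ => d2 (γ c θ) c') (2 * J) a := by
    simp only [d2, γ0, γ1]
    refine (((((hasDerivAt_cos a).const_add (c 0)).sub_const (c' 0)).pow 2).add
      ((((hasDerivAt_sin a).const_add (c 1)).sub_const (c' 1)).pow 2)).congr_deriv ?_
    simp only [hJ]
    norm_num
    ring
  have e1 : d2 (γ c a) c' = 1 := by
    refine le_antisymm (ha c' hc') (not_lt.1 fun l => hn (mem_nhdsWithin_of_mem_nhds ?_))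
    exact (hd.continuousAt.eventually_lt continuousAt_const l).mono fun _ h => h.le
  have e2 : (1 + P) ^ 2 + J ^ 2 = 1 := by
    simp only [d2, γ0, γ1] at e1
    rw [hP, hJ]
    linear_combination e1 + ((c 0 - c' 0) ^ 2 + (c 1 - c' 1) ^ 2 - 1) * sin_sq_add_cos_sq a
  have e3 : P ^ 2 + J ^ 2 = d2 c c' := by
    rw [hP, hJ, d2]
    linear_combination ((c 0 - c' 0) ^ 2 + (c 1 - c' 1) ^ 2) * sin_sq_add_cos_sq a
  have J0 : 0 ≤ J := by
    by_contra hl
    have := (hasDerivAt_iff_tendsto_slope_left_right.1 hd).2.eventually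
      (gt_mem_nhds (show 2 * J < 0 by linarith))
    refine hn ?_
    filter_upwards [this, self_mem_nhdsWithin] with θ h1 h2
    rw [slope_def_field, div_neg_iff] at h1
    have h2' : a < θ := h2
    rcases h1 with h1 | h1 <;> linarith [h1.1, h1.2]
  have J1 : 0 < J := by
    refine lt_of_le_of_ne J0 fun e => ?_
    rw [← e] at e2 e3
    have : P * (P + 2) = 0 := by linarith
    rcases mul_eq_zero.1 this with p | p
    · refine hn (Eventually.of_forall fun θ => ?_)
      rw [p, d2] at e3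
      have x0 : c 0 - c' 0 = 0 := by nlinarith [sq_nonneg (c 1 - c' 1)]
      have x1 : c 1 - c' 1 = 0 := by nlinarith [sq_nonneg (c 0 - c' 0)]
      simp only [d2, γ0, γ1]
      rw [show c 0 + cos θ - c' 0 = cos θ by linarith, show c 1 + sin θ - c' 1 = sin θ by linarith,
        cos_sq_add_sin_sq]
    · have := h c hc c' hc'
      rw [show P = -2 by linarith] at e3
      linarith
  set δ := arccos (1 + P) with hδ
  have cδ : cos δ = 1 + P := cos_arccos (by nlinarith) (by nlinarith)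
  have sδ : sin δ = J := by
    rw [hδ, sin_arccos, show 1 - (1 + P) ^ 2 = J ^ 2 by linarith, sqrt_sq J0]
  have δ0 : 0 < δ := lt_of_le_of_ne (arccos_nonneg _) fun e => by
    rw [← e, sin_zero] at sδ; linarith
  have δ1 : δ < π := lt_of_le_of_ne (arccos_le_pi _) fun e => by
    rw [e, sin_pi] at sδ; linarith
  have ev : γ c a = γ c' (a + δ) := by
    refine ext2 ?_ ?_
    · rw [γ0, γ0, cos_add, cδ, sδ, hP, hJ]
      linear_combination (-(c 0 - c' 0)) * sin_sq_add_cos_sq a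
    · rw [γ1, γ1, sin_add, cδ, sδ, hP, hJ]
      linear_combination (-(c 1 - c' 1)) * sin_sq_add_cos_sq a
  obtain ⟨b, hb, hb', c'', hc'', eb⟩ : ∃ b ∈ Ioc a T, b < a + π ∧ ∃ c'' ∈ C, γ c a = γ c'' b := by
    rcases le_or_gt (a + δ) T with l | l
    · exact ⟨a + δ, ⟨by linarith, l⟩, by linarith, c', hc', ev⟩
    · refine ⟨T, ⟨haT, le_rfl⟩, by linarith, c0, hc0, uniq ha hc0 ?_⟩
      have k1 := ip_le hT hc a
      have k2 := ip_le hT hc' (a + δ)
      rw [← ip_γ] at k1 k2 ⊢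
      rw [← ev] at k2
      have := comb (ρ := 0) (p := γ c0 T 0 - γ c a 0) (q := γ c0 T 1 - γ c a 1) haT.le l.le
        (by linarith) le_rfl (by unfold ip at k1; linarith) (by unfold ip at k2; linarith)
      unfold ip
      linarith
  refine ⟨b, hb, c'', hc'', eb ▸ ha, ?_⟩
  have j := jump ht (by nlinarith) h hc hc'' hb.1.le hb' eb
  have := intervalIntegral.integral_mono_on (μ := volume) (f := fun θ => H C t θ - lam t) hb.1.le
    (((H_cont hW).sub continuous_const).intervalIntegrable _ _) (Kf_int hW _ _) fun θ _ => by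
      have : ind C θ ≤ 1 := indicator_le_self' (fun _ _ => zero_le_one) θ
      unfold Kf
      nlinarith [lam_pos ht]
  rw [intervalIntegral.integral_sub ((H_cont hW).intervalIntegrable _ _) (by simp)] at this
  simp only [intervalIntegral.integral_const, smul_eq_mul] at this
  unfold lam at this
  linarith

lemma loop (ht : 1 ≤ t) (ht3 : t ^ 2 ≤ 3) (h : ∀ x ∈ C, ∀ y ∈ C, d2 x y ≤ t ^ 2) {a : ℝ}
    (ha : a ∈ U C) : 0 ≤ ∫ θ in a..a + 2 * π, Kf C t θ := by
  obtain ⟨c0, hc0, ha⟩ := ha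
  have hW := W_cpt (by linarith) h hc0
  have hT : γ c0 (a + 2 * π) = γ c0 a := by simp [γ]
  set S : Set ℝ := Icc a (a + 2 * π) ∩
    ⋃ c ∈ C, (γ c ⁻¹' D C ∩ {s | jp c s - jp c0 a ≤ ∫ θ in a..s, Kf C t θ}) with hS
  have hK : IsCompact S := isCompact_Icc.inter_right (isClosed_biUnion_finset fun c _ =>
    ((D_closed C).preimage (γ_cont c)).inter (isClosed_le (by unfold jp; fun_prop)
      (intervalIntegral.continuous_primitive (Kf_int hW) a)))
  obtain ⟨s, ⟨hs, hs'⟩, hm⟩ := hK.exists_isGreatest ⟨a, ⟨le_rfl, by linarith [pi_pos]⟩,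
    mem_iUnion₂.2 ⟨c0, hc0, ha, by simp⟩⟩
  obtain ⟨c, hc, h1, h2⟩ := mem_iUnion₂.1 hs'
  rcases hs.2.eq_or_lt with rfl | l
  · have k := ip_le h1 hc0 (a + 2 * π)
    rw [ip_γ] at k
    have e := uniq (hT.symm ▸ ha : γ c0 (a + 2 * π) ∈ D C) hc (θ := a + 2 * π)
      (by rw [ip_γ]; exact k)
    have e0 := congrArg (fun x : E => x 0) e
    have e1 := congrArg (fun x : E => x 1) e
    simp only [γ0, γ1, add_left_inj] at e0 e1
    have : jp c (a + 2 * π) = jp c0 a := by simp [jp, e0, e1]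
    simpa [this] using h2
  · obtain ⟨b, hb, c', hc', k1, k2⟩ := step ht ht3 h hc hc0 l h1 (hT.symm ▸ ha)
    have : b ∈ S := ⟨⟨hs.1.trans hb.1.le, hb.2⟩, mem_iUnion₂.2 ⟨c', hc', k1, by
      have := intervalIntegral.integral_add_adjacent_intervals (Kf_int hW a s) (Kf_int hW s b)
      simp only [mem_ofPred_eq] at h2 ⊢
      linarith⟩⟩
    exact absurd (hm this) (not_le.2 hb.1)

lemma gap (ht : 1 ≤ t) (ht3 : t ^ 2 ≤ 3) (h : ∀ x ∈ C, ∀ y ∈ C, d2 x y ≤ t ^ 2) {a : ℝ}
    (ha : a ∈ U C) : ENNReal.ofReal (2 * π - 6 * arcsin (t / 2)) ≤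
      volume (U C ∩ Ico a (a + 2 * π)) := by
  have l := loop ht ht3 h ha
  obtain ⟨c0, hc0, -⟩ := ha
  have hW := W_cpt (by linarith) h hc0
  have hp := pi_pos
  have i := int_H (by linarith) h hc0 a
  have hl := lam_pos ht
  unfold Kf at l
  rw [intervalIntegral.integral_sub ((H_cont hW).intervalIntegrable _ _)
    ((ind_int C _ _).const_mul _), intervalIntegral.integral_const_mul] at l
  have e : ∫ θ in a..a + 2 * π, ind C θ = volume.real (Ico a (a + 2 * π) \ U C) := by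
    rw [intervalIntegral.integral_of_le (by linarith), integral_Ioc_eq_integral_Ioo,
      ← integral_Ico_eq_integral_Ioo, ind, setIntegral_indicator (U_closed C).measurableSet.compl]
    simp [sdiff_eq]
  have k : volume.real (Ico a (a + 2 * π) \ U C) ≤ 6 * arcsin (t / 2) := by
    rw [← e]
    refine le_of_mul_le_mul_left ?_ hl
    have : lam t * (6 * arcsin (t / 2)) = π * t :=
      div_mul_cancel₀ _ (mul_pos (by norm_num) (arcsin_pos.2 (by linarith))).ne'
    linarith
  have m := measureReal_inter_add_sdiff (μ := volume) (s := Ico a (a + 2 * π))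
    (U_closed C).measurableSet measure_Ico_lt_top.ne
  rw [inter_comm, ENNReal.ofReal_le_iff_le_toReal (measure_ne_top_of_subset inter_subset_left
    measure_Ico_lt_top.ne)]
  rw [Real.volume_real_Ico_of_le (by linarith)] at m
  change _ ≤ volume.real _
  linarith

lemma main (ht : 1 ≤ t) (ht3 : t ^ 2 ≤ 3) (hne : C.Nonempty)
    (h : ∀ x ∈ C, ∀ y ∈ C, d2 x y ≤ t ^ 2) :
    ENNReal.ofReal (2 * π - 6 * arcsin (t / 2)) ≤ μH[1] (frontier (D C)) := by
  obtain ⟨a, ha⟩ := start hne fun x hx y hy => (h x hx y hy).trans ht3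
  refine (gap ht ht3 h ha).trans ?_
  have : NullSingletonClass (μH[1] : Measure E) := Measure.nullSingletonClass_hausdorff E one_pos
  set B : E → Set ℝ := fun c => γ c ⁻¹' D C ∩ Ico a (a + 2 * π) with hB
  have hm : ∀ c, MeasurableSet (B c) := fun c =>
    ((D_closed C).preimage (γ_cont c)).measurableSet.inter measurableSet_Ico
  have hd : ∀ (c : E) θ, dist (γ c θ) c = 1 := fun c θ => by
    refine (pow_left_inj₀ dist_nonneg zero_le_one two_ne_zero).1 ?_
    simp [dist_sq, d2]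
  calc volume (U C ∩ Ico a (a + 2 * π)) ≤ volume (⋃ c ∈ C, B c) := by
        refine measure_mono ?_
        rintro θ ⟨⟨c, hc, k⟩, k'⟩
        exact mem_iUnion₂.2 ⟨c, hc, k, k'⟩
    _ ≤ ∑ c ∈ C, volume (B c) := measure_biUnion_finset_le _ _
    _ ≤ ∑ c ∈ C, μH[1] (γ c '' B c) :=
        Finset.sum_le_sum fun c _ => arc c a (hm c) inter_subset_right
    _ = μH[1] (⋃ c ∈ C, γ c '' B c) := by
        refine (measure_biUnion_finset₀ (fun c _ c' _ hcc => ?_) fun c _ =>
          ((hm c).image_of_continuousOn_injOn (γ_cont c).continuousOn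
            ((γ_inj c a).mono inter_subset_right)).nullMeasurableSet).symm
        refine ((fin_sph hcc).subset ?_).measure_zero _
        rintro z ⟨⟨θ, -, rfl⟩, θ', -, e⟩
        exact ⟨hd c θ, e ▸ hd c' θ'⟩
    _ ≤ _ := by
        refine measure_mono (iUnion₂_subset fun c hc => ?_)
        rintro _ ⟨θ, hθ, rfl⟩
        refine ⟨subset_closure hθ.1, fun hi => ?_⟩
        have hs : D C ⊆ Metric.closedBall c 1 := fun z hz =>
          (dist_le_iff zero_le_one).2 (by simpa using hz c hc)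
        have := interior_mono hs hi
        rw [interior_closedBall c one_ne_zero, Metric.mem_ball, hd] at this
        exact lt_irrefl _ this

end Pool.Agent.H1.Dp
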