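import Mathlib

namespace Pool.Agent.H1.Ell

open Filter Topology Complex Set ComplexConjugate

noncomputable def φ (z : ℂ) : ℂ := 100 * conj z + z ^ 2 * (Real.log (‖z‖ ^ 2) : ℝ)
noncomputable def P (z : ℂ) : ℂ := z * ((4 * Real.log ‖z‖ + 1 : ℝ) : ℂ)
noncomputable def Q (z : ℂ) : ℂ := 100 + z ^ 2 / conj z
noncomputable def D (z : ℂ) : ℂ →L[ℝ] ℂ :=
  P z • ContinuousLinearMap.id ℝ ℂ + Q z • (conjCLE : ℂ →L[ℝ] ℂ)

lemma D_apply (z h : ℂ) : D z h = P z * h + Q z * conj h := by simp [D]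

lemma φ_d (z : ℂ) : HasFDerivAt φ (D z) z := by
  have h0 : HasFDerivAt (fun z : ℂ => 100 * conj z) ((100 : ℂ) • (conjCLE : ℂ →L[ℝ] ℂ)) z :=
    (conjCLE : ℂ →L[ℝ] ℂ).hasFDerivAt.const_mul 100
  rcases eq_or_ne z 0 with rfl | hz
  · have h1 : HasFDerivAt (fun z : ℂ => z ^ 2 * (Real.log (‖z‖ ^ 2) : ℝ)) (0 : ℂ →L[ℝ] ℂ) 0 := by
      rw [hasFDerivAt_iff_isLittleO_nhds_zero]
      have h2 : Tendsto (fun z : ℂ => 2 * (‖z‖ * Real.log ‖z‖)) (𝓝 0) (𝓝 0) := by
        have : Continuous fun z : ℂ => 2 * (‖z‖ * Real.log ‖z‖) :=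
          continuous_const.mul (Real.continuous_mul_log.comp continuous_norm)
        simpa using this.tendsto 0
      have h3 := (Asymptotics.isLittleO_one_iff ℝ).2 h2
      have h4 := h3.mul_isBigO (Asymptotics.isBigO_refl (fun z : ℂ => ‖z‖) (𝓝 0))
      rw [← Asymptotics.isLittleO_norm_norm]
      refine Asymptotics.IsLittleO.congr_right ?_ fun z => one_mul ‖z‖
      refine Asymptotics.IsBigO.trans_isLittleO (Asymptotics.IsBigO.of_bound 1 ?_) h4
      refine Eventually.of_forall fun z => le_of_eq ?_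
      simp [abs_mul]; ring
    refine HasFDerivAt.congr_fderiv (h0.fun_add h1) ?_
    ext <;> simp [D, P, Q]
  · have hn : ‖z‖ ≠ 0 := norm_ne_zero_iff.2 hz
    have h1 := ((hasFDerivAt_id (𝕜 := ℝ) z).norm_sq.log (pow_ne_zero 2 hn))
    have h2 := ofRealCLM.hasFDerivAt.comp z h1
    have h3 : HasFDerivAt (fun z : ℂ => z ^ 2) ((2 * z) • ContinuousLinearMap.id ℝ ℂ) z := by
      have := (hasDerivAt_pow 2 z).hasFDerivAt.restrictScalars ℝ
      refine HasFDerivAt.congr_fderiv this ?_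
      ext <;> simp <;> ring
    refine HasFDerivAt.congr_fderiv (h0.fun_add (h3.fun_mul h2)) ?_
    refine ContinuousLinearMap.ext fun h => ?_
    have hc : conj z ≠ 0 := by simpa using hz
    have e1 : ((‖z‖ : ℂ)) ^ 2 = z * conj z := by rw [mul_conj, normSq_eq_norm_sq]; simp
    have e2 : (((conj z * h).re : ℝ) : ℂ) = (conj z * h + z * conj h) / 2 := by
      rw [re_eq_add_conj]; simp
    rw [D_apply]
    simp only [P, Q, ContinuousLinearMap.add_apply, ContinuousLinearMap.smul_apply,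
      ContinuousLinearMap.comp_apply, id, smul_eq_mul, ContinuousLinearMap.id_apply,
      ofRealCLM_apply, innerSL_apply_apply, Complex.inner, nsmul_eq_mul, Function.comp,
      ContinuousLinearEquiv.coe_coe, conjCLE_apply, Real.log_pow]
    push_cast
    rw [mul_comm h, e1, e2]
    field_simp
    ring

lemma rlog {r : ℝ} (h0 : 0 ≤ r) (h1 : r ≤ 1) : |r * Real.log r| ≤ 1 := by
  rcases h0.eq_or_lt with rfl | h
  · simp
  · rw [mul_comm]; exact (Real.abs_log_mul_self_lt r h h1).le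

lemma P_le {z : ℂ} (hz : ‖z‖ ≤ 1) : ‖P z‖ ≤ 5 := by
  unfold P
  rw [norm_mul, norm_real, Real.norm_eq_abs, ← abs_of_nonneg (norm_nonneg z), ← abs_mul,
    abs_of_nonneg (norm_nonneg z), abs_le]
  have := abs_le.1 (rlog (norm_nonneg z) hz)
  constructor <;> nlinarith [norm_nonneg z]

lemma q_norm (z : ℂ) : ‖z ^ 2 / conj z‖ = ‖z‖ := by
  rcases eq_or_ne z 0 with rfl | hz
  · simp
  · have hn : ‖z‖ ≠ 0 := norm_ne_zero_iff.2 hz
    rw [norm_div, norm_pow, norm_conj]; field_simp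

lemma Q_le {z : ℂ} (hz : ‖z‖ ≤ 1) : ‖Q z‖ ≤ 101 := by
  refine (norm_add_le _ _).trans ?_
  rw [q_norm]; simp; linarith

lemma Q_ge {z : ℂ} (hz : ‖z‖ ≤ 1) : 99 ≤ ‖Q z‖ := by
  have h := norm_sub_le (Q z) (z ^ 2 / conj z)
  rw [q_norm, show Q z - z ^ 2 / conj z = 100 by unfold Q; ring] at h
  simp at h; linarith

lemma Q_aux {z w : ℂ} (h : ‖w‖ ≤ ‖z‖) : ‖Q z - Q w‖ ≤ 3 * ‖z - w‖ := by
  rcases eq_or_ne w 0 with rfl | hw
  · rw [show Q z - Q 0 = z ^ 2 / conj z by unfold Q; simp, q_norm, sub_zero]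
    linarith [norm_nonneg z]
  have hw' : 0 < ‖w‖ := norm_pos_iff.2 hw
  have hz' : 0 < ‖z‖ := hw'.trans_le h
  have hz : z ≠ 0 := norm_pos_iff.1 hz'
  have hc : conj z ≠ 0 := by simpa using hz
  have hd : conj w ≠ 0 := by simpa using hw
  have e : Q z - Q w = (z - w) * ((z + w) / conj z) - conj (z - w) * (w ^ 2 / conj w / conj z) := by
    unfold Q; rw [map_sub]; field_simp; ring
  have h1 : ‖(z + w) / conj z‖ ≤ 2 := by
    rw [norm_div, norm_conj, div_le_iff₀ hz']; linarith [norm_add_le z w]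
  have h2 : ‖w ^ 2 / conj w / conj z‖ ≤ 1 := by
    rw [norm_div, q_norm, norm_conj, div_le_one hz']; exact h
  rw [e]
  refine (norm_sub_le _ _).trans ?_
  rw [norm_mul, norm_mul, norm_conj]
  nlinarith [norm_nonneg (z - w)]

lemma Q_lip (z w : ℂ) : ‖Q z - Q w‖ ≤ 3 * ‖z - w‖ := by
  rcases le_total ‖w‖ ‖z‖ with h | h
  · exact Q_aux h
  · rw [norm_sub_rev, norm_sub_rev z]; exact Q_aux h

noncomputable def H (r : ℝ) : ℝ := (4 * (r * Real.log r) + r) ^ 2

lemma rlog2 {r : ℝ} (h0 : 0 < r) (h1 : r ≤ 1) : r * Real.log r ^ 2 ≤ 4 := by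
  have h2 := rlog (Real.sqrt_nonneg r) (Real.sqrt_le_one.2 h1)
  rw [Real.log_sqrt h0.le] at h2
  have h3 := sq_le_one_iff_abs_le_one _ |>.2 h2
  rw [mul_pow, Real.sq_sqrt h0.le] at h3
  linarith

lemma H_lip : LipschitzOnWith 400 H (Icc 0 1) := by
  rw [← closure_Ioo zero_ne_one]
  refine LipschitzOnWith.closure ?_ ?_
  · have := Real.continuous_mul_log
    exact Continuous.continuousOn (by unfold H; fun_prop)
  · refine (convex_Ioo 0 1).lipschitzOnWith_of_nnnorm_hasDerivWithin_le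
      (f' := fun r => 2 * (4 * (r * Real.log r) + r) * (4 * (Real.log r + 1) + 1))
      (fun r hr => ?_) fun r hr => ?_
    · have := ((((Real.hasDerivAt_mul_log hr.1.ne').const_mul 4).fun_add (hasDerivAt_id' r)).fun_pow 2)
      refine (HasDerivAt.congr_deriv this ?_).hasDerivWithinAt
      simp
    · rw [← NNReal.coe_le_coe, coe_nnnorm, Real.norm_eq_abs, abs_le]
      have h1 := abs_le.1 (rlog hr.1.le hr.2.le)
      have h2 := rlog2 hr.1 hr.2.le
      have h3 : 0 ≤ r * Real.log r ^ 2 := by have := hr.1; positivity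
      push_cast
      constructor <;> nlinarith [hr.1, hr.2]

lemma P_sq (z : ℂ) : ‖P z‖ ^ 2 = H ‖z‖ := by
  unfold P H
  rw [norm_mul, norm_real, mul_pow, Real.norm_eq_abs, sq_abs]; ring

noncomputable def J (z : ℂ) : ℝ := ‖P z‖ ^ 2 - ‖Q z‖ ^ 2

lemma J_ne {z : ℂ} (hz : ‖z‖ ≤ 1) : J z ≠ 0 := by
  have h1 := P_le hz
  have h2 := Q_ge hz
  unfold J; nlinarith [norm_nonneg (P z)]

lemma J_lip {z w : ℂ} (hz : ‖z‖ ≤ 1) (hw : ‖w‖ ≤ 1) : |J z - J w| ≤ 1006 * ‖z - w‖ := by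
  have h1 := H_lip.dist_le_mul ‖z‖ ⟨norm_nonneg _, hz⟩ ‖w‖ ⟨norm_nonneg _, hw⟩
  rw [Real.dist_eq, Real.dist_eq] at h1
  have h2 := abs_norm_sub_norm_le z w
  have h3 := (abs_norm_sub_norm_le _ _).trans (Q_lip z w)
  have h4 : |‖Q z‖ ^ 2 - ‖Q w‖ ^ 2| ≤ 202 * (3 * ‖z - w‖) := by
    rw [sq_sub_sq, abs_mul]
    refine mul_le_mul ?_ h3 (abs_nonneg _) (by norm_num)
    rw [abs_of_nonneg (by positivity)]; linarith [Q_le hz, Q_le hw]
  unfold J
  rw [P_sq, P_sq]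
  push_cast at h1
  have := abs_le.1 h1
  have := abs_le.1 h4
  rw [abs_le]; constructor <;> linarith

lemma φ_lip : LipschitzOnWith 106 φ (Metric.ball 0 1) := by
  refine (convex_ball (0 : ℂ) 1).lipschitzOnWith_of_nnnorm_hasFDerivWithin_le (𝕜 := ℝ)
    (fun z _ => (φ_d z).hasFDerivWithinAt) fun z hz => ?_
  have hz' := (mem_ball_zero_iff.1 hz).le
  rw [← NNReal.coe_le_coe, coe_nnnorm]
  refine ContinuousLinearMap.opNorm_le_bound _ (by positivity) fun h => ?_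
  rw [D_apply]
  refine (norm_add_le _ _).trans ?_
  rw [norm_mul, norm_mul, norm_conj]
  push_cast
  nlinarith [P_le hz', Q_le hz', norm_nonneg h]

lemma not_lip (C : ℝ) : ¬ ∀ᶠ t : ℝ in 𝓝[>] 0, |(P t + Q t).re - 100| ≤ C * t := by
  intro h
  have h2 : ∀ᶠ t : ℝ in 𝓝[>] 0, Real.log t < (-C - 2) / 4 :=
    Real.tendsto_log_nhdsGT_zero.eventually (eventually_lt_atBot _)
  obtain ⟨t, ⟨h3, h4⟩, h5⟩ := ((h.and h2).and self_mem_nhdsWithin).exists
  have ht : (0 : ℝ) < t := h5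
  have e : (P t + Q t).re - 100 = t * (4 * Real.log t + 2) := by
    have : P t + Q t = ((100 + t * (4 * Real.log t + 2) : ℝ) : ℂ) := by
      have : (t : ℂ) ≠ 0 := by exact_mod_cast ht.ne'
      unfold P Q
      rw [conj_ofReal, norm_real, Real.norm_of_nonneg ht.le]
      push_cast; field_simp; ring
    rw [this, ofReal_re]; ring
  rw [e] at h3
  have := (abs_le.1 h3).1
  nlinarith

end Pool.Agent.H1.Ell
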