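import Pool.Agent.H1.EllA

namespace Pool.Agent.H1.Ell

open Filter Topology Complex Set ComplexConjugate

abbrev E2 := EuclideanSpace ℝ (Fin 2)

noncomputable def e : E2 ≃ₗᵢ[ℝ] ℂ := Complex.orthonormalBasisOneI.repr.symm

lemma e0 (t : ℝ) : e (EuclideanSpace.single 0 t) = t := by
  simp [e, Complex.orthonormalBasisOneI_repr_symm_apply]

lemma e1 : e (EuclideanSpace.single 1 1) = I := by
  simp [e, Complex.orthonormalBasisOneI_repr_symm_apply]

noncomputable def pr : Fin 2 → ℂ →L[ℝ] ℝ := ![reCLM, imCLM]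

lemma pr_le (i : Fin 2) (z : ℂ) : |pr i z| ≤ ‖z‖ := by
  fin_cases i
  · exact abs_re_le_norm z
  · exact abs_im_le_norm z

noncomputable def u (i : Fin 2) (x : E2) : ℝ := pr i (φ (e x))
noncomputable def cc (i : Fin 2) (x : E2) : ℝ := 2 * pr i (Q (e x))
noncomputable def JJ (x : E2) : ℝ := J (e x)
def AA : Fin 2 → Fin 2 → Fin 2 → ℝ := ![![![1, 0], ![0, 1]], ![![0, -1], ![1, 0]]]

lemma u_fd (i : Fin 2) (x h : E2) : fderiv ℝ (u i) x h = pr i (D (e x) (e h)) := by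
  have := ((pr i).hasFDerivAt.comp x ((φ_d (e x)).comp x
    (e.toContinuousLinearEquiv : E2 →L[ℝ] ℂ).hasFDerivAt)).fderiv
  exact congrArg (fun L => L h) this

lemma lip0 {f : E2 → ℝ} {Ω : Set E2} (C : NNReal) (h : LipschitzOnWith C f Ω) :
    ContDiffOn ℝ (0 : ℕ) f Ω ∧ ∀ x ∈ Ω, ∃ C : NNReal, ∃ U ∈ nhds x,
      LipschitzOnWith C (iteratedFDeriv ℝ 0 f) (U ∩ Ω) := by
  refine ⟨by simpa using h.continuousOn, fun x _ => ⟨1 * C, univ, univ_mem, ?_⟩⟩
  rw [univ_inter, iteratedFDeriv_zero_eq_comp]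
  exact (continuousMultilinearCurryFin0 ℝ E2 ℝ).symm.isometry.lipschitz.comp_lipschitzOnWith h

lemma mem_le {x : E2} (hx : x ∈ Metric.ball (0 : E2) 1) : ‖e x‖ < 1 := by
  rw [e.norm_map]; exact mem_ball_zero_iff.1 hx

lemma u_lip (i : Fin 2) : LipschitzOnWith 106 (u i) (Metric.ball 0 1) := by
  refine LipschitzOnWith.of_dist_le_mul fun x hx y hy => ?_
  have h := φ_lip.dist_le_mul (e x) (mem_ball_zero_iff.2 (mem_le hx)) (e y)
    (mem_ball_zero_iff.2 (mem_le hy))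
  rw [e.dist_map] at h
  refine le_trans ?_ h
  rw [Real.dist_eq, dist_eq_norm, u, u, ← map_sub]
  exact pr_le _ _

lemma cc_lip (i : Fin 2) : LipschitzOnWith 6 (cc i) (Metric.ball 0 1) := by
  refine LipschitzOnWith.of_dist_le_mul fun x _ y _ => ?_
  have h := Q_lip (e x) (e y)
  rw [← map_sub, e.norm_map] at h
  rw [Real.dist_eq, dist_eq_norm, cc, cc, ← mul_sub, ← map_sub, abs_mul, abs_two]
  have := pr_le i (Q (e x) - Q (e y))
  push_cast; linarith

lemma JJ_lip : LipschitzOnWith 1006 JJ (Metric.ball 0 1) := by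
  refine LipschitzOnWith.of_dist_le_mul fun x hx y hy => ?_
  have h := J_lip (mem_le hx).le (mem_le hy).le
  rw [← map_sub, e.norm_map] at h
  rw [Real.dist_eq, dist_eq_norm]
  exact h

lemma ell (ξ : Fin 2 → ℝ) (hξ : ξ ≠ 0) : (Matrix.of fun i l => ∑ j, ξ j * AA j i l).det ≠ 0 := by
  rw [Matrix.det_fin_two]
  simp [AA, Fin.sum_univ_two]
  intro h
  apply hξ
  ext i
  fin_cases i <;> simp <;> nlinarith [sq_nonneg (ξ 0), sq_nonneg (ξ 1)]

lemma eqn (x : E2) (i : Fin 2) :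
    ∑ j, ∑ l, AA j i l * fderiv ℝ (u l) x (EuclideanSpace.single j 1) + ∑ l, 0 * u l x = cc i x := by
  have h0 := e0 1
  fin_cases i <;> simp [AA, Fin.sum_univ_two, u_fd, h0, e1, D_apply, pr, cc] <;> ring

lemma jac (x : E2) :
    (Matrix.of fun i j => fderiv ℝ (u i) x (EuclideanSpace.single j 1)).det = JJ x := by
  have h0 := e0 1
  rw [Matrix.det_fin_two, JJ, J, Complex.sq_norm, Complex.sq_norm, normSq_apply, normSq_apply]
  simp [u_fd, h0, e1, D_apply, pr]; ring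

lemma bad {C : NNReal} {U : Set E2} (hU : U ∈ 𝓝 (0 : E2)) :
    ¬ LipschitzOnWith C (iteratedFDeriv ℝ 1 (u 0)) U := by
  intro h
  apply not_lip C
  have hc : Tendsto (fun t : ℝ => (EuclideanSpace.single 0 t : E2)) (𝓝 0) (𝓝 0) := by
    have : Continuous fun t : ℝ => e.symm t := by fun_prop
    have h2 : (fun t : ℝ => (EuclideanSpace.single 0 t : E2)) = fun t : ℝ => e.symm t :=
      funext fun t => by rw [← e0, e.symm_apply_apply]
    rw [h2]; simpa using this.tendsto 0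
  filter_upwards [nhdsWithin_le_nhds (hc.eventually hU), self_mem_nhdsWithin] with t ht h0
  have h1 := h.dist_le_mul _ ht 0 (mem_of_mem_nhds hU)
  rw [dist_eq_norm, dist_eq_norm] at h1
  have h2 := ContinuousMultilinearMap.le_opNorm (iteratedFDeriv ℝ 1 (u 0)
    (EuclideanSpace.single 0 t) - iteratedFDeriv ℝ 1 (u 0) 0) fun _ => EuclideanSpace.single 0 1
  have h3 := e0 1
  have h4 : (0 : ℝ) < t := h0
  rw [ContinuousMultilinearMap.sub_apply, iteratedFDeriv_one_apply, iteratedFDeriv_one_apply,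
    u_fd, u_fd, e0, h3, map_zero, D_apply, D_apply] at h2
  have h5 : P 0 = 0 := by simp [P]
  have h6 : Q 0 = 100 := by simp [Q]
  rw [h5, h6] at h2
  simp [pr] at h1 h2
  rw [abs_of_pos h4] at h1
  simpa using h2.trans h1

end Pool.Agent.H1.Ell
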