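import Pool.Agent.H1.BouA

namespace Pool.Agent.H1.Sat

open Filter Topology Set Metric Complex MeasureTheory

noncomputable def FF (a : ℕ → ℂ) (z : ℂ) : ℂ := ∑' n, a n * z ^ n

lemma FF_pow {a : ℕ → ℂ} {C : ℝ} (h : ∀ n, ‖a n‖ ≤ C) :
    HasFPowerSeriesOnBall (FF a) (FormalMultilinearSeries.ofScalars ℂ a) 0 1 := by
  have h1 : ((1 : NNReal) : ENNReal) ≤ (FormalMultilinearSeries.ofScalars ℂ a).radius :=
    FormalMultilinearSeries.le_radius_of_bound _ C fun n => by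
      simpa [FormalMultilinearSeries.ofScalars_norm] using h n
  have h2 := (FormalMultilinearSeries.hasFPowerSeriesOnBall _ (lt_of_lt_of_le (by simp) h1)).mono
    (by simp) h1
  rw [show FF a = _ from (FormalMultilinearSeries.ofScalarsSum_eq_tsum a).symm]
  exact h2

lemma FF_diff {a : ℕ → ℂ} {C : ℝ} (h : ∀ n, ‖a n‖ ≤ C) : DifferentiableOn ℂ (FF a) (ball 0 1) := by
  have := (FF_pow h).differentiableOn
  rwa [← ENNReal.coe_one, Metric.eball_coe] at this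

lemma co_FF {a : ℕ → ℂ} {C : ℝ} (h : ∀ n, ‖a n‖ ≤ C) (k : ℕ) : co (FF a) k = a k := by
  have hk : (k.factorial : ℂ) ≠ 0 := by exact_mod_cast k.factorial_ne_zero
  rw [co, iteratedDeriv_eq_iteratedFDeriv, ← (FF_pow h).factorial_smul 1 k,
    FormalMultilinearSeries.ofScalars_apply_eq, one_pow, smul_eq_mul, mul_one, nsmul_eq_mul,
    mul_div_cancel_left₀ _ hk]

lemma schw2 {F : ℂ → ℂ} {c : ℂ} {δ B : ℝ} (hδ : 0 < δ) (hF : DifferentiableOn ℂ F (ball c δ))
    (hB : ∀ z ∈ ball c δ, ‖F z - F c‖ ≤ B) : ‖deriv F c‖ ≤ B / δ ∧ ∀ z ∈ ball c δ,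
      ‖F z - F c - deriv F c * (z - c)‖ ≤ 2 * (B / δ) / δ * ‖z - c‖ ^ 2 := by
  have m1 : MapsTo F (ball c δ) (closedBall (F c) B) := fun z hz => mem_closedBall_iff_norm.2 (hB z hz)
  have a1 := fun z hz => norm_dslope_le_div_of_mapsTo_ball hF m1 (z := z) hz
  refine ⟨norm_deriv_le_div_of_mapsTo_ball hF m1 hδ, fun z hz => ?_⟩
  have a2 := dist_le_div_mul_dist_of_mapsTo_ball ((differentiableOn_dslope (ball_mem_nhds c hδ)).2 hF)
    (R₂ := 2 * (B / δ)) (fun w hw => mem_closedBall_iff_norm.2 ((norm_sub_le _ _).trans (by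
      linarith [a1 w hw, a1 c (mem_ball_self hδ)]))) hz
  rw [dslope_same, dist_eq_norm, dist_eq_norm] at a2
  rw [← sub_smul_dslope F c z, smul_eq_mul, mul_comm (deriv F c), ← mul_sub, norm_mul, sq, ← mul_assoc,
    mul_comm]
  exact mul_le_mul_of_nonneg_right a2 (norm_nonneg _)

/-- the key estimate `‖f ∘ ψ - f ω‖₂ ≤ K ‖ψ - ω‖₂ ‖f‖₂` -/
theorem comp_est {ω : ℂ} (hω : ‖ω‖ < 1) : ∃ δ > 0, ∃ K > 0, ∀ f ψ : ℂ → ℂ,
    DifferentiableOn ℂ f (ball 0 1) → (∀ N, ∑ k ∈ Finset.range N, ‖co f k‖ ^ 2 ≤ 1) →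
    DifferentiableOn ℂ ψ (ball 0 1) → MapsTo ψ (ball 0 1) (ball 0 1) → ∀ ε, ε < δ ^ 2 →
    (∀ N, ∑ k ∈ Finset.range N, ‖co (fun z => ψ z - ω) k‖ ^ 2 ≤ ε) →
    ∀ N, ∑ k ∈ Finset.range N, ‖co (fun z => f (ψ z) - f ω) k‖ ^ 2 ≤ K * ε := by
  set δ := (1 - ‖ω‖) / 2 with hδ
  have δ0 : 0 < δ := by linarith
  have δ1 : δ ≤ 1 := by linarith [norm_nonneg ω]
  set B := 8 / δ with hB
  have B1 : 8 ≤ B := by rw [hB, le_div_iff₀ δ0]; linarith
  set K := (4 * B + 4 * (B / δ)) / δ ^ 2 + (2 * B / δ) ^ 2 + 4 * (B / δ) / δ with hK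
  refine ⟨δ, δ0, K + 4 * (B / δ) / δ, by positivity, fun f ψ hf hs hψ hm ε hε h1 => ?_⟩
  obtain ⟨H, hH, h2⟩ := maj' hf (summable_of_sum_range_le (fun _ => sq_nonneg _) hs)
  have h0 : (H 0).re ≤ 2 := by
    have := (h2 0 (by simp)).2
    simp only [sub_zero, norm_zero, add_zero, div_one, one_mul] at this
    linarith [Real.tsum_le_of_sum_range_le (fun _ => sq_nonneg _) hs]
  have nb : ∀ z ∈ ball ω δ, ‖z‖ < 1 - δ := fun z hz => by
    have := norm_le_norm_add_norm_sub' z ω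
    rw [mem_ball, dist_eq_norm] at hz; linarith
  have sub : ball ω δ ⊆ ball 0 1 := fun z hz => by rw [mem_ball_zero_iff]; linarith [nb z hz]
  have b1 : ∀ z ∈ ball ω δ, ‖H 0 - H z‖ ≤ B / 2 := fun z hz => by
    refine (borelCaratheodory_zero (f := fun z => H 0 - H z) (M := 2) two_pos (hH.const_sub _)
      (fun w hw => by
        have := (sq_nonneg _).trans (h2 w (by simpa using hw)).1
        simp only [mem_ofPred_eq, sub_re]; linarith) one_pos (sub hz) (by simp)).trans ?_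
    have := nb z hz
    rw [hB, div_div, div_le_div_iff₀ (by linarith) (by positivity)]
    nlinarith [norm_nonneg z]
  have b2 : ∀ z ∈ ball ω δ, (H z).re ≤ B := fun z hz => by
    have := (abs_re_le_norm _).trans (b1 z hz)
    rw [sub_re] at this; linarith [neg_abs_le ((H 0).re - (H z).re)]
  have b3 : ∀ z ∈ ball ω δ, ‖f z‖ ≤ B := fun z hz =>
    le_of_sq_le_sq (((h2 z (by simpa using sub hz)).1.trans (b2 z hz)).trans (by nlinarith)) (by linarith)
  have ωm := mem_ball_self (x := ω) δ0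
  obtain ⟨c1, c2⟩ := schw2 δ0 (hH.mono sub) (B := B) fun z hz => by
    linarith [norm_sub_le_norm_sub_add_norm_sub (H z) (H 0) (H ω), norm_sub_rev (H z) (H 0), b1 z hz,
      b1 ω ωm]
  set V : ℂ → ℂ := fun z => (2 : ℝ) * (H z - H ω - deriv H ω * (z - ω))
  have c3 : ∀ z ∈ ball ω δ, |(V z).re| ≤ 4 * (B / δ) / δ * ‖z - ω‖ ^ 2 := fun z hz => by
    refine (abs_re_le_norm _).trans ?_
    rw [norm_mul, norm_real, Real.norm_two]
    exact (mul_le_mul_of_nonneg_left (c2 z hz) zero_le_two).trans (le_of_eq (by ring))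
  have pw : ∀ w, ‖w‖ < 1 → ‖f w - f ω‖ ^ 2 ≤ (V w).re + K * ‖w - ω‖ ^ 2 := fun w hw => by
    have p1 : 0 ≤ (4 * B + 4 * (B / δ)) / δ ^ 2 := by positivity
    have p2 : 0 ≤ 4 * (B / δ) / δ := by positivity
    by_cases h : w ∈ ball ω δ
    · have a1 := dist_le_div_mul_dist_of_mapsTo_ball (hf.mono sub) (R₂ := 2 * B) (fun z hz =>
        mem_closedBall_iff_norm.2 ((norm_sub_le _ _).trans (by linarith [b3 z hz, b3 ω ωm]))) h
      rw [dist_eq_norm, dist_eq_norm] at a1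
      have a2 := pow_le_pow_left₀ (norm_nonneg _) a1 2
      rw [mul_pow] at a2
      nlinarith [neg_abs_le (V w).re, c3 w h, mul_nonneg p1 (sq_nonneg ‖w - ω‖)]
    · rw [mem_ball, dist_eq_norm, not_lt] at h
      have a1 : 4 * B + 4 * (B / δ) ≤ (4 * B + 4 * (B / δ)) / δ ^ 2 * ‖w - ω‖ ^ 2 := by
        rw [div_mul_eq_mul_div, le_div_iff₀ (by positivity)]
        exact mul_le_mul_of_nonneg_left (pow_le_pow_left₀ δ0.le h 2) (by positivity)
      have a2 : (deriv H ω * (w - ω)).re ≤ B / δ * 2 := by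
        refine (re_le_norm _).trans ?_
        rw [norm_mul]
        exact mul_le_mul c1 (by linarith [norm_sub_le w ω]) (norm_nonneg _) (by positivity)
      have a3 := pow_le_pow_left₀ (norm_nonneg _) (norm_sub_le (f w) (f ω)) 2
      have a4 : (V w).re = 2 * ((H w).re - (H ω).re - (deriv H ω * (w - ω)).re) := by
        simp only [V, re_ofReal_mul, sub_re]
      nlinarith [(h2 w hw).1, (h2 ω hω).1, b2 ω ωm, sq_nonneg (‖f w‖ - ‖f ω‖),
        mul_nonneg p2 (sq_nonneg ‖w - ω‖), mul_nonneg (sq_nonneg (2 * B / δ)) (sq_nonneg ‖w - ω‖)]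
  have d0 : ‖ψ 0 - ω‖ ^ 2 ≤ ε := by simpa [co] using h1 1
  have d1 : ψ 0 ∈ ball ω δ := mem_ball_iff_norm.2 (lt_of_pow_lt_pow_left₀ 2 δ0.le (d0.trans_lt hε))
  have dV0 : DifferentiableOn ℂ V (ball 0 1) := ((hH.sub_const _).fun_sub (by fun_prop)).const_mul _
  have dV : DifferentiableOn ℂ (fun z => V (ψ z)) (ball 0 1) := dV0.comp hψ hm
  have df := (hf.comp hψ hm).sub_const (f ω)
  refine sum_le df tendsto_const_nhds fun r r0 r1 => ?_
  have e1 : Real.circleAverage (fun z => V (ψ z)) 0 r = V (ψ 0) := by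
    refine DiffContOnCl.circleAverage ?_
    rw [abs_of_pos r0]
    exact (dV.mono (closure_ball_subset_closedBall.trans (closedBall_subset_ball r1))).diffContOnCl
  have i1 := ci (reCLM.continuous.comp_continuousOn dV.continuousOn) r0 r1
  have i2 : CircleIntegrable (K • fun z => ‖ψ z - ω‖ ^ 2) 0 r :=
    (ci ((hψ.sub_const ω).continuousOn.norm.pow 2) r0 r1).const_smul
  refine (Real.circleAverage_mono (ci (df.continuousOn.norm.pow 2) r0 r1) (i1.add i2) fun z hz =>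
    pw (ψ z) (by
      rw [mem_sphere_zero_iff_norm, abs_of_pos r0] at hz
      simpa using hm (mem_ball_zero_iff.2 (hz ▸ r1)))).trans ?_
  rw [Real.circleAverage_add i1 i2, reCLM.circleAverage_comp_comm (ci dV.continuousOn r0 r1), e1,
    Real.circleAverage_smul, smul_eq_mul, reCLM_apply]
  have e2 := II_le (hψ.sub_const ω) h1 r0 r1
  have K0 : 0 ≤ K := by positivity
  nlinarith [mul_le_mul_of_nonneg_left e2 K0, le_abs_self (V (ψ 0)).re, c3 _ d1,
    mul_le_mul_of_nonneg_left d0 (show 0 ≤ 4 * (B / δ) / δ by positivity), II.eq_1 (fun z => ψ z - ω) r]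

noncomputable abbrev L2 := lp (fun _ : ℕ => ℂ) 2

lemma l2_sum (a : L2) : HasSum (fun k => ‖a k‖ ^ 2) (‖a‖ ^ 2) := by
  have := lp.hasSum_norm (p := 2) (by simp) a
  simpa using this

lemma l2_bd (a : L2) (k : ℕ) : ‖a k‖ ≤ ‖a‖ := lp.norm_apply_le_norm (by simp) a k

lemma l2_le (a : L2) {C : ℝ} (h : ∀ N, ∑ k ∈ Finset.range N, ‖a k‖ ^ 2 ≤ C) : ‖a‖ ^ 2 ≤ C :=
  le_of_tendsto' (l2_sum a).tendsto_sum_nat h

lemma l2_fin (a : L2) (N : ℕ) : ∑ k ∈ Finset.range N, ‖a k‖ ^ 2 ≤ ‖a‖ ^ 2 :=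
  sum_le_hasSum _ (fun _ _ => sq_nonneg _) (l2_sum a)

theorem eqn {φ : ℂ → ℂ} {ω : ℂ} (hφ : DifferentiableOn ℂ φ (ball 0 1)) (hm : MapsTo φ (ball 0 1) (ball 0 1))
    (hω : ω ∈ ball (0 : ℂ) 1) (T : L2 →L[ℂ] L2)
    (hT : ∀ a : L2, ∀ z ∈ ball (0 : ℂ) 1, FF (T a) z = FF a (φ z))
    (h : Tendsto (fun n : ℕ => ‖(T ^ n) (lp.single 2 1 (1 : ℂ) : L2) - ω • (lp.single 2 0 (1 : ℂ) : L2)‖ ^
      ((n : ℝ)⁻¹)) atTop (𝓝 0)) :
    Tendsto (fun n : ℕ => (⨅ K : {K : L2 →L[ℂ] L2 // IsCompactOperator K}, ‖T ^ n - K.1‖) ^ ((n : ℝ)⁻¹))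
      atTop (𝓝 0) := by
  obtain ⟨δ, δ0, K, K0, hK⟩ := comp_est (mem_ball_zero_iff.1 hω)
  have it : ∀ n, DifferentiableOn ℂ φ^[n] (ball 0 1) := fun n => hφ.iterate hm n
  have hTn : ∀ n, ∀ a : L2, ∀ z ∈ ball (0 : ℂ) 1, FF ((T ^ n) a) z = FF a (φ^[n] z) := fun n => by
    induction n with
    | zero => intro a z _; rfl
    | succ n ih =>
      intro a z hz
      rw [pow_succ', mul_apply_eq_comp, hT _ z hz, ih a _ (hm hz), Function.iterate_succ_apply]
  have c1 : ∀ n (a : L2) k, co (fun z => FF a (φ^[n] z)) k = (T ^ n) a k := fun n a k => by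
    rw [← co_FF (l2_bd _) k]
    exact co_congr (fun z hz => (hTn n a z (by simpa using hz)).symm) k
  have c0 : ∀ (c : ℂ) k, co (fun _ => c) k = c * (lp.single 2 0 (1 : ℂ) : L2) k := fun c k => by
    have := co_mul c (fun z => z ^ 0) k
    simp only [pow_zero, mul_one] at this
    rw [this, ← co_congr (g := fun z => z ^ 0) (fun z _ => pow_zero z), co_pow, lp.single_apply,
      Pi.single_apply]
  have e1 : ∀ z, FF (lp.single 2 1 (1 : ℂ) : L2) z = z := fun z => by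
    rw [FF, tsum_eq_single 1 fun k hk => by rw [lp.single_apply_ne _ _ _ hk, zero_mul]]; simp
  set e0 : L2 := lp.single 2 0 1 with he0
  set ε : ℕ → ℝ := fun n => ‖(T ^ n) (lp.single 2 1 (1 : ℂ) : L2) - ω • e0‖
  have key : ∀ n, ε n < δ → (⨅ K : {K : L2 →L[ℂ] L2 // IsCompactOperator K}, ‖T ^ n - K.1‖) ≤
      √K * ε n := fun n hn => by
    refine ciInf_le_of_le ⟨0, fun _ ⟨_, h⟩ => h ▸ norm_nonneg _⟩
      ⟨(ContinuousLinearMap.toSpanSingleton ℂ e0).comp ((innerSL ℂ e0).comp (T ^ n)),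
        (isCompactOperator_of_locallyCompactSpace_dom ((innerSL ℂ e0).comp (T ^ n))).clm_comp
          (ContinuousLinearMap.toSpanSingleton ℂ e0)⟩
      (ContinuousLinearMap.opNorm_le_of_unit_norm (by positivity) fun a ha => ?_)
    have a1 := hK (FF a) φ^[n] (FF_diff (l2_bd a)) (fun N => by
      simp only [co_FF (l2_bd a)]; exact (l2_fin a N).trans (by rw [ha, one_pow])) (it n) (hm.iterate n)
      (ε n ^ 2) (pow_lt_pow_left₀ hn (norm_nonneg _) two_ne_zero) fun N => by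
        refine le_trans (le_of_eq (Finset.sum_congr rfl fun k _ => ?_)) (l2_fin _ N)
        rw [co_sub (it n) (by fun_prop), c0, lp.coeFn_sub, Pi.sub_apply, ← c1, lp.coeFn_smul]
        simp only [e1]; rfl
    refine le_of_sq_le_sq (l2_le _ fun N => ?_) (by positivity)
    rw [mul_pow, Real.sq_sqrt K0.le]
    refine le_trans (Finset.sum_le_sum fun k _ => ?_) (a1 N)
    rw [co_sub (g := fun z => FF a (φ^[n] z)) ((FF_diff (l2_bd a)).comp (it n) (hm.iterate n))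
      (by fun_prop), c0, c1]
    simp only [sub_apply, ContinuousLinearMap.comp_apply, lp.coeFn_sub, Pi.sub_apply,
      ContinuousLinearMap.toSpanSingleton_apply, lp.coeFn_smul, Pi.smul_apply, innerSL_apply_apply,
      he0, lp.inner_single_left]
    rcases eq_or_ne k 0 with rfl | hk
    · simp
    · rw [lp.single_apply_ne _ _ _ hk]; simp
  have t1 : Tendsto (fun n : ℕ => √K ^ ((n : ℝ)⁻¹)) atTop (𝓝 1) := by
    have := (Real.continuousAt_const_rpow (b := 0) (Real.sqrt_pos.2 K0).ne').tendsto.comp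
      (tendsto_inv_atTop_nhds_zero_nat (𝕜 := ℝ))
    rwa [Real.rpow_zero] at this
  have t2 := t1.mul h
  rw [mul_zero] at t2
  have i0 : ∀ n, 0 ≤ ⨅ K : {K : L2 →L[ℂ] L2 // IsCompactOperator K}, ‖T ^ n - K.1‖ := fun n =>
    Real.iInf_nonneg fun _ => norm_nonneg _
  refine squeeze_zero' (Eventually.of_forall fun n => Real.rpow_nonneg (i0 n) _) ?_ t2
  filter_upwards [h.eventually_lt_const (lt_min δ0 one_pos), eventually_ge_atTop 1] with n h1 hn
  rw [← Real.mul_rpow (Real.sqrt_nonneg _) (norm_nonneg _)]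
  refine Real.rpow_le_rpow (i0 n) (key n ?_) (by positivity)
  rw [← Real.rpow_inv_natCast_pow (x := ε n) (norm_nonneg _) (by omega : n ≠ 0)]
  exact (pow_le_of_le_one (Real.rpow_nonneg (norm_nonneg _) _) (h1.trans_le (min_le_right _ _)).le
    (by omega)).trans_lt (h1.trans_le (min_le_left _ _))

end Pool.Agent.H1.Sat
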