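import Pool.Agent.H1.GrnB

namespace Pool.Agent.H1.Ess

open Real Metric Filter Topology Set InnerProductSpace Laplacian Pool.Agent.H1.Grn

variable {n : ℕ}

def Z (i j : Fin n) (X : E n) : ℂ := ⟨X i, X j⟩

lemma Z_eq (i j : Fin n) : Z i j = fun X : E n => (X i : ℂ) + (X j : ℂ) * Complex.I := by
  funext X; apply Complex.ext <;> simp [Z]

lemma Z_smooth (i j : Fin n) : ContDiff ℝ 2 (Z i j) := by
  rw [Z_eq]
  have h : ∀ k : Fin n, ContDiff ℝ 2 fun X : E n => (X k : ℂ) := fun k =>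
    Complex.ofRealCLM.contDiff.comp (by fun_prop)
  exact (h i).add ((h j).mul contDiff_const)

lemma plane_harm {F : ℂ → ℂ} {i j : Fin n} (hij : i ≠ j) {X : E n} (hF : AnalyticAt ℂ F (Z i j X)) :
    HarmonicAt (fun Y => (F (Z i j Y)).re) X := by
  have key : ∀ X : E n, AnalyticAt ℂ F (Z i j X) →
      ContDiffAt ℝ 2 (fun Y => (F (Z i j Y)).re) X ∧ Δ (fun Y => (F (Z i j Y)).re) X = 0 := by
    intro X hF
    have h1 : ContDiffAt ℝ 2 (fun Y => (F (Z i j Y)).re) X :=
      Complex.reCLM.contDiff.contDiffAt.comp X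
        ((hF.contDiffAt.restrict_scalars ℝ).comp X (Z_smooth i j).contDiffAt)
    refine ⟨h1, ?_⟩
    rw [lap_line h1]
    have h2 : ∀ k, deriv (deriv fun t : ℝ => (F (Z i j (X + t • EuclideanSpace.single k (1 : ℝ)))).re) 0
        = (deriv (deriv F) (Z i j X) * (Z i j (EuclideanSpace.single k (1 : ℝ))) ^ 2).re := by
      intro k
      set c := Z i j (EuclideanSpace.single k (1 : ℝ))
      have e : ∀ t : ℝ, Z i j (X + t • EuclideanSpace.single k (1 : ℝ)) = Z i j X + t * c := by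
        intro t; apply Complex.ext <;> simp [Z, c]
      have d : ∀ w : ℂ, HasDerivAt (fun w : ℂ => Z i j X + w * c) c w := fun w => by
        simpa using ((hasDerivAt_id w).mul_const c).const_add (Z i j X)
      simp only [e]
      refine dd (g1 := fun t => (deriv F (Z i j X + t * c) * c).re) ?_ ?_
      · have : Tendsto (fun t : ℝ => Z i j X + t * c) (𝓝 0) (𝓝 (Z i j X)) := by
          have : Continuous fun t : ℝ => Z i j X + t * c := by fun_prop
          simpa using this.tendsto 0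
        filter_upwards [this.eventually hF.eventually_analyticAt] with t ht
        exact (ht.differentiableAt.hasDerivAt.comp (t : ℂ) (d t)).real_of_complex
      · have h3 : HasDerivAt (deriv F) (deriv (deriv F) (Z i j X)) (Z i j X + ((0 : ℝ) : ℂ) * c) := by
          simpa using hF.deriv.differentiableAt.hasDerivAt
        have := ((h3.comp ((0 : ℝ) : ℂ) (d _)).mul_const c).real_of_complex
        exact HasDerivAt.congr_deriv this (by rw [pow_two, mul_assoc])
    simp only [h2]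
    rw [← Complex.re_sum, ← Finset.mul_sum]
    have h3 : ∀ k, (Z i j (EuclideanSpace.single k (1 : ℝ))) ^ 2 =
        (if i = k then 1 else 0) - (if j = k then 1 else 0) := by
      intro k
      by_cases a : i = k <;> by_cases b : j = k
      · exact absurd (a.trans b.symm) hij
      all_goals simp [Z_eq, a, b]
    simp [h3]
  exact ⟨(key X hF).1, ((Z_smooth i j).continuous.continuousAt.eventually
    hF.eventually_analyticAt).mono fun Y hY => (key Y hY).2⟩

lemma harm_sum {ι : Type} (s : Finset ι) {f : ι → E n → ℝ} {X : E n}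
    (h : ∀ i ∈ s, HarmonicAt (f i) X) : HarmonicAt (fun Y => ∑ i ∈ s, f i Y) X := by
  classical
  induction s using Finset.induction_on with
  | empty => simp
  | insert a s ha ih =>
    simp only [Finset.sum_insert ha]
    exact (h a (Finset.mem_insert_self _ _)).add (ih fun i hi => h i (Finset.mem_insert_of_mem hi))

noncomputable def U1 (z : ℂ) : ℝ := (z * Complex.log z).re
noncomputable def U2 (z : ℂ) : ℝ := (z * Complex.log z ^ 2).re
noncomputable def U3 (z : ℂ) : ℝ := (z * Complex.log z ^ 2 * Complex.log (Complex.log z)).re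

lemma U1_eq (z : ℂ) : U1 z = z.re * log ‖z‖ - z.im * z.arg := by
  simp [U1, Complex.log_re, Complex.log_im]

lemma U2_eq (z : ℂ) : U2 z = z.re * (log ‖z‖ ^ 2 - z.arg ^ 2) - 2 * (z.im * z.arg) * log ‖z‖ := by
  simp [U2, pow_two, Complex.log_re, Complex.log_im]; ring

lemma arg_le {z : ℂ} (h : 0 < z.re) : |z.arg| * ‖z‖ ≤ π / 2 * |z.im| := by
  have h0 : 0 < ‖z‖ := h.trans_le (Complex.re_le_norm z)
  have := mul_abs_le_abs_sin (Complex.abs_arg_le_pi_div_two_iff.2 h.le)
  rw [Complex.sin_arg, abs_div, abs_of_pos h0, le_div_iff₀ h0] at this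
  have h1 := pi_pos
  calc _ = π / 2 * (2 / π * |z.arg| * ‖z‖) := by field_simp
    _ ≤ _ := by gcongr

lemma yθ {z : ℂ} (h : 0 < z.re) : ‖z‖ - z.re ≤ z.im * z.arg := by
  have h0 : 0 < ‖z‖ := h.trans_le (Complex.re_le_norm z)
  have h1 : |z.im| * |z.arg| = z.im * z.arg := by
    rw [← abs_mul, abs_of_nonneg]
    rcases le_total 0 z.im with a | a
    · exact mul_nonneg a (Complex.arg_nonneg_iff.2 a)
    · rcases a.eq_or_lt with a | a
      · simp [a]
      · exact (mul_pos_of_neg_of_neg a (Complex.arg_neg_iff.2 a)).le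
  have h2 := abs_sin_le_abs (x := z.arg)
  rw [Complex.sin_arg, abs_div, abs_of_pos h0, div_le_iff₀ h0] at h2
  have h3 : ‖z‖ ^ 2 = z.re ^ 2 + |z.im| ^ 2 := by
    rw [Complex.sq_norm, Complex.normSq_apply, sq_abs]; ring
  have h4 := Complex.re_le_norm z
  rw [← h1]
  refine le_of_mul_le_mul_right ?_ h0
  nlinarith [mul_le_mul_of_nonneg_left h2 (abs_nonneg z.im)]

lemma claimA {z : ℂ} (h : 0 < z.re) : |z.im| / 2 - z.re - z.re * log z.re ≤ -U1 z := by
  have h0 : 0 < ‖z‖ := h.trans_le (Complex.re_le_norm z)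
  have h1 := log_le_sub_one_of_pos (x := ‖z‖ / (2 * z.re)) (by positivity)
  rw [log_div h0.ne' (by positivity), log_mul (by norm_num) h.ne'] at h1
  have h2 : log 2 ≤ 1 := by linarith [log_le_sub_one_of_pos (x := 2) (by norm_num)]
  have h3 : z.re * log ‖z‖ ≤ z.re * (log z.re + ‖z‖ / (2 * z.re)) := by gcongr; linarith
  have h4 : z.re * (‖z‖ / (2 * z.re)) = ‖z‖ / 2 := by field_simp
  rw [U1_eq]
  nlinarith [yθ h, Complex.abs_im_le_norm z]

lemma claimB {z : ℂ} (h : 0 < z.re) (hL : 2 < log ‖z‖) (h2 : 0 < U2 z) :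
    z.re * log ‖z‖ / 2 ≤ U1 z := by
  rw [U2_eq] at h2
  rw [U1_eq]
  have : 2 * (z.im * z.arg) ≤ z.re * log ‖z‖ := by
    refine le_of_mul_le_mul_right ?_ (show 0 < log ‖z‖ by linarith)
    nlinarith [mul_nonneg h.le (sq_nonneg z.arg)]
  linarith

lemma claimC {z : ℂ} (h : 0 < z.re) (hL : 2 ≤ log ‖z‖) :
    -U3 z + log ‖Complex.log z‖ * U2 z ≤ 5 * (|z.im| * log ‖z‖) := by
  have e : -U3 z + log ‖Complex.log z‖ * U2 z
      = (z * Complex.log z ^ 2).im * (Complex.log z).arg := by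
    rw [U3, U2, Complex.mul_re _ (Complex.log _), Complex.log_re, Complex.log_im]; ring
  have h1 := arg_le h
  have h2 := arg_le (z := Complex.log z) (by rw [Complex.log_re]; linarith)
  rw [Complex.log_im] at h2
  have h3 : |(z * Complex.log z ^ 2).im| ≤ ‖z‖ * ‖Complex.log z‖ ^ 2 := by
    rw [← norm_pow, ← _root_.norm_mul]; exact Complex.abs_im_le_norm _
  have h4 : ‖Complex.log z‖ ≤ 2 * log ‖z‖ := by
    have := Complex.norm_le_abs_re_add_abs_im (Complex.log z)
    rw [Complex.log_re, Complex.log_im, abs_of_pos (by linarith)] at this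
    linarith [Complex.abs_arg_le_pi_div_two_iff.2 h.le, pi_le_four]
  have h5 : π / 2 * (π / 2) ≤ 5 / 2 := by nlinarith [pi_lt_d2, pi_pos]
  rw [e]
  calc _ ≤ |(z * Complex.log z ^ 2).im| * |(Complex.log z).arg| := by
        rw [← abs_mul]; exact le_abs_self _
    _ ≤ ‖z‖ * ‖Complex.log z‖ ^ 2 * |(Complex.log z).arg| := by gcongr
    _ = ‖z‖ * ‖Complex.log z‖ * (|(Complex.log z).arg| * ‖Complex.log z‖) := by ring
    _ ≤ ‖z‖ * ‖Complex.log z‖ * (π / 2 * |z.arg|) := by gcongr
    _ = π / 2 * (|z.arg| * ‖z‖) * ‖Complex.log z‖ := by ring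
    _ ≤ π / 2 * (π / 2 * |z.im|) * (2 * log ‖z‖) := by gcongr
    _ = π / 2 * (π / 2) * (2 * (|z.im| * log ‖z‖)) := by ring
    _ ≤ 5 / 2 * (2 * (|z.im| * log ‖z‖)) := by gcongr
    _ = _ := by ring

lemma claimD (z : ℂ) : |z.im| * log ‖z‖ ≤ |z.im| * posLog |z.im| + ‖z‖ := by
  rcases eq_or_ne z.im 0 with h | h
  · simp [h]
  have h0 := abs_pos.2 h
  have h1 := h0.trans_le (Complex.abs_im_le_norm z)
  have h2 := log_le_sub_one_of_pos (div_pos h1 h0)
  rw [log_div h1.ne' h0.ne'] at h2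
  have h3 : log |z.im| ≤ posLog |z.im| := le_max_right _ _
  calc _ ≤ |z.im| * (posLog |z.im| + ‖z‖ / |z.im|) := by gcongr; linarith
    _ = _ := by field_simp

lemma claimE {z : ℂ} (h : 0 ≤ z.re) (hL : 0 ≤ log ‖z‖) (h' : 0 ≤ z.im * z.arg) :
    U2 z ≤ z.re * log ‖z‖ ^ 2 := by
  rw [U2_eq]; nlinarith [mul_nonneg h (sq_nonneg z.arg), mul_nonneg h' hL]

lemma im_arg (z : ℂ) : 0 ≤ z.im * z.arg := by
  rcases le_total 0 z.im with a | a
  · exact mul_nonneg a (Complex.arg_nonneg_iff.2 a)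
  · rcases a.eq_or_lt with a | a
    · simp [a]
    · exact (mul_pos_of_neg_of_neg a (Complex.arg_neg_iff.2 a)).le

lemma log_an {z : ℂ} (h : z ∈ Complex.slitPlane) : AnalyticAt ℂ Complex.log z := analyticAt_clog h

theorem main (hn : 2 ≤ n) : ∃ D : Set (E n), IsOpen D ∧ IsConnected D ∧
    (∃ h : E n → ℝ, HarmonicOnNhd h D ∧ ∀ x ∈ D, ‖x‖ ≤ h x) ∧
    ¬ ∃ H : E n → ℝ, HarmonicOnNhd H D ∧
      ∀ x ∈ D, |x ⟨0, by omega⟩| * posLog |x ⟨0, by omega⟩| ≤ H x := by
  set i0 : Fin n := ⟨0, by omega⟩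
  set i1 : Fin n := ⟨1, by omega⟩
  have h10 : i1 ≠ i0 := by simp [i0, i1]
  set z : E n → ℂ := Z i1 i0 with hz
  have zc : Continuous z := (Z_smooth _ _).continuous
  have u2h : ∀ X, z X ∈ Complex.slitPlane → HarmonicAt (fun Y => U2 (z Y)) X := fun X h =>
    plane_harm (F := fun w => w * Complex.log w ^ 2) h10 (analyticAt_id.mul ((log_an h).pow 2))
  have u1h : ∀ j X, j ≠ i1 → 0 < X i1 → HarmonicAt (fun Y => U1 (Z i1 j Y)) X := fun j X hj h =>
    plane_harm (F := fun w => w * Complex.log w) hj.symm (analyticAt_id.mul (log_an (Or.inl h)))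
  set O : Set (E n) := {X | 0 < (z X).re ∧ exp 2 < ‖z X‖ ∧ 0 < U2 (z X)} with hO
  have Oo : IsOpen O := isOpen_iff_mem_nhds.2 fun X hX => by
    filter_upwards [(Complex.continuous_re.comp zc).continuousAt.eventually (lt_mem_nhds hX.1),
      zc.norm.continuousAt.eventually (lt_mem_nhds hX.2.1),
      (u2h X (Or.inl hX.1)).1.continuousAt.eventually (lt_mem_nhds hX.2.2)] with Y a b c
    exact ⟨a, b, c⟩
  have OL : ∀ X ∈ O, 2 < log ‖z X‖ := fun X hX =>
    (lt_log_iff_exp_lt ((exp_pos 2).trans hX.2.1)).2 hX.2.1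
  set X0 : E n := EuclideanSpace.single i1 (exp 3) with hX0
  have z0 : z X0 = (exp 3 : ℝ) := by apply Complex.ext <;> simp [hz, Z, hX0, h10.symm, -Complex.ofReal_exp]
  have e3 : 8 ≤ exp 3 := by
    have := exp_one_gt_two
    rw [show (3 : ℝ) = 1 + 1 + 1 by norm_num, exp_add, exp_add]; nlinarith
  have u0 : U2 (z X0) = 9 * exp 3 := by
    rw [U2_eq, z0, Complex.arg_ofReal_of_nonneg (exp_pos 3).le, Complex.norm_real,
      Real.norm_eq_abs, abs_of_pos (exp_pos 3), log_exp]
    simp only [Complex.ofReal_re, Complex.ofReal_im]; ring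
  have n0 : ‖z X0‖ = exp 3 := by rw [z0, Complex.norm_real, Real.norm_eq_abs, abs_of_pos (exp_pos 3)]
  have X0O : X0 ∈ O := ⟨by rw [z0]; exact exp_pos 3, by rw [n0]; exact exp_lt_exp.2 (by norm_num),
    by rw [u0]; linarith⟩
  set D := connectedComponentIn O X0 with hD
  have DO : D ⊆ O := connectedComponentIn_subset _ _
  have Do : IsOpen D := Oo.connectedComponentIn
  set h : E n → ℝ := fun X => ∑ j ∈ Finset.univ.erase i1, (-2 : ℝ) • U1 (Z i1 j X)
    + (6 * n : ℝ) • U1 (z X) + X i1 with hh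
  have hharm : HarmonicOnNhd h D := fun X hX =>
    ((harm_sum _ fun j hj => (u1h j X (Finset.ne_of_mem_erase hj) (DO hX).1).const_smul).add
      (u1h i0 X h10.symm (DO hX).1).const_smul).add (lin_harm (EuclideanSpace.proj i1) X)
  have hmaj : ∀ X ∈ D, ‖X‖ ≤ h X := fun X hX => by
    obtain ⟨a, b, c⟩ := DO hX
    have hL := OL X (DO hX)
    have k1 : ‖X‖ ≤ ∑ j, |X j| := by
      refine abs_le_of_sq_le_sq' ?_ (by positivity) |>.2
      rw [EuclideanSpace.real_norm_sq_eq]
      simpa using Finset.sum_sq_le_sq_sum_of_nonneg (s := Finset.univ) (f := fun j => |X j|)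
        fun _ _ => abs_nonneg _
    have a' : 0 < X i1 := a
    have k2 : log (X i1) ≤ log ‖z X‖ := log_le_log a' (Complex.re_le_norm (z X))
    have k3 : ∑ j ∈ Finset.univ.erase i1, (|X j| - 3 * (X i1 * log ‖z X‖))
        ≤ ∑ j ∈ Finset.univ.erase i1, (-2 : ℝ) • U1 (Z i1 j X) := Finset.sum_le_sum fun j _ => by
      have : |X j| / 2 - X i1 - X i1 * log (X i1) ≤ _ := claimA (z := Z i1 j X) a'
      rw [smul_eq_mul]; nlinarith
    have k4 : X i1 * log ‖z X‖ / 2 ≤ _ := claimB a hL c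
    rw [Finset.sum_sub_distrib, Finset.sum_const, Finset.card_erase_of_mem (Finset.mem_univ _),
      Finset.card_fin, nsmul_eq_mul, Nat.cast_pred (by omega)] at k3
    rw [← Finset.sum_erase_add _ _ (Finset.mem_univ i1), abs_of_pos a'] at k1
    have k5 : (0 : ℝ) ≤ n := Nat.cast_nonneg n
    simp only [hh, smul_eq_mul] at k3 ⊢
    nlinarith [mul_pos a' (show 0 < log ‖z X‖ by linarith)]
  refine ⟨D, Do, isConnected_connectedComponentIn_iff.2 X0O, ⟨h, hharm, hmaj⟩, ?_⟩
  rintro ⟨H, hH, hHm⟩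
  set a : ℝ := |5 * (H X0 + h X0) + U3 (z X0) + 1| + 2 with ha
  have a2 : 2 ≤ a := by linarith [abs_nonneg (5 * (H X0 + h X0) + U3 (z X0) + 1)]
  set R := exp (exp a) with hR
  have R0 : 0 < R := exp_pos _
  set ε : ℝ := 1 / (‖X0‖ ^ 2 + n * R ^ 2 + 1) with hε
  have ε0 : 0 < ε := by positivity
  set T : ℝ := a * R ^ 3 / ε + ‖X0‖ + 1 with hT
  have T1 : ‖X0‖ + 1 ≤ T := by
    have : 0 ≤ a * R ^ 3 / ε := by positivity
    linarith
  set G : Set (E n) := (D ∩ (fun X => U2 (z X)) ⁻¹' Ioi 40) ∩ ({X | ‖z X‖ < R} ∩ ball 0 T) with hG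
  have Go : IsOpen G := (ContinuousOn.isOpen_inter_preimage (fun X hX =>
    (u2h X (Or.inl (DO hX).1)).1.continuousAt.continuousWithinAt) Do isOpen_Ioi).inter
      ((isOpen_lt zc.norm continuous_const).inter isOpen_ball)
  have hcl : ∀ p ∈ closure G, p ∈ D ∧ 40 ≤ U2 (z p) ∧ ‖z p‖ ≤ R ∧ ‖p‖ ≤ T := by
    intro p hp
    obtain ⟨k1, k2, k3, k4⟩ : 0 ≤ (z p).re ∧ exp 2 ≤ ‖z p‖ ∧ ‖z p‖ ≤ R ∧ ‖p‖ ≤ T :=
      closure_minimal (t := {p | 0 ≤ (z p).re ∧ exp 2 ≤ ‖z p‖ ∧ ‖z p‖ ≤ R ∧ ‖p‖ ≤ T})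
        (fun X hX => ⟨(DO hX.1.1).1.le, (DO hX.1.1).2.1.le, le_of_lt hX.2.1,
          (mem_ball_zero_iff.1 hX.2.2).le⟩)
        ((isClosed_le continuous_const (Complex.continuous_re.comp zc)).inter
          ((isClosed_le continuous_const zc.norm).inter ((isClosed_le zc.norm
            continuous_const).inter (isClosed_le continuous_norm continuous_const)))) hp
    have k5 : z p ∈ Complex.slitPlane := by
      rcases k1.eq_or_lt with k | k
      · refine Or.inr fun k' => ?_
        have : z p = 0 := Complex.ext k.symm k'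
        rw [this, norm_zero] at k2
        linarith [exp_pos 2]
      · exact Or.inl k
    have k6 : 40 ≤ U2 (z p) := ContinuousWithinAt.closure_le hp continuousWithinAt_const
      (u2h p k5).1.continuousAt.continuousWithinAt fun X hX => le_of_lt hX.1.2
    have k7 : 2 ≤ log ‖z p‖ := (le_log_iff_exp_le ((exp_pos 2).trans_le k2)).2 k2
    have k8 := claimE k1 (by linarith) (im_arg _)
    have k9 : p ∈ O := by
      refine ⟨lt_of_le_of_ne k1 fun k => ?_, lt_of_le_of_ne k2 fun k => ?_, by linarith⟩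
      · rw [← k] at k8; linarith
      · have := Complex.re_le_norm (z p)
        rw [← k, log_exp] at k8
        have e2 : exp 2 ≤ 9 := by
          have := exp_one_lt_d9
          rw [show (2 : ℝ) = 1 + 1 by norm_num, exp_add]; nlinarith [exp_pos 1]
        linarith
    refine ⟨?_, k6, k3, k4⟩
    have : IsPreconnected (insert p D) := isPreconnected_connectedComponentIn.subset_closure
      (subset_insert _ _) (insert_subset (closure_mono (fun X hX => hX.1.1) hp) subset_closure)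
    exact this.subset_connectedComponentIn (mem_insert_of_mem _ (mem_connectedComponentIn X0O))
      (insert_subset k9 DO) (mem_insert _ _)
  set f : E n → ℝ := fun X => -U3 (z X) + a • (U2 (z X) - 40)
    - ε • (‖X‖ ^ 2 - n * X i1 ^ 2 + n * R ^ 2) - (5 : ℝ) • (H X + h X) with hf
  have qh : ∀ X, HarmonicAt (fun X : E n => ‖X‖ ^ 2 - n * X i1 ^ 2) X := fun X => by
    have := harm_sum (Finset.univ.erase i1) (X := X) (f := fun j Y => ((-Z i1 j Y ^ 2).re))
      fun j hj => plane_harm (F := fun w => -w ^ 2) (Finset.ne_of_mem_erase hj).symm (by fun_prop)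
    convert this using 1
    funext Y
    have e : ∀ j, (-Z i1 j Y ^ 2).re = Y j ^ 2 - Y i1 ^ 2 := fun j => by simp [Z, pow_two]
    simp only [e]
    rw [Finset.sum_erase _ (by simp), Finset.sum_sub_distrib, EuclideanSpace.real_norm_sq_eq]
    simp
  have fh : ∀ X ∈ D, HarmonicAt f X := fun X hX => by
    have k1 : z X ∈ Complex.slitPlane := Or.inl (DO hX).1
    have k2 : Complex.log (z X) ∈ Complex.slitPlane :=
      Or.inl (by rw [Complex.log_re]; linarith [OL X (DO hX)])
    exact (((plane_harm (F := fun w => w * Complex.log w ^ 2 * Complex.log (Complex.log w)) h10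
      ((analyticAt_id.mul ((log_an k1).pow 2)).mul ((log_an k2).comp (log_an k1)))).neg.add
      ((u2h X k1).sub (harmonicAt_const _)).const_smul).sub
      ((qh X).add (harmonicAt_const _)).const_smul).sub ((hH X hX).add (hharm X hX)).const_smul
  have X0D : X0 ∈ D := mem_connectedComponentIn X0O
  have key := maxp (by omega) Go (isBounded_ball.subset fun X hX => hX.2.2) (f := f) (M := 0)
    (fun X hX => (fh X (hcl X hX).1).1.continuousAt.continuousWithinAt)
    (fun X hX => ⟨(fh X hX.1.1).1, (fh X hX.1.1).2.eq_of_nhds.ge⟩)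
    (fun p hp => by
      obtain ⟨k1, k2, k3, k4⟩ := hcl p (frontier_subset_closure hp)
      have hL := OL p (DO k1)
      have k5 := claimC (DO k1).1 hL.le
      have k6 : |(z p).im| * log ‖z p‖ ≤ H p + h p := by
        have : ‖z p‖ ≤ ‖p‖ := by
          refine abs_le_of_sq_le_sq' ?_ (norm_nonneg _) |>.2
          rw [EuclideanSpace.real_norm_sq_eq, Complex.sq_norm, Complex.normSq_apply,
            ← pow_two, ← pow_two]
          exact (Finset.sum_pair (f := fun j => p j ^ 2) h10).ge.trans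
            (Finset.sum_le_sum_of_subset_of_nonneg (Finset.subset_univ _) fun _ _ _ => sq_nonneg _)
        exact (claimD (z p)).trans (add_le_add (hHm p k1) (this.trans (hmaj p k1)))
      have k7 : log ‖z p‖ ≤ ‖Complex.log (z p)‖ := by
        simpa [Complex.log_re] using Complex.re_le_norm (Complex.log (z p))
      have k8 : 0 ≤ log ‖Complex.log (z p)‖ := log_nonneg (by linarith)
      have k9 : (z p).re ≤ ‖z p‖ := Complex.re_le_norm _
      have k10 : p i1 ^ 2 ≤ R ^ 2 := pow_le_pow_left₀ (DO k1).1.le (k9.trans k3) 2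
      have k11 : ε * ‖p‖ ^ 2 ≤ ε * (‖p‖ ^ 2 - n * p i1 ^ 2 + n * R ^ 2) := by
        gcongr; nlinarith [Nat.cast_nonneg (α := ℝ) n]
      have k12 : 0 ≤ ε * ‖p‖ ^ 2 := by positivity
      rw [Go.frontier_eq] at hp
      simp only [hf, smul_eq_mul]
      rcases k2.eq_or_lt with c1 | c1
      · rw [← c1] at k5 ⊢; nlinarith
      rcases k3.eq_or_lt with c2 | c2
      · have : a ≤ log ‖Complex.log (z p)‖ := by
          rw [c2, hR, log_exp] at k7
          exact (le_log_iff_exp_le ((exp_pos a).trans_le k7)).2 k7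
        nlinarith
      have c3 : T ≤ ‖p‖ := not_lt.1 fun c => hp.2 ⟨⟨k1, c1⟩, c2, mem_ball_zero_iff.2 c⟩
      have c4 : U2 (z p) ≤ R ^ 3 := by
        have := log_le_sub_one_of_pos ((exp_pos 2).trans (DO k1).2.1)
        calc _ ≤ _ := claimE (DO k1).1.le (by linarith) (im_arg _)
          _ ≤ R * R ^ 2 := by gcongr <;> linarith
          _ = _ := by ring
      have c5 : a * R ^ 3 ≤ ε * ‖p‖ ^ 2 := by
        have : a * R ^ 3 / ε ≤ ‖p‖ ^ 2 := by nlinarith [norm_nonneg X0]
        rwa [div_le_iff₀' ε0] at this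
      nlinarith) X0 (subset_closure ⟨⟨X0D, by show 40 < U2 (z X0); rw [u0]; linarith⟩, by
        show ‖z X0‖ < R
        rw [n0]; exact exp_lt_exp.2 (by linarith [add_one_lt_exp (x := a) (by linarith)]),
        mem_ball_zero_iff.2 (by linarith)⟩)
  have k1 : ε * (‖X0‖ ^ 2 - n * X0 i1 ^ 2 + n * R ^ 2) ≤ 1 := by
    rw [hε, one_div, inv_mul_le_iff₀ (by positivity)]
    nlinarith [mul_nonneg (Nat.cast_nonneg (α := ℝ) n) (sq_nonneg (X0 i1))]
  simp only [hf, smul_eq_mul, u0] at key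
  nlinarith [le_abs_self (5 * (H X0 + h X0) + U3 (z X0) + 1)]

end Pool.Agent.H1.Ess
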