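import Mathlib

set_option autoImplicit false

namespace Pool.Agent.H1.Ext

open Finset

variable {𝕜 : Type} [RCLike 𝕜]

lemma block {X : Type} [Fintype X] [DecidableEq X] [Nonempty X] (U : X → X → 𝕜) (s C : ℝ)
    (hs : 0 < s) (hU : ∀ x y, ‖U x y‖ ≤ 1 / s)
    (hUU : ∀ x z, ∑ y, U x y * U y z = if x = z then 1 else 0)
    (F : Bool × X → ((Bool × X → 𝕜) →ₗ[𝕜] 𝕜)) (hF : ∀ i v, ‖F i v‖ ≤ C * ‖v‖)
    (h1 : ∀ y v, F (true, y) v = ∑ x, U y x * F (false, x) v)
    (h2 : ∀ x, F (false, x) (fun p => if p.1 then U p.2 x else if p.2 = x then 1 else 0) = 1) :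
    s ≤ 2 * C := by
  have hC : 0 ≤ C := by
    obtain ⟨x⟩ := ‹Nonempty X›
    by_contra h
    have := hF (false, x) (fun p => if p.1 then U p.2 x else if p.2 = x then 1 else 0)
    rw [h2, norm_one] at this
    nlinarith [norm_nonneg (fun p : Bool × X => if p.1 then U p.2 x else if p.2 = x then (1 : 𝕜) else 0)]
  let e : X → (Bool × X → 𝕜) := fun x p => if p.1 then 0 else if p.2 = x then 1 else 0
  let w : X → (Bool × X → 𝕜) := fun x p => if p.1 then U p.2 x else 0
  let w' : X → (Bool × X → 𝕜) := fun y p => if p.1 then 0 else U p.2 y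
  have hw : ∀ x, ‖w x‖ ≤ 1 / s := fun x =>
    (pi_norm_le_iff_of_nonneg (by positivity)).2 fun p => by
      simp only [w]; split_ifs
      · exact hU _ _
      · simp [hs.le]
  have hw' : ∀ x, ‖w' x‖ ≤ 1 / s := fun x =>
    (pi_norm_le_iff_of_nonneg (by positivity)).2 fun p => by
      simp only [w']; split_ifs
      · simp [hs.le]
      · exact hU _ _
  have h3 : ∀ x, F (false, x) (e x) + F (false, x) (w x) = 1 := fun x => by
    rw [← map_add, ← h2 x]
    congr 1
    funext p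
    simp only [e, w, Pi.add_apply]
    split_ifs <;> simp
  have h4 : ∀ x v, F (false, x) v = ∑ y, U x y * F (true, y) v := fun x v => by
    simp_rw [h1, Finset.mul_sum, ← mul_assoc]
    rw [Finset.sum_comm]
    simp_rw [← Finset.sum_mul, hUU]
    simp
  have h5 : ∀ y, w' y = ∑ x, U x y • e x := fun y => by
    funext p
    simp only [w', e, Finset.sum_apply, Pi.smul_apply, smul_eq_mul]
    split_ifs <;> simp
  have h6 : ∑ x, F (false, x) (e x) = ∑ y, F (true, y) (w' y) := by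
    simp_rw [h5, map_sum, map_smul, smul_eq_mul]
    rw [Finset.sum_comm]
    exact Finset.sum_congr rfl fun x _ => h4 x _
  have h7 : (Fintype.card X : 𝕜) = ∑ y, F (true, y) (w' y) + ∑ x, F (false, x) (w x) := by
    rw [← h6, ← Finset.sum_add_distrib]
    simp [h3]
  have h8 : (Fintype.card X : ℝ) ≤ Fintype.card X * (C * (1 / s)) +
      Fintype.card X * (C * (1 / s)) := by
    have e1 := congrArg norm h7
    rw [RCLike.norm_natCast] at e1
    rw [e1]
    refine (norm_add_le _ _).trans (add_le_add ?_ ?_)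
    · refine (norm_sum_le _ _).trans ?_
      refine (Finset.sum_le_card_nsmul _ _ (C * (1 / s)) fun y _ => ?_).trans (by simp [← e1])
      exact (hF _ _).trans (by gcongr; exact hw' y)
    · refine (norm_sum_le _ _).trans ?_
      refine (Finset.sum_le_card_nsmul _ _ (C * (1 / s)) fun y _ => ?_).trans (by simp [← e1])
      exact (hF _ _).trans (by gcongr; exact hw y)
  have hN : (0 : ℝ) < Fintype.card X := by exact_mod_cast Fintype.card_pos
  have h9 : 1 ≤ 2 * C / s := by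
    have : (Fintype.card X : ℝ) * 1 ≤ Fintype.card X * (2 * C / s) := by
      have e : (Fintype.card X : ℝ) * (2 * C / s) = Fintype.card X * (C * (1 / s)) +
        Fintype.card X * (C * (1 / s)) := by ring
      rw [e, mul_one]; exact h8
    exact le_of_mul_le_mul_left this hN
  rwa [le_div_iff₀ hs, one_mul] at h9

abbrev XX (m : ℕ) : Type := Fin (2 * m) → Bool

noncomputable def UU (𝕜 : Type) [RCLike 𝕜] (m : ℕ) (x y : XX m) : 𝕜 :=
  (∏ i, if x i && y i then (-1 : 𝕜) else 1) / 2 ^ m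

lemma UU_norm (m : ℕ) (x y : XX m) : ‖UU 𝕜 m x y‖ ≤ 1 / 2 ^ m := by
  rw [UU, norm_div, norm_prod, norm_pow, RCLike.norm_two]
  apply le_of_eq
  congr 1
  exact Finset.prod_eq_one fun i _ => by split_ifs <;> simp

lemma UU_symm (m : ℕ) (x y : XX m) : UU 𝕜 m x y = UU 𝕜 m y x := by
  simp only [UU, Bool.and_comm]

lemma UU_mul (m : ℕ) (x z : XX m) :
    ∑ y, UU 𝕜 m x y * UU 𝕜 m y z = if x = z then 1 else 0 := by
  have e : ∀ y : XX m, UU 𝕜 m x y * UU 𝕜 m y z =
      ∏ i, (((if x i && y i then (-1 : 𝕜) else 1) * (if y i && z i then (-1 : 𝕜) else 1)) / 2) := by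
    intro y
    rw [Finset.prod_div_distrib, Finset.prod_mul_distrib, UU, UU, div_mul_div_comm]
    congr 1
    simp [two_mul, pow_add]
  simp_rw [e]
  have e2 := Finset.prod_univ_sum (fun _ : Fin (2 * m) => (Finset.univ : Finset Bool))
    (fun i b => ((if x i && b then (-1 : 𝕜) else 1) * (if b && z i then (-1 : 𝕜) else 1)) / 2)
  rw [Fintype.piFinset_univ] at e2
  rw [← e2]
  have e3 : ∀ i, ∑ b : Bool, ((if x i && b then (-1 : 𝕜) else 1) *
      (if b && z i then (-1 : 𝕜) else 1)) / 2 = if x i = z i then 1 else 0 := fun i => by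
    cases x i <;> cases z i <;> norm_num
  simp_rw [e3]
  split_ifs with h
  · subst h; simp
  · obtain ⟨i, hi⟩ := Function.ne_iff.1 h
    exact Finset.prod_eq_zero (Finset.mem_univ i) (by simp [hi])

abbrev EE (𝕜 : Type) [RCLike 𝕜] : Type := lp (fun m : ℕ => Bool × XX m → 𝕜) 2

noncomputable def co (m : ℕ) (i : Bool × XX m) : EE 𝕜 →L[𝕜] 𝕜 :=
  LinearMap.mkContinuous
    { toFun := fun v => v m i
      map_add' := fun _ _ => rfl
      map_smul' := fun _ _ => rfl } 1 (fun v => by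
      rw [one_mul]
      exact (norm_le_pi_norm (v m) i).trans (lp.norm_apply_le_norm (by norm_num) v m))

lemma co_apply (m : ℕ) (i : Bool × XX m) (v : EE 𝕜) : co m i v = v m i := rfl

lemma co_norm (m : ℕ) (i : Bool × XX m) : ‖(co m i : EE 𝕜 →L[𝕜] 𝕜)‖ ≤ 1 :=
  LinearMap.mkContinuous_norm_le _ zero_le_one _

instance : TopologicalSpace.SeparableSpace (EE 𝕜) := by
  have h : ∀ m, TopologicalSpace.IsSeparable
      (Set.range fun v : Bool × XX m → 𝕜 => (lp.single 2 m v : EE 𝕜)) := fun m =>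
    TopologicalSpace.isSeparable_range
      (lp.singleContinuousLinearMap 𝕜 (fun m : ℕ => Bool × XX m → 𝕜) 2 m).continuous
  have h2 := ((TopologicalSpace.IsSeparable.iUnion h).span (R := 𝕜)).closure
  rw [← TopologicalSpace.isSeparable_univ_iff]
  refine h2.mono fun v _ => ?_
  refine mem_closure_of_tendsto (lp.hasSum_single (p := 2) (by norm_num) v)
    (Filter.Eventually.of_forall fun s => ?_)
  exact Submodule.sum_mem _ fun m _ => Submodule.subset_span (Set.mem_iUnion.2 ⟨m, _, rfl⟩)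

noncomputable def rel (m : ℕ) (y : XX m) (f : Bool × XX m → (EE 𝕜 →L[𝕜] 𝕜)) : EE 𝕜 →L[𝕜] 𝕜 :=
  f (true, y) - ∑ x, UU 𝕜 m y x • f (false, x)

lemma rel_apply (m : ℕ) (y : XX m) (f : Bool × XX m → (EE 𝕜 →L[𝕜] 𝕜)) (v : EE 𝕜) :
    rel m y f v = f (true, y) v - ∑ x, UU 𝕜 m y x * f (false, x) v := by
  simp [rel]

noncomputable def GG (𝕜 : Type) [RCLike 𝕜] : Submodule 𝕜 (EE 𝕜) :=
  ⨅ m, ⨅ y : XX m, (rel m y (co m)).ker

lemma mem_GG (v : EE 𝕜) : v ∈ GG 𝕜 ↔ ∀ m y, rel m y (co m) v = 0 := by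
  simp [GG, Submodule.mem_iInf]

lemma closed_GG : IsClosed (GG 𝕜 : Set (EE 𝕜)) := by
  have : (GG 𝕜 : Set (EE 𝕜)) = ⋂ m, ⋂ y : XX m, {v | rel m y (co m) v = 0} := by
    ext v; simp [mem_GG]
  rw [this]
  exact isClosed_iInter fun m => isClosed_iInter fun y =>
    isClosed_eq (rel m y (co m)).continuous continuous_const

lemma key (f : (m : ℕ) → Bool × XX m → (EE 𝕜 →L[𝕜] 𝕜)) (C : ℝ) (hC : ∀ m i, ‖f m i‖ ≤ C)
    (hG : ∀ m i, ∀ g ∈ GG 𝕜, f m i g = co m i g)
    (hd : Dense {z | ∃ g ∈ GG 𝕜, ∃ y, (∀ m i, f m i y = 0) ∧ z = g + y}) : False := by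
  obtain ⟨m, hm⟩ := pow_unbounded_of_one_lt (2 * C) (by norm_num : (1 : ℝ) < 2)
  have hrel : ∀ y v, rel m y (f m) v = 0 := fun y v => by
    have hc : IsClosed {v | rel m y (f m) v = 0} :=
      isClosed_eq (rel m y (f m)).continuous continuous_const
    refine hc.closure_subset_iff.2 ?_ (hd v)
    rintro _ ⟨g, hg, u, hu, rfl⟩
    have := (mem_GG g).1 hg m y
    rw [rel_apply] at this
    simp only [Set.mem_ofPred_eq, map_add, rel_apply, hu, hG _ _ g hg]
    simpa using this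
  have hC0 : 0 ≤ C := (norm_nonneg _).trans (hC 0 (true, fun _ => true))
  refine absurd (block (UU 𝕜 m) (2 ^ m) C (by positivity) (UU_norm m) (UU_mul m)
    (fun i => (f m i).toLinearMap ∘ₗ lp.lsingle (𝕜 := 𝕜) (E := fun m : ℕ => Bool × XX m → 𝕜) 2 m)
    (fun i v => ?_) (fun y v => ?_) (fun x => ?_)) (not_le.2 hm)
  · change ‖f m i (lp.single 2 m v)‖ ≤ _
    refine ((f m i).le_opNorm _).trans ?_
    rw [lp.norm_single (by norm_num)]
    gcongr
    exact hC m i
  · have := hrel y (lp.single 2 m v)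
    rw [rel_apply, sub_eq_zero] at this
    exact this
  · change f m (false, x) (lp.single 2 m _) = 1
    rw [hG, co_apply]
    · simp
    · rw [mem_GG]
      intro m' y
      rw [rel_apply]
      simp only [co_apply]
      rcases eq_or_ne m' m with rfl | hne
      · simp
      · simp [lp.single_apply, Pi.single_eq_of_ne hne]

theorem main (𝕜 : Type) [RCLike 𝕜] : ∃ (E : Type) (_ : NormedAddCommGroup E)
    (_ : NormedSpace 𝕜 E) (_ : CompleteSpace E) (_ : TopologicalSpace.SeparableSpace E)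
    (G : Submodule 𝕜 E) (φ : ℕ → (G →L[𝕜] 𝕜)), IsClosed (G : Set E) ∧ (∀ n, ‖φ n‖ ≤ 1) ∧
    ∀ f : ℕ → (E →L[𝕜] 𝕜), (∀ n, ∀ g : G, f n g = φ n g) → (∃ C, ∀ n, ‖f n‖ ≤ C) →
      ¬ Dense {z : E | ∃ g ∈ G, ∃ y, (∀ n, f n y = 0) ∧ z = g + y} := by
  obtain ⟨σ, hσ⟩ := exists_surjective_nat (Σ m : ℕ, Bool × XX m)
  choose τ hτ using hσ
  refine ⟨EE 𝕜, inferInstance, inferInstance, inferInstance, inferInstance, GG 𝕜,
    fun n => (co (σ n).1 (σ n).2).comp (GG 𝕜).subtypeL, closed_GG, fun n => ?_,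
    fun f hf ⟨C, hC⟩ hd => ?_⟩
  · refine ContinuousLinearMap.opNorm_le_bound _ zero_le_one fun g => ?_
    refine ((co (𝕜 := 𝕜) (σ n).1 (σ n).2).le_opNorm (g : EE 𝕜)).trans ?_
    exact mul_le_mul_of_nonneg_right (co_norm _ _) (norm_nonneg _)
  · refine key (fun m i => f (τ ⟨m, i⟩)) C (fun _ _ => hC _) (fun m i g hg => ?_) (hd.mono ?_)
    · have := hf (τ ⟨m, i⟩) ⟨g, hg⟩
      beta_reduce at this
      rw [hτ] at this
      exact this
    · rintro _ ⟨g, hg, y, hy, rfl⟩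
      exact ⟨g, hg, y, fun _ _ => hy _, rfl⟩

end Pool.Agent.H1.Ext
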