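import Mathlib

set_option autoImplicit false

namespace Pool.Agent.H1.ExtZ
open MeasureTheory Filter Topology Set Polynomial

noncomputable def N (a b : ℂ) : ℝ := ∫ x in (-1 : ℝ)..1, ‖2 * (x : ℂ) - (a + b)‖
noncomputable def D (a b : ℂ) : ℝ := sSup ((fun x : ℝ => ‖((x : ℂ) - a) * (x - b)‖) '' Icc (-1) 1)

lemma D_ge (a b : ℂ) {x : ℝ} (hx : x ∈ Icc (-1 : ℝ) 1) : ‖((x : ℂ) - a) * (x - b)‖ ≤ D a b :=
  le_csSup (isCompact_Icc.image (by fun_prop)).bddAbove ⟨x, hx, rfl⟩

lemma D_le (a b : ℂ) {C : ℝ} (h : ∀ x ∈ Icc (-1 : ℝ) 1, ‖((x : ℂ) - a) * (x - b)‖ ≤ C) :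
    D a b ≤ C := csSup_le ((nonempty_Icc.mpr (by norm_num)).image _) (by
  rintro _ ⟨x, hx, rfl⟩; exact h x hx)

lemma D_half (a b : ℂ) : 1 / 2 ≤ D a b := by
  have h1 := D_ge a b (x := 1) (by norm_num)
  have h2 := D_ge a b (x := -1) (by norm_num)
  have h3 := D_ge a b (x := 0) (by norm_num)
  have e : (2 : ℂ) = ((1 : ℝ) - a) * ((1 : ℝ) - b) + ((-1 : ℝ) - a) * ((-1 : ℝ) - b) -
      2 * (((0 : ℝ) - a) * ((0 : ℝ) - b)) := by push_cast; ring
  have := congrArg norm e
  have h4 := (norm_sub_le _ _).trans' this.le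
  have h5 := norm_add_le (((1 : ℝ) - a) * ((1 : ℝ) - b)) (((-1 : ℝ) - a) * ((-1 : ℝ) - b))
  rw [norm_mul 2, Complex.norm_ofNat] at h4
  linarith

lemma N_crude (a b : ℂ) : N a b ≤ 2 * (2 + ‖a + b‖) := by
  refine (intervalIntegral.integral_mono_on (g := fun _ => 2 + ‖a + b‖) (by norm_num)
    (Continuous.intervalIntegrable (by fun_prop) _ _) (by simp) fun x hx => ?_).trans_eq ?_
  · refine (norm_sub_le _ _).trans ?_
    rw [norm_mul, Complex.norm_real, Complex.norm_ofNat, Real.norm_eq_abs]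
    linarith [abs_le.mpr hx]
  · simp; ring

lemma big (a b : ℂ) (ha : 5 ≤ ‖a‖) : N a b ≤ 4 * D a b := by
  have h1 := D_ge a b (x := 1) (by norm_num)
  have h2 := D_ge a b (x := -1) (by norm_num)
  rw [norm_mul] at h1 h2
  push_cast at h1 h2
  have a1 : ‖a‖ - 1 ≤ ‖1 - a‖ := by simpa [norm_sub_rev] using norm_sub_norm_le a 1
  have a2 : ‖a‖ - 1 ≤ ‖-1 - a‖ := by simpa [norm_sub_rev] using norm_sub_norm_le a (-1)
  have b1 : 2 ≤ ‖1 - b‖ + ‖-1 - b‖ := by
    have := norm_sub_le (1 - b) (-1 - b)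
    rwa [show 1 - b - (-1 - b) = 2 by ring, Complex.norm_ofNat] at this
  have b2 : 2 * ‖b‖ ≤ ‖1 - b‖ + ‖-1 - b‖ := by
    have := norm_add_le (1 - b) (-1 - b)
    rwa [show 1 - b + (-1 - b) = -(2 * b) by ring, norm_neg, norm_mul, Complex.norm_ofNat] at this
  have c1 := mul_le_mul_of_nonneg_right a1 (norm_nonneg (1 - b))
  have c2 := mul_le_mul_of_nonneg_right a2 (norm_nonneg (-1 - b))
  have := N_crude a b
  have := norm_add_le a b
  nlinarith

lemma abs_int (s : ℝ) (hs : |s| ≤ 2) : ∫ x in (-1 : ℝ)..1, |2 * x - s| = 2 + s ^ 2 / 2 := by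
  have := abs_le.mp hs
  rw [← intervalIntegral.integral_add_adjacent_intervals (b := s / 2)
    (Continuous.intervalIntegrable (by fun_prop) _ _) (Continuous.intervalIntegrable (by fun_prop) _ _),
    intervalIntegral.integral_congr (g := fun x => s - 2 * x) (fun x hx => ?_),
    intervalIntegral.integral_congr (a := s / 2) (g := fun x => 2 * x - s) (fun x hx => ?_),
    intervalIntegral.integral_sub (by simp) (Continuous.intervalIntegrable (by fun_prop) _ _),
    intervalIntegral.integral_sub (Continuous.intervalIntegrable (by fun_prop) _ _) (by simp)]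
  · have k : ∀ a b : ℝ, ∫ x in a..b, (2 * x : ℝ) = b ^ 2 - a ^ 2 := fun a b => by
      rw [intervalIntegral.integral_const_mul (2 : ℝ) (fun x : ℝ => x), integral_id]; ring
    have k1 := k (-1) (s / 2)
    have k2 := k (s / 2) 1
    simp only [intervalIntegral.integral_const, smul_eq_mul]
    linarith
  · rw [uIcc_of_le (by linarith)] at hx
    exact abs_of_nonneg (by linarith [hx.1])
  · rw [uIcc_of_le (by linarith)] at hx
    simp only
    rw [abs_of_nonpos (by linarith [hx.2])]; ring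

lemma thin (a b : ℂ) (ε : ℝ) (ha : |a.im| ≤ ε) (hb : |b.im| ≤ ε) : N a b ≤ (4 + 8 * ε) * D a b := by
  have k : ∀ x ∈ Icc (-1 : ℝ) 1, |(x - a.re) * (x - b.re)| ≤ D a b := fun x hx => by
    refine le_trans ?_ (D_ge a b hx)
    rw [abs_mul, norm_mul]
    exact mul_le_mul (by simpa using Complex.abs_re_le_norm (x - a))
      (by simpa using Complex.abs_re_le_norm (x - b)) (abs_nonneg _) (norm_nonneg _)
  have e0 : 0 ≤ ε := (abs_nonneg _).trans ha
  have h1 := abs_le.mp (k 1 (by norm_num))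
  have h2 := abs_le.mp (k (-1) (by norm_num))
  have dh := D_half a b
  have im : |a.im + b.im| ≤ 2 * ε := (abs_add_le _ _).trans (by linarith)
  by_cases hs : |a.re + b.re| ≤ 2
  · have h3 := abs_le.mp (k ((a.re + b.re) / 2) (by
      have := abs_le.mp hs; constructor <;> linarith))
    have : N a b ≤ ∫ x in (-1 : ℝ)..1, (|2 * x - (a.re + b.re)| + 2 * ε) := by
      refine intervalIntegral.integral_mono_on (by norm_num)
        (Continuous.intervalIntegrable (by fun_prop) _ _)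
        (Continuous.intervalIntegrable (by fun_prop) _ _) fun x _ => ?_
      refine (Complex.norm_le_abs_re_add_abs_im _).trans ?_
      rw [show (2 * (x : ℂ) - (a + b)).re = 2 * x - (a.re + b.re) by simp,
        show (2 * (x : ℂ) - (a + b)).im = -(a.im + b.im) by simp, abs_neg]
      linarith
    rw [intervalIntegral.integral_add (Continuous.intervalIntegrable (by fun_prop) _ _) (by simp),
      abs_int _ hs] at this
    simp only [intervalIntegral.integral_const, smul_eq_mul] at this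
    nlinarith
  · have := N_crude a b
    have h4 := Complex.norm_le_abs_re_add_abs_im (a + b)
    rw [Complex.add_re, Complex.add_im] at h4
    have : |a.re + b.re| ≤ D a b := abs_le.mpr ⟨by nlinarith, by nlinarith⟩
    nlinarith

lemma test : ∃ a b : ℂ, a.im = 1 / 64 ∧ b.im = 1 / 64 ∧ ‖a‖ ≤ 5 ∧ ‖b‖ ≤ 5 ∧
    (4 + 8 * (1 / 100000)) * D a b < N a b := by
  obtain ⟨r, r0, hr⟩ : ∃ r : ℝ, 0 ≤ r ∧ r ^ 2 = 1 / 2 + (1 / 64) ^ 2 :=
    ⟨√_, Real.sqrt_nonneg _, Real.sq_sqrt (by norm_num)⟩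
  have r1 : r ≤ 1 := by nlinarith
  refine ⟨⟨-r, 1 / 64⟩, ⟨r, 1 / 64⟩, rfl, rfl, (Complex.norm_le_abs_re_add_abs_im _).trans ?_,
    (Complex.norm_le_abs_re_add_abs_im _).trans ?_, ?_⟩
  · rw [abs_neg, abs_of_nonneg r0, abs_of_pos (by norm_num)]; linarith
  · rw [abs_of_nonneg r0, abs_of_pos (by norm_num)]; linarith
  have d : D ⟨-r, 1 / 64⟩ ⟨r, 1 / 64⟩ ≤ 1 / 2 + 2 * (1 / 64) ^ 2 := D_le _ _ fun x hx => by
    refine abs_le_of_sq_le_sq' ?_ (by norm_num) |>.2
    rw [Complex.sq_norm, Complex.normSq_apply]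
    simp only [Complex.mul_re, Complex.mul_im, Complex.sub_re, Complex.sub_im, Complex.ofReal_re,
      Complex.ofReal_im]
    have : x ^ 2 ≤ 1 := by nlinarith [hx.1, hx.2]
    rw [show (x - -r) * (x - r) = x ^ 2 - r ^ 2 by ring, hr]
    nlinarith [mul_nonneg (sq_nonneg x) (sub_nonneg.2 this)]
  have i0 : IntervalIntegrable (fun x : ℝ => 2 * x + 2 * (1 / 64) ^ 2 / (2 * x + 1 / 64)) volume 0 1 := by
    refine ContinuousOn.intervalIntegrable (ContinuousOn.add (by fun_prop)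
      (ContinuousOn.div (by fun_prop) (by fun_prop) fun x hx => ?_))
    rw [uIcc_of_le zero_le_one] at hx
    have := hx.1
    positivity
  have i1 : ∫ x in (0 : ℝ)..1, (2 * x + 2 * (1 / 64) ^ 2 / (2 * x + 1 / 64)) =
      1 + (1 / 64) ^ 2 * Real.log 129 := by
    rw [intervalIntegral.integral_eq_sub_of_hasDerivAt
      (f := fun x => x ^ 2 + (1 / 64) ^ 2 * Real.log (128 * x + 1)) (fun x hx => ?_) i0]
    · norm_num
    · rw [uIcc_of_le zero_le_one] at hx
      have := hx.1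
      refine ((hasDerivAt_pow 2 x).add ((((hasDerivAt_id x).const_mul 128).add_const 1).log
        (by simp only [id]; positivity) |>.const_mul _)).congr_deriv ?_
      simp only [id]; field_simp; ring
  have i2 : ∀ g : ℝ → ℝ, Continuous g → (∀ x, 0 ≤ g x ∧ g x ^ 2 = 4 * x ^ 2 + 4 * (1 / 64) ^ 2) →
      1 + (1 / 64) ^ 2 * Real.log 129 ≤ ∫ x in (0 : ℝ)..1, g x := fun g gc hg => by
    rw [← i1]
    refine intervalIntegral.integral_mono_on zero_le_one i0
      (gc.intervalIntegrable _ _) fun x hx => ?_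
    · have := hx.1
      refine (abs_le_of_sq_le_sq' ?_ (hg x).1).2
      obtain ⟨y, hy⟩ : ∃ y, y = 2 * (1 / 64) ^ 2 / (2 * x + 1 / 64) := ⟨_, rfl⟩
      have y0 : 0 ≤ y := by rw [hy]; positivity
      rw [← hy, (hg x).2]
      rw [eq_div_iff (by positivity)] at hy
      nlinarith [mul_nonneg y0 this]
  have hg : ∀ x : ℝ, ‖2 * (x : ℂ) - (⟨-r, 1 / 64⟩ + ⟨r, 1 / 64⟩)‖ ^ 2 = 4 * x ^ 2 + 4 * (1 / 64) ^ 2 :=
    fun x => by
      rw [Complex.sq_norm, Complex.normSq_apply]; simp; ring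
  have j1 := i2 _ (by fun_prop) fun x => ⟨norm_nonneg _, hg x⟩
  have j2 := i2 (fun x => ‖2 * ((-x : ℝ) : ℂ) - (⟨-r, 1 / 64⟩ + ⟨r, 1 / 64⟩)‖) (by fun_prop)
    fun x => ⟨norm_nonneg _, (hg _).trans (by ring)⟩
  rw [intervalIntegral.integral_comp_neg
    (fun x : ℝ => ‖2 * (x : ℂ) - (⟨-r, 1 / 64⟩ + ⟨r, 1 / 64⟩)‖), neg_zero] at j2
  rw [N, ← intervalIntegral.integral_add_adjacent_intervals (b := 0)
    (Continuous.intervalIntegrable (by fun_prop) _ _) (Continuous.intervalIntegrable (by fun_prop) _ _)]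
  have l : 7 * Real.log 2 ≤ Real.log 129 := by
    rw [show (7 : ℝ) = (7 : ℕ) by norm_num, ← Real.log_pow]
    exact Real.log_le_log (by norm_num) (by norm_num)
  have := Real.log_two_gt_d9
  nlinarith

lemma sup_eq (f : ℝ → ℂ) (hf : Continuous f) : eLpNorm f ⊤ (volume.restrict (Icc (-1 : ℝ) 1)) =
    ENNReal.ofReal (sSup ((fun x => ‖f x‖) '' Icc (-1) 1)) := by
  have u : eLpNormEssSup f (volume.restrict (Icc (-1 : ℝ) 1)) ≤
      ENNReal.ofReal (sSup ((fun x => ‖f x‖) '' Icc (-1) 1)) :=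
    eLpNormEssSup_le_of_ae_bound ((ae_restrict_iff' measurableSet_Icc).mpr (Eventually.of_forall
      fun x hx => le_csSup (isCompact_Icc.image hf.norm).bddAbove ⟨x, hx, rfl⟩))
  rw [eLpNorm_exponent_top]
  refine le_antisymm u (ENNReal.ofReal_le_of_le_toReal (csSup_le
    ((nonempty_Icc.mpr (by norm_num)).image _) ?_))
  rintro _ ⟨x, hx, rfl⟩
  refine max_eq_right_iff.mp (Measure.eqOn_Icc_of_ae_eq volume (by norm_num)
    (f := fun x => max ‖f x‖ _) (g := fun _ => _) ?_ (by fun_prop) continuousOn_const hx)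
  filter_upwards [ae_le_eLpNormEssSup (f := f)] with y hy
  refine max_eq_right ?_
  rw [← toReal_enorm]
  exact ENNReal.toReal_mono (ne_top_of_le_ne_top ENNReal.ofReal_ne_top u) hy

lemma ratio (c a b : ℂ) (hc : c ≠ 0) :
    eLpNorm (fun x : ℝ => ((⇑derivative)^[1] (C c * ((X - C a) * (X - C b)))).eval (x : ℂ)) 1
      (volume.restrict (Icc (-1 : ℝ) 1)) /
      eLpNorm (fun x : ℝ => (C c * ((X - C a) * (X - C b))).eval (x : ℂ)) ⊤
      (volume.restrict (Icc (-1 : ℝ) 1)) = ENNReal.ofReal (N a b / D a b) := by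
  have e1 : (fun x : ℝ => ((⇑derivative)^[1] (C c * ((X - C a) * (X - C b)))).eval (x : ℂ)) =
      c • fun x : ℝ => 2 * (x : ℂ) - (a + b) := by
    ext x; simp; exact Or.inl (by ring)
  have e2 : (fun x : ℝ => (C c * ((X - C a) * (X - C b))).eval (x : ℂ)) =
      c • fun x : ℝ => ((x : ℂ) - a) * (x - b) := by
    ext x; simp
  rw [e1, e2, eLpNorm_const_smul, eLpNorm_const_smul, ENNReal.mul_div_mul_left _ _ (by simpa)
    enorm_ne_top, sup_eq _ (by fun_prop), eLpNorm_one_eq_lintegral_enorm,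
    ← ofReal_integral_norm_eq_lintegral_enorm (Continuous.integrableOn_Icc (by fun_prop)),
    ENNReal.ofReal_div_of_pos (by linarith [D_half a b]), N, intervalIntegral.integral_of_le
    (by norm_num), integral_Icc_eq_integral_Ioc]
  rfl

theorem main : ¬ (∀ G : Set ℂ, IsOpen G → Convex ℝ G → Bornology.IsBounded G →
      (∀ x : ℝ, x ∈ Set.Icc (-1 : ℝ) 1 → (x : ℂ) ∈ G) →
      ∀ n k : ℕ, 1 ≤ k → k ≤ n →
      ∀ q : ENNReal, 1 ≤ q →
      ∀ P : Polynomial ℂ, P.natDegree = n → (∀ z ∈ G, P.eval z ≠ 0) →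
        (∀ Q : Polynomial ℂ, Q.natDegree = n → (∀ z ∈ G, Q.eval z ≠ 0) →
          eLpNorm (fun x : ℝ => ((⇑Polynomial.derivative)^[k] Q).eval (x : ℂ)) q
              (volume.restrict (Set.Icc (-1 : ℝ) 1)) /
            eLpNorm (fun x : ℝ => Q.eval (x : ℂ)) ⊤
              (volume.restrict (Set.Icc (-1 : ℝ) 1))
          ≤
          eLpNorm (fun x : ℝ => ((⇑Polynomial.derivative)^[k] P).eval (x : ℂ)) q
              (volume.restrict (Set.Icc (-1 : ℝ) 1)) /
            eLpNorm (fun x : ℝ => P.eval (x : ℂ)) ⊤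
              (volume.restrict (Set.Icc (-1 : ℝ) 1))) →
        ∀ z : ℂ, P.eval z = 0 → z ∈ frontier G) := by
  intro h
  let G : Set ℂ := Ioo (-2) 2 ×ℂ Ioo (-(1 / 100000)) (1 / 100000)
  have Go : IsOpen G := isOpen_Ioo.reProdIm isOpen_Ioo
  let K : Set ℂ := Metric.closedBall 0 5 ∩ Gᶜ
  have Kc : IsCompact K := (isCompact_closedBall _ _).inter_right Go.isClosed_compl
  have D0 : ∀ a b, 0 < D a b := fun a b => by linarith [D_half a b]
  have Rc : Continuous fun p : ℂ × ℂ => N p.1 p.2 / D p.1 p.2 := by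
    refine Continuous.div (intervalIntegral.continuous_parametric_intervalIntegral_of_continuous'
      (by fun_prop) _ _) (isCompact_Icc.continuous_sSup
        (f := fun (p : ℂ × ℂ) (x : ℝ) => ‖((x : ℂ) - p.1) * (x - p.2)‖) ?_) fun p => (D0 _ _).ne'
    exact (show Continuous fun q : (ℂ × ℂ) × ℝ => ‖((q.2 : ℂ) - q.1.1) * (q.2 - q.1.2)‖ by fun_prop)
  obtain ⟨a0, b0, a1, b1, a2, b2, ht⟩ := test
  have m0 : (a0, b0) ∈ K ×ˢ K := ⟨⟨mem_closedBall_zero_iff.mpr a2, fun h => by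
    have := h.2.2; rw [a1] at this; norm_num at this⟩, mem_closedBall_zero_iff.mpr b2, fun h => by
    have := h.2.2; rw [b1] at this; norm_num at this⟩
  obtain ⟨⟨a, b⟩, ⟨ha, hb⟩, hm⟩ := (Kc.prod Kc).exists_isMaxOn ⟨_, m0⟩ Rc.continuousOn
  have lo : 4 + 8 * (1 / 100000) < N a b / D a b := ((lt_div_iff₀ (D0 _ _)).mpr ht).trans_le (hm m0)
  have := h G Go (((convex_Ioo _ _).linear_preimage Complex.reLm).inter
      ((convex_Ioo _ _).linear_preimage Complex.imLm))
    ((Metric.isBounded_Ioo _ _).reProdIm (Metric.isBounded_Ioo _ _))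
    (fun x hx => ⟨⟨by simpa using by linarith [hx.1], by simpa using by linarith [hx.2]⟩, by simp⟩)
    2 1 le_rfl (by norm_num) 1 le_rfl (C 1 * ((X - C a) * (X - C b)))
    (by rw [C_1, one_mul, natDegree_mul (X_sub_C_ne_zero _) (X_sub_C_ne_zero _)]; simp)
    (fun z hz => by
      simp only [eval_mul, eval_C, eval_sub, eval_X, one_mul]
      exact mul_ne_zero (sub_ne_zero.mpr fun e => ha.2 (e ▸ hz))
        (sub_ne_zero.mpr fun e => hb.2 (e ▸ hz))) (fun Q hQ hz => by
      obtain ⟨u, v, e⟩ := Multiset.card_eq_two.mp (IsAlgClosed.card_roots_eq_natDegree.trans hQ)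
      have e2 := (IsAlgClosed.splits Q).eq_prod_roots
      simp only [e, Multiset.insert_eq_cons, Multiset.map_cons, Multiset.map_singleton,
        Multiset.prod_cons, Multiset.prod_singleton] at e2
      have c0 : Q.leadingCoeff ≠ 0 := leadingCoeff_ne_zero.mpr fun e => by simp [e] at hQ
      have hu : u ∉ G := fun h => hz u h (by rw [e2]; simp)
      have hv : v ∉ G := fun h => hz v h (by rw [e2]; simp)
      rw [e2, ratio _ _ _ c0, ratio _ _ _ one_ne_zero]
      refine ENNReal.ofReal_le_ofReal ?_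
      by_cases h1 : 5 ≤ ‖u‖
      · linarith [(div_le_iff₀ (D0 u v)).mpr (big u v h1)]
      by_cases h2 : 5 ≤ ‖v‖
      · have := (div_le_iff₀ (D0 v u)).mpr (big v u h2)
        rw [show N v u = N u v by simp only [N, add_comm],
          show D v u = D u v by simp only [D, mul_comm]] at this
        linarith
      exact hm (a := (u, v)) ⟨⟨mem_closedBall_zero_iff.mpr (not_le.mp h1).le, hu⟩,
        mem_closedBall_zero_iff.mpr (not_le.mp h2).le, hv⟩)
  have cl : ∀ z ∈ frontier G, |z.im| ≤ 1 / 100000 := fun z hz => by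
    have := hz.1
    rw [Complex.closure_reProdIm, closure_Ioo (a := -(1 / 100000 : ℝ)) (by norm_num)] at this
    exact abs_le.mpr this.2
  have := (div_le_iff₀ (D0 a b)).mpr (thin a b _ (cl a (this a (by simp))) (cl b (this b (by simp))))
  linarith

end Pool.Agent.H1.ExtZ
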