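import Mathlib

open Filter Topology Set Finset Polynomial

namespace Pool.Agent.H1.FekA

noncomputable def V {n : ℕ} (w : Fin n → ℂ) : ℝ := ∏ i, ∏ j ∈ Finset.Ioi i, ‖w i - w j‖

lemma V_nn {n : ℕ} (w : Fin n → ℂ) : 0 ≤ V w := by unfold V; positivity

lemma V_sq {n : ℕ} (w : Fin n → ℂ) : V w ^ 2 = ∏ i, ∏ j ∈ univ.erase i, ‖w i - w j‖ := by
  have := Finset.prod_prod_Ioi_mul_eq_prod_prod_off_diag (fun j i : Fin n => ‖w i - w j‖)
  simp only [compl_singleton] at this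
  rw [← this, V, ← Finset.prod_pow]
  refine Finset.prod_congr rfl fun i _ => ?_
  rw [← Finset.prod_pow]
  exact Finset.prod_congr rfl fun j _ => by rw [sq, norm_sub_rev (w j)]

lemma grow {a b : ℝ} (N K : ℕ) (hb : 0 ≤ b)
    (h : ∀ β : ℕ, a ^ β ≤ ((N : ℝ) * β + 1) ^ K * b ^ β) : a ≤ b := by
  by_contra hh
  push Not at hh
  rcases hb.eq_or_lt with rfl | hb
  · have := h 1; simp at this; linarith
  have hr : 1 < a / b := (one_lt_div hb).2 hh
  have h1 := (tendsto_pow_const_div_const_pow_of_one_lt K hr).const_mul (((N : ℝ) + 1) ^ K)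
  rw [mul_zero] at h1
  obtain ⟨β, h2, h3⟩ := ((h1.eventually (gt_mem_nhds one_pos)).and (eventually_ge_atTop 1)).exists
  have h4 : (1 : ℝ) ≤ β := by exact_mod_cast h3
  have h5 : ((N : ℝ) * β + 1) ^ K ≤ ((N : ℝ) + 1) ^ K * β ^ K := by
    rw [← mul_pow]; gcongr; nlinarith
  rw [← mul_div_assoc, div_lt_one (by positivity), div_pow, lt_div_iff₀ (by positivity)] at h2
  have := (h β).trans (mul_le_mul_of_nonneg_right h5 (by positivity))
  linarith

lemma V_le {m : ℕ} (w : Fin m → ℂ) (T : Fin m → ℂ[X]) (h1 : ∀ j, (T j).natDegree = j)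
    (h2 : ∀ j, (T j).Monic) (t : Fin m → ℝ) (h3 : ∀ i j, ‖(T j).eval (w i)‖ ≤ t j) :
    V w ≤ m.factorial * ∏ j, t j := by
  have e1 : V w = ‖(Matrix.vandermonde w).det‖ := by
    rw [Matrix.det_vandermonde, V, norm_prod]
    refine Finset.prod_congr rfl fun i _ => ?_
    rw [norm_prod]
    exact Finset.prod_congr rfl fun j _ => norm_sub_rev _ _
  rw [e1, Matrix.det_eval_matrixOfPolynomials_eq_det_vandermonde w T h1 h2, Matrix.det_apply']
  refine (norm_sum_le _ _).trans ((Finset.sum_le_card_nsmul _ _ (∏ j, t j) fun σ _ => ?_).trans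
    (by simp [Fintype.card_perm]))
  rw [norm_mul, norm_prod]
  have : ‖((Equiv.Perm.sign σ : ℤ) : ℂ)‖ = 1 := by
    rcases Int.units_eq_one_or (Equiv.Perm.sign σ) with h | h <;> simp [h]
  rw [this, one_mul]
  exact Finset.prod_le_prod (fun _ _ => norm_nonneg _) fun j _ => h3 _ j

/-- Chebyshev constants are at least one when the Vandermonde maxima are not exponentially small. -/
lemma cheb {E : Set ℂ} (hE : IsCompact E)
    (hD : ∀ τ : ℝ, 0 < τ → τ < 1 → ∀ᶠ l : ℕ in atTop, ∃ w : Fin (2 * l + 1) → ℂ,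
      (∀ i, w i ∈ E) ∧ τ ^ (l * (2 * l + 1)) ≤ V w)
    (p : ℂ[X]) (hp : p.Monic) (s : ℝ) (hs : s < 1) : ∃ z ∈ E, s < ‖p.eval z‖ := by
  by_contra hh
  push Not at hh
  set k := p.natDegree with hk
  rcases Nat.eq_zero_or_pos k with h0 | h0
  · obtain ⟨l, w, hw, -⟩ := (hD (1 / 2) (by norm_num) (by norm_num)).exists
    have := hh _ (hw 0)
    rw [hp.natDegree_eq_zero.1 h0] at this
    simp at this; linarith
  obtain ⟨R0, hR0⟩ := hE.isBounded.exists_norm_le
  set R := max R0 1 with hR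
  have hm : 0 < max s (1 / 2) := lt_max_of_lt_right (by norm_num)
  set σ : ℝ := (max s (1 / 2)) ^ ((k : ℝ)⁻¹) with hσ
  have s0 : 0 < σ := by positivity
  have s1 : σ < 1 := Real.rpow_lt_one hm.le (max_lt hs (by norm_num)) (by positivity)
  have s2 : s ≤ σ ^ k := by rw [hσ, Real.rpow_inv_natCast_pow hm.le h0.ne']; exact le_max_left _ _
  set C := (R / σ) ^ k with hC
  have hR1 : 1 ≤ R / σ := by rw [le_div_iff₀ s0]; linarith [le_max_right R0 1]
  have key : ∀ m (w : Fin m → ℂ), (∀ i, w i ∈ E) → V w ≤ m.factorial * ∏ j : Fin m, (C * σ ^ j.1) := by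
    intro m w hw
    refine V_le w (fun j => p ^ (j.1 / k) * X ^ (j.1 % k)) (fun j => ?_)
      (fun j => (hp.pow _).mul (monic_X_pow _)) _ fun i j => ?_
    · rw [(hp.pow _).natDegree_mul (monic_X_pow _), hp.natDegree_pow, natDegree_X_pow,
        Nat.div_add_mod']
    · simp only [eval_mul, eval_pow, eval_X, norm_mul, norm_pow]
      have e1 : ‖p.eval (w i)‖ ≤ σ ^ k := (hh _ (hw i)).trans s2
      have e2 : ‖w i‖ ≤ R := (hR0 _ (hw i)).trans (le_max_left _ _)
      calc _ ≤ (σ ^ k) ^ (j.1 / k) * R ^ (j.1 % k) := by gcongr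
        _ = (R / σ) ^ (j.1 % k) * σ ^ j.1 := by
            conv_rhs => rw [← Nat.div_add_mod j.1 k, pow_add, pow_mul]
            rw [Nat.div_add_mod, div_pow]; field_simp
        _ ≤ _ := by
            gcongr
            exact pow_le_pow_right₀ hR1 (Nat.mod_lt _ h0).le
  set τ := (σ + 1) / 2 with hτ
  have hr : 1 < τ / σ := by rw [one_lt_div s0]; linarith
  have h1 := (tendsto_pow_const_div_const_pow_of_one_lt 1 hr).const_mul (3 * C)
  rw [mul_zero] at h1
  obtain ⟨l, ⟨⟨w, hw, h2⟩, h3⟩, h4⟩ := (((hD τ (by linarith) (by linarith)).and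
    (h1.eventually (gt_mem_nhds one_pos))).and (eventually_ge_atTop 1)).exists
  have h5 := h2.trans (key _ w hw)
  have h6 : ∑ j : Fin (2 * l + 1), j.1 = l * (2 * l + 1) := by
    have := Finset.sum_range_id_mul_two (2 * l + 1)
    rw [Fin.sum_univ_eq_sum_range (fun j => j)]
    simp only [Nat.add_sub_cancel] at this
    nlinarith
  rw [Finset.prod_mul_distrib, Finset.prod_const, Finset.prod_pow_eq_pow_sum, h6, card_univ,
    Fintype.card_fin] at h5
  have hC0 : 0 < C := by positivity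
  have h7 : ((2 * l + 1).factorial : ℝ) ≤ (3 * l) ^ (2 * l + 1) := by
    exact_mod_cast (Nat.factorial_le_pow _).trans (Nat.pow_le_pow_left (by omega) _)
  have h8 : (τ ^ l) ^ (2 * l + 1) ≤ (3 * l * C * σ ^ l) ^ (2 * l + 1) := by
    rw [← pow_mul τ, mul_pow, mul_pow _ C, ← pow_mul σ, mul_assoc]
    exact h5.trans (by gcongr)
  have h9 := le_of_pow_le_pow_left₀ (by omega) (by positivity) h8
  rw [← mul_div_assoc, div_lt_one (by positivity), div_pow, lt_div_iff₀ (by positivity)] at h3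
  nlinarith

lemma V_cont (n : ℕ) : Continuous (V : (Fin n → ℂ) → ℝ) := by unfold V; fun_prop

lemma fek {E : Set ℂ} (hE : IsCompact E) (hne : E.Nonempty) (n : ℕ) :
    ∃ x : Fin n → ℂ, (∀ i, x i ∈ E) ∧ ∀ w : Fin n → ℂ, (∀ i, w i ∈ E) → V w ≤ V x := by
  obtain ⟨x, hx, h⟩ := (isCompact_univ_pi fun _ : Fin n => hE).exists_isMaxOn
    (Set.univ_pi_nonempty_iff.2 fun _ => hne) (V_cont n).continuousOn
  exact ⟨x, fun i => hx i trivial, fun w hw => h (fun i _ => hw i)⟩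

lemma V_split {n : ℕ} (w : Fin n → ℂ) (i : Fin n) : V w ^ 2 = (∏ j ∈ univ.erase i, ‖w i - w j‖) ^ 2 *
    ∏ a ∈ univ.erase i, ∏ b ∈ (univ.erase a).erase i, ‖w a - w b‖ := by
  have e : ∏ a ∈ univ.erase i, ∏ j ∈ univ.erase a, ‖w a - w j‖ =
      (∏ a ∈ univ.erase i, ‖w i - w a‖) *
        ∏ a ∈ univ.erase i, ∏ b ∈ (univ.erase a).erase i, ‖w a - w b‖ := by
    rw [← Finset.prod_mul_distrib]
    refine Finset.prod_congr rfl fun a ha => ?_
    rw [← Finset.mul_prod_erase (univ.erase a) (fun j => ‖w a - w j‖) (show i ∈ univ.erase a from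
      mem_erase.2 ⟨(mem_erase.1 ha).1.symm, mem_univ _⟩), norm_sub_rev]
  rw [V_sq, ← Finset.mul_prod_erase univ (fun a => ∏ j ∈ univ.erase a, ‖w a - w j‖) (mem_univ i),
    e, sq, mul_assoc]

lemma nodes {E : Set ℂ} (hE : IsCompact E)
    (hT : ∀ p : ℂ[X], p.Monic → ∀ s : ℝ, s < 1 → ∃ z ∈ E, s < ‖p.eval z‖) (n : ℕ) :
    ∃ x : Fin n → ℂ, (∀ i, x i ∈ E) ∧ ∀ i, 1 ≤ ‖∏ j ∈ univ.erase i, (x i - x j)‖ := by
  have hinf : E.Infinite := by
    intro hf
    obtain ⟨z, hz, h⟩ := hT (∏ e ∈ hf.toFinset, (X - C e))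
      (monic_prod_of_monic _ _ fun e _ => monic_X_sub_C e) 0 one_pos
    rw [eval_prod, Finset.prod_eq_zero (hf.mem_toFinset.2 hz) (by simp)] at h
    simp at h
  obtain ⟨x, hx, hm⟩ := fek hE hinf.nonempty n
  have hpos : 0 < V x := by
    refine lt_of_lt_of_le ?_ (hm (fun i => hinf.natEmbedding E i) fun i => Subtype.prop _)
    refine Finset.prod_pos fun i _ => Finset.prod_pos fun j hj => norm_pos_iff.2 (sub_ne_zero.2 ?_)
    intro h
    have := (hinf.natEmbedding E).injective (Subtype.ext h)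
    exact (Finset.mem_Ioi.1 hj).ne (Fin.ext this)
  refine ⟨x, hx, fun i => le_of_forall_lt fun s hs => ?_⟩
  obtain ⟨z, hz, h⟩ := hT (∏ j ∈ univ.erase i, (X - C (x j)))
    (monic_prod_of_monic _ _ fun e _ => monic_X_sub_C _) s hs
  refine h.trans_le ?_
  have h1 := pow_le_pow_left₀ (V_nn _) (hm (Function.update x i z) fun j => by
    rcases eq_or_ne j i with rfl | hj
    · simpa using hz
    · simpa [hj] using hx j) 2
  have h2 := pow_pos hpos 2
  rw [V_split _ i] at h2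
  rw [V_split _ i, V_split x i] at h1
  have e1 : ∏ a ∈ univ.erase i, ∏ b ∈ (univ.erase a).erase i,
      ‖Function.update x i z a - Function.update x i z b‖ =
      ∏ a ∈ univ.erase i, ∏ b ∈ (univ.erase a).erase i, ‖x a - x b‖ :=
    Finset.prod_congr rfl fun a ha => Finset.prod_congr rfl fun b hb => by
      rw [Function.update_of_ne (mem_erase.1 ha).1, Function.update_of_ne (mem_erase.1 hb).1]
  have e2 : ∏ j ∈ univ.erase i, ‖Function.update x i z i - Function.update x i z j‖ =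
      ∏ j ∈ univ.erase i, ‖z - x j‖ := Finset.prod_congr rfl fun a ha => by
    rw [Function.update_of_ne (mem_erase.1 ha).1, Function.update_self]
  rw [e1, e2] at h1
  have h3 := le_of_mul_le_mul_right h1 (pos_of_mul_pos_right h2 (sq_nonneg _))
  have h4 := le_of_pow_le_pow_left₀ two_ne_zero (by positivity) h3
  simpa [eval_prod, norm_prod] using h4

lemma func {E : Set ℂ} (hE : IsCompact E)
    (hT : ∀ p : ℂ[X], p.Monic → ∀ s : ℝ, s < 1 → ∃ z ∈ E, s < ‖p.eval z‖) (k : ℕ) :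
    ∃ x c : Fin (k + 1) → ℂ, (∀ i, x i ∈ E) ∧ (∀ i, ‖c i‖ ≤ 1) ∧
      ∑ i, c i * x i ^ k = 1 ∧ ∀ e < k, ∑ i, c i * x i ^ e = 0 := by
  obtain ⟨x, h1, h2⟩ := nodes hE hT (k + 1)
  have hinj : Set.InjOn x (univ : Finset (Fin (k + 1))) := by
    intro i _ j _ h
    by_contra hij
    have := h2 i
    rw [Finset.prod_eq_zero (i := j) (mem_erase.2 ⟨Ne.symm hij, mem_univ _⟩) (by simp [h])] at this
    norm_num at this
  have key : ∀ e ≤ k, ∑ i, (∏ j ∈ univ.erase i, (x i - x j))⁻¹ * x i ^ e =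
      if k = e then 1 else 0 := by
    intro e he
    have := Lagrange.coeff_eq_sum hinj (P := X ^ e) (by
      rw [degree_X_pow, card_univ, Fintype.card_fin]; exact_mod_cast Nat.lt_succ_of_le he)
    rw [card_univ, Fintype.card_fin, Nat.add_sub_cancel, coeff_X_pow] at this
    rw [this]
    exact Finset.sum_congr rfl fun i _ => by simp [div_eq_inv_mul]
  refine ⟨x, fun i => (∏ j ∈ univ.erase i, (x i - x j))⁻¹, h1, fun i => ?_, ?_, fun e he => ?_⟩
  · rw [norm_inv]; exact inv_le_one_of_one_le₀ (h2 i)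
  · simpa using key k le_rfl
  · rw [key e he.le, if_neg he.ne']

lemma coeff_le {E : Set ℂ} (hE : IsCompact E)
    (hT : ∀ p : ℂ[X], p.Monic → ∀ s : ℝ, s < 1 → ∃ z ∈ E, s < ‖p.eval z‖) {n D : ℕ}
    (P : MvPolynomial (Fin n) ℂ) (hP : P.IsHomogeneous D) {B : ℝ} (hB0 : 0 ≤ B)
    (hB : ∀ w : Fin n → ℂ, (∀ i, w i ∈ E) → ‖MvPolynomial.eval w P‖ ≤ B) (α : Fin n →₀ ℕ)
    (hα : α ∈ P.support) : (∀ i, α i < D + 1) ∧ ‖P.coeff α‖ ≤ ((D : ℝ) + 1) ^ n * B := by
  have hdeg : ∀ γ ∈ P.support, ∑ i, γ i = D := fun γ hγ => by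
    by_contra h
    exact MvPolynomial.mem_support_iff.1 hγ (hP.coeff_eq_zero (by
      rwa [Finsupp.degree_eq_sum]))
  have hle : ∀ i, α i < D + 1 := fun i => by
    rw [← hdeg α hα]
    exact Nat.lt_succ_of_le (Finset.single_le_sum (f := fun i => α i) (fun _ _ => Nat.zero_le _)
      (mem_univ i))
  refine ⟨hle, ?_⟩
  choose x c h1 h2 h3 h4 using func hE hT
  have key : ∑ ι : (i : Fin n) → Fin (α i + 1), (∏ i, c (α i) (ι i)) *
      MvPolynomial.eval (fun i => x (α i) (ι i)) P = P.coeff α := by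
    simp only [MvPolynomial.eval_eq', Finset.mul_sum]
    rw [Finset.sum_comm]
    have e : ∀ γ : Fin n →₀ ℕ, ∑ ι : (i : Fin n) → Fin (α i + 1), (∏ i, c (α i) (ι i)) *
        (P.coeff γ * ∏ i, x (α i) (ι i) ^ γ i) =
        P.coeff γ * ∏ i, ∑ l, c (α i) l * x (α i) l ^ γ i := by
      intro γ
      rw [Finset.prod_univ_sum, Finset.mul_sum, Fintype.piFinset_univ]
      exact Finset.sum_congr rfl fun ι _ => by rw [Finset.prod_mul_distrib]; ring
    simp only [e]
    rw [Finset.sum_eq_single_of_mem α hα]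
    · simp [h3]
    · intro γ hγ hne
      have : ∃ i, γ i < α i := by
        by_contra hh
        push Not at hh
        have := (Finset.sum_eq_sum_iff_of_le (s := univ) (f := fun i => α i) (g := fun i => γ i)
          fun i _ => hh i).1 (by rw [hdeg α hα, hdeg γ hγ])
        exact hne (Finsupp.ext fun i => (this i (mem_univ i)).symm)
      obtain ⟨i, hi⟩ := this
      rw [Finset.prod_eq_zero (mem_univ i) (h4 _ _ hi), mul_zero]
  rw [← key]
  refine (norm_sum_le _ _).trans ((Finset.sum_le_card_nsmul _ _ B fun ι _ => ?_).trans ?_)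
  · rw [norm_mul, norm_prod]
    exact (mul_le_mul (Finset.prod_le_one (fun _ _ => norm_nonneg _) fun i _ => h2 _ _)
      (hB _ fun i => h1 _ _) (norm_nonneg _) zero_le_one).trans (by simp)
  · rw [nsmul_eq_mul]
    gcongr
    have : (univ : Finset ((i : Fin n) → Fin (α i + 1))).card ≤ (D + 1) ^ n := by
      rw [card_univ, Fintype.card_pi]
      simpa using Finset.prod_le_pow_card univ (fun i => α i + 1) (D + 1) fun i _ => by
        have := hle i; omega
    exact_mod_cast this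

lemma torus {E : Set ℂ} (hE : IsCompact E)
    (hT : ∀ p : ℂ[X], p.Monic → ∀ s : ℝ, s < 1 → ∃ z ∈ E, s < ‖p.eval z‖) {n D : ℕ}
    (P : MvPolynomial (Fin n) ℂ) (hP : P.IsHomogeneous D) {B : ℝ} (hB0 : 0 ≤ B)
    (hB : ∀ w : Fin n → ℂ, (∀ i, w i ∈ E) → ‖MvPolynomial.eval w P‖ ≤ B) (u : Fin n → ℂ)
    (hu : ∀ i, ‖u i‖ = 1) : ‖MvPolynomial.eval u P‖ ≤ ((D : ℝ) + 1) ^ (2 * n) * B := by
  have h := coeff_le hE hT P hP hB0 hB
  rw [MvPolynomial.eval_eq']
  refine (norm_sum_le _ _).trans ((Finset.sum_le_card_nsmul _ _ (((D : ℝ) + 1) ^ n * B)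
    fun γ hγ => ?_).trans ?_)
  · simpa [norm_prod, hu] using (h γ hγ).2
  · rw [nsmul_eq_mul, two_mul, pow_add, mul_assoc]
    gcongr
    have : P.support.card ≤ (Fintype.piFinset fun _ : Fin n => range (D + 1)).card :=
      Finset.card_le_card_of_injOn (fun γ => ⇑γ)
        (fun γ hγ => by simpa [Nat.lt_succ_iff] using (h γ hγ).1)
        fun a _ b _ hab => DFunLike.coe_injective hab
    rw [Fintype.card_piFinset] at this
    simp only [card_range, prod_const, card_univ, Fintype.card_fin] at this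
    exact_mod_cast this

lemma V_torus {E : Set ℂ} (hE : IsCompact E)
    (hT : ∀ p : ℂ[X], p.Monic → ∀ s : ℝ, s < 1 → ∃ z ∈ E, s < ‖p.eval z‖) {n : ℕ} {B : ℝ}
    (hB0 : 0 ≤ B) (hB : ∀ w : Fin n → ℂ, (∀ i, w i ∈ E) → V w ≤ B) (u : Fin n → ℂ)
    (hu : ∀ i, ‖u i‖ = 1) : V u ≤ B := by
  let Q : MvPolynomial (Fin n) ℂ :=
    ∏ i, ∏ j ∈ Finset.Ioi i, (MvPolynomial.X i - MvPolynomial.X j)
  have hQ : Q.IsHomogeneous (∑ i : Fin n, ∑ _j ∈ Finset.Ioi i, 1) :=
    MvPolynomial.IsHomogeneous.prod _ _ _ fun i _ => MvPolynomial.IsHomogeneous.prod _ _ _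
      fun j _ => (MvPolynomial.isHomogeneous_X _ i).sub (MvPolynomial.isHomogeneous_X _ j)
  have hV : ∀ w, ‖MvPolynomial.eval w Q‖ = V w := fun w => by simp [Q, V, norm_prod]
  refine grow (∑ i : Fin n, ∑ _j ∈ Finset.Ioi i, 1) (2 * n) hB0 fun β => ?_
  have := torus hE hT (Q ^ β) (hQ.pow β) (pow_nonneg hB0 β) (fun w hw => by
    rw [map_pow, norm_pow, hV]; exact pow_le_pow_left₀ (V_nn _) (hB w hw) β) u hu
  rwa [map_pow, norm_pow, hV, Nat.cast_mul] at this

lemma V_roots (n : ℕ) (hn : 0 < n) :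
    ∃ u : Fin n → ℂ, (∀ i, ‖u i‖ = 1) ∧ V u ^ 2 = (n : ℝ) ^ n := by
  have hζ := Complex.isPrimitiveRoot_exp n hn.ne'
  set ζ := Complex.exp (2 * Real.pi * Complex.I / n)
  have h1 : ‖ζ‖ = 1 := hζ.norm'_eq_one hn.ne'
  refine ⟨fun i => ζ ^ i.1, fun i => by simp [h1], ?_⟩
  have h2 : Lagrange.nodal univ (fun i : Fin n => ζ ^ i.1) = X ^ n - C 1 := by
    rw [X_pow_sub_C_eq_prod hζ hn (one_pow n), Lagrange.nodal,
      Fin.prod_univ_eq_prod_range (fun i => X - C (ζ ^ i))]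
    simp
  rw [V_sq]
  have h3 : ∀ i : Fin n, ∏ j ∈ univ.erase i, ‖ζ ^ i.1 - ζ ^ j.1‖ = n := by
    intro i
    have := Lagrange.eval_nodal_derivative_eval_node_eq (v := fun i : Fin n => ζ ^ i.1)
      (mem_univ i)
    rw [h2, Lagrange.eval_nodal] at this
    rw [← norm_prod, ← this]
    simp [derivative_X_pow, h1]
  simp [h3]

end Pool.Agent.H1.FekA
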