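import Pool.Agent.H1.KreA

set_option autoImplicit false

namespace Pool.Agent.H1.Gam
open Finset Matrix Pool.Agent.H1.Kre

lemma upper {A : Type} [NormedRing A] [NormedAlgebra ℂ A] [CompleteSpace A] (T : A) (α c : ℝ)
    (hs : spectrum ℂ T ⊆ Metric.closedBall 0 1)
    (hc : ∀ z : ℂ, 1 < ‖z‖ → ‖z‖ ≤ 2 → ‖resolvent T z‖ ≤ c / (‖z‖ - 1) ^ α) (n : ℕ) :
    ‖T ^ n‖ ≤ 3 * c * (1 + n) ^ α := by
  set ρ : ℝ := 1 + 1 / (1 + n) with hρ
  have n0 : (0 : ℝ) < 1 + n := by positivity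
  have h1 : 1 < ρ := by rw [hρ]; linarith [one_div_pos.mpr n0]
  have h2 : ρ ≤ 2 := by
    have : 1 / (1 + (n : ℝ)) ≤ 1 := by rw [div_le_one n0]; linarith [n.cast_nonneg (α := ℝ)]
    linarith
  let r : NNReal := ⟨ρ⁻¹, by positivity⟩
  have hr : (r : ℝ) = ρ⁻¹ := rfl
  have r0 : 0 < r := by rw [← NNReal.coe_pos, hr]; positivity
  have r1 : r < 1 := by rw [← NNReal.coe_lt_coe, hr]; exact inv_lt_one_of_one_lt₀ h1
  have hsr : spectralRadius ℂ T ≤ 1 := by
    refine iSup₂_le fun k hk => ?_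
    have := hs hk
    rw [mem_closedBall_zero_iff] at this
    exact_mod_cast this
  have r2 : (r : ENNReal) < (spectralRadius ℂ T)⁻¹ :=
    lt_of_lt_of_le (by exact_mod_cast r1) (ENNReal.one_le_inv.mpr hsr)
  have H1 := (spectrum.differentiableOn_inverse_one_sub_smul r2).hasFPowerSeriesOnBall r0
  have H2 := spectrum.hasFPowerSeriesOnBall_inverse_one_sub_smul ℂ T
  have H3 := H2.hasFPowerSeriesAt.eq_formalMultilinearSeries H1.hasFPowerSeriesAt
  have H4 : ‖T ^ n‖ = ‖cauchyPowerSeries (fun z : ℂ => Ring.inverse (1 - z • T)) 0 r n‖ := by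
    rw [← H3]; simp
  have hb : ∀ θ : ℝ, ‖Ring.inverse (1 - circleMap 0 r θ • T)‖ ≤ ρ * (c * (1 + n) ^ α) := by
    intro θ
    set w := circleMap 0 r θ with hw
    have w1 : ‖w‖ = ρ⁻¹ := by rw [hw, norm_circleMap_zero, hr, abs_of_pos (by positivity)]
    have w0 : w ≠ 0 := by rw [← norm_pos_iff, w1]; positivity
    have w2 : ‖w⁻¹‖ = ρ := by rw [norm_inv, w1, inv_inv]
    have e1 : 1 - w • T = w • (algebraMap ℂ A w⁻¹ - T) := by
      rw [smul_sub, Algebra.algebraMap_eq_smul_one, smul_smul, mul_inv_cancel₀ w0, one_smul]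
    have m : w⁻¹ ∈ resolventSet ℂ T := by
      by_contra h
      have := hs h
      rw [mem_closedBall_zero_iff, w2] at this
      linarith
    have e2 : Ring.inverse (1 - w • T) = w⁻¹ • resolvent T w⁻¹ := by
      obtain ⟨u, hu⟩ := m
      rw [e1, resolvent, ← hu, Ring.inverse_unit]
      have : w • (u : A) = ((Units.mk0 w w0 • u : Aˣ) : A) := rfl
      rw [this, Ring.inverse_unit]
      rfl
    rw [e2, norm_smul, w2]
    refine mul_le_mul_of_nonneg_left ((hc _ (by rw [w2]; exact h1) (by rw [w2]; exact h2)).trans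
      (le_of_eq ?_)) (by positivity)
    rw [w2, hρ, add_sub_cancel_left, one_div, Real.inv_rpow n0.le, div_inv_eq_mul]
  have hc0 : 0 ≤ ρ * (c * (1 + n) ^ α) := (norm_nonneg _).trans (hb 0)
  have hI : ∫ θ : ℝ in 0..2 * Real.pi, ‖Ring.inverse (1 - circleMap 0 r θ • T)‖ ≤
      2 * Real.pi * (ρ * (c * (1 + n) ^ α)) := by
    have := intervalIntegral.norm_integral_le_of_norm_le_const (a := 0) (b := 2 * Real.pi)
      (f := fun θ : ℝ => ‖Ring.inverse (1 - circleMap 0 r θ • T)‖) (C := ρ * (c * (1 + n) ^ α))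
      (fun θ _ => by simpa using hb θ)
    rw [sub_zero, abs_of_pos Real.two_pi_pos] at this
    exact (le_abs_self _).trans (this.trans (le_of_eq (mul_comm _ _)))
  rw [H4]
  refine (norm_cauchyPowerSeries_le _ _ _ _).trans ?_
  have e3 : |(r : ℝ)|⁻¹ = ρ := by rw [hr, abs_of_pos (by positivity), inv_inv]
  rw [e3]
  have h5 : (2 * Real.pi)⁻¹ * ∫ θ : ℝ in 0..2 * Real.pi,
      ‖Ring.inverse (1 - circleMap 0 r θ • T)‖ ≤ ρ * (c * (1 + n) ^ α) := by
    rw [inv_mul_le_iff₀ Real.two_pi_pos]; exact hI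
  have h6 : ρ ^ (n + 1) ≤ 3 := by
    have a1 : ρ ≤ Real.exp (1 / (1 + n)) := by rw [hρ, add_comm]; exact Real.add_one_le_exp _
    have a2 := pow_le_pow_left₀ (by linarith) a1 (n + 1)
    rw [← Real.exp_nat_mul] at a2
    push_cast at a2
    rw [add_comm (n : ℝ), mul_one_div_cancel n0.ne'] at a2
    linarith [Real.exp_one_lt_d9]
  have h7 : 0 ≤ c * (1 + n) ^ α := (mul_nonneg_iff_of_pos_left (by linarith)).mp hc0
  calc _ ≤ ρ * (c * (1 + n) ^ α) * ρ ^ n := mul_le_mul_of_nonneg_right h5 (by positivity)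
    _ = ρ ^ (n + 1) * (c * (1 + n) ^ α) := by ring
    _ ≤ 3 * (c * (1 + n) ^ α) := mul_le_mul_of_nonneg_right h6 h7
    _ = _ := by ring

noncomputable abbrev BB (N : ℕ) (a : ℝ) : EuclideanSpace ℂ (Fin N) →L[ℂ] EuclideanSpace ℂ (Fin N) :=
  toEuclideanCLM (n := Fin N) (𝕜 := ℂ) (AA N a 1)

lemma resAA (N : ℕ) (a : ℝ) (z : ℂ) (z0 : z ≠ 0) : z ∈ resolventSet ℂ (BB N a) ∧
    ∃ R : Matrix (Fin N) (Fin N) ℂ, resolvent (BB N a) z = toEuclideanCLM (n := Fin N) (𝕜 := ℂ) R ∧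
      ∀ i j : Fin N, ‖R i j‖ =
        if (i : ℕ) ≤ j then ‖z‖⁻¹ ^ (j - i + 1 : ℕ) * (tt N j ^ a / tt N i ^ a) else 0 := by
  set Φ := toEuclideanCLM (n := Fin N) (𝕜 := ℂ)
  set R := z⁻¹ • ∑ n ∈ range N, (z⁻¹ • AA N a 1) ^ n with hR
  have n0 : (z⁻¹ • AA N a 1) ^ N = 0 := by
    rw [smul_pow, AA_pow]; ext i j
    rw [Matrix.smul_apply, AA, if_neg (by omega), smul_zero, Matrix.zero_apply]
  have e0 : algebraMap ℂ _ z - AA N a 1 = z • (1 - z⁻¹ • AA N a 1) := by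
    rw [smul_sub, smul_smul, mul_inv_cancel₀ z0, one_smul, Algebra.algebraMap_eq_smul_one]
  have e1 : (algebraMap ℂ _ z - Φ (AA N a 1)) * Φ R = 1 := by
    rw [← AlgHomClass.commutes Φ, ← map_sub, ← map_mul, e0, hR, smul_mul_smul_comm, mul_neg_geom_sum,
      n0, mul_inv_cancel₀ z0, one_smul, sub_zero, map_one]
  have e2 : Φ R * (algebraMap ℂ _ z - Φ (AA N a 1)) = 1 := by
    rw [← AlgHomClass.commutes Φ, ← map_sub, ← map_mul, e0, hR, smul_mul_smul_comm, geom_sum_mul_neg,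
      n0, inv_mul_cancel₀ z0, one_smul, sub_zero, map_one]
  have m := spectrum.mem_resolventSet_of_left_right_inverse e1 e2
  refine ⟨m, R, ?_, fun i j => ?_⟩
  · rw [spectrum.resolvent_eq m, Units.inv_eq_of_mul_eq_one_right e1]
  · have e3 : R i j = if (i : ℕ) ≤ j then z⁻¹ ^ (j - i + 1 : ℕ) * ((tt N j ^ a / tt N i ^ a : ℝ) : ℂ)
        else 0 := by
      simp only [hR, smul_pow, AA_pow, Matrix.smul_apply, Matrix.sum_apply, AA, smul_eq_mul]
      split_ifs with h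
      · rw [sum_eq_single (j - i : ℕ) (fun n _ hn => by rw [if_neg (by omega), mul_zero])
          (fun hn => absurd (mem_range.2 (by omega)) hn), if_pos (by omega), pow_succ', mul_assoc]
      · rw [sum_eq_zero fun n _ => by rw [if_neg (by omega), mul_zero], mul_zero]
    rw [e3]
    split_ifs with h
    · rw [norm_mul, norm_pow, norm_inv, Complex.norm_real, Real.norm_of_nonneg (div_pos
            (Real.rpow_pos_of_pos (tt0 j.2) a) (Real.rpow_pos_of_pos (tt0 i.2) a)).le]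
    · simp

lemma powAA (n : ℕ) (a : ℝ) : (1 + n : ℝ) ^ (2 * a) ≤ ‖BB (n + 1) a ^ n‖ := by
  rw [BB, ← map_pow, AA_pow]
  have N0 : (0 : ℝ) < n + 1 := by positivity
  have a1 := (toEuclideanCLM (n := Fin (n + 1)) (𝕜 := ℂ) (AA (n + 1) a n)).le_opNorm
    (EuclideanSpace.single ⟨n, by omega⟩ 1)
  rw [PiLp.norm_single, norm_one, mul_one] at a1
  refine le_trans (le_of_eq ?_) ((PiLp.norm_apply_le _ ⟨0, by omega⟩).trans a1)
  simp only [ofLp_toEuclideanCLM, PiLp.ofLp_single, mulVec_single_one, col_apply, AA, zero_add,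
    if_true, Complex.norm_real, tt]
  rw [two_mul, add_comm (1 : ℝ), Real.rpow_add N0]
  norm_num [Real.inv_rpow N0.le, abs_of_pos (Real.rpow_pos_of_pos N0 a)]

lemma bd1 {a : ℝ} (h0 : 0 < a) (h1 : a < 1 / 2) (N : ℕ) (z : ℂ) (hz : 1 < ‖z‖) :
    (‖z‖ - 1) * ‖resolvent (BB N a) z‖ ≤ 1 + 8 * a / (1 / 4 - a / 2) := by
  obtain ⟨-, R, hR, e3⟩ := resAA N a z (by rintro rfl; norm_num at hz)
  rw [hR, ← Real.norm_of_nonneg (sub_pos.2 hz).le, ← Complex.norm_real, ← norm_smul, ← map_smul]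
  have δ0 : 0 < 1 / 4 - a / 2 := by linarith
  refine schur _ (fun i j => PP ‖z‖ i j + HH N a i j j) (fun i j => PP ‖z‖ i j + HH N a i j i)
    (by positivity) (fun i j u v hu hv => ?_) (fun i hi => ?_) (fun j hj => ?_)
  · rw [Matrix.smul_apply, norm_smul, e3]
    split_ifs with h
    · refine le_trans (le_of_eq ?_) (ent h0 h1 hz j.2 h hu hv)
      rw [Complex.norm_real, Real.norm_of_nonneg (sub_pos.2 hz).le]
    · simp [PP, HH, h, show ¬(i : ℕ) < j by omega]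
  · rw [sum_add_distrib]; exact add_le_add (PP_row hz N i) (HH_row h0 h1 hi)
  · rw [sum_add_distrib]; exact add_le_add (PP_col hz N j) (HH_col h0 h1 hj)

lemma amgm {T l m u v : ℝ} (hl : 0 ≤ l) (hm : 0 ≤ m) (h : T ^ 2 ≤ l * m) :
    2 * T * (u * v) ≤ l * u ^ 2 + m * v ^ 2 := by
  refine le_trans (le_abs_self _) (abs_le_of_sq_le_sq ?_ (by positivity))
  have := mul_le_mul_of_nonneg_right h (sq_nonneg (u * v))
  nlinarith [sq_nonneg (l * u ^ 2 - m * v ^ 2)]

lemma one_add_rpow {x a : ℝ} (hx : 0 ≤ x) (ha : 0 ≤ a) : (1 + x) ^ a ≤ 2 ^ a * (1 + x ^ a) := by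
  rcases le_total x 1 with h | h
  · have := Real.rpow_le_rpow (by positivity) (show 1 + x ≤ 2 by linarith) ha
    nlinarith [Real.rpow_nonneg hx a, Real.rpow_pos_of_pos two_pos a]
  · have := Real.rpow_le_rpow (by positivity) (show 1 + x ≤ 2 * x by linarith) ha
    rw [Real.mul_rpow zero_le_two hx] at this
    nlinarith [Real.rpow_pos_of_pos two_pos a]

lemma ent2 {a δ ρ m I J E u v : ℝ} (ha : 1 ≤ 2 * a) (d0 : 0 < δ) (d1 : δ ≤ 1) (hρ : 0 ≤ ρ)
    (hm : 0 ≤ m) (hI : 0 < I) (hJ : 0 < J) (hE : (δ * m) ^ (2 * a) * ρ ≤ E) (hu : 0 ≤ u)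
    (hv : 0 ≤ v) :
    2 * (δ ^ (2 * a) * (ρ * ((1 + m / I) * (1 + m / J)) ^ a)) * (u * v) ≤
      4 ^ a * (2 * (δ * ρ) + 2 * E * J ^ (-(2 * a))) * u ^ 2 +
        4 ^ a * (2 * (δ * ρ) + 2 * E * I ^ (-(2 * a))) * v ^ 2 := by
  have a0 : 0 ≤ a := by linarith
  set D := δ ^ a with hD
  set X := (δ * m) ^ a with hX
  set p := I ^ (-a) with hp
  set q := J ^ (-a) with hq
  have D0 : 0 ≤ D := by positivity
  have X0 : 0 ≤ X := by positivity
  have p0 : 0 ≤ p := by positivity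
  have q0 : 0 ≤ q := by positivity
  have sq : ∀ y : ℝ, 0 ≤ y → ∀ b : ℝ, y ^ (2 * b) = (y ^ b) ^ 2 := fun y hy b => by
    rw [mul_comm, Real.rpow_mul hy]; norm_num
  have e1 : δ ^ (2 * a) = D ^ 2 := sq δ d0.le a
  have e2 : (δ * m) ^ (2 * a) = X ^ 2 := sq _ (by positivity) a
  have e3 : I ^ (-(2 * a)) = p ^ 2 := by rw [← mul_neg]; exact sq _ hI.le _
  have e4 : J ^ (-(2 * a)) = q ^ 2 := by rw [← mul_neg]; exact sq _ hJ.le _
  have e5 : D * (m / I) ^ a = X * p := by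
    rw [hD, hX, hp, Real.div_rpow hm hI.le, Real.mul_rpow d0.le hm, Real.rpow_neg hI.le]; ring
  have e6 : D * (m / J) ^ a = X * q := by
    rw [hD, hX, hq, Real.div_rpow hm hJ.le, Real.mul_rpow d0.le hm, Real.rpow_neg hJ.le]; ring
  have e7 : (4 : ℝ) ^ a = 2 ^ a * 2 ^ a := by
    rw [← Real.mul_rpow zero_le_two zero_le_two]; norm_num
  have hD1 : D ^ 2 ≤ δ := by
    rw [← e1]
    simpa using Real.rpow_le_rpow_of_exponent_ge d0 d1 ha
  rw [e2] at hE
  have E0 : 0 ≤ E := le_trans (by positivity) hE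
  have b1 : D ^ 2 * ((1 + m / I) * (1 + m / J)) ^ a ≤ 4 ^ a * ((D + X * p) * (D + X * q)) := by
    rw [Real.mul_rpow (by positivity) (by positivity), e7, ← e5, ← e6]
    have := mul_le_mul (one_add_rpow (x := m / I) (by positivity) a0)
      (one_add_rpow (x := m / J) (by positivity) a0) (by positivity) (by positivity)
    have := mul_le_mul_of_nonneg_left this (sq_nonneg D)
    linarith
  have t0 : D ^ 2 * ρ ≤ δ * ρ := mul_le_mul_of_nonneg_right hD1 hρ
  have t5 : (D ^ 2 * ρ) * (X ^ 2 * ρ) ≤ δ * ρ * E := mul_le_mul t0 hE (by positivity) (by positivity)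
  have t1 : 2 * (D ^ 2 * ρ) * (u * v) ≤ δ * ρ * u ^ 2 + δ * ρ * v ^ 2 :=
    amgm (by positivity) (by positivity) (by
      rw [pow_two]; exact mul_le_mul t0 t0 (by positivity) (by positivity))
  have t2 : 2 * (D * X * ρ * p) * (u * v) ≤ δ * ρ * u ^ 2 + E * p ^ 2 * v ^ 2 :=
    amgm (by positivity) (by positivity) (by
      have := mul_le_mul_of_nonneg_right t5 (sq_nonneg p)
      linarith)
  have t3 : 2 * (D * X * ρ * q) * (u * v) ≤ E * q ^ 2 * u ^ 2 + δ * ρ * v ^ 2 :=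
    amgm (by positivity) (by positivity) (by
      have := mul_le_mul_of_nonneg_right t5 (sq_nonneg q)
      linarith)
  have t4 : 2 * (X ^ 2 * ρ * (p * q)) * (u * v) ≤ E * q ^ 2 * u ^ 2 + E * p ^ 2 * v ^ 2 :=
    amgm (by positivity) (by positivity) (by
      have := mul_le_mul_of_nonneg_right (mul_le_mul hE hE (by positivity) E0) (sq_nonneg (p * q))
      linarith)
  rw [e1, e3, e4]
  have b2 := mul_le_mul_of_nonneg_right b1 (show 0 ≤ 2 * ρ * (u * v) by positivity)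
  have b3 : (D + X * p) * (D + X * q) * (2 * ρ * (u * v)) ≤
      (2 * (δ * ρ) + 2 * E * q ^ 2) * u ^ 2 + (2 * (δ * ρ) + 2 * E * p ^ 2) * v ^ 2 := by
    linarith
  have b4 := mul_le_mul_of_nonneg_left b3 (show (0 : ℝ) ≤ 4 ^ a by positivity)
  linarith

lemma decay (b : ℝ) (hb : 0 ≤ b) : ∃ E : ℝ, 0 ≤ E ∧ ∀ δ : ℝ, 0 < δ → δ ≤ 1 → ∀ m : ℕ,
    (δ * m) ^ b * (1 + δ)⁻¹ ^ (m + 1) ≤ E := by
  obtain ⟨k, hk⟩ := exists_nat_ge b
  refine ⟨2 ^ k * k.factorial, by positivity, fun δ d0 d1 m => ?_⟩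
  set x := δ * m with hx
  have x0 : 0 ≤ x := by positivity
  have h1 : Real.exp (x / 2) ≤ (1 + δ) ^ (m + 1) := by
    have a1 : Real.exp (δ / 2) ≤ 1 + δ := by
      have := Real.one_sub_le_exp_neg (δ / 2)
      rw [Real.exp_neg, le_inv_comm₀ (by linarith) (Real.exp_pos _)] at this
      refine this.trans ?_
      rw [inv_le_iff_one_le_mul₀ (by linarith)]
      nlinarith
    have a2 := pow_le_pow_left₀ (Real.exp_pos _).le a1 m
    rw [← Real.exp_nat_mul] at a2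
    rw [show x / 2 = m * (δ / 2) by rw [hx]; ring]
    exact a2.trans (pow_le_pow_right₀ (by linarith) m.le_succ)
  have h2 : x ^ b ≤ 2 ^ k * k.factorial * Real.exp (x / 2) := by
    have f1 : (1 : ℝ) ≤ 2 ^ k * k.factorial := one_le_mul_of_one_le_of_one_le
      (one_le_pow₀ one_le_two) (by exact_mod_cast k.factorial_pos)
    rcases le_total x 1 with h | h
    · exact (Real.rpow_le_one x0 h hb).trans (one_le_mul_of_one_le_of_one_le f1
        (Real.one_le_exp (by positivity)))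
    · have a1 := Real.rpow_le_rpow_of_exponent_le h hk
      rw [Real.rpow_natCast] at a1
      have a2 := Real.pow_div_factorial_le_exp (x / 2) (by positivity) k
      rw [div_le_iff₀ (by positivity), div_pow, div_le_iff₀ (by positivity)] at a2
      linarith
  rw [inv_pow, ← div_eq_mul_inv, div_le_iff₀ (by positivity)]
  exact h2.trans (mul_le_mul_of_nonneg_left h1 (by positivity))

lemma bd2 {a : ℝ} (ha : 1 < 2 * a) : ∃ C : ℝ, 0 ≤ C ∧ ∀ (N : ℕ) (z : ℂ) (δ : ℝ), 0 < δ → δ ≤ 1 →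
    1 + δ ≤ ‖z‖ → δ ^ (2 * a) * ‖resolvent (BB N a) z‖ ≤ C := by
  obtain ⟨E, E0, hE⟩ := decay (2 * a) (by linarith)
  have hs : Summable fun n : ℕ => ((n : ℝ) + 1) ^ (-(2 * a)) := by
    have := (summable_nat_add_iff 1).mpr (Real.summable_nat_rpow.mpr (show -(2 * a) < -1 by linarith))
    simpa using this
  set ζ := ∑' n : ℕ, ((n : ℝ) + 1) ^ (-(2 * a)) with hζ
  have z1 : ∀ N, ∑ i ∈ range N, ((i : ℝ) + 1) ^ (-(2 * a)) ≤ ζ := fun N =>
    hs.sum_le_tsum _ fun _ _ => by positivity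
  have z2 : ∀ N, ∑ j ∈ range N, ((N : ℝ) - j) ^ (-(2 * a)) ≤ ζ := fun N => by
    refine le_trans (le_of_eq ?_) (z1 N)
    rw [← sum_range_reflect]
    refine sum_congr rfl fun j hj => ?_
    have := mem_range.1 hj
    rw [Nat.sub_sub, Nat.cast_sub (by omega)]
    push_cast; ring_nf
  have ζ0 : 0 ≤ ζ := by simpa using z1 0
  refine ⟨4 ^ a * (2 + 2 * E * ζ), by positivity, fun N z δ d0 d1 hz => ?_⟩
  obtain ⟨-, R, hR, e3⟩ := resAA N a z (by rintro rfl; simp at hz; linarith)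
  have hδ : 0 ≤ δ ^ (2 * a) := by positivity
  rw [hR, ← Real.norm_of_nonneg hδ, ← Complex.norm_real, ← norm_smul, ← map_smul]
  have r1 : 1 < 1 + δ := by linarith
  refine schur _ (fun i j => 4 ^ a * (2 * PP (1 + δ) i j + 2 * E * ((N : ℝ) - j) ^ (-(2 * a))))
    (fun i j => 4 ^ a * (2 * PP (1 + δ) i j + 2 * E * ((i : ℝ) + 1) ^ (-(2 * a))))
    (by positivity) (fun i j u v hu hv => ?_) (fun i hi => ?_) (fun j hj => ?_)
  · have s1 := sub0 j.2
    have s2 := sub0 i.2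
    rw [Matrix.smul_apply, norm_smul, e3, PP]
    split_ifs with h
    · have := ent2 (a := a) (ρ := (1 + δ)⁻¹ ^ (j - i + 1 : ℕ)) (I := (i : ℝ) + 1) (J := (N : ℝ) - j)
        ha.le d0 d1 (by positivity) (Nat.cast_nonneg (j - i : ℕ)) (by positivity) (by linarith)
        (hE δ d0 d1 (j - i)) hu hv
      rw [add_sub_cancel_left]
      refine le_trans ?_ this
      rw [Complex.norm_real, Real.norm_of_nonneg hδ]
      have e4 : tt N j ^ a / tt N i ^ a = ((1 + ((j - i : ℕ) : ℝ) / ((i : ℝ) + 1)) *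
          (1 + ((j - i : ℕ) : ℝ) / ((N : ℝ) - j))) ^ a := by
        rw [← Real.div_rpow (tt0 j.2).le (tt0 i.2).le, Nat.cast_sub h]
        congr 1
        have : (N : ℝ) - i ≠ 0 := by linarith
        have : (N : ℝ) - j ≠ 0 := by linarith
        rw [tt, tt]; field_simp; ring
      rw [e4]
      have : 0 ≤ 1 + ((j - i : ℕ) : ℝ) / ((N : ℝ) - j) := by
        have : 0 ≤ ((j - i : ℕ) : ℝ) / ((N : ℝ) - j) := div_nonneg (by positivity) (by linarith)
        linarith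
      gcongr
    · have : 0 ≤ ((N : ℝ) - j) ^ (-(2 * a)) := Real.rpow_nonneg (by linarith) _
      simp only [mul_zero, zero_mul, zero_add]
      positivity
  · rw [← mul_sum, sum_add_distrib, ← mul_sum, ← mul_sum]
    have := PP_row r1 N i
    have := mul_le_mul_of_nonneg_left (z2 N) (show 0 ≤ 2 * E by positivity)
    exact mul_le_mul_of_nonneg_left (by linarith) (by positivity)
  · rw [← mul_sum, sum_add_distrib, ← mul_sum, ← mul_sum]
    have := PP_col r1 N j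
    have := mul_le_mul_of_nonneg_left (z1 N) (show 0 ≤ 2 * E by positivity)
    exact mul_le_mul_of_nonneg_left (by linarith) (by positivity)

end Pool.Agent.H1.Gam
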