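import Pool.Agent.H1.GamA

set_option autoImplicit false

namespace Pool.Agent.H1.Gam
open Finset

abbrev EE (n : ℕ) := EuclideanSpace ℂ (Fin (n + 1))
noncomputable abbrev HS := lp EE 2

lemma exists_diag (A : ∀ n, EE n →L[ℂ] EE n) (C : ℝ) (hC : 0 ≤ C) (h : ∀ n, ‖A n‖ ≤ C) :
    ∃ T : HS →L[ℂ] HS, ‖T‖ ≤ C ∧ ∀ x n, T x n = A n (x n) := by
  have hb : ∀ (x : HS) n, ‖A n (x n)‖ ≤ ‖((C : ℂ) • x) n‖ := fun x n => by
    rw [lp.coeFn_smul, Pi.smul_apply, norm_smul, Complex.norm_real, Real.norm_of_nonneg hC]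
    exact ((A n).le_opNorm _).trans (mul_le_mul_of_nonneg_right (h n) (norm_nonneg _))
  let G : HS →ₗ[ℂ] HS :=
    { toFun := fun x => ⟨fun n => A n (x n), (lp.memℓp ((C : ℂ) • x)).mono' (hb x)⟩
      map_add' := fun x y => Subtype.ext (funext fun n => (A n).map_add _ _)
      map_smul' := fun c x => Subtype.ext (funext fun n => (A n).map_smul _ _) }
  have h2 : ∀ x, ‖G x‖ ≤ C * ‖x‖ := fun x => by
    have := lp.norm_mono (p := 2) (by norm_num) (x := G x) (y := (C : ℂ) • x) (hb x)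
    rwa [norm_smul, Complex.norm_real, Real.norm_of_nonneg hC] at this
  exact ⟨G.mkContinuous C h2, G.mkContinuous_norm_le hC h2, fun _ _ => rfl⟩

lemma dsum (A : ∀ n, EE n →L[ℂ] EE n) (α c β : ℝ) (hc : 0 < c)
    (h1 : ∀ n (z : ℂ), 1 < ‖z‖ → z ∈ resolventSet ℂ (A n))
    (h2 : ∀ n (z : ℂ), 1 < ‖z‖ → ‖z‖ ≤ 2 → ‖resolvent (A n) z‖ ≤ c / (‖z‖ - 1) ^ α)
    (h3 : ∀ n (z : ℂ), 2 < ‖z‖ → ‖resolvent (A n) z‖ ≤ c)
    (h4 : ∀ n : ℕ, (1 + n : ℝ) ^ β ≤ ‖A n ^ n‖) :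
    ∃ T : HS →L[ℂ] HS, (spectrum ℂ T ⊆ Metric.closedBall 0 1 ∧ ∃ c : ℝ, 0 < c ∧
      ∀ z : ℂ, 1 < ‖z‖ → ‖z‖ ≤ 2 → ‖resolvent T z‖ ≤ c / (‖z‖ - 1) ^ α) ∧
      ∀ n : ℕ, (1 + n : ℝ) ^ β ≤ ‖T ^ n‖ := by
  have hb : ∀ n, ‖A n‖ ≤ 3 * c * (1 + (1 : ℕ)) ^ α := fun n => by
    have := upper (A n) α c (fun z hz => by
      by_contra h
      rw [mem_closedBall_zero_iff, not_le] at h
      exact hz (h1 n z h)) (h2 n) 1
    rwa [pow_one] at this
  obtain ⟨T, -, hT⟩ := exists_diag A _ (by positivity) hb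
  have key : ∀ (z : ℂ) (K : ℝ), 1 < ‖z‖ → 0 ≤ K → (∀ n, ‖resolvent (A n) z‖ ≤ K) →
      z ∈ resolventSet ℂ T ∧ ‖resolvent T z‖ ≤ K := by
    intro z K hz hK hR
    obtain ⟨R, hR1, hR2⟩ := exists_diag (fun n => resolvent (A n) z) K hK hR
    have e0 : ∀ (x : HS) n, ((algebraMap ℂ (HS →L[ℂ] HS) z - T) x) n =
        (algebraMap ℂ (EE n →L[ℂ] EE n) z - A n) (x n) := fun x n => by
      simp [Algebra.algebraMap_eq_smul_one, hT]
    have e1 : (algebraMap ℂ _ z - T) * R = 1 := by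
      refine ContinuousLinearMap.ext fun x => lp.ext (funext fun n => ?_)
      rw [mul_apply_eq_comp, e0, hR2, ← mul_apply_eq_comp, resolvent,
        Ring.mul_inverse_cancel _ (h1 n z hz)]
      rfl
    have e2 : R * (algebraMap ℂ _ z - T) = 1 := by
      refine ContinuousLinearMap.ext fun x => lp.ext (funext fun n => ?_)
      rw [mul_apply_eq_comp, hR2, e0, ← mul_apply_eq_comp, resolvent,
        Ring.inverse_mul_cancel _ (h1 n z hz)]
      rfl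
    have m := spectrum.mem_resolventSet_of_left_right_inverse e1 e2
    refine ⟨m, ?_⟩
    rwa [spectrum.resolvent_eq m, Units.inv_eq_of_mul_eq_one_right e1]
  refine ⟨T, ⟨fun z hz => ?_, c, hc, fun z hz hz2 => (key z _ hz (div_nonneg hc.le
    (Real.rpow_nonneg (by linarith) _)) fun n => h2 n z hz hz2).2⟩, fun n => (h4 n).trans ?_⟩
  · by_contra h
    rw [mem_closedBall_zero_iff, not_le] at h
    rcases le_or_gt ‖z‖ 2 with h' | h'
    · exact hz (key z _ h (div_nonneg hc.le (Real.rpow_nonneg (by linarith) _))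
        fun n => h2 n z h h').1
    · exact hz (key z c h hc.le fun n => h3 n z h').1
  · have hp : ∀ k (x : HS) n, ((T ^ k) x) n = (A n ^ k) (x n) := by
      intro k
      induction k with
      | zero => intro x n; rfl
      | succ k ih => intro x n; rw [pow_succ', pow_succ', mul_apply_eq_comp, hT, ih]; rfl
    refine ContinuousLinearMap.opNorm_le_bound _ (norm_nonneg _) fun y => ?_
    have a1 := (T ^ n).le_opNorm (lp.single 2 n y)
    rw [lp.norm_single (by norm_num)] at a1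
    have a2 := lp.norm_apply_le_norm (p := 2) (by norm_num) ((T ^ n) (lp.single 2 n y)) n
    rw [hp, lp.single_apply_self] at a2
    exact a2.trans a1

lemma ex2 {α : ℝ} (hα : 1 < α) :
    ∃ T : HS →L[ℂ] HS, (spectrum ℂ T ⊆ Metric.closedBall 0 1 ∧ ∃ c : ℝ, 0 < c ∧
      ∀ z : ℂ, 1 < ‖z‖ → ‖z‖ ≤ 2 → ‖resolvent T z‖ ≤ c / (‖z‖ - 1) ^ α) ∧
      ∀ n : ℕ, (1 + n : ℝ) ^ α ≤ ‖T ^ n‖ := by
  have e : 2 * (α / 2) = α := by ring
  obtain ⟨C, C0, hC⟩ := bd2 (a := α / 2) (by linarith)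
  rw [e] at hC
  refine dsum (fun n => BB (n + 1) (α / 2)) α (C + 1) α (by linarith)
    (fun n z hz => (resAA _ _ z (by rintro rfl; norm_num at hz)).1) (fun n z hz hz2 => ?_)
    (fun n z hz => ?_) (fun n => by simpa only [e] using powAA n (α / 2))
  · rw [le_div_iff₀ (Real.rpow_pos_of_pos (by linarith) _), mul_comm]
    linarith [hC (n + 1) z (‖z‖ - 1) (by linarith) (by linarith) (by linarith)]
  · have := hC (n + 1) z 1 one_pos le_rfl (by linarith)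
    rw [Real.one_rpow, one_mul] at this
    linarith

lemma ex1 {β : ℝ} (h0 : 0 < β) (h1 : β < 1) :
    ∃ T : HS →L[ℂ] HS, (spectrum ℂ T ⊆ Metric.closedBall 0 1 ∧ ∃ c : ℝ, 0 < c ∧
      ∀ z : ℂ, 1 < ‖z‖ → ‖z‖ ≤ 2 → ‖resolvent T z‖ ≤ c / (‖z‖ - 1) ^ (1 : ℝ)) ∧
      ∀ n : ℕ, (1 + n : ℝ) ^ β ≤ ‖T ^ n‖ := by
  have e : 2 * (β / 2) = β := by ring
  have hC := bd1 (a := β / 2) (by linarith) (by linarith)
  have : 0 < 1 / 4 - β / 2 / 2 := by linarith
  refine dsum (fun n => BB (n + 1) (β / 2)) 1 (1 + 8 * (β / 2) / (1 / 4 - β / 2 / 2)) β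
    (by positivity)
    (fun n z hz => (resAA _ _ z (by rintro rfl; norm_num at hz)).1) (fun n z hz hz2 => ?_)
    (fun n z hz => ?_) (fun n => by simpa only [e] using powAA n (β / 2))
  · rw [Real.rpow_one, le_div_iff₀ (by linarith), mul_comm]
    exact hC _ z hz
  · have := hC (n + 1) z (by linarith)
    nlinarith [norm_nonneg (resolvent (BB (n + 1) (β / 2)) z)]

lemma not_bdd {f : ℕ → ℝ} {β γ : ℝ} (h : γ < β) (hf : ∀ n : ℕ, (1 + n : ℝ) ^ β ≤ f n) :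
    ¬ BddAbove (Set.range fun n : ℕ => f n / (1 + n : ℝ) ^ γ) := by
  rintro ⟨M, hM⟩
  have t : Filter.Tendsto (fun n : ℕ => (1 + n : ℝ) ^ (β - γ)) Filter.atTop Filter.atTop :=
    (tendsto_rpow_atTop (by linarith)).comp
      (Filter.tendsto_atTop_add_const_left _ 1 tendsto_natCast_atTop_atTop)
  obtain ⟨n, hn⟩ := (t.eventually_gt_atTop M).exists
  have h1 := hM ⟨n, rfl⟩
  have n0 : (0 : ℝ) < 1 + n := by positivity
  rw [Real.rpow_sub n0] at hn
  have := div_le_div_of_nonneg_right (hf n) (Real.rpow_pos_of_pos n0 γ).le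
  simp only at h1
  linarith

end Pool.Agent.H1.Gam
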