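import Mathlib

set_option autoImplicit false

namespace Pool.Agent.H1.Gam

/-- Condition `(R_α)` for an element `T` of a complex Banach algebra (used for bounded operators). -/
def RCond {A : Type} [NormedRing A] [NormedAlgebra ℂ A] (α : ℝ) (T : A) : Prop :=
  spectrum ℂ T ⊆ Metric.closedBall 0 1 ∧ ∃ c : ℝ, 0 < c ∧ ∀ z : ℂ, 1 < ‖z‖ → ‖z‖ ≤ 2 →
    ‖resolvent T z‖ ≤ c / (‖z‖ - 1) ^ α

/-- `‖T ^ n‖ / (1 + n) ^ γ` is bounded. -/
def Growth {A : Type} [NormedRing A] (γ : ℝ) (T : A) : Prop :=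
  BddAbove (Set.range fun n : ℕ => ‖T ^ n‖ / (1 + n : ℝ) ^ γ)

/-- `(1 + n) ^ γ ≤ ‖T ^ n‖` for every `n`. -/
def Lower {A : Type} [NormedRing A] (γ : ℝ) (T : A) : Prop :=
  ∀ n : ℕ, (1 + n : ℝ) ^ γ ≤ ‖T ^ n‖

/-- Every Hilbert space operator with `(R_α)` has power growth at most `(1 + n) ^ γ`. -/
def Works (α γ : ℝ) : Prop :=
  ∀ (H : Type) [NormedAddCommGroup H] [InnerProductSpace ℂ H] [CompleteSpace H] (T : H →L[ℂ] H),
    RCond α T → Growth γ T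

/-- Some Hilbert space operator with `(R_α)` has `‖T ^ n‖ ≥ (1 + n) ^ γ` for all `n`. -/
def Attained (α γ : ℝ) : Prop :=
  ∃ (H : Type) (_ : NormedAddCommGroup H) (_ : InnerProductSpace ℂ H) (_ : CompleteSpace H)
    (T : H →L[ℂ] H), RCond α T ∧ Lower γ T

/-- The optimal exponent `γ(α)`. -/
noncomputable def gam (α : ℝ) : ℝ := sInf {γ : ℝ | 0 ≤ γ ∧ Works α γ}

end Pool.Agent.H1.Gam
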