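import Mathlib

set_option autoImplicit false

namespace Pool.Agent.H1.Gap

open Cardinal

universe u

variable {E : Type u} [NormedAddCommGroup E] [NormedSpace ℝ E]

def Near (θ : ℝ) (G H : Submodule ℝ E) : Prop := ∀ x ∈ G, ∃ y ∈ H, ‖x - y‖ ≤ θ * ‖x‖

def ch (f1 : E → E) (f : E → E → E → E) (x : E) : List E → E × E
  | [] => (f1 x, 0)
  | x' :: l => (f x (ch f1 f x l).1 x', (ch f1 f x l).2 + (ch f1 f x l).1)

def ps (c : ℝ) : List E → E
  | [] => 0
  | s :: l => s + c • ps c l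

lemma step {G H : Submodule ℝ E} (h1 : Near (14 / 25) G H) (h2 : Near (14 / 25) H G)
    {ι : Type u} (d : ι → E) (hd : ∀ i, d i ∈ G)
    (hdd : ∀ x ∈ G, ∀ ε > 0, ∃ i, ‖x - d i‖ < ε) :
    ∃ Φ : ι × List ι → E, (∀ p, Φ p ∈ H) ∧ ∀ y ∈ H, ‖y‖ ≤ 1 → ∃ p, ‖y - Φ p‖ ≤ 99 / 100 := by
  classical
  have e0 : ∀ x : E, ∃ z ∈ H, x ∈ G → ‖x - z‖ ≤ 14 / 25 * ‖x‖ := fun x => by
    by_cases hx : x ∈ G
    · obtain ⟨z, hz, hz'⟩ := h1 x hx
      exact ⟨z, hz, fun _ => hz'⟩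
    · exact ⟨0, H.zero_mem, fun h => absurd h hx⟩
  choose f0 hf0 hf0' using e0
  have e1 : ∀ x : E, ∃ z ∈ H, (∃ y ∈ H, ‖y - x‖ < 561 / 1000) → ‖z - x‖ < 561 / 1000 :=
    fun x => by
    by_cases hx : ∃ y ∈ H, ‖y - x‖ < 561 / 1000
    · obtain ⟨z, hz, hz'⟩ := hx
      exact ⟨z, hz, fun _ => hz'⟩
    · exact ⟨0, H.zero_mem, fun h => absurd h hx⟩
  choose f1 hf1 hf1' using e1
  have e2 : ∀ x a x' : E, ∃ z ∈ H, (∃ y ∈ H, ‖y - x‖ < 561 / 1000 ∧ ‖y - a - x'‖ < 63 / 100) →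
      ‖z - x‖ < 561 / 1000 ∧ ‖z - a - x'‖ < 63 / 100 := fun x a x' => by
    by_cases hx : ∃ y ∈ H, ‖y - x‖ < 561 / 1000 ∧ ‖y - a - x'‖ < 63 / 100
    · obtain ⟨z, hz, hz'⟩ := hx
      exact ⟨z, hz, fun _ => hz'⟩
    · exact ⟨0, H.zero_mem, fun h => absurd h hx⟩
  choose f hf hf' using e2
  have hmem : ∀ x l, (ch f1 f x l).1 ∈ H ∧ (ch f1 f x l).2 ∈ H := fun x l => by
    induction l with
    | nil => exact ⟨hf1 x, H.zero_mem⟩
    | cons x' l ih => exact ⟨hf _ _ _, H.add_mem ih.2 ih.1⟩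
  refine ⟨fun p => (1 / 1000 : ℝ) • (ch f1 f (d p.1) (p.2.map d)).2 +
    f0 ((1 / 1000 : ℝ) • (p.2.map d).sum),
    fun p => H.add_mem (H.smul_mem _ (hmem _ _).2) (hf0 _), fun y hy hy1 => ?_⟩
  obtain ⟨x0, hx0, hx0'⟩ := h2 y hy
  obtain ⟨i, hi⟩ := hdd x0 hx0 (1 / 1000) (by norm_num)
  have hyx : ‖y - d i‖ < 561 / 1000 := by
    have := norm_add_le (y - x0) (x0 - d i)
    rw [sub_add_sub_cancel] at this
    linarith
  have key : ∀ k : ℕ, ∃ l : List ι, (l.map d).sum ∈ G ∧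
      ‖(ch f1 f (d i) (l.map d)).1 - d i‖ < 561 / 1000 ∧
      ‖(k : ℝ) • y - (ch f1 f (d i) (l.map d)).2 - (l.map d).sum‖ ≤ k * (63 / 100) ∧
      ‖(ch f1 f (d i) (l.map d)).1 - f1 (d i) - (l.map d).sum‖ ≤ k * (63 / 100) := by
    intro k
    induction k with
    | zero => exact ⟨[], by simp, hf1' _ ⟨y, hy, hyx⟩, by simp [ch], by simp [ch]⟩
    | succ k ih =>
      obtain ⟨l, l1, l2, l3, l4⟩ := ih
      set a := (ch f1 f (d i) (l.map d)).1 with ha
      set A := (ch f1 f (d i) (l.map d)).2 with hA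
      have haH : a ∈ H := (hmem _ _).1
      have hya : ‖y - a‖ ≤ 2 * (561 / 1000) := by
        have := norm_sub_le (y - d i) (a - d i)
        rw [sub_sub_sub_cancel_right] at this
        linarith
      obtain ⟨x1, hx1, hx1'⟩ := h2 (y - a) (H.sub_mem hy haH)
      obtain ⟨j, hj⟩ := hdd x1 hx1 (1 / 1000) (by norm_num)
      have hj' : ‖y - a - d j‖ < 63 / 100 := by
        have := norm_add_le (y - a - x1) (x1 - d j)
        rw [sub_add_sub_cancel] at this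
        linarith
      obtain ⟨m1, m2⟩ := hf' (d i) a (d j) ⟨y, hy, hyx, hj'⟩
      refine ⟨j :: l, ?_, ?_, ?_, ?_⟩
      · simpa using G.add_mem (hd j) l1
      · exact m1
      · have e : ((k + 1 : ℕ) : ℝ) • y - (ch f1 f (d i) ((j :: l).map d)).2 -
            ((j :: l).map d).sum = ((k : ℝ) • y - A - (l.map d).sum) + (y - a - d j) := by
          simp only [List.map_cons, List.sum_cons, ch, ← ha, ← hA]
          push_cast
          rw [add_smul, one_smul]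
          abel
        rw [e]
        refine (norm_add_le _ _).trans ?_
        push_cast
        linarith
      · have e : (ch f1 f (d i) ((j :: l).map d)).1 - f1 (d i) - ((j :: l).map d).sum =
            (a - f1 (d i) - (l.map d).sum) + (f (d i) a (d j) - a - d j) := by
          simp only [List.map_cons, List.sum_cons, ch, ← ha]
          abel
        rw [e]
        refine (norm_add_le _ _).trans ?_
        push_cast
        linarith
  obtain ⟨l, l1, l2, l3, l4⟩ := key 1000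
  refine ⟨(i, l), ?_⟩
  simp only
  set a := (ch f1 f (d i) (l.map d)).1
  set A := (ch f1 f (d i) (l.map d)).2
  set X := (l.map d).sum
  have h0 := hf1' (d i) ⟨y, hy, hyx⟩
  have hX : ‖X‖ ≤ 632 := by
    have e : X = ((a - d i) - (f1 (d i) - d i)) - (a - f1 (d i) - X) := by abel
    have e1 := norm_sub_le ((a - d i) - (f1 (d i) - d i)) (a - f1 (d i) - X)
    have e2 := norm_sub_le (a - d i) (f1 (d i) - d i)
    rw [← e] at e1
    push_cast at l4
    linarith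
  have h3 := hf0' ((1 / 1000 : ℝ) • X) (G.smul_mem _ l1)
  rw [norm_smul, Real.norm_of_nonneg (by norm_num)] at h3
  have e : y - ((1 / 1000 : ℝ) • A + f0 ((1 / 1000 : ℝ) • X)) =
      (1 / 1000 : ℝ) • (((1000 : ℕ) : ℝ) • y - A - X) +
        ((1 / 1000 : ℝ) • X - f0 ((1 / 1000 : ℝ) • X)) := by
    rw [smul_sub, smul_sub, smul_smul]
    norm_num
    abel
  rw [e]
  refine (norm_add_le _ _).trans ?_
  rw [norm_smul, Real.norm_of_nonneg (by norm_num)]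
  push_cast at l3 ⊢
  linarith

lemma iter {H : Submodule ℝ E} {κ : Type u} (Φ : κ → E) (hΦ : ∀ p, Φ p ∈ H)
    (h : ∀ y ∈ H, ‖y‖ ≤ 1 → ∃ p, ‖y - Φ p‖ ≤ 99 / 100) :
    ∃ Ψ : ℕ × List κ → H, DenseRange Ψ := by
  have hm : ∀ l : List κ, ps (99 / 100) (l.map Φ) ∈ H := fun l => by
    induction l with
    | nil => exact H.zero_mem
    | cons p l ih => exact H.add_mem (hΦ p) (H.smul_mem _ ih)
  have key : ∀ n : ℕ, ∀ y ∈ H, ‖y‖ ≤ 1 → ∃ l : List κ,
      ‖y - ps (99 / 100) (l.map Φ)‖ ≤ (99 / 100) ^ n := by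
    intro n
    induction n with
    | zero => exact fun y _ hy => ⟨[], by simpa [ps] using hy⟩
    | succ n ih =>
      intro y hy hy1
      obtain ⟨p, hp⟩ := h y hy hy1
      obtain ⟨l, hl⟩ := ih ((100 / 99 : ℝ) • (y - Φ p)) (H.smul_mem _ (H.sub_mem hy (hΦ p))) (by
        rw [norm_smul, Real.norm_of_nonneg (by norm_num)]; linarith)
      refine ⟨p :: l, ?_⟩
      have e : y - ps (99 / 100) ((p :: l).map Φ) = (99 / 100 : ℝ) •
          ((100 / 99 : ℝ) • (y - Φ p) - ps (99 / 100) (l.map Φ)) := by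
        simp only [List.map_cons, ps]
        rw [smul_sub, smul_smul]
        norm_num
        abel
      rw [e, norm_smul, Real.norm_of_nonneg (by norm_num), pow_succ']
      gcongr
  refine ⟨fun q => ⟨(q.1 : ℝ) • ps (99 / 100) (q.2.map Φ), H.smul_mem _ (hm _)⟩, ?_⟩
  rw [Metric.denseRange_iff]
  intro y ε hε
  obtain ⟨N, hN⟩ := exists_nat_gt ‖(y : E)‖
  have hN0 : (0 : ℝ) < N := (norm_nonneg _).trans_lt hN
  obtain ⟨n, hn⟩ := exists_pow_lt_of_lt_one (div_pos hε hN0) (by norm_num : (99 / 100 : ℝ) < 1)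
  obtain ⟨l, hl⟩ := key n ((N : ℝ)⁻¹ • (y : E)) (H.smul_mem _ y.2) (by
    rw [norm_smul, norm_inv, Real.norm_natCast, inv_mul_le_iff₀ hN0]; linarith)
  refine ⟨(N, l), ?_⟩
  rw [Subtype.dist_eq, dist_eq_norm]
  have e : (y : E) - (N : ℝ) • ps (99 / 100) (l.map Φ) =
      (N : ℝ) • ((N : ℝ)⁻¹ • (y : E) - ps (99 / 100) (l.map Φ)) := by
    rw [smul_sub, smul_smul, mul_inv_cancel₀ hN0.ne', one_smul]
  simp only
  rw [e, norm_smul, Real.norm_natCast]
  rw [lt_div_iff₀ hN0] at hn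
  nlinarith

lemma dense_le {G H : Submodule ℝ E} (h1 : Near (14 / 25) G H) (h2 : Near (14 / 25) H G)
    (s : Set G) (hs : Dense s) (hi : s.Infinite) : ∃ t : Set H, Dense t ∧ #t ≤ #s := by
  have := hi.to_subtype
  obtain ⟨Φ, hΦ, hΦ'⟩ := step h1 h2 (fun i : s => ((i : G) : E)) (fun i => i.1.2)
    (fun x hx ε hε => by
      obtain ⟨z, hz, hz'⟩ := hs.exists_dist_lt ⟨x, hx⟩ hε
      exact ⟨⟨z, hz⟩, by simpa [Subtype.dist_eq, dist_eq_norm] using hz'⟩)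
  obtain ⟨Ψ, hΨ⟩ := iter Φ hΦ hΦ'
  refine ⟨Set.range Ψ, hΨ, mk_range_le.trans (le_of_eq ?_)⟩
  have hs0 : ℵ₀ ≤ #s := aleph0_le_mk s
  simp [mk_list_eq_mk, mul_eq_self hs0, aleph0_mul_eq hs0]

end Pool.Agent.H1.Gap
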