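import Mathlib
import Pool.Agent.H1.GapA
import Pool.Agent.H26.BFP

set_option autoImplicit false

namespace Pool.Agent.H1.Gap

open Cardinal Filter Topology Module
open scoped Manifold ContDiff

universe u

lemma brouwer {V : Type u} [NormedAddCommGroup V] [NormedSpace ℝ V] [FiniteDimensional ℝ V]
    (g : V → V) (hg : Continuous g) (hb : ∀ y, ‖g y‖ ≤ 1) : ∃ y, g y = y := by
  let e : V ≃L[ℝ] (Fin (finrank ℝ V) → ℝ) := (Module.finBasis ℝ V).equivFunL
  set R : ℝ := ‖(e : V →L[ℝ] (Fin (finrank ℝ V) → ℝ))‖ + 1 with hR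
  have hR0 : 0 < R := by positivity
  obtain ⟨z, -, hz⟩ := Pool.Agent.H26.BFP.brouwer_cube
    (fun z => R⁻¹ • e (g (e.symm (R • z)))) (by fun_prop) (fun z _ => by
      rw [mem_closedBall_zero_iff, norm_smul, norm_inv, Real.norm_of_nonneg hR0.le,
        inv_mul_le_iff₀ hR0]
      have h1 := (e : V →L[ℝ] (Fin (finrank ℝ V) → ℝ)).le_opNorm (g (e.symm (R • z)))
      have h2 := hb (e.symm (R • z))
      have h3 := norm_nonneg (e : V →L[ℝ] (Fin (finrank ℝ V) → ℝ))
      simp only [ContinuousLinearEquiv.coe_coe] at h1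
      nlinarith)
  refine ⟨e.symm (R • z), ?_⟩
  rw [ContinuousLinearEquiv.eq_symm_apply]
  conv_rhs => rw [← hz]
  rw [smul_smul, mul_inv_cancel₀ hR0.ne', one_smul]

variable {E : Type u} [NormedAddCommGroup E] [NormedSpace ℝ E]

lemma exists_smooth {a : ℝ} {G H : Submodule ℝ E} [FiniteDimensional ℝ G] (h : Near a G H) :
    ∃ Q : G → H, ContDiff ℝ 1 Q ∧ ∀ x : G, ‖(x : E) - Q x‖ < a * ‖(x : E)‖ + 1 / 100 := by
  obtain ⟨g, hg⟩ := exists_contMDiffMap_forall_mem_convex_of_local_const (n := 1) 𝓘(ℝ, G)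
    (t := fun x : G => {y : H | ‖(x : E) - y‖ < a * ‖(x : E)‖ + 1 / 100})
    (fun x => by
      have : {y : H | ‖(x : E) - y‖ < a * ‖(x : E)‖ + 1 / 100} =
          H.subtype ⁻¹' Metric.ball (x : E) (a * ‖(x : E)‖ + 1 / 100) := by
        ext y; simp [dist_eq_norm, norm_sub_rev]
      rw [this]
      exact (convex_ball _ _).linear_preimage _)
    (fun x => by
      obtain ⟨y, hy, hy'⟩ := h x x.2
      refine ⟨⟨y, hy⟩, ?_⟩
      have hc : IsOpen {z : G | ‖(z : E) - y‖ < a * ‖(z : E)‖ + 1 / 100} :=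
        isOpen_lt (by fun_prop) (by fun_prop)
      exact hc.mem_nhds (by simp only [Set.mem_ofPred_eq]; linarith))
  exact ⟨g, g.contMDiff.contDiff, hg⟩

lemma finrank_le_fd {G H : Submodule ℝ E} [FiniteDimensional ℝ G] [FiniteDimensional ℝ H]
    (h1 : Near (57 / 100) G H) (h2 : Near (57 / 100) H G) : finrank ℝ H ≤ finrank ℝ G := by
  by_contra hlt
  push Not at hlt
  obtain ⟨Q, hQ, hQ'⟩ := exists_smooth h1
  obtain ⟨P, hP, hP'⟩ := exists_smooth h2
  obtain ⟨v, hv, hv'⟩ := (hQ.dense_compl_range_of_finrank_lt_finrank hlt).exists_dist_lt 0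
    (by norm_num : (0 : ℝ) < 1 / 100)
  rw [dist_comm, dist_zero_right] at hv'
  have hne : ∀ y, Q (P y) - v ≠ 0 := fun y h0 => hv ⟨P y, sub_eq_zero.1 h0⟩
  have hc : Continuous fun y => Q (P y) - v := (hQ.continuous.comp hP.continuous).sub continuous_const
  obtain ⟨y, hy⟩ := brouwer (fun y => -(‖Q (P y) - v‖⁻¹ • (Q (P y) - v)))
    ((((hc.norm).inv₀ fun y => norm_ne_zero_iff.2 (hne y)).smul hc).neg)
    (fun y => by
      rw [norm_neg, norm_smul, norm_inv, norm_norm, inv_mul_cancel₀ (norm_ne_zero_iff.2 (hne y))])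
  set t := ‖Q (P y) - v‖ with ht
  have ht0 : 0 < t := norm_pos_iff.2 (hne y)
  have hy1 : ‖y‖ = 1 := by
    rw [← hy, norm_neg, norm_smul, norm_inv, Real.norm_of_nonneg ht0.le, inv_mul_cancel₀ ht0.ne']
  have hy1' : ‖(y : E)‖ = 1 := hy1
  have hQe : Q (P y) = v - t • y := by
    have : t • y = -(Q (P y) - v) := by
      conv_lhs => rw [← hy]
      rw [smul_neg, smul_smul, mul_inv_cancel₀ ht0.ne', one_smul]
    rw [this]; abel
  have a1 := hP' y
  have a2 := hQ' (P y)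
  rw [hQe] at a2
  set x : E := ((P y : G) : E)
  have a3 : ‖x + t • (y : E)‖ ≤ ‖x - ((v - t • y : H) : E)‖ + ‖(v : E)‖ := by
    have e : x + t • (y : E) = (x - ((v - t • y : H) : E)) + (v : E) := by
      push_cast; abel
    rw [e]; exact norm_add_le _ _
  have hv2 : ‖(v : E)‖ < 1 / 100 := hv'
  have a4 : 1 + t ≤ ‖x + t • (y : E)‖ + ‖(y : E) - x‖ := by
    have e : (1 + t) • (y : E) = (x + t • (y : E)) + ((y : E) - x) := by
      rw [add_smul, one_smul]; abel
    have := norm_add_le (x + t • (y : E)) ((y : E) - x)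
    rw [← e, norm_smul, Real.norm_of_nonneg (by linarith), hy1', mul_one] at this
    exact this
  have a5 : ‖x‖ ≤ ‖x + t • (y : E)‖ + t := by
    have := norm_sub_le (x + t • (y : E)) (t • (y : E))
    rw [add_sub_cancel_right, norm_smul, Real.norm_of_nonneg ht0.le, hy1', mul_one] at this
    exact this
  have a6 : ‖x‖ ≤ 1 + ‖(y : E) - x‖ := by
    have := norm_sub_le (y : E) ((y : E) - x)
    rw [sub_sub_cancel, hy1'] at this
    exact this
  rw [hy1'] at a1
  linarith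

lemma exists_fd {G H : Submodule ℝ E} [FiniteDimensional ℝ G] (h : Near (14 / 25) G H) :
    ∃ V : Submodule ℝ E, V ≤ H ∧ FiniteDimensional ℝ V ∧ Near (57 / 100) G V := by
  have hK : IsCompact (Metric.sphere (0 : G) 1) := isCompact_sphere 0 1
  obtain ⟨T, hT, hTf, hTc⟩ := hK.finite_cover_balls (by norm_num : (0 : ℝ) < 1 / 100)
  choose f hf hf' using fun x : G => h x x.2
  refine ⟨Submodule.span ℝ (f '' T), Submodule.span_le.2 ?_,
    FiniteDimensional.span_of_finite ℝ (hTf.image f), fun x hx => ?_⟩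
  · rintro _ ⟨x, -, rfl⟩; exact hf x
  · rcases eq_or_ne x 0 with rfl | hx0
    · exact ⟨0, Submodule.zero_mem _, by simp⟩
    have hn : 0 < ‖x‖ := norm_pos_iff.2 hx0
    have hu : (⟨‖x‖⁻¹ • x, G.smul_mem _ hx⟩ : G) ∈ Metric.sphere (0 : G) 1 := by
      rw [mem_sphere_zero_iff_norm]
      change ‖‖x‖⁻¹ • x‖ = 1
      rw [norm_smul, norm_inv, norm_norm, inv_mul_cancel₀ hn.ne']
    obtain ⟨z, hz, hz'⟩ := Set.mem_iUnion₂.1 (hTc hu)
    have hz1 : ‖(z : E)‖ = 1 := mem_sphere_zero_iff_norm.1 (hT hz)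
    have hz2 : ‖‖x‖⁻¹ • x - (z : E)‖ < 1 / 100 := by
      simpa [Subtype.dist_eq, dist_eq_norm] using hz'
    refine ⟨‖x‖ • f z, Submodule.smul_mem _ _ (Submodule.subset_span ⟨z, hz, rfl⟩), ?_⟩
    have e : x - ‖x‖ • f z = ‖x‖ • ((‖x‖⁻¹ • x - (z : E)) + ((z : E) - f z)) := by
      rw [sub_add_sub_cancel, smul_sub, smul_smul, mul_inv_cancel₀ hn.ne', one_smul]
    have h3 := hf' z
    rw [hz1] at h3
    have h4 := norm_add_le (‖x‖⁻¹ • x - (z : E)) ((z : E) - f z)
    rw [e, norm_smul, norm_norm, mul_comm]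
    gcongr
    linarith

lemma rank_le_fd {G H : Submodule ℝ E} [FiniteDimensional ℝ G]
    (h1 : Near (14 / 25) G H) (h2 : Near (14 / 25) H G) :
    Module.rank ℝ H ≤ finrank ℝ G := by
  obtain ⟨V, hV, hVf, hV'⟩ := exists_fd h1
  refine rank_le fun s hs => ?_
  let W : Submodule ℝ E := Submodule.span ℝ (Set.range fun i : s => ((i : H) : E))
  have : FiniteDimensional ℝ W := FiniteDimensional.span_of_finite ℝ (Set.finite_range _)
  have hW : W ≤ H := Submodule.span_le.2 (by rintro _ ⟨i, rfl⟩; exact i.1.2)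
  have hli : LinearIndependent ℝ fun i : s => ((i : H) : E) :=
    hs.map' H.subtype (Submodule.ker_subtype H)
  have hc : finrank ℝ W = s.card := by
    rw [finrank_span_eq_card hli]; simp
  have hle : finrank ℝ ↥(V ⊔ W) ≤ finrank ℝ G := by
    refine finrank_le_fd (fun x hx => ?_) (fun y hy => ?_)
    · obtain ⟨y, hy, hy'⟩ := hV' x hx
      exact ⟨y, Submodule.mem_sup_left hy, hy'⟩
    · obtain ⟨x, hx, hx'⟩ := h2 y (sup_le hV hW hy)
      exact ⟨x, hx, hx'.trans (by nlinarith [norm_nonneg y])⟩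
  rw [← hc]
  exact (Submodule.finrank_mono le_sup_right).trans hle

lemma fd_case {G H : Submodule ℝ E} [FiniteDimensional ℝ G]
    (h1 : Near (14 / 25) G H) (h2 : Near (14 / 25) H G) :
    FiniteDimensional ℝ H ∧ finrank ℝ G = finrank ℝ H := by
  have hr := rank_le_fd h1 h2
  have hH : FiniteDimensional ℝ H :=
    Module.rank_lt_aleph0_iff.1 (hr.trans_lt (natCast_lt_aleph0))
  have hr' := rank_le_fd h2 h1
  rw [← finrank_eq_rank] at hr hr'
  exact ⟨hH, le_antisymm (by exact_mod_cast hr') (by exact_mod_cast hr)⟩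

end Pool.Agent.H1.Gap
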