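import Mathlib

set_option autoImplicit false

namespace Pool.Agent.H1.Gap

universe u

noncomputable def dev {E : Type u} [NormedAddCommGroup E] (A B : Set E) : ℝ :=
  ⨆ x : {x : E // x ∈ A ∧ ‖x‖ = 1}, Metric.infDist (x : E) B

noncomputable def opening {E : Type u} [NormedAddCommGroup E] (A B : Set E) : ℝ :=
  max (dev A B) (dev B A)

noncomputable def dens (X : Type u) [TopologicalSpace X] : Cardinal.{u} :=
  sInf {c | ∃ s : Set X, Dense s ∧ Cardinal.mk s = c}

open Classical in
noncomputable def dim (𝕜 : Type) [RCLike 𝕜] (X : Type u) [NormedAddCommGroup X]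
    [NormedSpace 𝕜 X] : Cardinal.{u} :=
  if FiniteDimensional 𝕜 X then (Module.finrank 𝕜 X : Cardinal.{u}) else dens X

end Pool.Agent.H1.Gap
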