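import Mathlib
import Pool.Agent.H1.GapB
import Pool.Agent.H1.GapDefs

set_option autoImplicit false

namespace Pool.Agent.H1.Gap

open Cardinal Module

universe u

lemma near_of_dev {E : Type u} [NormedAddCommGroup E] [NormedSpace ℝ E] {G H : Submodule ℝ E}
    {θ : ℝ} (h : dev (G : Set E) H < θ) : Near θ G H := by
  intro x hx
  rcases eq_or_ne x 0 with rfl | hx0
  · exact ⟨0, H.zero_mem, by simp⟩
  have hn : 0 < ‖x‖ := norm_pos_iff.2 hx0
  have hb : BddAbove (Set.range fun x : {x : E // x ∈ (G : Set E) ∧ ‖x‖ = 1} =>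
      Metric.infDist (x : E) (H : Set E)) := by
    refine ⟨1, ?_⟩
    rintro _ ⟨z, rfl⟩
    have := Metric.infDist_le_dist_of_mem (x := (z : E)) (s := (H : Set E)) H.zero_mem
    rwa [dist_zero_right, z.2.2] at this
  have h1 := (le_ciSup hb ⟨‖x‖⁻¹ • x, G.smul_mem _ hx, by
    rw [norm_smul, norm_inv, norm_norm, inv_mul_cancel₀ hn.ne']⟩).trans_lt h
  obtain ⟨y, hy, hy'⟩ := (Metric.infDist_lt_iff ⟨0, H.zero_mem⟩).1 h1
  refine ⟨‖x‖ • y, H.smul_mem _ hy, ?_⟩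
  have e : x - ‖x‖ • y = ‖x‖ • (‖x‖⁻¹ • x - y) := by
    rw [smul_sub, smul_smul, mul_inv_cancel₀ hn.ne', one_smul]
  rw [dist_eq_norm] at hy'
  rw [e, norm_smul, norm_norm, mul_comm]
  gcongr

lemma dens_le {E : Type u} [NormedAddCommGroup E] [NormedSpace ℝ E] {G H : Submodule ℝ E}
    (h1 : Near (14 / 25) G H) (h2 : Near (14 / 25) H G) (hG : ¬ FiniteDimensional ℝ G) :
    dens H ≤ dens G := by
  have hne : {c | ∃ s : Set G, Dense s ∧ Cardinal.mk s = c}.Nonempty :=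
    ⟨_, Set.univ, dense_univ, rfl⟩
  obtain ⟨s, hs, hs'⟩ := csInf_mem hne
  have hi : s.Infinite := fun hf => hG (by
    have : s = Set.univ := by rw [← hf.isClosed.closure_eq, hs.closure_eq]
    rw [this] at hf
    have := Set.finite_univ_iff.1 hf
    infer_instance)
  obtain ⟨t, ht, ht'⟩ := dense_le h1 h2 s hs hi
  have hm : #t ∈ {c | ∃ s : Set H, Dense s ∧ Cardinal.mk s = c} := ⟨t, ht, rfl⟩
  exact (csInf_le' hm).trans (ht'.trans hs'.le)

theorem main (𝕜 : Type) [RCLike 𝕜] (E : Type u) [NormedAddCommGroup E] [NormedSpace 𝕜 E]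
    (G₁ G₂ : Submodule 𝕜 E) (h : opening (G₁ : Set E) G₂ < 14 / 25) :
    dim 𝕜 G₁ = dim 𝕜 G₂ := by
  let : NormedSpace ℝ E := NormedSpace.restrictScalars ℝ 𝕜 E
  have : IsScalarTower ℝ 𝕜 E := IsScalarTower.of_algebraMap_smul fun r x => rfl
  have h1 : Near (14 / 25) (G₁.restrictScalars ℝ) (G₂.restrictScalars ℝ) :=
    near_of_dev ((le_max_left _ _).trans_lt h)
  have h2 : Near (14 / 25) (G₂.restrictScalars ℝ) (G₁.restrictScalars ℝ) :=
    near_of_dev ((le_max_right _ _).trans_lt h)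
  have hfd : ∀ G : Submodule 𝕜 E,
      FiniteDimensional 𝕜 G ↔ FiniteDimensional ℝ (G.restrictScalars ℝ) := fun G =>
    ⟨fun _ => Module.Finite.trans (R := ℝ) 𝕜 G,
      fun hG => @Module.Finite.of_restrictScalars_finite ℝ 𝕜 G _ _ _ _ _ _ _ hG⟩
  have hrk : ∀ G : Submodule 𝕜 E,
      finrank ℝ (G.restrictScalars ℝ) = finrank ℝ 𝕜 * finrank 𝕜 G := fun G =>
    (Module.finrank_mul_finrank ℝ 𝕜 G).symm
  unfold dim
  by_cases c1 : FiniteDimensional 𝕜 G₁
  · have := (hfd _).1 c1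
    obtain ⟨c2, e⟩ := fd_case h1 h2
    rw [if_pos c1, if_pos ((hfd _).2 c2)]
    rw [hrk, hrk] at e
    rw [Nat.eq_of_mul_eq_mul_left Module.finrank_pos e]
  · have c2 : ¬ FiniteDimensional 𝕜 G₂ := fun c2 => by
      have := (hfd _).1 c2
      exact c1 ((hfd _).2 (fd_case h2 h1).1)
    rw [if_neg c1, if_neg c2]
    exact le_antisymm (dens_le h2 h1 fun hh => c2 ((hfd _).2 hh))
      (dens_le h1 h2 fun hh => c1 ((hfd _).2 hh))

end Pool.Agent.H1.Gap
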