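import Mathlib

open MeasureTheory Set Filter Topology Complex
open scoped ENNReal

namespace Pool.Agent.H1.Gran

lemma area (φ φ' : ℂ → ℂ) (S : Set ℂ) (hS : MeasurableSet S)
    (hd : ∀ z ∈ S, HasDerivAt φ (φ' z) z) (hi : InjOn φ S) (g : ℂ → ℝ≥0∞) :
    MeasurableSet (φ '' S) ∧
    ∫⁻ z in S, ENNReal.ofReal (‖φ' z‖ ^ 2) * g (φ z) = ∫⁻ w in φ '' S, g w := by
  have hf : ∀ z ∈ S, HasFDerivWithinAt φ
      ((ContinuousLinearMap.toSpanSingleton ℂ (φ' z)).restrictScalars ℝ) S z :=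
    fun z hz => ((hd z hz).hasFDerivAt.restrictScalars ℝ).hasFDerivWithinAt
  refine ⟨measurable_image_of_fderivWithin hS hf hi, ?_⟩
  rw [lintegral_image_eq_lintegral_abs_det_fderiv_mul volume hS hf hi g]
  refine setLIntegral_congr_fun hS fun z _ => ?_
  simp [ContinuousLinearMap.det, LinearMap.det_restrictScalars,
      Algebra.norm_complex_eq, Complex.normSq_eq_norm_sq]

lemma periodic_area (P : ℝ) (hP : 0 < P) (W W' : ℂ → ℂ) (S : Set ℂ) (hS : MeasurableSet S)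
    (hW : Measurable W) (hd : ∀ z ∈ S, HasDerivAt W (W' z) z)
    (hi : ∀ z₁ ∈ S, ∀ z₂ ∈ S, ∀ n : ℤ, W z₁ - W z₂ = n * P * I → z₁ = z₂)
    (x0 : ℝ) (hx : ∀ z ∈ S, x0 ≤ (W z).re) (f : ℂ → ℝ≥0∞)
    (hf : ∀ w (n : ℤ), f (w - n * P * I) = f w) :
    ∫⁻ z in S, ENNReal.ofReal (‖W' z‖ ^ 2) * f (W z) ≤ ∫⁻ w in Ici x0 ×ℂ Ioc 0 P, f w := by
  set T : ℤ → Set ℂ := fun n => S ∩ {z | (W z).im ∈ Ioc (n * P) ((n + 1) * P)} with hT
  have hTm : ∀ n, MeasurableSet (T n) := fun n =>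
    hS.inter ((Complex.measurable_im.comp hW) measurableSet_Ioc)
  have hU : S ⊆ ⋃ n, T n := by
    intro z hz
    obtain ⟨n, hn, -⟩ := existsUnique_add_zsmul_mem_Ioc hP (W z).im 0
    refine mem_iUnion.2 ⟨-n, hz, ?_⟩
    simp only [zsmul_eq_mul, zero_add, mem_Ioc] at hn
    simp only [mem_setOf_eq, mem_Ioc, Int.cast_neg]
    constructor <;> nlinarith [hn.1, hn.2]
  set φ : ℤ → ℂ → ℂ := fun n z => W z - n * P * I with hφ
  have hA := fun n => area (φ n) W' (T n) (hTm n)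
    (fun z hz => (hd z hz.1).sub_const _)
    (fun z₁ h₁ z₂ h₂ h => hi z₁ h₁.1 z₂ h₂.1 0 (by
      simp only [hφ, sub_left_inj] at h; simp [h])) f
  have hdisj : Pairwise (Function.onFun Disjoint fun n => φ n '' T n) := by
    intro m n hmn
    refine Set.disjoint_left.2 ?_
    rintro w ⟨z₁, h₁, rfl⟩ ⟨z₂, h₂, h⟩
    have e : z₂ = z₁ := hi z₂ h₂.1 z₁ h₁.1 (n - m) (by
      simp only [hφ] at h; push_cast; linear_combination h)
    subst e
    have a1 := h₁.2
    have a2 := h₂.2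
    simp only [mem_setOf_eq, mem_Ioc] at a1 a2
    have b1 : (m : ℝ) < n + 1 := lt_of_mul_lt_mul_right (a1.1.trans_le a2.2) hP.le
    have b2 : (n : ℝ) < m + 1 := lt_of_mul_lt_mul_right (a2.1.trans_le a1.2) hP.le
    have c1 : m < n + 1 := by exact_mod_cast b1
    have c2 : n < m + 1 := by exact_mod_cast b2
    omega
  calc ∫⁻ z in S, ENNReal.ofReal (‖W' z‖ ^ 2) * f (W z)
      ≤ ∫⁻ z in ⋃ n, T n, ENNReal.ofReal (‖W' z‖ ^ 2) * f (W z) := lintegral_mono_set hU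
    _ ≤ ∑' n, ∫⁻ z in T n, ENNReal.ofReal (‖W' z‖ ^ 2) * f (W z) := lintegral_iUnion_le _ _
    _ = ∑' n, ∫⁻ w in φ n '' T n, f w := by
        refine tsum_congr fun n => ?_
        rw [← (hA n).2]
        simp only [hφ, hf]
    _ = ∫⁻ w in ⋃ n, φ n '' T n, f w := (lintegral_iUnion (fun n => (hA n).1) hdisj f).symm
    _ ≤ _ := by
        refine lintegral_mono_set (iUnion_subset fun n => ?_)
        rintro w ⟨z, hz, rfl⟩
        have a := hz.2
        simp only [mem_setOf_eq, mem_Ioc] at a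
        refine ⟨?_, ?_⟩
        · simpa [hφ] using hx z hz.1
        · simp only [hφ, mem_preimage, sub_im, mul_im, mul_re, intCast_re, ofReal_re, intCast_im,
            ofReal_im, I_im, I_re, mem_Ioc]
          constructor <;> nlinarith [a.1, a.2]

lemma fubini (s t : Set ℝ) (hs : MeasurableSet s) (ht : MeasurableSet t) (f : ℂ → ℝ≥0∞)
    (hf : Measurable f) :
    ∫⁻ w in s ×ℂ t, f w = ∫⁻ x in s, ∫⁻ y in t, f (x + y * I) ∧
    ∫⁻ w in s ×ℂ t, f w = ∫⁻ y in t, ∫⁻ x in s, f (x + y * I) := by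
  have h1 : ∫⁻ w in s ×ℂ t, f w = ∫⁻ p in s ×ˢ t, f (p.1 + p.2 * I) := by
    have := Complex.volume_preserving_equiv_real_prod.setLIntegral_comp_preimage_emb
      Complex.measurableEquivRealProd.measurableEmbedding (fun p : ℝ × ℝ => f (p.1 + p.2 * I))
      (s ×ˢ t)
    rw [← this]
    simp only [measurableEquivRealProd_apply, re_add_im]
    rfl
  have hm : Measurable fun p : ℝ × ℝ => f (p.1 + p.2 * I) := hf.comp (by fun_prop)
  rw [h1, Measure.volume_eq_prod, ← Measure.prod_restrict]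
  exact ⟨lintegral_prod _ hm.aemeasurable, lintegral_prod_symm _ hm.aemeasurable⟩

lemma length (γ γ' : ℝ → ℂ) (a b : ℝ) (hab : a ≤ b) (hγ : ContinuousOn γ (Icc a b))
    (hd : ∀ s ∈ Ico a b, HasDerivAt γ (γ' s) s) (hγ' : ContinuousOn γ' (Ico a b))
    (τ : ℂ → ℂ) (hτ : ∀ u v, ‖τ u - τ v‖ ≤ ‖u - v‖)
    (H ρ : ℂ → ℝ) (hH : Continuous H) (hb : H (τ (γ b)) = 0) (hρ : ∀ w, 0 ≤ ρ w)
    (hD : ∀ w, H w ≠ 0 → ContinuousAt ρ w ∧ ∃ L : ℂ →L[ℝ] ℝ, HasFDerivAt H L w ∧ ‖L‖ ≤ ρ w) :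
    ENNReal.ofReal (H (τ (γ a))) ≤ ∫⁻ s in Ioo a b, ENNReal.ofReal (ρ (τ (γ s)) * ‖γ' s‖) := by
  have hτc : Continuous τ := (LipschitzWith.of_dist_le_mul (K := 1) fun u v => by
    simpa [dist_eq_norm] using hτ u v).continuous
  have hc : ContinuousOn (fun s => H (τ (γ s))) (Icc a b) :=
    (hH.comp hτc).comp_continuousOn hγ
  refine ENNReal.le_of_forall_pos_le_add fun ε hε _ => ?_
  have hε' : (0 : ℝ) < ε := hε
  by_cases h0 : H (τ (γ a)) ≤ ε
  · exact le_add_left (by simpa using ENNReal.ofReal_le_ofReal h0)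
  push Not at h0
  set Z : Set ℝ := Icc a b ∩ (fun s => H (τ (γ s))) ⁻¹' Iic (ε : ℝ) with hZ
  have hZc : IsClosed Z := hc.preimage_isClosed_of_isClosed isClosed_Icc isClosed_Iic
  have hbZ : b ∈ Z := ⟨⟨hab, le_rfl⟩, by simp [hb]⟩
  have hbdd : BddBelow Z := ⟨a, fun s hs => hs.1.1⟩
  set c := sInf Z with hcdef
  have hcZ : c ∈ Z := hZc.csInf_mem ⟨b, hbZ⟩ hbdd
  have hac : a < c := lt_of_le_of_ne hcZ.1.1 (fun h => by
    have := hcZ.2; rw [← h] at this; exact absurd this (by simpa using h0))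
  have hlt : ∀ s ∈ Ico a c, (ε : ℝ) < H (τ (γ s)) := fun s hs => by
    by_contra hn
    push Not at hn
    exact absurd (csInf_le hbdd ⟨⟨hs.1, hs.2.le.trans hcZ.1.2⟩, hn⟩) (not_le.2 hs.2)
  have hge : ∀ s ∈ Icc a c, (ε : ℝ) ≤ H (τ (γ s)) := by
    have hcl : Icc a c ⊆ closure (Ico a c) := by rw [closure_Ico hac.ne]
    intro s hs
    exact ContinuousWithinAt.closure_le (hcl hs) continuousWithinAt_const
      ((hc s ⟨hs.1, hs.2.trans hcZ.1.2⟩).mono fun t ht => ⟨ht.1, ht.2.le.trans hcZ.1.2⟩)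
      fun t ht => (hlt t ht).le
  have hcb : c < b := lt_of_le_of_ne hcZ.1.2 (fun h => by
    have := hge c ⟨hac.le, le_rfl⟩; rw [h, hb] at this; linarith)
  set g : ℝ → ℝ := fun s => ρ (τ (γ s)) * ‖γ' s‖ with hg
  have hsub : Icc a c ⊆ Ico a b := fun s hs => ⟨hs.1, hs.2.trans_lt hcb⟩
  have hgc : ContinuousOn g (Icc a c) := by
    refine ContinuousOn.mul (fun s hs => ?_) (hγ'.mono hsub).norm
    have h1 : ContinuousWithinAt (fun s => τ (γ s)) (Icc a c) s :=
      hτc.continuousAt.comp_continuousWithinAt (hd s (hsub hs)).continuousAt.continuousWithinAt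
    exact ContinuousAt.comp_continuousWithinAt (f := fun s => τ (γ s))
      (hD _ (by linarith [hge s hs])).1 h1
  have hgi : IntegrableOn g (Icc a c) := hgc.integrableOn_Icc
  have key : ∀ ⦃x⦄, x ∈ Icc a c → H (τ (γ a)) - H (τ (γ x)) ≤ ∫ s in a..x, g s := by
    refine image_le_of_liminf_slope_right_le_deriv_boundary (B' := g)
      (f := fun x => H (τ (γ a)) - H (τ (γ x))) (B := fun x => ∫ s in a..x, g s)
      (continuousOn_const.sub (hc.mono fun s hs => ⟨hs.1, hs.2.trans hcb.le⟩)) (by simp)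
      ?_ (fun x hx => ?_) (fun x hx r hr => ?_)
    · have := intervalIntegral.continuousOn_primitive_interval (μ := volume) (f := g)
        (a := a) (b := c) (by rwa [uIcc_of_le hac.le])
      rwa [uIcc_of_le hac.le] at this
    · have hx' : x ∈ Icc a c := ⟨hx.1, hx.2.le⟩
      have hmem : Icc a c ∈ 𝓝[>] x := mem_of_superset (Ioc_mem_nhdsGT hx.2)
        fun t ht => ⟨hx.1.trans ht.1.le, ht.2⟩
      refine intervalIntegral.integral_hasDerivWithinAt_right (t := Ioi x)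
        ((hgc.mono ?_).intervalIntegrable) ⟨Icc a c, hmem, hgi.aestronglyMeasurable⟩
        ((hgc x hx').mono_of_mem_nhdsWithin hmem)
      rw [uIcc_of_le hx.1]; exact Icc_subset_Icc_right hx.2.le
    · have hx' : x ∈ Icc a c := ⟨hx.1, hx.2.le⟩
      obtain ⟨-, L, hL, hLn⟩ := hD (τ (γ x)) (by linarith [hge x hx'])
      have hdx := hd x (hsub hx')
      have hcont : Tendsto (fun e : ℝ => (ρ (τ (γ x)) + e) * (‖γ' x‖ + e)) (𝓝[>] 0)
          (𝓝 (g x)) := by
        have : Continuous fun e : ℝ => (ρ (τ (γ x)) + e) * (‖γ' x‖ + e) := by fun_prop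
        have h2 := this.tendsto 0
        simp only [add_zero] at h2
        exact h2.mono_left nhdsWithin_le_nhds
      obtain ⟨e, he1, he0⟩ := ((hcont.eventually (gt_mem_nhds hr)).and self_mem_nhdsWithin).exists
      have he0' : 0 < e := he0
      have E1 : ∀ᶠ w in 𝓝 (τ (γ x)), ‖H w - H (τ (γ x)) - L (w - τ (γ x))‖ ≤ e * ‖w - τ (γ x)‖ :=
        hL.isLittleO.def he0'
      have E2 : ∀ᶠ t in 𝓝 x, ‖γ t - γ x - (t - x) • γ' x‖ ≤ e * ‖t - x‖ :=
        hdx.isLittleO.def he0'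
      have E3 := (hτc.continuousAt.comp hdx.continuousAt).tendsto.eventually E1
      have E4 := ((E2.and E3).filter_mono (nhdsWithin_le_nhds (s := Ioi x))).and self_mem_nhdsWithin
      refine (E4.mono ?_).frequently
      rintro t ⟨⟨h2, h3⟩, ht⟩
      have ht' : 0 < t - x := sub_pos.2 ht
      simp only [Function.comp] at h3
      have n1 : ‖γ t - γ x‖ ≤ (‖γ' x‖ + e) * (t - x) := by
        have := norm_add_le (γ t - γ x - (t - x) • γ' x) ((t - x) • γ' x)
        rw [sub_add_cancel, norm_smul] at this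
        rw [Real.norm_eq_abs, abs_of_pos ht'] at this h2
        nlinarith
      have n2 := (hτ (γ t) (γ x)).trans n1
      have n3 : |H (τ (γ t)) - H (τ (γ x))| ≤ (ρ (τ (γ x)) + e) * ‖τ (γ t) - τ (γ x)‖ := by
        have := norm_add_le (H (τ (γ t)) - H (τ (γ x)) - L (τ (γ t) - τ (γ x)))
          (L (τ (γ t) - τ (γ x)))
        rw [sub_add_cancel] at this
        have h5 := L.le_of_opNorm_le hLn (τ (γ t) - τ (γ x))
        rw [Real.norm_eq_abs] at this
        nlinarith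
      have n4 := n3.trans (mul_le_mul_of_nonneg_left n2 (by linarith [hρ (τ (γ x))]))
      rw [slope_def_field, div_lt_iff₀ ht']
      have := neg_abs_le (H (τ (γ t)) - H (τ (γ x)))
      nlinarith
  have k1 := key ⟨hac.le, le_rfl⟩
  have k2 : H (τ (γ c)) ≤ ε := hcZ.2
  have k3 : ENNReal.ofReal (∫ s in a..c, g s) ≤ ∫⁻ s in Ioo a b, ENNReal.ofReal (g s) := by
    rw [intervalIntegral.integral_of_le hac.le, ofReal_integral_eq_lintegral_ofReal
      (hgi.mono_set Ioc_subset_Icc_self)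
      (Eventually.of_forall fun s => mul_nonneg (hρ _) (norm_nonneg _))]
    exact lintegral_mono_set fun s hs => ⟨hs.1, hs.2.trans_lt hcb⟩
  calc ENNReal.ofReal (H (τ (γ a))) ≤ ENNReal.ofReal ((∫ s in a..c, g s) + ε) :=
        ENNReal.ofReal_le_ofReal (by linarith)
    _ ≤ ENNReal.ofReal (∫ s in a..c, g s) + ENNReal.ofReal ε := ENNReal.ofReal_add_le
    _ ≤ _ := by rw [ENNReal.ofReal_coe_nnreal]; gcongr

end Pool.Agent.H1.Gran
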