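import Mathlib
import Pool.Agent.H1.GranA

open MeasureTheory Set Filter Topology Complex
open scoped ENNReal Real

namespace Pool.Agent.H1.Gran

noncomputable def sg (w : ℂ) : ℂ := (1 - exp w) ^ (2⁻¹ : ℂ)

noncomputable def H (w : ℂ) : ℝ :=
  Real.log (1 + 2 * √((‖1 - exp w‖ + (1 - exp w).re) / 2) + ‖1 - exp w‖) - w.re

noncomputable def rho (w : ℂ) : ℝ := √(‖1 - exp w‖⁻¹)

lemma sg_sq (w : ℂ) : sg w ^ 2 = 1 - exp w := by
  simp [sg]

lemma sg_norm (w : ℂ) : ‖sg w‖ ^ 2 = ‖1 - exp w‖ := by rw [← norm_pow, sg_sq]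

lemma sg_re (w : ℂ) : (sg w).re = √((‖1 - exp w‖ + (1 - exp w).re) / 2) :=
  Complex.cpow_inv_two_re _

lemma sg_re_nonneg (w : ℂ) : 0 ≤ (sg w).re := by rw [sg_re]; positivity

lemma norm_one_add (w : ℂ) : ‖1 + sg w‖ ^ 2 =
    1 + 2 * √((‖1 - exp w‖ + (1 - exp w).re) / 2) + ‖1 - exp w‖ := by
  rw [← sg_re, ← sg_norm, Complex.sq_norm, Complex.sq_norm, normSq_apply, normSq_apply]
  simp; ring

lemma H_cont : Continuous H := by
  unfold H
  refine Continuous.sub (Continuous.log (by fun_prop) fun w => ?_) (by fun_prop)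
  positivity

lemma H_eq (w : ℂ) : H w = (2 * log (1 + sg w) - w).re := by
  unfold H
  rw [← norm_one_add, Real.log_pow]
  simp [log_re]

lemma H_zero (w : ℂ) (h : 1 - exp w ∉ slitPlane) : H w = 0 := by
  rw [mem_slitPlane_iff] at h
  push Not at h
  have hn : ‖1 - exp w‖ = -(1 - exp w).re := by
    have : 1 - exp w = ((1 - exp w).re : ℂ) := by apply Complex.ext <;> simp_all
    rw [this, norm_real, Real.norm_eq_abs, abs_of_nonpos h.1]; simp
  have he : (exp w).re = Real.exp w.re := by
    rw [← norm_exp]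
    have h2 : (exp w).im = 0 := by simpa using h.2
    have h1 : 1 ≤ (exp w).re := by have := h.1; simp only [sub_re, one_re] at this; linarith
    have : exp w = ((exp w).re : ℂ) := by apply Complex.ext <;> simp [h2]
    rw [this, norm_real, Real.norm_eq_abs, abs_of_nonneg (by linarith)]; simp
  unfold H
  rw [hn]
  simp [he]

lemma sg_deriv (w : ℂ) (h : 1 - exp w ∈ slitPlane) :
    sg w ≠ 0 ∧ HasDerivAt sg ((sg w ^ 2 - 1) / (2 * sg w)) w := by
  have h0 : 1 - exp w ≠ 0 := slitPlane_ne_zero h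
  have h1 : sg w ≠ 0 := fun e => h0 (by rw [← sg_sq, e]; simp)
  refine ⟨h1, ?_⟩
  have := ((Complex.hasDerivAt_exp w).const_sub 1).cpow_const (c := 2⁻¹) h
  refine this.congr_deriv ?_
  have e : (1 - exp w) ^ ((2⁻¹ : ℂ) - 1) = sg w / (sg w) ^ 2 := by
    rw [cpow_sub _ _ h0, cpow_one, sg_sq]; rfl
  rw [e]
  have e2 : exp w = 1 - sg w ^ 2 := by rw [sg_sq]; ring
  rw [e2]
  field_simp
  ring

lemma rho_eq (w : ℂ) : ‖(sg w)⁻¹‖ = rho w := by
  unfold rho
  rw [← sg_norm, ← inv_pow, Real.sqrt_sq (by positivity), norm_inv]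

lemma one_add_slit (w : ℂ) : 1 + sg w ∈ slitPlane :=
  Or.inl (by have := sg_re_nonneg w; simp only [add_re, one_re]; linarith)

lemma H_deriv (w : ℂ) (h : H w ≠ 0) :
    ContinuousAt rho w ∧ ∃ L : ℂ →L[ℝ] ℝ, HasFDerivAt H L w ∧ ‖L‖ ≤ rho w := by
  have hs : 1 - exp w ∈ slitPlane := by
    by_contra hn
    exact h (H_zero w hn)
  obtain ⟨h1, h2⟩ := sg_deriv w hs
  constructor
  · unfold rho
    refine ContinuousAt.sqrt (ContinuousAt.inv₀ (by fun_prop) ?_)
    simpa using slitPlane_ne_zero hs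
  · have h3 : HasDerivAt (fun w => 2 * log (1 + sg w) - w) (-(sg w)⁻¹) w := by
      have := (((h2.const_add 1).clog (one_add_slit w)).const_mul 2).sub (hasDerivAt_id w)
      refine this.congr_deriv ?_
      have := slitPlane_ne_zero (one_add_slit w)
      field_simp
      ring
    have h4 := reCLM.hasFDerivAt.comp w (h3.hasFDerivAt.restrictScalars ℝ)
    refine ⟨_, h4.congr_of_eventuallyEq (Eventually.of_forall fun v => H_eq v), ?_⟩
    refine ContinuousLinearMap.opNorm_le_bound _ (by unfold rho; positivity) fun v => ?_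
    rw [← rho_eq]
    refine (Complex.abs_re_le_norm _).trans (le_of_eq ?_)
    simp [mul_comm]

lemma H_lower (w : ℂ) (x : ℝ) (hw : w.re ≤ x) (hx : x ≤ 0) :
    Real.log (4 - 3 * Real.exp x) - x ≤ H w := by
  have e1 : Real.exp w.re ≤ Real.exp x := Real.exp_le_exp.2 hw
  have e2 : Real.exp x ≤ 1 := Real.exp_le_one_iff.2 hx
  have e3 : 0 < Real.exp x := Real.exp_pos x
  have h1 : 1 - Real.exp x ≤ (1 - exp w).re := by
    have := Complex.re_le_norm (exp w)
    rw [norm_exp] at this
    simp only [sub_re, one_re]; linarith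
  have h2 := Complex.re_le_norm (1 - exp w)
  have h3 : 1 - Real.exp x ≤ √((‖1 - exp w‖ + (1 - exp w).re) / 2) :=
    Real.le_sqrt_of_sq_le (by nlinarith)
  unfold H
  have := Real.log_le_log (by linarith : 0 < 4 - 3 * Real.exp x)
    (by linarith : 4 - 3 * Real.exp x ≤
      1 + 2 * √((‖1 - exp w‖ + (1 - exp w).re) / 2) + ‖1 - exp w‖)
  linarith

lemma strip_slit (w : ℂ) (h : w.im ∈ Ioo 0 (2 * π)) (t : ℝ) (ht : 0 < t) : exp w ≠ t := by
  intro e
  have : exp w = exp (Real.log t : ℂ) := by rw [e, ← ofReal_exp, Real.exp_log ht]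
  obtain ⟨n, hn⟩ := Complex.exp_eq_exp_iff_exists_int.1 this
  have hi := congrArg Complex.im hn
  simp at hi
  have h1 : (0 : ℝ) < n := by have := h.1; rw [hi] at this; nlinarith [Real.pi_pos]
  have h2 : (n : ℝ) < 1 := by have := h.2; rw [hi] at this; nlinarith [Real.pi_pos]
  have h1' : 0 < n := by exact_mod_cast h1
  have h2' : n < 1 := by exact_mod_cast h2
  omega

lemma sym_area (x0 : ℝ) :
    ∫⁻ w in Ici x0 ×ℂ Ioo 0 (2 * π), ENNReal.ofReal (‖1 - exp w‖⁻¹) ≤
      ENNReal.ofReal (Real.log (4 * Real.exp (-x0) + 2) * (2 * π)) := by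
  set S : Set ℂ := Ici x0 ×ℂ Ioo 0 (2 * π) with hS
  have hSm : MeasurableSet S :=
    (Complex.measurable_re measurableSet_Ici).inter (Complex.measurable_im measurableSet_Ioo)
  have s1 : ∀ w ∈ S, 1 - exp w ∈ slitPlane := fun w hw => by
    by_contra hn
    rw [mem_slitPlane_iff] at hn
    push Not at hn
    have h2 : (exp w).im = 0 := by simpa using hn.2
    have h1 : 1 ≤ (exp w).re := by have := hn.1; simp only [sub_re, one_re] at this; linarith
    exact strip_slit w hw.2 (exp w).re (by linarith) (by apply Complex.ext <;> simp [h2])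
  have s0 : ∀ w, sg w - 1 ≠ 0 := fun w e => by
    have := sg_sq w
    rw [sub_eq_zero.1 e] at this
    exact exp_ne_zero w (by linear_combination this)
  have s2 : ∀ w ∈ S, (sg w + 1) / (sg w - 1) ∈ slitPlane := fun w hw => by
    by_contra hn
    rw [mem_slitPlane_iff] at hn
    push Not at hn
    set q := (sg w + 1) / (sg w - 1) with hq
    have e1 : q = (q.re : ℂ) := by apply Complex.ext <;> simp [hn.2]
    have e2 : q * (sg w - 1) = sg w + 1 := div_mul_cancel₀ _ (s0 w)
    have e3 : (q.re - 1 : ℂ) ≠ 0 := by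
      have : q.re - 1 ≠ 0 := by linarith [hn.1]
      exact_mod_cast this
    have e4 : exp w = ((-4 * q.re / (q.re - 1) ^ 2 : ℝ) : ℂ) := by
      have := sg_sq w
      rw [e1] at e2
      have e5 : sg w = (q.re + 1) / (q.re - 1) := by
        rw [eq_div_iff e3]; linear_combination e2
      rw [e5] at this
      push_cast
      field_simp at this ⊢
      linear_combination this
    have e6 : q.re ≠ 0 := fun e => by rw [e] at e4; simp at e4
    have e7 : q.re < 0 := lt_of_le_of_ne hn.1 e6
    refine strip_slit w hw.2 _ (div_pos (by linarith) ?_) e4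
    have : q.re - 1 ≠ 0 := by linarith
    positivity
  set F : ℂ → ℂ := fun w => log ((sg w + 1) / (sg w - 1)) with hF
  have hp : ∀ w, sg w + 1 ≠ 0 := fun w => by
    rw [add_comm]; exact slitPlane_ne_zero (one_add_slit w)
  have hd : ∀ w ∈ S, HasDerivAt F (-(sg w)⁻¹) w := fun w hw => by
    obtain ⟨h1, h2⟩ := sg_deriv w (s1 w hw)
    have := ((h2.add_const 1).div (h2.sub_const 1) (s0 w)).clog (s2 w hw)
    refine this.congr_deriv ?_
    have := s0 w
    have := hp w
    simp only [Pi.div_apply]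
    field_simp
    ring
  have hi : InjOn F S := fun u hu v hv e => by
    have e1 := congrArg exp e
    simp only [hF] at e1
    rw [exp_log (slitPlane_ne_zero (s2 u hu)), exp_log (slitPlane_ne_zero (s2 v hv)),
      div_eq_div_iff (s0 u) (s0 v)] at e1
    have e2 : sg u = sg v := by linear_combination (-1 / 2 : ℂ) * e1
    have e3 : exp u = exp v := by
      have a := sg_sq u
      have b := sg_sq v
      rw [e2] at a
      linear_combination a - b
    obtain ⟨n, hn⟩ := Complex.exp_eq_exp_iff_exists_int.1 e3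
    have hi := congrArg Complex.im hn
    simp at hi
    have a1 := hu.2.1
    have a2 := hu.2.2
    have b1 := hv.2.1
    have b2 := hv.2.2
    have h1 : (-1 : ℝ) < n := by nlinarith [Real.pi_pos]
    have h2 : (n : ℝ) < 1 := by nlinarith [Real.pi_pos]
    have h1' : -1 < n := by exact_mod_cast h1
    have h2' : n < 1 := by exact_mod_cast h2
    have : n = 0 := by omega
    simpa [this] using hn
  have hA := (area F (fun w => -(sg w)⁻¹) S hSm hd hi (fun _ => 1)).2
  simp only [mul_one, norm_neg, norm_inv, inv_pow, sg_norm, lintegral_one, Measure.restrict_apply_univ] at hA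
  rw [hA]
  set M := Real.log (4 * Real.exp (-x0) + 2) with hM
  have hsub : F '' S ⊆ Icc 0 M ×ℂ Icc (-π) π := by
    rintro _ ⟨w, hw, rfl⟩
    refine ⟨?_, ?_⟩
    · simp only [hF, mem_preimage, log_re, mem_Icc, norm_div]
      have p1 : 0 < ‖sg w - 1‖ := norm_pos_iff.2 (s0 w)
      have p2 : 0 < ‖sg w + 1‖ := norm_pos_iff.2 (hp w)
      have p3 : ‖sg w + 1‖ * ‖sg w - 1‖ = Real.exp w.re := by
        rw [← norm_mul, ← norm_exp, ← norm_neg (exp w)]
        congr 1
        linear_combination sg_sq w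
      have p4 : ‖sg w - 1‖ ≤ ‖sg w + 1‖ := by
        refine abs_le_of_sq_le_sq' ?_ p2.le |>.2
        have := sg_re_nonneg w
        rw [Complex.sq_norm, Complex.sq_norm, normSq_apply, normSq_apply]
        simp; nlinarith
      have p5 : ‖sg w + 1‖ ^ 2 ≤ 4 + 2 * Real.exp w.re := by
        have q1 : ‖sg w + 1‖ ≤ ‖sg w‖ + 1 := by simpa using norm_add_le (sg w) 1
        have q2 : ‖sg w‖ ^ 2 ≤ 1 + Real.exp w.re := by
          rw [sg_norm, ← norm_exp]; simpa using norm_sub_le 1 (exp w)
        nlinarith [sq_nonneg (‖sg w‖ - 1), norm_nonneg (sg w)]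
      refine ⟨Real.log_nonneg ((one_le_div p1).2 p4), Real.log_le_log (div_pos p2 p1) ?_⟩
      have p6 : 1 ≤ Real.exp (-x0) * Real.exp w.re := by
        rw [← Real.exp_add]; exact Real.one_le_exp (by have := hw.1; simp at this; linarith)
      rw [div_le_iff₀ p1]
      refine le_of_mul_le_mul_left ?_ p2
      calc ‖sg w + 1‖ * ‖sg w + 1‖ ≤ 4 + 2 * Real.exp w.re := by nlinarith
        _ ≤ (4 * Real.exp (-x0) + 2) * Real.exp w.re := by nlinarith
        _ = _ := by rw [← p3]; ring
    · simp only [hF, mem_preimage, log_im, mem_Icc]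
      exact ⟨(neg_pi_lt_arg _).le, arg_le_pi _⟩
  refine (measure_mono hsub).trans ?_
  have := (fubini (Icc 0 M) (Icc (-π) π) measurableSet_Icc measurableSet_Icc (fun _ => 1)
    measurable_const).1
  simp only [lintegral_one, Measure.restrict_apply_univ, lintegral_const, Real.volume_Icc] at this
  rw [this, ENNReal.ofReal_mul' (by positivity), mul_comm]
  simp [two_mul]

lemma rearr {ι : Type} [Fintype ι] [Nonempty ι] (a : ι → ℝ) (Φ : ℝ → ℝ) (hΦ : Continuous Φ)
    (hper : Function.Periodic Φ (2 * π)) (hev : ∀ t, Φ (-t) = Φ t) (hmin : ∀ t, Φ π ≤ Φ t)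
    (P : ℝ) (hP : P = Fintype.card ι * (2 * π)) (T : ℝ → ℝ) (hTc : Continuous T)
    (hT : ∀ y, ∃ k, T y = min ‖((y - a k : ℝ) : AddCircle P)‖ π) :
    ∫ y in (0 : ℝ)..P, Φ (T y) ≤ Fintype.card ι * ∫ t in (0 : ℝ)..2 * π, Φ t := by
  have hc : (1 : ℝ) ≤ Fintype.card ι := by exact_mod_cast Fintype.card_pos
  have hP1 : 2 * π ≤ P := by rw [hP]; nlinarith [Real.pi_pos]
  have hP0 : 0 < P := by linarith [Real.pi_pos]
  set ψ : ℝ → ℝ := fun y => Φ (min ‖((y : ℝ) : AddCircle P)‖ π) - Φ π with hψ
  have hψc : Continuous ψ :=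
    (hΦ.comp ((AddCircle.continuous_mk' P).norm.min continuous_const)).sub continuous_const
  have hψp : Function.Periodic ψ P := fun y => by simp [hψ]
  have hψ0 : ∀ y, 0 ≤ ψ y := fun y => sub_nonneg.2 (hmin _)
  have hI : ∀ c, ∫ y in (0 : ℝ)..P, ψ (y - c) = (∫ t in (0 : ℝ)..2 * π, Φ t) - 2 * π * Φ π := by
    intro c
    rw [intervalIntegral.integral_comp_sub_right]
    have e1 := hψp.intervalIntegral_add_eq (0 - c) (-(P / 2))
    rw [show 0 - c + P = P - c by ring, show -(P / 2) + P = P / 2 by ring] at e1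
    rw [e1]
    have ii : ∀ u v, IntervalIntegrable ψ volume u v := fun u v => hψc.intervalIntegrable u v
    rw [← intervalIntegral.integral_add_adjacent_intervals (ii _ (-π)) (ii _ _),
      ← intervalIntegral.integral_add_adjacent_intervals (ii (-π) π) (ii _ _)]
    have hn : ∀ y : ℝ, |y| ≤ P / 2 → ‖((y : ℝ) : AddCircle P)‖ = |y| := fun y hy =>
      (AddCircle.norm_coe_eq_abs_iff P hP0.ne').2 (by rwa [abs_of_pos hP0])
    have z1 : ∫ y in -(P / 2)..-π, ψ y = 0 := by
      rw [intervalIntegral.integral_congr (g := fun _ => 0)]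
      · simp
      intro y hy
      rw [uIcc_of_le (by linarith)] at hy
      have : |y| = -y := abs_of_nonpos (by linarith [hy.2, Real.pi_pos])
      simp only [hψ]
      rw [hn y (by rw [this]; linarith [hy.1]), min_eq_right (by rw [this]; linarith [hy.2])]
      simp
    have z2 : ∫ y in π..P / 2, ψ y = 0 := by
      rw [intervalIntegral.integral_congr (g := fun _ => 0)]
      · simp
      intro y hy
      rw [uIcc_of_le (by linarith)] at hy
      have : |y| = y := abs_of_nonneg (by linarith [hy.1, Real.pi_pos])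
      simp only [hψ]
      rw [hn y (by rw [this]; linarith [hy.2]), min_eq_right (by rw [this]; linarith [hy.1])]
      simp
    have z3 : ∫ y in -π..π, ψ y = ∫ y in -π..π, (Φ y - Φ π) := by
      refine intervalIntegral.integral_congr fun y hy => ?_
      rw [uIcc_of_le (by linarith [Real.pi_pos])] at hy
      have h1 : |y| ≤ π := abs_le.2 hy
      simp only [hψ]
      rw [hn y (by linarith), min_eq_left h1]
      rcases abs_cases y with h | h <;> rw [h.1]
      rw [hev]
    have e2 := hper.intervalIntegral_add_eq (-π) 0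
    rw [show -π + 2 * π = π by ring, zero_add] at e2
    rw [z1, z2, z3, intervalIntegral.integral_sub (hΦ.intervalIntegrable _ _)
      (continuous_const.intervalIntegrable _ _), e2]
    simp only [intervalIntegral.integral_const, smul_eq_mul]; ring
  have hle : ∫ y in (0 : ℝ)..P, Φ (T y) ≤ ∫ y in (0 : ℝ)..P, (Φ π + ∑ k, ψ (y - a k)) := by
    refine intervalIntegral.integral_mono_on hP0.le ((hΦ.comp hTc).intervalIntegrable _ _)
      (Continuous.intervalIntegrable (by fun_prop) _ _) fun y _ => ?_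
    obtain ⟨k, hk⟩ := hT y
    have := Finset.single_le_sum (f := fun k => ψ (y - a k)) (fun k _ => hψ0 _) (Finset.mem_univ k)
    simp only [hψ] at this ⊢
    rw [hk]; linarith
  refine hle.trans (le_of_eq ?_)
  rw [intervalIntegral.integral_add (continuous_const.intervalIntegrable _ _)
    (Continuous.intervalIntegrable (by fun_prop) _ _), intervalIntegral.integral_finset_sum
    fun k _ => Continuous.intervalIntegrable (by fun_prop) _ _]
  simp only [hI]
  simp [hP]; ring

end Pool.Agent.H1.Gran
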