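import Mathlib
import Pool.Agent.H1.GranB

open MeasureTheory Set Filter Topology Complex
open scoped ENNReal Real

namespace Pool.Agent.H1.Gran

variable {r : ℕ} (p θ : Fin r → ℝ) (c : ℝ)

noncomputable def W (Z : ℂ) : ℂ := r * Z - 2 * ∑ j, p j * log (1 - exp (Z - θ j * I)) + c

noncomputable def W' (Z : ℂ) : ℂ := ∑ j, p j * ((1 + exp (Z - θ j * I)) / (1 - exp (Z - θ j * I)))

lemma nrm (Z : ℂ) (t : ℝ) : ‖exp (Z - t * I)‖ = Real.exp Z.re := by rw [norm_exp]; simp

lemma slit (u : ℂ) (h : ‖u‖ ≤ 1) (h1 : u ≠ 1) : 1 - u ∈ slitPlane := by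
  by_contra hn
  rw [mem_slitPlane_iff] at hn
  push Not at hn
  have := Complex.re_le_norm u
  have h2 := hn.1
  have h3 := hn.2
  simp only [sub_re, one_re, sub_im, one_im, zero_sub, neg_eq_zero] at h2 h3
  exact h1 (Complex.ext (by simp; linarith) (by simpa using h3))

lemma ne_one (Z : ℂ) (t : ℝ) (h : Z.re < 0) : exp (Z - t * I) ≠ 1 := fun e => by
  have := nrm Z t
  rw [e, norm_one] at this
  linarith [Real.exp_lt_one_iff.2 h]

lemma Wd (hp : ∑ j, p j = r) (Z : ℂ) (h : Z.re ≤ 0) (h1 : ∀ j, exp (Z - θ j * I) ≠ 1) :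
    HasDerivAt (W p θ c) (W' p θ Z) Z ∧ ContinuousAt (W' p θ) Z := by
  have hs : ∀ j, 1 - exp (Z - θ j * I) ∈ slitPlane := fun j =>
    slit _ (by rw [nrm]; exact Real.exp_le_one_iff.2 h) (h1 j)
  constructor
  · have h2 : ∀ j ∈ Finset.univ, HasDerivAt (fun Z : ℂ => p j * log (1 - exp (Z - θ j * I)))
        (p j * (-exp (Z - θ j * I) / (1 - exp (Z - θ j * I)))) Z := fun j _ => by
      have := (((((hasDerivAt_id Z).sub_const (θ j * I)).cexp).const_sub 1).clog (hs j)).const_mul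
        (p j : ℂ)
      simpa using this
    have h3 := ((((hasDerivAt_id Z).const_mul (r : ℂ)).sub
      ((HasDerivAt.fun_sum h2).const_mul 2)).add_const (c : ℂ))
    refine h3.congr_deriv ?_
    have hp' : (r : ℂ) = ∑ j, (p j : ℂ) := by exact_mod_cast hp.symm
    rw [mul_one, hp', Finset.mul_sum, ← Finset.sum_sub_distrib]
    refine Finset.sum_congr rfl fun j _ => ?_
    have := slitPlane_ne_zero (hs j)
    field_simp
    ring
  · unfold W'
    refine tendsto_finset_sum _ fun j _ => ?_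
    have := slitPlane_ne_zero (hs j)
    exact (by fun_prop (disch := assumption) : ContinuousAt
      (fun Z : ℂ => p j * ((1 + exp (Z - θ j * I)) / (1 - exp (Z - θ j * I)))) Z)

lemma Wre (hr : 1 ≤ r) (hp0 : ∀ j, 0 ≤ p j) (hp : ∑ j, p j = r) (Z : ℂ) (h : Z.re < 0) :
    0 < (W' p θ Z).re := by
  have h1 : ∀ j, 0 < ((1 + exp (Z - θ j * I)) / (1 - exp (Z - θ j * I))).re := fun j => by
    set u := exp (Z - θ j * I)
    have hu : ‖u‖ < 1 := by rw [nrm]; exact Real.exp_lt_one_iff.2 h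
    have h0 : 1 - u ≠ 0 := sub_ne_zero.2 (ne_one Z _ h).symm
    have hn : normSq u < 1 := by rw [← Complex.sq_norm]; nlinarith [norm_nonneg u]
    rw [div_re, ← add_div]
    refine div_pos ?_ (normSq_pos.2 h0)
    rw [normSq_apply] at hn
    simp; nlinarith
  obtain ⟨k, hk⟩ : ∃ k, 0 < p k := by
    by_contra hn
    push Not at hn
    have : ∑ j, p j ≤ 0 := Finset.sum_nonpos fun j _ => hn j
    have h2 : (1 : ℝ) ≤ r := by exact_mod_cast hr
    linarith
  unfold W'
  rw [re_sum]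
  refine Finset.sum_pos' (fun j _ => ?_) ⟨k, Finset.mem_univ _, ?_⟩
  · rw [re_ofReal_mul]; exact mul_nonneg (hp0 j) (h1 j).le
  · rw [re_ofReal_mul]; exact mul_pos hk (h1 k)

lemma Winj (hr : 1 ≤ r) (hp0 : ∀ j, 0 ≤ p j) (hp : ∑ j, p j = r) (Z₁ Z₂ : ℂ) (h₁ : Z₁.re < 0)
    (h₂ : Z₂.re < 0) (e : W p θ c Z₁ = W p θ c Z₂) : Z₁ = Z₂ := by
  by_contra hn
  have hd : Z₁ - Z₂ ≠ 0 := sub_ne_zero.2 hn
  have hre : ∀ t : ℝ, t ∈ Icc (0 : ℝ) 1 → (Z₂ + t * (Z₁ - Z₂)).re < 0 := fun t ht => by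
    simp only [add_re, re_ofReal_mul, sub_re]
    rcases eq_or_lt_of_le ht.1 with h | h
    · rw [← h]; linarith
    · nlinarith [ht.2]
  have hD : ∀ t ∈ Icc (0 : ℝ) 1, HasDerivAt
      (fun t : ℝ => (W p θ c (Z₂ + t * (Z₁ - Z₂)) / (Z₁ - Z₂)).re)
      (W' p θ (Z₂ + t * (Z₁ - Z₂))).re t := fun t ht => by
    have a := (Wd p θ c hp _ (hre t ht).le fun j => ne_one _ _ (hre t ht)).1
    have b : HasDerivAt (fun s : ℂ => Z₂ + s * (Z₁ - Z₂)) (Z₁ - Z₂) (t : ℂ) := by
      simpa using ((hasDerivAt_id (t : ℂ)).mul_const (Z₁ - Z₂)).const_add Z₂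
    have d := ((a.comp (t : ℂ) b).div_const (Z₁ - Z₂)).real_of_complex
    rwa [mul_div_cancel_right₀ _ hd] at d
  obtain ⟨t, ht, h⟩ := exists_hasDerivAt_eq_slope _ _ zero_lt_one
    (fun t ht => (hD t ht).continuousAt.continuousWithinAt) fun t ht => hD t (Ioo_subset_Icc_self ht)
  have := Wre p θ hr hp0 hp _ (hre t (Ioo_subset_Icc_self ht))
  rw [h] at this
  simp [e] at this

lemma Wper (Z : ℂ) (n : ℤ) :
    W p θ c (Z + n * (2 * π * I)) = W p θ c Z + n * ((r * (2 * π) : ℝ) : ℂ) * I := by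
  have : ∀ j, exp (Z + n * (2 * π * I) - θ j * I) = exp (Z - θ j * I) := fun j => by
    rw [add_sub_right_comm, exp_add, exp_int_mul_two_pi_mul_I, mul_one]
  simp only [W, this]
  push_cast
  ring

lemma W_re (Z : ℂ) :
    (W p θ c Z).re = r * Z.re - 2 * ∑ j, p j * Real.log ‖1 - exp (Z - θ j * I)‖ + c := by
  simp [W, log_re]

lemma W_im (Z : ℂ) :
    (W p θ c Z).im = r * Z.im - 2 * ∑ j, p j * arg (1 - exp (Z - θ j * I)) := by
  simp [W, log_im]

lemma W_bd (hp0 : ∀ j, 0 ≤ p j) (hp : ∑ j, p j = r) (Z : ℂ) (h : Z.re < 0) :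
    r * Z.re - 2 * (r * Real.log (1 + Real.exp Z.re)) + c ≤ (W p θ c Z).re ∧
    (W p θ c Z).re ≤ r * Z.re - 2 * (r * Real.log (1 - Real.exp Z.re)) + c := by
  have h1 := Real.exp_lt_one_iff.2 h
  have a : ∀ j, 1 - Real.exp Z.re ≤ ‖1 - exp (Z - θ j * I)‖ := fun j => by
    simpa [nrm] using norm_sub_norm_le 1 (exp (Z - θ j * I))
  have b : ∀ j, ‖1 - exp (Z - θ j * I)‖ ≤ 1 + Real.exp Z.re := fun j => by
    simpa [nrm] using norm_sub_le 1 (exp (Z - θ j * I))
  rw [W_re, ← hp, Finset.sum_mul, Finset.sum_mul, Finset.sum_mul]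
  constructor
  · gcongr with j
    · exact hp0 j
    · linarith [a j]
    · exact b j
  · gcongr with j
    · exact hp0 j
    · exact a j

lemma arg_bd (φ : ℝ) (h : φ ∈ Ioo 0 (2 * π)) :
    arg (1 - exp (φ * I)) = (φ - π) / 2 ∧ exp (φ * I) ≠ 1 := by
  have hs : 0 < Real.sin (φ / 2) := Real.sin_pos_of_pos_of_lt_pi (by linarith [h.1]) (by linarith [h.2])
  have e : 1 - exp (φ * I) = ((2 * Real.sin (φ / 2) : ℝ) : ℂ) * exp (((φ - π) / 2 : ℝ) * I) := by
    have a : Real.cos φ = 1 - 2 * Real.sin (φ / 2) ^ 2 := by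
      have := Real.cos_two_mul (φ / 2)
      rw [show 2 * (φ / 2) = φ by ring] at this
      nlinarith [Real.sin_sq_add_cos_sq (φ / 2)]
    have b : Real.sin φ = 2 * Real.sin (φ / 2) * Real.cos (φ / 2) := by
      rw [← Real.sin_two_mul]; ring_nf
    apply Complex.ext
    · rw [re_ofReal_mul, exp_ofReal_mul_I_re, sub_re, exp_ofReal_mul_I_re, sub_div,
        Real.cos_sub_pi_div_two, a]
      simp only [one_re]; ring
    · rw [im_ofReal_mul, exp_ofReal_mul_I_im, sub_im, exp_ofReal_mul_I_im, sub_div,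
        Real.sin_sub_pi_div_two, b]
      simp only [one_im]; ring
  constructor
  · rw [e, arg_real_mul _ (by linarith), exp_mul_I, arg_cos_add_sin_mul_I]
    constructor <;> linarith [h.1, h.2, Real.pi_pos]
  · intro h1
    rw [h1, sub_self] at e
    have := e.symm
    simp only [mul_eq_zero, ofReal_eq_zero, exp_ne_zero, or_false] at this
    rcases this with h | h <;> linarith

open Classical in
lemma bdry (hr : 1 ≤ r) (hp : ∑ j, p j = r) (hθ : ∀ j, θ j ∈ Ico 0 (2 * π)) :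
    ∃ a : Fin r → ℝ, ∀ t ∈ Ioo 0 (2 * π), (∀ j, t ≠ θ j) →
      (∀ j, exp (t * I - θ j * I) ≠ 1) ∧
      ∃ k, (((W p θ c (t * I)).im - a k : ℝ) : AddCircle ((r : ℝ) * (2 * π))) = 0 := by
  refine ⟨fun k => ∑ j, p j * (θ j + π) - 2 * π * ∑ j, if θ k ≤ θ j then p j else 0,
    fun t ht hne => ?_⟩
  have key : ∀ j, arg (1 - exp (t * I - θ j * I)) =
      (t - θ j - π) / 2 + (if t < θ j then π else 0) ∧ exp (t * I - θ j * I) ≠ 1 := fun j => by
    rcases lt_or_gt_of_ne (hne j) with h | h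
    · have := arg_bd (t - θ j + 2 * π) ⟨by linarith [ht.1, (hθ j).2], by linarith⟩
      have e : exp ((t - θ j + 2 * π : ℝ) * I) = exp (t * I - θ j * I) := by
        push_cast
        rw [add_mul, exp_add, exp_two_pi_mul_I, mul_one, sub_mul]
      rw [e] at this
      exact ⟨by rw [this.1, if_pos h]; ring, this.2⟩
    · have := arg_bd (t - θ j) ⟨by linarith, by linarith [ht.2, (hθ j).1]⟩
      have e : exp ((t - θ j : ℝ) * I) = exp (t * I - θ j * I) := by
        push_cast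
        rw [sub_mul]
      rw [e] at this
      exact ⟨by rw [this.1, if_neg h.not_gt]; ring, this.2⟩
  refine ⟨fun j => (key j).2, ?_⟩
  have him : (W p θ c (t * I)).im =
      ∑ j, p j * (θ j + π) - 2 * π * ∑ j, if t < θ j then p j else 0 := by
    rw [W_im]
    simp only [fun j => (key j).1, mul_im, ofReal_re, I_im, ofReal_im, I_re, mul_one, mul_zero,
      add_zero]
    rw [← hp, Finset.sum_mul, Finset.mul_sum, Finset.mul_sum, ← Finset.sum_sub_distrib,
      ← Finset.sum_sub_distrib]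
    refine Finset.sum_congr rfl fun j _ => ?_
    split_ifs <;> ring
  by_cases hJ : ∃ j, t < θ j
  · obtain ⟨k, hk, hmin⟩ := (Finset.univ.filter fun j => t < θ j).exists_min_image θ
      (by obtain ⟨j, hj⟩ := hJ; exact ⟨j, by simpa using hj⟩)
    simp only [Finset.mem_filter, Finset.mem_univ, true_and] at hk hmin
    refine ⟨k, ?_⟩
    have : ∀ j, t < θ j ↔ θ k ≤ θ j := fun j => ⟨hmin j, fun h => hk.trans_le h⟩
    simp [him, this]
  · push Not at hJ
    obtain ⟨k, -, hmin⟩ := Finset.univ.exists_min_image θ ⟨⟨0, hr⟩, Finset.mem_univ _⟩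
    refine ⟨k, ?_⟩
    have h1 : ∀ j, ¬ t < θ j := fun j => (hJ j).not_gt
    have h2 : ∀ j, θ k ≤ θ j := fun j => hmin j (Finset.mem_univ _)
    simp only [him, h1, h2, if_true, if_false, hp, Finset.sum_const_zero]
    rw [show ∑ j, p j * (θ j + π) - 2 * π * 0 - (∑ j, p j * (θ j + π) - 2 * π * r) =
      r * (2 * π) by ring]
    exact AddCircle.coe_period _

lemma exT {ι : Type} [Fintype ι] [Nonempty ι] (a : ι → ℝ) (P : ℝ) :
    ∃ T : ℝ → ℝ, (∀ y y', |T y - T y'| ≤ |y - y'|) ∧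
      (∀ y, ∃ k, T y = min ‖((y - a k : ℝ) : AddCircle P)‖ π) ∧
      (∀ y (n : ℤ), T (y - n * P) = T y) ∧
      ∀ y k, ((y - a k : ℝ) : AddCircle P) = 0 → T y = 0 := by
  set d : ℝ → ℝ := fun y => Finset.univ.inf' Finset.univ_nonempty
    fun k => ‖((y - a k : ℝ) : AddCircle P)‖ with hd
  have h1 : ∀ y, ∃ k, d y = ‖((y - a k : ℝ) : AddCircle P)‖ := fun y => by
    obtain ⟨k, -, hk⟩ := Finset.exists_mem_eq_inf' Finset.univ_nonempty
      fun k => ‖((y - a k : ℝ) : AddCircle P)‖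
    exact ⟨k, hk⟩
  have h2 : ∀ y k, d y ≤ ‖((y - a k : ℝ) : AddCircle P)‖ := fun y k =>
    Finset.inf'_le _ (Finset.mem_univ k)
  have h3 : ∀ y y', d y ≤ d y' + |y - y'| := fun y y' => by
    obtain ⟨k, hk⟩ := h1 y'
    have e : ((y - a k : ℝ) : AddCircle P) = ((y' - a k : ℝ) : AddCircle P) + ((y - y' : ℝ) : _) := by
      rw [← AddCircle.coe_add]; congr 1; ring
    have := h2 y k
    rw [e] at this
    have b : ‖((y - y' : ℝ) : AddCircle P)‖ ≤ |y - y'| := QuotientAddGroup.norm_mk_le_norm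
    linarith [norm_add_le ((y' - a k : ℝ) : AddCircle P) ((y - y' : ℝ) : AddCircle P)]
  refine ⟨fun y => min (d y) π, fun y y' => ?_, fun y => ?_, fun y n => ?_, fun y k h => ?_⟩
  · refine (abs_min_sub_min_le_max _ _ _ _).trans (max_le ?_ (by simp))
    have a := h3 y y'
    have b := h3 y' y
    rw [abs_sub_comm] at b
    exact abs_le.2 ⟨by linarith, by linarith⟩
  · obtain ⟨k, hk⟩ := h1 y
    exact ⟨k, by simp only [hk]⟩
  · have : ∀ k, ((y - n * P - a k : ℝ) : AddCircle P) = ((y - a k : ℝ) : AddCircle P) := fun k => by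
      rw [sub_right_comm, AddCircle.coe_sub (x := y - a k), ← zsmul_eq_mul, AddCircle.coe_zsmul,
        AddCircle.coe_period, smul_zero, sub_zero]
    simp only [hd, this]
  · have a := h2 y k
    obtain ⟨k', b⟩ := h1 y
    rw [h, norm_zero] at a
    have : d y = 0 := le_antisymm a (by rw [b]; positivity)
    simp only [this, min_eq_left Real.pi_pos.le]

theorem ineq (hr : 1 ≤ r) (hp0 : ∀ j, 0 ≤ p j) (hp : ∑ j, p j = r) (hθ : ∀ j, θ j ∈ Ico 0 (2 * π))
    (hc : ∀ t : ℝ, (∀ j, exp (t * I - θ j * I) ≠ 1) → 0 ≤ (W p θ c (t * I)).re)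
    (L : ℝ) (hL : 0 < L) (x0 x1 : ℝ)
    (h0 : x0 = r * (-L) - 2 * (r * Real.log (1 + Real.exp (-L))) + c)
    (h1 : x1 = r * (-L) - 2 * (r * Real.log (1 - Real.exp (-L))) + c) (hx1 : x1 ≤ 0) :
    2 * (Real.log (4 - 3 * Real.exp x1) - x1) ≤ Real.log (4 * Real.exp (-x0) + 2) + r * L := by
  haveI : Nonempty (Fin r) := ⟨⟨0, hr⟩⟩
  have hr' : (1 : ℝ) ≤ r := by exact_mod_cast hr
  set P : ℝ := r * (2 * π) with hP
  have hP0 : 0 < P := by positivity
  obtain ⟨a, ha⟩ := bdry p θ c hr hp hθ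
  obtain ⟨T, T1, T2, T3, T4⟩ := exT a P
  have Tc : Continuous T := (LipschitzWith.of_dist_le_mul (K := 1) fun u v => by
    simpa [Real.dist_eq] using T1 u v).continuous
  set τ : ℂ → ℂ := fun w => w.re + T w.im * I with hτ
  have τc : Continuous τ := by fun_prop
  have τ1 : ∀ u v, ‖τ u - τ v‖ ≤ ‖u - v‖ := fun u v => by
    refine (abs_le_of_sq_le_sq' ?_ (norm_nonneg _)).2
    have := sq_le_sq.2 (T1 u.im v.im)
    rw [Complex.sq_norm, Complex.sq_norm, normSq_apply, normSq_apply]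
    simp [hτ]; nlinarith
  set f : ℂ → ℝ≥0∞ := fun w => ENNReal.ofReal (‖1 - exp (τ w)‖⁻¹) with hf
  have fm : Measurable f := by fun_prop
  have Wm : Measurable (W p θ c) := by unfold W; fun_prop
  have Wm' : Measurable (W' p θ) := by unfold W'; fun_prop
  set S : Set ℂ := Ioo (-L) 0 ×ℂ Ioo 0 (2 * π) with hS
  have hSm : MeasurableSet S :=
    (Complex.measurable_re measurableSet_Ioo).inter (Complex.measurable_im measurableSet_Ioo)
  set M := Real.log (4 * Real.exp (-x0) + 2) with hM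
  have hM0 : 0 ≤ M := Real.log_nonneg (by linarith [Real.exp_pos (-x0)])
  set m := Real.log (4 - 3 * Real.exp x1) - x1 with hm
  have A1 : ∫⁻ z in S, ENNReal.ofReal (‖W' p θ z‖ ^ 2) * f (W p θ c z) ≤
      ∫⁻ w in Ici x0 ×ℂ Ioc 0 P, f w := by
    refine periodic_area P hP0 _ _ S hSm Wm
      (fun z hz => (Wd p θ c hp z hz.1.2.le fun j => ne_one _ _ hz.1.2).1)
      (fun z₁ h₁ z₂ h₂ n e => ?_) x0 (fun z hz => ?_) f fun w n => ?_
    · have e1 := Winj p θ c hr hp0 hp z₁ (z₂ + n * (2 * π * I)) h₁.1.2 (by simpa using h₂.1.2)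
        (by rw [Wper]; linear_combination e)
      have hi := congrArg Complex.im e1
      simp at hi
      have a1 := h₁.2.1
      have a2 := h₁.2.2
      have b1 := h₂.2.1
      have b2 := h₂.2.2
      have h1 : (-1 : ℝ) < n := by nlinarith [Real.pi_pos]
      have h2 : (n : ℝ) < 1 := by nlinarith [Real.pi_pos]
      have h1' : -1 < n := by exact_mod_cast h1
      have h2' : n < 1 := by exact_mod_cast h2
      have : n = 0 := by omega
      simpa [this] using e1
    · refine le_trans ?_ (W_bd p θ c hp0 hp z hz.1.2).1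
      have q1 : Real.exp (-L) ≤ Real.exp z.re := Real.exp_le_exp.2 hz.1.1.le
      have q2 : Real.exp z.re ≤ 1 := Real.exp_le_one_iff.2 hz.1.2.le
      have q3 := Real.exp_pos (-L)
      have q4 : Real.log (Real.exp (-L) * (1 + Real.exp z.re) ^ 2) ≤
          Real.log (Real.exp z.re * (1 + Real.exp (-L)) ^ 2) :=
        Real.log_le_log (by positivity) (by
          nlinarith [mul_nonneg (sub_nonneg.2 q1) (sub_nonneg.2 (mul_le_one₀ q2 q3.le (q1.trans q2)))])
      rw [Real.log_mul q3.ne' (by positivity), Real.log_mul (by positivity) (by positivity),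
        Real.log_exp, Real.log_exp, Real.log_pow, Real.log_pow] at q4
      rw [h0]
      push_cast at q4
      nlinarith
    · simp [hf, hτ, T3]
  have gm : Measurable fun w : ℂ => ENNReal.ofReal (‖1 - exp w‖⁻¹) := by fun_prop
  have A2 : ∫⁻ w in Ici x0 ×ℂ Ioc 0 P, f w ≤ ENNReal.ofReal r * ENNReal.ofReal (M * (2 * π)) := by
    refine le_trans ?_ (mul_le_mul_right (sym_area x0) _)
    rw [(fubini _ _ measurableSet_Ici measurableSet_Ioc f fm).1,
      (fubini _ _ measurableSet_Ici measurableSet_Ioo _ gm).1, ← lintegral_const_mul' _ _ (by simp)]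
    refine lintegral_mono_ae (ae_restrict_of_ae ?_)
    filter_upwards [(Set.countable_singleton (0 : ℝ)).ae_notMem volume] with x hx
    have hx' : x ≠ 0 := hx
    set Φ : ℝ → ℝ := fun t => ‖1 - exp (x + t * I)‖⁻¹ with hΦ
    have n0 : ∀ t : ℝ, 0 < ‖1 - exp (x + t * I)‖ := fun t => by
      refine norm_pos_iff.2 fun e => hx' ?_
      have := norm_exp (x + t * I)
      rw [← sub_eq_zero.1 e] at this
      simpa using this.symm
    have Φc : Continuous Φ := Continuous.inv₀ (by fun_prop) fun t => (n0 t).ne'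
    have R := rearr a Φ Φc (fun t => by
        simp only [hΦ]; push_cast
        rw [add_mul, ← add_assoc, exp_add, exp_two_pi_mul_I, mul_one])
      (fun t => by
        simp only [hΦ]
        rw [← Complex.norm_conj]
        simp [← exp_conj])
      (fun t => by
        refine inv_anti₀ (n0 t) ?_
        have e : 1 - exp (x + π * I) = ((1 + Real.exp x : ℝ) : ℂ) := by
          rw [exp_add, exp_pi_mul_I]; push_cast; ring
        rw [e, norm_real, Real.norm_eq_abs, abs_of_pos (by positivity)]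
        simpa [norm_exp] using norm_sub_le 1 (exp (x + t * I)))
      P (by simp [hP]) T Tc T2
    have Φ0 : ∀ t, 0 ≤ Φ t := fun t => by simp only [hΦ]; positivity
    rw [intervalIntegral.integral_of_le hP0.le, intervalIntegral.integral_of_le (by positivity),
      Fintype.card_fin] at R
    have R2 := ENNReal.ofReal_le_ofReal R
    rw [ENNReal.ofReal_mul (by positivity), ofReal_integral_eq_lintegral_ofReal (f := fun y => Φ (T y))
      ((Φc.comp Tc).integrableOn_Icc.mono_set Ioc_subset_Icc_self)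
      (Eventually.of_forall fun s => Φ0 _), ofReal_integral_eq_lintegral_ofReal
      (Φc.integrableOn_Icc.mono_set Ioc_subset_Icc_self) (Eventually.of_forall fun s => Φ0 _),
      ← setLIntegral_congr (Ioo_ae_eq_Ioc (a := 0) (b := 2 * π))] at R2
    simpa [hf, hτ, hΦ] using R2
  set g : ℂ → ℝ≥0∞ := fun z => ENNReal.ofReal (rho (τ (W p θ c z)) * ‖W' p θ z‖) with hg
  have gm2 : Measurable g := by unfold rho at hg; rw [hg]; fun_prop
  have B1 : ENNReal.ofReal m * ENNReal.ofReal (2 * π) ≤ ∫⁻ z in S, g z := by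
    rw [(fubini _ _ measurableSet_Ioo measurableSet_Ioo g gm2).2]
    have : ENNReal.ofReal m * ENNReal.ofReal (2 * π) =
        ∫⁻ _ in Ioo 0 (2 * π), ENNReal.ofReal m := by simp
    rw [this]
    refine lintegral_mono_ae ((ae_restrict_iff' measurableSet_Ioo).2 ?_)
    filter_upwards [(Set.countable_range θ).ae_notMem volume] with t ht1 ht2
    obtain ⟨b1, k, b2⟩ := ha t ht2 fun j e => ht1 ⟨j, e.symm⟩
    have D : ∀ s : ℝ, s ≤ 0 → HasDerivAt (W p θ c) (W' p θ (s + t * I)) (s + t * I) ∧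
        ContinuousAt (W' p θ) (s + t * I) := fun s hs => by
      refine Wd p θ c hp _ (by simpa using hs) fun j => ?_
      rcases eq_or_lt_of_le hs with h | h
      · simpa [h] using b1 j
      · exact ne_one _ _ (by simpa using h)
    have D2 : ∀ s : ℝ, s ≤ 0 → HasDerivAt (fun s : ℝ => W p θ c (s + t * I))
        (W' p θ (s + t * I)) s := fun s hs => by
      simpa using ((D s hs).1.comp (s : ℂ) ((hasDerivAt_id (s : ℂ)).add_const (t * I))).comp_ofReal
    have Lg := length (fun s : ℝ => W p θ c (s + t * I)) (fun s : ℝ => W' p θ (s + t * I)) (-L) 0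
      (by linarith) (fun s hs => (D2 s hs.2).continuousAt.continuousWithinAt)
      (fun s hs => D2 s hs.2.le)
      (fun s hs => (ContinuousAt.comp (f := fun s : ℝ => (s + t * I : ℂ)) (D s hs.2.le).2
        (by fun_prop)).continuousWithinAt) τ τ1 H rho H_cont ?_
      (fun w => by unfold rho; positivity) H_deriv
    · refine le_trans (ENNReal.ofReal_le_ofReal (H_lower _ x1 ?_ hx1)) Lg
      have := (W_bd p θ c hp0 hp ((-L : ℝ) + t * I) (by simpa using hL)).2
      rw [h1]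
      simpa [hτ] using this
    · refine H_zero _ ?_
      simp only [hτ, ofReal_zero, zero_add, T4 _ k b2, zero_mul, add_zero, mem_slitPlane_iff]
      rw [← ofReal_exp, ← ofReal_one, ← ofReal_sub, ofReal_re, ofReal_im]
      simpa using hc t b1
  have B2 : ∫⁻ z in S, g z ≤ ∫⁻ z in S, (ENNReal.ofReal (2 * r)⁻¹ *
      (ENNReal.ofReal (‖W' p θ z‖ ^ 2) * f (W p θ c z)) + ENNReal.ofReal (r / 2)) := by
    refine lintegral_mono fun z => ?_
    simp only [hg, hf]
    rw [← ENNReal.ofReal_mul (by positivity), ← ENNReal.ofReal_mul (by positivity),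
      ← ENNReal.ofReal_add (by positivity) (by positivity)]
    refine ENNReal.ofReal_le_ofReal ?_
    have e : ‖1 - exp (τ (W p θ c z))‖⁻¹ = rho (τ (W p θ c z)) ^ 2 := by
      unfold rho; rw [Real.sq_sqrt (by positivity)]
    rw [e, ← mul_pow, mul_comm ‖W' p θ z‖]
    generalize rho (τ (W p θ c z)) * ‖W' p θ z‖ = y
    rw [← sub_nonneg]
    have : (2 * (r : ℝ))⁻¹ * y ^ 2 + r / 2 - y = (2 * (r : ℝ))⁻¹ * (y - r) ^ 2 := by
      field_simp; ring
    rw [this]; positivity
  have vS : volume S = ENNReal.ofReal (2 * π) * ENNReal.ofReal L := by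
    have := (fubini (Ioo (-L) 0) (Ioo 0 (2 * π)) measurableSet_Ioo measurableSet_Ioo (fun _ => 1)
      measurable_const).1
    simpa using this
  rw [lintegral_add_right _ measurable_const, lintegral_const_mul' _ _ ENNReal.ofReal_ne_top, lintegral_const,
    Measure.restrict_apply_univ, vS] at B2
  have C := B1.trans (B2.trans (add_le_add_left (mul_le_mul_right (A1.trans A2) _) _))
  rw [← ENNReal.ofReal_mul' (by positivity), ← ENNReal.ofReal_mul (by positivity),
    ← ENNReal.ofReal_mul (by positivity), ← ENNReal.ofReal_mul (by positivity),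
    ← ENNReal.ofReal_mul (by positivity), ← ENNReal.ofReal_add (by positivity) (by positivity),
    ENNReal.ofReal_le_ofReal_iff (by positivity)] at C
  have e : (2 * (r : ℝ))⁻¹ * (r * (M * (2 * π))) = M * π := by field_simp
  rw [e] at C
  nlinarith [Real.pi_pos]

theorem cbound (hr : 1 ≤ r) (hp0 : ∀ j, 0 ≤ p j) (hp : ∑ j, p j = r) (hθ : ∀ j, θ j ∈ Ico 0 (2 * π))
    (hc : ∀ t : ℝ, (∀ j, exp (t * I - θ j * I) ≠ 1) → 0 ≤ (W p θ c (t * I)).re) :
    Real.log 4 ≤ c := by
  set e0 : ℝ → ℝ := fun δ => δ ^ r * Real.exp (c - 2 * (r * Real.log (1 + δ))) with he0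
  set e1 : ℝ → ℝ := fun δ => δ ^ r * Real.exp (c - 2 * (r * Real.log (1 - δ))) with he1
  have c1 : ContinuousAt e1 0 := by
    simp only [he1]; fun_prop (disch := simp)
  have c0 : ContinuousAt e0 0 := by
    simp only [he0]; fun_prop (disch := simp)
  have z1 : e1 0 = 0 := by simp [he1, Nat.one_le_iff_ne_zero.1 hr]
  have z0 : e0 0 = 0 := by simp [he0, Nat.one_le_iff_ne_zero.1 hr]
  set G : ℝ → ℝ := fun δ => 2 * Real.log (4 - 3 * e1 δ) - Real.log (4 + 2 * e0 δ) +
    4 * (r * Real.log (1 - δ)) - 2 * (r * Real.log (1 + δ)) with hG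
  have cG : ContinuousAt G 0 := by
    simp only [hG]; fun_prop (disch := simp [z0, z1])
  have G0 : G 0 = Real.log 4 := by simp [hG, z0, z1]; ring
  have t1 : Tendsto G (𝓝[>] 0) (𝓝 (Real.log 4)) := G0 ▸ cG.tendsto.mono_left nhdsWithin_le_nhds
  refine le_of_tendsto t1 ?_
  have ev : ∀ᶠ δ in 𝓝[>] (0 : ℝ), e1 δ < 1 :=
    (c1.tendsto.mono_left nhdsWithin_le_nhds).eventually (gt_mem_nhds (by rw [z1]; norm_num))
  filter_upwards [ev, Ioo_mem_nhdsGT (zero_lt_one' ℝ)] with δ h1 h2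
  have hl : Real.log δ < 0 := Real.log_neg h2.1 h2.2
  have ed : Real.exp (- -Real.log δ) = δ := by rw [neg_neg, Real.exp_log h2.1]
  have ep : Real.exp (r * - -Real.log δ) = δ ^ r := by rw [Real.exp_nat_mul, ed]
  have q1 : Real.exp (r * (- -Real.log δ) - 2 * (r * Real.log (1 - δ)) + c) = e1 δ := by
    simp only [he1]; rw [← ep, ← Real.exp_add]; congr 1; ring
  have q0 : Real.exp (r * (- -Real.log δ) - 2 * (r * Real.log (1 + δ)) + c) = e0 δ := by
    simp only [he0]; rw [← ep, ← Real.exp_add]; congr 1; ring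
  have := ineq p θ c hr hp0 hp hθ hc (-Real.log δ) (by linarith) _ _ rfl rfl (by
    rw [ed, ← Real.exp_le_one_iff, q1]; exact h1.le)
  rw [ed, q1] at this
  set x0 := r * (- -Real.log δ) - 2 * (r * Real.log (1 + δ)) + c with hx0
  have q2 : Real.log (4 * Real.exp (-x0) + 2) = Real.log (4 + 2 * e0 δ) - x0 := by
    rw [← q0, eq_sub_iff_add_eq]
    conv_lhs => rw [← Real.log_exp x0, ← Real.log_mul (by positivity) (by positivity)]
    congr 1
    rw [Real.log_exp, add_mul, mul_assoc, ← Real.exp_add]; simp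
  rw [q2, hx0] at this
  simp only [hG]
  linarith

theorem main (r : ℕ) (hr : 1 ≤ r) (z : Fin r → ℂ) (hz : ∀ j, ‖z j‖ = 1) (p : Fin r → ℝ)
    (hp0 : ∀ j, 0 ≤ p j) (hp : ∑ j, p j = r) :
    ∃ w : ℂ, ‖w‖ = 1 ∧ 2 ≤ ∏ j, ‖w - z j‖ ^ p j := by
  have hF : Continuous fun w : ℂ => ∏ j, ‖w - z j‖ ^ p j :=
    continuous_finset_prod _ fun j _ => (Real.continuous_rpow_const (hp0 j)).comp (by fun_prop)
  obtain ⟨w, hw, hmax⟩ := (isCompact_sphere (0 : ℂ) 1).exists_isMaxOn ⟨1, by simp⟩ hF.continuousOn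
  refine ⟨w, by simpa using hw, ?_⟩
  set B := max (∏ j, ‖w - z j‖ ^ p j) 1 with hB
  have B0 : 0 < B := lt_max_of_lt_right one_pos
  set θ : Fin r → ℝ := fun j => toIcoMod Real.two_pi_pos 0 (arg (z j)) with hθ
  have hθ1 : ∀ j, exp (θ j * I) = z j := fun j => by
    have a := norm_mul_exp_arg_mul_I (z j)
    rw [hz j] at a
    simp only [hθ, toIcoMod, zsmul_eq_mul]
    push_cast
    rw [sub_mul, exp_sub, mul_assoc, exp_int_mul_two_pi_mul_I]
    simpa using a
  have := cbound p θ (2 * Real.log B) hr hp0 hp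
    (fun j => by simpa using toIcoMod_mem_Ico Real.two_pi_pos 0 (arg (z j))) fun t ht => by
      have e : ∀ j, ‖1 - exp (t * I - θ j * I)‖ = ‖exp (t * I) - z j‖ := fun j => by
        rw [← hθ1, ← mul_one ‖1 - _‖, ← norm_exp_ofReal_mul_I (θ j), ← norm_mul, norm_sub_rev,
          sub_mul, ← exp_add]
        simp
      have pos : ∀ j, 0 < ‖exp (t * I) - z j‖ := fun j => by
        rw [← e]; exact norm_pos_iff.2 (sub_ne_zero.2 (ht j).symm)
      have l : Real.log (∏ j, ‖exp (t * I) - z j‖ ^ p j) ≤ Real.log B :=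
        Real.log_le_log (Finset.prod_pos fun j _ => Real.rpow_pos_of_pos (pos j) _)
          (le_max_of_le_left (hmax (by simp)))
      rw [Real.log_prod fun j _ => (Real.rpow_pos_of_pos (pos j) _).ne'] at l
      simp only [Real.log_rpow (pos _)] at l
      rw [W_re]
      simp only [e]
      simp; linarith
  have h4 : Real.log 4 = 2 * Real.log 2 := by
    rw [show (4 : ℝ) = 2 ^ 2 by norm_num, Real.log_pow]; simp
  have h2 : 2 ≤ B := (Real.log_le_log_iff two_pos B0).1 (by linarith)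
  rcases le_max_iff.1 h2 with h | h
  · exact h
  · norm_num at h

end Pool.Agent.H1.Gran
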