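import Mathlib

namespace Pool.Agent.H1.Grn

open Real Metric Filter Topology Set InnerProductSpace Laplacian

abbrev E (n : ℕ) := EuclideanSpace ℝ (Fin n)

variable {n : ℕ}

lemma line_t (x v : E n) : Tendsto (fun t : ℝ => x + t • v) (𝓝 0) (𝓝 x) := by
  have : Continuous fun t : ℝ => x + t • v := by fun_prop
  simpa using this.tendsto 0

lemma line_d (x v : E n) (t : ℝ) : HasDerivAt (fun t : ℝ => x + t • v) v t := by
  simpa using ((hasDerivAt_id t).smul_const v).const_add x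

lemma d2_line {f : E n → ℝ} {x : E n} (hf : ContDiffAt ℝ 2 f x) (v : E n) :
    iteratedFDeriv ℝ 2 f x ![v, v] = deriv (deriv fun t : ℝ => f (x + t • v)) 0 := by
  have e : (deriv fun t : ℝ => f (x + t • v)) =ᶠ[𝓝 0] fun t => fderiv ℝ f (x + t • v) v := by
    filter_upwards [(line_t x v).eventually (hf.eventually (by simp))] with t ht
    exact ((ht.differentiableAt (by simp)).hasFDerivAt.comp_hasDerivAt t (line_d x v t)).deriv
  have h1 : HasFDerivAt (fderiv ℝ f) (fderiv ℝ (fderiv ℝ f) x) (x + (0 : ℝ) • v) := by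
    simpa using ((hf.fderiv_right (m := 1) (by norm_num)).differentiableAt (by simp)).hasFDerivAt
  have h2 := (h1.comp_hasDerivAt (0 : ℝ) (line_d x v 0)).clm_apply (hasDerivAt_const (0 : ℝ) v)
  rw [e.deriv_eq, iteratedFDeriv_two_apply]
  simpa using h2.deriv.symm

lemma lap_line {f : E n → ℝ} {x : E n} (hf : ContDiffAt ℝ 2 f x) :
    Δ f x = ∑ i, deriv (deriv fun t : ℝ => f (x + t • EuclideanSpace.single i (1 : ℝ))) 0 := by
  rw [laplacian_eq_iteratedFDeriv_orthonormalBasis _ (EuclideanSpace.basisFun (Fin n) ℝ)]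
  exact Finset.sum_congr rfl fun i _ => by rw [d2_line hf]; simp

lemma lap_max {f : E n → ℝ} {x : E n} (hf : ContDiffAt ℝ 2 f x) (hm : IsLocalMax f x) :
    Δ f x ≤ 0 := by
  rw [lap_line hf]
  refine Finset.sum_nonpos fun i _ => ?_
  set v : E n := EuclideanSpace.single i (1 : ℝ)
  have h1 : IsLocalMax (fun t : ℝ => f (x + t • v)) 0 := by
    filter_upwards [(line_t x v).eventually hm] with t ht using by simpa using ht
  by_contra hc
  have h2 := isLocalMin_of_deriv_deriv_pos (not_le.1 hc) h1.deriv_eq_zero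
    (hf.continuousAt.comp_of_eq (line_d x v 0).continuousAt (by simp))
  have h3 : (fun t : ℝ => f (x + t • v)) =ᶠ[𝓝 0] fun _ => f (x + (0 : ℝ) • v) := by
    filter_upwards [h1, h2] with t a b using le_antisymm a b
  rw [h3.deriv.deriv_eq] at hc
  simp at hc

lemma dd {g g1 : ℝ → ℝ} {c : ℝ} (h1 : ∀ᶠ t in 𝓝 (0 : ℝ), HasDerivAt g (g1 t) t)
    (h2 : HasDerivAt g1 c 0) : deriv (deriv g) 0 = c := by
  have : deriv g =ᶠ[𝓝 0] g1 := h1.mono fun t ht => ht.deriv
  rw [this.deriv_eq, h2.deriv]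

lemma nsq_line (x : E n) (i : Fin n) (t : ℝ) :
    ‖x + t • EuclideanSpace.single i (1 : ℝ)‖ ^ 2 = ‖x‖ ^ 2 + 2 * t * x i + t ^ 2 := by
  rw [norm_add_sq_real, inner_smul_right, norm_smul]
  simp [EuclideanSpace.inner_single_right, mul_assoc]

lemma lap_nsq (x : E n) : Δ (fun y : E n => ‖y‖ ^ 2) x = 2 * n := by
  rw [lap_line (contDiff_norm_sq ℝ).contDiffAt]
  have : ∀ i, deriv (deriv fun t : ℝ => ‖x + t • EuclideanSpace.single i (1 : ℝ)‖ ^ 2) 0 = 2 := by
    intro i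
    simp only [nsq_line]
    refine dd (g1 := fun t => 2 * x i + 2 * t) (Eventually.of_forall fun t => ?_) ?_
    · refine HasDerivAt.congr_deriv (((((hasDerivAt_id t).const_mul 2).mul_const (x i)).const_add
        _).add (hasDerivAt_pow 2 t)) (by simp)
    · simpa using ((hasDerivAt_id (0 : ℝ)).const_mul 2).const_add (2 * x i)
  simp [this, mul_comm]

/-- weak maximum principle -/
lemma maxp (hn : 1 ≤ n) {U : Set (E n)} (hU : IsOpen U) (hb : Bornology.IsBounded U)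
    {f : E n → ℝ} (hc : ContinuousOn f (closure U))
    (hs : ∀ z ∈ U, ContDiffAt ℝ 2 f z ∧ 0 ≤ Δ f z) {M : ℝ}
    (hM : ∀ z ∈ frontier U, f z ≤ M) : ∀ z ∈ closure U, f z ≤ M := by
  intro z hz
  obtain ⟨R, hR⟩ := hb.closure.exists_norm_le
  refine le_of_forall_pos_le_add fun e he => ?_
  set ε := e / (R ^ 2 + 1) with hε
  have hε0 : 0 < ε := by positivity
  obtain ⟨p, hp, hm⟩ := hb.isCompact_closure.exists_isMaxOn ⟨z, hz⟩
    (f := fun y => f y + ε * ‖y‖ ^ 2) (hc.add (by fun_prop))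
  have h1 : p ∈ frontier U := by
    rw [hU.frontier_eq]
    refine ⟨hp, fun h => ?_⟩
    have h0 : ContDiffAt ℝ 2 (fun y : E n => ‖y‖ ^ 2) p := (contDiff_norm_sq ℝ).contDiffAt
    have h2 := lap_max ((hs p h).1.add (h0.const_smul ε))
      (hm.isLocalMax (mem_of_superset (hU.mem_nhds h) subset_closure))
    have h3 := (hs p h).1.laplacian_add (h0.const_smul ε)
    have h4 := laplacian_smul ε h0
    rw [lap_nsq] at h4
    have h5 : (1 : ℝ) ≤ n := by exact_mod_cast hn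
    have h6 : Δ f p + ε * (2 * n) ≤ 0 := by
      rw [← smul_eq_mul, ← h4]; exact h3.ge.trans h2
    nlinarith [(hs p h).2]
  have h2 : f z + ε * ‖z‖ ^ 2 ≤ f p + ε * ‖p‖ ^ 2 := hm hz
  have h3 : ‖p‖ ^ 2 ≤ R ^ 2 + 1 := by nlinarith [hR p hp, norm_nonneg p]
  have h4 : ε * ‖p‖ ^ 2 ≤ e := by
    calc _ ≤ ε * (R ^ 2 + 1) := by gcongr
      _ = e := by rw [hε]; field_simp
  nlinarith [hM p h1, sq_nonneg ‖z‖]

lemma lap_cone {U U1 : ℝ → ℝ} {U2 c : ℝ} (j : Fin n) (b x : E n) (hx : x - b ≠ 0)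
    (hU : ContDiffAt ℝ 2 U (‖x - b‖ - c * (x - b) j))
    (h1 : ∀ᶠ s in 𝓝 (‖x - b‖ - c * (x - b) j), HasDerivAt U (U1 s) s)
    (h2 : HasDerivAt U1 U2 (‖x - b‖ - c * (x - b) j)) :
    ContDiffAt ℝ 2 (fun y : E n => U (‖y - b‖ - c * (y - b) j)) x ∧
    Δ (fun y : E n => U (‖y - b‖ - c * (y - b) j)) x =
      U2 * (1 - 2 * c * (x - b) j / ‖x - b‖ + c ^ 2)
        + U1 (‖x - b‖ - c * (x - b) j) * ((n - 1) / ‖x - b‖) := by
  have hw : ContDiffAt ℝ 2 (fun y : E n => ‖y - b‖ - c * (y - b) j) x := by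
    refine ((contDiffAt_id.sub contDiffAt_const).norm ℝ hx).sub ?_
    simp only [PiLp.sub_apply]
    fun_prop
  have hF := hU.comp x hw
  refine ⟨hF, ?_⟩
  erw [lap_line hF]
  set z := x - b with hz
  have hρ : 0 < ‖z‖ := norm_pos_iff.2 hx
  have key : ∀ i, deriv (deriv fun t : ℝ => (U ∘ fun y : E n => ‖y - b‖ - c * (y - b) j)
      (x + t • EuclideanSpace.single i (1 : ℝ))) 0 =
      U2 * (z i / ‖z‖ - c * (if j = i then 1 else 0)) ^ 2
        + U1 (‖z‖ - c * z j) * (1 / ‖z‖ - z i ^ 2 / ‖z‖ ^ 3) := by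
    intro i
    set δ : ℝ := if j = i then 1 else 0 with hδ
    set Q : ℝ → ℝ := fun t => ‖z‖ ^ 2 + 2 * t * z i + t ^ 2 with hQ
    set W : ℝ → ℝ := fun t => √(Q t) - c * (z j + t * δ) with hW
    have e : (fun t : ℝ => (U ∘ fun y : E n => ‖y - b‖ - c * (y - b) j)
      (x + t • EuclideanSpace.single i (1 : ℝ))) = fun t => U (W t) := by
      funext t
      simp only [Function.comp, hW, hQ]
      rw [add_sub_right_comm, ← hz, ← nsq_line, Real.sqrt_sq (norm_nonneg _)]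
      simp [hδ, Pi.single_apply]
    have q0 : √(Q 0) = ‖z‖ := by simp [hQ]
    have w0 : W 0 = ‖z‖ - c * z j := by simp [hW, q0]
    have dQ : ∀ t, HasDerivAt Q (2 * z i + 2 * t) t := fun t =>
      HasDerivAt.congr_deriv (((((hasDerivAt_id t).const_mul 2).mul_const (z i)).const_add
        _).add (hasDerivAt_pow 2 t)) (by simp)
    have hQ0 : Q 0 ≠ 0 := by simp [hQ, hx]
    have dW : ∀ t, Q t ≠ 0 → HasDerivAt W ((z i + t) / √(Q t) - c * δ) t := fun t ht =>
      HasDerivAt.congr_deriv (((dQ t).sqrt ht).sub ((((hasDerivAt_id t).mul_const δ).const_add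
        (z j)).const_mul c)) (by field_simp)
    rw [e]
    refine dd (g1 := fun t => U1 (W t) * ((z i + t) / √(Q t) - c * δ)) ?_ ?_
    · filter_upwards [(dQ 0).continuousAt.eventually_ne hQ0,
        (dW 0 hQ0).continuousAt.eventually (w0 ▸ h1)] with t a b
      exact b.comp t (dW t a)
    · have a1 := (w0 ▸ h2 : HasDerivAt U1 U2 (W 0)).comp (0 : ℝ) (dW 0 hQ0)
      have a2 := (((hasDerivAt_id (0 : ℝ)).const_add (z i)).div ((dQ 0).sqrt hQ0)
        (by rw [q0]; exact hρ.ne')).sub_const (c * δ)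
      refine HasDerivAt.congr_deriv (a1.mul a2) ?_
      simp only [Function.comp, q0, w0, id, Pi.div_apply]
      field_simp
      ring
  simp only [key]
  have s1 : ∑ i, z i ^ 2 = ‖z‖ ^ 2 := (EuclideanSpace.real_norm_sq_eq z).symm
  have s2 : ∀ i, (z i / ‖z‖ - c * (if j = i then 1 else 0)) ^ 2 = z i ^ 2 / ‖z‖ ^ 2 +
      (if j = i then -(2 * c * z j / ‖z‖) + c ^ 2 else 0) := by
    intro i
    split_ifs with h
    · subst h; ring
    · ring
  simp only [s2, Finset.sum_add_distrib, ← Finset.mul_sum, Finset.sum_sub_distrib,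
    ← Finset.sum_div, s1]
  simp
  field_simp
  ring

end Pool.Agent.H1.Grn
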