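import Mathlib

namespace Pool.Agent.H1.Grn

open Metric Filter Topology Set InnerProductSpace

/-- `U` is linearly accessible: every point outside `U` starts a closed half-line avoiding `U`. -/
def LinAcc {n : ℕ} (U : Set (EuclideanSpace ℝ (Fin n))) : Prop :=
  ∀ y ∉ U, ∃ v : EuclideanSpace ℝ (Fin n), ‖v‖ = 1 ∧ ∀ s : ℝ, 0 ≤ s → y + s • v ∉ U

/-- `u : D → (-∞, ∞]` is superharmonic on the domain `D`: lower semicontinuous, not identically
`∞`, and on every closed ball in `D` it dominates each function that is continuous on the closed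
ball, harmonic inside and dominated by `u` on the sphere. -/
def SuperHarm {n : ℕ} (D : Set (EuclideanSpace ℝ (Fin n)))
    (u : EuclideanSpace ℝ (Fin n) → EReal) : Prop :=
  LowerSemicontinuousOn u D ∧ (∀ x ∈ D, u x ≠ ⊥) ∧ (∃ x ∈ D, u x ≠ ⊤) ∧
  ∀ (c : EuclideanSpace ℝ (Fin n)) (r : ℝ) (h : EuclideanSpace ℝ (Fin n) → ℝ), 0 < r →
    closedBall c r ⊆ D → ContinuousOn h (closedBall c r) → HarmonicOnNhd h (ball c r) →
    (∀ x ∈ sphere c r, (h x : EReal) ≤ u x) → ∀ x ∈ ball c r, (h x : EReal) ≤ u x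

/-- The positive superharmonic functions `u` on `D` such that `u(x) - |x - x₀|^(2-n)` is harmonic
near `x₀` (agrees off `x₀` with a function harmonic near `x₀`). -/
def GreenCand {n : ℕ} (D : Set (EuclideanSpace ℝ (Fin n))) (x₀ : EuclideanSpace ℝ (Fin n)) :
    Set (EuclideanSpace ℝ (Fin n) → EReal) :=
  {u | SuperHarm D u ∧ (∀ x ∈ D, 0 < u x) ∧ ∃ H : EuclideanSpace ℝ (Fin n) → ℝ,
    HarmonicAt H x₀ ∧ ∀ᶠ x in 𝓝[≠] x₀, u x = ((‖x - x₀‖ ^ ((2 : ℤ) - n) + H x : ℝ) : EReal)}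

/-- The Green function of `D` with pole `x₀` (`n ≥ 3`): the pointwise infimum of `GreenCand D x₀`,
hence its smallest member. -/
noncomputable def green {n : ℕ} (D : Set (EuclideanSpace ℝ (Fin n)))
    (x₀ x : EuclideanSpace ℝ (Fin n)) : EReal :=
  ⨅ u ∈ GreenCand D x₀, u x

end Pool.Agent.H1.Grn
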