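import Pool.Agent.H1.GrnA
import Pool.Agent.H1.GrnDefs

namespace Pool.Agent.H1.Grn

open Real Metric Filter Topology Set InnerProductSpace Laplacian

variable {n : ℕ}

lemma lin_harm (L : E n →L[ℝ] ℝ) (x : E n) : HarmonicAt L x := by
  refine ⟨L.contDiff.contDiffAt, Eventually.of_forall fun y => ?_⟩
  rw [laplacian_eq_iteratedFDeriv_orthonormalBasis _ (EuclideanSpace.basisFun (Fin n) ℝ)]
  have : fderiv ℝ L = fun _ => L := funext fun _ => L.fderiv
  simp [iteratedFDeriv_two_apply, this]

lemma minp {D G : Set (E n)} (hD : IsOpen D) (hG : IsOpen G) (hb : Bornology.IsBounded G)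
    (hGD : G ⊆ D) {u : E n → EReal} (hu : SuperHarm D u) (hpos : ∀ x ∈ D, 0 < u x) {φ : E n → ℝ}
    (hh : HarmonicOnNhd φ G) (hc : ContinuousOn φ (closure G))
    (h1 : ∀ p ∈ frontier G, p ∈ D → (φ p : EReal) ≤ u p)
    (h2 : ∀ p ∈ frontier G, p ∉ D → φ p ≤ 0) : ∀ z ∈ G, (φ z : EReal) ≤ u z := by
  classical
  intro z hz
  by_contra hcon
  rw [not_le] at hcon
  obtain ⟨R, hR⟩ := hb.closure.exists_norm_le
  obtain ⟨a, ha⟩ : ∃ a : ℝ, u z = a :=
    ⟨_, (EReal.coe_toReal hcon.ne_top (hu.2.1 z (hGD hz))).symm⟩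
  rw [ha, EReal.coe_lt_coe_iff] at hcon
  set γ := (φ z - a) / (R ^ 2 + 1) with hγ
  have hγ0 : 0 < γ := div_pos (by linarith) (by positivity)
  set v : E n → EReal := fun x => if x ∈ D then u x else 0 with hv
  have v0 : ∀ x, 0 ≤ v x := fun x => by
    simp only [hv]; split_ifs with h
    exacts [(hpos x h).le, le_rfl]
  have vl : LowerSemicontinuous v := fun p y hy => by
    by_cases hp : p ∈ D
    · simp only [hv, if_pos hp] at hy
      have := hu.1 p hp y hy
      rw [nhdsWithin_eq_nhds.2 (hD.mem_nhds hp)] at this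
      filter_upwards [this, hD.mem_nhds hp] with x a b using by simpa only [hv, if_pos b] using a
    · simp only [hv, if_neg hp] at hy
      exact Eventually.of_forall fun x => hy.trans_le (v0 x)
  set ψ : E n → ℝ := fun x => -(φ x + γ * ‖x‖ ^ 2) with hψ
  have ψc : ContinuousOn ψ (closure G) := (hc.add (by fun_prop)).neg
  obtain ⟨p, hp, hm⟩ := LowerSemicontinuousOn.exists_isMinOn ⟨z, subset_closure hz⟩
    hb.isCompact_closure (f := fun x => v x + (ψ x : EReal))
    ((vl.lowerSemicontinuousOn _).add' (continuous_coe_real_ereal.comp_continuousOn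
      ψc).lowerSemicontinuousOn fun x _ => EReal.continuousAt_add (by simp) (by simp))
  have hz' : v p + (ψ p : EReal) ≤ ((a + ψ z : ℝ) : EReal) := by
    have := hm (subset_closure hz)
    simpa only [mem_ofPred_eq, hv, if_pos (hGD hz), ha, ← EReal.coe_add] using this
  obtain ⟨b, hb'⟩ : ∃ b : ℝ, v p = b := by
    refine ⟨_, (EReal.coe_toReal (fun h => ?_) (fun h => ?_)).symm⟩
    · rw [h, EReal.top_add_coe] at hz'; exact absurd hz' (not_le.2 (EReal.coe_lt_top _))
    · simpa [h] using v0 p
  rw [hb', ← EReal.coe_add, EReal.coe_le_coe_iff] at hz'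
  have hpG : p ∈ G := by
    by_contra hn
    have hf : p ∈ frontier G := by rw [hG.frontier_eq]; exact ⟨hp, hn⟩
    have h3 : φ p ≤ b := by
      rw [← EReal.coe_le_coe_iff, ← hb']
      simp only [hv]; split_ifs with h
      exacts [h1 p hf h, by exact_mod_cast h2 p hf h]
    have h4 : γ * ‖p‖ ^ 2 < γ * (R ^ 2 + 1) := by
      gcongr; nlinarith [hR p hp, norm_nonneg p]
    have h5 : γ * (R ^ 2 + 1) = φ z - a := by rw [hγ]; field_simp
    simp only [hψ] at hz'
    nlinarith [sq_nonneg ‖z‖]
  obtain ⟨r, hr, hrG⟩ := Metric.nhds_basis_closedBall.mem_iff.1 (hG.mem_nhds hpG)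
  have key := hu.2.2.2 p r (fun x => φ x + (2 * γ) • innerSL ℝ p x + (b + ψ p + γ * (r ^ 2 - ‖p‖ ^ 2)))
    hr (hrG.trans hGD) (((hh.mono hrG).continuousOn.add (by fun_prop)).add continuousOn_const)
    (fun x hx => ((hh x (hrG (ball_subset_closedBall hx))).add
      ((lin_harm (innerSL ℝ p) x).const_smul (c := 2 * γ))).add (harmonicAt_const _))
    (fun x hx => by
      have hx' := hrG (sphere_subset_closedBall hx)
      have h3 := hm (subset_closure hx')
      simp only [mem_ofPred_eq, hb'] at h3
      simp only [hv, if_pos (hGD hx')] at h3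
      have h4 : r ^ 2 = ‖x‖ ^ 2 - 2 * inner ℝ p x + ‖p‖ ^ 2 := by
        rw [← mem_sphere_iff_norm.1 hx, norm_sub_sq_real, real_inner_comm]
      have h5 : φ x + (2 * γ) • innerSL ℝ p x + (b + ψ p + γ * (r ^ 2 - ‖p‖ ^ 2))
          = b + ψ p - ψ x := by
        simp only [hψ, innerSL_apply_apply, smul_eq_mul, h4]; ring
      rw [h5, EReal.coe_sub, EReal.coe_add]
      exact EReal.sub_le_of_le_add h3) p (mem_ball_self hr)
  simp only [hv, if_pos (hGD hpG)] at hb'
  rw [hb', EReal.coe_le_coe_iff] at key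
  simp only [hψ, innerSL_apply_apply, smul_eq_mul, real_inner_self_eq_norm_sq] at key
  nlinarith [mul_pos hγ0 (pow_pos hr 2)]

/-- a function harmonic off `a` with limit `∞` at `a` is superharmonic -/
lemma sh_pole (hn : 1 ≤ n) {D : Set (E n)} {a : E n} {f : E n → ℝ}
    (hh : ∀ x ∈ D, x ≠ a → HarmonicAt f x) (ht : Tendsto f (𝓝[≠] a) atTop) {z : E n} (hz : z ∈ D)
    (hza : z ≠ a) : SuperHarm D (fun x => if x = a then ⊤ else (f x : EReal)) := by
  refine ⟨fun p hp y hy => ?_, fun x _ => by dsimp only; split_ifs <;> simp, ⟨z, hz, by simp [hza]⟩, ?_⟩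
  · refine mem_nhdsWithin_of_mem_nhds ?_
    by_cases h : p = a
    · subst h
      obtain ⟨c, hc⟩ := EReal.lt_iff_exists_real_btwn.1 (show y < ⊤ by simpa using hy)
      have := eventually_nhdsWithin_iff.1 (ht.eventually_gt_atTop c)
      filter_upwards [this] with x hx
      split_ifs with h
      · exact lt_top_iff_ne_top.2 hc.1.ne_top
      · exact hc.1.trans (EReal.coe_lt_coe_iff.2 (hx h))
    · simp only [if_neg h] at hy
      have := (continuous_coe_real_ereal.continuousAt.comp
        (hh p hp h).1.continuousAt).eventually (lt_mem_nhds hy)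
      filter_upwards [this, isOpen_ne.mem_nhds h] with x h1 h2
      rw [if_neg h2]; exact h1
  · intro c r h hr hB hc hhar hs x hx
    dsimp only
    split_ifs with hxa
    · exact le_top
    rw [EReal.coe_le_coe_iff]
    obtain ⟨M, hM⟩ := (isCompact_closedBall c r).bddAbove_image hc
    obtain ⟨e, he, h1⟩ := Metric.nhds_basis_closedBall.eventually_iff.1
      ((eventually_nhdsWithin_iff.1 (ht.eventually_ge_atTop M)).and
        (eventually_ne_nhds (Ne.symm hxa)))
    have hcl : closure (ball c r ∩ (closedBall a e)ᶜ) ⊆ closedBall c r ∩ (ball a e)ᶜ :=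
      closure_minimal (inter_subset_inter ball_subset_closedBall
        (compl_subset_compl.2 ball_subset_closedBall)) (isClosed_closedBall.inter
          isOpen_ball.isClosed_compl)
    have hne : ∀ y ∈ (ball a e)ᶜ, y ≠ a := fun y hy h => hy (h ▸ mem_ball_self he)
    have hU := isOpen_ball.inter (isClosed_closedBall (x := a) (ε := e)).isOpen_compl (s := ball c r)
    have := maxp hn hU (isBounded_ball.subset inter_subset_left) (f := fun y => h y - f y) (M := 0)
      ((hc.mono (hcl.trans inter_subset_left)).sub fun y hy => (hh y (hB (hcl hy).1)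
        (hne y (hcl hy).2)).1.continuousAt.continuousWithinAt)
      (fun y hy => by
        have := (hhar y hy.1).sub (hh y (hB (ball_subset_closedBall hy.1))
          (hne y (hcl (subset_closure hy)).2))
        exact ⟨this.1, this.2.eq_of_nhds.ge⟩)
      (fun p hp => by
        have h2 := hcl (frontier_subset_closure hp)
        have h3 := hne p h2.2
        by_cases h4 : p ∈ closedBall a e
        · linarith [(h1 h4).1 h3, hM (mem_image_of_mem h h2.1)]
        · have h5 : p ∈ sphere c r := by
            rw [hU.frontier_eq] at hp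
            exact le_antisymm h2.1 (not_lt.1 fun h => hp.2 ⟨h, h4⟩)
          have := hs p h5
          simp only [if_neg h3, EReal.coe_le_coe_iff] at this
          linarith) x (subset_closure ⟨hx, fun h => (h1 h).2 rfl⟩)
    linarith

end Pool.Agent.H1.Grn
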