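import Pool.Agent.H1.GrnB

namespace Pool.Agent.H1.Grn

open Real Metric Filter Topology Set InnerProductSpace Laplacian

noncomputable def w (x : E 3) : ℝ := ‖x‖ - x 0
noncomputable def e0 : E 3 := EuclideanSpace.single 0 1
noncomputable def a : E 3 := !₂[10, 1, 0]
noncomputable def T : ℝ := 10 ^ 12
noncomputable def τ : ℝ := exp (-T)
def DD : Set (E 3) := {x | τ ^ 4 < w x}
noncomputable def y0 : E 3 := !₂[0, τ, 0]

lemma w_cont : Continuous w := by unfold w; fun_prop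
lemma τ_pos : 0 < τ := exp_pos _
lemma τ_le : τ ≤ 1 / 10 ^ 12 := by
  rw [τ, exp_neg, one_div]
  exact inv_anti₀ (by norm_num) (by linarith [add_one_le_exp T, show T = 10 ^ 12 from rfl])
lemma log_τ : log τ = -T := log_exp _
lemma nsq3 (x : E 3) : ‖x‖ ^ 2 = x 0 ^ 2 + x 1 ^ 2 + x 2 ^ 2 := by
  rw [EuclideanSpace.real_norm_sq_eq, Fin.sum_univ_three]
lemma co (x : E 3) (i : Fin 3) : |x i| ≤ ‖x‖ := by simpa using PiLp.norm_apply_le x i
lemma na : ‖a‖ ≤ 201 / 20 := by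
  refine abs_le_of_sq_le_sq' ?_ (by norm_num) |>.2
  rw [nsq3]; simp [a]; norm_num
lemma na' : 10 ≤ ‖a‖ := by simpa [a] using co a 0
lemma ny : ‖y0‖ = τ := by
  rw [← sq_eq_sq₀ (norm_nonneg _) τ_pos.le, nsq3]; simp [y0]
lemma ne0 : ‖e0‖ = 1 := by simp [e0]
lemma τ4 : τ ^ 4 ≤ τ ^ 2 / 10 ^ 6 ∧ τ ^ 2 ≤ τ / 10 ^ 6 := by
  have := τ_pos; have := τ_le
  have h : τ ^ 2 ≤ τ / 10 ^ 6 := by nlinarith
  exact ⟨by nlinarith [mul_le_mul_of_nonneg_left h (sq_nonneg τ),
    mul_le_mul_of_nonneg_left this (sq_nonneg τ), sq_nonneg τ], h⟩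

lemma w_shift (x : E 3) {s : ℝ} (hs : 0 ≤ s) : w (x + s • e0) ≤ w x := by
  have := norm_add_le x (s • e0)
  rw [norm_smul, ne0, Real.norm_eq_abs, abs_of_nonneg hs] at this
  simp only [w, PiLp.add_apply, PiLp.smul_apply, e0] at this ⊢
  simp; linarith

lemma w_ge (x : E 3) : x 1 ^ 2 ≤ w x * (2 * ‖x‖) := by
  have := nsq3 x
  have := abs_le.1 (co x 0)
  unfold w; nlinarith [sq_nonneg (x 2)]

lemma DD_open : IsOpen DD := isOpen_lt continuous_const w_cont

lemma DD_acc : LinAcc DD := fun y hy => ⟨e0, ne0, fun _ hs h => hy (h.trans_le (w_shift y hs))⟩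

lemma DD_conn : IsConnected DD := by
  have h1 := τ4; have h2 := τ_le
  have hH : {x : E 3 | x 0 ≤ -1} ⊆ DD := fun x (hx : x 0 ≤ -1) => by
    show τ ^ 4 < ‖x‖ - x 0
    linarith [norm_nonneg x]
  have hc : Convex ℝ {x : E 3 | x 0 ≤ -1} :=
    convex_halfSpace_le (EuclideanSpace.proj (𝕜 := ℝ) (0 : Fin 3)).isLinear _
  have hp : -e0 ∈ {x : E 3 | x 0 ≤ -1} := by simp [e0]
  refine IsPathConnected.isConnected ⟨-e0, hH hp, fun {x} hx => ?_⟩
  have hq : x - (‖x‖ + 1) • e0 ∈ {x : E 3 | x 0 ≤ -1} := by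
    simp [e0]; linarith [(abs_le.1 (co x 0)).2]
  refine (JoinedIn.of_segment_subset ((hc.segment_subset hp hq).trans hH)).trans
    (JoinedIn.of_segment_subset ?_)
  rintro _ ⟨s, t, hs, ht, hst, rfl⟩
  have := w_shift (s • (x - (‖x‖ + 1) • e0) + t • x) (s := s * (‖x‖ + 1)) (by positivity)
  rw [show s • (x - (‖x‖ + 1) • e0) + t • x + (s * (‖x‖ + 1)) • e0 = (s + t) • x by module,
    hst, one_smul] at this
  exact lt_of_lt_of_le hx this

lemma far {p : E 3} (h : w p ≤ τ ^ 4) : 9 / 10 ≤ ‖p - a‖ := by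
  have h1 := τ4; have h2 := τ_le
  rcases le_total ‖p‖ 12 with h3 | h3
  · have h4 : p 1 ^ 2 ≤ (1 / 10) ^ 2 := by
      have : w p * (2 * ‖p‖) ≤ τ ^ 4 * (2 * 12) := by gcongr
      linarith [w_ge p]
    have h5 := (abs_le_of_sq_le_sq' h4 (by norm_num)).2
    have h6 := (abs_le.1 (co (p - a) 1)).1
    simp [a] at h6 ⊢
    linarith
  · linarith [norm_sub_norm_le p a, na]

lemma a_mem : a ∈ DD := by
  by_contra h
  have := far (not_lt.1 h)
  norm_num at this

lemma inv_harm (b x : E 3) (hx : x ≠ b) : HarmonicAt (fun y : E 3 => ‖y - b‖⁻¹) x := by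
  have key : ∀ x : E 3, x ≠ b → ContDiffAt ℝ 2 (fun y : E 3 => ‖y - b‖⁻¹) x ∧
      Δ (fun y : E 3 => ‖y - b‖⁻¹) x = 0 := fun x hx => by
    have h0 : ‖x - b‖ - 0 * (x - b) 0 ≠ 0 := by simpa [sub_eq_zero] using hx
    have := lap_cone (U := fun s => s⁻¹) (U1 := fun s => -(s ^ 2)⁻¹) (c := 0) 0 b x
      (sub_ne_zero.2 hx) (contDiffAt_inv ℝ h0)
      ((eventually_ne_nhds h0).mono fun s hs => hasDerivAt_inv hs)
      (((hasDerivAt_pow 2 (‖x - b‖ - 0 * (x - b) 0)).inv (pow_ne_zero 2 h0)).neg)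
    simp only [zero_mul, sub_zero] at this h0
    refine ⟨this.1, this.2.trans ?_⟩
    field_simp; norm_num; ring
  exact ⟨(key x hx).1, (eventually_ne_nhds hx).mono fun y hy => (key y hy).2⟩

lemma log_harm (b x : E 3) (hx : 0 < w (x - b)) : HarmonicAt (fun y : E 3 => log (w (y - b))) x := by
  have key : ∀ x : E 3, 0 < w (x - b) → ContDiffAt ℝ 2 (fun y : E 3 => log (w (y - b))) x ∧
      Δ (fun y : E 3 => log (w (y - b))) x = 0 := fun x hx => by
    have h0 : ‖x - b‖ - 1 * (x - b) 0 ≠ 0 := by rw [one_mul]; exact hx.ne'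
    have h1 : x - b ≠ 0 := fun h => by simp [h, w] at hx
    have := lap_cone (U := log) (U1 := fun s => s⁻¹) (c := 1) 0 b x h1 (contDiffAt_log.2 h0)
      ((eventually_ne_nhds h0).mono fun s hs => hasDerivAt_log hs) (hasDerivAt_inv h0)
    simp only [one_mul] at this h0
    refine ⟨this.1, this.2.trans ?_⟩
    have := norm_ne_zero_iff.2 h1
    field_simp; push_cast; ring
  exact ⟨(key x hx).1, ((w_cont.comp (continuous_sub_right b)).continuousAt.eventually
    (lt_mem_nhds hx)).mono fun y hy => (key y hy).2⟩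

lemma inv_top : Tendsto (fun y : E 3 => ‖y - a‖⁻¹) (𝓝[≠] a) atTop :=
  tendsto_inv_nhdsGT_zero.comp (tendsto_norm_sub_self_nhdsNE a)

lemma zp (x : ℝ) : x ^ ((2 : ℤ) - (3 : ℕ)) = x⁻¹ := by norm_num

noncomputable def φ (x : E 3) : ℝ :=
  99 / 100 * ‖x - a‖⁻¹ - 1 / 900 - 10 / 9 * (log 2000 - log (w x)) / (4 * T)

lemma T_pos : 0 < T := by unfold T; norm_num

lemma φ_le {x : E 3} (h : τ ^ 4 ≤ w x) (h' : ‖x‖ ≤ 1000) : φ x ≤ 99 / 100 * ‖x - a‖⁻¹ - 1 / 900 := by
  have : log (w x) ≤ log 2000 := log_le_log ((pow_pos τ_pos 4).trans_le h)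
    (by unfold w; linarith [(abs_le.1 (co x 0)).1])
  have : 0 ≤ 10 / 9 * (log 2000 - log (w x)) / (4 * T) :=
    div_nonneg (by linarith) (by linarith [T_pos])
  unfold φ; linarith

lemma low {u : E 3 → EReal} (hu : u ∈ GreenCand DD a) {x : E 3} (hx : x ∈ DD) (hR : ‖x‖ < 1000)
    (hxa : x ≠ a) : (φ x : EReal) ≤ u x := by
  obtain ⟨h1, h2, H, h3, h4⟩ := hu
  have t4 := pow_pos τ_pos 4
  have h5 : ∀ᶠ y in 𝓝[≠] a, τ ^ 4 ≤ w y → ‖y‖ ≤ 1000 → (φ y : EReal) ≤ u y := by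
    filter_upwards [h4, inv_top.eventually_ge_atTop (100 * (1 - H a)), mem_nhdsWithin_of_mem_nhds
      (h3.1.continuousAt.eventually (lt_mem_nhds (sub_one_lt (H a))))] with y b c d e f
    rw [b, zp, EReal.coe_le_coe_iff]
    linarith [φ_le e f]
  obtain ⟨e, he, h6⟩ := Metric.nhds_basis_closedBall.eventually_iff.1
    ((eventually_nhdsWithin_iff.1 h5).and (eventually_ne_nhds (Ne.symm hxa)))
  have hG := (DD_open.inter (isOpen_ball (x := (0 : E 3)) (ε := 1000))).inter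
    (isClosed_closedBall (x := a) (ε := e)).isOpen_compl
  have hcl : closure (DD ∩ ball (0 : E 3) 1000 ∩ (closedBall a e)ᶜ) ⊆
      {y | τ ^ 4 ≤ w y} ∩ closedBall 0 1000 ∩ (ball a e)ᶜ :=
    closure_minimal (inter_subset_inter (inter_subset_inter (fun y (hy : τ ^ 4 < w y) => hy.le)
      ball_subset_closedBall) (compl_subset_compl.2 ball_subset_closedBall))
      (((isClosed_le continuous_const w_cont).inter isClosed_closedBall).inter
        isOpen_ball.isClosed_compl)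
  have hne : ∀ y ∈ (ball a e)ᶜ, y ≠ a := fun y hy h => hy (h ▸ mem_ball_self he)
  have hh : ∀ y ∈ closure (DD ∩ ball (0 : E 3) 1000 ∩ (closedBall a e)ᶜ), HarmonicAt φ y := by
    intro y hy
    have k1 := ((inv_harm a y (hne y (hcl hy).2)).const_smul (c := (99 / 100 : ℝ))).add
      ((log_harm 0 y (by rw [sub_zero]; exact t4.trans_le (hcl hy).1.1)).const_smul
        (c := 10 / 9 / (4 * T)))
    have k2 := k1.add (harmonicAt_const (-1 / 900 - 10 / 9 * log 2000 / (4 * T)))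
    convert k2 using 1
    funext z; simp [φ]; ring
  refine minp DD_open hG (isBounded_ball.subset fun y hy => hy.1.2) (fun y hy => hy.1.1) h1 h2
    (fun y hy => hh y (subset_closure hy))
    (fun y hy => (hh y hy).1.continuousAt.continuousWithinAt) (fun p hp hpD => ?_)
    (fun p hp hpD => ?_) x ⟨⟨hx, mem_ball_zero_iff.2 hR⟩, fun h => (h6 h).2 rfl⟩
  · have k := hcl (frontier_subset_closure hp)
    have k1 := mem_closedBall_zero_iff.1 k.1.2
    by_cases k2 : p ∈ closedBall a e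
    · exact (h6 k2).1 (hne p k.2) k.1.1 k1
    · rw [hG.frontier_eq] at hp
      have k3 : 1000 ≤ ‖p‖ := not_lt.1 fun h => hp.2 ⟨⟨hpD, mem_ball_zero_iff.2 h⟩, k2⟩
      have k4 : ‖p - a‖⁻¹ ≤ 900⁻¹ :=
        inv_anti₀ (by norm_num) (by linarith [norm_sub_norm_le p a, na])
      refine le_trans ?_ (h2 p hpD).le
      exact_mod_cast (by linarith [φ_le k.1.1 k1] : φ p ≤ 0)
  · have k := hcl (frontier_subset_closure hp)
    have k1 : w p = τ ^ 4 := le_antisymm (not_lt.1 hpD) k.1.1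
    have k4 : ‖p - a‖⁻¹ ≤ (9 / 10)⁻¹ := inv_anti₀ (by norm_num) (far k1.le)
    have k5 : 0 ≤ log 2000 / (4 * T) := div_nonneg (log_nonneg (by norm_num)) (by linarith [T_pos])
    have k6 : 10 / 9 * (log 2000 - log (w p)) / (4 * T) = 10 / 9 * (log 2000 / (4 * T) + 1) := by
      rw [k1, log_pow, log_τ]; have := T_pos; field_simp; push_cast; ring
    unfold φ; rw [k6]; linarith

noncomputable def μ : ℝ := 9 / 100 / (4 * T + 1)
noncomputable def HH (x : E 3) : ℝ := -μ * (log (w (x - (1 / 2 : ℝ) • e0)) - log (w x))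

lemma wq (x : E 3) : w x ≤ w (x - (1 / 2 : ℝ) • e0) := by
  simpa using w_shift (x - (1 / 2 : ℝ) • e0) (s := 1 / 2) (by norm_num)

lemma HH_harm {x : E 3} (hx : x ∈ DD) : HarmonicAt HH x := by
  have h0 : 0 < w x := (pow_pos τ_pos 4).trans hx
  have := ((log_harm _ x (h0.trans_le (wq x))).sub
    (log_harm 0 x (by rwa [sub_zero]))).const_smul (c := -μ)
  convert this using 1
  funext z; simp [HH]

lemma f_pos {x : E 3} (hx : x ∈ DD) (hxa : x ≠ a) : 0 < ‖x - a‖⁻¹ + HH x := by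
  have t4 := pow_pos τ_pos 4
  have hx' : τ ^ 4 < w x := hx
  have h0 : 0 < w x := t4.trans hx
  have h1 := h0.trans_le (wq x)
  have hT := T_pos
  have hμ : 0 < μ := by unfold μ; positivity
  have h2 : (‖x‖ + 201 / 20)⁻¹ ≤ ‖x - a‖⁻¹ :=
    inv_anti₀ (norm_pos_iff.2 (sub_ne_zero.2 hxa)) (by linarith [norm_sub_le x a, na])
  have e : w (x - (1 / 2 : ℝ) • e0) = ‖x - (1 / 2 : ℝ) • e0‖ - x 0 + 1 / 2 := by
    simp [w, e0]; ring
  have n1 : ‖(1 / 2 : ℝ) • e0‖ = 1 / 2 := by rw [norm_smul, ne0]; norm_num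
  rw [HH, ← log_div h1.ne' h0.ne']
  rcases le_total ‖x‖ 1 with h | h
  · have h3 : w (x - (1 / 2 : ℝ) • e0) / w x ≤ 2 / τ ^ 4 := by
      have : w (x - (1 / 2 : ℝ) • e0) ≤ w x + 1 := by
        rw [e, w]; linarith [norm_sub_le x ((1 / 2 : ℝ) • e0)]
      rw [div_le_div_iff₀ h0 t4]
      have := τ4; have := τ_le
      nlinarith
    have h4 := log_le_log (div_pos h1 h0) h3
    rw [log_div (x := 2) (by norm_num) t4.ne', log_pow, log_τ] at h4
    have h5 : log 2 ≤ 1 := by linarith [log_le_sub_one_of_pos (x := 2) (by norm_num)]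
    have h6 : μ * log (w (x - (1 / 2 : ℝ) • e0) / w x) ≤ μ * (4 * T + 1) := by
      gcongr; push_cast at h4; linarith
    have h7 : μ * (4 * T + 1) = 9 / 100 := by unfold μ; field_simp
    have h8 : (1 + 201 / 20 : ℝ)⁻¹ ≤ (‖x‖ + 201 / 20)⁻¹ :=
      inv_anti₀ (by positivity) (by linarith)
    norm_num at h8 h2
    linarith
  · have h3 : w (x - (1 / 2 : ℝ) • e0) / w x - 1 ≤ ‖x‖⁻¹ := by
      have k1 : ‖x - (1 / 2 : ℝ) • e0‖ ^ 2 = ‖x‖ ^ 2 - x 0 + 1 / 4 := by
        rw [nsq3, nsq3]; simp [e0]; ring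
      have k2 := norm_sub_norm_le x ((1 / 2 : ℝ) • e0)
      rw [sub_le_iff_le_add, div_le_iff₀ h0, e, inv_eq_one_div, div_add_one (by linarith),
        div_mul_eq_mul_div, le_div_iff₀ (by linarith)]
      unfold w
      rw [n1] at k2
      nlinarith
    have h4 := (log_le_sub_one_of_pos (div_pos h1 h0)).trans h3
    have h5 : μ ≤ 1 / 100 := by
      unfold μ; rw [div_le_iff₀ (by positivity)]; unfold T; norm_num
    have h6 : μ * ‖x‖⁻¹ < (‖x‖ + 201 / 20)⁻¹ := by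
      rw [← div_eq_mul_inv, inv_eq_one_div, div_lt_div_iff₀ (by linarith) (by linarith)]
      nlinarith
    nlinarith [mul_le_mul_of_nonneg_left h4 hμ.le]

lemma y0_w : w y0 = τ := by rw [w, ny]; simp [y0]

lemma y0_far : 10 ≤ ‖y0 - a‖ := by simpa [y0, a] using co (y0 - a) 0

lemma cand : (fun x => if x = a then ⊤ else ((‖x - a‖⁻¹ + HH x : ℝ) : EReal)) ∈ GreenCand DD a := by
  have h1 := τ4; have h2 := τ_pos
  refine ⟨sh_pole (by norm_num) (fun x hx hxa => (inv_harm a x hxa).add (HH_harm hx))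
    (inv_top.atTop_add ((HH_harm a_mem).1.continuousAt.tendsto.mono_left nhdsWithin_le_nhds))
    (z := y0) (by show τ ^ 4 < w y0; rw [y0_w]; linarith) (fun h => by
      have := y0_far; rw [h] at this; norm_num at this), fun x hx => ?_, HH, HH_harm a_mem, ?_⟩
  · dsimp only
    split_ifs with h
    · simp
    · exact_mod_cast f_pos hx h
  · filter_upwards [self_mem_nhdsWithin] with x (hx : x ≠ a)
    rw [if_neg hx, zp]

lemma up : green DD a y0 ≤ ((1 / 12 : ℝ) : EReal) := by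
  refine (iInf₂_le _ cand).trans ?_
  have h0 := y0_far
  dsimp only
  rw [if_neg (fun h => by rw [h] at h0; norm_num at h0), EReal.coe_le_coe_iff, HH, y0_w, log_τ]
  have h1 : ‖y0 - a‖⁻¹ ≤ 10⁻¹ := inv_anti₀ (by norm_num) h0
  have h2 : 0 ≤ log (w (y0 - (1 / 2 : ℝ) • e0)) := by
    refine log_nonneg ?_
    have := co (y0 - (1 / 2 : ℝ) • e0) 0
    simp [w, y0, e0] at this ⊢
    linarith
  have h3 : 0 < μ := by unfold μ; have := T_pos; positivity
  have h4 : 1 / 50 ≤ μ * T := by unfold μ T; norm_num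
  nlinarith

lemma good {X : E 3} {c d L : ℝ} (h1 : X ≠ a) (h2 : ‖X‖ ≤ 11) (h3 : ‖X - a‖ ≤ d) (hc : τ ^ 4 < c)
    (h4 : c ≤ w X) (h5 : log 2000 - log c ≤ L)
    (h6 : 1 / 12 < 99 / 100 * d⁻¹ - 1 / 900 - 10 / 9 * L / (4 * T)) :
    X ∈ {x ∈ DD | ((1 / 12 : ℝ) : EReal) < green DD a x} := by
  refine ⟨hc.trans_le h4, lt_of_lt_of_le (b := (φ X : EReal)) ?_
    (le_iInf₂ fun u hu => low hu (hc.trans_le h4) (by linarith) h1)⟩
  rw [EReal.coe_lt_coe_iff, φ]
  have k1 : d⁻¹ ≤ ‖X - a‖⁻¹ := inv_anti₀ (norm_pos_iff.2 (sub_ne_zero.2 h1)) h3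
  have k2 := log_le_log ((pow_pos τ_pos 4).trans hc) h4
  have k3 : 10 / 9 * (log 2000 - log (w X)) / (4 * T) ≤ 10 / 9 * L / (4 * T) := by
    have := T_pos; gcongr; linarith
  linarith

lemma blocked (v : E 3) (hv : ‖v‖ = 1) :
    ∃ s : ℝ, 0 ≤ s ∧ y0 + s • v ∈ {x ∈ DD | ((1 / 12 : ℝ) : EReal) < green DD a x} := by
  have h1 := τ4; have h2 := τ_pos; have h3 := τ_le
  rcases le_total (v 0) (1 - 1 / 20000) with h | h
  · have k1 := norm_add_le y0 v
    have k2 := norm_sub_le (y0 + v) y0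
    rw [add_sub_cancel_left] at k2
    rw [ny, hv] at k1 k2
    refine ⟨1, zero_le_one, ?_⟩
    rw [one_smul]
    refine good (c := 1 / 40000) (d := 553 / 50) (L := 10 ^ 8) (fun h => ?_) (by linarith)
      (by linarith [norm_sub_le (y0 + v) a, na]) (by linarith) ?_ ?_ (by unfold T; norm_num)
    · rw [h] at k1; linarith [na']
    · simp only [w, PiLp.add_apply, show y0 0 = 0 from rfl]; linarith
    · rw [← log_div (by norm_num) (by norm_num)]
      linarith [log_le_sub_one_of_pos (x := 2000 / (1 / 40000)) (by norm_num)]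
  · have k0 : ‖v - e0‖ ≤ 1 / 100 := by
      refine abs_le_of_sq_le_sq' ?_ (by norm_num) |>.2
      have := nsq3 v
      rw [nsq3]; simp [e0]; nlinarith
    have key : ∀ s : ℝ, (s = 19 / 2 ∨ s = 21 / 2) → τ / 20 ≤ |τ + s * v 1| →
        ∃ s : ℝ, 0 ≤ s ∧ y0 + s • v ∈ {x ∈ DD | ((1 / 12 : ℝ) : EReal) < green DD a x} := by
      intro s hs k1
      have s0 : 0 ≤ s ∧ s ≤ 21 / 2 := by rcases hs with h | h <;> rw [h] <;> norm_num
      have e1 : (y0 + s • v) 1 = τ + s * v 1 := by simp [y0]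
      have k2 : ‖y0 + s • v‖ ≤ 11 := by
        have := norm_add_le y0 (s • v)
        rw [ny, norm_smul, hv, Real.norm_eq_abs, abs_of_nonneg s0.1] at this
        linarith
      have k3 : ‖s • e0 - a‖ ≤ 9 / 8 := by
        refine abs_le_of_sq_le_sq' ?_ (by norm_num) |>.2
        rw [nsq3]; rcases hs with h | h <;> simp [e0, a, h] <;> norm_num
      have k4 : ‖s • (v - e0)‖ ≤ 21 / 200 := by
        rw [norm_smul, Real.norm_eq_abs, abs_of_nonneg s0.1]
        nlinarith [norm_nonneg (v - e0)]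
      refine ⟨s, s0.1, good (c := τ ^ 2 / 8800) (d := 5 / 4) (L := 10 ^ 8 + 2 * T) (fun h => ?_) k2
        ?_ (by nlinarith) ?_ ?_ (by unfold T; norm_num)⟩
      · have k5 := (abs_le.1 ((co _ 1).trans k4)).2
        rw [h] at e1
        simp [a, e0] at e1 k5
        linarith
      · rw [show y0 + s • v - a = y0 + s • (v - e0) + (s • e0 - a) by module]
        linarith [norm_add₃_le (a := y0) (b := s • (v - e0)) (c := s • e0 - a), ny]
      · have k5 := w_ge (y0 + s • v)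
        have k6 : 0 ≤ w (y0 + s • v) := by unfold w; linarith [(abs_le.1 (co (y0 + s • v) 0)).2]
        rw [e1, ← sq_abs] at k5
        nlinarith
      · rw [log_div (by positivity) (by norm_num), log_pow, log_τ]
        have := log_le_sub_one_of_pos (x := 2000) (by norm_num)
        have := log_le_sub_one_of_pos (x := 8800) (by norm_num)
        push_cast; linarith
    by_contra hc
    have k1 := abs_lt.1 (not_le.1 fun h => hc (key _ (Or.inl rfl) h))
    have k2 := abs_lt.1 (not_le.1 fun h => hc (key _ (Or.inr rfl) h))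
    linarith

end Pool.Agent.H1.Grn
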