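import Mathlib

namespace Pool.Agent.H1.Hank

open Finset
open scoped ENNReal NNReal

/-- lacunary coefficients: `1/(k+1)` at `3^k`, zero elsewhere -/
noncomputable def lac (n : ℤ) : ℂ := by
  classical exact if h : ∃ k : ℕ, n = 3 ^ k then (1 / ((h.choose : ℂ) + 1)) else 0

lemma pow3_inj {k l : ℕ} (h : (3 : ℤ) ^ k = 3 ^ l) : k = l :=
  pow_right_injective₀ (by norm_num) (by norm_num) h

lemma lac_pow (k : ℕ) : lac (3 ^ k) = 1 / ((k : ℂ) + 1) := by
  have h : ∃ l : ℕ, (3 : ℤ) ^ k = 3 ^ l := ⟨k, rfl⟩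
  unfold lac
  rw [dif_pos h]
  have : h.choose = k := (pow3_inj h.choose_spec).symm
  rw [this]

lemma lac_ne {n : ℤ} (h : ∀ k : ℕ, n ≠ 3 ^ k) : lac n = 0 := by
  unfold lac
  rw [dif_neg]
  rintro ⟨k, hk⟩
  exact h k hk

lemma pow3_window {k l : ℕ} (h1 : (3 : ℤ) ^ k < 2 * 3 ^ l) (h2 : (2 : ℤ) * 3 ^ l < 3 ^ (k + 1)) :
    l = k := by
  rcases lt_trichotomy l k with h | h | h
  · exfalso
    have : (3 : ℤ) ^ (l + 1) ≤ 3 ^ k := pow_le_pow_right₀ (by norm_num) h
    rw [pow_succ] at this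
    have h0 : (0 : ℤ) < 3 ^ l := by positivity
    linarith
  · exact h
  · exfalso
    have : (3 : ℤ) ^ (k + 1) ≤ 3 ^ l := pow_le_pow_right₀ (by norm_num) h
    have h0 : (0 : ℤ) < 3 ^ l := by positivity
    linarith

lemma lac_window {k : ℕ} {d : ℤ} (h1 : -(3 : ℤ) ^ k < 2 * d) (h2 : 2 * d < (3 : ℤ) ^ k) :
    lac (3 ^ k + d) = if d = 0 then 1 / ((k : ℂ) + 1) else 0 := by
  split_ifs with hd
  · rw [hd, add_zero, lac_pow]
  · apply lac_ne
    intro l hl
    have : l = k := by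
      apply pow3_window
      · rw [← hl]; linarith
      · rw [← hl, pow_succ]; linarith
    subst this
    apply hd; linarith

/-- the test data at stage `k` -/
structure Data (p q : ℝ) (K : ℤ → ℂ) (κ : ℝ) (k : ℕ) where
  ι : Type
  fin : Fintype ι
  φ : ι → ℤ
  x : ι → ℝ
  y : ι → ℝ
  inj : Function.Injective φ
  lo : ∀ i, 0 ≤ φ i
  hi : ∀ i, 2 * φ i < 3 ^ k
  hx : ∀ i, |x i| ^ p = x i * y i
  hy : ∀ i, |y i| ^ q = x i * y i
  pos : 0 < ∑ i, x i * y i
  big : κ * (∑ j ∈ range k, (1 / ((j : ℝ) + 1))) * (∑ i, x i * y i) ≤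
    ∑ i, ∑ l, (K (φ l - φ i)).re * (x i * y l)

lemma step {p q : ℝ} {K : ℤ → ℂ} {κ : ℝ} {k : ℕ} (hK : ∀ n, 0 ≤ n → K n = lac n)
    (D : Data p q K κ k) (t t' : ℝ) (h1 : |t| ^ p = t * t') (h2 : |t'| ^ q = t * t')
    (h3 : 0 ≤ t * t')
    (hg : letI := D.fin; κ * (1 / ((k : ℝ) + 1)) * (∑ i, D.x i * D.y i) * (1 + t * t') ≤
      t' * ((1 / ((k : ℝ) + 1)) * ∑ i, D.x i * D.y i) +
      t * ∑ i, ∑ l, (K (D.φ l - (3 ^ k + D.φ i))).re * (D.x i * D.y l)) :
    Nonempty (Data p q K κ (k + 1)) := by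
  classical
  let _ := D.fin
  have hlo := D.lo
  have hhi := D.hi
  have h0 : (0 : ℤ) < 3 ^ k := by positivity
  have hcross : ∑ i, ∑ l, (K (3 ^ k + D.φ l - D.φ i)).re * (D.x i * D.y l) =
      (1 / ((k : ℝ) + 1)) * ∑ i, D.x i * D.y i := by
    rw [Finset.mul_sum]
    refine Finset.sum_congr rfl fun i _ => ?_
    rw [Finset.sum_eq_single i]
    · rw [hK _ (by linarith), add_sub_assoc, lac_window (by simp) (by simp)]
      simp only [sub_self, if_true]
      congr 1
      have : (1 / ((k : ℂ) + 1)) = ((1 / ((k : ℝ) + 1) : ℝ) : ℂ) := by push_cast; ring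
      rw [this, Complex.ofReal_re]
    · intro l _ hl
      have a1 := hlo i; have a2 := hlo l; have a3 := hhi i; have a4 := hhi l
      rw [hK _ (by linarith), add_sub_assoc, lac_window (by linarith) (by linarith), if_neg]
      · simp
      · intro h
        exact hl (D.inj (by linarith))
    · simp
  refine ⟨{ ι := D.ι ⊕ D.ι, fin := inferInstance,
            φ := Sum.elim D.φ (fun i => 3 ^ k + D.φ i),
            x := Sum.elim D.x (fun i => t * D.x i),
            y := Sum.elim D.y (fun i => t' * D.y i),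
            inj := ?_, lo := ?_, hi := ?_, hx := ?_, hy := ?_, pos := ?_, big := ?_ }⟩
  · rintro (i | i) (l | l) h <;> simp only [Sum.elim_inl, Sum.elim_inr] at h
    · rw [D.inj h]
    · exfalso; have := hhi i; have := hlo l; have := hlo i; linarith
    · exfalso; have := hhi l; have := hlo i; have := hlo l; linarith
    · rw [D.inj (by linarith : D.φ i = D.φ l)]
  · rintro (i | i) <;> simp only [Sum.elim_inl, Sum.elim_inr]
    · exact hlo i
    · have := hlo i; linarith
  · rintro (i | i) <;> simp only [Sum.elim_inl, Sum.elim_inr] <;> rw [pow_succ]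
    · have := hhi i; linarith
    · have := hhi i; linarith
  · rintro (i | i) <;> simp only [Sum.elim_inl, Sum.elim_inr]
    · exact D.hx i
    · rw [abs_mul, Real.mul_rpow (abs_nonneg _) (abs_nonneg _), h1, D.hx i]; ring
  · rintro (i | i) <;> simp only [Sum.elim_inl, Sum.elim_inr]
    · exact D.hy i
    · rw [abs_mul, Real.mul_rpow (abs_nonneg _) (abs_nonneg _), h2, D.hy i]; ring
  · rw [Fintype.sum_sum_type]
    simp only [Sum.elim_inl, Sum.elim_inr]
    have e : ∑ i, t * D.x i * (t' * D.y i) = t * t' * ∑ i, D.x i * D.y i := by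
      rw [Finset.mul_sum]; exact Finset.sum_congr rfl fun i _ => by ring
    rw [e]
    have := D.pos
    positivity
  · simp only [Fintype.sum_sum_type, Sum.elim_inl, Sum.elim_inr, Finset.sum_add_distrib]
    have e : ∑ i, t * D.x i * (t' * D.y i) = t * t' * ∑ i, D.x i * D.y i := by
      rw [Finset.mul_sum]; exact Finset.sum_congr rfl fun i _ => by ring
    have e1 : ∑ i, ∑ l, (K (3 ^ k + D.φ l - D.φ i)).re * (D.x i * (t' * D.y l)) =
        t' * ∑ i, ∑ l, (K (3 ^ k + D.φ l - D.φ i)).re * (D.x i * D.y l) := by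
      rw [Finset.mul_sum]; refine Finset.sum_congr rfl fun i _ => ?_
      rw [Finset.mul_sum]; exact Finset.sum_congr rfl fun l _ => by ring
    have e2 : ∑ i, ∑ l, (K (D.φ l - (3 ^ k + D.φ i))).re * (t * D.x i * D.y l) =
        t * ∑ i, ∑ l, (K (D.φ l - (3 ^ k + D.φ i))).re * (D.x i * D.y l) := by
      rw [Finset.mul_sum]; refine Finset.sum_congr rfl fun i _ => ?_
      rw [Finset.mul_sum]; exact Finset.sum_congr rfl fun l _ => by ring
    have e3 : ∑ i, ∑ l, (K (3 ^ k + D.φ l - (3 ^ k + D.φ i))).re * (t * D.x i * (t' * D.y l)) =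
        t * t' * ∑ i, ∑ l, (K (D.φ l - D.φ i)).re * (D.x i * D.y l) := by
      rw [Finset.mul_sum]; refine Finset.sum_congr rfl fun i _ => ?_
      rw [Finset.mul_sum]; refine Finset.sum_congr rfl fun l _ => ?_
      rw [show 3 ^ k + D.φ l - (3 ^ k + D.φ i) = D.φ l - D.φ i by ring]; ring
    rw [e, e1, e2, e3, hcross, Finset.sum_range_succ]
    have hb := D.big
    have hb' := mul_le_mul_of_nonneg_left hb h3
    nlinarith [hb, hb', hg]

lemma exists_data {p q : ℝ} (hpq : p.HolderConjugate q) (hp2 : p ≠ 2) {K : ℤ → ℂ}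
    (hK : ∀ n, 0 ≤ n → K n = lac n) :
    ∃ κ : ℝ, 0 < κ ∧ ∀ k, Nonempty (Data p q K κ k) := by
  have hp1 : 1 < p := hpq.lt
  obtain ⟨s, hs, hsp⟩ : ∃ s : ℝ, 0 < s ∧ s < s ^ (p - 1) := by
    rcases lt_or_gt_of_ne hp2 with h | h
    · refine ⟨1 / 2, by norm_num, ?_⟩
      conv_lhs => rw [← Real.rpow_one (1 / 2 : ℝ)]
      exact Real.rpow_lt_rpow_of_exponent_gt (by norm_num) (by norm_num) (by linarith)
    · refine ⟨2, by norm_num, ?_⟩
      conv_lhs => rw [← Real.rpow_one (2 : ℝ)]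
      exact Real.rpow_lt_rpow_of_exponent_lt (by norm_num) (by linarith)
  set r := s ^ (p - 1) with hr
  have hr0 : 0 < r := by positivity
  have hsr : s ^ p = s * r := by
    rw [hr, ← Real.rpow_one_add' hs.le (by linarith)]; congr 1; ring
  have hrq : r ^ q = s * r := by
    rw [← hsr, hr, ← Real.rpow_mul hs.le, hpq.sub_one_mul_conj]
  have hsr0 : 0 < s * r := by positivity
  refine ⟨(r - s) / (1 + s * r), div_pos (by linarith) (by positivity), ?_⟩
  intro k
  induction k with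
  | zero =>
    refine ⟨{ ι := Unit, fin := inferInstance, φ := fun _ => 0, x := fun _ => 1, y := fun _ => 1,
              inj := fun _ _ _ => rfl, lo := fun _ => le_rfl, hi := fun _ => by norm_num,
              hx := fun _ => by simp, hy := fun _ => by simp, pos := by simp, big := ?_ }⟩
    have : K 0 = 0 := by
      rw [hK 0 le_rfl]; apply lac_ne; intro k; positivity
    simp [this]
  | succ k ih =>
    obtain ⟨D⟩ := ih
    let _ := D.fin
    set A := (1 / ((k : ℝ) + 1)) * ∑ i, D.x i * D.y i with hA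
    set β := ∑ i, ∑ l, (K (D.φ l - (3 ^ k + D.φ i))).re * (D.x i * D.y l) with hβ
    have hA0 : 0 < A := by have := D.pos; positivity
    by_cases hc : -A ≤ β
    · refine step hK D s r (by rw [abs_of_pos hs, hsr]) (by rw [abs_of_pos hr0, hrq]) hsr0.le ?_
      rw [← hβ, ← hA, mul_assoc ((r - s) / (1 + s * r)), ← hA]
      have : (r - s) / (1 + s * r) * A * (1 + s * r) = (r - s) * A := by field_simp
      rw [this]
      nlinarith
    · push Not at hc
      have e : -s⁻¹ * -r⁻¹ = (s * r)⁻¹ := by rw [mul_inv]; ring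
      refine step hK D (-s⁻¹) (-r⁻¹) ?_ ?_ ?_ ?_
      · rw [abs_neg, abs_of_pos (inv_pos.2 hs), Real.inv_rpow hs.le, hsr, e]
      · rw [abs_neg, abs_of_pos (inv_pos.2 hr0), Real.inv_rpow hr0.le, hrq, e]
      · rw [e]; positivity
      · rw [← hβ, ← hA, mul_assoc ((r - s) / (1 + s * r)), ← hA, e]
        have h1 : (r - s) / (1 + s * r) * A * (1 + (s * r)⁻¹) = (r - s) * A / (s * r) := by
          field_simp; ring
        have h2 : -r⁻¹ * A + -s⁻¹ * β = (-s * A - r * β) / (s * r) := by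
          field_simp; ring
        rw [h1, h2]
        apply div_le_div_of_nonneg_right _ hsr0.le
        nlinarith

/-- the `ℓ^p` norm of a two-sided sequence, valued in `[0,∞]` -/
noncomputable def lpn (p : ℝ) (x : ℤ → ℂ) : ℝ≥0∞ := (∑' n, ‖x n‖ₑ ^ p) ^ (1 / p)

lemma harmonic_unbdd (B : ℝ) : ∃ k : ℕ, B < ∑ j ∈ range k, (1 / ((j : ℝ) + 1)) :=
  ((Real.tendsto_sum_range_one_div_nat_succ_atTop.eventually_gt_atTop B).exists)

theorem not_mult {p : ℝ} (hp : 1 < p) (hp2 : p ≠ 2) {K : ℤ → ℂ}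
    (hK : ∀ n, 0 ≤ n → K n = lac n) :
    ¬ ∃ C : ℝ≥0, ∀ u : ℤ →₀ ℂ,
      lpn p (fun n => ∑ j ∈ u.support, K (n - j) * u j) ≤ C * lpn p u := by
  classical
  rintro ⟨C, hC⟩
  have hpq := Real.HolderConjugate.conjExponent hp
  set q := p.conjExponent
  obtain ⟨κ, hκ, hD⟩ := exists_data hpq hp2 hK
  obtain ⟨k, hk⟩ := harmonic_unbdd (C / κ)
  obtain ⟨D⟩ := hD k
  let _ := D.fin
  set A := ∑ i, D.x i * D.y i with hA
  have hA0 : 0 < A := D.pos
  have hp0 : 0 < p := by linarith
  let u : ℤ →₀ ℂ := ∑ i, Finsupp.single (D.φ i) (D.x i : ℂ)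
  have hu1 : ∀ i, u (D.φ i) = D.x i := by
    intro i
    simp only [u, Finsupp.finsetSum_apply]
    rw [Finset.sum_eq_single i]
    · simp
    · intro l _ hl
      rw [Finsupp.single_eq_of_ne]
      exact fun h => hl (D.inj h).symm
    · simp
  have hu2 : ∀ n, n ∉ Finset.univ.image D.φ → u n = 0 := by
    intro n hn
    simp only [u, Finsupp.finsetSum_apply]
    refine Finset.sum_eq_zero fun i _ => ?_
    rw [Finsupp.single_eq_of_ne]
    intro h
    exact hn (Finset.mem_image.2 ⟨i, Finset.mem_univ _, h.symm⟩)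
  have hconv : ∀ n, ∑ j ∈ u.support, K (n - j) * u j = ∑ i, K (n - D.φ i) * D.x i := by
    intro n
    have hsub : u.support ⊆ Finset.univ.image D.φ := by
      intro j hj
      by_contra h
      exact (Finsupp.mem_support_iff.1 hj) (hu2 j h)
    rw [Finset.sum_subset hsub (fun j _ hj => by rw [Finsupp.notMem_support_iff.1 hj, mul_zero]),
      Finset.sum_image (fun a _ b _ h => D.inj h)]
    exact Finset.sum_congr rfl fun i _ => by rw [hu1]
  have hnu : lpn p u = ENNReal.ofReal (A ^ (1 / p)) := by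
    unfold lpn
    rw [tsum_eq_sum (s := Finset.univ.image D.φ) (fun n hn => by rw [hu2 n hn]; simp [hp0]),
      Finset.sum_image (fun a _ b _ h => D.inj h), ← ENNReal.ofReal_rpow_of_pos hA0, hA,
      ENNReal.ofReal_sum_of_nonneg (fun i _ => by rw [← D.hx i]; positivity)]
    congr 1
    refine Finset.sum_congr rfl fun i _ => ?_
    rw [hu1, ← D.hx i, ← ENNReal.ofReal_rpow_of_nonneg (abs_nonneg _) hp0.le, ← ofReal_norm,
      Complex.norm_real, Real.norm_eq_abs]
  set W : D.ι → ℝ := fun l => ‖∑ i, K (D.φ l - D.φ i) * D.x i‖ with hW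
  have hW0 : ∀ l, 0 ≤ W l := fun l => norm_nonneg _
  have hWb : (∑ l, W l ^ p) ^ (1 / p) ≤ C * A ^ (1 / p) := by
    have h1 := hC u
    rw [hnu] at h1
    have h2 : ENNReal.ofReal ((∑ l, W l ^ p) ^ (1 / p)) ≤
        lpn p (fun n => ∑ j ∈ u.support, K (n - j) * u j) := by
      unfold lpn
      rw [← ENNReal.ofReal_rpow_of_nonneg (Finset.sum_nonneg fun l _ => by
        have := hW0 l; positivity) (by positivity)]
      apply ENNReal.rpow_le_rpow _ (by positivity)
      refine le_trans ?_ (ENNReal.sum_le_tsum (Finset.univ.image D.φ))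
      rw [Finset.sum_image (fun a _ b _ h => D.inj h),
        ENNReal.ofReal_sum_of_nonneg (fun l _ => by have := hW0 l; positivity)]
      refine le_of_eq (Finset.sum_congr rfl fun l _ => ?_)
      beta_reduce
      rw [hconv, ← ENNReal.ofReal_rpow_of_nonneg (hW0 l) hp0.le, hW, ofReal_norm]
    have h3 := h2.trans h1
    rw [← ENNReal.ofReal_coe_nnreal, ← ENNReal.ofReal_mul C.coe_nonneg] at h3
    exact (ENNReal.ofReal_le_ofReal_iff (by positivity)).1 h3
  have hH := Real.inner_le_Lp_mul_Lq Finset.univ W (fun l => |D.y l|) hpq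
  have e1 : ∑ l, |W l| ^ p = ∑ l, W l ^ p :=
    Finset.sum_congr rfl fun l _ => by rw [abs_of_nonneg (hW0 l)]
  have e2 : ∑ l, |(|D.y l|)| ^ q = A := by
    rw [hA]; exact Finset.sum_congr rfl fun l _ => by rw [abs_abs, D.hy l]
  rw [e1, e2] at hH
  have hb := D.big
  rw [← hA, Finset.sum_comm] at hb
  have h4 : ∑ l, ∑ i, (K (D.φ l - D.φ i)).re * (D.x i * D.y l) ≤ ∑ l, W l * |D.y l| := by
    refine Finset.sum_le_sum fun l _ => ?_
    have : ∑ i, (K (D.φ l - D.φ i)).re * (D.x i * D.y l) =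
        (∑ i, K (D.φ l - D.φ i) * D.x i).re * D.y l := by
      rw [Complex.re_sum, Finset.sum_mul]
      refine Finset.sum_congr rfl fun i _ => ?_
      simp only [Complex.mul_re, Complex.ofReal_re, Complex.ofReal_im]; ring
    rw [this]
    refine (le_abs_self _).trans ?_
    rw [abs_mul]
    exact mul_le_mul_of_nonneg_right (Complex.abs_re_le_norm _) (abs_nonneg _)
  have h5 : A ^ (1 / p) * A ^ (1 / q) = A := by
    rw [← Real.rpow_add hA0, one_div, one_div, hpq.inv_add_inv_eq_one, Real.rpow_one]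
  have h6 : (∑ l, W l ^ p) ^ (1 / p) * A ^ (1 / q) ≤ C * A := by
    calc _ ≤ C * A ^ (1 / p) * A ^ (1 / q) := mul_le_mul_of_nonneg_right hWb (by positivity)
      _ = C * A := by rw [mul_assoc, h5]
  have h7 : κ * (∑ j ∈ range k, (1 / ((j : ℝ) + 1))) ≤ C :=
    le_of_mul_le_mul_right (by linarith) hA0
  rw [div_lt_iff₀ hκ] at hk
  linarith

end Pool.Agent.H1.Hank
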