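import Pool.Agent.H1.HankA

namespace Pool.Agent.H1.Hank

open Finset MeasureTheory
open scoped ENNReal NNReal ComplexConjugate

noncomputable def cc (k : ℕ) : ℝ≥0∞ := ENNReal.ofReal (1 / ((k : ℝ) + 1))

lemma enorm_lac_pow (k : ℕ) : ‖lac (3 ^ k)‖ₑ = cc k := by
  rw [lac_pow, cc, ← ofReal_norm]
  congr 1
  have : (1 / ((k : ℂ) + 1)) = ((1 / ((k : ℝ) + 1) : ℝ) : ℂ) := by push_cast; ring
  rw [this, Complex.norm_real, Real.norm_of_nonneg (by positivity)]

lemma cc_sum {r : ℝ} (hr : 1 < r) : ∑' k, cc k ^ r ≠ ⊤ := by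
  have hs : Summable (fun k : ℕ => (1 / ((k : ℝ) + 1)) ^ r) := by
    have := (summable_nat_add_iff 1).2 (Real.summable_one_div_nat_rpow.2 hr)
    refine this.congr fun k => ?_
    rw [Real.div_rpow (by norm_num) (by positivity), Real.one_rpow]
    push_cast; rfl
  have : ∀ k, cc k ^ r = ENNReal.ofReal ((1 / ((k : ℝ) + 1)) ^ r) := fun k => by
    rw [cc, ENNReal.ofReal_rpow_of_pos (by positivity)]
  simp_rw [this]
  rw [← ENNReal.ofReal_tsum_of_nonneg (fun k => by positivity) hs]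
  exact ENNReal.ofReal_ne_top

lemma tsum_holder {p q : ℝ} (hpq : p.HolderConjugate q) (f g : ℕ → ℝ≥0∞) :
    ∑' k, f k * g k ≤ (∑' k, f k ^ p) ^ (1 / p) * (∑' k, g k ^ q) ^ (1 / q) := by
  have := ENNReal.lintegral_mul_le_Lp_mul_Lq (Measure.count : Measure ℕ) hpq (f := f) (g := g)
    (measurable_of_countable f).aemeasurable (measurable_of_countable g).aemeasurable
  simpa only [lintegral_count, Pi.mul_apply] using this

lemma hank_pt (g : ℤ →₀ ℂ) (n : ℤ) :
    ‖∑ j ∈ g.support, conj (lac (j - n)) * g j‖ₑ ≤ ∑' k, cc k * ‖g (3 ^ k + n)‖ₑ := by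
  classical
  refine (enorm_sum_le _ _).trans ?_
  have h1 : ∀ j, ‖conj (lac (j - n)) * g j‖ₑ ≤
      ∑' k, if j = 3 ^ k + n then cc k * ‖g (3 ^ k + n)‖ₑ else 0 := by
    intro j
    by_cases h : ∃ k : ℕ, j - n = 3 ^ k
    · obtain ⟨k, hk⟩ := h
      refine le_trans ?_ (ENNReal.le_tsum k)
      have hj : j = 3 ^ k + n := by linarith
      rw [if_pos hj, enorm_mul, hk, ← enorm_lac_pow, ← hj]
      simp [← ofReal_norm]
    · rw [lac_ne (fun k hk => h ⟨k, hk⟩)]; simp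
  refine (Finset.sum_le_sum fun j _ => h1 j).trans ?_
  rw [← Summable.tsum_finsetSum (fun _ _ => ENNReal.summable)]
  refine ENNReal.tsum_le_tsum fun k => ?_
  rw [Finset.sum_ite_eq']
  split_ifs <;> simp

lemma one_window {m : ℤ} {k l : ℕ} (h1 : m ≤ 3 ^ k) (h2 : (3 : ℤ) ^ k < 2 * m) (h3 : m ≤ 3 ^ l)
    (h4 : (3 : ℤ) ^ l < 2 * m) : k = l := by
  rcases lt_trichotomy k l with h | h | h
  · exfalso
    have : (3 : ℤ) ^ (k + 1) ≤ 3 ^ l := pow_le_pow_right₀ (by norm_num) h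
    rw [pow_succ] at this
    have h0 : (0 : ℤ) < 3 ^ k := by positivity
    linarith
  · exact h
  · exfalso
    have : (3 : ℤ) ^ (l + 1) ≤ 3 ^ k := pow_le_pow_right₀ (by norm_num) h
    rw [pow_succ] at this
    have h0 : (0 : ℤ) < 3 ^ l := by positivity
    linarith

theorem hank_bdd {p : ℝ} (hp : 1 < p) : ∃ C : ℝ≥0, ∀ g : ℤ →₀ ℂ, (∀ n < 0, g n = 0) →
    lpn p (fun n => if n < 0 then ∑ j ∈ g.support, conj (lac (j - n)) * g j else 0) ≤
      C * lpn p g := by
  classical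
  have hpq := Real.HolderConjugate.conjExponent hp
  set q := p.conjExponent
  have hq : 1 < q := hpq.symm.lt
  have hp0 : 0 < p := by linarith
  have hq0 : 0 < q := by linarith
  set P := ∑' k, cc k ^ p + 1 with hP
  set Q := ∑' k, cc k ^ q + 1 with hQ
  have hPt : P ≠ ⊤ := ENNReal.add_ne_top.2 ⟨cc_sum hp, ENNReal.one_ne_top⟩
  have hQt : Q ≠ ⊤ := ENNReal.add_ne_top.2 ⟨cc_sum hq, ENNReal.one_ne_top⟩
  have hCt : Q ^ (1 / q) * P ^ (1 / p) ≠ ⊤ :=
    ENNReal.mul_ne_top (ENNReal.rpow_ne_top_of_nonneg (by positivity) hQt)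
      (ENNReal.rpow_ne_top_of_nonneg (by positivity) hPt)
  refine ⟨(Q ^ (1 / q) * P ^ (1 / p)).toNNReal, fun g hg => ?_⟩
  rw [ENNReal.coe_toNNReal hCt]
  set G := ∑' n, ‖g n‖ₑ ^ p with hG
  let v : ℤ → ℕ → ℝ≥0∞ := fun n k => (if -2 * n ≤ 3 ^ k then 1 else cc k) * ‖g (3 ^ k + n)‖ₑ
  let w : ℤ → ℕ → ℝ≥0∞ := fun n k =>
    if -2 * n ≤ 3 ^ k then cc k else if -n ≤ 3 ^ k then 1 else 0
  have hw : ∀ n, ∑' k, w n k ^ q ≤ Q := by
    intro n
    have h1 : ∀ k, w n k ^ q ≤ cc k ^ q +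
        (if -n ≤ 3 ^ k ∧ (3 : ℤ) ^ k < 2 * (-n) then 1 else 0) := by
      intro k
      simp only [w]
      by_cases a1 : -2 * n ≤ 3 ^ k
      · rw [if_pos a1]; exact le_self_add
      · rw [if_neg a1]
        by_cases a2 : -n ≤ 3 ^ k
        · rw [if_pos a2, if_pos ⟨a2, by linarith [not_le.1 a1]⟩, ENNReal.one_rpow]
          exact le_add_self
        · rw [if_neg a2, ENNReal.zero_rpow_of_pos hq0]; exact zero_le
    refine (ENNReal.tsum_le_tsum h1).trans ?_
    rw [ENNReal.tsum_add]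
    refine add_le_add le_rfl ?_
    by_cases h : ∃ k : ℕ, -n ≤ 3 ^ k ∧ (3 : ℤ) ^ k < 2 * (-n)
    · obtain ⟨k, hk⟩ := h
      rw [tsum_eq_single k, if_pos hk]
      intro l hl
      rw [if_neg]
      intro h'
      exact hl (one_window h'.1 h'.2 hk.1 hk.2)
    · rw [ENNReal.tsum_eq_zero.2]
      · exact zero_le
      · intro k; rw [if_neg (fun hk => h ⟨k, hk⟩)]
  have hpt : ∀ n, ‖(if n < 0 then ∑ j ∈ g.support, conj (lac (j - n)) * g j else 0)‖ₑ ^ p ≤
      (Q ^ (1 / q)) ^ p * ∑' k, (if n < 0 then v n k ^ p else 0) := by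
    intro n
    by_cases hn : n < 0
    · simp only [if_pos hn]
      have h1 : ∑' k, cc k * ‖g (3 ^ k + n)‖ₑ ≤ ∑' k, v n k * w n k := by
        refine ENNReal.tsum_le_tsum fun k => ?_
        simp only [v, w]
        by_cases a1 : -2 * n ≤ 3 ^ k
        · simp only [if_pos a1, one_mul]; rw [mul_comm]
        · simp only [if_neg a1]
          by_cases a2 : -n ≤ 3 ^ k
          · rw [if_pos a2, mul_one]
          · rw [hg _ (by linarith [not_le.1 a2])]; simp
      have h2 := ((hank_pt g n).trans h1).trans (tsum_holder hpq (v n) (w n))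
      have h3 := h2.trans (mul_le_mul_right (ENNReal.rpow_le_rpow (hw n) (by positivity)) _)
      refine (ENNReal.rpow_le_rpow h3 hp0.le).trans (le_of_eq ?_)
      rw [ENNReal.mul_rpow_of_nonneg _ _ hp0.le, ← ENNReal.rpow_mul, one_div_mul_cancel hp0.ne',
        ENNReal.rpow_one, mul_comm]
    · simp only [if_neg hn]; simp [hp0]
  have hv : ∑' n, ∑' k, (if n < 0 then v n k ^ p else 0) ≤ P * G := by
    have h1 : ∀ n k, (if n < 0 then v n k ^ p else 0) ≤ cc k ^ p * ‖g (3 ^ k + n)‖ₑ ^ p +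
        (if n < 0 ∧ -2 * n ≤ 3 ^ k then ‖g (3 ^ k + n)‖ₑ ^ p else 0) := by
      intro n k
      by_cases hn : n < 0
      · rw [if_pos hn]
        simp only [v]
        by_cases a1 : -2 * n ≤ 3 ^ k
        · rw [if_pos a1, if_pos ⟨hn, a1⟩, one_mul]; exact le_add_self
        · rw [if_neg a1, ENNReal.mul_rpow_of_nonneg _ _ hp0.le]; exact le_self_add
      · rw [if_neg hn]; exact zero_le
    refine (ENNReal.tsum_le_tsum fun n => ENNReal.tsum_le_tsum (h1 n)).trans ?_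
    simp_rw [ENNReal.tsum_add]
    rw [hP, add_mul, one_mul]
    refine add_le_add ?_ ?_
    · rw [ENNReal.tsum_comm, ← ENNReal.tsum_mul_right]
      refine ENNReal.tsum_le_tsum fun k => ?_
      rw [ENNReal.tsum_mul_left]
      refine mul_le_mul_right ?_ _
      exact ENNReal.tsum_comp_le_tsum_of_injective (add_right_injective ((3 : ℤ) ^ k))
        (fun n => ‖g n‖ₑ ^ p)
    · rw [← ENNReal.tsum_prod]
      let S : Set (ℤ × ℕ) := {z | z.1 < 0 ∧ -2 * z.1 ≤ 3 ^ z.2}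
      have e : ∑' z : ℤ × ℕ, (if z.1 < 0 ∧ -2 * z.1 ≤ 3 ^ z.2 then ‖g (3 ^ z.2 + z.1)‖ₑ ^ p else 0)
          = ∑' z : S, ‖g (3 ^ z.1.2 + z.1.1)‖ₑ ^ p := by
        rw [tsum_subtype S (fun z : ℤ × ℕ => ‖g (3 ^ z.2 + z.1)‖ₑ ^ p)]
        refine tsum_congr fun z => ?_
        rw [Set.indicator_apply]; rfl
      rw [e]
      refine ENNReal.tsum_comp_le_tsum_of_injective (f := fun z : S => 3 ^ z.1.2 + z.1.1) ?_
        (fun n => ‖g n‖ₑ ^ p)
      rintro ⟨⟨a, k⟩, ha1, ha2⟩ ⟨⟨b, l⟩, hb1, hb2⟩ h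
      simp only at h ha1 ha2 hb1 hb2
      have hkl : k = l := by
        rcases lt_trichotomy k l with h' | h' | h'
        · exfalso
          have : (3 : ℤ) ^ (k + 1) ≤ 3 ^ l := pow_le_pow_right₀ (by norm_num) h'
          rw [pow_succ] at this
          have h0 : (0 : ℤ) < 3 ^ k := by positivity
          linarith
        · exact h'
        · exfalso
          have : (3 : ℤ) ^ (l + 1) ≤ 3 ^ k := pow_le_pow_right₀ (by norm_num) h'
          rw [pow_succ] at this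
          have h0 : (0 : ℤ) < 3 ^ l := by positivity
          linarith
      subst hkl
      have : a = b := by linarith
      subst this
      rfl
  unfold lpn
  have h4 := (ENNReal.tsum_le_tsum hpt).trans
    (le_of_eq_of_le ENNReal.tsum_mul_left (mul_le_mul_right hv _))
  refine (ENNReal.rpow_le_rpow h4 (by positivity : 0 ≤ 1 / p)).trans (le_of_eq ?_)
  rw [ENNReal.mul_rpow_of_nonneg _ _ (by positivity), ENNReal.mul_rpow_of_nonneg _ _ (by positivity),
    ← ENNReal.rpow_mul (Q ^ (1 / q)), mul_one_div_cancel hp0.ne', ENNReal.rpow_one, mul_assoc]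

lemma lac_neg {n : ℤ} (hn : n < 0) : lac n = 0 := by
  apply lac_ne
  intro k h
  have h0 : (0 : ℤ) < 3 ^ k := by positivity
  linarith

lemma lac_memlp : Memℓp lac 2 := by
  apply memℓp_gen
  have hs : Summable (fun k : ℕ => (1 / ((k : ℝ) + 1)) ^ (2 : ℝ)) := by
    have := (summable_nat_add_iff 1).2 (Real.summable_one_div_nat_rpow.2 (by norm_num : (1:ℝ) < 2))
    refine this.congr fun k => ?_
    rw [Real.div_rpow (by norm_num) (by positivity), Real.one_rpow]
    push_cast; rfl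
  have hinj : Function.Injective (fun k : ℕ => (3 : ℤ) ^ k) := fun a b h => pow3_inj h
  rw [← hinj.summable_iff]
  · refine hs.congr fun k => ?_
    simp only [Function.comp, lac_pow]
    have : (1 / ((k : ℂ) + 1)) = ((1 / ((k : ℝ) + 1) : ℝ) : ℂ) := by push_cast; ring
    rw [this, Complex.norm_real, Real.norm_of_nonneg (by positivity)]
    simp
  · intro n hn
    rw [lac_ne (fun k hk => hn ⟨k, hk.symm⟩)]
    simp

end Pool.Agent.H1.Hank
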