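import Mathlib

open Complex Filter Topology Set Metric

namespace Pool.Agent.H1.HeatA

noncomputable def tm (f : ℂ → ℂ) (k : ℕ) (z : ℂ) : ℂ :=
  (-((1 / 30 : ℝ) : ℂ)) ^ k / ((Nat.factorial k : ℕ) : ℂ) * iteratedDeriv (2 * k) f z

lemma fac_le (k : ℕ) : ((2 * k).factorial : ℝ) ≤ k.factorial * (2 * (k + 1)) ^ k := by
  have h1 := Nat.factorial_mul_ascFactorial k k
  have h2 := Nat.ascFactorial_le_pow_add k k
  have h3 : (2 * k).factorial ≤ k.factorial * (2 * (k + 1)) ^ k := by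
    rw [two_mul k, ← h1]
    exact Nat.mul_le_mul_left _ (h2.trans (Nat.pow_le_pow_left (by omega) k))
  exact_mod_cast h3

lemma tm_le (H : ℂ → ℂ) (hH : Differentiable ℂ H) (δ ρ : ℝ) (hδ : 0 ≤ δ)
    (hb : ∀ w, ‖H w‖ ≤ δ * Real.exp (‖w‖ ^ 2)) (k : ℕ) (w : ℂ) (hw : ‖w‖ ≤ ρ) :
    ‖tm H k w‖ ≤ δ * Real.exp (2 * ρ ^ 2 + 2) * (1 / 2) ^ k := by
  set r : ℝ := Real.sqrt (k + 1) with hr
  have hr0 : 0 < r := Real.sqrt_pos.2 (by positivity)
  have hr2 : r ^ 2 = k + 1 := Real.sq_sqrt (by positivity)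
  have h1 := norm_iteratedDeriv_le_of_forall_mem_sphere_norm_le (c := w) (R := r)
    (C := δ * Real.exp (2 * ρ ^ 2 + 2 * (k + 1))) (2 * k) hr0 hH.diffContOnCl (fun z hz => by
      refine (hb z).trans (mul_le_mul_of_nonneg_left (Real.exp_le_exp.2 ?_) hδ)
      have h2 : ‖z‖ ≤ ρ + r := by
        have := norm_le_insert' z w
        rw [mem_sphere_iff_norm.1 hz] at this
        linarith
      have h3 : ‖z‖ ^ 2 ≤ (ρ + r) ^ 2 := pow_le_pow_left₀ (norm_nonneg _) h2 2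
      nlinarith [sq_nonneg (ρ - r)])
  rw [pow_mul r, hr2] at h1
  have hk : (0 : ℝ) < k.factorial := by exact_mod_cast k.factorial_pos
  have he : Real.exp 2 ≤ 7.5 := by
    have := Real.exp_one_lt_d9
    have h2 : Real.exp 2 = Real.exp 1 * Real.exp 1 := by rw [← Real.exp_add]; norm_num
    nlinarith [Real.exp_pos 1]
  have hn : ‖tm H k w‖ = (1 / 30) ^ k / k.factorial * ‖iteratedDeriv (2 * k) H w‖ := by
    simp only [tm, norm_mul, norm_div, norm_pow, norm_neg, norm_real, norm_natCast]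
    norm_num
  have hE : Real.exp (2 * ρ ^ 2 + 2 * (k + 1)) = Real.exp (2 * ρ ^ 2 + 2) * Real.exp 2 ^ k := by
    rw [← Real.exp_nat_mul, ← Real.exp_add]; congr 1; ring
  rw [hn]
  calc (1 / 30 : ℝ) ^ k / k.factorial * ‖iteratedDeriv (2 * k) H w‖
      ≤ (1 / 30 : ℝ) ^ k / k.factorial * ((k.factorial * (2 * (k + 1)) ^ k) *
        (δ * Real.exp (2 * ρ ^ 2 + 2 * (k + 1))) / (k + 1) ^ k) := by
        refine mul_le_mul_of_nonneg_left (h1.trans ?_) (by positivity)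
        gcongr
        exact fac_le k
    _ = δ * Real.exp (2 * ρ ^ 2 + 2) * (1 / 30 * 2 * Real.exp 2) ^ k := by
        rw [hE, mul_pow, mul_pow, mul_pow]; field_simp
    _ ≤ _ := by
        gcongr
        linarith

lemma tm_diff (H : ℂ → ℂ) (hH : Differentiable ℂ H) (k : ℕ) : Differentiable ℂ (tm H k) := by
  have : Differentiable ℂ (iteratedDeriv (2 * k) H) :=
    (hH.contDiff (n := ((2 * k + 1 : ℕ) : WithTop ℕ∞))).differentiable_iteratedDeriv _
      (by exact_mod_cast Nat.lt_succ_self _)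
  exact this.const_mul _

lemma heat (H : ℂ → ℂ) (hH : Differentiable ℂ H) (δ ρ : ℝ) (hδ : 0 ≤ δ)
    (hb : ∀ w, ‖H w‖ ≤ δ * Real.exp (‖w‖ ^ 2)) :
    DifferentiableOn ℂ (fun w => ∑' k, tm H k w) (ball 0 ρ) ∧
    ∀ w, ‖w‖ ≤ ρ → Summable (fun k => tm H k w) ∧
      ‖∑' k, tm H k w‖ ≤ δ * Real.exp (2 * ρ ^ 2 + 2) * 2 := by
  have hs := (hasSum_geometric_two).mul_left (δ * Real.exp (2 * ρ ^ 2 + 2))
  refine ⟨differentiableOn_tsum_of_summable_norm hs.summable
    (fun k => (tm_diff H hH k).differentiableOn) isOpen_ball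
    (fun k w hw => tm_le H hH δ ρ hδ hb k w (mem_ball_zero_iff.1 hw).le), fun w hw => ⟨?_, ?_⟩⟩
  · exact Summable.of_norm_bounded hs.summable fun k => tm_le H hH δ ρ hδ hb k w hw
  · exact tsum_of_norm_bounded hs fun k => tm_le H hH δ ρ hδ hb k w hw

lemma heat_cos (w : ℂ) : HasSum (fun k => tm (fun z => 2 + cos z) k w)
    (2 + exp ((1 / 30 : ℝ) : ℂ) * cos w) := by
  have h1 : HasSum (fun k : ℕ => ((1 / 30 : ℝ) : ℂ) ^ k / (k.factorial : ℂ) * cos w)
      (exp ((1 / 30 : ℝ) : ℂ) * cos w) := by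
    refine HasSum.mul_right _ ?_
    rw [Complex.exp_eq_exp_ℂ]
    exact NormedSpace.expSeries_div_hasSum_exp _
  have h2 := (hasSum_ite_eq (0 : ℕ) (2 : ℂ)).add h1
  convert h2 using 2 with k
  rcases Nat.eq_zero_or_pos k with rfl | hk
  · simp [tm]
  · rw [tm, iteratedDeriv_const_add (by omega), if_neg hk.ne', zero_add]
    have := Complex.iteratedDeriv_even_cos k
    rw [show iteratedDeriv (2 * k) (fun z => cos z) w = (-1) ^ k * cos w from by
      simpa using congrFun this w, neg_pow]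
    have h3 : ((-1 : ℂ) ^ k) * (-1) ^ k = 1 := by rw [← mul_pow]; simp
    linear_combination (((1 / 30 : ℝ) : ℂ) ^ k / (k.factorial : ℂ) * cos w) * h3

lemma zero_ex (G : ℂ → ℂ) (w0 : ℂ) (r m : ℝ) (hr : 0 < r) (hm : 0 < m)
    (hG : DifferentiableOn ℂ G (closedBall w0 r)) (h0 : ‖G w0‖ < m)
    (hs : ∀ w ∈ sphere w0 r, m ≤ ‖G w‖) : ∃ w ∈ closedBall w0 r, G w = 0 := by
  by_contra hne
  push Not at hne
  have hd : DiffContOnCl ℂ (fun w => (G w)⁻¹) (ball w0 r) := by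
    refine DifferentiableOn.diffContOnCl ?_
    rw [closure_ball _ hr.ne']
    exact hG.inv hne
  have := Complex.norm_le_of_forall_mem_frontier_norm_le (C := m⁻¹) isBounded_ball hd
    (fun z hz => by
      rw [frontier_ball _ hr.ne'] at hz
      rw [norm_inv]
      exact inv_anti₀ hm (hs z hz)) (subset_closure (mem_ball_self hr))
  rw [norm_inv] at this
  have hp : 0 < ‖G w0‖ := norm_pos_iff.2 (hne _ (mem_closedBall_self hr.le))
  have := (inv_le_inv₀ hp hm).1 this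
  linarith

end Pool.Agent.H1.HeatA
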