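import Mathlib

open Complex Filter Topology Set Metric

namespace Pool.Agent.H1.HeatB

lemma mul1 {a b : ℂ} {s t : ℝ} (ha : ‖a - 1‖ ≤ Real.exp s - 1) (hb : ‖b - 1‖ ≤ Real.exp t - 1) :
    ‖a * b - 1‖ ≤ Real.exp (s + t) - 1 := by
  have e : a * b - 1 = (a - 1) * (b - 1) + (a - 1) + (b - 1) := by ring
  have h1 : ‖a * b - 1‖ ≤ ‖a - 1‖ * ‖b - 1‖ + ‖a - 1‖ + ‖b - 1‖ := by
    rw [e, ← norm_mul]; exact norm_add₃_le
  have h2 : ‖a - 1‖ * ‖b - 1‖ ≤ (Real.exp s - 1) * (Real.exp t - 1) :=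
    mul_le_mul ha hb (norm_nonneg _) ((norm_nonneg _).trans ha)
  rw [Real.exp_add]; nlinarith

lemma pw {v : ℂ} {t : ℝ} (h : ‖v‖ ≤ t) (m : ℕ) : ‖(1 + v) ^ m - 1‖ ≤ Real.exp (m * t) - 1 := by
  induction m with
  | zero => simp
  | succ m ih =>
    have h1 : ‖(1 + v) - 1‖ ≤ Real.exp t - 1 := by
      have := Real.add_one_le_exp t
      simp only [add_sub_cancel_left]; linarith
    have := mul1 ih h1
    rw [pow_succ]; push_cast; rwa [add_mul, one_mul]

lemma pr (b : ℕ → ℂ) (t : ℕ → ℝ) (h : ∀ j, ‖b j - 1‖ ≤ Real.exp (t j) - 1) (n : ℕ) :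
    ‖∏ j ∈ Finset.range n, b j - 1‖ ≤ Real.exp (∑ j ∈ Finset.range n, t j) - 1 := by
  induction n with
  | zero => simp
  | succ n ih => rw [Finset.prod_range_succ, Finset.sum_range_succ]; exact mul1 ih (h n)

noncomputable def R (j : ℕ) : ℝ := 2 ^ (j ^ 2 + 3 * j)
def m (j : ℕ) : ℕ := (j + 1) * 2 ^ (j ^ 2 + 3 * j)
noncomputable def a (j : ℕ) (z : ℂ) : ℂ := (1 - z ^ 2 / (R j : ℂ) ^ 2) ^ m j
noncomputable def P (z : ℂ) : ℂ := ∏' j, (1 + (a j z - 1))
noncomputable def X (k : ℕ) : ℝ := 2 * Real.pi * (2 ^ k * R k)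

lemma R_pos (j : ℕ) : 0 < R j := by unfold R; positivity
lemma m_eq (j : ℕ) : (m j : ℝ) = (j + 1) * R j := by unfold m R; push_cast; ring
lemma R_ge (j : ℕ) : (2 : ℝ) ^ j ≤ R j := pow_le_pow_right₀ one_le_two (by nlinarith)
lemma R_mono {i j : ℕ} (h : i ≤ j) : R i ≤ R j :=
  pow_le_pow_right₀ one_le_two (by nlinarith)
lemma R_succ (j : ℕ) : R (j + 1) = 16 * 2 ^ j * 2 ^ j * R j := by
  unfold R
  rw [show (j + 1) ^ 2 + 3 * (j + 1) = 4 + j + j + (j ^ 2 + 3 * j) by ring]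
  simp only [pow_add]; norm_num

lemma sm (q : ℝ) (h0 : 0 ≤ q) (h1 : q < 1) : Summable fun j : ℕ => ((j : ℝ) + 1) * q ^ j := by
  have h2 := summable_pow_mul_geometric_of_norm_lt_one 1
    (show ‖q‖ < 1 by rwa [Real.norm_of_nonneg h0])
  refine (h2.add (summable_geometric_of_lt_one h0 h1)).congr fun j => by ring

lemma a_le (ρ : ℝ) (j : ℕ) (z : ℂ) (hz : ‖z‖ ≤ ρ) :
    ‖a j z - 1‖ ≤ ρ ^ 2 * Real.exp (ρ ^ 2) * (((j : ℝ) + 1) * (1 / 2) ^ j) := by
  have hR := R_pos j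
  have h1 : ‖-(z ^ 2 / (R j : ℂ) ^ 2)‖ ≤ ρ ^ 2 / R j ^ 2 := by
    rw [norm_neg, norm_div, norm_pow, norm_pow, norm_real, Real.norm_of_nonneg hR.le]
    gcongr
  have h2 := pw h1 (m j)
  rw [← sub_eq_add_neg] at h2
  set t := (m j : ℝ) * (ρ ^ 2 / R j ^ 2) with ht
  have ht0 : 0 ≤ t := by positivity
  have h3 : t ≤ ρ ^ 2 * (((j : ℝ) + 1) * (1 / 2) ^ j) := by
    have : t = ρ ^ 2 * (((j : ℝ) + 1) * (1 / R j)) := by rw [ht, m_eq]; field_simp
    rw [this, one_div_pow]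
    gcongr
    exact R_ge j
  have h4 : ((j : ℝ) + 1) * (1 / 2) ^ j ≤ 1 := by
    have : j + 1 ≤ 2 ^ j := Nat.lt_two_pow_self
    have h5 : (j : ℝ) + 1 ≤ 2 ^ j := by exact_mod_cast this
    rw [one_div_pow, mul_one_div, div_le_one (by positivity)]; exact h5
  have h5 : t ≤ ρ ^ 2 := h3.trans (by nlinarith [sq_nonneg ρ])
  have h6 : Real.exp t - 1 ≤ t * Real.exp t := by
    have := Real.add_one_le_exp (-t)
    have h7 : Real.exp (-t) * Real.exp t = 1 := by rw [← Real.exp_add]; simp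
    nlinarith [Real.exp_pos t]
  calc ‖a j z - 1‖ ≤ t * Real.exp t := h2.trans h6
    _ ≤ (ρ ^ 2 * (((j : ℝ) + 1) * (1 / 2) ^ j)) * Real.exp (ρ ^ 2) := by gcongr
    _ = _ := by ring

lemma a_sum (z : ℂ) : Summable fun j => ‖a j z - 1‖ :=
  Summable.of_nonneg_of_le (fun _ => norm_nonneg _) (fun j => a_le ‖z‖ j z le_rfl)
    ((sm (1 / 2) (by norm_num) (by norm_num)).mul_left _)

lemma P_lim (z : ℂ) : Tendsto (fun n => ∏ j ∈ Finset.range n, a j z) atTop (𝓝 (P z)) := by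
  have := (multipliable_one_add_of_summable (a_sum z)).hasProd.tendsto_prod_nat
  simpa [P] using this

lemma a_diff (j : ℕ) : Differentiable ℂ (a j) := by unfold a; fun_prop

lemma P_diff : Differentiable ℂ P := by
  intro z
  have h1 := Summable.hasProdLocallyUniformlyOn_nat_one_add (f := fun j z => a j z - 1)
    (K := ball (0 : ℂ) (‖z‖ + 1)) isOpen_ball
    ((sm (1 / 2) (by norm_num) (by norm_num)).mul_left ((‖z‖ + 1) ^ 2 * Real.exp ((‖z‖ + 1) ^ 2)))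
    (Eventually.of_forall fun j w hw => a_le _ j w (mem_ball_zero_iff.1 hw).le)
    (fun j => ((a_diff j).continuous.sub continuous_const).continuousOn)
  have h2 := h1.tendstoLocallyUniformlyOn_finsetRange.differentiableOn
    (Eventually.of_forall fun n => DifferentiableOn.fun_finsetProd fun j _ =>
      (((a_diff j).sub_const 1).const_add 1).differentiableOn) isOpen_ball
  exact h2.differentiableAt (isOpen_ball.mem_nhds (by simp))

lemma P_zero (z : ℂ) (h : P z = 0) : ∃ j, z ^ 2 = (R j : ℂ) ^ 2 := by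
  by_contra hne
  push Not at hne
  refine tprod_one_add_ne_zero_of_summable (fun j => ?_) (a_sum z) h
  have hR : (R j : ℂ) ≠ 0 := by exact_mod_cast (R_pos j).ne'
  rw [add_sub_cancel]
  refine pow_ne_zero _ fun h0 => hne j ?_
  field_simp at h0
  linear_combination -h0

lemma P_real (x : ℝ) : (P x).im = 0 := by
  have h1 := (continuous_im.tendsto _).comp (P_lim x)
  have h2 : (im ∘ fun n => ∏ j ∈ Finset.range n, a j (x : ℂ)) = fun _ => 0 := by
    ext n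
    have : ∏ j ∈ Finset.range n, a j (x : ℂ) =
        ((∏ j ∈ Finset.range n, (1 - x ^ 2 / R j ^ 2) ^ m j : ℝ) : ℂ) := by
      simp [a]
    simp only [Function.comp_apply, this, ofReal_im]
  rw [h2] at h1
  exact tendsto_nhds_unique h1 tendsto_const_nhds

lemma P_even (z : ℂ) : P (-z) = P z := by simp [P, a]

lemma log_le (t θ : ℝ) (ht : 0 ≤ t) (h1 : 1 ≤ θ) (h2 : θ ≤ 2) :
    1 + t ^ 2 ≤ Real.exp (2 * t ^ θ) := by
  rcases le_total t 1 with h | h
  · have : t ^ (2 : ℝ) ≤ t ^ θ := Real.rpow_le_rpow_of_exponent_ge' ht h (by linarith) h2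
    rw [Real.rpow_two] at this
    have h3 := Real.add_one_le_exp (2 * t ^ θ)
    nlinarith [sq_nonneg t]
  · have : t ^ (1 : ℝ) ≤ t ^ θ := Real.rpow_le_rpow_of_exponent_le h h1
    rw [Real.rpow_one] at this
    have h3 := Real.add_one_le_exp (t ^ θ)
    rw [two_mul, Real.exp_add]
    nlinarith

lemma P_up (θ : ℝ) (h1 : 1 < θ) (h2 : θ ≤ 2) :
    ∃ K : ℝ, 0 ≤ K ∧ ∀ z : ℂ, ‖P z‖ ≤ Real.exp (K * ‖z‖ ^ θ) := by
  set q : ℝ := 2 ^ (1 - θ) with hq
  have hq0 : 0 ≤ q := by positivity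
  have hq1 : q < 1 := Real.rpow_lt_one_of_one_lt_of_neg one_lt_two (by linarith)
  have hs := sm q hq0 hq1
  refine ⟨2 * ∑' j : ℕ, ((j : ℝ) + 1) * q ^ j, 
    mul_nonneg zero_le_two (tsum_nonneg fun j => by positivity), fun z => ?_⟩
  refine le_of_tendsto' (P_lim z).norm fun n => ?_
  have ha : ∀ j, ‖a j z‖ ≤ Real.exp (2 * ‖z‖ ^ θ * (((j : ℝ) + 1) * q ^ j)) := by
    intro j
    have hR := R_pos j
    have e1 : ‖1 - z ^ 2 / (R j : ℂ) ^ 2‖ ≤ 1 + (‖z‖ / R j) ^ 2 := by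
      refine (norm_sub_le _ _).trans ?_
      rw [norm_one, norm_div, norm_pow, norm_pow, norm_real, Real.norm_of_nonneg hR.le, div_pow]
    have e2 := e1.trans (log_le _ θ (by positivity) h1.le h2)
    have e3 : R j ^ (1 - θ) ≤ q ^ j := by
      rw [hq, ← Real.rpow_natCast, ← Real.rpow_mul zero_le_two, mul_comm,
        Real.rpow_mul zero_le_two, Real.rpow_natCast]
      exact Real.rpow_le_rpow_of_nonpos (by positivity) (R_ge j) (by linarith)
    rw [a, norm_pow]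
    refine (pow_le_pow_left₀ (norm_nonneg _) e2 _).trans ?_
    rw [← Real.exp_nat_mul, Real.exp_le_exp, m_eq, Real.div_rpow (norm_nonneg _) hR.le]
    have e4 : R j ^ (1 - θ) = R j / R j ^ θ := by rw [Real.rpow_sub hR, Real.rpow_one]
    calc ((j : ℝ) + 1) * R j * (2 * (‖z‖ ^ θ / R j ^ θ))
        = 2 * ‖z‖ ^ θ * (((j : ℝ) + 1) * R j ^ (1 - θ)) := by rw [e4]; ring
      _ ≤ _ := by gcongr
  rw [norm_prod]
  refine (Finset.prod_le_prod (fun _ _ => norm_nonneg _) fun j _ => ha j).trans ?_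
  rw [← Real.exp_sum, Real.exp_le_exp, ← Finset.mul_sum]
  have := hs.sum_le_tsum (Finset.range n) fun j _ => by positivity
  have h0 : 0 ≤ ‖z‖ ^ θ := by positivity
  nlinarith

lemma P_low (k : ℕ) : (2 : ℝ) ^ m k ≤ ‖P (R k * I)‖ := by
  have ha : ∀ j, ‖a j (R k * I)‖ = (1 + R k ^ 2 / R j ^ 2) ^ m j := by
    intro j
    have : a j (R k * I) = (((1 + R k ^ 2 / R j ^ 2) ^ m j : ℝ) : ℂ) := by
      simp only [a, mul_pow, I_sq]; push_cast; congr 1; ring
    rw [this, norm_real, Real.norm_of_nonneg (by positivity)]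
  refine ge_of_tendsto (P_lim _).norm ?_
  filter_upwards [eventually_gt_atTop k] with n hn
  rw [norm_prod]
  simp only [ha]
  have h1 := Finset.prod_le_prod_of_subset_of_one_le (s := {k}) (t := Finset.range n)
    (f := fun j => (1 + R k ^ 2 / R j ^ 2) ^ m j) (by simpa using hn)
    (fun _ _ => by positivity)
    (fun j _ _ => one_le_pow₀ (le_add_of_nonneg_right (by positivity)))
  rw [Finset.prod_singleton, div_self (pow_pos (R_pos k) 2).ne', one_add_one_eq_two] at h1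
  exact h1

lemma X_ge {j k : ℕ} (h : j ≤ k) : 6 * (2 ^ j * R j) ≤ X k := by
  have h1 : (2 : ℝ) ^ j * R j ≤ 2 ^ k * R k :=
    mul_le_mul (pow_le_pow_right₀ one_le_two h) (R_mono h) (R_pos j).le (by positivity)
  have h2 : (0 : ℝ) < 2 ^ j * R j := mul_pos (by positivity) (R_pos j)
  have := Real.pi_gt_three
  unfold X; nlinarith

lemma X_le {j k : ℕ} (h : k < j) : X k * 2 ^ j ≤ R j := by
  obtain ⟨i, rfl⟩ : ∃ i, j = i + 1 := ⟨j - 1, by omega⟩
  have hki : k ≤ i := by omega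
  have h1 : (2 : ℝ) ^ k * R k ≤ 2 ^ i * R i :=
    mul_le_mul (pow_le_pow_right₀ one_le_two hki) (R_mono hki) (R_pos k).le (by positivity)
  have h2 : (0 : ℝ) < 2 ^ k * R k := mul_pos (by positivity) (R_pos k)
  have h3 : X k ≤ 8 * (2 ^ i * R i) := by
    have := Real.pi_lt_four
    unfold X; nlinarith
  rw [R_succ, pow_succ]
  have h4 : (0 : ℝ) < 2 ^ i := by positivity
  nlinarith

lemma X_big (k : ℕ) : (k : ℝ) + 1 ≤ X k := by
  have h1 := X_ge (le_refl k)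
  have h2 := R_ge k
  have : k + 1 ≤ 2 ^ k := Nat.lt_two_pow_self
  have h5 : (k : ℝ) + 1 ≤ 2 ^ k := by exact_mod_cast this
  have h6 : (1 : ℝ) ≤ 2 ^ k := one_le_pow₀ one_le_two
  nlinarith

noncomputable def c (k j : ℕ) : ℝ := m j * (2 * X k / |R j ^ 2 - X k ^ 2|)

lemma X_pos (k : ℕ) : 0 < X k := lt_of_lt_of_le (by positivity) (X_big k)

lemma gap1 {j k : ℕ} (h : j ≤ k) : 3 / 4 * X k ^ 2 ≤ |R j ^ 2 - X k ^ 2| := by
  have h1 := X_ge h
  have h6 : (1 : ℝ) ≤ 2 ^ j := one_le_pow₀ one_le_two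
  have hR := R_pos j
  have h2 : 2 * R j ≤ X k := by nlinarith
  rw [abs_sub_comm]
  refine le_trans ?_ (le_abs_self _)
  nlinarith

lemma gap2 {j k : ℕ} (h : k < j) : 3 / 4 * R j ^ 2 ≤ |R j ^ 2 - X k ^ 2| := by
  have h1 := X_le h
  have h6 : (2 : ℝ) ≤ 2 ^ j := le_self_pow₀ one_le_two (by omega)
  have hX := X_pos k
  have h2 : 2 * X k ≤ R j := by nlinarith
  refine le_trans ?_ (le_abs_self _)
  nlinarith

lemma gap (j k : ℕ) : 0 < |R j ^ 2 - X k ^ 2| := by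
  have := X_pos k
  have := R_pos j
  rcases le_or_gt j k with h | h
  · exact lt_of_lt_of_le (by positivity) (gap1 h)
  · exact lt_of_lt_of_le (by positivity) (gap2 h)

lemma c_nn (k j : ℕ) : 0 ≤ c k j := by
  have := X_pos k
  unfold c; positivity

lemma c_le1 {j k : ℕ} (h : j ≤ k) : c k j ≤ 8 / 3 * m j * (X k)⁻¹ := by
  have hX := X_pos k
  calc c k j ≤ m j * (2 * X k / (3 / 4 * X k ^ 2)) := by
        unfold c; gcongr; exact gap1 h
    _ = _ := by field_simp; ring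

lemma c_le (k j : ℕ) : c k j ≤ 3 * (((j : ℝ) + 1) * (1 / 2) ^ j) := by
  have hX := X_pos k
  have hR := R_pos j
  have h2 : (0 : ℝ) < 2 ^ j := by positivity
  rw [one_div_pow]
  rcases le_or_gt j k with h | h
  · calc c k j ≤ 8 / 3 * m j * (X k)⁻¹ := c_le1 h
      _ ≤ 8 / 3 * m j * (6 * (2 ^ j * R j))⁻¹ := by gcongr; exact X_ge h
      _ = 4 / 9 * (((j : ℝ) + 1) * (1 / 2 ^ j)) := by rw [m_eq]; field_simp; ring
      _ ≤ _ := by gcongr; norm_num
  · have h3 : X k ≤ R j / 2 ^ j := by rw [le_div_iff₀ h2]; exact X_le h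
    calc c k j ≤ m j * (2 * (R j / 2 ^ j) / (3 / 4 * R j ^ 2)) := by
          unfold c; gcongr; exact gap2 h
      _ = 8 / 3 * (((j : ℝ) + 1) * (1 / 2 ^ j)) := by rw [m_eq]; field_simp; ring
      _ ≤ _ := by gcongr; norm_num

lemma c_sum (k : ℕ) : Summable (c k) :=
  Summable.of_nonneg_of_le (c_nn k) (c_le k)
    ((sm (1 / 2) (by norm_num) (by norm_num)).mul_left 3)

lemma X_lim : Tendsto X atTop atTop :=
  tendsto_atTop_mono X_big (tendsto_atTop_add_const_right _ 1 tendsto_natCast_atTop_atTop)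

lemma e_lim : Tendsto (fun k => ∑' j, c k j) atTop (𝓝 0) := by
  have := tendsto_tsum_of_dominated_convergence (𝓕 := atTop) (f := c) (g := fun _ => (0 : ℝ))
    ((sm (1 / 2) (by norm_num) (by norm_num)).mul_left 3) (fun j => by
      have h1 := (X_lim.inv_tendsto_atTop).const_mul (8 / 3 * (m j : ℝ))
      rw [mul_zero] at h1
      refine squeeze_zero' (Eventually.of_forall fun k => c_nn k j) ?_ h1
      filter_upwards [eventually_ge_atTop j] with k hk using c_le1 hk)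
    (Eventually.of_forall fun k j => by
      rw [Real.norm_of_nonneg (c_nn k j)]; exact c_le k j)
  simpa using this

lemma P_ne (k : ℕ) : P (X k) ≠ 0 := by
  intro h
  obtain ⟨j, hj⟩ := P_zero _ h
  have h1 : X k ^ 2 = R j ^ 2 := by exact_mod_cast hj
  have := gap j k
  simp [h1] at this

lemma ratio (k : ℕ) (w : ℂ) :
    ‖P (X k + w) - P (X k)‖ ≤ ‖P (X k)‖ * (Real.exp ((∑' j, c k j) * (1 + ‖w‖ ^ 2)) - 1) := by
  have hX := X_big k
  have hk : (0 : ℝ) ≤ k := Nat.cast_nonneg k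
  refine le_of_tendsto_of_tendsto' ((P_lim _).sub (P_lim _)).norm
    ((P_lim _).norm.mul_const _) fun n => ?_
  let v : ℕ → ℂ := fun j => -(2 * X k * w + w ^ 2) / ((R j ^ 2 - X k ^ 2 : ℝ) : ℂ)
  have hv : ∀ j, a j (X k + w) = a j (X k) * (1 + v j) ^ m j := by
    intro j
    have hR : (R j : ℂ) ≠ 0 := by exact_mod_cast (R_pos j).ne'
    have hg : ((R j ^ 2 - X k ^ 2 : ℝ) : ℂ) ≠ 0 := by exact_mod_cast abs_pos.1 (gap j k)
    simp only [a, v]
    rw [← mul_pow]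
    congr 1
    push_cast at hg ⊢
    field_simp
    ring
  have hb : ∀ j, ‖v j‖ ≤ 2 * X k / |R j ^ 2 - X k ^ 2| * (1 + ‖w‖ ^ 2) := by
    intro j
    have h1 : ‖2 * X k * w + w ^ 2‖ ≤ 2 * X k * (1 + ‖w‖ ^ 2) := by
      refine (norm_add_le _ _).trans ?_
      rw [norm_mul, norm_mul, norm_pow, norm_real, Real.norm_of_nonneg (X_pos k).le]
      simp only [Complex.norm_ofNat]
      nlinarith [sq_nonneg (‖w‖ - 1), sq_nonneg ‖w‖]
    simp only [v]
    rw [norm_div, norm_neg, norm_real, Real.norm_eq_abs, div_mul_eq_mul_div]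
    gcongr
  have h2 := pr (fun j => (1 + v j) ^ m j) _ (fun j => pw (hb j) (m j)) n
  simp only [hv, Finset.prod_mul_distrib]
  rw [← mul_sub_one, norm_mul]
  refine mul_le_mul_of_nonneg_left (h2.trans ?_) (norm_nonneg _)
  have h3 := (c_sum k).sum_le_tsum (Finset.range n) fun j _ => c_nn k j
  have h4 : ∑ j ∈ Finset.range n, (m j : ℝ) * (2 * X k / |R j ^ 2 - X k ^ 2| * (1 + ‖w‖ ^ 2)) =
      (∑ j ∈ Finset.range n, c k j) * (1 + ‖w‖ ^ 2) := by
    rw [Finset.sum_mul]; exact Finset.sum_congr rfl fun j _ => by unfold c; ring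
  rw [h4]
  gcongr

end Pool.Agent.H1.HeatB
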