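import Mathlib
import Pool.Agent.H1.HeatA
import Pool.Agent.H1.HeatB

open Complex Filter Topology Set Metric

namespace Pool.Agent.H1.HeatC
open HeatA HeatB

noncomputable def f (z : ℂ) : ℂ := (2 + cos z) * P z

lemma f_diff : Differentiable ℂ f :=
  (by fun_prop : Differentiable ℂ fun z => 2 + cos z).mul P_diff

lemma cos_le (z : ℂ) : ‖cos z‖ ≤ Real.exp ‖z‖ := by
  have h1 : ‖exp (z * I)‖ ≤ Real.exp ‖z‖ := by
    simpa using norm_exp_le_exp_norm (z * I)
  have h2 : ‖exp (-z * I)‖ ≤ Real.exp ‖z‖ := by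
    simpa using norm_exp_le_exp_norm (-z * I)
  have h3 := norm_add_le (exp (z * I)) (exp (-z * I))
  rw [Complex.cos, norm_div, Complex.norm_ofNat]
  linarith

lemma two_cos_le (z : ℂ) : ‖2 + cos z‖ ≤ 3 * Real.exp ‖z‖ := by
  have h1 := norm_add_le 2 (cos z)
  have h2 := cos_le z
  have h3 := Real.one_le_exp (norm_nonneg z)
  rw [Complex.norm_ofNat] at h1
  linarith

lemma f_up (ε : ℝ) (hε : 0 < ε) :
    ∃ R : ℝ, ∀ z : ℂ, R ≤ ‖z‖ → ‖f z‖ ≤ Real.exp (‖z‖ ^ (1 + ε)) := by
  set θ : ℝ := 1 + min ε 1 / 2 with hθ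
  have hm : 0 < min ε 1 := lt_min hε one_pos
  have hm1 := min_le_left ε 1
  have hm2 := min_le_right ε 1
  obtain ⟨K, hK, hP⟩ := P_up θ (by linarith) (by linarith)
  have ht := (tendsto_rpow_atTop (show 0 < 1 + ε - θ by linarith)).eventually_ge_atTop (K + 3)
  obtain ⟨R, hR⟩ := eventually_atTop.1 (ht.and (eventually_ge_atTop 1))
  refine ⟨R, fun z hz => ?_⟩
  obtain ⟨h1, h2⟩ := hR _ hz
  have h3 : ‖z‖ ≤ ‖z‖ ^ θ := by
    simpa using Real.rpow_le_rpow_of_exponent_le h2 (show 1 ≤ θ by linarith)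
  have h4 : ‖z‖ ^ (1 + ε) = ‖z‖ ^ (1 + ε - θ) * ‖z‖ ^ θ := by
    rw [← Real.rpow_add (by linarith)]; congr 1; ring
  have h5 : (3 : ℝ) ≤ Real.exp 2 := by linarith [Real.add_one_le_exp 2]
  calc ‖f z‖ ≤ (Real.exp 2 * Real.exp ‖z‖) * Real.exp (K * ‖z‖ ^ θ) := by
        rw [f, norm_mul]
        refine mul_le_mul ((two_cos_le z).trans ?_) (hP z) (norm_nonneg _) (by positivity)
        gcongr
    _ ≤ _ := by
        rw [← Real.exp_add, ← Real.exp_add, Real.exp_le_exp, h4]
        nlinarith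

lemma f_low (C B : ℝ) : ∃ z : ℂ, B ≤ ‖z‖ ∧ Real.exp (C * ‖z‖) < ‖f z‖ := by
  obtain ⟨k, hk⟩ := exists_nat_ge (max (2 * C) B)
  have hk1 : 2 * C ≤ k := (le_max_left _ _).trans hk
  have hk2 : B ≤ k := (le_max_right _ _).trans hk
  have hR := R_pos k
  have hn : ‖(R k : ℂ) * I‖ = R k := by simp [hR.le]
  have h2 : (k : ℝ) + 1 ≤ 2 ^ k := by
    have : k + 1 ≤ 2 ^ k := Nat.lt_two_pow_self
    exact_mod_cast this
  refine ⟨R k * I, by rw [hn]; linarith [R_ge k], ?_⟩
  have h3 : 1 ≤ ‖2 + cos (R k * I)‖ := by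
    rw [cos_mul_I, ← ofReal_cosh, ← ofReal_ofNat, ← ofReal_add, norm_real]
    exact le_trans (by linarith [Real.cosh_pos (R k)]) (le_abs_self _)
  have h4 : Real.exp (C * R k) < 2 ^ m k := by
    have : (2 : ℝ) ^ m k = Real.exp (m k * Real.log 2) := by
      rw [Real.exp_nat_mul, Real.exp_log two_pos]
    rw [this, Real.exp_lt_exp, m_eq]
    have := Real.log_two_gt_d9
    have h5 : C < (k + 1) * Real.log 2 := by
      have : (0 : ℝ) ≤ k := Nat.cast_nonneg k
      nlinarith
    nlinarith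
  have h5 := P_low k
  rw [hn, f, norm_mul]
  nlinarith [Real.exp_pos (C * R k)]

lemma f_zero (z : ℂ) (h : f z = 0) : |z.im| < 3 := by
  rcases mul_eq_zero.1 h with h | h
  · have h1 : exp (z * I) + exp (-z * I) = -4 := by
      rw [Complex.cos] at h; linear_combination 2 * h
    have n1 : ‖exp (z * I)‖ = Real.exp (-z.im) := by simp [norm_exp]
    have n2 : ‖exp (-z * I)‖ = Real.exp z.im := by simp [norm_exp]
    have h2 : Real.exp z.im ≤ 4 + Real.exp (-z.im) := by
      have : exp (-z * I) = -4 - exp (z * I) := by linear_combination h1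
      rw [← n1, ← n2, this]
      simpa using norm_sub_le (-4) (exp (z * I))
    have h3 : Real.exp (-z.im) ≤ 4 + Real.exp z.im := by
      have : exp (z * I) = -4 - exp (-z * I) := by linear_combination h1
      rw [← n1, ← n2, this]
      simpa using norm_sub_le (-4) (exp (-z * I))
    rw [abs_lt]
    constructor
    · by_contra hh
      have h4 := Real.quadratic_le_exp_of_nonneg (x := -z.im) (by linarith)
      have h5 : Real.exp z.im ≤ 1 := Real.exp_le_one_iff.2 (by linarith)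
      nlinarith
    · by_contra hh
      have h4 := Real.quadratic_le_exp_of_nonneg (x := z.im) (by linarith)
      have h5 : Real.exp (-z.im) ≤ 1 := Real.exp_le_one_iff.2 (by linarith)
      nlinarith
  · obtain ⟨j, hj⟩ := P_zero z h
    rcases sq_eq_sq_iff_eq_or_eq_neg.1 hj with h | h <;> simp [h]

noncomputable def H (k : ℕ) (w : ℂ) : ℂ := (2 + cos w) * ((P (X k + w) - P (X k)) / P (X k))

lemma H_diff (k : ℕ) : Differentiable ℂ (H k) := by
  have h1 : Differentiable ℂ fun w => P (X k + w) := P_diff.comp (by fun_prop)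
  exact (by fun_prop : Differentiable ℂ fun z => 2 + cos z).mul ((h1.sub_const _).div_const _)

lemma H_le (k : ℕ) (hk : ∑' j, c k j ≤ 1 / 4) (w : ℂ) :
    ‖H k w‖ ≤ 12 * Real.exp 1 * (∑' j, c k j) * Real.exp (‖w‖ ^ 2) := by
  set e := ∑' j, c k j with he
  have he0 : 0 ≤ e := tsum_nonneg (c_nn k)
  set s := 1 + ‖w‖ ^ 2 with hs
  have hs0 : 0 < s := by positivity
  have hP := norm_pos_iff.2 (P_ne k)
  have h1 : ‖(P (X k + w) - P (X k)) / P (X k)‖ ≤ Real.exp (e * s) - 1 := by
    rw [norm_div, div_le_iff₀ hP, mul_comm]; exact ratio k w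
  have h2 : Real.exp (e * s) - 1 ≤ e * s * Real.exp (e * s) := by
    have := Real.add_one_le_exp (-(e * s))
    have h7 : Real.exp (-(e * s)) * Real.exp (e * s) = 1 := by rw [← Real.exp_add]; simp
    nlinarith [Real.exp_pos (e * s)]
  have h3 : s ≤ 4 * Real.exp (s / 4) := by linarith [Real.add_one_le_exp (s / 4)]
  have h4 : Real.exp (e * s) ≤ Real.exp (s / 4) := Real.exp_le_exp.2 (by nlinarith)
  have h5 : Real.exp ‖w‖ ≤ Real.exp (s / 2) :=
    Real.exp_le_exp.2 (by nlinarith [sq_nonneg (‖w‖ - 1)])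
  have h6 : Real.exp 1 * Real.exp (‖w‖ ^ 2) =
      Real.exp (s / 2) * (Real.exp (s / 4) * Real.exp (s / 4)) := by
    simp only [← Real.exp_add]; congr 1; ring
  calc ‖H k w‖ ≤ (3 * Real.exp (s / 2)) * (e * (4 * Real.exp (s / 4)) * Real.exp (s / 4)) := by
        rw [H, norm_mul]
        refine mul_le_mul ((two_cos_le w).trans (by linarith)) ((h1.trans h2).trans ?_)
          (norm_nonneg _) (by positivity)
        gcongr
    _ = _ := by linear_combination (-12 * e) * h6

lemma tm_f (k n : ℕ) (w : ℂ) :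
    tm f n (X k + w) = P (X k) * (tm (fun z => 2 + cos z) n w + tm (H k) n w) := by
  have h1 : (fun z => f (X k + z)) = fun z => P (X k) * (((fun z => 2 + cos z) + H k) z) := by
    ext z
    have hP := P_ne k
    have hc : cos (X k + z) = cos z := by
      have : (X k : ℂ) = ((2 ^ k * 2 ^ (k ^ 2 + 3 * k) : ℕ) : ℂ) * (2 * Real.pi) := by
        simp only [X, R]; push_cast; ring
      rw [this, add_comm, cos_add_nat_mul_two_pi]
    simp only [f, H, Pi.add_apply, hc]
    field_simp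
    ring
  have h2 := congrFun (iteratedDeriv_comp_const_add (2 * n) f (X k : ℂ)) w
  rw [h1, iteratedDeriv_const_mul_field, iteratedDeriv_add
    ((by fun_prop : Differentiable ℂ fun z => 2 + cos z).contDiff.contDiffAt)
    (H_diff k).contDiff.contDiffAt] at h2
  simp only [tm, ← h2]
  ring

theorem main : ¬ {z : ℂ | ∑' n, tm f n z = 0 ∧ z.im ≠ 0}.Finite := by
  intro hfin
  obtain ⟨B, hB⟩ := hfin.isBounded.exists_norm_le
  set E : ℝ := Real.exp (1 / 30) with hE
  have hE0 : 0 < E := Real.exp_pos _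
  have hE2 : E < 2 := by
    have h1 := Real.add_one_le_exp (-(1 / 30))
    have h7 : Real.exp (-(1 / 30)) * E = 1 := by rw [hE, ← Real.exp_add]; simp
    nlinarith
  have hE' : (E : ℂ) ≠ 0 := by exact_mod_cast hE0.ne'
  obtain ⟨w0, hw0⟩ := Complex.cos_surjective (-2 / E)
  let G : ℂ → ℂ := fun w => 2 + E * cos w
  have hG : Differentiable ℂ G := by fun_prop
  have hG0 : G w0 = 0 := by simp only [G, hw0]; field_simp; ring
  have hreal : ∀ w : ℂ, w.im = 0 → G w ≠ 0 := by
    intro w hw h0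
    have h1 : w = (w.re : ℂ) := by apply Complex.ext <;> simp [hw]
    have h2 : 2 + E * Real.cos w.re = 0 := by
      have : G w = ((2 + E * Real.cos w.re : ℝ) : ℂ) := by
        simp only [G]; rw [h1]; push_cast; simp
      exact_mod_cast this ▸ h0
    nlinarith [Real.neg_one_le_cos w.re]
  have him : w0.im ≠ 0 := fun h => hreal w0 h hG0
  have hev : ∀ᶠ w in 𝓝[≠] w0, G w ≠ 0 := by
    rcases (hG.analyticAt w0).eventually_eq_zero_or_eventually_ne_zero with h | h
    · have := (hG.differentiableOn.analyticOnNhd isOpen_univ).eqOn_zero_of_preconnected_of_eventuallyEq_zero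
        isPreconnected_univ (mem_univ w0) h
      exact absurd (this (mem_univ 0)) (hreal 0 (by simp))
    · exact h
  have hev2 : ∀ᶠ w in 𝓝 w0, w.im ≠ 0 := continuous_im.continuousAt.eventually_ne him
  obtain ⟨r0, hr0, hball⟩ := Metric.eventually_nhds_iff_ball.1
    ((eventually_nhdsWithin_iff.1 hev).and hev2)
  set r := r0 / 2 with hr
  have hr1 : 0 < r := by positivity
  have hsub : closedBall w0 r ⊆ ball w0 r0 := closedBall_subset_ball (by linarith)
  obtain ⟨w1, hw1, hmin⟩ := (isCompact_sphere w0 r).exists_isMinOn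
    (NormedSpace.sphere_nonempty.2 hr1.le) hG.continuous.norm.continuousOn
  have hm : 0 < ‖G w1‖ := norm_pos_iff.2 ((hball w1 (hsub (sphere_subset_closedBall hw1))).1
    (by rintro rfl; simp at hw1; linarith))
  set ρ := ‖w0‖ + r0 with hρ
  have hl := ((e_lim.const_mul (12 * Real.exp 1)).mul_const (Real.exp (2 * ρ ^ 2 + 2))).mul_const 2
  simp only [mul_zero, zero_mul] at hl
  obtain ⟨k, ⟨hk1, hk2⟩, hk3⟩ := (((e_lim.eventually (ge_mem_nhds (show (0 : ℝ) < 1 / 4 by
    norm_num))).and (hl.eventually (gt_mem_nhds (half_pos hm)))).and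
    (X_lim.eventually_gt_atTop (B + ρ))).exists
  obtain ⟨hd, hb⟩ := heat (H k) (H_diff k) _ ρ
    (mul_nonneg (by positivity) (tsum_nonneg (c_nn k))) (H_le k hk1)
  have hin : ∀ w ∈ closedBall w0 r, ‖w‖ < ρ := by
    intro w hw
    have h1 := norm_le_insert' w w0
    have h2 := mem_ball_iff_norm.1 (hsub hw)
    linarith
  obtain ⟨w, hw, hz⟩ := zero_ex (fun w => G w + ∑' n, tm (H k) n w) w0 r (‖G w1‖ / 2) hr1
    (half_pos hm) (hG.differentiableOn.add (hd.mono fun w hw => mem_ball_zero_iff.2 (hin w hw)))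
    (by
      simp only [hG0, zero_add]
      exact ((hb w0 (hin w0 (mem_closedBall_self hr1.le)).le).2).trans_lt hk2)
    (fun w hw => by
      have h1 := ((hb w (hin w (sphere_subset_closedBall hw)).le).2).trans_lt hk2
      have h2 : ‖G w1‖ ≤ ‖G w‖ := hmin hw
      have h3 := norm_sub_le (G w + ∑' n, tm (H k) n w) (∑' n, tm (H k) n w)
      rw [add_sub_cancel_right] at h3
      linarith)
  have hs := ((heat_cos w).add (hb w (hin w hw).le).1.hasSum).mul_left (P (X k))
  have h0 : ∑' n, tm f n (X k + w) = 0 := by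
    simp only [tm_f]
    rw [hs.tsum_eq, ← ofReal_exp]
    simp only [G] at hz
    rw [hz, mul_zero]
  have h1 := hB (X k + w) ⟨h0, by simpa using (hball w (hsub hw)).2⟩
  have h2 := norm_sub_le ((X k : ℂ) + w) w
  rw [add_sub_cancel_right, norm_real, Real.norm_of_nonneg (X_pos k).le] at h2
  linarith [hin w hw]

end Pool.Agent.H1.HeatC
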