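import Mathlib

namespace Pool.Agent.H1.Hill

open Filter Topology MeasureTheory Set

abbrev E := ℂ × ℂ

noncomputable def it (B : ℝ → E →L[ℂ] E) (x0 : ℝ) (e : E) : ℕ → ℝ → E
  | 0 => fun _ => e
  | n + 1 => fun x => ∫ t in x0..x, B t (it B x0 e n t)

variable {B : ℝ → E →L[ℂ] E} {β : ℝ}

lemma prim_d {f : ℝ → E} (hf : Continuous f) (x0 x : ℝ) :
    HasDerivAt (fun x => ∫ t in x0..x, f t) (f x) x :=
  (hf.integral_hasStrictDerivAt x0 x).hasDerivAt

lemma it_cont (hB : Continuous B) (x0 : ℝ) (e : E) : ∀ n, Continuous (it B x0 e n)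
  | 0 => continuous_const
  | n + 1 => continuous_iff_continuousAt.2 fun x =>
      (prim_d (hB.clm_apply (it_cont hB x0 e n)) x0 x).continuousAt

lemma it_d (hB : Continuous B) (x0 : ℝ) (e : E) (n : ℕ) (x : ℝ) :
    HasDerivAt (it B x0 e (n + 1)) (B x (it B x0 e n x)) x :=
  prim_d (hB.clm_apply (it_cont hB x0 e n)) x0 x

lemma it_bound (hβ : ∀ t, ‖B t‖ ≤ β) (x0 : ℝ) (e : E) :
    ∀ (n : ℕ) (x : ℝ), ‖it B x0 e n x‖ ≤ ‖e‖ * β ^ n * |x - x0| ^ n / n.factorial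
  | 0, x => by simp [it]
  | n + 1, x => by
    have h1 : ‖it B x0 e (n + 1) x‖ ≤
        ∫ t in uIoc x0 x, (β * (‖e‖ * β ^ n / n.factorial)) * |t - x0| ^ n := by
      simp only [it]
      rw [intervalIntegral.norm_integral_eq_norm_integral_uIoc]
      refine norm_integral_le_of_norm_le ?_ (Eventually.of_forall fun t => ?_)
      · exact (Continuous.intervalIntegrable (by fun_prop) x0 x).def'
      · refine ((B t).le_of_opNorm_le_of_le (hβ t) (it_bound hβ x0 e n t)).trans (le_of_eq ?_)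
        ring
    rw [integral_const_mul, integral_pow_abs_sub_uIoc] at h1
    refine h1.trans (le_of_eq ?_)
    rw [Nat.factorial_succ]; push_cast; field_simp; ring

lemma it_bound' (hβ : ∀ t, ‖B t‖ ≤ β) (x0 : ℝ) (e : E) {R x : ℝ} (hx : |x - x0| ≤ R) (k n : ℕ) :
    ‖it B x0 e (n + k) x‖ ≤ ‖e‖ * (β * R) ^ k * ((β * R) ^ n / n.factorial) := by
  have hb : 0 ≤ β := (norm_nonneg _).trans (hβ 0)
  have hR : 0 ≤ R := (abs_nonneg _).trans hx
  refine (it_bound hβ x0 e (n + k) x).trans ?_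
  have h1 : (n.factorial : ℝ) ≤ (n + k).factorial := by
    exact_mod_cast Nat.factorial_le (Nat.le_add_right n k)
  have h2 : (0 : ℝ) < n.factorial := by exact_mod_cast n.factorial_pos
  calc ‖e‖ * β ^ (n + k) * |x - x0| ^ (n + k) / (n + k).factorial
      ≤ ‖e‖ * β ^ (n + k) * R ^ (n + k) / n.factorial := by gcongr
    _ = _ := by rw [mul_pow, mul_pow]; ring

noncomputable def sol (B : ℝ → E →L[ℂ] E) (x0 : ℝ) (e : E) (k : ℕ) (z : ℂ) (x : ℝ) : E :=
  ∑' n, z ^ n • it B x0 e (n + k) x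

lemma term_bound (hβ : ∀ t, ‖B t‖ ≤ β) (x0 : ℝ) (e : E) {R x ρ : ℝ} (hx : |x - x0| ≤ R) {z : ℂ}
    (hz : ‖z‖ ≤ ρ) (k n : ℕ) :
    ‖z ^ n • it B x0 e (n + k) x‖ ≤ ‖e‖ * (β * R) ^ k * ((ρ * (β * R)) ^ n / n.factorial) := by
  rw [norm_smul, norm_pow]
  have h1 : ‖z‖ ^ n ≤ ρ ^ n := by gcongr
  refine (mul_le_mul h1 (it_bound' hβ x0 e hx k n) (norm_nonneg _)
    (pow_nonneg ((norm_nonneg _).trans hz) _)).trans (le_of_eq ?_)
  rw [mul_pow ρ]; ring

lemma maj_summable (C r : ℝ) : Summable fun n : ℕ => C * (r ^ n / n.factorial) :=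
  (Real.summable_pow_div_factorial r).mul_left C

lemma sol_summable (hβ : ∀ t, ‖B t‖ ≤ β) (x0 : ℝ) (e : E) (k : ℕ) (z : ℂ) (x : ℝ) :
    Summable fun n => z ^ n • it B x0 e (n + k) x :=
  Summable.of_norm_bounded (maj_summable _ _) (term_bound hβ x0 e le_rfl le_rfl k)

lemma sol_step (hβ : ∀ t, ‖B t‖ ≤ β) (x0 : ℝ) (e : E) (k : ℕ) (z : ℂ) (x : ℝ) :
    sol B x0 e k z x = it B x0 e k x + z • sol B x0 e (k + 1) z x := by
  unfold sol
  rw [(sol_summable hβ x0 e k z x).tsum_eq_zero_add, ← (sol_summable hβ x0 e (k + 1) z x).tsum_const_smul]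
  simp only [pow_zero, one_smul, zero_add, smul_smul]
  congr 1
  refine tsum_congr fun n => ?_
  rw [pow_succ', show n + 1 + k = n + (k + 1) by ring]

lemma sol_diff (hβ : ∀ t, ‖B t‖ ≤ β) (x0 : ℝ) (e : E) (k : ℕ) (x : ℝ) :
    Differentiable ℂ fun z => sol B x0 e k z x := by
  intro z
  have h := Complex.differentiableOn_tsum_of_summable_norm (U := Metric.ball (0 : ℂ) (‖z‖ + 1))
    (F := fun n w => w ^ n • it B x0 e (n + k) x) (maj_summable _ _)
    (fun n => by fun_prop) Metric.isOpen_ball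
    (fun n w hw => term_bound hβ x0 e le_rfl (mem_ball_zero_iff.1 hw).le k n)
  exact h.differentiableAt (Metric.isOpen_ball.mem_nhds (by simp))

lemma sol_succ_d (hB : Continuous B) (hβ : ∀ t, ‖B t‖ ≤ β) (x0 : ℝ) (e : E) (k : ℕ) (z : ℂ)
    (x : ℝ) : HasDerivAt (sol B x0 e (k + 1) z) (B x (sol B x0 e k z x)) x := by
  have hb : 0 ≤ β := (norm_nonneg _).trans (hβ 0)
  set R := |x - x0| + 1
  have h := hasDerivAt_tsum_of_isPreconnected (t := Metric.ball x0 R) (y₀ := x) (y := x)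
    (g := fun n y => z ^ n • it B x0 e (n + (k + 1)) y)
    (g' := fun n y => B y (z ^ n • it B x0 e (n + k) y))
    ((maj_summable (‖e‖ * (β * R) ^ k) (‖z‖ * (β * R))).mul_left β) Metric.isOpen_ball
    (convex_ball _ _).isPreconnected
    (fun n y _ => by
      rw [map_smul]
      exact (it_d hB x0 e (n + k) y).const_smul (z ^ n))
    (fun n y hy => (B y).le_of_opNorm_le_of_le (hβ y)
      (term_bound hβ x0 e (by simpa [Real.dist_eq] using (Metric.mem_ball.1 hy).le) le_rfl k n))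
    (by simp [Real.dist_eq, R]) (sol_summable hβ x0 e (k + 1) z x) (by simp [Real.dist_eq, R])
  rw [← (B x).map_tsum (sol_summable hβ x0 e k z x)] at h
  exact h

lemma sol_d (hB : Continuous B) (hβ : ∀ t, ‖B t‖ ≤ β) (x0 : ℝ) (e : E) (z : ℂ)
    (x : ℝ) : HasDerivAt (sol B x0 e 0 z) (z • B x (sol B x0 e 0 z x)) x := by
  have h : sol B x0 e 0 z = fun x => e + z • sol B x0 e 1 z x :=
    funext fun x => sol_step hβ x0 e 0 z x
  have h2 := ((sol_succ_d hB hβ x0 e 0 z x).const_smul z).const_add e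
  rw [h] at h2 ⊢
  exact h2

lemma sol_init (hβ : ∀ t, ‖B t‖ ≤ β) (x0 : ℝ) (e : E) (z : ℂ) : sol B x0 e 0 z x0 = e := by
  rw [sol_step hβ]
  have : sol B x0 e (0 + 1) z x0 = 0 := by
    unfold sol
    have : ∀ n : ℕ, z ^ n • it B x0 e (n + (0 + 1)) x0 = 0 := fun n => by
      simp [it]
    simp [this]
  simp [this, it]

end Pool.Agent.H1.Hill
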