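import Pool.Agent.H1.HillA

namespace Pool.Agent.H1.Hill

open Filter Topology MeasureTheory Set

structure Sys where
  y1 : ℝ → ℂ
  d1 : ℝ → ℂ
  y2 : ℝ → ℂ
  d2 : ℝ → ℂ
  q : ℝ → ℂ
  K : ℝ
  hy1 : ∀ x, HasDerivAt y1 (d1 x) x
  hd1 : ∀ x, HasDerivAt d1 (q x * y1 x) x
  hy2 : ∀ x, HasDerivAt y2 (d2 x) x
  hd2 : ∀ x, HasDerivAt d2 (q x * y2 x) x
  hq : Continuous q
  wr : ∀ x, y1 x * d2 x - d1 x * y2 x = 1
  b1 : ∀ x, ‖y1 x‖ ≤ K
  b2 : ∀ x, ‖y2 x‖ ≤ K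

namespace Sys

variable (S : Sys)

lemma c1 : Continuous S.y1 := continuous_iff_continuousAt.2 fun x => (S.hy1 x).continuousAt
lemma c2 : Continuous S.y2 := continuous_iff_continuousAt.2 fun x => (S.hy2 x).continuousAt

noncomputable def sig (t : ℝ) : E →L[ℂ] ℂ :=
  S.y1 t • ContinuousLinearMap.fst ℂ ℂ ℂ + S.y2 t • ContinuousLinearMap.snd ℂ ℂ ℂ

noncomputable def B (t : ℝ) : E →L[ℂ] E := (S.sig t).smulRight (S.y2 t, -S.y1 t)

lemma B_apply (t : ℝ) (v : E) : S.B t v =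
    (S.y2 t * (S.y1 t * v.1 + S.y2 t * v.2), -(S.y1 t * (S.y1 t * v.1 + S.y2 t * v.2))) := by
  simp [B, sig]; constructor <;> ring

lemma B_cont : Continuous S.B := by
  have h1 := S.c1
  have h2 := S.c2
  have h3 : Continuous S.sig := by unfold sig; fun_prop
  have : S.B = fun t => ContinuousLinearMap.smulRightL ℂ E E (S.sig t) (S.y2 t, -S.y1 t) := rfl
  rw [this]
  fun_prop

lemma B_bound (t : ℝ) : ‖S.B t‖ ≤ 2 * S.K ^ 2 := by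
  have hK : 0 ≤ S.K := (norm_nonneg _).trans (S.b1 0)
  refine ContinuousLinearMap.opNorm_le_bound _ (by positivity) fun v => ?_
  have h1 : ‖S.y1 t * v.1 + S.y2 t * v.2‖ ≤ 2 * S.K * ‖v‖ := by
    refine (norm_add_le _ _).trans ?_
    rw [norm_mul, norm_mul]
    have a1 := mul_le_mul (S.b1 t) (norm_fst_le v) (norm_nonneg _) hK
    have a2 := mul_le_mul (S.b2 t) (norm_snd_le v) (norm_nonneg _) hK
    linarith
  rw [B_apply, Prod.norm_def]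
  refine max_le ?_ ?_
  · rw [norm_mul]
    refine (mul_le_mul (S.b2 t) h1 (norm_nonneg _) hK).trans (le_of_eq (by ring))
  · rw [norm_neg, norm_mul]
    refine (mul_le_mul (S.b1 t) h1 (norm_nonneg _) hK).trans (le_of_eq (by ring))

noncomputable def V (x0 : ℝ) (e : E) (z : ℂ) (x : ℝ) : E := sol S.B x0 e 0 z x

lemma V1_d (x0 : ℝ) (e : E) (z : ℂ) (x : ℝ) : HasDerivAt (fun x => (S.V x0 e z x).1)
    (z * (S.y2 x * (S.y1 x * (S.V x0 e z x).1 + S.y2 x * (S.V x0 e z x).2))) x := by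
  have h := (sol_d S.B_cont S.B_bound x0 e z x).fst
  rw [B_apply] at h
  exact h

lemma V2_d (x0 : ℝ) (e : E) (z : ℂ) (x : ℝ) : HasDerivAt (fun x => (S.V x0 e z x).2)
    (z * -(S.y1 x * (S.y1 x * (S.V x0 e z x).1 + S.y2 x * (S.V x0 e z x).2))) x := by
  have h := (sol_d S.B_cont S.B_bound x0 e z x).snd
  rw [B_apply] at h
  exact h

noncomputable def u (x0 : ℝ) (e : E) (z : ℂ) (x : ℝ) : ℂ :=
  S.y1 x * (S.V x0 e z x).1 + S.y2 x * (S.V x0 e z x).2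

noncomputable def du (x0 : ℝ) (e : E) (z : ℂ) (x : ℝ) : ℂ :=
  S.d1 x * (S.V x0 e z x).1 + S.d2 x * (S.V x0 e z x).2

lemma u_d (x0 : ℝ) (e : E) (z : ℂ) (x : ℝ) : HasDerivAt (S.u x0 e z) (S.du x0 e z x) x := by
  have h := ((S.hy1 x).fun_mul (S.V1_d x0 e z x)).fun_add ((S.hy2 x).fun_mul (S.V2_d x0 e z x))
  refine HasDerivAt.congr_deriv h ?_
  unfold du; ring

lemma du_d (x0 : ℝ) (e : E) (z : ℂ) (x : ℝ) :
    HasDerivAt (S.du x0 e z) ((S.q x - z) * S.u x0 e z x) x := by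
  have h := ((S.hd1 x).fun_mul (S.V1_d x0 e z x)).fun_add ((S.hd2 x).fun_mul (S.V2_d x0 e z x))
  refine HasDerivAt.congr_deriv h ?_
  unfold u
  linear_combination (-z * (S.y1 x * (S.V x0 e z x).1 + S.y2 x * (S.V x0 e z x).2)) * S.wr x

noncomputable def c (x0 : ℝ) (z : ℂ) (x : ℝ) : ℂ :=
  S.d2 x0 * S.u x0 (1, 0) z x - S.d1 x0 * S.u x0 (0, 1) z x
noncomputable def dc (x0 : ℝ) (z : ℂ) (x : ℝ) : ℂ :=
  S.d2 x0 * S.du x0 (1, 0) z x - S.d1 x0 * S.du x0 (0, 1) z x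
noncomputable def s (x0 : ℝ) (z : ℂ) (x : ℝ) : ℂ :=
  S.y1 x0 * S.u x0 (0, 1) z x - S.y2 x0 * S.u x0 (1, 0) z x
noncomputable def ds (x0 : ℝ) (z : ℂ) (x : ℝ) : ℂ :=
  S.y1 x0 * S.du x0 (0, 1) z x - S.y2 x0 * S.du x0 (1, 0) z x

lemma c_d (x0 : ℝ) (z : ℂ) (x : ℝ) : HasDerivAt (S.c x0 z) (S.dc x0 z x) x :=
  ((S.u_d x0 _ z x).const_mul _).fun_sub ((S.u_d x0 _ z x).const_mul _)

lemma s_d (x0 : ℝ) (z : ℂ) (x : ℝ) : HasDerivAt (S.s x0 z) (S.ds x0 z x) x :=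
  ((S.u_d x0 _ z x).const_mul _).fun_sub ((S.u_d x0 _ z x).const_mul _)

lemma dc_d (x0 : ℝ) (z : ℂ) (x : ℝ) : HasDerivAt (S.dc x0 z) ((S.q x - z) * S.c x0 z x) x := by
  refine HasDerivAt.congr_deriv
    (((S.du_d x0 _ z x).const_mul _).fun_sub ((S.du_d x0 _ z x).const_mul _)) ?_
  unfold c; ring

lemma ds_d (x0 : ℝ) (z : ℂ) (x : ℝ) : HasDerivAt (S.ds x0 z) ((S.q x - z) * S.s x0 z x) x := by
  refine HasDerivAt.congr_deriv
    (((S.du_d x0 _ z x).const_mul _).fun_sub ((S.du_d x0 _ z x).const_mul _)) ?_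
  unfold s; ring

lemma V_init (x0 : ℝ) (e : E) (z : ℂ) : S.V x0 e z x0 = e := sol_init S.B_bound x0 e z

lemma c_init (x0 : ℝ) (z : ℂ) : S.c x0 z x0 = 1 := by
  simp only [c, u, V_init]; linear_combination S.wr x0
lemma dc_init (x0 : ℝ) (z : ℂ) : S.dc x0 z x0 = 0 := by
  simp only [dc, du, V_init]; ring
lemma s_init (x0 : ℝ) (z : ℂ) : S.s x0 z x0 = 0 := by
  simp only [s, u, V_init]; ring
lemma ds_init (x0 : ℝ) (z : ℂ) : S.ds x0 z x0 = 1 := by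
  simp only [ds, du, V_init]; linear_combination S.wr x0

lemma detV (x0 : ℝ) (z : ℂ) (x : ℝ) : (S.V x0 (1, 0) z x).1 * (S.V x0 (0, 1) z x).2 -
    (S.V x0 (1, 0) z x).2 * (S.V x0 (0, 1) z x).1 = 1 := by
  have h : ∀ x, HasDerivAt (fun x => (S.V x0 (1, 0) z x).1 * (S.V x0 (0, 1) z x).2 -
      (S.V x0 (1, 0) z x).2 * (S.V x0 (0, 1) z x).1) 0 x := fun x => by
    refine HasDerivAt.congr_deriv (((S.V1_d x0 _ z x).fun_mul (S.V2_d x0 _ z x)).fun_sub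
      ((S.V2_d x0 _ z x).fun_mul (S.V1_d x0 _ z x))) ?_
    ring
  have h2 := is_const_of_deriv_eq_zero (fun x => (h x).differentiableAt) (fun x => (h x).deriv) x x0
  rw [h2, V_init, V_init]; simp

lemma ftc {f f' : ℝ → ℂ} (hf : ∀ x, HasDerivAt f (f' x) x) (hc : Continuous f') (a b : ℝ) :
    f b = f a + ∫ t in a..b, f' t := by
  rw [intervalIntegral.integral_eq_sub_of_hasDerivAt (fun x _ => hf x) (hc.intervalIntegrable _ _)]
  ring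

lemma cont_of {f f' : ℝ → ℂ} (hf : ∀ x, HasDerivAt f (f' x) x) : Continuous f :=
  continuous_iff_continuousAt.2 fun x => (hf x).continuousAt

lemma integral_form (x₀ : ℝ) (z : ℂ) : Continuous (S.c x₀ z) ∧ Continuous (S.dc x₀ z) ∧
      Continuous (S.s x₀ z) ∧ Continuous (S.ds x₀ z) ∧
      ∀ x : ℝ,
        (S.c x₀ z x = 1 + ∫ t in x₀..x, S.dc x₀ z t) ∧
        (S.dc x₀ z x = ∫ t in x₀..x, (S.q t - z) * S.c x₀ z t) ∧
        (S.s x₀ z x = ∫ t in x₀..x, S.ds x₀ z t) ∧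
        (S.ds x₀ z x = 1 + ∫ t in x₀..x, (S.q t - z) * S.s x₀ z t) := by
  have h1 := cont_of (S.c_d x₀ z)
  have h2 := cont_of (S.dc_d x₀ z)
  have h3 := cont_of (S.s_d x₀ z)
  have h4 := cont_of (S.ds_d x₀ z)
  have hq := S.hq
  refine ⟨h1, h2, h3, h4, fun x => ⟨?_, ?_, ?_, ?_⟩⟩
  · rw [ftc (S.c_d x₀ z) h2 x₀ x, c_init]
  · rw [ftc (S.dc_d x₀ z) (by fun_prop) x₀ x, dc_init, zero_add]
  · rw [ftc (S.s_d x₀ z) h4 x₀ x, s_init, zero_add]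
  · rw [ftc (S.ds_d x₀ z) (by fun_prop) x₀ x, ds_init]

lemma V_exp (x0 : ℝ) (e : E) (z : ℂ) (x : ℝ) :
    S.V x0 e z x = e + z • (it S.B x0 e 1 x + z • sol S.B x0 e 2 z x) := by
  unfold V
  rw [sol_step S.B_bound, sol_step S.B_bound x0 e (0 + 1)]
  rfl

lemma sol2_zero (x0 : ℝ) (e : E) (x : ℝ) : sol S.B x0 e 2 0 x = it S.B x0 e 2 x := by
  rw [sol_step S.B_bound]; simp

lemma R1_an (x0 : ℝ) (e : E) (x : ℝ) (z : ℂ) :
    AnalyticAt ℂ (fun z => (sol S.B x0 e 2 z x).1) z :=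
  (sol_diff S.B_bound x0 e 2 x).fst.analyticAt z

lemma R2_an (x0 : ℝ) (e : E) (x : ℝ) (z : ℂ) :
    AnalyticAt ℂ (fun z => (sol S.B x0 e 2 z x).2) z :=
  (sol_diff S.B_bound x0 e 2 x).snd.analyticAt z

end Sys

end Pool.Agent.H1.Hill
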