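import Pool.Agent.H1.HillB

namespace Pool.Agent.H1.Hill

open Filter Topology MeasureTheory Set

lemma order_eq {f g : ℂ → ℂ} {n : ℕ} (hg : AnalyticAt ℂ g 0) (h0 : g 0 ≠ 0)
    (h : ∀ z, f z = z ^ n * g z) : analyticOrderAt f 0 = n := by
  have hf : AnalyticAt ℂ f 0 := by
    rw [show f = fun z => z ^ n * g z from funext h]; fun_prop
  exact hf.analyticOrderAt_eq_natCast.2 ⟨g, hg, h0, Eventually.of_forall fun z => by simp [h]⟩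

structure PSys extends Sys where
  a : ℝ
  γ : ℂ
  p1 : ∀ x, y1 (x + a) = y1 x
  pd1 : ∀ x, d1 (x + a) = d1 x
  p2 : ∀ x, y2 (x + a) = y2 x
  pd2 : ∀ x, d2 (x + a) = d2 x
  i11 : ∀ x, ∫ t in x..x + a, y1 t * y1 t = 0
  i12 : ∀ x, ∫ t in x..x + a, y2 t * y1 t = 0
  i22 : ∀ x, ∫ t in x..x + a, y2 t * y2 t = γ

namespace PSys

variable (S : PSys)

lemma it1 (x0 : ℝ) (e : E) (x : ℝ) : it S.B x0 e 1 x =
    ((∫ t in x0..x, S.y2 t * S.y1 t) * e.1 + (∫ t in x0..x, S.y2 t * S.y2 t) * e.2,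
     -((∫ t in x0..x, S.y1 t * S.y1 t) * e.1 + (∫ t in x0..x, S.y2 t * S.y1 t) * e.2)) := by
  have h1 := S.c1
  have h2 := S.c2
  have hc : Continuous fun t => S.B t e := S.B_cont.clm_apply continuous_const
  have hi := hc.intervalIntegrable (μ := volume) x0 x
  simp only [it]
  ext
  · rw [show (∫ t in x0..x, S.B t e).1 = ContinuousLinearMap.fst ℝ ℂ ℂ (∫ t in x0..x, S.B t e) from rfl,
      ← ContinuousLinearMap.intervalIntegral_comp_comm _ hi]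
    dsimp only
    rw [← intervalIntegral.integral_mul_const, ← intervalIntegral.integral_mul_const,
      ← intervalIntegral.integral_add (Continuous.intervalIntegrable (by fun_prop) _ _)
        (Continuous.intervalIntegrable (by fun_prop) _ _)]
    refine intervalIntegral.integral_congr fun t _ => ?_
    simp [Sys.B_apply]; ring
  · rw [show (∫ t in x0..x, S.B t e).2 = ContinuousLinearMap.snd ℝ ℂ ℂ (∫ t in x0..x, S.B t e) from rfl,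
      ← ContinuousLinearMap.intervalIntegral_comp_comm _ hi]
    dsimp only
    rw [← intervalIntegral.integral_mul_const, ← intervalIntegral.integral_mul_const,
      ← intervalIntegral.integral_add (Continuous.intervalIntegrable (by fun_prop) _ _)
        (Continuous.intervalIntegrable (by fun_prop) _ _), ← intervalIntegral.integral_neg]
    refine intervalIntegral.integral_congr fun t _ => ?_
    simp [Sys.B_apply]; ring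

noncomputable def R11 (x0 : ℝ) (z : ℂ) : ℂ := (sol S.B x0 (1, 0) 2 z (x0 + S.a)).1
noncomputable def R21 (x0 : ℝ) (z : ℂ) : ℂ := (sol S.B x0 (1, 0) 2 z (x0 + S.a)).2
noncomputable def R12 (x0 : ℝ) (z : ℂ) : ℂ := (sol S.B x0 (0, 1) 2 z (x0 + S.a)).1
noncomputable def R22 (x0 : ℝ) (z : ℂ) : ℂ := (sol S.B x0 (0, 1) 2 z (x0 + S.a)).2

lemma Va (x0 : ℝ) (z : ℂ) : S.V x0 (1, 0) z (x0 + S.a) =
    (1 + z ^ 2 * S.R11 x0 z, z ^ 2 * S.R21 x0 z) := by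
  rw [Sys.V_exp, it1, S.i11, S.i12, S.i22]
  ext <;> simp [R11, R21] <;> ring

lemma Vb (x0 : ℝ) (z : ℂ) : S.V x0 (0, 1) z (x0 + S.a) =
    (z * S.γ + z ^ 2 * S.R12 x0 z, 1 + z ^ 2 * S.R22 x0 z) := by
  rw [Sys.V_exp, it1, S.i11, S.i12, S.i22]
  ext <;> simp [R12, R22] <;> ring

noncomputable def gs (x0 : ℝ) (z : ℂ) : ℂ := S.γ * S.y1 x0 ^ 2 + z * (S.y1 x0 ^ 2 * S.R12 x0 z +
  S.y1 x0 * S.y2 x0 * (S.R22 x0 z - S.R11 x0 z) - S.y2 x0 ^ 2 * S.R21 x0 z)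

noncomputable def gd (x0 : ℝ) (z : ℂ) : ℂ := -(S.γ * S.d1 x0 ^ 2) + z * (S.d2 x0 ^ 2 * S.R21 x0 z +
  S.d1 x0 * S.d2 x0 * (S.R11 x0 z - S.R22 x0 z) - S.d1 x0 ^ 2 * S.R12 x0 z)

noncomputable def gc (x0 : ℝ) (z : ℂ) : ℂ := -(S.γ * S.d1 x0 * S.y1 x0) + z *
  (S.d2 x0 * S.y1 x0 * S.R11 x0 z + S.d2 x0 * S.y2 x0 * S.R21 x0 z -
    S.d1 x0 * S.y1 x0 * S.R12 x0 z - S.d1 x0 * S.y2 x0 * S.R22 x0 z)

noncomputable def gD (x0 : ℝ) (z : ℂ) : ℂ := 4 * S.γ * S.R21 x0 z +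
  z * ((S.R11 x0 z - S.R22 x0 z) ^ 2 + 4 * S.R12 x0 z * S.R21 x0 z)

lemma s_eq (x0 : ℝ) (z : ℂ) : S.s x0 z (x0 + S.a) = z ^ 1 * S.gs x0 z := by
  simp only [Sys.s, Sys.u, Va, Vb, S.p1, S.p2, gs]; ring

lemma dc_eq (x0 : ℝ) (z : ℂ) : S.dc x0 z (x0 + S.a) = z ^ 1 * S.gd x0 z := by
  simp only [Sys.dc, Sys.du, Va, Vb, S.pd1, S.pd2, gd]; ring

lemma c_eq (x0 : ℝ) (z : ℂ) : S.c x0 z (x0 + S.a) = 1 + z * S.gc x0 z := by
  simp only [Sys.c, Sys.u, Va, Vb, S.p1, S.p2, gc]; linear_combination S.wr x0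

lemma tr_eq (x0 : ℝ) (z : ℂ) : S.c x0 z (x0 + S.a) + S.ds x0 z (x0 + S.a) =
    2 + z ^ 2 * (S.R11 x0 z + S.R22 x0 z) := by
  simp only [Sys.c, Sys.ds, Sys.u, Sys.du, Va, Vb, S.p1, S.p2, S.pd1, S.pd2]
  linear_combination (2 + z ^ 2 * (S.R11 x0 z + S.R22 x0 z)) * S.wr x0

lemma D_eq (x0 : ℝ) (z : ℂ) : (S.c x0 z (x0 + S.a) + S.ds x0 z (x0 + S.a)) ^ 2 - 4 =
    z ^ 3 * S.gD x0 z := by
  have h := S.detV x0 z (x0 + S.a)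
  rw [Va, Vb] at h
  rw [tr_eq, gD]
  linear_combination 4 * h

lemma det_eq (x0 : ℝ) (z : ℂ) (x : ℝ) :
    S.c x0 z x * S.ds x0 z x - S.s x0 z x * S.dc x0 z x = 1 := by
  have h := S.detV x0 z x
  simp only [Sys.c, Sys.ds, Sys.s, Sys.dc, Sys.u, Sys.du]
  have h1 := S.wr x0
  have h2 := S.wr x
  linear_combination (S.y1 x0 * S.d2 x0 - S.d1 x0 * S.y2 x0) * (S.y1 x * S.d2 x - S.d1 x * S.y2 x) * h
    + (S.y1 x * S.d2 x - S.d1 x * S.y2 x) * h1 + h2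

lemma R_an (x0 : ℝ) (z : ℂ) : AnalyticAt ℂ (S.R11 x0) z ∧ AnalyticAt ℂ (S.R21 x0) z ∧
    AnalyticAt ℂ (S.R12 x0) z ∧ AnalyticAt ℂ (S.R22 x0) z :=
  ⟨S.R1_an _ _ _ _, S.R2_an _ _ _ _, S.R1_an _ _ _ _, S.R2_an _ _ _ _⟩

lemma gs_an (x0 : ℝ) (z : ℂ) : AnalyticAt ℂ (S.gs x0) z := by
  obtain ⟨h1, h2, h3, h4⟩ := S.R_an x0 z
  unfold gs; fun_prop

lemma gd_an (x0 : ℝ) (z : ℂ) : AnalyticAt ℂ (S.gd x0) z := by
  obtain ⟨h1, h2, h3, h4⟩ := S.R_an x0 z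
  unfold gd; fun_prop

lemma gD_an (x0 : ℝ) (z : ℂ) : AnalyticAt ℂ (S.gD x0) z := by
  obtain ⟨h1, h2, h3, h4⟩ := S.R_an x0 z
  unfold gD; fun_prop

lemma tr_an (x0 : ℝ) (z : ℂ) :
    AnalyticAt ℂ (fun z => S.c x0 z (x0 + S.a) + S.ds x0 z (x0 + S.a)) z := by
  obtain ⟨h1, h2, h3, h4⟩ := S.R_an x0 z
  simp only [tr_eq]; fun_prop

lemma s_order (hγ : S.γ ≠ 0) {x0 : ℝ} (h : S.y1 x0 ≠ 0) :
    analyticOrderAt (fun w => S.s x0 w (x0 + S.a)) 0 = 1 :=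
  order_eq (n := 1) (S.gs_an x0 0) (by simp [gs, hγ, h]) (S.s_eq x0)

lemma dc_order (hγ : S.γ ≠ 0) {x0 : ℝ} (h : S.d1 x0 ≠ 0) :
    analyticOrderAt (fun w => S.dc x0 w (x0 + S.a)) 0 = 1 :=
  order_eq (n := 1) (S.gd_an x0 0) (by simp [gd, hγ, h]) (S.dc_eq x0)

lemma D_order (hγ : S.γ ≠ 0) {x0 : ℝ} (h : S.R21 x0 0 ≠ 0) :
    analyticOrderAt (fun w => (S.c x0 w (x0 + S.a) + S.ds x0 w (x0 + S.a)) ^ 2 - 4) 0 = 3 :=
  order_eq (n := 3) (S.gD_an x0 0) (by simp [gD, hγ, h]) (S.D_eq x0)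

end PSys

end Pool.Agent.H1.Hill
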