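import Pool.Agent.H1.HillC

namespace Pool.Agent.H1.Hill

open Filter Topology MeasureTheory Set Real

noncomputable def m (t : ℝ) : ℝ := 1 + 2 * cos t ^ 2
noncomputable def X (t : ℝ) : ℝ := 2 * t + sin t * cos t

lemma m_ge (t : ℝ) : 1 ≤ m t := by unfold m; nlinarith [sq_nonneg (cos t)]
lemma m_pos (t : ℝ) : 0 < m t := lt_of_lt_of_le one_pos (m_ge t)

lemma X_d (t : ℝ) : HasDerivAt X (m t) t := by
  refine HasDerivAt.congr_deriv (((hasDerivAt_id' t).const_mul 2).fun_add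
    ((hasDerivAt_sin t).fun_mul (hasDerivAt_cos t))) ?_
  unfold m; linear_combination (-1 : ℝ) * sin_sq_add_cos_sq t

lemma X_mono : StrictMono X := strictMono_of_hasDerivAt_pos X_d m_pos

lemma X_surj : Function.Surjective X := by
  have hc : Continuous X := by unfold X; fun_prop
  have hb : ∀ t, |sin t * cos t| ≤ 1 := fun t => by
    rw [abs_mul]; exact mul_le_one₀ (abs_sin_le_one t) (abs_nonneg _) (abs_cos_le_one t)
  refine hc.surjective ?_ ?_
  · have h0 : Tendsto (fun t : ℝ => -1 + 2 * t) atTop atTop :=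
      tendsto_atTop_add_const_left _ _ (tendsto_id.const_mul_atTop two_pos)
    refine tendsto_atTop_mono (fun t => ?_) h0
    unfold X; linarith [(abs_le.1 (hb t)).1]
  · have h0 : Tendsto (fun t : ℝ => 1 + 2 * t) atBot atBot :=
      tendsto_atBot_add_const_left _ _ (tendsto_id.const_mul_atBot two_pos)
    refine tendsto_atBot_mono (fun t => ?_) h0
    unfold X; linarith [(abs_le.1 (hb t)).2]

noncomputable def XO : ℝ ≃o ℝ := X_mono.orderIsoOfSurjective X X_surj
noncomputable def T (x : ℝ) : ℝ := XO.symm x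

lemma X_T (x : ℝ) : X (T x) = x := XO.apply_symm_apply x
lemma T_X (t : ℝ) : T (X t) = t := XO.symm_apply_apply t
lemma T_cont : Continuous T := XO.symm.continuous
lemma T_d (x : ℝ) : HasDerivAt T (m (T x))⁻¹ x :=
  HasDerivAt.of_local_left_inverse T_cont.continuousAt (X_d _) (m_pos _).ne'
    (Eventually.of_forall X_T)

lemma T_per (x : ℝ) : T (x + 4 * π) = T x + 2 * π := by
  have : X (T x + 2 * π) = x + 4 * π := by
    have := X_T x
    unfold X at this ⊢
    rw [sin_add_two_pi, cos_add_two_pi]; linarith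
  rw [← this, T_X]

lemma T_zero : T 0 = 0 := by
  have : X 0 = 0 := by simp [X]
  conv_lhs => rw [← this]
  exact T_X 0

lemma T_pi : T π = π / 2 := by
  have : X (π / 2) = π := by simp [X]; ring
  conv_lhs => rw [← this]
  exact T_X _

noncomputable def j : ℂ := Complex.I * (√2 : ℝ)
noncomputable def s (x : ℝ) : ℂ := (sin (T x) : ℝ)
noncomputable def c (x : ℝ) : ℂ := (cos (T x) : ℝ)
noncomputable def g (x : ℝ) : ℂ := ((√(m (T x)))⁻¹ : ℝ)
noncomputable def tt (x : ℝ) : ℂ := (T x : ℝ)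

lemma hj : j ^ 2 = -2 := by
  unfold j
  rw [mul_pow, Complex.I_sq, ← Complex.ofReal_pow, sq_sqrt zero_le_two]; simp

lemma j_ne : j ≠ 0 := fun h => by have := hj; rw [h] at this; norm_num at this

lemma hsc (x : ℝ) : s x ^ 2 + c x ^ 2 = 1 := by
  unfold s c; exact_mod_cast sin_sq_add_cos_sq (T x)

lemma g_sq (x : ℝ) : g x ^ 2 = ((m (T x))⁻¹ : ℝ) := by
  unfold g; rw [← Complex.ofReal_pow, inv_pow, sq_sqrt (m_pos _).le]

lemma hg (x : ℝ) : g x ^ 2 * (1 + 2 * c x ^ 2) = 1 := by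
  rw [g_sq]
  have := inv_mul_cancel₀ (m_pos (T x)).ne'
  unfold c
  have h2 : (1 + 2 * ((cos (T x) : ℝ) : ℂ) ^ 2) = (m (T x) : ℝ) := by unfold m; push_cast; rfl
  rw [h2]; exact_mod_cast this

lemma tt_d (x : ℝ) : HasDerivAt tt (g x ^ 2) x := by
  rw [g_sq]; exact (T_d x).ofReal_comp

lemma s_d (x : ℝ) : HasDerivAt s (c x * g x ^ 2) x := by
  rw [g_sq]
  have := ((hasDerivAt_sin (T x)).comp x (T_d x)).ofReal_comp
  rw [Complex.ofReal_mul] at this
  exact this

lemma c_d (x : ℝ) : HasDerivAt c (-s x * g x ^ 2) x := by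
  rw [g_sq]
  have := ((hasDerivAt_cos (T x)).comp x (T_d x)).ofReal_comp
  rw [Complex.ofReal_mul, Complex.ofReal_neg] at this
  exact this

lemma g_d (x : ℝ) : HasDerivAt g (2 * c x * s x * g x ^ 5) x := by
  have h1 : HasDerivAt m (2 * (2 * cos (T x) * -sin (T x))) (T x) := by
    have := (((hasDerivAt_cos (T x)).fun_pow 2).const_mul 2).const_add 1
    refine HasDerivAt.congr_deriv this ?_
    simp
  have hp := m_pos (T x)
  have hs : 0 < √(m (T x)) := sqrt_pos.2 hp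
  have h2 := (((h1.comp x (T_d x)).sqrt hp.ne').fun_inv hs.ne').ofReal_comp
  refine HasDerivAt.congr_deriv h2 ?_
  unfold c s g
  norm_cast
  simp only [Function.comp]
  have h3 : m (T x) = √(m (T x)) ^ 2 := (sq_sqrt hp.le).symm
  set ρ := √(m (T x))
  rw [h3]
  field_simp

lemma s_per (x : ℝ) : s (x + 4 * π) = s x := by simp [s, T_per]
lemma c_per (x : ℝ) : c (x + 4 * π) = c x := by simp [c, T_per]
lemma g_per (x : ℝ) : g (x + 4 * π) = g x := by simp [g, m, T_per]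
lemma tt_per (x : ℝ) : tt (x + 4 * π) = tt x + 2 * π := by simp [tt, T_per]

lemma s_le (x : ℝ) : ‖s x‖ ≤ 1 := by
  unfold s; rw [Complex.norm_real]; exact abs_sin_le_one _
lemma c_le (x : ℝ) : ‖c x‖ ≤ 1 := by
  unfold c; rw [Complex.norm_real]; exact abs_cos_le_one _
lemma g_le (x : ℝ) : ‖g x‖ ≤ 1 := by
  unfold g
  rw [Complex.norm_real, Real.norm_of_nonneg (by positivity)]
  exact inv_le_one_of_one_le₀ (one_le_sqrt.2 (m_ge _))
lemma j_le : ‖j‖ ≤ 2 := by
  have : ‖j‖ ^ 2 = 2 := by rw [← norm_pow, hj]; simp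
  nlinarith [norm_nonneg j]

noncomputable def G (x : ℝ) : ℂ := 1 + j * c x
noncomputable def W (x : ℝ) : ℂ := -(s x * c x) - 2 * j * s x
noncomputable def F (x : ℝ) : ℂ := -(j * s x * g x ^ 4)
noncomputable def F1 (x : ℝ) : ℂ := -(j * c x * g x ^ 6) - 8 * j * s x ^ 2 * c x * g x ^ 8
noncomputable def y1 (x : ℝ) : ℂ := G x * g x
noncomputable def yb (x : ℝ) : ℂ := (1 - j * c x) * g x
noncomputable def q (x : ℝ) : ℂ := F1 x + F x ^ 2

lemma y1_yb (x : ℝ) : y1 x * yb x = 1 := by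
  unfold y1 yb G
  linear_combination hg x - (c x ^ 2 * g x ^ 2) * hj

lemma y1_d (x : ℝ) : HasDerivAt y1 (F x * y1 x) x := by
  refine HasDerivAt.congr_deriv ((((c_d x).const_mul j).const_add 1).fun_mul (g_d x)) ?_
  unfold F y1 G
  linear_combination (j * s x * g x ^ 3) * hg x + (g x ^ 5 * s x * c x) * hj

lemma yb_d (x : ℝ) : HasDerivAt yb (-(F x * yb x)) x := by
  refine HasDerivAt.congr_deriv ((((c_d x).const_mul j).const_sub 1).fun_mul (g_d x)) ?_
  unfold F yb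
  linear_combination (-(j * s x * g x ^ 3)) * hg x + (g x ^ 5 * s x * c x) * hj

lemma F_d (x : ℝ) : HasDerivAt F (F1 x) x := by
  refine HasDerivAt.congr_deriv ((((s_d x).const_mul j).fun_mul ((g_d x).fun_pow 4)).fun_neg) ?_
  unfold F1; simp; ring

lemma W_d (x : ℝ) : HasDerivAt W (yb x ^ 2) x := by
  refine HasDerivAt.congr_deriv (((s_d x).fun_mul (c_d x)).fun_neg.fun_sub
    ((s_d x).const_mul (2 * j))) ?_
  unfold yb
  linear_combination (g x ^ 2) * hsc x - (c x ^ 2 * g x ^ 2) * hj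

noncomputable def P0 (x : ℝ) : ℂ := -(s x * c x) + 2 * j * s x
noncomputable def P1 (x : ℝ) : ℂ := -(7 / 2) * c x ^ 2 - 1 / 2 * c x ^ 4 + 2 * j * c x - 2 / 3 * j * c x ^ 3
noncomputable def P2 (k : ℂ) (x : ℝ) : ℂ := -4 * tt x + s x * (4 * c x - 1 / 3 * c x ^ 3 + 1 / 3 * c x ^ 5)
  - 6 * k * (s x ^ 3 - 1 / 5 * s x ^ 5)

lemma P0_d (x : ℝ) : HasDerivAt P0 (y1 x * y1 x) x := by
  refine HasDerivAt.congr_deriv (((s_d x).fun_mul (c_d x)).fun_neg.fun_add
    ((s_d x).const_mul (2 * j))) ?_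
  unfold y1 G
  linear_combination (g x ^ 2) * hsc x - (c x ^ 2 * g x ^ 2) * hj

lemma P1_d (x : ℝ) : HasDerivAt P1 (W x * y1 x * y1 x) x := by
  refine HasDerivAt.congr_deriv ((((((c_d x).fun_pow 2).const_mul _).fun_sub
    (((c_d x).fun_pow 4).const_mul _)).fun_add ((c_d x).const_mul _)).fun_sub
    (((c_d x).fun_pow 3).const_mul _)) ?_
  unfold y1 G W
  simp
  have h := hj
  grind

lemma P2_d {k : ℂ} (hk : k ^ 2 = -2) (x : ℝ) : HasDerivAt (P2 k)
    ((-(s x * c x) - 2 * k * s x) ^ 2 * ((1 + k * c x) * g x) ^ 2) x := by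
  refine HasDerivAt.congr_deriv ((((tt_d x).const_mul _).fun_add ((s_d x).fun_mul
    ((((c_d x).const_mul _).fun_sub (((c_d x).fun_pow 3).const_mul _)).fun_add
    (((c_d x).fun_pow 5).const_mul _)))).fun_sub ((((s_d x).fun_pow 3).fun_sub
    (((s_d x).fun_pow 5).const_mul _)).const_mul _)) ?_
  simp
  have h := hsc x
  grind

end Pool.Agent.H1.Hill
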