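import Pool.Agent.H1.HillD

namespace Pool.Agent.H1.Hill

open Filter Topology MeasureTheory Set Real

lemma y1_le (x : ℝ) : ‖y1 x‖ ≤ 3 := by
  have h1 : ‖G x‖ ≤ 3 := by
    refine (norm_add_le _ _).trans ?_
    rw [norm_mul, norm_one]
    nlinarith [mul_le_mul j_le (c_le x) (norm_nonneg _) zero_le_two]
  unfold y1; rw [norm_mul]
  nlinarith [mul_le_mul h1 (g_le x) (norm_nonneg _) (by norm_num)]

lemma W_le (x : ℝ) : ‖W x‖ ≤ 5 := by
  refine (norm_sub_le _ _).trans ?_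
  rw [norm_neg, norm_mul, norm_mul, norm_mul, Complex.norm_ofNat]
  have h1 := mul_le_mul (s_le x) (c_le x) (norm_nonneg _) zero_le_one
  have h2 := mul_le_mul j_le (s_le x) (norm_nonneg _) zero_le_two
  nlinarith

lemma conts : Continuous s ∧ Continuous c ∧ Continuous g :=
  ⟨Sys.cont_of s_d, Sys.cont_of c_d, Sys.cont_of g_d⟩

lemma q_cont : Continuous q := by
  obtain ⟨h1, h2, h3⟩ := conts
  unfold q F1 F; fun_prop

lemma q_per (x : ℝ) : q (x + 4 * π) = q x := by simp only [q, F1, F, s_per, c_per, g_per]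

lemma d1_d (x : ℝ) : HasDerivAt (fun x => F x * y1 x) (q x * y1 x) x := by
  refine HasDerivAt.congr_deriv ((F_d x).fun_mul (y1_d x)) ?_
  unfold q; ring

noncomputable def S0 : Sys where
  y1 := y1
  d1 := fun x => F x * y1 x
  y2 := fun x => W x * y1 x
  d2 := fun x => yb x + W x * (F x * y1 x)
  q := q
  K := 15
  hy1 := y1_d
  hd1 := d1_d
  hy2 := fun x => by
    refine HasDerivAt.congr_deriv ((W_d x).fun_mul (y1_d x)) ?_
    linear_combination yb x * y1_yb x
  hd2 := fun x => by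
    refine HasDerivAt.congr_deriv ((yb_d x).fun_add ((W_d x).fun_mul (d1_d x))) ?_
    linear_combination F x * yb x * y1_yb x
  hq := q_cont
  wr := fun x => by linear_combination y1_yb x
  b1 := fun x => (y1_le x).trans (by norm_num)
  b2 := fun x => by
    rw [norm_mul]
    nlinarith [mul_le_mul (W_le x) (y1_le x) (norm_nonneg _) (by norm_num)]

lemma int_eq {f f' : ℝ → ℂ} (hf : ∀ x, HasDerivAt f (f' x) x) (hc : Continuous f') (a b : ℝ) :
    ∫ t in a..b, f' t = f b - f a :=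
  intervalIntegral.integral_eq_sub_of_hasDerivAt (fun x _ => hf x) (hc.intervalIntegrable _ _)

lemma I11 (a b : ℝ) : ∫ t in a..b, S0.y1 t * S0.y1 t = P0 b - P0 a :=
  int_eq P0_d (S0.c1.mul S0.c1) a b

lemma I12 (a b : ℝ) : ∫ t in a..b, S0.y2 t * S0.y1 t = P1 b - P1 a :=
  int_eq P1_d (S0.c2.mul S0.c1) a b

lemma I22 (a b : ℝ) : ∫ t in a..b, S0.y2 t * S0.y2 t = P2 j b - P2 j a := by
  refine int_eq (fun x => HasDerivAt.congr_deriv (P2_d hj x) ?_) (S0.c2.mul S0.c2) a b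
  simp only [S0, W, y1, G, Pi.mul_apply]; ring

noncomputable def S1 : PSys where
  toSys := S0
  a := 4 * π
  γ := -8 * π
  p1 := fun x => by simp only [S0, y1, G, c_per, g_per]
  pd1 := fun x => by simp only [S0, y1, G, F, s_per, c_per, g_per]
  p2 := fun x => by simp only [S0, y1, G, W, s_per, c_per, g_per]
  pd2 := fun x => by simp only [S0, y1, yb, G, W, F, s_per, c_per, g_per]
  i11 := fun x => by rw [I11]; simp only [P0, s_per, c_per, sub_self]
  i12 := fun x => by rw [I12]; simp only [P1, c_per, sub_self]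
  i22 := fun x => by rw [I22]; simp only [P2, s_per, c_per, tt_per]; ring

noncomputable def P3 (x : ℝ) : ℂ := -(P0 x * P1 x) + P1 0 * P0 x + W x * P0 x ^ 2 - P2 (-j) x

lemma P0_zero : P0 0 = 0 := by simp [P0, s, T_zero]

lemma P3_d (x : ℝ) : HasDerivAt P3
    (-(y1 x * (y1 x * (P1 x - P1 0) + W x * y1 x * -(P0 x - P0 0)))) x := by
  have hk : (-j) ^ 2 = -2 := by rw [neg_sq, hj]
  refine HasDerivAt.congr_deriv ((((((P0_d x).fun_mul (P1_d x)).fun_neg).fun_add
    ((P0_d x).const_mul _)).fun_add ((W_d x).fun_mul ((P0_d x).fun_pow 2))).fun_sub (P2_d hk x)) ?_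
  have e1 : -(s x * c x) - 2 * -j * s x = P0 x := by unfold P0; ring
  have e2 : (1 + -j * c x) * g x = yb x := by unfold yb; ring
  rw [e1, e2, P0_zero]; simp; ring

lemma R21_val : S1.R21 0 0 = 8 * π := by
  unfold PSys.R21
  rw [Sys.sol2_zero]
  have h : ∀ x, HasDerivAt (fun x => (it S1.B 0 (1, 0) 2 x).2 - P3 x) 0 x := fun x => by
    have h0 : HasDerivAt (fun x => (it S1.B 0 (1, 0) 2 x).2) (S1.B x (it S1.B 0 (1, 0) 1 x)).2 x :=
      (ContinuousLinearMap.snd ℝ ℂ ℂ).hasFDerivAt.comp_hasDerivAt x (it_d S1.B_cont 0 (1, 0) 1 x)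
    refine HasDerivAt.congr_deriv (h0.fun_sub (P3_d x)) ?_
    have e1 := I11 0 x
    have e2 := I12 0 x
    rw [Sys.B_apply, PSys.it1]
    simp only [S1] at e1 e2 ⊢
    rw [e1, e2]
    simp [S0]
  have h2 := is_const_of_deriv_eq_zero (fun x => (h x).differentiableAt) (fun x => (h x).deriv)
    (0 + 4 * π) 0
  have h3 : P3 (0 + 4 * π) = P3 0 + 8 * π := by
    simp only [P3, P0, P1, P2, W, s_per, c_per, tt_per]; ring
  have h4 : (it S1.B 0 (1, 0) 2 0).2 = 0 := by simp [it]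
  rw [h3, h4] at h2
  change (it S1.B 0 (1, 0) 2 (0 + 4 * π)).2 = _
  linear_combination h2

lemma pi_ne : (π : ℂ) ≠ 0 := Complex.ofReal_ne_zero.2 pi_ne_zero

lemma γ_ne : S1.γ ≠ 0 := by simp [S1]

lemma y1_ne (x : ℝ) : S1.y1 x ≠ 0 := left_ne_zero_of_mul_eq_one (y1_yb x)

lemma d1_ne : S1.d1 π ≠ 0 := by
  have h1 : g π ≠ 0 := right_ne_zero_of_mul (y1_ne π)
  have h2 : s π = 1 := by simp [s, T_pi]
  refine mul_ne_zero ?_ (y1_ne π)
  simp [F, h1, h2, j_ne]

end Pool.Agent.H1.Hill
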