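import Pool.Agent.H1.HillE

namespace Pool.Agent.H1.Hill

open Filter Topology MeasureTheory Set Real Polynomial

lemma two_eig (a b c d μ ν : ℂ) (h1 : a + d = μ + ν) (h2 : a * d - b * c = μ * ν) (h : μ ≠ ν) :
    (!![a, b; c, d]).charpoly = (Polynomial.X - C μ) * (Polynomial.X - C ν) ∧
    Module.End.eigenspace (Matrix.toLin' !![a, b; c, d]) μ ⊔
      Module.End.eigenspace (Matrix.toLin' !![a, b; c, d]) ν = ⊤ := by
  constructor
  · rw [Matrix.charpoly_fin_two, Matrix.trace_fin_two_of, Matrix.det_fin_two_of, h1, h2]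
    simp only [map_add, map_mul]; ring
  · rw [eq_top_iff]
    intro v _
    have hne := sub_ne_zero.2 h
    refine Submodule.mem_sup.2 ⟨(μ - ν)⁻¹ • ![(a - ν) * v 0 + b * v 1, c * v 0 + (d - ν) * v 1],
      Submodule.smul_mem _ _ ?_,
      -(μ - ν)⁻¹ • ![(a - μ) * v 0 + b * v 1, c * v 0 + (d - μ) * v 1],
      Submodule.smul_mem _ _ ?_, ?_⟩
    · rw [Module.End.mem_eigenspace_iff]
      ext i
      fin_cases i <;> simp [Matrix.mulVec, dotProduct, Fin.sum_univ_two] <;> grind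
    · rw [Module.End.mem_eigenspace_iff]
      ext i
      fin_cases i <;> simp [Matrix.mulVec, dotProduct, Fin.sum_univ_two] <;> grind
    · ext i
      fin_cases i <;> simp <;> field_simp <;> ring

lemma wr_const {f df g dg k : ℝ → ℂ} (hf : ∀ x, HasDerivAt f (df x) x)
    (hdf : ∀ x, HasDerivAt df (k x * f x) x) (hg : ∀ x, HasDerivAt g (dg x) x)
    (hdg : ∀ x, HasDerivAt dg (k x * g x) x) (x : ℝ) :
    f x * dg x - df x * g x = f 0 * dg 0 - df 0 * g 0 := by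
  have h : ∀ x, HasDerivAt (fun x => f x * dg x - df x * g x) 0 x := fun x => by
    refine HasDerivAt.congr_deriv (((hf x).fun_mul (hdg x)).fun_sub ((hdf x).fun_mul (hg x))) ?_
    ring
  exact is_const_of_deriv_eq_zero (fun x => (h x).differentiableAt) (fun x => (h x).deriv) x 0

lemma translate (z : ℂ) {f df : ℝ → ℂ} (hf : ∀ x, HasDerivAt f (df x) x)
    (hdf : ∀ x, HasDerivAt df ((q x - z) * f x) x) (x : ℝ) :
    f (x + 4 * π) = f (0 + 4 * π) * S1.c 0 z x + df (0 + 4 * π) * S1.s 0 z x := by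
  have a1 : ∀ x, HasDerivAt (fun x => f (x + 4 * π)) (df (x + 4 * π)) x := fun x =>
    (hf _).comp_add_const x _
  have a2 : ∀ x, HasDerivAt (fun x => df (x + 4 * π)) ((q x - z) * f (x + 4 * π)) x := fun x => by
    have := (hdf _).comp_add_const x (4 * π)
    rwa [q_per] at this
  have h1 := wr_const a1 a2 (S1.c_d 0 z) (S1.dc_d 0 z) x
  have h2 := wr_const a1 a2 (S1.s_d 0 z) (S1.ds_d 0 z) x
  rw [Sys.c_init, Sys.dc_init] at h1
  rw [Sys.s_init, Sys.ds_init] at h2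
  have h3 := S1.det_eq 0 z x
  linear_combination S1.c 0 z x * h2 - S1.s 0 z x * h1 - f (x + 4 * π) * h3

lemma second {f df k : ℝ → ℂ} (hf : ∀ x, HasDerivAt f (df x) x)
    (hdf : ∀ x, HasDerivAt df (k x) x) (hk : Continuous k) :
    ContDiff ℝ 2 f ∧ iteratedDeriv 1 f = df ∧ iteratedDeriv 2 f = k := by
  have e1 : deriv f = df := funext fun x => (hf x).deriv
  have e2 : deriv df = k := funext fun x => (hdf x).deriv
  refine ⟨?_, by rw [iteratedDeriv_one, e1], ?_⟩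
  · rw [show (2 : WithTop ℕ∞) = 1 + 1 from rfl, contDiff_succ_iff_deriv, e1, contDiff_one_iff_deriv,
      e2]
    exact ⟨fun x => (hf x).differentiableAt, by simp, fun x => (hdf x).differentiableAt, hk⟩
  · rw [iteratedDeriv_succ, iteratedDeriv_one, e1, e2]

noncomputable def tr (lam : ℂ) : ℂ := S1.c 0 (-lam) (0 + S1.a) + S1.ds 0 (-lam) (0 + S1.a)
noncomputable def hh (lam : ℂ) : ℂ := -S1.gD 0 (-lam)
noncomputable def br (ζ : ℂ) : ℂ := (tr (ζ ^ 2) + ζ ^ 3 * hh (ζ ^ 2) ^ (2⁻¹ : ℂ)) / 2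

lemma hh_an (z : ℂ) : AnalyticAt ℂ hh z :=
  (AnalyticAt.comp (f := fun w : ℂ => -w) (S1.gD_an 0 (-z)) (by fun_prop)).neg

lemma tr_an (z : ℂ) : AnalyticAt ℂ tr z :=
  AnalyticAt.comp (f := fun w : ℂ => -w) (S1.tr_an 0 (-z)) (by fun_prop)

lemma hh_zero : hh 0 = ((256 * π ^ 2 : ℝ) : ℂ) := by
  unfold hh PSys.gD
  rw [neg_zero, R21_val]
  simp only [S1]; push_cast; ring

lemma tr_sq (lam : ℂ) : tr lam ^ 2 - 4 = lam ^ 3 * hh lam := by
  unfold tr hh; rw [S1.D_eq]; ring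

lemma hh2_an : AnalyticAt ℂ (fun ζ : ℂ => hh (ζ ^ 2)) 0 :=
  AnalyticAt.comp (f := fun w : ℂ => w ^ 2) (hh_an _) (by fun_prop)

lemma hh_ne : hh 0 ≠ 0 := by
  rw [hh_zero]; exact Complex.ofReal_ne_zero.2 (by positivity)

lemma br_an : AnalyticAt ℂ br 0 := by
  have h1 : AnalyticAt ℂ (fun ζ : ℂ => tr (ζ ^ 2)) 0 :=
    AnalyticAt.comp (f := fun w : ℂ => w ^ 2) (tr_an _) (by fun_prop)
  have h2 : AnalyticAt ℂ (fun ζ : ℂ => hh (ζ ^ 2) ^ (2⁻¹ : ℂ)) 0 := by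
    refine hh2_an.cpow analyticAt_const ?_
    rw [zero_pow two_ne_zero, hh_zero]
    exact Complex.ofReal_mem_slitPlane.2 (by positivity)
  unfold br; fun_prop

lemma br_zero : br 0 = 1 := by
  unfold br tr; rw [S1.tr_eq]; simp

lemma br_sum (ζ : ℂ) : br ζ + br (-ζ) = tr (ζ ^ 2) := by
  unfold br; rw [neg_sq]; ring

lemma br_mul (ζ : ℂ) : br ζ * br (-ζ) = 1 := by
  have h1 : (hh (ζ ^ 2) ^ (2⁻¹ : ℂ)) ^ 2 = hh (ζ ^ 2) := Complex.cpow_ofNat_inv_pow _ 2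
  have h2 := tr_sq (ζ ^ 2)
  unfold br; rw [neg_sq]
  linear_combination (1 / 4) * h2 - (ζ ^ 6 / 4) * h1

lemma br_ne : ∀ᶠ ζ in 𝓝[≠] (0 : ℂ), br ζ ≠ br (-ζ) := by
  have h0 : ∀ᶠ ζ in 𝓝 (0 : ℂ), hh (ζ ^ 2) ≠ 0 :=
    hh2_an.continuousAt.eventually_ne (by simpa using hh_ne)
  filter_upwards [self_mem_nhdsWithin, nhdsWithin_le_nhds h0] with ζ h1 h2 h3
  have h4 : (hh (ζ ^ 2) ^ (2⁻¹ : ℂ)) ^ 2 = hh (ζ ^ 2) := Complex.cpow_ofNat_inv_pow _ 2
  have h5 : ζ ^ 3 * hh (ζ ^ 2) ^ (2⁻¹ : ℂ) = 0 := by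
    unfold br at h3; rw [neg_sq] at h3; linear_combination h3
  rcases mul_eq_zero.1 h5 with h | h
  · exact h1 (pow_eq_zero_iff three_ne_zero |>.1 h)
  · rw [h] at h4; exact h2 (by rw [← h4]; simp)

lemma entire (x : ℝ) : Differentiable ℂ (fun z => S1.c 0 (-z) x) ∧
    Differentiable ℂ (fun z => S1.s 0 (-z) x) ∧ Differentiable ℂ (fun z => S1.dc 0 (-z) x) ∧
    Differentiable ℂ (fun z => S1.ds 0 (-z) x) := by
  have h1 : Differentiable ℂ fun z => S1.V 0 (1, 0) (-z) x :=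
    (sol_diff S1.B_bound 0 _ 0 x).comp differentiable_neg
  have h2 : Differentiable ℂ fun z => S1.V 0 (0, 1) (-z) x :=
    (sol_diff S1.B_bound 0 _ 0 x).comp differentiable_neg
  simp only [Sys.c, Sys.s, Sys.dc, Sys.ds, Sys.u, Sys.du]
  refine ⟨?_, ?_, ?_, ?_⟩ <;> fun_prop

end Pool.Agent.H1.Hill
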