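import Pool.Agent.H1.HopfDefs

namespace Pool.Agent.H1.Hopf

/-- odd septic forms -/
def q (A B C D t x : ℝ) : ℝ := A * t * x ^ 6 - B * x ^ 4 * t ^ 3 + C * x ^ 2 * t ^ 5 + D * t ^ 7

def lq (A B C D t x : ℝ) : ℝ :=
  (30 * A - 6 * B) * t * x ^ 4 + (20 * C - 12 * B) * x ^ 2 * t ^ 3 + (2 * C + 42 * D) * t ^ 5

def F {k : ℕ} (A B C D : ℝ) (p : Pt (k + 1)) : ℝ := q A B C D p.1 (p.2 0)

lemma d2 {f f' f'' : ℝ → ℝ} (h1 : ∀ x, HasDerivAt f (f' x) x) (h2 : ∀ x, HasDerivAt f' (f'' x) x)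
    (x : ℝ) : iteratedDeriv 2 f x = f'' x := by
  have e : deriv f = f' := funext fun x => (h1 x).deriv
  rw [iteratedDeriv_succ, iteratedDeriv_one, e, (h2 x).deriv]

lemma q_dt (A B C D x t : ℝ) : HasDerivAt (fun a => q A B C D a x)
    (A * x ^ 6 - 3 * B * x ^ 4 * t ^ 2 + 5 * C * x ^ 2 * t ^ 4 + 7 * D * t ^ 6) t := by
  unfold q
  have h := fun n => hasDerivAt_pow n t
  refine HasDerivAt.congr_deriv ((((((hasDerivAt_id' t).const_mul A).mul_const (x ^ 6)).fun_sub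
    ((h 3).const_mul (B * x ^ 4))).fun_add ((h 5).const_mul (C * x ^ 2))).fun_add
    ((h 7).const_mul D)) ?_
  norm_num; ring

lemma q_dtt (A B C D x t : ℝ) : iteratedDeriv 2 (fun a => q A B C D a x) t =
    -6 * B * x ^ 4 * t + 20 * C * x ^ 2 * t ^ 3 + 42 * D * t ^ 5 := by
  refine d2 (f'' := fun t => -6 * B * x ^ 4 * t + 20 * C * x ^ 2 * t ^ 3 + 42 * D * t ^ 5)
    (q_dt A B C D x) (fun t => ?_) t
  have h := fun n => hasDerivAt_pow n t
  refine HasDerivAt.congr_deriv ((((hasDerivAt_const t (A * x ^ 6)).fun_sub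
    ((h 2).const_mul (3 * B * x ^ 4))).fun_add ((h 4).const_mul (5 * C * x ^ 2))).fun_add
    ((h 6).const_mul (7 * D))) ?_
  norm_num; ring

lemma q_dxx (A B C D x t : ℝ) : iteratedDeriv 2 (fun b => q A B C D t (x + b)) 0 =
    30 * A * t * x ^ 4 - 12 * B * x ^ 2 * t ^ 3 + 2 * C * t ^ 5 := by
  have h := fun n (b : ℝ) => ((hasDerivAt_id' b).const_add x).fun_pow n
  have := d2 (f := fun b => q A B C D t (x + b))
    (f' := fun b => 6 * A * t * (x + b) ^ 5 - 4 * B * t ^ 3 * (x + b) ^ 3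
      + 2 * C * t ^ 5 * (x + b))
    (f'' := fun b => 30 * A * t * (x + b) ^ 4 - 12 * B * (x + b) ^ 2 * t ^ 3 + 2 * C * t ^ 5)
    (fun b => by
      unfold q
      refine HasDerivAt.congr_deriv (((((h 6 b).const_mul (A * t)).fun_sub
        (((h 4 b).const_mul B).mul_const (t ^ 3))).fun_add
        (((h 2 b).const_mul C).mul_const (t ^ 5))).add_const (D * t ^ 7)) ?_
      norm_num; ring)
    (fun b => by
      refine HasDerivAt.congr_deriv ((((h 5 b).const_mul (6 * A * t)).fun_sub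
        ((h 3 b).const_mul (4 * B * t ^ 3))).fun_add
        (((hasDerivAt_id' b).const_add x).const_mul (2 * C * t ^ 5))) ?_
      norm_num; ring) 0
  simpa using this

lemma lap_F {k : ℕ} (A B C D : ℝ) (p : Pt (k + 1)) :
    lap (F A B C D) p = lq A B C D p.1 (p.2 0) := by
  unfold lap F
  rw [Fin.sum_univ_succ]
  have h1 : ∀ j : Fin k, iteratedDeriv 2 (fun b : ℝ => q A B C D p.1
      ((p.2 + EuclideanSpace.single j.succ b : EuclideanSpace ℝ (Fin (k + 1))) 0)) 0 = 0 := by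
    intro j
    simp [iteratedDeriv_const]
  have h2 : (fun b : ℝ => q A B C D p.1
      ((p.2 + EuclideanSpace.single 0 b : EuclideanSpace ℝ (Fin (k + 1))) 0)) =
      fun b => q A B C D p.1 (p.2 0 + b) := by
    ext b; simp
  simp only [h1, h2, q_dtt, q_dxx, lq]
  simp; ring

lemma dt_F {k : ℕ} (A B C D : ℝ) (p : Pt (k + 1)) :
    dt (F A B C D) p = A * (p.2 0) ^ 6 - 3 * B * (p.2 0) ^ 4 * p.1 ^ 2
      + 5 * C * (p.2 0) ^ 2 * p.1 ^ 4 + 7 * D * p.1 ^ 6 :=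
  (q_dt A B C D (p.2 0) p.1).deriv

lemma F_smooth {k : ℕ} (A B C D : ℝ) : ContDiff ℝ (⊤ : ℕ∞) (F (k := k) A B C D) := by
  unfold F q
  fun_prop

lemma G1 (e z : ℝ) (h0 : 0 ≤ e) (h1 : e ≤ 1 / 10) (hz : 0 ≤ z) :
    0 ≤ (5538 - 9984 * e + 7800 * e ^ 2 - 1170 * e ^ 3 - 1950 * e ^ 4 + 1092 * e ^ 5 - 156 * e ^ 6)
      + (-216030 + 338040 * e - 274800 * e ^ 2 + 120750 * e ^ 3 - 23310 * e ^ 4 - 420 * e ^ 5
        + 60 * e ^ 6) * z
      + (8856960 + 545220 * e - 1025100 * e ^ 2 + 1050000 * e ^ 3 - 627480 * e ^ 4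
        + 208740 * e ^ 5 - 29820 * e ^ 6) * z ^ 2
      + (2402000 + 54500000 * e - 54980000 * e ^ 2 + 27610000 * e ^ 3 - 5522000 * e ^ 4) * z ^ 3
      + (-7632000 - 76152000 * e + 25384000 * e ^ 2) * z ^ 4 + 10800000 * z ^ 5 := by
  have p : ∀ n : ℕ, 0 ≤ e ^ n := fun n => pow_nonneg h0 n
  have r : ∀ n : ℕ, e ^ (n + 1) ≤ e ^ n / 10 := fun n => by
    rw [pow_succ]; nlinarith [p n]
  have r1 := r 1; have r2 := r 2; have r3 := r 3; have r4 := r 4; have r5 := r 5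
  have p2 := p 2; have p3 := p 3; have p4 := p 4; have p5 := p 5; have p6 := p 6
  norm_num at r1 r2 r3 r4 r5
  have g0 : 4500 ≤ 5538 - 9984 * e + 7800 * e ^ 2 - 1170 * e ^ 3 - 1950 * e ^ 4 + 1092 * e ^ 5
      - 156 * e ^ 6 := by linarith
  have g1 : -216030 ≤ -216030 + 338040 * e - 274800 * e ^ 2 + 120750 * e ^ 3 - 23310 * e ^ 4
      - 420 * e ^ 5 + 60 * e ^ 6 := by linarith
  have g2 : 8856960 ≤ 8856960 + 545220 * e - 1025100 * e ^ 2 + 1050000 * e ^ 3 - 627480 * e ^ 4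
      + 208740 * e ^ 5 - 29820 * e ^ 6 := by linarith
  have g3 : 2402000 ≤ 2402000 + 54500000 * e - 54980000 * e ^ 2 + 27610000 * e ^ 3
      - 5522000 * e ^ 4 := by linarith
  have g4 : -15247200 ≤ -7632000 - 76152000 * e + 25384000 * e ^ 2 := by linarith
  have m1 := mul_le_mul_of_nonneg_right g1 hz
  have m2 := mul_le_mul_of_nonneg_right g2 (pow_nonneg hz 2)
  have m3 := mul_le_mul_of_nonneg_right g3 (pow_nonneg hz 3)
  have m4 := mul_le_mul_of_nonneg_right g4 (pow_nonneg hz 4)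
  have a1 : 0 ≤ 4500 - 216030 * z + 2700000 * z ^ 2 := by nlinarith [sq_nonneg (z - 1 / 25)]
  have a2 : 0 ≤ 6156960 - 8398000 * z + 6352800 * z ^ 2 := by nlinarith [sq_nonneg (z - 2 / 3)]
  have a3 : 0 ≤ z ^ 2 * (6156960 - 8398000 * z + 6352800 * z ^ 2) := by positivity
  have a4 : 0 ≤ z ^ 3 * (z - 1) ^ 2 := by positivity
  nlinarith

lemma quad_pos (a b c X T : ℝ) (hX : 0 ≤ X) (ha : 0 < a) (h : b ^ 2 ≤ 4 * a * c) :
    0 ≤ a * X ^ 3 - b * X ^ 2 * T + c * X * T ^ 2 := by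
  have h1 : 0 ≤ a * X ^ 2 - b * X * T + c * T ^ 2 := by
    have : 0 ≤ 4 * a * (a * X ^ 2 - b * X * T + c * T ^ 2) := by
      nlinarith [sq_nonneg (2 * a * X - b * T), mul_nonneg (sub_nonneg.2 h) (sq_nonneg T)]
    exact nonneg_of_mul_nonneg_right (by linarith) (by positivity : (0 : ℝ) < 4 * a) |> fun h' => h'
  nlinarith [mul_nonneg hX h1]

lemma q_pos {A B C D t : ℝ} (x : ℝ) (ht : 0 < t) (hA : 0 < A) (hD : 0 < D)
    (h : B ^ 2 ≤ 4 * A * C) : 0 < q A B C D t x := by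
  have h1 := quad_pos A B C (x ^ 2) (t ^ 2) (by positivity) hA h
  have h2 : 0 < D * t ^ 7 := by positivity
  have h3 := mul_nonneg ht.le h1
  unfold q
  nlinarith

lemma qu_dt_pos {t : ℝ} (x : ℝ) (ht : 0 < t) :
    0 < 1000000 * x ^ 6 - 3 * 12000 * x ^ 4 * t ^ 2 + 5 * 2000 * x ^ 2 * t ^ 4 + 7 * 10 * t ^ 6 := by
  have h1 := quad_pos 1000000 36000 10000 (x ^ 2) (t ^ 2) (by positivity) (by norm_num)
    (by norm_num)
  have h2 : 0 < t ^ 6 := by positivity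
  nlinarith

lemma qu_mono (x : ℝ) : StrictMonoOn (fun t => q 1000000 12000 2000 10 t x) (Set.Ici 0) := by
  apply strictMonoOn_of_deriv_pos (convex_Ici 0)
  · unfold q; fun_prop
  · intro t ht
    rw [interior_Ici] at ht
    rw [(q_dt _ _ _ _ x t).deriv]
    exact qu_dt_pos x ht

lemma core (t s x : ℝ) (ht : 0 < t) (hts : t ≤ s)
    (h : q 1000000 12000 2000 10 t x = q 999000 11970 1985 7 s x) :
    lq 1000000 12000 2000 10 t x ≤ lq 999000 11970 1985 7 s x := by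
  have hs : 0 < s := lt_of_lt_of_le ht hts
  have h9 : 9 / 10 * s ≤ t := by
    by_contra hc
    push Not at hc
    have h1 := qu_mono x ht.le (show (0 : ℝ) ≤ 9 / 10 * s by positivity) hc
    have h2 : 0 < q 99000 3222 (1985 - 2000 * (9 / 10) ^ 5) (7 - 10 * (9 / 10) ^ 7) s x :=
      q_pos x hs (by norm_num) (by norm_num) (by norm_num)
    simp only [q] at h h1 h2
    nlinarith
  obtain ⟨e, rfl⟩ : ∃ e, t = s * (1 - e) := ⟨1 - t / s, by field_simp; ring⟩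
  have he0 : 0 ≤ e := by nlinarith
  have he1 : e ≤ 1 / 10 := by nlinarith
  obtain ⟨y, rfl⟩ : ∃ y, x = s * y := ⟨x / s, by field_simp⟩
  have hG := G1 e (y ^ 2) he0 he1 (by positivity)
  have hW : 0 < q 1000 30 15 3 1 y := q_pos y one_pos (by norm_num) (by norm_num) (by norm_num)
  have h' : q 1000000 12000 2000 10 (1 - e) y = q 999000 11970 1985 7 1 y := by
    have e1 : q 1000000 12000 2000 10 (s * (1 - e)) (s * y) =
      s ^ 7 * q 1000000 12000 2000 10 (1 - e) y := by unfold q; ring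
    have e2 : q 999000 11970 1985 7 s (s * y) = s ^ 7 * q 999000 11970 1985 7 1 y := by
      unfold q; ring
    rw [e1, e2] at h
    exact mul_left_cancel₀ (by positivity) h
  have e1 : lq 1000000 12000 2000 10 (s * (1 - e)) (s * y) =
      s ^ 5 * lq 1000000 12000 2000 10 (1 - e) y := by unfold lq; ring
  have e2 : lq 999000 11970 1985 7 s (s * y) = s ^ 5 * lq 999000 11970 1985 7 1 y := by
    unfold lq; ring
  rw [e1, e2]
  apply mul_le_mul_of_nonneg_left _ (by positivity)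
  have key : (lq 999000 11970 1985 7 1 y - lq 1000000 12000 2000 10 (1 - e) y) *
      q 1000 30 15 3 1 y = lq 1000 30 15 3 1 y *
        (q 999000 11970 1985 7 1 y - q 1000000 12000 2000 10 (1 - e) y) + 10 * e *
      ((5538 - 9984 * e + 7800 * e ^ 2 - 1170 * e ^ 3 - 1950 * e ^ 4 + 1092 * e ^ 5 - 156 * e ^ 6)
      + (-216030 + 338040 * e - 274800 * e ^ 2 + 120750 * e ^ 3 - 23310 * e ^ 4 - 420 * e ^ 5
        + 60 * e ^ 6) * y ^ 2
      + (8856960 + 545220 * e - 1025100 * e ^ 2 + 1050000 * e ^ 3 - 627480 * e ^ 4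
        + 208740 * e ^ 5 - 29820 * e ^ 6) * (y ^ 2) ^ 2
      + (2402000 + 54500000 * e - 54980000 * e ^ 2 + 27610000 * e ^ 3 - 5522000 * e ^ 4)
        * (y ^ 2) ^ 3
      + (-7632000 - 76152000 * e + 25384000 * e ^ 2) * (y ^ 2) ^ 4 + 10800000 * (y ^ 2) ^ 5) := by
    unfold q lq; ring
  rw [h', sub_self, mul_zero, zero_add] at key
  have : 0 ≤ (lq 999000 11970 1985 7 1 y - lq 1000000 12000 2000 10 (1 - e) y) *
      q 1000 30 15 3 1 y := by rw [key]; positivity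
  linarith [nonneg_of_mul_nonneg_left this hW]

theorem main (k : ℕ) : ∃ u v : Pt (k + 1) → ℝ,
    ContDiff ℝ (⊤ : ℕ∞) u ∧ ContDiff ℝ (⊤ : ℕ∞) v ∧
    (∀ p ∈ Omega (k + 1), v p < u p ∧ 0 < u p ∧ 0 < v p ∧ 0 < dt u p) ∧
    (∀ y, u (0, y) = 0) ∧
    (∀ t s y, 0 < t → t ≤ s → u (t, y) = v (s, y) → lap u (t, y) ≤ lap v (s, y)) ∧
    dt u (0, 0) = 0 ∧
    (u (0, 0) = 0 ∧ ∃ m, iteratedDeriv m (fun a : ℝ => u (a, 0)) 0 ≠ 0) ∧
    (v (0, 0) = 0 ∧ ∃ m, iteratedDeriv m (fun a : ℝ => v (a, 0)) 0 ≠ 0) := by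
  have fin : ∀ A B C D : ℝ, D ≠ 0 →
      iteratedDeriv 7 (fun a : ℝ => F (k := k) A B C D (a, 0)) 0 ≠ 0 := by
    intro A B C D hD
    have e : (fun a : ℝ => F (k := k) A B C D (a, 0)) = fun a => D * a ^ 7 := by
      ext a; simp [F, q]
    rw [e, iteratedDeriv_const_mul_field, iteratedDeriv_fun_pow_zero]
    simp [hD, Nat.factorial]
  refine ⟨F 1000000 12000 2000 10, F 999000 11970 1985 7, F_smooth _ _ _ _, F_smooth _ _ _ _,
    fun p hp => ⟨?_, ?_, ?_, ?_⟩, fun y => by simp [F, q], fun t s y ht hts h => ?_, ?_,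
    ⟨by simp [F, q], 7, fin _ _ _ _ (by norm_num)⟩, ⟨by simp [F, q], 7, fin _ _ _ _ (by norm_num)⟩⟩
  · have := q_pos (A := 1000) (B := 30) (C := 15) (D := 3) (p.2 0) hp.1 (by norm_num)
      (by norm_num) (by norm_num)
    simp only [F, q] at this ⊢
    linarith
  · exact q_pos _ hp.1 (by norm_num) (by norm_num) (by norm_num)
  · exact q_pos _ hp.1 (by norm_num) (by norm_num) (by norm_num)
  · rw [dt_F]; exact qu_dt_pos _ hp.1
  · rw [lap_F, lap_F]; exact core t s (y 0) ht hts h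
  · rw [dt_F]; simp

end Pool.Agent.H1.Hopf
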