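import Pool.Agent.H1.HopfDefs

namespace Pool.Agent.H1.Hopf

open Filter Set
open scoped Topology RealInnerProductSpace

noncomputable def g1 (x : ℝ) : ℝ := x⁻¹ ^ 2 * expNegInvGlue x

lemma g_deriv (x : ℝ) : HasDerivAt expNegInvGlue (g1 x) x := by
  simpa [g1] using expNegInvGlue.hasDerivAt_polynomial_eval_inv_mul 1 x

lemma g1_deriv : HasDerivAt g1 0 0 := by
  have := expNegInvGlue.hasDerivAt_polynomial_eval_inv_mul (Polynomial.X ^ 2) 0
  simp only [expNegInvGlue.zero, mul_zero, Polynomial.eval_pow, Polynomial.eval_X] at this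
  exact this

noncomputable def H {k : ℕ} (c σ : ℝ) (p : Pt k) : ℝ :=
  c * expNegInvGlue p.1 + (‖p.2‖ ^ 2) ^ 2 * (2 + σ * p.1)

lemma H_smooth {k : ℕ} (c σ : ℝ) : ContDiff ℝ (⊤ : ℕ∞) (H (k := k) c σ) := by
  unfold H
  have h : ContDiff ℝ (⊤ : ℕ∞) fun p : Pt k => ‖p.2‖ ^ 2 := contDiff_snd.norm_sq ℝ
  have h2 : ContDiff ℝ (⊤ : ℕ∞) fun p : Pt k => expNegInvGlue p.1 :=
    expNegInvGlue.contDiff.comp contDiff_fst
  exact (contDiff_const.mul h2).add ((h.pow 2).mul (by fun_prop))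

lemma nsq_deriv {k : ℕ} (q : Pt k) : HasFDerivAt (fun p : Pt k => ‖p.2‖ ^ 2)
    (2 • (innerSL ℝ q.2).comp (ContinuousLinearMap.snd ℝ ℝ _)) q :=
  (hasFDerivAt_snd (p := q)).norm_sq

lemma H_fderiv {k : ℕ} (c σ : ℝ) (q e : Pt k) : fderiv ℝ (H c σ) q e =
    c * e.1 * g1 q.1 + ‖q.2‖ ^ 2 * (4 * ⟪q.2, e.2⟫ * (2 + σ * q.1) + ‖q.2‖ ^ 2 * σ * e.1) := by
  have h1 := ((g_deriv q.1).comp_hasFDerivAt q (hasFDerivAt_fst (𝕜 := ℝ) (p := q))).const_mul c
  have h2 := ((nsq_deriv q).pow 2).fun_mul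
    (((hasFDerivAt_fst (𝕜 := ℝ) (p := q)).const_mul σ).const_add 2)
  have h := (h1.fun_add h2).fderiv
  have e0 : H c σ = fun p : Pt k => c * (expNegInvGlue ∘ Prod.fst) p +
    (‖p.2‖ ^ 2) ^ 2 * (2 + σ * p.1) := rfl
  rw [e0, h]
  simp
  ring

lemma hess_H {k : ℕ} (c σ : ℝ) (p : Pt k) (hp : p.2 = 0) (hc : c = 0 ∨ p.1 = 0) :
    hess (H c σ) p = 0 := by
  ext i j
  simp only [hess, Matrix.of_apply, Matrix.zero_apply, H_fderiv]
  set e := evec k j
  have h1 : HasFDerivAt (fun q : Pt k => c * e.1 * g1 q.1) (0 : Pt k →L[ℝ] ℝ) p := by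
    rcases hc with hc | hc
    · simp only [hc, zero_mul]; exact hasFDerivAt_const _ _
    · have := ((hc ▸ g1_deriv : HasDerivAt g1 0 p.1).comp_hasFDerivAt p
        (hasFDerivAt_fst (𝕜 := ℝ) (p := p))).const_mul (c * e.1)
      simpa using this
  have hA : DifferentiableAt ℝ (fun q : Pt k =>
      4 * ⟪q.2, e.2⟫ * (2 + σ * q.1) + ‖q.2‖ ^ 2 * σ * e.1) p := by
    have a1 : DifferentiableAt ℝ (fun q : Pt k => ⟪q.2, e.2⟫) p :=
      differentiableAt_snd.inner ℝ (differentiableAt_const _)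
    have a2 := (nsq_deriv p).differentiableAt
    exact ((a1.const_mul 4).fun_mul (by fun_prop)).fun_add ((a2.mul_const σ).mul_const _)
  have h2 := (nsq_deriv p).fun_mul hA.hasFDerivAt
  rw [(h1.fun_add h2).fderiv]
  simp [hp]

lemma dt_H {k : ℕ} (c σ : ℝ) (p : Pt k) : dt (H c σ) p = c * g1 p.1 + (‖p.2‖ ^ 2) ^ 2 * σ := by
  unfold dt H
  have := (((g_deriv p.1).const_mul c).fun_add
    ((((hasDerivAt_id' p.1).const_mul σ).const_add 2).const_mul ((‖p.2‖ ^ 2) ^ 2))).deriv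
  simpa using this

theorem mainB (k m : ℕ) : ∃ u v : Pt (k + 1) → ℝ,
    ContDiff ℝ (⊤ : ℕ∞) u ∧ ContDiff ℝ (⊤ : ℕ∞) v ∧
    (∀ p ∈ Omega (k + 1), v p ≤ u p ∧ 0 ≤ v p) ∧
    (∀ y, ‖y‖ < 1 → u (0, y) = v (0, y)) ∧ u (0, 0) = 0 ∧ v (0, 0) = 0 ∧
    dt u (0, 0) = 0 ∧ (∀ p ∈ Omega (k + 1), 0 < dt u p) ∧
    (∀ t s y, 0 ≤ t → t ≤ 1 → 0 < s → s < 1 → ‖y‖ < 1 → u (t, y) = v (s, y) →
      sigmaCurv m u (t, y) ≤ sigmaCurv m v (s, y)) ∧
    ContDiff ℝ (⊤ : ℕ∞) (fun p : Pt (k + 1) => if 0 ≤ p.1 then v p else u (-p.1, p.2)) ∧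
    (∀ r > 0, ∃ p ∈ Omega (k + 1), p.1 < r ∧ ‖p.2‖ < r ∧ u p ≠ v p ∧ v p ≠ 0) := by
  refine ⟨H 1 1, H 0 (-1), H_smooth _ _, H_smooth _ _, fun p hp => ?_, fun y _ => by simp [H],
    by simp [H], by simp [H], by simp [dt_H, g1], fun p hp => ?_, fun t s y ht _ hs _ _ h => ?_,
    ?_, fun r hr => ?_⟩
  · have h1 := expNegInvGlue.nonneg p.1
    have h2 : 0 ≤ (‖p.2‖ ^ 2) ^ 2 := by positivity
    obtain ⟨h3, h4, -⟩ := hp
    unfold H
    constructor <;> nlinarith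
  · rw [dt_H]
    have h1 := expNegInvGlue.pos_of_pos hp.1
    have h2 := hp.1
    unfold g1
    positivity
  · have h1 := expNegInvGlue.nonneg t
    have h2 : 0 ≤ (‖y‖ ^ 2) ^ 2 := by positivity
    simp only [H] at h
    have h3 : (‖y‖ ^ 2) ^ 2 = 0 := by
      by_contra hne
      have : 0 < (‖y‖ ^ 2) ^ 2 := lt_of_le_of_ne h2 (Ne.symm hne)
      nlinarith [mul_pos this hs, mul_nonneg h2 ht]
    have hy : y = 0 := by simpa using h3
    have h4 : t = 0 := by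
      rw [h3] at h
      have : expNegInvGlue t = 0 := by linarith
      exact le_antisymm (expNegInvGlue.zero_iff_nonpos.1 this) ht
    apply le_of_eq
    simp only [sigmaCurv, shape]
    rw [hess_H 1 1 (t, y) hy (Or.inr h4), hess_H 0 (-1) (s, y) hy (Or.inl rfl)]
    simp
  · have e : (fun p : Pt (k + 1) => if 0 ≤ p.1 then H 0 (-1) p else H 1 1 (-p.1, p.2)) =
        fun p => H 1 1 (-p.1, p.2) := by
      ext p
      split_ifs with hp
      · simp [H, expNegInvGlue.zero_of_nonpos (neg_nonpos.2 hp)]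
      · rfl
    rw [e]
    exact (H_smooth 1 1).comp (by fun_prop)
  · set a := min r 1 / 2 with ha
    have h0 : 0 < a := by positivity
    have h1 : a < r := by
      have := min_le_left r 1
      have : 0 < min r 1 := by positivity
      linarith
    have h2 : a < 1 := by
      have := min_le_right r 1
      linarith
    have hn : ‖(EuclideanSpace.single 0 a : EuclideanSpace ℝ (Fin (k + 1)))‖ = a := by
      simp [abs_of_pos h0]
    refine ⟨(a, EuclideanSpace.single 0 a), ⟨h0, h2, by rw [hn]; exact h2⟩, h1,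
      by rw [hn]; exact h1, ?_, ?_⟩
    · simp only [H, hn]
      have h3 := expNegInvGlue.nonneg a
      have h4 : 0 < (a ^ 2) ^ 2 * a := by positivity
      nlinarith
    · simp only [H, hn]
      have h4 : 0 < (a ^ 2) ^ 2 * (2 - a) := mul_pos (by positivity) (by linarith)
      nlinarith

end Pool.Agent.H1.Hopf
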