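import Mathlib

namespace Pool.Agent.H1.Hopf

/-- points `(t, y)` of `ℝ^n`, `n = k + 1`, with `t ∈ ℝ` and `y ∈ ℝ^k` -/
abbrev Pt (k : ℕ) := ℝ × EuclideanSpace ℝ (Fin k)

/-- the derivative in `t` -/
noncomputable def dt {k : ℕ} (f : Pt k → ℝ) (p : Pt k) : ℝ :=
  deriv (fun a : ℝ => f (a, p.2)) p.1

/-- the Laplacian in all variables: second derivative in `t` plus the second derivatives in the
coordinates `y j` -/
noncomputable def lap {k : ℕ} (f : Pt k → ℝ) (p : Pt k) : ℝ :=
  iteratedDeriv 2 (fun a : ℝ => f (a, p.2)) p.1 +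
    ∑ j : Fin k, iteratedDeriv 2 (fun b : ℝ => f (p.1, p.2 + EuclideanSpace.single j b)) 0

/-- the open cylinder `|y| < 1`, `0 < t < 1` -/
def Omega (k : ℕ) : Set (Pt k) := {p | 0 < p.1 ∧ p.1 < 1 ∧ ‖p.2‖ < 1}

/-- the coordinate unit vectors of `ℝ^(k+1)`: first the `t` direction, then the `y j` directions -/
noncomputable def evec (k : ℕ) : Fin (k + 1) → Pt k :=
  Fin.cons (1, 0) fun j => (0, EuclideanSpace.single j 1)

/-- the gradient, in coordinates -/
noncomputable def grad {k : ℕ} (f : Pt k → ℝ) (p : Pt k) : Fin (k + 1) → ℝ :=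
  fun i => fderiv ℝ f p (evec k i)

/-- the Hessian matrix, in coordinates -/
noncomputable def hess {k : ℕ} (f : Pt k → ℝ) (p : Pt k) : Matrix (Fin (k + 1)) (Fin (k + 1)) ℝ :=
  Matrix.of fun i j => fderiv ℝ (fun q => fderiv ℝ f q (evec k j)) p (evec k i)

/-- the shape operator of the graph of `f` for the upward unit normal: the inverse of the first
fundamental form `1 + ∇f ∇fᵀ` times the second fundamental form `D²f / √(1 + |∇f|²)` -/
noncomputable def shape {k : ℕ} (f : Pt k → ℝ) (p : Pt k) :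
    Matrix (Fin (k + 1)) (Fin (k + 1)) ℝ :=
  (1 + Matrix.vecMulVec (grad f p) (grad f p))⁻¹ *
    ((Real.sqrt (1 + ∑ i, grad f p i ^ 2))⁻¹ • hess f p)

/-- `σ_m` of the principal curvatures (the eigenvalues of the shape operator, with multiplicity) -/
noncomputable def sigmaCurv {k : ℕ} (m : ℕ) (f : Pt k → ℝ) (p : Pt k) : ℝ :=
  (shape f p).charpoly.roots.esymm m

end Pool.Agent.H1.Hopf
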