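import Mathlib

set_option autoImplicit false
open MeasureTheory Set Real

namespace Pool.Agent.H1.Hx

abbrev E := EuclideanSpace ℝ (Fin 2)

def dk (a b r : ℝ) : Set (ℝ × ℝ) := {q | (q.1 - a) ^ 2 + (q.2 - b) ^ 2 ≤ r ^ 2}

lemma dk_closed (a b r : ℝ) : IsClosed (dk a b r) :=
  isClosed_le (by fun_prop) (by fun_prop)

def U {n : ℕ} (X Y : Fin n → ℝ) (r : ℝ) : Set (ℝ × ℝ) := ⋃ i, dk (X i) (Y i) r

lemma U_meas {n : ℕ} (X Y : Fin n → ℝ) (r : ℝ) : MeasurableSet (U X Y r) :=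
  MeasurableSet.iUnion fun _ => (dk_closed _ _ _).measurableSet

def cd (x : E) : ℝ × ℝ := (x 0, x 1)

lemma cd_mp : MeasurePreserving cd volume volume :=
  (volume_preserving_finTwoArrow ℝ).comp (PiLp.volume_preserving_ofLp (Fin 2))

lemma dsq (x y : E) : dist x y ^ 2 = (x 0 - y 0) ^ 2 + (x 1 - y 1) ^ 2 := by
  rw [EuclideanSpace.dist_eq, Real.sq_sqrt (by positivity), Fin.sum_univ_two, Real.dist_eq,
    Real.dist_eq, sq_abs, sq_abs]

lemma ball_cd (c : E) {r : ℝ} (hr : 0 ≤ r) :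
    Metric.closedBall c r = cd ⁻¹' dk (c 0) (c 1) r := by
  ext x
  simp only [Metric.mem_closedBall, mem_preimage, dk, cd, mem_ofPred_eq]
  rw [← dsq, sq_le_sq₀ dist_nonneg hr]

lemma tr {n : ℕ} (c : Fin n → E) {r : ℝ} (hr : 0 ≤ r) :
    volume (⋃ i, Metric.closedBall (c i) r) = volume (U (fun i => c i 0) (fun i => c i 1) r) := by
  rw [← cd_mp.measure_preimage (U_meas _ _ _).nullMeasurableSet, U, preimage_iUnion]
  simp only [ball_cd _ hr]

lemma dk_vol (a b : ℝ) {r : ℝ} (hr : 0 ≤ r) : volume (dk a b r) = ENNReal.ofReal (π * r ^ 2) := by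
  have h := ball_cd (!₂[a, b] : E) hr
  have h2 : volume (cd ⁻¹' dk a b r) = volume (dk a b r) :=
    cd_mp.measure_preimage (dk_closed _ _ _).measurableSet.nullMeasurableSet
  have h3 : (cd ⁻¹' dk a b r) = Metric.closedBall (!₂[a, b] : E) r := by rw [h]; rfl
  rw [← h2, h3, EuclideanSpace.volume_closedBall_fin_two, ← ENNReal.ofReal_pow hr,
    ← ENNReal.ofReal_mul (by positivity), mul_comm]

/-- invariance under orthogonal maps and translations -/
lemma pre_vol {a b c d : ℝ} (p q : ℝ) (hdet : (a * d - b * c) ^ 2 = 1) (S : Set (ℝ × ℝ)) :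
    volume ((fun z : ℝ × ℝ => (a * (z.1 - p) + b * (z.2 - q), c * (z.1 - p) + d * (z.2 - q))) ⁻¹' S)
      = volume S := by
  let T : (ℝ × ℝ) →ₗ[ℝ] (ℝ × ℝ) :=
    Matrix.toLin (Module.Basis.finTwoProd ℝ) (Module.Basis.finTwoProd ℝ) !![a, b; c, d]
  have hT : LinearMap.det T = a * d - b * c := by
    rw [LinearMap.det_toLin, Matrix.det_fin_two_of]
  have h1 : |a * d - b * c| = 1 := by
    have := sq_eq_sq_iff_abs_eq_abs (a * d - b * c) 1
    simpa using this.1 (by simpa using hdet)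
  have hne : LinearMap.det T ≠ 0 := by
    rw [hT]; intro h; rw [h] at h1; simp at h1
  have e : (fun z : ℝ × ℝ => (a * (z.1 - p) + b * (z.2 - q), c * (z.1 - p) + d * (z.2 - q))) ⁻¹' S
      = (fun z : ℝ × ℝ => z + (-p, -q)) ⁻¹' (T ⁻¹' S) := by
    ext z
    simp only [mem_preimage, T, Matrix.toLin_finTwoProd_apply, Prod.fst_add, Prod.snd_add,
      sub_eq_add_neg]
  rw [e, measure_preimage_add_right, Measure.addHaar_preimage_linearMap volume hne, hT, abs_inv, h1]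
  simp

lemma U_rot {n : ℕ} (X Y : Fin n → ℝ) (r : ℝ) {a b c d : ℝ} (p q : ℝ) (h1 : a ^ 2 + c ^ 2 = 1)
    (h2 : b ^ 2 + d ^ 2 = 1) (h3 : a * b + c * d = 0) :
    volume (U (fun i => a * (X i - p) + b * (Y i - q)) (fun i => c * (X i - p) + d * (Y i - q)) r)
      = volume (U X Y r) := by
  rw [← pre_vol (a := a) (b := b) (c := c) (d := d) p q (by
    linear_combination (b ^ 2 + d ^ 2) * h1 + h2 - (a * b + c * d) * h3)]
  congr 1
  ext z
  simp only [U, mem_preimage, mem_iUnion, dk, mem_ofPred_eq]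
  refine exists_congr fun i => ?_
  have : (a * (z.1 - p) + b * (z.2 - q) - (a * (X i - p) + b * (Y i - q))) ^ 2 +
      (c * (z.1 - p) + d * (z.2 - q) - (c * (X i - p) + d * (Y i - q))) ^ 2
      = (z.1 - X i) ^ 2 + (z.2 - Y i) ^ 2 := by
    linear_combination (z.1 - X i) ^ 2 * h1 + (z.2 - Y i) ^ 2 * h2
      + 2 * (z.1 - X i) * (z.2 - Y i) * h3
  rw [this]

lemma strip_vol (f : ℝ → ℝ) (hf : Continuous f) {a b w : ℝ} (hab : a ≤ b) (hw : 0 ≤ w) :
    volume (regionBetween f (fun x => f x + w) (Icc a b)) = ENNReal.ofReal ((b - a) * w) := by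
  rw [Measure.volume_eq_prod, volume_regionBetween_eq_lintegral' (g := fun x => f x + w)
    hf.measurable (by fun_prop) measurableSet_Icc]
  simp only [Pi.sub_apply, add_sub_cancel_left, lintegral_const, MeasurableSet.univ,
    Measure.restrict_apply, univ_inter, Real.volume_Icc]
  rw [← ENNReal.ofReal_mul hw, mul_comm]

/-- two far apart centres, aligned with the second axis -/
lemma two0 {d d0 r : ℝ} (hr : 0 < r) (hd0 : 0 ≤ d0) (hd : d0 ≤ d) (hdr : d0 ≤ r / 100) :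
    ENNReal.ofReal (π * r ^ 2 + 1.998 * r * d0) ≤ volume (dk 0 0 r ∪ dk 0 d r) := by
  set f : ℝ → ℝ := fun x => d + √(r ^ 2 - x ^ 2) - d0 with hf
  have hfc : Continuous f := by fun_prop
  set T := regionBetween f (fun x => f x + d0) (Icc (-(0.999 * r)) (0.999 * r)) with hT
  have hv : volume T = ENNReal.ofReal (1.998 * r * d0) := by
    rw [hT, strip_vol f hfc (by linarith) hd0]; congr 1; ring
  have key : ∀ z ∈ T, z ∈ dk 0 d r ∧ z ∉ dk 0 0 r := by
    rintro ⟨x, y⟩ ⟨⟨h1, h2⟩, h3, h4⟩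
    simp only [hf] at h1 h2 h3 h4
    have hx : x ^ 2 ≤ (0.999 * r) ^ 2 := sq_le_sq' h1 h2
    have hs := Real.sq_sqrt (show 0 ≤ r ^ 2 - x ^ 2 by nlinarith)
    have hs0 := Real.sqrt_nonneg (r ^ 2 - x ^ 2)
    set s := √(r ^ 2 - x ^ 2)
    have hs1 : r / 100 ≤ s := by
      by_contra hc
      push Not at hc
      nlinarith
    simp only [dk, mem_ofPred_eq, sub_zero, not_le]
    constructor
    · have : (y - d) ^ 2 ≤ s ^ 2 := sq_le_sq' (by linarith) (by linarith)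
      linarith
    · have : s < y := by linarith
      nlinarith
  have hdis : Disjoint (dk 0 0 r) T := by
    rw [Set.disjoint_right]; exact fun z hz => (key z hz).2
  have hTm : MeasurableSet T :=
    measurableSet_regionBetween hfc.measurable (hfc.add continuous_const).measurable
      measurableSet_Icc
  rw [ENNReal.ofReal_add (by positivity) (by positivity), ← hv, ← dk_vol 0 0 hr.le,
    ← measure_union hdis hTm]
  exact measure_mono (union_subset_union_right _ fun z hz => (key z hz).1)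

lemma two {n : ℕ} (X Y : Fin n → ℝ) {d0 r : ℝ} (hr : 0 < r) (hd0 : 0 < d0) (hdr : d0 ≤ r / 100)
    (i k : Fin n) (h : d0 ^ 2 ≤ (X i - X k) ^ 2 + (Y i - Y k) ^ 2) :
    ENNReal.ofReal (π * r ^ 2 + 1.998 * r * d0) ≤ volume (U X Y r) := by
  set d := √((X i - X k) ^ 2 + (Y i - Y k) ^ 2) with hd
  have hs : d ^ 2 = (X i - X k) ^ 2 + (Y i - Y k) ^ 2 := Real.sq_sqrt (by positivity)
  have hd1 : d0 ≤ d := Real.le_sqrt_of_sq_le h
  have hdp : 0 < d := by linarith
  rw [← U_rot X Y r (a := (Y i - Y k) / d) (b := -(X i - X k) / d) (c := (X i - X k) / d)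
    (d := (Y i - Y k) / d) (X k) (Y k) (by field_simp; linarith) (by field_simp; linarith)
    (by field_simp; ring)]
  refine (two0 hr hd0.le hd1 hdr).trans (measure_mono (union_subset ?_ ?_))
  · refine subset_iUnion_of_subset k ?_
    simp
  · refine subset_iUnion_of_subset i ?_
    have e1 : (Y i - Y k) / d * (X i - X k) + -(X i - X k) / d * (Y i - Y k) = 0 := by ring
    have e2 : (X i - X k) / d * (X i - X k) + (Y i - Y k) / d * (Y i - Y k) = d := by
      field_simp; linarith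
    simp only [e1, e2, subset_refl]

lemma U_fin {n : ℕ} (X Y : Fin n → ℝ) {r : ℝ} (hr : 0 ≤ r) : volume (U X Y r) ≠ ⊤ := by
  refine ne_top_of_le_ne_top ?_ (measure_iUnion_fintype_le _ _)
  simp [dk_vol _ _ hr, ENNReal.mul_eq_top]

lemma U_lip {n : ℕ} (X Y X' Y' : Fin n → ℝ) {r e : ℝ} (hr : 0 ≤ r) (he : 0 ≤ e)
    (h : ∀ i, |X i - X' i| ≤ e ∧ |Y i - Y' i| ≤ e) :
    (volume (U X' Y' r)).toReal ≤ (volume (U X Y r)).toReal + n * (π * (4 * r * e + 4 * e ^ 2)) := by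
  have hsub : U X' Y' r ⊆ U X Y r ∪ ⋃ i, (dk (X i) (Y i) (r + 2 * e) \ dk (X i) (Y i) r) := by
    intro z hz
    obtain ⟨i, hi⟩ := mem_iUnion.1 hz
    by_cases hz2 : z ∈ dk (X i) (Y i) r
    · exact Or.inl (mem_iUnion.2 ⟨i, hz2⟩)
    · refine Or.inr (mem_iUnion.2 ⟨i, ?_, hz2⟩)
      simp only [dk, mem_ofPred_eq] at hi ⊢
      obtain ⟨h1, h2⟩ := h i
      have a1 : |z.1 - X' i| ≤ r := abs_le_of_sq_le_sq' (by nlinarith [sq_nonneg (z.2 - Y' i)]) hr
        |> fun h => abs_le.2 h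
      have a2 : |z.2 - Y' i| ≤ r := abs_le_of_sq_le_sq' (by nlinarith [sq_nonneg (z.1 - X' i)]) hr
        |> fun h => abs_le.2 h
      rw [abs_le] at h1 h2 a1 a2
      have b1 : (z.1 - X' i) * (X' i - X i) ≤ r * e := by nlinarith
      have b2 : (z.2 - Y' i) * (Y' i - Y i) ≤ r * e := by nlinarith
      have b3 : (X' i - X i) ^ 2 ≤ e ^ 2 := sq_le_sq' (by linarith) (by linarith)
      have b4 : (Y' i - Y i) ^ 2 ≤ e ^ 2 := sq_le_sq' (by linarith) (by linarith)
      nlinarith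
  have hv : ∀ i, volume (dk (X i) (Y i) (r + 2 * e) \ dk (X i) (Y i) r)
      = ENNReal.ofReal (π * (4 * r * e + 4 * e ^ 2)) := by
    intro i
    rw [measure_sdiff (fun z hz => by
        simp only [dk, mem_ofPred_eq] at hz ⊢; nlinarith)
      (dk_closed _ _ _).measurableSet.nullMeasurableSet (by simp [dk_vol _ _ hr]),
      dk_vol _ _ hr, dk_vol _ _ (by linarith), ← ENNReal.ofReal_sub _ (by positivity)]
    congr 1; ring
  have h1 : volume (U X' Y' r) ≤ volume (U X Y r) +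
      ENNReal.ofReal (n * (π * (4 * r * e + 4 * e ^ 2))) := by
    refine (measure_mono hsub).trans ((measure_union_le _ _).trans ?_)
    gcongr
    refine (measure_iUnion_fintype_le _ _).trans ?_
    simp only [hv, Finset.sum_const, Finset.card_univ, Fintype.card_fin, nsmul_eq_mul]
    rw [ENNReal.ofReal_mul (p := n) (by positivity), ENNReal.ofReal_natCast]
  have := ENNReal.toReal_mono (ENNReal.add_ne_top.2 ⟨U_fin X Y hr, ENNReal.ofReal_ne_top⟩) h1
  rwa [ENNReal.toReal_add (U_fin X Y hr) ENNReal.ofReal_ne_top,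
    ENNReal.toReal_ofReal (by positivity)] at this

lemma U_cont {n : ℕ} {r : ℝ} (hr : 0 ≤ r) :
    Continuous fun p : (Fin n → ℝ) × (Fin n → ℝ) => (volume (U p.1 p.2 r)).toReal := by
  rw [Metric.continuous_iff]
  intro p ε hε
  set K : ℝ := n * (π * (4 * r + 4)) + 1 with hK
  have hK0 : 0 < K := by positivity
  refine ⟨min 1 (ε / K), by positivity, fun q hq => ?_⟩
  set e := dist q p with he
  have he0 : 0 ≤ e := dist_nonneg
  have h1 : e < 1 := lt_of_lt_of_le hq (min_le_left _ _)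
  have h2 : e * K < ε := (lt_div_iff₀ hK0).1 (lt_of_lt_of_le hq (min_le_right _ _))
  have hc : ∀ i, |q.1 i - p.1 i| ≤ e ∧ |q.2 i - p.2 i| ≤ e := fun i =>
    ⟨(dist_le_pi_dist q.1 p.1 i).trans (le_max_left _ _),
      (dist_le_pi_dist q.2 p.2 i).trans (le_max_right _ _)⟩
  have a1 := U_lip q.1 q.2 p.1 p.2 hr he0 hc
  have a2 := U_lip p.1 p.2 q.1 q.2 hr he0 fun i => by
    rw [abs_sub_comm, abs_sub_comm (p.2 i)]; exact hc i
  have a3 : (n : ℝ) * (π * (4 * r * e + 4 * e ^ 2)) ≤ e * K := by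
    have : 4 * r * e + 4 * e ^ 2 ≤ e * (4 * r + 4) := by nlinarith
    have h4 : (n : ℝ) * (π * (4 * r * e + 4 * e ^ 2)) ≤ n * (π * (e * (4 * r + 4))) := by gcongr
    rw [hK]; nlinarith
  rw [Real.dist_eq, abs_lt]
  constructor <;> linarith

def Sep {n : ℕ} (X Y : Fin n → ℝ) : Prop :=
  ∀ i k, i ≠ k → 4 ≤ (X i - X k) ^ 2 + (Y i - Y k) ^ 2

/-- existence of a minimiser -/
lemma exmin {n : ℕ} (i0 : Fin n) {r d0 : ℝ} (hr : 0 < r) (hd0 : 0 < d0) (hdr : d0 ≤ r / 100)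
    (X0 Y0 : Fin n → ℝ) (hS : Sep X0 Y0)
    (hv : volume (U X0 Y0 r) < ENNReal.ofReal (π * r ^ 2 + 1.998 * r * d0)) :
    ∃ X Y : Fin n → ℝ, Sep X Y ∧ ∀ X' Y' : Fin n → ℝ, Sep X' Y' →
      volume (U X Y r) ≤ volume (U X' Y' r) := by
  set K : Set ((Fin n → ℝ) × (Fin n → ℝ)) :=
    Metric.closedBall 0 d0 ∩ {p | Sep p.1 p.2} with hK
  have hKc : IsCompact K := by
    refine (isCompact_closedBall _ _).inter_right ?_
    simp only [Sep, ofPred_forall]
    exact isClosed_iInter fun i => isClosed_iInter fun k => isClosed_iInter fun _ =>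
      isClosed_le (by fun_prop) (by fun_prop)
  have hred : ∀ X' Y' : Fin n → ℝ, Sep X' Y' →
      volume (U X' Y' r) < ENNReal.ofReal (π * r ^ 2 + 1.998 * r * d0) →
      ∃ p ∈ K, volume (U p.1 p.2 r) = volume (U X' Y' r) := by
    intro X' Y' h hlt
    have hd : ∀ i, (X' i - X' i0) ^ 2 + (Y' i - Y' i0) ^ 2 < d0 ^ 2 := by
      intro i
      by_contra hc
      exact absurd (two X' Y' hr hd0 hdr i i0 (not_lt.1 hc)) (not_le.2 hlt)
    refine ⟨(fun i => 1 * (X' i - X' i0) + 0 * (Y' i - Y' i0),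
      fun i => 0 * (X' i - X' i0) + 1 * (Y' i - Y' i0)), ⟨?_, ?_⟩,
      U_rot X' Y' r _ _ (by norm_num) (by norm_num) (by norm_num)⟩
    · rw [mem_closedBall_zero_iff, Prod.norm_def, max_le_iff, pi_norm_le_iff_of_nonneg hd0.le,
        pi_norm_le_iff_of_nonneg hd0.le]
      constructor <;> intro i <;> simp only [Real.norm_eq_abs] <;>
        refine abs_le.2 (abs_le_of_sq_le_sq' ?_ hd0.le)
      · nlinarith [hd i, sq_nonneg (Y' i - Y' i0)]
      · nlinarith [hd i, sq_nonneg (X' i - X' i0)]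
    · intro i k hik
      have := h i k hik
      simp only
      nlinarith
  obtain ⟨p0, hp0, hp0v⟩ := hred X0 Y0 hS hv
  obtain ⟨p, hp, hmin⟩ := hKc.exists_isMinOn ⟨p0, hp0⟩ (U_cont (n := n) hr.le).continuousOn
  have hm : ∀ q ∈ K, volume (U p.1 p.2 r) ≤ volume (U q.1 q.2 r) := fun q hq =>
    (ENNReal.toReal_le_toReal (U_fin _ _ hr.le) (U_fin _ _ hr.le)).1 (hmin hq)
  refine ⟨p.1, p.2, hp.2, fun X' Y' h => ?_⟩
  by_cases hlt : volume (U X' Y' r) < ENNReal.ofReal (π * r ^ 2 + 1.998 * r * d0)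
  · obtain ⟨q, hq, hqv⟩ := hred X' Y' h hlt
    exact hqv ▸ hm q hq
  · exact ((hm p0 hp0).trans hp0v.le).trans (hv.le.trans (not_lt.1 hlt))

end Pool.Agent.H1.Hx
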