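import Pool.Agent.H1.HxA

set_option autoImplicit false
open MeasureTheory Set Real

namespace Pool.Agent.H1.Hx

noncomputable def G (S : Set (ℝ × ℝ)) (θ : ℝ) : ENNReal :=
  ∫⁻ t in Ioi (0:ℝ), ENNReal.ofReal t * S.indicator 1 (t * cos θ, t * sin θ)

lemma vol_polar {S : Set (ℝ × ℝ)} (hS : MeasurableSet S) :
    volume S = ∫⁻ θ in Ioo (-π) π, G S θ := by
  rw [← lintegral_indicator_one hS, ← lintegral_comp_polarCoord_symm, polarCoord_target,
    Measure.volume_eq_prod, ← Measure.prod_restrict, lintegral_prod_symm]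
  · simp only [G, smul_eq_mul, polarCoord_symm_apply]
  · apply Measurable.aemeasurable
    simp only [smul_eq_mul, polarCoord_symm_apply]
    refine (ENNReal.measurable_ofReal.comp measurable_fst).mul ?_
    exact (measurable_one.indicator hS).comp (by fun_prop)

lemma G_lb {S : Set (ℝ × ℝ)} {θ ρ : ℝ} (hρ : 0 ≤ ρ)
    (h : ∀ t, 0 < t → t ≤ ρ → (t * cos θ, t * sin θ) ∈ S) :
    ENNReal.ofReal (ρ ^ 2 / 2) ≤ G S θ := by
  have h1 : ρ ^ 2 / 2 = ∫ t in Ioc 0 ρ, t := by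
    rw [← intervalIntegral.integral_of_le hρ]; simp
  have h2 : 0 ≤ᵐ[volume.restrict (Ioc 0 ρ)] fun t : ℝ => t :=
    (ae_restrict_iff' measurableSet_Ioc).2 (Filter.Eventually.of_forall fun t ht => ht.1.le)
  rw [h1, ofReal_integral_eq_lintegral_ofReal (continuous_id'.integrableOn_Ioc) h2]
  refine le_trans ?_ (lintegral_mono_set (show Ioc 0 ρ ⊆ Ioi 0 from Ioc_subset_Ioi_self))
  refine setLIntegral_mono' measurableSet_Ioc fun t ht => ?_
  rw [indicator_of_mem (h t ht.1 ht.2)]; simp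

lemma arc_lb {S : Set (ℝ × ℝ)} {a b x y r D : ℝ} (hab : a ≤ b) (hD : 1 ≤ D)
    (hx : x ^ 2 + y ^ 2 ≤ D ^ 2) (hr : D ^ 2 + 4 * D ≤ r) (hS : dk x y r ⊆ S) :
    0 ≤ (b - a) * (r ^ 2 / 2 - r) + r * (x * (sin b - sin a) - y * (cos b - cos a)) ∧
    ENNReal.ofReal ((b - a) * (r ^ 2 / 2 - r) + r * (x * (sin b - sin a) - y * (cos b - cos a)))
      ≤ ∫⁻ θ in Ioo a b, G S θ := by
  have hσ : ∀ θ, -D ≤ x * cos θ + y * sin θ ∧ x * cos θ + y * sin θ ≤ D := by
    intro θ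
    refine abs_le_of_sq_le_sq' ?_ (by linarith)
    nlinarith [sin_sq_add_cos_sq θ, sq_nonneg (x * sin θ - y * cos θ)]
  have hr0 : 0 < r := by nlinarith
  have hg : ∀ θ, 0 ≤ r ^ 2 / 2 + r * (-1 + (x * cos θ + y * sin θ)) := fun θ => by
    nlinarith [hσ θ]
  have h1 : (b - a) * (r ^ 2 / 2 - r) + r * (x * (sin b - sin a) - y * (cos b - cos a))
      = ∫ θ in Ioo a b, (r ^ 2 / 2 + r * (-1 + (x * cos θ + y * sin θ))) := by
    rw [← integral_Ioc_eq_integral_Ioo, ← intervalIntegral.integral_of_le hab]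
    have : ∀ θ, HasDerivAt (fun θ => (r ^ 2 / 2 - r) * θ + r * (x * sin θ - y * cos θ))
        (r ^ 2 / 2 + r * (-1 + (x * cos θ + y * sin θ))) θ := fun θ => by
      have := ((hasDerivAt_id θ).const_mul (r ^ 2 / 2 - r)).add
        ((((hasDerivAt_sin θ).const_mul x).sub ((hasDerivAt_cos θ).const_mul y)).const_mul r)
      exact this.congr_deriv (by ring)
    rw [intervalIntegral.integral_eq_sub_of_hasDerivAt (fun θ _ => this θ)
      (Continuous.intervalIntegrable (by fun_prop) _ _)]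
    ring
  rw [h1]
  refine ⟨integral_nonneg hg, ?_⟩
  rw [ofReal_integral_eq_lintegral_ofReal
    ((Continuous.integrableOn_Icc (by fun_prop)).mono_set Ioo_subset_Icc_self)
    (Filter.Eventually.of_forall hg)]
  refine lintegral_mono fun θ => ?_
  obtain ⟨s1, s2⟩ := hσ θ
  refine le_trans (ENNReal.ofReal_le_ofReal ?_)
    (G_lb (ρ := r - 1 + (x * cos θ + y * sin θ)) (by nlinarith) fun t t0 t1 => hS ?_)
  · nlinarith [sq_nonneg (-1 + (x * cos θ + y * sin θ))]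
  · simp only [dk, mem_ofPred_eq]
    set σ := x * cos θ + y * sin θ with hs
    have e : (t * cos θ - x) ^ 2 + (t * sin θ - y) ^ 2 = (t - σ) ^ 2 + (x ^ 2 + y ^ 2) - σ ^ 2 := by
      rw [hs]; linear_combination t ^ 2 * sin_sq_add_cos_sq θ
    have : (t - σ) ^ 2 ≤ (r - 1) ^ 2 := sq_le_sq' (by nlinarith) (by linarith)
    nlinarith [sq_nonneg σ]

noncomputable def th (j : ℕ) : ℝ := -π + j * (π / 6)

lemma polar_lb {n : ℕ} (X Y : Fin n → ℝ) {r D : ℝ} (hD : 1 ≤ D)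
    (hx : ∀ i, X i ^ 2 + Y i ^ 2 ≤ D ^ 2) (hr : D ^ 2 + 4 * D ≤ r) (s : ℕ → Fin n) :
    ENNReal.ofReal (π * r ^ 2 - 2 * π * r + r * ∑ j ∈ Finset.range 12,
      (X (s j) * (sin (th (j + 1)) - sin (th j)) - Y (s j) * (cos (th (j + 1)) - cos (th j))))
      ≤ volume (U X Y r) := by
  have hm : ∀ j, th (j + 1) - th j = π / 6 := fun j => by simp only [th]; push_cast; ring
  have hp := pi_pos
  have ha := fun j => arc_lb (S := U X Y r) (a := th j) (b := th (j + 1))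
    (by linarith [hm j]) hD (hx (s j)) hr (subset_iUnion (fun i => dk (X i) (Y i) r) (s j))
  have e : π * r ^ 2 - 2 * π * r + r * ∑ j ∈ Finset.range 12,
      (X (s j) * (sin (th (j + 1)) - sin (th j)) - Y (s j) * (cos (th (j + 1)) - cos (th j)))
      = ∑ j ∈ Finset.range 12, ((th (j + 1) - th j) * (r ^ 2 / 2 - r) + r *
      (X (s j) * (sin (th (j + 1)) - sin (th j)) - Y (s j) * (cos (th (j + 1)) - cos (th j)))) := by
    simp only [hm, Finset.sum_add_distrib, Finset.mul_sum, Finset.sum_const, Finset.card_range,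
      nsmul_eq_mul]
    push_cast; ring
  rw [e, ENNReal.ofReal_sum_of_nonneg fun j _ => (ha j).1, vol_polar (U_meas X Y r)]
  refine (Finset.sum_le_sum fun j _ => (ha j).2).trans ?_
  rw [← lintegral_biUnion_finset (fun i _ j _ hij => ?_) fun _ _ => measurableSet_Ioo]
  · refine lintegral_mono_set (iUnion₂_subset fun j hj => Ioo_subset_Ioo ?_ ?_)
    · simp only [th]; have : (0:ℝ) ≤ j * (π / 6) := by positivity
      linarith
    · have : (j:ℝ) + 1 ≤ 12 := by exact_mod_cast Finset.mem_range.1 hj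
      simp only [th]; push_cast; nlinarith
  · have key : ∀ i j : ℕ, i < j → Disjoint (Ioo (th i) (th (i + 1))) (Ioo (th j) (th (j + 1))) := by
      intro i j h
      have : (i:ℝ) + 1 ≤ j := by exact_mod_cast h
      refine Set.disjoint_left.2 fun z h1 h2 => ?_
      have := h1.2; have := h2.1
      simp only [th] at *; push_cast at *; nlinarith
    rcases lt_or_gt_of_ne hij with h | h
    · exact key i j h
    · exact (key j i h).symm

lemma piece {g : ℝ → ℝ} (hg : Continuous g) {a b α β : ℝ} (hab : a ≤ b)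
    (h : ∀ x, g x ≤ α + β * x) : ∫ x in a..b, g x ≤ α * (b - a) + β * (b ^ 2 - a ^ 2) / 2 := by
  refine (intervalIntegral.integral_mono hab (hg.intervalIntegrable _ _)
    (Continuous.intervalIntegrable (u := fun x => α + β * x) (by fun_prop) _ _) h).trans (le_of_eq ?_)
  rw [intervalIntegral.integral_add (by simp) (Continuous.intervalIntegrable (by fun_prop) _ _),
    intervalIntegral.integral_const_mul, integral_id]
  simp; ring

noncomputable def up (H1 H2 H3 H4 H5 x : ℝ) : ℝ :=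
  min (min (min (min (2 * H1 - √3 * x) ((2 * H2 - x) * √3 / 3)) H3) ((2 * H4 + x) * √3 / 3))
    (2 * H5 + √3 * x)

lemma up_cont (H1 H2 H3 H4 H5 : ℝ) : Continuous (up H1 H2 H3 H4 H5) := by
  unfold up; fun_prop

lemma s3 : √3 ^ 2 = (3:ℝ) := Real.sq_sqrt (by norm_num)
lemma s3a : (1.732:ℝ) < √3 := Real.lt_sqrt_of_sq_lt (by norm_num)
lemma s3b : √3 < (1.7321:ℝ) := (Real.sqrt_lt' (by norm_num)).2 (by norm_num)

lemma chain {H0 H1 H2 H3 H4 H5 H6 : ℝ} (h1 : √3 * H1 ≤ H0 + H2) (h2 : √3 * H2 ≤ H1 + H3)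
    (h3 : √3 * H3 ≤ H2 + H4) (h4 : √3 * H4 ≤ H3 + H5) (h5 : √3 * H5 ≤ H4 + H6) :
    -H6 ≤ H0 ∧ ∫ x in (-H6)..H0, up H1 H2 H3 H4 H5 x ≤
      2 * (H0 * H1 + H1 * H2 + H2 * H3 + H3 * H4 + H4 * H5 + H5 * H6)
      - √3 * (H0 ^ 2 / 2 + H1 ^ 2 + H2 ^ 2 + H3 ^ 2 + H4 ^ 2 + H5 ^ 2 + H6 ^ 2 / 2) := by
  have hs := s3
  have hs0 := s3a
  have c := up_cont H1 H2 H3 H4 H5
  have l1 : -H6 ≤ H4 - √3 * H5 := by linarith
  have l2 : H4 - √3 * H5 ≤ √3 * H3 - 2 * H4 := by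
    have := mul_le_mul_of_nonneg_left h4 (show 0 ≤ √3 by positivity)
    have e : √3 * (√3 * H4) = 3 * H4 := by linear_combination H4 * hs
    linarith
  have l3 : √3 * H3 - 2 * H4 ≤ 2 * H2 - √3 * H3 := by linarith
  have l4 : 2 * H2 - √3 * H3 ≤ √3 * H1 - H2 := by
    have := mul_le_mul_of_nonneg_left h2 (show 0 ≤ √3 by positivity)
    have e : √3 * (√3 * H2) = 3 * H2 := by linear_combination H2 * hs
    linarith
  have l5 : √3 * H1 - H2 ≤ H0 := by linarith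
  have p1 := piece c l1 (α := 2 * H5) (β := √3) fun x => min_le_right _ _
  have p2 := piece c l2 (α := 2 * H4 * √3 / 3) (β := √3 / 3) fun x =>
    ((min_le_left _ _).trans (min_le_right _ _)).trans (le_of_eq (by ring))
  have p3 := piece c l3 (α := H3) (β := 0) fun x =>
    ((min_le_left _ _).trans ((min_le_left _ _).trans (min_le_right _ _))).trans (by simp)
  have p4 := piece c l4 (α := 2 * H2 * √3 / 3) (β := -√3 / 3) fun x =>
    ((min_le_left _ _).trans ((min_le_left _ _).trans ((min_le_left _ _).trans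
      (min_le_right _ _)))).trans (le_of_eq (by ring))
  have p5 := piece c l5 (α := 2 * H1) (β := -√3) fun x =>
    ((min_le_left _ _).trans ((min_le_left _ _).trans ((min_le_left _ _).trans
      (min_le_left _ _)))).trans (le_of_eq (by ring))
  refine ⟨by linarith, ?_⟩
  have I := fun a b => c.intervalIntegrable (μ := volume) a b
  rw [← intervalIntegral.integral_add_adjacent_intervals (I _ (H4 - √3 * H5)) (I _ _),
    ← intervalIntegral.integral_add_adjacent_intervals (I _ (√3 * H3 - 2 * H4)) (I _ H0),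
    ← intervalIntegral.integral_add_adjacent_intervals (I _ (2 * H2 - √3 * H3)) (I _ H0),
    ← intervalIntegral.integral_add_adjacent_intervals (I _ (√3 * H1 - H2)) (I _ H0)]
  refine (add_le_add p1 (add_le_add p2 (add_le_add p3 (add_le_add p4 p5)))).trans (le_of_eq ?_)
  set s := √3
  have h3 : s ^ 3 = 3 * s := by linear_combination s * hs
  ring_nf
  rw [h3]
  ring

lemma sos (s H0 H1 H2 H3 H4 H5 H6 H7 H8 H9 H10 H11 : ℝ) (hs : s ^ 2 = 3) (h1 : 1 ≤ s) :
    2 * (H0 * H1 + H1 * H2 + H2 * H3 + H3 * H4 + H4 * H5 + H5 * H6)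
      - s * (H0 ^ 2 / 2 + H1 ^ 2 + H2 ^ 2 + H3 ^ 2 + H4 ^ 2 + H5 ^ 2 + H6 ^ 2 / 2)
      + (2 * (H0 * H11 + H11 * H10 + H10 * H9 + H9 * H8 + H8 * H7 + H7 * H6)
      - s * (H0 ^ 2 / 2 + H11 ^ 2 + H10 ^ 2 + H9 ^ 2 + H8 ^ 2 + H7 ^ 2 + H6 ^ 2 / 2))
      ≤ (2 - s) / 12 * (H0 + H1 + H2 + H3 + H4 + H5 + H6 + H7 + H8 + H9 + H10 + H11) ^ 2 := by
  have odd : ∀ a b c d e f : ℝ, 2 * (a * b + b * c + c * d + d * e + e * f - f * a)
      ≤ s * (a ^ 2 + b ^ 2 + c ^ 2 + d ^ 2 + e ^ 2 + f ^ 2) := by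
    intro a b c d e f
    have : s * (a ^ 2 + b ^ 2 + c ^ 2 + d ^ 2 + e ^ 2 + f ^ 2)
        - 2 * (a * b + b * c + c * d + d * e + e * f - f * a)
        = s / 6 * ((s * a - b + f) ^ 2 + (s * b - a - c) ^ 2 + (s * c - b - d) ^ 2
          + (s * d - c - e) ^ 2 + (s * e - d - f) ^ 2 + (s * f - e + a) ^ 2
          + (a - c + e) ^ 2 + (b - d + f) ^ 2) := by
      linear_combination (-(s / 6 * (a ^ 2 + b ^ 2 + c ^ 2 + d ^ 2 + e ^ 2 + f ^ 2)
        - 2 * (a * b + b * c + c * d + d * e + e * f - f * a) / 3)) * hs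
    have h2 : 0 ≤ s / 6 * ((s * a - b + f) ^ 2 + (s * b - a - c) ^ 2 + (s * c - b - d) ^ 2
          + (s * d - c - e) ^ 2 + (s * e - d - f) ^ 2 + (s * f - e + a) ^ 2
          + (a - c + e) ^ 2 + (b - d + f) ^ 2) := by positivity
    linarith
  have ev : ∀ a b c d e f : ℝ, 2 * (a * b + b * c + c * d + d * e + e * f + f * a)
      - s * (a ^ 2 + b ^ 2 + c ^ 2 + d ^ 2 + e ^ 2 + f ^ 2)
      ≤ (2 - s) / 6 * (a + b + c + d + e + f) ^ 2 := by
    intro a b c d e f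
    have v1 : 0 ≤ (a ^ 2 + b ^ 2 + c ^ 2 + d ^ 2 + e ^ 2 + f ^ 2) - (a + b + c + d + e + f) ^ 2 / 6 := by
      nlinarith [sq_nonneg (a - b), sq_nonneg (a - c), sq_nonneg (a - d), sq_nonneg (a - e),
        sq_nonneg (a - f), sq_nonneg (b - c), sq_nonneg (b - d), sq_nonneg (b - e),
        sq_nonneg (b - f), sq_nonneg (c - d), sq_nonneg (c - e), sq_nonneg (c - f),
        sq_nonneg (d - e), sq_nonneg (d - f), sq_nonneg (e - f)]
    have v2 : 2 * (a * b + b * c + c * d + d * e + e * f + f * a) ≤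
        (a ^ 2 + b ^ 2 + c ^ 2 + d ^ 2 + e ^ 2 + f ^ 2) + (a + b + c + d + e + f) ^ 2 / 6 := by
      nlinarith [sq_nonneg (a - b + c - d + e - f), sq_nonneg (a + d - b - e),
        sq_nonneg (a + d - c - f), sq_nonneg (b + e - c - f)]
    nlinarith [mul_nonneg (sub_nonneg.2 h1) v1]
  have a1 := odd (H0 - H6) (H1 - H7) (H2 - H8) (H3 - H9) (H4 - H10) (H5 - H11)
  have a2 := ev (H0 + H6) (H1 + H7) (H2 + H8) (H3 + H9) (H4 + H10) (H5 + H11)
  linarith

/-- area bound for a twelve-sided region -/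
lemma gon {H0 H1 H2 H3 H4 H5 H6 H7 H8 H9 H10 H11 : ℝ}
    (h1 : √3 * H1 ≤ H0 + H2) (h2 : √3 * H2 ≤ H1 + H3)
    (h3 : √3 * H3 ≤ H2 + H4) (h4 : √3 * H4 ≤ H3 + H5) (h5 : √3 * H5 ≤ H4 + H6)
    (h7 : √3 * H7 ≤ H8 + H6) (h8 : √3 * H8 ≤ H9 + H7) (h9 : √3 * H9 ≤ H10 + H8)
    (h10 : √3 * H10 ≤ H11 + H9) (h11 : √3 * H11 ≤ H0 + H10)
    (hm : ∀ x ∈ Icc (-H6) H0, -up H11 H10 H9 H8 H7 x ≤ up H1 H2 H3 H4 H5 x) :
    volume (regionBetween (fun x => -up H11 H10 H9 H8 H7 x) (up H1 H2 H3 H4 H5) (Icc (-H6) H0))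
      ≤ ENNReal.ofReal ((2 - √3) / 12 *
        (H0 + H1 + H2 + H3 + H4 + H5 + H6 + H7 + H8 + H9 + H10 + H11) ^ 2) := by
  have c1 := up_cont H1 H2 H3 H4 H5
  have c2 := up_cont H11 H10 H9 H8 H7
  obtain ⟨l, a1⟩ := chain h1 h2 h3 h4 h5
  obtain ⟨-, a2⟩ := chain h11 h10 h9 h8 h7
  rw [Measure.volume_eq_prod, volume_regionBetween_eq_integral
    (f := fun x => -up H11 H10 H9 H8 H7 x) c2.neg.integrableOn_Icc
    c1.integrableOn_Icc measurableSet_Icc hm]
  refine ENNReal.ofReal_le_ofReal ?_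
  rw [integral_Icc_eq_integral_Ioc, ← intervalIntegral.integral_of_le l]
  simp only [Pi.sub_apply, sub_neg_eq_add]
  rw [intervalIntegral.integral_add (c1.intervalIntegrable _ _) (c2.intervalIntegrable _ _)]
  exact (add_le_add a1 a2).trans (sos _ _ _ _ _ _ _ _ _ _ _ _ _ s3 (by linarith [s3a]))

def Lat {n : ℕ} (X Y : Fin n → ℝ) : Prop := ∀ i, ∃ a b : ℤ, X i = 2 * a + b ∧ Y i = √3 * b

lemma cnt {n : ℕ} {X Y : Fin n → ℝ} (hL : Lat X Y) (hS : Sep X Y) {S : Set (ℝ × ℝ)}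
    (h : ∀ i x y, |x - X i| < 1 → |y - Y i| < √3 / 2 → (x, y) ∈ S) :
    ENNReal.ofReal (n * (2 * √3)) ≤ volume S := by
  have h0 := s3a
  let c : Fin n → Set (ℝ × ℝ) := fun i =>
    Ioo (X i - 1) (X i + 1) ×ˢ Ioo (Y i - √3 / 2) (Y i + √3 / 2)
  have hv : ∀ i, volume (c i) = ENNReal.ofReal (2 * √3) := fun i => by
    simp only [c, Measure.volume_eq_prod, Measure.prod_prod, Real.volume_Ioo]
    rw [← ENNReal.ofReal_mul (by linarith)]; congr 1; ring
  have hd : Pairwise (Function.onFun Disjoint c) := by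
    intro i k hik
    refine Set.disjoint_left.2 ?_
    rintro ⟨x, y⟩ ⟨⟨a1, a2⟩, a3, a4⟩ ⟨⟨b1, b2⟩, b3, b4⟩
    obtain ⟨a, b, e1, e2⟩ := hL i
    obtain ⟨a', b', e3, e4⟩ := hL k
    have hh := hS i k hik
    simp only at a1 a2 a3 a4 b1 b2 b3 b4
    have t1 : (b:ℝ) < b' + 1 := by
      by_contra hc; push Not at hc; nlinarith
    have t2 : (b':ℝ) < b + 1 := by
      by_contra hc; push Not at hc; nlinarith
    have hb : b = b' := by
      have t1' : b < b' + 1 := by exact_mod_cast t1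
      have t2' : b' < b + 1 := by exact_mod_cast t2
      omega
    subst hb
    have t3 : (a:ℝ) < a' + 1 := by linarith
    have t4 : (a':ℝ) < a + 1 := by linarith
    have ha : a = a' := by
      have t1' : a < a' + 1 := by exact_mod_cast t3
      have t2' : a' < a + 1 := by exact_mod_cast t4
      omega
    subst ha
    rw [e1, e2, e3, e4] at hh; norm_num at hh
  calc ENNReal.ofReal (n * (2 * √3)) = ∑' i, volume (c i) := by
        simp only [hv, tsum_fintype, Finset.sum_const, Finset.card_univ, Fintype.card_fin,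
          nsmul_eq_mul]
        rw [ENNReal.ofReal_mul (p := n) (by positivity), ENNReal.ofReal_natCast]
    _ = volume (⋃ i, c i) :=
        (measure_iUnion hd fun i => measurableSet_Ioo.prod measurableSet_Ioo).symm
    _ ≤ volume S := by
        refine measure_mono (iUnion_subset fun i => ?_)
        rintro ⟨x, y⟩ ⟨⟨a1, a2⟩, a3, a4⟩
        exact h i x y (abs_lt.2 ⟨by linarith, by linarith⟩) (abs_lt.2 ⟨by linarith, by linarith⟩)

/-- the lattice points of a disc -/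
lemma disc (R : ℕ) (hR : 2 ≤ R) : ∃ (n : ℕ) (X Y : Fin n → ℝ), Sep X Y ∧
    (∀ i, X i ^ 2 + Y i ^ 2 ≤ (R:ℝ) ^ 2) ∧ π * ((R:ℝ) - 2) ^ 2 ≤ n * (2 * √3) := by
  classical
  have h0 := s3a
  have hs := s3
  let L : Finset (ℤ × ℤ) := ((Finset.Icc (-(R:ℤ)) R) ×ˢ (Finset.Icc (-(R:ℤ)) R)).filter
    fun p => (2 * p.1 + p.2) ^ 2 + 3 * p.2 ^ 2 ≤ (R:ℤ) ^ 2
  let e := L.equivFin.symm
  refine ⟨L.card, fun i => 2 * ((e i).1.1 : ℝ) + (e i).1.2, fun i => √3 * (e i).1.2, ?_, ?_, ?_⟩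
  · intro i k hik
    have hne : (e i).1 ≠ (e k).1 := fun h => hik (e.injective (Subtype.ext h))
    set a := (e i).1.1; set b := (e i).1.2; set a' := (e k).1.1; set b' := (e k).1.2
    have h1 : a - a' ≠ 0 ∨ b - b' ≠ 0 := by
      by_contra hc; push Not at hc
      exact hne (Prod.ext (by omega) (by omega))
    have h2 : (1:ℤ) ≤ (a - a') ^ 2 + (a - a') * (b - b') + (b - b') ^ 2 := by
      have : 0 < (a - a') ^ 2 + (a - a') * (b - b') + (b - b') ^ 2 := by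
        rcases h1 with h | h
        · nlinarith [sq_pos_of_ne_zero h, sq_nonneg ((a - a') + 2 * (b - b'))]
        · nlinarith [sq_pos_of_ne_zero h, sq_nonneg (2 * (a - a') + (b - b'))]
      omega
    have h3 : (1:ℝ) ≤ (a - a') ^ 2 + (a - a') * (b - b') + (b - b') ^ 2 := by exact_mod_cast h2
    simp only
    nlinarith
  · intro i
    have := (Finset.mem_filter.1 (e i).2).2
    have h3 : (2 * ((e i).1.1:ℝ) + (e i).1.2) ^ 2 + 3 * ((e i).1.2:ℝ) ^ 2 ≤ (R:ℝ) ^ 2 := by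
      exact_mod_cast this
    simp only
    nlinarith
  · have hR' : (2:ℝ) ≤ R := by exact_mod_cast hR
    let c : ℤ × ℤ → Set (ℝ × ℝ) := fun p =>
      Icc (2 * (p.1:ℝ) + p.2 - 1) (2 * p.1 + p.2 + 1) ×ˢ Icc (√3 * p.2 - √3 / 2) (√3 * p.2 + √3 / 2)
    have hv : ∀ p, volume (c p) = ENNReal.ofReal (2 * √3) := fun p => by
      simp only [c, Measure.volume_eq_prod, Measure.prod_prod, Real.volume_Icc]
      rw [← ENNReal.ofReal_mul (by linarith)]; congr 1; ring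
    have hsub : dk 0 0 (R - 2) ⊆ ⋃ p ∈ L, c p := by
      rintro ⟨x, y⟩ hz
      simp only [dk, mem_ofPred_eq, sub_zero] at hz
      set b := round (y / √3)
      set a := round ((x - b) / 2)
      have hb := abs_le.1 (abs_sub_round (y / √3))
      have ha := abs_le.1 (abs_sub_round ((x - b) / 2))
      have hy : y = √3 * (y / √3) := by field_simp
      have b1 : √3 * b - √3 / 2 ≤ y := by rw [hy]; nlinarith
      have b2 : y ≤ √3 * b + √3 / 2 := by rw [hy]; nlinarith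
      have a1 : 2 * (a:ℝ) + b - 1 ≤ x := by linarith
      have a2 : x ≤ 2 * (a:ℝ) + b + 1 := by linarith
      have u1 : (2 * (a:ℝ) + b - x) ^ 2 ≤ 1 ^ 2 := sq_le_sq' (by linarith) (by linarith)
      have u2 : (√3 * b - y) ^ 2 ≤ (√3 / 2) ^ 2 := sq_le_sq' (by linarith) (by linarith)
      have u3 : x * (2 * (a:ℝ) + b - x) + y * (√3 * b - y) ≤ 2 * (R - 2) := by
        refine (abs_le_of_sq_le_sq' ?_ (by linarith)).2
        have : (x * (2 * (a:ℝ) + b - x) + y * (√3 * b - y)) ^ 2 ≤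
            (x ^ 2 + y ^ 2) * ((2 * (a:ℝ) + b - x) ^ 2 + (√3 * b - y) ^ 2) := by
          nlinarith [sq_nonneg (x * (√3 * b - y) - y * (2 * (a:ℝ) + b - x))]
        have h4 : (x ^ 2 + y ^ 2) * ((2 * (a:ℝ) + b - x) ^ 2 + (√3 * b - y) ^ 2)
            ≤ ((R:ℝ) - 2) ^ 2 * 4 := mul_le_mul hz (by nlinarith) (by positivity) (by positivity)
        nlinarith
      have w : (2 * (a:ℝ) + b) ^ 2 + 3 * (b:ℝ) ^ 2 ≤ (R:ℝ) ^ 2 := by nlinarith
      have w' : (2 * a + b) ^ 2 + 3 * b ^ 2 ≤ (R:ℤ) ^ 2 := by exact_mod_cast w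
      have hR0 : (0:ℤ) ≤ R := by positivity
      have wb := abs_le_of_sq_le_sq' (show b ^ 2 ≤ (R:ℤ) ^ 2 by nlinarith [sq_nonneg (2 * a + b)]) hR0
      have wa := abs_le_of_sq_le_sq' (show a ^ 2 ≤ (R:ℤ) ^ 2 by nlinarith [sq_nonneg (a + 2 * b)]) hR0
      refine mem_biUnion (x := (a, b)) ?_ ⟨⟨a1, a2⟩, b1, b2⟩
      simp only [L, Finset.coe_filter, Finset.mem_product, Finset.mem_Icc, mem_ofPred_eq]
      exact ⟨⟨wa, wb⟩, w'⟩
    have := (measure_mono hsub).trans (measure_biUnion_finset_le (μ := volume) L c)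
    rw [dk_vol _ _ (by linarith)] at this
    simp only [hv, Finset.sum_const, nsmul_eq_mul] at this
    rw [← ENNReal.ofReal_natCast, ← ENNReal.ofReal_mul (by positivity)] at this
    exact (ENNReal.ofReal_le_ofReal_iff (by positivity)).1 this

end Pool.Agent.H1.Hx
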