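import Pool.Agent.H1.HxB

set_option autoImplicit false
open MeasureTheory Set Real

namespace Pool.Agent.H1.Hx

lemma crs {a1 a2 b1 b2 K : ℝ} (hK : 0 ≤ K) (ha : a1 ^ 2 + a2 ^ 2 ≤ K ^ 2)
    (hb : b1 ^ 2 + b2 ^ 2 ≤ K ^ 2) : a1 * b2 - a2 * b1 ≤ K ^ 2 := by
  nlinarith [sq_nonneg (a1 - b2), sq_nonneg (a2 + b1)]

lemma tri {a1 a2 b1 b2 m1 m2 w1 w2 K ε : ℝ} (hK : 1 ≤ K) (hε : 0 < ε) (hKε : 4 * K ^ 3 * ε < 1)
    (ha : a1 ^ 2 + a2 ^ 2 ≤ K ^ 2) (hb : b1 ^ 2 + b2 ^ 2 ≤ K ^ 2) (hm : m1 ^ 2 + m2 ^ 2 ≤ K ^ 2)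
    (c1 : 1 ≤ b1 * m2 - b2 * m1) (c2 : 1 ≤ m1 * a2 - m2 * a1) (c3 : 1 ≤ a1 * b2 - a2 * b1)
    (hw : w1 ^ 2 + w2 ^ 2 = 1) :
    ε ≤ a1 * w1 + a2 * w2 ∨ ε ≤ b1 * w1 + b2 * w2 ∨ ε ≤ m1 * w1 + m2 * w2 := by
  by_contra hc
  push Not at hc
  obtain ⟨h1, h2, h3⟩ := hc
  have K0 : 0 ≤ K := by linarith
  have d1 := crs K0 hb hm
  have d2 := crs K0 hm ha
  have d3 := crs K0 ha hb
  have id : (b1 * m2 - b2 * m1) * (a1 * w1 + a2 * w2) + (m1 * a2 - m2 * a1) * (b1 * w1 + b2 * w2)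
      + (a1 * b2 - a2 * b1) * (m1 * w1 + m2 * w2) = 0 := by ring
  have id2 : (a1 * b2 - a2 * b1) ^ 2 = ((a1 * w1 + a2 * w2) * b1 - (b1 * w1 + b2 * w2) * a1) ^ 2
      + ((a1 * w1 + a2 * w2) * b2 - (b1 * w1 + b2 * w2) * a2) ^ 2 := by
    linear_combination -(a1 * b2 - a2 * b1) ^ 2 * hw
  generalize a1 * w1 + a2 * w2 = α at *
  generalize b1 * w1 + b2 * w2 = β at *
  generalize m1 * w1 + m2 * w2 = μ at *
  have K2 : 1 ≤ K ^ 2 := by nlinarith
  have up : ∀ c x : ℝ, 1 ≤ c → c ≤ K ^ 2 → x < ε → c * x ≤ K ^ 2 * ε := fun c x h h' hx => by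
    nlinarith
  have lo : ∀ c x : ℝ, 1 ≤ c → -(2 * K ^ 2 * ε) ≤ c * x → -(2 * K ^ 2 * ε) ≤ x := fun c x h hx => by
    by_contra hc; push Not at hc
    have : 0 < K ^ 2 * ε := by positivity
    nlinarith
  have u1 := up _ _ c1 d1 h1
  have u2 := up _ _ c2 d2 h2
  have u3 := up _ _ c3 d3 h3
  have l1 := lo _ α c1 (by linarith)
  have l2 := lo _ β c2 (by linarith)
  have e0 : ε ≤ 2 * K ^ 2 * ε := by nlinarith
  have s1 : α ^ 2 ≤ (2 * K ^ 2 * ε) ^ 2 := sq_le_sq' l1 (by linarith)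
  have s2 : β ^ 2 ≤ (2 * K ^ 2 * ε) ^ 2 := sq_le_sq' l2 (by linarith)
  have t1 : α ^ 2 * (b1 ^ 2 + b2 ^ 2) ≤ (2 * K ^ 2 * ε) ^ 2 * K ^ 2 :=
    mul_le_mul s1 hb (by positivity) (by positivity)
  have t2 : β ^ 2 * (a1 ^ 2 + a2 ^ 2) ≤ (2 * K ^ 2 * ε) ^ 2 * K ^ 2 :=
    mul_le_mul s2 ha (by positivity) (by positivity)
  have t3 : (a1 * b2 - a2 * b1) ^ 2 ≤ (4 * K ^ 3 * ε) ^ 2 := by
    nlinarith [sq_nonneg (α * b1 + β * a1), sq_nonneg (α * b2 + β * a2)]
  have t4 : 0 < 4 * K ^ 3 * ε := by positivity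
  nlinarith

def Hyp {n : ℕ} (X Y : Fin n → ℝ) : Prop :=
  ∀ (i0 : Fin n) (z1 z2 : ℝ),
    (∀ w1 w2 : ℝ, w1 ^ 2 + w2 ^ 2 = 1 → ∃ i, 1 / 10 ^ 16 ≤ (X i - z1) * w1 + (Y i - z2) * w2) →
    (∀ i, (X i - z1) ^ 2 + (Y i - z2) ^ 2 ≤ 40000 ^ 2) →
    (∀ i, i ≠ i0 → 4 ≤ (X i - z1) ^ 2 + (Y i - z2) ^ 2) →
    ∀ i, i ≠ i0 → ∃ m : ℤ, (X i - z1) ^ 2 + (Y i - z2) ^ 2 = 4 * m

structure Rig {n : ℕ} (X Y : Fin n → ℝ) : Prop where
  lat : Lat X Y
  sep : Sep X Y
  dia : ∀ i k, (X i - X k) ^ 2 + (Y i - Y k) ^ 2 ≤ 31600 ^ 2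
  hyp : Hyp X Y
  big : π * 9998 ^ 2 ≤ n * (2 * √3)

lemma move {n : ℕ} {X Y : Fin n → ℝ} (h : Rig X Y) (z1 z2 : ℝ) (p q : Fin n → ℤ)
    (hx : ∀ i, X i - z1 = 2 * p i + q i) (hy : ∀ i, Y i - z2 = √3 * q i)
    (hn : ∀ i, q i = 1 → p i ≠ 0 ∧ p i ≠ -1)
    (hb : ∀ i, (X i - z1) ^ 2 + (Y i - z2) ^ 2 ≤ 32000 ^ 2) (A B M : Fin n)
    (c1 : 1 ≤ p B * q M - q B * p M) (c2 : 1 ≤ p M * q A - q M * p A)
    (c3 : 1 ≤ p A * q B - q A * p B) : False := by
  have hs := s3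
  have ha := s3a
  have hs' := s3b
  have hAB : A ≠ B := by rintro rfl; linarith [mul_comm (p A) (q A)]
  obtain ⟨i0, hi0⟩ : ∃ i0, ∀ i, i ≠ i0 → p i ≠ 0 ∨ q i ≠ 0 := by
    by_cases hz : ∃ i0, p i0 = 0 ∧ q i0 = 0
    · obtain ⟨i0, h1, h2⟩ := hz
      refine ⟨i0, fun i hi => ?_⟩
      by_contra hc; push Not at hc
      have := h.sep i i0 hi
      have e1 : X i - X i0 = 0 := by
        have := hx i; have := hx i0; simp only [h1, h2, hc.1, hc.2] at *; push_cast at *; linarith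
      have e2 : Y i - Y i0 = 0 := by
        have := hy i; have := hy i0; simp only [h1, h2, hc.1, hc.2] at *; push_cast at *; linarith
      rw [e1, e2] at this; norm_num at this
    · push Not at hz
      exact ⟨A, fun i _ => by by_contra hc; push Not at hc; exact hz i hc.1 hc.2⟩
  obtain ⟨t, ht⟩ : ∃ t : ℝ, t = 1 / 10 ^ 16 := ⟨_, rfl⟩
  have hd : ∀ i, (X i - z1) ^ 2 + (Y i - (z2 + t)) ^ 2
      = 4 * ((p i ^ 2 + p i * q i + q i ^ 2 : ℤ) : ℝ) - 2 * (√3 * q i) * t + t ^ 2 := fun i => by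
    have : Y i - (z2 + t) = √3 * q i - t := by linarith [hy i]
    rw [this, hx i]; push_cast; linear_combination (q i : ℝ) ^ 2 * hs
  have hq : ∀ i, -32000 ≤ √3 * q i ∧ √3 * q i ≤ 32000 := fun i => by
    rw [← hy i]
    exact abs_le_of_sq_le_sq' (by nlinarith [hb i, sq_nonneg (X i - z1)]) (by norm_num)
  have cr : ∀ i k, 1 ≤ p i * q k - q i * p k →
      1 ≤ (X i - z1) * (Y k - z2) - (Y i - z2) * (X k - z1) := fun i k hh => by
    have : (1:ℝ) ≤ p i * q k - q i * p k := by exact_mod_cast hh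
    rw [hx, hx, hy, hy]; nlinarith
  have main := h.hyp i0 z1 (z2 + t) (fun w1 w2 hw => by
      have hw2 : w2 ≤ 1 := by nlinarith [sq_nonneg w1, sq_nonneg (w2 - 1)]
      have := tri (K := 32000) (ε := 2 * t) (by norm_num) (by rw [ht]; norm_num)
        (by rw [ht]; norm_num) (hb A) (hb B) (hb M) (cr _ _ c1) (cr _ _ c2) (cr _ _ c3) hw
      have t0 : 0 < t := by rw [ht]; norm_num
      have t1 : t * w2 ≤ t := by nlinarith
      rcases this with h1 | h1 | h1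
      exacts [⟨A, by linarith⟩, ⟨B, by linarith⟩, ⟨M, by linarith⟩])
    (fun i => by
      have := hb i; have := hq i; rw [← hy i] at this
      rw [ht]; nlinarith)
    (fun i hi => by
      rw [hd]
      have h1 : 1 ≤ p i ^ 2 + p i * q i + q i ^ 2 := by
        have : 0 < p i ^ 2 + p i * q i + q i ^ 2 := by
          rcases hi0 i hi with h | h
          · nlinarith [sq_pos_of_ne_zero h, sq_nonneg (p i + 2 * q i)]
          · nlinarith [sq_pos_of_ne_zero h, sq_nonneg (2 * p i + q i)]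
        omega
      rcases le_or_gt (q i) 0 with h0 | h0
      · have h1' : (1:ℝ) ≤ ((p i ^ 2 + p i * q i + q i ^ 2 : ℤ) : ℝ) := by exact_mod_cast h1
        have h0' : (q i : ℝ) ≤ 0 := by exact_mod_cast h0
        have : √3 * q i ≤ 0 := by nlinarith
        rw [ht]; nlinarith
      · have h2 : 2 ≤ p i ^ 2 + p i * q i + q i ^ 2 := by
          rcases eq_or_lt_of_le (show 1 ≤ q i by omega) with h3 | h3
          · obtain ⟨n1, n2⟩ := hn i h3.symm
            rw [← h3]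
            rcases lt_or_gt_of_ne n1 with h4 | h4
            · have : p i ≤ -2 := by omega
              nlinarith
            · nlinarith
          · nlinarith [sq_nonneg (2 * p i + q i)]
        have h2' : (2:ℝ) ≤ ((p i ^ 2 + p i * q i + q i ^ 2 : ℤ) : ℝ) := by exact_mod_cast h2
        have := hq i
        rw [ht]; nlinarith)
  obtain ⟨j, hj⟩ : ∃ j, j ≠ i0 := by
    by_cases hA : A = i0
    · exact ⟨B, fun hB => hAB (hA.trans hB.symm)⟩
    · exact ⟨A, hA⟩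
  obtain ⟨m, hm⟩ := main j hj
  rw [hd] at hm
  obtain ⟨q1, q2⟩ := hq j
  set N := p j ^ 2 + p j * q j + q j ^ 2
  have b1 : (m:ℝ) < N + 1 := by rw [ht] at hm; nlinarith
  have b2 : (N:ℝ) < m + 1 := by rw [ht] at hm; nlinarith
  have : m = N := by
    have t1 : m < N + 1 := by exact_mod_cast b1
    have t2 : N < m + 1 := by exact_mod_cast b2
    omega
  rw [this] at hm
  rcases le_or_gt (q j) 0 with h0 | h0
  · have h0' : (q j : ℝ) ≤ 0 := by exact_mod_cast h0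
    have : √3 * q j ≤ 0 := by nlinarith
    rw [ht] at hm; nlinarith
  · have h0' : (1:ℝ) ≤ q j := by exact_mod_cast h0
    have : 1 ≤ √3 * q j := by nlinarith
    rw [ht] at hm; nlinarith

lemma thin {n : ℕ} {X Y : Fin n → ℝ} (h : Rig X Y) (s : Fin n)
    (h1 : ∀ i, (Y i - Y s) + (-(X i - X s) / 2 + √3 / 2 * (Y i - Y s)) ≤ 0)
    (h2 : ∀ i, -2 ≤ Y i - Y s ∨ -2 ≤ -(X i - X s) / 2 + √3 / 2 * (Y i - Y s)) : False := by
  have hs := s3
  have ha := s3a
  have hb := s3b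
  obtain ⟨k, -, hk⟩ := Finset.exists_min_image Finset.univ X ⟨s, Finset.mem_univ _⟩
  have hx : ∀ i j, -31600 ≤ X i - X j ∧ X i - X j ≤ 31600 := fun i j =>
    abs_le_of_sq_le_sq' (by nlinarith [h.dia i j, sq_nonneg (Y i - Y j)]) (by norm_num)
  have hc := cnt h.lat h.sep (S := regionBetween (fun x => Y s + (2 - √3) * (x - X s) - 9799)
    (fun x => Y s + (2 - √3) * (x - X s) - 9799 + 9801) (Icc (X k - 1) (X k + 31601)))
    fun i x y hx1 hy1 => by
      obtain ⟨a1, a2⟩ := abs_lt.1 hx1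
      obtain ⟨a3, a4⟩ := abs_lt.1 hy1
      have m1 := hk i (Finset.mem_univ _)
      obtain ⟨-, m2⟩ := hx i k
      obtain ⟨m3, m4⟩ := hx i s
      have u := h1 i
      have l := h2 i
      simp only [regionBetween, mem_ofPred_eq, mem_Icc, mem_Ioo]
      generalize hu : X i - X s = u1 at *
      generalize hv : Y i - Y s = v1 at *
      have e1 : v1 ≤ (2 - √3) * u1 := by
        have := mul_le_mul_of_nonneg_left u (show 0 ≤ 2 * (2 - √3) by linarith)
        have e : 2 * (2 - √3) * (v1 + (-u1 / 2 + √3 / 2 * v1)) = v1 - (2 - √3) * u1 := by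
          linear_combination -v1 * hs
        linarith
      have e2 : (2 - √3) * u1 - 9797 ≤ v1 := by
        rcases l with l | l
        · nlinarith
        · have := mul_le_mul_of_nonneg_left l (show 0 ≤ 2 * √3 / 3 by linarith)
          have e : 2 * √3 / 3 * (-u1 / 2 + √3 / 2 * v1) = v1 - √3 / 3 * u1 := by
            linear_combination v1 / 3 * hs
          nlinarith
      have e3 : x - X s = u1 + (x - X i) := by linarith
      refine ⟨⟨by linarith, by linarith⟩, ?_, ?_⟩ <;> rw [e3] <;> nlinarith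
  rw [strip_vol _ (by fun_prop) (by linarith) (by norm_num),
    ENNReal.ofReal_le_ofReal_iff (by linarith)] at hc
  have := h.big
  nlinarith [pi_gt_d2]

lemma ext1 {n : ℕ} {X Y : Fin n → ℝ} (h : Rig X Y) (i0 : Fin n) :
    ∃ s, ∀ i, Y i ≤ Y s ∧ -X i / 2 + √3 / 2 * Y i ≤ -X s / 2 + √3 / 2 * Y s := by
  have hs := s3
  have ha := s3a
  have hb := s3b
  obtain ⟨s, -, hmax⟩ := Finset.exists_max_image Finset.univ
    (fun i => Y i + (-X i / 2 + √3 / 2 * Y i)) ⟨i0, Finset.mem_univ _⟩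
  refine ⟨s, ?_⟩
  by_contra hc
  have h1 : ∀ i, (Y i - Y s) + (-(X i - X s) / 2 + √3 / 2 * (Y i - Y s)) ≤ 0 := fun i => by
    have := hmax i (Finset.mem_univ _); linarith
  refine thin h s h1 ?_
  by_contra hc2
  push Not at hc2
  obtain ⟨M, hM1, hM2⟩ := hc2
  choose a0 b0 hX hY using h.lat
  set a : Fin n → ℤ := fun i => a0 i - a0 s with hadef
  set b : Fin n → ℤ := fun i => b0 i - b0 s with hbdef
  have eX : ∀ i, X i - X s = 2 * a i + b i := fun i => by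
    rw [hX i, hX s]; simp only [hadef, hbdef]; push_cast; ring
  have eY : ∀ i, Y i - Y s = √3 * b i := fun i => by
    rw [hY i, hY s]; simp only [hbdef]; push_cast; ring
  have as : a s = 0 := by simp [hadef]
  have bs : b s = 0 := by simp [hbdef]
  have eZ : ∀ i, -(X i - X s) / 2 + √3 / 2 * (Y i - Y s) = b i - a i := fun i => by
    rw [eX, eY]; linear_combination (b i : ℝ) / 2 * hs
  have g : ∀ i, √3 * b i + (b i - a i) ≤ 0 := fun i => by
    have := h1 i; rwa [eZ, eY] at this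
  rw [eY] at hM1; rw [eZ] at hM2
  have M1 : b M ≤ -2 := by
    have : (b M : ℝ) < -1 := by nlinarith
    have : b M < -1 := by exact_mod_cast this
    omega
  have M2 : b M - a M ≤ -3 := by
    have : b M - a M < -2 := by exact_mod_cast hM2
    omega
  have hnear : ∀ z1 z2 : ℝ, (X s - z1) ^ 2 + (Y s - z2) ^ 2 ≤ 4 ^ 2 →
      ∀ i, (X i - z1) ^ 2 + (Y i - z2) ^ 2 ≤ 32000 ^ 2 := fun z1 z2 hz i => by
    have := h.dia i s
    nlinarith [sq_nonneg ((X i - X s) - 7900 * (X s - z1)),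
      sq_nonneg ((Y i - Y s) - 7900 * (Y s - z2))]
  obtain ⟨B, hB⟩ : ∃ B, 1 ≤ b B ∨ 1 ≤ b B - a B := by
    by_contra hn
    push Not at hn
    refine hc fun i => ?_
    obtain ⟨n1, n2⟩ := hn i
    have n1' : (b i : ℝ) ≤ 0 := by exact_mod_cast (show b i ≤ 0 by omega)
    have n2' : (b i : ℝ) - a i ≤ 0 := by exact_mod_cast (show b i - a i ≤ 0 by omega)
    have := eY i; have := eZ i
    constructor <;> nlinarith
  rcases hB with hB | hB
  · have hB' : (1:ℝ) ≤ b B := by exact_mod_cast hB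
    have hB2 : b B + 1 ≤ a B := by
      have : (b B : ℝ) < a B := by nlinarith [g B]
      have : b B < a B := by exact_mod_cast this
      omega
    refine move h (X s + 2) (Y s) (fun i => a i - 1) b (fun i => by push_cast; linarith [eX i]) eY
      (fun i hi => ?_) (hnear _ _ (by norm_num)) s M B ?_ ?_ ?_
    · have := g i
      rw [hi] at this
      have : (1:ℝ) < a i := by push_cast at this; linarith
      have : 1 < a i := by exact_mod_cast this
      omega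
    · nlinarith
    · rw [as, bs]; linarith
    · rw [as, bs]; linarith
  · have hB' : (1:ℝ) ≤ b B - a B := by exact_mod_cast hB
    have hB2 : b B ≤ -1 := by
      have : (b B : ℝ) < 0 := by nlinarith [g B]
      have : b B < 0 := by exact_mod_cast this
      omega
    refine move h (X s - 3) (Y s - √3) (fun i => a i + 1) (fun i => b i + 1)
      (fun i => by push_cast; linarith [eX i]) (fun i => by push_cast; linarith [eY i])
      (fun i hi => ?_) (hnear _ _ (by nlinarith)) s B M ?_ ?_ ?_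
    · have := g i
      have hi' : b i = 0 := by omega
      rw [hi'] at this
      have : (0:ℝ) ≤ a i := by push_cast at this; linarith
      have : 0 ≤ a i := by exact_mod_cast this
      omega
    · nlinarith
    · rw [as, bs]; linarith
    · rw [as, bs]; linarith

lemma map0 {n : ℕ} {X Y : Fin n → ℝ} (hsep : Sep X Y)
    (hdia : ∀ i k, (X i - X k) ^ 2 + (Y i - Y k) ^ 2 ≤ 31600 ^ 2) (hhyp : Hyp X Y)
    (hbig : π * 9998 ^ 2 ≤ n * (2 * √3)) (a b c d : ℝ) (h1 : a ^ 2 + c ^ 2 = 1)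
    (h2 : b ^ 2 + d ^ 2 = 1) (h3 : a * b + c * d = 0) (h4 : a ^ 2 + b ^ 2 = 1)
    (h5 : c ^ 2 + d ^ 2 = 1) (h6 : a * c + b * d = 0)
    (hL : Lat (fun i => a * X i + b * Y i) (fun i => c * X i + d * Y i)) :
    Rig (fun i => a * X i + b * Y i) (fun i => c * X i + d * Y i) := by
  have e : ∀ x y x' y' : ℝ, (a * x + b * y - (a * x' + b * y')) ^ 2 +
      (c * x + d * y - (c * x' + d * y')) ^ 2 = (x - x') ^ 2 + (y - y') ^ 2 := fun x y x' y' => by
    linear_combination (x - x') ^ 2 * h1 + (y - y') ^ 2 * h2 + 2 * (x - x') * (y - y') * h3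
  refine ⟨hL, fun i k hik => by simpa only [e] using hsep i k hik,
    fun i k => by simpa only [e] using hdia i k, fun i0 z1 z2 => ?_, hbig⟩
  obtain ⟨u, v, rfl, rfl⟩ : ∃ u v, z1 = a * u + b * v ∧ z2 = c * u + d * v :=
    ⟨a * z1 + c * z2, b * z1 + d * z2, by linear_combination -z1 * h4 - z2 * h6,
      by linear_combination -z1 * h6 - z2 * h5⟩
  simp only [e]
  intro k1
  refine hhyp i0 u v fun w1 w2 hw => ?_
  obtain ⟨i, hi⟩ := k1 (a * w1 + b * w2) (c * w1 + d * w2)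
    (by linear_combination w1 ^ 2 * h1 + w2 ^ 2 * h2 + 2 * w1 * w2 * h3 + hw)
  refine ⟨i, hi.trans (le_of_eq ?_)⟩
  linear_combination (X i - u) * w1 * h1 + (Y i - v) * w2 * h2
    + ((X i - u) * w2 + (Y i - v) * w1) * h3

end Pool.Agent.H1.Hx
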