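import Pool.Agent.H1.HxC

set_option autoImplicit false
open MeasureTheory Set Real

namespace Pool.Agent.H1.Hx

lemma four {n : ℕ} {X Y : Fin n → ℝ} (h : Rig X Y) (i0 : Fin n) :
    (∃ s, ∀ i, Y i ≤ Y s ∧ -X i / 2 + √3 / 2 * Y i ≤ -X s / 2 + √3 / 2 * Y s) ∧
    (∃ s, ∀ i, Y i ≤ Y s ∧ X i / 2 + √3 / 2 * Y i ≤ X s / 2 + √3 / 2 * Y s) ∧
    (∃ s, ∀ i, -Y i ≤ -Y s ∧ X i / 2 - √3 / 2 * Y i ≤ X s / 2 - √3 / 2 * Y s) ∧
    (∃ s, ∀ i, -Y i ≤ -Y s ∧ -X i / 2 - √3 / 2 * Y i ≤ -X s / 2 - √3 / 2 * Y s) := by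
  refine ⟨ext1 h i0, ?_, ?_, ?_⟩
  · obtain ⟨s, hs⟩ := ext1 (map0 h.sep h.dia h.hyp h.big (-1) 0 0 1 (by norm_num) (by norm_num)
      (by norm_num) (by norm_num) (by norm_num) (by norm_num) fun i => by
        obtain ⟨a, b, e1, e2⟩ := h.lat i
        exact ⟨-a - b, b, by simp only [e1, e2]; push_cast; ring, by simp only [e1, e2]; ring⟩) i0
    exact ⟨s, fun i => ⟨by linarith [(hs i).1], by linarith [(hs i).2]⟩⟩
  · obtain ⟨s, hs⟩ := ext1 (map0 h.sep h.dia h.hyp h.big (-1) 0 0 (-1) (by norm_num) (by norm_num)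
      (by norm_num) (by norm_num) (by norm_num) (by norm_num) fun i => by
        obtain ⟨a, b, e1, e2⟩ := h.lat i
        exact ⟨-a, -b, by simp only [e1, e2]; push_cast; ring,
          by simp only [e1, e2]; push_cast; ring⟩) i0
    exact ⟨s, fun i => ⟨by linarith [(hs i).1], by linarith [(hs i).2]⟩⟩
  · obtain ⟨s, hs⟩ := ext1 (map0 h.sep h.dia h.hyp h.big 1 0 0 (-1) (by norm_num) (by norm_num)
      (by norm_num) (by norm_num) (by norm_num) (by norm_num) fun i => by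
        obtain ⟨a, b, e1, e2⟩ := h.lat i
        exact ⟨a + b, -b, by simp only [e1, e2]; push_cast; ring,
          by simp only [e1, e2]; push_cast; ring⟩) i0
    exact ⟨s, fun i => ⟨by linarith [(hs i).1], by linarith [(hs i).2]⟩⟩

lemma ee (x : ℝ) : √3 * (√3 * x) = 3 * x := by linear_combination x * s3

lemma upl {H1 H2 H3 H4 H5 x y : ℝ} (c1 : √3 / 2 * x + y / 2 < H1) (c2 : x / 2 + √3 / 2 * y < H2)
    (c3 : y < H3) (c4 : -x / 2 + √3 / 2 * y < H4) (c5 : -(√3 / 2 * x) + y / 2 < H5) :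
    y < up H1 H2 H3 H4 H5 x := by
  have h0 : 0 < √3 := by positivity
  have := mul_lt_mul_of_pos_left c2 h0
  have := mul_lt_mul_of_pos_left c4 h0
  have := ee y
  exact lt_min (lt_min (lt_min (lt_min (by linarith) (by linarith)) c3) (by linarith)) (by linarith)

lemma cvx {l A B H : ℝ} (h0 : 0 ≤ l) (h1 : l ≤ 1) (hA : A < H) (hB : B < H) :
    (1 - l) * A + l * B < H := by
  rcases le_total A B with h | h <;> nlinarith

lemma tab : cos (th 0) = -1 ∧ sin (th 0) = 0 ∧ cos (th 1) = -(√3 / 2) ∧ sin (th 1) = -(1 / 2) ∧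
    cos (th 2) = -(1 / 2) ∧ sin (th 2) = -(√3 / 2) ∧ cos (th 3) = 0 ∧ sin (th 3) = -1 ∧
    cos (th 4) = 1 / 2 ∧ sin (th 4) = -(√3 / 2) ∧ cos (th 5) = √3 / 2 ∧ sin (th 5) = -(1 / 2) ∧
    cos (th 6) = 1 ∧ sin (th 6) = 0 ∧ cos (th 7) = √3 / 2 ∧ sin (th 7) = 1 / 2 ∧
    cos (th 8) = 1 / 2 ∧ sin (th 8) = √3 / 2 ∧ cos (th 9) = 0 ∧ sin (th 9) = 1 ∧
    cos (th 10) = -(1 / 2) ∧ sin (th 10) = √3 / 2 ∧ cos (th 11) = -(√3 / 2) ∧ sin (th 11) = 1 / 2 ∧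
    cos (th 12) = -1 ∧ sin (th 12) = 0 := by
  have hm : ∀ j, th (j + 1) = th j + π / 6 := fun j => by simp only [th]; push_cast; ring
  have st : ∀ j : ℕ, ∀ c s c' s' : ℝ, cos (th j) = c ∧ sin (th j) = s →
      c' = c * (√3 / 2) - s * (1 / 2) → s' = s * (√3 / 2) + c * (1 / 2) →
      cos (th (j + 1)) = c' ∧ sin (th (j + 1)) = s' := by
    rintro j c s c' s' ⟨rfl, rfl⟩ rfl rfl
    rw [hm, cos_add, sin_add, cos_pi_div_six, sin_pi_div_six]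
    exact ⟨rfl, rfl⟩
  have e := ee 1
  have t0 : cos (th 0) = -1 ∧ sin (th 0) = 0 := by simp [th]
  have t1 := st 0 _ _ (-(√3 / 2)) (-(1 / 2)) t0 (by linarith) (by linarith)
  have t2 := st 1 _ _ (-(1 / 2)) (-(√3 / 2)) t1 (by linarith) (by linarith)
  have t3 := st 2 _ _ 0 (-1) t2 (by linarith) (by linarith)
  have t4 := st 3 _ _ (1 / 2) (-(√3 / 2)) t3 (by linarith) (by linarith)
  have t5 := st 4 _ _ (√3 / 2) (-(1 / 2)) t4 (by linarith) (by linarith)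
  have t6 := st 5 _ _ 1 0 t5 (by linarith) (by linarith)
  have t7 := st 6 _ _ (√3 / 2) (1 / 2) t6 (by linarith) (by linarith)
  have t8 := st 7 _ _ (1 / 2) (√3 / 2) t7 (by linarith) (by linarith)
  have t9 := st 8 _ _ 0 1 t8 (by linarith) (by linarith)
  have t10 := st 9 _ _ (-(1 / 2)) (√3 / 2) t9 (by linarith) (by linarith)
  have t11 := st 10 _ _ (-(√3 / 2)) (1 / 2) t10 (by linarith) (by linarith)
  have t12 := st 11 _ _ (-1) 0 t11 (by linarith) (by linarith)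
  exact ⟨t0.1, t0.2, t1.1, t1.2, t2.1, t2.2, t3.1, t3.2, t4.1, t4.2, t5.1, t5.2, t6.1, t6.2,
    t7.1, t7.2, t8.1, t8.2, t9.1, t9.2, t10.1, t10.2, t11.1, t11.2, t12.1, t12.2⟩

lemma supp {n : ℕ} {X Y : Fin n → ℝ} (h : Rig X Y) (i0 : Fin n) (x0 : X i0 = 0) (y0 : Y i0 = 0)
    (s0 s1 s2 s3 s4 s5 s6 s7 s8 s9 s10 s11 : Fin n)
    (a0 : ∀ i, X i ≤ X s0)
    (a1 : ∀ i, √3 / 2 * X i + Y i / 2 ≤ √3 / 2 * X s1 + Y s1 / 2)
    (a2 : ∀ i, X i / 2 + √3 / 2 * Y i ≤ X s2 / 2 + √3 / 2 * Y s2)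
    (a3 : ∀ i, Y i ≤ Y s3)
    (a4 : ∀ i, -X i / 2 + √3 / 2 * Y i ≤ -X s4 / 2 + √3 / 2 * Y s4)
    (a5 : ∀ i, -(√3 / 2 * X i) + Y i / 2 ≤ -(√3 / 2 * X s5) + Y s5 / 2)
    (a6 : ∀ i, -X i ≤ -X s6)
    (a7 : ∀ i, -(√3 / 2 * X i) - Y i / 2 ≤ -(√3 / 2 * X s7) - Y s7 / 2)
    (a8 : ∀ i, -X i / 2 - √3 / 2 * Y i ≤ -X s8 / 2 - √3 / 2 * Y s8)
    (a9 : ∀ i, -Y i ≤ -Y s9)
    (a10 : ∀ i, X i / 2 - √3 / 2 * Y i ≤ X s10 / 2 - √3 / 2 * Y s10)
    (a11 : ∀ i, √3 / 2 * X i - Y i / 2 ≤ √3 / 2 * X s11 - Y s11 / 2) :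
    118500 ≤ X s0 + (√3 / 2 * X s1 + Y s1 / 2) + (X s2 / 2 + √3 / 2 * Y s2) + Y s3
      + (-X s4 / 2 + √3 / 2 * Y s4) + (-(√3 / 2 * X s5) + Y s5 / 2) + -X s6
      + (-(√3 / 2 * X s7) - Y s7 / 2) + (-X s8 / 2 - √3 / 2 * Y s8) + -Y s9
      + (X s10 / 2 - √3 / 2 * Y s10) + (√3 / 2 * X s11 - Y s11 / 2) := by
  have ha := s3a
  have hb := s3b
  have g := gon (H0 := X s0 + 2) (H1 := √3 / 2 * X s1 + Y s1 / 2 + 2)
    (H2 := X s2 / 2 + √3 / 2 * Y s2 + 2) (H3 := Y s3 + 2) (H4 := -X s4 / 2 + √3 / 2 * Y s4 + 2)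
    (H5 := -(√3 / 2 * X s5) + Y s5 / 2 + 2) (H6 := -X s6 + 2)
    (H7 := -(√3 / 2 * X s7) - Y s7 / 2 + 2) (H8 := -X s8 / 2 - √3 / 2 * Y s8 + 2)
    (H9 := -Y s9 + 2) (H10 := X s10 / 2 - √3 / 2 * Y s10 + 2)
    (H11 := √3 / 2 * X s11 - Y s11 / 2 + 2)
    (by linarith [a0 s1, a2 s1, ee (X s1)]) (by linarith [a1 s2, a3 s2, ee (Y s2)])
    (by linarith [a2 s3, a4 s3]) (by linarith [a3 s4, a5 s4, ee (Y s4)])
    (by linarith [a4 s5, a6 s5, ee (X s5)]) (by linarith [a6 s7, a8 s7, ee (X s7)])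
    (by linarith [a7 s8, a9 s8, ee (Y s8)]) (by linarith [a8 s9, a10 s9])
    (by linarith [a9 s10, a11 s10, ee (Y s10)]) (by linarith [a10 s11, a0 s11, ee (X s11)])
    (by
      rintro x ⟨h1, h2⟩
      have hw : 0 < X s0 + 2 - (X s6 - 2) := by linarith [a0 s6]
      obtain ⟨l, l0, l1, rfl⟩ : ∃ l : ℝ, 0 ≤ l ∧ l ≤ 1 ∧ x = (1 - l) * (X s6 - 2) + l * (X s0 + 2) :=
        ⟨(x - (X s6 - 2)) / (X s0 + 2 - (X s6 - 2)), div_nonneg (by linarith) hw.le,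
          (div_le_one hw).2 (by linarith), by field_simp; ring⟩
      have k : ∀ α β h : ℝ, -1 < α → α < 1 → (∀ i, α * X i + β * Y i ≤ h) →
          α * ((1 - l) * (X s6 - 2) + l * (X s0 + 2)) + β * ((1 - l) * Y s6 + l * Y s0) < h + 2 :=
        fun α β h h1 h2 h3 => by
          have := cvx (A := α * (X s6 - 2) + β * Y s6) (B := α * (X s0 + 2) + β * Y s0)
            (H := h + 2) l0 l1 (by linarith [h3 s6]) (by linarith [h3 s0])
          linarith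
      have k1 := k (√3 / 2) (1 / 2) _ (by linarith) (by linarith) fun i => (le_of_eq (by ring)).trans (a1 i)
      have k2 := k (1 / 2) (√3 / 2) _ (by linarith) (by linarith) fun i => (le_of_eq (by ring)).trans (a2 i)
      have k3 := k 0 1 _ (by linarith) (by linarith) fun i => (le_of_eq (by ring)).trans (a3 i)
      have k4 := k (-(1 / 2)) (√3 / 2) _ (by linarith) (by linarith)
        fun i => (le_of_eq (by ring)).trans (a4 i)
      have k5 := k (-(√3 / 2)) (1 / 2) _ (by linarith) (by linarith)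
        fun i => (le_of_eq (by ring)).trans (a5 i)
      have k7 := k (-(√3 / 2)) (-(1 / 2)) _ (by linarith) (by linarith)
        fun i => (le_of_eq (by ring)).trans (a7 i)
      have k8 := k (-(1 / 2)) (-(√3 / 2)) _ (by linarith) (by linarith)
        fun i => (le_of_eq (by ring)).trans (a8 i)
      have k9 := k 0 (-1) _ (by linarith) (by linarith) fun i => (le_of_eq (by ring)).trans (a9 i)
      have k10 := k (1 / 2) (-(√3 / 2)) _ (by linarith) (by linarith)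
        fun i => (le_of_eq (by ring)).trans (a10 i)
      have k11 := k (√3 / 2) (-(1 / 2)) _ (by linarith) (by linarith)
        fun i => (le_of_eq (by ring)).trans (a11 i)
      generalize (1 - l) * (X s6 - 2) + l * (X s0 + 2) = x at *
      generalize (1 - l) * Y s6 + l * Y s0 = y at *
      refine le_trans (b := y) (neg_le.1 (upl ?_ ?_ ?_ ?_ ?_).le) (upl ?_ ?_ ?_ ?_ ?_).le <;>
        linarith)
  have hc := (cnt h.lat h.sep fun i x y hx hy => by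
    obtain ⟨b1, b2⟩ := abs_lt.1 hx
    obtain ⟨b3, b4⟩ := abs_lt.1 hy
    have p1 : √3 / 2 * (x - X i) < 1 := by nlinarith
    have p2 : -1 < √3 / 2 * (x - X i) := by nlinarith
    have p3 : √3 / 2 * (y - Y i) < 1 := by nlinarith
    have p4 : -1 < √3 / 2 * (y - Y i) := by nlinarith
    refine ⟨⟨by linarith [a6 i], by linarith [a0 i]⟩, neg_lt.1 (upl ?_ ?_ ?_ ?_ ?_),
      upl ?_ ?_ ?_ ?_ ?_⟩
    · linarith [a11 i]
    · linarith [a10 i]
    · linarith [a9 i]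
    · linarith [a8 i]
    · linarith [a7 i]
    · linarith [a1 i]
    · linarith [a2 i]
    · linarith [a3 i]
    · linarith [a4 i]
    · linarith [a5 i]).trans g
  rw [ENNReal.ofReal_le_ofReal_iff (mul_nonneg (by linarith) (sq_nonneg _))] at hc
  have hbig := h.big.trans hc
  have z0 := a0 i0; have z1 := a1 i0; have z2 := a2 i0; have z3 := a3 i0; have z4 := a4 i0
  have z5 := a5 i0; have z6 := a6 i0; have z7 := a7 i0; have z8 := a8 i0; have z9 := a9 i0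
  have z10 := a10 i0; have z11 := a11 i0
  rw [x0] at z0 z1 z2 z4 z5 z6 z7 z8 z10 z11
  rw [y0] at z1 z2 z3 z4 z5 z7 z8 z9 z10 z11
  have key : ∀ T : ℝ, 0 ≤ T → π * 9998 ^ 2 ≤ (2 - √3) / 12 * T ^ 2 → 118524 ≤ T := fun T T0 hT => by
    by_contra hc
    push Not at hc
    have : T ^ 2 ≤ 118524 ^ 2 := by nlinarith
    nlinarith [pi_gt_d2]
  have := key _ (by linarith) hbig
  linarith

lemma low {n : ℕ} {X Y : Fin n → ℝ} (h : Rig X Y) (i0 : Fin n) (x0 : X i0 = 0) (y0 : Y i0 = 0) :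
    ENNReal.ofReal (π * (10 ^ 26) ^ 2 + 63400 * 10 ^ 26) ≤ volume (U X Y (10 ^ 26)) := by
  have ha := s3a
  have hb := s3b
  have e1 := ee 1
  obtain ⟨⟨s3, a3⟩, ⟨s2, a2⟩, ⟨s9, a9⟩, ⟨s8, a8⟩⟩ := four h i0
  obtain ⟨⟨s5, a5⟩, ⟨s4, a4⟩, ⟨s11, a11⟩, ⟨s10, a10⟩⟩ := four (map0 h.sep h.dia h.hyp h.big (1 / 2)
    (√3 / 2) (-(√3 / 2)) (1 / 2) (by linarith) (by linarith) (by ring) (by linarith) (by linarith)
    (by ring) fun i => by
      obtain ⟨a, b, e1, e2⟩ := h.lat i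
      exact ⟨a + b, -a, by simp only [e1, e2]; push_cast; linarith [ee b],
        by simp only [e1, e2]; push_cast; ring⟩) i0
  obtain ⟨⟨s1, a1⟩, ⟨s0, a0⟩, ⟨s7, a7⟩, ⟨s6, a6⟩⟩ := four (map0 h.sep h.dia h.hyp h.big (1 / 2)
    (-(√3 / 2)) (√3 / 2) (1 / 2) (by linarith) (by linarith) (by ring) (by linarith) (by linarith)
    (by ring) fun i => by
      obtain ⟨a, b, e1, e2⟩ := h.lat i
      exact ⟨-b, a + b, by simp only [e1, e2]; push_cast; linarith [ee b],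
        by simp only [e1, e2]; push_cast; ring⟩) i0
  have hS := supp h i0 x0 y0 s0 s1 s2 s3 s4 s5 s6 s7 s8 s9 s10 s11
    (fun i => by linarith [(a0 i).2, ee (X i), ee (X s0)]) (fun i => by linarith [(a1 i).1])
    (fun i => (a2 i).2) (fun i => (a3 i).1)
    (fun i => by linarith [(a4 i).2, ee (X i), ee (X s4)]) (fun i => by linarith [(a5 i).1])
    (fun i => by linarith [(a6 i).2, ee (X i), ee (X s6)]) (fun i => by linarith [(a7 i).1])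
    (fun i => (a8 i).2) (fun i => (a9 i).1)
    (fun i => by linarith [(a10 i).2, ee (X i), ee (X s10)]) (fun i => by linarith [(a11 i).1])
  have hp := polar_lb X Y (r := 10 ^ 26) (D := 31600) (by norm_num)
    (fun i => by simpa [x0, y0] using h.dia i i0) (by norm_num)
    (fun j => match j with
      | 0 => s6 | 1 => s7 | 2 => s8 | 3 => s9 | 4 => s10 | 5 => s11 | 6 => s0 | 7 => s1 | 8 => s2
      | 9 => s3 | 10 => s4 | _ => s5)
  refine le_trans (ENNReal.ofReal_le_ofReal ?_) hp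
  obtain ⟨c0, d0, c1, d1, c2, d2, c3, d3, c4, d4, c5, d5, c6, d6, c7, d7, c8, d8, c9, d9, c10, d10,
    c11, d11, c12, d12⟩ := tab
  simp only [Finset.sum_range_succ, Finset.sum_range_zero, Nat.reduceAdd, c0, d0, c1, d1, c2, d2,
    c3, d3, c4, d4, c5, d5, c6, d6, c7, d7, c8, d8, c9, d9, c10, d10, c11, d11, c12, d12]
  obtain ⟨T, hT⟩ : ∃ T, T = X s0 + 2 * (√3 / 2 * X s0 + Y s0 / 2) - (√3 / 2 * X s0 + Y s0 / 2)
      + (√3 / 2 * X s1 + Y s1 / 2) + (X s1 / 2 + √3 / 2 * Y s1)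
      + (X s2 / 2 + √3 / 2 * Y s2) + Y s2 + Y s3 + (-X s3 / 2 + √3 / 2 * Y s3)
      + (-X s4 / 2 + √3 / 2 * Y s4) + (-(√3 / 2 * X s4) + Y s4 / 2)
      + (-(√3 / 2 * X s5) + Y s5 / 2) + -X s5 + -X s6 + (-(√3 / 2 * X s6) - Y s6 / 2)
      + (-(√3 / 2 * X s7) - Y s7 / 2) + (-X s7 / 2 - √3 / 2 * Y s7)
      + (-X s8 / 2 - √3 / 2 * Y s8) + -Y s8 + -Y s9 + (X s9 / 2 - √3 / 2 * Y s9)
      + (X s10 / 2 - √3 / 2 * Y s10) + (√3 / 2 * X s10 - Y s10 / 2)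
      + (√3 / 2 * X s11 - Y s11 / 2) + X s11 := ⟨_, rfl⟩
  have hT2 : 237000 ≤ T := by
    linarith [(a0 s1).1, (a1 s2).2, (a2 s3).1, (a3 s4).2, (a4 s5).1, (a5 s6).2, (a6 s7).1,
      (a7 s8).2, (a8 s9).1, (a9 s10).2, (a10 s11).1, (a11 s0).2, ee (X s1), ee (X s2), ee (X s5),
      ee (X s6), ee (X s7), ee (X s8), ee (X s11), ee (X s0)]
  have hT3 : 63490 ≤ (2 - √3) * T := by nlinarith
  rw [hT] at hT3
  have hpi := pi_lt_d2
  linarith [ee (X s0), ee (X s1), ee (X s4), ee (X s5), ee (X s6), ee (X s7), ee (X s10),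
    ee (X s11), ee (Y s1), ee (Y s2), ee (Y s3), ee (Y s4), ee (Y s7), ee (Y s8), ee (Y s9),
    ee (Y s10)]

end Pool.Agent.H1.Hx
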