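import Pool.Agent.H1.HxD

set_option autoImplicit false
open MeasureTheory Set Real

namespace Pool.Agent.H1.Hx

def IsLat {n : ℕ} (X Y : Fin n → ℝ) : Prop :=
  ∃ p0 p1 u0 u1 v0 v1 : ℝ, u0 ^ 2 + u1 ^ 2 = 1 ∧ v0 ^ 2 + v1 ^ 2 = 1 ∧ u0 * v0 + u1 * v1 = 1 / 2 ∧
    ∀ i, ∃ a b : ℤ, X i = p0 + 2 * a * u0 + 2 * b * v0 ∧ Y i = p1 + 2 * a * u1 + 2 * b * v1

lemma cover {n : ℕ} {X Y : Fin n → ℝ} {z1 z2 : ℝ}
    (h1 : ∀ w1 w2 : ℝ, w1 ^ 2 + w2 ^ 2 = 1 → ∃ i, 1 / 10 ^ 16 ≤ (X i - z1) * w1 + (Y i - z2) * w2)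
    (h2 : ∀ i, (X i - z1) ^ 2 + (Y i - z2) ^ 2 ≤ 40000 ^ 2) :
    dk z1 z2 (10 ^ 26) ⊆ U X Y (10 ^ 26) := by
  rintro ⟨x, y⟩ hz
  simp only [dk, U, mem_iUnion, mem_ofPred_eq] at hz ⊢
  obtain ⟨ρ, hρ⟩ : ∃ ρ, ρ = √((x - z1) ^ 2 + (y - z2) ^ 2) := ⟨_, rfl⟩
  have r0 : 0 ≤ ρ := hρ ▸ Real.sqrt_nonneg _
  have r2 : ρ ^ 2 = (x - z1) ^ 2 + (y - z2) ^ 2 := hρ ▸ Real.sq_sqrt (by positivity)
  have r1 : ρ ≤ 10 ^ 26 := (abs_le_of_sq_le_sq' (r2 ▸ hz) (by norm_num)).2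
  obtain ⟨w1, w2, hw, e1, e2⟩ : ∃ w1 w2 : ℝ, w1 ^ 2 + w2 ^ 2 = 1 ∧ x = z1 + ρ * w1 ∧
      y = z2 + ρ * w2 := by
    rcases r0.eq_or_lt with h | h
    · rw [← h] at r2 ⊢
      exact ⟨1, 0, by norm_num, by nlinarith [sq_nonneg (x - z1), sq_nonneg (y - z2)],
        by nlinarith [sq_nonneg (x - z1), sq_nonneg (y - z2)]⟩
    · exact ⟨(x - z1) / ρ, (y - z2) / ρ, by field_simp; linarith, by field_simp; ring,
        by field_simp; ring⟩
  obtain ⟨i, hi⟩ := h1 w1 w2 hw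
  refine ⟨i, ?_⟩
  have e : (x - X i) ^ 2 + (y - Y i) ^ 2 = ρ ^ 2 - 2 * ρ * ((X i - z1) * w1 + (Y i - z2) * w2)
      + ((X i - z1) ^ 2 + (Y i - z2) ^ 2) := by
    rw [e1, e2]; linear_combination ρ ^ 2 * hw
  have h3 := h2 i
  have h4 := mul_le_mul_of_nonneg_left hi r0
  rw [e]
  rcases le_total ρ (10 ^ 26 - 1) with h | h
  · nlinarith
  · nlinarith

theorem main (H : ∀ (n : ℕ) (X Y : Fin n → ℝ), Sep X Y → (∀ X' Y' : Fin n → ℝ, Sep X' Y' →
    volume (U X Y (10 ^ 26)) ≤ volume (U X' Y' (10 ^ 26))) → IsLat X Y) : False := by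
  classical
  have ha := s3a
  have hb := s3b
  have hp1 := pi_gt_d2
  have hp2 := pi_lt_d2
  obtain ⟨n, X0, Y0, hS0, hR0, hn⟩ := disc 10000 (by norm_num)
  have hbig : π * 9998 ^ 2 ≤ n * (2 * √3) := by convert hn using 3; norm_num
  have n0 : 0 < n := by
    rcases Nat.eq_zero_or_pos n with rfl | h
    · simp at hbig; linarith
    · exact h
  let i0 : Fin n := ⟨0, n0⟩
  have hv0 : volume (U X0 Y0 (10 ^ 26)) ≤ ENNReal.ofReal (π * (10 ^ 26 + 10000) ^ 2) := by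
    rw [← dk_vol 0 0 (by norm_num)]
    refine measure_mono (iUnion_subset fun i z hz => ?_)
    simp only [dk, mem_ofPred_eq, sub_zero] at hz ⊢
    have := hR0 i
    push_cast at this
    nlinarith [sq_nonneg (z.1 - X0 i - 10 ^ 22 * X0 i), sq_nonneg (z.2 - Y0 i - 10 ^ 22 * Y0 i)]
  have hv1 : volume (U X0 Y0 (10 ^ 26)) <
      ENNReal.ofReal (π * (10 ^ 26) ^ 2 + 1.998 * 10 ^ 26 * 31600) :=
    hv0.trans_lt ((ENNReal.ofReal_lt_ofReal_iff (by positivity)).2 (by nlinarith))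
  obtain ⟨X1, Y1, hS1, hm1⟩ := exmin i0 (by norm_num) (by norm_num) (by norm_num) X0 Y0 hS0 hv1
  obtain ⟨X, Y, hS, hm, x0, y0⟩ : ∃ X Y : Fin n → ℝ, Sep X Y ∧ (∀ X' Y' : Fin n → ℝ, Sep X' Y' →
      volume (U X Y (10 ^ 26)) ≤ volume (U X' Y' (10 ^ 26))) ∧ X i0 = 0 ∧ Y i0 = 0 := by
    refine ⟨fun i => 1 * (X1 i - X1 i0) + 0 * (Y1 i - Y1 i0),
      fun i => 0 * (X1 i - X1 i0) + 1 * (Y1 i - Y1 i0), fun i k hik => ?_, fun X' Y' h => ?_,
      by simp, by simp⟩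
    · have := hS1 i k hik
      simp only
      nlinarith
    · rw [U_rot X1 Y1 _ _ _ (by norm_num) (by norm_num) (by norm_num)]
      exact hm1 X' Y' h
  have hdia : ∀ i k, (X i - X k) ^ 2 + (Y i - Y k) ^ 2 ≤ 31600 ^ 2 := fun i k => by
    by_contra hc
    exact absurd ((two X Y (r := 10 ^ 26) (by norm_num) (by norm_num) (by norm_num) i k
      (not_le.1 hc).le).trans (hm X0 Y0 hS0)) (not_le.2 hv1)
  have hhyp : Hyp X Y := by
    intro j z1 z2 h1 h2 h3 i hi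
    have hS' : Sep (Function.update X j z1) (Function.update Y j z2) := by
      intro a b hab
      by_cases haj : a = j
      · subst haj
        simp only [Function.update_self, Function.update_of_ne hab.symm]
        linarith [h3 b hab.symm]
      · by_cases hbj : b = j
        · subst hbj
          simp only [Function.update_self, Function.update_of_ne hab]
          exact h3 a hab
        · simp only [Function.update_of_ne haj, Function.update_of_ne hbj]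
          exact hS a b hab
    have hsub : U (Function.update X j z1) (Function.update Y j z2) (10 ^ 26) ⊆ U X Y (10 ^ 26) := by
      refine iUnion_subset fun a => ?_
      by_cases haj : a = j
      · subst haj
        simp only [Function.update_self]
        exact cover h1 h2
      · simp only [Function.update_of_ne haj]
        exact subset_iUnion (fun i => dk (X i) (Y i) (10 ^ 26)) a
    obtain ⟨p0, p1, u0, u1, v0, v1, e1, e2, e3, hL⟩ := H n _ _ hS' fun X' Y' h =>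
      (measure_mono hsub).trans (hm X' Y' h)
    obtain ⟨a, b, f1, f2⟩ := hL i
    obtain ⟨a', b', f3, f4⟩ := hL j
    rw [Function.update_of_ne hi] at f1 f2
    rw [Function.update_self] at f3 f4
    refine ⟨(a - a') ^ 2 + (a - a') * (b - b') + (b - b') ^ 2, ?_⟩
    rw [f1, f2, f3, f4]
    push_cast
    linear_combination 4 * ((a:ℝ) - a') ^ 2 * e1 + 4 * ((b:ℝ) - b') ^ 2 * e2
      + 8 * ((a:ℝ) - a') * (b - b') * e3
  obtain ⟨p0, p1, u0, u1, v0, v1, e1, e2, e3, hL⟩ := H n X Y hS hm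
  obtain ⟨c, hc⟩ : ∃ c, c = √3 / 3 * (2 * v0 - u0) := ⟨_, rfl⟩
  obtain ⟨d, hd⟩ : ∃ d, d = √3 / 3 * (2 * v1 - u1) := ⟨_, rfl⟩
  have hs := s3
  have h5 : c ^ 2 + d ^ 2 = 1 := by
    rw [hc, hd]
    linear_combination ((2 * v0 - u0) ^ 2 + (2 * v1 - u1) ^ 2) / 9 * hs + e1 / 3 + 4 / 3 * e2
      - 4 / 3 * e3
  have h6 : u0 * c + u1 * d = 0 := by
    rw [hc, hd]; linear_combination √3 / 3 * (2 * e3 - e1)
  have h7 : v0 * c + v1 * d = √3 / 2 := by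
    rw [hc, hd]; linear_combination √3 / 3 * (2 * e2 - e3)
  have q : u0 ^ 2 = d ^ 2 := by
    linear_combination -u0 ^ 2 * h5 + d ^ 2 * e1 + (u0 * c - u1 * d) * h6
  have h1 : u0 ^ 2 + c ^ 2 = 1 := by linarith
  have h2 : u1 ^ 2 + d ^ 2 = 1 := by linarith
  have h3 : u0 * u1 + c * d = 0 := by
    linear_combination -(u0 * u1) * h5 - c * d * e1 + (u0 * d + u1 * c) * h6
  have hR := map0 hS hdia hhyp hbig u0 u1 c d h1 h2 h3 e1 h5 h6 fun i => by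
    obtain ⟨a, b, f1, f2⟩ := hL i
    obtain ⟨a', b', f3, f4⟩ := hL i0
    rw [x0] at f3
    rw [y0] at f4
    refine ⟨a - a', b - b', ?_, ?_⟩ <;> simp only [f1, f2] <;> push_cast
    · linear_combination -u0 * f3 - u1 * f4 + 2 * ((a:ℝ) - a') * e1 + 2 * ((b:ℝ) - b') * e3
    · linear_combination -c * f3 - d * f4 + 2 * ((a:ℝ) - a') * h6 + 2 * ((b:ℝ) - b') * h7
  have hl := low hR i0 (by simp [x0, y0]) (by simp [x0, y0])
  have hr := U_rot X Y (10 ^ 26) 0 0 h1 h2 h3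
  simp only [sub_zero] at hr
  rw [hr] at hl
  have := (hl.trans (hm X0 Y0 hS0)).trans hv0
  rw [ENNReal.ofReal_le_ofReal_iff (by positivity)] at this
  nlinarith [pi_lt_d4]

end Pool.Agent.H1.Hx
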