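import Mathlib

namespace Pool.Agent.H1.Iso

open Metric Filter Topology Set MeasureTheory ProbabilityTheory Polynomial
open scoped RealInnerProductSpace

abbrev E (n : ℕ) := EuclideanSpace ℝ (Fin n)

lemma int_of {X : Type*} [TopologicalSpace X] [MeasurableSpace X] [OpensMeasurableSpace X]
    {μ : Measure X} [IsFiniteMeasure μ] {K : Set X} (hK : IsCompact K) (h : ∀ᵐ x ∂μ, x ∈ K)
    {f : X → ℝ} (hf : Continuous f) : Integrable f μ := by
  obtain ⟨C, hC⟩ := hK.exists_bound_of_continuousOn hf.continuousOn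
  exact Integrable.of_bound hf.aestronglyMeasurable C (h.mono hC)

noncomputable def τ (n : ℕ) : Measure (E (n + 1)) :=
  (stdGaussian (E (n + 1))).map fun y => ‖y‖⁻¹ • y

lemma nm (n : ℕ) : Measurable fun y : E n => ‖y‖⁻¹ • y := by fun_prop

instance (n : ℕ) : IsProbabilityMeasure (τ n) :=
  Measure.isProbabilityMeasure_map (nm _).aemeasurable

lemma τ_ae (n : ℕ) : ∀ᵐ y ∂τ n, y ∈ sphere (0 : E (n + 1)) 1 := by
  refine (ae_map_iff (nm _).aemeasurable isClosed_sphere.measurableSet).2 ?_
  have : NullSingletonClass (gaussianReal 0 1) := nullSingletonClass_gaussianReal one_ne_zero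
  have : NullSingletonClass (Measure.pi fun _ : Fin (n + 1) => gaussianReal 0 1) :=
    Measure.pi_nullSingletonClass 0
  have : stdGaussian (E (n + 1)) {0} = 0 := by
    rw [← map_pi_eq_stdGaussian, Measure.map_apply (by fun_prop) (measurableSet_singleton _)]
    exact Set.Subsingleton.measure_zero (subsingleton_singleton.preimage (WithLp.toLp_injective 2)) _
  filter_upwards [measure_eq_zero_iff_ae_notMem.1 this] with y hy
  rw [dist_zero_right, norm_smul, norm_inv, norm_norm, inv_mul_cancel₀ (norm_ne_zero_iff.2 hy)]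

lemma τ_int {n : ℕ} {f : E (n + 1) → ℝ} (hf : Continuous f) : Integrable f (τ n) :=
  int_of (isCompact_sphere 0 1) (τ_ae n) hf

lemma τ_rot {n : ℕ} {x x' : E (n + 1)} (h : ‖x‖ = ‖x'‖) (m : ℕ) :
    ∫ y, ⟪x, y⟫ ^ m ∂τ n = ∫ y, ⟪x', y⟫ ^ m ∂τ n := by
  set R := Submodule.reflection (ℝ ∙ (x - x'))ᗮ
  have hR : R x = x' := Submodule.reflection_sub h
  rw [τ, integral_map (nm _).aemeasurable (by fun_prop),
    integral_map (nm _).aemeasurable (by fun_prop)]
  conv_rhs => rw [← stdGaussian_map R]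
  rw [integral_map R.continuous.aemeasurable (Measurable.aestronglyMeasurable (by fun_prop))]
  simp only [← hR, R.norm_map, ← map_smul, R.inner_map_map]

noncomputable def A (n j : ℕ) : ℝ := ∫ y, y 0 ^ (2 * j) ∂τ n

lemma mom {n : ℕ} (x : E (n + 1)) (j : ℕ) :
    ∫ y, ⟪x, y⟫ ^ (2 * j) ∂τ n = A n j * (‖x‖ ^ 2) ^ j := by
  rw [τ_rot (x' := EuclideanSpace.single 0 ‖x‖) (by simp)]
  simp only [EuclideanSpace.inner_single_left, conj_trivial, mul_pow, integral_const_mul, A,
    ← pow_mul]
  ring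

lemma A_zero (n : ℕ) : A n 0 = 1 := by simp [A]

lemma cross {n : ℕ} (j : ℕ) {i : Fin (n + 1)} (hi : i ≠ 0) :
    (2 * j + 1) * ∫ y, y 0 ^ (2 * j) * y i ^ 2 ∂τ n = A n (j + 1) := by
  set m := 2 * (j + 1) with hm
  have : ∑ k ∈ Finset.range (m + 1), C ((∫ y, y i ^ k * y 0 ^ (m - k) ∂τ n) * m.choose k) * X ^ k
      = C (A n (j + 1)) * expand ℝ 2 ((1 + X) ^ (j + 1)) := by
    refine Polynomial.funext fun t => ?_
    have h1 := mom (EuclideanSpace.single 0 1 + EuclideanSpace.single i t) (j + 1)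
    have h2 : ‖(EuclideanSpace.single 0 1 + EuclideanSpace.single i t : E (n + 1))‖ ^ 2
        = 1 + t ^ 2 := by
      rw [norm_add_sq_real]; simp [EuclideanSpace.inner_single_left, hi.symm]
    simp only [inner_add_left, EuclideanSpace.inner_single_left, conj_trivial, one_mul, h2] at h1
    simp only [eval_finsetSum, eval_mul, eval_C, eval_pow, eval_X, map_pow, map_add, map_one,
      expand_X, eval_add, eval_one]
    rw [← h1, ← hm]
    simp only [add_comm _ (t * _), add_pow]
    rw [integral_finsetSum _ fun k _ => τ_int (by fun_prop)]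
    refine Finset.sum_congr rfl fun k _ => ?_
    rw [← integral_mul_const, ← integral_mul_const]
    congr 1; ext y; ring
  have h := congrArg (coeff · 2) this
  have e := coeff_expand_mul (R := ℝ) two_pos ((1 + X) ^ (j + 1)) 1
  simp only [finsetSum_coeff, coeff_C_mul, coeff_X_pow, mul_ite, mul_one, mul_zero,
    Finset.sum_ite_eq, Finset.mem_range] at h
  rw [if_pos (by omega), one_mul, coeff_one_add_X_pow, Nat.choose_one_right] at *
  rw [e, Nat.cast_choose_two, show m - 2 = 2 * j by omega, hm] at h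
  push_cast at h
  simp only [mul_comm (_ ^ (2 * j))]
  exact mul_left_cancel₀ (show (j : ℝ) + 1 ≠ 0 by positivity) (by linarith)

lemma A_rec (n j : ℕ) : (2 * j + 1 + n) * A n (j + 1) = (2 * j + 1) * A n j := by
  have : A n j = ∑ i, ∫ y, y 0 ^ (2 * j) * y i ^ 2 ∂τ n := by
    rw [← integral_finsetSum _ fun k _ => τ_int (by fun_prop), A]
    refine integral_congr_ae ((τ_ae n).mono fun y hy => ?_)
    simp only
    rw [← Finset.mul_sum, ← EuclideanSpace.real_norm_sq_eq, mem_sphere_zero_iff_norm.1 hy]; ring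
  rw [this, Finset.mul_sum, Fin.sum_univ_succ,
    Finset.sum_congr rfl fun i _ => cross j (Fin.succ_ne_zero i)]
  simp only [← pow_add, Finset.sum_const, Finset.card_univ, Fintype.card_fin, nsmul_eq_mul]
  rw [A, mul_add 2 j 1]; ring

end Pool.Agent.H1.Iso
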