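import Pool.Agent.H1.IsoA

namespace Pool.Agent.H1.Iso

open Metric Filter Topology Set MeasureTheory Real
open scoped RealInnerProductSpace

lemma log_le {s : ℝ} (hs : s < 1) (J : ℕ) :
    log (1 - s) + ∑ m ∈ Finset.range (2 * J + 1), s ^ (m + 1) / (m + 1) ≤ 0 := by
  set F : ℝ → ℝ := fun s => log (1 - s) + ∑ m ∈ Finset.range (2 * J + 1), s ^ (m + 1) / (m + 1)
  have hd : ∀ y < 1, HasDerivAt F (-y ^ (2 * J + 1) / (1 - y)) y := fun y hy => by
    have h0 : 1 - y ≠ 0 := by linarith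
    refine ((((hasDerivAt_id y).const_sub 1).log h0).fun_add (HasDerivAt.fun_sum fun m _ =>
      (hasDerivAt_pow (m + 1) y).div_const ((m : ℝ) + 1))).congr_deriv ?_
    have : ∀ m : ℕ, ((m + 1 : ℕ) : ℝ) * y ^ (m + 1 - 1) / (m + 1) = y ^ m := fun m => by
      push_cast; field_simp
    simp only [this, id]
    rw [geom_sum_eq hy.ne]
    have : y - 1 ≠ 0 := by linarith
    field_simp; ring
  have F0 : F 0 = 0 := by simp [F]
  change F s ≤ 0
  rw [← F0]
  rcases le_total 0 s with h | h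
  · refine antitoneOn_of_deriv_nonpos (convex_Icc 0 s) (fun y hy =>
      (hd y (hy.2.trans_lt hs)).continuousAt.continuousWithinAt) (fun y hy =>
      (hd y ((interior_subset hy).2.trans_lt hs)).differentiableAt.differentiableWithinAt)
      (fun y hy => ?_) (left_mem_Icc.2 h) (right_mem_Icc.2 h) h
    have := interior_subset hy
    rw [(hd y (this.2.trans_lt hs)).deriv]
    exact div_nonpos_of_nonpos_of_nonneg (neg_nonpos.2 (pow_nonneg this.1 _)) (by linarith [this.2])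
  · refine monotoneOn_of_deriv_nonneg (convex_Icc s 0) (fun y hy =>
      (hd y (hy.2.trans_lt one_pos)).continuousAt.continuousWithinAt) (fun y hy =>
      (hd y ((interior_subset hy).2.trans_lt one_pos)).differentiableAt.differentiableWithinAt)
      (fun y hy => ?_) (left_mem_Icc.2 h) (right_mem_Icc.2 h) h
    have := interior_subset hy
    rw [(hd y (this.2.trans_lt one_pos)).deriv]
    exact div_nonneg (neg_nonneg.2 (Odd.pow_nonpos ⟨J, rfl⟩ this.2)) (by linarith [this.2])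

lemma G_le {c : ℕ → ℝ} (hc : ∀ j, c j ≤ 1 / (2 * j + 3)) (J : ℕ) {r : ℝ} (r0 : 0 ≤ r) (r1 : r ≤ 1) :
    log (1 + r ^ 2) - ∑ j ∈ Finset.range J, c j * (2 * r / (1 + r ^ 2)) ^ (2 * (j + 1)) / (2 * j + 2)
      ≤ log 2 - ∑ j ∈ Finset.range J, c j / (2 * j + 2) := by
  set G : ℝ → ℝ := fun r => log (1 + r ^ 2) -
    ∑ j ∈ Finset.range J, c j * (2 * r / (1 + r ^ 2)) ^ (2 * (j + 1)) / (2 * j + 2)
  have hd : ∀ y, HasDerivAt G (2 * y / (1 + y ^ 2) - 2 * (1 - y ^ 2) / (1 + y ^ 2) ^ 2 *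
      ∑ j ∈ Finset.range J, c j * (2 * y / (1 + y ^ 2)) ^ (2 * j + 1)) y := fun y => by
    have h0 : 1 + y ^ 2 ≠ 0 := by positivity
    have h1 := (hasDerivAt_pow 2 y).const_add 1
    have h2 : HasDerivAt (fun y : ℝ => 2 * y / (1 + y ^ 2)) (2 * (1 - y ^ 2) / (1 + y ^ 2) ^ 2) y :=
      (((hasDerivAt_id y).const_mul 2).fun_div h1 h0).congr_deriv (by simp; ring)
    refine ((h1.log h0).fun_sub (HasDerivAt.fun_sum fun j _ =>
      ((h2.fun_pow (2 * (j + 1))).const_mul (c j)).div_const ((2 : ℝ) * j + 2))).congr_deriv ?_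
    rw [Finset.mul_sum]
    congr 1
    · simp
    refine Finset.sum_congr rfl fun j _ => ?_
    rw [show 2 * (j + 1) - 1 = 2 * j + 1 by omega]
    push_cast; field_simp
  have := monotoneOn_of_deriv_nonneg (convex_Icc 0 1) (fun y _ =>
      (hd y).continuousAt.continuousWithinAt) (fun y _ =>
      (hd y).differentiableAt.differentiableWithinAt)
      (fun y hy => ?_) ⟨r0, r1⟩ (right_mem_Icc.2 zero_le_one) r1
  · refine this.trans_eq ?_
    simp only [G]; norm_num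
  rw [interior_Icc] at hy
  obtain ⟨y0, y1⟩ := hy
  rw [(hd y).deriv]
  set ρ := 2 * y / (1 + y ^ 2) with hρ
  have ρ0 : 0 < ρ := by positivity
  have ρ1 : ρ < 1 := by rw [hρ, div_lt_one (by positivity)]; nlinarith
  have h1 := sum_range_le_log_div ρ0.le ρ1 (J + 1)
  have y2 : 0 < 1 - y := by linarith
  have e : (1 + ρ) / (1 - ρ) = ((1 + y) / (1 - y)) ^ 2 := by
    rw [div_pow, div_eq_div_iff (by linarith) (by positivity), hρ]; field_simp; ring
  have t1 : 1 ≤ (1 + y) / (1 - y) := by rw [le_div_iff₀ y2]; linarith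
  have h2 := self_le_sinh_iff.2 (log_nonneg t1)
  rw [sinh_log (by positivity)] at h2
  have e2 : ((1 + y) / (1 - y) - ((1 + y) / (1 - y))⁻¹) / 2
      = ρ + ρ ^ 2 * (y * (1 + y ^ 2) / (1 - y ^ 2)) := by
    have : 1 - y ^ 2 = (1 - y) * (1 + y) := by ring
    rw [hρ, this]; field_simp; ring
  rw [e, log_pow, Finset.sum_range_succ'] at h1
  have h3 : ρ ^ 2 * ∑ j ∈ Finset.range J, c j * ρ ^ (2 * j + 1) ≤
      ∑ j ∈ Finset.range J, ρ ^ (2 * (j + 1) + 1) / (2 * ((j + 1 : ℕ) : ℝ) + 1) := by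
    rw [Finset.mul_sum]
    refine Finset.sum_le_sum fun j _ => ?_
    calc _ ≤ ρ ^ 2 * (1 / (2 * j + 3) * ρ ^ (2 * j + 1)) := by gcongr; exact hc j
      _ = _ := by push_cast; field_simp; ring
  have h4 : ∑ j ∈ Finset.range J, c j * ρ ^ (2 * j + 1) ≤ y * (1 + y ^ 2) / (1 - y ^ 2) := by
    refine le_of_mul_le_mul_left ?_ (pow_pos ρ0 2)
    norm_num at h1 h3 ⊢; linarith
  have y3 : 0 < 1 - y ^ 2 := by nlinarith
  have := mul_le_mul_of_nonneg_left h4 (show 0 ≤ 2 * (1 - y ^ 2) / (1 + y ^ 2) ^ 2 by positivity)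
  rw [sub_nonneg]
  refine this.trans_eq ?_
  rw [hρ]; field_simp

lemma A_le {n : ℕ} (hn : 2 ≤ n) (j : ℕ) : A n j ≤ 1 / (2 * j + 1) := by
  induction j with
  | zero => simp [A_zero]
  | succ j ih =>
    have h := A_rec n j
    have h0 : 0 ≤ A n (j + 1) := integral_nonneg fun y => (even_two_mul _).pow_nonneg _
    have : (2 : ℝ) ≤ n := by exact_mod_cast hn
    rw [le_div_iff₀ (by positivity)] at ih ⊢
    push_cast; nlinarith

variable {n : ℕ}

lemma ae2 {μ ν : Measure (E n)} [SFinite ν] (hμ : ∀ᵐ x ∂μ, x ∈ closedBall (0 : E n) 1)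
    (hν : ∀ᵐ x ∂ν, x ∈ closedBall (0 : E n) 1) :
    ∀ᵐ p ∂μ.prod ν, p ∈ closedBall (0 : E n) 1 ×ˢ closedBall (0 : E n) 1 :=
  (Measure.quasiMeasurePreserving_fst.ae hμ).and (Measure.quasiMeasurePreserving_snd.ae hν)

lemma int2 {μ ν : Measure (E n)} [IsFiniteMeasure μ] [IsFiniteMeasure ν]
    (hμ : ∀ᵐ x ∂μ, x ∈ closedBall (0 : E n) 1) (hν : ∀ᵐ x ∂ν, x ∈ closedBall (0 : E n) 1)
    {f : E n × E n → ℝ} (hf : Continuous f) : Integrable f (μ.prod ν) :=
  int_of ((isCompact_closedBall 0 1).prod (isCompact_closedBall 0 1)) (ae2 hμ hν) hf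

lemma ker {ι : Type} [Fintype ι] [DecidableEq ι] {μ ν : Measure (E n)} [IsFiniteMeasure μ]
    [IsFiniteMeasure ν]
    (hμ : ∀ᵐ x ∂μ, x ∈ closedBall (0 : E n) 1) (hν : ∀ᵐ x ∂ν, x ∈ closedBall (0 : E n) 1)
    {U V : ι → E n → ℝ} (hU : ∀ o, Continuous (U o)) (hV : ∀ o, Continuous (V o)) (m : ℕ) :
    ∫ p, (∑ o, U o p.1 * V o p.2) ^ m ∂μ.prod ν =
      ∑ f : Fin m → ι, (∫ x, ∏ k, U (f k) x ∂μ) * ∫ x, ∏ k, V (f k) x ∂ν := by
  simp only [Finset.sum_pow', Fintype.piFinset_univ, Finset.prod_mul_distrib]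
  rw [integral_finsetSum _ fun f _ => int2 hμ hν (by fun_prop)]
  exact Finset.sum_congr rfl fun f _ =>
    integral_prod_mul (fun x => ∏ k, U (f k) x) fun x => ∏ k, V (f k) x

noncomputable def X : Option (Fin n) → E n → ℝ
  | none, x => (1 - ‖x‖ ^ 2) / (1 + ‖x‖ ^ 2)
  | some i, x => 2 / (1 + ‖x‖ ^ 2) * x i
def Y : Option (Fin n) → E n → ℝ
  | none, _ => 0
  | some i, x => x i

lemma X_c (o : Option (Fin n)) : Continuous (X o) := by
  rcases o with _ | i
  · exact Continuous.div (by fun_prop) (by fun_prop) fun x => by positivity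
  · exact (Continuous.div (by fun_prop) (by fun_prop) fun x => by positivity).mul (by fun_prop)
lemma Y_c (o : Option (Fin n)) : Continuous (Y o) := by
  rcases o with _ | i
  · exact continuous_const
  · change Continuous fun x : E n => x i
    fun_prop

lemma inner_eq (x y : E n) : ⟪x, y⟫ = ∑ i, x i * y i := by
  simp [PiLp.inner_apply, mul_comm]

lemma XX (x y : E n) : 1 - ∑ o, X o x * X o y
    = 2 * ‖x - y‖ ^ 2 / ((1 + ‖x‖ ^ 2) * (1 + ‖y‖ ^ 2)) := by
  have : ∑ i, 2 / (1 + ‖x‖ ^ 2) * x i * (2 / (1 + ‖y‖ ^ 2) * y i)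
      = 4 / ((1 + ‖x‖ ^ 2) * (1 + ‖y‖ ^ 2)) * ⟪x, y⟫ := by
    rw [inner_eq, Finset.mul_sum]; refine Finset.sum_congr rfl fun i _ => ?_; field_simp; ring
  simp only [Fintype.sum_option, X]
  rw [this, norm_sub_sq_real]; field_simp; ring

lemma even_ge {ν : Measure (E (n + 1))} [IsProbabilityMeasure ν]
    (hν : ∀ᵐ x ∂ν, x ∈ closedBall (0 : E (n + 1)) 1) (j : ℕ) :
    2 * ∫ x, A n j * (2 * ‖x‖ / (1 + ‖x‖ ^ 2)) ^ (2 * j) ∂ν - A n j ≤
      ∫ p, (∑ o, X o p.1 * X o p.2) ^ (2 * j) ∂ν.prod ν := by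
  have hτ := (τ_ae n).mono fun y hy => sphere_subset_closedBall hy
  have h1 := ker hν hτ X_c Y_c (2 * j)
  have h2 := ker hτ hτ Y_c Y_c (2 * j)
  have cX := @X_c (n + 1)
  have cY := @Y_c (n + 1)
  rw [integral_prod _ (int2 hν hτ (by fun_prop))] at h1
  rw [integral_prod _ (int2 hτ hτ (by fun_prop))] at h2
  have e1 : ∀ x y : E (n + 1), ∑ o, X o x * Y o y = ⟪(2 / (1 + ‖x‖ ^ 2)) • x, y⟫ := fun x y => by
    simp [Fintype.sum_option, X, Y, inner_eq]
  have e2 : ∀ x y : E (n + 1), ∑ o, Y o x * Y o y = ⟪x, y⟫ := fun x y => by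
    simp [Fintype.sum_option, Y, inner_eq]
  have e3 : ∀ x : E (n + 1), (‖(2 / (1 + ‖x‖ ^ 2)) • x‖ ^ 2) ^ j
      = (2 * ‖x‖ / (1 + ‖x‖ ^ 2)) ^ (2 * j) := fun x => by
    rw [norm_smul, Real.norm_of_nonneg (by positivity), pow_mul]; congr 2; ring
  simp only [e1, e2, mom, e3] at h1 h2
  have e4 : ∫ x, A n j * (‖x‖ ^ 2) ^ j ∂τ n = A n j := by
    rw [integral_congr_ae (g := fun _ => A n j) ((τ_ae n).mono fun y hy => by
      simp [mem_sphere_zero_iff_norm.1 hy])]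
    simp
  rw [ker hν hν X_c X_c, h1, ← e4, h2, Finset.mul_sum, ← Finset.sum_sub_distrib]
  exact Finset.sum_le_sum fun f _ => by
    nlinarith [sq_nonneg (∫ x, ∏ k, X (f k) x ∂ν - ∫ x, ∏ k, Y (f k) x ∂τ n)]

lemma upper (hn : 2 ≤ n) {ν : Measure (E (n + 1))} [IsProbabilityMeasure ν]
    (hν : ∀ᵐ x ∂ν, x ∈ closedBall (0 : E (n + 1)) 1) (hd : ∀ᵐ p ∂ν.prod ν, p.1 ≠ p.2)
    (hi : Integrable (fun p : E (n + 1) × E (n + 1) => log ‖p.1 - p.2‖) (ν.prod ν)) (J : ℕ) :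
    ∫ p, log ‖p.1 - p.2‖ ∂ν.prod ν ≤
      (log 2 - ∑ j ∈ Finset.range J, A n (j + 1) / (2 * j + 2)) / 2 := by
  have cX := @X_c (n + 1)
  have cl : Continuous fun x : E (n + 1) => log (1 + ‖x‖ ^ 2) :=
    Continuous.log (by fun_prop) fun x => by positivity
  have c1 : Continuous fun p : E (n + 1) × E (n + 1) => log (1 + ‖p.1‖ ^ 2) := cl.comp continuous_fst
  have c2 : Continuous fun p : E (n + 1) × E (n + 1) => log (1 + ‖p.2‖ ^ 2) := cl.comp continuous_snd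
  have cρ : Continuous fun x : E (n + 1) => 2 * ‖x‖ / (1 + ‖x‖ ^ 2) :=
    Continuous.div (by fun_prop) (by fun_prop) fun x => by positivity
  have i1 := fun {f} hf => int_of (μ := ν) (isCompact_closedBall 0 1) hν (f := f) hf
  set I : ℕ → ℝ := fun m => ∫ p, (∑ o, X o p.1 * X o p.2) ^ m ∂ν.prod ν with hI
  have I0 : ∀ m, 0 ≤ I m := fun m => by
    simp only [hI, ker hν hν X_c X_c]
    exact Finset.sum_nonneg fun f _ => mul_self_nonneg _
  have h1 : ∫ p, log ‖p.1 - p.2‖ ∂ν.prod ν ≤ ∫ p, ((log (1 + ‖p.1‖ ^ 2) + log (1 + ‖p.2‖ ^ 2)) -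
      (log 2 + ∑ m ∈ Finset.range (2 * J + 1), (∑ o, X o p.1 * X o p.2) ^ (m + 1) / (m + 1))) / 2
        ∂ν.prod ν := by
    refine integral_mono_ae hi (int2 hν hν (((c1.add c2).sub (by fun_prop)).div_const 2))
      (hd.mono fun p hp => ?_)
    have d0 : 0 < ‖p.1 - p.2‖ := norm_pos_iff.2 (sub_ne_zero.2 hp)
    have e := XX p.1 p.2
    have := log_le (s := ∑ o, X o p.1 * X o p.2) (sub_pos.1 (by rw [e]; positivity)) J
    rw [e, log_div (by positivity) (by positivity), log_mul (by positivity) (by positivity),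
      log_mul (by positivity) (by positivity), log_pow] at this
    push_cast at this
    simp only; linarith
  rw [integral_div, integral_sub (int2 hν hν (c1.fun_add c2)) (int2 hν hν (by fun_prop)),
    integral_add (int2 hν hν c1) (int2 hν hν c2),
    integral_add (int2 hν hν (by fun_prop)) (int2 hν hν (by fun_prop)),
    integral_finsetSum _ fun m _ => int2 hν hν (by fun_prop),
    integral_fun_fst fun x : E (n + 1) => log (1 + ‖x‖ ^ 2),
    integral_fun_snd fun x : E (n + 1) => log (1 + ‖x‖ ^ 2)] at h1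
  simp only [integral_div, integral_const, probReal_univ, one_smul] at h1
  have h2 : ∑ j ∈ Finset.range J, I (2 * (j + 1)) / (2 * j + 2) ≤
      ∑ m ∈ Finset.range (2 * J + 1), I (m + 1) / (m + 1) := by
    clear h1
    induction J with
    | zero => simpa using I0 1
    | succ J ih =>
      rw [show 2 * (J + 1) + 1 = 2 * J + 1 + 1 + 1 by ring, Finset.sum_range_succ,
        Finset.sum_range_succ _ (2 * J + 1 + 1), Finset.sum_range_succ _ (2 * J + 1),
        show 2 * J + 1 + 1 = 2 * (J + 1) by ring]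
      have := div_nonneg (I0 (2 * (J + 1) + 1)) (show (0 : ℝ) ≤ (2 * (J + 1) : ℕ) + 1 by positivity)
      have e : ((2 * J + 1 : ℕ) : ℝ) + 1 = 2 * J + 2 := by push_cast; ring
      rw [e]; linarith
  have h3 : ∑ j ∈ Finset.range J, (2 * ∫ x, A n (j + 1) * (2 * ‖x‖ / (1 + ‖x‖ ^ 2)) ^ (2 * (j + 1)) ∂ν
      - A n (j + 1)) / (2 * j + 2) ≤ ∑ j ∈ Finset.range J, I (2 * (j + 1)) / (2 * j + 2) :=
    Finset.sum_le_sum fun j _ => div_le_div_of_nonneg_right (even_ge hν _) (by positivity)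
  have h4 : ∫ x, (log (1 + ‖x‖ ^ 2) - ∑ j ∈ Finset.range J,
      A n (j + 1) * (2 * ‖x‖ / (1 + ‖x‖ ^ 2)) ^ (2 * (j + 1)) / (2 * j + 2)) ∂ν ≤
      ∫ _, (log 2 - ∑ j ∈ Finset.range J, A n (j + 1) / (2 * j + 2)) ∂ν :=
    integral_mono_ae (i1 (by fun_prop)) (integrable_const _) (hν.mono fun x hx =>
      G_le (c := fun j => A n (j + 1)) (fun j => (A_le hn (j + 1)).trans_eq (by push_cast; ring)) J
        (norm_nonneg x) (mem_closedBall_zero_iff.1 hx))
  rw [integral_sub (i1 cl) (i1 (by fun_prop)), integral_finsetSum _ fun m _ => i1 (by fun_prop)] at h4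
  simp only [integral_div, integral_const, probReal_univ, one_smul] at h4
  simp only [sub_div, mul_div_assoc (2 : ℝ), Finset.sum_sub_distrib, ← Finset.mul_sum] at h3
  simp only [mul_div_assoc (2 : ℝ)] at h4
  change _ ≤ (_ - (_ + ∑ m ∈ _, I (m + 1) / _)) / 2 at h1
  linarith

end Pool.Agent.H1.Iso
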