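import Pool.Agent.H1.IsoB

namespace Pool.Agent.H1.Iso

open Metric Filter Topology Set MeasureTheory Real
open scoped NNReal

noncomputable def lam : Measure ℝ := ENNReal.ofReal (2 * π)⁻¹ • volume.restrict (Ioc 0 (2 * π))

instance : IsProbabilityMeasure lam := ⟨by
  rw [lam, Measure.smul_apply, Measure.restrict_apply_univ, volume_Ioc, smul_eq_mul,
    ← ENNReal.ofReal_mul (by positivity), sub_zero, inv_mul_cancel₀ (by positivity),
    ENNReal.ofReal_one]⟩

lemma sec {α : ℝ} (hα : 0 < α) {a : ℂ} (ha : ‖a‖ ≤ α) :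
    Integrable (fun θ => log ‖circleMap 0 α θ - a‖) lam ∧
      ∫ θ, log ‖circleMap 0 α θ - a‖ ∂lam = log α := by
  constructor
  · exact (circleIntegrable_log_norm_sub_const (a := a) (c := 0) α).1.smul_measure
      ENNReal.ofReal_ne_top
  · have := circleAverage_log_norm_sub_const_of_mem_closedBall (a := a) (c := 0) (R := α)
      (by simpa [abs_of_pos hα] using ha)
    rw [circleAverage_def, intervalIntegral.integral_of_le (by positivity)] at this
    rw [lam, integral_smul_measure, ENNReal.toReal_ofReal (by positivity), this]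

lemma pair {α β : ℝ} (hβ : 0 ≤ β) (h : β ≤ α) (hα : 0 < α) :
    (∀ᵐ p ∂lam.prod lam, circleMap 0 α p.1 ≠ circleMap 0 β p.2) ∧
    Integrable (fun p : ℝ × ℝ => log ‖circleMap 0 α p.1 - circleMap 0 β p.2‖) (lam.prod lam) ∧
    ∫ p, log ‖circleMap 0 α p.1 - circleMap 0 β p.2‖ ∂lam.prod lam = log α := by
  have c1 := continuous_circleMap 0 α
  have c2 := continuous_circleMap 0 β
  have hb : ∀ φ, ‖circleMap 0 β φ‖ ≤ α := fun φ => by simpa [abs_of_nonneg hβ] using h
  have hi : Integrable (fun p : ℝ × ℝ => log ‖circleMap 0 α p.1 - circleMap 0 β p.2‖)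
      (lam.prod lam) := by
    have : Integrable (fun p : ℝ × ℝ => 2 * α - log ‖circleMap 0 α p.1 - circleMap 0 β p.2‖)
        (lam.prod lam) := by
      refine (integrable_prod_iff' (Measurable.aestronglyMeasurable (by fun_prop))).2
        ⟨ae_of_all _ fun φ => (integrable_const _).sub (sec hα (hb φ)).1, ?_⟩
      refine (integrable_const (2 * α - log α)).congr (ae_of_all _ fun φ => ?_)
      have : ∀ θ, ‖2 * α - log ‖circleMap 0 α θ - circleMap 0 β φ‖‖
          = 2 * α - log ‖circleMap 0 α θ - circleMap 0 β φ‖ := fun θ => by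
        refine Real.norm_of_nonneg (sub_nonneg.2 ((log_le_self (norm_nonneg _)).trans ?_))
        have := norm_sub_le (circleMap 0 α θ) (circleMap 0 β φ)
        rw [norm_circleMap_zero α, abs_of_pos hα] at this
        linarith [hb φ]
      simp only [this]
      rw [integral_sub (integrable_const _) (sec hα (hb φ)).1, (sec hα (hb φ)).2]; simp
    simpa using ((integrable_const (2 * α)).sub this).congr
      (g := fun p : ℝ × ℝ => log ‖circleMap 0 α p.1 - circleMap 0 β p.2‖) (ae_of_all _ fun p => by simp)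
  refine ⟨?_, hi, ?_⟩
  · have m : MeasurableSet {p : ℝ × ℝ | circleMap 0 α p.1 ≠ circleMap 0 β p.2} :=
      (isOpen_ne_fun (by fun_prop) (by fun_prop)).measurableSet
    rw [Measure.ae_prod_iff_ae_ae m, Measure.ae_ae_comm (p := fun x y =>
      circleMap 0 α x ≠ circleMap 0 β y) m]
    refine ae_of_all _ fun φ => Measure.ae_smul_measure (ae_restrict_of_ae ?_) _
    exact ((countable_singleton (circleMap 0 β φ)).preimage_circleMap 0 hα.ne').ae_notMem volume
  · rw [integral_prod_symm _ hi]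
    simp only [fun φ => (sec hα (hb φ)).2]; simp

noncomputable def γ {k : ℕ} (r : ℝ) (z : Fin k → ℝ) (θ : ℝ) : E (k + 2) :=
  WithLp.toLp 2 (Fin.cons (r * cos θ) (Fin.cons (r * sin θ) z))

lemma γ_c {k : ℕ} (r : ℝ) (z : Fin k → ℝ) : Continuous (γ r z) := by
  refine (PiLp.continuous_toLp 2 _).comp (continuous_pi fun i => ?_)
  refine Fin.cases ?_ (fun i => Fin.cases ?_ (fun i => ?_) i) i <;>
    simp only [Fin.cons_zero, Fin.cons_succ] <;> fun_prop

lemma γ_d {k : ℕ} (r s : ℝ) (z w : Fin k → ℝ) (θ φ : ℝ) : ‖γ r z θ - γ s w φ‖ ^ 2 =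
    r ^ 2 + s ^ 2 + ∑ l, (z l - w l) ^ 2 - 2 * (r * s) * cos (θ - φ) := by
  rw [EuclideanSpace.real_norm_sq_eq, Fin.sum_univ_succ, Fin.sum_univ_succ, cos_sub]
  simp only [γ, PiLp.sub_apply, Fin.cons_zero, Fin.cons_succ]
  nlinarith [sin_sq_add_cos_sq θ, sin_sq_add_cos_sq φ]

lemma c_d (α β θ φ : ℝ) : ‖circleMap 0 α θ - circleMap 0 β φ‖ ^ 2 =
    α ^ 2 + β ^ 2 - 2 * (α * β) * cos (θ - φ) := by
  rw [Complex.sq_norm, Complex.normSq_apply, cos_sub]
  simp only [Complex.sub_re, Complex.sub_im, circleMap_zero_re, circleMap_zero_im]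
  nlinarith [sin_sq_add_cos_sq θ, sin_sq_add_cos_sq φ]

lemma circ {k N : ℕ} (r : Fin N → ℝ) (z : Fin N → Fin k → ℝ) (w : Fin N → ℝ≥0)
    (hr : ∀ i, 0 < r i) (hw : ∑ i, w i = 1)
    (hD : ∀ i j, (r i + r j) ^ 2 + ∑ l, (z i l - z j l) ^ 2 ≤ 4) (i₀ : Fin N) (h1 : r i₀ = 1) :
    ∃ K : Set (E (k + 2)), IsCompact K ∧ diam K = 2 ∧ ∃ μ : Measure (E (k + 2)),
      IsProbabilityMeasure μ ∧ μ Kᶜ = 0 ∧ (∀ᵐ p ∂μ.prod μ, p.1 ≠ p.2) ∧
      Integrable (fun p : E (k + 2) × E (k + 2) => log ‖p.1 - p.2‖) (μ.prod μ) ∧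
      ∫ p, log ‖p.1 - p.2‖ ∂μ.prod μ = ∑ i, ∑ j, w i * w j *
        log ((√((r i + r j) ^ 2 + ∑ l, (z i l - z j l) ^ 2) +
          √((r i - r j) ^ 2 + ∑ l, (z i l - z j l) ^ 2)) / 2) := by
  set g := fun i => γ (r i) (z i) with hg
  have gm : ∀ i, Measurable (g i) := fun i => (γ_c _ _).measurable
  set K := ⋃ i, g i '' Icc 0 (2 * π)
  have hK : IsCompact K := isCompact_iUnion fun i => isCompact_Icc.image (γ_c _ _)
  have q0 : ∀ i j, 0 ≤ ∑ l, (z i l - z j l) ^ 2 := fun i j => by positivity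
  set μ : Measure (E (k + 2)) := Measure.sum fun i => w i • lam.map (g i) with hμ
  have e : μ.prod μ = ∑ p : Fin N × Fin N,
      (w p.1 * w p.2) • (lam.prod lam).map (Prod.map (g p.1) (g p.2)) := by
    rw [hμ, Measure.prod_sum, Measure.sum_fintype]
    refine Finset.sum_congr rfl fun p _ => ?_
    rw [Measure.prod_smul_left, Measure.prod_smul_right, Measure.map_prod_map _ _ (gm _) (gm _),
      smul_smul]
  have key : ∀ p : Fin N × Fin N,
      (∀ᵐ x ∂(lam.prod lam).map (Prod.map (g p.1) (g p.2)), x.1 ≠ x.2) ∧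
      Integrable (fun p : E (k + 2) × E (k + 2) => log ‖p.1 - p.2‖)
        ((lam.prod lam).map (Prod.map (g p.1) (g p.2))) ∧
      ∫ p, log ‖p.1 - p.2‖ ∂(lam.prod lam).map (Prod.map (g p.1) (g p.2)) =
        log ((√((r p.1 + r p.2) ^ 2 + ∑ l, (z p.1 l - z p.2 l) ^ 2) +
          √((r p.1 - r p.2) ^ 2 + ∑ l, (z p.1 l - z p.2 l) ^ 2)) / 2) := by
    rintro ⟨i, j⟩
    simp only
    have ri := hr i
    have rj := hr j
    have := q0 i j
    set q := ∑ l, (z i l - z j l) ^ 2 with hq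
    have a2 : √((r i + r j) ^ 2 + q) ^ 2 = _ := sq_sqrt (by positivity)
    have b2 : √((r i - r j) ^ 2 + q) ^ 2 = _ := sq_sqrt (by positivity)
    have ab : √((r i - r j) ^ 2 + q) ≤ √((r i + r j) ^ 2 + q) := sqrt_le_sqrt (by nlinarith)
    have a0 : 0 < √((r i + r j) ^ 2 + q) := by positivity
    have b0 := sqrt_nonneg ((r i - r j) ^ 2 + q)
    set a := √((r i + r j) ^ 2 + q)
    set b := √((r i - r j) ^ 2 + q)
    obtain ⟨p1, p2, p3⟩ := pair (α := (a + b) / 2) (β := (a - b) / 2) (by linarith) (by linarith)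
      (by linarith)
    have hn : ∀ θ φ, ‖g i θ - g j φ‖ =
        ‖circleMap 0 ((a + b) / 2) θ - circleMap 0 ((a - b) / 2) φ‖ := fun θ φ => by
      rw [← sq_eq_sq₀ (norm_nonneg _) (norm_nonneg _), γ_d, c_d, ← hq]
      linear_combination (-1 / 2 + cos (θ - φ) / 2) * a2 + (-1 / 2 - cos (θ - φ) / 2) * b2
    have m := ((gm i).prodMap (gm j)).aemeasurable (μ := lam.prod lam)
    have mf : Measurable fun p : E (k + 2) × E (k + 2) => log ‖p.1 - p.2‖ := by fun_prop
    refine ⟨(ae_map_iff m (isOpen_ne_fun continuous_fst continuous_snd).measurableSet).2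
      (p1.mono fun x hx => ?_), (integrable_map_measure mf.aestronglyMeasurable m).2 ?_, ?_⟩
    · rw [← sub_ne_zero, ← norm_ne_zero_iff] at hx ⊢
      exact (hn _ _).trans_ne hx
    · simpa only [Function.comp_def, Prod.map_fst, Prod.map_snd, hn] using p2
    · rw [integral_map m mf.aestronglyMeasurable]
      simpa only [Prod.map_fst, Prod.map_snd, hn] using p3
  have pm : ∀ i, IsProbabilityMeasure (lam.map (g i)) := fun i =>
    Measure.isProbabilityMeasure_map (gm i).aemeasurable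
  refine ⟨K, hK, le_antisymm (diam_le_of_forall_dist_le zero_le_two ?_) ?_, μ, ⟨?_⟩, ?_, ?_, ?_, ?_⟩
  · intro x hx y hy
    obtain ⟨i, θ, -, rfl⟩ := mem_iUnion.1 hx
    obtain ⟨j, φ, -, rfl⟩ := mem_iUnion.1 hy
    rw [dist_eq_norm]
    refine (pow_le_pow_iff_left₀ (norm_nonneg _) zero_le_two two_ne_zero).1 ?_
    rw [γ_d]
    nlinarith [hD i j, mul_pos (hr i) (hr j), neg_one_le_cos (θ - φ)]
  · refine le_trans ?_ (dist_le_diam_of_mem hK.isBounded
      (mem_iUnion.2 ⟨i₀, π, ⟨pi_pos.le, by linarith [pi_pos]⟩, rfl⟩)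
      (mem_iUnion.2 ⟨i₀, 0, ⟨le_rfl, by positivity⟩, rfl⟩))
    rw [dist_eq_norm]
    refine (pow_le_pow_iff_left₀ zero_le_two (norm_nonneg _) two_ne_zero).1 ?_
    rw [γ_d, h1]; norm_num
  · rw [hμ, Measure.sum_fintype, Measure.finsetSum_apply]
    simp only [Measure.smul_apply, measure_univ, ENNReal.smul_def, smul_eq_mul, mul_one]
    rw [← ENNReal.ofNNReal_finsetSum, hw, ENNReal.coe_one]
  · change ∀ᵐ x ∂μ, x ∈ K
    rw [hμ, Measure.sum_fintype, ae_finsetSum_measure_iff]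
    refine fun i _ => Measure.ae_smul_measure
      ((ae_map_iff (gm i).aemeasurable hK.isClosed.measurableSet).2 (Measure.ae_smul_measure ?_ _)) _
    filter_upwards [ae_restrict_mem measurableSet_Ioc] with θ hθ
    exact mem_iUnion.2 ⟨i, θ, Ioc_subset_Icc_self hθ, rfl⟩
  · rw [e, ae_finsetSum_measure_iff]
    exact fun p _ => Measure.ae_smul_measure (key p).1 _
  · rw [e, integrable_finsetSum_measure]
    exact fun p _ => (key p).2.1.smul_measure_nnreal
  · rw [e, integral_finsetSum_measure fun p _ => (key p).2.1.smul_measure_nnreal,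
      Fintype.sum_prod_type]
    simp only [integral_smul_nnreal_measure, fun i j => (key (i, j)).2.2, NNReal.smul_def,
      smul_eq_mul, NNReal.coe_mul]

end Pool.Agent.H1.Iso
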