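import Pool.Agent.H1.IsoC

namespace Pool.Agent.H1.Iso

open Metric Filter Topology Set MeasureTheory Real
open scoped NNReal

def aq (n : ℕ) : ℕ → ℚ
  | 0 => 1
  | j + 1 => (2 * j + 1) * aq n j / (2 * j + 1 + n)

lemma A_eq (n j : ℕ) : A n j = aq n j := by
  induction j with
  | zero => simp [A_zero, aq]
  | succ j ih =>
    have := A_rec n j
    rw [aq]; push_cast
    rw [← ih, eq_div_iff (by positivity)]; linarith

lemma main {k N : ℕ} (hk : 1 ≤ k) (R W : Fin N → ℕ) (Z : Fin N → Fin k → ℤ)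
    (a b : Fin N → Fin N → ℕ) (κ J : ℕ) (i₀ : Fin N) (h1 : R i₀ = 1000) (hW : ∑ i, W i = 100)
    (hR : ∀ i, 0 < R i)
    (hab : ∀ i j, 0 < a i j ∧ (a i j : ℤ) ^ 2 ≤ (R i + R j) ^ 2 + ∑ l, (Z i l - Z j l) ^ 2 ∧
      (b i j : ℤ) ^ 2 ≤ (R i - R j) ^ 2 + ∑ l, (Z i l - Z j l) ^ 2 ∧
      ((R i + R j) ^ 2 + ∑ l, (Z i l - Z j l) ^ 2 : ℤ) ≤ 4000000)
    (hκ : 27182818286 ^ κ * 2000 ^ 10000 ≤
      10000000000 ^ κ * ∏ i, ∏ j, (a i j + b i j) ^ (W i * W j))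
    (hJ : (6931471808 / 10000000000 - ∑ j ∈ Finset.range J, aq (k + 1) (j + 1) / (2 * j + 2)) / 2
      < (κ / 10000 : ℚ)) :
    ∃ K : Set (E (k + 2)), IsCompact K ∧ diam K = 2 ∧ ∃ (μ : Measure (E (k + 2))) (c : ℝ),
      IsProbabilityMeasure μ ∧ μ Kᶜ = 0 ∧ (∀ᵐ p ∂μ.prod μ, p.1 ≠ p.2) ∧
      Integrable (fun p : E (k + 2) × E (k + 2) => log ‖p.1 - p.2‖) (μ.prod μ) ∧
      c < ∫ p, log ‖p.1 - p.2‖ ∂μ.prod μ ∧
      ∀ ν : Measure (E (k + 2)), IsProbabilityMeasure ν → ν (closedBall 0 1)ᶜ = 0 →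
        (∀ᵐ p ∂ν.prod ν, p.1 ≠ p.2) →
        Integrable (fun p : E (k + 2) × E (k + 2) => log ‖p.1 - p.2‖) (ν.prod ν) →
        ∫ p, log ‖p.1 - p.2‖ ∂ν.prod ν ≤ c := by
  have eq : ∀ i j, ∑ l, ((Z i l : ℝ) / 1000 - Z j l / 1000) ^ 2
      = (∑ l, ((Z i l : ℝ) - Z j l) ^ 2) / 1000000 := fun i j => by
    rw [Finset.sum_div]; exact Finset.sum_congr rfl fun l _ => by ring
  obtain ⟨K, hK, hd, μ, p1, p2, p3, p4, p5⟩ := circ (fun i => (R i : ℝ) / 1000)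
    (fun i l => (Z i l : ℝ) / 1000) (fun i => (W i : ℝ≥0) / 100)
    (fun i => by have := hR i; positivity)
    (by rw [← Finset.sum_div, ← Nat.cast_sum, hW]; norm_num) (fun i j => by
      have : ((R i : ℝ) + R j) ^ 2 + ∑ l, ((Z i l : ℝ) - Z j l) ^ 2 ≤ 4000000 := by
        exact_mod_cast (hab i j).2.2.2
      rw [eq]; linarith) i₀ (by rw [h1]; norm_num)
  refine ⟨K, hK, hd, μ, _, p1, p2, p3, p4, ?_, fun ν _ h1 h2 h3 =>
    upper (n := k + 1) (by omega) h1 h2 h3 J⟩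
  have s1 : (log 2 - ∑ j ∈ Finset.range J, A (k + 1) (j + 1) / (2 * j + 2)) / 2 < κ / 10000 := by
    have : ((6931471808 / 10000000000 : ℝ) - ∑ j ∈ Finset.range J, (aq (k + 1) (j + 1) : ℝ) / (2 * j + 2)) / 2
      < κ / 10000 := by
      have := (Rat.cast_lt (K := ℝ)).2 hJ
      push_cast at this
      exact this
    simp only [A_eq]; linarith [log_two_lt_d9]
  refine s1.trans_le ?_
  have ab0 : ∀ i j, (0 : ℝ) < a i j + b i j := fun i j => by have := (hab i j).1; positivity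
  have s2 : (κ : ℝ) + 10000 * log 2000 ≤ ∑ i, ∑ j, W i * W j * log ((a i j : ℝ) + b i j) := by
    have h : (27182818286 : ℝ) ^ κ * 2000 ^ 10000 ≤
      10000000000 ^ κ * ∏ i, ∏ j, ((a i j : ℝ) + b i j) ^ (W i * W j) := by exact_mod_cast hκ
    have P0 : ∀ i, 0 < ∏ j, ((a i j : ℝ) + b i j) ^ (W i * W j) := fun i =>
      Finset.prod_pos fun j _ => pow_pos (ab0 i j) _
    have := log_le_log (by positivity) h
    rw [log_mul (by positivity) (by positivity),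
      log_mul (by positivity) (Finset.prod_pos fun i _ => P0 i).ne', log_prod fun i _ => (P0 i).ne',
      Finset.sum_congr rfl fun i _ => log_prod fun j _ => (pow_pos (ab0 i j) _).ne'] at this
    simp only [log_pow] at this
    have e : 1 ≤ log 27182818286 - log 10000000000 := by
      rw [← log_div (by norm_num) (by norm_num), le_log_iff_exp_le (by norm_num)]
      linarith [exp_one_lt_d9]
    push_cast at this
    nlinarith [mul_le_mul_of_nonneg_left e (Nat.cast_nonneg κ)]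
  have s3 : ∑ i, ∑ j, (W i : ℝ) * W j * log 2000 = 10000 * log 2000 := by
    have : ∑ i, (W i : ℝ) = 100 := by exact_mod_cast hW
    simp only [← Finset.sum_mul, ← Finset.mul_sum, this]; norm_num
  rw [p5, div_le_iff₀ (by norm_num), Finset.sum_mul]
  rw [← s3, ← le_sub_iff_add_le, ← Finset.sum_sub_distrib] at s2
  refine s2.trans (Finset.sum_le_sum fun i _ => ?_)
  rw [Finset.sum_mul, ← Finset.sum_sub_distrib]
  refine Finset.sum_le_sum fun j _ => ?_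
  have ha : (a i j : ℝ) / 1000 ≤ √(((R i : ℝ) / 1000 + R j / 1000) ^ 2 +
      ∑ l, ((Z i l : ℝ) / 1000 - Z j l / 1000) ^ 2) := by
    have : (a i j : ℝ) ^ 2 ≤ ((R i : ℝ) + R j) ^ 2 + ∑ l, ((Z i l : ℝ) - Z j l) ^ 2 := by
      exact_mod_cast (hab i j).2.1
    refine le_sqrt_of_sq_le ?_
    rw [eq]; linarith
  have hb : (b i j : ℝ) / 1000 ≤ √(((R i : ℝ) / 1000 - R j / 1000) ^ 2 +
      ∑ l, ((Z i l : ℝ) / 1000 - Z j l / 1000) ^ 2) := by
    have : (b i j : ℝ) ^ 2 ≤ ((R i : ℝ) - R j) ^ 2 + ∑ l, ((Z i l : ℝ) - Z j l) ^ 2 := by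
      exact_mod_cast (hab i j).2.2.1
    refine le_sqrt_of_sq_le ?_
    rw [eq]; linarith
  have := log_le_log (div_pos (ab0 i j) (show (0 : ℝ) < 2000 by norm_num))
    (show _ ≤ _ / 2 by linarith [add_le_add ha hb] :
      ((a i j : ℝ) + b i j) / 2000 ≤ (√(((R i : ℝ) / 1000 + R j / 1000) ^ 2 +
      ∑ l, ((Z i l : ℝ) / 1000 - Z j l / 1000) ^ 2) + √(((R i : ℝ) / 1000 - R j / 1000) ^ 2 +
      ∑ l, ((Z i l : ℝ) / 1000 - Z j l / 1000) ^ 2)) / 2)
  rw [log_div (ab0 i j).ne' (by norm_num)] at this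
  push_cast
  nlinarith [mul_le_mul_of_nonneg_left this (show (0 : ℝ) ≤ W i * W j by positivity)]

end Pool.Agent.H1.Iso
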