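import Mathlib

namespace Pool.Agent.H1.Jc

open Filter Topology Set Metric Complex
open scoped ComplexConjugate

lemma mob_id (a z : ℂ) : ‖1 - conj a * z‖ ^ 2 - ‖z - a‖ ^ 2 = (1 - ‖a‖ ^ 2) * (1 - ‖z‖ ^ 2) := by
  simp only [← Complex.normSq_eq_norm_sq, Complex.normSq_apply, sub_re, sub_im, mul_re, mul_im,
    conj_re, conj_im, one_re, one_im]
  ring

lemma sq_pos' {z : ℂ} (h : ‖z‖ < 1) : 0 < 1 - ‖z‖ ^ 2 := by nlinarith [norm_nonneg z]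

lemma mob_lt {a z : ℂ} (ha : ‖a‖ < 1) (hz : ‖z‖ < 1) : ‖z - a‖ < ‖1 - conj a * z‖ := by
  have := mob_id a z
  have h := mul_pos (sq_pos' ha) (sq_pos' hz)
  exact lt_of_pow_lt_pow_left₀ 2 (norm_nonneg _) (by linarith)

lemma mob_ne {a z : ℂ} (ha : ‖a‖ < 1) (hz : ‖z‖ < 1) : 1 - conj a * z ≠ 0 :=
  norm_pos_iff.1 ((norm_nonneg _).trans_lt (mob_lt ha hz))

lemma sp0 {G : ℂ → ℂ} (hG : DifferentiableOn ℂ G (ball 0 1)) (h1 : ∀ z, ‖z‖ < 1 → ‖G z‖ ≤ 1)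
    {a z : ℂ} (ha : ‖a‖ < 1) (hz : ‖z‖ < 1) (h0 : G a = 0) :
    ‖G z‖ * ‖1 - conj a * z‖ ≤ ‖z - a‖ := by
  have ha' : ‖-a‖ < 1 := by simpa using ha
  let m : ℂ → ℂ := fun w => (w - -a) / (1 - conj (-a) * w)
  have hm : ∀ w, ‖w‖ < 1 → ‖m w‖ < 1 := fun w hw => by
    rw [norm_div, div_lt_one (norm_pos_iff.2 (mob_ne ha' hw))]; exact mob_lt ha' hw
  have hd := mob_ne ha hz
  have hu : ‖(z - a) / (1 - conj a * z)‖ < 1 := by
    rw [norm_div, div_lt_one (norm_pos_iff.2 hd)]; exact mob_lt ha hz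
  have h := Complex.norm_le_norm_of_mapsTo_ball (f := G ∘ m) (R := 1)
    (hG.comp (DifferentiableOn.div (by fun_prop) (by fun_prop) fun w hw => mob_ne ha' (by simpa using hw))
      fun w hw => by simpa using hm w (by simpa using hw))
    (fun w hw => by simpa using h1 _ (hm w (by simpa using hw))) (by simp [m, h0]) hu
  have e : m ((z - a) / (1 - conj a * z)) = z := by
    have h2 := mob_ne ha' hu
    simp only [m]
    rw [div_eq_iff h2, map_neg]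
    have h3 := div_mul_cancel₀ (z - a) hd
    linear_combination h3
  rw [Function.comp, e, norm_div, le_div_iff₀ (norm_pos_iff.2 hd)] at h
  exact h

lemma pos_re {F : ℂ → ℂ} (hF : DifferentiableOn ℂ F (ball 0 1)) (h1 : ∀ z, ‖z‖ < 1 → 0 ≤ (F z).re)
    {η : ℝ} (hη : 0 < η) {a z : ℂ} (ha : ‖a‖ < 1) (hz : ‖z‖ < 1) :
    ‖F z - F a‖ * ((1 - ‖a‖ ^ 2) * (1 - ‖z‖ ^ 2)) ≤ 4 * ((F a).re + η) * ‖1 - conj a * z‖ ^ 2 := by
  have hne : ∀ w, ‖w‖ < 1 → F w + conj (F a) + 2 * η ≠ 0 := fun w hw h => by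
    have := congrArg re h
    simp at this
    linarith [h1 w hw, h1 a ha]
  have h := sp0 (G := fun w => (F w - F a) / (F w + conj (F a) + 2 * η))
    (DifferentiableOn.div (by fun_prop) (by fun_prop) fun w hw => hne w (by simpa using hw))
    (fun w hw => by
      rw [norm_div, div_le_one (norm_pos_iff.2 (hne w hw))]
      refine le_of_sq_le_sq ?_ (norm_nonneg _)
      simp only [← Complex.normSq_eq_norm_sq, Complex.normSq_apply, sub_re, sub_im, add_re, add_im,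
        mul_re, mul_im, conj_re, conj_im, ofReal_re, ofReal_im, re_ofNat, im_ofNat]
      nlinarith [h1 w hw, h1 a ha, mul_nonneg (h1 w hw) (h1 a ha), mul_nonneg (h1 w hw) hη.le,
        mul_nonneg (h1 a ha) hη.le]) ha hz (by simp)
  rw [norm_div, div_mul_eq_mul_div, div_le_iff₀ (norm_pos_iff.2 (hne z hz))] at h
  have h2 : ‖F z + conj (F a) + 2 * η‖ ≤ ‖F z - F a‖ + 2 * ((F a).re + η) := by
    have : F z + conj (F a) + 2 * η = (F z - F a) + ((2 * ((F a).re + η) : ℝ) : ℂ) := by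
      apply Complex.ext <;> simp <;> ring
    rw [this]
    refine (norm_add_le _ _).trans (le_of_eq ?_)
    rw [norm_real, Real.norm_of_nonneg (by linarith [h1 a ha])]
  rw [← mob_id]
  have h3 := (mob_lt ha hz).le
  set x := ‖F z - F a‖
  set p := ‖z - a‖
  set q := ‖1 - conj a * z‖
  set R := (F a).re + η
  have hR : 0 ≤ R := by linarith [h1 a ha]
  have hp : 0 ≤ p := norm_nonneg _
  have hx : 0 ≤ x := norm_nonneg _
  have h4 : x * (q - p) ≤ 2 * R * q := by nlinarith [mul_le_mul_of_nonneg_left h2 hp]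
  nlinarith [mul_le_mul_of_nonneg_right h4 (by linarith : 0 ≤ q + p), mul_nonneg hR (by linarith : 0 ≤ q)]

variable {φ : ℂ → ℂ}

lemma julia0 (hφ : DifferentiableOn ℂ φ (ball 0 1)) (hm : ∀ z, ‖z‖ < 1 → ‖φ z‖ < 1) {w z : ℂ}
    (hw : ‖w‖ < 1) (hz : ‖z‖ < 1) :
    ‖1 - conj (φ w) * φ z‖ ^ 2 * ((1 - ‖w‖ ^ 2) * (1 - ‖z‖ ^ 2)) ≤
      (1 - ‖φ w‖ ^ 2) * (1 - ‖φ z‖ ^ 2) * ‖1 - conj w * z‖ ^ 2 := by
  have hne := fun u hu => mob_ne (hm w hw) (hm u hu)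
  have h := sp0 (G := fun u => (φ u - φ w) / (1 - conj (φ w) * φ u))
    (DifferentiableOn.div (by fun_prop) (by fun_prop) fun u hu => hne u (by simpa using hu))
    (fun u hu => by
      rw [norm_div, div_le_one (norm_pos_iff.2 (hne u hu))]; exact (mob_lt (hm w hw) (hm u hu)).le)
    hw hz (by simp)
  rw [norm_div, div_mul_eq_mul_div, div_le_iff₀ (norm_pos_iff.2 (hne z hz))] at h
  rw [← mob_id, ← mob_id]
  have := pow_le_pow_left₀ (by positivity) h 2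
  nlinarith

def St (ζ : ℂ) (A : ℝ) : Set ℂ := {z | ‖z‖ < 1 ∧ ‖ζ - z‖ ≤ A * (1 - ‖z‖)}

/-- Julia–Carathéodory data at the boundary point `ζ` -/
structure JC (φ : ℂ → ℂ) (ζ ω : ℂ) (d : ℝ) : Prop where
  norm : ‖ω‖ = 1
  pos : 0 < d
  jul : ∀ z, ‖z‖ < 1 → ‖ω - φ z‖ ^ 2 * (1 - ‖z‖ ^ 2) ≤ d * ‖ζ - z‖ ^ 2 * (1 - ‖φ z‖ ^ 2)
  lim : ∀ A, Tendsto (fun z => (ω - φ z) / (ζ - z)) (𝓝[St ζ A] ζ) (𝓝 (d * ω / ζ))

lemma norm_one_sub {ω u : ℂ} (h : ‖ω‖ = 1) : ‖1 - conj ω * u‖ = ‖ω - u‖ := by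
  have : ω * conj ω = 1 := by rw [Complex.mul_conj', h]; simp
  rw [show ω - u = ω * (1 - conj ω * u) by linear_combination u * this, norm_mul, h, one_mul]

lemma sub_ne' {ω u : ℂ} (h : ‖ω‖ = 1) (hu : ‖u‖ < 1) : ω - u ≠ 0 := fun h0 => by
  rw [← sub_eq_zero.1 h0] at hu; linarith

lemma re_cay {ω u : ℂ} (h : ‖ω‖ = 1) : ((ω + u) / (ω - u)).re = (1 - ‖u‖ ^ 2) / ‖ω - u‖ ^ 2 := by
  have h2 : ‖ω‖ ^ 2 = 1 := by rw [h]; norm_num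
  rw [Complex.div_re, ← add_div, ← h2]
  simp only [← Complex.normSq_eq_norm_sq, Complex.normSq_apply, sub_re, sub_im, add_re, add_im]
  ring

lemma julia (hφ : DifferentiableOn ℂ φ (ball 0 1)) (hm : ∀ z, ‖z‖ < 1 → ‖φ z‖ < 1) {ζ : ℂ}
    (hζ : ‖ζ‖ = 1) {L : ℝ}
    (h : ∀ δ > 0, ∃ z, ‖z‖ < 1 ∧ ‖ζ - z‖ < δ ∧ 1 - ‖φ z‖ ^ 2 < L * (1 - ‖z‖ ^ 2)) :
    ∃ ω, ‖ω‖ = 1 ∧ ∀ z, ‖z‖ < 1 →
      ‖ω - φ z‖ ^ 2 * (1 - ‖z‖ ^ 2) ≤ L * ‖ζ - z‖ ^ 2 * (1 - ‖φ z‖ ^ 2) := by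
  choose u hu1 hu2 hu3 using fun n : ℕ => h (1 / ((n : ℝ) + 1)) (by positivity)
  have t0 : Tendsto u atTop (𝓝 ζ) := by
    rw [tendsto_iff_norm_sub_tendsto_zero]
    exact squeeze_zero (fun _ => norm_nonneg _) (fun n => by rw [norm_sub_rev]; exact (hu2 n).le)
      tendsto_one_div_add_atTop_nhds_zero_nat
  obtain ⟨ω, -, s, hs, t1⟩ := (isCompact_closedBall (0 : ℂ) 1).tendsto_subseq
    (x := fun n => φ (u n)) fun n => by simpa using (hm _ (hu1 n)).le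
  have t2 := t0.comp hs.tendsto_atTop
  have hω : ‖ω‖ = 1 := by
    have a1 := le_of_tendsto_of_tendsto' ((t1.norm.pow 2).const_sub 1)
      (((t2.norm.pow 2).const_sub 1).const_mul L) fun n => (hu3 (s n)).le
    have a2 := le_of_tendsto' t1.norm fun n => (hm _ (hu1 (s n))).le
    rw [hζ] at a1
    nlinarith [norm_nonneg ω]
  refine ⟨ω, hω, fun z hz => ?_⟩
  have c : ∀ y : ℂ, Continuous fun v : ℂ => ‖1 - conj v * y‖ ^ 2 := fun y => by fun_prop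
  have a1 := le_of_tendsto_of_tendsto' ((((c (φ z)).tendsto ω).comp t1).mul_const (1 - ‖z‖ ^ 2))
    (((((c z).tendsto ζ).comp t2).const_mul L).mul_const (1 - ‖φ z‖ ^ 2)) fun n => by
      have b1 := julia0 hφ hm (hu1 (s n)) hz
      have b2 := mul_le_mul_of_nonneg_right (hu3 (s n)).le
        (mul_nonneg (sq_pos' (hm z hz)).le (sq_nonneg ‖1 - conj (u (s n)) * z‖))
      refine le_of_mul_le_mul_left ?_ (sq_pos' (hu1 (s n)))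
      simp only [Function.comp]
      nlinarith
  rwa [norm_one_sub hω, norm_one_sub hζ] at a1

theorem dich (hφ : DifferentiableOn ℂ φ (ball 0 1)) (hm : ∀ z, ‖z‖ < 1 → ‖φ z‖ < 1) {ζ : ℂ}
    (hζ : ‖ζ‖ = 1) : (∀ L : ℝ, ∃ δ > 0, ∀ z, ‖z‖ < 1 → ‖ζ - z‖ < δ →
      L * (1 - ‖z‖ ^ 2) ≤ 1 - ‖φ z‖ ^ 2) ∨ ∃ ω d, JC φ ζ ω d := by
  by_contra hc
  push Not at hc
  obtain ⟨⟨L, hL⟩, hc⟩ := hc
  obtain ⟨ω, hω, hj⟩ := julia hφ hm hζ hL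
  have n1 : ∀ z, ‖z‖ < 1 → 0 < ‖ζ - z‖ := fun z hz => norm_pos_iff.2 (sub_ne' hζ hz)
  have n2 : ∀ z, ‖z‖ < 1 → 0 < ‖ω - φ z‖ := fun z hz => norm_pos_iff.2 (sub_ne' hω (hm z hz))
  let q : ball (0 : ℂ) 1 → ℝ := fun z =>
    ‖ω - φ z‖ ^ 2 * (1 - ‖(z : ℂ)‖ ^ 2) / (‖ζ - z‖ ^ 2 * (1 - ‖φ z‖ ^ 2))
  have hb : ∀ z : ball (0 : ℂ) 1, ‖(z : ℂ)‖ < 1 := fun z => mem_ball_zero_iff.1 z.2
  have hden : ∀ z, ‖z‖ < 1 → 0 < ‖ζ - z‖ ^ 2 * (1 - ‖φ z‖ ^ 2) := fun z hz =>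
    mul_pos (pow_pos (n1 z hz) 2) (sq_pos' (hm z hz))
  have hbdd : BddAbove (range q) := ⟨L, by
    rintro _ ⟨z, rfl⟩
    rw [div_le_iff₀ (hden _ (hb z)), ← mul_assoc]; exact hj z (hb z)⟩
  have hne : Nonempty (ball (0 : ℂ) 1) := ⟨⟨0, by simp⟩⟩
  set d := ⨆ z, q z with hd
  have hq0 : ∀ z, 0 < q z := fun z =>
    div_pos (mul_pos (pow_pos (n2 _ (hb z)) 2) (sq_pos' (hb z))) (hden _ (hb z))
  have hd0 : 0 < d := (hq0 hne.some).trans_le (le_ciSup hbdd _)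
  have hjd : ∀ z, ‖z‖ < 1 → ‖ω - φ z‖ ^ 2 * (1 - ‖z‖ ^ 2) ≤ d * ‖ζ - z‖ ^ 2 * (1 - ‖φ z‖ ^ 2) := by
    intro z hz
    have := le_ciSup hbdd ⟨z, by simpa using hz⟩
    rw [div_le_iff₀ (hden _ hz), ← mul_assoc] at this
    exact this
  let F : ℂ → ℂ := fun z => d * ((ω + φ z) / (ω - φ z)) - (ζ + z) / (ζ - z)
  have hre : ∀ z, (F z).re = d * ((1 - ‖φ z‖ ^ 2) / ‖ω - φ z‖ ^ 2) - (1 - ‖z‖ ^ 2) / ‖ζ - z‖ ^ 2 :=
    fun z => by simp only [F, sub_re, re_ofReal_mul, re_cay hω, re_cay hζ]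
  have hF : DifferentiableOn ℂ F (ball 0 1) :=
    ((DifferentiableOn.div (by fun_prop) (by fun_prop) fun z hz =>
      sub_ne' hω (hm z (by simpa using hz))).const_mul _).sub
      (DifferentiableOn.div (by fun_prop) (by fun_prop) fun z hz => sub_ne' hζ (by simpa using hz))
  have hF0 : ∀ z, ‖z‖ < 1 → 0 ≤ (F z).re := fun z hz => by
    rw [hre, sub_nonneg, ← mul_div_assoc, div_le_div_iff₀ (pow_pos (n1 z hz) 2) (pow_pos (n2 z hz) 2)]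
    linarith [hjd z hz]
  have t1 : Tendsto (fun z => ‖F z‖ * (1 - ‖z‖ ^ 2)) (𝓝[{z | ‖z‖ < 1}] ζ) (𝓝 0) := by
    rw [Metric.tendsto_nhds]
    intro ε hε
    obtain ⟨a, ha⟩ := exists_lt_of_lt_ciSup (show d / (1 + ε / 20) < ⨆ z, q z from
      div_lt_self hd0 (by linarith))
    have ha1 := hb a
    have p1 := pow_pos (n1 _ ha1) 2
    have p2 := pow_pos (n2 _ ha1) 2
    have p3 := sq_pos' ha1
    have a1 : (F a).re ≤ ε / 20 * ((1 - ‖(a : ℂ)‖ ^ 2) / ‖ζ - a‖ ^ 2) := by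
      rw [div_lt_div_iff₀ (by linarith) (hden _ ha1)] at ha
      rw [hre, sub_le_iff_le_add, ← add_one_mul, ← mul_div_assoc, ← mul_div_assoc,
        div_le_div_iff₀ p2 p1]
      linarith
    have c1 : ContinuousAt (fun z : ℂ => ‖F a‖ * (1 - ‖z‖ ^ 2) +
        8 * (ε / 20) * (‖1 - conj (a : ℂ) * z‖ ^ 2 / ‖ζ - a‖ ^ 2)) ζ := by fun_prop
    have c2 : ‖F a‖ * (1 - ‖ζ‖ ^ 2) + 8 * (ε / 20) * (‖1 - conj (a : ℂ) * ζ‖ ^ 2 / ‖ζ - a‖ ^ 2) < ε := by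
      have : ‖1 - conj (a : ℂ) * ζ‖ = ‖ζ - a‖ := by
        rw [← norm_one_sub hζ, ← RCLike.norm_conj]; simp [mul_comm]
      rw [this, div_self p1.ne', hζ]; linarith
    filter_upwards [nhdsWithin_le_nhds (c1.eventually (gt_mem_nhds c2)), self_mem_nhdsWithin]
      with z h1 h2
    have h2' : ‖z‖ < 1 := h2
    have p4 := sq_pos' h2'
    have a2 := pos_re hF hF0 (η := ε / 20 * ((1 - ‖(a : ℂ)‖ ^ 2) / ‖ζ - a‖ ^ 2)) (by positivity) ha1 h2'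
    have a3 : ‖F z - F a‖ * (1 - ‖z‖ ^ 2) ≤
        8 * (ε / 20) * (‖1 - conj (a : ℂ) * z‖ ^ 2 / ‖ζ - a‖ ^ 2) := by
      refine le_of_mul_le_mul_left ?_ p3
      have a4 := mul_le_mul_of_nonneg_right a1 (sq_nonneg ‖1 - conj (a : ℂ) * z‖)
      have e : (1 - ‖(a : ℂ)‖ ^ 2) * (8 * (ε / 20) * (‖1 - conj (a : ℂ) * z‖ ^ 2 / ‖ζ - a‖ ^ 2)) =
        8 * (ε / 20 * ((1 - ‖(a : ℂ)‖ ^ 2) / ‖ζ - a‖ ^ 2) * ‖1 - conj (a : ℂ) * z‖ ^ 2) := by ring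
      rw [e]; linarith
    have a5 : ‖F z‖ ≤ ‖F a‖ + ‖F z - F a‖ := by
      simpa using norm_add_le (F a) (F z - F a)
    rw [Real.dist_eq, sub_zero, abs_of_nonneg (by positivity)]
    nlinarith [mul_le_mul_of_nonneg_right a5 p4.le]
  refine hc ω d ⟨hω, hd0, hjd, fun A => ?_⟩
  have hζ0 : ζ ≠ 0 := by rintro rfl; simp at hζ
  have hω0 : ω ≠ 0 := by rintro rfl; simp at hω
  have hd' : (d : ℂ) ≠ 0 := by exact_mod_cast hd0.ne'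
  have t2 : Tendsto (fun z => (ζ - z) * F z) (𝓝[St ζ A] ζ) (𝓝 0) := by
    have := (t1.mono_left (nhdsWithin_mono ζ fun z (hz : z ∈ St ζ A) => hz.1)).const_mul |A|
    rw [mul_zero] at this
    refine squeeze_zero_norm' ?_ this
    filter_upwards [self_mem_nhdsWithin] with z hz
    have h0 := norm_nonneg z
    have h1 : ‖ζ - z‖ ≤ |A| * (1 - ‖z‖ ^ 2) := hz.2.trans (mul_le_mul (le_abs_self A)
      (by nlinarith [hz.1]) (by linarith [hz.1]) (abs_nonneg A))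
    rw [norm_mul]
    nlinarith [mul_le_mul_of_nonneg_right h1 (norm_nonneg (F z))]
  have t3 : Tendsto (fun z : ℂ => z) (𝓝[St ζ A] ζ) (𝓝 ζ) := tendsto_nhdsWithin_of_tendsto_nhds tendsto_id
  have t4 := (((t2.add (t3.const_add ζ)).add ((t3.const_sub ζ).const_mul (d : ℂ))).inv₀
    (by simpa using hζ0)).const_mul (2 * d * ω)
  rw [show 2 * d * ω * (0 + (ζ + ζ) + d * (ζ - ζ))⁻¹ = d * ω / ζ by
    rw [sub_self, mul_zero, add_zero, zero_add, ← two_mul]; field_simp] at t4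
  refine t4.congr' ?_
  filter_upwards [self_mem_nhdsWithin] with z hz
  have b1 := sub_ne' hζ hz.1
  have b2 := sub_ne' hω (hm z hz.1)
  have e : (ζ - z) * F z + (ζ + z) + d * (ζ - z) = 2 * d * ω * ((ζ - z) / (ω - φ z)) := by
    simp only [F]; field_simp; ring
  rw [e]; field_simp

lemma St_ball {ζ z w : ℂ} {A : ℝ} (hA : 0 ≤ A) (hz : z ∈ St ζ A) (hw : ‖w - z‖ ≤ (1 - ‖z‖) / 2) :
    (1 - ‖z‖) / 2 ≤ 1 - ‖w‖ ∧ ‖ζ - w‖ ≤ (2 * A + 1) * ((1 - ‖z‖) / 2) ∧ w ∈ St ζ (2 * A + 1) := by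
  have h1 : ‖w‖ ≤ ‖z‖ + ‖w - z‖ := by simpa using norm_add_le z (w - z)
  have h2 : ‖ζ - w‖ ≤ ‖ζ - z‖ + ‖w - z‖ := by
    have := norm_sub_le (ζ - z) (w - z); rwa [sub_sub_sub_cancel_right] at this
  have h3 : (1 - ‖z‖) / 2 ≤ 1 - ‖w‖ := by linarith
  have h4 : ‖ζ - w‖ ≤ (2 * A + 1) * ((1 - ‖z‖) / 2) := by linarith [hz.2]
  exact ⟨h3, h4, by linarith [hz.1], h4.trans (mul_le_mul_of_nonneg_left h3 (by linarith))⟩

lemma deriv_est (hφ : DifferentiableOn ℂ φ (ball 0 1)) {z ω L ζ : ℂ} (hz : ‖z‖ < 1) {C : ℝ}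
    (h : ∀ w, ‖w - z‖ ≤ (1 - ‖z‖) / 2 → ‖φ w - ω + L * (ζ - w)‖ ≤ C * ((1 - ‖z‖) / 2)) :
    ‖deriv φ z - L‖ ≤ C := by
  have hs : 0 < (1 - ‖z‖) / 2 := by linarith
  have hsub : closedBall z ((1 - ‖z‖) / 2) ⊆ ball 0 1 := fun w hw => by
    have h1 : ‖w‖ ≤ ‖z‖ + ‖w - z‖ := by simpa using norm_add_le z (w - z)
    rw [mem_closedBall, dist_eq_norm] at hw
    rw [mem_ball_zero_iff]; linarith
  have hd : DifferentiableOn ℂ (fun w => φ w - ω + L * (ζ - w)) (closedBall z ((1 - ‖z‖) / 2)) := by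
    have := hφ.mono hsub
    fun_prop
  have h1 := Complex.norm_deriv_le_of_forall_mem_sphere_norm_le hs
    (hd.mono closure_ball_subset_closedBall).diffContOnCl
    (fun w hw => h w (by rw [mem_sphere, dist_eq_norm] at hw; exact hw.le))
  have h2 : HasDerivAt (fun w => φ w - ω + L * (ζ - w)) (deriv φ z + L * -1) z :=
    ((hφ.differentiableAt (isOpen_ball.mem_nhds (by simpa using hz))).hasDerivAt.sub_const ω).add
      (((hasDerivAt_id z).const_sub ζ).const_mul L)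
  rw [h2.deriv, mul_div_cancel_right₀ _ hs.ne', mul_neg_one, ← sub_eq_add_neg] at h1
  exact h1

lemma JC.close {ζ ω : ℂ} {d : ℝ} (h : JC φ ζ ω d) (hm : ∀ z, ‖z‖ < 1 → ‖φ z‖ < 1) {z : ℂ}
    (hz : ‖z‖ < 1) : ‖ω - φ z‖ * (1 - ‖z‖) ≤ 2 * d * ‖ζ - z‖ ^ 2 := by
  have h1 := h.jul z hz
  have h2 : 1 - ‖φ z‖ ≤ ‖ω - φ z‖ := by rw [← h.norm]; exact norm_sub_norm_le _ _
  have h3 := hm z hz
  have h4 : 1 - ‖φ z‖ ^ 2 ≤ 2 * ‖ω - φ z‖ := by nlinarith [norm_nonneg (φ z)]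
  have h5 := mul_le_mul_of_nonneg_left h4 (mul_nonneg h.pos.le (sq_nonneg ‖ζ - z‖))
  have h6 : 0 < ‖ω - φ z‖ := by linarith
  have h7 : 1 - ‖z‖ ≤ 1 - ‖z‖ ^ 2 := by nlinarith [norm_nonneg z]
  refine le_of_mul_le_mul_left ?_ h6
  nlinarith [mul_le_mul_of_nonneg_left h7 (sq_nonneg ‖ω - φ z‖)]

lemma JC.deriv_bd {ζ ω : ℂ} {d : ℝ} (h : JC φ ζ ω d) (hφ : DifferentiableOn ℂ φ (ball 0 1))
    (hm : ∀ z, ‖z‖ < 1 → ‖φ z‖ < 1) {A : ℝ} (hA : 0 ≤ A) {z : ℂ} (hz : z ∈ St ζ A) :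
    ‖deriv φ z‖ ≤ 2 * d * (2 * A + 1) ^ 2 := by
  have := deriv_est hφ (ω := ω) (L := 0) (ζ := ζ) hz.1 (C := 2 * d * (2 * A + 1) ^ 2) fun w hw => by
    obtain ⟨a1, a2, a3⟩ := St_ball hA hz hw
    have a4 := h.close hm a3.1
    have hs : 0 < (1 - ‖z‖) / 2 := by linarith [hz.1]
    rw [zero_mul, add_zero, norm_sub_rev]
    refine le_of_mul_le_mul_right ?_ hs
    have a5 := mul_le_mul_of_nonneg_left (pow_le_pow_left₀ (norm_nonneg _) a2 2)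
      (by linarith [h.pos] : 0 ≤ 2 * d)
    nlinarith [mul_le_mul_of_nonneg_left a1 (norm_nonneg (ω - φ w))]
  simpa using this

lemma JC.deriv_lim {ζ ω : ℂ} {d : ℝ} (h : JC φ ζ ω d) (hζ : ‖ζ‖ = 1)
    (hφ : DifferentiableOn ℂ φ (ball 0 1)) {A : ℝ} (hA : 0 ≤ A) :
    Tendsto (deriv φ) (𝓝[St ζ A] ζ) (𝓝 (d * ω / ζ)) := by
  rw [Metric.tendsto_nhdsWithin_nhds]
  intro ε hε
  have hA1 : 0 < 2 * A + 1 := by linarith
  obtain ⟨δ, hδ, h1⟩ := Metric.tendsto_nhdsWithin_nhds.1 (h.lim (2 * A + 1)) (ε / 2 / (2 * A + 1))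
    (by positivity)
  refine ⟨δ / (2 * A + 1), by positivity, fun z hz hd => ?_⟩
  rw [dist_eq_norm] at hd ⊢
  refine lt_of_le_of_lt (deriv_est hφ (ω := ω) (ζ := ζ) hz.1 (C := ε / 2) fun w hw => ?_) (by linarith)
  obtain ⟨a1, a2, a3⟩ := St_ball hA hz hw
  have a4 : 1 - ‖z‖ ≤ ‖z - ζ‖ := by rw [norm_sub_rev, ← hζ]; exact norm_sub_norm_le _ _
  have a5 := h1 a3 (by
    rw [dist_eq_norm, norm_sub_rev]
    rw [lt_div_iff₀ hA1] at hd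
    nlinarith [hz.1])
  have b := sub_ne' hζ a3.1
  rw [dist_eq_norm] at a5
  rw [show φ w - ω + d * ω / ζ * (ζ - w) = -(((ω - φ w) / (ζ - w) - d * ω / ζ) * (ζ - w)) by
    rw [sub_mul, div_mul_cancel₀ _ b]; ring, norm_neg, norm_mul]
  refine (mul_le_mul a5.le a2 (norm_nonneg _) (by positivity)).trans (le_of_eq ?_)
  field_simp

lemma JC.val_lim {ζ ω : ℂ} {d : ℝ} (h : JC φ ζ ω d) (hζ : ‖ζ‖ = 1) (A : ℝ) :
    Tendsto φ (𝓝[St ζ A] ζ) (𝓝 ω) := by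
  have t3 : Tendsto (fun z : ℂ => z) (𝓝[St ζ A] ζ) (𝓝 ζ) := tendsto_nhdsWithin_of_tendsto_nhds tendsto_id
  have := ((h.lim A).mul (t3.const_sub ζ)).const_sub ω
  rw [sub_self, mul_zero, sub_zero] at this
  refine this.congr' ?_
  filter_upwards [self_mem_nhdsWithin] with z hz
  rw [div_mul_cancel₀ _ (sub_ne' hζ hz.1)]; ring

end Pool.Agent.H1.Jc
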