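import Pool.Agent.H1.KahDefs

set_option autoImplicit false

namespace Pool.Agent.H1.Kah
open MeasureTheory Filter Topology Finset
open scoped ComplexConjugate

lemma int1 (f : L1) : Integrable f μ := L1.integrable_coeFn f

lemma nf (n : ℤ) (x : T) : ‖fourier n x‖ = 1 := by simp [fourier_apply]

lemma fsub (n : ℤ) (x y : T) : fourier n (x - y) = fourier n x * fourier (-n) y := by
  simp only [fourier_apply, sub_eq_add_neg, smul_add, smul_neg, neg_smul,
    AddCircle.toCircle_add, Circle.coe_mul]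

noncomputable def co (k : ℤ) : L1 →L[ℂ] ℂ :=
  LinearMap.mkContinuous
    { toFun := fun f => fourierCoeff f k
      map_add' := fun f g => by
        rw [fourierCoeff_congr_ae (Lp.coeFn_add f g), fourierCoeff.add (int1 f) (int1 g)]; rfl
      map_smul' := fun c f => by
        rw [fourierCoeff_congr_ae (Lp.coeFn_smul c f), fourierCoeff.const_smul]; rfl }
    1 (fun f => by
      refine (norm_integral_le_integral_norm _).trans (le_of_eq ?_)
      rw [one_mul, L1.norm_eq_integral_norm]
      simp only [norm_smul, nf, one_mul])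

lemma co_apply (k : ℤ) (f : L1) : co k f = fourierCoeff f k := rfl

lemma co_int (k : ℤ) (f : L1) : co k f = ∫ y, fourier (-k) y * f y ∂μ := rfl

lemma int_f (n : ℤ) : ∫ x : T, fourier n x ∂μ = if n = 0 then 1 else 0 := by
  have := congrFun (fourierCoeff_fourier (T := 2 * Real.pi) n) 0
  rw [fourierCoeff] at this
  simp only [neg_zero, fourier_zero, one_smul] at this
  rw [this, Pi.single_apply]
  simp [eq_comm]

lemma exists_conv (f g : L1) : ∃ h : L1, IsConv f g h ∧ ∀ n, co n h = co n f * co n g := by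
  have hi := (int1 g).integrable_convolution (ContinuousLinearMap.mul ℂ ℂ).flip (int1 f)
  refine ⟨hi.toL1 _, hi.coeFn_toL1, fun n => ?_⟩
  rw [co_apply, fourierCoeff_congr_ae hi.coeFn_toL1]
  have := integral_convolution (ContinuousLinearMap.mul ℂ ℂ).flip ((int1 g).fourier_smul (-n))
    ((int1 f).fourier_smul (-n))
  refine Eq.trans ?_ this
  refine integral_congr_ae (Eventually.of_forall fun x => ?_)
  simp only [MeasureTheory.convolution, ContinuousLinearMap.flip_apply, ContinuousLinearMap.mul_apply',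
    smul_eq_mul, ← integral_const_mul]
  refine integral_congr_ae (Eventually.of_forall fun y => ?_)
  have e : fourier (-n) x = fourier (-n) (x - y) * fourier (-n) y := by
    rw [fsub, mul_assoc, ← fourier_add]; simp
  simp only [e]; ring

noncomputable def tp (s : Finset ℤ) (a : ℤ → ℂ) : L1 := ∑ n ∈ s, a n • fourierLp 1 n

lemma tp_ae (s : Finset ℤ) (a : ℤ → ℂ) : tp s a =ᵐ[μ] fun x => ∑ n ∈ s, a n * fourier n x := by
  classical
  induction s using Finset.induction_on with
  | empty => simp only [tp, sum_empty]; exact Lp.coeFn_zero ℂ 1 μ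
  | insert i s hi ih =>
    rw [tp, sum_insert hi]
    filter_upwards [Lp.coeFn_add (a i • fourierLp 1 i) (tp s a), Lp.coeFn_smul (a i) (fourierLp 1 i),
      coeFn_fourierLp 1 i, ih] with x h1 h2 h3 h4
    rw [sum_insert hi, ← h4, ← h3]
    refine h1.trans ?_
    rw [Pi.add_apply, h2]; rfl

lemma tp_norm (s : Finset ℤ) (a : ℤ → ℂ) :
    ‖tp s a‖ = ∫ x, ‖∑ n ∈ s, a n * fourier n x‖ ∂μ := by
  rw [L1.norm_eq_integral_norm]
  exact integral_congr_ae ((tp_ae s a).mono fun x hx => by simp only [hx])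

lemma co_f (m n : ℤ) : co m (fourierLp 1 n) = if m = n then 1 else 0 := by
  rw [co_apply, fourierCoeff_congr_ae (coeFn_fourierLp 1 n), fourierCoeff_fourier, Pi.single_apply]

lemma co_tp (s : Finset ℤ) (a : ℤ → ℂ) (m : ℤ) : co m (tp s a) = if m ∈ s then a m else 0 := by
  simp [tp, map_sum, co_f]

lemma cint {f : T → ℝ} (h : Continuous f) : Integrable f μ :=
  h.integrable_of_hasCompactSupport (HasCompactSupport.of_compactSpace f)

lemma cintC {f : T → ℂ} (h : Continuous f) : Integrable f μ :=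
  h.integrable_of_hasCompactSupport (HasCompactSupport.of_compactSpace f)

lemma sqint {ι : Type} (I : Finset ι) (ν : ι → ℤ) (c : ι → ℂ) :
    ((∫ x, ‖∑ i ∈ I, c i * fourier (ν i) x‖ ^ 2 ∂μ : ℝ) : ℂ) =
      ∑ i ∈ I, ∑ j ∈ I, if ν i = ν j then c i * conj (c j) else 0 := by
  rw [← integral_complex_ofReal]
  have e : ∀ x : T, ((‖∑ i ∈ I, c i * fourier (ν i) x‖ ^ 2 : ℝ) : ℂ) =
      ∑ i ∈ I, ∑ j ∈ I, c i * conj (c j) * fourier (ν i - ν j) x := fun x => by
    rw [← Complex.normSq_eq_norm_sq, ← Complex.mul_conj, map_sum, sum_mul_sum]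
    refine sum_congr rfl fun i _ => sum_congr rfl fun j _ => ?_
    rw [sub_eq_add_neg, fourier_add, fourier_neg, map_mul]; ring
  simp_rw [e]
  rw [integral_finsetSum _ fun i _ => cintC (by fun_prop)]
  refine sum_congr rfl fun i _ => ?_
  rw [integral_finsetSum _ fun i _ => cintC (by fun_prop)]
  refine sum_congr rfl fun j _ => ?_
  rw [integral_const_mul, int_f]
  simp [sub_eq_zero]

lemma sq_eq (s : Finset ℤ) (a : ℤ → ℂ) :
    ∫ x, ‖∑ n ∈ s, a n * fourier n x‖ ^ 2 ∂μ = ∑ n ∈ s, ‖a n‖ ^ 2 := by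
  have := sqint s id a
  simp only [id] at this
  apply Complex.ofReal_injective
  rw [this]
  push_cast
  refine sum_congr rfl fun i hi => ?_
  rw [sum_ite_eq, if_pos hi, Complex.mul_conj, Complex.normSq_eq_norm_sq]
  push_cast; rfl

lemma sq_le {ι : Type} (I : Finset ι) (ν : ι → ℤ) (c : ι → ℂ) (R : ℕ)
    (hR : ∀ i ∈ I, (I.filter fun j => ν i = ν j).card ≤ R) :
    ∫ x, ‖∑ i ∈ I, c i * fourier (ν i) x‖ ^ 2 ∂μ ≤ R * ∑ i ∈ I, ‖c i‖ ^ 2 := by
  have h := congrArg norm (sqint I ν c)
  rw [Complex.norm_real] at h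
  refine (le_abs_self _).trans (h.le.trans ?_)
  have a1 : ‖∑ i ∈ I, ∑ j ∈ I, if ν i = ν j then c i * conj (c j) else 0‖ ≤
      ∑ i ∈ I, ∑ j ∈ I, ((if ν i = ν j then ‖c i‖ ^ 2 / 2 else 0) +
        if ν j = ν i then ‖c j‖ ^ 2 / 2 else 0) := by
    refine (norm_sum_le _ _).trans (sum_le_sum fun i _ => (norm_sum_le _ _).trans
      (sum_le_sum fun j _ => ?_))
    by_cases e : ν i = ν j
    · simp only [e, if_true, norm_mul, Complex.norm_conj]
      nlinarith [sq_nonneg (‖c i‖ - ‖c j‖)]
    · simp [e, Ne.symm e]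
  have a2 : ∑ i ∈ I, ∑ j ∈ I, (if ν i = ν j then ‖c i‖ ^ 2 / 2 else 0) ≤
      ∑ i ∈ I, R * (‖c i‖ ^ 2 / 2) := sum_le_sum fun i hi => by
    rw [← sum_filter, sum_const, nsmul_eq_mul]
    exact mul_le_mul_of_nonneg_right (by exact_mod_cast hR i hi) (by positivity)
  simp only [sum_add_distrib] at a1
  rw [sum_comm (f := fun i j => if ν j = ν i then ‖c j‖ ^ 2 / 2 else 0)] at a1
  rw [← mul_sum, ← sum_div] at a2
  linarith

def sN (N : ℕ) : Finset ℤ := (range N ×ˢ range N).image fun p => (p.1 : ℤ) - p.2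

noncomputable def w (N : ℕ) (n : ℤ) : ℝ :=
  (((range N ×ˢ range N).filter fun p => (p.1 : ℤ) - p.2 = n).card : ℝ) / N

lemma w0 (N : ℕ) (n : ℤ) : 0 ≤ w N n := by unfold w; positivity

lemma w1 (N : ℕ) (n : ℤ) : w N n ≤ 1 := by
  refine div_le_one_of_le₀ ?_ (by positivity)
  have : ((range N ×ˢ range N).filter fun p => (p.1 : ℤ) - p.2 = n).card ≤ (range N).card :=
    card_le_card_of_injOn Prod.fst (fun p hp => by
      simp only [coe_filter, mem_product, Set.mem_ofPred_eq] at hp
      exact hp.1.1) (fun p hp q hq e => by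
      simp only [coe_filter, Set.mem_ofPred_eq] at hp hq
      exact Prod.ext e (by omega))
  rw [card_range] at this
  exact_mod_cast this

lemma w_out {N : ℕ} {n : ℤ} (h : n ∉ sN N) : w N n = 0 := by
  rw [w, filter_eq_empty_iff.mpr fun p hp e => h (mem_image.mpr ⟨p, hp, e⟩)]
  simp

lemma w_lim (n : ℤ) : Tendsto (fun N => w N n) atTop (𝓝 1) := by
  have t : Tendsto (fun N : ℕ => 1 - (n.natAbs : ℝ) / N) atTop (𝓝 1) := by
    simpa using (tendsto_const_div_atTop_nhds_zero_nat (n.natAbs : ℝ)).const_sub 1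
  refine tendsto_of_tendsto_of_tendsto_of_le_of_le' t tendsto_const_nhds ?_
    (Eventually.of_forall fun N => w1 N n)
  filter_upwards [eventually_gt_atTop n.natAbs] with N hN
  have N0 : (0 : ℝ) < N := by exact_mod_cast (Nat.zero_le _).trans_lt hN
  have : (range (N - n.natAbs)).card ≤
      ((range N ×ˢ range N).filter fun p => (p.1 : ℤ) - p.2 = n).card :=
    card_le_card_of_injOn (fun j => (j + n.toNat, j + (-n).toNat)) (fun j hj => by
      simp only [coe_range, Set.mem_Iio] at hj
      simp only [coe_filter, mem_product, mem_range, Set.mem_ofPred_eq]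
      omega) (fun p _ q _ e => by simpa using congrArg Prod.fst e)
  rw [card_range] at this
  rw [w, le_div_iff₀ N0, sub_mul, div_mul_cancel₀ _ N0.ne', one_mul, ← Nat.cast_sub hN.le]
  exact_mod_cast this

lemma ker_eq (N : ℕ) (x : T) : ∑ n ∈ sN N, (w N n : ℂ) * fourier n x =
    ((‖∑ j ∈ range N, fourier (j : ℤ) x‖ ^ 2 / N : ℝ) : ℂ) := by
  have e : ((‖∑ j ∈ range N, fourier (j : ℤ) x‖ ^ 2 : ℝ) : ℂ) =
      ∑ p ∈ range N ×ˢ range N, fourier ((p.1 : ℤ) - p.2) x := by
    rw [← Complex.normSq_eq_norm_sq, ← Complex.mul_conj, map_sum, sum_mul_sum, sum_product]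
    refine sum_congr rfl fun i _ => sum_congr rfl fun j _ => ?_
    rw [sub_eq_add_neg, fourier_add, fourier_neg]
  rw [Complex.ofReal_div, e, sum_comp (fun n : ℤ => fourier n x) fun p : ℕ × ℕ => (p.1 : ℤ) - p.2,
    sum_div]
  refine sum_congr rfl fun n _ => ?_
  rw [w, nsmul_eq_mul]; push_cast; ring

lemma fej (u : L1) (N : ℕ) : ‖tp (sN N) fun n => w N n * co n u‖ ≤ ‖u‖ := by
  let K : T → ℝ := fun x => ‖∑ j ∈ range N, fourier (j : ℤ) x‖ ^ 2 / N
  have Kc : Continuous K := by fun_prop
  have K0 : ∀ x, 0 ≤ K x := fun x => by positivity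
  have K1 : ∫ x, K x ∂μ ≤ 1 := by
    rw [integral_div]
    refine div_le_one_of_le₀ ?_ (by positivity)
    have := sq_le (range N) (fun j => (j : ℤ)) (fun _ => 1) 1 (fun i _ => by
      rw [card_le_one]; intro a ha b hb
      simp only [mem_filter] at ha hb; omega)
    simpa using this
  have e : ∀ x : T, ∑ n ∈ sN N, (w N n * co n u) * fourier n x = ∫ y, (K (x - y) : ℂ) * u y ∂μ := by
    intro x
    simp only [K, ← ker_eq, sum_mul]
    rw [integral_finsetSum _ fun n _ => ?_]
    · refine sum_congr rfl fun n _ => ?_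
      rw [co_int, ← integral_const_mul, ← integral_mul_const]
      exact integral_congr_ae (Eventually.of_forall fun y => by simp only [fsub]; ring)
    · simp only [fsub, mul_assoc]
      exact (((int1 u).fourier_smul (-n)).const_mul _).const_mul _
  rw [tp_norm]
  simp_rw [e]
  have hi := (int1 u).norm.integrable_convolution (ContinuousLinearMap.mul ℝ ℝ).flip (cint Kc)
  have h2 := integral_convolution (ContinuousLinearMap.mul ℝ ℝ).flip (int1 u).norm (cint Kc)
  refine (integral_mono_of_nonneg (Eventually.of_forall fun x => norm_nonneg _) hi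
    (Eventually.of_forall fun x => ?_)).trans ?_
  · refine (norm_integral_le_integral_norm _).trans (le_of_eq ?_)
    simp only [MeasureTheory.convolution, ContinuousLinearMap.flip_apply, ContinuousLinearMap.mul_apply',
      norm_mul, Complex.norm_real, Real.norm_of_nonneg (K0 _)]
  · rw [h2, ← L1.norm_eq_integral_norm]
    simpa using mul_le_mul_of_nonneg_left K1 (norm_nonneg u)

lemma fej_lim (u : L1) : Tendsto (fun N => tp (sN N) fun n => w N n * co n u) atTop (𝓝 u) := by
  have lin : ∀ N (f g : L1), (tp (sN N) fun n => w N n * co n (f + g)) =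
      (tp (sN N) fun n => w N n * co n f) + tp (sN N) fun n => w N n * co n g := fun N f g => by
    simp only [tp, map_add, mul_add, add_smul, sum_add_distrib]
  have hsp : ∀ P ∈ Submodule.span ℂ (Set.range (fourierLp (T := 2 * Real.pi) 1)),
      Tendsto (fun N => tp (sN N) fun n => w N n * co n P) atTop (𝓝 P) := by
    intro P hP
    induction hP using Submodule.span_induction with
    | mem x hx =>
      obtain ⟨m, rfl⟩ := hx
      have : ∀ N, (tp (sN N) fun n => w N n * co n (fourierLp 1 m)) = (w N m : ℂ) • fourierLp 1 m := by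
        intro N
        simp only [tp, co_f, mul_ite, mul_one, mul_zero, ite_smul, zero_smul, sum_ite_eq']
        split_ifs with h
        · rfl
        · rw [w_out h]; simp
      simp_rw [this]
      simpa using ((Complex.continuous_ofReal.tendsto 1).comp (w_lim m)).smul_const (fourierLp 1 m)
    | zero => simp [tp]
    | add x y _ _ hx hy => simp_rw [lin]; exact hx.add hy
    | smul c x _ hx =>
      have : ∀ N, (tp (sN N) fun n => w N n * co n (c • x)) =
          c • tp (sN N) fun n => w N n * co n x := fun N => by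
        simp only [tp, map_smul, smul_sum, smul_smul, smul_eq_mul, mul_left_comm]
      simp_rw [this]; exact hx.const_smul c
  rw [Metric.tendsto_nhds]
  intro ε hε
  have hd : u ∈ closure (Submodule.span ℂ (Set.range (fourierLp (T := 2 * Real.pi) 1)) : Set L1) := by
    rw [← Submodule.topologicalClosure_coe, span_fourierLp_closure_eq_top (by simp)]; trivial
  obtain ⟨P, hP, h⟩ := Metric.mem_closure_iff.mp hd (ε / 3) (by positivity)
  filter_upwards [Metric.tendsto_nhds.mp (hsp P hP) (ε / 3) (by positivity)] with N hN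
  rw [dist_eq_norm] at h hN ⊢
  have e := lin N (u - P) P
  rw [sub_add_cancel] at e
  have a1 := fej (u - P) N
  have a2 : (tp (sN N) fun n => w N n * co n u) - u = (tp (sN N) fun n => w N n * co n (u - P)) +
      ((tp (sN N) fun n => w N n * co n P) - P) - (u - P) := by rw [e]; abel
  rw [a2]
  have := norm_sub_le ((tp (sN N) fun n => w N n * co n (u - P)) +
      ((tp (sN N) fun n => w N n * co n P) - P)) (u - P)
  have := norm_add_le (tp (sN N) fun n => w N n * co n (u - P))
      ((tp (sN N) fun n => w N n * co n P) - P)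
  linarith

lemma l1_le (s : Finset ℤ) (a : ℤ → ℂ) : ‖tp s a‖ ^ 2 ≤ ∑ n ∈ s, ‖a n‖ ^ 2 := by
  rw [← sq_eq]
  set m := ‖tp s a‖ with hm
  have c : Continuous fun x : T => ‖∑ n ∈ s, a n * fourier n x‖ := by fun_prop
  have := integral_mono (μ := μ) (f := fun x => 2 * m * ‖∑ n ∈ s, a n * fourier n x‖ - m ^ 2)
    (g := fun x => ‖∑ n ∈ s, a n * fourier n x‖ ^ 2) (cint (by fun_prop)) (cint (by fun_prop))
    (fun x => by nlinarith [sq_nonneg (‖∑ n ∈ s, a n * fourier n x‖ - m)])
  rw [integral_sub (cint (by fun_prop)) (integrable_const _), integral_const_mul, ← tp_norm] at this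
  simp only [integral_const, probReal_univ, one_smul] at this
  linarith

lemma norm_sq_le (u : L1) (h : Summable fun n => ‖co n u‖ ^ 2) :
    ‖u‖ ^ 2 ≤ ∑' n, ‖co n u‖ ^ 2 := by
  refine le_of_tendsto' ((fej_lim u).norm.pow 2) fun N => (l1_le _ _).trans ?_
  refine le_trans (sum_le_sum fun n _ => ?_) (h.sum_le_tsum (sN N) fun _ _ => by positivity)
  rw [norm_mul, Complex.norm_real, Real.norm_of_nonneg (w0 N n)]
  exact pow_le_pow_left₀ (mul_nonneg (w0 N n) (norm_nonneg _))
    (mul_le_of_le_one_left (norm_nonneg _) (w1 N n)) 2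

lemma uniq (u v : L1) (h : ∀ n, co n u = co n v) : u = v := by
  have := norm_sq_le (u - v) (by simp [h, summable_zero])
  simp only [map_sub, h, sub_self, norm_zero, ne_eq, OfNat.ofNat_ne_zero, not_false_eq_true,
    zero_pow, tsum_zero] at this
  rwa [sq_nonpos_iff, norm_eq_zero, sub_eq_zero] at this

end Pool.Agent.H1.Kah
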