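import Pool.Agent.H1.KahA

set_option autoImplicit false

namespace Pool.Agent.H1.Kah
open MeasureTheory Filter Topology Finset
open scoped ComplexConjugate

lemma digits (n : ℕ) : ∀ ε : ℕ → ℤ, (∀ i, |ε i| ≤ 4) → ∑ i ∈ range n, ε i * 5 ^ i = 0 →
    ∀ i < n, ε i = 0 := by
  induction n with
  | zero => intro ε _ _ i hi; omega
  | succ n ih =>
    intro ε h1 h2 i hi
    rw [sum_range_succ'] at h2
    have e : ∑ k ∈ range n, ε (k + 1) * 5 ^ (k + 1) = 5 * ∑ k ∈ range n, ε (k + 1) * 5 ^ k := by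
      rw [mul_sum]; exact sum_congr rfl fun k _ => by ring
    rw [e, pow_zero, mul_one] at h2
    have h3 := abs_le.mp (h1 0)
    have h4 : ε 0 = 0 := by omega
    rcases i with _ | i
    · exact h4
    · exact ih (fun k => ε (k + 1)) (fun k => h1 _) (by omega) i (by omega)

lemma four {a b c d a' b' c' d' : ℕ}
    (h : (5 : ℤ) ^ a + 5 ^ b + 5 ^ c + 5 ^ d = 5 ^ a' + 5 ^ b' + 5 ^ c' + 5 ^ d') :
    a' = a ∨ a' = b ∨ a' = c ∨ a' = d := by
  let δ : ℕ → ℕ → ℤ := fun a i => if i = a then 1 else 0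
  set n := a + b + c + d + a' + b' + c' + d' + 1 with hn
  have e : ∀ x < n, ∑ i ∈ range n, δ x i * 5 ^ i = 5 ^ x := fun x hx => by
    simp [δ, hx]
  have := digits n (fun i => δ a i + δ b i + δ c i + δ d i - (δ a' i + δ b' i + δ c' i + δ d' i))
    (fun i => by
      have hh : ∀ x, 0 ≤ δ x i ∧ δ x i ≤ 1 := fun x => by simp only [δ]; split_ifs <;> simp
      have := hh a; have := hh b; have := hh c; have := hh d
      have := hh a'; have := hh b'; have := hh c'; have := hh d'
      rw [abs_le]; constructor <;> omega)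
    (by
      simp only [sub_mul, add_mul, sum_sub_distrib, sum_add_distrib]
      rw [e a, e b, e c, e d, e a', e b', e c', e d', h, sub_self] <;> omega) a' (by omega)
  by_contra hc
  push Not at hc
  obtain ⟨h1, h2, h3, h4⟩ := hc
  simp only [δ, h1, h2, h3, h4, if_false, if_true] at this
  split_ifs at this <;> omega

def q (p : ℕ × ℕ) : ℤ := 5 ^ (2 * p.1) + 5 ^ (2 * p.2 + 1)

lemma q_add {p p' r r' : ℕ × ℕ} (h : q p + q p' = q r + q r') :
    (r.1 = p.1 ∨ r.1 = p'.1) ∧ (r.2 = p.2 ∨ r.2 = p'.2) := by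
  unfold q at h
  have h1 := four (a := 2 * p.1) (b := 2 * p.2 + 1) (c := 2 * p'.1) (d := 2 * p'.2 + 1)
    (a' := 2 * r.1) (b' := 2 * r.2 + 1) (c' := 2 * r'.1) (d' := 2 * r'.2 + 1) (by linarith)
  have h2 := four (a := 2 * p.1) (b := 2 * p.2 + 1) (c := 2 * p'.1) (d := 2 * p'.2 + 1)
    (a' := 2 * r.2 + 1) (b' := 2 * r.1) (c' := 2 * r'.1) (d' := 2 * r'.2 + 1) (by linarith)
  omega

lemma q_inj : Function.Injective q := fun p r h => by
  have := q_add (p := p) (p' := p) (r := r) (r' := r) (by rw [h])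
  exact Prod.ext (by omega) (by omega)

lemma fiber (s : Finset ℤ) (hs : (s : Set ℤ) ⊆ Set.range q) (i : ℤ × ℤ) (hi : i ∈ s ×ˢ s) :
    ((s ×ˢ s).filter fun j => i.1 + i.2 = j.1 + j.2).card ≤ 4 := by
  obtain ⟨h1, h2⟩ := mem_product.mp hi
  obtain ⟨p, hp⟩ := hs h1
  obtain ⟨p', hp'⟩ := hs h2
  have : ((s ×ˢ s).filter fun j => i.1 + i.2 = j.1 + j.2).card ≤
      ((({p.1, p'.1} : Finset ℕ) ×ˢ ({p.2, p'.2} : Finset ℕ)).image q).card :=
    card_le_card_of_injOn Prod.fst (fun j hj => by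
      simp only [coe_filter, mem_product, Set.mem_ofPred_eq] at hj
      obtain ⟨r, hr⟩ := hs hj.1.1
      obtain ⟨r', hr'⟩ := hs hj.1.2
      have := q_add (p := p) (p' := p') (r := r) (r' := r') (by rw [hp, hp', hr, hr', hj.2])
      exact mem_coe.mpr (mem_image.mpr ⟨r, by simpa using this, hr⟩)) (fun a ha b hb e => by
      simp only [coe_filter, Set.mem_ofPred_eq] at ha hb
      exact Prod.ext e (by omega))
  refine this.trans (card_image_le.trans ?_)
  rw [card_product]
  exact Nat.mul_le_mul card_le_two card_le_two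

lemma lam (s : Finset ℤ) (a : ℤ → ℂ) (hs : (s : Set ℤ) ⊆ Set.range q) :
    ∑ n ∈ s, ‖a n‖ ^ 2 ≤ 32 * ‖tp s a‖ ^ 2 := by
  set A := ∑ n ∈ s, ‖a n‖ ^ 2 with hA
  have A0 : 0 ≤ A := by positivity
  rcases A0.eq_or_lt with h0 | h0
  · rw [← h0]; positivity
  have h4 := sq_le (s ×ˢ s) (fun j => j.1 + j.2) (fun j => a j.1 * a j.2) 4 (fiber s hs)
  have e1 : ∀ x : T, ‖∑ j ∈ s ×ˢ s, a j.1 * a j.2 * fourier (j.1 + j.2) x‖ ^ 2 =
      ‖∑ n ∈ s, a n * fourier n x‖ ^ 4 := fun x => by
    rw [show 4 = 2 * 2 by rfl, pow_mul, ← norm_pow (∑ n ∈ s, a n * fourier n x),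
      pow_two (∑ n ∈ s, _), sum_mul_sum, sum_product]
    congr 2
    exact sum_congr rfl fun i _ => sum_congr rfl fun j _ => by rw [fourier_add]; ring
  have e2 : ∑ j ∈ s ×ˢ s, ‖a j.1 * a j.2‖ ^ 2 = A ^ 2 := by
    rw [pow_two A, hA, sum_mul_sum, sum_product]
    simp only [norm_mul, mul_pow]
  simp_rw [e1, e2] at h4
  set l := Real.sqrt (8 * A) with hl
  have l0 : 0 < l := Real.sqrt_pos.mpr (by positivity)
  have l2 : l ^ 2 = 8 * A := Real.sq_sqrt (by positivity)
  have := integral_mono (μ := μ) (f := fun x => l ^ 2 * ‖∑ n ∈ s, a n * fourier n x‖ ^ 2)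
    (g := fun x => l ^ 3 * ‖∑ n ∈ s, a n * fourier n x‖ + ‖∑ n ∈ s, a n * fourier n x‖ ^ 4)
    (cint (by fun_prop)) (cint (by fun_prop)) (fun x => by
      simp only
      set t := ‖∑ n ∈ s, a n * fourier n x‖
      have t0 : 0 ≤ t := norm_nonneg _
      rcases le_total t l with h | h
      · nlinarith [mul_le_mul_of_nonneg_left h (show 0 ≤ l ^ 2 * t by positivity), pow_nonneg t0 4]
      · nlinarith [mul_le_mul_of_nonneg_right (pow_le_pow_left₀ l0.le h 2) (sq_nonneg t),
          show 0 ≤ l ^ 3 * t by positivity])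
  rw [integral_add (cint (by fun_prop)) (cint (by fun_prop)), integral_const_mul,
    integral_const_mul, ← tp_norm, sq_eq, ← hA] at this
  set m := ‖tp s a‖
  have m0 : 0 ≤ m := norm_nonneg _
  push_cast at h4
  have a1 : A ≤ 2 * l * m := by
    have : 4 * A * A ≤ 4 * A * (2 * l * m) := by
      have : l ^ 3 = 8 * A * l := by rw [← l2]; ring
      nlinarith
    exact le_of_mul_le_mul_left this (by positivity)
  have a2 : A * A ≤ A * (32 * m ^ 2) := by
    have := mul_le_mul a1 a1 A0 (by positivity)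
    nlinarith
  exact le_of_mul_le_mul_left a2 h0

lemma summ (u : L1) (h : ∀ n ∉ Set.range q, co n u = 0) : Summable fun n => ‖co n u‖ ^ 2 := by
  classical
  refine summable_of_sum_le (c := 32 * ‖u‖ ^ 2) (fun _ => by positivity) fun t => ?_
  have t1 : Tendsto (fun N => ∑ n ∈ t, ‖w N n * co n u‖ ^ 2) atTop (𝓝 (∑ n ∈ t, ‖co n u‖ ^ 2)) :=
    tendsto_finsetSum _ fun n _ => by
      simpa using (((Complex.continuous_ofReal.tendsto 1).comp (w_lim n)).mul_const
        (co n u)).norm.pow 2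
  refine le_of_tendsto' t1 fun N => ?_
  let s := (sN N).filter fun n => n ∈ Set.range q
  have e : (tp s fun n => w N n * co n u) = tp (sN N) fun n => w N n * co n u :=
    sum_filter_of_ne fun n _ hn => by
      by_contra hc
      simp [h n hc] at hn
  have a1 := lam s (fun n => w N n * co n u) fun n hn => (mem_filter.mp hn).2
  rw [e] at a1
  have a2 := pow_le_pow_left₀ (norm_nonneg _) (fej u N) 2
  have a3 : ∑ n ∈ t, ‖w N n * co n u‖ ^ 2 ≤ ∑ n ∈ s, ‖w N n * co n u‖ ^ 2 := by
    rw [← sum_filter_ne_zero t]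
    refine sum_le_sum_of_subset_of_nonneg (fun n hn => ?_) fun _ _ _ => by positivity
    have hn := (mem_filter.mp hn).2
    refine mem_filter.mpr ⟨?_, ?_⟩
    · by_contra hc
      simp [w_out hc] at hn
    · by_contra hc
      simp [h n hc] at hn
  linarith

lemma not_sidon : ¬ Sidon (Set.range q) := by
  classical
  rintro ⟨C, hC⟩
  obtain ⟨k, hk⟩ := exists_nat_gt |C|
  have k0 : 0 < k := by exact_mod_cast (abs_nonneg C).trans_lt hk
  set n := k ^ 2 with hn
  have : NeZero n := ⟨by positivity⟩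
  have hn' : (n : ℝ) = (k : ℝ) ^ 2 := by rw [hn]; push_cast; rfl
  let ψ := ZMod.stdAddChar (N := n)
  let Q : ZMod n × ZMod n → ℤ := fun p => q (p.1.val, p.2.val)
  have hQ : Function.Injective Q := fun p r h => by
    have := q_inj h
    simp only [Prod.mk.injEq] at this
    exact Prod.ext (ZMod.val_injective n this.1) (ZMod.val_injective n this.2)
  let a : ℤ → ℂ := Function.extend Q (fun p => ψ (p.1 * p.2)) 0
  have ha : ∀ p, a (Q p) = ψ (p.1 * p.2) := fun p => hQ.extend_apply _ _ p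
  have h := hC (univ.image Q) a (by
    intro x hx
    obtain ⟨p, -, rfl⟩ := mem_image.mp hx
    exact ⟨_, rfl⟩)
  have nψ : ∀ x, ‖ψ x‖ = 1 := fun x => by simp [ψ, ZMod.stdAddChar_apply]
  simp only [sum_image fun p _ r _ e => hQ e, ha, nψ, sum_const, card_univ, Fintype.card_prod,
    ZMod.card, nsmul_eq_mul, mul_one] at h
  have hb : ∀ x : T, ‖∑ p : ZMod n × ZMod n, ψ (p.1 * p.2) * fourier (Q p) x‖ ≤ (k : ℝ) ^ 3 := by
    intro x
    let v : ZMod n → ℂ := fun j => fourier (5 ^ (2 * j.val + 1)) x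
    let y : ZMod n → ℂ := fun i => ∑ j, ψ (i * j) * v j
    have e1 : ∑ p : ZMod n × ZMod n, ψ (p.1 * p.2) * fourier (Q p) x =
        ∑ i, fourier (5 ^ (2 * i.val)) x * y i := by
      rw [Fintype.sum_prod_type]
      refine sum_congr rfl fun i _ => ?_
      rw [mul_sum]
      exact sum_congr rfl fun j _ => by simp only [Q, q, fourier_add, v]; ring
    have e2 : ∑ i, ‖y i‖ ^ 2 = (n : ℝ) * n := by
      apply Complex.ofReal_injective
      have : ∀ i, ((‖y i‖ ^ 2 : ℝ) : ℂ) = ∑ j, ∑ l, ψ (i * (j - l)) * (v j * conj (v l)) := fun i => by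
        rw [← Complex.normSq_eq_norm_sq, ← Complex.mul_conj, map_sum, sum_mul_sum]
        refine sum_congr rfl fun j _ => sum_congr rfl fun l _ => ?_
        rw [mul_sub, sub_eq_add_neg, AddChar.map_add_eq_mul, AddChar.map_neg_eq_conj,
          map_mul (starRingEnd ℂ)]; ring
      rw [Complex.ofReal_sum]
      simp only [this]
      rw [sum_comm]
      have h2 : ∀ j, ∑ i, ∑ l, ψ (i * (j - l)) * (v j * conj (v l)) = n := fun j => by
        rw [sum_comm]
        simp only [← sum_mul, AddChar.sum_mulShift _ (ZMod.isPrimitive_stdAddChar n), sub_eq_zero,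
          ZMod.card, ψ]
        simp only [Nat.cast_ite, ite_mul, Nat.cast_zero, zero_mul, sum_ite_eq, mem_univ, if_true,
          Complex.mul_conj, Complex.normSq_eq_norm_sq, v, nf]
        simp
      simp [h2]
    rw [e1]
    refine (norm_sum_le _ _).trans ?_
    simp only [norm_mul, nf, one_mul]
    have := sq_sum_le_card_mul_sum_sq (s := (univ : Finset (ZMod n))) (f := fun i => ‖y i‖)
    rw [e2, card_univ, ZMod.card, hn'] at this
    refine abs_le_of_sq_le_sq' ?_ (by positivity) |>.2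
    linarith
  have h2 := ciSup_le hb
  have h3 : 0 ≤ ⨆ x : T, ‖∑ p : ZMod n × ZMod n, ψ (p.1 * p.2) * fourier (Q p) x‖ :=
    Real.iSup_nonneg fun _ => norm_nonneg _
  have h4 := mul_le_mul (le_abs_self C) h2 h3 (abs_nonneg C)
  have h5 := mul_lt_mul_of_pos_right hk (show (0 : ℝ) < k ^ 3 by positivity)
  rw [Nat.cast_mul, hn'] at h
  linarith

lemma propP (Q : Set ℤ) (hQ : ∀ u : L1, (∀ n ∉ Q, co n u = 0) → Summable fun n => ‖co n u‖ ^ 2) :
    PropP Q := by
  classical
  intro A hA f hf hfQ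
  let a : ℤ → ℂ := fun n => co n f
  have sa : Summable fun n => ‖a n‖ ^ 2 := hQ f hfQ
  have hmul : ∀ g ∈ A, ∃ h ∈ A, ∀ n, co n h = co n g * a n := fun g hg => by
    obtain ⟨h, h1, h2⟩ := exists_conv g f
    exact ⟨h, hA.2 g hg f hf h h1, h2⟩
  have hfin : ∀ r : ℝ, 0 < r → {n | r ≤ ‖a n‖}.Finite := fun r hr => by
    have := sa.tendsto_cofinite_zero.eventually (gt_mem_nhds (show 0 < r ^ 2 by positivity))
    rw [eventually_cofinite] at this
    refine this.subset fun n hn => ?_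
    simp only [Set.mem_ofPred_eq, not_lt] at hn ⊢
    exact pow_le_pow_left₀ hr.le hn 2
  have hid : ∀ c : ℂ, c ≠ 0 → ∃ e ∈ A, IsConv e e e ∧ ∀ n, co n e = if a n = c then 1 else 0 := by
    intro c hc
    have c0 : 0 < ‖c‖ := norm_pos_iff.mpr hc
    let S := (hfin _ c0).toFinset
    let e := tp (S.filter fun n => a n = c) fun _ => 1
    have he : ∀ n, co n e = if a n = c then 1 else 0 := fun n => by
      rw [co_tp]
      refine if_congr ⟨fun h => (mem_filter.mp h).2, fun h => mem_filter.mpr ⟨?_, h⟩⟩ rfl rfl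
      simp [S, h]
    have hb : ∀ D : Finset ℂ, ∃ b ∈ A, ∀ n, co n b = a n / c * ∏ d ∈ D, (a n - d) / (c - d) := by
      intro D
      induction D using Finset.induction_on with
      | empty => exact ⟨c⁻¹ • f, A.smul_mem _ hf, fun n => by simp [a, div_eq_inv_mul]⟩
      | insert d D hd ih =>
        obtain ⟨b, b1, b2⟩ := ih
        obtain ⟨h, h1, h2⟩ := hmul b b1
        refine ⟨(c - d)⁻¹ • (h - d • b), A.smul_mem _ (A.sub_mem h1 (A.smul_mem _ b1)), fun n => ?_⟩
        rw [prod_insert hd, map_smul, map_sub, map_smul, h2, b2, smul_eq_mul, smul_eq_mul]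
        ring
    obtain ⟨b, b1, b2⟩ := hb ((S.image a).erase c)
    have hk : ∀ k : ℕ, ∃ g ∈ A, ∀ n, co n g = co n b * (a n / c) ^ k := by
      intro k
      induction k with
      | zero => exact ⟨b, b1, fun n => by simp⟩
      | succ k ih =>
        obtain ⟨g, g1, g2⟩ := ih
        obtain ⟨h, h1, h2⟩ := hmul g g1
        refine ⟨c⁻¹ • h, A.smul_mem _ h1, fun n => ?_⟩
        rw [map_smul, h2, g2, smul_eq_mul]; ring
    choose g g1 g2 using hk
    have sb : Summable fun n => ‖co n b‖ ^ 2 := hQ b fun n hn => by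
      have : a n = 0 := hfQ n hn
      simp [b2, this]
    have big : ∀ k n, ‖c‖ ≤ ‖a n‖ → co n (g k - e) = 0 := fun k n hn => by
      rw [map_sub, g2, he, b2]
      split_ifs with h
      · rw [h, div_self hc, prod_eq_one fun d hd => div_self (sub_ne_zero.mpr (ne_of_mem_erase hd).symm)]
        simp
      · rw [prod_eq_zero (i := a n) (mem_erase.mpr ⟨h, mem_image_of_mem _ (by simpa [S] using hn)⟩)
          (by simp)]
        simp
    have small : ∀ k n, ‖a n‖ < ‖c‖ → ‖co n (g k - e)‖ = ‖co n b‖ * ‖a n / c‖ ^ k := fun k n hn => by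
      rw [map_sub, g2, he, if_neg (by rintro h; simp [h] at hn), sub_zero, norm_mul, norm_pow]
    have lt1 : ∀ n, ‖a n‖ < ‖c‖ → ‖a n / c‖ < 1 := fun n hn => by
      rwa [norm_div, div_lt_one c0]
    have dom : ∀ k n, ‖co n (g k - e)‖ ^ 2 ≤ ‖co n b‖ ^ 2 := fun k n => by
      rcases le_or_gt ‖c‖ ‖a n‖ with h | h
      · rw [big k n h, norm_zero]; simp
      · rw [small k n h]
        exact pow_le_pow_left₀ (by positivity) (mul_le_of_le_one_right (norm_nonneg _)
          (pow_le_one₀ (norm_nonneg _) (lt1 n h).le)) 2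
    have t1 : Tendsto (fun k => ∑' n, ‖co n (g k - e)‖ ^ 2) atTop (𝓝 (∑' _ : ℤ, (0 : ℝ))) := by
      refine tendsto_tsum_of_dominated_convergence sb (fun n => ?_)
        (Eventually.of_forall fun k n => by rw [Real.norm_of_nonneg (by positivity)]; exact dom k n)
      rcases le_or_gt ‖c‖ ‖a n‖ with h | h
      · simp [big _ n h]
      · simp_rw [small _ n h]
        simpa using ((tendsto_pow_atTop_nhds_zero_of_lt_one (norm_nonneg _) (lt1 n h)).const_mul
          ‖co n b‖).pow 2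
    rw [tsum_zero] at t1
    have t2 : Tendsto g atTop (𝓝 e) := by
      rw [tendsto_iff_norm_sub_tendsto_zero]
      have := squeeze_zero (fun k => sq_nonneg ‖g k - e‖) (fun k => norm_sq_le _
        (Summable.of_nonneg_of_le (fun _ => by positivity) (dom k) sb)) t1
      simpa using this.sqrt
    refine ⟨e, hA.1.mem_of_tendsto t2 (Eventually.of_forall g1), ?_, he⟩
    obtain ⟨h, h1, h2⟩ := exists_conv e e
    rwa [uniq h e fun n => by rw [h2, he]; split_ifs <;> simp] at h1
  choose! E E1 E2 E3 using hid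
  rw [Metric.mem_closure_iff]
  intro ε hε
  obtain ⟨t, ht⟩ := ((tendsto_tsum_compl_atTop_zero fun n => ‖a n‖ ^ 2).eventually
    (gt_mem_nhds (show 0 < ε ^ 2 by positivity))).exists
  let V := (t.image a).erase 0
  refine ⟨∑ c ∈ V, c • E c, Submodule.sum_mem _ fun c hc => Submodule.smul_mem _ _
    (Submodule.subset_span ⟨E1 c (ne_of_mem_erase hc), E2 c (ne_of_mem_erase hc)⟩), ?_⟩
  have e1 : ∀ n, co n (f - ∑ c ∈ V, c • E c) = if a n ∈ V then 0 else a n := fun n => by
    rw [map_sub, map_sum, sum_congr rfl fun c hc => by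
      rw [map_smul, E3 c (ne_of_mem_erase hc), smul_eq_mul, mul_ite, mul_one, mul_zero]]
    rw [sum_ite_eq]
    split_ifs <;> simp [a]
  have dom : ∀ n, ‖co n (f - ∑ c ∈ V, c • E c)‖ ^ 2 ≤
      Set.indicator {x | x ∉ t} (fun n => ‖a n‖ ^ 2) n := fun n => by
    rw [e1]
    split_ifs with h
    · simpa using Set.indicator_nonneg (fun _ _ => by positivity) n
    · by_cases hn : n ∈ t
      · have : a n = 0 := by
          by_contra h0
          exact h (mem_erase.mpr ⟨h0, mem_image_of_mem _ hn⟩)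
        simp [this, hn]
      · rw [Set.indicator_of_mem hn]
  have s2 := sa.indicator {x | x ∉ t}
  have s3 := Summable.of_nonneg_of_le (fun _ => by positivity) dom s2
  have a1 := (norm_sq_le _ s3).trans (s3.tsum_le_tsum dom s2)
  rw [← _root_.tsum_subtype] at a1
  rw [dist_eq_norm]
  exact lt_of_pow_lt_pow_left₀ 2 hε.le (a1.trans_lt ht)

end Pool.Agent.H1.Kah
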