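import Mathlib

set_option autoImplicit false

namespace Pool.Agent.H1.Kah
open MeasureTheory

instance twoPiPos : Fact (0 < 2 * Real.pi) := ⟨Real.two_pi_pos⟩

/-- the circle `ℝ / 2πℤ` -/
abbrev T : Type := AddCircle (2 * Real.pi)

/-- normalised Lebesgue (Haar) measure on the circle -/
noncomputable abbrev μ : Measure T := AddCircle.haarAddCircle

/-- `L¹(𝕋)` -/
noncomputable abbrev L1 : Type := Lp ℂ 1 μ

/-- `h = f * g` (convolution) -/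
def IsConv (f g h : L1) : Prop := h =ᵐ[μ] fun x => ∫ y, f (x - y) * g y ∂μ

/-- a closed subalgebra of the convolution algebra `L¹(𝕋)` -/
def ClosedSubalg (A : Submodule ℂ L1) : Prop :=
  IsClosed (A : Set L1) ∧ ∀ f ∈ A, ∀ g ∈ A, ∀ h, IsConv f g h → h ∈ A

/-- property (P) -/
def PropP (Q : Set ℤ) : Prop :=
  ∀ A : Submodule ℂ L1, ClosedSubalg A → ∀ f ∈ A, (∀ n ∉ Q, fourierCoeff f n = 0) →
    f ∈ closure (Submodule.span ℂ {e | e ∈ A ∧ IsConv e e e} : Set L1)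

/-- Sidon sets -/
def Sidon (Q : Set ℤ) : Prop :=
  ∃ C : ℝ, ∀ (s : Finset ℤ) (a : ℤ → ℂ), (s : Set ℤ) ⊆ Q →
    ∑ n ∈ s, ‖a n‖ ≤ C * ⨆ x : T, ‖∑ n ∈ s, a n * fourier n x‖

end Pool.Agent.H1.Kah
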