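import Mathlib

namespace Pool.Agent.H1.Koe

open Metric Filter Topology Set Complex

lemma schur {A B z : ℂ} (hz : ‖z‖ ≤ 1) (hA : ‖A‖ ≤ 1) (h : 1 + B * z + A * z ^ 2 = 0) :
    1 - ‖A‖ ^ 2 ≤ ‖B - A * (starRingEnd ℂ) B‖ := by
  have z0 : 0 < ‖z‖ := norm_pos_iff.2 (by rintro rfl; simp at h)
  have h' := congrArg (starRingEnd ℂ) h
  simp only [map_add, map_mul, map_pow, map_one, map_zero] at h'
  have e : (B - A * (starRingEnd ℂ) B) * (‖z‖ ^ 2 : ℝ) = A * z * (1 - ‖z‖ ^ 2 : ℝ) -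
      (starRingEnd ℂ) z * (1 - ‖A‖ ^ 2 * ‖z‖ ^ 2 : ℝ) := by
    push_cast
    rw [← mul_conj' z, ← mul_conj' A]
    linear_combination (starRingEnd ℂ) z * h - A * z * h'
  have a := norm_nonneg A
  have q := pow_le_one₀ (n := 2) z0.le hz
  have q2 := mul_le_one₀ (pow_le_one₀ (n := 2) a hA) (sq_nonneg ‖z‖) q
  have := norm_sub_norm_le ((starRingEnd ℂ) z * (1 - ‖A‖ ^ 2 * ‖z‖ ^ 2 : ℝ)) (A * z * (1 - ‖z‖ ^ 2 : ℝ))
  rw [norm_sub_rev, ← e] at this
  simp only [norm_mul, norm_real, RCLike.norm_conj, Real.norm_of_nonneg (sub_nonneg.2 q),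
    Real.norm_of_nonneg (sub_nonneg.2 q2), Real.norm_of_nonneg (sq_nonneg ‖z‖)] at this
  refine le_of_mul_le_mul_right (le_trans ?_ this) (pow_pos z0 2)
  nlinarith [mul_nonneg (mul_nonneg (mul_nonneg z0.le (sub_nonneg.2 hA)) (sub_nonneg.2 hz))
    (sub_nonneg.2 (mul_le_one₀ hA z0.le hz))]

lemma inj {a b : ℂ} (b0 : b ≠ 0) (H : ∀ u : ℝ, 0 ≤ u → u ≤ 4 → |u - 1| * ‖b‖ ≤ 1 ∧
    u * normSq (a - (u - 1) * b * (starRingEnd ℂ) a) < (1 - (u - 1) ^ 2 * normSq b) ^ 2) :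
    InjOn (fun z => z + a * z ^ 2 + b * z ^ 3) (closedBall (0 : ℂ) 1) := by
  set P : ℂ → ℂ := fun z => z + a * z ^ 2 + b * z ^ 3 with hP
  set K : Set (ℂ × ℂ) := {x | ‖x.1‖ ≤ ‖x.2‖ ∧ ‖x.2‖ ≤ 1 ∧
    1 + a * (x.1 + x.2) + b * (x.1 ^ 2 + x.1 * x.2 + x.2 ^ 2) = 0}
  have mk : ∀ x y, x ≠ y → P x = P y → ‖x‖ ≤ ‖y‖ → ‖y‖ ≤ 1 → (x, y) ∈ K := fun x y n e h1 h2 =>
    ⟨h1, h2, mul_left_cancel₀ (sub_ne_zero.2 n) (by simp only [hP] at e ⊢; linear_combination e)⟩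
  suffices K = ∅ from fun x hx y hy e => by_contra fun n => (le_total ‖x‖ ‖y‖).elim
    (fun l => (this ▸ mk x y n e l (mem_closedBall_zero_iff.1 hy) :)) fun l =>
      (this ▸ mk y x (Ne.symm n) e.symm l (mem_closedBall_zero_iff.1 hx) :)
  by_contra hK
  have Kc : IsClosed K := (isClosed_le (by fun_prop) (by fun_prop)).and
      ((isClosed_le (by fun_prop) (by fun_prop)).and (isClosed_eq (by fun_prop) (by fun_prop)))
  obtain ⟨⟨x, y⟩, ⟨h1, h2, h3⟩, hm⟩ := (((isCompact_closedBall (0 : ℂ) 1).prod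
    (isCompact_closedBall (0 : ℂ) 1)).of_isClosed_subset Kc fun x (hx : x ∈ K) => ⟨mem_closedBall_zero_iff.2 (hx.1.trans hx.2.1),
        mem_closedBall_zero_iff.2 hx.2.1⟩).exists_isMinOn (nonempty_iff_ne_empty.2 hK)
      (f := fun x => ‖x.2‖) (by fun_prop)
  simp only at h1 h2 h3
  rcases h1.lt_or_eq with l | l
  · obtain ⟨m, m1, m2⟩ := exists_between l
    have o := ((show Differentiable ℂ P by fun_prop).differentiableOn.analyticOnNhd
      isOpen_univ).is_constant_or_isOpenMap.resolve_left fun ⟨w, h⟩ => b0 (by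
        have := h 0; have := h 1; have := h (-1); have := h 2
        simp only [hP] at *; grind)
    have t : Tendsto (fun t : ℝ => t * y) (𝓝[<] 1) (𝓝 y) :=
      (Continuous.tendsto' (by fun_prop) _ _ (by simp)).mono_left nhdsWithin_le_nhds
    obtain ⟨t, ⟨w, w1, w2⟩, t2, t3⟩ := ((((show Continuous P by fun_prop).tendsto y).comp t).eventually
      ((o _ isOpen_ball).mem_nhds ⟨x, mem_ball_zero_iff.2 m1, by
        simp only [hP]; linear_combination (x - y) * h3⟩) |>.and ((t.norm.eventually_const_lt m2).and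
        (Ioo_mem_nhdsLT (zero_lt_one' ℝ)))).exists
    have w3 := (mem_ball_zero_iff.1 w1).trans t2
    have t4 : ‖t * y‖ < ‖y‖ := by
      rw [norm_mul, norm_real, Real.norm_of_nonneg t3.1.le]
      exact mul_lt_of_lt_one_left ((norm_nonneg x).trans_lt l) t3.2
    exact t4.not_ge (hm (mk w _ (fun e => w3.ne (by rw [e])) w2 w3.le (t4.le.trans h2)))
  · obtain ⟨z, hz⟩ := IsAlgClosed.exists_pow_nat_eq (x * y) two_pos
    have n : ‖z‖ = ‖y‖ := by
      rw [← sq_eq_sq₀ (norm_nonneg _) (norm_nonneg _), ← norm_pow, hz, norm_mul, l, sq]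
    have y0 : y ≠ 0 := by rintro rfl; rw [norm_zero, norm_eq_zero] at l; simp [l] at h3
    have z0 : z ≠ 0 := norm_pos_iff.1 (n ▸ norm_pos_iff.2 y0)
    have n1 : ‖y / z‖ = 1 := by rw [norm_div, n, div_self (norm_ne_zero_iff.2 y0)]
    have e : x + y = (2 * (y / z).re : ℝ) * z := by
      rw [← add_conj, ← inv_eq_conj n1]; field_simp; linear_combination -hz
    set v := 2 * (y / z).re
    have v2 : v ^ 2 ≤ 4 := by
      have := abs_le.1 ((abs_re_le_norm (y / z)).trans n1.le)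
      simp only [v]; nlinarith
    obtain ⟨k1, k2⟩ := H (v ^ 2) (sq_nonneg v) v2
    have nA : ‖((v ^ 2 : ℝ) - 1 : ℂ) * b‖ = |v ^ 2 - 1| * ‖b‖ := by
      rw [norm_mul, ← ofReal_one, ← ofReal_sub, norm_real, Real.norm_eq_abs]
    have := schur (A := ((v ^ 2 : ℝ) - 1 : ℂ) * b) (B := v * a) (n.trans_le h2) (nA.trans_le k1) (by
      push_cast; linear_combination h3 - (a + b * (x + y + v * z)) * e - b * hz)
    rw [map_mul, conj_ofReal, show ∀ A c : ℂ, v * a - A * (v * c) = v * (a - A * c) by intros; ring,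
      nA, norm_mul, mul_pow, sq_abs, norm_real, Real.norm_eq_abs] at this
    rw [normSq_eq_norm_sq, normSq_eq_norm_sq] at k2
    have q : 0 ≤ 1 - (v ^ 2 - 1) ^ 2 * ‖b‖ ^ 2 := by
      rw [← sq_abs, ← mul_pow]; exact sub_nonneg.2 (pow_le_one₀ (by positivity) k1)
    exact k2.not_ge ((pow_le_pow_left₀ q this 2).trans_eq (by rw [mul_pow, sq_abs]))

end Pool.Agent.H1.Koe
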