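import Mathlib

open Set

namespace Pool.Agent.H1.Kor

def IsPosSol (n : ℝ) (f : ℝ → ℝ → ℝ) (lam : ℝ) (u : ℝ → ℝ) : Prop :=
  ContDiffOn ℝ 2 u (Icc 0 1) ∧
  (∀ r ∈ Ioo (0 : ℝ) 1, deriv (deriv u) r + (n - 1) / r * deriv u r + lam * f r (u r) = 0) ∧
  derivWithin u (Icc 0 1) 0 = 0 ∧ u 1 = 0 ∧ ∀ r ∈ Ico (0 : ℝ) 1, 0 < u r

end Pool.Agent.H1.Kor
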