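import Mathlib
import Pool.Agent.H1.KorDefs
import Pool.Agent.H1.KorA

open Set Filter Topology

namespace Pool.Agent.H1.Kor

lemma sol (T p q : ℝ → ℝ) (hT : ContDiff ℝ 2 T) (h1 : ∀ w, HasDerivAt T (p w) w)
    (h2 : ∀ w, HasDerivAt p (q w) w) (hp : ∀ w, -1 / 1000 ≤ w → w ≤ 2 → 0 < p w) (T0 : T 0 = 0)
    (T1 : T 1 = 1) :
    ∃ u : ℝ → ℝ, ContDiffOn ℝ 2 u (Icc 0 1) ∧ derivWithin u (Icc 0 1) 0 = 0 ∧ u 0 = 1 ∧ u 1 = 0 ∧
      (∀ r ∈ Ico (0 : ℝ) 1, 0 < u r) ∧ ∀ r ∈ Ioo (0 : ℝ) 1, ∃ w ∈ Icc (0 : ℝ) 1, u r = 1 - w ∧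
        T w = r ^ 2 ∧
        deriv (deriv u) r + 2 / r * deriv u r = -((6 * p w ^ 2 - 4 * T w * q w) / p w ^ 3) := by
  have hm : StrictMonoOn T (Icc (-1 / 1000) 2) :=
    strictMonoOn_of_deriv_pos (convex_Icc _ _) hT.continuous.continuousOn fun x hx => by
      rw [(h1 x).deriv]; exact hp x (interior_subset hx).1 (interior_subset hx).2
  set c : ℝ → ℝ := fun w => max (-1 / 1000) (min w 2) with hc
  have cm : ∀ w, c w ∈ Icc (-1 / 1000 : ℝ) 2 := fun w =>
    ⟨le_max_left _ _, max_le (by norm_num) (min_le_right _ _)⟩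
  set S : ℝ → ℝ := fun w => T (c w) + (w - c w) with hS
  have Sm : StrictMono S := fun a b hab => by
    have c1 : c a ≤ c b := max_le_max le_rfl (min_le_min hab.le le_rfl)
    have c2 : a - c a ≤ b - c b := by
      simp only [hc, max_def, min_def]; split_ifs <;> linarith
    simp only [hS]
    rcases eq_or_lt_of_le c1 with e | e
    · rw [e]; linarith
    · linarith [hm (cm a) (cm b) e]
  have Sc : Continuous S := by
    have := hT.continuous
    simp only [hS, hc]; fun_prop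
  have Ss : Function.Surjective S := by
    refine Sc.surjective ?_ ?_
    · refine (tendsto_atTop_add_const_right _ (T 2 - 2) tendsto_id).congr' ?_
      filter_upwards [eventually_ge_atTop 2] with w hw
      have : c w = 2 := by simp only [hc, min_eq_right hw]; norm_num
      simp only [hS, this, id]; ring
    · refine (tendsto_atBot_add_const_right _ (T (-1 / 1000) + 1 / 1000) tendsto_id).congr' ?_
      filter_upwards [eventually_le_atBot (-1 / 1000)] with w hw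
      have : c w = -1 / 1000 := max_eq_left ((min_le_left _ _).trans hw)
      simp only [hS, this, id]; ring
  have Se : ∀ w ∈ Ioo (-1 / 1000 : ℝ) 2, S =ᶠ[𝓝 w] T := fun w hw => by
    filter_upwards [Ioo_mem_nhds hw.1 hw.2] with v hv
    simp only [hS, hc, min_eq_left hv.2.le, max_eq_right hv.1.le]; ring
  set e := (Sm.orderIsoOfSurjective S Ss).toHomeomorph with he
  have ee : ∀ w, e w = S w := fun w => rfl
  set W : ℝ → ℝ := fun t => e.symm t with hW
  have WS : ∀ w, W (S w) = w := fun w => e.symm_apply_apply w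
  have SW : ∀ t, S (W t) = t := fun t => e.apply_symm_apply t
  have S0 : S 0 = 0 := by rw [(Se 0 (by norm_num)).eq_of_nhds, T0]
  have S1 : S 1 = 1 := by rw [(Se 1 (by norm_num)).eq_of_nhds, T1]
  have W0 : W 0 = 0 := by simpa [S0] using WS 0
  have W1 : W 1 = 1 := by simpa [S1] using WS 1
  have Wm : StrictMono W := fun a b h => Sm.lt_iff_lt.1 (by rwa [SW, SW])
  have Wd : ∀ t, W t ∈ Ioo (-1 / 1000 : ℝ) 2 →
      HasDerivAt W (p (W t))⁻¹ t ∧ ContDiffAt ℝ 2 W t := fun t ht => by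
    have a := (h1 (W t)).congr_of_eventuallyEq (Se _ ht)
    have b := (hp _ ht.1.le ht.2.le).ne'
    exact ⟨HasDerivAt.of_local_left_inverse e.symm.continuous.continuousAt a b
      (Eventually.of_forall SW), e.toOpenPartialHomeomorph.contDiffAt_symm_deriv b (mem_univ t) a
      (hT.contDiffAt.congr_of_eventuallyEq (Se _ ht))⟩
  have Wi : ∀ r ∈ Icc (0 : ℝ) 1, W (r ^ 2) ∈ Icc (0 : ℝ) 1 := fun r hr =>
    ⟨W0 ▸ Wm.monotone (by positivity), W1 ▸ Wm.monotone (by nlinarith [hr.1, hr.2])⟩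
  have Wo : ∀ r ∈ Icc (0 : ℝ) 1, W (r ^ 2) ∈ Ioo (-1 / 1000 : ℝ) 2 := fun r hr =>
    ⟨by linarith [(Wi r hr).1], by linarith [(Wi r hr).2]⟩
  have D1 : ∀ r, W (r ^ 2) ∈ Ioo (-1 / 1000 : ℝ) 2 →
      HasDerivAt (fun r => W (r ^ 2)) ((p (W (r ^ 2)))⁻¹ * (2 * r)) r := fun r hr => by
    have := HasDerivAt.comp (h := fun r : ℝ => r ^ 2) r (Wd _ hr).1 (hasDerivAt_pow 2 r)
    simpa [Function.comp_def] using this
  refine ⟨fun r => 1 - W (r ^ 2), fun r hr => ?_, ?_, by simp [W0], by simp [W1], fun r hr => ?_,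
    fun r hr => ?_⟩
  · exact (contDiffAt_const.sub (ContDiffAt.comp r (f := fun r : ℝ => r ^ 2) (Wd _ (Wo r hr)).2
      (by fun_prop))).contDiffWithinAt
  · have := ((D1 0 (Wo 0 (by simp))).const_sub 1).hasDerivWithinAt (s := Icc 0 1)
    simpa using this.derivWithin (uniqueDiffOn_Icc one_pos 0 (by simp))
  · have := Wm (show r ^ 2 < 1 by nlinarith [hr.1, hr.2])
    simp only; linarith
  · have hr' := Ioo_subset_Icc_self hr
    have TW : T (W (r ^ 2)) = r ^ 2 := by rw [← (Se _ (Wo r hr')).eq_of_nhds, SW]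
    refine ⟨W (r ^ 2), Wi r hr', rfl, TW, ?_⟩
    have ev : deriv (fun r => 1 - W (r ^ 2)) =ᶠ[𝓝 r] fun r => -((p (W (r ^ 2)))⁻¹ * (2 * r)) := by
      filter_upwards [Ioo_mem_nhds hr.1 hr.2] with s hs
      exact ((D1 s (Wo s (Ioo_subset_Icc_self hs))).const_sub 1).deriv
    have b := (hp _ (Wo r hr').1.le (Wo r hr').2.le).ne'
    have d2 := ((((h2 _).comp r (D1 r (Wo r hr'))).inv b).mul
      ((hasDerivAt_id r).const_mul 2)).neg
    rw [ev.deriv_eq, ev.eq_of_nhds]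
    erw [d2.deriv]
    have := hr.1.ne'
    simp only [Function.comp, Pi.inv_apply, id, TW]
    field_simp
    ring

noncomputable def F1 (w : ℝ) : ℝ := (6 * T1p w ^ 2 - 4 * T1 w * T1q w) / T1p w ^ 3

noncomputable def B (w : ℝ) : ℝ := Q w / (11 / 10 * T1p w ^ 3 * T2p w ^ 3 * D w)

noncomputable def ψ (w : ℝ) : ℝ := w * Real.smoothTransition (1000 * w + 1)

noncomputable def hh (x : ℝ) : ℝ := 1 / 4 + Real.smoothTransition (4 * x - 1) * (x - 1 / 4)

noncomputable def ff (r u : ℝ) : ℝ := hh (F1 (ψ (1 - u)) + B (ψ (1 - u)) * (T1 (ψ (1 - u)) - r ^ 2))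

lemma ψ_eq (w : ℝ) (h : 0 ≤ w) : ψ w = w := by
  rw [ψ, Real.smoothTransition.one_of_one_le (by linarith), mul_one]

lemma ψ_mem (w : ℝ) (h : w ≤ 1) : -1 / 1000 ≤ ψ w ∧ ψ w ≤ 1 := by
  rcases le_total 0 w with h0 | h0
  · rw [ψ_eq w h0]; exact ⟨by linarith, h⟩
  have a := Real.smoothTransition.nonneg (1000 * w + 1)
  have b := Real.smoothTransition.le_one (1000 * w + 1)
  refine ⟨?_, by unfold ψ; nlinarith⟩
  rcases le_total (1000 * w + 1) 0 with h1 | h1
  · rw [ψ, Real.smoothTransition.zero_of_nonpos h1]; norm_num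
  · unfold ψ; nlinarith

lemma hh_eq (x : ℝ) (h : 1 / 2 ≤ x) : hh x = x := by
  rw [hh, Real.smoothTransition.one_of_one_le (by linarith)]; ring

lemma hh_mono : Monotone hh := fun a b hab => by
  have m := Real.smoothTransition.monotone (show 4 * a - 1 ≤ 4 * b - 1 by linarith)
  have a0 := Real.smoothTransition.nonneg (4 * a - 1)
  unfold hh
  rcases le_total a (1 / 4) with h | h
  · rw [Real.smoothTransition.zero_of_nonpos (show 4 * a - 1 ≤ 0 by linarith)]
    rcases le_total b (1 / 4) with h' | h'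
    · rw [Real.smoothTransition.zero_of_nonpos (show 4 * b - 1 ≤ 0 by linarith)]; simp
    · nlinarith [Real.smoothTransition.nonneg (4 * b - 1)]
  · nlinarith

lemma hh_pos (x : ℝ) : 0 < hh x := by
  unfold hh
  rcases le_total x (1 / 4) with h | h
  · rw [Real.smoothTransition.zero_of_nonpos (show 4 * x - 1 ≤ 0 by linarith)]; norm_num
  · nlinarith [Real.smoothTransition.nonneg (4 * x - 1)]

lemma B_nonneg (w : ℝ) (h0 : -1 / 1000 ≤ w) (h1 : w ≤ 1) : 0 ≤ B w := by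
  have := T1p_pos w h0 (by linarith)
  have := T2p_pos w h0 (by linarith)
  have := D_pos w h0 h1
  have := Q_pos w h0 h1
  unfold B; positivity

lemma F1_ge (w : ℝ) (h0 : 0 ≤ w) (h1 : w ≤ 1) : 1 / 2 ≤ F1 w := by
  have := T1p_pos w (by linarith) (by linarith)
  rw [F1, le_div_iff₀ (by positivity)]
  linarith [eM w, M_pos w h0 h1]

theorem main : ∃ f : ℝ → ℝ → ℝ,
    ContDiffOn ℝ 1 (Function.uncurry f) (Icc 0 1 ×ˢ Ici 0) ∧
    (∀ r ∈ Icc (0 : ℝ) 1, ∀ u, 0 ≤ u → derivWithin (fun s => f s u) (Icc 0 1) r ≤ 0) ∧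
    (∀ r u, 0 < f r u) ∧
    ∃ (l₁ l₂ : ℝ) (u₁ u₂ : ℝ → ℝ), 0 < l₁ ∧ 0 < l₂ ∧ l₁ ≠ l₂ ∧ IsPosSol 3 f l₁ u₁ ∧
      IsPosSol 3 f l₂ u₂ ∧ u₁ 0 = u₂ 0 := by
  refine ⟨ff, fun x hx => ?_, fun r _ u hu => AntitoneOn.derivWithin_nonpos fun a ha b hb hab => ?_,
    fun r u => hh_pos _, 1, 11 / 10, ?_⟩
  · obtain ⟨m0, m1⟩ := ψ_mem (1 - x.2) (by linarith [mem_Ici.1 hx.2])
    have a1 := (T1p_pos _ m0 (by linarith)).ne'
    have a2 := (T2p_pos _ m0 (by linarith)).ne'
    have a3 := (D_pos _ m0 m1).ne'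
    have s := Real.smoothTransition.contDiff (n := 1)
    have c1 : ContDiff ℝ 1 hh := by unfold hh; fun_prop
    have c2 : ContDiff ℝ 1 ψ := by unfold ψ; fun_prop
    have c3 : ContDiff ℝ 1 T1 := by unfold T1; fun_prop
    have c4 : ContDiff ℝ 1 T1p := by unfold T1p; fun_prop
    have c5 : ContDiff ℝ 1 T1q := by unfold T1q; fun_prop
    have c6 : ContDiff ℝ 1 T2p := by unfold T2p; fun_prop
    have c7 : ContDiff ℝ 1 D := by unfold D; fun_prop
    have c8 : ContDiff ℝ 1 Q := by unfold Q; fun_prop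
    refine ContDiffAt.contDiffWithinAt ?_
    change ContDiffAt ℝ 1 (fun x : ℝ × ℝ => ff x.1 x.2) x
    unfold ff F1 B
    fun_prop (disch := positivity)
  · obtain ⟨m0, m1⟩ := ψ_mem (1 - u) (by linarith)
    refine hh_mono ?_
    have := B_nonneg _ m0 m1
    have : a ^ 2 ≤ b ^ 2 := by nlinarith [ha.1]
    nlinarith
  obtain ⟨u₁, a1, a2, a3, a4, a5, a6⟩ := sol T1 T1p T1q (by unfold T1; fun_prop)
    (fun w => by
      unfold T1 T1p
      refine HasDerivAt.congr_deriv (((((hasDerivAt_pow 1 w).const_mul _).add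
        ((hasDerivAt_pow 2 w).const_mul _)).add ((hasDerivAt_pow 3 w).const_mul _)).add
        ((hasDerivAt_pow 4 w).const_mul _)) (by norm_num; ring))
    (fun w => by
      unfold T1p T1q
      refine HasDerivAt.congr_deriv (((((hasDerivAt_pow 0 w).const_mul _).add
        ((hasDerivAt_pow 1 w).const_mul _)).add ((hasDerivAt_pow 2 w).const_mul _)).add
        ((hasDerivAt_pow 3 w).const_mul _)) (by norm_num; ring))
    T1p_pos (by unfold T1; norm_num) (by unfold T1; norm_num)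
  obtain ⟨u₂, b1, b2, b3, b4, b5, b6⟩ := sol T2 T2p T2q (by unfold T2; fun_prop)
    (fun w => by
      unfold T2 T2p
      refine HasDerivAt.congr_deriv ((((hasDerivAt_pow 1 w).const_mul _).add
        ((hasDerivAt_pow 2 w).const_mul _)).add
        ((hasDerivAt_pow 4 w).const_mul _)) (by norm_num; ring))
    (fun w => by
      unfold T2p T2q
      refine HasDerivAt.congr_deriv ((((hasDerivAt_pow 0 w).const_mul _).add
        ((hasDerivAt_pow 1 w).const_mul _)).add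
        ((hasDerivAt_pow 3 w).const_mul _)) (by norm_num; ring))
    T2p_pos (by unfold T2; norm_num) (by unfold T2; norm_num)
  refine ⟨u₁, u₂, one_pos, by norm_num, by norm_num, ⟨a1, fun r hr => ?_, a2, a4, a5⟩,
    ⟨b1, fun r hr => ?_, b2, b4, b5⟩, a3.trans b3.symm⟩
  · obtain ⟨w, hw, e1, e2, e3⟩ := a6 r hr
    rw [show (3 : ℝ) - 1 = 2 by norm_num, e3, e1, ff, sub_sub_cancel, ψ_eq w hw.1, ← e2, sub_self,
      mul_zero, add_zero, hh_eq _ (F1_ge w hw.1 hw.2), F1]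
    ring
  · obtain ⟨w, hw, e1, e2, e3⟩ := b6 r hr
    have p1 := T1p_pos w (by linarith [hw.1]) (by linarith [hw.2])
    have p2 := T2p_pos w (by linarith [hw.1]) (by linarith [hw.2])
    have p3 := D_pos w (by linarith [hw.1]) hw.2
    have p4 := B_nonneg w (by linarith [hw.1]) hw.2
    have p5 : 0 ≤ w * (1 - w) * D w := by
      have := hw.1
      have : 0 ≤ 1 - w := by linarith [hw.2]
      positivity
    rw [show (3 : ℝ) - 1 = 2 by norm_num, e3, e1, ff, sub_sub_cancel, ψ_eq w hw.1, ← e2, eD,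
      hh_eq _ (by linarith [F1_ge w hw.1 hw.2, mul_nonneg p4 p5]), F1, B]
    have := eQ w
    field_simp
    linear_combination (-10) * this

end Pool.Agent.H1.Kor
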