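import Mathlib

namespace Pool.Agent.H1.Kr

open Filter Topology Set MeasureTheory Metric
open scoped InnerProductSpace Pointwise

variable {H : Type} [NormedAddCommGroup H] [InnerProductSpace ℂ H] [CompleteSpace H]
  {U : ℝ → H →ₗᵢ[ℂ] H} (hU : ∀ s t v, U (s + t) v = U s (U t v)) (h0 : ∀ v, U 0 v = v) {ξ : H}

include hU h0

lemma cont {E : Set ℝ} (hE : IsCompact E) (mE : volume E ≠ 0) {K : Set H} (c1 : IsClosed K)
    (c2 : Convex ℝ K) (hK : ∀ t ∈ E, U t ξ ∈ K) : ∃ w ∈ K, Continuous fun t => U t w := by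
  set hull : Set ℝ → Set H := fun S => convexHull ℝ ((fun t => U t ξ) '' S)
  set G : Set (Set ℝ) := {S | IsCompact S ∧ volume S ≠ 0}
  have mo : ∀ {S T}, S ⊆ T → hull S ⊆ hull T := fun h => convexHull_mono (image_mono h)
  have par : ∀ {S v w ρ}, v ∈ hull S → w ∈ hull S → (∀ v ∈ hull S, ρ ≤ ‖v‖ ^ 2) →
      ‖v - w‖ ^ 2 ≤ 2 * ‖v‖ ^ 2 + 2 * ‖w‖ ^ 2 - 4 * ρ := fun {S v w ρ} hv hw h => by
    have a1 := h _ (convex_convexHull ℝ _ hv hw one_half_pos.le one_half_pos.le (add_halves 1))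
    rw [← smul_add, norm_smul, mul_pow, Real.norm_of_nonneg one_half_pos.le] at a1
    nlinarith [parallelogram_law_with_norm ℂ v w]
  have step : ∀ n : ℕ, ∀ S : G, ∃ S' : G, S'.1 ⊆ S.1 ∧ ∃ w ∈ hull S', ∃ ρ, ‖w‖ ^ 2 ≤ ρ + (1 / 4) ^ n ∧
      (∀ v ∈ hull S', ρ ≤ ‖v‖ ^ 2) ∧ ∀ T ∈ G, T ⊆ S' → ∃ v ∈ hull T, ‖v‖ ^ 2 ≤ ρ + 2 * (1 / 4) ^ n := by
    intro n ⟨S, hS⟩
    have k0 : (0 : ℝ) < (1 / 4) ^ n := by positivity
    set q : Set ℝ → ℝ := fun T => sInf ((‖·‖ ^ 2) '' hull T)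
    have b : ∀ T, ∀ v ∈ hull T, q T ≤ ‖v‖ ^ 2 := fun T v hv =>
      csInf_le ⟨0, by rintro _ ⟨v, -, rfl⟩; positivity⟩ ⟨v, hv, rfl⟩
    have ne : ∀ T ∈ G, ∃ t, U t ξ ∈ hull T := fun T hT =>
      (nonempty_of_measure_ne_zero hT.2).imp fun t ht => subset_convexHull ℝ _ ⟨t, ht, rfl⟩
    have ap : ∀ T ∈ G, ∃ v ∈ hull T, ‖v‖ ^ 2 < q T + (1 / 4) ^ n := fun T hT => by
      obtain ⟨_, ⟨v, hv, rfl⟩, h⟩ := exists_lt_of_csInf_lt (s := (‖·‖ ^ 2) '' hull T)
        ((ne T hT).elim fun _ h => ⟨_, _, h, rfl⟩) (lt_add_of_pos_right (q T) k0)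
      exact ⟨v, hv, h⟩
    obtain ⟨_, ⟨S', ⟨h1, h2⟩, rfl⟩, h3⟩ := exists_lt_of_lt_csSup (s := q '' {T | T ∈ G ∧ T ⊆ S})
      ⟨_, S, ⟨hS, le_rfl⟩, rfl⟩ (sub_lt_self _ k0)
    obtain ⟨w, hw, h4⟩ := ap S' h1
    refine ⟨⟨S', h1⟩, h2, w, hw, q S', h4.le, b S', fun T hT hs => (ap T hT).imp fun v hv => ⟨hv.1, ?_⟩⟩
    have := le_csSup (s := q '' {T | T ∈ G ∧ T ⊆ S}) ⟨‖ξ‖ ^ 2, by
      rintro _ ⟨T, hT, rfl⟩
      obtain ⟨t, ht⟩ := ne T hT.1
      simpa using b T _ ht⟩ ⟨T, ⟨hT, hs.trans h2⟩, rfl⟩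
    linarith [hv.2]
  choose F f1 w f2 ρ f3 f4 f5 using step
  set S : ℕ → G := fun n => n.rec ⟨E, hE, mE⟩ fun n S => F n S
  have s1 : ∀ n, (S n).1 ⊆ E := fun n => by
    induction n with
    | zero => exact le_rfl
    | succ n ih => exact (f1 n _).trans ih
  have sq : ∀ n : ℕ, (3 * (1 / 2 : ℝ) ^ n) ^ 2 = 9 * (1 / 4) ^ n := fun n => by
    rw [mul_pow, ← pow_mul, mul_comm n, pow_mul]; norm_num
  obtain ⟨u, hu⟩ := cauchySeq_tendsto_of_complete (cauchySeq_of_le_geometric (1 / 2) 3 (by norm_num)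
    (f := fun n => w n (S n)) fun n => by
      obtain ⟨v, hv, h⟩ := f5 n (S n) _ (S (n + 2)).2 (f1 (n + 1) _)
      have a1 := par (mo (f1 (n + 1) _) (f2 (n + 1) (S (n + 1)))) (f2 n (S n)) (f4 n (S n))
      have a2 := f3 (n + 1) (S (n + 1))
      rw [dist_comm, dist_eq_norm]
      refine (abs_le_of_sq_le_sq' ?_ (by positivity)).2
      rw [sq]
      rw [pow_succ (1 / 4 : ℝ)] at a2
      linarith [f4 (n + 1) (S (n + 1)) v hv, f3 n (S n), show (0 : ℝ) < (1 / 4) ^ n by positivity])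
  refine ⟨u, c1.mem_of_tendsto hu (.of_forall fun n => convexHull_min ?_ c2 (mo (s1 (n + 1)) (f2 n _))), ?_⟩
  · rintro _ ⟨t, ht, rfl⟩; exact hK t ht
  have a1 : ∀ n, ∀ᶠ s in 𝓝 (0 : ℝ), ‖U s (w n (S n)) - w n (S n)‖ ≤ 6 * (1 / 2) ^ n := fun n => by
    have hG := (F n (S n)).2
    filter_upwards [eventually_nhds_zero_measure_vadd_sdiff_lt (μ := volume) hG.1 hG.1.isClosed hG.2]
      with s hs
    obtain ⟨v, hv, h⟩ := f5 n (S n) ((s +ᵥ (F n (S n)).1) ∩ (F n (S n)).1)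
      ⟨(hG.1.vadd s).inter_right hG.1.isClosed, fun h => hs.not_ge (by
        rw [measure_sdiff_null' h, measure_vadd])⟩ inter_subset_right
    have b1 : U (-s) v ∈ hull (F n (S n)) := by
      refine convexHull_min (t := (U (-s)).toLinearMap.restrictScalars ℝ ⁻¹' hull (F n (S n))) ?_
        ((convex_convexHull ℝ _).linear_preimage _) hv
      rintro _ ⟨_, ⟨⟨t, ht, rfl⟩, -⟩, rfl⟩
      exact subset_convexHull ℝ _ ⟨t, ht, (congrArg (U · ξ) (by simp)).trans (hU (-s) (s + t) ξ)⟩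
    have b2 := par b1 (f2 n _) (f4 n _)
    have b3 := par (mo inter_subset_right hv) (f2 n _) (f4 n _)
    rw [← (U s).norm_map (_ - _), map_sub, ← hU, add_neg_cancel, h0, LinearIsometry.norm_map] at b2
    have k0 : (0 : ℝ) < (1 / 4) ^ n := by positivity
    have b4 := (abs_le_of_sq_le_sq' (b := 3 * (1 / 2) ^ n) (b2.trans (by
      rw [sq]; linarith [f3 n (S n)])) (by positivity)).2
    have b5 := (abs_le_of_sq_le_sq' (b := 3 * (1 / 2) ^ n) (b3.trans (by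
      rw [sq]; linarith [f3 n (S n)])) (by positivity)).2
    linarith [norm_sub_le_norm_sub_add_norm_sub (U s (w n (S n))) v (w n (S n)), norm_sub_rev v (U s (w n (S n)))]
  have a2 : Tendsto (fun s => ‖U s u - u‖) (𝓝 0) (𝓝 0) := by
    refine tendsto_order.2 ⟨fun a ha => .of_forall fun _ => ha.trans_le (norm_nonneg _), fun ε e0 => ?_⟩
    have t := ((tendsto_iff_norm_sub_tendsto_zero.1 hu).const_mul 2).add
      ((tendsto_pow_atTop_nhds_zero_of_lt_one (r := (1 / 2 : ℝ)) (by norm_num) (by norm_num)).const_mul 6)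
    obtain ⟨n, hn⟩ := (t.eventually (gt_mem_nhds (by simpa using e0))).exists
    filter_upwards [a1 n] with s hs
    have b1 := (U s).norm_map (u - w n (S n))
    rw [map_sub, norm_sub_rev u] at b1
    linarith [norm_sub_le_norm_sub_add_norm_sub (U s u) (U s (w n (S n))) u,
      norm_sub_le_norm_sub_add_norm_sub (U s (w n (S n))) (w n (S n)) u]
  refine continuous_iff_continuousAt.2 fun t => tendsto_iff_norm_sub_tendsto_zero.2
    ((a2.comp (tendsto_sub_nhds_zero_iff.2 tendsto_id)).congr fun s => ?_)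
  rw [Function.comp, ← (U t).norm_map, map_sub, ← hU, id, add_sub_cancel]

omit [CompleteSpace H] h0 in
lemma bes (h : ∀ ε > 0, ∃ δ > 0, ∀ᵐ t, |t| < δ → (⟪ξ, U t ξ⟫_ℂ).re ≤ ε) (η : H) :
    ∀ᵐ t, (⟪η, U t ξ⟫_ℂ).re ≤ 0 := by
  have key : ∀ c > 0, ∀ᵐ t, (⟪η, U t ξ⟫_ℂ).re < c := fun c c0 => by
    obtain ⟨δ, d0, hZ⟩ := h (c ^ 2 / (2 * (‖η‖ ^ 2 + 1))) (by positivity)
    set ε := c ^ 2 / (2 * (‖η‖ ^ 2 + 1)) with hε
    refine measure_null_of_locally_null _ fun x _ => ⟨_, inter_mem_nhdsWithin _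
      (ball_mem_nhds x (half_pos d0)), ?_⟩
    by_contra hn
    obtain ⟨y, y1, y2⟩ := exists_seq_of_forall_finset_exists
      (· ∈ {t | (⟪η, U t ξ⟫_ℂ).re < c}ᶜ ∩ ball x (δ / 2))
      (fun a b => |b - a| < δ → (⟪ξ, U (b - a) ξ⟫_ℂ).re ≤ ε) fun s _ => by
        obtain ⟨y, h1, h2⟩ := ((frequently_ae_mem_iff.2 hn).and_eventually ((eventually_all_finset s).2
          fun a _ => (measurePreserving_sub_right volume a).quasiMeasurePreserving.ae hZ)).exists
        exact ⟨y, h1, h2⟩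
    have y3 : ∀ i j, i < j → (⟪U (y i) ξ, U (y j) ξ⟫_ℂ).re ≤ ε := fun i j hl => by
      rw [← add_sub_cancel (y i) (y j), hU, LinearIsometry.inner_map_map]
      refine y2 i j hl ?_
      have := (y1 i).2; have := (y1 j).2
      rw [mem_ball, Real.dist_eq] at *
      grind
    have e0 : 0 < ε := by positivity
    have y4 : ∀ n : ℕ, ‖∑ i ∈ Finset.range n, U (y i) ξ‖ ^ 2 ≤ n * ‖ξ‖ ^ 2 + n ^ 2 * ε := fun n => by
      induction n with
      | zero => simp
      | succ n ih =>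
        have := Finset.sum_le_card_nsmul _ _ _ fun i hi => y3 i n (Finset.mem_range.1 hi)
        rw [Finset.sum_range_succ, norm_add_sq (𝕜 := ℂ), sum_inner, map_sum, LinearIsometry.norm_map]
        simp only [Finset.card_range, nsmul_eq_mul, RCLike.re_to_complex] at this ⊢
        push_cast
        nlinarith
    obtain ⟨n, hn⟩ := exists_nat_gt (2 * (‖η‖ ^ 2 * ‖ξ‖ ^ 2) / c ^ 2)
    have n0 : (0 : ℝ) < n := lt_of_le_of_lt (by positivity) hn
    have a1 := Finset.card_nsmul_le_sum (Finset.range n) _ c fun i _ => not_lt.1 (y1 i).1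
    rw [Finset.card_range, nsmul_eq_mul, ← Complex.re_sum, ← inner_sum] at a1
    have a2 := pow_le_pow_left₀ (by positivity) (a1.trans ((Complex.re_le_norm _).trans
      (norm_inner_le_norm _ _))) 2
    rw [div_lt_iff₀ (by positivity)] at hn
    have a3 : ε * (2 * (‖η‖ ^ 2 + 1)) = c ^ 2 := div_mul_cancel₀ _ (by positivity)
    rw [mul_pow, mul_pow] at a2
    nlinarith [mul_le_mul_of_nonneg_left (y4 n) (sq_nonneg ‖η‖), mul_lt_mul_of_pos_left hn n0,
      mul_pos (pow_pos n0 2) e0]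
  filter_upwards [ae_all_iff.2 fun n : ℕ => key _ (Nat.one_div_pos_of_nat (n := n))] with t ht
  exact ge_of_tendsto' tendsto_one_div_add_atTop_nhds_zero_nat fun n => (ht n).le

theorem dec (h : ∀ ε > 0, ∃ δ > 0, ∃ g : ℝ → ℂ, AEMeasurable g volume ∧
    ∀ t, |t| < δ → ‖⟪ξ, U t ξ⟫_ℂ - g t‖ ≤ ε) :
    ∃ u, (Continuous fun t => U t u) ∧ ∀ η, ∀ᵐ t, ⟪η, U t (ξ - u)⟫_ℂ = 0 := by
  set C : Submodule ℂ H :=
    { carrier := {v | Continuous fun t => U t v}
      add_mem' := fun h1 h2 => (Continuous.add h1 h2).congr fun t => (map_add _ _ _).symm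
      zero_mem' := by simpa only [mem_ofPred_eq, map_zero] using continuous_const
      smul_mem' := fun c _ h1 => (Continuous.const_smul h1 c).congr fun t => (map_smul _ _ _).symm }
  have hC : IsClosed (C : Set H) := isClosed_of_closure_subset fun v hv =>
    continuous_of_uniform_approx_of_continuous fun W hW => by
      obtain ⟨ε, e0, h1⟩ := Metric.mem_uniformity_dist.1 hW
      obtain ⟨w, h2, h3⟩ := Metric.mem_closure_iff.1 hv ε e0
      exact ⟨_, h2, fun t => h1 (((U t).dist_map _ _).trans_lt h3)⟩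
  have := hC.completeSpace_coe
  obtain ⟨u, hu, z, hz, rfl⟩ := C.exists_add_mem_mem_orthogonal ξ
  have i1 : ∀ s, ∀ v ∈ C, U s v ∈ C := fun s v hv =>
    (Continuous.comp (g := fun t => U t v) hv (continuous_add_const s)).congr fun t => hU _ _ _
  have i2 : ∀ s, U s z ∈ Cᗮ := fun s v hv => by
    rw [← (U (-s)).inner_map_map, ← hU, neg_add_cancel, h0]
    exact hz _ (i1 _ _ hv)
  have key := bes hU (ξ := z) fun ε e0 => by
    obtain ⟨δ, d0, g, hg, h1⟩ := h (ε / 3) (by positivity)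
    have m : Measurable fun t => (hg.mk g t - ⟪u, U t u⟫_ℂ).re := Complex.measurable_re.comp
      (hg.measurable_mk.sub (continuous_const.inner hu).measurable)
    have e : ∀ t, ⟪u + z, U t (u + z)⟫_ℂ = ⟪u, U t u⟫_ℂ + ⟪z, U t z⟫_ℂ := fun t => by
      rw [map_add, inner_add_left, inner_add_right, inner_add_right, i2 t u hu,
        inner_eq_zero_symm.1 (hz _ (i1 t u hu)), add_zero, zero_add]
    have b : ∀ t, |t| < δ → g t = hg.mk g t →
        |(⟪z, U t z⟫_ℂ).re - (hg.mk g t - ⟪u, U t u⟫_ℂ).re| ≤ ε / 3 := fun t h2 h3 => by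
      refine le_trans ?_ ((Complex.abs_re_le_norm _).trans (h1 t h2))
      rw [e, h3]; simp only [Complex.sub_re, Complex.add_re]; exact le_of_eq (by ring_nf)
    obtain ⟨N, n1, n2, n3⟩ := exists_measurable_superset_of_null (ae_iff.1 hg.ae_eq_mk)
    have z0 : volume ({t | |t| < δ ∧ 2 * ε / 3 ≤ (hg.mk g t - ⟪u, U t u⟫_ℂ).re} \ N) = 0 := by
      by_contra hn
      obtain ⟨E, e1, e2, e3⟩ := MeasurableSet.exists_lt_isCompact (MeasurableSet.diff (.inter (measurableSet_lt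
        continuous_abs.measurable measurable_const) (measurableSet_le measurable_const m)) n2)
        (pos_iff_ne_zero.2 hn)
      obtain ⟨w, ⟨w1, w2⟩, w3⟩ := cont hU h0 (ξ := z) e2 e3.ne'
        (K := Cᗮ ∩ {v | ε / 3 ≤ (⟪z, v⟫_ℂ).re}) (C.isClosed_orthogonal.inter (isClosed_le (by fun_prop)
          (by fun_prop))) ((Cᗮ.restrictScalars ℝ).convex.inter (convex_halfSpace_ge
            (Complex.reLm.comp ((innerₛₗ ℂ z).restrictScalars ℝ)).isLinear _)) fun t ht => ⟨i2 t, by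
              have a1 := abs_le.1 (b t (e1 ht).1.1 (by_contra fun h => (e1 ht).2 (n1 h)))
              have a2 := (e1 ht).1.2
              simp only [mem_ofPred_eq] at a2 ⊢
              linarith⟩
      rw [inner_self_eq_zero.1 (w1 w w3)] at w2
      simp at w2
      linarith
    refine ⟨δ, d0, ?_⟩
    filter_upwards [compl_mem_ae_iff.2 z0, compl_mem_ae_iff.2 n3] with t h2 h3 h4
    linarith [abs_le.1 (b t h4 (by_contra fun h => h3 (n1 h))), not_le.1 fun h => h2 ⟨⟨h4, h⟩, h3⟩]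
  refine ⟨u, hu, fun η => ?_⟩
  filter_upwards [key η, key (-η), key (Complex.I • η), key (-(Complex.I • η))] with t h1 h2 h3 h4
  simp only [inner_neg_left, inner_smul_left, Complex.conj_I, Complex.neg_re, neg_mul, Complex.mul_re,
    Complex.I_re, Complex.I_im] at h2 h3 h4
  rw [add_sub_cancel_left]
  exact Complex.ext (by simp; linarith) (by simp; linarith)

end Pool.Agent.H1.Kr
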