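import Pool.Agent.H1.KrA

namespace Pool.Agent.H1.Kr

open Filter Topology Set MeasureTheory Metric BoundedContinuousFunction
open scoped InnerProductSpace ComplexOrder

lemma near {V : Type} [NormedAddCommGroup V] [NormedSpace ℂ V] (Φ : V →L[ℂ] ℂ) {ε : ℝ} (h : 0 < ε) :
    ∃ p, ‖p‖ ≤ 1 ∧ ‖Φ‖ - ε < (Φ p).re := by
  obtain ⟨p, h1, h2⟩ := Φ.exists_lt_apply_of_lt_opNorm (sub_lt_self _ h)
  obtain ⟨c, c1, c2⟩ := Complex.exists_norm_eq_mul_self (Φ p)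
  exact ⟨c • p, by simp [norm_smul, c1, h1.le], by rwa [map_smul, smul_eq_mul, ← c2]⟩

lemma pos {Ψ : (ℝ →ᵇ ℂ) →L[ℂ] ℂ} (h : ‖Ψ‖ ≤ (Ψ 1).re) {b : ℝ →ᵇ ℂ} (hb : ∀ x, 0 ≤ b x) : 0 ≤ Ψ b := by
  have n1 : ‖Ψ 1‖ ≤ ‖Ψ‖ := by simpa using Ψ.le_opNorm 1
  have n2 : (Ψ 1).im = 0 := Complex.re_eq_norm.1 (le_antisymm (Complex.re_le_norm _) (n1.trans h)) |>.2.symm
  have n3 := le_antisymm h ((Complex.re_le_norm _).trans n1)
  have key : ∀ (w : ℂ) (r : ℝ), 0 ≤ r → (∀ s, 0 ≤ s → s ≤ ‖b‖ → (s - w.re) ^ 2 + w.im ^ 2 ≤ r ^ 2) →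
      ((Ψ b).re - w.re * ‖Ψ‖) ^ 2 + ((Ψ b).im - w.im * ‖Ψ‖) ^ 2 ≤ ‖Ψ‖ ^ 2 * r ^ 2 := fun w r r0 hw => by
    have := pow_le_pow_left₀ (norm_nonneg _) (Ψ.le_opNorm_of_le (x := b - w • 1) ((norm_le r0).2 fun x =>
      (abs_le_of_sq_le_sq' (by
        rw [Complex.sq_norm, Complex.normSq_apply]
        simpa [← (hb x).2, sq] using hw _ (hb x).1 ((Complex.re_le_norm _).trans (b.norm_coe_le_norm x)))
          r0).2)) 2
    rw [Complex.sq_norm, Complex.normSq_apply, mul_pow] at this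
    simpa [n2, ← n3, sq] using this
  have a1 := key ‖b‖ ‖b‖ (norm_nonneg _) fun s h1 h2 => by simp; nlinarith
  have a2 := fun t : ℝ => key (t * Complex.I) √(‖b‖ ^ 2 + t ^ 2) (Real.sqrt_nonneg _) fun s h1 h2 => by
    rw [Real.sq_sqrt (by positivity)]; simp; nlinarith
  simp only [Complex.ofReal_re, Complex.ofReal_im, Complex.mul_re, Complex.mul_im, Complex.I_re,
    Complex.I_im] at a1 a2
  refine ⟨by_contra fun h => ?_, by_contra fun h => ?_⟩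
  · simp at h
    nlinarith [mul_nonneg (norm_nonneg b) (norm_nonneg Ψ), sq_nonneg ((Ψ b).im - 0 * ‖Ψ‖)]
  · have h1 : ‖Ψ‖ ≠ 0 := fun h0 => h (by simp [Ψ.opNorm_zero_iff.1 h0])
    have h2 : (Ψ b).im * ‖Ψ‖ ≠ 0 := mul_ne_zero (Ne.symm h) h1
    have := a2 (-(‖Ψ‖ ^ 2 * ‖b‖ ^ 2 + 1) / ((Ψ b).im * ‖Ψ‖))
    rw [Real.sq_sqrt (by positivity)] at this
    nlinarith [div_mul_cancel₀ (-(‖Ψ‖ ^ 2 * ‖b‖ ^ 2 + 1)) h2, sq_nonneg (Ψ b).re, sq_nonneg (Ψ b).im,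
      sq_nonneg (‖Ψ‖ * ‖b‖)]

lemma key (Φ : (ℝ →ᵇ ℂ) →L[ℂ] ℂ) (m d : ℝ →ᵇ ℂ) (t : ℝ) (t0 : 0 < t)
    (h : ∀ x, ‖m x‖ + t * ‖d x‖ ≤ 1 + 2 * t ^ 2) (hm : ‖Φ‖ - t ^ 2 ≤ (Φ m).re) :
    ‖Φ ∘L ContinuousLinearMap.mul ℂ _ d‖ ≤ (2 * ‖Φ‖ + 2) * t := by
  obtain ⟨v, v1, v2⟩ := near (Φ ∘L ContinuousLinearMap.mul ℂ _ d) t0
  have := (Complex.re_le_norm _).trans (Φ.le_opNorm_of_le (x := m + (t : ℂ) • (d * v))
    ((norm_le (by positivity)).2 fun x => le_trans ((norm_add_le _ _).trans (add_le_add_right ?_ _)) (h x)))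
  · rw [map_add, map_smul, Complex.add_re, smul_eq_mul, Complex.re_ofReal_mul] at this
    rw [show (Φ ∘L ContinuousLinearMap.mul ℂ _ d) v = Φ (d * v) from rfl] at v2
    exact le_of_mul_le_mul_left (by nlinarith [mul_lt_mul_of_pos_left v2 t0]) t0
  · simp only [coe_smul, coe_mul, Pi.mul_apply, norm_smul, norm_mul, Complex.norm_real,
      Real.norm_of_nonneg t0.le]
    exact mul_le_mul_of_nonneg_left (mul_le_of_le_one_right (norm_nonneg _)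
      ((v.norm_coe_le_norm x).trans v1)) t0.le

lemma two (Φ : (ℝ →ᵇ ℂ) →L[ℂ] ℂ) {p q : ℝ →ᵇ ℂ} {t : ℝ} (t0 : 0 < t) (p1 : ‖p‖ ≤ 1) (q1 : ‖q‖ ≤ 1)
    (p2 : ‖Φ‖ - t ^ 2 ≤ (Φ p).re) (q2 : ‖Φ‖ - t ^ 2 ≤ (Φ q).re) :
    ‖Φ ∘L ContinuousLinearMap.mul ℂ _ (p - q)‖ ≤ (2 * ‖Φ‖ + 2) * t := by
  refine key Φ ((1 / 2 : ℂ) • (p + q)) _ _ t0 (fun x => ?_) ?_
  · have := parallelogram_law_with_norm ℂ (p x) (q x)
    have p3 := (norm_coe_le_norm _ x).trans p1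
    have q3 := (norm_coe_le_norm _ x).trans q1
    simp only [coe_smul, coe_add, coe_sub, Pi.add_apply, Pi.sub_apply, norm_smul]
    norm_num
    nlinarith [sq_nonneg (‖p x + q x‖ - 2), sq_nonneg (‖p x - q x‖ - 4 * t),
      mul_le_one₀ p3 (norm_nonneg _) p3, mul_le_one₀ q3 (norm_nonneg _) q3]
  · rw [map_smul, map_add, show (1 / 2 : ℂ) = (1 / 2 : ℝ) by simp, smul_eq_mul, Complex.re_ofReal_mul,
      Complex.add_re]
    linarith

theorem rep (Φ : (ℝ →ᵇ ℂ) →L[ℂ] ℂ) : ∃ (H : Type) (_ : NormedAddCommGroup H) (_ : InnerProductSpace ℂ H)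
    (_ : CompleteSpace H) (π : (ℝ →ᵇ ℂ) →⋆ₐ[ℂ] (H →L[ℂ] H)) (ξ η : H), (∀ u, Φ u = ⟪η, π u ξ⟫_ℂ) ∧
      (∀ s, ‖π s η‖ ≤ ‖π s ξ‖) ∧ ‖ξ‖ ^ 2 = ‖Φ‖ := by
  set L : (ℝ →ᵇ ℂ) → (ℝ →ᵇ ℂ) →L[ℂ] ℂ := fun p => Φ ∘L ContinuousLinearMap.mul ℂ _ p
  choose p p1 p2 using fun n : ℕ => near Φ (ε := ((1 / 2) ^ n) ^ 2) (by positivity)
  have p3 := fun n x => (norm_coe_le_norm _ x).trans (p1 n)
  have p4 : ∀ {n k}, n ≤ k → ‖Φ‖ - ((1 / 2) ^ n) ^ 2 ≤ (Φ (p k)).re := fun h => le_trans (sub_le_sub_left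
    (pow_le_pow_left₀ (by positivity) (pow_le_pow_of_le_one (by norm_num) (by norm_num) h) 2) _) (p2 _).le
  have t0 := tendsto_pow_atTop_nhds_zero_of_lt_one (r := (1 / 2 : ℝ)) (by norm_num) (by norm_num)
  obtain ⟨Ψ, hΨ⟩ := cauchySeq_tendsto_of_complete (cauchySeq_of_le_geometric (1 / 2) (2 * ‖Φ‖ + 2)
    (by norm_num) (f := fun n => L (p n)) fun n => by
      rw [dist_eq_norm, show L (p n) - L (p (n + 1)) = L (p n - p (n + 1)) by ext; simp [L]]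
      exact two Φ (by positivity) (p1 _) (p1 _) (p4 le_rfl) (p4 n.le_succ))
  have b1 : ‖Ψ‖ ≤ ‖Φ‖ := le_of_tendsto' hΨ.norm fun n => ContinuousLinearMap.opNorm_le_bound _ (norm_nonneg _)
    fun v => Φ.le_opNorm_of_le ((norm_mul_le _ _).trans (mul_le_of_le_one_left (norm_nonneg _) (p1 n)))
  have b2 : ‖Φ‖ ≤ (Ψ 1).re := by
    refine le_of_tendsto_of_tendsto' (by simpa using (t0.pow 2).const_sub ‖Φ‖) ((Complex.continuous_re.tendsto _).comp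
      (((ContinuousLinearMap.apply ℂ ℂ 1).continuous.tendsto _).comp hΨ)) fun n => ?_
    simpa [L] using (p2 n).le
  set e : ℕ → ℝ := fun n => (2 * ‖Φ‖ + 2) * (1 / 2) ^ n + ‖L (p n) - Ψ‖
  have e0 : Tendsto e atTop (𝓝 0) := by
    simpa [e] using (t0.const_mul (2 * ‖Φ‖ + 2)).add (tendsto_iff_norm_sub_tendsto_zero.1 hΨ)
  have e1 : ∀ n u, ‖Φ u - Ψ (star (p n) * u)‖ ≤ e n * ‖u‖ := fun n u => by
    have a1 := (L (1 - p n * star (p n))).le_of_opNorm_le (key Φ (p n) _ ((1 / 2) ^ n) (by positivity)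
      (fun x => by
        have : ‖(1 - p n * star (p n)) x‖ = 1 - ‖p n x‖ ^ 2 := by
          simp only [coe_sub, coe_mul, Pi.sub_apply, Pi.mul_apply, coe_one, Pi.one_apply, star_apply,
            Complex.star_def, Complex.mul_conj']
          norm_cast
          exact Real.norm_of_nonneg (by nlinarith [p3 n x, norm_nonneg (p n x)])
        rw [this]
        have := mul_nonneg (show (0 : ℝ) ≤ (1 / 2) ^ n by positivity) (sq_nonneg (1 - ‖p n x‖))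
        nlinarith [p3 n x, norm_nonneg (p n x), sq_nonneg (2 * (1 / 2 : ℝ) ^ n - (1 - ‖p n x‖))])
      (p2 n).le) u
    have a2 := (L (p n) - Ψ).le_opNorm_of_le (x := star (p n) * u) ((norm_mul_le _ _).trans
      (mul_le_of_le_one_left (norm_nonneg _) ((norm_star _).trans_le (p1 n))))
    rw [show Φ u - Ψ (star (p n) * u) = L (1 - p n * star (p n)) u + (L (p n) - Ψ) (star (p n) * u) by
      simp [L, mul_assoc], add_mul]
    exact (norm_add_le _ _).trans (add_le_add a1 a2)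
  let := CStarAlgebra.spectralOrder (ℝ →ᵇ ℂ)
  have := CStarAlgebra.spectralOrderedRing (ℝ →ᵇ ℂ)
  set f := PositiveLinearMap.mk₀ Ψ.toLinearMap fun x hx => by
    obtain ⟨s, rfl⟩ := CStarAlgebra.nonneg_iff_eq_star_mul_self.1 hx
    exact pos (b1.trans b2) fun x => star_mul_self_nonneg (s x)
  set j : (ℝ →ᵇ ℂ) → f.GNS := fun a => (f.toPreGNS a : f.PreGNS)
  have j1 : ∀ a b, ⟪j a, j b⟫_ℂ = Ψ (star a * b) := fun a b => UniformSpace.Completion.inner_coe _ _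
  have j2 : ∀ a b, f.gnsStarAlgHom a (j b) = j (a * b) := fun a b => f.gnsNonUnitalStarAlgHom_apply_coe
  have j3 : ‖j 1‖ ^ 2 = ‖Φ‖ := by
    rw [← inner_self_eq_norm_sq (𝕜 := ℂ), j1, star_one, mul_one]
    exact le_antisymm ((Complex.re_le_norm _).trans ((by simpa using Ψ.le_opNorm 1 : _ ≤ _).trans b1)) b2
  have j4 : ∀ s n, ‖f.gnsStarAlgHom s (j (p n))‖ ≤ ‖f.gnsStarAlgHom s (j 1)‖ := fun s n => by
    rw [j2, j2, mul_one, mul_comm, ← j2]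
    exact (ContinuousLinearMap.le_of_opNorm_le _ ((NonUnitalStarAlgHom.norm_apply_le _ _).trans (p1 n)) _).trans_eq
      (one_mul _)
  obtain ⟨η, hη⟩ := cauchySeq_tendsto_of_complete (cauchySeq_of_le_tendsto_0' (s := fun n => j (p n))
    (fun n => √(2 * (((1 / 2) ^ n) ^ 2 + e n))) (fun n k h => Real.le_sqrt_of_sq_le (by
      have a1 := fun n => pow_le_pow_left₀ (norm_nonneg _) (j4 1 n) 2
      simp only [map_one, one_apply_eq_self, j3] at a1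
      have a2 := (Complex.re_le_norm _).trans ((e1 n (p k)).trans (mul_le_of_le_one_right
        (by positivity) (p1 k)))
      rw [dist_eq_norm, norm_sub_sq (𝕜 := ℂ), j1, RCLike.re_to_complex]
      rw [Complex.sub_re] at a2
      linarith [a1 n, a1 k, p4 h])) (by simpa using (((t0.pow 2).add e0).const_mul 2).sqrt))
  refine ⟨f.GNS, _, _, inferInstance, f.gnsStarAlgHom, j 1, η, fun u => ?_, fun s => le_of_tendsto'
    (((f.gnsStarAlgHom s).continuous.tendsto _).comp hη).norm (j4 s), j3⟩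
  refine tendsto_nhds_unique (tendsto_iff_norm_sub_tendsto_zero.2 (squeeze_zero (fun _ => norm_nonneg _)
    (fun n => ?_) (by simpa using e0.mul_const ‖u‖))) (hη.inner tendsto_const_nhds)
  rw [j2, j1, mul_one, norm_sub_rev]
  exact e1 n u

end Pool.Agent.H1.Kr
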