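import Mathlib

namespace Pool.Agent.H1.Kr

/-- the interval `(-A, A)` for `0 < A ≤ ∞` -/
def I (A : ENNReal) : Set ℝ := {x | ENNReal.ofReal |x| < A}

/-- the exponential sum `∑ c_x e^{i x t}` -/
noncomputable def es (s : Finset ℝ) (c : ℝ → ℂ) (t : ℝ) : ℂ :=
  ∑ x ∈ s, c x * Complex.exp (Complex.I * (x : ℂ) * (t : ℂ))

/-- the functional `Φ_f` on sums with frequencies in `S` is bounded by `C` for the sup norm -/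
def Bd (S : Set ℝ) (f : ℝ → ℂ) (C : ℝ) : Prop :=
  ∀ s : Finset ℝ, (∀ x ∈ s, x ∈ S) → ∀ (c : ℝ → ℂ) (M : ℝ), (∀ t, ‖es s c t‖ ≤ M) →
    ‖∑ x ∈ s, c x * f x‖ ≤ C * M

/-- `f ∈ R` : `Φ_f` is bounded -/
def InR (S : Set ℝ) (f : ℝ → ℂ) : Prop := ∃ C, Bd S f C

/-- the norm of `Φ_f` -/
noncomputable def nrm (S : Set ℝ) (f : ℝ → ℂ) : ℝ := sInf {C | 0 ≤ C ∧ Bd S f C}

/-- `f ∈ P` : `Φ_f` is bounded and non-negative on non-negative sums -/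
def InP (S : Set ℝ) (f : ℝ → ℂ) : Prop :=
  InR S f ∧ ∀ s : Finset ℝ, (∀ x ∈ s, x ∈ S) → ∀ c : ℝ → ℂ,
    (∀ t, 0 ≤ (es s c t).re ∧ (es s c t).im = 0) →
      0 ≤ (∑ x ∈ s, c x * f x).re ∧ (∑ x ∈ s, c x * f x).im = 0

end Pool.Agent.H1.Kr
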