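import Pool.Agent.H1.KrB
import Pool.Agent.H1.KrDefs

namespace Pool.Agent.H1.Kr

open Filter Topology Set MeasureTheory Metric BoundedContinuousFunction
open scoped InnerProductSpace ComplexOrder

/-- characters -/
noncomputable def e (x : ℝ) : ℝ →ᵇ ℂ := ofNormedAddCommGroup
  (fun t : ℝ => Complex.exp (Complex.I * (x : ℂ) * (t : ℂ))) (by fun_prop) 1 fun t => by
    simp [Complex.norm_exp]

lemma e_apply (x t : ℝ) : e x t = Complex.exp (Complex.I * (x : ℂ) * (t : ℂ)) := rfl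

lemma e_add (x y : ℝ) : e (x + y) = e x * e y := by
  ext; simp [e_apply, ← Complex.exp_add, mul_add, add_mul]

lemma e_zero : e 0 = 1 := by ext; simp [e_apply]

lemma e_star (x : ℝ) : star (e x) = e (-x) := by ext; simp [e_apply, ← Complex.exp_conj]

lemma e_norm (x : ℝ) : ‖e x‖ ≤ 1 := norm_ofNormedAddCommGroup_le _ zero_le_one _

lemma es_eq (s : Finset ℝ) (c : ℝ → ℂ) (t : ℝ) : (∑ x ∈ s, c x • e x) t = es s c t := by
  simp [es, e_apply]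

variable {S : Set ℝ} {f : ℝ → ℂ} {Φ : (ℝ →ᵇ ℂ) →L[ℂ] ℂ}

lemma val (h : ∀ x ∈ S, Φ (e x) = f x) {s : Finset ℝ} (hs : ∀ x ∈ s, x ∈ S) (c : ℝ → ℂ) :
    Φ (∑ x ∈ s, c x • e x) = ∑ x ∈ s, c x * f x := by
  rw [map_sum]; exact Finset.sum_congr rfl fun x hx => by rw [map_smul, h x (hs x hx), smul_eq_mul]

lemma bd (h : ∀ x ∈ S, Φ (e x) = f x) : Bd S f ‖Φ‖ := fun s hs c _ hM =>
  val h hs c ▸ Φ.le_opNorm_of_le ((norm_le ((norm_nonneg _).trans (hM 0))).2 fun t => es_eq s c t ▸ hM t)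

lemma sp {q : ℝ →ᵇ ℂ} (h : q ∈ Submodule.span ℂ (e '' S)) :
    ∃ (s : Finset ℝ) (c : ℝ → ℂ), (∀ x ∈ s, x ∈ S) ∧ ∑ x ∈ s, c x • e x = q := by
  obtain ⟨l, h1, h2⟩ := (Finsupp.mem_span_image_iff_linearCombination ℂ).1 h
  exact ⟨l.support, l, h1, h2⟩

lemma nrm_eq {C : ℝ} (h0 : 0 ≤ C) (h1 : Bd S f C) (h2 : ∀ D, 0 ≤ D → Bd S f D → C ≤ D) : nrm S f = C :=
  IsLeast.csInf_eq ⟨⟨h0, h1⟩, fun D hD => h2 D hD.1 hD.2⟩

theorem ext (h : InR S f) : ∃ Φ : (ℝ →ᵇ ℂ) →L[ℂ] ℂ, (∀ x ∈ S, Φ (e x) = f x) ∧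
    (∀ D, 0 ≤ D → Bd S f D → ‖Φ‖ ≤ D) ∧
    ∀ ε > 0, ∃ p ∈ Submodule.span ℂ (e '' S), ‖p‖ ≤ 1 ∧ ‖Φ‖ - ε < (Φ p).re := by
  set T := (Finsupp.linearCombination ℂ e).domRestrict (Finsupp.supported ℂ ℂ S)
  set g := (Finsupp.linearCombination ℂ f).domRestrict (Finsupp.supported ℂ ℂ S)
  have b : ∀ C, Bd S f C → ∀ l, ‖g l‖ ≤ C * ‖T l‖ := fun C hC l =>
    hC l.1.support l.2 l.1 _ fun t => es_eq _ _ t ▸ norm_coe_le_norm (T l) t
  obtain ⟨C, hC⟩ := h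
  set φ := (LinearMap.ker T).liftQ g (fun l hl => by simpa [LinearMap.mem_ker.1 hl] using b C hC l) ∘ₗ
    T.quotKerEquivRange.symm.toLinearMap
  have e1 : ∀ l, φ ⟨T l, l, rfl⟩ = g l := fun l => by
    simp [φ, LinearMap.quotKerEquivRange_symm_apply_image]
  have b2 : ∀ C, Bd S f C → ∀ p, ‖φ p‖ ≤ C * ‖p‖ := by
    rintro C hC ⟨_, l, rfl⟩; rw [e1]; exact b C hC l
  obtain ⟨Φ, h1, h2⟩ := exists_extension_norm_eq _ (φ.mkContinuous C (b2 C hC))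
  refine ⟨Φ, fun x hx => ?_, fun D D0 hD => h2.trans_le
    (ContinuousLinearMap.opNorm_le_bound _ D0 (b2 D hD)), fun ε e0 => ?_⟩
  · simpa [T, g] using (h1 _).trans (e1 ⟨_, Finsupp.single_mem_supported ℂ 1 hx⟩)
  · obtain ⟨⟨_, l, rfl⟩, p1, p2⟩ := near (φ.mkContinuous C (b2 C hC)) e0
    exact ⟨_, (Finsupp.mem_span_image_iff_linearCombination ℂ).2 ⟨l, l.2, rfl⟩, p1, by
      rwa [← h1, ← h2] at p2⟩

lemma lmS (hS : IsOpen S) (hf : AEMeasurable f (volume.restrict S)) (h : ∀ x ∈ S, Φ (e x) = f x)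
    {q : ℝ →ᵇ ℂ} (hq : q ∈ Submodule.span ℂ (e '' S)) : ∃ δ > 0, ∃ g : ℝ → ℂ, AEMeasurable g volume ∧
      ∀ t, |t| < δ → Φ (q * e t) = g t := by
  obtain ⟨s, c, hs, rfl⟩ := sp hq
  obtain ⟨δ, d0, hd⟩ := Metric.eventually_nhds_iff.1 ((eventually_all_finset s (l := 𝓝 (0 : ℝ))
    (p := fun x t => x + t ∈ S)).2 fun x hx => (continuous_const_add x).continuousAt.eventually
      (hS.mem_nhds (by simpa using hs x hx)))
  refine ⟨δ, d0, fun t => ∑ x ∈ s, c x * S.indicator f (x + t), Finset.aemeasurable_fun_sum _ fun x _ =>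
    (((aemeasurable_indicator_iff hS.measurableSet).2 hf).comp_quasiMeasurePreserving
      (measurePreserving_add_left volume x).quasiMeasurePreserving).const_mul _, fun t ht => ?_⟩
  rw [Finset.sum_mul, map_sum]
  refine Finset.sum_congr rfl fun x hx => ?_
  have := hd (y := t) (by simpa using ht) x hx
  rw [smul_mul_assoc, ← e_add, map_smul, h _ this, indicator_of_mem this, smul_eq_mul]

theorem main (lm : ∀ ε > 0, ∃ δ > 0, ∃ g : ℝ → ℂ, AEMeasurable g volume ∧ ∃ p, ‖p‖ ≤ 1 ∧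
    ‖Φ‖ - ε ≤ (Φ p).re ∧ ∀ t, |t| < δ → ‖Φ (p * e t) - g t‖ ≤ ε) : ∃ Ψ Θ : (ℝ →ᵇ ℂ) →L[ℂ] ℂ,
    (∀ b : ℝ →ᵇ ℂ, (∀ x, 0 ≤ b x) → 0 ≤ Ψ b ∧ ‖Φ b‖ ≤ (Ψ b).re) ∧ AEMeasurable (fun t => Ψ (e t)) volume ∧
      (Continuous fun t => Θ (e t)) ∧ ∀ᵐ t, Φ (e t) = Θ (e t) := by
  obtain ⟨H, _, _, _, π, ξ, η, h1, h2, h3⟩ := rep Φ
  have ad : ∀ a b u v, ⟪u, π (star a * b) v⟫_ℂ = ⟪π a u, π b v⟫_ℂ := fun a b u v => by
    rw [map_mul, map_star, mul_apply_eq_comp, ContinuousLinearMap.star_eq_adjoint,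
      ContinuousLinearMap.adjoint_inner_right]
  have nb : ∀ a v, ‖π a v‖ ≤ ‖a‖ * ‖v‖ := fun a v =>
    (π a).le_of_opNorm_le (NonUnitalStarAlgHom.norm_apply_le _ _) v
  set U : ℝ → H →ₗᵢ[ℂ] H := fun t => LinearMap.isometryOfInner (π (e t)).toLinearMap fun u v =>
    (ad _ _ _ _).symm.trans (by rw [e_star, ← e_add, neg_add_cancel, e_zero, map_one]; rfl)
  obtain ⟨u, u1, u2⟩ := dec (U := U) (ξ := ξ) (fun s t v => show π _ v = π _ (π _ v) by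
      rw [e_add, map_mul]; rfl) (fun v => show π _ v = v by rw [e_zero, map_one]; rfl) fun ε e0 => by
    set κ := min (ε / 2) ((ε / (2 * (‖ξ‖ + 1))) ^ 2 / 2)
    obtain ⟨δ, d0, g, hg, p, p1, p2, p3⟩ := lm κ (by positivity)
    refine ⟨δ, d0, g, hg, fun t ht => ?_⟩
    have a1 : ‖ξ - π (star p) η‖ ≤ ε / (2 * (‖ξ‖ + 1)) := (abs_le_of_sq_le_sq' (by
      have b1 := pow_le_pow_left₀ (norm_nonneg _) ((h2 _).trans ((nb (star p) ξ).trans
        (mul_le_of_le_one_left (norm_nonneg _) ((norm_star _).trans_le p1)))) 2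
      have b2 := ad (star p) 1 η ξ
      rw [star_star, mul_one, ← h1, map_one, one_apply_eq_self] at b2
      rw [norm_sub_rev, norm_sub_sq (𝕜 := ℂ), ← b2, RCLike.re_to_complex]
      linarith [min_le_right (ε / 2) ((ε / (2 * (‖ξ‖ + 1))) ^ 2 / 2)]) (by positivity)).2
    have a2 := (norm_inner_le_norm (𝕜 := ℂ) _ (U t ξ)).trans (mul_le_mul_of_nonneg_right a1 (norm_nonneg _))
    have a3 := p3 t ht
    rw [h1, ← star_star p, ad] at a3
    rw [inner_sub_left, (U t).norm_map] at a2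
    have a4 : ε / (2 * (‖ξ‖ + 1)) * ‖ξ‖ ≤ ε / 2 := by
      rw [div_mul_eq_mul_div, div_le_div_iff₀ (by positivity) two_pos]; nlinarith
    exact (norm_sub_le_norm_sub_add_norm_sub _ _ _).trans ((add_le_add (a2.trans a4)
      (a3.trans (min_le_left _ _))).trans_eq (add_halves ε))
  set vf : H → H → (ℝ →ᵇ ℂ) →L[ℂ] ℂ := fun a v => LinearMap.mkContinuous
    ⟨⟨fun b => ⟪a, π b v⟫_ℂ, fun b c => by simp⟩, fun b c => by simp⟩
    (‖a‖ * ‖v‖) fun b => (norm_inner_le_norm _ _).trans ((mul_le_mul_of_nonneg_left (nb b v)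
      (norm_nonneg _)).trans_eq (by ring))
  have a1 : ∀ a, ∀ᵐ t, vf a ξ (e t) = vf a u (e t) := fun a => (u2 a).mono fun t ht => by
    rwa [map_sub, inner_sub_right, sub_eq_zero] at ht
  have a2 : ∀ a, Continuous fun t => vf a u (e t) := fun a => continuous_const.inner u1
  refine ⟨vf ξ ξ, vf η u, fun b hb => ?_, (a2 ξ).aemeasurable.congr ((a1 ξ).mono fun _ => .symm), a2 η,
    (a1 η).mono fun t ht => (h1 _).trans ht⟩
  obtain ⟨s, rfl⟩ : ∃ s, b = star s * s := ⟨ofNormedAddCommGroup (fun x => (√(b x).re : ℂ)) (by fun_prop)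
    √‖b‖ fun x => by
      rw [Complex.norm_real, Real.norm_of_nonneg (Real.sqrt_nonneg _)]
      exact Real.sqrt_le_sqrt ((Complex.re_le_norm _).trans (b.norm_coe_le_norm x)), by
    ext x
    simp only [coe_mul, Pi.mul_apply, star_apply, coe_ofNormedAddCommGroup, Complex.star_def, Complex.conj_ofReal]
    rw [← Complex.ofReal_mul, Real.mul_self_sqrt (hb x).1]
    exact Complex.ext rfl (hb x).2.symm⟩
  have a3 : vf ξ ξ (star s * s) = (‖π s ξ‖ ^ 2 : ℝ) := (ad _ _ _ _).trans (by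
    rw [inner_self_eq_norm_sq_to_K]; simp)
  rw [a3, h1, ad, Complex.ofReal_re, sq]
  exact ⟨by positivity, (norm_inner_le_norm _ _).trans (mul_le_mul_of_nonneg_right (h2 s) (norm_nonneg _))⟩

end Pool.Agent.H1.Kr
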