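import Pool.Agent.H1.KrC

namespace Pool.Agent.H1.Kr

open Filter Topology Set MeasureTheory Metric BoundedContinuousFunction
open scoped InnerProductSpace ComplexOrder

variable {S : Set ℝ} {f : ℝ → ℂ}

lemma I_open (A : ENNReal) : IsOpen (I A) :=
  isOpen_lt (ENNReal.continuous_ofReal.comp continuous_abs) continuous_const

lemma I_neg {A : ENNReal} (x : ℝ) (h : x ∈ I A) : -x ∈ I A := by simpa [I] using h

lemma I_zero {A : ENNReal} (h : 0 < A) : 0 ∈ I A := by simpa [I] using h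

theorem all (hS : IsOpen S) (hf : AEMeasurable f (volume.restrict S)) (h : InR S f) :
    ∃ Φ Ψ Θ : (ℝ →ᵇ ℂ) →L[ℂ] ℂ, (∀ x ∈ S, Φ (e x) = f x) ∧ (∀ D, 0 ≤ D → Bd S f D → ‖Φ‖ ≤ D) ∧
    (∀ b : ℝ →ᵇ ℂ, (∀ x, 0 ≤ b x) → 0 ≤ Ψ b ∧ ‖Φ b‖ ≤ (Ψ b).re) ∧ AEMeasurable (fun t => Ψ (e t)) volume ∧
      (Continuous fun t => Θ (e t)) ∧ ∀ᵐ t, Φ (e t) = Θ (e t) := by
  obtain ⟨Φ, h1, h2, h3⟩ := ext h
  obtain ⟨Ψ, Θ, h4⟩ := main (Φ := Φ) fun ε e0 => by
    obtain ⟨p, p0, p1, p2⟩ := h3 ε e0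
    obtain ⟨δ, d0, g, hg, h5⟩ := lmS hS hf h1 p0
    exact ⟨δ, d0, g, hg, p, p1, p2.le, fun t ht => by simp [h5 t ht, e0.le]⟩
  exact ⟨Φ, Ψ, Θ, h1, h2, h4⟩

theorem extend (hS : IsOpen S) (hf : AEMeasurable f (volume.restrict S)) (h : InR S f) :
    ∃ g : ℝ → ℂ, (∀ x ∈ S, g x = f x) ∧ AEMeasurable g volume ∧ InR univ g ∧ nrm univ g = nrm S f := by
  obtain ⟨Φ, Ψ, Θ, h1, h2, -, -, h3, h4⟩ := all hS hf h
  have b := bd (S := univ) (Φ := Φ) fun _ _ => rfl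
  refine ⟨fun t => Φ (e t), h1, h3.aemeasurable.congr (h4.mono fun _ => .symm), ⟨_, b⟩,
    (nrm_eq (norm_nonneg _) b fun D D0 hD => h2 D D0 fun s hs c M hM => ?_).trans
      (nrm_eq (norm_nonneg _) (bd h1) h2).symm⟩
  exact (congrArg norm (Finset.sum_congr rfl fun x hx => by rw [← h1 x (hs x hx)])).trans_le
    (hD s (fun _ _ => trivial) c M hM)

theorem split (hS : IsOpen S) (hf : AEMeasurable f (volume.restrict S)) (h : InR S f) :
    ∃ g k : ℝ → ℂ, InR S g ∧ ContinuousOn g S ∧ InR S k ∧ AEMeasurable k (volume.restrict S) ∧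
      (∀ᵐ x ∂volume.restrict S, k x = 0) ∧ ∀ x ∈ S, f x = g x + k x := by
  obtain ⟨Φ, Ψ, Θ, h1, -, -, -, h3, h4⟩ := all hS hf h
  have a : ∀ᵐ x ∂volume.restrict S, (Φ - Θ) (e x) = 0 :=
    ae_restrict_of_ae (h4.mono fun _ h => sub_eq_zero.2 h)
  exact ⟨_, _, ⟨_, bd fun _ _ => rfl⟩, h3.continuousOn, ⟨_, bd (Φ := Φ - Θ) fun _ _ => rfl⟩,
    aemeasurable_const.congr (a.mono fun _ => .symm), a, fun x hx => by simp [h1 x hx]⟩

theorem jordan (hS : IsOpen S) (hn : ∀ x ∈ S, -x ∈ S) (hf : AEMeasurable f (volume.restrict S))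
    (h : InR S f) (hh : ∀ x ∈ S, f (-x) = starRingEnd ℂ (f x)) :
    ∃ g k : ℝ → ℂ, InP S g ∧ AEMeasurable g (volume.restrict S) ∧ InP S k ∧
      AEMeasurable k (volume.restrict S) ∧ ∀ x ∈ S, f x = g x - k x := by
  obtain ⟨Φ, Ψ, Θ, h1, -, h2, h5, h3, h4⟩ := all hS hf h
  have m : AEMeasurable (fun t => Φ (e t)) volume := h3.aemeasurable.congr (h4.mono fun _ => .symm)
  have key : ∀ r : ℝ, |r| ≤ 1 → InP S fun t => (((1 / 2 : ℝ) : ℂ) • (Ψ + (r : ℂ) • Φ)) (e t) := fun r hr => by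
    refine ⟨⟨_, bd fun _ _ => rfl⟩, fun s hs c hc => ?_⟩
    rw [← val (fun _ _ => rfl) hs]
    have a1 : ∀ t, 0 ≤ (∑ x ∈ s, c x • e x) t := fun t => es_eq s c t ▸ ⟨(hc t).1, (hc t).2.symm⟩
    have a2 : star (∑ x ∈ s, c x • e x) = ∑ x ∈ s, c x • e x := by ext t; exact (a1 t).star_eq
    have a3 : Φ (star (∑ x ∈ s, c x • e x)) = starRingEnd ℂ (Φ (∑ x ∈ s, c x • e x)) := by
      rw [val h1 hs, star_sum, map_sum, map_sum]
      exact Finset.sum_congr rfl fun x hx => by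
        rw [star_smul, e_star, map_smul, h1 _ (hn x (hs x hx)), hh x (hs x hx), map_mul]; rfl
    rw [a2] at a3
    obtain ⟨a4, a5⟩ := h2 _ a1
    have a6 := Complex.conj_eq_iff_im.1 a3.symm
    have a7 := Complex.abs_re_le_norm (Φ (∑ x ∈ s, c x • e x))
    simp only [_root_.smul_apply, _root_.add_apply, smul_eq_mul, Complex.re_ofReal_mul, Complex.im_ofReal_mul,
      Complex.add_re, Complex.add_im, a6, ← a4.2]
    exact ⟨by nlinarith [neg_abs_le (r * (Φ (∑ x ∈ s, c x • e x)).re), abs_mul r (Φ (∑ x ∈ s, c x • e x)).re,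
      mul_le_of_le_one_left (abs_nonneg (Φ (∑ x ∈ s, c x • e x)).re) hr], by simp⟩
  refine ⟨_, _, key 1 (by simp), ((h5.add (m.const_mul _)).const_mul _).restrict, key (-1) (by simp),
    ((h5.add (m.const_mul _)).const_mul _).restrict, fun x hx => ?_⟩
  simp [h1 x hx]; ring

lemma pn (h0 : 0 ∈ S) (hn : ∀ x ∈ S, -x ∈ S) (h : InP S f) :
    ∃ Φ : (ℝ →ᵇ ℂ) →L[ℂ] ℂ, (∀ x ∈ S, Φ (e x) = f x) ∧ ‖Φ‖ ≤ (f 0).re := by
  obtain ⟨Φ, h1, -, h3⟩ := ext h.1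
  refine ⟨Φ, h1, le_of_forall_pos_le_add fun ε e0 => ?_⟩
  obtain ⟨p, p0, p1, p2⟩ := h3 ε e0
  have a1 : ∀ q ∈ Submodule.span ℂ (e '' S), (∀ t, 0 ≤ q t) → 0 ≤ Φ q := fun q hq h4 => by
    obtain ⟨s, c, hs, rfl⟩ := sp hq
    have := h.2 s hs c fun t => es_eq s c t ▸ ⟨(h4 t).1, (h4 t).2.symm⟩
    exact val h1 hs c ▸ ⟨this.1, this.2.symm⟩
  have a2 : 1 ∈ Submodule.span ℂ (e '' S) := Submodule.subset_span ⟨0, h0, e_zero⟩
  have a3 : star p ∈ Submodule.span ℂ (e '' S) := by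
    obtain ⟨s, c, hs, rfl⟩ := sp p0
    rw [star_sum]
    exact sum_mem fun x hx => star_smul (c x) (e x) ▸ Submodule.smul_mem _ _
      (Submodule.subset_span ⟨_, hn x (hs x hx), (e_star x).symm⟩)
  have a4 : ∀ w : ℂ, ‖w‖ ≤ 1 → 0 ≤ Φ ((2 : ℂ) • 1 - (w • p + star w • star p)) := fun w hw =>
    a1 _ (sub_mem (Submodule.smul_mem _ _ a2) (add_mem (Submodule.smul_mem _ _ p0)
      (Submodule.smul_mem _ _ a3))) fun t => by
        have := (Complex.re_le_norm (w * p t)).trans ((norm_mul_le _ _).trans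
          (mul_le_one₀ hw (norm_nonneg _) ((p.norm_coe_le_norm t).trans p1)))
        exact ⟨by simp at this ⊢; linarith, by simp; ring⟩
  have b1 := (a4 1 (by simp)).1
  have b2 := (a4 Complex.I (by simp)).2
  have b3 := (a1 1 a2 fun _ => zero_le_one).2
  rw [← h1 0 h0, e_zero]
  simp at b1 b2 b3
  linarith

theorem minimal (hS : IsOpen S) (h0 : 0 ∈ S) (hn : ∀ x ∈ S, -x ∈ S) (hf : AEMeasurable f (volume.restrict S))
    (h : InR S f) {g k : ℝ → ℂ} (hg : InP S g) (hk : InP S k) (e1 : ∀ x ∈ S, f x = g x - k x)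
    (e2 : (nrm S f : ℂ) = g 0 + k 0) :
    AEMeasurable g (volume.restrict S) ∧ AEMeasurable k (volume.restrict S) := by
  obtain ⟨Φ, h1, h2, h3⟩ := ext h
  obtain ⟨G, g1, g2⟩ := pn h0 hn hg
  obtain ⟨K, k1, k2⟩ := pn h0 hn hk
  have e3 := congrArg Complex.re e2
  rw [nrm_eq (norm_nonneg _) (bd h1) h2, Complex.ofReal_re, Complex.add_re] at e3
  have e4 : ∀ x ∈ S, (G - K) (e x) = f x := fun x hx => by rw [_root_.sub_apply, g1 x hx, k1 x hx, e1 x hx]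
  have n : ∀ (L : (ℝ →ᵇ ℂ) →L[ℂ] ℂ) q, ‖q‖ ≤ 1 → (L q).re ≤ ‖L‖ := fun L q hq =>
    (Complex.re_le_norm _).trans ((L.le_opNorm_of_le hq).trans_eq (mul_one _))
  rw [← g1 0 h0, e_zero] at g2 e3
  rw [← k1 0 h0, e_zero] at k2 e3
  obtain ⟨-, Θ, -, -, h4, h5⟩ := main (Φ := G) fun ε e0 => by
    set t := min 1 (ε / (‖K‖ + 1))
    have t0 : 0 < t := by positivity
    have t1 : t * (‖K‖ + 1) ≤ ε := (le_div_iff₀ (by positivity)).1 (min_le_right _ _)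
    have t2 : t ^ 2 ≤ ε := by nlinarith [min_le_left 1 (ε / (‖K‖ + 1)), norm_nonneg K]
    obtain ⟨p, p0, p1, p2⟩ := h3 (t ^ 2) (by positivity)
    have p3 : Φ p = (G - K) p := by
      obtain ⟨s, c, hs, rfl⟩ := sp p0
      rw [val h1 hs, val e4 hs]
    rw [p3, _root_.sub_apply, Complex.sub_re] at p2
    have p4 := n K (-p) (by simpa)
    have p5 := n K 1 (by simp)
    have p6 := n G 1 (by simp)
    rw [map_neg, Complex.neg_re] at p4
    obtain ⟨δ, d0, u, hu, h5⟩ := lmS hS hf e4 (q := ((1 / 2 : ℝ) : ℂ) • (1 - -p)) (Submodule.smul_mem _ _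
      (sub_mem (Submodule.subset_span ⟨0, h0, e_zero⟩) (neg_mem p0)))
    refine ⟨δ, d0, u, hu, ((1 / 2 : ℝ) : ℂ) • (1 - -p), ?_, ?_, fun x hx => ?_⟩
    · rw [norm_smul, Complex.norm_real, Real.norm_of_nonneg one_half_pos.le]
      linarith [norm_sub_le 1 (-p), norm_neg p, norm_one (α := ℝ →ᵇ ℂ)]
    · rw [map_smul, map_sub, map_neg, smul_eq_mul, Complex.re_ofReal_mul, Complex.sub_re, Complex.neg_re]
      linarith
    · have := (ContinuousLinearMap.le_of_opNorm_le _ (two K (p := 1) (q := -p) t0 (by simp) (by simpa)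
        (by nlinarith) (by rw [map_neg, Complex.neg_re]; linarith [n G p p1])) (e x)).trans
        (mul_le_of_le_one_right (by positivity) (e_norm x))
      rw [← h5 x hx, _root_.sub_apply, sub_sub_cancel, smul_mul_assoc, map_smul, norm_smul, Complex.norm_real,
        Real.norm_of_nonneg one_half_pos.le]
      change ‖K ((1 - -p) * e x)‖ ≤ _ at this
      linarith
  have a1 : AEMeasurable g (volume.restrict S) :=
    (h4.aemeasurable.congr (h5.mono fun _ => .symm)).restrict.congr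
      ((ae_restrict_mem hS.measurableSet).mono g1)
  exact ⟨a1, (a1.sub hf).congr ((ae_restrict_mem hS.measurableSet).mono fun x hx => by simp [e1 x hx])⟩

end Pool.Agent.H1.Kr
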