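import Mathlib

namespace Pool.Agent.H1.Kre

open Finset Matrix

lemma schur {N : ℕ} (B : Matrix (Fin N) (Fin N) ℂ) (F G : ℕ → ℕ → ℝ) {C : ℝ} (hC : 0 ≤ C)
    (h : ∀ (i j : Fin N) (u v : ℝ), 0 ≤ u → 0 ≤ v → 2 * ‖B i j‖ * (u * v) ≤ F i j * u ^ 2 + G i j * v ^ 2)
    (hF : ∀ i < N, ∑ j ∈ range N, F i j ≤ C) (hG : ∀ j < N, ∑ i ∈ range N, G i j ≤ C) :
    ‖toEuclideanCLM (n := Fin N) (𝕜 := ℂ) B‖ ≤ C := by
  refine ContinuousLinearMap.opNorm_le_of_re_inner_le hC fun x y hx hy => (RCLike.re_le_norm _).trans ?_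
  have e1 := x.norm_sq_eq
  have e2 := y.norm_sq_eq
  rw [hx, one_pow] at e1
  rw [hy, one_pow] at e2
  have a1 : ‖inner ℂ (toEuclideanCLM (n := Fin N) (𝕜 := ℂ) B x) y‖ ≤
      ∑ i, ∑ j, ‖B i j‖ * (‖y i‖ * ‖x j‖) := by
    rw [PiLp.inner_apply]
    refine (norm_sum_le _ _).trans (sum_le_sum fun i _ => (norm_inner_le_norm _ _).trans ?_)
    simp only [ofLp_toEuclideanCLM, mulVec, dotProduct, mul_comm ‖y i‖, ← mul_assoc, ← sum_mul]
    exact mul_le_mul_of_nonneg_right ((norm_sum_le _ _).trans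
      (sum_le_sum fun j _ => norm_mul_le _ _)) (norm_nonneg _)
  have a2 : ∑ i : Fin N, ∑ j : Fin N, F i j * ‖y i‖ ^ 2 ≤ C := by
    rw [← mul_one C, e2, mul_sum]
    refine sum_le_sum fun i _ => ?_
    rw [← sum_mul, Fin.sum_univ_eq_sum_range (F i)]
    exact mul_le_mul_of_nonneg_right (hF i i.2) (sq_nonneg _)
  have a3 : ∑ i : Fin N, ∑ j : Fin N, G i j * ‖x j‖ ^ 2 ≤ C := by
    rw [sum_comm, ← mul_one C, e1, mul_sum]
    refine sum_le_sum fun j _ => ?_
    rw [← sum_mul, Fin.sum_univ_eq_sum_range (G · j)]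
    exact mul_le_mul_of_nonneg_right (hG j j.2) (sq_nonneg _)
  have a4 : 2 * ∑ i, ∑ j, ‖B i j‖ * (‖y i‖ * ‖x j‖) ≤ ∑ i : Fin N, ∑ j : Fin N, F i j * ‖y i‖ ^ 2 +
      ∑ i : Fin N, ∑ j : Fin N, G i j * ‖x j‖ ^ 2 := by
    simp only [mul_sum, ← sum_add_distrib]
    exact sum_le_sum fun i _ => sum_le_sum fun j _ =>
      (mul_assoc _ _ _).ge.trans (h i j _ _ (norm_nonneg _) (norm_nonneg _))
  linarith

lemma tel {f : ℕ → ℝ} (g : ℕ → ℝ) (N : ℕ) (h : ∀ j < N, f j ≤ g j - g (j + 1)) :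
    ∑ j ∈ range N, f j ≤ g 0 - g N :=
  (sum_le_sum fun j hj => h j (mem_range.1 hj)).trans (sum_range_sub' g N).le

lemma step {u v δ : ℝ} (hu : 0 < u) (hv : 0 < v) (hδ : 0 ≤ δ) : δ * u ^ δ * (1 - u / v) ≤ v ^ δ - u ^ δ := by
  have h1 := Real.one_sub_inv_le_log_of_pos (div_pos hv hu)
  have h2 := Real.add_one_le_exp (Real.log (v / u) * δ)
  rw [← Real.rpow_def_of_pos (div_pos hv hu), Real.div_rpow hv.le hu.le,
    le_div_iff₀ (Real.rpow_pos_of_pos hu δ)] at h2
  rw [inv_div] at h1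
  nlinarith [mul_le_mul_of_nonneg_left h1 (mul_nonneg hδ (Real.rpow_pos_of_pos hu δ).le)]

lemma key {s a : ℝ} (hs : 1 ≤ s) (h0 : 0 < a) (h1 : a < 1 / 2) :
    s ^ a - 1 ≤ 4 * a * ((s - 1) * s ^ (1 / 4 + a / 2 - 1)) := by
  set b := 1 / 4 + a / 2 with hb
  have b0 : 0 < b := by positivity
  have s0 : 0 < s := by linarith
  have a1 := rpow_one_add_le_one_add_mul_self (s := s ^ b - 1)
    (by linarith [Real.rpow_pos_of_pos s0 b]) (div_pos h0 b0).le ((div_le_one b0).2 (by linarith))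
  rw [add_sub_cancel, ← Real.rpow_mul s0.le, mul_div_cancel₀ _ b0.ne'] at a1
  have a2 : s ^ (b - 1) ≤ 1 := Real.rpow_le_one_of_one_le_of_nonpos hs (by linarith)
  have a3 : s * s ^ (b - 1) = s ^ b := by rw [Real.rpow_sub_one s0.ne', mul_div_cancel₀ _ s0.ne']
  have a4 : a / b ≤ 4 * a := by rw [div_le_iff₀ b0]; nlinarith
  have a5 := Real.one_le_rpow hs b0.le
  nlinarith [mul_le_mul a4 (show s ^ b - 1 ≤ (s - 1) * s ^ (b - 1) by linarith) (by linarith)
    (by positivity)]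

noncomputable def tt (N i : ℕ) : ℝ := (i + 1) / (N - i)

lemma sub0 {N i : ℕ} (h : i < N) : (1 : ℝ) ≤ N - i := by
  have : ((i + 1 : ℕ) : ℝ) ≤ N := by exact_mod_cast h
  push_cast at this; linarith

lemma tt0 {N i : ℕ} (h : i < N) : 0 < tt N i := div_pos (by positivity) (by linarith [sub0 h])

lemma tt_step {N i : ℕ} (h : i + 1 < N) : 1 - tt N i / tt N (i + 1) = (N + 1) / ((i + 2) * (N - i)) := by
  have h1 := sub0 h
  have h2 := sub0 (Nat.lt_of_succ_lt h)
  unfold tt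
  push_cast at h1 ⊢
  have : (N : ℝ) - i ≠ 0 := by linarith
  have : (N : ℝ) - (i + 1) ≠ 0 := by linarith
  field_simp; ring

noncomputable def PP (r : ℝ) (i j : ℕ) : ℝ := if i ≤ j then (r - 1) * r⁻¹ ^ (j - i + 1) else 0

noncomputable def HH (N : ℕ) (a : ℝ) (i j k : ℕ) : ℝ :=
  if i < j then 4 * a * (tt N i / tt N j) ^ (1 / 4 - a / 2) * ((N + 1) / ((k + 1) * (N - k))) else 0

lemma PP_eq {r : ℝ} (hr : 1 < r) (m : ℕ) : (r - 1) * r⁻¹ ^ (m + 1) = r⁻¹ ^ m - r⁻¹ ^ (m + 1) := by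
  have : r ≠ 0 := by linarith
  rw [pow_succ]; field_simp

lemma PP_row {r : ℝ} (hr : 1 < r) (N i : ℕ) : ∑ j ∈ range N, PP r i j ≤ 1 := by
  refine (tel (fun j => r⁻¹ ^ (j - i)) N fun j _ => le_of_eq ?_).trans ?_
  · unfold PP; split_ifs with h
    · rw [PP_eq hr, Nat.sub_add_comm h]
    · rw [show j - i = 0 by omega, show j + 1 - i = 0 by omega, sub_self]
  · rw [Nat.zero_sub, pow_zero]; exact sub_le_self _ (by positivity)

lemma PP_col {r : ℝ} (hr : 1 < r) (N j : ℕ) : ∑ i ∈ range N, PP r i j ≤ 1 := by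
  refine (tel (fun i => -r⁻¹ ^ (j + 1 - i)) N fun i _ => le_of_eq ?_).trans ?_
  · unfold PP; split_ifs with h
    · rw [PP_eq hr, Nat.sub_add_comm h, Nat.add_sub_add_right]; ring
    · rw [show j + 1 - i = 0 by omega, show j + 1 - (i + 1) = 0 by omega, sub_self]
  · have : r⁻¹ ^ (j + 1 - N) ≤ 1 := pow_le_one₀ (by positivity) (inv_le_one_of_one_le₀ hr.le)
    have : 0 ≤ r⁻¹ ^ (j + 1 - 0) := by positivity
    linarith

variable {N : ℕ} {a : ℝ}

lemma HH_row (h0 : 0 < a) (h1 : a < 1 / 2) {i : ℕ} (hi : i < N) :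
    ∑ j ∈ range N, HH N a i j j ≤ 8 * a / (1 / 4 - a / 2) := by
  set δ := 1 / 4 - a / 2 with hδ
  have δ0 : 0 < δ := by linarith
  refine (tel (fun j => 8 * a / δ * (tt N i / tt N (max i (j - 1))) ^ δ) N fun j hj => ?_).trans ?_
  · unfold HH; split_ifs with h
    · obtain ⟨k, rfl⟩ : ∃ k, j = k + 1 := ⟨j - 1, by omega⟩
      have t1 := tt0 hi
      have t2 := tt0 hj
      have t3 := tt0 (Nat.lt_of_succ_lt hj)
      have := step (div_pos t1 t2) (div_pos t1 t3) δ0.le
      rw [div_div_div_cancel_left' _ _ t1.ne', tt_step hj] at this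
      rw [Nat.add_sub_cancel, Nat.add_sub_cancel, max_eq_right (by omega), max_eq_right h.le, ← mul_sub,
        ← hδ]
      refine le_trans ?_ (mul_le_mul_of_nonneg_left this (by positivity))
      have s1 := sub0 hj
      push_cast at s1 ⊢
      rw [show ∀ X Y : ℝ, 8 * a / δ * (δ * X * Y) = 4 * a * X * (2 * Y) from fun X Y => by field_simp; ring]
      refine mul_le_mul_of_nonneg_left ?_ (by positivity)
      rw [← mul_div_assoc, div_le_div_iff₀ (by positivity) (mul_pos (by positivity) (by linarith))]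
      nlinarith [mul_nonneg (show (0 : ℝ) ≤ (N + 1) * (k + 2) by positivity) (sub_nonneg.2 s1)]
    · rw [max_eq_left (by omega), max_eq_left (by omega), sub_self]
  · rw [max_eq_left (by omega), div_self (tt0 hi).ne', Real.one_rpow, mul_one]
    exact sub_le_self _ (mul_nonneg (by positivity)
      (Real.rpow_nonneg (div_pos (tt0 hi) (tt0 (by omega))).le _))

lemma HH_col (h0 : 0 < a) (h1 : a < 1 / 2) {j : ℕ} (hj : j < N) :
    ∑ i ∈ range N, HH N a i j i ≤ 8 * a / (1 / 4 - a / 2) := by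
  set δ := 1 / 4 - a / 2 with hδ
  have δ0 : 0 < δ := by linarith
  have t2 := tt0 hj
  refine (tel (fun i => -(8 * a / δ * (tt N (min i j) / tt N j) ^ δ)) N fun i hi => ?_).trans ?_
  · unfold HH; split_ifs with h
    · have t1 := tt0 hi
      have t3 := tt0 (show i + 1 < N by omega)
      have := step (div_pos t1 t2) (div_pos t3 t2) δ0.le
      rw [div_div_div_cancel_right₀ t2.ne', tt_step (by omega)] at this
      rw [min_eq_left h.le, min_eq_left (by omega), neg_sub_neg, ← mul_sub, ← hδ]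
      refine le_trans ?_ (mul_le_mul_of_nonneg_left this (by positivity))
      have s1 := sub0 hi
      rw [show ∀ X Y : ℝ, 8 * a / δ * (δ * X * Y) = 4 * a * X * (2 * Y) from fun X Y => by field_simp; ring]
      refine mul_le_mul_of_nonneg_left ?_ (by positivity)
      rw [← mul_div_assoc, div_le_div_iff₀ (mul_pos (by positivity) (by linarith))
        (mul_pos (by positivity) (by linarith))]
      nlinarith [mul_nonneg (show (0 : ℝ) ≤ (N + 1) * i by positivity) (zero_le_one.trans s1)]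
    · rw [min_eq_right (by omega), min_eq_right (by omega), sub_self]
  · rw [min_eq_right hj.le, div_self t2.ne', Real.one_rpow, mul_one, neg_sub_neg]
    exact sub_le_self _ (mul_nonneg (by positivity)
      (Real.rpow_nonneg (div_pos (tt0 (by omega)) t2).le _))

lemma ent (h0 : 0 < a) (h1 : a < 1 / 2) {r : ℝ} (hr : 1 < r) {i j : ℕ} (hj : j < N) (h : i ≤ j)
    {u v : ℝ} (hu : 0 ≤ u) (hv : 0 ≤ v) :
    2 * ((r - 1) * (r⁻¹ ^ (j - i + 1) * (tt N j ^ a / tt N i ^ a))) * (u * v) ≤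
      (PP r i j + HH N a i j j) * u ^ 2 + (PP r i j + HH N a i j i) * v ^ 2 := by
  have t1 := tt0 (h.trans_lt hj)
  have t2 := tt0 hj
  have p0 : 0 ≤ (r - 1) * r⁻¹ ^ (j - i + 1) := mul_nonneg (by linarith) (by positivity)
  have a1 := mul_nonneg p0 (sq_nonneg (u - v))
  rw [PP, if_pos h, ← Real.div_rpow t2.le t1.le]
  rcases h.eq_or_lt with rfl | h
  · simp only [HH, lt_irrefl, if_false, div_self t1.ne', Real.one_rpow]; nlinarith
  have s1 := sub0 hj
  have s2 := sub0 (h.trans hj)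
  have hij : (1 : ℝ) ≤ j - i := sub0 h
  set s := tt N j / tt N i with hs
  have e1 : s - 1 = (j - i) * ((N + 1) / ((i + 1) * (N - j))) := by
    have : (N : ℝ) - i ≠ 0 := by linarith
    have : (N : ℝ) - j ≠ 0 := by linarith
    rw [hs, tt, tt]; field_simp; ring
  have q0 : (0 : ℝ) < (N + 1) / ((i + 1) * (N - j)) := div_pos (by positivity)
    (mul_pos (by positivity) (by linarith))
  have s0 : 1 ≤ s := by nlinarith
  have a2 : (r - 1) * r⁻¹ ^ (j - i + 1) * (j - i) ≤ 1 := by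
    have := one_add_mul_le_pow (a := r - 1) (by linarith) (j - i + 1)
    rw [add_sub_cancel] at this
    push_cast [Nat.cast_sub h.le] at this
    rw [inv_pow, mul_right_comm, ← div_eq_mul_inv, div_le_one (by positivity)]
    nlinarith
  set X := 4 * a * (s ^ (1 / 4 + a / 2 - 1) * ((N + 1) / ((i + 1) * (N - j)))) with hX
  have X0 : 0 ≤ X := by positivity
  have a3 : (r - 1) * r⁻¹ ^ (j - i + 1) * (s ^ a - 1) ≤ X := by
    refine (mul_le_mul_of_nonneg_left (key s0 h0 h1) p0).trans ?_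
    rw [e1]
    nlinarith [mul_le_mul_of_nonneg_right a2 X0]
  have F0 : ∀ k < N, 0 ≤ HH N a i j k := fun k hk => by
    have := sub0 hk
    rw [HH, if_pos h]
    exact mul_nonneg (by positivity) (div_nonneg (by positivity) (mul_nonneg (by positivity) (by linarith)))
  have a4 : X ^ 2 = HH N a i j j * HH N a i j i := by
    have b1 : s ^ (1 / 4 + a / 2 - 1) = (tt N i / tt N j) ^ (1 / 4 - a / 2) * s ^ (-1 / 2 : ℝ) := by
      rw [← inv_div (tt N j), ← hs, Real.inv_rpow (by linarith), ← Real.rpow_neg (by linarith),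
        ← Real.rpow_add (by linarith)]
      congr 1; ring
    have b2 : (s ^ (-1 / 2 : ℝ)) ^ 2 = tt N i / tt N j := by
      rw [← Real.rpow_natCast, ← Real.rpow_mul (by linarith), ← inv_div (tt N j), ← hs,
        ← Real.rpow_neg_one]
      norm_num
    have : (N : ℝ) - i ≠ 0 := by linarith
    have : (N : ℝ) - j ≠ 0 := by linarith
    rw [hX, b1, HH, HH, if_pos h, if_pos h, mul_pow, mul_pow (_ * _), mul_pow, mul_pow, b2]
    generalize (tt N i / tt N j) ^ (1 / 4 - a / 2) = Y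
    rw [tt, tt]; field_simp
  have a5 : 2 * X * (u * v) ≤ HH N a i j j * u ^ 2 + HH N a i j i * v ^ 2 := by
    refine le_of_sq_le_sq ?_ (add_nonneg (mul_nonneg (F0 j hj) (sq_nonneg _))
      (mul_nonneg (F0 i (h.trans hj)) (sq_nonneg _)))
    rw [mul_pow, mul_pow, a4]
    nlinarith [sq_nonneg (HH N a i j j * u ^ 2 - HH N a i j i * v ^ 2)]
  nlinarith [mul_le_mul_of_nonneg_right a3 (mul_nonneg hu hv)]

noncomputable def AA (N : ℕ) (a : ℝ) (n : ℕ) : Matrix (Fin N) (Fin N) ℂ :=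
  fun i j => if (j : ℕ) = i + n then ((tt N j ^ a / tt N i ^ a : ℝ) : ℂ) else 0

lemma AA_pow (n : ℕ) : AA N a 1 ^ n = AA N a n := by
  have b0 : ∀ i : Fin N, tt N i ^ a ≠ 0 := fun i => (Real.rpow_pos_of_pos (tt0 i.2) a).ne'
  induction n with
  | zero =>
    ext i j
    simp only [pow_zero, one_apply, AA, add_zero, Fin.val_inj, eq_comm (a := j)]
    split_ifs with h
    · rw [h, div_self (b0 j), Complex.ofReal_one]
    · rfl
  | succ n ih =>
    ext i j
    rw [pow_succ, ih, mul_apply]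
    by_cases h : (j : ℕ) = i + (n + 1)
    · rw [sum_eq_single ⟨i + n, by omega⟩ (fun l _ hl => by
        rw [AA, if_neg fun e => hl (Fin.ext e), zero_mul]) (by simp), AA, AA, AA, if_pos rfl,
        if_pos h, if_pos (h.trans (add_assoc _ _ _).symm), ← Complex.ofReal_mul, mul_comm, div_mul_div_cancel₀ (b0 _)]
    · rw [AA, if_neg h]
      refine sum_eq_zero fun l _ => ?_
      unfold AA
      split_ifs with h1 h2
      exacts [absurd (by omega) h, mul_zero _, zero_mul _, zero_mul _]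

theorem main (h0 : 0 < a) (h1 : a < 1 / 2) (hN : 1 ≤ N) :
    ∃ A : EuclideanSpace ℂ (Fin N) →L[ℂ] EuclideanSpace ℂ (Fin N),
      (∀ z : ℂ, 1 < ‖z‖ → z ∈ resolventSet ℂ A ∧
        (‖z‖ - 1) * ‖resolvent A z‖ ≤ 1 + 8 * a / (1 / 4 - a / 2)) ∧
      ∃ n : ℕ, 1 * (N : ℝ) ^ (2 * a) ≤ ‖A ^ n‖ := by
  set Φ := toEuclideanCLM (n := Fin N) (𝕜 := ℂ)
  refine ⟨Φ (AA N a 1), fun z hz => ?_, N - 1, ?_⟩
  · have z0 : z ≠ 0 := by rintro rfl; norm_num at hz
    set R := z⁻¹ • ∑ n ∈ range N, (z⁻¹ • AA N a 1) ^ n with hR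
    have n0 : (z⁻¹ • AA N a 1) ^ N = 0 := by
      rw [smul_pow, AA_pow]; ext i j
      rw [Matrix.smul_apply, AA, if_neg (by omega), smul_zero, Matrix.zero_apply]
    have e0 : algebraMap ℂ _ z - AA N a 1 = z • (1 - z⁻¹ • AA N a 1) := by
      rw [smul_sub, smul_smul, mul_inv_cancel₀ z0, one_smul, Algebra.algebraMap_eq_smul_one]
    have e1 : (algebraMap ℂ _ z - Φ (AA N a 1)) * Φ R = 1 := by
      rw [← AlgHomClass.commutes Φ, ← map_sub, ← map_mul, e0, hR, smul_mul_smul_comm, mul_neg_geom_sum,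
        n0, mul_inv_cancel₀ z0, one_smul, sub_zero, map_one]
    have e2 : Φ R * (algebraMap ℂ _ z - Φ (AA N a 1)) = 1 := by
      rw [← AlgHomClass.commutes Φ, ← map_sub, ← map_mul, e0, hR, smul_mul_smul_comm, geom_sum_mul_neg,
        n0, inv_mul_cancel₀ z0, one_smul, sub_zero, map_one]
    have m := spectrum.mem_resolventSet_of_left_right_inverse e1 e2
    refine ⟨m, ?_⟩
    rw [spectrum.resolvent_eq m, Units.inv_eq_of_mul_eq_one_right e1,
      ← Real.norm_of_nonneg (sub_pos.2 hz).le, ← Complex.norm_real, ← norm_smul, ← map_smul]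
    have δ0 : 0 < 1 / 4 - a / 2 := by linarith
    refine schur _ (fun i j => PP ‖z‖ i j + HH N a i j j) (fun i j => PP ‖z‖ i j + HH N a i j i)
      (by positivity) (fun i j u v hu hv => ?_) (fun i hi => ?_) (fun j hj => ?_)
    · have e3 : R i j = if (i : ℕ) ≤ j then z⁻¹ ^ (j - i + 1 : ℕ) * ((tt N j ^ a / tt N i ^ a : ℝ) : ℂ)
          else 0 := by
        simp only [hR, smul_pow, AA_pow, Matrix.smul_apply, Matrix.sum_apply, AA, smul_eq_mul]
        split_ifs with h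
        · rw [sum_eq_single (j - i : ℕ) (fun n _ hn => by rw [if_neg (by omega), mul_zero])
            (fun hn => absurd (mem_range.2 (by omega)) hn), if_pos (by omega), pow_succ', mul_assoc]
        · rw [sum_eq_zero fun n _ => by rw [if_neg (by omega), mul_zero], mul_zero]
      rw [Matrix.smul_apply, e3]
      split_ifs with h
      · refine le_trans (le_of_eq ?_) (ent h0 h1 hz j.2 h hu hv)
        rw [norm_smul, norm_mul, norm_pow, norm_inv, Complex.norm_real, Complex.norm_real,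
          Real.norm_of_nonneg (sub_pos.2 hz).le, Real.norm_of_nonneg (div_pos
            (Real.rpow_pos_of_pos (tt0 j.2) a) (Real.rpow_pos_of_pos (tt0 i.2) a)).le]
      · simp [PP, HH, h, show ¬(i : ℕ) < j by omega]
    · rw [sum_add_distrib]; exact add_le_add (PP_row hz N i) (HH_row h0 h1 hi)
    · rw [sum_add_distrib]; exact add_le_add (PP_col hz N j) (HH_col h0 h1 hj)
  · rw [← map_pow, AA_pow, one_mul]
    have N0 : (0 : ℝ) < N := by exact_mod_cast hN
    have a1 := (Φ (AA N a (N - 1))).le_opNorm (EuclideanSpace.single ⟨N - 1, by omega⟩ 1)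
    rw [PiLp.norm_single, norm_one, mul_one] at a1
    refine le_trans (le_of_eq ?_) ((PiLp.norm_apply_le _ ⟨0, by omega⟩).trans a1)
    simp only [Φ, ofLp_toEuclideanCLM, PiLp.ofLp_single, mulVec_single_one, col_apply, AA, zero_add,
      if_true, Complex.norm_real, tt, Nat.cast_sub hN]
    rw [two_mul, Real.rpow_add N0]
    norm_num [Real.inv_rpow N0.le, abs_of_pos (Real.rpow_pos_of_pos N0 a)]

end Pool.Agent.H1.Kre
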