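import Mathlib

namespace Pool.Agent.H1.Lac

open Real Metric Filter Topology Set InnerProductSpace

noncomputable def tm (k : ℕ) (z : ℂ) : ℂ := (1000 ^ k : ℝ) * Complex.exp (Complex.I * (1000 ^ k : ℝ) * z)
noncomputable def f (z : ℂ) : ℂ := ∑' k, tm k z

lemma tm_norm (k : ℕ) (z : ℂ) : ‖tm k z‖ = 1000 ^ k * exp (-(1000 ^ k * z.im)) := by
  rw [tm, norm_mul, Complex.norm_real, Complex.norm_exp, Real.norm_eq_abs, abs_of_pos (by positivity)]
  simp [-Complex.ofReal_pow]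

lemma tm_re (k : ℕ) (z : ℂ) :
    (tm k z).re = 1000 ^ k * exp (-(1000 ^ k * z.im)) * cos (1000 ^ k * z.re) := by
  rw [tm, Complex.re_ofReal_mul, Complex.exp_re]
  simp [-Complex.ofReal_pow, mul_assoc]

lemma e2 {t : ℝ} (ht : 0 ≤ t) : exp (-t) * (1 + t) ^ 2 ≤ 2 := by
  rw [exp_neg, inv_mul_le_iff₀ (exp_pos t)]
  nlinarith [quadratic_le_exp_of_nonneg ht]

lemma tm_le {y : ℝ} (hy : 0 < y) (k : ℕ) {z : ℂ} (h : y ≤ z.im) :
    ‖tm k z‖ ≤ 2 / y ^ 2 * (1 / 1000) ^ k := by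
  have h0 : (0 : ℝ) < 1000 ^ k := by positivity
  have h1 := e2 (t := 1000 ^ k * y) (by positivity)
  have h2 : exp (-(1000 ^ k * z.im)) ≤ exp (-(1000 ^ k * y)) := by gcongr
  rw [tm_norm, one_div, inv_pow, ← div_eq_mul_inv, div_div, le_div_iff₀ (by positivity)]
  calc _ = exp (-(1000 ^ k * z.im)) * (1000 ^ k * y) ^ 2 := by ring
    _ ≤ exp (-(1000 ^ k * y)) * (1 + 1000 ^ k * y) ^ 2 := by gcongr; linarith
    _ ≤ 2 := h1

lemma geo (c : ℝ) : HasSum (fun k : ℕ => c * (1 / 1000 : ℝ) ^ k) (c * (1 - 1 / 1000)⁻¹) :=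
  (hasSum_geometric_of_lt_one (by norm_num) (by norm_num)).mul_left c

lemma nsum {z : ℂ} (h : 0 < z.im) : Summable fun k => ‖tm k z‖ :=
  Summable.of_nonneg_of_le (fun _ => norm_nonneg _) (fun k => tm_le h k le_rfl) (geo _).summable

lemma f_an {z : ℂ} (h : 0 < z.im) : AnalyticAt ℂ f z := by
  have hU : IsOpen {w : ℂ | z.im / 2 < w.im} := isOpen_lt continuous_const Complex.continuous_im
  exact (Complex.differentiableOn_tsum_of_summable_norm (geo (2 / (z.im / 2) ^ 2)).summable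
    (fun k => by unfold tm; fun_prop) hU fun k w hw => tm_le (half_pos h) k (le_of_lt hw)).analyticAt
    (hU.mem_nhds (half_lt_self h))

lemma f_bdd {z : ℂ} (h : 0 < z.im) : z.im * ‖f z‖ ≤ 4 := by
  have key : ∀ N, ∑ k ∈ Finset.range N, z.im * ‖tm k z‖ ≤ 4 - 4 / (1 + 1000 ^ N * z.im) := by
    intro N
    induction N with
    | zero =>
      have : 4 / (1 + 1000 ^ 0 * z.im) ≤ 4 := div_le_self (by norm_num) (by simp [h.le])
      simpa using this
    | succ N ih =>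
      rw [Finset.sum_range_succ, tm_norm, pow_succ, mul_right_comm _ 1000]
      generalize ht : 1000 ^ N * z.im = t at ih ⊢
      have t0 : 0 < t := by rw [← ht]; positivity
      have h1 := e2 t0.le
      have : t * exp (-t) ≤ 4 / (1 + t) - 4 / (1 + t * 1000) := by
        rw [div_sub_div _ _ (by positivity) (by positivity), le_div_iff₀ (by positivity)]
        have : exp (-t) * ((1 + t) * (1 + t * 1000)) ≤ exp (-t) * (1000 * (1 + t) ^ 2) := by
          exact mul_le_mul_of_nonneg_left (by nlinarith) (exp_pos _).le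
        nlinarith
      rw [← mul_assoc, mul_comm z.im, ht]
      linarith
  calc _ ≤ z.im * ∑' k, ‖tm k z‖ := by gcongr; exact norm_tsum_le_tsum_norm (nsum h)
    _ = ∑' k, z.im * ‖tm k z‖ := tsum_mul_left.symm
    _ ≤ 4 := Real.tsum_le_of_sum_range_le (fun _ => by positivity) fun N =>
      (key N).trans (sub_le_self _ (by positivity))

lemma f_main (k : ℕ) {z : ℂ} (h : z.im = 4 / 1000 ^ k) :
    |z.im * (f z).re - 4 * exp (-4) * cos (1000 ^ k * z.re)| ≤ 1 / 100 := by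
  have h0 : (0 : ℝ) < 1000 ^ k := by positivity
  have y0 : 0 < z.im := by rw [h]; positivity
  have e := (nsum y0).of_norm.sum_add_tsum_nat_add (k + 1)
  rw [Finset.sum_range_succ] at e
  have e1 : z.im * (tm k z).re = 4 * exp (-4) * cos (1000 ^ k * z.re) := by
    rw [tm_re, h, mul_div_cancel₀ _ h0.ne']; field_simp
  have b1 : ‖∑ j ∈ Finset.range k, tm j z‖ ≤ 1000 ^ k / 999 := by
    refine (norm_sum_le_of_le _ (n := fun j => 1000 ^ j) fun j _ => ?_).trans ?_
    · rw [tm_norm]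
      exact mul_le_of_le_one_right (by positivity) (exp_le_one_iff.2 (neg_nonpos.2 (by positivity)))
    · rw [geom_sum_eq (by norm_num)]; gcongr <;> norm_num
  have b2 : ‖∑' j, tm (j + (k + 1)) z‖ ≤ 2 / z.im ^ 2 * (1 / 1000) ^ (k + 1) * (1 - 1 / 1000)⁻¹ :=
    tsum_of_norm_bounded (geo _) fun j => (tm_le y0 _ le_rfl).trans (le_of_eq (by ring))
  have b3 : 2 / z.im ^ 2 * (1 / 1000) ^ (k + 1) * (1 - 1 / 1000)⁻¹ = 1000 ^ k / (8 * 999) := by
    rw [h, one_div, inv_pow]; field_simp; ring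
  have b4 : z.im * 1000 ^ k = 4 := by rw [h]; field_simp
  rw [f, ← e, ← e1, Complex.add_re, Complex.add_re]
  have c1 := abs_le.1 ((Complex.abs_re_le_norm _).trans b1)
  have c2 := abs_le.1 ((Complex.abs_re_le_norm _).trans (b2.trans b3.le))
  rw [abs_le]
  constructor <;> nlinarith

lemma big : 1 / 25 ≤ 4 * exp (-4) := by
  have h : exp 1 ≤ 3 := by linarith [exp_one_lt_d9]
  have : exp 4 ≤ 3 ^ 4 := by
    rw [show (4 : ℝ) = (4 : ℕ) * 1 by norm_num, exp_nat_mul]; gcongr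
  rw [exp_neg]
  linarith [inv_anti₀ (exp_pos 4) this]

lemma phase (k : ℕ) (x α : ℝ) :
    ∃ s : ℝ, |s - x| < 4 / 1000 ^ k ∧ cos (1000 ^ k * s) = cos α := by
  have h0 : (0 : ℝ) < 1000 ^ k := by positivity
  have h := abs_sub_round ((1000 ^ k * x - α) / (2 * π))
  refine ⟨(α + round ((1000 ^ k * x - α) / (2 * π)) * (2 * π)) / 1000 ^ k, ?_, ?_⟩
  · generalize (round ((1000 ^ k * x - α) / (2 * π)) : ℝ) = m at h
    have e : (α + m * (2 * π)) / 1000 ^ k - x
        = -(2 * π / 1000 ^ k) * ((1000 ^ k * x - α) / (2 * π) - m) := by field_simp; ring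
    rw [e, abs_mul, abs_neg, abs_of_pos (by positivity)]
    calc _ ≤ 2 * π / 1000 ^ k * (1 / 2) := by gcongr
      _ = π / 1000 ^ k := by ring
      _ < _ := by gcongr; exact pi_lt_four
  · rw [mul_div_cancel₀ _ h0.ne', cos_add_int_mul_two_pi]

end Pool.Agent.H1.Lac
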