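import Mathlib

open scoped ContDiff

namespace Pool.Agent.H1.MY3

lemma hurwitz (a1 a2 a3 : ℝ) (h1 : 0 < a1) (h3 : 0 < a3) (h : a3 < a1 * a2) (z : ℂ)
    (hz : z ^ 3 + a1 * z ^ 2 + a2 * z + a3 = 0) : z.re < 0 := by
  by_contra hx
  push Not at hx
  have h2 : 0 < a2 := by
    by_contra h2; push Not at h2; nlinarith
  have hre := congrArg Complex.re hz
  have him := congrArg Complex.im hz
  simp only [pow_succ, pow_zero, one_mul, Complex.add_re, Complex.mul_re, Complex.mul_im,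
    Complex.ofReal_re, Complex.ofReal_im, Complex.zero_re, Complex.add_im, Complex.zero_im] at hre him
  obtain ⟨x, hx'⟩ : ∃ x, x = z.re := ⟨_, rfl⟩
  obtain ⟨y, hy'⟩ : ∃ y, y = z.im := ⟨_, rfl⟩
  rw [← hx', ← hy'] at hre him
  rw [← hx'] at hx
  have e : y * (3 * x ^ 2 - y ^ 2 + 2 * a1 * x + a2) = 0 := by linarith
  rcases mul_eq_zero.1 e with h0 | h0
  · subst h0
    have : 0 ≤ x * x * x + a1 * (x * x) + a2 * x := by positivity
    nlinarith
  · have hy : y ^ 2 = 3 * x ^ 2 + 2 * a1 * x + a2 := by linarith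
    have e2 : x ^ 3 - 3 * x * y ^ 2 + a1 * (x ^ 2 - y ^ 2) + a2 * x + a3 = 0 := by linarith
    rw [hy] at e2
    have : 0 ≤ 8 * x ^ 3 + 8 * a1 * x ^ 2 + (2 * a2 + 2 * a1 ^ 2) * x := by positivity
    nlinarith

noncomputable def z0 : ℝ := Real.log 2 / 5
noncomputable def tt (u : ℝ) : ℝ := u / (1 + u)
noncomputable def ph (z : ℝ) : ℝ := 1 / (1 + (z - z0) ^ 2)
noncomputable def bb (z : ℝ) : ℝ := Real.exp (10 - 2 * Real.arctan (z - z0))
noncomputable def uu (v : Fin 3 → ℝ) : ℝ := v 0 ^ 2 + v 1 ^ 2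
noncomputable def aa (v : Fin 3 → ℝ) : ℝ := -1 + 2 * ph (v 2) * tt (uu v)

noncomputable def F (v : Fin 3 → ℝ) : Fin 3 → ℝ :=
  ![aa v * v 0 - bb (v 2) * v 1, aa v * v 1 + bb (v 2) * v 0, Real.log (1 + uu v) - 5 * v 2]

lemma uu_nonneg (v : Fin 3 → ℝ) : 0 ≤ uu v := by unfold uu; positivity

lemma smooth : ContDiff ℝ ∞ F := by
  have hu : ContDiff ℝ ∞ uu := by unfold uu; fun_prop
  have h1 : ∀ v, 1 + uu v ≠ 0 := fun v => by linarith [uu_nonneg v, show 0 < 1 + uu v by linarith [uu_nonneg v]]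
  have ht : ContDiff ℝ ∞ (fun v => tt (uu v)) := by
    unfold tt; exact hu.div (contDiff_const.add hu) h1
  have hp : ContDiff ℝ ∞ (fun v : Fin 3 → ℝ => ph (v 2)) := by
    unfold ph
    exact contDiff_const.div (by fun_prop) (fun v => by positivity)
  have hb : ContDiff ℝ ∞ (fun v : Fin 3 → ℝ => bb (v 2)) := by
    unfold bb
    exact (contDiff_const.sub (contDiff_const.mul
      (Real.contDiff_arctan.comp (by fun_prop)))).exp
  have ha : ContDiff ℝ ∞ aa := by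
    unfold aa; exact contDiff_const.add ((contDiff_const.mul hp).mul ht)
  have hl : ContDiff ℝ ∞ (fun v => Real.log (1 + uu v)) := (contDiff_const.add hu).log h1
  refine contDiff_pi.2 fun i => ?_
  fin_cases i
  · exact (ha.mul (by fun_prop)).sub (hb.mul (by fun_prop))
  · exact (ha.mul (by fun_prop)).add (hb.mul (by fun_prop))
  · exact hl.sub (by fun_prop)

noncomputable def M (v : Fin 3 → ℝ) : Matrix (Fin 3) (Fin 3) ℝ :=
  let a := aa v
  let au := 2 * ph (v 2) * (1 - tt (uu v)) ^ 2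
  let az := 2 * (-2 * (v 2 - z0) * ph (v 2) ^ 2) * tt (uu v)
  let b := bb (v 2)
  let bz := -2 * ph (v 2) * b
  let cu := 1 - tt (uu v)
  !![a + 2 * v 0 ^ 2 * au, 2 * v 0 * v 1 * au - b, v 0 * az - v 1 * bz;
     2 * v 0 * v 1 * au + b, a + 2 * v 1 ^ 2 * au, v 1 * az + v 0 * bz;
     2 * v 0 * cu, 2 * v 1 * cu, -5]

lemma jac (v : Fin 3 → ℝ) : LinearMap.toMatrix' (fderiv ℝ F v).toLinearMap = M v := by
  have h1 : 0 < 1 + uu v := by linarith [uu_nonneg v]
  have p (i : Fin 3) : HasFDerivAt (fun w : Fin 3 → ℝ => w i)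
      (ContinuousLinearMap.proj (R := ℝ) (φ := fun _ : Fin 3 => ℝ) i) v := hasFDerivAt_apply i v
  have hu : HasFDerivAt uu _ v := ((p 0).pow 2).add ((p 1).pow 2)
  have dt : HasDerivAt tt ((1 - tt (uu v)) ^ 2) (uu v) := by
    have := (hasDerivAt_id' (uu v)).fun_div ((hasDerivAt_id' (uu v)).const_add 1) h1.ne'
    refine HasDerivAt.congr_deriv this ?_
    simp only [tt]; field_simp; ring
  have dp : HasDerivAt ph (-2 * (v 2 - z0) * ph (v 2) ^ 2) (v 2) := by
    have := (hasDerivAt_const (v 2) (1 : ℝ)).fun_div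
      ((((hasDerivAt_id' (v 2)).sub_const z0).fun_pow 2).const_add 1) (by positivity)
    refine HasDerivAt.congr_deriv this ?_
    simp only [ph]; field_simp; ring
  have db : HasDerivAt bb (-2 * ph (v 2) * bb (v 2)) (v 2) := by
    have := ((((hasDerivAt_id' (v 2)).sub_const z0).arctan.const_mul 2).const_sub 10).exp
    refine HasDerivAt.congr_deriv this ?_
    simp only [ph, bb]; ring
  have dl : HasDerivAt (fun u => Real.log (1 + u)) (1 - tt (uu v)) (uu v) := by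
    have := ((hasDerivAt_id' (uu v)).const_add 1).log h1.ne'
    refine HasDerivAt.congr_deriv this ?_
    simp only [tt]; field_simp; ring
  have ft := dt.comp_hasFDerivAt v hu
  have fp := dp.comp_hasFDerivAt v (p 2)
  have fb := db.comp_hasFDerivAt v (p 2)
  have fl := dl.comp_hasFDerivAt v hu
  have fa : HasFDerivAt aa _ v := ((fp.const_mul 2).mul ft).const_add (-1)
  have f0 := (fa.mul (p 0)).sub (fb.mul (p 1))
  have f1 := (fa.mul (p 1)).add (fb.mul (p 0))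
  have f2 := fl.sub ((p 2).const_mul 5)
  have hdF : DifferentiableAt ℝ F v := (smooth.differentiable (by simp)) v
  have g (i : Fin 3) : HasFDerivAt (fun w => F w i)
      ((ContinuousLinearMap.proj (R := ℝ) (φ := fun _ : Fin 3 => ℝ) i).comp (fderiv ℝ F v)) v :=
    hasFDerivAt_pi'.1 hdF.hasFDerivAt i
  have e0 := fun w => congrArg (fun L : (Fin 3 → ℝ) →L[ℝ] ℝ => L w) ((g 0).unique f0)
  have e1 := fun w => congrArg (fun L : (Fin 3 → ℝ) →L[ℝ] ℝ => L w) ((g 1).unique f1)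
  have e2 := fun w => congrArg (fun L : (Fin 3 → ℝ) →L[ℝ] ℝ => L w) ((g 2).unique f2)
  simp only [ContinuousLinearMap.comp_apply, ContinuousLinearMap.proj_apply] at e0 e1 e2
  ext i j
  fin_cases i <;> fin_cases j <;>
    simp [M, LinearMap.toMatrix'_apply, e0, e1, e2] <;> first | ring1 | (left; ring1)

lemma ph_bd (z : ℝ) : 0 < ph z ∧ ph z ≤ 1 ∧ |-2 * (z - z0) * ph z ^ 2| ≤ 1 := by
  have h : 0 < 1 + (z - z0) ^ 2 := by positivity
  have h1 : ph z ≤ 1 := by unfold ph; rw [div_le_one h]; nlinarith [sq_nonneg (z - z0)]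
  have h0 : 0 < ph z := by unfold ph; positivity
  have h2 : ph z * (1 + (z - z0) ^ 2) = 1 := by unfold ph; field_simp
  refine ⟨h0, h1, ?_⟩
  have h3 : |2 * (z - z0) * ph z| ≤ 1 := by
    rw [abs_le]; constructor <;> nlinarith [mul_nonneg h0.le (sq_nonneg (z - z0 - 1)),
      mul_nonneg h0.le (sq_nonneg (z - z0 + 1))]
  rw [abs_le] at h3 ⊢
  constructor <;> nlinarith [h3.1, h3.2]

lemma bb_bd (z : ℝ) : 1000 ≤ bb z ^ 2 := by
  have h1 := Real.arctan_lt_pi_div_two (z - z0)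
  have h2 := Real.pi_lt_four
  have h3 : Real.exp 6 ≤ bb z := Real.exp_le_exp.2 (by linarith)
  have h4 : (32 : ℝ) ≤ Real.exp 6 := by
    have := Real.add_one_le_exp 1
    have e : Real.exp 6 = Real.exp 1 ^ 6 := by rw [← Real.exp_nat_mul]; norm_num
    have : (2 : ℝ) ^ 6 ≤ Real.exp 1 ^ 6 := pow_le_pow_left₀ (by norm_num) (by linarith) 6
    linarith
  nlinarith

lemma ineqs (t f g B a p : ℝ) (t0 : 0 ≤ t) (t1 : t ≤ 1) (f0 : 0 ≤ f) (f1 : f ≤ 1) (hg : |g| ≤ 1)
    (hB : 1000 ≤ B) (ha : a = -1 + 2 * f * t) (hp : p = a + 4 * f * (t * (1 - t))) :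
    0 < 5 - p - a ∧ 0 < 5 * p * a + B * (5 - 4 * f * t) + 4 * a * g * t ^ 2 ∧
    5 * p * a + B * (5 - 4 * f * t) + 4 * a * g * t ^ 2 <
      (5 - p - a) * (p * a + B - 5 * p - 4 * g * t ^ 2 - 5 * a) := by
  have ft0 : 0 ≤ f * t := by positivity
  have ft1 : f * t ≤ 1 := by nlinarith
  have q0 : 0 ≤ f * (t * (1 - t)) := by have : 0 ≤ 1 - t := by linarith
                                        positivity
  have q1 : f * (t * (1 - t)) ≤ 1 / 4 := by
    have : t * (1 - t) ≤ 1 / 4 := by nlinarith [sq_nonneg (2 * t - 1)]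
    have : 0 ≤ t * (1 - t) := mul_nonneg t0 (by linarith)
    nlinarith
  have a1 : |a| ≤ 1 := by rw [abs_le]; constructor <;> linarith
  have p1 : |p| ≤ 2 := by rw [abs_le]; constructor <;> linarith
  have pa : |p * a| ≤ 2 := by rw [abs_mul]; nlinarith [abs_nonneg p, abs_nonneg a]
  have gt : |g * t ^ 2| ≤ 1 := by
    rw [abs_mul, abs_of_nonneg (sq_nonneg t)]; nlinarith [abs_nonneg g]
  have agt : |a * (g * t ^ 2)| ≤ 1 := by rw [abs_mul]; nlinarith [abs_nonneg a, abs_nonneg (g * t ^ 2)]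
  obtain ⟨r, hr⟩ : ∃ r, r = p * a - 5 * p - 4 * g * t ^ 2 - 5 * a := ⟨_, rfl⟩
  rw [abs_le] at a1 p1 pa gt agt
  have r1 : -21 ≤ r := by nlinarith
  have s0 : 0 < 5 - p - a := by linarith
  have s1 : 5 - p - a ≤ 8 := by linarith
  refine ⟨s0, by nlinarith, ?_⟩
  have e : (5 - p - a) * (p * a + B - 5 * p - 4 * g * t ^ 2 - 5 * a) =
      (5 - p - a) * r + B * (5 - 4 * f * t) + B * (2 - 4 * (f * (t * (1 - t)))) := by
    rw [hr, hp, ha]; ring
  rw [e]
  have : -168 ≤ (5 - p - a) * r := by nlinarith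
  have : 1000 ≤ B * (2 - 4 * (f * (t * (1 - t)))) := by nlinarith
  nlinarith

lemma eig (v : Fin 3 → ℝ) (z : ℂ)
    (hz : Polynomial.aeval z (LinearMap.toMatrix' (fderiv ℝ F v).toLinearMap).charpoly = 0) :
    z.re < 0 := by
  rw [jac] at hz
  have h1 : 0 < 1 + uu v := by linarith [uu_nonneg v]
  have t0 : 0 ≤ tt (uu v) := div_nonneg (uu_nonneg v) h1.le
  have t1 : tt (uu v) ≤ 1 := by unfold tt; rw [div_le_one h1]; linarith
  have tu : (v 0 ^ 2 + v 1 ^ 2) * (1 - tt (uu v)) = tt (uu v) := by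
    have : uu v * (1 - tt (uu v)) = tt (uu v) := by unfold tt; field_simp; ring
    exact this
  obtain ⟨i1, i2, i3⟩ := ineqs (tt (uu v)) (ph (v 2)) (-2 * (v 2 - z0) * ph (v 2) ^ 2) (bb (v 2) ^ 2)
    (aa v) _ t0 t1 (ph_bd _).1.le (ph_bd _).2.1 (ph_bd _).2.2 (bb_bd _) rfl rfl
  refine hurwitz _ _ _ i1 i2 i3 z ?_
  rw [← hz, Matrix.charpoly, Matrix.det_fin_three]
  simp [Matrix.charmatrix_apply, M]
  have tu' := congrArg (fun r : ℝ => (r : ℂ)) tu
  push_cast at tu'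
  obtain ⟨t, ht⟩ : ∃ t, t = ((tt (uu v) : ℝ) : ℂ) := ⟨_, rfl⟩
  obtain ⟨f, hf⟩ : ∃ f, f = ((ph (v 2) : ℝ) : ℂ) := ⟨_, rfl⟩
  obtain ⟨a, ha⟩ : ∃ a, a = ((aa v : ℝ) : ℂ) := ⟨_, rfl⟩
  obtain ⟨b, hb⟩ : ∃ b, b = ((bb (v 2) : ℝ) : ℂ) := ⟨_, rfl⟩
  rw [← ht] at tu'
  rw [← ht, ← hf, ← ha, ← hb]
  linear_combination (-(-4 * f * (1 - t) * z ^ 2 + (4 * f * (1 - t) * (a - 5) -
    4 * (-2 * (v 2 - z0) * f ^ 2) * t) * z + 20 * f * (1 - t) * a - 4 * f * b ^ 2 +
    4 * a * (-2 * (v 2 - z0) * f ^ 2) * t)) * tu'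

lemma F0 : F 0 = 0 := by
  ext i; fin_cases i <;> simp [F, uu]

noncomputable def om : ℝ := Real.exp 10
noncomputable def gam (t : ℝ) : Fin 3 → ℝ := ![Real.cos (om * t), Real.sin (om * t), z0]

lemma gam_deriv (t : ℝ) : HasDerivAt gam (F (gam t)) t := by
  have hu : uu (gam t) = 1 := by simp [uu, gam]
  have h2 : gam t 2 = z0 := rfl
  have ha : aa (gam t) = 0 := by rw [aa, hu, h2]; simp [ph, tt]; norm_num
  have hb : bb z0 = om := by simp [bb, om]
  have hl : HasDerivAt (fun t => om * t) om t := by simpa using (hasDerivAt_id' t).const_mul om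
  refine hasDerivAt_pi.2 fun i => ?_
  fin_cases i
  · refine HasDerivAt.congr_deriv hl.cos ?_
    simp only [F, ha, h2, hb]; simp [gam]; ring
  · refine HasDerivAt.congr_deriv hl.sin ?_
    simp only [F, ha, h2, hb]; simp [gam]; ring
  · refine HasDerivAt.congr_deriv (hasDerivAt_const t z0) ?_
    simp only [F, hu, h2]; simp [z0]; ring_nf

lemma om_pos : 0 < om := Real.exp_pos _

lemma gam_per (t : ℝ) : gam (t + 2 * Real.pi / om) = gam t := by
  have : om * (t + 2 * Real.pi / om) = om * t + 2 * Real.pi := by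
    have := om_pos.ne'; field_simp
  simp only [gam, this, Real.cos_add_two_pi, Real.sin_add_two_pi]

lemma gam_ne : gam (Real.pi / om) ≠ gam 0 := by
  intro h
  have h1 := congrFun h 0
  have : om * (Real.pi / om) = Real.pi := by have := om_pos.ne'; field_simp
  simp [gam, this] at h1
  norm_num at h1

end Pool.Agent.H1.MY3
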