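import Mathlib

open Set Filter Topology

namespace Pool.Agent.H1.MY

variable {E : Type*} [NormedAddCommGroup E] [NormedSpace ℝ E]

def PwCont (w : ℝ → E) : Prop :=
  ∃ D : Set ℝ, (∀ b : ℝ, (D ∩ Icc 0 b).Finite) ∧
    (∀ t, 0 ≤ t → t ∉ D → ContinuousWithinAt w (Ici 0) t) ∧
    ∀ t ∈ D, 0 ≤ t → (∃ l, Tendsto w (𝓝[>] t) (𝓝 l)) ∧ (0 < t → ∃ l, Tendsto w (𝓝[<] t) (𝓝 l))

def LinSol (A : ℝ → E →L[ℝ] E) (s t : ℝ) (y : ℝ → E) : Prop :=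
  ContinuousOn y (Icc s t) ∧
    ∃ D : Set ℝ, D.Finite ∧ ∀ u ∈ Ioo s t, u ∉ D → HasDerivAt y (A u (y u)) u

def NUStable (A : ℝ → E →L[ℝ] E) : Prop :=
  ∃ K γ ε : ℝ, 1 ≤ K ∧ 0 ≤ ε ∧ ε < γ ∧
    ∀ s t : ℝ, 0 ≤ s → s ≤ t → ∀ y : ℝ → E, LinSol A s t y →
      ‖y t‖ ≤ K * Real.exp (-γ * (t - s) + ε * s) * ‖y s‖

def IsSol (f : ℝ → E → E) (t₀ : ℝ) (x : ℝ → E) : Prop :=
  ∀ t, t₀ ≤ t → HasDerivWithinAt x (f t (x t)) (Ici t₀) t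

end Pool.Agent.H1.MY
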