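import Mathlib
import Pool.Agent.H1.MYDefs

open Set Filter Topology Metric

namespace Pool.Agent.H1.MY

section
variable {E : Type*} [NormedAddCommGroup E] [NormedSpace ℝ E]

def Step (w : ℝ → E) : Prop :=
  ∃ D : Set ℝ, D.Finite ∧ (∀ t, t ∉ D → ∀ᶠ u in 𝓝 t, w u = w t) ∧
    ∀ t, (∃ l, ∀ᶠ u in 𝓝[>] t, w u = l) ∧ (∃ l, ∀ᶠ u in 𝓝[<] t, w u = l)

omit [NormedAddCommGroup E] [NormedSpace ℝ E] in
lemma step_const (c : E) : Step (fun _ : ℝ => c) :=
  ⟨∅, finite_empty, fun _ _ => by simp, fun _ => ⟨⟨c, by simp⟩, ⟨c, by simp⟩⟩⟩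

noncomputable def glue (c : ℝ) (w1 w2 : ℝ → E) : ℝ → E := fun t => if t < c then w1 t else w2 t

omit [NormedAddCommGroup E] [NormedSpace ℝ E] in
lemma step_glue (c : ℝ) {w1 w2 : ℝ → E} (h1 : Step w1) (h2 : Step w2) : Step (glue c w1 w2) := by
  obtain ⟨D1, hD1, a1, b1⟩ := h1
  obtain ⟨D2, hD2, a2, b2⟩ := h2
  refine ⟨D1 ∪ D2 ∪ {c}, (hD1.union hD2).union (finite_singleton c), fun t ht => ?_, fun t => ⟨?_, ?_⟩⟩
  · simp only [mem_union, mem_singleton_iff, not_or] at ht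
    rcases lt_or_gt_of_ne ht.2 with h | h
    · filter_upwards [a1 t ht.1.1, Iio_mem_nhds h] with u hu hu'
      simp only [glue, if_pos h, if_pos (mem_Iio.1 hu'), hu]
    · filter_upwards [a2 t ht.1.2, Ioi_mem_nhds h] with u hu hu'
      simp only [glue, if_neg (not_lt.2 h.le), if_neg (not_lt.2 (mem_Ioi.1 hu').le), hu]
  · rcases lt_or_ge t c with h | h
    · obtain ⟨l, hl⟩ := (b1 t).1
      refine ⟨l, ?_⟩
      filter_upwards [hl, mem_nhdsWithin_of_mem_nhds (Iio_mem_nhds h)] with u hu hu'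
      simp only [glue, if_pos (mem_Iio.1 hu'), hu]
    · obtain ⟨l, hl⟩ := (b2 t).1
      refine ⟨l, ?_⟩
      filter_upwards [hl, self_mem_nhdsWithin] with u hu hu'
      simp only [glue, if_neg (not_lt.2 (h.trans (mem_Ioi.1 hu').le)), hu]
  · rcases le_or_gt t c with h | h
    · obtain ⟨l, hl⟩ := (b1 t).2
      refine ⟨l, ?_⟩
      filter_upwards [hl, self_mem_nhdsWithin] with u hu hu'
      simp only [glue, if_pos ((mem_Iio.1 hu').trans_le h), hu]
    · obtain ⟨l, hl⟩ := (b2 t).2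
      refine ⟨l, ?_⟩
      filter_upwards [hl, mem_nhdsWithin_of_mem_nhds (Ioi_mem_nhds h)] with u hu hu'
      simp only [glue, if_neg (not_lt.2 (mem_Ioi.1 hu').le), hu]

lemma linSol_congr {A B : ℝ → E →L[ℝ] E} {s t : ℝ} {y : ℝ → E} (h : LinSol A s t y)
    (hAB : ∀ u ∈ Ioo s t, A u = B u) : LinSol B s t y := by
  obtain ⟨h1, D, hD, h2⟩ := h
  exact ⟨h1, D, hD, fun u hu hu' => hAB u hu ▸ h2 u hu hu'⟩

lemma linSol_glue {A : ℝ → E →L[ℝ] E} {a c b : ℝ} {y1 y2 : ℝ → E} (hac : a ≤ c) (hcb : c ≤ b)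
    (h1 : LinSol A a c y1) (h2 : LinSol A c b y2) (he : y1 c = y2 c) :
    LinSol A a b (glue c y1 y2) ∧ glue c y1 y2 a = y1 a ∧ glue c y1 y2 b = y2 b := by
  obtain ⟨c1, D1, hD1, d1⟩ := h1
  obtain ⟨c2, D2, hD2, d2⟩ := h2
  have e1 : ∀ u ∈ Icc a c, glue c y1 y2 u = y1 u := by
    intro u hu
    rcases hu.2.lt_or_eq with h | h
    · simp only [glue, if_pos h]
    · simp only [glue, h, lt_irrefl, if_false, he]
  have e2 : ∀ u ∈ Icc c b, glue c y1 y2 u = y2 u := fun u hu => by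
    simp only [glue, if_neg (not_lt.2 hu.1)]
  refine ⟨⟨?_, D1 ∪ D2 ∪ {c}, (hD1.union hD2).union (finite_singleton c), fun u hu hu' => ?_⟩,
    e1 a ⟨le_rfl, hac⟩, e2 b ⟨hcb, le_rfl⟩⟩
  · rw [← Icc_union_Icc_eq_Icc hac hcb]
    exact (c1.congr e1).union_of_isClosed (c2.congr e2) isClosed_Icc isClosed_Icc
  · simp only [mem_union, mem_singleton_iff, not_or] at hu'
    rcases lt_or_gt_of_ne hu'.2 with h | h
    · rw [e1 u ⟨hu.1.le, h.le⟩]
      refine (d1 u ⟨hu.1, h⟩ hu'.1.1).congr_of_eventuallyEq ?_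
      filter_upwards [Ioo_mem_nhds hu.1 h] with v hv using e1 v (Ioo_subset_Icc_self hv)
    · rw [e2 u ⟨h.le, hu.2.le⟩]
      refine (d2 u ⟨h, hu.2⟩ hu'.1.2).congr_of_eventuallyEq ?_
      filter_upwards [Ioo_mem_nhds h hu.2] with v hv using e2 v (Ioo_subset_Icc_self hv)

lemma one_step [CompleteSpace E] (A : ℝ → E →L[ℝ] E) (c h L B θ : ℝ) (y0 : E)
    (hA : ContinuousOn A (Icc c (c + h))) (hL : ∀ t ∈ Icc c (c + h), ‖A t‖ ≤ L)
    (hθ : ∀ t ∈ Icc c (c + h), ‖A t - A c‖ ≤ θ) (hy0 : ‖y0‖ ≤ B) (hh : 0 < h)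
    (hLh : L * (B + 1) * h ≤ 1) :
    ∃ y : ℝ → E, y c = y0 ∧ LinSol A c (c + h) y ∧
      ‖y (c + h) - y0 - h • A c y0‖ ≤ (θ * (3 * B) + L * (L * (3 * B) * h)) * h := by
  have hc : c ∈ Icc c (c + h) := ⟨le_rfl, by linarith⟩
  have hL0 : 0 ≤ L := (norm_nonneg _).trans (hL c hc)
  have hB0 : 0 ≤ B := (norm_nonneg _).trans hy0
  have hPL : IsPicardLindelof (fun t y => A t y) (⟨c, hc⟩ : Icc c (c + h)) y0 1 0
      ⟨L * (B + 1), by positivity⟩ ⟨L, hL0⟩ := by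
    refine ⟨fun t ht => ?_, fun x _ => ?_, fun t ht x hx => ?_, ?_⟩
    · refine ((A t).lipschitz.weaken ?_).lipschitzOnWith
      exact_mod_cast hL t ht
    · exact hA.clm_apply continuousOn_const
    · have h1 : ‖x‖ ≤ B + 1 := by
        have := mem_closedBall_iff_norm.1 hx
        have h2 := norm_add_le (x - y0) y0
        simp only [sub_add_cancel, NNReal.coe_one] at h2 this
        linarith
      exact ((A t).le_opNorm x).trans (mul_le_mul (hL t ht) h1 (norm_nonneg _) hL0)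
    · simp only [NNReal.coe_mk, add_sub_cancel_left, sub_self, NNReal.coe_one, NNReal.coe_zero,
        sub_zero, max_eq_left hh.le]
      exact hLh
  obtain ⟨y, hy1, hy2⟩ := hPL.exists_eq_forall_mem_Icc_hasDerivWithinAt₀
  simp only at hy1 hy2
  have hcont : ContinuousOn y (Icc c (c + h)) := fun t ht => (hy2 t ht).continuousWithinAt
  have hr : ∀ t ∈ Ico c (c + h), HasDerivWithinAt y (A t (y t)) (Ici t) t := fun t ht =>
    (hy2 t (Ico_subset_Icc_self ht)).mono_of_mem_nhdsWithin (Icc_mem_nhdsGE_of_mem ht)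
  have hLh' : L * h ≤ 1 := by nlinarith [mul_nonneg (mul_nonneg hL0 hB0) hh.le]
  have hb : ∀ t ∈ Icc c (c + h), ‖y t‖ ≤ 3 * B := by
    intro t ht
    have := norm_le_gronwallBound_of_norm_deriv_right_le (δ := B) (K := L) (ε := 0) hcont hr
      (hy1 ▸ hy0) (fun u hu => by
        rw [add_zero]
        exact ((A u).le_opNorm _).trans
          (mul_le_mul_of_nonneg_right (hL u (Ico_subset_Icc_self hu)) (norm_nonneg _))) t ht
    rw [gronwallBound_ε0] at this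
    have h1 : L * (t - c) ≤ 1 := by nlinarith [ht.1, ht.2]
    have h2 : Real.exp (L * (t - c)) ≤ 3 :=
      (Real.exp_le_exp.2 h1).trans (by linarith [Real.exp_one_lt_d9])
    nlinarith
  have hd : ∀ t ∈ Icc c (c + h), ‖y t - y0‖ ≤ L * (3 * B) * h := by
    intro t ht
    have := norm_image_sub_le_of_norm_deriv_right_le_segment (C := L * (3 * B)) hcont hr
      (fun u hu => ((A u).le_opNorm _).trans (mul_le_mul (hL u (Ico_subset_Icc_self hu))
        (hb u (Ico_subset_Icc_self hu)) (norm_nonneg _) hL0)) t ht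
    rw [hy1] at this
    refine this.trans (mul_le_mul_of_nonneg_left (by linarith [ht.2]) (by positivity))
  refine ⟨y, hy1, ⟨hcont, ∅, finite_empty, fun u hu _ =>
    (hy2 u (Ioo_subset_Icc_self hu)).hasDerivAt (Icc_mem_nhds hu.1 hu.2)⟩, ?_⟩
  have key := norm_image_sub_le_of_norm_deriv_right_le_segment
    (f := fun t => y t - (t - c) • A c y0) (f' := fun t => A t (y t) - A c y0)
    (C := θ * (3 * B) + L * (L * (3 * B) * h)) (a := c) (b := c + h)
    (hcont.sub (by fun_prop))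
    (fun t ht => (hr t ht).sub (by
      simpa using (((hasDerivAt_id t).sub_const c).smul_const (A c y0)).hasDerivWithinAt))
    (fun t ht => by
      have ht' := Ico_subset_Icc_self ht
      have e : A t (y t) - A c y0 = (A t - A c) (y t) + A c (y t - y0) := by
        simp only [ContinuousLinearMap.sub_apply, map_sub]; abel
      rw [e]
      refine (norm_add_le _ _).trans (add_le_add ?_ ?_)
      · exact (ContinuousLinearMap.le_opNorm _ _).trans (mul_le_mul (hθ t ht') (hb t ht')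
          (norm_nonneg _) ((norm_nonneg _).trans (hθ t ht')))
      · exact (ContinuousLinearMap.le_opNorm _ _).trans (mul_le_mul (hL c hc) (hd t ht')
          (norm_nonneg _) hL0))
    (c + h) ⟨by linarith, le_rfl⟩
  simp only [add_sub_cancel_left, sub_self, zero_smul, sub_zero, hy1] at key
  convert key using 2
  abel

end

section
variable {E : Type*} [NormedAddCommGroup E] [InnerProductSpace ℝ E]

lemma mvt_choice (g : E → E) (G : E → E →L[ℝ] E) (hg : ∀ y, HasFDerivAt g (G y) y) (h0 : g 0 = 0)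
    (e x : E) : ∃ σ ∈ Icc (0 : ℝ) 1, inner ℝ e (G (σ • x) x) = inner ℝ e (g x) := by
  have hd : ∀ σ : ℝ, HasDerivAt (fun σ : ℝ => inner ℝ e (g (σ • x))) (inner ℝ e (G (σ • x) x)) σ := by
    intro σ
    have h1 : HasDerivAt (fun σ : ℝ => σ • x) x σ := by
      simpa using (hasDerivAt_id σ).smul_const x
    have h2 : HasDerivAt (fun σ : ℝ => g (σ • x)) (G (σ • x) x) σ :=
      (hg (σ • x)).comp_hasDerivAt σ h1
    simpa using (hasDerivAt_const σ e).inner ℝ h2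
  obtain ⟨σ, hσ, h⟩ := exists_hasDerivAt_eq_slope (fun σ : ℝ => inner ℝ e (g (σ • x)))
    (fun σ => inner ℝ e (G (σ • x) x)) (zero_lt_one' ℝ)
    (fun σ _ => (hd σ).continuousAt.continuousWithinAt) (fun σ _ => hd σ)
  refine ⟨σ, Ioo_subset_Icc_self hσ, ?_⟩
  simpa [h0] using h

lemma err_step (e v r : E) (h L V η : ℝ) (hh : 0 < h) (hh1 : h ≤ 1) (hL : 0 ≤ L)
    (h1 : inner ℝ e v ≤ L * ‖e‖ ^ 2) (h2 : ‖v‖ ≤ V) (h3 : ‖r‖ ≤ η * h) :
    ‖e + h • v + r‖ ^ 2 ≤ (1 + h * (4 * L + 1)) * ‖e‖ ^ 2 + h * (2 * h * V ^ 2 + 2 * η ^ 2) := by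
  have a1 : ‖e + h • v‖ ^ 2 ≤ (1 + 2 * h * L) * ‖e‖ ^ 2 + h ^ 2 * V ^ 2 := by
    rw [norm_add_sq_real, inner_smul_right, norm_smul, Real.norm_of_nonneg hh.le, mul_pow]
    have : ‖v‖ ^ 2 ≤ V ^ 2 := pow_le_pow_left₀ (norm_nonneg _) h2 2
    nlinarith [mul_le_mul_of_nonneg_left h1 hh.le, mul_le_mul_of_nonneg_left this (sq_nonneg h)]
  have a2 : ‖e + h • v + r‖ ≤ ‖e + h • v‖ + η * h := (norm_add_le _ _).trans (by linarith)
  obtain ⟨p, hp⟩ : ∃ p, p = ‖e + h • v‖ := ⟨_, rfl⟩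
  rw [← hp] at a1 a2
  have a3 : ‖e + h • v + r‖ ^ 2 ≤ (p + η * h) ^ 2 := pow_le_pow_left₀ (norm_nonneg _) a2 2
  have a4 : (p + η * h) ^ 2 ≤ (1 + h) * p ^ 2 + (h + 1) * h * η ^ 2 := by
    nlinarith [mul_nonneg hh.le (sq_nonneg (p - η))]
  have a5 : (1 + h) * p ^ 2 ≤ (1 + h) * ((1 + 2 * h * L) * ‖e‖ ^ 2 + h ^ 2 * V ^ 2) :=
    mul_le_mul_of_nonneg_left a1 (by linarith)
  have b1 : h * (h * L * ‖e‖ ^ 2) ≤ h * L * ‖e‖ ^ 2 := mul_le_of_le_one_left (by positivity) hh1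
  have b2 : h * (h ^ 2 * V ^ 2) ≤ h ^ 2 * V ^ 2 := mul_le_of_le_one_left (by positivity) hh1
  have b3 : h * (h * η ^ 2) ≤ h * η ^ 2 := mul_le_of_le_one_left (by positivity) hh1
  nlinarith

end

end Pool.Agent.H1.MY
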