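import Mathlib
import Pool.Agent.H1.MYA

open Set Filter Topology Metric

namespace Pool.Agent.H1.MY

variable {E : Type*} [NormedAddCommGroup E] [InnerProductSpace ℝ E] [FiniteDimensional ℝ E]

def Piece (f : ℝ → E → E) (a b : ℝ) (x : ℝ → E) : Prop :=
  ContinuousOn x (Icc a b) ∧ ∀ t ∈ Ico a b, HasDerivWithinAt x (f t (x t)) (Ici t) t

lemma shadow (f : ℝ → E → E) (J : ℝ → E → E →L[ℝ] E)
    (hf : ContinuousOn (fun p : ℝ × E => f p.1 p.2) (Ici 0 ×ˢ univ))
    (hJ : ContinuousOn (fun p : ℝ × E => J p.1 p.2) (Ici 0 ×ˢ univ))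
    (hd : ∀ t, 0 ≤ t → ∀ y, HasFDerivAt (f t) (J t y) y) (h0 : ∀ t, 0 ≤ t → f t 0 = 0)
    (a b : ℝ) (ha : 0 ≤ a) (hab : a < b) (x : ℝ → E) (hx : Piece f a b x) (ρ : ℝ) (hρ : 0 < ρ) :
    ∃ w y : ℝ → E, Step w ∧ LinSol (fun t => J t (w t)) a b y ∧ y a = x a ∧ ‖y b - x b‖ ≤ ρ := by
  have : ProperSpace E := FiniteDimensional.proper ℝ E
  obtain ⟨R, hR⟩ := isCompact_Icc.exists_bound_of_continuousOn hx.1
  have hR0 : 0 ≤ R := (norm_nonneg _).trans (hR a ⟨le_rfl, hab.le⟩)
  have hK : IsCompact (Icc a b ×ˢ closedBall (0 : E) R) := isCompact_Icc.prod (isCompact_closedBall _ _)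
  have hKs : Icc a b ×ˢ closedBall (0 : E) R ⊆ Ici 0 ×ˢ univ :=
    prod_mono (fun t ht => ha.trans ht.1) (subset_univ _)
  obtain ⟨L, hL⟩ := hK.exists_bound_of_continuousOn (hJ.mono hKs)
  have hL0 : 0 ≤ L := (norm_nonneg _).trans (hL (a, 0) ⟨⟨le_rfl, hab.le⟩, mem_closedBall_self hR0⟩)
  have hg : ContinuousOn (fun t => f t (x t)) (Icc a b) :=
    hf.comp (continuousOn_id.prodMk hx.1) (fun t ht => ⟨ha.trans ht.1, mem_univ _⟩)
  obtain ⟨F, hF⟩ := isCompact_Icc.exists_bound_of_continuousOn hg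
  obtain ⟨B, hB⟩ : ∃ B, B = R + 1 := ⟨_, rfl⟩
  have hB0 : 0 ≤ B := by linarith
  obtain ⟨V, hV⟩ : ∃ V, V = L * B + F := ⟨_, rfl⟩
  obtain ⟨Λ, hΛ⟩ : ∃ Λ, Λ = 4 * L + 1 := ⟨_, rfl⟩
  have hΛ0 : 0 ≤ Λ := by linarith
  obtain ⟨C, hC⟩ : ∃ C, C = 3 * B + L * (L * (3 * B)) + 1 := ⟨_, rfl⟩
  obtain ⟨κ, hκ0, hκ⟩ : ∃ κ : ℝ, 0 < κ ∧ κ * (b - a) * Real.exp (Λ * (b - a)) ≤ min (ρ ^ 2) 1 := by
    have : 0 < (b - a) * Real.exp (Λ * (b - a)) := mul_pos (by linarith) (Real.exp_pos _)
    refine ⟨min (ρ ^ 2) 1 / ((b - a) * Real.exp (Λ * (b - a))), by positivity, le_of_eq ?_⟩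
    rw [mul_assoc, div_mul_cancel₀ _ this.ne']
  obtain ⟨θ, hθ0, hθ1, hθ⟩ : ∃ θ : ℝ, 0 < θ ∧ θ ≤ 1 ∧ θ * (2 * V ^ 2 + 2 * C ^ 2) ≤ κ := by
    refine ⟨min 1 (κ / (2 * V ^ 2 + 2 * C ^ 2 + 1)), by positivity, min_le_left _ _, ?_⟩
    have h1 : min 1 (κ / (2 * V ^ 2 + 2 * C ^ 2 + 1)) ≤ κ / (2 * V ^ 2 + 2 * C ^ 2 + 1) :=
      min_le_right _ _
    rw [le_div_iff₀ (by positivity)] at h1
    have : 0 ≤ min 1 (κ / (2 * V ^ 2 + 2 * C ^ 2 + 1)) := by positivity
    nlinarith
  obtain ⟨δ1, hδ1, u1⟩ := Metric.uniformContinuousOn_iff_le.1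
    (hK.uniformContinuousOn_of_continuous (hJ.mono hKs)) θ hθ0
  obtain ⟨δ2, hδ2, u2⟩ := Metric.uniformContinuousOn_iff_le.1
    (isCompact_Icc.uniformContinuousOn_of_continuous hg) θ hθ0
  obtain ⟨N, hN0, hN⟩ : ∃ N : ℕ, 0 < N ∧
      (b - a) / N ≤ min (min δ1 δ2) (min θ (1 / (L * (B + 1) + 1))) := by
    have hm : 0 < min (min δ1 δ2) (min θ (1 / (L * (B + 1) + 1))) := by positivity
    obtain ⟨N, hN⟩ := exists_nat_gt ((b - a) / min (min δ1 δ2) (min θ (1 / (L * (B + 1) + 1))))
    have h1 : (0 : ℝ) < N := lt_trans (div_pos (by linarith) hm) hN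
    refine ⟨N, by exact_mod_cast h1, ?_⟩
    rw [div_lt_iff₀ hm] at hN
    rw [div_le_iff₀ h1]; linarith
  obtain ⟨h, hh⟩ : ∃ h, h = (b - a) / N := ⟨_, rfl⟩
  have hNr : (0 : ℝ) < N := by exact_mod_cast hN0
  have hh0 : 0 < h := by rw [hh]; exact div_pos (by linarith) hNr
  have hNh : N * h = b - a := by rw [hh]; field_simp
  rw [← hh] at hN
  simp only [le_min_iff] at hN
  obtain ⟨⟨n1, n2⟩, n3, n4⟩ := hN
  have n5 : L * (B + 1) * h ≤ 1 := by
    rw [le_div_iff₀ (by positivity)] at n4; nlinarith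
  have main : ∀ i : ℕ, i ≤ N → ∃ w y : ℝ → E, Step w ∧ LinSol (fun t => J t (w t)) a (a + i * h) y ∧
      y a = x a ∧ ‖y (a + i * h) - x (a + i * h)‖ ^ 2 ≤ κ * (i * h) * Real.exp (Λ * (i * h)) := by
    intro i
    induction i with
    | zero =>
      intro _
      refine ⟨fun _ => 0, fun _ => x a, step_const 0, ⟨continuousOn_const, ∅, finite_empty, ?_⟩, rfl, ?_⟩
      · intro u hu; simp at hu
      · simp
    | succ i ih =>
      intro hi
      obtain ⟨w, y, s1, s2, s3, s4⟩ := ih (by omega)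
      obtain ⟨c, hc⟩ : ∃ c, c = a + i * h := ⟨_, rfl⟩
      have hih : 0 ≤ (i : ℝ) * h := by positivity
      have hi' : ((i : ℝ) + 1) * h ≤ b - a := by
        rw [← hNh]; exact mul_le_mul_of_nonneg_right (by exact_mod_cast hi) hh0.le
      have hac : a ≤ c := by linarith
      have hcb : c + h ≤ b := by linarith
      have e1 : a + ((i + 1 : ℕ) : ℝ) * h = c + h := by push_cast; linarith
      rw [← hc] at s2 s4
      rw [e1]
      have sub : Icc c (c + h) ⊆ Icc a b := Icc_subset_Icc hac hcb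
      have hcm : c ∈ Icc a b := sub ⟨le_rfl, by linarith⟩
      have hsm : κ * (i * h) * Real.exp (Λ * (i * h)) ≤ 1 := by
        refine le_trans ?_ (hκ.trans (min_le_right _ _))
        have : (i : ℝ) * h ≤ b - a := by linarith
        gcongr
      have he1 : ‖y c - x c‖ ≤ 1 := by
        have := s4.trans hsm
        nlinarith [norm_nonneg (y c - x c)]
      have hyB : ‖y c‖ ≤ B := by
        have h1 := norm_add_le (y c - x c) (x c)
        rw [sub_add_cancel] at h1
        linarith [hR c hcm]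
      obtain ⟨σ, hσ, hσe⟩ := mvt_choice (f c) (J c) (hd c (ha.trans hac)) (h0 c (ha.trans hac))
        (y c - x c) (x c)
      obtain ⟨z, hz⟩ : ∃ z, z = σ • x c := ⟨_, rfl⟩
      rw [← hz] at hσe
      have hzR : z ∈ closedBall (0 : E) R := by
        rw [mem_closedBall_zero_iff, hz, norm_smul, Real.norm_of_nonneg hσ.1]
        exact (mul_le_of_le_one_left (norm_nonneg _) hσ.2).trans (hR c hcm)
      obtain ⟨y2, t1, t2, t3⟩ := one_step (fun t => J t z) c h L B θ (y c)
        (hJ.comp (continuousOn_id.prodMk continuousOn_const)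
          (fun t ht => ⟨ha.trans (sub ht).1, mem_univ _⟩))
        (fun t ht => hL (t, z) ⟨sub ht, hzR⟩)
        (fun t ht => by
          have := u1 (t, z) ⟨sub ht, hzR⟩ (c, z) ⟨hcm, hzR⟩ (by
            rw [Prod.dist_eq, dist_self, Real.dist_eq, abs_of_nonneg (by linarith [ht.1])]
            exact max_le (by linarith [ht.2]) hδ1.le)
          rwa [dist_eq_norm] at this)
        hyB hh0 n5
      have g1 := linSol_glue (A := fun t => J t (glue c w (fun _ => z) t)) hac (by linarith : c ≤ c + h)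
        (linSol_congr s2 (fun u hu => by simp only [glue, if_pos hu.2]))
        (linSol_congr t2 (fun u hu => by simp only [glue, if_neg (not_lt.2 hu.1.le)])) t1.symm
      refine ⟨glue c w (fun _ => z), glue c y y2, step_glue c s1 (step_const z), g1.1,
        g1.2.1.trans s3, ?_⟩
      rw [g1.2.2]
      have kx := norm_image_sub_le_of_norm_deriv_right_le_segment
        (f := fun t => x t - (t - c) • f c (x c)) (f' := fun t => f t (x t) - f c (x c))
        (C := θ) (a := c) (b := c + h) ((hx.1.mono sub).sub (by fun_prop))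
        (fun t ht => (hx.2 t ⟨hac.trans ht.1, ht.2.trans_le hcb⟩).sub (by
          simpa using (((hasDerivAt_id t).sub_const c).smul_const (f c (x c))).hasDerivWithinAt))
        (fun t ht => by
          have := u2 t (sub (Ico_subset_Icc_self ht)) c hcm (by
            rw [Real.dist_eq, abs_of_nonneg (by linarith [ht.1])]; linarith [ht.2])
          rwa [dist_eq_norm] at this)
        (c + h) ⟨by linarith, le_rfl⟩
      simp only [add_sub_cancel_left, sub_self, zero_smul, sub_zero] at kx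
      have hLc : ‖J c z‖ ≤ L := hL (c, z) ⟨hcm, hzR⟩
      have es := err_step (y c - x c) (J c z (y c) - f c (x c))
        ((y2 (c + h) - y c - h • J c z (y c)) - (x (c + h) - h • f c (x c) - x c)) h L V (θ * C)
        hh0 (n3.trans hθ1) hL0
        (by
          have e : J c z (y c) - f c (x c) = J c z (y c - x c) + (J c z (x c) - f c (x c)) := by
            rw [map_sub]; abel
          rw [e, inner_add_right, inner_sub_right (y c - x c) (J c z (x c)), hσe, sub_self, add_zero]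
          refine (real_inner_le_norm _ _).trans ?_
          have := ((J c z).le_opNorm (y c - x c)).trans
            (mul_le_mul_of_nonneg_right hLc (norm_nonneg _))
          nlinarith [norm_nonneg (y c - x c)])
        (by
          refine (norm_sub_le _ _).trans ?_
          rw [hV]
          exact add_le_add (((J c z).le_opNorm _).trans (mul_le_mul hLc hyB (norm_nonneg _) hL0))
            (hF c hcm))
        (by
          refine (norm_sub_le _ _).trans ((add_le_add t3 kx).trans ?_)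
          have : L * (L * (3 * B) * h) ≤ L * (L * (3 * B) * θ) := by gcongr
          rw [hC]; nlinarith)
      have e2 : y c - x c + h • (J c z (y c) - f c (x c)) +
          ((y2 (c + h) - y c - h • J c z (y c)) - (x (c + h) - h • f c (x c) - x c)) =
          y2 (c + h) - x (c + h) := by rw [smul_sub]; abel
      rw [e2, ← hΛ] at es
      refine es.trans ?_
      have k1 : 2 * h * V ^ 2 + 2 * (θ * C) ^ 2 ≤ κ := by
        have a1 : h * V ^ 2 ≤ θ * V ^ 2 := by gcongr
        have a2 : θ * (θ * C ^ 2) ≤ θ * C ^ 2 := mul_le_of_le_one_left (by positivity) hθ1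
        nlinarith
      have k2 : 1 + h * Λ ≤ Real.exp (Λ * h) := by linarith [Real.add_one_le_exp (Λ * h)]
      have k3 : Real.exp (Λ * (((i + 1 : ℕ) : ℝ) * h)) = Real.exp (Λ * h) * Real.exp (Λ * (i * h)) := by
        rw [← Real.exp_add]; congr 1; push_cast; ring
      have k4 : 1 ≤ Real.exp (Λ * h) * Real.exp (Λ * (i * h)) :=
        one_le_mul_of_one_le_of_one_le (Real.one_le_exp (by positivity)) (Real.one_le_exp (by positivity))
      rw [k3]
      calc _ ≤ Real.exp (Λ * h) * (κ * (i * h) * Real.exp (Λ * (i * h))) + h * κ := by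
            refine add_le_add (mul_le_mul k2 s4 (by positivity) (by positivity)) (by gcongr)
        _ ≤ Real.exp (Λ * h) * (κ * (i * h) * Real.exp (Λ * (i * h))) +
              h * κ * (Real.exp (Λ * h) * Real.exp (Λ * (i * h))) := by
            have : 0 ≤ h * κ := by positivity
            nlinarith
        _ = _ := by push_cast; ring
  obtain ⟨w, y, s1, s2, s3, s4⟩ := main N le_rfl
  have e : a + N * h = b := by linarith
  rw [e] at s2 s4
  rw [hNh] at s4
  refine ⟨w, y, s1, s2, s3, ?_⟩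
  have := s4.trans (hκ.trans (min_le_left _ _))
  exact (abs_le_of_sq_le_sq' this hρ.le).2

end Pool.Agent.H1.MY
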