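import Mathlib
import Pool.Agent.H1.MYB

open Set Filter Topology Metric

namespace Pool.Agent.H1.MY

variable {E : Type*} [NormedAddCommGroup E] [InnerProductSpace ℝ E] [FiniteDimensional ℝ E]

omit [InnerProductSpace ℝ E] [FiniteDimensional ℝ E] in
lemma glue_all (s : ℕ → ℝ) (hs : ∀ k, s k + 1 ≤ s (k + 1)) (w : ℕ → ℝ → E) (hw : ∀ k, Step (w k)) :
    ∃ ω : ℝ → E, PwCont ω ∧ ∀ k, ∀ u ∈ Ioo (s k) (s (k + 1)), ω u = w k u := by
  have mono : Monotone s := monotone_nat_of_le_succ fun k => by linarith [hs k]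
  have big : ∀ k : ℕ, s 0 + k ≤ s k := by
    intro k
    induction k with
    | zero => simp
    | succ k ih => push_cast; linarith [hs k]
  obtain ⟨W, hW0, hW⟩ : ∃ W : ℕ → ℝ → E, W 0 = w 0 ∧ ∀ k, W (k + 1) = glue (s (k + 1)) (W k) (w (k + 1)) :=
    ⟨fun k => Nat.rec (w 0) (fun k Wk => glue (s (k + 1)) Wk (w (k + 1))) k, rfl, fun _ => rfl⟩
  have st : ∀ k, Step (W k) := by
    intro k
    induction k with
    | zero => rw [hW0]; exact hw 0
    | succ k ih => rw [hW]; exact step_glue _ ih (hw _)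
  have stab : ∀ k j, k ≤ j → ∀ u, u < s (k + 1) → W j u = W k u := by
    intro k j hkj u hu
    induction j, hkj using Nat.le_induction with
    | base => rfl
    | succ j hj ih =>
      rw [hW, glue, if_pos (hu.trans_le (mono (by omega))), ih]
  have ex : ∀ u : ℝ, ∃ k, u < s (k + 1) := by
    intro u
    obtain ⟨k, hk⟩ := exists_nat_gt (u - s 0)
    exact ⟨k, by linarith [big k, hs k]⟩
  choose κ hκ using ex
  have om : ∀ k u, u < s (k + 1) → W (κ u) u = W k u := by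
    intro k u hu
    rw [← stab (κ u) (max k (κ u)) (le_max_right _ _) u (hκ u),
      stab k (max k (κ u)) (le_max_left _ _) u hu]
  choose D hD1 hD2 hD3 using st
  have loc : ∀ t : ℝ, ∀ᶠ u in 𝓝 t, W (κ u) u = W (κ t) u := fun t => by
    filter_upwards [Iio_mem_nhds (hκ t)] with u hu using om _ u hu
  refine ⟨fun u => W (κ u) u, ⟨{t | ∀ k, t < s (k + 1) → t ∈ D k}, fun b => ?_, fun t _ ht => ?_,
    fun t _ _ => ⟨?_, fun _ => ?_⟩⟩, fun k u hu => ?_⟩
  · exact (hD1 (κ b)).subset fun t ht => ht.1 _ (ht.2.2.trans_lt (hκ b))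
  · simp only [mem_setOf_eq, not_forall] at ht
    obtain ⟨k, hk, hk'⟩ := ht
    refine ContinuousAt.continuousWithinAt ?_
    refine (continuousAt_const (y := W k t)).congr ?_
    filter_upwards [hD2 k t hk', Iio_mem_nhds hk] with u h1 h2
    rw [om k u h2, h1]
  · obtain ⟨l, hl⟩ := (hD3 (κ t) t).1
    refine ⟨l, tendsto_const_nhds.congr' ?_⟩
    filter_upwards [hl, mem_nhdsWithin_of_mem_nhds (loc t)] with u h1 h2
    rw [h2, h1]
  · obtain ⟨l, hl⟩ := (hD3 (κ t) t).2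
    refine ⟨l, tendsto_const_nhds.congr' ?_⟩
    filter_upwards [hl, mem_nhdsWithin_of_mem_nhds (loc t)] with u h1 h2
    rw [h2, h1]
  · beta_reduce
    rw [om k u hu.2]
    cases k with
    | zero => rw [hW0]
    | succ k => rw [hW, glue, if_neg (not_lt.2 hu.1.le)]

lemma contra (f : ℝ → E → E) (J : ℝ → E → E →L[ℝ] E)
    (hf : ContinuousOn (fun p : ℝ × E => f p.1 p.2) (Ici 0 ×ˢ univ))
    (hJ : ContinuousOn (fun p : ℝ × E => J p.1 p.2) (Ici 0 ×ˢ univ))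
    (hd : ∀ t, 0 ≤ t → ∀ y, HasFDerivAt (f t) (J t y) y) (h0 : ∀ t, 0 ≤ t → f t 0 = 0)
    (h3 : ∀ w : ℝ → E, PwCont w → NUStable (fun t => J t (w t)))
    (t₀ η : ℝ) (ht₀ : 0 ≤ t₀) (hη : 0 < η)
    (H : ∀ s, t₀ ≤ s → ∀ k : ℕ, ∃ τ, s + 1 ≤ τ ∧ ∃ x, Piece f s τ x ∧ η ≤ ‖x τ‖ ∧
      k * Real.exp (-(1 / (k + 1)) * (τ - s) + k * s) * ‖x s‖ ≤ η / 4) : False := by
  have H2 : ∀ (s : Ici t₀) (k : ℕ), ∃ τ : Ici t₀, s.1 + 1 ≤ τ.1 ∧ ∃ w y : ℝ → E, Step w ∧
      LinSol (fun t => J t (w t)) s.1 τ.1 y ∧ η / 2 ≤ ‖y τ.1‖ ∧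
      k * Real.exp (-(1 / (k + 1)) * (τ.1 - s.1) + k * s.1) * ‖y s.1‖ ≤ η / 4 := by
    rintro ⟨s, hs⟩ k
    obtain ⟨τ, h1, x, h2, h4, h5⟩ := H s hs k
    obtain ⟨w, y, a1, a2, a3, a4⟩ := shadow f J hf hJ hd h0 s τ (ht₀.trans hs) (by linarith) x h2
      (η / 2) (by positivity)
    refine ⟨⟨τ, by have : t₀ ≤ s := hs; simp only [mem_Ici]; linarith⟩, h1, w, y, a1, a2, ?_, ?_⟩
    · have := norm_sub_norm_le (x τ) (y τ)
      rw [norm_sub_rev] at this
      simp only; linarith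
    · simp only; rw [a3]; exact h5
  choose T hT w y p1 p2 p3 p4 using H2
  obtain ⟨S, hS⟩ : ∃ S : ℕ → Ici t₀, ∀ k, S (k + 1) = T (S k) k :=
    ⟨fun k => Nat.rec ⟨t₀, self_mem_Ici⟩ (fun k Sk => T Sk k) k, fun _ => rfl⟩
  obtain ⟨ω, hω, hω'⟩ := glue_all (fun k => (S k).1) (fun k => by simp only [hS]; exact hT _ _)
    (fun k => w (S k) k) (fun k => p1 _ _)
  obtain ⟨K, γ, ε, hK, hε, hγ, hb⟩ := h3 ω hω
  obtain ⟨k, hk⟩ := exists_nat_ge (max (max K ε) (1 / γ))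
  simp only [max_le_iff] at hk
  have hγ0 : 0 < γ := by linarith
  have hs0 : 0 ≤ (S k).1 := ht₀.trans (S k).2
  have hlt := hT (S k) k
  have := hb (S k).1 (T (S k) k).1 hs0 (by linarith) (y (S k) k)
    (linSol_congr (p2 (S k) k) (fun u hu => by rw [hω' k u (by simpa only [hS] using hu)]))
  have h1 : 1 / ((k : ℝ) + 1) ≤ γ := by
    have := hk.2
    rw [div_le_iff₀ hγ0] at this
    rw [div_le_iff₀ (by positivity)]; nlinarith
  have h2 : K * Real.exp (-γ * ((T (S k) k).1 - (S k).1) + ε * (S k).1) * ‖y (S k) k (S k).1‖ ≤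
      k * Real.exp (-(1 / (k + 1)) * ((T (S k) k).1 - (S k).1) + k * (S k).1) * ‖y (S k) k (S k).1‖ := by
    refine mul_le_mul_of_nonneg_right (mul_le_mul hk.1.1 (Real.exp_le_exp.2 ?_) (by positivity)
      (by positivity)) (norm_nonneg _)
    have a1 := mul_le_mul_of_nonneg_right h1 (show 0 ≤ (T (S k) k).1 - (S k).1 by linarith)
    have a2 := mul_le_mul_of_nonneg_right hk.1.2 hs0
    linarith
  linarith [p3 (S k) k, p4 (S k) k]

omit [FiniteDimensional ℝ E] in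
lemma IsSol.piece {f : ℝ → E → E} {t₀ a b : ℝ} {x : ℝ → E} (hx : IsSol f t₀ x) (ha : t₀ ≤ a) :
    Piece f a b x :=
  ⟨fun t ht => ((hx t (ha.trans ht.1)).continuousWithinAt).mono fun _ hu => ha.trans hu.1,
    fun t ht => (hx t (ha.trans ht.1)).mono fun _ hu => (ha.trans ht.1).trans hu⟩

theorem main (f : ℝ → E → E) (J : ℝ → E → E →L[ℝ] E)
    (hf : ContinuousOn (fun p : ℝ × E => f p.1 p.2) (Ici 0 ×ˢ univ))
    (hJ : ContinuousOn (fun p : ℝ × E => J p.1 p.2) (Ici 0 ×ˢ univ))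
    (hd : ∀ t, 0 ≤ t → ∀ y, HasFDerivAt (f t) (J t y) y) (h0 : ∀ t, 0 ≤ t → f t 0 = 0)
    (h3 : ∀ w : ℝ → E, PwCont w → NUStable (fun t => J t (w t))) (t₀ : ℝ) (ht₀ : 0 ≤ t₀) :
    (∀ η : ℝ, 0 < η → ∃ δ : ℝ, 0 < δ ∧
      ∀ x : ℝ → E, IsSol f t₀ x → ‖x t₀‖ < δ → ∀ t, t₀ ≤ t → ‖x t‖ < η) ∧
    ∀ x : ℝ → E, IsSol f t₀ x → Tendsto x atTop (𝓝 0) := by
  have : ProperSpace E := FiniteDimensional.proper ℝ E
  constructor
  · intro η hη
    by_contra hcon
    push Not at hcon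
    refine contra f J hf hJ hd h0 h3 t₀ η ht₀ hη fun s hs k => ?_
    have hK : IsCompact (Icc t₀ (s + 1) ×ˢ closedBall (0 : E) η) :=
      isCompact_Icc.prod (isCompact_closedBall _ _)
    obtain ⟨L, hL⟩ := hK.exists_bound_of_continuousOn
      (hJ.mono (prod_mono (fun t ht => ht₀.trans ht.1) (subset_univ _)))
    have hL0 : 0 ≤ L := (norm_nonneg _).trans
      (hL (t₀, 0) ⟨⟨le_rfl, by linarith⟩, mem_closedBall_self hη.le⟩)
    have lip : ∀ t ∈ Icc t₀ (s + 1), ∀ z ∈ closedBall (0 : E) η, ‖f t z‖ ≤ L * ‖z‖ := by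
      intro t ht z hz
      have := (convex_closedBall (0 : E) η).norm_image_sub_le_of_norm_hasFDerivWithin_le
        (f := f t) (f' := J t) (C := L) (fun y _ => (hd t (ht₀.trans ht.1) y).hasFDerivWithinAt)
        (fun y hy => hL (t, y) ⟨ht, hy⟩) (mem_closedBall_self hη.le) hz
      simpa [h0 t (ht₀.trans ht.1)] using this
    obtain ⟨G, hG⟩ : ∃ G, G = Real.exp (L * (s + 1 - t₀)) := ⟨_, rfl⟩
    have hG1 : 1 ≤ G := by rw [hG]; exact Real.one_le_exp (mul_nonneg hL0 (by linarith))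
    obtain ⟨M, hM⟩ : ∃ M, M = k * Real.exp (k * s) + 1 := ⟨_, rfl⟩
    have hM1 : 1 ≤ M := by rw [hM]; have : 0 ≤ k * Real.exp (k * s) := by positivity
                           linarith
    obtain ⟨x, hx, hx0, t1, ht1, hx1⟩ := hcon (η / 4 / M / G) (by positivity)
    have hcx : ContinuousOn x (Ici t₀) := fun t ht => (hx t ht).continuousWithinAt
    have hcl : IsClosed (Ici t₀ ∩ (fun t => ‖x t‖) ⁻¹' Ici η) :=
      (continuous_norm.comp_continuousOn hcx).preimage_isClosed_of_isClosed isClosed_Ici isClosed_Ici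
    have hne : (Ici t₀ ∩ (fun t => ‖x t‖) ⁻¹' Ici η).Nonempty := ⟨t1, ht1, hx1⟩
    have hbd : BddBelow (Ici t₀ ∩ (fun t => ‖x t‖) ⁻¹' Ici η) := ⟨t₀, fun _ h => h.1⟩
    have hmem := hcl.csInf_mem hne hbd
    obtain ⟨τ, hτ⟩ : ∃ τ, τ = sInf (Ici t₀ ∩ (fun t => ‖x t‖) ⁻¹' Ici η) := ⟨_, rfl⟩
    rw [← hτ] at hmem
    have hlow : ∀ t, t₀ ≤ t → t < τ → ‖x t‖ ≤ η := by
      intro t h1 h2
      by_contra h
      have := csInf_le hbd (show t ∈ _ from ⟨h1, (not_le.1 h).le⟩)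
      linarith
    have gr : ∀ t, t₀ ≤ t → t ≤ τ → t ≤ s + 1 → ‖x t‖ ≤ η / 4 / M := by
      intro t h1 h2 h4
      have := norm_le_gronwallBound_of_norm_deriv_right_le (δ := η / 4 / M / G) (K := L) (ε := 0)
        (hx.piece (b := t) le_rfl).1 (hx.piece (b := t) le_rfl).2 hx0.le
        (fun u hu => by
          rw [add_zero]
          exact lip u ⟨hu.1, by linarith [hu.2]⟩ _
            (mem_closedBall_zero_iff.2 (hlow u hu.1 (by linarith [hu.2])))) t ⟨h1, le_rfl⟩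
      rw [gronwallBound_ε0] at this
      have h5 : Real.exp (L * (t - t₀)) ≤ G := by
        rw [hG]; exact Real.exp_le_exp.2 (mul_le_mul_of_nonneg_left (by linarith) hL0)
      calc _ ≤ _ := this
        _ ≤ η / 4 / M / G * G := by gcongr
        _ = _ := by field_simp
    have hq : η / 4 / M ≤ η / 4 := div_le_self (by positivity) hM1
    have hτs : s + 1 ≤ τ := by
      by_contra h
      have h1 := gr τ hmem.1 le_rfl (not_le.1 h).le
      have h2 : η ≤ ‖x τ‖ := hmem.2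
      linarith
    refine ⟨τ, hτs, x, hx.piece hs, hmem.2, ?_⟩
    have h1 := gr s hs (by linarith) (by linarith)
    have h2 : k * Real.exp (-(1 / (k + 1)) * (τ - s) + k * s) ≤ M := by
      have : Real.exp (-(1 / (k + 1)) * (τ - s) + k * s) ≤ Real.exp (k * s) := by
        refine Real.exp_le_exp.2 ?_
        have : 0 ≤ 1 / ((k : ℝ) + 1) * (τ - s) := mul_nonneg (by positivity) (by linarith)
        linarith
      have := mul_le_mul_of_nonneg_left this (Nat.cast_nonneg k)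
      linarith
    calc _ ≤ M * (η / 4 / M) := mul_le_mul h2 h1 (norm_nonneg _) (by linarith)
      _ = _ := by field_simp
  · intro x hx
    by_contra hcon
    rw [Metric.tendsto_nhds] at hcon
    push Not at hcon
    obtain ⟨η, hη, hfr⟩ := hcon
    refine contra f J hf hJ hd h0 h3 t₀ η ht₀ hη fun s hs k => ?_
    have hlim : Tendsto (fun τ : ℝ => k * Real.exp (-(1 / (k + 1)) * (τ - s) + k * s) * ‖x s‖)
        atTop (𝓝 (k * 0 * ‖x s‖)) := by
      refine (Tendsto.const_mul _ (Real.tendsto_exp_atBot.comp ?_)).mul_const _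
      refine tendsto_atBot_add_const_right _ _ ?_
      exact Tendsto.const_mul_atTop_of_neg (neg_lt_zero.2 (by positivity))
        (tendsto_atTop_add_const_right _ (-s) tendsto_id)
    rw [mul_zero, zero_mul] at hlim
    have h1 := hlim.eventually (ge_mem_nhds (show (0 : ℝ) < η / 4 by positivity))
    obtain ⟨τ, a1, a2, a3⟩ := (hfr.and_eventually (h1.and (eventually_ge_atTop (s + 1)))).exists
    exact ⟨τ, a3, x, hx.piece hs, by simpa using a1, a2⟩

end Pool.Agent.H1.MY
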