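import Pool.Agent.H1.MorA

open Complex Metric Set Filter InnerProductSpace
open scoped Topology ComplexConjugate

namespace Pool.Agent.H1.Mar

lemma minp {C U : Set ℂ} (hC : IsCompact C) (hU : IsOpen U) (hUC : U ⊆ C)
    (hC1 : C ⊆ closedBall 0 1) {W : ℂ → ℝ} (hW : ContinuousOn W C) (hH : HarmonicOnNhd W U)
    {m : ℝ} (hm : ∀ z ∈ C, z ∉ U → m ≤ W z) : ∀ z ∈ C, m ≤ W z := by
  intro z hz
  refine le_of_forall_pos_le_add fun η hη => ?_
  have hc : ContinuousOn (fun ζ : ℂ => W ζ - η * ‖ζ - 0‖ ^ 2) C := hW.sub (by fun_prop)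
  obtain ⟨y, hy, hmin⟩ := hC.exists_isMinOn ⟨z, hz⟩ hc
  have hyU : y ∉ U := by
    intro hyU
    obtain ⟨r, hr, hrU⟩ := nhds_basis_closedBall.mem_iff.1 (hU.mem_nhds hyU)
    have hr' : |r| = r := abs_of_pos hr
    have h1 : Real.circleAverage W y r = W y :=
      InnerProductSpace.HarmonicOnNhd.circleAverage_eq (hH.mono (by rwa [hr']))
    have hs : sphere y |r| ⊆ C := by rw [hr']; exact sphere_subset_closedBall.trans (hrU.trans hUC)
    have h2 : Real.circleAverage (fun ζ : ℂ => η * ‖ζ - 0‖ ^ 2 - W ζ) y r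
        ≤ η * ‖y - 0‖ ^ 2 - W y := by
      apply Real.circleAverage_mono_on_of_le_circle
      · exact (ContinuousOn.sub (by fun_prop) (hW.mono hs)).circleIntegrable'
      · intro x hx
        have : W y - η * ‖y - 0‖ ^ 2 ≤ W x - η * ‖x - 0‖ ^ 2 := hmin (hs hx)
        linarith
    have h3 := Real.circleAverage_fun_smul (c := y) (R := r) (a := η)
      (f := fun ζ : ℂ => ‖ζ - 0‖ ^ 2)
    rw [Real.circleAverage_fun_sub (ContinuousOn.circleIntegrable' (by fun_prop))
      (hW.mono hs).circleIntegrable', h1] at h2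
    simp only [smul_eq_mul] at h3
    rw [h3, Mor.avg_normsq 0 y r hr] at h2
    nlinarith [mul_pos hη (pow_pos hr 2)]
  have h1 : W y - η * ‖y - 0‖ ^ 2 ≤ W z - η * ‖z - 0‖ ^ 2 := hmin hz
  have h2 : ‖y - 0‖ ^ 2 ≤ 1 := pow_le_one₀ (norm_nonneg _) (mem_closedBall_iff_norm.1 (hC1 hy))
  nlinarith [hm y hy hyU, mul_nonneg hη.le (sq_nonneg ‖z - 0‖)]

def D : Set ℂ := ball 0 1 \ {1 / 4}

lemma D_open : IsOpen D := isOpen_ball.sdiff isClosed_singleton

lemma D_conn : IsConnected D := by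
  have e : D = ((ball 0 1 ∩ {z : ℂ | 1 / 4 < z.re}) ∪ (ball 0 1 ∩ {z : ℂ | 0 < z.im})) ∪
      ((ball 0 1 ∩ {z : ℂ | z.re < 1 / 4}) ∪ (ball 0 1 ∩ {z : ℂ | z.im < 0})) := by
    ext z
    simp only [D, Set.mem_sdiff, mem_singleton_iff, mem_union, mem_inter_iff, mem_ofPred_eq,
      Complex.ext_iff]
    norm_num
    grind
  have hb : ∀ x y : ℝ, x ^ 2 + y ^ 2 < 1 → (⟨x, y⟩ : ℂ) ∈ ball (0 : ℂ) 1 := by
    intro x y h
    rw [mem_ball_zero_iff, ← sq_lt_one_iff₀ (norm_nonneg _), ← Complex.normSq_eq_norm_sq,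
      Complex.normSq_mk]
    linarith
  refine ⟨⟨0, by simp [D]⟩, ?_⟩
  rw [e]
  refine IsPreconnected.union' ⟨⟨0, 1 / 2⟩, Or.inr ⟨hb _ _ (by norm_num), by norm_num⟩,
    Or.inl ⟨hb _ _ (by norm_num), by norm_num⟩⟩ (IsPreconnected.union' ⟨⟨1 / 2, 1 / 2⟩,
      ⟨hb _ _ (by norm_num), by norm_num⟩, ⟨hb _ _ (by norm_num), by norm_num⟩⟩
      ((convex_ball _ _).inter (convex_halfSpace_re_gt _)).isPreconnected
      ((convex_ball _ _).inter (convex_halfSpace_im_gt _)).isPreconnected)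
    (IsPreconnected.union' ⟨⟨0, -1 / 2⟩,
      ⟨hb _ _ (by norm_num), by norm_num⟩, ⟨hb _ _ (by norm_num), by norm_num⟩⟩
      ((convex_ball _ _).inter (convex_halfSpace_re_lt _)).isPreconnected
      ((convex_ball _ _).inter (convex_halfSpace_im_lt _)).isPreconnected)

lemma near_mem {z : ℂ} (h0 : z ≠ 1 / 4) (h1 : ‖z - 1 / 4‖ ≤ 1 / 2) : z ∈ D := by
  refine ⟨mem_ball_zero_iff.2 ?_, h0⟩
  have := norm_add_le (z - 1 / 4) (1 / 4)
  norm_num at this ⊢
  linarith

lemma circ_mem (θ : ℝ) : circleMap (1 / 4) (1 / 4) θ ∈ D :=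
  near_mem (circleMap_ne_center (by norm_num)) (by rw [circleMap_sub_center]; simp; norm_num)

lemma D_nsc : ¬ SimplyConnectedSpace D := by
  intro h
  obtain ⟨f, hf, he⟩ := exists_continuousOn_pow_eq (U := D) h D_open
    (g := fun z => z - 1 / 4) (by fun_prop) (by
      rintro ⟨z, hz, h0⟩
      exact hz.2 (sub_eq_zero.1 h0)) (n := 2) (by norm_num)
  set k : ℝ → ℂ := fun θ => 2 * f (circleMap (1 / 4) (1 / 4) θ) * exp (-(θ / 2 * I)) with hk
  have hkc : Continuous k :=
    (continuous_const.mul (hf.comp_continuous (continuous_circleMap _ _) circ_mem)).mul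
      (by fun_prop)
  have hk2 : EqOn (k ^ 2) 1 univ := by
    intro θ _
    simp only [hk, Pi.pow_apply, Pi.one_apply, mul_pow, he, circleMap_sub_center, circleMap_zero]
    rw [← Complex.exp_nat_mul]
    have : exp (θ * I) * exp ((2 : ℕ) * -(θ / 2 * I)) = 1 := by
      rw [← Complex.exp_add, ← Complex.exp_zero]; congr 1; push_cast; ring
    push_cast at this ⊢
    linear_combination this
  have h3 : k (2 * Real.pi) = -k 0 := by
    have := periodic_circleMap (1 / 4) (1 / 4) 0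
    rw [zero_add] at this
    simp only [hk, this]
    have e : exp (-(((2 * Real.pi : ℝ) : ℂ) / 2 * I)) = -1 := by
      rw [Complex.exp_neg]; push_cast
      rw [show 2 * (Real.pi : ℂ) / 2 * I = Real.pi * I by ring, Complex.exp_pi_mul_I]; norm_num
    rw [e]; simp
  rcases isPreconnected_univ.eq_one_or_eq_neg_one_of_sq_eq hkc.continuousOn hk2 with h | h
  · rw [h (mem_univ _), h (mem_univ 0)] at h3; norm_num at h3
  · rw [h (mem_univ _), h (mem_univ 0)] at h3; norm_num at h3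

lemma green_min (u h : ℂ → ℝ) (hu : ∀ z ∈ D \ {0}, 0 < u z) (hh : HarmonicOnNhd h D)
    (he : ∀ z ∈ D \ {0}, h z = u z + Real.log ‖z - 0‖) :
    ∀ z ∈ D \ {0}, -Real.log ‖z‖ ≤ u z := by
  intro z hz
  have hz1 : ‖z‖ < 1 := mem_ball_zero_iff.1 hz.1.1
  have hzp : 0 < ‖z - 1 / 4‖ := norm_pos_iff.2 (sub_ne_zero.2 hz.1.2)
  have key : ∀ ε > 0, -ε ≤ h z + ε * (Real.log 2 - Real.log ‖z - 1 / 4‖) := by
    intro ε hε
    set R := max (max ‖z‖ (1 / 2)) (Real.exp (-ε)) with hR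
    set δ := min (min ‖z - 1 / 4‖ (1 / 8)) (Real.exp (-7 / ε)) with hδ
    have hR1 : R < 1 := max_lt (max_lt hz1 (by norm_num)) (Real.exp_lt_one_iff.2 (by linarith))
    have hR2 : 1 / 2 ≤ R := (le_max_right _ _).trans (le_max_left _ _)
    have hδ0 : 0 < δ := by positivity
    have hδ1 : δ ≤ 1 / 8 := (min_le_left _ _).trans (min_le_right _ _)
    have hCD : closedBall 0 R \ ball (1 / 4) δ ⊆ D := fun y hy =>
      ⟨closedBall_subset_ball hR1 hy.1, fun h => hy.2 (by rw [h]; exact mem_ball_self hδ0)⟩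
    have hH : HarmonicOnNhd (fun y => h y + ε * (Real.log 2 - Real.log ‖y - 1 / 4‖)) D :=
      fun y hy => (hh y hy).add (((harmonicAt_const _).sub (AnalyticAt.harmonicAt_log_norm
        (f := fun y => y - 1 / 4) (by fun_prop) (sub_ne_zero.2 hy.2))).const_smul (c := ε))
    refine minp (C := closedBall 0 R \ ball (1 / 4) δ) (U := ball 0 R \ closedBall (1 / 4) δ)
      ((isCompact_closedBall _ _).diff isOpen_ball) (isOpen_ball.sdiff isClosed_closedBall)
      (sdiff_subset_sdiff ball_subset_closedBall ball_subset_closedBall)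
      (sdiff_subset.trans (closedBall_subset_closedBall hR1.le)) (hH.mono hCD).continuousOn
      (hH.mono ((sdiff_subset_sdiff ball_subset_closedBall ball_subset_closedBall).trans hCD))
      (fun y hy hyU => ?_) z ⟨mem_closedBall_zero_iff.2 ((le_max_left _ _).trans
        (le_max_left _ _)), fun h => absurd (mem_ball_iff_norm.1 h)
          (not_lt.2 ((min_le_left _ _).trans (min_le_left _ _)))⟩
    have hy1 : ‖y‖ ≤ R := mem_closedBall_zero_iff.1 hy.1
    have hy2 : δ ≤ ‖y - 1 / 4‖ := not_lt.1 fun h => hy.2 (mem_ball_iff_norm.2 h)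
    have hy3 : Real.log ‖y - 1 / 4‖ ≤ Real.log 2 := by
      refine Real.log_le_log (by linarith) ?_
      have := norm_sub_le y (1 / 4)
      norm_num at this ⊢
      linarith
    have hy4 : y ≠ 0 → Real.log ‖y‖ < h y := fun h0 => by
      have := hu y ⟨hCD hy, h0⟩
      rw [he y ⟨hCD hy, h0⟩, sub_zero]; linarith
    by_cases hb : ‖y‖ < R
    · have h1 : ‖y - 1 / 4‖ ≤ δ := by
        by_contra h2
        exact hyU ⟨mem_ball_zero_iff.2 hb, fun h3 => h2 (mem_closedBall_iff_norm.1 h3)⟩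
      have h2 : 1 / 8 ≤ ‖y‖ := by
        have := norm_sub_norm_le (1 / 4 : ℂ) (1 / 4 - y)
        rw [norm_sub_rev (1 / 4 : ℂ) y] at this
        norm_num at this h1 ⊢
        linarith
      have h3 := hy4 (norm_pos_iff.1 (by linarith))
      have h4 : -7 ≤ Real.log ‖y‖ := by
        have := Real.one_sub_inv_le_log_of_pos (show 0 < ‖y‖ by linarith)
        have h5 : ‖y‖⁻¹ ≤ 8 := by rw [inv_le_comm₀ (by linarith) (by norm_num)]; linarith
        linarith
      have h5 : Real.log ‖y - 1 / 4‖ ≤ -7 / ε :=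
        (Real.log_le_iff_le_exp (by linarith)).2 (h1.trans (min_le_right _ _))
      have h6 : ε * Real.log ‖y - 1 / 4‖ ≤ -7 := by
        rw [le_div_iff₀ hε] at h5; linarith
      have h7 := mul_pos hε (Real.log_pos (show (1 : ℝ) < 2 by norm_num))
      nlinarith
    · have h1 : ‖y‖ = R := le_antisymm hy1 (not_lt.1 hb)
      have h2 := hy4 (norm_pos_iff.1 (by linarith))
      have h3 : -ε ≤ Real.log ‖y‖ :=
        (Real.le_log_iff_exp_le (by linarith)).2 (h1 ▸ le_max_right _ _)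
      nlinarith
  have h0 : 0 ≤ h z := by
    by_contra hneg
    set b := Real.log 2 - Real.log ‖z - 1 / 4‖
    have h1 := key (-h z / (2 * (1 + |b|))) (div_pos (by linarith) (by positivity))
    have h2 : -h z / (2 * (1 + |b|)) * (1 + |b|) = -h z / 2 := by field_simp
    have h3 : 0 < -h z / (2 * (1 + |b|)) := div_pos (by linarith) (by positivity)
    nlinarith [le_abs_self b]
  rw [he z hz, sub_zero] at h0
  linarith

lemma pick_pos {F : ℂ → ℂ} (hF : DifferentiableOn ℂ F (ball 0 1))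
    (hp : ∀ z ∈ ball (0 : ℂ) 1, 0 < (F z).re) {z : ℂ} (hz : z ∈ ball (0 : ℂ) 1) :
    ‖deriv F z‖ * (1 - ‖z‖ ^ 2) ≤ 2 * (F z).re := by
  have hz1 : ‖z‖ < 1 := mem_ball_zero_iff.1 hz
  have hden : ∀ w ∈ ball (0 : ℂ) 1, 1 + conj z * w ≠ 0 := by
    intro w hw h
    have h1 : ‖conj z * w‖ = 1 := by rw [eq_neg_of_add_eq_zero_right h]; simp
    rw [norm_mul, Complex.norm_conj] at h1
    nlinarith [mem_ball_zero_iff.1 hw, norm_nonneg z, norm_nonneg w]
  set ψ : ℂ → ℂ := fun w => (w + z) / (1 + conj z * w) with hψ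
  have hψm : MapsTo ψ (ball 0 1) (ball 0 1) := by
    intro w hw
    have hw1 : ‖w‖ < 1 := mem_ball_zero_iff.1 hw
    rw [mem_ball_zero_iff, hψ, norm_div, div_lt_one (norm_pos_iff.2 (hden w hw)),
      ← sq_lt_sq₀ (norm_nonneg _) (norm_nonneg _)]
    have e : ‖1 + conj z * w‖ ^ 2 - ‖w + z‖ ^ 2 = (1 - ‖w‖ ^ 2) * (1 - ‖z‖ ^ 2) := by
      simp only [← Complex.normSq_eq_norm_sq, Complex.normSq_apply]; simp; ring
    have : 0 < (1 - ‖w‖ ^ 2) * (1 - ‖z‖ ^ 2) :=
      mul_pos (by nlinarith [norm_nonneg w]) (by nlinarith [norm_nonneg z])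
    linarith
  have hψd : DifferentiableOn ℂ ψ (ball 0 1) :=
    DifferentiableOn.div (by fun_prop) (by fun_prop) hden
  have hψ0 : ψ 0 = z := by simp [hψ]
  have hd2 : ∀ w ∈ ball (0 : ℂ) 1, F (ψ w) + conj (F z) ≠ 0 := by
    intro w hw h
    have := congrArg Complex.re h
    simp at this
    linarith [hp _ (hψm hw), hp z hz]
  have hG := hF.comp hψd hψm
  have h1 := Complex.norm_deriv_le_one_of_mapsTo_ball
    (f := fun w => (F (ψ w) - F z) / (F (ψ w) + conj (F z))) (c := 0) (R := 1)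
    ((hG.sub_const _).div (hG.add_const _) hd2) (by
      intro w hw
      simp only [hψ0, sub_self, zero_div, mem_closedBall_zero_iff]
      rw [norm_div, div_le_one (norm_pos_iff.2 (hd2 w hw)),
        ← sq_le_sq₀ (norm_nonneg _) (norm_nonneg _)]
      simp only [← Complex.normSq_eq_norm_sq, Complex.normSq_apply]
      simp
      nlinarith [mul_pos (hp _ (hψm hw)) (hp z hz)]) one_pos
  have d1 : HasDerivAt ψ (1 - conj z * z) 0 := by
    have := ((hasDerivAt_id' (0 : ℂ)).add_const z).fun_div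
      (((hasDerivAt_id' (0 : ℂ)).const_mul (conj z)).const_add 1) (by simp)
    refine HasDerivAt.congr_deriv this ?_
    simp; ring
  have d2 : HasDerivAt (fun w => F (ψ w)) (deriv F z * (1 - conj z * z)) 0 := by
    have := (hF.differentiableAt (isOpen_ball.mem_nhds hz)).hasDerivAt
    exact this.comp_of_eq 0 d1 hψ0.symm
  have h0 := hd2 0 (mem_ball_self one_pos)
  have d3 := ((d2.sub_const (F z)).fun_div (d2.add_const (conj (F z))) h0).deriv
  rw [d3] at h1
  simp only [hψ0] at h1 h0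
  have e1 : F z + conj (F z) = ((2 * (F z).re : ℝ) : ℂ) := Complex.add_conj _
  have e2 : 1 - conj z * z = ((1 - ‖z‖ ^ 2 : ℝ) : ℂ) := by
    rw [Complex.conj_mul']; push_cast; ring
  have h2 := hp z hz
  rw [sub_self, zero_mul, sub_zero, pow_two, mul_div_mul_right _ _ h0, e1, e2, norm_div, norm_mul,
    Complex.norm_real, Complex.norm_real, Real.norm_of_nonneg (by nlinarith [norm_nonneg z]),
    Real.norm_of_nonneg (by linarith), div_le_one (by linarith)] at h1
  exact h1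

lemma pick {F : ℂ → ℂ} (hF : DifferentiableOn ℂ F (ball 0 1))
    (hp : ∀ z ∈ ball (0 : ℂ) 1, 0 ≤ (F z).re) {z : ℂ} (hz : z ∈ ball (0 : ℂ) 1) :
    ‖deriv F z‖ * (1 - ‖z‖ ^ 2) ≤ 2 * (F z).re := by
  refine le_of_forall_pos_le_add fun ε hε => ?_
  have := pick_pos (hF.add_const ((ε / 2 : ℝ) : ℂ)) (fun w hw => by
    simp only [add_re, ofReal_re]; linarith [hp w hw]) hz
  rw [deriv_add_const] at this
  simp only [add_re, ofReal_re] at this
  linarith

end Pool.Agent.H1.Mar
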