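import Pool.Agent.H1.MarA

open Complex Metric Set Filter InnerProductSpace
open scoped Topology ComplexConjugate

namespace Pool.Agent.H1.Mar

noncomputable def dz (u : ℂ → ℝ) (z : ℂ) : ℂ := fderiv ℝ u z 1 - I * fderiv ℝ u z I

lemma fd_eq (u : ℂ → ℝ) (z v : ℂ) : fderiv ℝ u z v = (dz u z * v).re := by
  have e : v = v.re • (1 : ℂ) + v.im • I := by simp
  conv_lhs => rw [e, map_add, map_smul, map_smul]
  simp [dz]; ring

lemma re_fd {F : ℂ → ℂ} {F' z : ℂ} (h : HasDerivAt F F' z) :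
    DifferentiableAt ℝ (fun w => (F w).re) z ∧
      ∀ v, fderiv ℝ (fun w => (F w).re) z v = (F' * v).re := by
  have h1 := reCLM.hasFDerivAt.comp z (h.hasFDerivAt.restrictScalars ℝ)
  refine ⟨h1.differentiableAt, fun v => ?_⟩
  have h2 : fderiv ℝ (fun w => (F w).re) z = _ := h1.fderiv
  rw [h2]; simp; ring

lemma dz_bound {u : ℂ → ℝ} {z : ℂ} {r M : ℝ} (hr : 0 < r) (hu : HarmonicOnNhd u (ball z r))
    (h0 : ∀ y ∈ ball z r, 0 < u y) (hM : u z ≤ M) : ‖dz u z‖ * r ≤ 2 * Real.exp M := by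
  obtain ⟨F, hF, he⟩ := hu.exists_analyticOnNhd_ball_re_eq
  have hd := (hF z (mem_ball_self hr)).differentiableAt.hasDerivAt
  have e1 : dz u z = deriv F z := by
    have h1 : fderiv ℝ u z = fderiv ℝ (fun w => (F w).re) z :=
      (eventuallyEq_of_mem (ball_mem_nhds z hr) he).fderiv_eq.symm
    unfold dz
    rw [h1, (re_fd hd).2, (re_fd hd).2]
    apply Complex.ext <;> simp
  have hb : ∀ y ∈ ball z r, ‖exp (-F y)‖ ≤ 1 := by
    intro y hy
    have : (F y).re = u y := he hy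
    rw [Complex.norm_exp, neg_re, this]
    exact Real.exp_le_one_iff.2 (by linarith [h0 y hy])
  have h2 := Complex.norm_deriv_le_div_of_mapsTo_ball (f := fun y => exp (-F y)) (c := z)
    (R₁ := r) (R₂ := 2) hF.differentiableOn.neg.cexp (fun y hy => by
      rw [mem_closedBall_iff_norm]
      linarith [norm_sub_le (exp (-F y)) (exp (-F z)), hb y hy, hb z (mem_ball_self hr)]) hr
  have h3 : deriv (fun y => exp (-F y)) z = _ := hd.fun_neg.cexp.deriv
  have h4 : (F z).re = u z := he (mem_ball_self hr)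
  rw [h3, norm_mul, norm_neg, Complex.norm_exp, neg_re, h4, le_div_iff₀ hr, Real.exp_neg,
    mul_assoc, inv_mul_le_iff₀ (Real.exp_pos _)] at h2
  rw [e1]
  linarith [Real.exp_le_exp.2 hM]

lemma remov {u : ℂ → ℝ} {M : ℝ} (hu : HarmonicOnNhd u D) (h0 : ∀ y ∈ D, 0 < u y)
    (hM : ∀ y ∈ D, ‖y - 1 / 4‖ ≤ 1 / 4 → u y ≤ M) :
    ∃ F : ℂ → ℂ, DifferentiableOn ℂ F (ball 0 1) ∧ ∀ z ∈ D, (F z).re = u z := by
  have hp : (1 / 4 : ℂ) ∈ ball (0 : ℂ) 1 := by norm_num
  have hf : ∀ z ∈ D, DifferentiableAt ℂ (dz u) z := fun z hz =>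
    HarmonicAt.differentiableAt_complex_partial (hu z hz)
  set k : ℂ → ℂ := fun z => (z - 1 / 4) * dz u z with hk
  have hkd : ∀ z ∈ D, DifferentiableAt ℂ k z := fun z hz =>
    DifferentiableAt.mul (by fun_prop) (hf z hz)
  have hsm : ∀ z ∈ ball (1 / 4 : ℂ) (1 / 4) \ {1 / 4}, z ∈ D := fun z hz =>
    near_mem hz.2 (by linarith [mem_ball_iff_norm.1 hz.1])
  set L := limUnder (𝓝[≠] (1 / 4 : ℂ)) k
  have h1 : DifferentiableOn ℂ (Function.update k (1 / 4) L) (ball (1 / 4) (1 / 4)) := by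
    refine differentiableOn_update_limUnder_of_bddAbove (ball_mem_nhds _ (by norm_num))
      (fun z hz => (hkd z (hsm z hz)).differentiableWithinAt) ⟨2 * Real.exp M, ?_⟩
    rintro _ ⟨z, hz, rfl⟩
    have hz1 := mem_ball_iff_norm.1 hz.1
    have hsub : ball z ‖z - 1 / 4‖ ⊆ D := fun y hy => by
      rw [mem_ball_iff_norm] at hy
      refine near_mem (by rintro rfl; rw [norm_sub_rev] at hy; exact lt_irrefl _ hy) ?_
      have := norm_add_le (y - z) (z - 1 / 4)
      rw [sub_add_sub_cancel] at this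
      linarith
    have := dz_bound (norm_pos_iff.2 (sub_ne_zero.2 hz.2)) (hu.mono hsub)
      (fun y hy => h0 y (hsub hy)) (hM z (hsm z hz) hz1.le)
    simp only [Function.comp, hk, norm_mul]
    linarith
  have h2 : DifferentiableOn ℂ (Function.update k (1 / 4) L) (ball 0 1) := by
    intro z hz
    by_cases h : z = 1 / 4
    · rw [h]
      exact (h1.differentiableAt (ball_mem_nhds _ (by norm_num))).differentiableWithinAt
    · refine ((hkd z ⟨hz, h⟩).congr_of_eventuallyEq ?_).differentiableWithinAt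
      filter_upwards [isOpen_ne.mem_nhds h] with y hy
      exact Function.update_of_ne hy _ _
  obtain ⟨G, hG⟩ := ((differentiableOn_dslope (isOpen_ball.mem_nhds hp)).2 h2).isExactOn_ball
  set w : ℂ → ℝ := fun z => u z - (G z).re with hw
  have hwd : ∀ z ∈ D, DifferentiableAt ℝ w z ∧
      ∀ v, fderiv ℝ w z v = (L / (z - 1 / 4) * v).re := by
    intro z hz
    have a1 : DifferentiableAt ℝ u z := (hu z hz).1.differentiableAt (by norm_num)
    obtain ⟨a2, a3⟩ := re_fd (hG z hz.1)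
    refine ⟨a1.sub a2, fun v => ?_⟩
    have a4 : z - 1 / 4 ≠ 0 := sub_ne_zero.2 hz.2
    rw [hw, fderiv_fun_sub a1 a2, sub_apply, fd_eq, a3, ← sub_re,
      dslope_of_ne _ hz.2, slope_def_field, Function.update_of_ne hz.2, Function.update_self]
    congr 1
    simp only [hk]
    generalize z - 1 / 4 = a at a4
    field_simp
    ring
  have him : L.im = 0 := by
    have a1 : ∀ θ : ℝ, HasDerivAt (fun θ => w (circleMap (1 / 4) (1 / 4) θ) + L.im * θ) 0 θ := by
      intro θ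
      obtain ⟨b1, b2⟩ := hwd _ (circ_mem θ)
      have b3 := (b1.hasFDerivAt.comp_hasDerivAt θ (hasDerivAt_circleMap (1 / 4) (1 / 4) θ)).add
        ((hasDerivAt_id' θ).const_mul L.im)
      refine HasDerivAt.congr_deriv b3 ?_
      rw [b2, circleMap_sub_center, ← mul_assoc,
        div_mul_cancel₀ _ (circleMap_ne_center (by norm_num))]
      simp
    have a2 := is_const_of_deriv_eq_zero (fun θ => (a1 θ).differentiableAt)
      (fun θ => (a1 θ).deriv) (0 + 2 * Real.pi) 0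
    simp only [periodic_circleMap (1 / 4) (1 / 4) 0] at a2
    have : L.im * (2 * Real.pi) = 0 := by linarith
    exact (mul_eq_zero.1 this).resolve_right (by positivity)
  have hre : L.re = 0 := by
    have hm : ∀ s : ℝ, s ≤ -2 → Real.exp s ≤ 1 / 4 := fun s hs => by
      have b1 : Real.exp s ≤ Real.exp (-2) := Real.exp_le_exp.2 hs
      have b2 : Real.exp (-2) * (Real.exp 1 * Real.exp 1) = 1 := by
        rw [← Real.exp_add, ← Real.exp_add]; norm_num
      have b3 := Real.add_one_le_exp 1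
      have b4 : 4 ≤ Real.exp 1 * Real.exp 1 := by nlinarith
      nlinarith [Real.exp_pos (-2)]
    have hn : ∀ s : ℝ, ‖(1 / 4 + (Real.exp s : ℂ)) - 1 / 4‖ = Real.exp s := fun s => by
      rw [add_sub_cancel_left, Complex.norm_real, Real.norm_of_nonneg (Real.exp_pos s).le]
    have hD : ∀ s : ℝ, s ≤ -2 → (1 / 4 + (Real.exp s : ℂ)) ∈ D := fun s hs =>
      near_mem (by simp) (by rw [hn]; linarith [hm s hs])
    have a1 : ∀ s : ℝ, s ≤ -2 →
        HasDerivAt (fun s => w (1 / 4 + (Real.exp s : ℂ)) - L.re * s) 0 s := by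
      intro s hs
      obtain ⟨b1, b2⟩ := hwd _ (hD s hs)
      have b3 := (b1.hasFDerivAt.comp_hasDerivAt s
        ((Real.hasDerivAt_exp s).ofReal_comp.const_add (1 / 4 : ℂ))).sub
        ((hasDerivAt_id' s).const_mul L.re)
      refine HasDerivAt.congr_deriv b3 ?_
      rw [b2, add_sub_cancel_left, div_mul_cancel₀ _ (by simp)]
      simp
    have a2 : ∀ s : ℝ, s ≤ -2 → w (1 / 4 + (Real.exp (-2) : ℂ)) - L.re * (-2) =
        w (1 / 4 + (Real.exp s : ℂ)) - L.re * s := fun s hs =>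
      constant_of_has_deriv_right_zero (a := s) (b := -2)
        (f := fun s => w (1 / 4 + (Real.exp s : ℂ)) - L.re * s)
        (fun t ht => (a1 t ht.2).continuousAt.continuousWithinAt)
        (fun t ht => (a1 t ht.2.le).hasDerivWithinAt) (-2) ⟨hs, le_rfl⟩
    obtain ⟨C, hC⟩ := (isCompact_closedBall (1 / 4 : ℂ) (1 / 4)).exists_bound_of_continuousOn
      (f := G) fun z hz => (hG z (by
        rw [mem_ball_zero_iff]
        have b1 := norm_add_le (z - 1 / 4) (1 / 4)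
        have b2 := mem_closedBall_iff_norm.1 hz
        norm_num at b1 b2 ⊢
        linarith)).continuousAt.continuousWithinAt
    have a3 : ∀ s : ℝ, s ≤ -2 → |w (1 / 4 + (Real.exp s : ℂ))| ≤ M + C := fun s hs => by
      have b1 := hC _ (mem_closedBall_iff_norm.2 ((hn s).trans_le (hm s hs)))
      have b2 := abs_le.1 ((Complex.abs_re_le_norm _).trans b1)
      have b3 := h0 _ (hD s hs)
      have b4 := hM _ (hD s hs) ((hn s).trans_le (hm s hs))
      simp only [hw]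
      rw [abs_le]; constructor <;> linarith [b2.1, b2.2]
    by_contra hne
    have hpos : 0 < |L.re| := abs_pos.2 hne
    have hMC : 0 ≤ M + C := (abs_nonneg _).trans (a3 (-2) le_rfl)
    set t := (2 * (M + C) + 1) / |L.re| with ht
    have ht0 : 0 ≤ t := by positivity
    have b1 := a2 (-2 - t) (by linarith)
    have b2 := abs_le.1 (a3 (-2 - t) (by linarith))
    have b3 := abs_le.1 (a3 (-2) le_rfl)
    have b4 : |L.re| * t = 2 * (M + C) + 1 := by rw [ht]; field_simp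
    rcases abs_cases L.re with h | h <;> rw [h.1] at b4 <;> nlinarith
  have hL : L = 0 := Complex.ext hre him
  have hc : ∀ z ∈ D, w z = w 0 := fun z hz =>
    D_open.is_const_of_fderiv_eq_zero (𝕜 := ℝ) D_conn.isPreconnected
      (fun z hz => (hwd z hz).1.differentiableWithinAt)
      (fun z hz => by ext v <;> simp [(hwd z hz).2, hL]) hz (by simp [D])
  refine ⟨fun z => G z + (w 0 : ℝ), fun z hz =>
    ((hG z hz).differentiableAt.add_const _).differentiableWithinAt, fun z hz => ?_⟩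
  rw [add_re, ofReal_re, ← hc z hz]
  simp [hw]

noncomputable def P (ζ z : ℂ) : ℝ := ((ζ + z) / (ζ - z)).re

lemma P_eq {ζ z : ℂ} (hζ : ‖ζ‖ = 1) : P ζ z = (1 - ‖z‖ ^ 2) / ‖ζ - z‖ ^ 2 := by
  have h : ζ.re * ζ.re + ζ.im * ζ.im = 1 := by
    rw [← Complex.normSq_apply, Complex.normSq_eq_norm_sq, hζ]; norm_num
  simp only [P, Complex.div_re, ← Complex.normSq_eq_norm_sq, ← add_div]
  congr 1
  simp [Complex.normSq_apply]
  linarith

lemma P_ne {ζ z : ℂ} (hζ : ‖ζ‖ = 1) (hz : z ∈ ball (0 : ℂ) 1) : ζ - z ≠ 0 := by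
  intro h
  rw [← sub_eq_zero.1 h, mem_ball_zero_iff, hζ] at hz
  exact lt_irrefl _ hz

lemma P_pos {ζ z : ℂ} (hζ : ‖ζ‖ = 1) (hz : z ∈ ball (0 : ℂ) 1) : 0 < P ζ z := by
  rw [P_eq hζ]
  have := mem_ball_zero_iff.1 hz
  exact div_pos (by nlinarith [norm_nonneg z]) (pow_pos (norm_pos_iff.2 (P_ne hζ hz)) 2)

lemma P_harm {ζ : ℂ} (hζ : ‖ζ‖ = 1) : HarmonicOnNhd (P ζ) D := fun z hz =>
  AnalyticAt.harmonicAt_re (f := fun z => (ζ + z) / (ζ - z))
    (AnalyticAt.div (by fun_prop) (by fun_prop) (P_ne hζ hz.1))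

lemma P_zero {ζ : ℂ} (hζ : ‖ζ‖ = 1) : P ζ 0 = 1 := by rw [P_eq hζ]; simp [hζ]

lemma P_min (u : ℂ → ℝ) (hu : HarmonicOnNhd u D) (h : ∀ z ∈ D, 0 < u z ∧ u z ≤ P 1 z) :
    ∃ c : ℝ, ∀ z ∈ D, u z = c * P 1 z := by
  obtain ⟨F, hF, he⟩ := remov (M := 4) hu (fun z hz => (h z hz).1) fun z hz h1 => by
    refine (h z hz).2.trans ?_
    have h2 : 1 / 2 ≤ ‖1 - z‖ := by
      have := norm_sub_norm_le (3 / 4 : ℂ) (z - 1 / 4)
      rw [show (3 / 4 : ℂ) - (z - 1 / 4) = 1 - z by ring] at this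
      norm_num at this h1 ⊢
      linarith
    rw [P_eq norm_one, div_le_iff₀ (by positivity)]
    nlinarith [sq_nonneg ‖z‖]
  set φ : ℂ → ℂ := fun z => (1 + z) / (1 - z) with hφ
  have hφd : ∀ z ∈ ball (0 : ℂ) 1, HasDerivAt φ (2 / (1 - z) ^ 2) z := fun z hz => by
    have := ((hasDerivAt_id' z).const_add 1).fun_div ((hasDerivAt_id' z).const_sub 1)
      (P_ne norm_one hz)
    refine HasDerivAt.congr_deriv this ?_
    congr 1; ring
  have hφ' : DifferentiableOn ℂ φ (ball 0 1) := fun z hz =>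
    (hφd z hz).differentiableAt.differentiableWithinAt
  have ext : ∀ H : ℂ → ℂ, DifferentiableOn ℂ H (ball 0 1) → (∀ z ∈ D, 0 ≤ (H z).re) →
      ∀ z ∈ ball (0 : ℂ) 1, 0 ≤ (H z).re := by
    intro H hH h0 z hz
    have h1 : ContinuousAt (fun z => (H z).re) z :=
      continuous_re.continuousAt.comp (hH.differentiableAt (isOpen_ball.mem_nhds hz)).continuousAt
    by_cases h2 : z = 1 / 4
    · refine ge_of_tendsto (h1.tendsto.mono_left (nhdsWithin_le_nhds (s := {z}ᶜ))) ?_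
      filter_upwards [self_mem_nhdsWithin, nhdsWithin_le_nhds (isOpen_ball.mem_nhds hz)]
        with y hy hy'
      exact h0 y ⟨hy', h2 ▸ hy⟩
    · exact h0 z ⟨hz, h2⟩
  have a1 := ext F hF fun z hz => by rw [he z hz]; exact (h z hz).1.le
  have a2 := ext (fun z => φ z - F z) (hφ'.sub hF) fun z hz => by
    rw [sub_re, he z hz]; exact sub_nonneg.2 (h z hz).2
  have key : ∀ z ∈ ball (0 : ℂ) 1, (deriv F z * (1 - z) ^ 2 / 2).im = 0 ∧
      (F z).re = (deriv F z * (1 - z) ^ 2 / 2).re * P 1 z := by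
    intro z hz
    have b1 := pick hF a1 hz
    have b2 := pick (hφ'.sub hF) a2 hz
    have b3 : deriv (φ - F) z = 2 / (1 - z) ^ 2 - deriv F z :=
      ((hφd z hz).sub (hF.differentiableAt (isOpen_ball.mem_nhds hz)).hasDerivAt).deriv
    have b4 : 1 - z ≠ 0 := P_ne norm_one hz
    have b5 : 0 < ‖1 - z‖ ^ 2 := by positivity
    have b6 : P 1 z * ‖1 - z‖ ^ 2 = 1 - ‖z‖ ^ 2 := by rw [P_eq norm_one]; field_simp
    have b7 := P_pos norm_one hz
    set q := deriv F z * (1 - z) ^ 2 / 2 with hq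
    have c1 : ‖q‖ * P 1 z ≤ (F z).re := by
      rw [hq, norm_div, norm_mul, norm_pow]
      rw [← b6] at b1
      norm_num
      linarith
    have c2 : ‖1 - q‖ * P 1 z ≤ P 1 z - (F z).re := by
      have e : 1 - q = (2 / (1 - z) ^ 2 - deriv F z) * (1 - z) ^ 2 / 2 := by
        rw [hq]; field_simp
      rw [e, norm_div, norm_mul, norm_pow]
      rw [← b6, b3, Pi.sub_apply, sub_re] at b2
      have : (φ z).re = P 1 z := rfl
      norm_num
      linarith
    have c3 := Complex.re_le_norm q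
    have c4 := Complex.re_le_norm (1 - q)
    rw [sub_re, one_re] at c4
    have c5 : (F z).re = q.re * P 1 z := by nlinarith
    have c6 : ‖q‖ ≤ q.re := by nlinarith
    refine ⟨?_, c5⟩
    have c7 : ‖q‖ ^ 2 = q.re ^ 2 + q.im ^ 2 := by
      rw [← Complex.normSq_eq_norm_sq, Complex.normSq_apply]; ring
    rw [le_antisymm c6 c3] at c7
    exact pow_eq_zero_iff (two_ne_zero) |>.1 (by linarith)
  obtain ⟨c, hc⟩ := AnalyticOnNhd.eq_const_of_im_eq_const (U := ball 0 1)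
    (f := fun z => deriv F z * (1 - z) ^ 2 / 2)
    (fun z hz => AnalyticAt.div_const (((hF.analyticOnNhd isOpen_ball).deriv z hz).mul
      (by fun_prop))) (fun z hz => (key z hz).1) isOpen_ball
    ((convex_ball _ _).isConnected (nonempty_ball.2 one_pos))
  exact ⟨c.re, fun z hz => by rw [← he z hz, (key z hz.1).2, hc z hz.1]⟩

noncomputable def K (z : ℂ) : ℝ := (Real.log 4)⁻¹ * Real.log ‖(4 - z) / (4 * z - 1)‖

lemma K_facts : HarmonicOnNhd K D ∧ (∀ z ∈ D, 0 < K z) ∧ K 0 ≤ 1 := by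
  have h4 : 0 < Real.log 4 := Real.log_pos (by norm_num)
  have hd : ∀ z ∈ D, 4 * z - 1 ≠ 0 := fun z hz h => hz.2 (by
    rw [mem_singleton_iff]; linear_combination h / 4)
  have hl : ∀ z ∈ D, 1 < ‖(4 - z) / (4 * z - 1)‖ := fun z hz => by
    have h1 := mem_ball_zero_iff.1 hz.1
    rw [norm_div, one_lt_div (norm_pos_iff.2 (hd z hz)),
      ← sq_lt_sq₀ (norm_nonneg _) (norm_nonneg _)]
    have e : ‖4 - z‖ ^ 2 - ‖4 * z - 1‖ ^ 2 = 15 * (1 - ‖z‖ ^ 2) := by
      simp only [← Complex.normSq_eq_norm_sq, Complex.normSq_apply]; simp; ring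
    nlinarith [norm_nonneg z]
  refine ⟨fun z hz => (AnalyticAt.harmonicAt_log_norm (f := fun z => (4 - z) / (4 * z - 1))
    (AnalyticAt.div (by fun_prop) (by fun_prop) (hd z hz))
    (norm_pos_iff.1 (by linarith [hl z hz]))).const_smul (c := (Real.log 4)⁻¹),
    fun z hz => mul_pos (inv_pos.2 h4) (Real.log_pos (hl z hz)), ?_⟩
  simp [K, inv_mul_cancel₀ h4.ne']

lemma no_touch {z : ℂ} (h0 : z ≠ 0) (h1 : ‖z‖ < 1 / 8)
    (h : ∀ u : ℂ → ℝ, HarmonicOnNhd u D → (∀ z ∈ D, 0 < u z) → u 0 ≤ 1 → u z ≤ P 1 z) :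
    False := by
  have ht : 0 < ‖z‖ := norm_pos_iff.2 h0
  have hζ : ‖z / (‖z‖ : ℂ)‖ = 1 := by simp [ht.ne']
  have a1 := h _ (P_harm hζ) (fun y hy => P_pos hζ hy.1) (P_zero hζ).le
  have a2 := h _ K_facts.1 K_facts.2.1 K_facts.2.2
  have e1 : ‖z / (‖z‖ : ℂ) - z‖ = 1 - ‖z‖ := by
    have : z / (‖z‖ : ℂ) - z = z / (‖z‖ : ℂ) * ((1 - ‖z‖ : ℝ) : ℂ) := by
      have : (‖z‖ : ℂ) ≠ 0 := by simpa using h0
      push_cast; field_simp
    rw [this, norm_mul, hζ, one_mul, Complex.norm_real, Real.norm_of_nonneg (by linarith)]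
  have hb : z ∈ ball (0 : ℂ) 1 := mem_ball_zero_iff.2 (by linarith)
  have hp : 0 < ‖1 - z‖ := norm_pos_iff.2 (P_ne norm_one hb)
  rw [P_eq hζ, P_eq norm_one, e1, div_le_div_iff_of_pos_left (by nlinarith)
    (by nlinarith) (by positivity)] at a1
  have e2 : ‖1 - z‖ ^ 2 = 1 - 2 * z.re + ‖z‖ ^ 2 := by
    simp only [← Complex.normSq_eq_norm_sq, Complex.normSq_apply]; simp; ring
  have e3 : z.re = ‖z‖ := le_antisymm (Complex.re_le_norm z) (by nlinarith)
  have e4 : z = (‖z‖ : ℝ) := by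
    have c7 : ‖z‖ ^ 2 = z.re ^ 2 + z.im ^ 2 := by
      rw [← Complex.normSq_eq_norm_sq, Complex.normSq_apply]; ring
    exact Complex.ext (by simpa using e3)
      (by simpa using pow_eq_zero_iff (two_ne_zero) |>.1 (show z.im ^ 2 = 0 by nlinarith))
  rw [P_eq norm_one, e2, e3] at a2
  generalize ‖z‖ = t at *
  subst e4
  have e5 : ‖(4 - (t : ℂ)) / (4 * t - 1)‖ = 4 * ((1 - t / 4) * (1 - 4 * t)⁻¹) := by
    have : (4 - (t : ℂ)) / (4 * t - 1) = ((-(4 * ((1 - t / 4) * (1 - 4 * t)⁻¹)) : ℝ) : ℂ) := by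
      have h2 : (1 : ℂ) - 4 * t ≠ 0 := by
        have : (1 : ℝ) - 4 * t ≠ 0 := by linarith
        exact_mod_cast this
      have h3 : 4 * (t : ℂ) - 1 ≠ 0 := fun h => h2 (by linear_combination -h)
      push_cast; field_simp; ring
    rw [this, Complex.norm_real, norm_neg, Real.norm_of_nonneg]
    have : 0 < 1 - 4 * t := by linarith
    have : 0 < 1 - t / 4 := by linarith
    positivity
  have h4 : 0 < Real.log 4 := Real.log_pos (by norm_num)
  have h5 : Real.log 4 < 1.4 := by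
    rw [show (4 : ℝ) = 2 ^ 2 by norm_num, Real.log_pow]
    push_cast; linarith [Real.log_two_lt_d9]
  have p1 : 0 < 1 - 4 * t := by linarith
  have p2 : 0 < 1 - t / 4 := by linarith
  rw [K, e5, Real.log_mul (by norm_num) (by positivity), Real.log_mul p2.ne' (by positivity),
    Real.log_inv, inv_mul_le_iff₀ h4] at a2
  have q1 := Real.log_le_sub_one_of_pos p1
  have q2 := Real.one_sub_inv_le_log_of_pos p2
  have q3 : (1 - t / 4)⁻¹ ≤ 1 + t / 2 := by
    rw [inv_le_iff_one_le_mul₀ p2]; nlinarith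
  have q4 : (1 - t ^ 2) / (1 - 2 * t + t ^ 2) ≤ 1 + 16 / 7 * t := by
    rw [div_le_iff₀ (by nlinarith)]
    nlinarith [mul_pos (mul_pos ht (show 0 < 1 - t by linarith)) (show 0 < 1 / 8 - t by linarith)]
  nlinarith [mul_le_mul_of_nonneg_left q4 h4.le]

end Pool.Agent.H1.Mar
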