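import Mathlib

namespace Pool.Agent.H1.Maz

open Filter Topology Set MeasureTheory
open scoped RealInnerProductSpace

variable {V : Type} [NormedAddCommGroup V] [NormedSpace ℝ V] {E : Type} [NormedAddCommGroup E]
  [InnerProductSpace ℝ E] {T : V →ₗ[ℝ] E} {δ : V →ₗ[ℝ] ℝ}

lemma unb (h : ∀ M : ℝ, ∃ s, M * ‖T s‖ < |δ s|) (F : Finset V) :
    ∀ M : ℝ, ∃ s, (∀ v ∈ F, ⟪T v, T s⟫ = 0) ∧ M * ‖T s‖ < |δ s| := by
  classical
  induction F using Finset.induction_on with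
  | empty => simpa using h
  | insert v F _ ih =>
    intro M
    by_cases he : ∀ e, (∀ v ∈ F, ⟪T v, T e⟫ = 0) → ⟪T v, T e⟫ = 0
    · obtain ⟨s, h1, h2⟩ := ih M
      exact ⟨s, Finset.forall_mem_insert _ _ _ |>.2 ⟨he s h1, h1⟩, h2⟩
    push Not at he
    obtain ⟨e, e1, e2⟩ := he
    have k0 := abs_pos.2 e2
    obtain ⟨s, h1, h2⟩ := ih ((|M| * (|⟪T v, T e⟫| + ‖T v‖ * ‖T e‖) + ‖T v‖ * |δ e|) / |⟪T v, T e⟫|)
    refine ⟨⟪T v, T e⟫ • s - ⟪T v, T s⟫ • e, Finset.forall_mem_insert _ _ _ |>.2 ⟨?_, fun w hw => ?_⟩, ?_⟩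
    · simp only [map_sub, map_smul, inner_sub_right, inner_smul_right]; ring
    · simp [inner_sub_right, inner_smul_right, h1 w hw, e1 w hw]
    rw [div_mul_eq_mul_div, div_lt_iff₀ k0] at h2
    have a1 := abs_real_inner_le_norm (T v) (T s)
    have a2 := norm_sub_le (⟪T v, T e⟫ • T s) (⟪T v, T s⟫ • T e)
    have a3 := abs_sub_abs_le_abs_sub (⟪T v, T e⟫ * δ s) (⟪T v, T s⟫ * δ e)
    simp only [map_sub, map_smul, smul_eq_mul, norm_smul, Real.norm_eq_abs, abs_mul] at a2 a3 ⊢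
    nlinarith [mul_le_mul_of_nonneg_right (le_abs_self M) (norm_nonneg (⟪T v, T e⟫ • T s - ⟪T v, T s⟫ • T e)),
      mul_le_mul_of_nonneg_left (a2.trans (add_le_add_right (mul_le_mul_of_nonneg_right a1
        (norm_nonneg (T e))) _)) (abs_nonneg M), mul_le_mul_of_nonneg_right a1 (abs_nonneg (δ e))]

lemma unb' (hT : Function.Injective T) (h : ∀ M : ℝ, ∃ s, M * ‖T s‖ < |δ s|) (F : Finset V) (M : ℝ) :
    ∃ s, (∀ v ∈ F, ⟪T v, T s⟫ = 0) ∧ ‖T s‖ = 1 ∧ M < |δ s| := by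
  obtain ⟨s, h1, h2⟩ := unb h F M
  have p : 0 < ‖T s‖ := norm_pos_iff.2 fun h0 => by
    simp [hT (h0.trans (map_zero T).symm)] at h2
  refine ⟨‖T s‖⁻¹ • s, fun v hv => by simp [inner_smul_right, h1 v hv], by simp [norm_smul, p.ne'], ?_⟩
  rwa [map_smul, smul_eq_mul, abs_mul, abs_of_pos (inv_pos.2 p), lt_inv_mul_iff₀ p, mul_comm]

lemma step (hT : Function.Injective T) (h : ∀ M : ℝ, ∃ s, M * ‖T s‖ < |δ s|) (f g : V) {ε : ℝ}
    (e0 : 0 < ε) (F : Finset V) : ∃ u w, u ≠ 0 ∧ w ≠ 0 ∧ δ u = 0 ∧ ⟪T f, T w⟫ = 0 ∧ ⟪T u, T w⟫ = 0 ∧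
      (∀ v ∈ F, ⟪T v, T u⟫ = 0 ∧ ⟪T v, T w⟫ = 0) ∧
      ∃ p ∈ Submodule.span ℝ (F : Set V), ‖g - (p + u + w)‖ ≤ ε := by
  classical
  obtain ⟨_, ⟨p, hp, rfl⟩, z, hz, e1⟩ :=
    ((Submodule.span ℝ (F : Set V)).map T).exists_add_mem_mem_orthogonal (T g)
  have a1 : ∀ v ∈ F, ⟪T v, T (g - p)⟫ = 0 := fun v hv => by
    rw [map_sub, e1, add_sub_cancel_left]
    exact hz _ ⟨v, Submodule.subset_span hv, rfl⟩
  obtain ⟨k, k1, k2, k3⟩ : ∃ k, (∀ v ∈ F, ⟪T v, T k⟫ = 0) ∧ δ k ≠ 0 ∧ ‖g - p - k‖ ≤ ε / 2 := by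
    by_cases h0 : δ (g - p) = 0
    · obtain ⟨s, s1, -, s2⟩ := unb' hT h F 0
      refine ⟨g - p + (ε / 2 / (‖s‖ + 1)) • s, fun v hv => ?_, ?_, ?_⟩
      · rw [map_add, inner_add_right, a1 v hv, map_smul, inner_smul_right, s1 v hv]; simp
      · rw [map_add, h0, map_smul, zero_add]
        exact smul_ne_zero (by positivity) (abs_pos.1 s2)
      · rw [sub_add_cancel_left, norm_neg, norm_smul, Real.norm_of_nonneg (by positivity),
          div_mul_eq_mul_div, div_le_iff₀ (by positivity)]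
        nlinarith
    · exact ⟨_, a1, h0, by simp; positivity⟩
  obtain ⟨q, q1, q2, -⟩ := unb' hT h (insert f (insert k F)) 0
  obtain ⟨s, s1, s2, s3⟩ := unb' hT h (insert q (insert f (insert k F))) (|δ q| + 4 * |δ k| * ‖q‖ / ε)
  simp only [Finset.forall_mem_insert] at q1 s1
  have b1 : 4 * |δ k| * ‖q‖ / ε < |δ s - δ q| := by linarith [abs_sub_abs_le_abs_sub (δ s) (δ q)]
  have b2 : 0 < |δ s - δ q| := lt_of_le_of_lt (by positivity) b1
  set η := δ k / (δ s - δ q) with hη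
  have b3 : η ≠ 0 := div_ne_zero k2 (abs_pos.1 b2)
  have b4 : ⟪T q, T q⟫ = 1 := by simp [q2]
  have b5 : ⟪T s, T s⟫ = 1 := by simp [s2]
  have b6 := real_inner_comm (T q) (T s)
  have b7 := real_inner_comm (T k) (T q)
  refine ⟨k - η • s + η • q, η • s + η • q, fun h0 => b3 ?_, fun h0 => b3 ?_, ?_, ?_, ?_,
    fun v hv => ⟨?_, ?_⟩, p, hp, ?_⟩
  · simpa only [map_add, map_sub, map_smul, inner_add_right, inner_sub_right, inner_smul_right, b4, b7,
      q1.2.1, s1.1, map_zero, inner_zero_right, mul_zero, mul_one, sub_zero, zero_add] using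
      congrArg (fun x => ⟪T q, T x⟫) h0
  · simpa only [map_add, map_smul, inner_add_right, inner_smul_right, b4, s1.1, map_zero,
      inner_zero_right, mul_zero, mul_one, zero_add] using congrArg (fun x => ⟪T q, T x⟫) h0
  · simp only [map_add, map_sub, map_smul, smul_eq_mul, hη]
    field_simp [abs_pos.1 b2]; ring
  · simp [inner_add_right, inner_smul_right, q1.1, s1.2.1]
  · simp only [map_add, map_sub, map_smul, inner_add_right, inner_smul_right, inner_add_left,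
      inner_sub_left, real_inner_smul_left, b4, b5, b6, q1.2.1, s1.1, s1.2.2.1]
    ring
  · simp [inner_add_right, inner_sub_right, inner_smul_right, k1 v hv, q1.2.2 v hv, s1.2.2.2 v hv]
  · simp [inner_add_right, inner_smul_right, q1.2.2 v hv, s1.2.2.2 v hv]
  · rw [show g - (p + (k - η • s + η • q) + (η • s + η • q)) = g - p - k - (2 * η) • q by module]
    refine (norm_sub_le _ _).trans ?_
    rw [div_lt_iff₀ e0] at b1
    have : ‖(2 * η) • q‖ ≤ ε / 2 := by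
      rw [norm_smul, Real.norm_eq_abs, abs_mul, hη, abs_div, abs_two, mul_div_assoc', div_mul_eq_mul_div,
        div_le_iff₀ b2]
      linarith
    linarith

theorem sys [TopologicalSpace.SeparableSpace V] (hT : Function.Injective T)
    (h : ∀ M : ℝ, ∃ s, M * ‖T s‖ < |δ s|) (f : V) : ∃ φ : ℕ → V, (∀ n, φ n ≠ 0) ∧
      (∀ m n, m ≠ n → ⟪T (φ m), T (φ n)⟫ = 0) ∧ Dense (Submodule.span ℝ (range φ) : Set V) ∧
      ∀ n, δ (φ n) = 0 ∨ ⟪T f, T (φ n)⟫ = 0 := by
  classical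
  obtain ⟨g, hg⟩ := TopologicalSpace.exists_dense_seq V
  choose u w u0 w0 u1 w1 uw o p hp ap using fun n : ℕ =>
    step hT h f (g n.unpair.1) (Nat.one_div_pos_of_nat (n := n.unpair.2))
  set X : ℕ → Finset V := fun n => n.rec ∅ fun n F => insert (u n F) (insert (w n F) F)
  have x1 : ∀ n, X (n + 1) = insert (u n (X n)) (insert (w n (X n)) (X n)) := fun _ => rfl
  have x2 : Monotone X := monotone_nat_of_le_succ fun n =>
    (Finset.subset_insert _ _).trans (Finset.subset_insert _ _)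
  set ψ : Bool × ℕ → V := fun i => bif i.1 then u i.2 (X i.2) else w i.2 (X i.2)
  have x3 : ∀ i j, i.2 < j.2 → ⟪T (ψ i), T (ψ j)⟫ = 0 := by
    rintro ⟨b, m⟩ ⟨c, n⟩ hl
    have := o n (X n) (ψ (b, m)) (x2 hl (by cases b <;> simp [ψ, x1]))
    cases c
    exacts [this.2, this.1]
  have x4 : ∀ n, (X n : Set V) ⊆ range ψ := fun n => by
    induction n with
    | zero => simp [X]
    | succ n ih =>
      rw [x1, Finset.coe_insert, Finset.coe_insert]
      exact insert_subset ⟨(true, n), rfl⟩ (insert_subset ⟨(false, n), rfl⟩ ih)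
  refine ⟨ψ ∘ Equiv.boolProdNatEquivNat.symm, fun n => ?_, fun m n hn => ?_, ?_, fun n => ?_⟩
  · obtain ⟨⟨b, n⟩, rfl⟩ := Equiv.boolProdNatEquivNat.surjective n
    rw [Function.comp, Equiv.symm_apply_apply]
    cases b
    exacts [w0 _ _, u0 _ _]
  · obtain ⟨⟨b, m⟩, rfl⟩ := Equiv.boolProdNatEquivNat.surjective m
    obtain ⟨⟨c, n⟩, rfl⟩ := Equiv.boolProdNatEquivNat.surjective n
    simp only [Function.comp, Equiv.symm_apply_apply]
    rcases lt_trichotomy m n with h1 | rfl | h1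
    · exact x3 _ _ h1
    · cases b <;> cases c
      exacts [(hn rfl).elim, (real_inner_comm _ _).trans (uw _ _), uw _ _, (hn rfl).elim]
    · exact (real_inner_comm _ _).trans (x3 _ _ h1)
  · rw [Equiv.boolProdNatEquivNat.symm.surjective.range_comp]
    refine Dense.of_closure (hg.mono ?_)
    rintro _ ⟨k, rfl⟩
    refine Metric.mem_closure_iff.2 fun ε e0 => ?_
    obtain ⟨m, hm⟩ := exists_nat_one_div_lt e0
    have := ap (k.pair m) (X (k.pair m))
    rw [Nat.unpair_pair] at this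
    exact ⟨_, add_mem (add_mem (Submodule.span_mono (x4 _) (hp _ _)) (Submodule.subset_span ⟨(true, _), rfl⟩))
      (Submodule.subset_span ⟨(false, _), rfl⟩), (dist_eq_norm _ _).trans_lt (this.trans_lt hm)⟩
  · obtain ⟨⟨b, n⟩, rfl⟩ := Equiv.boolProdNatEquivNat.surjective n
    rw [Function.comp, Equiv.symm_apply_apply]
    cases b
    exacts [.inr (w1 _ _), .inl (u1 _ _)]

end Pool.Agent.H1.Maz
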