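import Mathlib

set_option autoImplicit false
open MeasureTheory Filter Real Topology
open scoped FourierTransform RealInnerProductSpace

namespace Pool.Agent.H1.Mg

variable {V : Type*} [NormedAddCommGroup V] [InnerProductSpace ℝ V]
  [MeasurableSpace V] [BorelSpace V] [FiniteDimensional ℝ V]

lemma avg {k p : V → ℝ} (kc : Continuous k) (kb : ∀ x, |k x| ≤ 1) (ke : ∀ x, k (-x) = k x)
    (kp : ∀ (M : ℕ) (x : Fin M → V), 0 ≤ ∑ i, ∑ j, k (x i - x j))
    (p0 : ∀ x, 0 ≤ p x) (pi : Integrable p) (p1 : ∫ x, p x = 1) :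
    0 ≤ ∫ y, (∫ x, k (y - x) * p x) * p y := by
  set K : V → ℝ := fun y => ∫ x, k (y - x) * p x with hK
  have ik : ∀ y, Integrable fun x => k (y - x) * p x := fun y =>
    pi.bdd_mul (c := 1) (by fun_prop) (Eventually.of_forall fun x => kb _)
  have Kc : Continuous K :=
    continuous_of_dominated (bound := p) (fun y => (ik y).1)
      (fun y => Eventually.of_forall fun x => by
        rw [norm_mul, Real.norm_eq_abs, Real.norm_eq_abs, abs_of_nonneg (p0 x)]
        nlinarith [kb (y - x), p0 x]) pi (Eventually.of_forall fun x => by fun_prop)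
  have Kb : ∀ y, ‖K y‖ ≤ 1 := fun y => by
    refine (norm_integral_le_of_norm_le pi (Eventually.of_forall fun x => ?_)).trans p1.le
    rw [norm_mul, Real.norm_eq_abs, Real.norm_eq_abs, abs_of_nonneg (p0 x)]
    nlinarith [kb (y - x), p0 x]
  have iK : Integrable fun y => K y * p y :=
    pi.bdd_mul (c := 1) Kc.aestronglyMeasurable (Eventually.of_forall Kb)
  set I := ∫ y, K y * p y with hI
  have Q : ∀ j : ℕ, ∀ (M : ℕ) (x : Fin M → V),
      0 ≤ j * (j - 1) * I + j * k 0 + 2 * j * ∑ i, K (x i) + ∑ i, ∑ i', k (x i - x i') := by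
    intro j
    induction j with
    | zero => intro M x; simpa using kp M x
    | succ j ih =>
      intro M x
      set A := j * (j - 1) * I + j * k 0 + 2 * j * ∑ i, K (x i) + ∑ i, ∑ i', k (x i - x i') + k 0
        with hA
      have h1 : ∀ y, 0 ≤ A * p y + 2 * j * (K y * p y) + 2 * ∑ i, k (x i - y) * p y := fun y => by
        have := ih (M + 1) (Fin.cons y x)
        simp only [Fin.sum_univ_succ, Fin.cons_zero, Fin.cons_succ, sub_self,
          Finset.sum_add_distrib] at this
        have e : ∑ i, k (y - x i) = ∑ i, k (x i - y) :=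
          Finset.sum_congr rfl fun i _ => by rw [← ke, neg_sub]
        rw [e] at this
        have := mul_nonneg this (p0 y)
        rw [← Finset.sum_mul, hA]
        linarith
      have h2 : 0 ≤ ∫ y, (A * p y + 2 * j * (K y * p y) + 2 * ∑ i, k (x i - y) * p y) :=
        integral_nonneg h1
      have i3 : Integrable fun y => ∑ i, k (x i - y) * p y :=
        integrable_finsetSum _ fun i _ => ik (x i)
      have i4 : Integrable fun y => A * p y + 2 * j * (K y * p y) :=
        (pi.const_mul _).add (iK.const_mul _)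
      rw [integral_add i4 (i3.const_mul _),
        integral_add (pi.const_mul _) (iK.const_mul _), integral_const_mul, integral_const_mul,
        integral_const_mul, integral_finsetSum _ fun i _ => ik (x i), p1] at h2
      push_cast
      change 0 ≤ A * 1 + 2 * j * I + 2 * ∑ i, K (x i) at h2
      rw [hA] at h2
      linarith
  by_contra hneg
  push Not at hneg
  obtain ⟨j, hj⟩ := exists_nat_gt (1 + 1 / -I)
  have h := Q j 0 Fin.elim0
  simp only [Finset.univ_eq_empty, Finset.sum_empty, mul_zero, add_zero] at h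
  have h1 : 1 / -I * -I = 1 := one_div_mul_cancel (by linarith)
  have h2 : 0 < 1 / -I := by apply one_div_pos.2; linarith
  have h3 := (abs_le.1 (kb 0)).2
  have h4 : ((j:ℝ) - 1) * I < -1 := by nlinarith
  have h5 : (0:ℝ) < j := by linarith
  nlinarith

lemma gint {b : ℝ} (hb : 0 < b) : Integrable fun v : V => Real.exp (-b * ‖v‖ ^ 2) := by
  have := (GaussianFourier.integrable_cexp_neg_mul_sq_norm_add (V := V) (b := b) (by simpa) 0 0).norm
  refine this.congr (Eventually.of_forall fun v => ?_)
  simp only [zero_mul, add_zero, Complex.norm_exp]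
  congr 1
  norm_cast

lemma gpos {b : ℝ} (hb : 0 < b) : 0 < ∫ v : V, Real.exp (-b * ‖v‖ ^ 2) :=
  integral_exp_pos (gint hb)

lemma int_nonneg {k : V → ℝ} (kc : Continuous k) (kb : ∀ x, |k x| ≤ 1) (ke : ∀ x, k (-x) = k x)
    (kp : ∀ (M : ℕ) (x : Fin M → V), 0 ≤ ∑ i, ∑ j, k (x i - x j)) (ki : Integrable k) :
    0 ≤ ∫ x, k x := by
  have step : ∀ b : ℝ, 0 < b → 0 ≤ ∫ z, Real.exp (-b * ‖z‖ ^ 2) * k z := by
    intro b hb
    have hb2 : 0 < 2 * b := by linarith
    set C := ∫ v : V, Real.exp (-(2 * b) * ‖v‖ ^ 2) with hC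
    have C0 : 0 < C := gpos hb2
    set p : V → ℝ := fun v => Real.exp (-(2 * b) * ‖v‖ ^ 2) / C with hp
    have pi : Integrable p := (gint hb2).div_const _
    have h := avg kc kb ke kp (p := p) (fun x => by positivity) pi
      (by rw [hp, integral_div]; exact div_self C0.ne')
    have e1 : ∀ y, (∫ x, k (y - x) * p x) * p y = ∫ z, k z * (p (y - z) * p y) := fun y => by
      rw [← integral_sub_left_eq_self (fun x => k (y - x) * p x) volume y, ← integral_mul_const]
      simp only [sub_sub_cancel, mul_assoc]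
    simp only [e1] at h
    have pb : ∀ v, ‖p v‖ ≤ 1 / C := fun v => by
      rw [Real.norm_of_nonneg (by positivity)]
      exact div_le_div_of_nonneg_right (Real.exp_le_one_iff.2 (by nlinarith [sq_nonneg ‖v‖])) C0.le
    rw [integral_integral_swap] at h
    · have e2 : ∀ z, ∫ y, k z * (p (y - z) * p y) = Real.exp (-b * ‖z‖ ^ 2) * k z *
          ((∫ v : V, Real.exp (-(4 * b) * ‖v‖ ^ 2)) / C ^ 2) := fun z => by
        rw [← integral_sub_right_eq_self (fun v : V => Real.exp (-(4 * b) * ‖v‖ ^ 2))
          ((1 / 2 : ℝ) • z), ← integral_div, ← integral_const_mul]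
        congr 1 with y
        have n1 := norm_sub_sq_real y z
        have n2 := norm_sub_sq_real y ((1 / 2 : ℝ) • z)
        rw [real_inner_smul_right, norm_smul, Real.norm_of_nonneg (by norm_num)] at n2
        have : Real.exp (-(2 * b) * ‖y - z‖ ^ 2) * Real.exp (-(2 * b) * ‖y‖ ^ 2) =
            Real.exp (-b * ‖z‖ ^ 2) * Real.exp (-(4 * b) * ‖y - (1 / 2 : ℝ) • z‖ ^ 2) := by
          rw [← Real.exp_add, ← Real.exp_add, n1, n2]; congr 1; ring
        simp only [hp]
        linear_combination k z / C ^ 2 * this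
      simp only [e2] at h
      rw [integral_mul_const] at h
      exact nonneg_of_mul_nonneg_left h (div_pos (gpos (by linarith)) (by positivity))
    · have := (pi.mul_prod ki).bdd_mul (f := fun q : V × V => p (q.1 - q.2)) (c := 1 / C)
        (Continuous.aestronglyMeasurable (by simp only [hp]; fun_prop))
        (Eventually.of_forall fun q => pb _)
      refine this.congr (Eventually.of_forall fun q => ?_)
      simp only [Function.uncurry]; ring
  have lim := Real.tendsto_integral_cexp_sq_smul (f := fun v => (k v : ℂ)) ki.ofReal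
  have lim2 := (Complex.continuous_re.tendsto _).comp lim
  rw [integral_complex_ofReal, Complex.ofReal_re] at lim2
  refine ge_of_tendsto lim2 ?_
  filter_upwards [Ioi_mem_atTop 0] with c (hc : 0 < c)
  have := step c⁻¹ (by positivity)
  simp only [Function.comp, smul_eq_mul]
  have e : ∀ v : V, Complex.exp (-((c⁻¹ : ℝ) : ℂ) * (‖v‖:ℂ) ^ 2) * (k v : ℂ)
      = ((Real.exp (-c⁻¹ * ‖v‖ ^ 2) * k v : ℝ) : ℂ) := fun v => by push_cast; ring
  simp only [e]
  rwa [integral_complex_ofReal, Complex.ofReal_re]

theorem bochner {φ : V → ℝ} (kc : Continuous φ) (kb : ∀ x, |φ x| ≤ 1) (ke : ∀ x, φ (-x) = φ x)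
    (k0 : φ 0 = 1) (kp : ∀ (M : ℕ) (x : Fin M → V) (c : Fin M → ℝ),
      0 ≤ ∑ i, ∑ j, c i * c j * φ (x i - x j)) (ki : Integrable φ) :
    ∃ μ : Measure V, IsProbabilityMeasure μ ∧ ∀ v, charFun μ ((2 * π) • v) = φ v := by
  set f : V → ℂ := fun v => φ v with hf
  have fi : Integrable f := ki.ofReal
  set g : V → ℝ := fun w => ∫ v, φ v * cos (2 * π * ⟪v, w⟫) with hg
  have g0 : ∀ w, 0 ≤ g w := fun w => by
    refine int_nonneg (by fun_prop) (fun x => ?_) (fun x => by simp [ke]) (fun M x => ?_)
      (ki.mul_bdd (c := 1) (by fun_prop) (Eventually.of_forall fun x => abs_cos_le_one _))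
    · rw [abs_mul]; exact mul_le_one₀ (kb x) (abs_nonneg _) (abs_cos_le_one _)
    · have h1 := kp M x fun i => cos (2 * π * ⟪x i, w⟫)
      have h2 := kp M x fun i => sin (2 * π * ⟪x i, w⟫)
      refine (add_nonneg h1 h2).trans (le_of_eq ?_)
      simp only [← Finset.sum_add_distrib, inner_sub_left, mul_sub, cos_sub]
      exact Finset.sum_congr rfl fun i _ => Finset.sum_congr rfl fun j _ => by ring
  have hF : ∀ w, 𝓕 f w = g w := fun w => by
    have is : Integrable fun v => φ v * sin (2 * π * ⟪v, w⟫) :=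
      ki.mul_bdd (c := 1) (by fun_prop) (Eventually.of_forall fun x => abs_sin_le_one _)
    have ic : Integrable fun v => φ v * cos (2 * π * ⟪v, w⟫) :=
      ki.mul_bdd (c := 1) (by fun_prop) (Eventually.of_forall fun x => abs_cos_le_one _)
    have s0 : ∫ v, φ v * sin (2 * π * ⟪v, w⟫) = 0 := by
      have := integral_neg_eq_self (fun v => φ v * sin (2 * π * ⟪v, w⟫)) volume
      simp only [ke, inner_neg_left, mul_neg, sin_neg, integral_neg] at this
      linarith
    rw [Real.fourier_eq']
    have e : ∀ v, Complex.exp (↑(-2 * π * ⟪v, w⟫) * Complex.I) • f v =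
        ((φ v * cos (2 * π * ⟪v, w⟫) : ℝ) : ℂ) -
          ((φ v * sin (2 * π * ⟪v, w⟫) : ℝ) : ℂ) * Complex.I := fun v => by
      rw [Complex.exp_mul_I, ← Complex.ofReal_cos, ← Complex.ofReal_sin,
        show -2 * π * ⟪v, w⟫ = -(2 * π * ⟪v, w⟫) by ring, cos_neg, sin_neg]
      simp only [hf, smul_eq_mul]; push_cast; ring
    simp only [e]
    rw [integral_sub ic.ofReal (is.ofReal.mul_const _), integral_mul_const, integral_complex_ofReal,
      integral_complex_ofReal, s0]
    simp [hg]
  have gc : Continuous g := by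
    have : Continuous (𝓕 f) :=
      VectorFourier.fourierIntegral_continuous Real.continuous_fourierChar
        (by exact continuous_inner) fi
    have h2 := Complex.continuous_re.comp this
    refine h2.congr fun w => ?_
    simp [hF]
  have gb : ∀ w, ‖g w‖ ≤ ∫ v, ‖φ v‖ := fun w =>
    norm_integral_le_of_norm_le ki.norm (Eventually.of_forall fun x => by
      rw [norm_mul]; exact mul_le_of_le_one_right (norm_nonneg _) (abs_cos_le_one _))
  have lim : Tendsto (fun c : ℝ => ∫ w, Real.exp (-c⁻¹ * ‖w‖ ^ 2) * g w) atTop (𝓝 1) := by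
    have B := Real.tendsto_integral_gaussian_smul' fi (v := 0)
      (Complex.continuous_ofReal.comp kc).continuousAt
    have B2 := (Complex.continuous_re.tendsto _).comp B
    simp only [hf, k0, Complex.ofReal_one, Complex.one_re] at B2
    refine B2.congr' ?_
    filter_upwards [Ioi_mem_atTop 0] with c (hc : 0 < c)
    have J : Integrable (fun w : V => Complex.exp (- c⁻¹ * ‖w‖ ^ 2 + 2 * π * Complex.I * ⟪(0:V), w⟫)) :=
      GaussianFourier.integrable_cexp_neg_mul_sq_norm_add (by simpa) _ _
    have K : ∫ w : V, 𝓕 (fun w : V => Complex.exp (- c⁻¹ * ‖w‖ ^ 2 + 2 * π * Complex.I * ⟪(0:V), w⟫)) w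
        • f w = ∫ w : V, Complex.exp (- c⁻¹ * ‖w‖ ^ 2 + 2 * π * Complex.I * ⟪(0:V), w⟫) • 𝓕 f w := by
      simpa using! (VectorFourier.integral_fourierIntegral_smul_eq_flip (L := innerₗ V)
        Real.continuous_fourierChar continuous_inner J fi)
    have K2 : ∫ w : V, Complex.exp (- c⁻¹ * ‖w‖ ^ 2 + 2 * π * Complex.I * ⟪(0:V), w⟫) • 𝓕 f w
        = ((∫ w, Real.exp (-c⁻¹ * ‖w‖ ^ 2) * g w : ℝ) : ℂ) := by
      rw [← integral_complex_ofReal]
      congr 1 with w
      simp [hF]
    simp only [Function.comp]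
    rw [← Complex.ofReal_re (∫ w, Real.exp (-c⁻¹ * ‖w‖ ^ 2) * g w), ← K2, ← K]
    congr 2 with w
    rw [fourier_gaussian_innerProductSpace' (by simpa)]
    congr 1
    congr 1
    · simp
    · congr 1; simp; ring
  have gi : Integrable g := by
    refine ⟨gc.aestronglyMeasurable, ?_⟩
    rw [hasFiniteIntegral_iff_ofReal (Eventually.of_forall g0)]
    have l2 := lim.comp tendsto_natCast_atTop_atTop
    have hfat := lintegral_liminf_le (μ := (volume : Measure V)) (u := atTop)
      (f := fun (n : ℕ) w => ENNReal.ofReal (Real.exp (-(n:ℝ)⁻¹ * ‖w‖ ^ 2) * g w))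
      (fun n => by fun_prop)
    have e1 : ∀ w, liminf (fun n : ℕ => ENNReal.ofReal (Real.exp (-(n:ℝ)⁻¹ * ‖w‖ ^ 2) * g w)) atTop
        = ENNReal.ofReal (g w) := fun w => by
      refine Tendsto.liminf_eq (ENNReal.tendsto_ofReal ?_)
      have := (((tendsto_inv_atTop_zero.comp (tendsto_natCast_atTop_atTop (R := ℝ))).neg.mul_const
        (‖w‖ ^ 2)).rexp).mul_const (g w)
      simpa using this
    have e2 : liminf (fun n : ℕ => ∫⁻ w, ENNReal.ofReal (Real.exp (-(n:ℝ)⁻¹ * ‖w‖ ^ 2) * g w)) atTop
        = ENNReal.ofReal 1 := by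
      refine Tendsto.liminf_eq ((ENNReal.tendsto_ofReal l2).congr' ?_)
      filter_upwards [Ioi_mem_atTop 0] with n (hn : 0 < n)
      refine ofReal_integral_eq_lintegral_ofReal ((gint (by positivity)).mul_bdd
        gc.aestronglyMeasurable (Eventually.of_forall gb))
        (Eventually.of_forall fun w => mul_nonneg (exp_nonneg _) (g0 w))
    simp only [e1, e2] at hfat
    exact hfat.trans_lt ENNReal.ofReal_lt_top
  have Fi : Integrable (𝓕 f) := by
    rw [show 𝓕 f = fun w => (g w : ℂ) from funext hF]; exact gi.ofReal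
  have inv := (Complex.continuous_ofReal.comp kc).fourierInv_fourier_eq fi Fi
  set μ : Measure V := volume.withDensity fun w => ENNReal.ofReal (g w) with hμ
  have : IsFiniteMeasure μ := isFiniteMeasure_withDensity_ofReal gi.2
  have hc : ∀ v, charFun μ ((2 * π) • v) = φ v := fun v => by
    have := congrFun inv v
    simp only [Function.comp] at this
    rw [← this, Real.fourierInv_eq', charFun_apply, hμ,
      integral_withDensity_eq_integral_toReal_smul (by fun_prop) (by simp)]
    congr 1 with w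
    rw [ENNReal.toReal_ofReal (g0 w)]
    change _ = _ • 𝓕 f w
    rw [hF, real_inner_smul_right]
    simp [mul_comm]
  refine ⟨μ, ⟨?_⟩, hc⟩
  have := hc 0
  rw [smul_zero, charFun_zero, k0] at this
  have h2 : μ.real Set.univ = 1 := by exact_mod_cast this
  exact (ENNReal.toReal_eq_one_iff _).1 h2

end Pool.Agent.H1.Mg
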