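import Pool.Agent.H1.MgA

set_option autoImplicit false
open MeasureTheory Filter Real Topology Set
open scoped RealInnerProductSpace

namespace Pool.Agent.H1.Mg

lemma tail {κ : Measure ℝ} [IsProbabilityMeasure κ]
    (h : ∀ t, charFun κ t = (Real.exp (-(|t| / (2 * π))) : ℝ)) {T : ℝ} (hT : 0 < T) :
    κ.real {c | T < |c|} ≤ T⁻¹ := by
  refine (measureReal_abs_gt_le_integral_charFun hT).trans ?_
  have hp := pi_gt_three
  have hi : 0 < T⁻¹ := by positivity
  have := intervalIntegral.norm_integral_le_of_norm_le_const (a := -2 * T⁻¹) (b := 2 * T⁻¹)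
    (f := fun t => 1 - charFun κ t) (C := T⁻¹ / 2) fun t ht => by
      rw [uIoc_of_le (by linarith)] at ht
      have h1 : |t| ≤ 2 * T⁻¹ := abs_le.2 ⟨by linarith [ht.1], ht.2⟩
      have h2 : |t| / (2 * π) ≤ T⁻¹ / 2 := by
        rw [div_le_iff₀ (by positivity)]; nlinarith
      have h3 := Real.add_one_le_exp (-(|t| / (2 * π)))
      have h4 : Real.exp (-(|t| / (2 * π))) ≤ 1 :=
        Real.exp_le_one_iff.2 (neg_nonpos.2 (by positivity))
      simp only [h]
      rw [← Complex.ofReal_one, ← Complex.ofReal_sub, Complex.norm_real, Real.norm_of_nonneg (by linarith)]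
      linarith
  rw [abs_of_pos (by linarith)] at this
  have h5 : T * T⁻¹ = 1 := mul_inv_cancel₀ hT.ne'
  calc _ ≤ 2⁻¹ * T * (T⁻¹ / 2 * (2 * T⁻¹ - -2 * T⁻¹)) := by gcongr
    _ = T⁻¹ := by linear_combination T⁻¹ * h5

lemma unb {κ : Measure ℝ} [IsProbabilityMeasure κ]
    (h : ∀ t, charFun κ t = (Real.exp (-(|t| / (2 * π))) : ℝ)) (L : ℝ) :
    ∃ T : ℝ, 0 < T ∧ L < ∫ c, min |c| T ∂κ := by
  by_contra hc
  push Not at hc
  have hi : Integrable (fun c : ℝ => c) κ := by
    refine ⟨by fun_prop, ?_⟩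
    have hfat := lintegral_liminf_le (μ := κ) (u := atTop)
      (f := fun (n : ℕ) c => ENNReal.ofReal (min |c| (n + 1))) (fun n => by fun_prop)
    have e1 : ∀ c : ℝ, liminf (fun n : ℕ => ENNReal.ofReal (min |c| (n + 1))) atTop = ‖c‖ₑ :=
      fun c => by
      refine Tendsto.liminf_eq (tendsto_const_nhds.congr' ?_)
      filter_upwards [tendsto_natCast_atTop_atTop.eventually_ge_atTop |c|] with n hn
      rw [min_eq_left (by linarith), ← ofReal_norm, Real.norm_eq_abs]
    simp only [e1] at hfat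
    refine hfat.trans_lt (lt_of_le_of_lt (liminf_le_of_frequently_le' (x := ENNReal.ofReal L)
      (Frequently.of_forall fun n => ?_)) ENNReal.ofReal_lt_top)
    rw [← ofReal_integral_eq_lintegral_ofReal
      (Integrable.of_bound (by fun_prop) (n + 1) (Eventually.of_forall fun c => by
        rw [Real.norm_of_nonneg (by positivity)]; exact min_le_right _ _))
      (Eventually.of_forall fun c => by positivity)]
    exact ENNReal.ofReal_le_ofReal (hc _ (by positivity))
  have h1 : DifferentiableAt ℝ (charFun κ) 0 :=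
    ((contDiff_charFun (n := 1) (by simpa [memLp_one_iff_integrable] using! hi)).differentiable
      (by simp)) 0
  have h2 : DifferentiableAt ℝ (fun t => (charFun κ t).re) 0 :=
    Complex.reCLM.differentiableAt.comp 0 h1
  simp only [h, Complex.ofReal_re] at h2
  have h3 := (h2.log (Real.exp_pos _).ne').const_mul (-(2 * π))
  simp only [Real.log_exp] at h3
  refine not_differentiableAt_abs_zero (h3.congr_of_eventuallyEq (Eventually.of_forall fun t => ?_))
  have := pi_pos
  field_simp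

variable {V : Type*} [NormedAddCommGroup V] [InnerProductSpace ℝ V]
  [MeasurableSpace V] [BorelSpace V] [FiniteDimensional ℝ V]

theorem approx {ψ : V → ℝ} (p0 : ∀ v, 0 ≤ ψ v) (ph : ∀ (t : ℝ) v, ψ (t • v) = |t| * ψ v)
    {v0 : V} (h0 : ψ v0 = 1) {μ : Measure V} [IsProbabilityMeasure μ]
    (hμ : ∀ v, charFun μ ((2 * π) • v) = (Real.exp (-ψ v) : ℝ))
    {ι : Type} [Fintype ι] (z : ι → V) {γ : ℝ} (hγ : 0 < γ) :
    ∃ ν : Measure V, IsFiniteMeasure ν ∧ ∀ i, Integrable (fun ξ => |⟪ξ, z i⟫|) ν ∧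
      ψ (z i) * (1 - γ) ≤ ∫ ξ, |⟪ξ, z i⟫| ∂ν ∧ ∫ ξ, |⟪ξ, z i⟫| ∂ν ≤ ψ (z i) := by
  have hp := pi_pos
  have hm : ∀ v t, charFun (μ.map fun ξ => ⟪ξ, v⟫) t = (Real.exp (-(|t| * ψ v / (2 * π))) : ℝ) :=
    fun v t => by
    have := hμ ((t / (2 * π)) • v)
    rw [smul_smul, mul_div_cancel₀ _ (by positivity), ph, abs_div, abs_of_pos (a := 2 * π)
      (by positivity)] at this
    rw [← div_mul_eq_mul_div, ← this, charFun_apply_real, integral_map (by fun_prop) (by fun_prop),
      charFun_apply]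
    simp only [real_inner_smul_right]; push_cast; rfl
  set κ := μ.map fun ξ => ⟪ξ, v0⟫ with hκ
  have : IsProbabilityMeasure κ := Measure.isProbabilityMeasure_map (by fun_prop)
  have hk : ∀ t, charFun κ t = (Real.exp (-(|t| / (2 * π))) : ℝ) := fun t => by
    rw [hκ, hm, h0, mul_one]
  have law : ∀ v, (μ.map fun ξ => ⟪ξ, v⟫) = κ.map (ψ v * ·) := fun v => by
    refine Measure.ext_of_charFun (funext fun t => ?_)
    rw [charFun_map_mul, hk, hm, abs_mul, abs_of_nonneg (p0 v), mul_comm]
  obtain ⟨T, hT, hH⟩ := unb hk (Fintype.card ι / γ)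
  set H := ∫ c, min |c| T ∂κ with hHdef
  have H0 : 0 < H := lt_of_le_of_lt (by positivity) hH
  have hH2 : Fintype.card ι ≤ γ * H := by rw [div_lt_iff₀ hγ] at hH; linarith
  set E : Set V := {ξ | ∀ i, |⟪ξ, z i⟫| ≤ ψ (z i) * T} with hE
  have Em : MeasurableSet E := by
    rw [hE, ofPred_forall]
    exact MeasurableSet.iInter fun i => measurableSet_le (by fun_prop) (by fun_prop)
  have Ec : μ.real Eᶜ ≤ Fintype.card ι * T⁻¹ := by
    have : Eᶜ = ⋃ i, (fun ξ => ⟪ξ, z i⟫) ⁻¹' {c | ψ (z i) * T < |c|} := by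
      ext ξ; simp [hE]
    rw [this]
    refine (measureReal_iUnion_fintype_le _).trans ?_
    rw [← nsmul_eq_mul, ← Finset.card_univ]
    refine Finset.sum_le_card_nsmul _ _ _ fun i _ => ?_
    have ms : MeasurableSet {c : ℝ | ψ (z i) * T < |c|} := measurableSet_lt (by fun_prop) (by fun_prop)
    rw [← map_measureReal_apply (by fun_prop) ms, law, map_measureReal_apply (by fun_prop) ms]
    refine (measureReal_mono fun c hc => ?_).trans (tail hk hT)
    simp only [mem_preimage, mem_ofPred_eq, abs_mul, abs_of_nonneg (p0 _)] at hc ⊢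
    exact lt_of_mul_lt_mul_left hc (p0 _)
  refine ⟨ENNReal.ofReal H⁻¹ • μ.restrict E, ⟨?_⟩, fun i => ?_⟩
  · simp only [Measure.smul_apply, smul_eq_mul]
    exact ENNReal.mul_lt_top ENNReal.ofReal_lt_top (measure_lt_top _ _)
  have q0 := p0 (z i)
  set m : V → ℝ := fun ξ => min |⟪ξ, z i⟫| (ψ (z i) * T) with hmdef
  have mb : ∀ ξ, ‖m ξ‖ ≤ ψ (z i) * T := fun ξ => by
    rw [Real.norm_of_nonneg (by positivity)]; exact min_le_right _ _
  have mi : Integrable m μ := Integrable.of_bound (by fun_prop) _ (Eventually.of_forall mb)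
  have e1 : ∫ ξ, m ξ ∂μ = ψ (z i) * H := by
    rw [← integral_map (φ := fun ξ => ⟪ξ, z i⟫) (f := fun c => min |c| (ψ (z i) * T)) (by fun_prop)
      (by fun_prop), law, integral_map (by fun_prop) (by fun_prop), hHdef, ← integral_const_mul]
    congr 1 with c
    rw [abs_mul, abs_of_nonneg q0, mul_min_of_nonneg _ _ q0]
  have e2 : ∀ ξ ∈ E, m ξ = |⟪ξ, z i⟫| := fun ξ hξ => min_eq_left (hξ i)
  have e3 : ∫ ξ in E, |⟪ξ, z i⟫| ∂μ = ∫ ξ in E, m ξ ∂μ :=
    setIntegral_congr_fun Em fun ξ hξ => (e2 ξ hξ).symm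
  have e4 := integral_add_compl Em mi
  have e5 : 0 ≤ ∫ ξ in Eᶜ, m ξ ∂μ := integral_nonneg fun ξ => by positivity
  have e6 : ∫ ξ in Eᶜ, m ξ ∂μ ≤ ψ (z i) * (γ * H) := by
    refine ((le_abs_self _).trans (norm_setIntegral_le_of_norm_le_const (measure_lt_top _ _)
      fun ξ _ => mb ξ)).trans ?_
    have h5 : T * T⁻¹ = 1 := mul_inv_cancel₀ hT.ne'
    calc _ ≤ ψ (z i) * T * (Fintype.card ι * T⁻¹) := by gcongr
      _ = ψ (z i) * Fintype.card ι := by linear_combination ψ (z i) * Fintype.card ι * h5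
      _ ≤ _ := by gcongr
  refine ⟨Integrable.smul_measure ?_ ENNReal.ofReal_ne_top, ?_⟩
  · exact (mi.integrableOn (s := E)).congr_fun e2 Em
  rw [integral_smul_measure, ENNReal.toReal_ofReal (by positivity), e3, smul_eq_mul,
    inv_mul_eq_div, le_div_iff₀ H0, div_le_iff₀ H0]
  constructor <;> linarith

noncomputable def col (r : V → ℝ) : List V → V → ℝ → ℝ
  | [], _, s => s
  | p :: L, ξ, s => col r L ξ s - max 0 (min (col r L ξ s - (col r L ξ ⟪ξ, p⟫ - r ξ)) (2 * r ξ))

omit [MeasurableSpace V] [BorelSpace V] [FiniteDimensional ℝ V]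

lemma col_cont {r : V → ℝ} (hr : Continuous r) (L : List V) :
    ∀ f : V → ℝ, Continuous f → Continuous fun ξ => col r L ξ (f ξ) := by
  induction L with
  | nil => exact fun f hf => hf
  | cons p L ih =>
    intro f hf
    have h1 := ih f hf
    have h2 := ih (fun ξ => ⟪ξ, p⟫) (by fun_prop)
    simp only [col]
    fun_prop

lemma col_mono {r : V → ℝ} (L : List V) (ξ : V) {s s' : ℝ} (h : s ≤ s') :
    0 ≤ col r L ξ s' - col r L ξ s ∧ col r L ξ s' - col r L ξ s ≤ s' - s := by
  induction L with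
  | nil => simp [col, h]
  | cons p L ih =>
    simp only [col]
    generalize col r L ξ ⟪ξ, p⟫ - r ξ = q
    obtain ⟨h1, h2⟩ := ih
    simp only [max_def, min_def]
    split_ifs <;> constructor <;> linarith

lemma col_bd {r : V → ℝ} (L : List V) (ξ : V) (hr : 0 ≤ r ξ) (s : ℝ) :
    0 ≤ s - col r L ξ s ∧ s - col r L ξ s ≤ 2 * r ξ * L.length := by
  induction L with
  | nil => simp [col]
  | cons p L ih =>
    simp only [col, List.length_cons]
    push_cast
    obtain ⟨h1, h2⟩ := ih
    simp only [max_def, min_def]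
    split_ifs <;> constructor <;> linarith

lemma col_const {r : V → ℝ} (L : List V) (ξ : V) {p : V} (hp : p ∈ L) {s : ℝ}
    (hs : |s - ⟪ξ, p⟫| ≤ r ξ) : col r L ξ s = col r L ξ ⟪ξ, p⟫ := by
  induction L with
  | nil => simp at hp
  | cons q L ih =>
    simp only [col]
    rcases List.mem_cons.1 hp with rfl | h
    · obtain ⟨a1, a2⟩ := abs_le.1 hs
      have : |col r L ξ s - col r L ξ ⟪ξ, p⟫| ≤ r ξ := by
        rcases le_total s ⟪ξ, p⟫ with h | h <;> obtain ⟨b1, b2⟩ := col_mono (r := r) L ξ h <;>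
          exact abs_le.2 ⟨by linarith, by linarith⟩
      obtain ⟨c1, c2⟩ := abs_le.1 this
      rw [min_eq_left (by linarith), max_eq_right (by linarith), min_eq_left (by linarith),
        max_eq_right (by linarith)]
      ring
    · rw [ih h]

lemma col_split {r : V → ℝ} (L : List V) (ξ : V) (s s' : ℝ) :
    |s - s'| = |(s - col r L ξ s) - (s' - col r L ξ s')| + |col r L ξ s - col r L ξ s'| := by
  rcases le_total s s' with h | h <;> obtain ⟨b1, b2⟩ := col_mono (r := r) L ξ h
  · rw [abs_of_nonpos (by linarith), abs_of_nonpos (by linarith), abs_of_nonpos (by linarith)]; ring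
  · rw [abs_of_nonneg (by linarith), abs_of_nonneg (by linarith), abs_of_nonneg (by linarith)]; ring

lemma minpsd {ι : Type} [Fintype ι] (a w : ι → ℝ) (ha : ∀ i, 0 ≤ a i) :
    0 ≤ ∑ i, ∑ j, w i * w j * min (a i) (a j) := by
  let f : ι → ℝ → ℝ := fun i => (Ioc 0 (a i)).indicator 1
  have e0 : ∀ i j t, f i t * f j t = (Ioc 0 (min (a i) (a j))).indicator 1 t := fun i j t => by
    simp only [f]; rw [← inter_indicator_mul, Ioc_inter_Ioc]; simp [Pi.one_def]
  have fi : ∀ i j, Integrable fun t => w i * w j * (f i t * f j t) := fun i j => by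
    simp only [e0]
    exact ((integrable_indicator_iff measurableSet_Ioc).2 (integrableOn_const (by simp))).const_mul _
  have e1 : ∀ i j, w i * w j * min (a i) (a j) = ∫ t, w i * w j * (f i t * f j t) := fun i j => by
    simp only [e0]
    rw [integral_const_mul, integral_indicator_one measurableSet_Ioc]
    simp [ha]
  simp only [e1]
  simp only [← integral_finsetSum _ fun j _ => fi _ j]
  rw [← integral_finsetSum _ fun i _ => integrable_finsetSum _ fun j _ => fi i j]
  refine integral_nonneg fun t => ?_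
  have : ∑ i, ∑ j, w i * w j * (f i t * f j t) = (∑ i, w i * f i t) ^ 2 := by
    rw [sq, Finset.sum_mul_sum]
    exact Finset.sum_congr rfl fun i _ => Finset.sum_congr rfl fun j _ => by ring
  simp only [this]
  positivity

lemma abspsd {ι : Type} [Fintype ι] (a w : ι → ℝ) {η : ℝ} (ha : ∀ i, 0 ≤ a i ∧ a i ≤ η) :
    0 ≤ ∑ i, ∑ j, w i * w j * (η - |a i - a j|) := by
  refine (add_nonneg (minpsd a w fun i => (ha i).1)
    (minpsd (fun i => η - a i) w fun i => sub_nonneg.2 (ha i).2)).trans (le_of_eq ?_)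
  simp only [← Finset.sum_add_distrib, ← mul_add]
  refine Finset.sum_congr rfl fun i _ => Finset.sum_congr rfl fun j _ => ?_
  congr 1
  rcases le_total (a i) (a j) with h | h
  · rw [min_eq_left h, min_eq_right (by linarith), abs_of_nonpos (by linarith)]; ring
  · rw [min_eq_right h, min_eq_left (by linarith), abs_of_nonneg (by linarith)]; ring

lemma psd_iff {ι : Type} [Fintype ι] {A : Matrix ι ι ℝ} : A.PosSemidef ↔
    (∀ i j, A i j = A j i) ∧ ∀ w : ι → ℝ, 0 ≤ ∑ i, ∑ j, w i * w j * A i j := by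
  rw [Matrix.posSemidef_iff_dotProduct_mulVec]
  refine and_congr ⟨fun h i j => by simpa using h.apply j i,
    fun h => Matrix.IsHermitian.ext fun i j => by simpa using h j i⟩ (forall_congr' fun w => ?_)
  simp only [star_trivial, dotProduct, Matrix.mulVec, Finset.mul_sum]
  rw [Finset.sum_congr rfl fun i _ => Finset.sum_congr rfl fun j _ =>
    (show w i * (A i j * w j) = w i * w j * A i j by ring)]

lemma exppsd {ι : Type} [Fintype ι] {A B : Matrix ι ι ℝ} (hA : A.PosSemidef) (hB : B.PosSemidef)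
    (w : ι → ℝ) : ∑ i, ∑ j, w i * w j * B i j ≤ ∑ i, ∑ j, w i * w j * (Real.exp (A i j) * B i j) := by
  have hk : ∀ k : ℕ, (Matrix.of fun i j => A i j ^ k * B i j).PosSemidef := by
    intro k
    induction k with
    | zero => simpa using! hB
    | succ k ih =>
      have e : (Matrix.of fun i j => A i j ^ (k + 1) * B i j) =
          A.hadamard (Matrix.of fun i j => A i j ^ k * B i j) := by
        ext i j; simp [pow_succ]; ring
      rw [e]
      exact hA.hadamard ih
  have hs : HasSum (fun k : ℕ => ∑ i, ∑ j, w i * w j * (A i j ^ k / k.factorial * B i j))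
      (∑ i, ∑ j, w i * w j * (Real.exp (A i j) * B i j)) :=
    hasSum_sum fun i _ => hasSum_sum fun j _ => by
      rw [Real.exp_eq_exp_ℝ]
      exact ((NormedSpace.expSeries_div_hasSum_exp (A i j)).mul_right _).mul_left _
  have := le_hasSum hs 0 fun k _ => by
    have := div_nonneg ((psd_iff.1 (hk k)).2 w) (Nat.cast_nonneg (α := ℝ) k.factorial)
    refine this.trans (le_of_eq ?_)
    simp only [Finset.sum_div, Matrix.of_apply]
    exact Finset.sum_congr rfl fun i _ => Finset.sum_congr rfl fun j _ => by ring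
  simpa using this

end Pool.Agent.H1.Mg
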