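import Pool.Agent.H1.MgB

set_option autoImplicit false
open MeasureTheory Filter Real Topology Set
open scoped RealInnerProductSpace

namespace Pool.Agent.H1.Mg

lemma lam {κ : Type} [Fintype κ] [Nonempty κ] {Z : κ → κ → ℝ}
    (hZ : ∀ w : κ → ℝ, w ≠ 0 → 0 < ∑ i, ∑ j, w i * w j * Z i j) :
    ∃ l > 0, ∀ w : κ → ℝ, l * ‖w‖ ^ 2 ≤ ∑ i, ∑ j, w i * w j * Z i j := by
  obtain ⟨u, hu, hmin⟩ := (isCompact_sphere (0 : κ → ℝ) 1).exists_isMinOn
    ⟨fun _ => 1, by simp⟩ (f := fun w => ∑ i, ∑ j, w i * w j * Z i j) (by fun_prop)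
  have u1 : ‖u‖ = 1 := by simpa using hu
  refine ⟨_, hZ u (by rintro rfl; simp at u1), fun w => ?_⟩
  rcases eq_or_ne w 0 with rfl | hw
  · simp
  have n0 : 0 < ‖w‖ := norm_pos_iff.2 hw
  have := hmin (a := ‖w‖⁻¹ • w) (by simp [norm_smul, n0.ne'])
  simp only [mem_ofPred_eq, Pi.smul_apply, smul_eq_mul] at this
  refine (mul_le_mul_of_nonneg_right this (sq_nonneg _)).trans (le_of_eq ?_)
  simp only [Finset.sum_mul]
  exact Finset.sum_congr rfl fun i _ => Finset.sum_congr rfl fun j _ => by field_simp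

lemma pert {κ : Type} [Fintype κ] [Nonempty κ] {Z : κ → κ → ℝ}
    (hZ : ∀ w : κ → ℝ, w ≠ 0 → 0 < ∑ i, ∑ j, w i * w j * Z i j) {θ : ℝ} (hθ : 0 < θ) :
    ∃ g > 0, ∀ B : κ → κ → ℝ, (∀ i j, |B i j - Z i j| ≤ g) →
      ∀ w : κ → ℝ, 0 ≤ ∑ i, ∑ j, w i * w j * (B i j - (1 - θ) * Z i j) := by
  obtain ⟨l, l0, hl⟩ := lam hZ
  have c0 : (0:ℝ) < Fintype.card κ := by exact_mod_cast Fintype.card_pos
  refine ⟨θ * l / (Fintype.card κ) ^ 2, by positivity, fun B hB w => ?_⟩
  set g := θ * l / (Fintype.card κ : ℝ) ^ 2 with hg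
  have g0 : 0 < g := by positivity
  have h1 : ∀ i j, θ * (w i * w j * Z i j) - g * ‖w‖ ^ 2 ≤ w i * w j * (B i j - (1 - θ) * Z i j) :=
    fun i j => by
    have a1 : |w i * w j * (B i j - Z i j)| ≤ ‖w‖ * ‖w‖ * g := by
      rw [abs_mul, abs_mul]
      have := norm_le_pi_norm w i; have := norm_le_pi_norm w j
      gcongr
      exacts [norm_le_pi_norm w i, norm_le_pi_norm w j, hB i j]
    nlinarith [(abs_le.1 a1).1]
  refine le_trans ?_ (Finset.sum_le_sum fun i _ => Finset.sum_le_sum fun j _ => h1 i j)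
  simp only [Finset.sum_sub_distrib, ← Finset.mul_sum, Finset.sum_const, Finset.card_univ,
    nsmul_eq_mul]
  have e : (Fintype.card κ : ℝ) * (Fintype.card κ * (g * ‖w‖ ^ 2)) = θ * (l * ‖w‖ ^ 2) := by
    rw [hg]; field_simp
  have := mul_le_mul_of_nonneg_left (hl w) hθ.le
  linarith

lemma exp_lip {a b : ℝ} (ha : 0 ≤ a) (hb : 0 ≤ b) : |Real.exp (-a) - Real.exp (-b)| ≤ |a - b| := by
  have key : ∀ a b : ℝ, 0 ≤ a → a ≤ b → |Real.exp (-a) - Real.exp (-b)| ≤ |a - b| := fun a b ha h => by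
    have h1 : Real.exp (-b) = Real.exp (-a) * Real.exp (-(b - a)) := by
      rw [← Real.exp_add]; congr 1; ring
    have h2 := Real.add_one_le_exp (-(b - a))
    have h3 : Real.exp (-(b - a)) ≤ 1 := Real.exp_le_one_iff.2 (by linarith)
    have h4 : Real.exp (-a) ≤ 1 := Real.exp_le_one_iff.2 (by linarith)
    have h5 := Real.exp_pos (-a)
    rw [h1, abs_of_nonneg (by nlinarith), abs_of_nonpos (by linarith)]
    nlinarith
  rcases le_total a b with h | h
  · exact key a b ha h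
  · rw [abs_sub_comm, abs_sub_comm a]; exact key b a hb h

variable {V : Type*} [NormedAddCommGroup V] [InnerProductSpace ℝ V]
  [MeasurableSpace V] [BorelSpace V] [FiniteDimensional ℝ V]

theorem key {ψ : V → ℝ} (p0 : ∀ v, 0 ≤ ψ v) (ph : ∀ (t : ℝ) v, ψ (t • v) = |t| * ψ v)
    {v0 : V} (h0 : ψ v0 = 1) {μ : Measure V} [IsProbabilityMeasure μ]
    (hμ : ∀ v, charFun μ ((2 * π) • v) = (Real.exp (-ψ v) : ℝ)) {C : ℝ} (C0 : 0 < C)
    (hC : ∀ v, ‖v‖ ≤ C * ψ v) {κ : Type} [Fintype κ] [Nonempty κ] (x : κ → V)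
    (hZ : ∀ w : κ → ℝ, w ≠ 0 → 0 < ∑ i, ∑ j, w i * w j * Real.exp (-ψ (x i - x j)))
    {θ : ℝ} (hθ : 0 < θ) (hθ1 : θ ≤ 1) :
    ∃ δ > 0, ∀ (ι : Type) [Fintype ι] (y : ι → V) (p : ι → κ), (∀ i, ψ (y i - x (p i)) ≤ δ) →
      ∀ w : ι → ℝ, (1 - θ) ^ 2 * ∑ i, ∑ j, w i * w j * Real.exp (-ψ (x (p i) - x (p j))) ≤
        ∑ i, ∑ j, w i * w j * Real.exp (-ψ (y i - y j)) := by
  classical
  obtain ⟨g, g0, hg⟩ := pert hZ hθ
  set b := stdOrthonormalBasis ℝ V
  set S := ∑ k, ψ (b k) with hS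
  have S0 : 0 ≤ S := Finset.sum_nonneg fun k _ => p0 _
  set L : List V := (Finset.univ.toList).map x with hL
  set η0 := min θ (g / 2) with hη0
  have η00 : 0 < η0 := by positivity
  set δ := η0 / (2 * C * L.length * S + 1) with hδ
  have δ0 : 0 < δ := by positivity
  have hδ2 : 2 * (C * δ) * L.length * S ≤ η0 := by
    have : δ * (2 * C * L.length * S + 1) = η0 := by rw [hδ]; field_simp
    nlinarith
  refine ⟨δ, δ0, fun ι _ y p hy w => ?_⟩
  set M := ∑ i, ∑ j, ψ (x i - x j) with hM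
  have hMi : ∀ i j, ψ (x i - x j) ≤ M := fun i j =>
    (Finset.single_le_sum (f := fun j => ψ (x i - x j)) (fun _ _ => p0 _) (Finset.mem_univ j)).trans
      (Finset.single_le_sum (f := fun i => ∑ j, ψ (x i - x j))
        (fun _ _ => Finset.sum_nonneg fun _ _ => p0 _) (Finset.mem_univ i))
  have M0 : 0 ≤ M := Finset.sum_nonneg fun _ _ => Finset.sum_nonneg fun _ _ => p0 _
  set K := ∑ i, ∑ j, |w i * w j| * ψ (y i - y j) with hK
  have K0 : 0 ≤ K := Finset.sum_nonneg fun _ _ => Finset.sum_nonneg fun _ _ =>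
    mul_nonneg (abs_nonneg _) (p0 _)
  refine le_of_forall_pos_le_add fun ε hε => ?_
  set γ := min (ε / (K + 1)) (g / 2 / (M + 1)) with hγ
  have γ0 : 0 < γ := by positivity
  have γ1 : γ * (K + 1) ≤ ε := (le_div_iff₀ (by positivity)).1 (min_le_left _ _)
  have γ2 : γ * (M + 1) ≤ g / 2 := (le_div_iff₀ (by positivity)).1 (min_le_right _ _)
  obtain ⟨ν, hν, hz⟩ := approx p0 ph h0 hμ
    (Sum.elim (fun q : ι × ι => y q.1 - y q.2) (Sum.elim (fun q : κ × κ => x q.1 - x q.2) b)) γ0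
  have hy' := fun i j => hz (.inl (i, j))
  have hx' := fun i j => hz (.inr (.inl (i, j)))
  have hb' := fun k => hz (.inr (.inr k))
  simp only [Sum.elim_inl, Sum.elim_inr, inner_sub_right] at hy' hx' hb'
  have nb : ∀ ξ : V, ‖ξ‖ ≤ ∑ k, |⟪ξ, b k⟫| := fun ξ => by
    conv_lhs => rw [← b.sum_repr' ξ]
    refine (norm_sum_le _ _).trans (le_of_eq (Finset.sum_congr rfl fun k _ => ?_))
    rw [norm_smul, b.orthonormal.1 k, mul_one, real_inner_comm, Real.norm_eq_abs]
  have i1 : Integrable (fun ξ => ∑ k, |⟪ξ, b k⟫|) ν := integrable_finsetSum _ fun k _ => (hb' k).1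
  have ni : Integrable (fun ξ : V => ‖ξ‖) ν :=
    i1.mono' (by fun_prop) (Eventually.of_forall fun ξ => by simpa using nb ξ)
  have nS : ∫ ξ, ‖ξ‖ ∂ν ≤ S := by
    refine (integral_mono ni i1 nb).trans ?_
    rw [integral_finsetSum _ fun k _ => (hb' k).1]
    exact Finset.sum_le_sum fun k _ => (hb' k).2.2
  set r : V → ℝ := fun ξ => C * δ * ‖ξ‖ with hr
  have rc : Continuous r := by fun_prop
  have r0 : ∀ ξ, 0 ≤ r ξ := fun ξ => by positivity
  set c : V → V → ℝ := fun v ξ => col r L ξ ⟪ξ, v⟫ with hc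
  have cc : ∀ v, Continuous (c v) := fun v => col_cont rc L _ (by fun_prop)
  set a : V → V → ℝ := fun v ξ => ⟪ξ, v⟫ - c v ξ with ha
  have ac : ∀ v, Continuous (a v) := fun v => by have := cc v; fun_prop
  set e : V → ℝ := fun ξ => 2 * r ξ * L.length with he
  have ei : Integrable e ν := ((ni.const_mul _).const_mul _).mul_const _
  set η := ∫ ξ, e ξ ∂ν with hη
  have ηb : η ≤ η0 := by
    rw [hη, he, hr, integral_mul_const, integral_const_mul, integral_const_mul]
    refine le_trans ?_ hδ2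
    calc _ ≤ 2 * (C * δ * S) * L.length := by gcongr
      _ = _ := by ring
  have ab : ∀ v ξ, 0 ≤ a v ξ ∧ a v ξ ≤ e ξ := fun v ξ => col_bd L ξ (r0 ξ) _
  have ab2 : ∀ v v' ξ, |a v ξ - a v' ξ| ≤ e ξ := fun v v' ξ =>
    abs_le.2 ⟨by linarith [ab v ξ, ab v' ξ], by linarith [ab v ξ, ab v' ξ]⟩
  have ai : ∀ v v', Integrable (fun ξ => |a v ξ - a v' ξ|) ν := fun v v' =>
    ei.mono' (by have := ac v; have := ac v'; fun_prop)
      (Eventually.of_forall fun ξ => by simpa using ab2 v v' ξ)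
  have sp : ∀ v v' ξ, |⟪ξ, v⟫ - ⟪ξ, v'⟫| = |a v ξ - a v' ξ| + |c v ξ - c v' ξ| :=
    fun v v' ξ => col_split L ξ _ _
  have ci : ∀ i j, Integrable (fun ξ => |c (x i) ξ - c (x j) ξ|) ν := fun i j =>
    (hx' i j).1.mono' (by have := cc (x i); have := cc (x j); fun_prop)
      (Eventually.of_forall fun ξ => by
        rw [sp, Real.norm_eq_abs, abs_abs]; linarith [abs_nonneg (a (x i) ξ - a (x j) ξ)])
  have cy : ∀ i ξ, c (y i) ξ = c (x (p i)) ξ := fun i ξ => by
    refine col_const L ξ (by simp [hL]) ?_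
    rw [← inner_sub_right]
    refine (abs_real_inner_le_norm _ _).trans ?_
    have := (hC (y i - x (p i))).trans (mul_le_mul_of_nonneg_left (hy i) C0.le)
    simp only [hr]
    nlinarith [norm_nonneg ξ]
  set D1 : V → V → ℝ := fun v v' => ∫ ξ, |a v ξ - a v' ξ| ∂ν with hD1
  set D2 : κ → κ → ℝ := fun i j => ∫ ξ, |c (x i) ξ - c (x j) ξ| ∂ν with hD2
  have D1b : ∀ v v', 0 ≤ D1 v v' ∧ D1 v v' ≤ η := fun v v' =>
    ⟨integral_nonneg fun ξ => abs_nonneg _, integral_mono (ai v v') ei (ab2 v v')⟩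
  have D20 : ∀ i j, 0 ≤ D2 i j := fun i j => integral_nonneg fun ξ => abs_nonneg _
  have ex : ∀ i j, ∫ ξ, |⟪ξ, x i⟫ - ⟪ξ, x j⟫| ∂ν = D1 (x i) (x j) + D2 i j := fun i j => by
    simp only [sp]; exact integral_add (ai _ _) (ci i j)
  have ey : ∀ i j, ∫ ξ, |⟪ξ, y i⟫ - ⟪ξ, y j⟫| ∂ν = D1 (y i) (y j) + D2 (p i) (p j) := fun i j => by
    simp only [sp, cy]; exact integral_add (ai _ _) (ci _ _)
  simp only [ex, ey] at hx' hy'
  have hB := hg (fun i j => Real.exp (-D2 i j)) fun i j => by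
    refine (exp_lip (D20 i j) (p0 _)).trans (abs_le.2 ⟨?_, ?_⟩)
    · have : η0 ≤ g / 2 := min_le_right _ _
      nlinarith [(hx' i j).2.1, D1b (x i) (x j), hMi i j, p0 (x i - x j)]
    · linarith [(hx' i j).2.2, D1b (x i) (x j)]
  have sym : ∀ v v', ψ (v - v') = ψ (v' - v) := fun v v' => by
    rw [← neg_sub, ← neg_one_smul ℝ, ph]; simp
  have D2s : ∀ i j, D2 i j = D2 j i := fun i j => by simp only [hD2, abs_sub_comm]
  have P1 : (Matrix.of fun i j => Real.exp (-D2 i j) -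
      (1 - θ) * Real.exp (-ψ (x i - x j))).PosSemidef :=
    psd_iff.2 ⟨fun i j => by simp only [Matrix.of_apply]; rw [D2s, sym], hB⟩
  have P2 : (Matrix.of fun i j => Real.exp (-ψ (x i - x j))).PosSemidef :=
    psd_iff.2 ⟨fun i j => by simp only [Matrix.of_apply]; rw [sym], fun u => by
      rcases eq_or_ne u 0 with rfl | hu
      · simp
      · exact (hZ u hu).le⟩
  have P3 : (Matrix.of fun i j => Real.exp (-D2 (p i) (p j))).PosSemidef := by
    refine psd_iff.2 ⟨fun i j => by simp only [Matrix.of_apply]; rw [D2s], fun u => ?_⟩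
    have q1 := (psd_iff.1 (P1.submatrix p)).2 u
    have q2 := mul_nonneg (sub_nonneg.2 hθ1) ((psd_iff.1 (P2.submatrix p)).2 u)
    refine (add_nonneg q1 q2).trans (le_of_eq ?_)
    simp only [Finset.mul_sum, ← Finset.sum_add_distrib, Matrix.submatrix_apply, Matrix.of_apply]
    exact Finset.sum_congr rfl fun i _ => Finset.sum_congr rfl fun j _ => by ring
  have P4 : (Matrix.of fun i j => η - D1 (y i) (y j)).PosSemidef := by
    refine psd_iff.2 ⟨fun i j => by simp only [Matrix.of_apply, hD1, abs_sub_comm], fun u => ?_⟩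
    have fi : ∀ i j, Integrable (fun ξ => u i * u j * (e ξ - |a (y i) ξ - a (y j) ξ|)) ν :=
      fun i j => (ei.sub (ai _ _)).const_mul _
    have e1 : ∀ i j, u i * u j * (η - D1 (y i) (y j))
        = ∫ ξ, u i * u j * (e ξ - |a (y i) ξ - a (y j) ξ|) ∂ν := fun i j => by
      rw [integral_const_mul, integral_sub ei (ai _ _)]
    simp only [Matrix.of_apply, e1]
    simp only [← integral_finsetSum _ fun j _ => fi _ j]
    rw [← integral_finsetSum _ fun i _ => integrable_finsetSum _ fun j _ => fi i j]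
    exact integral_nonneg fun ξ => abspsd (fun i => a (y i) ξ) u fun i => ab _ _
  have q0 := exppsd P4 P3 w
  have q1 := (psd_iff.1 (P1.submatrix p)).2 w
  have q2 := (psd_iff.1 (P2.submatrix p)).2 w
  have q3 := (psd_iff.1 P3).2 w
  simp only [Matrix.submatrix_apply, Matrix.of_apply] at q0 q1 q2 q3
  have q4 : ∑ i, ∑ j, w i * w j * (Real.exp (-D2 (p i) (p j)) - (1 - θ) *
      Real.exp (-ψ (x (p i) - x (p j)))) = ∑ i, ∑ j, w i * w j * Real.exp (-D2 (p i) (p j))
      - (1 - θ) * ∑ i, ∑ j, w i * w j * Real.exp (-ψ (x (p i) - x (p j))) := by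
    simp only [Finset.mul_sum, ← Finset.sum_sub_distrib]
    exact Finset.sum_congr rfl fun i _ => Finset.sum_congr rfl fun j _ => by ring
  have q5 : Real.exp (-η) * ∑ i, ∑ j, w i * w j * (Real.exp (η - D1 (y i) (y j)) *
      Real.exp (-D2 (p i) (p j))) ≤ ∑ i, ∑ j, w i * w j * Real.exp (-ψ (y i - y j)) + γ * K := by
    simp only [hK, Finset.mul_sum, ← Finset.sum_add_distrib]
    refine Finset.sum_le_sum fun i _ => Finset.sum_le_sum fun j _ => ?_
    have e1 : Real.exp (-η) * (Real.exp (η - D1 (y i) (y j)) * Real.exp (-D2 (p i) (p j)))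
        = Real.exp (-(D1 (y i) (y j) + D2 (p i) (p j))) := by
      rw [← Real.exp_add, ← Real.exp_add]; congr 1; ring
    have e2 := exp_lip (add_nonneg (D1b (y i) (y j)).1 (D20 (p i) (p j))) (p0 (y i - y j))
    have e3 : |D1 (y i) (y j) + D2 (p i) (p j) - ψ (y i - y j)| ≤ γ * ψ (y i - y j) :=
      abs_le.2 ⟨by linarith [(hy' i j).2.1],
        by linarith [(hy' i j).2.2, mul_nonneg γ0.le (p0 (y i - y j))]⟩
    have e4 := (le_abs_self _).trans ((abs_mul _ _).le.trans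
      (mul_le_mul_of_nonneg_left (e2.trans e3) (abs_nonneg (w i * w j))))
    rw [← e1] at e4
    linarith
  have q6 : 1 - θ ≤ Real.exp (-η) := by
    have : η0 ≤ θ := min_le_left _ _
    linarith [Real.add_one_le_exp (-η)]
  rw [q4] at q1
  have q7 := mul_le_mul q6 q0 q3 (Real.exp_pos _).le
  nlinarith

omit [MeasurableSpace V] [BorelSpace V] [FiniteDimensional ℝ V]

lemma wt {n : Type} [Fintype n] [DecidableEq n] {Z : Matrix n n ℝ} (hZ : Z.PosDef) :
    ∃ w : n → ℝ, ∑ i, ∑ j, Z⁻¹ i j = ∑ i, w i ∧ ∑ i, ∑ j, w i * w j * Z i j = ∑ i, w i ∧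
      ∀ (ι : Type) [Fintype ι] (p : ι → n) (v : ι → ℝ),
        2 * ∑ i, v i - ∑ i, ∑ j, v i * v j * Z (p i) (p j) ≤ ∑ i, w i := by
  set w : n → ℝ := fun i => ∑ j, Z⁻¹ i j with hw
  have h1 : ∀ i, ∑ a, w a * Z i a = 1 := fun i => by
    have h := Matrix.mul_nonsing_inv Z ((Matrix.isUnit_iff_isUnit_det Z).1 hZ.isUnit)
    have : ∑ j, (Z * Z⁻¹) i j = 1 := by rw [h]; simp [Matrix.one_apply]
    rw [← this]
    simp only [hw, Matrix.mul_apply, Finset.sum_mul]
    rw [Finset.sum_comm]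
    exact Finset.sum_congr rfl fun _ _ => Finset.sum_congr rfl fun _ _ => mul_comm _ _
  have h2 : ∀ {ι : Type} [Fintype ι] (p : ι → n) (v : ι → ℝ),
      ∑ i, ∑ a, v i * w a * Z (p i) a = ∑ i, v i := fun p v =>
    Finset.sum_congr rfl fun i _ => by simp only [mul_assoc, ← Finset.mul_sum, h1, mul_one]
  refine ⟨w, rfl, h2 id w, fun ι _ p v => ?_⟩
  have h3 := (psd_iff.1 (hZ.posSemidef.submatrix (Sum.elim p id))).2 (Sum.elim v fun a => -w a)
  simp only [Fintype.sum_sum_type, Matrix.submatrix_apply, Sum.elim_inl, Sum.elim_inr, id,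
    Finset.sum_add_distrib, mul_neg, neg_mul, neg_neg, Finset.sum_neg_distrib] at h3
  have h4 : ∑ a, ∑ i, w a * v i * Z a (p i) = ∑ i, v i := by
    rw [Finset.sum_comm, ← h2 p v]
    exact Finset.sum_congr rfl fun i _ => Finset.sum_congr rfl fun a _ => by
      rw [(psd_iff.1 hZ.posSemidef).1 a]; ring
  have h5 := h2 p v
  have h6 : ∑ i, ∑ a, w i * w a * Z i a = ∑ i, w i := h2 id w
  linarith

theorem keyU {U : Type} [NormedAddCommGroup U] [NormedSpace ℝ U] [FiniteDimensional ℝ U]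
    [Nontrivial U] (hU : ∀ X : Finset U,
        (Matrix.of fun (x y : ↥X) => Real.exp (-‖(x : U) - (y : U)‖)).PosDef)
    (X : Finset U) (hX : X.Nonempty) {θ : ℝ} (hθ : 0 < θ) (hθ1 : θ ≤ 1) :
    ∃ δ > 0, ∀ (ι : Type) [Fintype ι] (y : ι → U) (p : ι → X), (∀ i, ‖y i - p i‖ ≤ δ) →
      ∀ w : ι → ℝ, (1 - θ) ^ 2 * ∑ i, ∑ j, w i * w j * Real.exp (-‖(p i : U) - p j‖) ≤
        ∑ i, ∑ j, w i * w j * Real.exp (-‖y i - y j‖) := by
  classical
  let T := toEuclidean (E := U)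
  set C := ‖T.toContinuousLinearMap‖ + 1 with hCd
  have C0 : 0 < C := by positivity
  have hC : ∀ v, ‖v‖ ≤ C * ‖T.symm v‖ := fun v => by
    have := T.toContinuousLinearMap.le_opNorm (T.symm v)
    simp only [ContinuousLinearEquiv.coe_coe, ContinuousLinearEquiv.apply_symm_apply] at this
    rw [hCd]; nlinarith [norm_nonneg (T.symm v)]
  obtain ⟨μ, hμ, hc⟩ := bochner (φ := fun v => Real.exp (-‖T.symm v‖)) (by fun_prop)
    (fun v => by
      rw [abs_of_pos (Real.exp_pos _)]; exact Real.exp_le_one_iff.2 (by simp))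
    (fun v => by simp) (by simp)
    (fun M x c => by
      have := (psd_iff.1 ((hU (Finset.univ.image fun i => T.symm (x i))).posSemidef.submatrix
        fun i => ⟨T.symm (x i), by simp⟩)).2 c
      simpa using this)
    (by
      set m := Module.finrank ℝ (EuclideanSpace ℝ (Fin (Module.finrank ℝ U))) + 1 with hm
      refine ((integrable_one_add_norm (r := m) (by rw [hm]; push_cast; linarith)).const_mul
        (Real.exp (1 / C) * m.factorial * C ^ m)).mono' (by fun_prop)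
        (Eventually.of_forall fun v => ?_)
      have h1 := Real.pow_div_factorial_le_exp ((1 + ‖v‖) / C) (by positivity) m
      have h2 : (1 + ‖v‖) / C ≤ 1 / C + ‖T.symm v‖ := by
        rw [add_div]; gcongr; rw [div_le_iff₀ C0]; linarith [hC v]
      have h3 := h1.trans (Real.exp_le_exp.2 h2)
      rw [Real.exp_add, div_pow, div_div, div_le_iff₀ (by positivity)] at h3
      rw [Real.norm_of_nonneg (Real.exp_pos _).le, Real.rpow_neg (by positivity),
        Real.rpow_natCast, ← div_eq_mul_inv, le_div_iff₀ (by positivity), Real.exp_neg,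
        inv_mul_le_iff₀ (Real.exp_pos _)]
      linarith)
  obtain ⟨u, hu⟩ := exists_norm_eq U zero_le_one
  have := hX.to_subtype
  obtain ⟨δ, δ0, h⟩ := key (ψ := fun v => ‖T.symm v‖) (fun _ => norm_nonneg _)
    (fun t v => by simp [norm_smul]) (v0 := T u) (by simpa) hc C0 hC (fun a : X => T a)
    (fun w hw => by
      have := (hU X).dotProduct_mulVec_pos hw
      simp only [star_trivial, dotProduct, Matrix.mulVec, Finset.mul_sum, Matrix.of_apply] at this
      refine this.trans_eq (Finset.sum_congr rfl fun i _ => Finset.sum_congr rfl fun j _ => ?_)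
      simp; ring) hθ hθ1
  refine ⟨δ, δ0, fun ι _ y p hy w => ?_⟩
  simpa using h ι (fun i => T (y i)) p (fun i => by simpa using hy i) w

end Pool.Agent.H1.Mg
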