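import Pool.Agent.H1.PerB

namespace Pool.Agent.H1.Mil

open Real Metric Filter Topology Set InnerProductSpace Pool.Agent.H1.Per MeasureTheory

noncomputable def sg (ζ : ℂ) : ℝ := (‖ζ - 1‖ + ‖ζ + 1‖) / 2
noncomputable def Ga (ζ : ℂ) : ℝ := log (sg ζ + √(sg ζ ^ 2 - 1))

lemma sg1 (ζ : ℂ) : 1 ≤ sg ζ := by
  have := norm_sub_le (ζ + 1) (ζ - 1)
  rw [show ζ + 1 - (ζ - 1) = 2 by ring, Complex.norm_two] at this
  unfold sg; linarith

lemma sg2 (ζ : ℂ) : ‖ζ‖ ≤ sg ζ := by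
  have := norm_add_le (ζ - 1) (ζ + 1)
  rw [show ζ - 1 + (ζ + 1) = 2 * ζ by ring, norm_mul, Complex.norm_two] at this
  unfold sg; linarith

lemma sg3 (ζ : ℂ) : sg ζ ≤ ‖ζ‖ + 1 := by
  have h1 := norm_sub_le ζ 1
  have h2 := norm_add_le ζ 1
  rw [norm_one] at h1 h2
  unfold sg; linarith

lemma Ga_cont : Continuous Ga := by
  refine Continuous.log (by unfold sg; fun_prop) fun ζ => ?_
  linarith [sg1 ζ, Real.sqrt_nonneg (sg ζ ^ 2 - 1), (show sg ζ + √(sg ζ ^ 2 - 1) = 0 → False from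
    fun h => by linarith [sg1 ζ, Real.sqrt_nonneg (sg ζ ^ 2 - 1)])]

lemma Ga_nn (ζ : ℂ) : 0 ≤ Ga ζ := log_nonneg (by linarith [sg1 ζ, Real.sqrt_nonneg (sg ζ ^ 2 - 1)])

lemma Ga_ge {ζ : ℂ} {a : ℝ} (ha : 0 < a) (h : a ≤ ‖ζ‖) : log a ≤ Ga ζ :=
  log_le_log ha (by linarith [sg2 ζ, Real.sqrt_nonneg (sg ζ ^ 2 - 1)])

lemma Ga_le (ζ : ℂ) : Ga ζ ≤ log (2 * (‖ζ‖ + 1)) := by
  have h := sg1 ζ
  have : √(sg ζ ^ 2 - 1) ≤ sg ζ := Real.sqrt_le_iff.2 ⟨by linarith, by linarith⟩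
  exact log_le_log (by linarith [Real.sqrt_nonneg (sg ζ ^ 2 - 1)]) (by linarith [sg3 ζ])

lemma Ga_eq {ζ : ℂ} (h : ζ ≠ 0) : Ga ζ = log ‖ζ * (1 + (1 - ζ⁻¹ ^ 2) ^ (2⁻¹ : ℂ))‖ := by
  have h1 : ((1 - ζ⁻¹ ^ 2) ^ (2⁻¹ : ℂ)) ^ 2 = 1 - ζ⁻¹ ^ 2 := by
    simp
  have h2 : 0 ≤ ((1 - ζ⁻¹ ^ 2) ^ (2⁻¹ : ℂ)).re := by
    rw [Complex.cpow_inv_two_re]; exact Real.sqrt_nonneg _
  generalize (1 - ζ⁻¹ ^ 2) ^ (2⁻¹ : ℂ) = s at h1 h2
  set w := ζ * (1 + s) with hw
  have e1 : w * (ζ * (1 - s)) = 1 := by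
    rw [hw, show ζ * (1 + s) * (ζ * (1 - s)) = ζ ^ 2 * (1 - s ^ 2) by ring, h1]; field_simp; ring
  have h3 : ‖ζ * (1 - s)‖ ≤ ‖w‖ := by
    rw [hw, norm_mul, norm_mul]
    gcongr
    rw [← sq_le_sq₀ (norm_nonneg _) (norm_nonneg _), Complex.sq_norm, Complex.sq_norm,
      Complex.normSq_apply, Complex.normSq_apply]
    simp; nlinarith
  have h4 : 1 ≤ ‖w‖ := by
    have := congrArg norm e1
    rw [norm_mul, norm_one] at this
    nlinarith [norm_nonneg w, norm_nonneg (ζ * (1 - s))]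
  have e2 : 2 * ‖w‖ * ‖ζ - 1‖ = ‖w - 1‖ ^ 2 := by
    rw [← norm_pow, show (w - 1) ^ 2 = 2 * w * (ζ - 1) by rw [hw] at e1 ⊢; linear_combination -e1,
      norm_mul (2 * w), norm_mul 2, Complex.norm_two]
  have e3 : 2 * ‖w‖ * ‖ζ + 1‖ = ‖w + 1‖ ^ 2 := by
    rw [← norm_pow, show (w + 1) ^ 2 = 2 * w * (ζ + 1) by rw [hw] at e1 ⊢; linear_combination -e1,
      norm_mul (2 * w), norm_mul 2, Complex.norm_two]
  have e4 : ‖w - 1‖ ^ 2 + ‖w + 1‖ ^ 2 = 2 * ‖w‖ ^ 2 + 2 := by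
    simp only [Complex.sq_norm, Complex.normSq_apply]; simp; ring
  have e5 : sg ζ = (‖w‖ + ‖w‖⁻¹) / 2 := by
    unfold sg; field_simp; nlinarith
  have h5 : ‖w‖⁻¹ ≤ 1 := inv_le_one_of_one_le₀ h4
  have e6 : √(sg ζ ^ 2 - 1) = (‖w‖ - ‖w‖⁻¹) / 2 := by
    rw [Real.sqrt_eq_iff_mul_self_eq (by nlinarith [sg1 ζ]) (by linarith), e5]
    field_simp; ring
  rw [Ga, e6, e5]; congr 1; ring

lemma Ga_harm {F : ℂ → ℂ} {z : ℂ} (hF : AnalyticAt ℂ F z) (h : (F z).im ≠ 0 ∨ 1 < |(F z).re|) :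
    HarmonicAt (fun w => Ga (F w)) z := by
  have h0 : F z ≠ 0 := by
    intro e; rw [e] at h; norm_num at h
  have h1 : 1 - (F z)⁻¹ ^ 2 ∈ Complex.slitPlane := by
    by_contra hc
    rw [Complex.mem_slitPlane_iff, not_or, not_lt, not_not] at hc
    obtain ⟨a, b⟩ := hc
    simp only [pow_two, Complex.sub_re, Complex.one_re, Complex.mul_re, Complex.sub_im,
      Complex.one_im, Complex.mul_im] at a b
    have c : (F z)⁻¹.im = 0 := by
      have : (F z)⁻¹.re * (F z)⁻¹.im = 0 := by linarith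
      rcases mul_eq_zero.1 this with c | c
      · rw [c] at a; nlinarith [sq_nonneg (F z)⁻¹.im]
      · exact c
    have d : F z = (((F z)⁻¹.re⁻¹ : ℝ) : ℂ) := by
      rw [Complex.ofReal_inv, Complex.conj_eq_iff_re.1 (Complex.conj_eq_iff_im.2 c), inv_inv]
    rw [c] at a
    rw [d, Complex.ofReal_im, Complex.ofReal_re, abs_inv] at h
    rcases h with h | h
    · exact h rfl
    · have := (one_lt_inv₀ (abs_pos.2 fun e => by rw [e] at a; linarith)).1 h
      nlinarith [abs_nonneg (F z)⁻¹.re, sq_abs (F z)⁻¹.re]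
  have h2 : AnalyticAt ℂ (fun w => F w * (1 + (1 - (F w)⁻¹ ^ 2) ^ (2⁻¹ : ℂ))) z :=
    hF.mul (analyticAt_const.add ((analyticAt_const.sub ((hF.inv h0).pow 2)).cpow
      analyticAt_const h1))
  refine (harmonicAt_congr_nhds ?_).1 (h2.harmonicAt_log_norm (mul_ne_zero h0 fun e => ?_))
  · filter_upwards [hF.continuousAt.eventually_ne h0] with w hw using (Ga_eq hw).symm
  · have := congrArg Complex.re e
    rw [Complex.add_re, Complex.one_re, Complex.zero_re] at this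
    linarith [half_slit h1]

noncomputable def η : ℝ := exp (-100)
noncomputable def ll (p z : ℂ) : ℝ := log (max ‖z - p‖ (η ^ 2) / 2)

lemma η0 : 0 < η := exp_pos _
lemma η1 : η ≤ 1 / 100 := by
  rw [η, exp_neg, one_div]
  exact inv_anti₀ (by norm_num) (by linarith [add_one_le_exp (100 : ℝ)])
lemma η2 : η ^ 2 ≤ η := by nlinarith [η0, η1]
lemma lη : log η = -100 := log_exp _
lemma l2 : 0 ≤ log 2 ∧ log 2 ≤ 1 :=
  ⟨log_nonneg (by norm_num), by linarith [log_le_sub_one_of_pos (x := 2) (by norm_num)]⟩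

lemma mpos (p z : ℂ) : 0 < max ‖z - p‖ (η ^ 2) / 2 :=
  half_pos ((pow_pos η0 2).trans_le (le_max_right _ _))

lemma ll_cont (p : ℂ) : Continuous (ll p) :=
  Continuous.log (by fun_prop) fun z => (mpos p z).ne'

lemma ll_sub (p z : ℂ) : SubAt (ll p) z := by
  rcases le_or_gt ‖z - p‖ (η ^ 2) with h | h
  · refine (sub_harm (harmonicAt_const (log (η ^ 2 / 2)))).of_le univ_mem continuousOn_const
      (ll_cont p).continuousOn (by rw [ll, max_eq_right h]) fun w _ => ?_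
    exact log_le_log (half_pos (pow_pos η0 2)) (by linarith [le_max_right ‖w - p‖ (η ^ 2)])
  · have h1 : AnalyticAt ℂ (fun w => (w - p) / 2) z := by fun_prop
    refine (sub_harm (h1.harmonicAt_log_norm ?_)).congr ?_
    · exact div_ne_zero (norm_pos_iff.1 ((pow_pos η0 2).trans h)) two_ne_zero
    · filter_upwards [(continuous_id.sub continuous_const).norm.continuousAt.eventually
        (lt_mem_nhds h)] with w (hw : η ^ 2 < ‖w - p‖)
      rw [ll, max_eq_left hw.le, norm_div, Complex.norm_two]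

lemma ll_le {p z : ℂ} (h : ‖z - p‖ ≤ 2) : ll p z ≤ 0 :=
  log_nonpos (mpos p z).le (by linarith [max_le h (show η ^ 2 ≤ 2 by linarith [η1, η2])])

lemma ll_near {p z : ℂ} (h : ‖z - p‖ ≤ η ^ 2) : ll p z ≤ -200 := by
  rw [ll, max_eq_right h, log_div (pow_pos η0 2).ne' two_ne_zero, log_pow, lη]
  push_cast; linarith [l2.1]

lemma ll_ge {p z : ℂ} {a : ℝ} (ha : 0 < a) (h : a ≤ ‖z - p‖) : log a - 1 ≤ ll p z := by
  have := log_le_log (half_pos ha) (show a / 2 ≤ max ‖z - p‖ (η ^ 2) / 2 by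
    linarith [le_max_left ‖z - p‖ (η ^ 2)])
  rw [log_div ha.ne' two_ne_zero] at this
  unfold ll; linarith [l2.2]

noncomputable def UU (p q z : ℂ) : ℝ := 200⁻¹ * (ll p z + ll q z)

lemma UU_cont (p q : ℂ) : Continuous (UU p q) :=
  continuous_const.mul ((ll_cont p).add (ll_cont q))

lemma UU_sub (p q z : ℂ) : SubAt (UU p q) z := by
  filter_upwards [(ll_sub p z).add (ll_sub q z) univ_mem (ll_cont p).continuousOn
    (ll_cont q).continuousOn] with r hr
  have : UU p q = (200⁻¹ : ℝ) • fun w => ll p w + ll q w := rfl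
  rw [this, circleAverage_smul]
  exact mul_le_mul_of_nonneg_left hr (by norm_num)

def EE : Set ℝ := Icc (1 / 2 - η - η ^ 2) (1 / 2 - η + η ^ 2) ∪ Icc (1 / 2 + η - η ^ 2) (1 / 2 + η + η ^ 2)
def FF : Set ℂ := (fun x : ℝ => (x : ℂ)) '' EE
def Om : Set ℂ := ball 0 1 \ FF

lemma FF_closed : IsClosed FF :=
  ((isCompact_Icc.union isCompact_Icc).image Complex.continuous_ofReal).isClosed

lemma Om_open : IsOpen Om := isOpen_ball.sdiff FF_closed
lemma Om_bdd : Bornology.IsBounded Om := isBounded_ball.subset sdiff_subset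

lemma EE_near {t : ℝ} (ht : t ∈ EE) : (|t - (1 / 2 - η)| ≤ η ^ 2 ∨ |t - (1 / 2 + η)| ≤ η ^ 2) ∧
    1 / 4 ≤ t ∧ t ≤ 3 / 4 := by
  have := η0; have := η1; have := η2
  rcases ht with h | h
  · exact ⟨Or.inl (abs_le.2 ⟨by linarith [h.1], by linarith [h.2]⟩), by linarith [h.1],
      by linarith [h.2]⟩
  · exact ⟨Or.inr (abs_le.2 ⟨by linarith [h.1], by linarith [h.2]⟩), by linarith [h.1],
      by linarith [h.2]⟩

lemma nr (a b : ℝ) : ‖(a : ℂ) - b‖ = |a - b| := by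
  rw [← Complex.ofReal_sub, Complex.norm_real, Real.norm_eq_abs]

lemma fr {p : ℂ} (hp : p ∈ frontier Om) : ‖p‖ = 1 ∨ ∃ t ∈ EE, (t : ℂ) = p := by
  rw [Om_open.frontier_eq] at hp
  have h1 : p ∈ closedBall (0 : ℂ) 1 :=
    closure_minimal (sdiff_subset.trans ball_subset_closedBall) isClosed_closedBall hp.1
  by_cases h : p ∈ FF
  · exact Or.inr h
  · exact Or.inl (le_antisymm (mem_closedBall_zero_iff.1 h1)
      (not_lt.1 fun c => hp.2 ⟨mem_ball_zero_iff.2 c, h⟩))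

lemma seg (p : ℂ) (hp : p ∈ frontier Om) : ∃ q, q ≠ p ∧ segment ℝ p q ⊆ Omᶜ := by
  have key : ∀ a b t : ℝ, a < b → t ∈ Icc a b → Icc a b ⊆ EE →
      ∃ q, q ≠ (t : ℂ) ∧ segment ℝ (t : ℂ) q ⊆ Omᶜ := fun a b t hab ht hE => by
    obtain ⟨s, hs, hst⟩ : ∃ s ∈ Icc a b, s ≠ t := by
      by_cases h : a = t
      · exact ⟨b, right_mem_Icc.2 hab.le, h ▸ hab.ne'⟩
      · exact ⟨a, left_mem_Icc.2 hab.le, h⟩
    refine ⟨s, by exact_mod_cast hst, ?_⟩
    rintro _ ⟨c, d, hc, hd, hcd, rfl⟩ h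
    exact h.2 ⟨c * t + d * s, hE (convex_Icc a b ht hs hc hd hcd), by simp⟩
  have := pow_pos η0 2
  rcases fr hp with h | ⟨t, ht | ht, rfl⟩
  · refine ⟨(2 : ℝ) • p, fun e => ?_, ?_⟩
    · have := congrArg norm e
      rw [norm_smul, h] at this; norm_num at this
    · rintro _ ⟨c, d, hc, hd, hcd, rfl⟩ h'
      have := mem_ball_zero_iff.1 h'.1
      rw [smul_smul, ← add_smul, norm_smul, h, Real.norm_eq_abs, abs_of_nonneg (by positivity)]
        at this
      linarith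
  · exact key _ _ t (by linarith) ht subset_union_left
  · exact key _ _ t (by linarith) ht subset_union_right

lemma ball_cl : ball (0 : ℂ) 1 ⊆ closure Om := fun z hz => by
  by_cases h : z ∈ FF
  · obtain ⟨t, ht, rfl⟩ := h
    have h1 : Continuous fun s : ℝ => (t : ℂ) + s * Complex.I := by fun_prop
    have h2 : Tendsto (fun s : ℝ => (t : ℂ) + s * Complex.I) (𝓝[>] 0) (𝓝 t) := by
      simpa using (h1.tendsto 0).mono_left nhdsWithin_le_nhds
    refine mem_closure_of_tendsto h2 ?_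
    filter_upwards [h2.eventually (isOpen_ball.mem_nhds hz), self_mem_nhdsWithin] with s a b
    refine ⟨a, fun ⟨x, _, e⟩ => ?_⟩
    have := congrArg Complex.im e
    simp at this
    exact (ne_of_gt b) this.symm
  · exact subset_closure ⟨hz, h⟩

theorem main : ∃ u : ℂ → ℝ, HarmonicOnNhd u Om ∧ ContinuousOn u (closure Om) ∧
    (∀ p ∈ frontier Om, ‖p‖ = 1 → u p = 0) ∧ (∀ p ∈ FF, u p = -1) ∧
    u (1 / 2 : ℝ) < -(3 / 5) ∧ -(3 / 5) < u (-(1 / 2) : ℝ) ∧
    ((1 / 2 : ℝ) : ℂ) ∈ Om ∧ ((-(1 / 2) : ℝ) : ℂ) ∈ Om := by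
  obtain ⟨u, hu, hc, hb⟩ := dirichlet Om_open Om_bdd (g := fun z => max (-1) (4 * (‖z‖ - 1)))
    (by fun_prop) seg
  have e0 := η0; have e1 := η1; have e2 := η2; have e3 := pow_pos η0 2
  have b0 : ∀ p ∈ frontier Om, ‖p‖ = 1 → u p = 0 := fun p hp h => by simp [hb p hp, h]
  have b1 : ∀ t ∈ EE, u t = -1 := fun t ht => by
    have := (EE_near ht).2
    have h1 : ‖(t : ℂ)‖ = t := by
      rw [Complex.norm_real, Real.norm_eq_abs, abs_of_pos (by linarith)]
    rw [hb t (by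
      rw [Om_open.frontier_eq]
      exact ⟨ball_cl (mem_ball_zero_iff.2 (by linarith)), fun h => h.2 ⟨t, ht, rfl⟩⟩), h1]
    exact max_eq_left (by linarith)
  have m : ∀ x : ℝ, |x| < 1 → x ∉ EE → (x : ℂ) ∈ Om := fun x h1 h2 =>
    ⟨by simpa using h1, fun ⟨t, ht, e⟩ => h2 (by rwa [← Complex.ofReal_injective e])⟩
  have m1 : ((1 / 2 : ℝ) : ℂ) ∈ Om := m _ (by norm_num) fun h => by
    have : η ^ 2 < η := by nlinarith
    rcases h with h | h <;> linarith [h.1, h.2]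
  have m2 : ((-(1 / 2) : ℝ) : ℂ) ∈ Om := m _ (by norm_num) fun h => by linarith [(EE_near h).2.1]
  refine ⟨u, hu, hc, b0, by rintro _ ⟨t, ht, rfl⟩; exact b1 t ht, ?_, ?_, m1, m2⟩
  · set Γ : ℝ → ℂ → ℝ := fun p z => Ga ((z - p) / (η ^ 2 : ℝ)) with hΓ
    have nn : ∀ (p : ℝ) (z : ℂ), ‖(z - p) / (η ^ 2 : ℝ)‖ = ‖z - p‖ / η ^ 2 := fun p z => by
      rw [norm_div, Complex.norm_real, Real.norm_eq_abs, abs_of_pos e3]
    have g1 : ∀ (p : ℝ) (z : ℂ) (a : ℝ), 0 < a → a ≤ ‖z - p‖ → log a + 200 ≤ Γ p z :=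
      fun p z a ha h => by
        have := Ga_ge (ζ := (z - p) / (η ^ 2 : ℝ)) (div_pos ha e3) (by rw [nn]; gcongr)
        rw [log_div ha.ne' e3.ne', log_pow, lη] at this
        push_cast at this; simp only [hΓ]; push_cast; linarith
    have gh : ∀ p : ℝ, Icc (p - η ^ 2) (p + η ^ 2) ⊆ EE → ∀ z ∈ Om, HarmonicAt (Γ p) z :=
      fun p hp z hz => by
        refine Ga_harm (F := fun z => (z - p) / (η ^ 2 : ℝ)) (by fun_prop) ?_
        rw [Complex.div_ofReal_im, Complex.div_ofReal_re, abs_div, abs_of_pos e3, one_lt_div e3]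
        by_contra c
        rw [not_or, not_not, not_lt, abs_le, div_eq_zero_iff] at c
        simp only [Complex.sub_im, Complex.ofReal_im, sub_zero, Complex.sub_re, Complex.ofReal_re,
          e3.ne', or_false] at c
        exact hz.2 ⟨z.re, hp ⟨by linarith [c.2.1], by linarith [c.2.2]⟩,
          Complex.ext rfl (by simp [c.1])⟩
    have l4 : -2 ≤ log (1 / 4) := by
      rw [one_div, log_inv, show (4 : ℝ) = 2 ^ 2 by norm_num, log_pow]; push_cast; linarith [l2.2]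
    have key := cmp (s := u) (t := fun z => (300⁻¹ : ℝ) • (Γ (1 / 2 - η) z + Γ (1 / 2 + η) z
      + -396)) Om_open Om_bdd hc (Continuous.continuousOn (by
        have := Ga_cont; simp only [hΓ]; fun_prop)) (fun z hz => sub_harm (hu z hz))
      (fun z hz => sub_harm ((((gh _ subset_union_left z hz).add (gh _ subset_union_right z hz)).add
        (harmonicAt_const _)).const_smul.neg)) (fun p hp => by
        rcases fr hp with h | ⟨t, ht, rfl⟩
        · have k : ∀ c : ℝ, 0 ≤ c → c ≤ 3 / 4 → 198 ≤ Γ c p := fun c h0 h1 => by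
            have := norm_sub_norm_le p c
            rw [Complex.norm_real, Real.norm_eq_abs, abs_of_nonneg h0] at this
            linarith [g1 c p (1 / 4) (by norm_num) (by linarith)]
          rw [b0 p hp h, smul_eq_mul]
          linarith [k (1 / 2 - η) (by linarith) (by linarith), k (1 / 2 + η) (by linarith)
            (by linarith)]
        · rw [b1 t ht, smul_eq_mul]
          have k1 : 0 ≤ Γ (1 / 2 - η) t := Ga_nn _
          have k2 : 0 ≤ Γ (1 / 2 + η) t := Ga_nn _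
          rcases (EE_near ht).1 with h | h
          · have := g1 (1 / 2 + η) t η e0 (by
              rw [nr]; exact le_abs'.2 (Or.inl (by linarith [(abs_le.1 h).2])))
            rw [lη] at this; linarith
          · have := g1 (1 / 2 - η) t η e0 (by
              rw [nr]; exact le_abs'.2 (Or.inr (by linarith [(abs_le.1 h).1])))
            rw [lη] at this; linarith) _ (subset_closure m1)
    have g2 : ∀ p : ℝ, |1 / 2 - p| = η → Γ p (1 / 2 : ℝ) ≤ 102 := fun p hp => by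
      refine (Ga_le _).trans ?_
      rw [nn, nr, hp]
      have : 2 * (η / η ^ 2 + 1) ≤ 2 ^ 2 / η := by
        rw [le_div_iff₀ e0]; field_simp; linarith
      refine (log_le_log (by positivity) this).trans ?_
      rw [log_div (by norm_num) e0.ne', log_pow, lη]; push_cast; linarith [l2.2]
    rw [smul_eq_mul] at key
    linarith [g2 (1 / 2 - η) (by simp [abs_of_pos e0]), g2 (1 / 2 + η) (by simp [abs_of_pos e0])]
  · have key := cmp (s := UU (1 / 2 - η : ℝ) (1 / 2 + η : ℝ)) (t := u) Om_open Om_bdd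
      (UU_cont _ _).continuousOn hc (fun z _ => UU_sub _ _ z) (fun z hz => sub_harm (hu z hz).neg)
      (fun p hp => by
        have k : ∀ c : ℝ, 0 ≤ c → c ≤ 1 → ‖p‖ ≤ 1 → ll c p ≤ 0 := fun c h0 h1 h2 => by
          have := norm_sub_le p c
          rw [Complex.norm_real, Real.norm_eq_abs, abs_of_nonneg h0] at this
          exact ll_le (by linarith)
        unfold UU
        rcases fr hp with h | ⟨t, ht, rfl⟩
        · rw [b0 p hp h]
          linarith [k (1 / 2 - η) (by linarith) (by linarith) h.le,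
            k (1 / 2 + η) (by linarith) (by linarith) h.le]
        · have h1 : ‖(t : ℂ)‖ ≤ 1 := by
            rw [Complex.norm_real, Real.norm_eq_abs, abs_of_pos (by linarith [(EE_near ht).2.1])]
            linarith [(EE_near ht).2.2]
          rw [b1 t ht]
          rcases (EE_near ht).1 with h | h
          · linarith [ll_near ((nr _ _).trans_le h), k (1 / 2 + η) (by linarith) (by linarith) h1]
          · linarith [ll_near ((nr _ _).trans_le h), k (1 / 2 - η) (by linarith) (by linarith) h1])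
      _ (subset_closure m2)
    have k : ∀ c : ℝ, 0 ≤ c → -2 ≤ ll c (-(1 / 2) : ℝ) := fun c h0 => by
      have := ll_ge (p := c) (z := (-(1 / 2) : ℝ)) (a := 2⁻¹) (by norm_num)
        (by rw [nr]; exact le_abs'.2 (Or.inl (by linarith)))
      rw [log_inv] at this; linarith [l2.2]
    unfold UU at key
    linarith [k (1 / 2 - η) (by linarith), k (1 / 2 + η) (by linarith)]

lemma sub_ereal {U : ℂ → ℝ} (hc : Continuous U) {z : ℂ} (hz : z ∈ ball (0 : ℂ) 1)
    (h0 : ∀ w ∈ ball (0 : ℂ) 1, U w ≤ 0) (hs : SubAt U z) : ∃ ε : ℝ, 0 < ε ∧ ∀ ρ : ℝ, 0 < ρ → ρ < ε →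
      (U z : EReal) ≤ -((((ENNReal.ofReal (2 * π))⁻¹ * ∫⁻ θ in Ioc 0 (2 * π),
        (-(U (z + (ρ : ℂ) * Complex.exp ((θ : ℂ) * Complex.I)) : EReal)).toENNReal) : ENNReal) :
          EReal) := by
  obtain ⟨ε, hε, h⟩ := (nhdsGT_basis (0 : ℝ)).eventually_iff.1
    (hs.and (small (isOpen_ball.mem_nhds hz)))
  refine ⟨ε, hε, fun ρ h1 h2 => ?_⟩
  obtain ⟨h3, h4⟩ := h ⟨h1, h2⟩
  have h5 : ∀ θ : ℝ, 0 ≤ -U (circleMap z ρ θ) := fun θ =>
    neg_nonneg.2 (h0 _ (h4.2 (sphere_subset_closedBall (circleMap_mem_sphere z h1.le θ))))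
  have h6 : ∫⁻ θ in Ioc 0 (2 * π), (-(U (z + (ρ : ℂ) * Complex.exp ((θ : ℂ) * Complex.I)) :
      EReal)).toENNReal = ENNReal.ofReal (∫ θ in Ioc 0 (2 * π), -U (circleMap z ρ θ)) := by
    rw [ofReal_integral_eq_lintegral_ofReal (f := fun θ => -U (circleMap z ρ θ))
      ((hc.comp (continuous_circleMap z ρ)).neg.integrableOn_Ioc) (Eventually.of_forall h5)]
    refine lintegral_congr fun θ => ?_
    rw [← EReal.coe_neg, EReal.real_coe_toENNReal]; rfl
  have h7 : 0 ≤ ∫ θ in Ioc 0 (2 * π), -U (circleMap z ρ θ) := integral_nonneg h5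
  rw [h6, ← ENNReal.ofReal_inv_of_pos two_pi_pos, ← ENNReal.ofReal_mul (by positivity),
    EReal.coe_ennreal_ofReal, max_eq_left (by positivity), ← EReal.coe_neg, EReal.coe_le_coe_iff,
    integral_neg, ← intervalIntegral.integral_of_le two_pi_pos.le]
  rw [circleAverage, smul_eq_mul] at h3
  linarith

lemma comp_big {z : ℂ} (h : ‖z‖ = 1 / 2) : -(3 / 5) ≤ UU (1 / 2 - η : ℝ) (-(1 / 2 + η) : ℝ) z := by
  have e0 := η0; have e1 := η1
  have h1 := norm_sub_norm_le z (1 / 2 - η : ℝ)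
  have h2 := norm_sub_norm_le ((-(1 / 2 + η) : ℝ) : ℂ) z
  rw [Complex.norm_real, Real.norm_eq_abs, abs_of_pos (by linarith), h] at h1
  rw [Complex.norm_real, Real.norm_eq_abs, abs_of_neg (by linarith), h, norm_sub_rev] at h2
  have k1 := ll_ge e0 (show η ≤ ‖z - (1 / 2 - η : ℝ)‖ by linarith)
  have k2 := ll_ge e0 (show η ≤ ‖z - (-(1 / 2 + η) : ℝ)‖ by linarith)
  have l4 : -2 ≤ log (1 / 4) := by
    rw [one_div, log_inv, show (4 : ℝ) = 2 ^ 2 by norm_num, log_pow]; push_cast; linarith [l2.2]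
  rw [lη] at k1 k2
  unfold UU
  rcases le_total 0 z.re with c | c
  · have := Complex.re_le_norm (z - (-(1 / 2 + η) : ℝ))
    rw [Complex.sub_re, Complex.ofReal_re] at this
    linarith [ll_ge (a := 1 / 4) (by norm_num) (show 1 / 4 ≤ ‖z - (-(1 / 2 + η) : ℝ)‖ by linarith)]
  · have := (abs_le.1 (Complex.abs_re_le_norm (z - (1 / 2 - η : ℝ)))).1
    rw [Complex.sub_re, Complex.ofReal_re] at this
    linarith [ll_ge (a := 1 / 4) (by norm_num) (show 1 / 4 ≤ ‖z - (1 / 2 - η : ℝ)‖ by linarith)]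

lemma comp_le {z : ℂ} (h : ‖z‖ < 1) (c : ℝ) (hc : |c| ≤ 1) : ll c z ≤ 0 := by
  have := norm_sub_le z c
  rw [Complex.norm_real, Real.norm_eq_abs] at this
  exact ll_le (by linarith)

lemma comp_A {t : ℝ} (ht : t ∈ EE) :
    ∃ z ∈ sphere (0 : ℂ) t, UU (1 / 2 - η : ℝ) (-(1 / 2 + η) : ℝ) z ≤ -1 := by
  have e0 := η0; have e1 := η1
  obtain ⟨h1, h2, h3⟩ := EE_near ht
  unfold UU
  rcases h1 with h | h
  · refine ⟨t, by simp [abs_of_pos (show 0 < t by linarith)], ?_⟩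
    linarith [ll_near ((nr _ _).trans_le h), comp_le (z := t) (by
      rw [Complex.norm_real, Real.norm_eq_abs, abs_of_pos (by linarith)]; linarith) (-(1 / 2 + η))
      (abs_le.2 ⟨by linarith, by linarith⟩)]
  · refine ⟨(-t : ℝ), by simp [abs_of_pos (show 0 < t by linarith)], ?_⟩
    linarith [ll_near (p := (-(1 / 2 + η) : ℝ)) (z := (-t : ℝ)) ((nr _ _).trans_le (by
      rwa [← abs_neg, show -(-t - -(1 / 2 + η)) = t - (1 / 2 + η) by ring])),
      comp_le (z := (-t : ℝ)) (by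
      rw [Complex.norm_real, Real.norm_eq_abs, abs_of_neg (by linarith)]; linarith) (1 / 2 - η)
      (abs_le.2 ⟨by linarith, by linarith⟩)]

end Pool.Agent.H1.Mil
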