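import Mathlib

open Complex Metric Set Filter Real MeasureTheory
open scoped Topology ComplexConjugate

namespace Pool.Agent.H1.Mor

lemma norm_circleAverage_le (w : ℂ → ℂ) (z : ℂ) (r : ℝ) :
    ‖circleAverage w z r‖ ≤ circleAverage (fun ζ => ‖w ζ‖) z r := by
  simp only [circleAverage_def, norm_smul, smul_eq_mul]
  have h2 : ‖(2 * π)⁻¹‖ = (2 * π)⁻¹ := by
    rw [Real.norm_eq_abs, abs_of_pos]; positivity
  rw [h2]
  gcongr
  exact intervalIntegral.norm_integral_le_integral_norm (by positivity)

lemma avg_normsq (c z : ℂ) (r : ℝ) (hr : 0 < r) :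
    circleAverage (fun ζ => ‖ζ - c‖ ^ 2) z r = ‖z - c‖ ^ 2 + r ^ 2 := by
  have h1 : circleAverage (fun ζ => ‖ζ - c‖ ^ 2) z r =
      circleAverage (fun ζ => (‖z - c‖ ^ 2 + r ^ 2) +
        Complex.reCLM (2 * conj (z - c) * (ζ - z))) z r := by
    apply circleAverage_congr_sphere
    intro ζ hζ
    have h : ‖ζ - z‖ = r := by
      rw [mem_sphere_iff_norm, abs_of_pos hr] at hζ; exact hζ
    have e : ζ - c = (z - c) + (ζ - z) := by ring
    simp only
    rw [e, ← h]
    generalize z - c = a
    generalize ζ - z = b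
    rw [← Complex.normSq_eq_norm_sq, ← Complex.normSq_eq_norm_sq, ← Complex.normSq_eq_norm_sq]
    simp [Complex.normSq_apply]
    ring
  rw [h1, circleAverage_fun_add, circleAverage_const]
  · have h2 := ContinuousLinearMap.circleAverage_comp_comm (c := z) (R := r) Complex.reCLM
      (f := fun ζ => 2 * conj (z - c) * (ζ - z))
      (by apply ContinuousOn.circleIntegrable'; fun_prop)
    have h3 : circleAverage (fun ζ => 2 * conj (z - c) * (ζ - z)) z r = 0 := by
      rw [DiffContOnCl.circleAverage]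
      · simp
      · apply Differentiable.diffContOnCl; fun_prop
    rw [h3] at h2
    have : circleAverage (fun ζ => Complex.reCLM (2 * conj (z - c) * (ζ - z))) z r = 0 := by
      simpa [Function.comp_def] using h2
    rw [this]; simp
  · apply ContinuousOn.circleIntegrable'; fun_prop
  · apply ContinuousOn.circleIntegrable'; fun_prop

/-- maximum principle for functions with an approximate local mean value property -/
lemma maxp (w : ℂ → ℂ) (hw : Continuous w) (c : ℂ) (R : ℝ) (hR : 0 < R)
    (hmv : ∀ z ∈ ball c R, ∀ ε > 0, ∀ᶠ r in 𝓝[>] (0 : ℝ),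
      ‖w z - circleAverage w z r‖ ≤ ε * r ^ 2)
    (M : ℝ) (hM : ∀ ζ ∈ sphere c R, ‖w ζ‖ ≤ M) : ∀ z ∈ closedBall c R, ‖w z‖ ≤ M := by
  have key : ∀ δ > 0, ∀ z ∈ closedBall c R, ‖w z‖ ≤ M + δ * R ^ 2 := by
    intro δ hδ
    set u : ℂ → ℝ := fun ζ => ‖w ζ‖ + δ * ‖ζ - c‖ ^ 2 with hu
    have huc : Continuous u := by simp only [hu]; fun_prop
    obtain ⟨y, hy, hmax⟩ := (isCompact_closedBall c R).exists_isMaxOn
      (nonempty_closedBall.2 hR.le) huc.continuousOn
    have hys : y ∈ sphere c R := by
      by_contra hns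
      have hyb : y ∈ ball c R := by
        rw [mem_ball]; rw [mem_closedBall] at hy
        exact lt_of_le_of_ne hy (fun h => hns (mem_sphere.2 h))
      have h1 := hmv y hyb (δ / 2) (by positivity)
      have h2 : ∀ᶠ r in 𝓝[>] (0 : ℝ), r < R - dist y c := by
        apply Filter.Eventually.filter_mono nhdsWithin_le_nhds
        exact Iio_mem_nhds (by rw [mem_ball] at hyb; linarith)
      obtain ⟨r, ⟨h3, h4⟩, h5⟩ := ((h1.and h2).and self_mem_nhdsWithin).exists
      have h5 : 0 < r := h5
      have h6 : circleAverage u y r ≤ u y := by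
        apply circleAverage_mono_on_of_le_circle
        · exact huc.continuousOn.circleIntegrable'
        · intro x hx
          apply hmax
          rw [mem_sphere, abs_of_pos h5] at hx
          rw [mem_closedBall]
          linarith [dist_triangle x y c]
      have h7 : circleAverage u y r = circleAverage (fun ζ => ‖w ζ‖) y r
          + δ * (‖y - c‖ ^ 2 + r ^ 2) := by
        rw [hu, circleAverage_fun_add, ← avg_normsq c y r h5]
        · congr 1
          have := circleAverage_fun_smul (c := y) (R := r) (a := δ) (f := fun ζ => ‖ζ - c‖ ^ 2)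
          simpa using this
        · apply ContinuousOn.circleIntegrable'; fun_prop
        · apply ContinuousOn.circleIntegrable'; fun_prop
      have h8 := norm_circleAverage_le w y r
      have h9 : ‖w y‖ ≤ ‖circleAverage w y r‖ + ‖w y - circleAverage w y r‖ := by
        have := norm_add_le (circleAverage w y r) (w y - circleAverage w y r)
        simpa using this
      have h10 : u y = ‖w y‖ + δ * ‖y - c‖ ^ 2 := rfl
      have h11 : 0 < δ * r ^ 2 := by positivity
      nlinarith
    intro z hz
    have h1 : u z ≤ u y := hmax hz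
    have h2 : u y ≤ M + δ * R ^ 2 := by
      have : ‖y - c‖ = R := mem_sphere_iff_norm.1 hys
      simp only [hu, this]
      linarith [hM y hys]
    have h3 : ‖w z‖ ≤ u z := by
      simp only [hu]; have : 0 ≤ δ * ‖z - c‖ ^ 2 := by positivity
      linarith
    linarith
  intro z hz
  apply le_of_forall_pos_le_add
  intro ε hε
  have := key (ε / R ^ 2) (by positivity) z hz
  rwa [div_mul_cancel₀ _ (by positivity)] at this

/-- uniform approximation on a circle by `A + conj B` with `A`, `B` entire -/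
lemma approx (v : ℂ → ℂ) (hv : Continuous v) (c : ℂ) (R : ℝ) (hR : 0 < R) (ε : ℝ) (hε : 0 < ε) :
    ∃ A B : ℂ → ℂ, Differentiable ℂ A ∧ Differentiable ℂ B ∧
      ∀ ζ ∈ sphere c R, ‖v ζ - (A ζ + conj (B ζ))‖ ≤ ε := by
  have : Fact (0 < 2 * π) := ⟨by positivity⟩
  let F : C(AddCircle (2 * π), ℂ) :=
    ⟨fun x => v (c + R * (AddCircle.toCircle x : ℂ)), by
      have := AddCircle.continuous_toCircle (T := 2 * π)
      fun_prop⟩
  have hF : F ∈ (Submodule.span ℂ (range <| @fourier (2 * π))).topologicalClosure := by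
    rw [span_fourier_closure_eq_top]; trivial
  have hF' : F ∈ closure ((Submodule.span ℂ (range <| @fourier (2 * π))) : Set _) := hF
  obtain ⟨G, hG, hd⟩ := Metric.mem_closure_iff.1 hF' ε hε
  have hrep : ∃ A B : ℂ → ℂ, Differentiable ℂ A ∧ Differentiable ℂ B ∧
      ∀ x : AddCircle (2 * π), G x = A (AddCircle.toCircle x) + conj (B (AddCircle.toCircle x)) := by
    clear hd
    induction hG using Submodule.span_induction with
    | mem g hg =>
      obtain ⟨n, rfl⟩ := hg
      obtain ⟨m, rfl | rfl⟩ := Int.eq_nat_or_neg n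
      · refine ⟨fun ζ => ζ ^ m, fun _ => 0, by fun_prop, by fun_prop, fun x => ?_⟩
        rw [fourier_apply, AddCircle.toCircle_zsmul]
        simp
      · refine ⟨fun _ => 0, fun ζ => ζ ^ m, by fun_prop, by fun_prop, fun x => ?_⟩
        rw [fourier_neg, fourier_apply, AddCircle.toCircle_zsmul]
        simp
    | zero => exact ⟨fun _ => 0, fun _ => 0, by fun_prop, by fun_prop, fun x => by simp⟩
    | add g h _ _ ihg ihh =>
      obtain ⟨A, B, hA, hB, e⟩ := ihg
      obtain ⟨A', B', hA', hB', e'⟩ := ihh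
      refine ⟨fun ζ => A ζ + A' ζ, fun ζ => B ζ + B' ζ, by fun_prop, by fun_prop, fun x => ?_⟩
      simp [e, e']; ring
    | smul a g _ ih =>
      obtain ⟨A, B, hA, hB, e⟩ := ih
      refine ⟨fun ζ => a * A ζ, fun ζ => conj a * B ζ, by fun_prop, by fun_prop, fun x => ?_⟩
      simp [e]; ring
  obtain ⟨A, B, hA, hB, e⟩ := hrep
  refine ⟨fun ζ => A ((ζ - c) / R), fun ζ => B ((ζ - c) / R), by fun_prop, by fun_prop, ?_⟩
  intro ζ hζ
  have hn : ‖ζ - c‖ = R := mem_sphere_iff_norm.1 hζ
  have hR' : (R : ℂ) ≠ 0 := by exact_mod_cast hR.ne'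
  let y : Circle := ⟨(ζ - c) / R, by
    simp [Submonoid.unitSphere, hn, abs_of_pos hR, hR.ne']⟩
  obtain ⟨x, hx⟩ : ∃ x : AddCircle (2 * π), AddCircle.toCircle x = y :=
    (AddCircle.homeomorphCircle (T := 2 * π) (by positivity)).surjective y |>.imp fun x hx => by
      rw [← hx, AddCircle.homeomorphCircle_apply]
  have h1 : (AddCircle.toCircle x : ℂ) = (ζ - c) / R := by rw [hx]
  have h2 : F x = v ζ := by
    show v (c + R * (AddCircle.toCircle x : ℂ)) = v ζ
    rw [h1]; congr 1; field_simp; ring
  have h3 := e x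
  rw [h1] at h3
  simp only
  rw [← h3, ← h2, ← dist_eq_norm]
  exact (ContinuousMap.dist_apply_le_dist x).trans hd.le

end Pool.Agent.H1.Mor
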