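import Pool.Agent.H1.MorA

open Complex Metric Set Filter Real MeasureTheory
open scoped Topology ComplexConjugate

namespace Pool.Agent.H1.Mor

lemma avg_conj (B : ℂ → ℂ) (hB : Differentiable ℂ B) (z : ℂ) (r : ℝ) :
    circleAverage (fun ζ => conj (B ζ)) z r = conj (B z) := by
  have h2 := ContinuousLinearMap.circleAverage_comp_comm (c := z) (R := r)
    (Complex.conjCLE : ℂ →L[ℝ] ℂ) (f := B) hB.continuous.continuousOn.circleIntegrable'
  rw [hB.diffContOnCl.circleAverage] at h2
  simpa [Function.comp_def] using h2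

lemma harm_approx (v : ℂ → ℂ) (hv : Continuous v) (c : ℂ) (R : ℝ) (hR : 0 < R)
    (hmv : ∀ z ∈ ball c R, ∀ ε > 0, ∀ᶠ r in 𝓝[>] (0 : ℝ),
      ‖v z - circleAverage v z r‖ ≤ ε * r ^ 2) (ε : ℝ) (hε : 0 < ε) :
    ∃ A B : ℂ → ℂ, Differentiable ℂ A ∧ Differentiable ℂ B ∧
      ∀ ζ ∈ closedBall c R, ‖v ζ - (A ζ + conj (B ζ))‖ ≤ ε := by
  obtain ⟨A, B, hA, hB, h⟩ := approx v hv c R hR ε hε
  refine ⟨A, B, hA, hB, ?_⟩
  have hAc := hA.continuous
  have hBc := hB.continuous
  apply maxp (fun ζ => v ζ - (A ζ + conj (B ζ))) (by fun_prop) c R hR _ ε h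
  intro z hz η hη
  filter_upwards [hmv z hz η hη] with r hr
  rw [circleAverage_fun_sub, circleAverage_fun_add, avg_conj B hB, hA.diffContOnCl.circleAverage]
  · convert hr using 2; ring
  · exact hAc.continuousOn.circleIntegrable'
  · apply ContinuousOn.circleIntegrable'; fun_prop
  · exact hv.continuousOn.circleIntegrable'
  · apply ContinuousOn.circleIntegrable'; fun_prop

lemma circ_conj (B : ℂ → ℂ) (hB : Differentiable ℂ B) (z : ℂ) (r : ℝ) (hr : 0 < r) :
    (∮ ζ in C(z, r), conj (B ζ)) = 2 * π * I * r ^ 2 * conj (deriv B z) := by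
  have h1 := hB.diffContOnCl.deriv_eq_smul_circleIntegral (c := z) hr
  have h2 : conj (∮ ζ in C(z, r), conj (B ζ)) = -(r : ℂ) ^ 2 *
      ∮ ζ in C(z, r), (1 / (ζ - z) ^ 2) • B ζ := by
    simp only [circleIntegral]
    rw [← intervalIntegral.integral_const_mul, ← intervalIntegral.intervalIntegral_conj]
    apply intervalIntegral.integral_congr
    intro θ _
    simp only [deriv_circleMap, smul_eq_mul, map_mul, conj_I, conj_conj, circleMap_sub_center]
    have h3 : circleMap 0 r θ ≠ 0 := circleMap_ne_center hr.ne'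
    have h4 : conj (circleMap 0 r θ) = (r : ℂ) ^ 2 / circleMap 0 r θ := by
      rw [eq_div_iff h3, Complex.conj_mul', norm_circleMap_zero, abs_of_pos hr]
    rw [h4]; field_simp
  rw [h1] at h2
  have h3 := congrArg conj h2
  rw [conj_conj] at h3
  rw [h3]
  simp only [smul_eq_mul, map_mul, map_neg, map_pow, conj_ofReal, conj_I, map_ofNat]
  ring

lemma final_step (v f : ℂ → ℂ) (hv : Continuous v) (hf : UniformContinuous f) (c : ℂ) (R : ℝ)
    (hR : 0 < R)
    (hmv : ∀ z ∈ ball c R, ∀ ε > 0, ∀ᶠ r in 𝓝[>] (0 : ℝ),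
      ‖v z - circleAverage v z r‖ ≤ ε * r ^ 2)
    (hI : ∀ z r, 0 < r → (∮ ζ in C(z, r), v ζ) = 2 * π * I * ∫ t in ball z r, conj (f t)) :
    DifferentiableOn ℂ f (ball c (R / 2)) := by
  have key : ∀ η > 0, ∃ G : ℂ → ℂ, Differentiable ℂ G ∧
      ∀ z ∈ ball c (R / 2), ‖f z - G z‖ ≤ 2 * η := by
    intro η hη
    obtain ⟨δ, hδ, hδ'⟩ := Metric.uniformContinuous_iff.1 hf η hη
    set r := min δ (R / 2) with hr
    have hr0 : 0 < r := lt_min hδ (by positivity)
    obtain ⟨A, B, hA, hB, h⟩ := harm_approx v hv c R hR hmv (η * r) (by positivity)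
    have hAc := hA.continuous
    have hBc := hB.continuous
    refine ⟨fun z => deriv B z / π, (hB.deriv).div_const _, fun z hz => ?_⟩
    have hsub : sphere z r ⊆ closedBall c R := by
      intro x hx
      rw [mem_sphere] at hx; rw [mem_ball] at hz; rw [mem_closedBall]
      have : r ≤ R / 2 := min_le_right _ _
      linarith [dist_triangle x z c]
    have h1 : ‖∮ ζ in C(z, r), (v ζ - (A ζ + conj (B ζ)))‖ ≤ 2 * π * r * (η * r) :=
      circleIntegral.norm_integral_le_of_norm_le_const hr0.le (fun x hx => h x (hsub hx))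
    rw [circleIntegral.integral_sub, circleIntegral.integral_add, circ_conj B hB z r hr0,
      hA.diffContOnCl.circleIntegral_eq_zero hr0.le, hI z r hr0, zero_add] at h1
    rotate_left
    · exact hAc.continuousOn.circleIntegrable'
    · apply ContinuousOn.circleIntegrable'; fun_prop
    · exact hv.continuousOn.circleIntegrable'
    · apply ContinuousOn.circleIntegrable'; fun_prop
    have h2 : ‖(∫ t in ball z r, f t) - r ^ 2 * deriv B z‖ ≤ η * r ^ 2 := by
      have e : 2 * π * I * (∫ t in ball z r, conj (f t)) - 2 * π * I * r ^ 2 * conj (deriv B z)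
          = 2 * π * I * conj ((∫ t in ball z r, f t) - r ^ 2 * deriv B z) := by
        rw [integral_conj]; simp only [map_sub, map_mul, map_pow, conj_ofReal]; ring
      rw [e, norm_mul, Complex.norm_conj] at h1
      have e2 : ‖(2 * π * I : ℂ)‖ = 2 * π := by
        simp [abs_of_pos Real.pi_pos]
      rw [e2] at h1
      have : 2 * π * ‖(∫ t in ball z r, f t) - r ^ 2 * deriv B z‖ ≤ 2 * π * (η * r ^ 2) := by
        calc _ ≤ _ := h1
          _ = _ := by ring
      exact le_of_mul_le_mul_left this (by positivity)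
    have hvol : (volume (ball z r)).toReal = π * r ^ 2 := by
      rw [Complex.volume_ball]
      simp [ENNReal.toReal_ofReal hr0.le]; ring
    have hfin : volume (ball z r) < ⊤ := measure_ball_lt_top
    have h3 : ‖(∫ t in ball z r, f t) - π * r ^ 2 * f z‖ ≤ η * (π * r ^ 2) := by
      have e : (∫ t in ball z r, f t) - π * r ^ 2 * f z = ∫ t in ball z r, (f t - f z) := by
        rw [integral_sub, setIntegral_const, measureReal_def, hvol]
        · simp
        · exact ((hf.continuous.continuousOn).integrableOn_compact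
            (isCompact_closedBall z r)).mono_set ball_subset_closedBall
        · exact integrableOn_const hfin.ne
      rw [e, ← hvol, ← measureReal_def]
      apply norm_setIntegral_le_of_norm_le_const hfin
      intro x hx
      rw [← dist_eq_norm]
      apply (hδ' _).le
      exact lt_of_lt_of_le (mem_ball.1 hx) (min_le_left _ _)
    have hpi : (π : ℂ) ≠ 0 := by exact_mod_cast Real.pi_ne_zero
    have hr' : (r : ℂ) ≠ 0 := by exact_mod_cast hr0.ne'
    have e : f z - deriv B z / π = (((∫ t in ball z r, f t) - r ^ 2 * deriv B z)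
        - ((∫ t in ball z r, f t) - π * r ^ 2 * f z)) / (π * r ^ 2) := by
      field_simp; ring
    rw [e, norm_div]
    have e2 : ‖(π * r ^ 2 : ℂ)‖ = π * r ^ 2 := by
      simp [abs_of_pos Real.pi_pos]
    rw [e2, div_le_iff₀ (by positivity)]
    have h4 := norm_sub_le ((∫ t in ball z r, f t) - r ^ 2 * deriv B z)
      ((∫ t in ball z r, f t) - π * r ^ 2 * f z)
    have h5 : η * r ^ 2 ≤ η * (π * r ^ 2) := by
      have : r ^ 2 ≤ π * r ^ 2 := by
        have := Real.pi_gt_three
        nlinarith [sq_nonneg r]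
      gcongr
    linarith
  choose G hG hG' using key
  have hpos : ∀ n : ℕ, (0 : ℝ) < 1 / (n + 1) := fun n => by positivity
  have hlim : TendstoUniformlyOn (fun n : ℕ => G (1 / (n + 1)) (hpos n)) f atTop
      (ball c (R / 2)) := by
    rw [Metric.tendstoUniformlyOn_iff]
    intro ε hε
    have := (tendsto_one_div_add_atTop_nhds_zero_nat (𝕜 := ℝ)).eventually
      (gt_mem_nhds (show (0 : ℝ) < ε / 2 by positivity))
    filter_upwards [this] with n hn z hz
    rw [dist_eq_norm]
    linarith [hG' _ (hpos n) z hz]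
  exact hlim.tendstoLocallyUniformlyOn.differentiableOn
    (Eventually.of_forall fun n => (hG _ _).differentiableOn) isOpen_ball

end Pool.Agent.H1.Mor
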