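import Pool.Agent.H1.MorB

open Complex Metric Set Filter Real MeasureTheory
open scoped Topology ComplexConjugate Convolution

namespace Pool.Agent.H1.Mor

lemma inv_locInt : LocallyIntegrable (fun s : ℂ => s⁻¹) volume := by
  refine locallyIntegrable_of_norm_le_rpow (C := 1) (α := 1) (by simp) (by simp) ?_ ?_
  · refine Eventually.of_forall fun x => ?_
    simp [Real.rpow_neg_one]
  · exact measurable_inv.aestronglyMeasurable

lemma ninv_locInt : LocallyIntegrable (fun s : ℂ => ‖s⁻¹‖) volume := by
  refine locallyIntegrable_of_norm_le_rpow (C := 1) (α := 1) (by simp) (by simp) ?_ ?_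
  · refine Eventually.of_forall fun x => ?_
    simp [Real.rpow_neg_one]
  · exact measurable_inv.norm.aestronglyMeasurable

/-- the Cauchy transform -/
noncomputable def pot (g : ℂ → ℂ) (x : ℂ) : ℂ := ∫ t, (x - t)⁻¹ * g t

section
variable {g : ℂ → ℂ} (hg : Continuous g) (hc : HasCompactSupport g)
include hg hc

lemma pot_cont : Continuous (pot g) := by
  have h := hc.continuous_convolution_right (ContinuousLinearMap.mul ℂ ℂ) inv_locInt hg
  convert h using 1
  ext x
  rw [convolution_mul_swap]; rfl

lemma ker_int (x : ℂ) : Integrable (fun t => (x - t)⁻¹ * g t) :=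
  (hc.convolutionExists_right (ContinuousLinearMap.mul ℂ ℂ) inv_locInt hg x).integrable_swap

lemma npot_cont : Continuous (fun x : ℂ => ∫ t, ‖(x - t)⁻¹‖ * ‖g t‖) := by
  have h := (hc.norm).continuous_convolution_right (ContinuousLinearMap.mul ℝ ℝ) ninv_locInt
    hg.norm
  convert h using 1
  ext x
  rw [convolution_mul_swap]

lemma fubini (φ : ℝ → ℂ) (hφ : Continuous φ) (z : ℂ) (r : ℝ) :
    ∫ θ in (0 : ℝ)..2 * π, φ θ * pot g (circleMap z r θ) =
      ∫ t, g t * ∫ θ in (0 : ℝ)..2 * π, φ θ * (circleMap z r θ - t)⁻¹ := by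
  have hcm := continuous_circleMap z r
  have h := intervalIntegral_integral_swap (a := 0) (b := 2 * π) (μ := (volume : Measure ℂ))
    (f := fun θ t => φ θ * ((circleMap z r θ - t)⁻¹ * g t)) (by
      rw [integrable_prod_iff]
      · refine ⟨Eventually.of_forall fun θ => ?_, ?_⟩
        · exact (ker_int hg hc (circleMap z r θ)).const_mul (φ θ)
        · have e : (fun θ : ℝ => ∫ t, ‖Function.uncurry
              (fun θ t => φ θ * ((circleMap z r θ - t)⁻¹ * g t)) (θ, t)‖) =
              fun θ => ‖φ θ‖ * ∫ t, ‖(circleMap z r θ - t)⁻¹‖ * ‖g t‖ := by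
            ext θ
            rw [← integral_const_mul]
            simp [Function.uncurry]
          rw [e]
          have hcont : Continuous fun θ => ‖φ θ‖ * ∫ t, ‖(circleMap z r θ - t)⁻¹‖ * ‖g t‖ :=
            hφ.norm.mul ((npot_cont hg hc).comp hcm)
          exact (hcont.intervalIntegrable 0 (2 * π)).def'
      · apply Measurable.aestronglyMeasurable
        have h1 : Measurable fun p : ℝ × ℂ => φ p.1 := (hφ.comp continuous_fst).measurable
        have h2 : Measurable fun p : ℝ × ℂ => circleMap z r p.1 - p.2 :=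
          ((hcm.comp continuous_fst).sub continuous_snd).measurable
        have h3 : Measurable fun p : ℝ × ℂ => g p.2 := (hg.comp continuous_snd).measurable
        exact h1.mul (h2.inv.mul h3))
  simp only [pot]
  simp_rw [← integral_const_mul]
  rw [h]
  congr 1
  ext t
  rw [← intervalIntegral.integral_const_mul]
  congr 1
  ext θ
  ring

omit hg hc in
lemma ae_good (z : ℂ) (r : ℝ) : ∀ᵐ t : ℂ, t ∉ sphere z r ∧ t ≠ z := by
  have h1 : ∀ᵐ t : ℂ, t ∉ sphere z r := by
    rw [← measure_eq_zero_iff_ae_notMem]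
    exact Measure.addHaar_sphere _ z r
  have h2 : ∀ᵐ t : ℂ, t ∉ ({z} : Set ℂ) := by
    rw [← measure_eq_zero_iff_ae_notMem]
    exact measure_singleton z
  filter_upwards [h1, h2] with t h h'
  exact ⟨h, by simpa using h'⟩

omit hg hc in
lemma diff_out {z t : ℂ} {r : ℝ} (ht : r < dist t z) :
    DifferentiableOn ℂ (fun ζ => (ζ - t)⁻¹) (closedBall z r) := by
  apply DifferentiableOn.inv (by fun_prop)
  intro x hx h
  rw [sub_eq_zero] at h
  rw [h, mem_closedBall] at hx
  linarith

lemma circ_pot (z : ℂ) (r : ℝ) (hr : 0 < r) :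
    (∮ ζ in C(z, r), pot g ζ) = 2 * π * I * ∫ t in ball z r, g t := by
  have h := fubini hg hc (fun θ => circleMap 0 r θ * I)
    ((continuous_circleMap 0 r).mul continuous_const) z r
  simp only [circleIntegral, deriv_circleMap, smul_eq_mul]
  rw [h, ← integral_const_mul, ← integral_indicator measurableSet_ball]
  apply integral_congr_ae
  filter_upwards [ae_good z r] with t ht
  have e : ∫ θ in (0 : ℝ)..2 * π, circleMap 0 r θ * I * (circleMap z r θ - t)⁻¹ =
      ∮ ζ in C(z, r), (ζ - t)⁻¹ := by
    simp only [circleIntegral, deriv_circleMap, smul_eq_mul]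
  rw [e]
  by_cases hb : t ∈ ball z r
  · rw [indicator_of_mem hb, circleIntegral.integral_sub_inv_of_mem_ball hb, mul_comm]
  · rw [indicator_of_notMem hb]
    have h1 : r < dist t z := by
      rw [mem_ball, not_lt] at hb
      exact lt_of_le_of_ne hb (fun h => ht.1 (mem_sphere.2 h.symm))
    rw [DiffContOnCl.circleIntegral_eq_zero hr.le
      ((diff_out h1).mono closure_ball_subset_closedBall).diffContOnCl, mul_zero]

lemma avg_pot (z : ℂ) (r : ℝ) (hr : 0 < r) :
    pot g z - circleAverage (pot g) z r = ∫ t in ball z r, (z - t)⁻¹ * g t := by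
  have h := fubini hg hc (fun _ => (2 * π : ℂ)⁻¹) continuous_const z r
  have e0 : ∀ w : ℂ → ℂ, circleAverage w z r =
      ∫ θ in (0 : ℝ)..2 * π, (2 * π : ℂ)⁻¹ * w (circleMap z r θ) := by
    intro w
    rw [circleAverage_def, intervalIntegral.integral_const_mul]
    simp
  rw [e0, h]
  have h2 : (∫ t, g t * ∫ θ in (0 : ℝ)..2 * π, (2 * π : ℂ)⁻¹ * (circleMap z r θ - t)⁻¹) =
      ∫ t in (ball z r)ᶜ, (z - t)⁻¹ * g t := by
    rw [← integral_indicator measurableSet_ball.compl]
    apply integral_congr_ae
    filter_upwards [ae_good z r] with t ht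
    rw [← e0 (fun ζ => (ζ - t)⁻¹)]
    by_cases hb : t ∈ ball z r
    · rw [indicator_of_notMem (by simpa using hb), circleAverage_eq_circleIntegral hr.ne']
      have hzt : z - t ≠ 0 := sub_ne_zero.2 ht.2.symm
      have e : (∮ ζ in C(z, r), (ζ - z)⁻¹ • (ζ - t)⁻¹) =
          ∮ ζ in C(z, r), (z - t)⁻¹ • ((ζ - z)⁻¹ - (ζ - t)⁻¹) := by
        apply circleIntegral.integral_congr hr.le
        intro ζ hζ
        have h1 : ζ - z ≠ 0 := by
          rw [sub_ne_zero]; rintro rfl; simp at hζ; exact hr.ne hζ
        have h2 : ζ - t ≠ 0 := by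
          rw [sub_ne_zero]; rintro rfl
          rw [mem_sphere] at hζ; rw [mem_ball] at hb; linarith
        simp only [smul_eq_mul]
        field_simp; ring
      rw [e, circleIntegral.integral_smul, circleIntegral.integral_sub,
        circleIntegral.integral_sub_inv_of_mem_ball hb,
        circleIntegral.integral_sub_inv_of_mem_ball (mem_ball_self hr)]
      · simp
      · rw [circleIntegrable_sub_inv_iff]; right
        rw [abs_of_pos hr]; simp [hr.ne]
      · rw [circleIntegrable_sub_inv_iff]; right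
        rw [abs_of_pos hr]; exact ht.1
    · rw [indicator_of_mem (by simpa using hb)]
      have h1 : r < dist t z := by
        rw [mem_ball, not_lt] at hb
        exact lt_of_le_of_ne hb (fun h => ht.1 (mem_sphere.2 h.symm))
      rw [DiffContOnCl.circleAverage, mul_comm]
      rw [abs_of_pos hr]
      exact ((diff_out h1).mono closure_ball_subset_closedBall).diffContOnCl
  rw [h2, pot, ← integral_add_compl measurableSet_ball (ker_int hg hc z)]
  ring

end

lemma polar (f : ℂ → ℂ) (hf : Continuous f) (z : ℂ) (r : ℝ) (hr : 0 < r) (ε : ℝ)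
    (h : ∀ ρ ∈ Ioo 0 r, ‖∮ ζ in C(z, ρ), f ζ‖ ≤ ε * ρ ^ 2) (hε : 0 < ε) :
    ‖∫ t in ball z r, (z - t)⁻¹ * conj (f t)‖ ≤ ε * r ^ 2 := by
  set H : ℝ × ℝ → ℂ := fun p => -conj (circleMap 0 1 p.2 * f (circleMap z p.1 p.2)) with hH
  have hHc : Continuous H := by
    simp only [hH, circleMap]; fun_prop
  have e1 : ∫ t in ball z r, (z - t)⁻¹ * conj (f t) =
      ∫ p in Ioo 0 r ×ˢ Ioo (-π) π, H p := by
    rw [← integral_indicator measurableSet_ball, ← integral_add_left_eq_self _ z,
      ← Complex.integral_comp_polarCoord_symm]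
    have hsub : Ioo 0 r ×ˢ Ioo (-π) π ⊆ polarCoord.target := by
      rw [polarCoord_target]; exact prod_mono Ioo_subset_Ioi_self subset_rfl
    rw [← inter_eq_right.2 hsub, ← setIntegral_indicator (measurableSet_Ioo.prod measurableSet_Ioo)]
    apply setIntegral_congr_fun polarCoord.open_target.measurableSet
    intro p hp
    rw [polarCoord_target] at hp
    have hp1 : 0 < p.1 := hp.1
    have e : Complex.polarCoord.symm p = circleMap 0 p.1 p.2 := by
      rw [Complex.polarCoord_symm_apply, circleMap, exp_mul_I]; simp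
    have e' : z + circleMap 0 p.1 p.2 = circleMap z p.1 p.2 := by simp [circleMap]
    simp only
    rw [e, e']
    by_cases hb : p.1 < r
    · rw [indicator_of_mem, indicator_of_mem]
      · simp only [hH, map_mul]
        have h3 : circleMap 0 1 p.2 ≠ 0 := circleMap_ne_center one_ne_zero
        have h4 : conj (circleMap 0 1 p.2) = 1 / circleMap 0 1 p.2 := by
          rw [eq_div_iff h3, Complex.conj_mul', norm_circleMap_zero]; simp
        have h5 : z - circleMap z p.1 p.2 = -(p.1 * circleMap 0 1 p.2) := by simp [circleMap]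
        have h6 : (p.1 : ℂ) ≠ 0 := by exact_mod_cast hp1.ne'
        rw [h4, h5, Complex.real_smul]
        field_simp
      · exact ⟨⟨hp1, hb⟩, hp.2⟩
      · rw [mem_ball, dist_eq_norm, circleMap_sub_center, norm_circleMap_zero, abs_of_pos hp1]
        exact hb
    · rw [indicator_of_notMem, indicator_of_notMem]
      · simp
      · intro h'; exact hb h'.1.2
      · rw [mem_ball, dist_eq_norm, circleMap_sub_center, norm_circleMap_zero, abs_of_pos hp1]
        exact hb
  have hint : IntegrableOn H (Ioo 0 r ×ˢ Ioo (-π) π) (volume.prod volume) := by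
    rw [← Measure.volume_eq_prod]
    exact (hHc.continuousOn.integrableOn_compact
      ((isCompact_Icc (a := (0 : ℝ)) (b := r)).prod (isCompact_Icc (a := -π) (b := π)))).mono_set
      (prod_mono Ioo_subset_Icc_self Ioo_subset_Icc_self)
  rw [e1, Measure.volume_eq_prod, setIntegral_prod _ hint]
  have hb : ∀ ρ ∈ Ioo 0 r, ‖∫ θ in Ioo (-π) π, H (ρ, θ)‖ ≤ ε * r := by
    intro ρ hρ
    have hper : Function.Periodic (fun θ => H (ρ, θ)) (2 * π) := by
      intro θ
      simp only [hH, periodic_circleMap _ _ θ]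
    have e2 : ∫ θ in Ioo (-π) π, H (ρ, θ) = ∫ θ in (0 : ℝ)..2 * π, H (ρ, θ) := by
      rw [← integral_Ioc_eq_integral_Ioo,
        ← intervalIntegral.integral_of_le (by linarith [Real.pi_pos])]
      have := hper.intervalIntegral_add_eq (-π) 0
      rw [zero_add] at this
      rw [← this]; congr 1; ring
    have hρ' : (ρ : ℂ) ≠ 0 := by exact_mod_cast hρ.1.ne'
    have e3 : conj (∫ θ in (0 : ℝ)..2 * π, H (ρ, θ)) = (I / ρ) * ∮ ζ in C(z, ρ), f ζ := by
      simp only [circleIntegral]
      rw [← intervalIntegral.integral_const_mul, ← intervalIntegral.intervalIntegral_conj]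
      apply intervalIntegral.integral_congr
      intro θ _
      have h5 : circleMap 0 ρ θ = ρ * circleMap 0 1 θ := by simp [circleMap]
      simp only [hH, map_neg, conj_conj, deriv_circleMap, smul_eq_mul, h5]
      field_simp
      rw [I_sq]; ring
    rw [e2, ← Complex.norm_conj, e3, norm_mul, norm_div, norm_I, Complex.norm_real,
      Real.norm_eq_abs, abs_of_pos hρ.1]
    calc _ ≤ 1 / ρ * (ε * ρ ^ 2) := by
          have := hρ.1
          gcongr; exact h ρ hρ
      _ = ε * ρ := by have := hρ.1.ne'; field_simp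
      _ ≤ ε * r := by gcongr; exact hρ.2.le
  have := norm_setIntegral_le_of_norm_le_const (μ := volume) (s := Ioo 0 r)
    (by simp) hb
  rw [Real.volume_real_Ioo_of_le hr.le] at this
  calc _ ≤ _ := this
    _ = _ := by ring

theorem morera (D : Set ℂ) (hD : IsOpen D) (f : ℂ → ℂ) (hf : ContinuousOn f D)
    (h : ∀ z ∈ D, Tendsto (fun r : ℝ => (∮ ζ in C(z, r), f ζ) / (r : ℂ) ^ 2) (𝓝[>] 0) (𝓝 0)) :
    DifferentiableOn ℂ f D := by
  intro c hc
  obtain ⟨R0, hR0, hsub⟩ := Metric.isOpen_iff.1 hD c hc
  set R := R0 / 3 with hR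
  have hRp : 0 < R := by positivity
  let χ : ContDiffBump c := ⟨R, 2 * R, hRp, by linarith⟩
  set F : ℂ → ℂ := fun ζ => (χ ζ : ℂ) * f ζ with hF
  have hχc : Continuous fun ζ => (χ ζ : ℂ) := continuous_ofReal.comp χ.continuous
  have hts : tsupport F ⊆ closedBall c (2 * R) := by
    apply closure_minimal _ isClosed_closedBall
    intro x hx
    by_contra hx'
    apply hx
    have : χ x = 0 := χ.zero_of_le_dist (by
      rw [mem_closedBall, not_le] at hx'; exact hx'.le)
    simp [hF, this]
  have hsub2 : closedBall c (2 * R) ⊆ D :=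
    (closedBall_subset_ball (by rw [hR]; linarith)).trans hsub
  have hFc : Continuous F :=
    (hχc.continuousOn.mul hf).continuous_of_tsupport_subset hD (hts.trans hsub2)
  have hFs : HasCompactSupport F :=
    (isCompact_closedBall c (2 * R)).of_isClosed_subset (isClosed_tsupport F) hts
  have hFe : EqOn F f (ball c R) := by
    intro x hx
    have : χ x = 1 := χ.one_of_mem_closedBall (ball_subset_closedBall hx)
    simp [hF, this]
  have hg : Continuous fun ζ => conj (F ζ) := by fun_prop
  have hgs : HasCompactSupport fun ζ => conj (F ζ) := hFs.comp_left (g := conj) (map_zero _)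
  have hd := final_step (pot fun ζ => conj (F ζ)) F (pot_cont hg hgs)
    (hFs.uniformContinuous_of_continuous hFc) c R hRp ?_ (fun z r hr => circ_pot hg hgs z r hr)
  · have h1 : DifferentiableOn ℂ f (ball c (R / 2)) :=
      hd.congr fun x hx => (hFe (ball_subset_ball (by linarith) hx)).symm
    exact (h1.differentiableAt (ball_mem_nhds c (by positivity))).differentiableWithinAt
  intro z hz ε hε
  have hzD : z ∈ D := hsub2 (ball_subset_closedBall (ball_subset_ball (by linarith) hz))
  have h1 := (h z hzD).eventually (ball_mem_nhds (0 : ℂ) hε)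
  have h2 : ∀ᶠ r in 𝓝[>] (0 : ℝ), r < R - dist z c := by
    apply Filter.Eventually.filter_mono nhdsWithin_le_nhds
    exact Iio_mem_nhds (by rw [mem_ball] at hz; linarith)
  obtain ⟨r0, hr0, hr0'⟩ := (mem_nhdsGT_iff_exists_Ioo_subset).1 (h1.and h2)
  filter_upwards [Ioo_mem_nhdsGT hr0] with r hr
  rw [avg_pot hg hgs z r hr.1]
  apply polar F hFc z r hr.1 ε _ hε
  intro ρ hρ
  obtain ⟨h3, h4⟩ := hr0' ⟨hρ.1, hρ.2.trans hr.2⟩
  have e : (∮ ζ in C(z, ρ), F ζ) = ∮ ζ in C(z, ρ), f ζ := by
    apply circleIntegral.integral_congr hρ.1.le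
    intro x hx
    apply hFe
    rw [mem_sphere] at hx; rw [mem_ball]
    linarith [dist_triangle x z c]
  rw [e]
  rw [dist_zero_right, norm_div, norm_pow, Complex.norm_real, Real.norm_eq_abs,
    abs_of_pos hρ.1, div_lt_iff₀ (by have := hρ.1; positivity)] at h3
  exact h3.le

end Pool.Agent.H1.Mor
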