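import Mathlib

open Complex Filter Topology Set

namespace Pool.Agent.H1.NevA

lemma cos_ne (w : ℂ) (h : w.im ≠ 0) : cos w ≠ 0 := by
  intro hc
  obtain ⟨k, hk⟩ := Complex.cos_eq_zero_iff.1 hc
  apply h
  have : w = (((2 * k + 1) * Real.pi / 2 : ℝ) : ℂ) := by rw [hk]; push_cast; ring
  rw [this, ofReal_im]

lemma tan_im (w : ℂ) :
    (tan w).im = Real.sinh w.im * Real.cosh w.im / normSq (cos w) := by
  have hs := Complex.sin_eq w
  have hc := Complex.cos_eq w
  have e1 : (sin w).re = Real.sin w.re * Real.cosh w.im := by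
    rw [hs]; simp [sin_ofReal_re, cos_ofReal_re, sinh_ofReal_re, cosh_ofReal_re]
  have e2 : (sin w).im = Real.cos w.re * Real.sinh w.im := by
    rw [hs]; simp [sin_ofReal_re, cos_ofReal_re, sinh_ofReal_re, cosh_ofReal_re]
  have e3 : (cos w).re = Real.cos w.re * Real.cosh w.im := by
    rw [hc]; simp [sin_ofReal_re, cos_ofReal_re, sinh_ofReal_re, cosh_ofReal_re]
  have e4 : (cos w).im = -(Real.sin w.re * Real.sinh w.im) := by
    rw [hc]; simp [sin_ofReal_re, cos_ofReal_re, sinh_ofReal_re, cosh_ofReal_re]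
  rw [tan_eq_sin_div_cos, div_im, e1, e2, e3, e4, ← sub_div]
  congr 1
  have := Real.sin_sq_add_cos_sq w.re
  linear_combination (Real.sinh w.im * Real.cosh w.im) * this

lemma tan_pos (w : ℂ) (h : 0 < w.im) : 0 < (tan w).im := by
  rw [tan_im]
  exact div_pos (mul_pos (Real.sinh_pos_iff.2 h) (Real.cosh_pos _))
    (normSq_pos.2 (cos_ne w h.ne'))

lemma tan_neg' (w : ℂ) (h : w.im < 0) : (tan w).im < 0 := by
  rw [tan_im]
  exact div_neg_of_neg_of_pos (mul_neg_of_neg_of_pos (Real.sinh_neg_iff.2 h) (Real.cosh_pos _))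
    (normSq_pos.2 (cos_ne w h.ne))

lemma mero (n z : ℂ) : MeromorphicAt (fun w => tan (n * w)) z := by
  have h1 : AnalyticAt ℂ (fun w => sin (n * w)) z := by fun_prop
  have h2 : AnalyticAt ℂ (fun w => cos (n * w)) z := by fun_prop
  exact h1.meromorphicAt.div h2.meromorphicAt

lemma nozero (n z : ℂ) : ¬ 0 < meromorphicOrderAt ((fun w => tan (n * w)) - fun _ => I) z := by
  intro h
  have hm : MeromorphicAt ((fun w => tan (n * w)) - fun _ => I) z :=
    (mero n z).sub (MeromorphicAt.const I z)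
  have ht := (tendsto_zero_iff_meromorphicOrderAt_pos hm).2 h
  have hc : Tendsto (fun w => cos (n * w)) (𝓝[≠] z) (𝓝 (cos (n * z))) :=
    ((by fun_prop : Continuous fun w => cos (n * w)).tendsto z).mono_left nhdsWithin_le_nhds
  have h1 := ht.mul hc
  have h2 : Tendsto (fun w => sin (n * w) - I * cos (n * w)) (𝓝[≠] z)
      (𝓝 (sin (n * z) - I * cos (n * z))) :=
    ((by fun_prop : Continuous fun w => sin (n * w) - I * cos (n * w)).tendsto z).mono_left
      nhdsWithin_le_nhds
  have hev : ∀ᶠ w in 𝓝[≠] z, ‖tan (n * w) - I‖ < 1 := by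
    have := ht.norm
    rw [norm_zero] at this
    exact this.eventually (gt_mem_nhds one_pos)
  have h3 : Tendsto (fun w => sin (n * w) - I * cos (n * w)) (𝓝[≠] z) (𝓝 (0 * cos (n * z))) := by
    refine h1.congr' (hev.mono fun w hw => ?_)
    have hne : cos (n * w) ≠ 0 := by
      intro h0
      simp [tan_eq_sin_div_cos, h0] at hw
    simp only [Pi.sub_apply, tan_eq_sin_div_cos]
    field_simp
  have h4 := tendsto_nhds_unique h2 h3
  have h5 := Complex.sin_sq_add_cos_sq (n * z)
  have h6 : sin (n * z) = I * cos (n * z) := by linear_combination h4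
  rw [h6, mul_pow, I_sq] at h5
  simp at h5

lemma pole_iff (n z : ℂ) (hn : n ≠ 0) :
    meromorphicOrderAt (fun w => tan (n * w)) z < 0 ↔ cos (n * z) = 0 := by
  constructor
  · intro h
    by_contra hc
    have h1 : AnalyticAt ℂ (fun w => sin (n * w)) z := by fun_prop
    have h2 : AnalyticAt ℂ (fun w => cos (n * w)) z := by fun_prop
    have h3 : AnalyticAt ℂ (fun w => tan (n * w)) z := h1.div h2 hc
    exact absurd h3.meromorphicOrderAt_nonneg (not_le.2 h)
  · intro hc
    rw [← tendsto_cobounded_iff_meromorphicOrderAt_neg (mero n z)]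
    have hs : sin (n * z) ≠ 0 := by
      intro hs
      have := Complex.sin_sq_add_cos_sq (n * z)
      simp [hs, hc] at this
    have hd : HasDerivAt (fun w => cos (n * w)) (-sin (n * z) * n) z := by
      simpa using ((hasDerivAt_id z).const_mul n).ccos
    have hne := hd.eventually_ne (c := 0) (mul_ne_zero (neg_ne_zero.2 hs) hn)
    have hsn : ∀ᶠ w in 𝓝[≠] z, sin (n * w) ≠ 0 :=
      (((by fun_prop : Continuous fun w => sin (n * w)).continuousAt (x := z)).eventually_ne
        hs).filter_mono nhdsWithin_le_nhds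
    have hq : Tendsto (fun w => cos (n * w) / sin (n * w)) (𝓝[≠] z) (𝓝[≠] 0) := by
      rw [tendsto_nhdsWithin_iff]
      constructor
      · have : ContinuousAt (fun w => cos (n * w) / sin (n * w)) z :=
          ContinuousAt.div (by fun_prop) (by fun_prop) hs
        have h' := this.tendsto
        simp only [hc, zero_div] at h'
        exact h'.mono_left nhdsWithin_le_nhds
      · filter_upwards [hne, hsn] with w h1 h2
        exact div_ne_zero h1 h2
    have := tendsto_inv₀_nhdsNE_zero.comp hq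
    refine this.congr fun w => ?_
    simp [tan_eq_sin_div_cos]

lemma fin_poles (n : ℝ) (hn : 0 < n) (U : Set ℂ) (hU : Bornology.IsBounded U) :
    {z ∈ U | meromorphicOrderAt (fun w => tan ((n : ℂ) * w)) z < 0}.Finite := by
  obtain ⟨R, hR⟩ := hU.exists_norm_le
  have hn' : (n : ℂ) ≠ 0 := by exact_mod_cast hn.ne'
  obtain ⟨M, hM⟩ := exists_nat_ge (n * R)
  refine ((Set.finite_Icc (-(M : ℤ) - 1) M).image
    (fun k : ℤ => ((2 * k + 1) * Real.pi / 2 / n : ℂ))).subset ?_
  rintro z ⟨hz, hp⟩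
  obtain ⟨k, hk⟩ := Complex.cos_eq_zero_iff.1 ((pole_iff _ z hn').1 hp)
  have h1 : ‖(n : ℂ) * z‖ ≤ M := by
    rw [norm_mul, norm_real, Real.norm_of_nonneg hn.le]
    exact (mul_le_mul_of_nonneg_left (hR z hz) hn.le).trans hM
  have h2 : (n : ℂ) * z = (((2 * k + 1) * Real.pi / 2 : ℝ) : ℂ) := by rw [hk]; push_cast; ring
  rw [h2, norm_real, Real.norm_eq_abs, abs_le] at h1
  have hpi := Real.pi_gt_three
  have hM0 : (0 : ℝ) ≤ M := Nat.cast_nonneg M
  refine ⟨k, ⟨?_, ?_⟩, ?_⟩
  · by_contra hh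
    have : (k : ℝ) ≤ -(M : ℝ) - 2 := by
      have : k ≤ -(M : ℤ) - 2 := by omega
      exact_mod_cast this
    nlinarith [h1.1]
  · by_contra hh
    have : (M : ℝ) + 1 ≤ k := by
      have : (M : ℤ) + 1 ≤ k := by omega
      exact_mod_cast this
    nlinarith [h1.2]
  · simp only
    rw [← hk]; field_simp

lemma many (a b : ℝ) (hab : a < b) :
    Tendsto (fun j : ℕ => {z ∈ ((↑) : ℝ → ℂ) '' Ioo a b |
      meromorphicOrderAt (fun w => tan ((((j : ℝ) + 1 : ℝ) : ℂ) * w)) z < 0}.ncard)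
      atTop atTop := by
  rw [tendsto_atTop]
  intro N
  have hpi := Real.pi_pos
  obtain ⟨J, hJ⟩ := exists_nat_ge ((N + 1) * Real.pi / (b - a))
  filter_upwards [eventually_ge_atTop J] with j hj
  set n : ℝ := (j : ℝ) + 1 with hn
  have hn0 : 0 < n := by positivity
  have hn' : (n : ℂ) ≠ 0 := by exact_mod_cast hn0.ne'
  have hJ' : (N + 1) * Real.pi ≤ n * (b - a) := by
    rw [div_le_iff₀ (by linarith)] at hJ
    have : (J : ℝ) ≤ j := by exact_mod_cast hj
    nlinarith
  have hb : Bornology.IsBounded (((↑) : ℝ → ℂ) '' Ioo a b) :=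
    Complex.isometry_ofReal.lipschitz.isBounded_image (Metric.isBounded_Ioo a b)
  set k0 : ℤ := ⌈a * n / Real.pi⌉ with hk0
  have hk1 : a * n / Real.pi ≤ k0 := Int.le_ceil _
  have hk2 : (k0 : ℝ) < a * n / Real.pi + 1 := Int.ceil_lt_add_one _
  rw [div_le_iff₀ hpi] at hk1
  have hk3 : (k0 : ℝ) * Real.pi < a * n + Real.pi := by
    have := mul_lt_mul_of_pos_right hk2 hpi
    rwa [add_mul, div_mul_cancel₀ _ hpi.ne', one_mul] at this
  let p : ℕ → ℂ := fun i => (((2 * ((k0 : ℝ) + i) + 1) * Real.pi / 2 / n : ℝ) : ℂ)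
  have hp : Function.Injective p := by
    intro i i' h
    have h1 := ofReal_injective h
    field_simp at h1
    have : (i : ℝ) = i' := by linarith
    exact_mod_cast this
  have hsub : p '' (Finset.range N : Set ℕ) ⊆ {z ∈ ((↑) : ℝ → ℂ) '' Ioo a b |
      meromorphicOrderAt (fun w => tan ((n : ℂ) * w)) z < 0} := by
    rintro _ ⟨i, hi, rfl⟩
    have hi' : (i : ℝ) + 1 ≤ N := by
      have : i + 1 ≤ N := by simpa [Nat.succ_le_iff] using hi
      exact_mod_cast this
    have hi0 : (0 : ℝ) ≤ i := Nat.cast_nonneg i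
    refine ⟨⟨_, ⟨?_, ?_⟩, rfl⟩, (pole_iff _ _ hn').2 ?_⟩
    · rw [lt_div_iff₀ hn0]; nlinarith
    · rw [div_lt_iff₀ hn0]; nlinarith
    · refine Complex.cos_eq_zero_iff.2 ⟨k0 + i, ?_⟩
      simp only [p]; push_cast; field_simp
  have := Set.ncard_le_ncard hsub (fin_poles n hn0 _ hb)
  rwa [Set.ncard_image_of_injective _ hp, Set.ncard_coe_finset, Finset.card_range] at this

lemma ncard_le (f : ℂ → ℂ) (U : Set ℂ) (h : {z ∈ U | meromorphicOrderAt f z < 0}.Finite) :
    {z ∈ U | meromorphicOrderAt f z < 0}.ncard ≤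
      ∑ᶠ z ∈ U, (-(meromorphicOrderAt f z).untop₀).toNat := by
  have key : ∀ o : WithTop ℤ, (-o.untop₀).toNat ≠ 0 ↔ o < 0 := by
    intro o
    induction o with
    | top => simp
    | coe k =>
      rw [WithTop.untop₀_coe, ← WithTop.coe_zero, WithTop.coe_lt_coe]; omega
  rw [finsum_mem_eq_sum_of_inter_support_eq (t := h.toFinset), Set.ncard_eq_toFinset_card _ h,
    Finset.card_eq_sum_ones]
  · refine Finset.sum_le_sum fun z hz => ?_
    have := (key _).2 ((h.mem_toFinset.1 hz).2)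
    omega
  · ext z
    simp only [mem_inter_iff, Function.mem_support, key, Finite.coe_toFinset, mem_ofPred_eq]
    tauto

end Pool.Agent.H1.NevA
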