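import Mathlib

namespace Pool.Agent.H1.Nod

open Polynomial Finset Filter Asymptotics

noncomputable def L (ν : ℝ) (p : ℝ[X]) : ℝ[X] :=
  (1 - X ^ 2) * derivative (derivative p) - 2 * C ν * X * derivative p

def lam (ν : ℝ) (m : ℕ) : ℝ := m * (m - 1 + 2 * ν)

noncomputable def D (ν : ℝ) : ℕ → ℝ[X] → ℝ[X]
  | 0, p => p
  | k + 1, p => L ν (D ν k p) + C (lam ν k) * D ν k p

lemma L_add (ν : ℝ) (p q : ℝ[X]) : L ν (p + q) = L ν p + L ν q := by
  simp only [L, derivative_add]; ring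

lemma L_C (ν c : ℝ) (p : ℝ[X]) : L ν (C c * p) = C c * L ν p := by
  simp only [L, derivative_C_mul]; ring

lemma L_zero (ν : ℝ) : L ν 0 = 0 := by simp [L]

lemma D_add (ν : ℝ) (k : ℕ) (p q : ℝ[X]) : D ν k (p + q) = D ν k p + D ν k q := by
  induction k with
  | zero => rfl
  | succ k ih => simp only [D, ih, L_add]; ring

lemma D_C (ν c : ℝ) (k : ℕ) (p : ℝ[X]) : D ν k (C c * p) = C c * D ν k p := by
  induction k with
  | zero => rfl
  | succ k ih => simp only [D, ih, L_C]; ring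

lemma D_zero (ν : ℝ) (k : ℕ) : D ν k 0 = 0 := by simpa using D_C ν 0 k 0

noncomputable def gam (ν : ℝ) (m : ℕ) : ℕ → ℝ
  | 0 => 1
  | j + 1 => -gam ν m j * ((m - 2 * j : ℕ) * ((m - 2 * j : ℕ) - 1)) /
      (2 * (j + 1) * (2 * (m - 2 * (j + 1) : ℕ) + 2 * (j + 1) - 1 + 2 * ν))

lemma tele {ν : ℝ} (hν : 0 ≤ ν) (m : ℕ) (z s : ℝ) :
    ∑ j ∈ range (m / 2 + 1), gam ν m j *
      ((m - 2 * j : ℕ) * ((m - 2 * j : ℕ) - 1) * z ^ (m - 2 * j - 2) * s ^ j +
        2 * j * (2 * (m - 2 * j : ℕ) + 2 * j - 1 + 2 * ν) * z ^ (m - 2 * j) * s ^ (j - 1)) = 0 := by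
  simp only [mul_add, sum_add_distrib]
  rw [sum_range_succ, sum_range_succ']
  have h1 : ((m - 2 * (m / 2) : ℕ) : ℝ) * (((m - 2 * (m / 2) : ℕ) : ℝ) - 1) = 0 := by
    rcases (by omega : m - 2 * (m / 2) = 0 ∨ m - 2 * (m / 2) = 1) with h | h <;> simp [h]
  rw [h1]
  simp only [zero_mul, mul_zero, add_zero, Nat.cast_zero]
  rw [← sum_add_distrib]
  refine sum_eq_zero fun j _ => ?_
  have e : m - 2 * j - 2 = m - 2 * (j + 1) := by omega
  have hd : (2 * ((j : ℝ) + 1) * (2 * (m - 2 * (j + 1) : ℕ) + 2 * (j + 1) - 1 + 2 * ν)) ≠ 0 := by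
    have h2 : (0 : ℝ) ≤ (m - 2 * (j + 1) : ℕ) := Nat.cast_nonneg _
    have h3 : (0 : ℝ) ≤ j := Nat.cast_nonneg _
    have : 0 < 2 * ((m - 2 * (j + 1) : ℕ) : ℝ) + 2 * (j + 1) - 1 + 2 * ν := by linarith
    positivity
  have h4 := div_mul_cancel₀ (-gam ν m j * ((m - 2 * j : ℕ) * ((m - 2 * j : ℕ) - 1))) hd
  rw [e, Nat.add_sub_cancel]
  simp only [gam, Nat.cast_add, Nat.cast_one]
  linear_combination (z ^ (m - 2 * (j + 1)) * s ^ j) * h4

noncomputable def G (ν : ℝ) (m : ℕ) : ℝ[X] :=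
  ∑ j ∈ range (m / 2 + 1), C (gam ν m j) * X ^ (m - 2 * j)

lemma L_sum (ν : ℝ) (s : Finset ℕ) (f : ℕ → ℝ[X]) : L ν (∑ j ∈ s, f j) = ∑ j ∈ s, L ν (f j) := by
  induction s using Finset.induction_on with
  | empty => simp [L_zero]
  | insert a s h ih => rw [sum_insert h, sum_insert h, L_add, ih]

lemma L_pow (ν : ℝ) (a : ℕ) (t : ℝ) :
    (L ν (X ^ a)).eval t = a * (a - 1) * t ^ (a - 2) - lam ν a * t ^ a := by
  rcases a with _ | _ | a
  · simp [L, lam]
  · simp [L, lam]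
  · simp [L, lam]; ring

lemma L_G {ν : ℝ} (hν : 0 ≤ ν) (m : ℕ) : L ν (G ν m) = C (-lam ν m) * G ν m := by
  refine Polynomial.funext fun t => ?_
  have h := tele hν m t 1
  rw [G, L_sum]
  simp only [L_C, eval_finsetSum, eval_mul, eval_C, L_pow, eval_pow, eval_X, mul_sum]
  rw [← sub_eq_zero, ← sum_sub_distrib, ← h]
  refine sum_congr rfl fun j hj => ?_
  have hj : 2 * j ≤ m := by rw [mem_range] at hj; omega
  have e : (m : ℝ) = (m - 2 * j : ℕ) + 2 * j := by rw [Nat.cast_sub hj]; push_cast; ring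
  simp only [lam, one_pow]
  generalize ((m - 2 * j : ℕ) : ℝ) = a at e ⊢
  rw [e]; ring

lemma D_G {ν : ℝ} (hν : 0 ≤ ν) (k m : ℕ) :
    D ν k (G ν m) = C (∏ j ∈ range k, (lam ν j - lam ν m)) * G ν m := by
  induction k with
  | zero => simp [D]
  | succ k ih =>
    simp only [D, ih, L_C, L_G hν, prod_range_succ, map_mul, map_sub, map_neg]; ring

lemma span_G (ν : ℝ) (P : ℝ[X] → Prop) (h0 : P 0) (ha : ∀ p q, P p → P q → P (p + q))
    (hc : ∀ c p, P p → P (C c * p)) (hG : ∀ m, P (G ν m)) (p : ℝ[X]) : P p := by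
  have hs : ∀ (s : Finset ℕ) (f : ℕ → ℝ[X]), (∀ j ∈ s, P (f j)) → P (∑ j ∈ s, f j) :=
    fun s f h => Finset.sum_induction f P ha h0 h
  have hX : ∀ m : ℕ, P (X ^ m) := by
    intro m
    induction m using Nat.strong_induction_on with
    | _ m ih =>
      have e : (X ^ m : ℝ[X]) = G ν m + C (-1) * ∑ j ∈ range (m / 2),
          C (gam ν m (j + 1)) * X ^ (m - 2 * (j + 1)) := by
        rw [G, sum_range_succ']; simp [gam]
      rw [e]
      refine ha _ _ (hG m) (hc _ _ (hs _ _ fun j hj => hc _ _ (ih _ ?_)))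
      rw [mem_range] at hj; omega
  induction p using Polynomial.induction_on' with
  | add p q hp hq => exact ha p q hp hq
  | monomial n a => rw [← C_mul_X_pow_eq_monomial]; exact hc _ _ (hX n)

lemma D_mem {ν : ℝ} (hν : 0 ≤ ν) (k : ℕ) (W : ℝ[X] → Prop) (h0 : W 0)
    (ha : ∀ p q, W p → W q → W (p + q)) (hc : ∀ c p, W p → W (C c * p))
    (hG : ∀ m, k ≤ m → W (G ν m)) (p : ℝ[X]) : W (D ν k p) := by
  refine span_G ν (fun p => W (D ν k p)) (by simpa [D_zero] using h0)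
    (fun p q hp hq => by simpa [D_add] using ha _ _ hp hq)
    (fun c p hp => by simpa [D_C] using hc c _ hp) (fun m => ?_) p
  simp only [D_G hν]
  rcases le_or_gt k m with h | h
  · exact hc _ _ (hG m h)
  · rw [prod_eq_zero (mem_range.2 h) (sub_self _)]; simpa using h0

lemma L_AB (ν : ℝ) (a b : ℕ) : L ν ((1 + X) ^ (a + 1) * (1 - X) ^ b) =
    C ((a + 1) * (a + ν)) * ((1 + X) ^ a * (1 - X) ^ (b + 1))
      + C (-(2 * (a + 1) * b + ν * (a + 1 + b))) * ((1 + X) ^ (a + 1) * (1 - X) ^ b)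
      + C (b * (b - 1 + ν)) * ((1 + X) ^ (a + 2) * (1 - X) ^ (b - 1)) := by
  refine Polynomial.funext fun t => ?_
  rcases a with _ | a <;> rcases b with _ | _ | b <;>
    simp [L, derivative_mul, derivative_pow] <;> ring

noncomputable def e (K N b : ℕ) : ℝ[X] := (1 + X) ^ (N + K - b) * (1 - X) ^ b

inductive Sm (K k m : ℕ) : (ℕ → ℝ[X]) → Prop
  | add (F F' : ℕ → ℝ[X]) : Sm K k m F → Sm K k m F' → Sm K k m (fun N => F N + F' N)
  | gen (c : ℕ → ℝ) (b : ℕ) : b ≤ k → (c =o[atTop] fun N : ℕ => (N : ℝ) ^ m) →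
      Sm K k m (fun N => C (c N) * e K N b)

lemma L_e (ν l : ℝ) {K b : ℕ} (hb : b < K) (N : ℕ) : L ν (e K N b) + C l * e K N b =
    C ((N + K - b) * (N + K - b - 1 + ν)) * e K N (b + 1)
      + C (l - (2 * (N + K - b) * b + ν * (N + K))) * e K N b
      + C (b * (b - 1 + ν)) * e K N (b - 1) := by
  obtain ⟨a, ha⟩ : ∃ a, N + K - b = a + 1 := ⟨N + K - b - 1, by omega⟩
  have h1 : N + K - (b + 1) = a := by omega
  have h2 : (N : ℝ) + K - b = a + 1 := by
    have : N + K = a + 1 + b := by omega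
    have : (N : ℝ) + K = a + 1 + b := by exact_mod_cast this
    linarith
  have h3 : (N : ℝ) + K = a + 1 + b := by linarith
  have h4 : C ((b : ℝ) * (b - 1 + ν)) * e K N (b - 1) =
      C (b * (b - 1 + ν)) * ((1 + X) ^ (a + 2) * (1 - X) ^ (b - 1)) := by
    rcases b with _ | b
    · simp
    · rw [e, show N + K - (b + 1 - 1) = a + 2 by omega]
  rw [h4, h2, h3]
  simp only [e, ha, h1, L_AB]
  simp only [map_sub, map_neg, map_mul, map_add, map_one]
  ring

lemma o_lin (p q : ℝ) : (fun N : ℕ => p * N + q) =o[atTop] fun N : ℕ => (N : ℝ) ^ 2 := by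
  have h1 : (fun x : ℝ => x ^ 1) =o[atTop] fun x : ℝ => x ^ 2 :=
    isLittleO_pow_pow_atTop_of_lt (by norm_num)
  have h0 : (fun x : ℝ => x ^ 0) =o[atTop] fun x : ℝ => x ^ 2 :=
    isLittleO_pow_pow_atTop_of_lt (by norm_num)
  have := ((h1.const_mul_left p).add (h0.const_mul_left q)).comp_tendsto
    tendsto_natCast_atTop_atTop
  simpa [Function.comp_def] using this

lemma step_aux (ν l : ℝ) {K k m b : ℕ} (hb : b ≤ k) (c : ℕ → ℝ)
    (hc : c =O[atTop] fun N : ℕ => (N : ℝ) ^ m) :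
    Sm K (k + 1) (m + 2) (fun N =>
      C (c N * ((N + K - b) * (N + K - b - 1 + ν) - N ^ 2)) * e K N (b + 1)
      + C (c N * (l - (2 * (N + K - b) * b + ν * (N + K)))) * e K N b
      + C (c N * (b * (b - 1 + ν))) * e K N (b - 1)) := by
  have h : ∀ p q : ℝ, (fun N : ℕ => c N * (p * N + q)) =o[atTop] fun N : ℕ => (N : ℝ) ^ (m + 2) :=
    fun p q => by simpa [pow_add] using hc.mul_isLittleO (o_lin p q)
  refine Sm.add _ _ (Sm.add _ _ (Sm.gen _ _ (by omega) ?_) (Sm.gen _ _ (by omega) ?_))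
    (Sm.gen _ _ (by omega) ?_)
  · refine (h (2 * (K - b) - 1 + ν) ((K - b) * (K - b - 1 + ν))).congr_left fun N => by ring
  · refine (h (-(2 * b + ν)) (l - (2 * (K - b) * b + ν * K))).congr_left fun N => by ring
  · refine (h 0 (b * (b - 1 + ν))).congr_left fun N => by ring

lemma Sm_step (ν l : ℝ) {K k m : ℕ} (hk : k < K) {F : ℕ → ℝ[X]} (hF : Sm K k m F) :
    Sm K (k + 1) (m + 2) (fun N => L ν (F N) + C l * F N) := by
  induction hF with
  | add F F' _ _ ih ih' =>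
    convert Sm.add _ _ ih ih' using 2 with N
    rw [L_add]; ring
  | gen c b hb hc =>
    have h1 := step_aux ν l (K := K) hb c hc.isBigO
    have h2 : Sm K (k + 1) (m + 2) (fun N => C (c N * N ^ 2) * e K N (b + 1)) :=
      Sm.gen _ _ (by omega) (by simpa [pow_add] using hc.mul_isBigO (isBigO_refl _ _))
    convert Sm.add _ _ h1 h2 using 2 with N
    have := L_e ν l (show b < K by omega) N
    rw [L_C, mul_left_comm, ← mul_add, this]
    simp only [map_mul, map_sub]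
    ring

lemma D_A (ν : ℝ) {K : ℕ} (k : ℕ) (hk : k ≤ K) : ∃ F, Sm K k (2 * k) F ∧
    ∀ N, D ν k (e K N 0) = C ((N : ℝ) ^ (2 * k)) * e K N k + F N := by
  induction k with
  | zero => exact ⟨_, Sm.gen 0 0 le_rfl (isLittleO_zero _ _), fun N => by simp [D]⟩
  | succ k ih =>
    obtain ⟨F, hF, h⟩ := ih (by omega)
    have h1 := step_aux ν (lam ν k) (K := K) (le_refl k) _
      (isBigO_refl (fun N : ℕ => (N : ℝ) ^ (2 * k)) atTop)
    refine ⟨_, Sm.add _ _ h1 (Sm_step ν (lam ν k) (by omega) hF), fun N => ?_⟩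
    have := L_e ν (lam ν k) (show k < K by omega) N
    simp only [D, h, L_add, L_C]
    simp only [map_mul, map_sub, map_pow] at this ⊢
    linear_combination (C (N : ℝ)) ^ (2 * k) * this

lemma Sm_bound {K m : ℕ} {F : ℕ → ℝ[X]} (hF : Sm K K m F) : ∃ q : ℕ → ℝ[X],
    (∀ N, F N = (1 + X) ^ N * q N) ∧ (∀ N, (q N).natDegree ≤ K) ∧
      ∀ η > 0, ∀ᶠ N in atTop, ∀ t ∈ Set.Icc (-1 : ℝ) 1, |(q N).eval t| ≤ η * (N : ℝ) ^ m := by
  induction hF with
  | add F F' _ _ ih ih' =>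
    obtain ⟨q, h1, h2, h3⟩ := ih
    obtain ⟨q', h1', h2', h3'⟩ := ih'
    refine ⟨fun N => q N + q' N, fun N => by simp only [h1, h1']; ring,
      fun N => (natDegree_add_le _ _).trans (max_le (h2 N) (h2' N)), fun η hη => ?_⟩
    filter_upwards [h3 (η / 2) (by positivity), h3' (η / 2) (by positivity)] with N a b t ht
    rw [eval_add]
    linarith [abs_add_le ((q N).eval t) ((q' N).eval t), a t ht, b t ht]
  | gen c b hb hc =>
    refine ⟨fun N => C (c N) * ((1 + X) ^ (K - b) * (1 - X) ^ b), fun N => ?_, fun N => ?_,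
      fun η hη => ?_⟩
    · simp only [e]
      rw [show N + K - b = N + (K - b) by omega, pow_add]; ring
    · have : K = (K - b) * 1 + b * 1 := by omega
      refine (natDegree_C_mul_le _ _).trans (natDegree_mul_le.trans ?_)
      conv_rhs => rw [this]
      gcongr
      · exact natDegree_pow_le.trans (by gcongr; compute_degree)
      · exact natDegree_pow_le.trans (by gcongr; compute_degree)
    · filter_upwards [hc.bound (c := η / 2 ^ K) (by positivity)] with N hN t ht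
      simp only [eval_mul, eval_C, eval_pow, eval_add, eval_sub, eval_one, eval_X, abs_mul, abs_pow]
      have h1 : |1 + t| ≤ 2 := by rw [abs_le]; constructor <;> linarith [ht.1, ht.2]
      have h2 : |1 - t| ≤ 2 := by rw [abs_le]; constructor <;> linarith [ht.1, ht.2]
      rw [Real.norm_eq_abs, Real.norm_eq_abs, abs_of_nonneg (by positivity : (0 : ℝ) ≤ N ^ m)] at hN
      calc |c N| * (|1 + t| ^ (K - b) * |1 - t| ^ b)
          ≤ (η / 2 ^ K * N ^ m) * (2 ^ (K - b) * 2 ^ b) := by gcongr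
        _ = η * N ^ m := by
          rw [← pow_add, Nat.sub_add_cancel hb]; field_simp

theorem peak (ν : ℝ) (K : ℕ) {δ : ℝ} (hδ : 0 < δ) : ∃ (N : ℕ) (p Q : ℝ[X]),
    D ν K p = (1 + X) ^ N * Q ∧ Q.natDegree ≤ K ∧
      ∀ t, -1 ≤ t → t ≤ 1 - δ → 0 < Q.eval t := by
  obtain ⟨F, hF, h⟩ := D_A ν K (le_refl K)
  obtain ⟨q, h1, h2, h3⟩ := Sm_bound hF
  obtain ⟨N, hN, hN1⟩ := ((h3 (δ ^ K / 2) (by positivity)).and (eventually_ge_atTop 1)).exists
  refine ⟨N, e K N 0, C ((N : ℝ) ^ (2 * K)) * (1 - X) ^ K + q N, ?_, ?_, fun t a b => ?_⟩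
  · rw [h, h1, e, Nat.add_sub_cancel]; ring
  · refine (natDegree_add_le _ _).trans (max_le ((natDegree_C_mul_le _ _).trans ?_) (h2 N))
    exact natDegree_pow_le.trans (by
      conv_rhs => rw [← mul_one K]
      gcongr; compute_degree)
  · have h4 := (abs_le.1 (hN t ⟨a, by linarith⟩)).1
    have h5 : δ ^ K ≤ (1 - t) ^ K := by gcongr; linarith
    have h6 : (0 : ℝ) < (N : ℝ) ^ (2 * K) := by
      have : (0 : ℝ) < N := by exact_mod_cast hN1
      positivity
    have h7 : 0 < δ ^ K := by positivity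
    simp only [eval_add, eval_mul, eval_C, eval_pow, eval_sub, eval_one, eval_X]
    nlinarith

end Pool.Agent.H1.Nod
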