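import Mathlib

namespace Pool.Agent.H1.Well

open Real Filter Topology InnerProductSpace Laplacian Polynomial

/-- gradient of a radial function -/
lemma rad_fderiv {n : ℕ} {U U1 : ℝ → ℝ} (h1 : ∀ s, HasDerivAt U (U1 s) s)
    (x : EuclideanSpace ℝ (Fin n)) :
    HasFDerivAt (fun y : EuclideanSpace ℝ (Fin n) => U (‖y‖ ^ 2))
      (U1 (‖x‖ ^ 2) • (2 • innerSL ℝ x)) x :=
  (h1 _).comp_hasFDerivAt x (hasStrictFDerivAt_norm_sq x).hasFDerivAt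

/-- Laplacian of a radial function -/
lemma rad_lap {n : ℕ} {U U1 U2 : ℝ → ℝ} (h1 : ∀ s, HasDerivAt U (U1 s) s)
    (h2 : ∀ s, HasDerivAt U1 (U2 s) s) (x : EuclideanSpace ℝ (Fin n)) :
    Δ (fun y : EuclideanSpace ℝ (Fin n) => U (‖y‖ ^ 2)) x =
      2 * n * U1 (‖x‖ ^ 2) + 4 * ‖x‖ ^ 2 * U2 (‖x‖ ^ 2) := by
  have e1 : fderiv ℝ (fun y : EuclideanSpace ℝ (Fin n) => U (‖y‖ ^ 2)) =
      fun y => U1 (‖y‖ ^ 2) • (2 • innerSL ℝ y) := funext fun y => (rad_fderiv h1 y).fderiv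
  have hL : HasFDerivAt (fun y : EuclideanSpace ℝ (Fin n) => (2 • innerSL ℝ y :
      EuclideanSpace ℝ (Fin n) →L[ℝ] ℝ)) (2 • innerSL ℝ (E := EuclideanSpace ℝ (Fin n))) x :=
    (2 • innerSL ℝ (E := EuclideanSpace ℝ (Fin n))).hasFDerivAt
  have e2 := ((rad_fderiv h2 x).smul hL).fderiv
  rw [laplacian_eq_iteratedFDeriv_orthonormalBasis _ (EuclideanSpace.basisFun (Fin n) ℝ)]
  simp only [iteratedFDeriv_two_apply, e1]
  have e3 : ∀ i : Fin n, fderiv ℝ (fun y : EuclideanSpace ℝ (Fin n) =>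
      U1 (‖y‖ ^ 2) • (2 • innerSL ℝ y : EuclideanSpace ℝ (Fin n) →L[ℝ] ℝ)) x
      (EuclideanSpace.basisFun (Fin n) ℝ i) (EuclideanSpace.basisFun (Fin n) ℝ i) =
      2 * U1 (‖x‖ ^ 2) + 4 * x i ^ 2 * U2 (‖x‖ ^ 2) := by
    intro i
    have : fderiv ℝ (fun y : EuclideanSpace ℝ (Fin n) =>
      U1 (‖y‖ ^ 2) • (2 • innerSL ℝ y : EuclideanSpace ℝ (Fin n) →L[ℝ] ℝ)) x = _ := e2
    rw [this]
    have hh : ((innerSL ℝ) (EuclideanSpace.single i (1 : ℝ) : EuclideanSpace ℝ (Fin n)))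
        (EuclideanSpace.single i (1 : ℝ)) = (1 : ℝ) := by
      rw [innerSL_apply_apply]; simp
    simp [EuclideanSpace.inner_single_right]
    erw [hh]
    ring
  simp only [Matrix.cons_val_zero, Matrix.cons_val_one, e3]
  rw [Finset.sum_add_distrib, ← Finset.sum_mul, ← Finset.sum_mul, ← Finset.mul_sum,
    EuclideanSpace.real_norm_sq_eq]
  simp
  left; ring

noncomputable def G0 (t : ℝ) : ℝ := expNegInvGlue t
noncomputable def G1 (t : ℝ) : ℝ := t⁻¹ ^ 2 * expNegInvGlue t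
noncomputable def G2 (t : ℝ) : ℝ := (t⁻¹ ^ 4 - 2 * t⁻¹ ^ 3) * expNegInvGlue t

lemma G0_d (t : ℝ) : HasDerivAt G0 (G1 t) t := by
  have := expNegInvGlue.hasDerivAt_polynomial_eval_inv_mul (1 : ℝ[X]) t
  unfold G0 G1; simpa using this

lemma G1_d (t : ℝ) : HasDerivAt G1 (G2 t) t := by
  have := expNegInvGlue.hasDerivAt_polynomial_eval_inv_mul (X ^ 2 : ℝ[X]) t
  unfold G1 G2
  refine HasDerivAt.congr_deriv (by simpa using this) ?_
  ring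

lemma G0_s : ContDiff ℝ (⊤ : ℕ∞) G0 := expNegInvGlue.contDiff
lemma G1_s : ContDiff ℝ (⊤ : ℕ∞) G1 := by
  have := expNegInvGlue.contDiff_polynomial_eval_inv_mul (n := ⊤) (X ^ 2 : ℝ[X])
  unfold G1; simpa using this
lemma G2_s : ContDiff ℝ (⊤ : ℕ∞) G2 := by
  have := expNegInvGlue.contDiff_polynomial_eval_inv_mul (n := ⊤) (X ^ 4 - 2 * X ^ 3 : ℝ[X])
  unfold G2; simpa using this

noncomputable def k0 (w : ℝ) : ℝ := exp (-w - 1) * G0 (-w - 1)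
noncomputable def k1 (w : ℝ) : ℝ := exp (-w - 1) * (G0 (-w - 1) + G1 (-w - 1))
noncomputable def k2 (w : ℝ) : ℝ := exp (-w - 1) * (G0 (-w - 1) + 2 * G1 (-w - 1) + G2 (-w - 1))

lemma lin_d (w : ℝ) : HasDerivAt (fun w : ℝ => -w - 1) (-1) w :=
  (hasDerivAt_neg' w).sub_const 1

lemma k0_d (w : ℝ) : HasDerivAt k0 (-k1 w) w := by
  have h := ((lin_d w).exp).fun_mul ((G0_d _).comp w (lin_d w))
  refine HasDerivAt.congr_deriv h ?_
  simp only [k1, Function.comp]; ring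

lemma k1_d (w : ℝ) : HasDerivAt k1 (-k2 w) w := by
  have h := ((lin_d w).exp).fun_mul
    (((G0_d _).comp w (lin_d w)).fun_add ((G1_d _).comp w (lin_d w)))
  refine HasDerivAt.congr_deriv h ?_
  simp only [k2, Function.comp]; ring

lemma k0_s : ContDiff ℝ (⊤ : ℕ∞) k0 := by
  have h : ContDiff ℝ (⊤ : ℕ∞) (fun w : ℝ => -w - 1) := by fun_prop
  exact h.exp.mul (G0_s.comp h)
lemma k1_s : ContDiff ℝ (⊤ : ℕ∞) k1 := by
  have h : ContDiff ℝ (⊤ : ℕ∞) (fun w : ℝ => -w - 1) := by fun_prop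
  exact h.exp.mul ((G0_s.comp h).add (G1_s.comp h))
lemma k2_s : ContDiff ℝ (⊤ : ℕ∞) k2 := by
  have h : ContDiff ℝ (⊤ : ℕ∞) (fun w : ℝ => -w - 1) := by fun_prop
  exact h.exp.mul (((G0_s.comp h).add (contDiff_const.mul (G1_s.comp h))).add (G2_s.comp h))

lemma k_zero {w : ℝ} (hw : -1 ≤ w) : k0 w = 0 ∧ k1 w = 0 ∧ k2 w = 0 := by
  have : expNegInvGlue (-w - 1) = 0 := expNegInvGlue.zero_of_nonpos (by linarith)
  simp [k0, k1, k2, G0, G1, G2, this]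

lemma k_ineq (w : ℝ) : 0 ≤ k0 w ∧ 0 ≤ k1 w ∧ 0 ≤ k2 w ∧ k0 w * k2 w ≤ k1 w ^ 2 := by
  rcases le_or_gt (-1) w with hw | hw
  · obtain ⟨a, b, c⟩ := k_zero hw
    simp [a, b, c]
  · have hs : 0 < -w - 1 := by linarith
    have hg := expNegInvGlue.nonneg (-w - 1)
    have he := exp_pos (-w - 1)
    have hi : 0 < (-w - 1)⁻¹ := inv_pos.2 hs
    simp only [k0, k1, k2, G0, G1, G2]
    generalize expNegInvGlue (-w - 1) = g at *
    generalize exp (-w - 1) = e at *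
    generalize (-w - 1)⁻¹ = a at *
    refine ⟨by positivity, by positivity, ?_, ?_⟩
    · have : g + 2 * (a ^ 2 * g) + (a ^ 4 - 2 * a ^ 3) * g
          = g * (1 + a ^ 2 + a ^ 2 * (a - 1) ^ 2) := by ring
      rw [this]; positivity
    · have : (e * (g + a ^ 2 * g)) ^ 2 - e * g * (e * (g + 2 * (a ^ 2 * g) +
          (a ^ 4 - 2 * a ^ 3) * g)) = 2 * e ^ 2 * g ^ 2 * a ^ 3 := by ring
      have h2 : 0 ≤ 2 * e ^ 2 * g ^ 2 * a ^ 3 := by positivity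
      linarith

noncomputable def S (w : ℝ) : ℝ := w⁻¹ ^ 2 - k0 w
noncomputable def S1 (w : ℝ) : ℝ := -2 * w⁻¹ ^ 3 + k1 w
noncomputable def S2 (w : ℝ) : ℝ := 6 * w⁻¹ ^ 4 - k2 w

lemma S_d {w : ℝ} (hw : w < 0) : HasDerivAt S (S1 w) w := by
  have h := ((hasDerivAt_inv hw.ne).fun_pow 2).fun_sub (k0_d w)
  refine HasDerivAt.congr_deriv h ?_
  simp only [S1]; field_simp; ring

lemma S1_d {w : ℝ} (hw : w < 0) : HasDerivAt S1 (S2 w) w := by
  have h := (((hasDerivAt_inv hw.ne).fun_pow 3).const_mul (-2)).fun_add (k1_d w)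
  refine HasDerivAt.congr_deriv h ?_
  simp only [S2]; field_simp; ring

lemma S1_pos {w : ℝ} (hw : w < 0) : 0 < S1 w := by
  have h := (k_ineq w).2.1
  have : w⁻¹ ^ 3 < 0 := Odd.pow_neg (by decide) (inv_lt_zero.2 hw)
  unfold S1; linarith

lemma N_nonneg {w : ℝ} (hw : w < 0) : 0 ≤ 6 * S1 w ^ 2 - 4 * S w * S2 w := by
  obtain ⟨h0, h1, h2, h3⟩ := k_ineq w
  have ha : 0 < -w⁻¹ := neg_pos.2 (inv_lt_zero.2 hw)
  have e : 6 * S1 w ^ 2 - 4 * S w * S2 w = 24 * (-w⁻¹) ^ 3 * k1 w + 2 * k1 w ^ 2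
      + 4 * (-w⁻¹) ^ 2 * k2 w + 24 * (-w⁻¹) ^ 4 * k0 w + 4 * (k1 w ^ 2 - k0 w * k2 w) := by
    unfold S S1 S2; ring
  have h4 : 0 ≤ k1 w ^ 2 - k0 w * k2 w := by linarith
  rw [e]; positivity

lemma N_zero {w : ℝ} (hw : -1 ≤ w) : 6 * S1 w ^ 2 - 4 * S w * S2 w = 0 := by
  obtain ⟨a, b, c⟩ := k_zero hw
  unfold S S1 S2; rw [a, b, c]; ring

noncomputable def f (w : ℝ) : ℝ :=
  smoothTransition (w + 4) * ((6 * S1 w ^ 2 - 4 * S w * S2 w) / S1 w ^ 3)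

lemma f_hi {w : ℝ} (hw : -1 ≤ w) : f w = 0 := by simp [f, N_zero hw]
lemma f_lo {w : ℝ} (hw : w ≤ -4) : f w = 0 := by
  simp [f, smoothTransition.zero_of_nonpos (show w + 4 ≤ 0 by linarith)]

lemma f_nonneg (w : ℝ) : 0 ≤ f w := by
  rcases le_or_gt (-1) w with hw | hw
  · rw [f_hi hw]
  · have hw0 : w < 0 := by linarith
    exact mul_nonneg (smoothTransition.nonneg _)
      (div_nonneg (N_nonneg hw0) (pow_pos (S1_pos hw0) 3).le)

lemma f_supp : HasCompactSupport f := by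
  refine HasCompactSupport.intro (isCompact_Icc (a := (-4 : ℝ)) (b := -1)) fun w hw => ?_
  rcases le_or_gt (-1) w with h | h
  · exact f_hi h
  · refine f_lo ?_
    by_contra h2
    exact hw ⟨by linarith, h.le⟩

lemma f_smooth : ContDiff ℝ (⊤ : ℕ∞) f := by
  refine contDiff_iff_contDiffAt.2 fun w => ?_
  rcases lt_or_ge w 0 with hw | hw
  · have hi : ContDiffAt ℝ (⊤ : ℕ∞) (fun w : ℝ => w⁻¹) w := contDiffAt_inv ℝ hw.ne
    have a0 : ContDiffAt ℝ (⊤ : ℕ∞) S w := (hi.pow 2).sub k0_s.contDiffAt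
    have a1 : ContDiffAt ℝ (⊤ : ℕ∞) S1 w := (contDiffAt_const.mul (hi.pow 3)).add k1_s.contDiffAt
    have a2 : ContDiffAt ℝ (⊤ : ℕ∞) S2 w := (contDiffAt_const.mul (hi.pow 4)).sub k2_s.contDiffAt
    have a3 : ContDiffAt ℝ (⊤ : ℕ∞) (fun w : ℝ => smoothTransition (w + 4)) w :=
      smoothTransition.contDiffAt.comp w (by fun_prop)
    exact a3.mul (((contDiffAt_const.mul (a1.pow 2)).sub ((contDiffAt_const.mul a0).mul a2)).div
      (a1.pow 3) (pow_pos (S1_pos hw) 3).ne')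
  · refine (contDiffAt_const (c := (0 : ℝ))).congr_of_eventuallyEq ?_
    filter_upwards [Ioi_mem_nhds (show -1 < w by linarith)] with y hy
    exact f_hi (le_of_lt hy)

end Pool.Agent.H1.Well
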