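import Pool.Agent.H1.NodA
import Pool.Agent.H1.WellA

namespace Pool.Agent.H1.Nod

open Polynomial Finset InnerProductSpace Laplacian

variable {n : ℕ}

lemma prod_lap (i0 : Fin n) {P P1 P2 U U1 U2 : ℝ → ℝ} (p1 : ∀ s, HasDerivAt P (P1 s) s)
    (p2 : ∀ s, HasDerivAt P1 (P2 s) s) (h1 : ∀ s, HasDerivAt U (U1 s) s)
    (h2 : ∀ s, HasDerivAt U1 (U2 s) s) (x : EuclideanSpace ℝ (Fin n)) :
    Δ (fun y : EuclideanSpace ℝ (Fin n) => P (y i0) * U (‖y‖ ^ 2)) x =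
      P2 (x i0) * U (‖x‖ ^ 2) + 4 * x i0 * P1 (x i0) * U1 (‖x‖ ^ 2) +
        P (x i0) * (2 * n * U1 (‖x‖ ^ 2) + 4 * ‖x‖ ^ 2 * U2 (‖x‖ ^ 2)) := by
  obtain ⟨p, hp⟩ : ∃ p : EuclideanSpace ℝ (Fin n) →L[ℝ] ℝ, ∀ x, p x = x i0 :=
    ⟨EuclideanSpace.proj i0, fun _ => rfl⟩
  have hP : ∀ {Q Q1 : ℝ → ℝ}, (∀ s, HasDerivAt Q (Q1 s) s) → ∀ y : EuclideanSpace ℝ (Fin n),
      HasFDerivAt (fun y : EuclideanSpace ℝ (Fin n) => Q (y i0)) (Q1 (y i0) • p) y := by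
    intro Q Q1 hQ y
    have := (hQ (p y)).comp_hasFDerivAt y p.hasFDerivAt
    simpa only [Function.comp_def, hp] using this
  have e1 : fderiv ℝ (fun y : EuclideanSpace ℝ (Fin n) => P (y i0) * U (‖y‖ ^ 2)) =
      fun y => (P (y i0) * U1 (‖y‖ ^ 2)) • (2 • innerSL ℝ y) + (P1 (y i0) * U (‖y‖ ^ 2)) • p := by
    funext y
    rw [((hP p1 y).fun_mul (Well.rad_fderiv h1 y)).fderiv]
    ext v; simp; ring
  have hL : HasFDerivAt (fun y : EuclideanSpace ℝ (Fin n) => (2 • innerSL ℝ y :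
      EuclideanSpace ℝ (Fin n) →L[ℝ] ℝ)) (2 • innerSL ℝ (E := EuclideanSpace ℝ (Fin n))) x :=
    (2 • innerSL ℝ (E := EuclideanSpace ℝ (Fin n))).hasFDerivAt
  have e2 : fderiv ℝ (fun y : EuclideanSpace ℝ (Fin n) => (P (y i0) * U1 (‖y‖ ^ 2)) •
      (2 • innerSL ℝ y : EuclideanSpace ℝ (Fin n) →L[ℝ] ℝ) + (P1 (y i0) * U (‖y‖ ^ 2)) • p) x = _ :=
    ((((hP p1 x).fun_mul (Well.rad_fderiv h2 x)).smul hL).fun_add
      (((hP p2 x).fun_mul (Well.rad_fderiv h1 x)).smul_const p)).fderiv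
  rw [laplacian_eq_iteratedFDeriv_orthonormalBasis _ (EuclideanSpace.basisFun (Fin n) ℝ)]
  simp only [iteratedFDeriv_two_apply, e1, e2, Matrix.cons_val_zero, Matrix.cons_val_one]
  have e3 : ∀ i : Fin n, ((innerSL ℝ) (EuclideanSpace.single i (1 : ℝ) : EuclideanSpace ℝ (Fin n)))
      (EuclideanSpace.single i (1 : ℝ)) = (1 : ℝ) := by
    intro i; rw [innerSL_apply_apply]; simp
  have e4 : P2 (x i0) * U (‖x‖ ^ 2) + 4 * x i0 * P1 (x i0) * U1 (‖x‖ ^ 2) +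
        P (x i0) * (2 * n * U1 (‖x‖ ^ 2) + 4 * ‖x‖ ^ 2 * U2 (‖x‖ ^ 2)) =
      ∑ i : Fin n, ((if i0 = i then P2 (x i0) * U (‖x‖ ^ 2) + 4 * x i0 * P1 (x i0) * U1 (‖x‖ ^ 2)
        else 0) + (P (x i0) * 2 * U1 (‖x‖ ^ 2) + P (x i0) * 4 * U2 (‖x‖ ^ 2) * x i ^ 2)) := by
    rw [sum_add_distrib, sum_add_distrib, ← mul_sum _ (fun i => x i ^ 2),
      ← EuclideanSpace.real_norm_sq_eq]
    simp; ring
  rw [e4]
  refine sum_congr rfl fun i _ => ?_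
  simp [EuclideanSpace.inner_single_right, hp]
  erw [e3]
  split_ifs with h
  · subst h; ring
  · ring

lemma mono_lap (i0 : Fin n) (a b : ℕ) (x : EuclideanSpace ℝ (Fin n)) :
    Δ (fun y : EuclideanSpace ℝ (Fin n) => y i0 ^ a * (‖y‖ ^ 2) ^ b) x =
      a * (a - 1) * x i0 ^ (a - 2) * (‖x‖ ^ 2) ^ b +
        2 * b * (2 * a + 2 * b - 1 + 2 * ((n - 1) / 2)) * x i0 ^ a * (‖x‖ ^ 2) ^ (b - 1) := by
  rw [prod_lap i0 (hasDerivAt_pow a) (fun s => (hasDerivAt_pow (a - 1) s).const_mul (a : ℝ))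
    (hasDerivAt_pow b) (fun s => (hasDerivAt_pow (b - 1) s).const_mul (b : ℝ))]
  generalize ‖x‖ ^ 2 = s
  rcases a with _ | _ | a <;> rcases b with _ | _ | b <;> simp <;> ring

def W (i0 : Fin n) (k : ℕ) (g : ℝ[X]) : Prop :=
  ∃ u : EuclideanSpace ℝ (Fin n) → ℝ, ContDiff ℝ (⊤ : ℕ∞) u ∧ (∀ x, Δ u x = 0) ∧
    (∀ j < k, iteratedFDeriv ℝ j u 0 = 0) ∧ ∀ x, ‖x‖ = 1 / 2 → u x = g.eval (2 * x i0)

lemma W_zero (i0 : Fin n) (k : ℕ) : W i0 k 0 :=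
  ⟨fun _ => 0, contDiff_const, fun _ => by simp, fun j _ => by simp, fun _ _ => by simp⟩

lemma W_add (i0 : Fin n) (k : ℕ) (p q : ℝ[X]) (hp : W i0 k p) (hq : W i0 k q) :
    W i0 k (p + q) := by
  obtain ⟨u, u1, u2, u3, u4⟩ := hp
  obtain ⟨v, v1, v2, v3, v4⟩ := hq
  refine ⟨u + v, u1.add v1, fun x => ?_, fun j hj => ?_, fun x hx => ?_⟩
  · rw [ContDiffAt.laplacian_add (u1.of_le (by norm_cast)).contDiffAt
      (v1.of_le (by norm_cast)).contDiffAt, u2, v2, add_zero]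
  · rw [iteratedFDeriv_add_apply (u1.of_le (by norm_cast; exact le_top)).contDiffAt
      (v1.of_le (by norm_cast; exact le_top)).contDiffAt, u3 j hj, v3 j hj, add_zero]
  · simp [u4 x hx, v4 x hx]

lemma W_C (i0 : Fin n) (k : ℕ) (c : ℝ) (p : ℝ[X]) (hp : W i0 k p) : W i0 k (C c * p) := by
  obtain ⟨u, u1, u2, u3, u4⟩ := hp
  refine ⟨c • u, u1.const_smul c, fun x => ?_, fun j hj => ?_, fun x hx => ?_⟩
  · rw [laplacian_smul c (u1.of_le (by norm_cast)).contDiffAt, u2, smul_zero]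
  · rw [iteratedFDeriv_const_smul_apply (u1.of_le (by norm_cast; exact le_top)).contDiffAt,
      u3 j hj, smul_zero]
  · simp [u4 x hx]

lemma lap_sum (s : Finset ℕ) (f : ℕ → EuclideanSpace ℝ (Fin n) → ℝ) (hf : ∀ j, ContDiff ℝ 2 (f j))
    (x : EuclideanSpace ℝ (Fin n)) : Δ (fun y => ∑ j ∈ s, f j y) x = ∑ j ∈ s, Δ (f j) x := by
  induction s using Finset.induction_on with
  | empty => simp
  | insert a s h ih =>
    simp only [sum_insert h]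
    rw [← ih]
    exact ContDiffAt.laplacian_add (hf a).contDiffAt
      (ContDiff.sum fun j _ => hf j).contDiffAt

lemma W_G (i0 : Fin n) (k m : ℕ) (hkm : k ≤ m) : W i0 k (G ((n - 1) / 2) m) := by
  have hn : (0 : ℝ) ≤ ((n : ℝ) - 1) / 2 := by
    have : 1 ≤ n := i0.pos
    have : (1 : ℝ) ≤ n := by exact_mod_cast this
    linarith
  set ν : ℝ := (n - 1) / 2 with hν
  have hm : ∀ (N : ℕ∞) (a b : ℕ), ContDiff ℝ N
      (fun y : EuclideanSpace ℝ (Fin n) => y i0 ^ a * (‖y‖ ^ 2) ^ b) := fun N a b =>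
    ContDiff.mul (by fun_prop) ((contDiff_norm_sq ℝ).pow b)
  set u : EuclideanSpace ℝ (Fin n) → ℝ := fun y => ∑ j ∈ range (m / 2 + 1),
    (2 ^ m * gam ν m j) * (y i0 ^ (m - 2 * j) * (‖y‖ ^ 2) ^ j) with hu
  have hs : ∀ N : ℕ∞, ContDiff ℝ N u := fun N =>
    ContDiff.sum fun j _ => contDiff_const.mul (hm N _ _)
  refine ⟨u, hs _, fun x => ?_, fun j hj => ?_, fun x hx => ?_⟩
  · rw [hu, lap_sum _ _ fun j => contDiff_const.mul (hm 2 _ _)]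
    have h := tele hn m (x i0) (‖x‖ ^ 2)
    rw [← mul_zero ((2 : ℝ) ^ m), ← h, mul_sum]
    refine sum_congr rfl fun j _ => ?_
    have := laplacian_smul (2 ^ m * gam ν m j) (hm 2 (m - 2 * j) j).contDiffAt (x := x)
    rw [mono_lap] at this
    refine Eq.trans this ?_
    rw [smul_eq_mul]; ring
  · have h1 : (fun z => u ((2 : ℝ) • z)) = (2 ^ m : ℝ) • u := by
      funext z
      simp only [hu, Pi.smul_apply, smul_eq_mul, mul_sum, norm_smul, PiLp.smul_apply]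
      refine sum_congr rfl fun i hi => ?_
      have hi : 2 * i ≤ m := by rw [mem_range] at hi; omega
      have e : (2 : ℝ) ^ m = 2 ^ (m - 2 * i) * (2 ^ 2) ^ i := by
        rw [← pow_mul, ← pow_add, Nat.sub_add_cancel hi]
      rw [Real.norm_two, mul_pow, mul_pow, mul_pow]
      linear_combination (-(2 ^ m * gam ν m i * z i0 ^ (m - 2 * i) * (‖z‖ ^ 2) ^ i)) * e
    have h2 := congrFun (iteratedFDeriv_comp_const_smul (2 : ℝ) (hs j)) 0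
    rw [h1, iteratedFDeriv_const_smul_apply (hs j).contDiffAt, smul_zero, ← sub_eq_zero,
      ← sub_smul, smul_eq_zero] at h2
    refine h2.resolve_left (sub_ne_zero.2 (ne_of_gt ?_))
    exact pow_lt_pow_right₀ (by norm_num) (by omega)
  · simp only [hu, G, eval_finsetSum, eval_mul, eval_C, eval_pow, eval_X, hx]
    refine sum_congr rfl fun i hi => ?_
    have hi : 2 * i ≤ m := by rw [mem_range] at hi; omega
    have e : (2 : ℝ) ^ m * ((1 / 2) ^ 2) ^ i = 2 ^ (m - 2 * i) := by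
      conv_lhs => rw [← Nat.sub_add_cancel hi, pow_add, pow_mul, mul_assoc, ← mul_pow]
      norm_num
    rw [mul_pow]
    linear_combination (gam ν m i * x i0 ^ (m - 2 * i)) * e

theorem harm_peak (i0 : Fin n) (K : ℕ) {δ : ℝ} (hδ : 0 < δ) : ∃ (N : ℕ) (Q : ℝ[X]),
    W i0 K ((1 + X) ^ N * Q) ∧ Q.natDegree ≤ K ∧ ∀ t, -1 ≤ t → t ≤ 1 - δ → 0 < Q.eval t := by
  have hn : (0 : ℝ) ≤ ((n : ℝ) - 1) / 2 := by
    have : 1 ≤ n := i0.pos
    have : (1 : ℝ) ≤ n := by exact_mod_cast this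
    linarith
  obtain ⟨N, p, Q, h1, h2, h3⟩ := peak ((n - 1) / 2) K hδ
  exact ⟨N, Q, h1 ▸ D_mem hn K _ (W_zero i0 K) (W_add i0 K) (W_C i0 K) (W_G i0 K) p, h2, h3⟩

end Pool.Agent.H1.Nod
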