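import Pool.Agent.H1.NodB

namespace Pool.Agent.H1.Nod

open Polynomial Finset InnerProductSpace Laplacian MeasureTheory Metric
open scoped ENNReal NNReal

variable {d : ℕ}

noncomputable def Phi (σ : ℝ) (y : EuclideanSpace ℝ (Fin d)) : EuclideanSpace ℝ (Fin (d + 2)) :=
  WithLp.toLp 2 (Fin.cons 0 (Fin.cons (σ * (1 - ‖y‖ ^ 2) / (1 + ‖y‖ ^ 2))
    (fun i => 2 * y i / (1 + ‖y‖ ^ 2))))

lemma Phi_C1 (σ : ℝ) : ContDiff ℝ 1 (Phi (d := d) σ) := by
  have h1 : ContDiff ℝ 1 (fun y : EuclideanSpace ℝ (Fin d) => ‖y‖ ^ 2) := contDiff_norm_sq ℝ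
  refine contDiff_euclidean.2 fun i => ?_
  refine Fin.cases ?_ (fun i => Fin.cases ?_ (fun i => ?_) i) i
  · simpa [Phi] using contDiff_const
  · simp only [Phi, Fin.cons_succ, Fin.cons_zero]
    exact (contDiff_const.mul (contDiff_const.sub h1)).div (contDiff_const.add h1)
      fun y => by positivity
  · simp only [Phi, Fin.cons_succ]
    exact ContDiff.div (by fun_prop) (contDiff_const.add h1) fun y => by positivity

lemma Phi_fin (σ : ℝ) : μH[(d : ℝ)] (Phi (d := d) σ '' closedBall 0 1) < ⊤ := by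
  obtain ⟨K, hK⟩ := ((Phi_C1 (d := d) σ).locallyLipschitz.locallyLipschitzOn
    (s := closedBall 0 1)).exists_lipschitzOnWith_of_compact (isCompact_closedBall 0 1)
  refine (hK.hausdorffMeasure_image_le (Nat.cast_nonneg d)).trans_lt
    (ENNReal.mul_lt_top (ENNReal.rpow_lt_top_of_nonneg (Nat.cast_nonneg d) ENNReal.coe_ne_top) ?_)
  have := (isCompact_closedBall (0 : EuclideanSpace ℝ (Fin d)) 1).measure_lt_top
    (μ := μH[(Module.finrank ℝ (EuclideanSpace ℝ (Fin d)) : ℝ)])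
  simpa using this

def Eqt (d : ℕ) : Set (EuclideanSpace ℝ (Fin (d + 2))) := {x | x 0 = 0 ∧ ‖x‖ = 1}

lemma Eqt_fin : μH[(d : ℝ)] (Eqt d) < ⊤ := by
  have h : Eqt d ⊆ Phi 1 '' closedBall 0 1 ∪ Phi (-1) '' closedBall 0 1 := by
    rintro x ⟨h0, h1⟩
    have h2 : x 1 ^ 2 + ∑ i : Fin d, x i.succ.succ ^ 2 = 1 := by
      have := EuclideanSpace.real_norm_sq_eq x
      rw [h1, Fin.sum_univ_succ, Fin.sum_univ_succ, h0] at this
      simpa using this.symm
    have ha : 0 < 1 + |x 1| := by positivity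
    set y : EuclideanSpace ℝ (Fin d) := WithLp.toLp 2 fun i => x i.succ.succ / (1 + |x 1|)
    have hy : ‖y‖ ^ 2 = (1 - |x 1|) / (1 + |x 1|) := by
      rw [EuclideanSpace.real_norm_sq_eq]
      simp only [y, div_pow, ← sum_div]
      rw [eq_sub_of_add_eq' h2, ← sq_abs (x 1)]
      field_simp; ring
    have hy1 : y ∈ closedBall (0 : EuclideanSpace ℝ (Fin d)) 1 := by
      rw [mem_closedBall_zero_iff, ← sq_le_one_iff₀ (norm_nonneg _), hy, div_le_one ha]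
      linarith [abs_nonneg (x 1)]
    have key : ∀ σ : ℝ, σ * |x 1| = x 1 → Phi σ y = x := by
      intro σ hσ
      ext i
      refine Fin.cases ?_ (fun i => Fin.cases ?_ (fun i => ?_) i) i
      · simp [Phi, h0]
      · simp only [Phi, Fin.cons_succ, Fin.cons_zero, hy]
        rw [show (Fin.succ 0 : Fin (d + 2)) = 1 from rfl, ← hσ]
        rw [hσ]
        field_simp
        linear_combination 2 * hσ
      · simp only [Phi, Fin.cons_succ, hy, y]
        field_simp; ring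
    rcases le_total 0 (x 1) with h | h
    · exact Or.inl ⟨y, hy1, key 1 (by rw [abs_of_nonneg h, one_mul])⟩
    · exact Or.inr ⟨y, hy1, key (-1) (by rw [abs_of_nonpos h]; ring)⟩
  exact (measure_mono h).trans_lt ((measure_union_le _ _).trans_lt
    (ENNReal.add_lt_top.2 ⟨Phi_fin 1, Phi_fin (-1)⟩))

lemma circ_le (t : ℝ) (r : ℝ≥0) (hr : (1 - t ^ 2) / 4 ≤ (r : ℝ) ^ 2) :
    μH[(d : ℝ)] {x : EuclideanSpace ℝ (Fin (d + 2)) | ‖x‖ = 1 / 2 ∧ 2 * x 0 = t} ≤
      (r : ℝ≥0∞) ^ (d : ℝ) * μH[(d : ℝ)] (Eqt d) := by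
  set ρ := √((1 - t ^ 2) / 4) with hρ
  have hρ0 : 0 ≤ ρ := Real.sqrt_nonneg _
  have hρr : ρ ≤ r := Real.sqrt_le_iff.2 ⟨r.2, hr⟩
  set c : EuclideanSpace ℝ (Fin (d + 2)) := EuclideanSpace.single 0 (t / 2) with hc
  have hL : LipschitzWith r (fun x : EuclideanSpace ℝ (Fin (d + 2)) => c + ρ • x) := by
    refine LipschitzWith.of_dist_le_mul fun x y => ?_
    rw [dist_add_left, dist_smul₀, Real.norm_eq_abs, abs_of_nonneg hρ0]
    gcongr
  refine le_trans (measure_mono ?_) (hL.hausdorffMeasure_image_le (Nat.cast_nonneg d) _)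
  rintro x ⟨h1, h2⟩
  have h3 : ‖x - c‖ = ρ := by
    have e : ‖x - c‖ ^ 2 = (1 - t ^ 2) / 4 := by
      rw [norm_sub_sq_real, h1, hc, EuclideanSpace.inner_single_right, PiLp.norm_single,
        Real.norm_eq_abs, sq_abs, ← h2]
      simp; ring
    rw [hρ, ← e, Real.sqrt_sq (norm_nonneg _)]
  rcases hρ0.eq_or_lt with h | h
  · refine ⟨EuclideanSpace.single 1 1, ⟨by simp, by simp⟩, ?_⟩
    rw [← h, norm_eq_zero, sub_eq_zero] at h3
    simp [← h, h3]
  · refine ⟨ρ⁻¹ • (x - c), ⟨?_, ?_⟩, ?_⟩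
    · simp [hc, ← h2]
    · rw [norm_smul, h3, Real.norm_eq_abs, abs_of_pos (inv_pos.2 h), inv_mul_cancel₀ h.ne']
    · simp [smul_smul, mul_inv_cancel₀ h.ne']

theorem main (hd : 1 ≤ d) (K : ℕ) (ε : ℝ≥0∞) (hε : 0 < ε) :
    ∃ u : EuclideanSpace ℝ (Fin (d + 2)) → ℝ, HarmonicOnNhd u Set.univ ∧
      (∃ x, ‖x‖ < 1 ∧ u x ≠ 0) ∧ (∀ j < K, iteratedFDeriv ℝ j u 0 = 0) ∧
      μH[(d : ℝ)] {x | ‖x‖ = 1 / 2 ∧ u x = 0} < ε := by
  have hlim : Filter.Tendsto (fun r : ℝ≥0 => ((K + 1 : ℕ) : ℝ≥0∞) *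
      ((r : ℝ≥0∞) ^ (d : ℝ) * μH[(d : ℝ)] (Eqt d))) (nhds 0) (nhds 0) := by
    have h1 : Filter.Tendsto (fun r : ℝ≥0 => (r : ℝ≥0∞) ^ (d : ℝ)) (nhds 0) (nhds 0) := by
      have h2 : Continuous (fun r : ℝ≥0 => (r : ℝ≥0∞) ^ (d : ℝ)) :=
        ENNReal.continuous_rpow_const.comp ENNReal.continuous_coe
      have h3 : (0 : ℝ) < d := by exact_mod_cast hd
      simpa [ENNReal.zero_rpow_of_pos h3] using h2.tendsto 0
    have h2 := ENNReal.Tendsto.mul_const h1 (b := μH[(d : ℝ)] (Eqt d)) (Or.inr Eqt_fin.ne)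
    have h3 := ENNReal.Tendsto.const_mul (a := ((K + 1 : ℕ) : ℝ≥0∞)) h2
      (Or.inr (ENNReal.natCast_ne_top _))
    simpa using h3
  obtain ⟨r, ⟨hr, hr1⟩, hr0⟩ := ((((hlim.eventually (gt_mem_nhds hε)).and
    (gt_mem_nhds (zero_lt_one' ℝ≥0))).filter_mono (nhdsWithin_le_nhds (s := Set.Ioi 0))).and
      self_mem_nhdsWithin).exists
  have hr0 : (0 : ℝ) < r := hr0
  have hr1 : (r : ℝ) < 1 := hr1
  obtain ⟨N, Q, ⟨u, u1, u2, u3, u4⟩, hQ, hpos⟩ :=
    harm_peak (0 : Fin (d + 2)) K (δ := (r : ℝ) ^ 2) (by positivity)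
  have hQ0 : 0 < Q.eval 0 := hpos 0 (by norm_num) (by nlinarith)
  have hQne : Q ≠ 0 := by rintro rfl; simp at hQ0
  refine ⟨u, fun x _ => ⟨(u1.of_le (by norm_cast)).contDiffAt,
    Filter.Eventually.of_forall u2⟩, ⟨EuclideanSpace.single 1 (1 / 2), ?_, ?_⟩, u3, ?_⟩
  · simp; norm_num
  · rw [u4 _ (by simp)]
    simpa using hQ0.ne'
  · set T : Finset ℝ := insert (-1) (Q.roots.toFinset.filter fun t => 1 - (r : ℝ) ^ 2 < t) with hT
    have hsub : {x | ‖x‖ = 1 / 2 ∧ u x = 0} ⊆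
        ⋃ t ∈ T, {x : EuclideanSpace ℝ (Fin (d + 2)) | ‖x‖ = 1 / 2 ∧ 2 * x 0 = t} := by
      rintro x ⟨h1, h2⟩
      simp only [Set.mem_iUnion]
      refine ⟨2 * x 0, ?_, h1, rfl⟩
      rw [u4 x h1, eval_mul, eval_pow, mul_eq_zero] at h2
      rw [hT, mem_insert]
      rcases h2 with h2 | h2
      · left
        have := eq_zero_of_pow_eq_zero h2
        simp only [eval_add, eval_one, eval_X] at this
        linarith
      · right
        refine mem_filter.2 ⟨Multiset.mem_toFinset.2 ((mem_roots hQne).2 h2), ?_⟩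
        by_contra h
        have h3 : |x 0| ≤ 1 / 2 := by simpa [h1] using PiLp.norm_apply_le x 0
        exact (hpos _ (by linarith [(abs_le.1 h3).1]) (not_lt.1 h)).ne' h2
    have hcard : T.card ≤ K + 1 :=
      (card_insert_le _ _).trans (Nat.succ_le_succ ((card_filter_le _ _).trans
        ((Multiset.toFinset_card_le _).trans ((card_roots' Q).trans hQ))))
    refine lt_of_le_of_lt ((measure_mono hsub).trans ((measure_biUnion_finset_le _ _).trans ?_)) hr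
    refine (sum_le_card_nsmul _ _ ((r : ℝ≥0∞) ^ (d : ℝ) * μH[(d : ℝ)] (Eqt d))
      fun t ht => circ_le t r ?_).trans ?_
    · rw [hT, mem_insert] at ht
      rcases ht with rfl | ht
      · norm_num
      · have := (mem_filter.1 ht).2
        nlinarith [sq_nonneg (t - 1)]
    · rw [nsmul_eq_mul]
      gcongr

end Pool.Agent.H1.Nod
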