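import Pool.Agent.H1.OneDefs

namespace Pool.Agent.H1.One

open MeasureTheory Finset Set Filter Topology Real

variable {n : ℕ}

noncomputable def N (x : Fin n → ℂ) : ℝ := ∑ j, ‖x j‖ ^ 2
noncomputable def ip (w z : Fin n → ℂ) : ℂ := ∑ j, w j * starRingEnd ℂ (z j)

lemma N_nonneg (x : Fin n → ℂ) : 0 ≤ N x := sum_nonneg fun _ _ => sq_nonneg _

lemma N_smul (c : ℂ) (x : Fin n → ℂ) : N (c • x) = ‖c‖ ^ 2 * N x := by
  simp [N, mul_sum, mul_pow]

lemma ip_self (z : Fin n → ℂ) : ip z z = (N z : ℂ) := by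
  simp [ip, N, Complex.mul_conj, Complex.normSq_eq_norm_sq]

lemma ip_smul (c : ℂ) (w z : Fin n → ℂ) : ip (c • w) z = c * ip w z := by
  simp [ip, mul_sum, mul_assoc]

lemma N_comb (a : ℂ) (s : ℝ) (z w : Fin n → ℂ) : N (a • z - (s : ℂ) • w) =
    (a.re ^ 2 + a.im ^ 2) * N z + s ^ 2 * N w
      - 2 * s * (a.re * (ip w z).re + a.im * (ip w z).im) := by
  simp only [N, ip, Complex.re_sum, Complex.im_sum, mul_sum, ← sum_add_distrib, ← sum_sub_distrib]
  refine sum_congr rfl fun j _ => ?_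
  simp [← Complex.normSq_eq_norm_sq, Complex.normSq_apply]
  ring

lemma ip_le (w z : Fin n → ℂ) : ‖ip w z‖ ≤ (N w + N z) / 2 := by
  refine (norm_sum_le _ _).trans ?_
  rw [N, N, ← sum_add_distrib, sum_div]
  refine sum_le_sum fun j _ => ?_
  rw [norm_mul, Complex.norm_conj]
  nlinarith [sq_nonneg (‖w j‖ - ‖z j‖)]

lemma one_sub_ip {w z : Fin n → ℂ} (hw : N w < 1) (hz : N z < 1) :
    (1 - N z) / 2 ≤ ‖1 - ip w z‖ ∧ ‖1 - ip w z‖ ≤ 2 := by
  have h := ip_le w z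
  have h1 := norm_sub_norm_le (1 : ℂ) (ip w z)
  have h2 := norm_sub_le (1 : ℂ) (ip w z)
  rw [norm_one] at h1 h2
  constructor <;> linarith

lemma N_phi {w z : Fin n → ℂ} (hw : N w < 1) (hz : N z < 1) :
    1 - N (phi z w) = (1 - N z) * (1 - N w) / ‖1 - ip w z‖ ^ 2 := by
  have h0 : 0 < ‖1 - ip w z‖ := lt_of_lt_of_le (by linarith) (one_sub_ip hw hz).1
  have hs : √(1 - N z) ^ 2 = 1 - N z := Real.sq_sqrt (by linarith)
  have e : phi z w = (1 - ip w z)⁻¹ • ((1 - ip w z / (N z : ℂ) +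
      (√(1 - N z) : ℝ) * (ip w z / (N z : ℂ))) • z - ((√(1 - N z) : ℝ) : ℂ) • w) := by
    have := ip_self z
    unfold phi
    unfold ip at this ⊢
    rw [this]
    congr 1
    ext j
    simp [N]
    ring
  rw [e, N_smul, N_comb, norm_inv, inv_pow]
  have h1 : ‖1 - ip w z‖ ^ 2 = (1 - (ip w z).re) ^ 2 + (ip w z).im ^ 2 := by
    rw [← Complex.normSq_eq_norm_sq, Complex.normSq_apply]; simp; ring
  have h2 : ‖1 - ip w z‖ ^ 2 ≠ 0 := by positivity
  rw [eq_div_iff h2, sub_mul, mul_comm _⁻¹, mul_assoc, inv_mul_cancel₀ h2, h1]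
  rcases (N_nonneg z).eq_or_lt with h | h
  · have hz0 : z = 0 := by
      ext j
      have := (sum_eq_zero_iff_of_nonneg fun _ _ => sq_nonneg _).1 h.symm j (mem_univ j)
      simpa using this
    subst hz0
    simp [N, ip]
  · generalize √(1 - N z) = s at hs ⊢
    simp only [Complex.add_re, Complex.sub_re, Complex.one_re, Complex.div_ofReal_re,
      Complex.re_ofReal_mul, Complex.add_im, Complex.sub_im, Complex.one_im,
      Complex.div_ofReal_im, Complex.im_ofReal_mul]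
    field_simp
    linear_combination ((ip w z).re ^ 2 + (ip w z).im ^ 2 - N w * N z) * hs

noncomputable def G (T : ℝ) : ℝ := (1 - T) * sin (√(1 - log T))

lemma G_abs {T : ℝ} (h0 : 0 < T) (h1 : T ≤ 1) : |G T| ≤ 1 - T := by
  rw [G, abs_mul, abs_of_nonneg (by linarith)]
  exact mul_le_of_le_one_right (by linarith) (abs_sin_le_one _)

lemma G_near {T κ θ : ℝ} (hκ : 0 < κ) (hθ : 1 ≤ θ) (h1 : T ≤ 1) (hl : κ * exp (1 - θ ^ 2) ≤ T)
    (hu : κ * T ≤ exp (1 - θ ^ 2)) : |G T - sin θ| ≤ (κ⁻¹ + |log κ|) / θ := by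
  have hT : 0 < T := lt_of_lt_of_le (by positivity) hl
  have a1 := log_le_log (by positivity) hl
  have a2 := log_le_log (by positivity) hu
  rw [log_mul hκ.ne' (by positivity), log_exp] at a1 a2
  have a3 : 0 ≤ 1 - log T := by linarith [log_nonpos hT.le h1]
  have a4 : |√(1 - log T) - θ| ≤ |log κ| / θ := by
    have b1 : |1 - log T - θ ^ 2| ≤ |log κ| := by
      rw [abs_le]; constructor <;> linarith [neg_abs_le (log κ)]
    have b2 : (√(1 - log T) - θ) * (√(1 - log T) + θ) = 1 - log T - θ ^ 2 := by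
      linear_combination Real.sq_sqrt a3
    rw [← b2, abs_mul] at b1
    rw [le_div_iff₀ (by linarith)]
    refine le_trans ?_ b1
    gcongr
    rw [abs_of_nonneg (by positivity)]
    linarith [Real.sqrt_nonneg (1 - log T)]
  have a5 : T ≤ κ⁻¹ / θ := by
    have b1 : θ ≤ exp (θ ^ 2 - 1) := by nlinarith [add_one_le_exp (θ ^ 2 - 1)]
    have b2 : exp (1 - θ ^ 2) * θ ≤ 1 := by
      calc exp (1 - θ ^ 2) * θ ≤ exp (1 - θ ^ 2) * exp (θ ^ 2 - 1) := by gcongr
        _ = 1 := by rw [← exp_add]; simp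
    rw [le_div_iff₀ (by linarith), ← one_div, le_div_iff₀ hκ]
    nlinarith
  have a6 := abs_sin_sub_sin_le (√(1 - log T)) θ
  have a7 : |T * sin (√(1 - log T))| ≤ T := by
    rw [abs_mul, abs_of_pos hT]; exact mul_le_of_le_one_right hT.le (abs_sin_le_one _)
  have a8 : G T - sin θ = (sin (√(1 - log T)) - sin θ) - T * sin (√(1 - log T)) := by
    unfold G; ring
  rw [a8, add_div]
  linarith [abs_sub (sin (√(1 - log T)) - sin θ) (T * sin (√(1 - log T)))]

noncomputable def u (x : Fin n → ℂ) : ℂ := (G (1 - N x) : ℝ)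

noncomputable def F (z : Fin n → ℂ) (r : ℝ) (x : Fin n → ℂ) : ℝ :=
  (1 - N z) * (1 - r ^ 2) / ‖1 - ((r / √(N x) : ℝ) : ℂ) * ip x z‖ ^ 2

lemma F_spec {z x : Fin n → ℂ} (hz : N z < 1) (hx : x ≠ 0) {r : ℝ} (hr : r ∈ Ioo (0 : ℝ) 1) :
    1 - N (phi z (((r / √(N x) : ℝ) : ℂ) • x)) = F z r x ∧ F z r x ≤ 1 ∧
      (1 - N z) / 4 * (1 - r ^ 2) ≤ F z r x ∧ (1 - N z) / 4 * F z r x ≤ 1 - r ^ 2 ∧
      0 < ‖1 - ((r / √(N x) : ℝ) : ℂ) * ip x z‖ := by
  have hN : 0 < N x := by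
    refine (N_nonneg x).lt_of_ne fun h => hx ?_
    ext j
    have := (sum_eq_zero_iff_of_nonneg fun _ _ => sq_nonneg _).1 h.symm j (mem_univ j)
    simpa using this
  have h1 : N (((r / √(N x) : ℝ) : ℂ) • x) = r ^ 2 := by
    rw [N_smul, Complex.norm_real, Real.norm_eq_abs, sq_abs, div_pow, Real.sq_sqrt hN.le]
    field_simp
  have h2 : r ^ 2 < 1 := by nlinarith [hr.1, hr.2]
  have h3 := N_phi (h1 ▸ h2 : N (((r / √(N x) : ℝ) : ℂ) • x) < 1) hz
  obtain ⟨h4, h5⟩ := one_sub_ip (h1 ▸ h2 : N (((r / √(N x) : ℝ) : ℂ) • x) < 1) hz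
  rw [h1, ip_smul] at h3
  rw [ip_smul] at h4 h5
  have h6 : 0 < ‖1 - ((r / √(N x) : ℝ) : ℂ) * ip x z‖ := lt_of_lt_of_le (by linarith) h4
  refine ⟨h3, ?_, ?_, ?_, h6⟩
  · unfold F; rw [← h3]; linarith [N_nonneg (phi z (((r / √(N x) : ℝ) : ℂ) • x))]
  · unfold F
    rw [le_div_iff₀ (by positivity)]
    have : ‖1 - ((r / √(N x) : ℝ) : ℂ) * ip x z‖ ^ 2 ≤ 2 ^ 2 := by gcongr
    have h7 : 0 ≤ (1 - N z) * (1 - r ^ 2) := mul_nonneg (by linarith) (by linarith)
    nlinarith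
  · unfold F
    rw [← mul_div_assoc, div_le_iff₀ (by positivity)]
    have : ((1 - N z) / 2) ^ 2 ≤ ‖1 - ((r / √(N x) : ℝ) : ℂ) * ip x z‖ ^ 2 := by
      gcongr
    nlinarith

lemma N_cont : Continuous (N (n := n)) := by unfold N; fun_prop

lemma B_open : IsOpen (B n) := isOpen_lt N_cont continuous_const

lemma B_fin : volume (B n) < ⊤ := by
  refine (measure_mono (t := Metric.closedBall 0 1) fun x hx => ?_).trans_lt
    (isCompact_closedBall 0 1).measure_lt_top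
  rw [mem_closedBall_zero_iff, pi_norm_le_iff_of_nonneg zero_le_one]
  intro j
  have h1 : ‖x j‖ ^ 2 ≤ ∑ j, ‖x j‖ ^ 2 :=
    single_le_sum (f := fun j => ‖x j‖ ^ 2) (fun _ _ => sq_nonneg _) (mem_univ j)
  have h2 : ∑ j, ‖x j‖ ^ 2 < 1 := hx
  nlinarith [norm_nonneg (x j)]

lemma B_pos : 0 < (volume (B n)).toReal :=
  ENNReal.toReal_pos (B_open.measure_pos volume ⟨0, by simp [B]⟩).ne' B_fin.ne

noncomputable def A (z : Fin n → ℂ) (r : ℝ) : ℝ :=
  ((volume (B n)).toReal)⁻¹ * ∫ x in B n, G (F z r x)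

lemma ae_ne (hn : 1 ≤ n) : ∀ᵐ x ∂(volume.restrict (B n)), x ≠ 0 := by
  have : Nonempty (Fin n) := ⟨⟨0, hn⟩⟩
  exact ae_restrict_of_ae (by simp [ae_iff])

lemma avg_eq (hn : 1 ≤ n) {z : Fin n → ℂ} (hz : N z < 1) {r : ℝ} (hr : r ∈ Ioo (0 : ℝ) 1) :
    avg u z r = (A z r : ℝ) := by
  unfold avg A
  rw [Complex.ofReal_mul, Complex.ofReal_inv, ← integral_complex_ofReal]
  congr 1
  refine integral_congr_ae ?_
  filter_upwards [ae_ne hn] with x hx
  have := (F_spec hz hx hr).1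
  unfold N at this
  simp only [u, N, this]

lemma GF_meas (z : Fin n → ℂ) (r : ℝ) : Measurable fun x => G (F z r x) := by
  have h1 : Measurable (N (n := n)) := N_cont.measurable
  have h2 : Measurable fun x : Fin n → ℂ => ip x z := by
    have : Continuous fun x : Fin n → ℂ => ip x z := by unfold ip; fun_prop
    exact this.measurable
  have h3 : Measurable G := by unfold G; fun_prop
  refine h3.comp ?_
  unfold F
  fun_prop

lemma F_pos {z x : Fin n → ℂ} (hz : N z < 1) (hx : x ≠ 0) {r : ℝ} (hr : r ∈ Ioo (0 : ℝ) 1) :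
    0 < F z r x := by
  have h2 : r ^ 2 < 1 := by nlinarith [hr.1, hr.2]
  exact lt_of_lt_of_le (mul_pos (by linarith) (by linarith)) (F_spec hz hx hr).2.2.1

lemma A_cont (hn : 1 ≤ n) {z : Fin n → ℂ} (hz : N z < 1) : ContinuousOn (A z) (Ioo 0 1) := by
  have : IsFiniteMeasure (volume.restrict (B n)) := isFiniteMeasure_restrict.2 B_fin.ne
  refine continuousOn_const.mul (continuousOn_of_dominated (bound := fun _ => 1)
    (fun r _ => (GF_meas z r).aestronglyMeasurable) (fun r hr => ?_) (integrable_const _) ?_)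
  · filter_upwards [ae_ne hn] with x hx
    have := G_abs (F_pos hz hx hr) (F_spec hz hx hr).2.1
    rw [Real.norm_eq_abs]
    linarith [F_pos hz hx hr]
  · filter_upwards [ae_ne hn] with x hx
    have h1 : ContinuousOn (fun r => F z r x) (Ioo 0 1) := by
      unfold F
      exact ContinuousOn.div (by fun_prop) (by fun_prop) fun r hr =>
        (pow_pos (F_spec hz hx hr).2.2.2.2 2).ne'
    unfold G
    exact (continuousOn_const.sub h1).mul (continuous_sin.comp_continuousOn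
      ((continuousOn_const.sub (h1.log fun r hr => (F_pos hz hx hr).ne')).sqrt))

lemma A_near (hn : 1 ≤ n) {z : Fin n → ℂ} (hz : N z < 1) {θ : ℝ} (hθ : 1 < θ) :
    ∃ r ∈ Ioo (0 : ℝ) 1, |A z r - sin θ| ≤ (((1 - N z) / 4)⁻¹ + |log ((1 - N z) / 4)|) / θ := by
  have : IsFiniteMeasure (volume.restrict (B n)) := isFiniteMeasure_restrict.2 B_fin.ne
  have h1 : exp (1 - θ ^ 2) < 1 := exp_lt_one_iff.2 (by nlinarith)
  have h2 : √(1 - exp (1 - θ ^ 2)) ^ 2 = 1 - exp (1 - θ ^ 2) := Real.sq_sqrt (by linarith)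
  have hr : √(1 - exp (1 - θ ^ 2)) ∈ Ioo (0 : ℝ) 1 :=
    ⟨Real.sqrt_pos.2 (by linarith), by
      rw [Real.sqrt_lt' one_pos]; linarith [exp_pos (1 - θ ^ 2)]⟩
  refine ⟨_, hr, ?_⟩
  set r := √(1 - exp (1 - θ ^ 2))
  set η := (((1 - N z) / 4)⁻¹ + |log ((1 - N z) / 4)|) / θ
  have hb : ∀ᵐ x ∂(volume.restrict (B n)), ‖G (F z r x) - sin θ‖ ≤ η := by
    filter_upwards [ae_ne hn] with x hx
    obtain ⟨-, a, b, c, -⟩ := F_spec hz hx hr
    exact G_near (by linarith) hθ.le a (by rwa [h2, sub_sub_cancel] at b)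
      (by rwa [h2, sub_sub_cancel] at c)
  have hi : Integrable (fun x => G (F z r x)) (volume.restrict (B n)) := by
    refine (integrable_const (1 : ℝ)).mono' (GF_meas z r).aestronglyMeasurable ?_
    filter_upwards [ae_ne hn] with x hx
    have := G_abs (F_pos hz hx hr) (F_spec hz hx hr).2.1
    rw [Real.norm_eq_abs]
    linarith [F_pos hz hx hr]
  have h3 := norm_integral_le_of_norm_le_const hb
  rw [integral_sub hi (integrable_const _), integral_const, Real.norm_eq_abs] at h3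
  simp only [Measure.real, Measure.restrict_apply_univ, smul_eq_mul] at h3
  have h4 := B_pos (n := n)
  have h5 : A z r - sin θ = ((volume (B n)).toReal)⁻¹ *
      ((∫ x in B n, G (F z r x)) - (volume (B n)).toReal * sin θ) := by
    unfold A; field_simp
  rw [h5, abs_mul, abs_of_pos (inv_pos.2 h4), inv_mul_le_iff₀ h4]
  linarith

lemma A_both (hn : 1 ≤ n) {z : Fin n → ℂ} (hz : N z < 1) :
    (∃ r ∈ Ioo (0 : ℝ) 1, N z < A z r) ∧ (∃ r ∈ Ioo (0 : ℝ) 1, A z r < -N z) := by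
  set C := ((1 - N z) / 4)⁻¹ + |log ((1 - N z) / 4)| with hC
  obtain ⟨k, hk⟩ := exists_nat_gt (C / (1 - N z))
  have hC0 : 0 ≤ C := by
    have : 0 < (1 - N z) / 4 := by linarith
    positivity
  have key : ∀ θ : ℝ, 1 < θ → (k : ℝ) ≤ θ → C / θ < 1 - N z := by
    intro θ h1 h2
    rw [div_lt_iff₀ (by linarith)] at hk ⊢
    nlinarith
  have hk0 : (0 : ℝ) ≤ k := Nat.cast_nonneg k
  have hk1 : (k : ℝ) ≤ k * (2 * π) := le_mul_of_one_le_right hk0 (by linarith [two_le_pi])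
  constructor
  · obtain ⟨r, hr, h⟩ := A_near hn hz (θ := π / 2 + k * (2 * π)) (by linarith [pi_gt_three])
    rw [sin_add_nat_mul_two_pi, sin_pi_div_two] at h
    have := key (π / 2 + k * (2 * π)) (by linarith [pi_gt_three]) (by linarith [pi_gt_three])
    exact ⟨r, hr, by linarith [(abs_le.1 h).1]⟩
  · obtain ⟨r, hr, h⟩ := A_near hn hz (θ := π / 2 + π + k * (2 * π)) (by linarith [pi_gt_three])
    rw [sin_add_nat_mul_two_pi, sin_add_pi, sin_pi_div_two] at h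
    have := key (π / 2 + π + k * (2 * π)) (by linarith [pi_gt_three]) (by linarith [pi_gt_three])
    exact ⟨r, hr, by linarith [(abs_le.1 h).2]⟩

lemma u_an : AnalyticOnNhd ℝ (u (n := n)) (B n) := by
  intro x hx
  have hx : N x < 1 := hx
  have h1 : ContDiffAt ℝ ⊤ (N (n := n)) x := by
    unfold N
    exact ContDiffAt.sum fun j _ => (ContDiffAt.norm_sq ℝ (by fun_prop))
  have h2 : ContDiffAt ℝ ⊤ (fun y : Fin n → ℂ => 1 - N y) x := contDiffAt_const.sub h1
  have h3 : 0 < 1 - log (1 - N x) := by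
    linarith [log_nonpos (x := 1 - N x) (by linarith) (by linarith [N_nonneg x])]
  have h4 : ContDiffAt ℝ ⊤ (fun y : Fin n → ℂ => G (1 - N y)) x :=
    (contDiffAt_const.sub h2).mul
      ((contDiffAt_const.sub (h2.log (by linarith))).sqrt h3.ne').sin
  exact (Complex.ofRealCLM.contDiff.contDiffAt.comp x h4).analyticAt

theorem main (hn : 1 ≤ n) : AnalyticOnNhd ℝ (u (n := n)) (B n) ∧ (∀ z ∈ B n, ‖u z‖ ≤ 1) ∧
    (∀ z ∈ B n, ∃ r : ℝ, 0 < r ∧ r < 1 ∧ avg u z r = u z) ∧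
    ∃ z ∈ B n, ∃ r : ℝ, 0 < r ∧ r < 1 ∧ avg u z r ≠ u z := by
  have hG : ∀ z : Fin n → ℂ, N z < 1 → |G (1 - N z)| ≤ N z := fun z hz => by
    simpa using G_abs (T := 1 - N z) (by linarith) (by linarith [N_nonneg z])
  refine ⟨u_an, fun z hz => ?_, fun z hz => ?_, 0, by simp [B], ?_⟩
  · have hz : N z < 1 := hz
    rw [u, Complex.norm_real, Real.norm_eq_abs]
    linarith [hG z hz]
  · have hz : N z < 1 := hz
    obtain ⟨⟨r1, h1, a1⟩, ⟨r2, h2, a2⟩⟩ := A_both hn hz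
    have := abs_le.1 (hG z hz)
    obtain ⟨r, hr, h⟩ := isPreconnected_Ioo.intermediate_value h2 h1 (A_cont hn hz)
      (⟨by linarith [this.1], by linarith [this.2]⟩ : G (1 - N z) ∈ Set.Icc _ _)
    exact ⟨r, hr.1, hr.2, by rw [avg_eq hn hz hr, h, u]⟩
  · have h0 : N (0 : Fin n → ℂ) = 0 := by simp [N]
    obtain ⟨r, hr, a⟩ := (A_both hn (z := 0) (by rw [h0]; exact one_pos)).1
    refine ⟨r, hr.1, hr.2, ?_⟩
    rw [avg_eq hn (by rw [h0]; exact one_pos) hr, u, Ne, Complex.ofReal_inj, h0]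
    rw [h0] at a
    simpa [G] using a.ne'

end Pool.Agent.H1.One
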