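import Mathlib

namespace Pool.Agent.H1.One

def B (n : ℕ) : Set (Fin n → ℂ) := {x | ∑ j, ‖x j‖ ^ 2 < 1}

noncomputable def phi {n : ℕ} (z w : Fin n → ℂ) : Fin n → ℂ :=
  (1 - ∑ j, w j * starRingEnd ℂ (z j))⁻¹ •
    (z - ((∑ j, w j * starRingEnd ℂ (z j)) / (∑ j, z j * starRingEnd ℂ (z j))) • z
      - ((Real.sqrt (1 - ∑ j, ‖z j‖ ^ 2) : ℝ) : ℂ) •
        (w - ((∑ j, w j * starRingEnd ℂ (z j)) / (∑ j, z j * starRingEnd ℂ (z j))) • z))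

noncomputable def avg {n : ℕ} (u : (Fin n → ℂ) → ℂ) (z : Fin n → ℂ) (r : ℝ) : ℂ :=
  ((MeasureTheory.volume (B n)).toReal : ℂ)⁻¹ *
    ∫ x in B n, u (phi z (((r / Real.sqrt (∑ j, ‖x j‖ ^ 2) : ℝ) : ℂ) • x))

end Pool.Agent.H1.One
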