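import Mathlib

open Filter Topology Finset

namespace Pool.Agent.H1.Orlicz

noncomputable def th (m : ℕ) : ℝ := Real.log m / 20

noncomputable def ph (n : ℕ) : ℝ :=
  n * th (Nat.sqrt n) + (if n < Nat.sqrt n * Nat.sqrt n + Nat.sqrt n then 0 else Real.pi / 2)

noncomputable def aa (n : ℕ) : ℝ := Real.cos (ph n) / (Nat.sqrt n : ℝ)
noncomputable def bb (n : ℕ) : ℝ := Real.sin (ph n) / (Nat.sqrt n : ℝ)

lemma term (n : ℕ) (x : ℝ) :
    aa n * Real.cos (n * x) + bb n * Real.sin (n * x) = Real.cos (n * x - ph n) / (Nat.sqrt n : ℝ) := by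
  unfold aa bb
  rw [Real.cos_sub]; ring

lemma sq_bound (n : ℕ) (y : ℝ) (hy : |y| ≤ 1) : |y / (Nat.sqrt n : ℝ)| ^ 2 ≤ 4 / (n : ℝ) := by
  rcases Nat.eq_zero_or_pos n with h | h
  · subst h; simp
  have h1 : 0 < Nat.sqrt n := Nat.sqrt_pos.2 h
  have h2 : n < (Nat.sqrt n + 1) * (Nat.sqrt n + 1) := Nat.lt_succ_sqrt n
  have h3 : n ≤ 4 * (Nat.sqrt n * Nat.sqrt n) := by nlinarith
  have h4 : (n : ℝ) ≤ 4 * ((Nat.sqrt n : ℝ) * Nat.sqrt n) := by exact_mod_cast h3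
  have h5 : (0 : ℝ) < Nat.sqrt n := by exact_mod_cast h1
  have h6 : (0 : ℝ) < n := by exact_mod_cast h
  have h7 : y ^ 2 ≤ 1 := by
    have := sq_abs y
    nlinarith [abs_nonneg y]
  rw [sq_abs, div_pow, div_le_div_iff₀ (by positivity) h6]
  nlinarith

lemma pow_bound (n : ℕ) (y : ℝ) (hy : |y| ≤ 1) (e : ℝ) (he : 0 < e) :
    |y / (Nat.sqrt n : ℝ)| ^ (2 + e) ≤ (4 : ℝ) ^ (1 + e / 2) * ((n : ℝ) ^ (1 + e / 2))⁻¹ := by
  have h0 : (0 : ℝ) ≤ |y / (Nat.sqrt n : ℝ)| := abs_nonneg _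
  have h1 : |y / (Nat.sqrt n : ℝ)| ^ (2 + e) = (|y / (Nat.sqrt n : ℝ)| ^ 2) ^ (1 + e / 2) := by
    rw [← Real.rpow_natCast, ← Real.rpow_mul h0]
    congr 1; push_cast; ring
  rw [h1]
  calc _ ≤ (4 / (n : ℝ)) ^ (1 + e / 2) :=
        Real.rpow_le_rpow (by positivity) (sq_bound n y hy) (by positivity)
    _ = _ := by rw [Real.div_rpow (by norm_num) (by positivity), div_eq_mul_inv]

lemma summ (e : ℝ) (he : 0 < e) : Summable (fun n => |aa n| ^ (2 + e) + |bb n| ^ (2 + e)) := by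
  have hs : Summable (fun n : ℕ => (4 : ℝ) ^ (1 + e / 2) * ((n : ℝ) ^ (1 + e / 2))⁻¹) :=
    (Real.summable_nat_rpow_inv.2 (by linarith)).mul_left _
  refine Summable.add ?_ ?_
  · exact Summable.of_nonneg_of_le (fun n => by positivity)
      (fun n => pow_bound n _ (Real.abs_cos_le_one _) e he) hs
  · exact Summable.of_nonneg_of_le (fun n => by positivity)
      (fun n => pow_bound n _ (Real.abs_sin_le_one _) e he) hs

lemma exists_m (x : ℝ) (M : ℕ) :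
    ∃ m : ℕ, M ≤ m ∧ 1 ≤ m ∧ ∃ l : ℕ, |x + l * (2 * Real.pi) - th m| ≤ 1 / (20 * m) := by
  obtain ⟨l, hl⟩ := exists_nat_ge (Real.log (M + 1) / 20 - x)
  have hpi : (1 : ℝ) ≤ 2 * Real.pi := by linarith [Real.pi_gt_three]
  obtain ⟨y, hy⟩ : ∃ y, y = x + l * (2 * Real.pi) := ⟨_, rfl⟩
  have hly : Real.log (M + 1) ≤ 20 * y := by
    have : (l : ℝ) ≤ l * (2 * Real.pi) := le_mul_of_one_le_right (by positivity) hpi
    linarith
  have hE : (M : ℝ) + 1 ≤ Real.exp (20 * y) := by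
    rw [← Real.exp_log (show (0 : ℝ) < M + 1 by positivity)]
    exact Real.exp_le_exp.2 hly
  have hm : M + 1 ≤ ⌊Real.exp (20 * y)⌋₊ := Nat.le_floor (by exact_mod_cast hE)
  refine ⟨⌊Real.exp (20 * y)⌋₊, by omega, by omega, l, ?_⟩
  obtain ⟨m, hmm⟩ : ∃ m, m = ⌊Real.exp (20 * y)⌋₊ := ⟨_, rfl⟩
  have h1 : (m : ℝ) ≤ Real.exp (20 * y) := by rw [hmm]; exact Nat.floor_le (by positivity)
  have h2 : Real.exp (20 * y) < m + 1 := by rw [hmm]; exact Nat.lt_floor_add_one _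
  rw [← hmm] at hm ⊢
  have hm0 : (0 : ℝ) < m := by exact_mod_cast (by omega : 0 < m)
  have h3 : Real.log m ≤ 20 * y := by
    rw [Real.log_le_iff_le_exp hm0]; exact h1
  have h4 : 20 * y ≤ Real.log (m + 1) := by
    rw [Real.le_log_iff_exp_le (by positivity)]; exact h2.le
  have h5 : Real.log (m + 1) - Real.log m ≤ 1 / m := by
    rw [← Real.log_div (by positivity) hm0.ne']
    have := Real.log_le_sub_one_of_pos (show (0 : ℝ) < (m + 1) / m by positivity)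
    have h6 : ((m : ℝ) + 1) / m - 1 = 1 / m := by field_simp; ring
    linarith
  rw [← hy, th, abs_le]
  have h7 : 1 / (20 * (m : ℝ)) = 1 / m / 20 := by field_simp
  rw [h7]
  have : (0 : ℝ) < 1 / m := by positivity
  constructor <;> linarith

lemma window (f : ℝ → ℝ) (hf : ∀ u v, |f u - f v| ≤ |u - v|) (m s : ℕ) (hm : 1 ≤ m) (hs : s ≤ m)
    (d : ℝ) (hd : |d| ≤ 1 / (20 * m)) :
    |∑ t ∈ range m, f (((m * m + s + t : ℕ) : ℝ) * d) / (m : ℝ) - f ((m * m : ℕ) * d)| ≤ 1 / 10 := by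
  have hm0 : (0 : ℝ) < m := by exact_mod_cast hm
  have h1 : f ((m * m : ℕ) * d) = ∑ _t ∈ range m, f ((m * m : ℕ) * d) / (m : ℝ) := by
    rw [sum_const, card_range, nsmul_eq_mul]; field_simp
  rw [h1, ← sum_sub_distrib]
  calc _ ≤ ∑ t ∈ range m, |f (((m * m + s + t : ℕ) : ℝ) * d) / (m : ℝ) - f ((m * m : ℕ) * d) / (m : ℝ)| :=
        abs_sum_le_sum_abs _ _
    _ ≤ ∑ _t ∈ range m, 1 / 10 / (m : ℝ) := by
        refine sum_le_sum fun t ht => ?_
        rw [← sub_div, abs_div, abs_of_pos hm0]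
        refine div_le_div_of_nonneg_right ((hf _ _).trans ?_) hm0.le
        have ht' : t < m := mem_range.1 ht
        have h2 : (((m * m + s + t : ℕ) : ℝ) * d) - (m * m : ℕ) * d = ((s + t : ℕ) : ℝ) * d := by
          push_cast; ring
        have h3 : ((s + t : ℕ) : ℝ) ≤ 2 * m := by exact_mod_cast (by omega : s + t ≤ 2 * m)
        rw [h2, abs_mul, abs_of_nonneg (by positivity)]
        calc ((s + t : ℕ) : ℝ) * |d| ≤ (2 * m) * (1 / (20 * m)) :=
              mul_le_mul h3 hd (abs_nonneg _) (by positivity)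
          _ = 1 / 10 := by field_simp; norm_num
    _ = 1 / 10 := by rw [sum_const, card_range, nsmul_eq_mul]; field_simp

lemma sqrt_eq (m u : ℕ) (hu : u ≤ 2 * m) : Nat.sqrt (m * m + u) = m := by
  exact Nat.sqrt_add_eq m (by omega)

theorem diverges (x : ℝ) : ¬ ∃ L : ℝ, Tendsto (fun N : ℕ => ∑ n ∈ Icc 1 N,
    (aa n * Real.cos (n * x) + bb n * Real.sin (n * x))) atTop (𝓝 L) := by
  rintro ⟨L, hL⟩
  obtain ⟨u, hu⟩ : ∃ u : ℕ → ℝ, u = fun n => aa n * Real.cos (n * x) + bb n * Real.sin (n * x) :=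
    ⟨_, rfl⟩
  have hu0 : u 0 = 0 := by simp [hu, aa, bb]
  have hS : ∀ N, ∑ n ∈ Icc 1 N, u n = ∑ n ∈ range (N + 1), u n := by
    intro N
    rw [range_eq_Ico, sum_eq_sum_Ico_succ_bot (Nat.succ_pos N), hu0, zero_add]
    rfl
  have hL' : Tendsto (fun N : ℕ => ∑ n ∈ range (N + 1), u n) atTop (𝓝 L) := by
    simp only [← hS]; simpa only [hu] using hL
  have hL2 : Tendsto (fun N : ℕ => ∑ n ∈ range N, u n) atTop (𝓝 L) :=
    (tendsto_add_atTop_iff_nat 1).1 hL'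
  obtain ⟨M, hM⟩ := Metric.tendsto_atTop.1 hL2 (1 / 10) (by norm_num)
  have hW : ∀ p q, M ≤ p → |∑ t ∈ range q, u (p + t)| ≤ 1 / 5 := by
    intro p q hp
    have h1 := hM p hp
    have h2 := hM (p + q) (by omega)
    rw [sum_range_add, Real.dist_eq, abs_lt] at h2
    rw [Real.dist_eq, abs_lt] at h1
    rw [abs_le]; constructor <;> linarith [h1.1, h1.2, h2.1, h2.2]
  obtain ⟨m, hmM, hm1, l, hd⟩ := exists_m x M
  obtain ⟨d, hdd⟩ : ∃ d, d = x + l * (2 * Real.pi) - th m := ⟨_, rfl⟩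
  rw [← hdd] at hd
  have hmm : M ≤ m * m := hmM.trans (Nat.le_mul_self m)
  have e1 : ∑ t ∈ range m, u (m * m + 0 + t) =
      ∑ t ∈ range m, Real.cos (((m * m + 0 + t : ℕ) : ℝ) * d) / (m : ℝ) := by
    refine sum_congr rfl fun t ht => ?_
    have ht' : t < m := mem_range.1 ht
    have hq : Nat.sqrt (m * m + 0 + t) = m := by rw [add_assoc]; exact sqrt_eq m _ (by omega)
    rw [hu]; beta_reduce; rw [term, ph, hq, if_pos (by omega)]
    congr 1
    rw [← Real.cos_add_nat_mul_two_pi _ ((m * m + 0 + t) * l), hdd]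
    congr 1; push_cast; ring
  have e2 : ∑ t ∈ range m, u (m * m + m + t) =
      ∑ t ∈ range m, Real.sin (((m * m + m + t : ℕ) : ℝ) * d) / (m : ℝ) := by
    refine sum_congr rfl fun t ht => ?_
    have ht' : t < m := mem_range.1 ht
    have hq : Nat.sqrt (m * m + m + t) = m := by rw [add_assoc]; exact sqrt_eq m _ (by omega)
    rw [hu]; beta_reduce; rw [term, ph, hq, if_neg (by omega)]
    congr 1
    rw [← Real.cos_add_nat_mul_two_pi _ ((m * m + m + t) * l), hdd, ← Real.cos_sub_pi_div_two]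
    congr 1; push_cast; ring
  have w1 := window Real.cos Real.abs_cos_sub_cos_le m 0 hm1 (by omega) d hd
  have w2 := window Real.sin Real.abs_sin_sub_sin_le m m hm1 le_rfl d hd
  have b1 := hW (m * m + 0) m (by omega)
  have b2 := hW (m * m + m) m (by omega)
  rw [e1] at b1; rw [e2] at b2
  have := Real.sin_sq_add_cos_sq (((m * m : ℕ) : ℝ) * d)
  rw [abs_le] at w1 w2 b1 b2
  nlinarith [w1.1, w1.2, w2.1, w2.2, b1.1, b1.2, b2.1, b2.2]

end Pool.Agent.H1.Orlicz
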