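import Mathlib

namespace Pool.Agent.H1.Per

open Real Metric Filter Topology InnerProductSpace Set ComplexConjugate

def SubAt (s : ℂ → ℝ) (z : ℂ) : Prop := ∀ᶠ r in 𝓝[>] (0 : ℝ), s z ≤ circleAverage s z r

lemma small {U : Set ℂ} {z : ℂ} (hU : U ∈ 𝓝 z) :
    ∀ᶠ r in 𝓝[>] (0 : ℝ), 0 < r ∧ closedBall z r ⊆ U := by
  obtain ⟨e, he, h⟩ := Metric.mem_nhds_iff.1 hU
  filter_upwards [Ioo_mem_nhdsGT he] with r hr
  exact ⟨hr.1, (closedBall_subset_ball hr.2).trans h⟩

lemma ci {f : ℂ → ℝ} {U : Set ℂ} {z : ℂ} {r : ℝ} (hf : ContinuousOn f U)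
    (h : 0 < r ∧ closedBall z r ⊆ U) : CircleIntegrable f z r :=
  (hf.mono (sphere_subset_closedBall.trans h.2)).circleIntegrable h.1.le

lemma harm_avg {f : ℂ → ℝ} {z : ℂ} (h : HarmonicAt f z) :
    ∀ᶠ r in 𝓝[>] (0 : ℝ), circleAverage f z r = f z := by
  filter_upwards [small h.eventually] with r hr
  exact InnerProductSpace.HarmonicOnNhd.circleAverage_eq (by rw [abs_of_pos hr.1]; exact hr.2)

lemma sub_harm {f : ℂ → ℝ} {z : ℂ} (h : HarmonicAt f z) : SubAt f z :=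
  (harm_avg h).mono fun _ hr => hr.ge

lemma SubAt.of_le {s t : ℂ → ℝ} {U : Set ℂ} {z : ℂ} (h : SubAt s z) (hU : U ∈ 𝓝 z)
    (hs : ContinuousOn s U) (ht : ContinuousOn t U) (h0 : t z ≤ s z) (h1 : ∀ w ∈ U, s w ≤ t w) :
    SubAt t z := by
  filter_upwards [h, small hU] with r h2 hr
  refine h0.trans (h2.trans (circleAverage_mono (ci hs hr) (ci ht hr) fun w hw => h1 w (hr.2 ?_)))
  rw [abs_of_pos hr.1] at hw
  exact sphere_subset_closedBall hw

lemma SubAt.add {s t : ℂ → ℝ} {U : Set ℂ} {z : ℂ} (h : SubAt s z) (h' : SubAt t z) (hU : U ∈ 𝓝 z)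
    (hs : ContinuousOn s U) (ht : ContinuousOn t U) : SubAt (fun w => s w + t w) z := by
  filter_upwards [h, h', small hU] with r h1 h2 hr
  rw [circleAverage_fun_add (ci hs hr) (ci ht hr)]
  exact add_le_add h1 h2

lemma SubAt.congr {s t : ℂ → ℝ} {z : ℂ} (h : SubAt s z) (e : s =ᶠ[𝓝 z] t) : SubAt t z := by
  filter_upwards [h, small e] with r h1 hr
  rw [← e.eq_of_nhds, ← circleAverage_congr_sphere (f₁ := s) fun w hw => hr.2 ?_]
  · exact h1
  · rw [abs_of_pos hr.1] at hw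
    exact sphere_subset_closedBall hw

lemma SubAt.max {s t : ℂ → ℝ} {U : Set ℂ} {z : ℂ} (h : SubAt s z) (h' : SubAt t z) (hU : U ∈ 𝓝 z)
    (hs : ContinuousOn s U) (ht : ContinuousOn t U) : SubAt (fun w => max (s w) (t w)) z := by
  rcases le_total (s z) (t z) with h0 | h0
  · exact h'.of_le hU ht (hs.sup ht) (max_le h0 le_rfl) fun w _ => le_max_right _ _
  · exact h.of_le hU hs (hs.sup ht) (max_le le_rfl h0) fun w _ => le_max_left _ _

lemma lin_harm (a b : ℝ) (c k z : ℂ) : HarmonicAt (fun w : ℂ => a + b * ((w - c) * k).re) z := by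
  have h : AnalyticAt ℂ (fun w : ℂ => (a : ℂ) + b * ((w - c) * k)) z := by fun_prop
  have := h.harmonicAt_re
  simpa only [Complex.add_re, Complex.ofReal_re, Complex.re_ofReal_mul] using this

lemma norm_sq_eq (w z : ℂ) : ‖w‖ ^ 2 = ‖z‖ ^ 2 + ‖w - z‖ ^ 2 + 2 * ((w - z) * conj z).re := by
  simp only [Complex.sq_norm, Complex.normSq_apply, Complex.mul_re, Complex.sub_re, Complex.sub_im,
    Complex.conj_re, Complex.conj_im]
  ring

lemma avg_sq (z : ℂ) {r : ℝ} (hr : 0 < r) :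
    circleAverage (fun w : ℂ => ‖w‖ ^ 2) z r = ‖z‖ ^ 2 + r ^ 2 := by
  rw [circleAverage_congr_sphere (f₂ := fun w => (‖z‖ ^ 2 + r ^ 2) + 2 * ((w - z) * conj z).re),
    InnerProductSpace.HarmonicOnNhd.circleAverage_eq fun w _ => lin_harm _ _ _ _ w]
  · simp
  · intro w hw
    rw [abs_of_pos hr, mem_sphere_iff_norm] at hw
    simp only [norm_sq_eq w z, hw]

lemma maxp {U : Set ℂ} (hU : IsOpen U) (hb : Bornology.IsBounded U) {s : ℂ → ℝ}
    (hc : ContinuousOn s (closure U)) (hs : ∀ z ∈ U, SubAt s z) {M : ℝ}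
    (hM : ∀ z ∈ frontier U, s z ≤ M) : ∀ z ∈ closure U, s z ≤ M := by
  intro z hz
  obtain ⟨R, hR⟩ := hb.closure.exists_norm_le
  refine le_of_forall_pos_le_add fun e he => ?_
  set ε := e / (R ^ 2 + 1) with hε
  have hε0 : 0 < ε := by positivity
  have hq : ContinuousOn (fun w : ℂ => ε * ‖w‖ ^ 2) (closure U) := by fun_prop
  obtain ⟨p, hp, hm⟩ := hb.isCompact_closure.exists_isMaxOn ⟨z, hz⟩ (hc.add hq)
  by_cases hpU : p ∈ U
  · obtain ⟨r, h1, hr⟩ := ((hs p hpU).and (small (hU.mem_nhds hpU))).exists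
    have hr' : 0 < r ∧ closedBall p r ⊆ closure U := ⟨hr.1, hr.2.trans subset_closure⟩
    have h2 := circleAverage_mono_on_of_le_circle (ci (hc.add hq) hr') fun w hw =>
      hm (hr'.2 (sphere_subset_closedBall (by rwa [abs_of_pos hr.1] at hw)))
    rw [circleAverage_add (ci hc hr') (ci hq hr')] at h2
    have h3 := circleAverage_fun_smul (a := ε) (f := fun w : ℂ => ‖w‖ ^ 2) (c := p) (R := r)
    simp only [smul_eq_mul, avg_sq p hr.1] at h3
    rw [h3] at h2
    have : 0 < ε * r ^ 2 := by have := hr.1; positivity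
    simp only [Pi.add_apply] at h2
    nlinarith
  · have h1 := hM p ⟨hp, by rwa [hU.interior_eq]⟩
    have h2 : s z + ε * ‖z‖ ^ 2 ≤ s p + ε * ‖p‖ ^ 2 := hm hz
    have h3 : ‖p‖ ^ 2 ≤ R ^ 2 := by have := hR p hp; gcongr
    have h4 : ε * (R ^ 2 + 1) = e := by rw [hε]; field_simp
    nlinarith [sq_nonneg ‖z‖]

noncomputable def PI (c : ℂ) (R : ℝ) (φ : ℂ → ℝ) (w : ℂ) : ℝ :=
  circleAverage (poissonKernel c w • φ) c R

variable {c w : ℂ} {R : ℝ} {φ ψ : ℂ → ℝ}

lemma PI_harm (hφ : ContinuousOn φ (sphere c R)) : HarmonicOnNhd (PI c R φ) (ball c R) := by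
  intro w hw
  have hR := pos_of_mem_ball hw
  have h1 : ContinuousOn (fun ζ => φ (ζ + c)) (sphere 0 R) :=
    hφ.comp (by fun_prop) fun ζ hζ => by simpa using hζ
  have h2 : CircleIntegrable (fun ζ => φ (ζ + c)) 0 R := h1.circleIntegrable hR.le
  have h3 : CircleIntegrable (fun ζ => (φ (ζ + c) : ℂ)) 0 R :=
    (Complex.continuous_ofReal.comp_continuousOn h1).circleIntegrable hR.le
  have h4 := analyticOnNhd_circleAverage_herglotzRieszKernel_smul h3 (w - c)
    (by simpa [dist_eq_norm] using hw)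
  have h5 := (h4.comp (f := fun v : ℂ => v - c) (by fun_prop)).harmonicAt_re
  refine (harmonicAt_congr_nhds ?_).1 h5
  filter_upwards [isOpen_ball.mem_nhds hw] with v hv
  rw [Function.comp_apply, re_circleAverage_herglotzRieszKernel_smul h2
    (by simpa [dist_eq_norm] using hv), PI, ← circleAverage_map_add_const (c := c)]
  congr 1
  funext ζ
  simp [poissonKernel_eq_re_herglotzRieszKernel, herglotzRieszKernel_add_const]

lemma K_cont (hw : w ∈ ball c R) : ContinuousOn (poissonKernel c w) (sphere c R) := by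
  have := continuousOn_herglotzRieszKernel_sphere hw
  rw [abs_of_pos (pos_of_mem_ball hw)] at this
  rw [poissonKernel_eq_re_herglotzRieszKernel]
  exact Complex.continuous_re.comp_continuousOn this

lemma K_nonneg (hw : w ∈ ball c R) {ζ : ℂ} (hζ : ζ ∈ sphere c R) : 0 ≤ poissonKernel c w ζ := by
  rw [mem_ball_iff_norm] at hw
  rw [poissonKernel_def, mem_sphere_iff_norm.1 hζ]
  refine div_nonneg ?_ (sq_nonneg _)
  nlinarith [norm_nonneg (w - c)]

lemma PI_ci (hw : w ∈ ball c R) (hφ : ContinuousOn φ (sphere c R)) :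
    CircleIntegrable (poissonKernel c w • φ) c R :=
  ((K_cont hw).smul hφ).circleIntegrable (pos_of_mem_ball hw).le

lemma PI_mono (hw : w ∈ ball c R) (hφ : ContinuousOn φ (sphere c R))
    (hψ : ContinuousOn ψ (sphere c R)) (h : ∀ ζ ∈ sphere c R, φ ζ ≤ ψ ζ) :
    PI c R φ w ≤ PI c R ψ w := by
  refine circleAverage_mono (PI_ci hw hφ) (PI_ci hw hψ) fun ζ hζ => ?_
  rw [abs_of_pos (pos_of_mem_ball hw)] at hζ
  exact mul_le_mul_of_nonneg_left (h ζ hζ) (K_nonneg hw hζ)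

lemma PI_repr (hw : w ∈ ball c R) (h : HarmonicOnNhd φ (closedBall c R)) : PI c R φ w = φ w :=
  h.circleAverage_poissonKernel_smul hw

lemma PI_harnack (hR : 0 < R) (hw : w ∈ closedBall c (R / 2)) (hφ : ContinuousOn φ (sphere c R))
    (hψ : ContinuousOn ψ (sphere c R)) (h : ∀ ζ ∈ sphere c R, φ ζ ≤ ψ ζ) :
    PI c R ψ w - PI c R φ w ≤ 3 * (PI c R ψ c - PI c R φ c) := by
  have hw' : w ∈ ball c R := closedBall_subset_ball (by linarith) hw
  have hc : c ∈ ball c R := mem_ball_self hR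
  unfold PI
  rw [← circleAverage_sub (PI_ci hw' hψ) (PI_ci hw' hφ),
    ← circleAverage_sub (PI_ci hc hψ) (PI_ci hc hφ), ← smul_eq_mul, ← circleAverage_smul]
  refine circleAverage_mono ((PI_ci hw' hψ).sub (PI_ci hw' hφ))
    (((PI_ci hc hψ).sub (PI_ci hc hφ)).const_smul) fun ζ hζ => ?_
  rw [abs_of_pos hR] at hζ
  have h1 : poissonKernel c c ζ = 1 := by
    rw [poissonKernel_def]; simp [mem_sphere_iff_norm.1 hζ, hR.ne']
  have h2 : poissonKernel c w ζ ≤ 3 := by
    rw [poissonKernel_eq_re_herglotzRieszKernel]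
    refine (re_herglotzRieszKernel_le hζ hw').trans ?_
    rw [mem_closedBall_iff_norm] at hw
    rw [div_le_iff₀ (by linarith)]; linarith
  have h3 := h ζ hζ
  simp only [Pi.sub_apply, Pi.mul_apply, Pi.smul_apply, smul_eq_mul, h1]
  nlinarith

lemma PI_tendsto (hφ : Continuous φ) {p : ℂ} (hp : p ∈ sphere c R) :
    Tendsto (PI c R φ) (𝓝[ball c R] p) (𝓝 (φ p)) := by
  rw [Metric.tendsto_nhds]
  intro e he
  obtain ⟨δ, hδ, h1⟩ := Metric.continuousAt_iff.1 (hφ.continuousAt (x := p)) (e / 2) (by linarith)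
  obtain ⟨B, hB⟩ := (isCompact_sphere c R).exists_bound_of_continuousOn
    (f := fun ζ => φ ζ - φ p) (by fun_prop)
  have hB0 : 0 ≤ B := (norm_nonneg _).trans (hB p hp)
  have hq : ∀ ζ ∈ sphere c R, ‖ζ - p‖ ^ 2 = 2 * R ^ 2 + -2 * ((ζ - c) * conj (p - c)).re := by
    intro ζ hζ
    have a1 := norm_sq_eq (ζ - c) (p - c)
    have a2 : ((ζ - c - (p - c)) * conj (p - c)).re = ((ζ - c) * conj (p - c)).re - R ^ 2 := by
      rw [sub_mul, Complex.sub_re, Complex.mul_conj, Complex.ofReal_re, Complex.normSq_eq_norm_sq,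
        mem_sphere_iff_norm.1 hp]
    rw [a2, mem_sphere_iff_norm.1 hp, mem_sphere_iff_norm.1 hζ, sub_sub_sub_cancel_right] at a1
    linarith
  set M := B / δ ^ 2
  have h2 : ∀ ζ ∈ sphere c R, |φ ζ - φ p| ≤ e / 2 + M * ‖ζ - p‖ ^ 2 := by
    intro ζ hζ
    rcases lt_or_ge (dist ζ p) δ with h | h
    · have := h1 h
      rw [Real.dist_eq] at this
      have : 0 ≤ M * ‖ζ - p‖ ^ 2 := by positivity
      linarith
    · rw [dist_eq_norm] at h
      have a1 : B ≤ M * ‖ζ - p‖ ^ 2 := by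
        rw [div_mul_eq_mul_div, le_div_iff₀ (by positivity)]; gcongr
      have := hB ζ hζ
      rw [Real.norm_eq_abs] at this
      linarith
  have hc : Continuous fun w : ℂ => M * (2 * R ^ 2 + -2 * ((w - c) * conj (p - c)).re) := by
    fun_prop
  have h3 := hc.tendsto p
  rw [← hq p hp, sub_self, norm_zero, zero_pow two_ne_zero, mul_zero] at h3
  filter_upwards [nhdsWithin_le_nhds (h3.eventually (gt_mem_nhds (half_pos he))),
    self_mem_nhdsWithin] with w h4 hw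
  have u1 := PI_mono hw hφ.continuousOn (ψ := fun ζ => (φ p + e / 2 + M * (2 * R ^ 2)) +
    (-2 * M) * ((ζ - c) * conj (p - c)).re) (by fun_prop) fun ζ hζ => by
      have := (abs_le.1 (h2 ζ hζ)).2
      rw [hq ζ hζ] at this; linarith
  have u2 := PI_mono hw (φ := fun ζ => (φ p - e / 2 - M * (2 * R ^ 2)) +
    (2 * M) * ((ζ - c) * conj (p - c)).re) (by fun_prop) hφ.continuousOn fun ζ hζ => by
      have := (abs_le.1 (h2 ζ hζ)).1
      rw [hq ζ hζ] at this; linarith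
  rw [PI_repr hw fun v _ => lin_harm _ _ _ _ v] at u1 u2
  rw [Real.dist_eq, abs_lt]
  constructor <;> linarith

end Pool.Agent.H1.Per
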