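import Pool.Agent.H1.PerA

namespace Pool.Agent.H1.Per

open Real Metric Filter Topology InnerProductSpace Set ComplexConjugate

def Fam (Ω : Set ℂ) (g : ℂ → ℝ) : Set (ℂ → ℝ) :=
  {s | Continuous s ∧ (∀ z ∈ Ω, SubAt s z) ∧ ∀ z ∈ frontier Ω, s z ≤ g z}

open Classical in
noncomputable def md (c : ℂ) (R : ℝ) (s : ℂ → ℝ) (w : ℂ) : ℝ :=
  if w ∈ ball c R then PI c R s w else s w

variable {Ω : Set ℂ} {g s t : ℂ → ℝ} {c : ℂ} {R : ℝ}

lemma md_in {w : ℂ} (hw : w ∈ ball c R) : md c R s w = PI c R s w := if_pos hw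
lemma md_out {w : ℂ} (hw : w ∉ ball c R) : md c R s w = s w := if_neg hw

lemma md_cont (hR : 0 < R) (hs : Continuous s) : Continuous (md c R s) := by
  classical
  have hf : frontier {w | w ∈ ball c R} = sphere c R := frontier_ball c hR.ne'
  refine continuous_if' (fun p hp => ?_) (fun p hp => ?_)
    (PI_harm hs.continuousOn).continuousOn hs.continuousOn
  · rw [hf] at hp
    rw [if_neg (by simp [mem_sphere.1 hp])]
    exact PI_tendsto hs hp
  · rw [hf] at hp
    rw [if_neg (by simp [mem_sphere.1 hp])]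
    exact hs.continuousAt.continuousWithinAt

lemma md_harm (hs : Continuous s) : HarmonicOnNhd (md c R s) (ball c R) := fun w hw =>
  (harmonicAt_congr_nhds (f₁ := PI c R s) (by
    filter_upwards [isOpen_ball.mem_nhds hw] with v hv using (md_in hv).symm)).1
    (PI_harm hs.continuousOn w hw)

lemma cmp {U : Set ℂ} (hU : IsOpen U) (hb : Bornology.IsBounded U)
    (hs : ContinuousOn s (closure U)) (ht : ContinuousOn t (closure U))
    (h1 : ∀ z ∈ U, SubAt s z) (h2 : ∀ z ∈ U, SubAt (fun w => -t w) z)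
    (h : ∀ z ∈ frontier U, s z ≤ t z) : ∀ z ∈ closure U, s z ≤ t z := by
  intro z hz
  have := maxp hU hb (s := fun w => s w + -t w) (hs.add ht.neg) (fun z hz =>
    (h1 z hz).add (h2 z hz) (mem_of_superset (hU.mem_nhds hz) subset_closure) hs ht.neg) (M := 0)
    (fun z hz => by linarith [h z hz]) z hz
  linarith

lemma md_ge (hR : 0 < R) (hc : closedBall c R ⊆ Ω) (hs : s ∈ Fam Ω g) (w : ℂ) :
    s w ≤ md c R s w := by
  by_cases hw : w ∈ ball c R
  · refine cmp isOpen_ball isBounded_ball hs.1.continuousOn (md_cont hR hs.1).continuousOn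
      (fun z hz => hs.2.1 z (hc (ball_subset_closedBall hz)))
      (fun z hz => sub_harm (md_harm hs.1 z hz).neg) (fun z hz => ?_) w (subset_closure hw)
    rw [isOpen_ball.frontier_eq] at hz
    rw [md_out hz.2]
  · rw [md_out hw]

lemma md_mem (hU : IsOpen Ω) (hR : 0 < R) (hc : closedBall c R ⊆ Ω) (hs : s ∈ Fam Ω g) :
    md c R s ∈ Fam Ω g := by
  refine ⟨md_cont hR hs.1, fun z hz => ?_, fun z hz => ?_⟩
  · by_cases hw : z ∈ ball c R
    · exact sub_harm (md_harm hs.1 z hw)
    · exact (hs.2.1 z hz).of_le univ_mem hs.1.continuousOn (md_cont hR hs.1).continuousOn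
        (md_out hw).le fun w _ => md_ge hR hc hs w
  · rw [md_out fun h => (hU.frontier_eq ▸ hz).2 (hc (ball_subset_closedBall h))]
    exact hs.2.2 z hz

lemma max_mem (hs : s ∈ Fam Ω g) (ht : t ∈ Fam Ω g) : (fun w => max (s w) (t w)) ∈ Fam Ω g :=
  ⟨hs.1.max ht.1, fun z hz => (hs.2.1 z hz).max (ht.2.1 z hz) univ_mem hs.1.continuousOn
    ht.1.continuousOn, fun z hz => max_le (hs.2.2 z hz) (ht.2.2 z hz)⟩

noncomputable def per (Ω : Set ℂ) (g : ℂ → ℝ) (z : ℂ) : ℝ := sSup ((fun s => s z) '' Fam Ω g)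

section
variable (hU : IsOpen Ω) (hb : Bornology.IsBounded Ω) (hg : Continuous g)
include hU hb hg

omit hU in
lemma g_bdd : ∃ M, ∀ z ∈ frontier Ω, |g z| ≤ M :=
  (hb.isCompact_closure.of_isClosed_subset isClosed_frontier frontier_subset_closure
    ).exists_bound_of_continuousOn hg.continuousOn

lemma fam_ne : (Fam Ω g).Nonempty := by
  obtain ⟨M, hM⟩ := g_bdd hb hg
  exact ⟨fun _ => -M, continuous_const, fun z _ => sub_harm (harmonicAt_const _),
    fun z hz => (abs_le.1 (hM z hz)).1⟩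

lemma le_per (hs : s ∈ Fam Ω g) {z : ℂ} (hz : z ∈ closure Ω) : s z ≤ per Ω g z := by
  obtain ⟨M, hM⟩ := g_bdd hb hg
  refine le_csSup ⟨M, ?_⟩ ⟨s, hs, rfl⟩
  rintro _ ⟨t, ht, rfl⟩
  exact maxp hU hb ht.1.continuousOn ht.2.1
    (fun w hw => (ht.2.2 w hw).trans (abs_le.1 (hM w hw)).2) z hz

lemma per_le {z : ℂ} {a : ℝ} (h : ∀ s ∈ Fam Ω g, s z ≤ a) : per Ω g z ≤ a :=
  csSup_le ((fam_ne hU hb hg).image _) (by rintro _ ⟨t, ht, rfl⟩; exact h t ht)

lemma per_approx (hR : 0 < R) (hc : closedBall c R ⊆ Ω) {e : ℝ} (he : 0 < e) :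
    ∃ h : ℂ → ℝ, HarmonicOnNhd h (closedBall c (R / 2)) ∧
      ∀ w ∈ closedBall c (R / 2), h w ≤ per Ω g w ∧ per Ω g w ≤ h w + e := by
  have hsub : closedBall c (R / 2) ⊆ ball c R := closedBall_subset_ball (by linarith)
  have hcl : ∀ w ∈ ball c R, w ∈ closure Ω := fun w hw =>
    subset_closure (hc (ball_subset_closedBall hw))
  have hc0 : c ∈ ball c R := mem_ball_self hR
  obtain ⟨_, ⟨s, hs, rfl⟩, h1⟩ := exists_lt_of_lt_csSup ((fam_ne hU hb hg).image fun s => s c)
    (show per Ω g c - e / 3 < per Ω g c by linarith)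
  refine ⟨md c R s, (md_harm hs.1).mono hsub, fun w hw =>
    ⟨le_per hU hb hg (md_mem hU hR hc hs) (hcl w (hsub hw)), per_le hU hb hg fun t ht => ?_⟩⟩
  have hm := max_mem hs ht
  have a1 := md_ge hR hc hm w
  have a2 := PI_harnack hR hw hs.1.continuousOn hm.1.continuousOn fun ζ _ => le_max_left _ _
  have a3 := le_per hU hb hg (md_mem hU hR hc hm) (hcl c hc0)
  have a4 := md_ge hR hc hs c
  rw [md_in (hsub hw)] at a1 ⊢
  rw [md_in hc0] at a3 a4
  have a5 := le_max_right (s w) (t w)
  simp only at h1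
  linarith

lemma per_harm : HarmonicOnNhd (per Ω g) Ω := by
  intro c hc
  obtain ⟨R, hR, h1⟩ := Metric.nhds_basis_closedBall.mem_iff.1 (hU.mem_nhds hc)
  have hcont : ContinuousOn (per Ω g) (closedBall c (R / 2)) := by
    refine continuousOn_of_uniform_approx_of_continuousOn fun u hu => ?_
    obtain ⟨e, he, h2⟩ := Metric.mem_uniformity_dist.1 hu
    obtain ⟨h, h3, h4⟩ := per_approx hU hb hg hR h1 (half_pos he)
    refine ⟨h, h3.continuousOn, fun w hw => h2 ?_⟩
    have := h4 w hw
    rw [Real.dist_eq, abs_lt]; constructor <;> linarith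
  have hs := hcont.mono sphere_subset_closedBall
  refine (harmonicAt_congr_nhds ?_).1 (PI_harm hs c (mem_ball_self (half_pos hR)))
  filter_upwards [ball_mem_nhds c (half_pos hR)] with w hw
  have key : ∀ e > 0, PI c (R / 2) (per Ω g) w ≤ per Ω g w + e ∧
      per Ω g w ≤ PI c (R / 2) (per Ω g) w + e := by
    intro e he
    obtain ⟨h, h3, h4⟩ := per_approx hU hb hg hR h1 he
    have h5 : HarmonicOnNhd (fun v => h v + e) (closedBall c (R / 2)) :=
      h3.add (harmonicOnNhd_const e)
    have a1 := PI_mono hw (h3.continuousOn.mono sphere_subset_closedBall) hs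
      fun ζ hζ => (h4 ζ (sphere_subset_closedBall hζ)).1
    have a2 := PI_mono hw hs (h5.continuousOn.mono sphere_subset_closedBall)
      fun ζ hζ => (h4 ζ (sphere_subset_closedBall hζ)).2
    rw [PI_repr hw h3] at a1
    rw [PI_repr hw h5] at a2
    have a3 := h4 w (ball_subset_closedBall hw)
    constructor <;> linarith
  exact le_antisymm (le_of_forall_pos_le_add fun e he => (key e he).1)
    (le_of_forall_pos_le_add fun e he => (key e he).2)

end

noncomputable def bar (w : ℂ) : ℝ := √((√‖w‖ + √((‖w‖ + w.re) / 2)) / 2)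

lemma bar_cont : Continuous bar := by unfold bar; fun_prop

lemma half_slit {w : ℂ} (hw : w ∈ Complex.slitPlane) : 0 < (w ^ (2⁻¹ : ℂ)).re := by
  rw [Complex.cpow_inv_two_re, Real.sqrt_pos]
  have h1 := Complex.abs_re_le_norm w
  rcases hw with h | h
  · linarith [norm_nonneg w]
  · have := (Complex.abs_re_lt_norm (z := w)).2 h
    linarith [neg_abs_le w.re]

lemma bar_eq (w : ℂ) : bar w = ((w ^ (2⁻¹ : ℂ)) ^ (2⁻¹ : ℂ)).re := by
  have h := Complex.norm_cpow_inv_nat w 2
  rw [Nat.cast_ofNat, Nat.cast_ofNat] at h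
  rw [Complex.cpow_inv_two_re, Complex.cpow_inv_two_re, bar, h, Real.sqrt_eq_rpow ‖w‖]
  norm_num

lemma barrier (hb : Bornology.IsBounded Ω) (hg : Continuous g) {p q : ℂ} (hq : q ≠ p)
    (hs : segment ℝ p q ⊆ Ωᶜ) {e : ℝ} (he : 0 < e) : ∃ s ∈ Fam Ω g, g p - e ≤ s p := by
  obtain ⟨M, hM⟩ := (hb.isCompact_closure.of_isClosed_subset isClosed_frontier
    frontier_subset_closure).exists_bound_of_continuousOn hg.continuousOn
  set W : ℂ → ℂ := fun z => (p - z) / (q - p) with hW
  have hqp : q - p ≠ 0 := sub_ne_zero.2 hq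
  have hn : 0 < ‖q - p‖ := norm_pos_iff.2 hqp
  have hWc : Continuous W := by fun_prop
  obtain ⟨δ, hδ, h1⟩ := Metric.continuousAt_iff.1 (hg.continuousAt (x := p)) e he
  set ρ := min (δ / ‖q - p‖) (1 / 2) with hρ
  have hρ0 : 0 < ρ := lt_min (by positivity) (by norm_num)
  set β := √(√ρ / 2) with hβ
  have hβ0 : 0 < β := by positivity
  set C := (|M| + |g p|) / β with hC
  have hC0 : 0 ≤ C := by positivity
  have hfar : ∀ z, ρ ≤ ‖W z‖ → g p - e - C * bar (W z) ≤ -M := fun z hz => by
    have a1 : β ≤ bar (W z) := by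
      refine Real.sqrt_le_sqrt ?_
      have := Real.sqrt_le_sqrt hz
      have := Real.sqrt_nonneg ((‖W z‖ + (W z).re) / 2)
      linarith
    have a2 : C * β = |M| + |g p| := by rw [hC]; field_simp
    nlinarith [le_abs_self M, le_abs_self (g p)]
  have hc1 : Continuous fun z => g p - e - C * bar (W z) :=
    continuous_const.sub (continuous_const.mul (bar_cont.comp hWc))
  refine ⟨fun z => max (g p - e - C * bar (W z)) (-M), ⟨hc1.max continuous_const, fun z hz => ?_,
    fun z hz => max_le ?_ (abs_le.1 (hM z hz)).1⟩, ?_⟩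
  · rcases lt_or_ge ρ ‖W z‖ with h | h
    · refine (sub_harm (harmonicAt_const (-M))).congr ?_
      filter_upwards [(hWc.norm.tendsto z).eventually (lt_mem_nhds h)] with v hv
      exact (max_eq_right (hfar v hv.le)).symm
    · have hsl : W z ∈ Complex.slitPlane := by
        by_contra hh
        simp only [Complex.mem_slitPlane_iff, not_or, not_lt, not_not] at hh
        have a1 := Complex.abs_re_le_norm (W z)
        have a2 : ρ ≤ 1 / 2 := min_le_right _ _
        refine hs ⟨1 + (W z).re, -(W z).re, by linarith [neg_abs_le (W z).re], by linarith [hh.1],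
          by ring, ?_⟩ hz
        have a3 : (((W z).re : ℝ) : ℂ) = W z := Complex.ext rfl (by simp [hh.2])
        simp only [Complex.real_smul]
        push_cast
        rw [a3, hW]; field_simp; ring
      have hWa : AnalyticAt ℂ W z := by rw [hW]; fun_prop (disch := assumption)
      have a4 := ((hWa.cpow analyticAt_const hsl).cpow (analyticAt_const (v := (2⁻¹ : ℂ)))
        (Or.inl (half_slit hsl))).harmonicAt_re
      have a5 : HarmonicAt (fun z => g p - e - C * bar (W z)) z := by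
        simp only [bar_eq]
        exact (harmonicAt_const (g p - e)).sub (a4.const_smul (c := C))
      exact (sub_harm a5).max (sub_harm (harmonicAt_const (-M))) univ_mem hc1.continuousOn
        continuousOn_const
  · rcases le_or_gt ρ ‖W z‖ with h | h
    · exact (hfar z h).trans (abs_le.1 (hM z hz)).1
    · have a1 : dist z p < δ := by
        have := h.trans_le (min_le_left _ _)
        rwa [hW, norm_div, div_lt_div_iff_of_pos_right hn, ← dist_eq_norm, dist_comm] at this
      have a2 := h1 a1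
      rw [Real.dist_eq, abs_lt] at a2
      have : 0 ≤ C * bar (W z) := mul_nonneg hC0 (Real.sqrt_nonneg _)
      linarith
  · refine le_trans ?_ (le_max_left _ _)
    simp [hW, bar]

theorem dirichlet (hU : IsOpen Ω) (hb : Bornology.IsBounded Ω) (hg : Continuous g)
    (hs : ∀ p ∈ frontier Ω, ∃ q, q ≠ p ∧ segment ℝ p q ⊆ Ωᶜ) :
    ∃ u : ℂ → ℝ, HarmonicOnNhd u Ω ∧ ContinuousOn u (closure Ω) ∧ ∀ p ∈ frontier Ω, u p = g p := by
  have key : ∀ p ∈ frontier Ω, ∀ e > 0, ∃ s t : ℂ → ℝ, Continuous s ∧ Continuous t ∧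
      g p - e ≤ s p ∧ t p ≤ g p + e ∧ ∀ z ∈ closure Ω, s z ≤ per Ω g z ∧ per Ω g z ≤ t z := by
    intro p hp e he
    obtain ⟨q, hq, h1⟩ := hs p hp
    obtain ⟨s, h2, h3⟩ := barrier hb hg hq h1 he
    obtain ⟨t, h4, h5⟩ := barrier hb hg.neg hq h1 he
    refine ⟨s, fun z => -t z, h2.1, h4.1.neg, h3, by simp only [Pi.neg_apply] at h5; linarith,
      fun z hz => ⟨le_per hU hb hg h2 hz, per_le hU hb hg fun r hr => ?_⟩⟩
    refine cmp hU hb hr.1.continuousOn h4.1.neg.continuousOn hr.2.1
      (fun w hw => by simpa using h4.2.1 w hw) (fun w hw => ?_) z hz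
    have a1 := hr.2.2 w hw
    have a2 := h4.2.2 w hw
    simp only [Pi.neg_apply] at a2 ⊢
    linarith
  have hv : ∀ p ∈ frontier Ω, per Ω g p = g p := fun p hp => by
    refine le_antisymm (le_of_forall_pos_le_add fun e he => ?_)
      (le_of_forall_pos_le_add fun e he => ?_) <;>
    · obtain ⟨s, t, -, -, h1, h2, h3⟩ := key p hp e he
      have := h3 p (frontier_subset_closure hp)
      linarith
  refine ⟨per Ω g, per_harm hU hb hg, fun p hp => ?_, hv⟩
  by_cases hpU : p ∈ Ω
  · exact (per_harm hU hb hg p hpU).1.continuousAt.continuousWithinAt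
  · have hp' : p ∈ frontier Ω := ⟨hp, by rwa [hU.interior_eq]⟩
    rw [ContinuousWithinAt, hv p hp', Metric.tendsto_nhds]
    intro e he
    obtain ⟨s, t, c1, c2, h1, h2, h3⟩ := key p hp' (e / 2) (half_pos he)
    filter_upwards [self_mem_nhdsWithin,
      nhdsWithin_le_nhds ((c1.tendsto p).eventually (lt_mem_nhds (show g p - e < s p by linarith))),
      nhdsWithin_le_nhds ((c2.tendsto p).eventually (gt_mem_nhds (show t p < g p + e by linarith)))]
      with z hz a1 a2
    have := h3 z hz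
    rw [Real.dist_eq, abs_lt]; constructor <;> linarith

end Pool.Agent.H1.Per
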