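import Mathlib

namespace Pool.Agent.H1.Tor

open Real Metric Filter Topology Set

noncomputable def aa (x : ℝ) : ℝ := max (|x| - 20) 0
noncomputable def A (z : ℂ) : ℂ := ⟨aa z.re, z.im⟩
noncomputable def C (z : ℂ) : ℂ := ⟨z.re, min z.im 0⟩
noncomputable def rho (z : ℂ) : ℝ := ‖A z‖
noncomputable def cc (z : ℂ) : ℝ := ‖C z‖
def Om : Set ℂ := {z | 0 < rho z ∧ rho z < 2 ∧ 0 < cc z}
noncomputable def ff (z : ℂ) : ℝ := min (rho z) (min (2 - rho z) (cc z))

lemma nle {z w : ℂ} (h1 : |z.re| ≤ |w.re|) (h2 : |z.im| ≤ |w.im|) : ‖z‖ ≤ ‖w‖ := by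
  rw [Complex.norm_eq_sqrt_sq_add_sq, Complex.norm_eq_sqrt_sq_add_sq]
  exact Real.sqrt_le_sqrt (add_le_add (sq_le_sq.2 h1) (sq_le_sq.2 h2))

lemma aa_lip (x y : ℝ) : |aa x - aa y| ≤ |x - y| := by
  unfold aa
  refine (abs_max_sub_max_le_abs _ _ _).trans ?_
  simpa using abs_abs_sub_abs_le_abs_sub x y

lemma rho_lip (z p : ℂ) : rho z ≤ rho p + ‖z - p‖ := by
  have h : ‖A z - A p‖ ≤ ‖z - p‖ := nle (by simpa [A] using aa_lip z.re p.re) (by simp [A])
  have := norm_sub_norm_le (A z) (A p)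
  unfold rho; linarith

lemma cc_lip (z p : ℂ) : cc z ≤ cc p + ‖z - p‖ := by
  have h : ‖C z - C p‖ ≤ ‖z - p‖ := nle (by simp [C]) (by
    simp only [C, Complex.sub_im]
    exact (abs_min_sub_min_le_max _ _ _ _).trans (by simp))
  have := norm_sub_norm_le (C z) (C p)
  unfold cc; linarith

lemma rho_sq (z : ℂ) : rho z ^ 2 = aa z.re ^ 2 + z.im ^ 2 := by
  rw [rho, Complex.sq_norm, Complex.normSq_apply]; simp [A]; ring

lemma cc_sq (z : ℂ) : cc z ^ 2 = z.re ^ 2 + (min z.im 0) ^ 2 := by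
  rw [cc, Complex.sq_norm, Complex.normSq_apply]; simp [C]; ring

lemma rho_nn (z : ℂ) : 0 ≤ rho z := norm_nonneg _
lemma cc_nn (z : ℂ) : 0 ≤ cc z := norm_nonneg _
lemma aa_nn (x : ℝ) : 0 ≤ aa x := le_max_right _ _

lemma rho_cont : Continuous rho := by
  have : rho = fun z => √(aa z.re ^ 2 + z.im ^ 2) := by
    funext z; rw [← rho_sq, Real.sqrt_sq (rho_nn z)]
  rw [this]; unfold aa; fun_prop

lemma cc_cont : Continuous cc := by
  have : cc = fun z => √(z.re ^ 2 + (min z.im 0) ^ 2) := by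
    funext z; rw [← cc_sq, Real.sqrt_sq (cc_nn z)]
  rw [this]; fun_prop

lemma Om_open : IsOpen Om :=
  (isOpen_lt continuous_const rho_cont).inter
    ((isOpen_lt rho_cont continuous_const).inter (isOpen_lt continuous_const cc_cont))

lemma rho_zero {z : ℂ} : rho z ≤ 0 ↔ |z.re| ≤ 20 ∧ z.im = 0 := by
  rw [rho, norm_le_zero_iff, Complex.ext_iff]
  simp [A, aa]

lemma cc_zero {z : ℂ} : cc z ≤ 0 ↔ z.re = 0 ∧ 0 ≤ z.im := by
  rw [cc, norm_le_zero_iff, Complex.ext_iff]
  simp [C]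

lemma im_le (z : ℂ) : |z.im| ≤ rho z := Complex.abs_im_le_norm (A z)

lemma re_le (z : ℂ) : |z.re| ≤ 20 + rho z := by
  have h := Complex.re_le_norm (A z)
  have : |z.re| - 20 ≤ aa z.re := le_max_left _ _
  simp only [A] at h
  unfold rho A; linarith

lemma re_le_cc (z : ℂ) : |z.re| ≤ cc z := Complex.abs_re_le_norm (C z)

lemma Om_bdd : Bornology.IsBounded Om := by
  refine (isBounded_closedBall (x := (0 : ℂ)) (r := 24)).subset fun z hz => ?_
  rw [mem_closedBall_zero_iff]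
  linarith [Complex.norm_le_abs_re_add_abs_im z, re_le z, im_le z, hz.2.1]

lemma rho_mid {z : ℂ} (h : |z.re| ≤ 20) : rho z = |z.im| := by
  have : aa z.re = 0 := max_eq_right (by linarith)
  rw [← sq_eq_sq₀ (rho_nn z) (abs_nonneg _), rho_sq, this, sq_abs]; ring

lemma rho_mono (q : ℂ) {s t : ℝ} (hs : 0 ≤ s) (h : s ≤ t) : rho (s • q) ≤ rho (t • q) := by
  have ht := hs.trans h
  refine nle ?_ ?_
  · simp only [A, abs_of_nonneg (aa_nn _)]
    simp only [Complex.smul_re, smul_eq_mul, aa, abs_mul, abs_of_nonneg hs, abs_of_nonneg ht]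
    exact max_le_max (by gcongr) le_rfl
  · simp only [A, Complex.smul_im, smul_eq_mul, abs_mul, abs_of_nonneg hs, abs_of_nonneg ht]
    gcongr

lemma not_mem {p : ℂ} : p ∈ Omᶜ ↔ rho p ≤ 0 ∨ 2 ≤ rho p ∨ cc p ≤ 0 := by
  simp only [Om, mem_compl_iff, mem_ofPred_eq, not_and_or, not_lt]

lemma seg_cond (p : ℂ) (hp : p ∈ Omᶜ) : ∃ q, q ≠ p ∧ segment ℝ p q ⊆ Omᶜ := by
  have hcut : cc p ≤ 0 → ∃ q, q ≠ p ∧ segment ℝ p q ⊆ Omᶜ := fun h => by
    refine ⟨p + Complex.I, by simp, ?_⟩
    rintro _ ⟨a, b, ha, hb, hab, rfl⟩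
    rw [cc_zero] at h
    refine not_mem.2 (Or.inr (Or.inr (cc_zero.2 ⟨by simp [h.1], ?_⟩)))
    simp only [Complex.add_im, Complex.smul_im, Complex.I_im, smul_eq_mul]
    have := h.2
    positivity
  by_cases h0 : p = 0
  · exact hcut (cc_zero.2 (by simp [h0]))
  have hne : ∀ c : ℝ, c ≠ 1 → c • p ≠ p := fun c hc h => by
    have : (c - 1) • p = 0 := by rw [sub_smul, h, one_smul, sub_self]
    rcases smul_eq_zero.1 this with h | h
    · exact hc (by linarith)
    · exact h0 h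
  rcases not_mem.1 hp with h | h | h
  · refine ⟨(0 : ℝ) • p, hne _ (by norm_num), ?_⟩
    rintro _ ⟨a, b, ha, hb, hab, rfl⟩
    refine not_mem.2 (Or.inl ?_)
    have := rho_mono p ha (show a ≤ 1 by linarith)
    rw [one_smul] at this
    simpa using this.trans h
  · refine ⟨(2 : ℝ) • p, hne _ (by norm_num), ?_⟩
    rintro _ ⟨a, b, ha, hb, hab, rfl⟩
    refine not_mem.2 (Or.inr (Or.inl ?_))
    have := rho_mono p zero_le_one (show 1 ≤ a + b * 2 by linarith)
    rw [one_smul, add_smul, mul_smul] at this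
    exact h.trans this
  · exact hcut h

/-- nearest point of the slit -/
noncomputable def pr (z : ℂ) : ℂ := ((max (-20) (min z.re 20) : ℝ) : ℂ)

lemma pr_norm (z : ℂ) : ‖z - pr z‖ = rho z := by
  have : |(z - pr z).re| = aa z.re := by
    simp only [pr, Complex.sub_re, Complex.ofReal_re, aa]
    rcases le_total z.re 20 with h | h <;> rcases le_total (-20) z.re with h' | h'
    · rw [min_eq_left h, max_eq_right h', max_eq_right (by linarith [abs_le.2 ⟨h', h⟩])]; simp
    · rw [min_eq_left h, max_eq_left h', abs_of_nonpos (by linarith), abs_of_nonpos (by linarith),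
        max_eq_left (by linarith)]; ring
    · rw [min_eq_right h, max_eq_right (by norm_num), abs_of_nonneg (by linarith),
        abs_of_nonneg (by linarith), max_eq_left (by linarith)]
    · linarith
  refine le_antisymm (nle ?_ ?_) (nle ?_ ?_)
  · rw [this]; exact le_abs_self _
  · simp [pr, A]
  · rw [this]; simp [A, abs_of_nonneg (aa_nn _)]
  · simp [pr, A]

lemma rho_ray (z : ℂ) {s : ℝ} (hs : 0 ≤ s) : rho (pr z + s • (z - pr z)) = s * rho z := by
  have e : aa (pr z + s • (z - pr z)).re = s * aa z.re := by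
    simp only [pr, Complex.add_re, Complex.smul_re, Complex.sub_re, Complex.ofReal_re, aa,
      smul_eq_mul]
    rcases le_total z.re 20 with h | h <;> rcases le_total (-20) z.re with h' | h'
    · have := abs_le.2 ⟨h', h⟩
      rw [min_eq_left h, max_eq_right h', sub_self, mul_zero, add_zero,
        max_eq_right (by linarith)]; simp
    · have : 0 ≤ s * (-z.re - 20) := mul_nonneg hs (by linarith)
      rw [min_eq_left h, max_eq_left h', abs_of_nonpos (by linarith), abs_of_nonpos (by linarith),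
        max_eq_left (by linarith), max_eq_left (by linarith)]; ring
    · have : 0 ≤ s * (z.re - 20) := mul_nonneg hs (by linarith)
      rw [min_eq_right h, max_eq_right (show (-20 : ℝ) ≤ 20 by norm_num),
        abs_of_nonneg (by linarith),
        abs_of_nonneg (by linarith), max_eq_left (by linarith), max_eq_left (by linarith)]; ring
    · linarith
  rw [← sq_eq_sq₀ (rho_nn _) (mul_nonneg hs (rho_nn z)), mul_pow, rho_sq, rho_sq, e]
  simp [pr]; ring

lemma d_ge (z : ℂ) : ff z ≤ infDist z Omᶜ := by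
  rw [le_infDist ⟨0, not_mem.2 (Or.inl (rho_zero.2 (by simp)))⟩]
  intro p hp
  rw [dist_eq_norm]
  rcases not_mem.1 hp with h | h | h
  · exact (min_le_left _ _).trans (by linarith [rho_lip z p])
  · refine (min_le_right _ _).trans ((min_le_left _ _).trans ?_)
    linarith [rho_lip p z, norm_sub_rev p z]
  · exact (min_le_right _ _).trans ((min_le_right _ _).trans (by linarith [cc_lip z p]))

lemma d_le1 (z : ℂ) : infDist z Omᶜ ≤ rho z := by
  have h := rho_ray z le_rfl
  rw [zero_smul, add_zero, zero_mul] at h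
  rw [← pr_norm, ← dist_eq_norm]
  exact infDist_le_dist_of_mem (not_mem.2 (Or.inl h.le))

lemma d_le2 {z : ℂ} (h0 : 0 < rho z) (h2 : rho z ≤ 2) : infDist z Omᶜ ≤ 2 - rho z := by
  have h := rho_ray z (s := 2 / rho z) (by positivity)
  rw [div_mul_cancel₀ _ h0.ne'] at h
  refine (infDist_le_dist_of_mem (not_mem.2 (Or.inr (Or.inl h.ge)))).trans (le_of_eq ?_)
  have e : z - (pr z + (2 / rho z) • (z - pr z)) = (1 - 2 / rho z) • (z - pr z) := by
    rw [sub_smul, one_smul]; ring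
  have : 1 ≤ 2 / rho z := (one_le_div h0).2 h2
  rw [dist_eq_norm, e, norm_smul, pr_norm, Real.norm_eq_abs, abs_of_nonpos (by linarith)]
  field_simp; ring

lemma d_le3 (z : ℂ) : infDist z Omᶜ ≤ cc z := by
  refine (infDist_le_dist_of_mem (y := z - C z) (not_mem.2 (Or.inr (Or.inr
    (cc_zero.2 ⟨by simp [C], by simp [C]⟩))))).trans (le_of_eq ?_)
  rw [dist_eq_norm, sub_sub_cancel]; rfl

lemma d_eq {z : ℂ} (hz : z ∈ Om) : infDist z Omᶜ = ff z :=
  le_antisymm (le_min (d_le1 z) (le_min (d_le2 hz.1 hz.2.1.le) (d_le3 z))) (d_ge z)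

lemma d_le_one (z : ℂ) : infDist z Omᶜ ≤ 1 := by
  by_cases hz : z ∈ Om
  · rcases le_total (rho z) 1 with h | h
    · exact (d_le1 z).trans h
    · linarith [d_le2 hz.1 hz.2.1.le]
  · rw [infDist_zero_of_mem (show z ∈ Omᶜ from hz)]; norm_num

end Pool.Agent.H1.Tor
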