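import Pool.Agent.H1.PerC

namespace Pool.Agent.H1.Tor

open Real Metric Filter Topology Set

lemma ff1 (z : ℂ) : ff z ≤ rho z := min_le_left _ _
lemma ff2 (z : ℂ) : ff z ≤ 2 - rho z := (min_le_right _ _).trans (min_le_left _ _)
lemma ff3 (z : ℂ) : ff z ≤ cc z := (min_le_right _ _).trans (min_le_right _ _)

lemma cc_up {z : ℂ} (h : 0 ≤ z.im) : cc z = |z.re| := by
  rw [← sq_eq_sq₀ (cc_nn z) (abs_nonneg _), cc_sq, min_eq_right h, sq_abs]; ring

lemma step {z : ℂ} (hz : z ∈ Om) :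
    ∃ G : ℂ, ∀ t ∈ Icc (0 : ℝ) 1, (1 - t) * ff z + t ≤ ff (z + t • G) := by
  have h1 := ff1 z
  have h2 := ff2 z
  have h3 := ff3 z
  by_cases h : |z.re| ≤ 20 ∧ 0 ≤ z.im
  · have hx : 0 < |z.re| := by rw [← cc_up h.2]; exact hz.2.2
    set m := max |z.re| 1 with hm
    have hm1 : |z.re| ≤ m := le_max_left _ _
    have hm2 : 1 ≤ m := le_max_right _ _
    have hm3 : m ≤ 20 := max_le h.1 (by norm_num)
    refine ⟨⟨z.re * (m / |z.re| - 1), 1 - z.im⟩, fun t ht => ?_⟩
    set w := z + t • (⟨z.re * (m / |z.re| - 1), 1 - z.im⟩ : ℂ) with hw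
    have ht1 : 0 ≤ 1 - t := by linarith [ht.2]
    have e1 : |w.re| = (1 - t) * |z.re| + t * m := by
      have : w.re = z.re * ((1 - t) + t * (m / |z.re|)) := by simp [hw]; ring
      have := ht.1
      rw [‹w.re = _›, abs_mul, abs_of_nonneg (a := (1 - t) + _) (by positivity)]
      field_simp
    have e2 : rho w = (1 - t) * z.im + t := by
      rw [rho_mid (by rw [e1]; nlinarith [ht.1, h.1])]
      have : w.im = (1 - t) * z.im + t := by simp [hw]; ring
      rw [this, abs_of_nonneg (add_nonneg (mul_nonneg ht1 h.2) ht.1)]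
    rw [rho_mid h.1, abs_of_nonneg h.2] at h1 h2
    rw [cc_up h.2] at h3
    refine le_min ?_ (le_min ?_ ((re_le_cc w).trans' ?_))
    · rw [e2]; nlinarith
    · rw [e2]; nlinarith
    · rw [e1]; nlinarith [ht.1]
  · have h0 := hz.1
    refine ⟨((rho z)⁻¹ - 1) • (z - pr z), fun t ht => ?_⟩
    have ht1 : 0 ≤ 1 - t := by linarith [ht.2]
    have ht0 := ht.1
    have hs : 0 ≤ (1 - t) + t * (rho z)⁻¹ := by positivity
    have e : z + t • ((rho z)⁻¹ - 1) • (z - pr z)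
        = pr z + ((1 - t) + t * (rho z)⁻¹) • (z - pr z) := by
      simp only [Complex.real_smul]; push_cast; ring
    have e2 := rho_ray z hs
    have e3 : ((1 - t) + t * (rho z)⁻¹) * rho z = (1 - t) * rho z + t := by field_simp
    have hf : (1 - t) * ff z + t ≤ 1 := by nlinarith
    rw [e]
    set s := (1 - t) + t * (rho z)⁻¹
    refine le_min ?_ (le_min ?_ ?_)
    · rw [e2, e3]; nlinarith
    · rw [e2, e3]; nlinarith
    · rcases le_total |z.re| 20 with hx | hx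
      · have hy : z.im ≤ 0 := by
          by_contra hc
          exact h ⟨hx, (not_le.1 hc).le⟩
        have e4 : (pr z + s • (z - pr z)).im = s * z.im := by simp [pr]
        have e5 := Complex.abs_im_le_norm (C (pr z + s • (z - pr z)))
        simp only [C] at e5
        rw [e4, min_eq_left (mul_nonpos_of_nonneg_of_nonpos hs hy), abs_mul, abs_of_nonneg hs,
          ← rho_mid hx, e3] at e5
        unfold cc C
        rw [e4, min_eq_left (mul_nonpos_of_nonneg_of_nonpos hs hy)]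
        nlinarith
      · refine hf.trans ((re_le_cc _).trans' ?_)
        simp only [pr, Complex.add_re, Complex.smul_re, Complex.sub_re, Complex.ofReal_re,
          smul_eq_mul]
        rcases le_abs'.1 hx with h' | h'
        · rw [min_eq_left (by linarith), max_eq_left h']
          have : 0 ≤ s * (-z.re - 20) := mul_nonneg hs (by linarith)
          exact le_abs'.2 (Or.inl (by linarith))
        · rw [min_eq_right h', max_eq_right (by norm_num)]
          have : 0 ≤ s * (z.re - 20) := mul_nonneg hs (by linarith)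
          exact le_abs'.2 (Or.inr (by linarith))

lemma locmax_iff (z : ℂ) : (z ∈ Om ∧ IsLocalMax (fun w : ℂ => infDist w Omᶜ) z) ↔
    rho z = 1 ∧ 1 ≤ cc z := by
  constructor
  · rintro ⟨hz, hm⟩
    have : 1 ≤ ff z := by
      by_contra hc
      obtain ⟨G, hG⟩ := step hz
      have ht : Tendsto (fun t : ℝ => z + t • G) (𝓝[>] 0) (𝓝 z) := by
        have : Continuous fun t : ℝ => z + t • G := by fun_prop
        simpa using (this.tendsto 0).mono_left nhdsWithin_le_nhds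
      obtain ⟨t, h1, h2⟩ := ((ht.eventually hm).and (Ioo_mem_nhdsGT zero_lt_one)).exists
      have h3 := hG t ⟨h2.1.le, h2.2.le⟩
      have h4 := d_ge (z + t • G)
      simp only [d_eq hz] at h1
      nlinarith [h2.1, not_le.1 hc]
    exact ⟨by linarith [ff1 z, ff2 z], this.trans (ff3 z)⟩
  · rintro ⟨h1, h2⟩
    refine ⟨⟨by linarith, by linarith, by linarith⟩, Eventually.of_forall fun w => ?_⟩
    exact (d_le_one w).trans ((le_min h1.ge (le_min (by linarith) h2)).trans (d_ge z))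

noncomputable def ga (s x : ℝ) : ℂ := ⟨x, s * √(1 - aa x ^ 2)⟩

lemma ga_cont (s : ℝ) : Continuous (ga s) := by
  have : ga s = fun x : ℝ => (x : ℂ) + ((s * √(1 - aa x ^ 2) : ℝ) : ℂ) * Complex.I := by
    funext x; apply Complex.ext <;> simp [ga]
  rw [this]; unfold aa; fun_prop

lemma ga_rho {s x : ℝ} (hs : s ^ 2 = 1) (hx : |x| ≤ 21) :
    (ga s x).im ^ 2 = 1 - aa x ^ 2 ∧ rho (ga s x) = 1 := by
  have h1 : aa x ≤ 1 := max_le (by linarith) zero_le_one
  have h2 : (ga s x).im ^ 2 = 1 - aa x ^ 2 := by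
    simp only [ga]
    rw [mul_pow, hs, Real.sq_sqrt (by nlinarith [aa_nn x]), one_mul]
  refine ⟨h2, ?_⟩
  rw [← sq_eq_sq₀ (rho_nn _) zero_le_one, rho_sq, h2]
  simp [ga]

lemma gam_eq : {z : ℂ | rho z = 1 ∧ 1 ≤ cc z} =
    (ga (-1) '' Icc (-21) 21 ∪ ga 1 '' Icc 1 21) ∪ ga 1 '' Icc (-21) (-1) := by
  ext z
  constructor
  · rintro ⟨h1, h2⟩
    have h3 := abs_le.1 (re_le z)
    have h4 : √(1 - aa z.re ^ 2) = |z.im| := by
      rw [← Real.sqrt_sq_eq_abs]; congr 1; linarith [rho_sq z, h1 ▸ one_pow (M := ℝ) 2]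
    rcases le_total z.im 0 with h | h
    · refine Or.inl (Or.inl ⟨z.re, ⟨by linarith, by linarith⟩, ?_⟩)
      apply Complex.ext <;> simp [ga, h4, abs_of_nonpos h]
    · have e : ga 1 z.re = z := by apply Complex.ext <;> simp [ga, h4, abs_of_nonneg h]
      rw [cc_up h] at h2
      rcases le_abs'.1 h2 with h' | h'
      · exact Or.inr ⟨z.re, ⟨by linarith, h'⟩, e⟩
      · exact Or.inl (Or.inr ⟨z.re, ⟨h', by linarith⟩, e⟩)
  · rintro ((⟨x, hx, rfl⟩ | ⟨x, hx, rfl⟩) | ⟨x, hx, rfl⟩)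
    · have h := ga_rho (s := -1) (by norm_num) (abs_le.2 hx)
      refine ⟨h.2, ?_⟩
      have h5 : (ga (-1) x).im ≤ 0 := by simp [ga]
      have h6 : aa x ≤ |x| := max_le (by linarith) (abs_nonneg _)
      rw [← sq_le_sq₀ zero_le_one (cc_nn _), cc_sq, min_eq_left h5, h.1]
      have : (ga (-1) x).re = x := rfl
      rw [this]
      nlinarith [aa_nn x, sq_abs x]
    · exact ⟨(ga_rho (by norm_num) (abs_le.2 ⟨by linarith [hx.1], hx.2⟩)).2,
        (le_abs'.2 (Or.inr hx.1)).trans (re_le_cc (ga 1 x))⟩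
    · exact ⟨(ga_rho (by norm_num) (abs_le.2 ⟨hx.1, by linarith [hx.2]⟩)).2,
        (le_abs'.2 (Or.inl hx.2)).trans (re_le_cc (ga 1 x))⟩

lemma gam_conn : IsPreconnected {z : ℂ | rho z = 1 ∧ 1 ≤ cc z} := by
  have h : ∀ s a b, IsPreconnected (ga s '' Icc a b) := fun s a b =>
    isPreconnected_Icc.image _ (ga_cont s).continuousOn
  have e : ∀ x : ℝ, |x| = 21 → ga (-1) x = ga 1 x := fun x hx => by
    have : aa x = 1 := by rw [aa, hx]; norm_num
    simp [ga, this]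
  rw [gam_eq]
  refine IsPreconnected.union (ga 1 (-21)) (Or.inl ⟨-21, by norm_num, e _ (by norm_num)⟩)
    ⟨-21, by norm_num, rfl⟩ (IsPreconnected.union (ga 1 21) ⟨21, by norm_num, e _ (by norm_num)⟩
      ⟨21, by norm_num, rfl⟩ (h _ _ _) (h _ _ _)) (h _ _ _)

lemma card_le : ENat.card (ConnectedComponents
    {z : ℂ | z ∈ Om ∧ IsLocalMax (fun w : ℂ => infDist w Omᶜ) z}) ≤ 1 := by
  have : {z : ℂ | z ∈ Om ∧ IsLocalMax (fun w : ℂ => infDist w Omᶜ) z}
      = {z : ℂ | rho z = 1 ∧ 1 ≤ cc z} := Set.ext locmax_iff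
  rw [this, ENat.card_le_one_iff_subsingleton]
  have := isPreconnected_iff_preconnectedSpace.1 gam_conn
  infer_instance

noncomputable def NN (q : ℂ) : ℝ := max (|q.re| / 21) |q.im|

lemma NN_cont : Continuous NN := by unfold NN; fun_prop

lemma NN_pos {q : ℂ} (h : 0 < cc q) : 0 < NN q := by
  by_contra hc
  have h1 : |q.re| / 21 ≤ 0 := (le_max_left _ _).trans (not_lt.1 hc)
  have h2 : |q.im| ≤ 0 := (le_max_right _ _).trans (not_lt.1 hc)
  exact not_le.2 h (cc_zero.2 ⟨abs_nonpos_iff.1 (by linarith), (abs_nonpos_iff.1 h2).ge⟩)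

lemma cc_smul {q : ℂ} (h : 0 < cc q) {s : ℝ} (hs : 0 < s) : 0 < cc (s • q) := by
  rw [← not_le, cc_zero] at h ⊢
  simp only [Complex.smul_re, Complex.smul_im, smul_eq_mul]
  exact fun h' => h ⟨(mul_eq_zero.1 h'.1).resolve_left hs.ne', nonneg_of_mul_nonneg_right h'.2 hs⟩

lemma rr_mem {q : ℂ} (h : 0 < cc q) : (NN q)⁻¹ • q ∈ Om := by
  have h0 := NN_pos h
  have e1 : |((NN q)⁻¹ • q).re| = |q.re| / NN q := by
    rw [Complex.smul_re, smul_eq_mul, abs_mul, abs_of_pos (inv_pos.2 h0), div_eq_inv_mul]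
  have e2 : |((NN q)⁻¹ • q).im| = |q.im| / NN q := by
    rw [Complex.smul_im, smul_eq_mul, abs_mul, abs_of_pos (inv_pos.2 h0), div_eq_inv_mul]
  have h1 : |q.re| / 21 ≤ NN q := le_max_left _ _
  have h2 : |q.im| ≤ NN q := le_max_right _ _
  refine ⟨?_, ?_, cc_smul h (inv_pos.2 h0)⟩
  · rw [← not_le, rho_zero, e1, ← abs_eq_zero, e2, div_le_iff₀ h0, div_eq_zero_iff]
    rintro ⟨h3, h4 | h4⟩
    · have : NN q = |q.re| / 21 := by rw [NN, h4]; exact max_eq_left (by positivity)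
      linarith
    · linarith
  · have h3 : aa ((NN q)⁻¹ • q).re ≤ 1 := by
      refine max_le ?_ zero_le_one
      rw [e1, sub_le_iff_le_add, div_le_iff₀ h0]; linarith
    have h4 : |((NN q)⁻¹ • q).im| ≤ 1 := by rw [e2, div_le_one h0]; exact h2
    refine lt_of_pow_lt_pow_left₀ 2 (by norm_num) ?_
    rw [rho_sq, ← sq_abs (Complex.im _)]
    nlinarith [aa_nn ((NN q)⁻¹ • q).re, abs_nonneg ((NN q)⁻¹ • q).im]

lemma H1_mem {q : ℂ} (hq : q ∈ Om) {t : ℝ} (ht : t ∈ Icc (0 : ℝ) 1) :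
    ((1 - t) + t * (NN q)⁻¹) • q ∈ Om := by
  have h0 := inv_pos.2 (NN_pos hq.2.2)
  have hr := rr_mem hq.2.2
  have hq' : (1 : ℝ) • q ∈ Om := by rwa [one_smul]
  set k := (NN q)⁻¹
  rcases le_total k 1 with h | h
  · have h1 : k ≤ (1 - t) + t * k := by nlinarith [ht.2]
    have h2 : (1 - t) + t * k ≤ 1 := by nlinarith [ht.1]
    exact ⟨hr.1.trans_le (rho_mono q h0.le h1), (rho_mono q (by linarith) h2).trans_lt hq'.2.1,
      cc_smul hq.2.2 (by linarith)⟩
  · have h1 : (1 - t) + t * k ≤ k := by nlinarith [ht.2]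
    have h2 : 1 ≤ (1 - t) + t * k := by nlinarith [ht.1]
    exact ⟨hq'.1.trans_le (rho_mono q zero_le_one h2), (rho_mono q (by linarith) h1).trans_lt hr.2.1,
      cc_smul hq.2.2 (by linarith)⟩

lemma H2_pos {q : ℂ} (h : 0 < cc q) {t : ℝ} (ht : t ∈ Icc (0 : ℝ) 1) :
    0 < cc ((1 - t) • q + t • (-Complex.I)) := by
  rw [← not_le, cc_zero] at h ⊢
  rintro ⟨h1, h2⟩
  simp at h1 h2
  rcases h1 with h1 | h1
  · rw [h1] at h2; linarith
  · refine h ⟨h1, ?_⟩
    by_contra hc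
    have h3 := not_le.1 hc
    have h4 : (1 - t) * q.im ≤ 0 := mul_nonpos_of_nonneg_of_nonpos (by linarith [ht.2]) h3.le
    have h5 : t = 0 := le_antisymm (by linarith) ht.1
    rw [h5] at h2; linarith

instance : ContractibleSpace Om := by
  rw [contractible_iff_id_nullhomotopic]
  have hN : Continuous fun q : Om => (NN q)⁻¹ :=
    (NN_cont.comp continuous_subtype_val).inv₀ fun q => (NN_pos q.2.2.2).ne'
  let r : C(Om, Om) := ⟨fun q => ⟨(NN q)⁻¹ • q, rr_mem q.2.2.2⟩,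
    (hN.smul continuous_subtype_val).subtype_mk _⟩
  have hI : 0 < cc (-Complex.I) := by rw [← not_le, cc_zero]; simp
  refine ⟨⟨_, rr_mem hI⟩, ContinuousMap.Homotopic.trans (g := r) ⟨⟨⟨fun p =>
    ⟨_, H1_mem p.2.2 p.1.2⟩, ?_⟩, ?_, ?_⟩⟩ ⟨⟨⟨fun p => ⟨_, rr_mem (H2_pos p.2.2.2.2 p.1.2)⟩, ?_⟩,
      ?_, ?_⟩⟩⟩
  · refine Continuous.subtype_mk (Continuous.smul (Continuous.add (by fun_prop)
      (Continuous.mul (by fun_prop) (hN.comp continuous_snd))) (by fun_prop)) _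
  · intro q; ext; simp
  · intro q; ext; simp [r]
  · refine Continuous.subtype_mk (Continuous.smul ((NN_cont.comp (by fun_prop)).inv₀
      fun p => (NN_pos (H2_pos p.2.2.2.2 p.1.2)).ne') (by fun_prop)) _
  · intro q; ext; simp [r]
  · intro q; ext; simp

end Pool.Agent.H1.Tor
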