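import Pool.Agent.H1.PerB
import Pool.Agent.H1.PerD

namespace Pool.Agent.H1.Tor

open Real Metric Filter Topology Set InnerProductSpace Pool.Agent.H1.Per

noncomputable def gg (z : ℂ) : ℝ := ‖z‖ ^ 2 / 2

lemma gg_eq (z : ℂ) : gg z = (z.re ^ 2 + z.im ^ 2) / 2 := by
  rw [gg, Complex.sq_norm, Complex.normSq_apply]; ring

lemma gg_cont : Continuous gg := by unfold gg; fun_prop

lemma gg_sub (z : ℂ) : SubAt gg z := by
  filter_upwards [self_mem_nhdsWithin] with r hr
  have : gg = (1 / 2 : ℝ) • fun w : ℂ => ‖w‖ ^ 2 := by funext w; simp [gg]; ring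
  have h := avg_sq z hr
  rw [this, circleAverage_smul, h]
  simp only [Pi.smul_apply, smul_eq_mul]
  nlinarith [sq_nonneg r]

lemma cl_rho {z : ℂ} (hz : z ∈ closure Om) : rho z ≤ 2 :=
  closure_minimal (t := {z | rho z ≤ 2}) (fun _ h => h.2.1.le)
    (isClosed_le rho_cont continuous_const) hz

lemma re_harm {F : ℂ → ℂ} {f : ℂ → ℝ} {z : ℂ} (h : AnalyticAt ℂ F z) (e : ∀ w, f w = (F w).re) :
    HarmonicAt f z := by
  rw [show f = fun w => (F w).re from funext e]; exact h.harmonicAt_re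

section
variable {u : ℂ → ℝ} (hu : HarmonicOnNhd u Om) (hc : ContinuousOn u (closure Om))
  (hb : ∀ p ∈ frontier Om, u p = gg p)
include hu hc hb

lemma v_ge : ∀ z ∈ closure Om, gg z ≤ u z :=
  cmp Om_open Om_bdd gg_cont.continuousOn hc (fun z _ => gg_sub z)
    (fun z hz => sub_harm (hu z hz).neg) fun z hz => (hb z hz).ge

lemma v_le : ∀ z ∈ closure Om, u z ≤ 4 + (z.re ^ 2 - z.im ^ 2) / 2 := by
  refine cmp Om_open Om_bdd hc (by fun_prop) (fun z hz => sub_harm (hu z hz))
    (fun z _ => sub_harm (re_harm (F := fun w => -(4 + w ^ 2 / 2)) (by fun_prop) fun w => ?_))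
    fun z hz => ?_
  · simp [pow_two]
  · have := (im_le z).trans (cl_rho (frontier_subset_closure hz))
    rw [hb z hz, gg_eq]
    nlinarith [abs_nonneg z.im, sq_abs z.im]

lemma v_mid {z : ℂ} (hz : z ∈ Om) (h0 : z.re = 0) : u z - gg z ≤ 101 / 100 := by
  set U : Set ℂ := {w | |w.re| < 20 ∧ -2 < w.im ∧ w.im < 0} with hU
  have hUo : IsOpen U := (isOpen_lt Complex.continuous_re.abs continuous_const).inter
    ((isOpen_lt continuous_const Complex.continuous_im).inter
      (isOpen_lt Complex.continuous_im continuous_const))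
  have hsub : U ⊆ Om := fun w hw => by
    have := rho_mid hw.1.le
    rw [abs_of_neg hw.2.2] at this
    refine ⟨by linarith [hw.2.2], by linarith [hw.2.1], ?_⟩
    rw [← not_le, cc_zero]
    exact fun h => by linarith [h.2, hw.2.2]
  have hy : z.im < 0 := by
    by_contra h
    exact not_le.2 hz.2.2 (cc_zero.2 ⟨h0, not_lt.1 h⟩)
  have hzU : z ∈ U := ⟨by simp [h0], by linarith [neg_abs_le z.im, im_le z, hz.2.1], hy⟩
  have key := cmp (s := u) (t := fun w : ℂ => (w.re ^ 2 - w.im ^ 2) / 2 - 2 * w.im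
      + (w.re ^ 2 + 1 - (w.im + 1) ^ 2) / 100) hUo (Om_bdd.subset hsub)
    (hc.mono (closure_mono hsub)) (by fun_prop) (fun z hz => sub_harm (hu z (hsub hz)))
    (fun z _ => sub_harm (re_harm (F := fun w => -(w ^ 2 / 2 + 2 * Complex.I * w
      + ((w + Complex.I) ^ 2 + 1) / 100)) (by fun_prop) fun w => by simp [pow_two]; ring))
    (fun p hp => by
      have hcl : p ∈ closure U := frontier_subset_closure hp
      have h1 : p ∈ {w : ℂ | |w.re| ≤ 20 ∧ -2 ≤ w.im ∧ w.im ≤ 0} :=
        closure_minimal (t := {w : ℂ | |w.re| ≤ 20 ∧ -2 ≤ w.im ∧ w.im ≤ 0})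
          (fun w hw => ⟨hw.1.le, hw.2.1.le, hw.2.2.le⟩)
          ((isClosed_le Complex.continuous_re.abs continuous_const).inter
            ((isClosed_le continuous_const Complex.continuous_im).inter
              (isClosed_le Complex.continuous_im continuous_const))) hcl
      obtain ⟨h1, h2, h3⟩ := h1
      by_cases hx : |p.re| = 20
      · have h4 := v_le hu hc hb p (closure_mono hsub hcl)
        have : p.re ^ 2 = 400 := by rw [← sq_abs, hx]; norm_num
        nlinarith
      · have hn : p ∉ U := by rw [hUo.frontier_eq] at hp; exact hp.2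
        have h5 : p.im = -2 ∨ p.im = 0 := by
          by_contra h
          rw [not_or] at h
          exact hn ⟨lt_of_le_of_ne h1 hx, lt_of_le_of_ne h2 (Ne.symm h.1), lt_of_le_of_ne h3 h.2⟩
        have h6 : p ∈ frontier Om := by
          rw [Om_open.frontier_eq]
          refine ⟨closure_mono hsub hcl, not_mem.2 ?_⟩
          rw [rho_mid h1]
          rcases h5 with h | h <;> simp [h]
        rw [hb p h6, gg_eq]
        rcases h5 with h | h <;> rw [h] <;> nlinarith [sq_nonneg p.re]) z (subset_closure hzU)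
  rw [gg_eq]
  simp only [h0] at key ⊢
  nlinarith [sq_nonneg (z.im + 1)]

lemma v_big {σ : ℝ} (hσ : σ = 1 ∨ σ = -1) :
    ∃ z ∈ Om, 0 < σ * z.re ∧ 104 / 100 ≤ u z - gg z := by
  have hσ2 : σ ^ 2 = 1 := by rcases hσ with h | h <;> simp [h]
  have hσ1 : |σ| = 1 := by rcases hσ with h | h <;> simp [h]
  set η : ℂ → ℂ := fun w => (σ * w - 20) / 2 with hη
  have hηc : Continuous η := by fun_prop
  have ere : ∀ w, (η w).re = (σ * w.re - 20) / 2 := fun w => by simp [hη]
  have eim : ∀ w, (η w).im = σ * w.im / 2 := fun w => by simp [hη]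
  have en : ∀ w, gg w = 2 * ‖η w‖ ^ 2 + 20 * (σ * w.re) - 200 := fun w => by
    rw [gg_eq, Complex.sq_norm, Complex.normSq_apply, ere, eim]
    linear_combination (-(w.re ^ 2 + w.im ^ 2) / 2) * hσ2
  set D : Set ℂ := {w | ‖η w‖ < 1 ∧ η w ∈ Complex.slitPlane} with hD
  have hDo : IsOpen D := (isOpen_lt hηc.norm continuous_const).inter
    (Complex.isOpen_slitPlane.preimage hηc)
  have hsub : D ⊆ Om := fun w hw => by
    have h1 := (abs_lt.1 ((Complex.abs_re_le_norm (η w)).trans_lt hw.1)).1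
    rw [ere] at h1
    have h2 : σ * w.re ≤ |w.re| := by
      simpa [abs_mul, hσ1] using le_abs_self (σ * w.re)
    refine ⟨?_, ?_, by linarith [re_le_cc w]⟩
    · rw [← not_le, rho_zero]
      rintro ⟨h3, h4⟩
      rcases hw.2 with h | h
      · rw [ere] at h; linarith
      · rw [eim, h4] at h; simp at h
    · have h3 := rho_lip w (σ * 20 : ℝ)
      have h4 : rho (σ * 20 : ℝ) ≤ 0 := rho_zero.2 (by simp [abs_mul, hσ1])
      have h5 : ‖w - (σ * 20 : ℝ)‖ = 2 * ‖η w‖ := by
        rw [← sq_eq_sq₀ (norm_nonneg _) (by positivity), mul_pow, Complex.sq_norm, Complex.sq_norm,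
          Complex.normSq_apply, Complex.normSq_apply, ere, eim]
        simp only [Complex.sub_re, Complex.sub_im, Complex.ofReal_re, Complex.ofReal_im]
        linear_combination (400 - w.re ^ 2 - w.im ^ 2) * hσ2
      linarith [hw.1]
  set c : ℂ → ℝ := fun w => √((‖η w‖ + (η w).re) / 2) with hcc
  have hc0 : ∀ w, 0 ≤ c w := fun w => Real.sqrt_nonneg _
  have hc2 : ∀ w, c w ^ 2 = (‖η w‖ + (η w).re) / 2 := fun w =>
    Real.sq_sqrt (by linarith [neg_abs_le (η w).re, Complex.abs_re_le_norm (η w)])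
  set S : ℂ → ℝ := fun w => 9 / 4 * c w - c w ^ 3 + 3 / 4 * ‖η w‖ * c w + 20 * (σ * w.re) - 200
    with hS
  have key := cmp (s := S) (t := u) hDo (Om_bdd.subset hsub) (by
      refine Continuous.continuousOn ?_
      simp only [hS, hcc]; fun_prop) (hc.mono (closure_mono hsub))
    (fun z hz => sub_harm (re_harm (F := fun w => 9 / 4 * η w ^ (2⁻¹ : ℂ)
      - 1 / 4 * (η w ^ (2⁻¹ : ℂ)) ^ 3 + 20 * (σ * w) - 200) (by
        have h1 : AnalyticAt ℂ (fun w => η w ^ (2⁻¹ : ℂ)) z :=
          AnalyticAt.cpow (by simp only [hη]; fun_prop) analyticAt_const hz.2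
        fun_prop) fun w => by
        have h := Complex.norm_cpow_inv_nat (η w) 2
        rw [Nat.cast_ofNat, Nat.cast_ofNat] at h
        have h1 : ‖η w ^ (2⁻¹ : ℂ)‖ ^ 2 = ‖η w‖ := by
          rw [h]; exact Real.rpow_inv_natCast_pow (norm_nonneg _) two_ne_zero
        have h2 : (η w ^ (2⁻¹ : ℂ)).re = c w := Complex.cpow_inv_two_re _
        rw [Complex.sq_norm, Complex.normSq_apply] at h1
        generalize η w ^ (2⁻¹ : ℂ) = W at h1 h2
        simp only [hS, ← h1, ← h2]
        simp [pow_succ]; ring))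
    (fun z hz => sub_harm (hu z (hsub hz)).neg) (fun p hp => by
      have hcl : p ∈ closure D := frontier_subset_closure hp
      have h1 : ‖η p‖ ≤ 1 := closure_minimal (t := {w | ‖η w‖ ≤ 1}) (fun w hw => hw.1.le)
        (isClosed_le hηc.norm continuous_const) hcl
      have hn : p ∉ D := by rw [hDo.frontier_eq] at hp; exact hp.2
      refine le_trans ?_ (v_ge hu hc hb p (closure_mono hsub hcl))
      rw [en]
      simp only [hS]
      by_cases h2 : ‖η p‖ = 1
      · rw [h2]
        nlinarith [mul_nonneg (sq_nonneg (c p - 1)) (show 0 ≤ c p + 2 by linarith [hc0 p])]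
      · have h3 : η p ∉ Complex.slitPlane := fun h => hn ⟨lt_of_le_of_ne h1 h2, h⟩
        rw [Complex.mem_slitPlane_iff, not_or, not_lt, not_not] at h3
        have h4 : c p = 0 := by
          have := hc2 p
          rw [← Complex.abs_re_eq_norm.2 h3.2, abs_of_nonpos h3.1] at this
          exact pow_eq_zero_iff two_ne_zero |>.1 (by linarith)
        rw [h4]
        nlinarith [sq_nonneg ‖η p‖])
  set z : ℂ := ((σ * (20 + 25 / 32) : ℝ) : ℂ) with hz
  have z1 : σ * z.re = 20 + 25 / 32 := by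
    simp only [hz, Complex.ofReal_re]; linear_combination (20 + 25 / 32) * hσ2
  have z2 : (η z).re = 25 / 64 := by rw [ere, z1]; norm_num
  have z3 : ‖η z‖ = 25 / 64 := by
    rw [← Complex.abs_re_eq_norm.2 (by rw [eim]; simp [hz]), z2]; norm_num
  have z4 : c z = 5 / 8 := by
    rw [← sq_eq_sq₀ (hc0 z) (by norm_num), hc2, z2, z3]; norm_num
  have hzD : z ∈ D := ⟨by rw [z3]; norm_num, Or.inl (by rw [z2]; norm_num)⟩
  refine ⟨z, hsub hzD, by rw [z1]; norm_num, ?_⟩
  have := key z (subset_closure hzD)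
  rw [en]
  simp only [hS, z3, z4] at this ⊢
  linarith

lemma crit {σ : ℝ} (hσ : σ = 1 ∨ σ = -1) :
    ∃ z ∈ Om, 0 < σ * z.re ∧ fderiv ℝ (fun w => u w - gg w) z = 0 := by
  obtain ⟨p, hp, hp1, hp2⟩ := v_big hu hc hb hσ
  have hK : IsCompact (closure Om ∩ {w | 0 ≤ σ * w.re}) :=
    Om_bdd.isCompact_closure.inter_right (isClosed_le continuous_const (by fun_prop))
  obtain ⟨z, hz, hm⟩ := hK.exists_isMaxOn ⟨p, subset_closure hp, hp1.le⟩
    ((hc.sub gg_cont.continuousOn).mono inter_subset_left)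
  have h1 : 104 / 100 ≤ u z - gg z := hp2.trans (hm ⟨subset_closure hp, hp1.le⟩)
  have h2 : z ∈ Om := by
    by_contra h
    have := hb z (by rw [Om_open.frontier_eq]; exact ⟨hz.1, h⟩)
    linarith
  have h3 : 0 < σ * z.re := by
    refine lt_of_le_of_ne hz.2 fun h => ?_
    have h4 : z.re = 0 := by rcases hσ with h' | h' <;> simpa [h'] using h.symm
    linarith [v_mid hu hc hb h2 h4]
  refine ⟨z, h2, h3, IsLocalMax.fderiv_eq_zero (hm.isLocalMax ?_)⟩
  exact inter_mem (mem_of_superset (Om_open.mem_nhds h2) subset_closure)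
    (mem_of_superset ((isOpen_lt (g := fun w : ℂ => σ * w.re) continuous_const
      (by fun_prop)).mem_nhds h3) fun w (hw : 0 < σ * w.re) => hw.le)

end

lemma gg_smooth : ContDiff ℝ 2 gg := by
  unfold gg
  exact (contDiff_norm_sq ℝ).div_const _

lemma gg_fd (w a : ℂ) : fderiv ℝ gg w a = w.re * a.re + w.im * a.im := by
  have h := (hasStrictFDerivAt_norm_sq w).hasFDerivAt.mul_const (2 : ℝ)⁻¹
  rw [show gg = fun x : ℂ => ‖x‖ ^ 2 * 2⁻¹ from rfl, h.fderiv]
  simp [Complex.inner]; ring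

lemma second {u : ℂ → ℝ} {z : ℂ} (h : ContDiffAt ℝ 2 u z) (a : ℂ) :
    fderiv ℝ (fun w => fderiv ℝ (fun w => u w - gg w) w a) z a
      = iteratedFDeriv ℝ 2 u z ![a, a] - (a.re * a.re + a.im * a.im) := by
  have e : (fun w => fderiv ℝ (fun w => u w - gg w) w a) =ᶠ[𝓝 z]
      fun w => fderiv ℝ u w a - (w.re * a.re + w.im * a.im) := by
    filter_upwards [h.eventually (by simp)] with w hw
    rw [fderiv_fun_sub (hw.differentiableAt (by simp)) (gg_smooth.differentiable (by simp) w),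
      sub_apply, gg_fd]
  have h1 : DifferentiableAt ℝ (fderiv ℝ u) z :=
    (h.fderiv_right (m := 1) (by norm_num)).differentiableAt (by simp)
  have h2 : HasFDerivAt (fun w : ℂ => w.re * a.re + w.im * a.im) _ z :=
    (Complex.reCLM.hasFDerivAt.mul_const a.re).add (Complex.imCLM.hasFDerivAt.mul_const a.im)
  rw [e.fderiv_eq, fderiv_fun_sub (h1.clm_apply (differentiableAt_const _)) h2.differentiableAt,
    h2.fderiv, fderiv_clm_apply h1 (differentiableAt_const _), iteratedFDeriv_two_apply]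
  simp

theorem main : ∃ v : ℂ → ℝ, ContDiffOn ℝ 2 v Om ∧
    (∀ z ∈ Om, fderiv ℝ (fun w => fderiv ℝ v w (1 : ℂ)) z (1 : ℂ)
      + fderiv ℝ (fun w => fderiv ℝ v w Complex.I) z Complex.I = -2) ∧
    ContinuousOn v (closure Om) ∧ (∀ z ∈ frontier Om, v z = 0) ∧
    2 ≤ Set.encard {z : ℂ | z ∈ Om ∧ fderiv ℝ v z = 0} := by
  obtain ⟨u, hu, hc, hb⟩ := dirichlet Om_open Om_bdd gg_cont fun p hp => seg_cond p (by
    rw [Om_open.frontier_eq] at hp; exact hp.2)
  refine ⟨fun w => u w - gg w, fun z hz => ((hu z hz).1.sub gg_smooth.contDiffAt).contDiffWithinAt,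
    fun z hz => ?_, hc.sub gg_cont.continuousOn, fun z hz => by simp [hb z hz], ?_⟩
  · have h := (hu z hz).2.eq_of_nhds
    rw [laplacian_eq_iteratedFDeriv_complexPlane] at h
    rw [second (hu z hz).1, second (hu z hz).1]
    simp at h ⊢
    linarith
  · obtain ⟨p, hp, hp1, hp2⟩ := crit hu hc hb (Or.inl rfl)
    obtain ⟨q, hq, hq1, hq2⟩ := crit hu hc hb (Or.inr rfl)
    rw [← Set.encard_pair (x := p) (y := q) (by rintro rfl; linarith)]
    refine Set.encard_le_encard ?_
    rintro _ (rfl | rfl)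
    exacts [⟨hp, hp2⟩, ⟨hq, hq2⟩]

end Pool.Agent.H1.Tor
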