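import Mathlib

set_option autoImplicit false

namespace Pool.Agent.H1.PmA

variable {A : Type*} [CStarAlgebra A] [PartialOrder A] [StarOrderedRing A]

lemma le_add (a b : A) (ha : 0 ≤ a) (hb : 0 ≤ b) (c : ℝ) (hc : 0 ≤ c)
    (h : a * a - b * b ≤ algebraMap ℝ A (c * c)) : a ≤ b + algebraMap ℝ A c := by
  have hc' : (0 : A) ≤ algebraMap ℝ A c := by
    rw [Algebra.algebraMap_eq_smul_one]; exact smul_nonneg hc zero_le_one
  have hbc : 0 ≤ b + algebraMap ℝ A c := add_nonneg hb hc'
  have h2 : a * a ≤ (b + algebraMap ℝ A c) * (b + algebraMap ℝ A c) := by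
    have e : (b + algebraMap ℝ A c) * (b + algebraMap ℝ A c) =
        b * b + algebraMap ℝ A (c * c) + (2 * c) • b := by
      simp only [Algebra.algebraMap_eq_smul_one, mul_add, add_mul, smul_mul_assoc, mul_smul_comm,
        one_mul, mul_one, smul_smul]
      module
    rw [e]
    have : 0 ≤ (2 * c) • b := smul_nonneg (by positivity) hb
    calc a * a ≤ b * b + algebraMap ℝ A (c * c) := by rwa [sub_le_iff_le_add'] at h
      _ ≤ _ := le_add_of_nonneg_right this
  have := CFC.sqrt_le_sqrt _ _ h2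
  rwa [CFC.sqrt_mul_self a, CFC.sqrt_mul_self _ hbc] at this

lemma sq_norm (a b : A) (ha : 0 ≤ a) (hb : 0 ≤ b) :
    ‖(a - b) * (a - b)‖ ≤ ‖a * a - b * b‖ := by
  have sa := IsSelfAdjoint.of_nonneg ha
  have sb := IsSelfAdjoint.of_nonneg hb
  have sE : IsSelfAdjoint (a * a - b * b) := by
    simp [IsSelfAdjoint, sa.star_eq, sb.star_eq]
  set c := √‖a * a - b * b‖ with hc
  have hcc : c * c = ‖a * a - b * b‖ := Real.mul_self_sqrt (norm_nonneg _)
  have h1 := le_add a b ha hb c (Real.sqrt_nonneg _) (by rw [hcc]; exact sE.le_algebraMap_norm_self)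
  have h2 := le_add b a hb ha c (Real.sqrt_nonneg _) (by
    rw [hcc, ← neg_sub, neg_le]; exact sE.neg_algebraMap_norm_le_self)
  have p1 : 0 ≤ algebraMap ℝ A c - (a - b) := by
    rw [sub_nonneg, sub_le_iff_le_add']; exact h1
  have p2 : 0 ≤ algebraMap ℝ A c + (a - b) := by
    rw [← sub_nonneg] at h2; convert h2 using 1; abel
  have cm : Commute (algebraMap ℝ A c - (a - b)) (algebraMap ℝ A c + (a - b)) := by
    refine Commute.sub_left (Algebra.commutes _ _) (Commute.add_right ?_ (Commute.refl _))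
    exact (Algebra.commutes _ _).symm
  have p3 := cm.mul_nonneg p1 p2
  have e : (algebraMap ℝ A c - (a - b)) * (algebraMap ℝ A c + (a - b)) =
      algebraMap ℝ A (c * c) - (a - b) * (a - b) := by
    generalize a - b = d
    simp only [Algebra.algebraMap_eq_smul_one, mul_add, sub_mul, smul_mul_assoc, mul_smul_comm,
      one_mul, mul_one, smul_smul]
    module
  have p4 : 0 ≤ (a - b) * (a - b) := by
    have := star_mul_self_nonneg (a - b)
    rwa [(sa.sub sb).star_eq] at this
  rw [CStarAlgebra.norm_le_iff_le_algebraMap _ (norm_nonneg _) p4, ← hcc, ← sub_nonneg, ← e]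
  exact p3

lemma step (a b : A) (l : ℝ) :
    (l • a + (1 - l) • b) * (l • a + (1 - l) • b) - b * b =
      l • (a * a - b * b) - (l * (1 - l)) • ((a - b) * (a - b)) := by
  simp only [mul_add, add_mul, mul_sub, sub_mul, smul_mul_assoc, mul_smul_comm, smul_smul,
    smul_sub]
  module

lemma main (a b : A) (ha : 0 ≤ a) (hb : 0 ≤ b) (l : ℝ) (h0 : 0 ≤ l) (h1 : l ≤ 1) :
    ‖(l • a + (1 - l) • b) * (l • a + (1 - l) • b) - b * b‖ ≤ ‖a * a - b * b‖ := by
  rw [step]
  have h := sq_norm a b ha hb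
  have hl : 0 ≤ l * (1 - l) := mul_nonneg h0 (by linarith)
  refine (norm_sub_le _ _).trans ?_
  rw [norm_smul, norm_smul, Real.norm_of_nonneg h0, Real.norm_of_nonneg hl]
  have := mul_le_mul_of_nonneg_left h hl
  nlinarith [mul_nonneg (sq_nonneg (1 - l)) (norm_nonneg (a * a - b * b))]

end Pool.Agent.H1.PmA
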