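import Mathlib

set_option autoImplicit false

namespace Pool.Agent.H1.PmB

open Matrix
open scoped ComplexOrder

variable {n : ℕ}

lemma spec (H : Matrix (Fin n) (Fin n) ℂ) (hH : H.IsHermitian) :
    ∃ (W : Matrix (Fin n) (Fin n) ℂ) (e : Fin n → ℝ), W * Wᴴ = 1 ∧ Wᴴ * W = 1 ∧
      H = W * (diagonal fun i => (e i : ℂ)) * Wᴴ := by
  refine ⟨hH.eigenvectorUnitary, hH.eigenvalues, ?_, ?_, ?_⟩
  · exact Unitary.coe_mul_star_self hH.eigenvectorUnitary
  · exact Unitary.coe_star_mul_self hH.eigenvectorUnitary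
  · have := hH.spectral_theorem
    rw [Unitary.conjStarAlgAut_apply] at this
    exact this

lemma sqr (W : Matrix (Fin n) (Fin n) ℂ) (e : Fin n → ℝ) (h2 : Wᴴ * W = 1) :
    (W * (diagonal fun i => (e i : ℂ)) * Wᴴ) * (W * (diagonal fun i => (e i : ℂ)) * Wᴴ) =
      W * (diagonal fun i => ((e i ^ 2 : ℝ) : ℂ)) * Wᴴ := by
  simp only [Matrix.mul_assoc]
  rw [← Matrix.mul_assoc Wᴴ W, h2, Matrix.one_mul, ← Matrix.mul_assoc (diagonal _) (diagonal _),
    diagonal_mul_diagonal]
  simp [sq]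

lemma sv (A : Matrix (Fin n) (Fin n) ℂ) (i : Fin (Fintype.card (Fin n))) :
    (toEuclideanLin A).singularValues i ^ 2 =
      (isHermitian_conjTranspose_mul_self A).eigenvalues₀ i := by
  rw [LinearMap.sq_singularValues_fin _ finrank_euclideanSpace i]
  unfold IsHermitian.eigenvalues₀
  congr 1
  rw [← toEuclideanLin_conjTranspose_eq_adjoint]
  exact (toLpLin_mul 2 2 2 Aᴴ A).symm

lemma link (H W : Matrix (Fin n) (Fin n) ℂ) (e : Fin n → ℝ) (hH : H.IsHermitian)
    (h2 : Wᴴ * W = 1) (h : H = W * (diagonal fun i => (e i : ℂ)) * Wᴴ) (q : ℝ) :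
    ∑ i ∈ Finset.range n, (toEuclideanLin H).singularValues i ^ q = ∑ i, |e i| ^ q := by
  have r1 := (isHermitian_conjTranspose_mul_self H).roots_charpoly_eq_eigenvalues₀
  have r2 : (Hᴴ * H).charpoly.roots = Multiset.map (fun i => ((e i ^ 2 : ℝ) : ℂ)) Finset.univ.val := by
    rw [hH.eq, h, sqr W e h2, charpoly_mul_comm, ← Matrix.mul_assoc, h2, Matrix.one_mul,
      charpoly_diagonal, Polynomial.roots_prod _ _
        (Finset.prod_ne_zero_iff.2 fun i _ => Polynomial.X_sub_C_ne_zero _)]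
    simp only [Polynomial.roots_X_sub_C, Multiset.bind_singleton]
  have r3 := congrArg (fun m => (Multiset.map (fun z : ℂ => √z.re ^ q) m).sum) (r1.symm.trans r2)
  simp only [Multiset.map_map, Function.comp_def, ← Finset.sum_eq_multiset_sum, ← sv,
    Complex.ofReal_re, Real.sqrt_sq_eq_abs, Complex.coe_algebraMap, RCLike.ofReal] at r3
  rw [← r3, Fin.sum_univ_eq_sum_range (fun i => |(toEuclideanLin H).singularValues i| ^ q)]
  simp [abs_of_nonneg (LinearMap.singularValues_nonneg _ _)]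

lemma pin (U W : Matrix (Fin n) (Fin n) ℂ) (e : Fin n → ℝ) (u1 : U * Uᴴ = 1) (u2 : Uᴴ * U = 1)
    (h1 : W * Wᴴ = 1) (h2 : Wᴴ * W = 1) (q : ℝ) (hq : 1 ≤ q) :
    ∑ i, |((Uᴴ * (W * (diagonal fun i => (e i : ℂ)) * Wᴴ) * U) i i).re| ^ q ≤ ∑ i, |e i| ^ q := by
  set M := Uᴴ * W with hM
  have m1 : M * Mᴴ = 1 := by
    rw [hM, conjTranspose_mul, conjTranspose_conjTranspose, Matrix.mul_assoc,
      ← Matrix.mul_assoc W, h1, Matrix.one_mul, u2]
  have m2 : Mᴴ * M = 1 := by
    rw [hM, conjTranspose_mul, conjTranspose_conjTranspose, Matrix.mul_assoc,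
      ← Matrix.mul_assoc U, u1, Matrix.one_mul, h2]
  have e1 : Uᴴ * (W * (diagonal fun i => (e i : ℂ)) * Wᴴ) * U =
      M * (diagonal fun i => (e i : ℂ)) * Mᴴ := by
    rw [hM, conjTranspose_mul, conjTranspose_conjTranspose]; simp only [Matrix.mul_assoc]
  have e2 : ∀ i, ((M * (diagonal fun i => (e i : ℂ)) * Mᴴ) i i).re =
      ∑ j, Complex.normSq (M i j) * e j := by
    intro i
    rw [Matrix.mul_apply, Complex.re_sum]
    refine Finset.sum_congr rfl fun j _ => ?_
    simp [Complex.normSq_apply]; ring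
  have r : ∀ i, ∑ j, Complex.normSq (M i j) = 1 := by
    intro i
    have := congrArg Complex.re (congrFun (congrFun m1 i) i)
    simpa [Matrix.mul_apply, Complex.re_sum, Complex.normSq_apply] using this
  have c : ∀ j, ∑ i, Complex.normSq (M i j) = 1 := by
    intro j
    have := congrArg Complex.re (congrFun (congrFun m2 j) j)
    simpa [Matrix.mul_apply, Complex.re_sum, Complex.normSq_apply] using this
  rw [e1]
  calc _ ≤ ∑ i, ∑ j, Complex.normSq (M i j) * |e j| ^ q := by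
        refine Finset.sum_le_sum fun i _ => ?_
        rw [e2]
        refine le_trans ?_ (Real.rpow_arith_mean_le_arith_mean_rpow Finset.univ _ _
          (fun j _ => Complex.normSq_nonneg _) (r i) (fun j _ => abs_nonneg (e j)) hq)
        refine Real.rpow_le_rpow (abs_nonneg _) ((Finset.abs_sum_le_sum_abs _ _).trans
          (le_of_eq ?_)) (by linarith)
        simp [abs_mul, abs_of_nonneg (Complex.normSq_nonneg _)]
    _ = _ := by
        rw [Finset.sum_comm]; simp [← Finset.sum_mul, c]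

lemma two (l k x y q : ℝ) (hl : 0 ≤ l) (hk : 0 ≤ k) (h : l + k ≤ 1) (hq : 1 ≤ q) :
    |l * x - k * y| ^ q ≤ l * |x| ^ q + k * |y| ^ q := by
  have := Real.rpow_arith_mean_le_arith_mean_rpow Finset.univ ![l, k, 1 - l - k] ![|x|, |y|, 0]
    (by intro i _; fin_cases i <;> simp <;> linarith) (by simp [Fin.sum_univ_succ])
    (by intro i _; fin_cases i <;> simp) hq
  simp [Fin.sum_univ_succ, Real.zero_rpow (by linarith : q ≠ 0)] at this
  refine le_trans (Real.rpow_le_rpow (abs_nonneg _) ?_ (by linarith)) this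
  refine (abs_sub _ _).trans (le_of_eq ?_)
  rw [abs_mul, abs_mul, abs_of_nonneg hl, abs_of_nonneg hk]

lemma main (a b : Matrix (Fin n) (Fin n) ℂ) (ha : a.PosSemidef) (hb : b.PosSemidef) (l q : ℝ)
    (h0 : 0 ≤ l) (h1 : l ≤ 1) (hq : 1 ≤ q) :
    ∑ i ∈ Finset.range n, (toEuclideanLin (l • (a * a - b * b) -
      (l * (1 - l)) • ((a - b) * (a - b)))).singularValues i ^ q ≤
    ∑ i ∈ Finset.range n, (toEuclideanLin (a * a - b * b)).singularValues i ^ q := by
  have hD : (a - b).IsHermitian := ha.1.sub hb.1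
  have hE : (a * a - b * b).IsHermitian := by
    simp [IsHermitian, ha.1.eq, hb.1.eq]
  have hF : (l • (a * a - b * b) - (l * (1 - l)) • ((a - b) * (a - b))).IsHermitian := by
    simp [IsHermitian, ha.1.eq, hb.1.eq]
  obtain ⟨V, d, v1, v2, eD⟩ := spec _ hD
  obtain ⟨W, e, w1, w2, eE⟩ := spec _ hE
  obtain ⟨U, f, u1, u2, eF⟩ := spec _ hF
  rw [link _ U f hF u2 eF, link _ W e hE w2 eE]
  have back : ∀ (T : Matrix (Fin n) (Fin n) ℂ) (g : Fin n → ℝ), Tᴴ * T = 1 →
      Tᴴ * (T * (diagonal fun i => (g i : ℂ)) * Tᴴ) * T = diagonal fun i => (g i : ℂ) := by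
    intro T g h
    simp only [← Matrix.mul_assoc, h, Matrix.one_mul]
    rw [Matrix.mul_assoc, h, Matrix.mul_one]
  have p1 := pin U W e u1 u2 w1 w2 q hq
  have p2 := pin U V (fun i => d i ^ 2) u1 u2 v1 v2 q hq
  have p3 := pin V W e v1 v2 w1 w2 q hq
  rw [← sqr V d v2, ← eD] at p2
  rw [← eE] at p1 p3
  have hk : 0 ≤ l * (1 - l) := mul_nonneg h0 (by linarith)
  have k1 : ∀ i, f i = l * ((Uᴴ * (a * a - b * b) * U) i i).re -
      (l * (1 - l)) * ((Uᴴ * ((a - b) * (a - b)) * U) i i).re := by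
    intro i
    have := congrArg Complex.re (congrFun (congrFun (back U f u2) i) i)
    rw [← eF, Matrix.mul_sub, Matrix.sub_mul, Matrix.mul_smul, Matrix.mul_smul, Matrix.smul_mul,
      Matrix.smul_mul] at this
    simpa using this.symm
  have k2 : ∀ i, |d i ^ 2| ≤ |((Vᴴ * (a * a - b * b) * V) i i).re| := by
    intro i
    have hd := back V d v2
    rw [← eD] at hd
    have e1 : Vᴴ * (a * a - b * b) * V = (Vᴴ * a * V) * (Vᴴ * (a - b) * V) +
        (Vᴴ * (a - b) * V) * (Vᴴ * b * V) := by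
      simp only [Matrix.mul_assoc]
      rw [← Matrix.mul_assoc V Vᴴ, ← Matrix.mul_assoc V Vᴴ, v1, Matrix.one_mul, Matrix.one_mul]
      noncomm_ring
    have pa := (Complex.nonneg_iff.1 ((ha.conjTranspose_mul_mul_same V).diag_nonneg (i := i))).1
    have pb := (Complex.nonneg_iff.1 ((hb.conjTranspose_mul_mul_same V).diag_nonneg (i := i))).1
    have e2 := congrArg Complex.re (congrFun (congrFun hd i) i)
    rw [Matrix.mul_sub, Matrix.sub_mul] at e2
    rw [e1, hd]
    simp only [Matrix.add_apply, Matrix.mul_diagonal, Matrix.diagonal_mul, Complex.add_re,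
      Complex.mul_re, Complex.ofReal_re, Complex.ofReal_im, mul_zero, zero_mul, sub_zero]
    simp only [Matrix.sub_apply, Complex.sub_re, diagonal_apply_eq, Complex.ofReal_re] at e2
    generalize ((Vᴴ * a * V) i i).re = x at *
    generalize ((Vᴴ * b * V) i i).re = y at *
    rw [← e2]
    apply sq_le_sq.1
    nlinarith [mul_nonneg (mul_nonneg pa pb) (sq_nonneg (x - y))]
  have p4 : ∑ i, |d i ^ 2| ^ q ≤ ∑ i, |e i| ^ q :=
    (Finset.sum_le_sum fun i _ => Real.rpow_le_rpow (abs_nonneg _) (k2 i) (by linarith)).trans p3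
  calc _ ≤ ∑ i, (l * |((Uᴴ * (a * a - b * b) * U) i i).re| ^ q +
      (l * (1 - l)) * |((Uᴴ * ((a - b) * (a - b)) * U) i i).re| ^ q) :=
        Finset.sum_le_sum fun i _ => by rw [k1]; exact two _ _ _ _ _ h0 hk (by nlinarith) hq
    _ ≤ _ := by
        rw [Finset.sum_add_distrib, ← Finset.mul_sum, ← Finset.mul_sum]
        have z : 0 ≤ ∑ i, |e i| ^ q := Finset.sum_nonneg fun i _ => by positivity
        nlinarith [mul_le_mul_of_nonneg_left p1 h0, mul_le_mul_of_nonneg_left (p2.trans p4) hk,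
          mul_nonneg (sq_nonneg (1 - l)) z]

end Pool.Agent.H1.PmB
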