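import Mathlib

namespace Pool.Agent.H1.Prv

open MeasureTheory Filter Topology Set Metric Complex

noncomputable def Pk (w : ℂ) (t : ℝ) : ℝ := w.im / ((t - w.re) ^ 2 + w.im ^ 2)

lemma Pk_nonneg {w : ℂ} (hw : 0 < w.im) (t : ℝ) : 0 ≤ Pk w t := by unfold Pk; positivity

lemma Pk_le {w : ℂ} (hw : 0 < w.im) (t : ℝ) : Pk w t ≤ 1 / w.im := by
  unfold Pk
  rw [div_le_div_iff₀ (by positivity) hw]
  nlinarith [sq_nonneg (t - w.re)]

lemma Pk_cont {w : ℂ} (hw : 0 < w.im) : Continuous (Pk w) := by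
  unfold Pk
  exact Continuous.div (by fun_prop) (by fun_prop) fun t => by positivity

lemma Pk_int {w : ℂ} (hw : 0 < w.im) (a b : ℝ) :
    ∫ t in (w.re + a * w.im)..(w.re + b * w.im), Pk w t = Real.arctan b - Real.arctan a := by
  have h : ∀ t, HasDerivAt (fun t => Real.arctan ((t - w.re) / w.im)) (Pk w t) t := by
    intro t
    have := (((hasDerivAt_id t).sub_const w.re).div_const w.im).arctan
    refine this.congr_deriv ?_
    unfold Pk
    simp only [id]
    field_simp
    ring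
  rw [intervalIntegral.integral_eq_sub_of_hasDerivAt (fun t _ => h t)
    ((Pk_cont hw).intervalIntegrable _ _)]
  congr 2 <;> field_simp <;> ring

noncomputable def vF (F : Set ℝ) (w : ℂ) : ℝ := ∫ t in F, Pk w t
noncomputable def HF (F : Set ℝ) (w : ℂ) : ℂ := ∫ t in F, I / (w - t)

lemma sub_ne {w : ℂ} (hw : 0 < w.im) (t : ℝ) : w - t ≠ 0 := fun h => by
  have := congrArg Complex.im h
  simp at this; linarith

lemma im_le_norm (w : ℂ) (t : ℝ) : w.im ≤ ‖w - t‖ := by
  have := Complex.im_le_norm (w - t)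
  simpa using this

lemma intOn {E : Type} [NormedAddCommGroup E] {f : ℝ → E} (hf : Continuous f) {F : Set ℝ} {a b : ℝ}
    (hF : F ⊆ Icc a b) : IntegrableOn f F :=
  (hf.continuousOn.integrableOn_compact isCompact_Icc).mono_set hF

lemma ker_cont {w : ℂ} (hw : 0 < w.im) : Continuous fun t : ℝ => I / (w - t) :=
  Continuous.div (by fun_prop) (by fun_prop) (sub_ne hw)

lemma HF_re {F : Set ℝ} {a b : ℝ} (hF : F ⊆ Icc a b) {w : ℂ} (hw : 0 < w.im) :
    (HF F w).re = vF F w := by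
  have := integral_re (𝕜 := ℂ) (intOn (ker_cont hw) hF)
  rw [HF, vF, ← RCLike.re_to_complex, ← this]
  congr 1; funext t
  simp only [RCLike.re_to_complex, Complex.div_re, Complex.normSq_apply, Pk, I_re, I_im, sub_re,
    sub_im, ofReal_re, ofReal_im]
  ring

lemma HF_diff {F : Set ℝ} {a b : ℝ} (hF : F ⊆ Icc a b) {w : ℂ} (hw : 0 < w.im) :
    DifferentiableAt ℂ (HF F) w := by
  have hfin : IsFiniteMeasure (volume.restrict F) :=
    ⟨by rw [Measure.restrict_apply_univ]; exact (measure_mono hF).trans_lt measure_Icc_lt_top⟩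
  have hb : ∀ z ∈ ball w (w.im / 2), w.im / 2 ≤ z.im := by
    intro z hz
    have h1 := Complex.abs_im_le_norm (z - w)
    rw [mem_ball, dist_eq_norm] at hz
    rw [sub_im, abs_le] at h1
    linarith [h1.1]
  have h := hasDerivAt_integral_of_dominated_loc_of_deriv_le (μ := volume.restrict F)
    (F := fun z (t : ℝ) => I / (z - t)) (F' := fun z (t : ℝ) => -I / (z - t) ^ 2) (x₀ := w)
    (bound := fun _ => 1 / (w.im / 2) ^ 2) (ball_mem_nhds w (by linarith : 0 < w.im / 2))
    (by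
      filter_upwards [ball_mem_nhds w (by linarith : 0 < w.im / 2)] with z hz
      exact (ker_cont (by linarith [hb z hz])).aestronglyMeasurable)
    (intOn (ker_cont hw) hF)
    ((Continuous.div (by fun_prop) (by fun_prop) fun t => pow_ne_zero 2 (sub_ne hw t)).aestronglyMeasurable)
    (Eventually.of_forall fun t z hz => by
      rw [norm_div, norm_neg, norm_I, norm_pow]
      have := (hb z hz).trans (im_le_norm z t)
      gcongr)
    (integrable_const _)
    (Eventually.of_forall fun t z hz => by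
      have hz' : z - t ≠ 0 := sub_ne (by linarith [hb z hz]) t
      have := (hasDerivAt_const z I).div ((hasDerivAt_id z).sub_const (t : ℂ)) hz'
      refine this.congr_deriv ?_
      simp)
  exact h.2.differentiableAt

lemma vF_mono {F G : Set ℝ} {a b : ℝ} (h : F ⊆ G) (hG : G ⊆ Icc a b) {w : ℂ} (hw : 0 < w.im) :
    vF F w ≤ vF G w :=
  setIntegral_mono_set (intOn (Pk_cont hw) hG) (Eventually.of_forall (Pk_nonneg hw)) h.eventuallyLE

lemma vF_Icc {w : ℂ} (hw : 0 < w.im) {a b : ℝ} (hab : a ≤ b) :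
    vF (Icc (w.re + a * w.im) (w.re + b * w.im)) w = Real.arctan b - Real.arctan a := by
  rw [vF, integral_Icc_eq_integral_Ioc, ← intervalIntegral.integral_of_le (by nlinarith), Pk_int hw]

lemma exists_R {a b : ℝ} {w : ℂ} (hw : 0 < w.im) :
    ∃ R, 1 ≤ R ∧ Icc a b ⊆ Icc (w.re + -R * w.im) (w.re + R * w.im) := by
  refine ⟨1 + (|a - w.re| + |b - w.re|) / w.im, by
    have : 0 ≤ (|a - w.re| + |b - w.re|) / w.im := by positivity
    linarith, Icc_subset_Icc ?_ ?_⟩
  · rw [neg_mul, add_mul, div_mul_cancel₀ _ hw.ne']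
    linarith [neg_abs_le (a - w.re), abs_nonneg (b - w.re)]
  · rw [add_mul, div_mul_cancel₀ _ hw.ne']
    linarith [le_abs_self (b - w.re), abs_nonneg (a - w.re)]

lemma vF_le_pi {F : Set ℝ} {a b : ℝ} (hF : F ⊆ Icc a b) {w : ℂ} (hw : 0 < w.im) :
    vF F w ≤ Real.pi := by
  obtain ⟨R, hR, h⟩ := exists_R (a := a) (b := b) hw
  refine (vF_mono (hF.trans h) subset_rfl hw).trans ?_
  rw [vF_Icc hw (by linarith)]
  linarith [Real.arctan_lt_pi_div_two R, Real.neg_pi_div_two_lt_arctan (-R)]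

lemma vF_union_le {F G : Set ℝ} {a b : ℝ} (hF : F ⊆ Icc a b) (hG : G ⊆ Icc a b)
    (hm : MeasurableSet G) {w : ℂ} (hw : 0 < w.im) : vF (F ∪ G) w ≤ vF F w + vF G w := by
  rw [← sdiff_union_self, vF, setIntegral_union disjoint_sdiff_left hm
    (intOn (Pk_cont hw) (sdiff_subset.trans hF)) (intOn (Pk_cont hw) hG)]
  exact add_le_add_left (vF_mono sdiff_subset hF hw) _

lemma vF_gap {F : Set ℝ} {a b : ℝ} (hF : F ⊆ Icc a b) {w : ℂ} (hw : 0 < w.im)
    (hg : ∀ t ∈ F, 2 * w.im ≤ ‖w - t‖) : vF F w ≤ Real.pi / 2 := by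
  obtain ⟨R, hR, h⟩ := exists_R (a := a) (b := b) hw
  have h1 : Icc (w.re + -R * w.im) (w.re + -1 * w.im) ⊆ Icc (w.re + -R * w.im) (w.re + R * w.im) :=
    Icc_subset_Icc_right (by nlinarith)
  have h2 : Icc (w.re + 1 * w.im) (w.re + R * w.im) ⊆ Icc (w.re + -R * w.im) (w.re + R * w.im) :=
    Icc_subset_Icc_left (by nlinarith)
  have hs : F ⊆ Icc (w.re + -R * w.im) (w.re + -1 * w.im) ∪
      Icc (w.re + 1 * w.im) (w.re + R * w.im) := by
    intro t ht
    have h3 := h (hF ht)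
    have h4 := (hg t ht).trans (Complex.norm_le_abs_re_add_abs_im _)
    simp only [sub_re, ofReal_re, sub_im, ofReal_im, sub_zero, abs_of_pos hw] at h4
    rcases le_total t w.re with h5 | h5
    · left; rw [abs_of_nonneg (by linarith)] at h4; exact ⟨h3.1, by linarith⟩
    · right; rw [abs_of_nonpos (by linarith)] at h4; exact ⟨by linarith, h3.2⟩
  refine (vF_mono hs (union_subset h1 h2) hw).trans ((vF_union_le h1 h2 measurableSet_Icc hw).trans ?_)
  rw [vF_Icc hw (by linarith), vF_Icc hw hR, Real.arctan_neg, Real.arctan_neg, Real.arctan_one]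
  linarith [Real.arctan_lt_pi_div_two R]

lemma vF_le_vol {F : Set ℝ} {a b : ℝ} (hF : F ⊆ Icc a b) {w : ℂ} (hw : 0 < w.im) :
    vF F w ≤ 1 / w.im * volume.real F := by
  refine (le_abs_self _).trans ?_
  exact norm_setIntegral_le_of_norm_le_const (μ := volume)
    ((measure_mono hF).trans_lt measure_Icc_lt_top)
    fun t _ => by rw [Real.norm_of_nonneg (Pk_nonneg hw t)]; exact Pk_le hw t

lemma maxp {G : ℂ → ℂ} (hG : DifferentiableOn ℂ G {w | 0 < w.im}) {F : Set ℝ} {a : ℝ}
    (hF : F ⊆ Icc a (a + 1)) {B M δ : ℝ} (hM : 0 ≤ M) (hδ : 0 < δ)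
    (h1 : ∀ t ∈ F, ∀ w : ℂ, ‖w - t‖ < 3 * w.im → w.im ≤ 1 → ‖G w‖ ≤ B)
    (h2 : ∀ t ∈ F, ∀ w : ℂ, ‖w - t‖ < 3 * w.im → w.im ≤ δ → ‖G w‖ ≤ B * Real.exp (-(M * (Real.pi / 2))))
    {w0 : ℂ} (hw0 : 0 < w0.im) (hw1 : w0.im < 1) (hv : Real.pi / 2 < vF F w0) :
    ‖G w0‖ * Real.exp (M * (vF F w0 - Real.pi / 2)) ≤ B := by
  obtain ⟨ε, hε0, hε1⟩ := exists_between (lt_min hw0 hδ)
  rw [lt_min_iff] at hε1
  let U : Set ℂ := {w | ε < w.im ∧ w.im < 1 ∧ ∃ t ∈ F, ‖w - t‖ < 2 * w.im}
  have hU : IsOpen U := by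
    refine (isOpen_lt continuous_const continuous_im).inter
      ((isOpen_lt continuous_im continuous_const).inter ?_)
    have : {w : ℂ | ∃ t ∈ F, ‖w - t‖ < 2 * w.im} = ⋃ t ∈ F, {w : ℂ | ‖w - t‖ < 2 * w.im} := by
      ext w; simp
    show IsOpen {w : ℂ | ∃ t ∈ F, ‖w - t‖ < 2 * w.im}
    rw [this]
    exact isOpen_biUnion fun t _ => isOpen_lt (by fun_prop) (by fun_prop)
  have hcl : ∀ w ∈ closure U, ε ≤ w.im ∧ w.im ≤ 1 ∧ ∃ t ∈ F, ‖w - t‖ < 3 * w.im := by
    intro w hw
    have a1 : ε ≤ w.im := closure_minimal (fun z hz => hz.1.le)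
      (isClosed_le continuous_const continuous_im) hw
    have a2 : w.im ≤ 1 := closure_minimal (fun z hz => hz.2.1.le)
      (isClosed_le continuous_im continuous_const) hw
    obtain ⟨z, ⟨-, -, t, ht, hz⟩, hd⟩ := Metric.mem_closure_iff.1 hw (ε / 3) (by linarith)
    refine ⟨a1, a2, t, ht, ?_⟩
    rw [dist_eq_norm] at hd
    have b1 := norm_add_le (w - z) (z - t)
    have b2 := Complex.abs_im_le_norm (w - z)
    rw [sub_add_sub_cancel] at b1
    rw [sub_im, abs_le] at b2
    linarith [b2.1]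
  have hop : IsOpen {w : ℂ | 0 < w.im} := isOpen_lt continuous_const continuous_im
  have hn : ∀ w : ℂ, 0 < w.im → ‖G w * exp (M * (HF F w - Real.pi / 2))‖ =
      ‖G w‖ * Real.exp (M * (vF F w - Real.pi / 2)) := by
    intro w hw
    rw [norm_mul, Complex.norm_exp, ← HF_re hF hw]
    congr 2; simp
  rw [← hn w0 hw0]
  refine norm_le_of_forall_mem_frontier_norm_le (f := fun w => G w * exp (M * (HF F w - Real.pi / 2)))
    (U := U) ?_ ?_ ?_ (subset_closure ⟨hε1.1, hw1, ?_⟩)
  · refine (isBounded_ball (x := (a : ℂ)) (r := 3)).subset ?_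
    rintro w ⟨-, h3, t, ht, h4⟩
    have b1 := norm_add_le (w - t) ((t : ℂ) - a)
    rw [sub_add_sub_cancel, ← ofReal_sub, norm_real, Real.norm_of_nonneg (by linarith [(hF ht).1])] at b1
    rw [mem_ball, dist_eq_norm]
    linarith [(hF ht).2]
  · refine DifferentiableOn.diffContOnCl fun w hw => DifferentiableAt.differentiableWithinAt ?_
    have h0 : 0 < w.im := hε0.trans_le (hcl w hw).1
    exact (hG.differentiableAt (hop.mem_nhds h0)).mul
      ((((HF_diff hF h0).sub_const _).const_mul _).cexp)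
  · intro w hw
    rw [hU.frontier_eq] at hw
    obtain ⟨a1, a2, t, ht, a3⟩ := hcl w hw.1
    have h0 : 0 < w.im := hε0.trans_le a1
    have hB : 0 ≤ B := (norm_nonneg _).trans (h1 t ht w a3 a2)
    rw [hn w h0]
    by_cases hc : vF F w ≤ Real.pi / 2
    · have : Real.exp (M * (vF F w - Real.pi / 2)) ≤ 1 :=
        Real.exp_le_one_iff.2 (mul_nonpos_of_nonneg_of_nonpos hM (by linarith))
      exact (mul_le_mul (h1 t ht w a3 a2) this (by positivity) hB).trans (by rw [mul_one])
    · have b1 : w.im < 1 := by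
        refine lt_of_le_of_ne a2 fun h => hc ?_
        have := vF_le_vol hF h0
        have b2 : volume.real F ≤ 1 := by
          have := measureReal_mono (μ := volume) hF measure_Icc_lt_top.ne
          simpa using this
        rw [h] at this
        linarith [Real.pi_gt_three]
      have b2 : ∃ t ∈ F, ‖w - t‖ < 2 * w.im := by
        by_contra h
        push Not at h
        exact hc (vF_gap hF h0 h)
      have b3 : w.im ≤ δ := by
        by_contra h
        exact hw.2 ⟨by linarith [not_le.1 h, hε1.2], b1, b2⟩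
      have b4 : Real.exp (M * (vF F w - Real.pi / 2)) ≤ Real.exp (M * (Real.pi / 2)) :=
        Real.exp_le_exp.2 (mul_le_mul_of_nonneg_left (by linarith [vF_le_pi hF h0]) hM)
      refine (mul_le_mul (h2 t ht w a3 b3) b4 (by positivity) (by positivity)).trans (le_of_eq ?_)
      rw [mul_assoc, ← Real.exp_add, neg_add_cancel, Real.exp_zero, mul_one]
  · by_contra h
    push Not at h
    linarith [vF_gap hF hw0 h]

def Cs (G : ℂ → ℂ) (η δ : ℝ) : Set ℝ := {t | ∀ w : ℂ, ‖w - t‖ < 3 * w.im → w.im ≤ δ → ‖G w‖ ≤ η}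

lemma Cs_closed (G : ℂ → ℂ) (η δ : ℝ) : IsClosed (Cs G η δ) := by
  have : Cs G η δ = ⋂ w ∈ {w : ℂ | w.im ≤ δ ∧ η < ‖G w‖}, {t : ℝ | 3 * w.im ≤ ‖w - t‖} := by
    ext t
    simp only [Cs, mem_ofPred_eq, mem_iInter, and_imp]
    exact ⟨fun h w h1 h2 => not_lt.1 fun h3 => absurd (h w h3 h1) (not_le.2 h2),
      fun h w h1 h2 => not_lt.1 fun h3 => absurd (h w h2 h3) (not_le.2 h1)⟩
  exact this ▸ isClosed_biInter fun w _ => isClosed_le continuous_const (by fun_prop)

/-- Privalov's uniqueness theorem in the upper half-plane, for functions bounded on cones -/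
theorem privalov {G : ℂ → ℂ} (hG : DifferentiableOn ℂ G {w | 0 < w.im}) {B : ℝ} (hB : 0 < B)
    {K : Set ℝ} (h1 : ∀ t ∈ K, t ∈ Cs G B 1) (h2 : ∀ t ∈ K, ∀ η > 0, ∃ δ > 0, t ∈ Cs G η δ)
    (hK : volume K ≠ 0) : ∀ w : ℂ, 0 < w.im → G w = 0 := by
  let S : Set ℝ := Cs G B 1 ∩ ⋂ i : ℕ, ⋃ m : ℕ, Cs G (1 / ((i : ℝ) + 1)) (1 / ((m : ℝ) + 1))
  have hS : MeasurableSet S := (Cs_closed _ _ _).measurableSet.inter
    (MeasurableSet.iInter fun i => MeasurableSet.iUnion fun m => (Cs_closed _ _ _).measurableSet)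
  have hKS : K ⊆ S := fun t ht => ⟨h1 t ht, mem_iInter.2 fun i => by
    obtain ⟨δ, hδ, h⟩ := h2 t ht (1 / ((i : ℝ) + 1)) (by positivity)
    obtain ⟨m, hm⟩ := exists_nat_one_div_lt hδ
    exact mem_iUnion.2 ⟨m, fun w a b => h w a (b.trans hm.le)⟩⟩
  obtain ⟨x, hxS, hx⟩ : ∃ x ∈ S, Tendsto (fun r => volume (Sᶜ ∩ closedBall x r) /
      volume (closedBall x r)) (𝓝[>] 0) (𝓝 0) := by
    by_contra h
    push Not at h
    refine hK (measure_mono_null hKS (measure_mono_null (fun x hx => ?_)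
      (Besicovitch.ae_tendsto_measure_inter_div_of_measurableSet volume hS.compl)))
    intro h'
    rw [mem_ofPred_eq, indicator_of_notMem (by simpa using hx)] at h'
    exact h x hx h'
  set κ := Real.arctan 2 - Real.pi / 4 with hκ
  have hκ0 : 0 < κ := by
    rw [hκ, ← Real.arctan_one]; exact sub_pos.2 (Real.arctan_strictMono (by norm_num))
  obtain ⟨r, ⟨hr1, hr2⟩, hr0⟩ := (((hx.eventually_lt_const (show (0 : ENNReal) < ENNReal.ofReal (κ / 8) by
    simpa using hκ0)).and (nhdsWithin_le_nhds (Iio_mem_nhds (by norm_num : (0 : ℝ) < 1 / 2)))).and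
    self_mem_nhdsWithin).exists
  have hr0' : 0 < r := hr0
  have hr2' : r < 1 / 2 := hr2
  let S' := S ∩ Icc (x - 1 / 2) (x - 1 / 2 + 1)
  have hS' : S' ⊆ Icc (x - 1 / 2) (x - 1 / 2 + 1) := inter_subset_right
  let w0 : ℂ := ⟨x, r / 2⟩
  have hw0 : 0 < w0.im := half_pos hr0'
  have hv0 : Real.pi / 2 + κ < vF S' w0 := by
    have a1 := vF_Icc hw0 (show (-2 : ℝ) ≤ 2 by norm_num)
    have e : Icc (w0.re + -2 * w0.im) (w0.re + 2 * w0.im) = closedBall x r := by
      rw [Real.closedBall_eq_Icc]; congr 1 <;> simp [w0] <;> ring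
    have hb : closedBall x r ⊆ Icc (x - 1 / 2) (x - 1 / 2 + 1) := by
      rw [Real.closedBall_eq_Icc]; exact Icc_subset_Icc (by linarith) (by linarith)
    rw [e, Real.arctan_neg] at a1
    have a2 := vF_mono (F := closedBall x r) (G := S' ∪ Sᶜ ∩ closedBall x r) (fun t ht => by
      by_cases h : t ∈ S
      · exact Or.inl ⟨h, hb ht⟩
      · exact Or.inr ⟨h, ht⟩) (union_subset hS' (inter_subset_right.trans hb)) hw0
    have a3 := vF_union_le hS' (inter_subset_right.trans hb) (hS.compl.inter measurableSet_closedBall) hw0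
    have a4 := vF_le_vol (inter_subset_right.trans hb : Sᶜ ∩ closedBall x r ⊆ _) hw0
    have a5 : volume.real (Sᶜ ∩ closedBall x r) ≤ κ / 8 * (2 * r) := by
      rw [Real.volume_closedBall, ENNReal.div_lt_iff (Or.inl (by simpa using hr0'))
        (Or.inl ENNReal.ofReal_ne_top), ← ENNReal.ofReal_mul (by positivity)] at hr1
      exact ENNReal.toReal_le_of_le_ofReal (by positivity) hr1.le
    have a6 : 1 / w0.im * volume.real (Sᶜ ∩ closedBall x r) ≤ κ / 2 := by
      refine (mul_le_mul_of_nonneg_left a5 (by positivity)).trans (le_of_eq ?_)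
      simp only [w0]; field_simp; ring
    linarith
  have hop : IsOpen {w : ℂ | 0 < w.im} := isOpen_lt continuous_const continuous_im
  have hev : G =ᶠ[𝓝 w0] 0 := by
    have c1 : ContinuousAt (fun w => (HF S' w).re) w0 :=
      continuous_re.continuousAt.comp (HF_diff hS' hw0).continuousAt
    have c2 := c1.eventually (lt_mem_nhds (show Real.pi / 2 + κ < (HF S' w0).re by
      rw [HF_re hS' hw0]; exact hv0))
    have c3 : ∀ᶠ w : ℂ in 𝓝 w0, w.im < 1 :=
      continuous_im.continuousAt.eventually (gt_mem_nhds (show w0.im < 1 by simp only [w0]; linarith))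
    filter_upwards [c2, c3, hop.mem_nhds hw0] with w a1 a2 a3
    rw [HF_re hS' a3] at a1
    have key : ∀ M : ℕ, ‖G w‖ * Real.exp (M * κ) ≤ B := by
      intro M
      obtain ⟨i, hi⟩ := exists_nat_one_div_lt (show 0 < B * Real.exp (-(M * (Real.pi / 2))) by positivity)
      let F : ℕ → Set ℝ := fun m => S' ∩ Cs G (1 / ((i : ℝ) + 1)) (1 / ((m : ℝ) + 1))
      have hFu : ⋃ m, F m = S' := by
        rw [← inter_iUnion, inter_eq_left]
        exact fun t ht => mem_iInter.1 ht.1.2 i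
      have ht := tendsto_setIntegral_of_monotone (s := F) (f := Pk w) (μ := volume)
        (fun m => (hS.inter measurableSet_Icc).inter (Cs_closed _ _ _).measurableSet)
        (fun m n hmn => inter_subset_inter_right _ fun t ht w a b =>
          ht w a (b.trans (Nat.one_div_le_one_div hmn))) (hFu ▸ intOn (Pk_cont a3) hS')
      rw [hFu] at ht
      obtain ⟨m, hm⟩ := (ht.eventually_const_lt a1).exists
      have hm' : Real.pi / 2 + κ < vF (F m) w := hm
      have := maxp hG (F := F m) (inter_subset_left.trans hS') (B := B) (M := M) (Nat.cast_nonneg M)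
        (δ := 1 / ((m : ℝ) + 1)) (by positivity) (fun t ht => ht.1.1.1)
        (fun t ht w a b => (ht.2 w a b).trans hi.le) a3 a2 (by linarith)
      refine le_trans (mul_le_mul_of_nonneg_left (Real.exp_le_exp.2 ?_) (norm_nonneg _)) this
      exact mul_le_mul_of_nonneg_left (by linarith) (Nat.cast_nonneg M)
    by_contra h0
    have h3 : 0 < ‖G w‖ := norm_pos_iff.2 h0
    obtain ⟨M, hM⟩ := exists_nat_gt (B / (‖G w‖ * κ))
    rw [div_lt_iff₀ (by positivity)] at hM
    have h4 := mul_le_mul_of_nonneg_left (Real.add_one_le_exp (M * κ)) h3.le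
    nlinarith [key M]
  exact (hG.analyticOnNhd hop).eqOn_zero_of_preconnected_of_eventuallyEq_zero
    (convex_halfSpace_im_gt 0).isPreconnected hw0 hev

end Pool.Agent.H1.Prv
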