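import Pool.Agent.H1.PshDefs

namespace Pool.Agent.H1.Psh

open Metric Filter Topology Set MeasureTheory Real

variable {n : ℕ}

noncomputable def tr (u : EuclideanSpace ℂ (Fin n) → EReal) (M : ℝ)
    (z : EuclideanSpace ℂ (Fin n)) : ℝ := (max (u z) (M : EReal)).toReal

noncomputable def circ (a b : EuclideanSpace ℂ (Fin n)) (θ : ℝ) : EuclideanSpace ℂ (Fin n) :=
  a + Complex.exp ((θ : ℂ) * Complex.I) • b

lemma circ_cont (a b : EuclideanSpace ℂ (Fin n)) : Continuous (circ a b) := by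
  unfold circ; fun_prop

lemma coe_tr {a : EReal} (ha : a ≠ ⊤) (M : ℝ) : (((max a (M : EReal)).toReal : ℝ) : EReal) =
    max a (M : EReal) := by
  refine EReal.coe_toReal ?_ ?_
  · rcases le_total a M with h | h
    · rw [max_eq_right h]; exact EReal.coe_ne_top M
    · rw [max_eq_left h]; exact ha
  · exact ((EReal.bot_lt_coe M).trans_le (le_max_right _ _)).ne'

lemma tr_lt {a : EReal} (ha : a ≠ ⊤) (M y : ℝ) :
    (max a (M : EReal)).toReal < y ↔ a < y ∧ M < y := by
  rw [← EReal.coe_lt_coe_iff, coe_tr ha, max_lt_iff, EReal.coe_lt_coe_iff]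

lemma le_tr {a : EReal} (ha : a ≠ ⊤) (M : ℝ) : M ≤ (max a (M : EReal)).toReal := by
  rw [← EReal.coe_le_coe_iff, coe_tr ha]; exact le_max_right _ _

lemma tr_usc {U : Set (EuclideanSpace ℂ (Fin n))} {u : EuclideanSpace ℂ (Fin n) → EReal}
    (h : PSH U u) (M : ℝ) : UpperSemicontinuousOn (tr u M) U := by
  intro x hx y hy
  obtain ⟨h1, h2⟩ := (tr_lt (h.2.1 x hx) M y).1 hy
  filter_upwards [h.1 x hx y h1, self_mem_nhdsWithin] with z hz hzU
  exact (tr_lt (h.2.1 z hzU) M y).2 ⟨hz, h2⟩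

lemma circ_mem {U : Set (EuclideanSpace ℂ (Fin n))} {a b : EuclideanSpace ℂ (Fin n)}
    (hU : ∀ z : ℂ, ‖z‖ ≤ 1 → a + z • b ∈ U) (θ : ℝ) : circ a b θ ∈ U :=
  hU _ (Complex.norm_exp_ofReal_mul_I θ).le

lemma tr_int {U : Set (EuclideanSpace ℂ (Fin n))} {u : EuclideanSpace ℂ (Fin n) → EReal}
    (h : PSH U u) (M : ℝ) {a b : EuclideanSpace ℂ (Fin n)}
    (hU : ∀ z : ℂ, ‖z‖ ≤ 1 → a + z • b ∈ U) (s t : ℝ) :
    IntervalIntegrable (fun θ => tr u M (circ a b θ)) volume s t := by
  have h1 : UpperSemicontinuousOn (tr u M ∘ circ a b) univ :=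
    (tr_usc h M).comp (circ_cont a b).continuousOn fun θ _ => circ_mem hU θ
  obtain ⟨C, hC⟩ := (h1.mono (subset_univ (uIcc s t))).bddAbove_of_isCompact isCompact_uIcc
  have h2 : Measurable (tr u M ∘ circ a b) := (upperSemicontinuousOn_univ_iff.1 h1).measurable
  refine (intervalIntegrable_const (c := |C| + |M|)).mono_fun' h2.aestronglyMeasurable ?_
  refine (ae_restrict_iff' measurableSet_uIoc).2 (Eventually.of_forall fun θ hθ => ?_)
  have h3 : tr u M (circ a b θ) ≤ C := hC ⟨θ, uIoc_subset_uIcc hθ, rfl⟩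
  have h4 : M ≤ tr u M (circ a b θ) := le_tr (h.2.1 _ (circ_mem hU θ)) M
  simp only [Real.norm_eq_abs, abs_le]
  constructor <;> cases abs_cases C <;> cases abs_cases M <;> linarith

lemma tr_sub {U : Set (EuclideanSpace ℂ (Fin n))} {u : EuclideanSpace ℂ (Fin n) → EReal}
    (h : PSH U u) (M : ℝ) {a b : EuclideanSpace ℂ (Fin n)}
    (hU : ∀ z : ℂ, ‖z‖ ≤ 1 → a + z • b ∈ U) :
    2 * π * tr u M a ≤ ∫ θ in (0 : ℝ)..(2 * π), tr u M (circ a b θ) := by
  have ha : a ∈ U := by simpa using hU 0 (by simp)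
  have hpi : 0 < 2 * π := by positivity
  have h1 := h.2.2 a b hU M
  have h2 : 2 * π * M ≤ ∫ θ in (0 : ℝ)..(2 * π), tr u M (circ a b θ) := by
    have := intervalIntegral.integral_mono_on hpi.le (intervalIntegrable_const (c := M))
      (tr_int h M hU 0 (2 * π)) fun θ _ => le_tr (h.2.1 _ (circ_mem hU θ)) M
    simpa using this
  have h3 : tr u M a ≤ (2 * π)⁻¹ * ∫ θ in (0 : ℝ)..(2 * π), tr u M (circ a b θ) := by
    rw [← EReal.coe_le_coe_iff]
    unfold tr
    rw [coe_tr (h.2.1 a ha)]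
    refine max_le h1 (EReal.coe_le_coe_iff.2 ?_)
    rw [le_inv_mul_iff₀ hpi]
    exact h2
  rwa [le_inv_mul_iff₀ hpi] at h3

lemma int_normsq (a b : EuclideanSpace ℂ (Fin n)) :
    ∫ θ in (0 : ℝ)..(2 * π), ‖circ a b θ‖ ^ 2 = 2 * π * (‖a‖ ^ 2 + ‖b‖ ^ 2) := by
  have e : ∀ θ : ℝ, ‖circ a b θ‖ ^ 2 = (‖a‖ ^ 2 + ‖b‖ ^ 2) +
      (2 * (inner ℂ a b).re * cos θ - 2 * (inner ℂ a b).im * sin θ) := by
    intro θ
    unfold circ
    rw [norm_add_sq (𝕜 := ℂ), inner_smul_right, norm_smul, Complex.norm_exp_ofReal_mul_I]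
    simp [Complex.exp_ofReal_mul_I_re, Complex.exp_ofReal_mul_I_im]
    ring
  simp only [e]
  rw [intervalIntegral.integral_add (by simp) (Continuous.intervalIntegrable (by fun_prop) _ _),
    intervalIntegral.integral_sub (Continuous.intervalIntegrable (by fun_prop) _ _)
      (Continuous.intervalIntegrable (by fun_prop) _ _), intervalIntegral.integral_const_mul,
    intervalIntegral.integral_const_mul]
  simp
  ring

/-- maximum principle -/
lemma ball_bot (hn : 1 ≤ n) {U : Set (EuclideanSpace ℂ (Fin n))}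
    {u : EuclideanSpace ℂ (Fin n) → EReal} (h : PSH U u) {r : ℝ} (hr : 0 < r)
    (hU : closedBall 0 r ⊆ U) (hs : ∀ z ∈ sphere (0 : EuclideanSpace ℂ (Fin n)) r, u z = ⊥) :
    ∀ z ∈ closedBall (0 : EuclideanSpace ℂ (Fin n)) r, u z = ⊥ := by
  have key : ∀ M : ℝ, ∀ z ∈ closedBall (0 : EuclideanSpace ℂ (Fin n)) r,
      tr u M z ≤ M + r ^ 2 := by
    intro M z hz
    have h1 : UpperSemicontinuousOn (fun z => tr u M z + ‖z‖ ^ 2) (closedBall 0 r) :=
      ((tr_usc h M).mono hU).add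
        ((Continuous.upperSemicontinuous (by fun_prop)).upperSemicontinuousOn _)
    obtain ⟨y, hy, hmax⟩ := h1.exists_isMaxOn (nonempty_closedBall.2 hr.le)
      (isCompact_closedBall 0 r)
    have hys : y ∈ sphere (0 : EuclideanSpace ℂ (Fin n)) r := by
      by_contra hns
      have hy1 : ‖y‖ < r := by
        rw [mem_closedBall_zero_iff] at hy
        exact lt_of_le_of_ne hy fun h => hns (mem_sphere_zero_iff_norm.2 h)
      set b : EuclideanSpace ℂ (Fin n) := EuclideanSpace.single ⟨0, hn⟩ ((r - ‖y‖ : ℝ) : ℂ)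
      have hb : ‖b‖ = r - ‖y‖ := by
        simp only [b, PiLp.norm_single, Complex.norm_real, Real.norm_eq_abs]
        exact abs_of_pos (by linarith)
      have hd : ∀ z : ℂ, ‖z‖ ≤ 1 → y + z • b ∈ closedBall (0 : EuclideanSpace ℂ (Fin n)) r := by
        intro z hz
        rw [mem_closedBall_zero_iff]
        calc ‖y + z • b‖ ≤ ‖y‖ + ‖z‖ * ‖b‖ := by rw [← norm_smul]; exact norm_add_le _ _
          _ ≤ ‖y‖ + 1 * ‖b‖ := by gcongr
          _ = r := by rw [hb]; ring
      have h2 := tr_sub h M fun z hz => hU (hd z hz)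
      have hi := tr_int h M (fun z hz => hU (hd z hz)) 0 (2 * π)
      have hi2 : IntervalIntegrable (fun θ => ‖circ y b θ‖ ^ 2) volume 0 (2 * π) :=
        Continuous.intervalIntegrable ((circ_cont y b).norm.pow 2) _ _
      have h3 := intervalIntegral.integral_mono_on (by positivity : (0 : ℝ) ≤ 2 * π) (hi.add hi2)
        (intervalIntegrable_const (c := tr u M y + ‖y‖ ^ 2)) fun θ _ => hmax (circ_mem hd θ)
      rw [intervalIntegral.integral_add hi hi2, int_normsq] at h3
      simp only [intervalIntegral.integral_const, sub_zero, smul_eq_mul] at h3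
      have h4 : 0 < 2 * π * ‖b‖ ^ 2 := by
        have : 0 < ‖b‖ := by rw [hb]; linarith
        positivity
      nlinarith
    have h5 : tr u M z + ‖z‖ ^ 2 ≤ tr u M y + ‖y‖ ^ 2 := hmax hz
    have h6 : tr u M y = M := by simp [tr, hs y hys]
    rw [h6, mem_sphere_zero_iff_norm.1 hys] at h5
    nlinarith [sq_nonneg ‖z‖]
  intro z hz
  refine (EReal.eq_bot_iff_forall_lt _).2 fun y => ?_
  exact ((tr_lt (h.2.1 z (hU hz)) (y - r ^ 2 - 1) y).1
    (by have := key (y - r ^ 2 - 1) z hz; unfold tr at this; linarith)).1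

/-- propagation of the value `⊥` -/
lemma all_bot {U : Set (EuclideanSpace ℂ (Fin n))} (hUo : IsOpen U) (hUc : IsPreconnected U)
    {u : EuclideanSpace ℂ (Fin n) → EReal} (h : PSH U u)
    (hne : (U ∩ interior {z | u z = ⊥}).Nonempty) : ∀ z ∈ U, u z = ⊥ := by
  have := hUc.subset_of_closure_inter_subset isOpen_interior hne ?_
  · exact fun z hz => interior_subset (s := {z | u z = ⊥}) (this hz)
  rintro a ⟨ha, haU⟩
  obtain ⟨R, hR, hRU⟩ := nhds_basis_closedBall.mem_iff.1 (hUo.mem_nhds haU)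
  obtain ⟨C, hC⟩ := ((tr_usc h 0).mono hRU).bddAbove_of_isCompact (isCompact_closedBall a R)
  obtain ⟨p, hp, hpa⟩ := Metric.mem_closure_iff.1 ha (R / 4) (by positivity)
  refine mem_interior.2 ⟨ball a (R / 4), fun y hy => ?_, isOpen_ball, mem_ball_self (by positivity)⟩
  have hd : ∀ z : ℂ, ‖z‖ ≤ 1 → y + z • (p - y) ∈ closedBall a R := by
    intro z hz
    rw [mem_closedBall_iff_norm]
    rw [mem_ball_iff_norm] at hy
    rw [dist_comm, dist_eq_norm] at hpa
    have h1 : ‖p - y‖ ≤ ‖p - a‖ + ‖y - a‖ := by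
      rw [show p - y = (p - a) - (y - a) by abel]; exact norm_sub_le _ _
    calc ‖y + z • (p - y) - a‖ = ‖(y - a) + z • (p - y)‖ := by congr 1; abel
      _ ≤ ‖y - a‖ + ‖z‖ * ‖p - y‖ := by rw [← norm_smul]; exact norm_add_le _ _
      _ ≤ ‖y - a‖ + 1 * ‖p - y‖ := by gcongr
      _ ≤ R := by linarith
  have hyU : y ∈ U := by simpa using hRU (hd 0 (by simp))
  have h0 : ∀ᶠ θ in 𝓝 (0 : ℝ), circ y (p - y) θ ∈ interior {z | u z = ⊥} :=
    (circ_cont y (p - y)).continuousAt.eventually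
      (isOpen_interior.mem_nhds (by simpa [circ] using hp))
  obtain ⟨ε, hε, hε2⟩ := Metric.eventually_nhds_iff.1 h0
  set e := min (ε / 2) 1 with he
  have he0 : 0 < e := by positivity
  have he1 : e ≤ 2 * π := (min_le_right _ _).trans (by linarith [two_le_pi])
  have key : ∀ M ≤ (0 : ℝ), 2 * π * tr u M y ≤ e * M + (2 * π - e) * C := by
    intro M hM
    have hi := tr_int h M (fun z hz => hRU (hd z hz))
    refine (tr_sub h M fun z hz => hRU (hd z hz)).trans ?_
    rw [← intervalIntegral.integral_add_adjacent_intervals (hi 0 e) (hi e (2 * π))]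
    have a1 := intervalIntegral.integral_mono_on he0.le (hi 0 e)
      (intervalIntegrable_const (c := M)) fun θ hθ => by
        have : u (circ y (p - y) θ) = ⊥ := interior_subset (s := {z | u z = ⊥}) (hε2 (by
          rw [Real.dist_eq, sub_zero, abs_of_nonneg hθ.1]
          linarith [hθ.2, min_le_left (ε / 2) 1]))
        simp [tr, this]
    have a2 := intervalIntegral.integral_mono_on he1 (hi e (2 * π))
      (intervalIntegrable_const (c := C)) fun θ _ => by
        have b1 : tr u 0 (circ y (p - y) θ) ≤ C := hC ⟨_, circ_mem hd θ, rfl⟩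
        refine le_trans ?_ b1
        have b2 := h.2.1 _ (hRU (circ_mem hd θ))
        rw [← EReal.coe_le_coe_iff]
        unfold tr
        rw [coe_tr b2, coe_tr b2]
        exact max_le_max le_rfl (EReal.coe_le_coe_iff.2 hM)
    simp only [intervalIntegral.integral_const, sub_zero, smul_eq_mul] at a1 a2
    linarith
  refine (EReal.eq_bot_iff_forall_lt _).2 fun t => ?_
  set M := min 0 ((2 * π * (t - 1) - (2 * π - e) * C) / e) with hM
  have h1 := key M (min_le_left _ _)
  have h2 : e * M ≤ 2 * π * (t - 1) - (2 * π - e) * C := by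
    rw [mul_comm e, ← le_div_iff₀ he0]; exact min_le_right _ _
  have h3 : tr u M y ≤ t - 1 := le_of_mul_le_mul_left (by linarith) (by positivity : 0 < 2 * π)
  exact ((tr_lt (h.2.1 y hyU) M t).1 (by unfold tr at h3; linarith)).1

lemma phi_psh (U : Set (EuclideanSpace ℂ (Fin n))) :
    PSH U (fun z => ((max (‖z‖ ^ 2) (1 / 4) : ℝ) : EReal)) := by
  refine ⟨(Continuous.upperSemicontinuous
    (continuous_coe_real_ereal.comp (by fun_prop))).upperSemicontinuousOn _,
    fun x _ => EReal.coe_ne_top _, fun a b _ M => ?_⟩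
  have hpi : 0 < 2 * π := by positivity
  have e : ∀ θ : ℝ, (max (((max (‖a + Complex.exp ((θ : ℂ) * Complex.I) • b‖ ^ 2) (1 / 4) : ℝ) :
      EReal)) (M : EReal)).toReal = max (max (‖circ a b θ‖ ^ 2) (1 / 4)) M := by
    intro θ
    rw [← EReal.coe_strictMono.monotone.map_max, EReal.toReal_coe]; rfl
  simp only [e]
  rw [EReal.coe_le_coe_iff, le_inv_mul_iff₀ hpi]
  have hc := circ_cont a b
  have hi : IntervalIntegrable (fun θ => max (max (‖circ a b θ‖ ^ 2) (1 / 4)) M) volume 0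
      (2 * π) := Continuous.intervalIntegrable (by fun_prop) _ _
  have a1 := intervalIntegral.integral_mono_on hpi.le
    (Continuous.intervalIntegrable (hc.norm.fun_pow 2) _ _) hi
    fun θ _ => (le_max_left _ _).trans (le_max_left _ _)
  have a2 := intervalIntegral.integral_mono_on hpi.le
    (intervalIntegrable_const (c := (1 / 4 : ℝ))) hi
    fun θ _ => (le_max_right _ _).trans (le_max_left _ _)
  rw [int_normsq] at a1
  simp only [intervalIntegral.integral_const, sub_zero, smul_eq_mul] at a2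
  rcases le_total (‖a‖ ^ 2) (1 / 4) with h | h
  · rw [max_eq_right h]; exact a2
  · rw [max_eq_left h]; nlinarith [sq_nonneg ‖b‖]

lemma sphere_noTest (z : EuclideanSpace ℂ (Fin n)) (hz : ‖z‖ = 1 / 2) :
    z ∈ noTest (ball 0 1) (fun z => max (‖z‖ ^ 2) (1 / 4)) := by
  refine ⟨by rw [mem_ball_zero_iff, hz]; norm_num, ?_⟩
  rintro ⟨V, q, hV, hzV, -, hq, hmax⟩
  have hl : HasDerivAt (fun t : ℝ => (1 + t) • z) z 0 := by
    simpa using ((hasDerivAt_id' (0 : ℝ)).const_add 1).smul_const z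
  have hqd : DifferentiableAt ℝ q ((1 + (0 : ℝ)) • z) := by
    simpa using (hq.contDiffAt (hV.mem_nhds hzV)).differentiableAt (by norm_num)
  have hg := hqd.hasFDerivAt.comp_hasDerivAt (0 : ℝ) hl
  have hev : ∀ᶠ t in 𝓝 (0 : ℝ), (1 + t) • z ∈ V :=
    hl.continuousAt.eventually (hV.mem_nhds (by simpa using hzV))
  have hz2 : max (‖z‖ ^ 2) (1 / 4) = 1 / 4 := by rw [hz]; norm_num
  have m1 : IsLocalMax (fun t : ℝ => 1 / 4 - (q ∘ fun t : ℝ => (1 + t) • z) t) 0 := by
    filter_upwards [hev] with t ht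
    have := hmax _ ht
    simp only [hz2] at this
    simp only [Function.comp, add_zero, one_smul]
    linarith [le_max_right (‖(1 + t) • z‖ ^ 2) (1 / 4)]
  have m2 : IsLocalMax (fun t : ℝ => (1 + t) ^ 2 / 4 - (q ∘ fun t : ℝ => (1 + t) • z) t) 0 := by
    filter_upwards [hev] with t ht
    have := hmax _ ht
    simp only [hz2] at this
    simp only [Function.comp, add_zero, one_smul]
    have e : ‖(1 + t) • z‖ ^ 2 = (1 + t) ^ 2 / 4 := by
      rw [norm_smul, hz, mul_pow, Real.norm_eq_abs, sq_abs]; ring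
    linarith [le_max_left (‖(1 + t) • z‖ ^ 2) (1 / 4)]
  have d1 := m1.hasDerivAt_eq_zero (hg.const_sub (1 / 4))
  have d2 := m2.hasDerivAt_eq_zero
    (((((hasDerivAt_id' (0 : ℝ)).const_add 1).fun_pow 2).div_const 4).fun_sub hg)
  norm_num at d1 d2
  rw [d1] at d2
  norm_num at d2

end Pool.Agent.H1.Psh
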