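import Mathlib

namespace Pool.Agent.H1.Psh

def PSH {n : ℕ} (U : Set (EuclideanSpace ℂ (Fin n))) (u : EuclideanSpace ℂ (Fin n) → EReal) :
    Prop :=
  UpperSemicontinuousOn u U ∧ (∀ x ∈ U, u x ≠ ⊤) ∧
    ∀ a b : EuclideanSpace ℂ (Fin n), (∀ z : ℂ, ‖z‖ ≤ 1 → a + z • b ∈ U) → ∀ M : ℝ,
      u a ≤ (((2 * Real.pi)⁻¹ * ∫ θ in (0 : ℝ)..(2 * Real.pi),
        (max (u (a + Complex.exp ((θ : ℂ) * Complex.I) • b)) (M : EReal)).toReal : ℝ) : EReal)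

def noTest {n : ℕ} (Ω : Set (EuclideanSpace ℂ (Fin n))) (φ : EuclideanSpace ℂ (Fin n) → ℝ) :
    Set (EuclideanSpace ℂ (Fin n)) :=
  {z | z ∈ Ω ∧ ¬ ∃ (V : Set (EuclideanSpace ℂ (Fin n))) (q : EuclideanSpace ℂ (Fin n) → ℝ),
    IsOpen V ∧ z ∈ V ∧ V ⊆ Ω ∧ ContDiffOn ℝ 2 q V ∧ ∀ y ∈ V, φ y - q y ≤ φ z - q z}

end Pool.Agent.H1.Psh
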