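import Pool.Agent.H1.NodB

namespace Pool.Agent.H1.Qc

open Real Filter Topology InnerProductSpace Laplacian MeasureTheory Finset
open scoped ContDiff

variable {n : ℕ}

abbrev E (n : ℕ) := EuclideanSpace ℝ (Fin n)

noncomputable def L (f : E n → ℝ) : E n → ℝ := -Δ f

lemma lap_eq (f : E n → ℝ) : Δ f = fun x => ∑ i : Fin n,
    fderiv ℝ (fderiv ℝ f) x (EuclideanSpace.single i 1) (EuclideanSpace.single i 1) := by
  rw [laplacian_eq_iteratedFDeriv_orthonormalBasis _ (EuclideanSpace.basisFun (Fin n) ℝ)]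
  simp [iteratedFDeriv_two_apply]

lemma L_smooth {f : E n → ℝ} (hf : ContDiff ℝ ∞ f) : ContDiff ℝ ∞ (L f) := by
  have h2 : ContDiff ℝ ∞ (fderiv ℝ (fderiv ℝ f)) :=
    (hf.fderiv_right (m := ∞) le_rfl).fderiv_right (m := ∞) le_rfl
  unfold L
  rw [lap_eq]
  exact (ContDiff.sum fun i _ => (h2.clm_apply contDiff_const).clm_apply contDiff_const).neg

lemma Lk_smooth {f : E n → ℝ} (hf : ContDiff ℝ ∞ f) (k : ℕ) : ContDiff ℝ ∞ (L^[k] f) := by
  induction k with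
  | zero => exact hf
  | succ k ih => rw [Function.iterate_succ_apply']; exact L_smooth ih

lemma two_le : (2 : WithTop ℕ∞) ≤ ∞ := by norm_cast

lemma L_add {f g : E n → ℝ} (hf : ContDiff ℝ ∞ f) (hg : ContDiff ℝ ∞ g) :
    L (f + g) = L f + L g := by
  funext x
  simp only [L, Pi.neg_apply, Pi.add_apply]
  rw [ContDiffAt.laplacian_add (hf.of_le two_le).contDiffAt (hg.of_le two_le).contDiffAt]
  ring

lemma Lk_add {f g : E n → ℝ} (hf : ContDiff ℝ ∞ f) (hg : ContDiff ℝ ∞ g) (k : ℕ) :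
    L^[k] (f + g) = L^[k] f + L^[k] g := by
  induction k with
  | zero => rfl
  | succ k ih =>
    simp only [Function.iterate_succ_apply']
    rw [ih, L_add (Lk_smooth hf k) (Lk_smooth hg k)]

noncomputable def T (n : ℕ) (U : ℝ → ℝ) (s : ℝ) : ℝ :=
  -(2 * n * deriv U s + 4 * s * deriv (deriv U) s)

lemma d_smooth {U : ℝ → ℝ} (hU : ContDiff ℝ ∞ U) : ContDiff ℝ ∞ (deriv U) :=
  (contDiff_infty_iff_deriv.1 hU).2

lemma T_smooth {U : ℝ → ℝ} (hU : ContDiff ℝ ∞ U) : ContDiff ℝ ∞ (T n U) := by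
  have h1 := d_smooth hU
  have h2 := d_smooth h1
  unfold T; fun_prop

lemma Tk_smooth {U : ℝ → ℝ} (hU : ContDiff ℝ ∞ U) (k : ℕ) : ContDiff ℝ ∞ ((T n)^[k] U) := by
  induction k with
  | zero => exact hU
  | succ k ih => rw [Function.iterate_succ_apply']; exact T_smooth ih

lemma Lk_rad {U : ℝ → ℝ} (hU : ContDiff ℝ ∞ U) (k : ℕ) :
    L^[k] (fun x : E n => U (‖x‖ ^ 2)) = fun x => (T n)^[k] U (‖x‖ ^ 2) := by
  induction k with
  | zero => rfl
  | succ k ih =>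
    simp only [Function.iterate_succ_apply']
    rw [ih]
    funext x
    have h := Tk_smooth (n := n) hU k
    simp only [L, Pi.neg_apply]
    rw [Well.rad_lap (fun s => (h.differentiable (by simp) s).hasDerivAt)
      (fun s => ((d_smooth h).differentiable (by simp) s).hasDerivAt)]
    rfl

lemma T_loc {U U0 U1 U2 : ℝ → ℝ} (h : ∀ s > 1, U s = U0 s) (h1 : ∀ s > 1, HasDerivAt U0 (U1 s) s)
    (h2 : ∀ s > 1, HasDerivAt U1 (U2 s) s) (s : ℝ) (hs : s > 1) :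
    T n U s = -(2 * n * U1 s + 4 * s * U2 s) := by
  have e1 : ∀ s > 1, deriv U s = U1 s := fun s hs => by
    rw [← (h1 s hs).deriv]
    exact EventuallyEq.deriv_eq ((eventually_gt_nhds hs).mono h)
  have e2 : deriv (deriv U) s = U2 s := by
    rw [← (h2 s hs).deriv]
    exact EventuallyEq.deriv_eq ((eventually_gt_nhds hs).mono e1)
  rw [T, e1 s hs, e2]

lemma inv_d (c : ℝ) (k : ℕ) (s : ℝ) (hs : s > 1) :
    HasDerivAt (fun s : ℝ => c * s⁻¹ ^ (k + 1)) (-(c * (k + 1)) * s⁻¹ ^ (k + 1 + 1)) s := by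
  have h0 : s ≠ 0 := by positivity
  refine HasDerivAt.congr_deriv (((hasDerivAt_inv h0).fun_pow (k + 1)).const_mul c) ?_
  simp; field_simp; ring

lemma T_step {U : ℝ → ℝ} {c : ℝ} {k : ℕ} (h : ∀ s > 1, U s = c * s⁻¹ ^ (k + 1)) (s : ℝ)
    (hs : s > 1) : T n U s = c * (2 * (k + 1) * (n - 2 * k - 4)) * s⁻¹ ^ (k + 1 + 1) := by
  have h0 : s ≠ 0 := by positivity
  rw [T_loc h (inv_d c k) (inv_d _ (k + 1)) s hs]
  push_cast
  linear_combination (-4 * c * (k + 1) * (k + 2) * s⁻¹ ^ (k + 1 + 1)) * mul_inv_cancel₀ h0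

lemma Tk_log {U : ℝ → ℝ} {a : ℝ} (h : ∀ s > 1, U s = a * log s) (k : ℕ) :
    ∃ c, ∀ s > 1, (T n)^[k + 1] U s = c * s⁻¹ ^ (k + 1) := by
  induction k with
  | zero =>
    refine ⟨a * (4 - 2 * n), fun s hs => ?_⟩
    have h0 : s ≠ 0 := by positivity
    have := T_loc (n := n) h (U1 := fun s => a * s⁻¹ ^ (0 + 1)) (fun s hs => by
      simpa using (hasDerivAt_log (x := s) (by positivity)).const_mul a) (inv_d a 0) s hs
    simp only [Function.iterate_succ_apply', Function.iterate_zero, id, this]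
    push_cast
    linear_combination (4 * a * s⁻¹) * mul_inv_cancel₀ h0
  | succ k ih =>
    obtain ⟨c, hc⟩ := ih
    exact ⟨_, fun s hs => by rw [Function.iterate_succ_apply', T_step hc s hs]⟩

lemma Tm_log {U : ℝ → ℝ} {a : ℝ} (h : ∀ s > 1, U s = a * log s) (k : ℕ) (s : ℝ) (hs : s > 1) :
    (T (2 * (k + 2)))^[k + 2] U s = 0 := by
  obtain ⟨c, hc⟩ := Tk_log (n := 2 * (k + 2)) h k
  rw [Function.iterate_succ_apply', T_step hc s hs]
  push_cast; ring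

noncomputable def F (i0 : Fin n) (a b c d e : ℝ) (x : E n) : ℝ :=
  a * (x i0 ^ 2 * (‖x‖ ^ 2) ^ 1) + b * (x i0 ^ 4 * (‖x‖ ^ 2) ^ 0) + c * (x i0 ^ 2 * (‖x‖ ^ 2) ^ 0)
    + d * (x i0 ^ 0 * (‖x‖ ^ 2) ^ 1) + e

lemma mono_s (i0 : Fin n) (a b : ℕ) : ContDiff ℝ ∞ (fun y : E n => y i0 ^ a * (‖y‖ ^ 2) ^ b) :=
  ContDiff.mul (by fun_prop) ((contDiff_norm_sq ℝ).pow b)

lemma F_smooth (i0 : Fin n) (a b c d e : ℝ) : ContDiff ℝ ∞ (F i0 a b c d e) :=
  ((((contDiff_const.mul (mono_s i0 2 1)).add (contDiff_const.mul (mono_s i0 4 0))).add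
    (contDiff_const.mul (mono_s i0 2 0))).add (contDiff_const.mul (mono_s i0 0 1))).add
    contDiff_const

lemma L_F (i0 : Fin n) (a b c d e : ℝ) :
    L (F i0 a b c d e) = F i0 0 0 (-(a * (2 * n + 8) + 12 * b)) (-(2 * a)) (-(2 * c + 2 * n * d)) := by
  have hm : ∀ (r : ℝ) (a b : ℕ), L (r • fun y : E n => y i0 ^ a * (‖y‖ ^ 2) ^ b) =
      fun x => -(r * Δ (fun y : E n => y i0 ^ a * (‖y‖ ^ 2) ^ b) x) := fun r a b => by
    funext x
    simp only [L, Pi.neg_apply]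
    rw [laplacian_smul r ((mono_s i0 a b).of_le two_le).contDiffAt, smul_eq_mul]
  have hs : ∀ (r : ℝ) (a b : ℕ), ContDiff ℝ ∞ (r • fun y : E n => y i0 ^ a * (‖y‖ ^ 2) ^ b) :=
    fun r a b => (mono_s i0 a b).const_smul r
  have ha : ∀ {f g : E n → ℝ}, ContDiff ℝ ∞ f → ContDiff ℝ ∞ g → ContDiff ℝ ∞ (f + g) :=
    fun hf hg => hf.add hg
  have e1 : F i0 a b c d e = (a • fun y : E n => y i0 ^ 2 * (‖y‖ ^ 2) ^ 1) +
      (b • fun y : E n => y i0 ^ 4 * (‖y‖ ^ 2) ^ 0) + (c • fun y : E n => y i0 ^ 2 * (‖y‖ ^ 2) ^ 0)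
      + (d • fun y : E n => y i0 ^ 0 * (‖y‖ ^ 2) ^ 1) +
      (e • fun y : E n => y i0 ^ 0 * (‖y‖ ^ 2) ^ 0) := by
    funext x; simp [F]
  rw [e1, L_add (ha (ha (ha (hs _ _ _) (hs _ _ _)) (hs _ _ _)) (hs _ _ _)) (hs _ _ _),
    L_add (ha (ha (hs _ _ _) (hs _ _ _)) (hs _ _ _)) (hs _ _ _),
    L_add (ha (hs _ _ _) (hs _ _ _)) (hs _ _ _), L_add (hs _ _ _) (hs _ _ _)]
  simp only [hm, Nod.mono_lap]
  funext x
  simp [F]; ring

lemma Lk_F (i0 : Fin n) (a b c d e : ℝ) (k : ℕ) : L^[k + 3] (F i0 a b c d e) = 0 := by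
  induction k with
  | zero =>
    simp only [zero_add, Function.iterate_succ_apply', Function.iterate_zero, id, L_F]
    funext x; simp [F]
  | succ k ih =>
    rw [show k + 1 + 3 = k + 3 + 1 by ring, Function.iterate_succ_apply', ih]
    funext x
    simp only [L, Pi.neg_apply, Pi.zero_apply, neg_eq_zero]
    exact congrFun (laplacian_const (c := (0 : ℝ))) x

end Pool.Agent.H1.Qc
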