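import Pool.Agent.H1.QcA

namespace Pool.Agent.H1.Qc

open Real Filter Topology InnerProductSpace Laplacian MeasureTheory Finset
open scoped ContDiff

variable {n : ℕ}

noncomputable def g (s : ℝ) : ℝ := s * smoothTransition s + (1 - smoothTransition s)

lemma g_pos (s : ℝ) : 0 < g s := by
  unfold g
  rcases le_or_gt s 0 with h | h
  · rw [smoothTransition.zero_of_nonpos h]; simp
  · have h1 := smoothTransition.pos_of_pos h
    have h2 := smoothTransition.le_one s
    nlinarith [mul_pos h h1]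

lemma g_le {s : ℝ} (hs : 0 ≤ s) : g s ≤ 1 + s := by
  have h1 := smoothTransition.nonneg s
  have h2 := smoothTransition.le_one s
  unfold g; nlinarith

lemma g_eq {s : ℝ} (hs : 1 ≤ s) : g s = s := by
  unfold g; rw [smoothTransition.one_of_one_le hs]; ring

noncomputable def U (a s : ℝ) : ℝ := a * log (g s)

lemma U_smooth (a : ℝ) : ContDiff ℝ ∞ (U a) := by
  have h : ContDiff ℝ ∞ smoothTransition := smoothTransition.contDiff
  have hg : ContDiff ℝ ∞ g := by unfold g; fun_prop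
  exact contDiff_const.mul (hg.log fun s => (g_pos s).ne')

noncomputable def u (i0 : Fin n) (a : ℝ) : E n → ℝ :=
  (fun x => U a (‖x‖ ^ 2)) + F i0 (-1) 1 1 (-1) 0

lemma rad_smooth (a : ℝ) : ContDiff ℝ ∞ fun x : E n => U a (‖x‖ ^ 2) :=
  (U_smooth a).comp (contDiff_norm_sq ℝ)

lemma u_smooth (i0 : Fin n) (a : ℝ) : ContDiff ℝ ∞ (u i0 a) :=
  (rad_smooth a).add (F_smooth _ _ _ _ _ _)

lemma Lu_zero (k : ℕ) (i0 : Fin (2 * (k + 3))) (a : ℝ) (x : E (2 * (k + 3))) (hx : 1 < ‖x‖) :
    L^[k + 3] (u i0 a) x = 0 := by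
  rw [u, Lk_add (rad_smooth a) (F_smooth _ _ _ _ _ _), Lk_F, add_zero, Lk_rad (U_smooth a)]
  exact Tm_log (a := a) (fun s hs => by rw [U, g_eq hs.le]) (k + 1) _ (by nlinarith)

lemma u_eq (i0 : Fin n) (a : ℝ) (x : E n) :
    u i0 a x = a * log (g (‖x‖ ^ 2)) - (∑ i ∈ univ.erase i0, x i ^ 2) * (1 + x i0 ^ 2) := by
  have h : ‖x‖ ^ 2 = x i0 ^ 2 + ∑ i ∈ univ.erase i0, x i ^ 2 := by
    rw [EuclideanSpace.real_norm_sq_eq, add_sum_erase _ (fun i => x i ^ 2) (mem_univ i0)]
  have h2 : ∑ i ∈ univ.erase i0, x i ^ 2 = ‖x‖ ^ 2 - x i0 ^ 2 := by linarith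
  rw [h2]
  simp only [u, U, F, Pi.add_apply]; ring

noncomputable def h (t : ℝ) : ℝ := (t ^ 2) ^ (-(2 / 5) : ℝ) * exp (-1 * t ^ 2)

lemma h_int : Integrable h := by
  have h1 : IntegrableOn h (Set.Ioi 0) := by
    refine (integrableOn_rpow_mul_exp_neg_mul_sq one_pos (s := -(4 / 5)) (by norm_num)).congr_fun
      (fun t ht => ?_) measurableSet_Ioi
    unfold h
    rw [← rpow_natCast t 2, ← rpow_mul (le_of_lt ht)]
    norm_num
  rw [← integrableOn_univ, ← @Set.Iio_union_Ici _ _ (0 : ℝ), integrableOn_union,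
    integrableOn_Ici_iff_integrableOn_Ioi]
  refine ⟨?_, h1⟩
  rw [← (Measure.measurePreserving_neg (volume : Measure ℝ)).integrableOn_comp_preimage
      (Homeomorph.neg ℝ).measurableEmbedding]
  have e : (h ∘ Neg.neg) = h := funext fun t => by simp [h]
  simpa only [e, Set.neg_preimage, Set.neg_Iio, neg_zero] using h1

lemma exp_le {y : ℝ} (hy : 0 < y) : exp (-y) ≤ y ^ (-(2 / 5) : ℝ) := by
  rw [rpow_def_of_pos hy, exp_le_exp]
  have := log_le_sub_one_of_pos hy
  linarith

lemma bound (i0 : Fin n) (hn : 6 ≤ n) (x : Fin n → ℝ) (hx : ∀ i, x i ≠ 0) :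
    exp (n * u i0 (n : ℝ)⁻¹ (WithLp.toLp 2 x)) ≤
      ∏ i, (if i = i0 then (1 + x i ^ 2)⁻¹ else h (x i)) := by
  have hn' : (6 : ℝ) ≤ n := by exact_mod_cast hn
  rw [← mul_prod_erase _ _ (mem_univ i0), if_pos rfl,
    prod_congr rfl fun i hi => if_neg (ne_of_mem_erase hi), u_eq]
  have hρ : ‖(WithLp.toLp 2 x : E n)‖ ^ 2 = x i0 ^ 2 + ∑ i ∈ univ.erase i0, x i ^ 2 := by
    rw [EuclideanSpace.real_norm_sq_eq, add_sum_erase _ (fun i => x i ^ 2) (mem_univ i0)]
  simp only [hρ]
  set A := 1 + x i0 ^ 2 with hA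
  set S := ∑ i ∈ univ.erase i0, x i ^ 2 with hS
  have hA1 : 1 ≤ A := by nlinarith [sq_nonneg (x i0)]
  have hS0 : 0 ≤ S := sum_nonneg fun i _ => sq_nonneg _
  have h1 : g (x i0 ^ 2 + S) ≤ A * exp S := by
    refine (g_le (by positivity)).trans ?_
    nlinarith [add_one_le_exp S]
  have h2 : exp (n * ((n : ℝ)⁻¹ * log (g (x i0 ^ 2 + S)) - S * A)) ≤
      A * (exp (-(S * A)) * exp (-1 * S)) := by
    rw [mul_sub, ← mul_assoc, mul_inv_cancel₀ (by positivity), one_mul, sub_eq_add_neg, exp_add,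
      exp_log (g_pos _)]
    refine (mul_le_mul_of_nonneg_right h1 (exp_pos _).le).trans ?_
    rw [mul_assoc, ← exp_add, ← exp_add]
    refine mul_le_mul_of_nonneg_left (exp_le_exp.2 ?_) (by positivity)
    have : S ≤ S * A := le_mul_of_one_le_right hS0 hA1
    nlinarith
  refine h2.trans ?_
  have h3 : exp (-(S * A)) * exp (-1 * S) ≤
      ∏ i ∈ univ.erase i0, (A ^ (-(2 / 5) : ℝ) * h (x i)) := by
    rw [hS, sum_mul, ← sum_neg_distrib, mul_sum, exp_sum, exp_sum, ← prod_mul_distrib]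
    refine prod_le_prod (fun i _ => by positivity) fun i _ => ?_
    have h0 : 0 < x i ^ 2 := sq_pos_of_ne_zero (hx i)
    unfold h
    rw [← mul_assoc, ← mul_rpow (by positivity) h0.le, mul_comm A]
    exact mul_le_mul_of_nonneg_right (exp_le (by positivity)) (exp_pos _).le
  rw [prod_mul_distrib, prod_const, card_erase_of_mem (mem_univ _), card_univ,
    Fintype.card_fin] at h3
  have h4 : (A ^ (-(2 / 5) : ℝ)) ^ (n - 1) ≤ A⁻¹ * A⁻¹ := by
    rw [← rpow_natCast, ← rpow_mul (by positivity), ← rpow_neg_one, ← rpow_add (by positivity)]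
    refine rpow_le_rpow_of_exponent_le hA1 ?_
    rw [Nat.cast_sub (by omega)]; push_cast; linarith
  have h5 : 0 ≤ ∏ i ∈ univ.erase i0, h (x i) := prod_nonneg fun i _ => by unfold h; positivity
  calc A * (exp (-(S * A)) * exp (-1 * S)) ≤ A * (A⁻¹ * A⁻¹ * ∏ i ∈ univ.erase i0, h (x i)) :=
        mul_le_mul_of_nonneg_left (h3.trans (mul_le_mul_of_nonneg_right h4 h5)) (by positivity)
    _ = _ := by field_simp

lemma exp_int (i0 : Fin n) (hn : 6 ≤ n) : Integrable fun x : E n => exp (n * u i0 (n : ℝ)⁻¹ x) := by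
  rw [← (PiLp.volume_preserving_toLp (Fin n)).integrable_comp_emb
    (MeasurableEquiv.toLp 2 _).measurableEmbedding]
  have h1 := Integrable.fintype_prod (μ := fun _ : Fin n => (volume : Measure ℝ))
    (f := fun i t => if i = i0 then (1 + t ^ 2)⁻¹ else h t) fun i => by
      split_ifs
      · exact integrable_inv_one_add_sq
      · exact h_int
  have hc := (u_smooth i0 (n : ℝ)⁻¹).continuous
  refine h1.mono' (Continuous.aestronglyMeasurable (by fun_prop)) ?_
  filter_upwards [ae_all_iff.2 fun i => Measure.ae_eval_ne (fun _ : Fin n => (volume : Measure ℝ)) i 0]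
    with x hx
  rw [Function.comp_apply, Real.norm_of_nonneg (exp_pos _).le]
  exact bound i0 hn x hx

lemma unbdd (i0 : Fin n) {a : ℝ} (ha : 0 < a) (M : ℝ) : 0 < volume {x | M < u i0 a x} := by
  refine (isOpen_lt continuous_const (u_smooth i0 a).continuous).measure_pos _
    ⟨EuclideanSpace.single i0 (exp (|M| / a) + 1), ?_⟩
  have h0 : 1 ≤ exp (|M| / a) := one_le_exp (by positivity)
  rw [Set.mem_ofPred_eq, u_eq, sum_eq_zero fun i hi => by simp [ne_of_mem_erase hi]]
  rw [PiLp.norm_single, Real.norm_eq_abs, sq_abs, g_eq (by nlinarith), zero_mul, sub_zero]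
  have h1 : |M| / a < log ((exp (|M| / a) + 1) ^ 2) := by
    rw [lt_log_iff_exp_lt (by positivity)]; nlinarith
  rw [div_lt_iff₀' ha] at h1
  linarith [le_abs_self M]

lemma green {f φ : E n → ℝ} (hf : ContDiff ℝ ∞ f) (hφ : ContDiff ℝ ∞ φ) (hK : HasCompactSupport φ) :
    HasCompactSupport (L φ) ∧ ∫ x, f x * L φ x = ∫ x, L f x * φ x := by
  have D : ∀ {w : E n → ℝ}, ContDiff ℝ ∞ w → ∀ v, ContDiff ℝ ∞ fun x => fderiv ℝ w x v :=
    fun hw v => (hw.fderiv_right (m := ∞) le_rfl).clm_apply contDiff_const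
  have D2 : ∀ {w : E n → ℝ}, ContDiff ℝ ∞ w → L w = fun x => -∑ i : Fin n,
      fderiv ℝ (fun y => fderiv ℝ w y (EuclideanSpace.single i 1)) x (EuclideanSpace.single i 1) := by
    intro w hw
    funext x
    simp only [L, lap_eq, Pi.neg_apply]
    congr 2
    funext i
    rw [fderiv_clm_apply ((hw.fderiv_right (m := ∞) le_rfl).differentiable (by simp) x)
      (differentiableAt_const _)]
    simp
  have ibp : ∀ {w ψ : E n → ℝ}, ContDiff ℝ ∞ w → ContDiff ℝ ∞ ψ → HasCompactSupport ψ → ∀ v,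
      ∫ x, w x * fderiv ℝ ψ x v = -∫ x, fderiv ℝ w x v * ψ x := fun hw hψ hK v =>
    integral_mul_fderiv_eq_neg_fderiv_mul_of_integrable
      (((D hw v).continuous.mul hψ.continuous).integrable_of_hasCompactSupport hK.mul_left)
      ((hw.continuous.mul (D hψ v).continuous).integrable_of_hasCompactSupport
        (hK.fderiv_apply ℝ _).mul_left)
      ((hw.continuous.mul hψ.continuous).integrable_of_hasCompactSupport hK.mul_left)
      (fun x _ => hw.differentiable (by simp) x) (fun x _ => hψ.differentiable (by simp) x)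
  have hK2 := fun v : E n => (hK.fderiv_apply ℝ v).fderiv_apply ℝ v
  constructor
  · rw [D2 hφ]
    refine HasCompactSupport.intro hK.isCompact fun x hx => neg_eq_zero.2 (sum_eq_zero fun i _ => ?_)
    refine image_eq_zero_of_notMem_tsupport (f := fun x => fderiv ℝ (fun y => fderiv ℝ φ y
      (EuclideanSpace.single i 1)) x (EuclideanSpace.single i 1)) fun h => hx ?_
    exact (tsupport_fderiv_apply_subset ℝ _) ((tsupport_fderiv_apply_subset ℝ _) h)
  · rw [D2 hφ, D2 hf]
    simp only [mul_neg, neg_mul, mul_sum, sum_mul, integral_neg]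
    have I1 : ∀ v : E n, Integrable fun x => f x * fderiv ℝ (fun y => fderiv ℝ φ y v) x v :=
      fun v => (hf.continuous.mul (D (D hφ _) _).continuous).integrable_of_hasCompactSupport
        (hK2 _).mul_left
    have I2 : ∀ v : E n, Integrable fun x => fderiv ℝ (fun y => fderiv ℝ f y v) x v * φ x :=
      fun v => ((D (D hf _) _).continuous.mul hφ.continuous).integrable_of_hasCompactSupport
        hK.mul_left
    rw [integral_finsetSum _ fun i _ => I1 _, integral_finsetSum _ fun i _ => I2 _]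
    congr 1
    refine sum_congr rfl fun i _ => ?_
    rw [ibp hf (D hφ _) (hK.fderiv_apply ℝ _), ibp (D hf _) hφ hK, neg_neg]

lemma green_k (k : ℕ) : ∀ {f φ : E n → ℝ}, ContDiff ℝ ∞ f → ContDiff ℝ ∞ φ →
    HasCompactSupport φ → ∫ x, f x * L^[k] φ x = ∫ x, L^[k] f x * φ x := by
  induction k with
  | zero => intro f φ _ _ _; rfl
  | succ k ih =>
    intro f φ hf hφ hK
    rw [Function.iterate_succ_apply, ih hf (L_smooth hφ) (green hf hφ hK).1,
      (green (Lk_smooth hf k) hφ hK).2, Function.iterate_succ_apply']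

end Pool.Agent.H1.Qc
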