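import Pool.Agent.H1.RammDefs

namespace Pool.Agent.H1.Ramm

abbrev L := List (ℤ × ℕ × ℕ)

def ev (l : L) (x y : ℝ) : ℝ := (l.map fun m => (m.1 : ℝ) * x ^ m.2.1 * y ^ m.2.2).sum

def lA11 : L := [(9308, 0, 0), (-9446, 0, 2), (6112, 0, 4), (15983, 1, 1), (-14544, 1, 3), (-11162, 2, 0), (9699, 2, 2), (-7618, 3, 1), (4162, 4, 0)]
def lA12 : L := [(1693, 0, 0), (-3769, 0, 2), (1903, 0, 4), (277, 1, 1), (-8588, 1, 3), (-3162, 2, 0), (-1065, 2, 2), (-1240, 3, 1), (1469, 4, 0)]
def lA22 : L := [(739, 0, 0), (-1889, 0, 2), (2001, 0, 4), (765, 1, 1), (1065, 1, 3), (-1459, 2, 0), (8641, 2, 2), (-331, 3, 1), (1267, 4, 0)]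
def la : L := [(6684, 0, 0), (277932, 0, 2), (96907, 0, 4), (302096, 1, 1), (485142, 1, 3), (35870, 2, 0), (59755, 2, 2), (-322206, 3, 1), (-42196, 4, 0)]
def lu : L := [(2, 0, 1), (-3, 0, 3), (1, 0, 5), (3, 1, 2), (-3, 1, 4), (-1, 2, 3), (-3, 3, 2), (-2, 4, 1)]
def lB11 : L := [(739, 0, 0), (-1459, 0, 2), (1267, 0, 4), (-765, 1, 1), (331, 1, 3), (-1889, 2, 0), (8641, 2, 2), (-1065, 3, 1), (2001, 4, 0)]
def lB12 : L := [(-1693, 0, 0), (3162, 0, 2), (-1469, 0, 4), (277, 1, 1), (-1240, 1, 3), (3769, 2, 0), (1065, 2, 2), (-8588, 3, 1), (-1903, 4, 0)]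
def lB22 : L := [(9308, 0, 0), (-11162, 0, 2), (4162, 0, 4), (-15983, 1, 1), (7618, 1, 3), (-9446, 2, 0), (9699, 2, 2), (14544, 3, 1), (6112, 4, 0)]
def lb : L := [(6684, 0, 0), (35870, 0, 2), (-42196, 0, 4), (-302096, 1, 1), (322206, 1, 3), (277932, 2, 0), (59755, 2, 2), (-485142, 3, 1), (96907, 4, 0)]
def lv : L := [(-2, 1, 0), (2, 1, 4), (3, 2, 1), (-3, 2, 3), (3, 3, 0), (1, 3, 2), (-3, 4, 1), (-1, 5, 0)]

lemma ellA (x y s t : ℝ) (h : 0 ≤ 1 - x ^ 2 - y ^ 2) :
    s ^ 2 + t ^ 2 ≤ ev lA11 x y * s ^ 2 + 2 * ev lA12 x y * s * t + ev lA22 x y * t ^ 2 := by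
  have e : ev lA11 x y * s ^ 2 + 2 * ev lA12 x y * s * t + ev lA22 x y * t ^ 2 - (s ^ 2 + t ^ 2) =
      ((1/36088) * ((3284) * t + (18044) * s + (-4646) * y ^ 2 * t + (-14366) * y ^ 2 * s + (-5212) * x * y * t + (7031) * x * y * s + (-5686) * x ^ 2 * t + (-15418) * x ^ 2 * s) ^ 2
        + (1/31431799932) * ((3483906) * t + (-5757976) * y ^ 2 * t + (-9452324) * y ^ 2 * s + (6502975) * x * y * t + (8834167) * x * y * s + (-2964406) * x ^ 2 * t + (5801458) * x ^ 2 * s) ^ 2
        + (1/48604933174626696) * ((-4892520754) * y ^ 2 * t + (6922571848) * y ^ 2 * s + (-10779299174) * x * y * t + (14098186891) * x * y * s + (626404130) * x ^ 2 * t + (6975637858) * x ^ 2 * s) ^ 2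
        + (1/13744608725874361667164) * ((20819394720) * y ^ 2 * t + (668382585573) * y ^ 2 * s + (-735709364369) * x * y * t + (-395675565049) * x * y * s + (1970373033358) * x ^ 2 * t) ^ 2
        + (1/9078149906995399985050994264) * ((-448411675708370) * y ^ 2 * t + (2576752744281978) * y ^ 2 * s + (-3423861423091513) * x * y * t + (2303662746420154) * x * y * s) ^ 2
        + (1/70948744047244789973182563668705896) * ((-656628680264542966) * y ^ 2 * t + (-7402545579073034340) * y ^ 2 * s + (7699558470255436081) * x * y * t) ^ 2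
        + (1/136021320031384240868220425832955098457156) * ((1124625112546809607904) * y ^ 2 * t + (4416529874955014028769) * y ^ 2 * s) ^ 2
        + (278405328358320007284082/4416529874955014028769) * ((1) * y ^ 2 * t) ^ 2
        + (1/44) * ((1) * y * t + (17) * y * s + (-11) * x * t + (44) * x * s) ^ 2
        + (1/1348) * ((29) * y * t + (-147) * y * s + (337) * x * t) ^ 2
        + (1/926219899) * ((10291) * y * t + (249857) * y * s) ^ 2
        + (10054007/249857) * ((1) * y * t) ^ 2)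
      + (1 - x ^ 2 - y ^ 2) * ((3/95) * ((17) * t + (95) * s) ^ 2
        + (4168/95) * ((1) * t) ^ 2
        + (1/4497) * ((822) * y * t + (4459) * y * s + (503) * x * t + (4497) * x * s) ^ 2
        + (1/2886597318) * ((166647) * y * t + (-75323) * y * s + (641894) * x * t) ^ 2
        + (1/285005230912754) * ((95831217) * y * t + (444006691) * y * s) ^ 2
        + (23489925629/444006691) * ((1) * y * t) ^ 2) := by
    simp only [ev, lA11, lA12, lA22, List.map, List.sum_cons, List.sum_nil]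
    push_cast
    ring
  rw [← sub_nonneg, e]
  positivity

lemma posa (x y : ℝ) (h : 0 ≤ 1 - x ^ 2 - y ^ 2) : 1 ≤ ev la x y := by
  have e : ev la x y - 1 =
      ((1/6648) * ((6648) + (43603) * y ^ 2 + (51827) * x * y + (-7896) * x ^ 2) ^ 2
        + (1/26615268) * ((-153513) * y ^ 2 + (-181570) * x * y + (48042) * x ^ 2) ^ 2
        + (1/36682306333704) * ((157393689) * y ^ 2 + (190886653) * x * y) ^ 2
        + (192939989329/2290639836) * ((1) * y ^ 2) ^ 2
        + (1/9) * ((1) * y + (18) * x) ^ 2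
        + (350/9) * ((1) * y) ^ 2)
      + (1 - x ^ 2 - y ^ 2) * ((35) + (1/51661) * ((99219) * y + (51661) * x) ^ 2
        + (8479281/51661) * ((1) * y) ^ 2) := by
    simp only [ev, la, List.map, List.sum_cons, List.sum_nil]
    push_cast
    ring
  rw [← sub_nonneg, e]
  positivity

end Pool.Agent.H1.Ramm
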