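import Pool.Agent.H1.RammA

namespace Pool.Agent.H1.Ramm

open MeasureTheory Metric Set

lemma pd_contDiff {n m : WithTop ℕ∞} (i : Fin 2) {f : E → ℝ} (hf : ContDiff ℝ n f)
    (h : m + 1 ≤ n) : ContDiff ℝ m (pd i f) :=
  (hf.fderiv_right h).clm_apply contDiff_const

lemma pd_supp (i : Fin 2) (f : E → ℝ) : tsupport (pd i f) ⊆ tsupport f :=
  tsupport_fderiv_apply_subset ℝ _

lemma posit (A : Fin 2 → Fin 2 → E → ℝ) (c : E → ℝ) (hA : ∀ i j, ContDiff ℝ 1 (A i j))
    (hc : Continuous c)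
    (ell : ∀ p ∈ closedBall (0 : E) 1, ∀ ξ : Fin 2 → ℝ, 0 ≤ ∑ i, ∑ j, A i j p * ξ i * ξ j)
    (h1 : ∀ p ∈ closedBall (0 : E) 1, 1 ≤ c p) (w : E → ℝ) (hw : ContDiff ℝ 2 w)
    (hs : tsupport w ⊆ ball (0 : E) 1) :
    ∫ p in ball (0 : E) 1, w p ^ 2 ≤ ∫ p in ball (0 : E) 1, op A c w p * w p := by
  have hK : HasCompactSupport w :=
    (isCompact_closedBall (0 : E) 1).of_isClosed_subset (isClosed_tsupport w)
      (hs.trans ball_subset_closedBall)
  have hz : ∀ p, p ∉ ball (0 : E) 1 → w p = 0 := fun p hp =>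
    image_eq_zero_of_notMem_tsupport fun h => hp (hs h)
  have hwc := hw.continuous
  have hd : ∀ j, ContDiff ℝ 1 (pd j w) := fun j => pd_contDiff j hw (by norm_num)
  have hdK : ∀ j, HasCompactSupport (pd j w) := fun j =>
    hK.of_isClosed_subset (isClosed_tsupport _) (pd_supp j w)
  have hF : ∀ i j, ContDiff ℝ 1 fun q => A i j q * pd j w q := fun i j => (hA i j).mul (hd j)
  have hdF : ∀ i j, Continuous (pd i fun q => A i j q * pd j w q) := fun i j =>
    (pd_contDiff (m := 0) i (hF i j) (by norm_num)).continuous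
  have I1 : ∀ i j, Integrable fun p => pd i (fun q => A i j q * pd j w q) p * w p := fun i j =>
    ((hdF i j).mul hwc).integrable_of_hasCompactSupport hK.mul_left
  have I2 : ∀ i j, Integrable fun p => A i j p * pd j w p * pd i w p := fun i j =>
    ((hF i j).continuous.mul (hd i).continuous).integrable_of_hasCompactSupport (hdK i).mul_left
  have ibp : ∀ i j, ∫ p, A i j p * pd j w p * pd i w p =
      -∫ p, pd i (fun q => A i j q * pd j w q) p * w p := fun i j =>
    integral_mul_fderiv_eq_neg_fderiv_mul_of_integrable (I1 i j) (I2 i j)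
      (((hF i j).continuous.mul hwc).integrable_of_hasCompactSupport hK.mul_left)
      (fun x _ => ((hF i j).differentiable (by norm_num)) x)
      (fun x _ => (hw.differentiable (by norm_num)) x)
  rw [setIntegral_eq_integral_of_forall_compl_eq_zero (fun p hp => by simp [hz p hp]),
    setIntegral_eq_integral_of_forall_compl_eq_zero (fun p hp => by simp [hz p hp])]
  have I3 : Integrable fun p => c p * w p * w p :=
    ((hc.mul hwc).mul hwc).integrable_of_hasCompactSupport hK.mul_left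
  have e : ∫ p, op A c w p * w p =
      ∫ p, (∑ i, ∑ j, A i j p * pd j w p * pd i w p) + c p * w p * w p := by
    have e1 : (fun p => op A c w p * w p) = fun p =>
        c p * w p * w p - ∑ i, ∑ j, pd i (fun q => A i j q * pd j w q) p * w p := by
      ext p; simp only [op, Fin.sum_univ_two]; ring
    rw [e1, integral_sub I3, integral_add _ I3, integral_finsetSum, integral_finsetSum]
    · simp_rw [integral_finsetSum _ (fun j _ => I1 _ j), integral_finsetSum _ (fun j _ => I2 _ j),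
        ibp]
      simp only [Fin.sum_univ_two]; ring
    · exact fun i _ => integrable_finsetSum _ fun j _ => I2 i j
    · exact fun i _ => integrable_finsetSum _ fun j _ => I1 i j
    · exact integrable_finsetSum _ fun i _ => integrable_finsetSum _ fun j _ => I2 i j
    · exact integrable_finsetSum _ fun i _ => integrable_finsetSum _ fun j _ => I1 i j
  rw [e]
  apply integral_mono
  · have : Integrable fun p => w p * w p := (hwc.mul hwc).integrable_of_hasCompactSupport hK.mul_left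
    simpa [sq] using this
  · exact (integrable_finsetSum _ fun i _ => integrable_finsetSum _ fun j _ => I2 i j).add I3
  · intro p
    by_cases hp : p ∈ ball (0 : E) 1
    · have h2 := ell p (ball_subset_closedBall hp) fun i => pd i w p
      have h3 := h1 p (ball_subset_closedBall hp)
      simp only [Fin.sum_univ_two] at h2 ⊢
      nlinarith [mul_self_nonneg (w p)]
    · have h2 : ∀ j, pd j w p = 0 := fun j =>
        image_eq_zero_of_notMem_tsupport fun h => hp (hs (pd_supp j w h))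
      simp [hz p hp, h2]

def dx (l : L) : L := l.map fun m => (m.1 * m.2.1, m.2.1 - 1, m.2.2)
def dy (l : L) : L := l.map fun m => (m.1 * m.2.2, m.2.1, m.2.2 - 1)

/-- a polynomial as a function on the plane -/
def pf (l : L) (p : E) : ℝ := ev l (p 0) (p 1)

lemma pf_smooth {n : WithTop ℕ∞} (l : L) : ContDiff ℝ n (pf l) := by
  induction l with
  | nil => exact contDiff_const
  | cons m l ih =>
    have : pf (m :: l) = fun p => (m.1 : ℝ) * p 0 ^ m.2.1 * p 1 ^ m.2.2 + pf l p := by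
      ext p; simp [pf, ev]
    rw [this]
    exact ContDiff.add (by fun_prop) ih

lemma pd_mul (i : Fin 2) {f g : E → ℝ} (hf : Differentiable ℝ f) (hg : Differentiable ℝ g)
    (p : E) : pd i (fun q => f q * g q) p = f p * pd i g p + g p * pd i f p := by
  unfold pd
  rw [fderiv_fun_mul (hf p) (hg p)]
  simp

lemma pd_pf (l : L) (p : E) : pd 0 (pf l) p = pf (dx l) p ∧ pd 1 (pf l) p = pf (dy l) p := by
  induction l with
  | nil =>
    have : pf [] = fun _ => 0 := rfl
    simp [pd, this, dx, dy]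
  | cons m l ih =>
    have e : pf (m :: l) = fun p => (m.1 : ℝ) * p 0 ^ m.2.1 * p 1 ^ m.2.2 + pf l p := by
      ext p; simp [pf, ev]
    have h0 := (EuclideanSpace.proj (𝕜 := ℝ) (0 : Fin 2)).hasFDerivAt (x := p)
    have h1 := (EuclideanSpace.proj (𝕜 := ℝ) (1 : Fin 2)).hasFDerivAt (x := p)
    have h := ((((h0.pow m.2.1).const_mul (m.1 : ℝ)).fun_mul (h1.pow m.2.2)).fun_add
      (((pf_smooth (n := 1) l).differentiable (by norm_num)) p).hasFDerivAt).fderiv
    have e2 := (congrArg (fun f => fderiv ℝ f p) e).trans h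
    have a := ih.1
    have b := ih.2
    unfold pd at a b ⊢
    rw [e2]
    constructor
    · simp [a, pf, ev, dx]; ring
    · simp [b, pf, ev, dy]; ring

lemma pd0 (l : L) : pd 0 (pf l) = pf (dx l) := funext fun p => (pd_pf l p).1
lemma pd1 (l : L) : pd 1 (pf l) = pf (dy l) := funext fun p => (pd_pf l p).2

def mat (a b d : L) : Fin 2 → Fin 2 → E → ℝ := ![![pf a, pf b], ![pf b, pf d]]

lemma op_mat (a b d u : L) (c : ℝ) (p : E) : op (mat a b d) (fun _ => c) (pf u) p =
    -(pf a p * pf (dx (dx u)) p + pf (dx u) p * pf (dx a) p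
      + (pf b p * pf (dx (dy u)) p + pf (dy u) p * pf (dx b) p)
      + (pf b p * pf (dy (dx u)) p + pf (dx u) p * pf (dy b) p
      + (pf d p * pf (dy (dy u)) p + pf (dy u) p * pf (dy d) p))) + c * pf u p := by
  have D := fun l => (pf_smooth (n := 1) l).differentiable (by norm_num)
  simp only [op, Fin.sum_univ_two, mat, Matrix.cons_val_zero, Matrix.cons_val_one, pd0, pd1,
    pd_mul _ (D _) (D _)]

lemma disc {p : E} (hp : p ∈ closedBall (0 : E) 1) : 0 ≤ 1 - p 0 ^ 2 - p 1 ^ 2 := by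
  rw [mem_closedBall_zero_iff] at hp
  have h : ‖p‖ ^ 2 ≤ 1 := by nlinarith [norm_nonneg p]
  rw [EuclideanSpace.real_norm_sq_eq, Fin.sum_univ_two] at h
  linarith

lemma adm (a b d : L)
    (h : ∀ x y s t : ℝ, 0 ≤ 1 - x ^ 2 - y ^ 2 →
      s ^ 2 + t ^ 2 ≤ ev a x y * s ^ 2 + 2 * ev b x y * s * t + ev d x y * t ^ 2) :
    Admissible (mat a b d) (fun _ => 6) := by
  have sm : ∀ {n : WithTop ℕ∞} (i j), ContDiff ℝ n (mat a b d i j) := by
    intro n i j
    fin_cases i <;> fin_cases j <;> exact pf_smooth _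
  have ell : ∀ p ∈ closedBall (0 : E) 1, ∀ ξ : Fin 2 → ℝ,
      ∑ i, ξ i ^ 2 ≤ ∑ i, ∑ j, mat a b d i j p * ξ i * ξ j := by
    intro p hp ξ
    have := h (p 0) (p 1) (ξ 0) (ξ 1) (disc hp)
    simp only [Fin.sum_univ_two, mat, Matrix.cons_val_zero, Matrix.cons_val_one, pf]
    linarith
  refine ⟨sm, contDiff_const, fun i j => ?_, ell, fun _ _ => by norm_num, ?_⟩
  · fin_cases i <;> fin_cases j <;> rfl
  · exact posit _ _ sm continuous_const
      (fun p hp ξ => le_trans (Finset.sum_nonneg fun i _ => sq_nonneg _) (ell p hp ξ))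
      (fun _ _ => by norm_num)

lemma ellB (x y s t : ℝ) (h : 0 ≤ 1 - x ^ 2 - y ^ 2) :
    s ^ 2 + t ^ 2 ≤ ev lB11 x y * s ^ 2 + 2 * ev lB12 x y * s * t + ev lB22 x y * t ^ 2 := by
  have := ellA y (-x) t (-s) (by linarith [neg_sq x])
  simp only [ev, lA11, lA12, lA22, lB11, lB12, lB22, List.map, List.sum_cons, List.sum_nil]
    at this ⊢
  push_cast at this ⊢
  linarith

lemma posb (x y : ℝ) (h : 0 ≤ 1 - x ^ 2 - y ^ 2) : 1 ≤ ev lb x y := by
  have := posa y (-x) (by linarith [neg_sq x])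
  simp only [ev, la, lb, List.map, List.sum_cons, List.sum_nil] at this ⊢
  push_cast at this ⊢
  linarith

theorem main : ∃ (A B : Fin 2 → Fin 2 → E → ℝ) (c d a b u v : E → ℝ),
    Admissible A c ∧ Admissible B d ∧
    ContDiffOn ℝ (⊤ : ℕ∞) a (closedBall 0 1) ∧ ContDiffOn ℝ (⊤ : ℕ∞) b (closedBall 0 1) ∧
    (∀ p ∈ closedBall (0 : E) 1, 0 < a p ∧ 0 < b p) ∧
    ContDiff ℝ (⊤ : ℕ∞) u ∧ ContDiff ℝ (⊤ : ℕ∞) v ∧
    (∀ p ∈ ball (0 : E) 1, op A c u p + a p * v p = 0 ∧ -(b p * u p) + op B d v p = 0) ∧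
    (∀ p ∈ sphere (0 : E) 1, u p = 0 ∧ v p = 0) ∧
    (∃ p ∈ ball (0 : E) 1, u p ≠ 0) ∧ (∃ p ∈ ball (0 : E) 1, v p ≠ 0) := by
  have k1 : ∀ p ∈ closedBall (0 : E) 1, 0 < 2 - 3 * p 0 * p 1 - p 0 ^ 2 + 2 * p 1 ^ 2 := by
    intro p hp
    nlinarith [disc hp, sq_nonneg (p 0 - 2 * p 1), sq_nonneg (p 0), sq_nonneg (p 1)]
  have k2 : ∀ p ∈ closedBall (0 : E) 1, 0 < 2 + 3 * p 0 * p 1 - p 1 ^ 2 + 2 * p 0 ^ 2 := by
    intro p hp
    nlinarith [disc hp, sq_nonneg (p 1 + 2 * p 0), sq_nonneg (p 0), sq_nonneg (p 1)]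
  have eu : ∀ p : E, pf lu p = (1 - p 0 ^ 2 - p 1 ^ 2) * p 1 *
      (2 + 3 * p 0 * p 1 - p 1 ^ 2 + 2 * p 0 ^ 2) := by
    intro p
    simp only [pf, ev, lu, List.map, List.sum_cons, List.sum_nil]
    push_cast; ring
  have ev' : ∀ p : E, pf lv p = -((1 - p 0 ^ 2 - p 1 ^ 2) * p 0 *
      (2 - 3 * p 0 * p 1 - p 0 ^ 2 + 2 * p 1 ^ 2)) := by
    intro p
    simp only [pf, ev, lv, List.map, List.sum_cons, List.sum_nil]
    push_cast; ring
  have hb : ∀ i : Fin 2, (EuclideanSpace.single i (1 / 2 : ℝ) : E) ∈ ball (0 : E) 1 := by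
    intro i; simp; norm_num
  refine ⟨mat lA11 lA12 lA22, mat lB11 lB12 lB22, fun _ => 6, fun _ => 6,
    fun p => pf la p / (2 - 3 * p 0 * p 1 - p 0 ^ 2 + 2 * p 1 ^ 2),
    fun p => pf lb p / (2 + 3 * p 0 * p 1 - p 1 ^ 2 + 2 * p 0 ^ 2), pf lu, pf lv,
    adm _ _ _ ellA, adm _ _ _ ellB,
    (pf_smooth la).contDiffOn.div (by fun_prop) fun p hp => (k1 p hp).ne',
    (pf_smooth lb).contDiffOn.div (by fun_prop) fun p hp => (k2 p hp).ne',
    fun p hp => ⟨div_pos (lt_of_lt_of_le one_pos (posa _ _ (disc hp))) (k1 p hp),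
      div_pos (lt_of_lt_of_le one_pos (posb _ _ (disc hp))) (k2 p hp)⟩,
    pf_smooth _, pf_smooth _, fun p hp => ⟨?_, ?_⟩, fun p hp => ?_,
    ⟨_, hb 1, by rw [eu]; simp; norm_num⟩, ⟨_, hb 0, by rw [ev']; simp; norm_num⟩⟩
  · have h := (k1 p (ball_subset_closedBall hp)).ne'
    have e : pf la p / (2 - 3 * p 0 * p 1 - p 0 ^ 2 + 2 * p 1 ^ 2) * pf lv p =
        -(pf la p * ((1 - p 0 ^ 2 - p 1 ^ 2) * p 0)) := by
      rw [ev']; field_simp
    simp only
    rw [e, op_mat]
    simp only [pf, ev, dx, dy, lu, la, lA11, lA12, lA22, List.map, List.sum_cons, List.sum_nil]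
    norm_num
    ring
  · have h := (k2 p (ball_subset_closedBall hp)).ne'
    have e : pf lb p / (2 + 3 * p 0 * p 1 - p 1 ^ 2 + 2 * p 0 ^ 2) * pf lu p =
        pf lb p * ((1 - p 0 ^ 2 - p 1 ^ 2) * p 1) := by
      rw [eu]; field_simp
    simp only
    rw [e, op_mat]
    simp only [pf, ev, dx, dy, lv, lb, lB11, lB12, lB22, List.map, List.sum_cons, List.sum_nil]
    norm_num
    ring
  · rw [mem_sphere_zero_iff_norm] at hp
    have h : ‖p‖ ^ 2 = 1 := by rw [hp]; norm_num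
    rw [EuclideanSpace.real_norm_sq_eq, Fin.sum_univ_two] at h
    have h2 : 1 - p 0 ^ 2 - p 1 ^ 2 = 0 := by linarith
    rw [eu, ev', h2]; simp

end Pool.Agent.H1.Ramm
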