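import Mathlib

namespace Pool.Agent.H1.Ramm

/-- the Euclidean plane -/
abbrev E := EuclideanSpace ℝ (Fin 2)

/-- the derivative in the `i`-th coordinate direction -/
noncomputable def pd (i : Fin 2) (f : E → ℝ) (p : E) : ℝ :=
  fderiv ℝ f p (EuclideanSpace.single i 1)

/-- the operator `w ↦ -∑ ∂_i (A_ij ∂_j w) + c w` -/
noncomputable def op (A : Fin 2 → Fin 2 → E → ℝ) (c : E → ℝ) (w : E → ℝ) (p : E) : ℝ :=
  -(∑ i, ∑ j, pd i (fun q => A i j q * pd j w q) p) + c p * w p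

/-- smooth symmetric coefficients, uniformly elliptic on the closed unit disc, zero-order
coefficient at least `1` there, and `(Lw, w) ≥ ‖w‖²` for `C²` functions `w` supported in the disc -/
structure Admissible (A : Fin 2 → Fin 2 → E → ℝ) (c : E → ℝ) : Prop where
  smooth : ∀ i j, ContDiff ℝ (⊤ : ℕ∞) (A i j)
  smooth_c : ContDiff ℝ (⊤ : ℕ∞) c
  symm : ∀ i j, A i j = A j i
  elliptic : ∀ p ∈ Metric.closedBall (0 : E) 1, ∀ ξ : Fin 2 → ℝ,
    ∑ i, ξ i ^ 2 ≤ ∑ i, ∑ j, A i j p * ξ i * ξ j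
  one_le : ∀ p ∈ Metric.closedBall (0 : E) 1, 1 ≤ c p
  positive : ∀ w : E → ℝ, ContDiff ℝ 2 w → tsupport w ⊆ Metric.ball (0 : E) 1 →
    ∫ p in Metric.ball (0 : E) 1, w p ^ 2 ≤ ∫ p in Metric.ball (0 : E) 1, op A c w p * w p

end Pool.Agent.H1.Ramm
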