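import Mathlib

set_option autoImplicit false

namespace Pool.Agent.H1.RbA

open Finset Complex

noncomputable def P (k : ℕ) (b : ℝ) : ℝ := (ascPochhammer ℝ k).eval b

lemma P_zero (b : ℝ) : P 0 b = 1 := by simp [P]

lemma P_succ (k : ℕ) (b : ℝ) : P (k + 1) b = P k b * (b + k) := ascPochhammer_succ_eval k b

lemma P_succ' (k : ℕ) (b : ℝ) : P (k + 1) b = b * P k (b + 1) := by
  simp [P, ascPochhammer_succ_left, Polynomial.eval_comp]

lemma P_pos (k : ℕ) {b : ℝ} (hb : 0 < b) : 0 < P k b := ascPochhammer_pos k b hb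

lemma P_nonneg (k : ℕ) {b : ℝ} (hb : 0 ≤ b) : 0 ≤ P k b := by
  induction k with
  | zero => simp [P_zero]
  | succ k ih => rw [P_succ]; positivity

lemma P_cont (k : ℕ) : Continuous (P k) := (ascPochhammer ℝ k).continuous

/-- Chu–Vandermonde. -/
lemma chu (a : ℝ) (ha : 0 < a) (m : ℕ) : ∀ b : ℝ, 0 ≤ b →
    ∑ k ∈ range (m + 1), (m.choose k : ℝ) * ((-1) ^ k * P k b / P k (b + a)) =
      P m a / P m (b + a) := by
  induction m with
  | zero => intro b hb; simp [P_zero]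
  | succ m ih =>
    intro b hb
    have hba : 0 < b + a := by linarith
    rw [sum_choose_succ_mul (fun k _ => (-1 : ℝ) ^ k * P k b / P k (b + a)) m, ih b hb]
    have h2 : ∑ i ∈ range (m + 1), (m.choose i : ℝ) *
        ((-1) ^ (i + 1) * P (i + 1) b / P (i + 1) (b + a)) =
        -(b / (b + a)) * ∑ i ∈ range (m + 1), (m.choose i : ℝ) *
          ((-1) ^ i * P i (b + 1) / P i (b + 1 + a)) := by
      rw [mul_sum]
      refine sum_congr rfl fun i _ => ?_
      rw [P_succ', P_succ', show b + a + 1 = b + 1 + a by ring]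
      have := (P_pos i (show 0 < b + 1 + a by linarith)).ne'
      field_simp
      ring
    rw [h2, ih (b + 1) (by linarith)]
    have e1 := P_succ m (b + a)
    have e2 := P_succ' m (b + a)
    rw [show b + a + 1 = b + 1 + a by ring] at e2
    have p1 := (P_pos m hba)
    have p2 := (P_pos m (show 0 < b + 1 + a by linarith))
    have e3 : P m (b + 1 + a) = P m (b + a) * (b + a + m) / (b + a) := by
      rw [eq_div_iff hba.ne']; linarith
    have hm : (0 : ℝ) < b + a + m := by positivity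
    rw [e3, P_succ m a, e1]
    field_simp
    ring

noncomputable def c (n : ℕ) (β : ℝ) (k : ℕ) : ℝ := (n.descFactorial k : ℝ) / P k (β + n)
noncomputable def A (β : ℝ) (k : ℕ) : ℝ := P k β / (k.factorial : ℝ)

lemma c_succ {n : ℕ} (hn : 1 ≤ n) {β : ℝ} (hβ : 0 ≤ β) (k : ℕ) :
    c n β (k + 1) * (β + n + k) = ((n : ℝ) - k) * c n β k := by
  have hn' : (0 : ℝ) < n := by exact_mod_cast hn
  have h0 : 0 < β + n := by linarith
  have h1 : (0 : ℝ) < β + n + k := by positivity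
  have hp := (P_pos k h0).ne'
  unfold c
  rw [P_succ, Nat.descFactorial_succ]
  rcases le_or_gt k n with h | h
  · push_cast [Nat.cast_sub h]
    field_simp
  · rw [Nat.descFactorial_eq_zero_iff_lt.2 h]; simp

lemma A_succ (β : ℝ) (k : ℕ) : A β (k + 1) * (k + 1) = (β + k) * A β k := by
  unfold A
  rw [P_succ, Nat.factorial_succ]
  have : (k.factorial : ℝ) ≠ 0 := by positivity
  push_cast
  field_simp

lemma c_top (n : ℕ) (β : ℝ) : c n β (n + 1) = 0 := by
  unfold c
  rw [Nat.descFactorial_eq_zero_iff_lt.2 (Nat.lt_succ_self n)]; simp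

lemma c_nonneg {n : ℕ} (hn : 1 ≤ n) {β : ℝ} (hβ : 0 ≤ β) (k : ℕ) : 0 ≤ c n β k := by
  have hn' : (0 : ℝ) < n := by exact_mod_cast hn
  have := P_pos k (show 0 < β + n by linarith)
  unfold c; positivity

lemma A_nonneg {β : ℝ} (hβ : 0 ≤ β) (k : ℕ) : 0 ≤ A β k := by
  have := P_nonneg k hβ
  unfold A; positivity

noncomputable def F (n : ℕ) (β : ℝ) (z : ℂ) : ℂ :=
  ∑ k ∈ range (n + 1), (c n β k : ℂ) * (A β k : ℂ) * z ^ k
noncomputable def H (n : ℕ) (β : ℝ) (z : ℂ) : ℂ :=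
  ∑ k ∈ range (n + 1), (c n β (k + 1) : ℂ) * (A β k : ℂ) * z ^ k
noncomputable def DF (n : ℕ) (β : ℝ) (z : ℂ) : ℂ :=
  ∑ k ∈ range (n + 1), (c n β k : ℂ) * (A β k : ℂ) * (k * z ^ k)
noncomputable def DH (n : ℕ) (β : ℝ) (z : ℂ) : ℂ :=
  ∑ k ∈ range (n + 1), (c n β (k + 1) : ℂ) * (A β k : ℂ) * (k * z ^ k)

lemma ida (n : ℕ) (β : ℝ) (z : ℂ) : DF n β z = z * (DH n β z + β * H n β z) := by
  have h1 : ∑ k ∈ range (n + 1 + 1), (c n β k : ℂ) * (A β k : ℂ) * (k * z ^ k) = DF n β z := by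
    rw [sum_range_succ, c_top]; simp [DF]
  rw [← h1, sum_range_succ']
  simp only [DH, H, mul_sum, ← sum_add_distrib, Nat.cast_zero, zero_mul, mul_zero, add_zero]
  refine sum_congr rfl fun k _ => ?_
  have := congrArg (fun t : ℝ => (t : ℂ)) (A_succ β k)
  push_cast at this ⊢
  linear_combination (c n β (k + 1) : ℂ) * z ^ (k + 1) * this

lemma idb {n : ℕ} (hn : 1 ≤ n) {β : ℝ} (hβ : 0 ≤ β) (z : ℂ) :
    DH n β z + (β + n) * H n β z = n * F n β z - DF n β z := by
  simp only [DH, H, F, DF, mul_sum, ← sum_add_distrib, ← sum_sub_distrib]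
  refine sum_congr rfl fun k _ => ?_
  have := congrArg (fun t : ℝ => (t : ℂ)) (c_succ hn hβ k)
  push_cast at this ⊢
  linear_combination (A β k : ℂ) * z ^ k * this

lemma id1 {n : ℕ} (hn : 1 ≤ n) {β : ℝ} (hβ : 0 ≤ β) (z : ℂ) :
    (1 + z) * DF n β z = n * z * (F n β z - H n β z) := by
  linear_combination ida n β z + z * idb hn hβ z

lemma id2 {n : ℕ} (hn : 1 ≤ n) {β : ℝ} (hβ : 0 ≤ β) (z : ℂ) :
    (1 + z) * DH n β z = n * (F n β z - H n β z) - β * (1 + z) * H n β z := by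
  linear_combination (1 + z) * idb hn hβ z - id1 hn hβ z

lemma F_neg_one {n : ℕ} (hn : 1 ≤ n) {β : ℝ} (hβ : 0 ≤ β) : F n β (-1) ≠ 0 := by
  have hn' : (0 : ℝ) < n := by exact_mod_cast hn
  have h := chu n hn' n β hβ
  have hp : 0 < P n n / P n (β + n) :=
    div_pos (P_pos _ hn') (P_pos _ (by linarith))
  have e : F n β (-1) = ((P n n / P n (β + n) : ℝ) : ℂ) := by
    rw [← h, F]
    push_cast
    refine sum_congr rfl fun k _ => ?_
    have : (k.factorial : ℂ) ≠ 0 := by exact_mod_cast k.factorial_ne_zero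
    unfold c A
    rw [Nat.descFactorial_eq_factorial_mul_choose]
    push_cast
    field_simp
  rw [e]
  exact_mod_cast hp.ne'

lemma at_one {n : ℕ} (hn : 1 ≤ n) {β : ℝ} (hβ : 0 < β) :
    0 < normSq (F n β 1) - normSq (H n β 1) := by
  have hn' : (0 : ℝ) < n := by exact_mod_cast hn
  have e1 : F n β 1 = ((∑ k ∈ range (n + 1), c n β k * A β k : ℝ) : ℂ) := by simp [F]
  have e2 : H n β 1 = ((∑ k ∈ range (n + 1), c n β (k + 1) * A β k : ℝ) : ℂ) := by simp [H]
  have h0 : 0 ≤ ∑ k ∈ range (n + 1), c n β (k + 1) * A β k :=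
    sum_nonneg fun k _ => mul_nonneg (c_nonneg hn hβ.le _) (A_nonneg hβ.le _)
  have hle : ∀ k, c n β (k + 1) ≤ c n β k := by
    intro k
    have h1 := c_succ hn hβ.le k
    have h2 := c_nonneg hn hβ.le k
    have h3 : (0 : ℝ) < β + n + k := by positivity
    have h4 : (0 : ℝ) ≤ k := by positivity
    by_contra hc
    push Not at hc
    nlinarith [mul_lt_mul_of_pos_right hc h3]
  have hlt : ∑ k ∈ range (n + 1), c n β (k + 1) * A β k < ∑ k ∈ range (n + 1), c n β k * A β k := by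
    refine sum_lt_sum (fun k _ => mul_le_mul_of_nonneg_right (hle k) (A_nonneg hβ.le _))
      ⟨0, by simp, ?_⟩
    have h1 := c_succ hn hβ.le 0
    have h2 : c n β 0 = 1 := by simp [c, P_zero]
    have h3 : A β 0 = 1 := by simp [A, P_zero]
    rw [h2, h3]
    rw [h2] at h1
    simp only [Nat.cast_zero, add_zero, sub_zero, mul_one] at h1 ⊢
    by_contra hc
    push Not at hc
    nlinarith
  rw [e1, e2, normSq_ofReal, normSq_ofReal]
  nlinarith

lemma hd_sum (n : ℕ) (u : ℕ → ℂ) (θ : ℝ) :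
    HasDerivAt (fun t : ℝ => ∑ k ∈ range (n + 1), u k * (exp (t * I)) ^ k)
      (I * ∑ k ∈ range (n + 1), u k * (k * (exp (θ * I)) ^ k)) θ := by
  rw [mul_sum]
  refine HasDerivAt.fun_sum fun k _ => ?_
  have h1 : HasDerivAt (fun w : ℂ => u k * exp (k * (w * I))) (u k * (exp (k * (θ * I)) * (k * (1 * I)))) (θ : ℂ) :=
    ((((hasDerivAt_id (θ : ℂ)).mul_const I).const_mul (k : ℂ)).cexp).const_mul (u k)
  have h2 := h1.comp_ofReal
  simp only [exp_nat_mul] at h2
  exact h2.congr_deriv (by ring)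

lemma hd_normSq {f : ℝ → ℂ} {f' : ℂ} {θ : ℝ} (h : HasDerivAt f f' θ) :
    HasDerivAt (fun t => normSq (f t)) (2 * ((f θ).re * f'.re + (f θ).im * f'.im)) θ := by
  have hr : HasDerivAt (fun t => (f t).re) f'.re θ := reCLM.hasFDerivAt.comp_hasDerivAt θ h
  have hi : HasDerivAt (fun t => (f t).im) f'.im θ := imCLM.hasFDerivAt.comp_hasDerivAt θ h
  have := (hr.fun_mul hr).fun_add (hi.fun_mul hi)
  simp only [normSq_apply]
  exact this.congr_deriv (by ring)

lemma alg (n β : ℝ) (z f h df dh : ℂ) (hz : z.re ^ 2 + z.im ^ 2 = 1)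
    (h1 : (1 + z) * df = n * z * (f - h)) (h2 : (1 + z) * dh = n * (f - h) - β * (1 + z) * h) :
    (2 + 2 * z.re) * (2 * (f.re * (I * df).re + f.im * (I * df).im) -
      2 * (h.re * (I * dh).re + h.im * (I * dh).im)) =
      n * (-2 * z.im) * (normSq f - normSq h) := by
  have a1 := congrArg re h1
  have a2 := congrArg im h1
  have b1 := congrArg re h2
  have b2 := congrArg im h2
  simp only [mul_re, mul_im, add_re, add_im, sub_re, sub_im, one_re, one_im, ofReal_re, ofReal_im,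
    I_re, I_im, normSq_apply] at a1 a2 b1 b2 ⊢
  set x := z.re
  set y := z.im
  have e1 : (2 + 2 * x) * df.re = n * ((1 + x) * (f.re - h.re) - y * (f.im - h.im)) := by
    linear_combination (1 + x) * a1 + y * a2 + (n * (f.re - h.re) - df.re) * hz
  have e2 : (2 + 2 * x) * df.im = n * ((1 + x) * (f.im - h.im) + y * (f.re - h.re)) := by
    linear_combination (1 + x) * a2 - y * a1 + (n * (f.im - h.im) - df.im) * hz
  have e3 : (2 + 2 * x) * dh.re = n * ((1 + x) * (f.re - h.re) + y * (f.im - h.im)) -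
      β * (2 + 2 * x) * h.re := by
    linear_combination (1 + x) * b1 + y * b2 - (dh.re + β * h.re) * hz
  have e4 : (2 + 2 * x) * dh.im = n * ((1 + x) * (f.im - h.im) - y * (f.re - h.re)) -
      β * (2 + 2 * x) * h.im := by
    linear_combination (1 + x) * b2 - y * b1 - (dh.im + β * h.im) * hz
  linear_combination (2 * f.im) * e1 - (2 * f.re) * e2 - (2 * h.im) * e3 + (2 * h.re) * e4

lemma circ_pos {n : ℕ} (hn : 1 ≤ n) {β : ℝ} (hβ : 0 < β) {θ : ℝ}
    (hθ : θ ∈ Set.Ioo (-Real.pi) Real.pi) :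
    0 < normSq (F n β (exp (θ * I))) - normSq (H n β (exp (θ * I))) := by
  have hW : ∀ t ∈ Set.Ioo (-Real.pi) Real.pi, 0 < 2 + 2 * Real.cos t := by
    intro t ht
    have h1 : Real.cos Real.pi < Real.cos |t| :=
      Real.cos_lt_cos_of_nonneg_of_le_pi (abs_nonneg t) le_rfl (abs_lt.2 ht)
    rw [Real.cos_pi, Real.cos_abs] at h1
    linarith
  have hd : ∀ t ∈ Set.Ioo (-Real.pi) Real.pi, HasDerivAt (fun t : ℝ =>
      (normSq (F n β (exp (t * I))) - normSq (H n β (exp (t * I)))) / (2 + 2 * Real.cos t) ^ n)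
      0 t := by
    intro t ht
    have hF := hd_normSq (hd_sum n (fun k => (c n β k : ℂ) * (A β k : ℂ)) t)
    have hH := hd_normSq (hd_sum n (fun k => (c n β (k + 1) : ℂ) * (A β k : ℂ)) t)
    have hw : HasDerivAt (fun t : ℝ => (2 + 2 * Real.cos t) ^ n)
        (n * (2 + 2 * Real.cos t) ^ (n - 1) * (2 * -Real.sin t)) t :=
      (((Real.hasDerivAt_cos t).const_mul 2).const_add 2).fun_pow n
    have hw0 := (hW t ht)
    have hq := (hF.fun_sub hH).fun_div hw (pow_pos hw0 n).ne'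
    refine hq.congr_deriv ?_
    have key := alg n β (exp (t * I)) (F n β (exp (t * I))) (H n β (exp (t * I)))
      (DF n β (exp (t * I))) (DH n β (exp (t * I)))
      (by rw [exp_ofReal_mul_I_re, exp_ofReal_mul_I_im]; exact Real.cos_sq_add_sin_sq t)
      (by exact_mod_cast id1 hn hβ.le _) (by exact_mod_cast id2 hn hβ.le _)
    rw [exp_ofReal_mul_I_re, exp_ofReal_mul_I_im] at key
    rw [div_eq_zero_iff]
    left
    obtain ⟨m, rfl⟩ := Nat.exists_eq_add_of_le' hn
    simp only [Nat.add_sub_cancel, pow_succ (2 + 2 * Real.cos t) m]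
    unfold F H DF DH at key
    linear_combination (2 + 2 * Real.cos t) ^ m * key
  have hc := isOpen_Ioo.is_const_of_deriv_eq_zero isPreconnected_Ioo
    (fun t ht => (hd t ht).differentiableAt.differentiableWithinAt)
    (fun t ht => (hd t ht).deriv) hθ
    (show (0 : ℝ) ∈ Set.Ioo (-Real.pi) Real.pi from ⟨by linarith [Real.pi_pos], Real.pi_pos⟩)
  have h0 := at_one hn hβ
  simp only [ofReal_zero, zero_mul, exp_zero, Real.cos_zero] at hc
  have h1 : 0 < (normSq (F n β (exp (θ * I))) - normSq (H n β (exp (θ * I)))) /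
      (2 + 2 * Real.cos θ) ^ n := by
    rw [hc]; positivity
  exact (div_pos_iff_of_pos_right (pow_pos (hW θ hθ) n)).1 h1

lemma circ {n : ℕ} (hn : 1 ≤ n) {β : ℝ} (hβ : 0 < β) {z : ℂ} (hz : ‖z‖ = 1) :
    ‖H n β z‖ ≤ ‖F n β z‖ ∧ F n β z ≠ 0 := by
  by_cases h : z = -1
  · subst h
    refine ⟨?_, F_neg_one hn hβ.le⟩
    have h1 := id1 hn hβ.le (-1)
    have hn' : (n : ℂ) ≠ 0 := by exact_mod_cast (by omega : n ≠ 0)
    have : F n β (-1) = H n β (-1) := by
      have h2 : (n : ℂ) * (F n β (-1) - H n β (-1)) = 0 := by linear_combination h1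
      exact sub_eq_zero.1 ((mul_eq_zero.1 h2).resolve_left hn')
    rw [this]
  · have e : exp (arg z * I) = z := by
      have := norm_mul_exp_arg_mul_I z
      rwa [hz, ofReal_one, one_mul] at this
    have hθ : arg z ∈ Set.Ioo (-Real.pi) Real.pi := by
      refine ⟨neg_pi_lt_arg z, lt_of_le_of_ne (arg_le_pi z) fun h' => h ?_⟩
      rw [← e, h', exp_pi_mul_I]
    have h1 := circ_pos hn hβ hθ
    rw [e, normSq_eq_norm_sq, normSq_eq_norm_sq] at h1
    have h2 : ‖H n β z‖ < ‖F n β z‖ := by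
      by_contra hc
      push Not at hc
      nlinarith [norm_nonneg (F n β z)]
    exact ⟨h2.le, norm_pos_iff.1 (lt_of_le_of_lt (norm_nonneg _) h2)⟩

lemma F_zero (n : ℕ) (z : ℂ) : F n 0 z = 1 := by
  rw [F, sum_range_succ']
  have : ∀ k, A 0 (k + 1) = 0 := fun k => by simp [A, P_succ']
  simp only [this]
  simp [c, A, P_zero]

lemma F_diff (n : ℕ) (β : ℝ) : Differentiable ℂ (F n β) := by
  unfold F; fun_prop

lemma H_diff (n : ℕ) (β : ℝ) : Differentiable ℂ (H n β) := by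
  unfold H; fun_prop

lemma maxq {f g : ℂ → ℂ} (hf : Differentiable ℂ f) (hg : Differentiable ℂ g)
    (h0 : ∀ z ∈ Metric.closedBall (0 : ℂ) 1, g z ≠ 0)
    (h1 : ∀ z : ℂ, ‖z‖ = 1 → ‖f z‖ ≤ ‖g z‖) :
    ∀ z ∈ Metric.closedBall (0 : ℂ) 1, ‖f z‖ ≤ ‖g z‖ := by
  intro z hz
  have hcl : closure (Metric.ball (0 : ℂ) 1) = Metric.closedBall 0 1 := closure_ball 0 one_ne_zero
  have hd : DiffContOnCl ℂ (fun z => f z / g z) (Metric.ball 0 1) := by
    refine DifferentiableOn.diffContOnCl ?_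
    rw [hcl]
    exact hf.differentiableOn.div hg.differentiableOn h0
  have := norm_le_of_forall_mem_frontier_norm_le Metric.isBounded_ball hd (C := 1) (z := z)
    (by
      intro w hw
      rw [frontier_ball 0 one_ne_zero] at hw
      have hw' : ‖w‖ = 1 := by simpa using hw
      rw [norm_div]
      exact div_le_one_of_le₀ (h1 w hw') (norm_nonneg _)) (by rwa [hcl])
  rw [norm_div, div_le_one (norm_pos_iff.2 (h0 z hz))] at this
  exact this

lemma homot (Φ : ℝ → ℂ → ℂ) (hc : Continuous fun p : ℝ × ℂ => Φ p.1 p.2)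
    (hd : ∀ b, Differentiable ℂ (Φ b)) (h1 : ∀ b z, ‖z‖ = 1 → Φ b z ≠ 0)
    (h0 : ∀ z, Φ 0 z ≠ 0) {B : ℝ} (hB : 0 ≤ B) :
    ∀ z ∈ Metric.closedBall (0 : ℂ) 1, Φ B z ≠ 0 := by
  obtain ⟨p, hp, hmin⟩ := ((isCompact_Icc (a := 0) (b := B)).prod
    (isCompact_sphere (0 : ℂ) 1)).exists_isMinOn
    ⟨(0, 1), by simp [hB]⟩ (hc.norm.continuousOn)
  have hm : 0 < ‖Φ p.1 p.2‖ := norm_pos_iff.2 (h1 _ _ (by simpa using hp.2))
  set m := ‖Φ p.1 p.2‖ with hmdef
  have step : ∀ b ∈ Set.Icc 0 B, (∀ z ∈ Metric.closedBall (0 : ℂ) 1, Φ b z ≠ 0) →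
      ∀ z ∈ Metric.closedBall (0 : ℂ) 1, m ≤ ‖Φ b z‖ := by
    intro b hb hne z hz
    have := maxq (f := fun _ => (m : ℂ)) (differentiable_const _) (hd b) hne (fun w hw => by
      rw [norm_real, Real.norm_of_nonneg hm.le]
      exact hmin (show (b, w) ∈ Set.Icc 0 B ×ˢ Metric.sphere (0 : ℂ) 1 from ⟨hb, by simpa using hw⟩)) z hz
    rwa [norm_real, Real.norm_of_nonneg hm.le] at this
  have hS : IsClosed {b : ℝ | ∀ z ∈ Metric.closedBall (0 : ℂ) 1, m ≤ ‖Φ b z‖} := by
    simp only [Set.ofPred_forall]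
    refine isClosed_iInter fun z => isClosed_iInter fun _ => ?_
    exact isClosed_le continuous_const (hc.comp (Continuous.prodMk_left z)).norm
  have hmem : B ∈ {b : ℝ | ∀ z ∈ Metric.closedBall (0 : ℂ) 1, m ≤ ‖Φ b z‖} := by
    refine IsClosed.mem_of_ge_of_forall_exists_gt (a := 0) (hS.inter isClosed_Icc)
      (step 0 ⟨le_rfl, hB⟩ fun z _ => h0 z) hB ?_
    rintro x ⟨hx, hx0, hxB⟩
    have hev : ∀ᶠ b in nhds x, ∀ z ∈ Metric.closedBall (0 : ℂ) 1, Φ b z ≠ 0 := by
      refine (isCompact_closedBall (0 : ℂ) 1).eventually_forall_of_forall_eventually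
        (P := fun b z => Φ b z ≠ 0) fun z hz => ?_
      exact hc.continuousAt.eventually_ne (norm_pos_iff.1 (lt_of_lt_of_le hm (hx z hz)))
    obtain ⟨b, hb1, hb2⟩ := ((hev.filter_mono nhdsWithin_le_nhds).and
      (Ioc_mem_nhdsGT hxB)).exists
    exact ⟨b, step b ⟨hx0.trans hb2.1.le, hb2.2⟩ hb1, hb2⟩
  intro z hz
  exact norm_pos_iff.1 (lt_of_lt_of_le hm (hmem z hz))

lemma F_ne {n : ℕ} (hn : 1 ≤ n) {β : ℝ} (hβ : 0 ≤ β) :
    ∀ z ∈ Metric.closedBall (0 : ℂ) 1, F n β z ≠ 0 := by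
  have hn' : (0 : ℝ) < n := by exact_mod_cast hn
  have := homot (fun b z => F n |b| z) ?_ (fun b => F_diff n _) ?_ ?_ hβ
  · simpa [abs_of_nonneg hβ] using this
  · unfold F
    refine continuous_finsetSum _ fun k _ => ?_
    have h1 : Continuous fun b : ℝ => c n |b| k := by
      unfold c
      exact continuous_const.div ((P_cont k).comp (by fun_prop))
        fun b => (P_pos k (by positivity)).ne'
    have h2 : Continuous fun b : ℝ => A |b| k := by
      unfold A
      exact ((P_cont k).comp (by fun_prop)).div_const _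
    exact ((continuous_ofReal.comp (h1.comp continuous_fst)).mul
      (continuous_ofReal.comp (h2.comp continuous_fst))).mul (continuous_snd.pow k)
  · intro b z hz
    rcases (abs_nonneg b).eq_or_lt with h | h
    · simp only [← h, F_zero]; exact one_ne_zero
    · exact (circ hn h hz).2
  · intro z
    simp [F_zero]

theorem main {n : ℕ} (hn : 1 ≤ n) {β : ℝ} (hβ : 0 < β) (x : ℂ) (hx : ‖x‖ = 1) (z : ℂ)
    (hz : ‖z‖ < 1) : F n β z + x * (z * H n β z) ≠ 0 := by
  have hz' : z ∈ Metric.closedBall (0 : ℂ) 1 := by simpa using hz.le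
  have h1 := maxq (H_diff n β) (F_diff n β) (F_ne hn hβ.le) (fun w hw => (circ hn hβ hw).1) z hz'
  have h2 := norm_pos_iff.2 (F_ne hn hβ.le z hz')
  intro h
  have h3 : F n β z = -(x * (z * H n β z)) := eq_neg_of_add_eq_zero_left h
  have h4 : ‖F n β z‖ = ‖z‖ * ‖H n β z‖ := by
    rw [h3, norm_neg, norm_mul, norm_mul, hx, one_mul]
  nlinarith [norm_nonneg z, norm_nonneg (H n β z)]

end Pool.Agent.H1.RbA
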