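import Mathlib

open Filter Topology Set Finset

namespace Pool.Agent.H1.RepA

variable {X : Type*} [NormedAddCommGroup X] [NormedSpace ℂ X]

/-- `x` is approximable by blocks of distinct points of `(a,b)` with initial sums at most `β`. -/
def Q (k : ℝ → X) (a b : ℝ) (x : X) (β : ℝ) : Prop :=
  ∀ δ : ℝ, 0 < δ → ∀ F : Finset ℝ, ∃ N : ℕ, 0 < N ∧ ∃ (p : ℕ → ℝ) (c : ℕ → ℂ),
    InjOn p (Set.Iio N) ∧ (∀ i < N, p i ∈ Set.Ioo a b ∧ p i ∉ F) ∧
    ‖∑ i ∈ range N, c i • k (p i) - x‖ ≤ δ ∧ ∀ n ≤ N, ‖∑ i ∈ range n, c i • k (p i)‖ ≤ β + δ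

variable {k : ℝ → X} {a b : ℝ}

lemma Q.mono {x : X} {β γ : ℝ} (h : Q k a b x β) (hβ : β ≤ γ) : Q k a b x γ := by
  intro δ hδ F
  obtain ⟨N, hN, p, c, h1, h2, h3, h4⟩ := h δ hδ F
  exact ⟨N, hN, p, c, h1, h2, h3, fun n hn => (h4 n hn).trans (by linarith)⟩

lemma Q.smul {x : X} {β : ℝ} (h : Q k a b x β) (t : ℂ) : Q k a b (t • x) (‖t‖ * β) := by
  intro δ hδ F
  have ht := norm_nonneg t
  obtain ⟨N, hN, p, c, h1, h2, h3, h4⟩ := h (δ / (‖t‖ + 1)) (by positivity) F
  have h5 : ‖t‖ * (δ / (‖t‖ + 1)) ≤ δ := by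
    rw [← mul_div_assoc, div_le_iff₀ (by positivity)]; nlinarith
  refine ⟨N, hN, p, fun i => t * c i, h1, h2, ?_, fun n hn => ?_⟩
  · simp only [mul_smul, ← Finset.smul_sum, ← smul_sub, norm_smul]
    exact (mul_le_mul_of_nonneg_left h3 ht).trans h5
  · simp only [mul_smul, ← Finset.smul_sum, norm_smul]
    have := mul_le_mul_of_nonneg_left (h4 n hn) ht
    linarith

lemma Q.add {x y : X} {β γ : ℝ} (hx : Q k a b x β) (hy : Q k a b y γ) :
    Q k a b (x + y) (max β (‖x‖ + γ)) := by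
  intro δ hδ F
  obtain ⟨N, hN, p, c, h1, h2, h3, h4⟩ := hx (δ / 2) (by positivity) F
  obtain ⟨M, hM, q, d, g1, g2, g3, g4⟩ := hy (δ / 2) (by positivity) (F ∪ (range N).image p)
  let P : ℕ → ℝ := fun i => if i < N then p i else q (i - N)
  let C : ℕ → ℂ := fun i => if i < N then c i else d (i - N)
  have e1 : ∀ n ≤ N, ∑ i ∈ range n, C i • k (P i) = ∑ i ∈ range n, c i • k (p i) := by
    intro n hn
    refine Finset.sum_congr rfl fun i hi => ?_
    have : i < N := lt_of_lt_of_le (Finset.mem_range.1 hi) hn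
    simp [P, C, this]
  have e2 : ∀ n, ∑ i ∈ range (N + n), C i • k (P i) =
      ∑ i ∈ range N, c i • k (p i) + ∑ i ∈ range n, d i • k (q i) := by
    intro n
    rw [Finset.sum_range_add, e1 N le_rfl]
    simp [P, C]
  have hpq : ∀ i < N, ∀ j < M, p i ≠ q j := fun i hi j hj h =>
    (g2 j hj).2 (Finset.mem_union_right _ (Finset.mem_image.2 ⟨i, Finset.mem_range.2 hi, h⟩))
  refine ⟨N + M, by omega, P, C, ?_, ?_, ?_, ?_⟩
  · intro i hi j hj h
    simp only [Set.mem_Iio] at hi hj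
    by_cases h5 : i < N <;> by_cases h6 : j < N <;> simp only [P, h5, h6, if_true, if_false] at h
    · exact h1 h5 h6 h
    · exact absurd h (hpq i h5 _ (by omega))
    · exact absurd h.symm (hpq j h6 _ (by omega))
    · have := g1 (show i - N < M by omega) (show j - N < M by omega) h
      omega
  · intro i hi
    by_cases h5 : i < N <;> simp only [P, h5, if_true, if_false]
    · exact h2 i h5
    · exact ⟨(g2 _ (by omega)).1, fun h => (g2 (i - N) (by omega)).2 (Finset.mem_union_left _ h)⟩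
  · rw [e2, add_sub_add_comm]
    exact (norm_add_le _ _).trans (by linarith)
  · intro n hn
    rcases le_total n N with h5 | h5
    · rw [e1 n h5]
      exact (h4 n h5).trans (by linarith [le_max_left β (‖x‖ + γ)])
    · obtain ⟨m, rfl⟩ := Nat.exists_eq_add_of_le h5
      rw [e2]
      have h6 := norm_le_insert' (∑ i ∈ range N, c i • k (p i)) x
      have h7 := g4 m (by omega)
      exact (norm_add_le _ _).trans (by linarith [le_max_right β (‖x‖ + γ)])

lemma Q.single (hk : ContinuousOn k (Set.Ioo a b)) {q : ℝ} (hq : q ∈ Set.Ioo a b) :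
    Q k a b (k q) ‖k q‖ := by
  intro δ hδ F
  have h1 : ∀ᶠ p in 𝓝 q, ‖k p - k q‖ < δ := by
    have := (hk.continuousAt (isOpen_Ioo.mem_nhds hq)).eventually (Metric.ball_mem_nhds _ hδ)
    simpa [dist_eq_norm] using this
  have h2 : ∀ᶠ p in 𝓝[≠] q, p ∉ F := by
    have := (F.finite_toSet.isClosed.isOpen_compl)
    have h3 : ((F : Set ℝ) \ {q}).Finite := F.finite_toSet.sdiff
    filter_upwards [nhdsWithin_le_nhds (h3.isClosed.isOpen_compl.mem_nhds (by simp)),
      self_mem_nhdsWithin] with p hp hp2 hF using hp ⟨hF, hp2⟩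
  obtain ⟨p, hp1, hp2, hp3⟩ := (h2.and ((h1.and (isOpen_Ioo.mem_nhds hq)).filter_mono
    nhdsWithin_le_nhds)).exists
  refine ⟨1, one_pos, fun _ => p, fun _ => 1, fun i hi j hj _ => by
    simp only [Set.mem_Iio] at hi hj; omega, fun _ _ => ⟨hp3, hp1⟩, by simpa using hp2.le,
    fun n hn => ?_⟩
  have := norm_le_insert' (k p) (k q)
  interval_cases n
  · simp only [range_zero, sum_empty, norm_zero]; positivity
  · simp only [range_one, sum_singleton, one_smul]; linarith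

lemma Q.span (hk : ContinuousOn k (Set.Ioo a b)) (hab : a < b) {x : X}
    (hx : x ∈ Submodule.span ℂ (k '' Set.Ioo a b)) : ∃ β, Q k a b x β := by
  induction hx using Submodule.span_induction with
  | mem x hx => obtain ⟨q, hq, rfl⟩ := hx; exact ⟨_, Q.single hk hq⟩
  | zero =>
    obtain ⟨q, hq⟩ := Set.nonempty_Ioo.2 hab
    exact ⟨_, by simpa using (Q.single hk hq).smul 0⟩
  | add x y _ _ hx hy => obtain ⟨_, h1⟩ := hx; obtain ⟨_, h2⟩ := hy; exact ⟨_, h1.add h2⟩
  | smul t x _ hx => obtain ⟨_, h1⟩ := hx; exact ⟨_, h1.smul t⟩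

lemma Q.rep {y : X} {β : ℝ} (h : Q k a b y β) (s : ℕ) :
    Q k a b (((s + 1 : ℕ) : ℂ) • y) ((s + 1) * ‖y‖ + β) := by
  induction s with
  | zero => simpa using h.mono (by simp)
  | succ s ih =>
    have := ih.add h
    rw [show ((s + 1 + 1 : ℕ) : ℂ) • y = ((s + 1 : ℕ) : ℂ) • y + y by
      push_cast; simp [add_smul]]
    refine this.mono (max_le ?_ ?_)
    · push_cast; nlinarith [norm_nonneg y]
    · rw [norm_smul, Complex.norm_natCast]; push_cast; nlinarith [norm_nonneg y]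

lemma block (hk : ContinuousOn k (Set.Ioo a b)) (hab : a < b)
    (hd : Dense (Submodule.span ℂ (k '' Set.Ioo a b) : Set X)) (g : X) (δ : ℝ) (hδ : 0 < δ) :
    ∃ N : ℕ, 0 < N ∧ ∃ (p : ℕ → ℝ) (c : ℕ → ℂ),
      InjOn p (Set.Iio N) ∧ (∀ i < N, p i ∈ Set.Ioo a b) ∧
      ‖∑ i ∈ range N, c i • k (p i) - g‖ ≤ δ ∧
      ∀ n ≤ N, ‖∑ i ∈ range n, c i • k (p i)‖ ≤ ‖g‖ + δ := by
  obtain ⟨x, hx, hxg⟩ := hd.exists_dist_lt g (show 0 < δ / 3 by positivity)
  obtain ⟨β, hβ⟩ := Q.span hk hab hx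
  obtain ⟨s, hs⟩ := exists_nat_ge (β / (δ / 3))
  have hs0 : (0 : ℝ) < s + 1 := by positivity
  have h1 := (hβ.smul (((s + 1 : ℕ) : ℂ))⁻¹).rep s
  rw [smul_inv_smul₀ (by exact_mod_cast Nat.succ_ne_zero s), norm_smul, norm_inv,
    Complex.norm_natCast] at h1
  obtain ⟨N, hN, p, c, g1, g2, g3, g4⟩ := h1 (δ / 3) (by positivity) ∅
  rw [dist_comm, dist_eq_norm] at hxg
  refine ⟨N, hN, p, c, g1, fun i hi => (g2 i hi).1, ?_, fun n hn => (g4 n hn).trans ?_⟩
  · have := norm_sub_le_norm_sub_add_norm_sub (∑ i ∈ range N, c i • k (p i)) x g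
    linarith
  · have h2 := norm_le_insert' x g
    have h3 : (((s + 1 : ℕ) : ℝ))⁻¹ * β ≤ δ / 3 := by
      rw [div_le_iff₀ (by positivity)] at hs
      push_cast
      rw [inv_mul_le_iff₀ hs0]; nlinarith
    have h4 : ((s : ℝ) + 1) * ((((s + 1 : ℕ) : ℝ))⁻¹ * ‖x‖) = ‖x‖ := by
      push_cast; field_simp
    linarith

open Classical in
noncomputable def res (S : ℕ → X) (f : X) : ℕ → X
  | 0 => f
  | j + 1 => if ‖res S f j - S j‖ ≤ ‖res S f j‖ / 2 then res S f j - S j else res S f j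

omit [NormedSpace ℂ X] in
lemma res_lim (S : ℕ → X) (hS : ∀ r : X, ∀ ε > 0, ∀ J, ∃ j ≥ J, ‖r - S j‖ < ε) (f : X) :
    Tendsto (fun j => ‖res S f j‖) atTop (𝓝 0) := by
  have hanti : Antitone fun j => ‖res S f j‖ := by
    refine antitone_nat_of_succ_le fun j => ?_
    rw [res]
    split_ifs with h
    · linarith [norm_nonneg (res S f j)]
    · exact le_rfl
  have key : ∀ J, ∃ j, ‖res S f j‖ ≤ ‖res S f J‖ / 2 := by
    intro J
    by_contra hne
    push Not at hne
    have h1 : ∀ i, res S f (J + i) = res S f J := by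
      intro i
      induction i with
      | zero => rfl
      | succ i ih =>
        have := hne (J + i + 1)
        rw [← add_assoc, res]
        rw [res] at this
        split_ifs at this ⊢ with h
        · rw [ih] at h this; linarith
        · exact ih
    have h0 : 0 < ‖res S f J‖ := by linarith [hne J]
    obtain ⟨j, hj, h2⟩ := hS (res S f J) _ (half_pos h0) J
    obtain ⟨i, rfl⟩ := Nat.exists_eq_add_of_le hj
    have := hne (J + i + 1)
    rw [res, h1, if_pos h2.le] at this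
    linarith
  have k2 : ∀ m : ℕ, ∃ j, ‖res S f j‖ ≤ ‖f‖ * (1 / 2) ^ m := by
    intro m
    induction m with
    | zero => exact ⟨0, by simp [res]⟩
    | succ m ih =>
      obtain ⟨J, hJ⟩ := ih
      obtain ⟨j, hj⟩ := key J
      exact ⟨j, by rw [pow_succ]; linarith⟩
  rw [Metric.tendsto_atTop]
  intro ε hε
  have := (tendsto_pow_atTop_nhds_zero_of_lt_one (r := (1 / 2 : ℝ)) (by norm_num)
    (by norm_num)).const_mul ‖f‖
  rw [mul_zero] at this
  obtain ⟨m, hm⟩ := (this.eventually (gt_mem_nhds hε)).exists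
  obtain ⟨j, hj⟩ := k2 m
  refine ⟨j, fun n hn => ?_⟩
  have := hanti hn
  simp only [dist_zero_right, norm_norm] at this ⊢
  linarith

end Pool.Agent.H1.RepA
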