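import Mathlib
import Pool.Agent.H1.RepA

open Filter Topology Set Finset

namespace Pool.Agent.H1.RepB
open RepA

theorem rep {X : Type*} [NormedAddCommGroup X] [NormedSpace ℂ X]
    [TopologicalSpace.SeparableSpace X] (k : ℝ → X) (a : ℕ → ℝ) (ha : StrictMono a)
    (hk : ∀ j, ContinuousOn k (Set.Ioo (a j) (a (j + 1))))
    (hd : ∀ j, Dense (Submodule.span ℂ (k '' Set.Ioo (a j) (a (j + 1))) : Set X)) :
    ∃ Λ : ℕ → ℝ, Function.Injective Λ ∧ ∃ J : ℕ → ℕ, Tendsto J atTop atTop ∧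
      (∀ n, Λ n ∈ Set.Ioo (a (J n)) (a (J n + 1))) ∧ ∀ f : X, ∃ c : ℕ → ℂ,
        Tendsto (fun N => ‖f - ∑ n ∈ range N, c n • k (Λ n)‖) atTop (𝓝 0) := by
  classical
  let G : ℕ → X := fun j => TopologicalSpace.denseSeq X (Nat.unpair j).1
  choose N hN p c h1 h2 h3 h4 using fun j : ℕ => block (hk j) (ha (Nat.lt_succ_self j)) (hd j)
    (G j) (1 / ((j : ℝ) + 1)) (by positivity)
  let A : ℕ → ℕ := fun j => ∑ i ∈ range j, N i
  have hA : ∀ j, A (j + 1) = A j + N j := fun j => Finset.sum_range_succ _ _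
  have hAm : StrictMono A := strictMono_nat_of_lt_succ fun j => by rw [hA]; linarith [hN j]
  have hex : ∀ n, ∃ j, n < A (j + 1) := fun n => ⟨n, hAm.le_apply (x := n + 1)⟩
  let J : ℕ → ℕ := fun n => Nat.find (hex n)
  have J1 : ∀ n, n < A (J n + 1) := fun n => Nat.find_spec (hex n)
  have J2 : ∀ n, A (J n) ≤ n := by
    intro n
    rcases Nat.eq_zero_or_pos (J n) with h | h
    · rw [h]; simp [A]
    · have := Nat.find_min (hex n) (show J n - 1 < J n by omega)
      rw [show J n - 1 + 1 = J n by omega] at this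
      omega
  have J3 : ∀ j i, i < N j → J (A j + i) = j := by
    intro j i hi
    have e1 := J1 (A j + i)
    have e2 := J2 (A j + i)
    have e3 : A j < A (J (A j + i) + 1) := by omega
    have e4 : A (J (A j + i)) < A (j + 1) := by rw [hA]; omega
    have := hAm.lt_iff_lt.1 e3
    have := hAm.lt_iff_lt.1 e4
    omega
  have J4 : ∀ n, n - A (J n) < N (J n) := fun n => by
    have := J1 n; have := J2 n; rw [hA] at *; omega
  have hJ : Tendsto J atTop atTop := by
    rw [tendsto_atTop_atTop]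
    refine fun j => ⟨A j, fun n hn => ?_⟩
    have := hAm.lt_iff_lt.1 (lt_of_le_of_lt hn (J1 n))
    omega
  let Λ : ℕ → ℝ := fun n => p (J n) (n - A (J n))
  have hΛ : ∀ n, Λ n ∈ Set.Ioo (a (J n)) (a (J n + 1)) := fun n => h2 _ _ (J4 n)
  refine ⟨Λ, fun n m h => ?_, J, hJ, hΛ, fun f => ?_⟩
  · have e1 := hΛ n
    have e2 := hΛ m
    rw [h] at e1
    have e3 := ha.lt_iff_lt.1 (e1.1.trans e2.2)
    have e4 := ha.lt_iff_lt.1 (e2.1.trans e1.2)
    have e5 : J n = J m := by omega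
    have e6 := J4 n
    simp only [Λ] at h
    rw [e5] at h e6
    have := h1 (J m) e6 (J4 m) h
    have := J2 n
    have := J2 m
    rw [e5] at *
    omega
  let S : ℕ → X := fun j => ∑ i ∈ range (N j), c j i • k (p j i)
  have hS : ∀ r : X, ∀ ε > 0, ∀ M, ∃ j ≥ M, ‖r - S j‖ < ε := by
    intro r ε hε M
    obtain ⟨i, hi⟩ := (TopologicalSpace.denseRange_denseSeq X).exists_dist_lt r (half_pos hε)
    obtain ⟨L, hL⟩ := exists_nat_one_div_lt (half_pos hε)
    have e1 := Nat.right_le_pair i (M + L)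
    refine ⟨Nat.pair i (M + L), by omega, ?_⟩
    have e2 := h3 (Nat.pair i (M + L))
    have e3 : 1 / ((Nat.pair i (M + L) : ℝ) + 1) ≤ 1 / ((L : ℝ) + 1) := by
      gcongr; omega
    simp only [G, Nat.unpair_pair] at e2
    rw [dist_eq_norm] at hi
    rw [norm_sub_rev] at e2
    have := norm_sub_le_norm_sub_add_norm_sub r (TopologicalSpace.denseSeq X i)
      (S (Nat.pair i (M + L)))
    simp only [S] at this ⊢
    linarith
  let e : ℕ → ℂ := fun j => if ‖res S f j - S j‖ ≤ ‖res S f j‖ / 2 then 1 else 0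
  let C : ℕ → ℂ := fun n => e (J n) * c (J n) (n - A (J n))
  have step : ∀ j, ∀ i ≤ N j, ∑ n ∈ range (A j + i), C n • k (Λ n) =
      ∑ n ∈ range (A j), C n • k (Λ n) + e j • ∑ l ∈ range i, c j l • k (p j l) := by
    intro j i hi
    rw [Finset.sum_range_add, Finset.smul_sum]
    congr 1
    refine Finset.sum_congr rfl fun l hl => ?_
    have := J3 j l (lt_of_lt_of_le (Finset.mem_range.1 hl) hi)
    simp [C, Λ, this, mul_smul]
  have base : ∀ j, f - ∑ n ∈ range (A j), C n • k (Λ n) = res S f j := by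
    intro j
    induction j with
    | zero => simp [A, res]
    | succ j ih =>
      rw [hA, step j _ le_rfl, ← sub_sub, ih, res]
      simp only [e]
      split_ifs <;> simp [S]
  refine ⟨C, ?_⟩
  have hl := (((res_lim S hS f).const_mul (5 / 2)).add
    (tendsto_one_div_add_atTop_nhds_zero_nat.const_mul 2)).comp hJ
  simp only [mul_zero, add_zero] at hl
  refine squeeze_zero (fun _ => norm_nonneg _) (fun n => ?_) hl
  have e1 := step (J n) _ (J4 n).le
  rw [Nat.add_sub_cancel' (J2 n)] at e1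
  rw [e1, ← sub_sub, base]
  simp only [Function.comp_apply, e]
  have e0 : (0 : ℝ) < 1 / ((J n : ℝ) + 1) := by positivity
  split_ifs with h
  · have e2 := h4 (J n) _ (J4 n).le
    have e3 := h3 (J n)
    have e4 := norm_le_insert (S (J n)) (G (J n))
    have e5 := norm_le_insert (res S f (J n)) (S (J n))
    rw [one_smul]
    refine (norm_sub_le _ _).trans ?_
    simp only [S] at e4 e5 h ⊢
    linarith
  · simp only [zero_smul, sub_zero]
    linarith [norm_nonneg (res S f (J n))]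

noncomputable abbrev H := lp (fun _ : ℕ => ℂ) 2

lemma mem2 (f : ℕ → ℂ) : Memℓp f 2 ↔ Summable fun n => ‖f n‖ ^ 2 := by
  rw [memℓp_gen_iff (by norm_num)]
  simp

lemma nsq (f : H) : ‖f‖ ^ 2 = ∑' n, ‖f n‖ ^ 2 := by
  simpa using lp.norm_rpow_eq_tsum (p := 2) (by norm_num) f

lemma geo {t : ℝ} (h : |t| < 1) : Memℓp (fun n : ℕ => (t : ℂ) ^ n) 2 := by
  rw [mem2]
  have : t ^ 2 < 1 := (sq_lt_one_iff_abs_lt_one t).2 h
  refine (summable_geometric_of_lt_one (sq_nonneg t) this).congr fun n => ?_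
  rw [norm_pow, Complex.norm_real, Real.norm_eq_abs, ← pow_mul, ← pow_mul, mul_comm n 2, pow_mul,
    pow_mul, sq_abs]

open Classical in
noncomputable def k (t : ℝ) : H := if h : |t| < 1 then ⟨_, geo h⟩ else 0

lemma k_apply {t : ℝ} (h : |t| < 1) (n : ℕ) : k t n = (t : ℂ) ^ n := by simp [k, h]

lemma k_cont {a b : ℝ} (ha : 0 ≤ a) (hb : b < 1) : ContinuousOn k (Set.Ioo a b) := by
  intro t ht
  have hm : ∀ s ∈ Set.Ioo a b, |s| ≤ b := fun s hs => by
    rw [abs_of_nonneg (ha.trans hs.1.le)]; exact hs.2.le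
  have hb0 : 0 ≤ b := (abs_nonneg t).trans (hm t ht)
  have h1 : ContinuousOn (fun s : ℝ => ∑' n : ℕ, ‖(s : ℂ) ^ n - (t : ℂ) ^ n‖ ^ 2)
      (Set.Ioo a b) := by
    refine continuousOn_tsum (u := fun n => 4 * (b ^ 2) ^ n) (fun n => by fun_prop)
      ((summable_geometric_of_lt_one (sq_nonneg b) (by nlinarith)).mul_left 4) fun n s hs => ?_
    have e1 : ‖(s : ℂ) ^ n - (t : ℂ) ^ n‖ ≤ 2 * b ^ n := by
      refine (norm_sub_le _ _).trans ?_
      simp only [norm_pow, Complex.norm_real, Real.norm_eq_abs]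
      have := pow_le_pow_left₀ (abs_nonneg _) (hm s hs) n
      have := pow_le_pow_left₀ (abs_nonneg _) (hm t ht) n
      linarith
    rw [Real.norm_of_nonneg (sq_nonneg _), ← pow_mul, mul_comm 2 n, pow_mul]
    nlinarith [norm_nonneg ((s : ℂ) ^ n - (t : ℂ) ^ n)]
  have h2 := (h1 t ht).tendsto.sqrt
  simp only [sub_self, norm_zero, ne_eq, OfNat.ofNat_ne_zero, not_false_eq_true, zero_pow,
    tsum_zero, Real.sqrt_zero] at h2
  rw [ContinuousWithinAt, tendsto_iff_norm_sub_tendsto_zero]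
  refine h2.congr' ?_
  filter_upwards [self_mem_nhdsWithin] with s hs
  rw [← Real.sqrt_sq (norm_nonneg (k s - k t)), nsq]
  simp [k_apply ((hm s hs).trans_lt hb), k_apply ((hm t ht).trans_lt hb)]

lemma k_dense {a b : ℝ} (ha : 0 ≤ a) (hab : a < b) (hb : b < 1) :
    Dense (Submodule.span ℂ (k '' Set.Ioo a b) : Set H) := by
  rw [Submodule.dense_iff_topologicalClosure_eq_top, Submodule.topologicalClosure_eq_top_iff,
    Submodule.eq_bot_iff]
  intro f hf
  let P := FormalMultilinearSeries.ofScalars ℂ (fun n => f n)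
  have hr : ((1 : NNReal) : ENNReal) ≤ P.radius := by
    refine P.le_radius_of_bound ‖f‖ fun n => ?_
    simpa [P] using lp.norm_apply_le_norm (by norm_num) f n
  have hP := P.hasFPowerSeriesOnBall (lt_of_lt_of_le (by simp) hr)
  have hz : ∀ t ∈ Set.Ioo a b, P.sum t = 0 := by
    intro t ht
    have h1 := (Submodule.mem_orthogonal _ _).1 hf (k t) (Submodule.subset_span ⟨t, ht, rfl⟩)
    have h2 : |t| < 1 := by rw [abs_of_nonneg (ha.trans ht.1.le)]; exact ht.2.trans hb
    rw [lp.inner_eq_tsum] at h1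
    simpa [P, FormalMultilinearSeries.sum, k_apply h2, mul_comm] using h1
  have hsub : Metric.ball (0 : ℂ) 1 ⊆ Metric.eball 0 P.radius := by
    intro z hz
    have := Metric.eball_coe (x := (0 : ℂ)) (ε := (1 : NNReal))
    exact Metric.eball_subset_eball hr (by rw [this]; simpa using hz)
  set m := (a + b) / 2 with hm
  have hmI : m ∈ Set.Ioo a b := ⟨by linarith, by linarith⟩
  have h0 := (hP.analyticOnNhd.mono hsub).eqOn_zero_of_preconnected_of_frequently_eq_zero
    (convex_ball _ _).isPreconnected (z₀ := (m : ℂ))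
    (by simp [abs_of_nonneg (ha.trans hmI.1.le), hmI.2.trans hb]) (by
      have ht : Tendsto (fun t : ℝ => (t : ℂ)) (𝓝[≠] m) (𝓝[≠] (m : ℂ)) :=
        Complex.continuous_ofReal.continuousWithinAt.tendsto_nhdsWithin
          fun t ht h => ht (Complex.ofReal_injective h)
      refine ht.frequently (Eventually.frequently ?_)
      filter_upwards [nhdsWithin_le_nhds (isOpen_Ioo.mem_nhds hmI)] with t ht using hz t ht)
  have h1 := hP.hasFPowerSeriesAt.eq_zero_of_eventually
    (h0.eventuallyEq_of_mem (Metric.ball_mem_nhds _ one_pos))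
  rw [FormalMultilinearSeries.ofScalars_series_eq_zero] at h1
  ext n
  simpa using congrFun h1 n

theorem main : ∃ Λ : ℕ → ℝ, Function.Injective Λ ∧ (∀ n, Λ n ∈ Set.Ioo (0 : ℝ) 1) ∧
    Tendsto Λ atTop (𝓝 1) ∧ ∀ f : ℕ → ℂ, Summable (fun n => ‖f n‖ ^ 2) →
      ∃ c : ℕ → ℂ, Tendsto (fun N : ℕ => ∑' n : ℕ,
        ‖f n - ∑ j ∈ range N, c j * (Λ j : ℂ) ^ n‖ ^ 2) atTop (𝓝 0) := by
  let a : ℕ → ℝ := fun j => 1 - 1 / ((j : ℝ) + 1)
  have ha : StrictMono a := strictMono_nat_of_lt_succ fun j => by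
    simp only [a]; push_cast; gcongr; linarith
  have a0 : ∀ j, 0 ≤ a j := fun j => by simpa [a] using ha.monotone (Nat.zero_le j)
  have a1 : ∀ j, a j < 1 := fun j => sub_lt_self _ (by positivity)
  have hd := fun j => k_dense (a0 j) (ha (Nat.lt_succ_self j)) (a1 (j + 1))
  have hc := fun j => k_cont (a0 j) (a1 (j + 1))
  have : TopologicalSpace.SeparableSpace H := by
    rw [← TopologicalSpace.isSeparable_univ_iff, ← (hd 0).closure_eq]
    exact ((hc 0).isSeparable_image (TopologicalSpace.IsSeparable.of_separableSpace _)).span.closure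
  obtain ⟨Λ, h1, J, hJ, h2, h3⟩ := rep k a ha hc hd
  have hI : ∀ n, Λ n ∈ Set.Ioo (0 : ℝ) 1 := fun n =>
    ⟨(a0 _).trans_lt (h2 n).1, (h2 n).2.trans (a1 _)⟩
  refine ⟨Λ, h1, hI, ?_, fun f hf => ?_⟩
  · have := (tendsto_one_div_add_atTop_nhds_zero_nat.const_sub (1 : ℝ)).comp hJ
    rw [sub_zero] at this
    exact tendsto_of_tendsto_of_tendsto_of_le_of_le this tendsto_const_nhds
      (fun n => (h2 n).1.le) fun n => (hI n).2.le
  · obtain ⟨c, hc⟩ := h3 ⟨f, (mem2 f).2 hf⟩
    refine ⟨c, ?_⟩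
    have := hc.pow 2
    simp only [nsq, ne_eq, OfNat.ofNat_ne_zero, not_false_eq_true, zero_pow] at this
    refine this.congr fun N => tsum_congr fun n => ?_
    have hk : ∀ j, |Λ j| < 1 := fun j => by rw [abs_of_pos (hI j).1]; exact (hI j).2
    rw [lp.coeFn_sub, Pi.sub_apply, lp.coeFn_sum, Finset.sum_apply]
    simp only [lp.coeFn_smul, Pi.smul_apply, k_apply (hk _), smul_eq_mul]

end Pool.Agent.H1.RepB
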