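import Mathlib
import Pool.Agent.H1.RepA

open Filter Topology Set Finset

namespace Pool.Agent.H1.RepC

variable {X : Type*} [NormedAddCommGroup X] [NormedSpace ℂ X]

def R (k : ℂ → X) (x : X) (β : ℝ) (T : Set ℂ) : Prop :=
  ∃ N : ℕ, 0 < N ∧ ∃ (p : ℕ → ℂ) (c : ℕ → ℂ), InjOn p (Set.Iio N) ∧ (∀ i < N, p i ∈ T) ∧
    ∑ i ∈ range N, c i • k (p i) = x ∧ ∀ n ≤ N, ‖∑ i ∈ range n, c i • k (p i)‖ ≤ β

variable {k : ℂ → X}

lemma R.mono {x : X} {β γ : ℝ} {T U : Set ℂ} (h : R k x β T) (hβ : β ≤ γ) (hT : T ⊆ U) :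
    R k x γ U := by
  obtain ⟨N, hN, p, c, h1, h2, h3, h4⟩ := h
  exact ⟨N, hN, p, c, h1, fun i hi => hT (h2 i hi), h3, fun n hn => (h4 n hn).trans hβ⟩

lemma R.smul {x : X} {β : ℝ} {T : Set ℂ} (h : R k x β T) (t : ℂ) :
    R k (t • x) (‖t‖ * β) T := by
  obtain ⟨N, hN, p, c, h1, h2, h3, h4⟩ := h
  refine ⟨N, hN, p, fun i => t * c i, h1, h2, ?_, fun n hn => ?_⟩
  · simp only [mul_smul, ← Finset.smul_sum, h3]
  · simp only [mul_smul, ← Finset.smul_sum, norm_smul]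
    exact mul_le_mul_of_nonneg_left (h4 n hn) (norm_nonneg t)

lemma R.add {x y : X} {β γ : ℝ} {T U : Set ℂ} (hx : R k x β T) (hy : R k y γ U)
    (hTU : ∀ z ∈ T, z ∉ U) : R k (x + y) (max β (‖x‖ + γ)) (T ∪ U) := by
  obtain ⟨N, hN, p, c, h1, h2, h3, h4⟩ := hx
  obtain ⟨M, hM, q, d, g1, g2, g3, g4⟩ := hy
  let P : ℕ → ℂ := fun i => if i < N then p i else q (i - N)
  let C : ℕ → ℂ := fun i => if i < N then c i else d (i - N)
  have e1 : ∀ n ≤ N, ∑ i ∈ range n, C i • k (P i) = ∑ i ∈ range n, c i • k (p i) := by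
    intro n hn
    refine Finset.sum_congr rfl fun i hi => ?_
    have : i < N := lt_of_lt_of_le (Finset.mem_range.1 hi) hn
    simp [P, C, this]
  have e2 : ∀ n, ∑ i ∈ range (N + n), C i • k (P i) =
      x + ∑ i ∈ range n, d i • k (q i) := by
    intro n
    rw [Finset.sum_range_add, e1 N le_rfl, h3]
    simp [P, C]
  have hpq : ∀ i < N, ∀ j < M, p i ≠ q j := fun i hi j hj h =>
    hTU _ (h2 i hi) (h ▸ g2 j hj)
  refine ⟨N + M, by omega, P, C, ?_, ?_, ?_, ?_⟩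
  · intro i hi j hj h
    simp only [Set.mem_Iio] at hi hj
    by_cases h5 : i < N <;> by_cases h6 : j < N <;> simp only [P, h5, h6, if_true, if_false] at h
    · exact h1 h5 h6 h
    · exact absurd h (hpq i h5 _ (by omega))
    · exact absurd h.symm (hpq j h6 _ (by omega))
    · have := g1 (show i - N < M by omega) (show j - N < M by omega) h
      omega
  · intro i hi
    by_cases h5 : i < N <;> simp only [P, h5, if_true, if_false]
    · exact Or.inl (h2 i h5)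
    · exact Or.inr (g2 _ (by omega))
  · rw [e2, g3]
  · intro n hn
    rcases le_total n N with h5 | h5
    · rw [e1 n h5]
      exact (h4 n h5).trans (le_max_left _ _)
    · obtain ⟨m, rfl⟩ := Nat.exists_eq_add_of_le h5
      rw [e2]
      have h7 := g4 m (by omega)
      exact (norm_add_le _ _).trans (by linarith [le_max_right β (‖x‖ + γ)])

lemma R.single (q : ℂ) : R k (k q) ‖k q‖ {q} := by
  refine ⟨1, one_pos, fun _ => q, fun _ => 1, fun i hi j hj _ => by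
    simp only [Set.mem_Iio] at hi hj; omega, fun _ _ => rfl, by simp, fun n hn => ?_⟩
  interval_cases n <;> simp

def U (ρ : ℝ) (S S' : ℕ) : Set ℂ := {z | ∃ s, S ≤ s ∧ s < S' ∧ z ^ 2 ^ s = ρ}

def Q (k : ℂ → X) (ρ : ℝ) (x : X) (β : ℝ) : Prop :=
  ∀ δ : ℝ, 0 < δ → ∀ S : ℕ, ∃ S' : ℕ, S ≤ S' ∧ ∃ y, ‖y - x‖ ≤ δ ∧ R k y (β + δ) (U ρ S S')

variable {ρ : ℝ}

lemma lev {z : ℂ} {ρ σ : ℝ} {s t : ℕ} (h0 : 0 < ρ) (h1 : ρ < 1) (h2 : ρ ≤ σ) (hst : s < t)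
    (hs : z ^ 2 ^ s = ρ) (ht : z ^ 2 ^ t = σ) : False := by
  obtain ⟨d, rfl⟩ := Nat.exists_eq_add_of_lt hst
  rw [add_assoc, pow_add, pow_mul, hs] at ht
  have h3 : ρ ^ 2 ^ (d + 1) = σ := by exact_mod_cast ht
  have h4 : ρ ^ 2 ^ (d + 1) < ρ ^ 1 :=
    pow_lt_pow_right_of_lt_one₀ h0 h1 (Nat.one_lt_two_pow (by omega))
  rw [pow_one] at h4
  linarith

lemma U_disj (h0 : 0 < ρ) (h1 : ρ < 1) (S S' S'' : ℕ) : ∀ z ∈ U ρ S S', z ∉ U ρ S' S'' := by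
  rintro z ⟨s, -, hs, hz⟩ ⟨t, ht, -, hz'⟩
  exact lev h0 h1 le_rfl (by omega) hz hz'

lemma U_sub {S S' S'' : ℕ} (h : S ≤ S') (h' : S' ≤ S'') : U ρ S S' ∪ U ρ S' S'' ⊆ U ρ S S'' := by
  rintro z (⟨s, h1, h2, h3⟩ | ⟨s, h1, h2, h3⟩) <;> exact ⟨s, by omega, by omega, h3⟩

lemma Q.mono {x : X} {β γ : ℝ} (h : Q k ρ x β) (hβ : β ≤ γ) : Q k ρ x γ := by
  intro δ hδ S
  obtain ⟨S', hS, y, h1, h2⟩ := h δ hδ S
  exact ⟨S', hS, y, h1, h2.mono (by linarith) subset_rfl⟩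

lemma Q.smul {x : X} {β : ℝ} (h : Q k ρ x β) (t : ℂ) : Q k ρ (t • x) (‖t‖ * β) := by
  intro δ hδ S
  have ht := norm_nonneg t
  obtain ⟨S', hS, y, h1, h2⟩ := h (δ / (‖t‖ + 1)) (by positivity) S
  have h5 : ‖t‖ * (δ / (‖t‖ + 1)) ≤ δ := by
    rw [← mul_div_assoc, div_le_iff₀ (by positivity)]; nlinarith
  refine ⟨S', hS, t • y, ?_, (h2.smul t).mono (by linarith) subset_rfl⟩
  rw [← smul_sub, norm_smul]
  exact (mul_le_mul_of_nonneg_left h1 ht).trans h5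

lemma Q.add (h0 : 0 < ρ) (h1 : ρ < 1) {x y : X} {β γ : ℝ} (hx : Q k ρ x β) (hy : Q k ρ y γ) :
    Q k ρ (x + y) (max β (‖x‖ + γ)) := by
  intro δ hδ S
  obtain ⟨S', hS, u, g1, g2⟩ := hx (δ / 2) (by positivity) S
  obtain ⟨S'', hS', v, g3, g4⟩ := hy (δ / 2) (by positivity) S'
  refine ⟨S'', hS.trans hS', u + v, ?_, (g2.add g4 (U_disj h0 h1 _ _ _)).mono (max_le ?_ ?_)
    (U_sub hS hS')⟩
  · rw [add_sub_add_comm]
    exact (norm_add_le _ _).trans (by linarith)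
  · linarith [le_max_left β (‖x‖ + γ)]
  · linarith [le_max_right β (‖x‖ + γ), norm_le_insert' u x]

lemma Q.rep (h0 : 0 < ρ) (h1 : ρ < 1) {y : X} {β : ℝ} (h : Q k ρ y β) (s : ℕ) :
    Q k ρ (((s + 1 : ℕ) : ℂ) • y) ((s + 1) * ‖y‖ + β) := by
  induction s with
  | zero => simpa using h.mono (by simp)
  | succ s ih =>
    have := ih.add h0 h1 h
    rw [show ((s + 1 + 1 : ℕ) : ℂ) • y = ((s + 1 : ℕ) : ℂ) • y + y by
      push_cast; simp [add_smul]]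
    refine this.mono (max_le ?_ ?_)
    · push_cast; nlinarith [norm_nonneg y]
    · rw [norm_smul, Complex.norm_natCast]; push_cast; nlinarith [norm_nonneg y]

lemma block (h0 : 0 < ρ) (h1 : ρ < 1) (F : ℕ → X) (hF : ∀ m, ∃ β, Q k ρ (F m) β)
    (hd : Dense (Submodule.span ℂ (Set.range F) : Set X)) (g : X) : Q k ρ g ‖g‖ := by
  have hspan : ∀ x ∈ Submodule.span ℂ (Set.range F), ∃ β, Q k ρ x β := by
    intro x hx
    induction hx using Submodule.span_induction with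
    | mem x hx => obtain ⟨m, rfl⟩ := hx; exact hF m
    | zero => obtain ⟨_, h⟩ := hF 0; exact ⟨_, by simpa using h.smul 0⟩
    | add x y _ _ hx hy =>
      obtain ⟨_, h2⟩ := hx; obtain ⟨_, h3⟩ := hy; exact ⟨_, h2.add h0 h1 h3⟩
    | smul t x _ hx => obtain ⟨_, h2⟩ := hx; exact ⟨_, h2.smul t⟩
  intro δ hδ S
  obtain ⟨x, hx, hxg⟩ := hd.exists_dist_lt g (show 0 < δ / 3 by positivity)
  obtain ⟨β, hβ⟩ := hspan x hx
  obtain ⟨s, hs⟩ := exists_nat_ge (β / (δ / 3))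
  have hs0 : (0 : ℝ) < s + 1 := by positivity
  have h2 := (hβ.smul (((s + 1 : ℕ) : ℂ))⁻¹).rep h0 h1 s
  rw [smul_inv_smul₀ (by exact_mod_cast Nat.succ_ne_zero s), norm_smul, norm_inv,
    Complex.norm_natCast] at h2
  obtain ⟨S', hS, y, g1, g2⟩ := h2 (δ / 3) (by positivity) S
  rw [dist_comm, dist_eq_norm] at hxg
  refine ⟨S', hS, y, ?_, g2.mono ?_ subset_rfl⟩
  · have := norm_sub_le_norm_sub_add_norm_sub y x g
    linarith
  · have h2 := norm_le_insert' x g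
    have h3 : (((s + 1 : ℕ) : ℝ))⁻¹ * β ≤ δ / 3 := by
      rw [div_le_iff₀ (by positivity)] at hs
      push_cast
      rw [inv_mul_le_iff₀ hs0]; nlinarith
    have h4 : ((s : ℝ) + 1) * ((((s + 1 : ℕ) : ℝ))⁻¹ * ‖x‖) = ‖x‖ := by
      push_cast; field_simp
    linarith

end Pool.Agent.H1.RepC
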