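import Mathlib
import Pool.Agent.H1.RepC

open Filter Topology Set Finset

namespace Pool.Agent.H1.RepD
open RepC

variable {X : Type*} [NormedAddCommGroup X] [NormedSpace ℂ X] [CompleteSpace X]

noncomputable def G (F : ℕ → X) (N : ℕ) (w : ℂ) (a : ℕ) : X := ∑' l, w ^ l • F (a + l * N)

noncomputable def K (F : ℕ → X) (w : ℂ) : X := G F 1 w 0

variable {F : ℕ → X}

lemma Gsum (hF : ∀ n, ‖F n‖ ≤ 1) {w : ℂ} (hw : ‖w‖ < 1) (φ : ℕ → ℕ) :
    Summable fun l => w ^ l • F (φ l) := by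
  refine Summable.of_norm_bounded (summable_geometric_of_lt_one (norm_nonneg w) hw) fun l => ?_
  rw [norm_smul, norm_pow]
  exact mul_le_of_le_one_right (by positivity) (hF _)

lemma split (hF : ∀ n, ‖F n‖ ≤ 1) {v : ℂ} (hv : ‖v‖ < 1) (N a : ℕ) :
    G F N v a = G F (N * 2) (v ^ 2) a + v • G F (N * 2) (v ^ 2) (a + N) := by
  have hw : ‖v ^ 2‖ < 1 := by rw [norm_pow]; nlinarith [norm_nonneg v]
  have h1 := (Gsum hF hw fun l => a + l * (N * 2)).hasSum
  have h2 := (Gsum hF hw fun l => a + N + l * (N * 2)).hasSum.const_smul v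
  refine (HasSum.even_add_odd (f := fun l => v ^ l • F (a + l * N)) ?_ ?_).tsum_eq
  · convert h1 using 3 with l
    · rw [pow_mul]
    · congr 1; ring
    · rfl
  · convert h2 using 2 with l
    · rw [smul_smul, pow_succ', pow_mul]
      congr 2; ring
    · rfl

lemma dy (hF : ∀ n, ‖F n‖ ≤ 1) {θ : ℝ} (h0 : 0 ≤ θ) (h1 : θ < 1)
    (hB : ∀ w : ℂ, ‖w‖ < 1 → ∀ N, 0 < N → ∀ a, ‖G F N w a‖ ≤ (1 - ‖w‖) ^ (-θ)) (t : ℕ) :
    ∀ w : ℂ, w ≠ 0 → ‖w‖ < 1 → ∀ a < 2 ^ t, R (K F) (G F (2 ^ t) w a)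
      ((1 - 2 ^ (θ - 1))⁻¹ * (1 - ‖w‖) ^ (-θ) / ‖w‖) {z | z ^ 2 ^ t = w} := by
  set q : ℝ := 2 ^ (θ - 1) with hq
  have hq0 : 0 < q := by positivity
  have hq1 : q < 1 := Real.rpow_lt_one_of_one_lt_of_neg one_lt_two (by linarith)
  set D := (1 - q)⁻¹ with hD
  have hD1 : D * (1 - q) = 1 := inv_mul_cancel₀ (by linarith)
  have hD0 : 0 < D := inv_pos.2 (by linarith)
  have hD2 : 1 ≤ D := by nlinarith
  induction t with
  | zero =>
    intro w hw0 hw a ha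
    obtain rfl : a = 0 := by omega
    have hn := norm_pos_iff.2 hw0
    have hE : 0 < (1 - ‖w‖) ^ (-θ) := Real.rpow_pos_of_pos (by linarith) _
    refine (R.single w).mono ((hB w hw 1 one_pos 0).trans ?_) (by simp)
    rw [le_div_iff₀ hn]; nlinarith
  | succ t ih =>
    intro w hw0 hw a ha
    obtain ⟨v, rfl⟩ := IsAlgClosed.exists_pow_nat_eq w two_pos
    have hv0 : v ≠ 0 := by rintro rfl; simp at hw0
    have hn := norm_pos_iff.2 hv0
    rw [norm_pow] at hw ⊢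
    have hv : ‖v‖ < 1 := by nlinarith
    have hv' : ‖-v‖ < 1 := by rwa [norm_neg]
    set E := (1 - ‖v‖) ^ (-θ) with hE
    have hE0 : 0 < E := Real.rpow_pos_of_pos (by linarith) _
    have hE1 : E ≤ 2 * q * (1 - ‖v‖ ^ 2) ^ (-θ) := by
      have e1 : 2 * q = (1 / 2 : ℝ) ^ (-θ) := by
        rw [hq, Real.rpow_sub two_pos, Real.rpow_one, one_div, Real.inv_rpow zero_le_two,
          Real.rpow_neg zero_le_two, inv_inv]; ring
      rw [e1, ← Real.mul_rpow (by norm_num) (by linarith)]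
      exact Real.rpow_le_rpow_of_nonpos (by linarith) (by nlinarith) (by linarith)
    have key : ∀ (b : ℕ) (σ τ : ℂ), b < 2 ^ t → ‖σ‖ = 1 → ‖τ‖ ≤ (2 * ‖v‖)⁻¹ →
        R (K F) (τ • (G F (2 ^ t) v b + σ • G F (2 ^ t) (-v) b))
          (D * (1 - ‖v‖ ^ 2) ^ (-θ) / ‖v‖ ^ 2) {z | z ^ 2 ^ (t + 1) = v ^ 2} := by
      intro b σ τ hb hσ hτ
      have r1 := ih v hv0 hv b hb
      have r2 := (ih (-v) (neg_ne_zero.2 hv0) hv' b hb).smul σ
      rw [hσ, one_mul, norm_neg] at r2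
      have r3 := (r1.add r2 (fun z h2 h3 => hv0 (by
        simp only [mem_ofPred_eq] at h2 h3
        linear_combination (h3 - h2) / 2))).smul τ
      refine r3.mono ?_ ?_
      · have n1 := hB v hv (2 ^ t) (by positivity) b
        have n2 : max (D * E / ‖v‖) (‖G F (2 ^ t) v b‖ + D * E / ‖v‖) ≤ (1 + D) * E / ‖v‖ := by
          have n3 : E ≤ E / ‖v‖ := by rw [le_div_iff₀ hn]; nlinarith
          have n4 : (1 + D) * E / ‖v‖ = E / ‖v‖ + D * E / ‖v‖ := by ring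
          refine max_le ?_ ?_ <;> linarith
        have n5 : 0 < (1 - ‖v‖ ^ 2) ^ (-θ) := Real.rpow_pos_of_pos (by linarith) _
        calc _ ≤ (2 * ‖v‖)⁻¹ * ((1 + D) * (2 * q * (1 - ‖v‖ ^ 2) ^ (-θ)) / ‖v‖) := by
              refine mul_le_mul hτ (n2.trans ?_) (le_max_of_le_left (by positivity))
                (by positivity)
              gcongr
          _ = ((1 + D) * q) * (1 - ‖v‖ ^ 2) ^ (-θ) / ‖v‖ ^ 2 := by field_simp
          _ ≤ _ := by gcongr; nlinarith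
      · rintro z (hz | hz) <;> simp only [mem_ofPred_eq] at hz ⊢ <;>
          rw [pow_succ, pow_mul, hz]
        ring
    rw [pow_succ 2 t] at ha ⊢
    rcases lt_or_ge a (2 ^ t) with h | h
    · have := key a 1 2⁻¹ h norm_one (by
        rw [norm_inv, Complex.norm_ofNat]; exact inv_anti₀ (by positivity) (by linarith))
      rw [split hF hv, split hF hv', neg_sq, pow_succ 2 t] at this
      convert this using 1
      module
    · obtain ⟨b, rfl⟩ := Nat.exists_eq_add_of_le' h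
      have := key b (-1) (2 * v)⁻¹ (by omega) (by simp) (by simp)
      rw [split hF hv, split hF hv', neg_sq, pow_succ 2 t] at this
      convert this using 1
      rw [show G F (2 ^ t * 2) (v ^ 2) b + v • G F (2 ^ t * 2) (v ^ 2) (b + 2 ^ t) +
        (-1 : ℂ) • (G F (2 ^ t * 2) (v ^ 2) b + -v • G F (2 ^ t * 2) (v ^ 2) (b + 2 ^ t)) =
        (2 * v) • G F (2 ^ t * 2) (v ^ 2) (b + 2 ^ t) by module,
        inv_smul_smul₀ (mul_ne_zero two_ne_zero hv0)]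

lemma QF (hF : ∀ n, ‖F n‖ ≤ 1) {θ : ℝ} (h0 : 0 ≤ θ) (h1 : θ < 1)
    (hB : ∀ w : ℂ, ‖w‖ < 1 → ∀ N, 0 < N → ∀ a, ‖G F N w a‖ ≤ (1 - ‖w‖) ^ (-θ))
    (hA : ∀ ε > 0, ∃ M : ℕ, ∀ φ : ℕ → ℕ, Function.Injective φ →
      ‖∑ i ∈ range (M + 1), F (φ i)‖ ≤ ε * (M + 1))
    {ρ : ℝ} (r0 : 0 < ρ) (r1 : ρ < 1) (m : ℕ) : ∃ β, Q (K F) ρ (F m) β := by
  have hn : ‖(ρ : ℂ)‖ = ρ := by simp [r0.le]
  have hρ : ‖(ρ : ℂ)‖ < 1 := by rwa [hn]
  set B := (1 - 2 ^ (θ - 1))⁻¹ * (1 - ‖(ρ : ℂ)‖) ^ (-θ) / ‖(ρ : ℂ)‖ with hBd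
  set E := (1 - ‖(ρ : ℂ)‖) ^ (-θ) with hE
  have hE0 : 0 ≤ E := Real.rpow_nonneg (by linarith) _
  have one : ∀ s, m ≤ s → R (K F) (G F (2 ^ s) ρ m) B (U ρ s (s + 1)) := fun s hs =>
    (dy hF h0 h1 hB s ρ (by exact_mod_cast r0.ne') hρ m
      (lt_of_le_of_lt hs Nat.lt_two_pow_self)).mono le_rfl
      fun z hz => ⟨s, le_rfl, by omega, hz⟩
  have hB0 : 0 ≤ B := by
    obtain ⟨_, _, _, _, _, _, _, h⟩ := one m le_rfl
    simpa using h 0 (Nat.zero_le _)
  refine ⟨E + B, fun δ hδ S => ?_⟩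
  obtain ⟨M, hM⟩ := hA (δ * (1 - ρ)) (mul_pos hδ (by linarith))
  have many : ∀ n, R (K F) (∑ i ∈ range (n + 1), G F (2 ^ (S + m + i)) ρ m) (n * E + B)
      (U ρ (S + m) (S + m + n + 1)) := by
    intro n
    induction n with
    | zero => simpa using one (S + m) (by omega)
    | succ n ih =>
      rw [Finset.sum_range_succ]
      refine (ih.add (one (S + m + (n + 1)) (by omega)) (U_disj r0 r1 _ _ _)).mono
        (max_le ?_ ?_) (U_sub (by omega) (by omega))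
      · push_cast; linarith
      · have := (norm_sum_le _ _).trans (Finset.sum_le_card_nsmul (range (n + 1))
          (fun i => ‖G F (2 ^ (S + m + i)) ρ m‖) E fun i _ => hB _ hρ _ (by positivity) _)
        simp only [card_range, nsmul_eq_mul] at this
        linarith
  have hM0 : (0 : ℝ) < M + 1 := by positivity
  have hM1 : ((M + 1 : ℕ) : ℂ) ≠ 0 := by exact_mod_cast Nat.succ_ne_zero M
  have hM2 : ‖(((M + 1 : ℕ) : ℂ))⁻¹‖ = ((M : ℝ) + 1)⁻¹ := by
    rw [norm_inv, Complex.norm_natCast]; push_cast; rfl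
  refine ⟨S + m + M + 1, by omega, _, ?_, ((many M).smul (((M + 1 : ℕ) : ℂ))⁻¹).mono ?_ ?_⟩
  · have e1 : ∀ i, HasSum (fun l => (ρ : ℂ) ^ (l + 1) • F (m + (l + 1) * 2 ^ (S + m + i)))
        (G F (2 ^ (S + m + i)) ρ m - F m) := by
      intro i
      have := (hasSum_nat_add_iff' 1).2 (Gsum hF hρ fun l => m + l * 2 ^ (S + m + i)).hasSum
      simpa [G] using this
    have e2 := hasSum_sum (s := range (M + 1)) fun i _ => e1 i
    have e3 := e2.norm_le_of_bounded ((hasSum_geometric_of_lt_one r0.le r1).mul_left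
      (δ * (1 - ρ) * (M + 1))) (fun l => by
        rw [← Finset.smul_sum, norm_smul, norm_pow, hn, mul_comm]
        refine mul_le_mul (hM _ fun i j h => ?_)
          (pow_le_pow_of_le_one r0.le r1.le (Nat.le_succ l)) (by positivity)
          (mul_nonneg (mul_pos hδ (by linarith)).le hM0.le)
        have h2 : 2 ^ (S + m + i) = 2 ^ (S + m + j) :=
          Nat.eq_of_mul_eq_mul_left (Nat.succ_pos l) (Nat.add_left_cancel h)
        have := Nat.pow_right_injective le_rfl h2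
        omega)
    have e4 : (((M + 1 : ℕ) : ℂ))⁻¹ • ∑ i ∈ range (M + 1), G F (2 ^ (S + m + i)) ρ m - F m =
        (((M + 1 : ℕ) : ℂ))⁻¹ • ∑ i ∈ range (M + 1), (G F (2 ^ (S + m + i)) ρ m - F m) := by
      rw [Finset.sum_sub_distrib, smul_sub, Finset.sum_const, card_range,
        ← Nat.cast_smul_eq_nsmul ℂ, inv_smul_smul₀ hM1]
    rw [e4, norm_smul, hM2, inv_mul_le_iff₀ hM0]
    refine e3.trans (le_of_eq ?_)
    have : 1 - ρ ≠ 0 := by linarith
    field_simp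
  · rw [hM2, inv_mul_le_iff₀ hM0]
    have : (0 : ℝ) ≤ M := Nat.cast_nonneg M
    nlinarith
  · rintro z ⟨s, g1, g2, g3⟩
    exact ⟨s, by omega, g2, g3⟩

end Pool.Agent.H1.RepD
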