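import Mathlib
import Pool.Agent.H1.RepD

open Filter Topology Set Finset

namespace Pool.Agent.H1.RepE
open RepA RepC RepD

variable {X : Type*} [NormedAddCommGroup X] [NormedSpace ℂ X]

theorem assemble [TopologicalSpace.SeparableSpace X] (k : ℂ → X) (N : ℕ → ℕ)
    (p c : ℕ → ℕ → ℂ) (hN : ∀ j, 0 < N j) (h1 : ∀ j, InjOn (p j) (Set.Iio (N j)))
    (hx : ∀ j j', j < j' → ∀ i < N j, ∀ i' < N j', p j i ≠ p j' i')
    (h3 : ∀ j, ‖∑ i ∈ range (N j), c j i • k (p j i) -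
      TopologicalSpace.denseSeq X (Nat.unpair j).1‖ ≤ 1 / ((j : ℝ) + 1))
    (h4 : ∀ j, ∀ n ≤ N j, ‖∑ i ∈ range n, c j i • k (p j i)‖ ≤
      ‖TopologicalSpace.denseSeq X (Nat.unpair j).1‖ + 1 / ((j : ℝ) + 1)) :
    ∃ (Λ : ℕ → ℂ) (J : ℕ → ℕ), Function.Injective Λ ∧ Tendsto J atTop atTop ∧
      (∀ n, ∃ i < N (J n), Λ n = p (J n) i) ∧ ∀ f : X, ∃ c : ℕ → ℂ,
        Tendsto (fun N => ‖f - ∑ n ∈ range N, c n • k (Λ n)‖) atTop (𝓝 0) := by
  classical
  let G : ℕ → X := fun j => TopologicalSpace.denseSeq X (Nat.unpair j).1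
  let A : ℕ → ℕ := fun j => ∑ i ∈ range j, N i
  have hA : ∀ j, A (j + 1) = A j + N j := fun j => Finset.sum_range_succ _ _
  have hAm : StrictMono A := strictMono_nat_of_lt_succ fun j => by rw [hA]; linarith [hN j]
  have hex : ∀ n, ∃ j, n < A (j + 1) := fun n => ⟨n, hAm.le_apply (x := n + 1)⟩
  let J : ℕ → ℕ := fun n => Nat.find (hex n)
  have J1 : ∀ n, n < A (J n + 1) := fun n => Nat.find_spec (hex n)
  have J2 : ∀ n, A (J n) ≤ n := by
    intro n
    rcases Nat.eq_zero_or_pos (J n) with h | h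
    · rw [h]; simp [A]
    · have := Nat.find_min (hex n) (show J n - 1 < J n by omega)
      rw [show J n - 1 + 1 = J n by omega] at this
      omega
  have J3 : ∀ j i, i < N j → J (A j + i) = j := by
    intro j i hi
    have e1 := J1 (A j + i)
    have e2 := J2 (A j + i)
    have e3 : A j < A (J (A j + i) + 1) := by omega
    have e4 : A (J (A j + i)) < A (j + 1) := by rw [hA]; omega
    have := hAm.lt_iff_lt.1 e3
    have := hAm.lt_iff_lt.1 e4
    omega
  have J4 : ∀ n, n - A (J n) < N (J n) := fun n => by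
    have := J1 n; have := J2 n; rw [hA] at *; omega
  have hJ : Tendsto J atTop atTop := by
    rw [tendsto_atTop_atTop]
    refine fun j => ⟨A j, fun n hn => ?_⟩
    have := hAm.lt_iff_lt.1 (lt_of_le_of_lt hn (J1 n))
    omega
  let Λ : ℕ → ℂ := fun n => p (J n) (n - A (J n))
  refine ⟨Λ, J, fun n m h => ?_, hJ, fun n => ⟨_, J4 n, rfl⟩, fun f => ?_⟩
  · have e5 : J n = J m := by
      rcases lt_trichotomy (J n) (J m) with e | e | e
      · exact absurd h (hx _ _ e _ (J4 n) _ (J4 m))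
      · exact e
      · exact absurd h.symm (hx _ _ e _ (J4 m) _ (J4 n))
    have e6 := J4 n
    simp only [Λ] at h
    rw [e5] at h e6
    have := h1 (J m) e6 (J4 m) h
    have := J2 n
    have := J2 m
    rw [e5] at *
    omega
  let S : ℕ → X := fun j => ∑ i ∈ range (N j), c j i • k (p j i)
  have hS : ∀ r : X, ∀ ε > 0, ∀ M, ∃ j ≥ M, ‖r - S j‖ < ε := by
    intro r ε hε M
    obtain ⟨i, hi⟩ := (TopologicalSpace.denseRange_denseSeq X).exists_dist_lt r (half_pos hε)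
    obtain ⟨L, hL⟩ := exists_nat_one_div_lt (half_pos hε)
    have e1 := Nat.right_le_pair i (M + L)
    refine ⟨Nat.pair i (M + L), by omega, ?_⟩
    have e2 := h3 (Nat.pair i (M + L))
    have e3 : 1 / ((Nat.pair i (M + L) : ℝ) + 1) ≤ 1 / ((L : ℝ) + 1) := by
      gcongr; omega
    simp only [Nat.unpair_pair] at e2
    rw [dist_eq_norm] at hi
    rw [norm_sub_rev] at e2
    have := norm_sub_le_norm_sub_add_norm_sub r (TopologicalSpace.denseSeq X i)
      (S (Nat.pair i (M + L)))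
    simp only [S] at this ⊢
    linarith
  let e : ℕ → ℂ := fun j => if ‖res S f j - S j‖ ≤ ‖res S f j‖ / 2 then 1 else 0
  let C : ℕ → ℂ := fun n => e (J n) * c (J n) (n - A (J n))
  have step : ∀ j, ∀ i ≤ N j, ∑ n ∈ range (A j + i), C n • k (Λ n) =
      ∑ n ∈ range (A j), C n • k (Λ n) + e j • ∑ l ∈ range i, c j l • k (p j l) := by
    intro j i hi
    rw [Finset.sum_range_add, Finset.smul_sum]
    congr 1
    refine Finset.sum_congr rfl fun l hl => ?_
    have := J3 j l (lt_of_lt_of_le (Finset.mem_range.1 hl) hi)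
    simp [C, Λ, this, mul_smul]
  have base : ∀ j, f - ∑ n ∈ range (A j), C n • k (Λ n) = res S f j := by
    intro j
    induction j with
    | zero => simp [A, res]
    | succ j ih =>
      rw [hA, step j _ le_rfl, ← sub_sub, ih, res]
      simp only [e]
      split_ifs <;> simp [S]
  refine ⟨C, ?_⟩
  have hl := (((res_lim S hS f).const_mul (5 / 2)).add
    (tendsto_one_div_add_atTop_nhds_zero_nat.const_mul 2)).comp hJ
  simp only [mul_zero, add_zero] at hl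
  refine squeeze_zero (fun _ => norm_nonneg _) (fun n => ?_) hl
  have e1 := step (J n) _ (J4 n).le
  rw [Nat.add_sub_cancel' (J2 n)] at e1
  rw [e1, ← sub_sub, base]
  simp only [Function.comp_apply, e]
  have e0 : (0 : ℝ) < 1 / ((J n : ℝ) + 1) := by positivity
  split_ifs with h
  · have e2 := h4 (J n) _ (J4 n).le
    have e3 := h3 (J n)
    have e4 := norm_le_insert (S (J n)) (G (J n))
    have e5 := norm_le_insert (res S f (J n)) (S (J n))
    rw [one_smul]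
    refine (norm_sub_le _ _).trans ?_
    simp only [S, G] at e4 e5 h ⊢
    linarith
  · simp only [zero_smul, sub_zero]
    linarith [norm_nonneg (res S f (J n))]

lemma roots (n : ℕ) (hn : 0 < n) (w : ℂ) :
    {z : ℂ | z ^ n = w}.Finite ∧ {z : ℂ | z ^ n = w}.ncard ≤ n := by
  classical
  have : {z : ℂ | z ^ n = w} = ((Polynomial.nthRoots n w).toFinset : Set ℂ) := by
    ext z; simp [Polynomial.mem_nthRoots hn]
  rw [this, Set.ncard_coe_finset]
  exact ⟨Finset.finite_toSet _, (Multiset.toFinset_card_le _).trans (Polynomial.card_nthRoots n w)⟩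

lemma cnt (T : ℕ → Set ℂ) (hT : ∀ s, (T s).Finite ∧ (T s).ncard ≤ 2 ^ s) (Y : ℝ) (hY : 0 ≤ Y) :
    {z | ∃ s : ℕ, (2 : ℝ) ^ s ≤ Y ∧ z ∈ T s}.Finite ∧
      ({z | ∃ s : ℕ, (2 : ℝ) ^ s ≤ Y ∧ z ∈ T s}.ncard : ℝ) ≤ 2 * Y := by
  have h1 : ∀ t, {z | ∃ s < t, z ∈ T s}.Finite ∧ {z | ∃ s < t, z ∈ T s}.ncard ≤ 2 ^ t := by
    intro t
    induction t with
    | zero => simp
    | succ t ih =>
      have e : {z | ∃ s < t + 1, z ∈ T s} = {z | ∃ s < t, z ∈ T s} ∪ T t := by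
        ext z
        simp only [mem_ofPred_eq, Set.mem_union]
        constructor
        · rintro ⟨s, hs, hz⟩
          rcases Nat.lt_succ_iff_lt_or_eq.1 hs with h | rfl
          exacts [Or.inl ⟨s, h, hz⟩, Or.inr hz]
        · rintro (⟨s, hs, hz⟩ | hz)
          exacts [⟨s, by omega, hz⟩, ⟨t, by omega, hz⟩]
      rw [e]
      refine ⟨ih.1.union (hT t).1, (Set.ncard_union_le _ _).trans ?_⟩
      have := ih.2
      have := (hT t).2
      omega
  rcases lt_or_ge Y 1 with h | h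
  · have : {z | ∃ s : ℕ, (2 : ℝ) ^ s ≤ Y ∧ z ∈ T s} = ∅ := by
      ext z
      simp only [mem_ofPred_eq, mem_empty_iff_false, iff_false, not_exists, not_and]
      intro s hs
      linarith [one_le_pow₀ (n := s) (one_le_two (α := ℝ))]
    rw [this]; simpa using hY
  · have h2 : ⌊Y⌋₊ ≠ 0 := (Nat.floor_pos.2 h).ne'
    have hsub : {z | ∃ s : ℕ, (2 : ℝ) ^ s ≤ Y ∧ z ∈ T s} ⊆
        {z | ∃ s < Nat.log 2 ⌊Y⌋₊ + 1, z ∈ T s} := by
      rintro z ⟨s, hs, hz⟩
      refine ⟨s, Nat.lt_succ_of_le (Nat.le_log_of_pow_le one_lt_two (Nat.le_floor ?_)), hz⟩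
      exact_mod_cast hs
    refine ⟨(h1 _).1.subset hsub, ?_⟩
    have h3 := (Set.ncard_le_ncard hsub (h1 _).1).trans (h1 _).2
    have h4 := Nat.pow_log_le_self 2 h2
    have h5 : (({z | ∃ s : ℕ, (2 : ℝ) ^ s ≤ Y ∧ z ∈ T s}.ncard : ℕ) : ℝ) ≤ (2 * ⌊Y⌋₊ : ℕ) :=
      Nat.cast_le.2 (by omega)
    push_cast at h5
    linarith [Nat.floor_le hY]

lemma rad {z : ℂ} {n j : ℕ} {r : ℝ} (hz : z ^ n = (((j + 1) / (j + 2) : ℝ) : ℂ)) (h1 : ‖z‖ < r)
    (h2 : r < 1) : (n : ℝ) ≤ 1 / (j + 1) / (1 - r) := by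
  have h3 : ((j + 1) / (j + 2) : ℝ) ≤ r ^ n := by
    have := congrArg norm hz
    rw [norm_pow, Complex.norm_real, Real.norm_of_nonneg (by positivity)] at this
    rw [← this]
    exact pow_le_pow_left₀ (norm_nonneg _) h1.le n
  have h0 : 0 < r := (norm_nonneg z).trans_lt h1
  have h4 := one_add_mul_le_pow (show -2 ≤ 1 - r by linarith) n
  have h5 : r ^ n * (1 + (1 - r)) ^ n ≤ 1 := by
    rw [← mul_pow]; exact pow_le_one₀ (by nlinarith) (by nlinarith)
  have h6 : 0 ≤ (n : ℝ) * (1 - r) := mul_nonneg (Nat.cast_nonneg n) (by linarith)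
  have h7 : ((j + 1) / (j + 2) : ℝ) * (1 + n * (1 - r)) ≤ 1 :=
    (mul_le_mul h3 h4 (by linarith) (by positivity)).trans h5
  rw [div_mul_eq_mul_div, div_le_one (by positivity)] at h7
  rw [le_div_iff₀ (by linarith), le_div_iff₀ (by positivity)]
  nlinarith

theorem main [CompleteSpace X] {F : ℕ → X} (hF : ∀ n, ‖F n‖ ≤ 1) {θ : ℝ} (h0 : 0 ≤ θ)
    (h1 : θ < 1)
    (hB : ∀ w : ℂ, ‖w‖ < 1 → ∀ N, 0 < N → ∀ a, ‖G F N w a‖ ≤ (1 - ‖w‖) ^ (-θ))
    (hA : ∀ ε > 0, ∃ M : ℕ, ∀ φ : ℕ → ℕ, Function.Injective φ →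
      ‖∑ i ∈ range (M + 1), F (φ i)‖ ≤ ε * (M + 1))
    (hd : Dense (Submodule.span ℂ (Set.range F) : Set X)) :
    ∃ Λ : ℕ → ℂ, Function.Injective Λ ∧ (∀ n, ‖Λ n‖ < 1) ∧
      (∀ r < (1 : ℝ), {n | ‖Λ n‖ < r}.Finite) ∧
      Tendsto (fun r : ℝ => (1 - r) * ({n | ‖Λ n‖ < r}.ncard : ℝ)) (𝓝[<] 1) (𝓝 0) ∧
      ∀ f : X, ∃ c : ℕ → ℂ,
        Tendsto (fun N => ‖f - ∑ n ∈ range N, c n • K F (Λ n)‖) atTop (𝓝 0) := by
  have : TopologicalSpace.SeparableSpace X := by
    rw [← TopologicalSpace.isSeparable_univ_iff, ← hd.closure_eq]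
    exact (Set.countable_range F).isSeparable.span.closure
  let ρ : ℕ → ℝ := fun j => (j + 1) / (j + 2)
  have r0 : ∀ j, 0 < ρ j := fun j => by positivity
  have r1 : ∀ j, ρ j < 1 := fun j => by rw [div_lt_one (by positivity)]; linarith
  have rm : ∀ j j', j ≤ j' → ρ j ≤ ρ j' := fun j j' h => by
    have : (j : ℝ) ≤ j' := by exact_mod_cast h
    rw [div_le_div_iff₀ (by positivity) (by positivity)]; nlinarith
  choose nx hnx y hy hR using fun (j S : ℕ) => RepC.block (r0 j) (r1 j) F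
    (QF hF h0 h1 hB hA (r0 j) (r1 j)) hd (TopologicalSpace.denseSeq X (Nat.unpair j).1)
    (1 / ((j : ℝ) + 1)) (by positivity) S
  let L : ℕ → ℕ := fun j => Nat.rec 0 nx j
  have hL : ∀ j, L (j + 1) = nx j (L j) := fun j => rfl
  have Lm : Monotone L := monotone_nat_of_le_succ fun j => hnx j _
  choose N hN p c g1 g2 g3 g4 using fun j => hR j (L j)
  obtain ⟨Λ, J, k1, k2, k3, k4⟩ := assemble (K F) N p c hN g1 (fun j j' hj i hi i' hi' h => by
    obtain ⟨s, -, e1, e2⟩ := g2 j i hi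
    obtain ⟨t, e3, -, e4⟩ := g2 j' i' hi'
    have := Lm (show j + 1 ≤ j' from hj)
    rw [hL] at this
    exact lev (r0 j) (r1 j) (rm _ _ hj.le) (by omega) e2 (h ▸ e4))
    (fun j => by rw [g3]; exact hy j _) g4
  let T : ℕ → Set ℂ := fun s => {z | ∃ j, L j ≤ s ∧ s < L (j + 1) ∧ z ^ 2 ^ s = ρ j}
  have hT : ∀ s, (T s).Finite ∧ (T s).ncard ≤ 2 ^ s := by
    intro s
    rcases (T s).eq_empty_or_nonempty with h | ⟨_, j, e1, e2, -⟩
    · simp [h]
    · have hr := roots (2 ^ s) (by positivity) (ρ j)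
      have hsub : T s ⊆ {z | z ^ 2 ^ s = ρ j} := by
        rintro z ⟨j', e3, e4, e5⟩
        have a1 : j < j' + 1 := Lm.reflect_lt (lt_of_le_of_lt e1 e4)
        have a2 : j' < j + 1 := Lm.reflect_lt (lt_of_le_of_lt e3 e2)
        obtain rfl : j = j' := by omega
        exact e5
      exact ⟨hr.1.subset hsub, (Set.ncard_le_ncard hsub hr.1).trans hr.2⟩
  have hΛ : ∀ n, ∃ s, Λ n ∈ T s ∧ Λ n ^ 2 ^ s = ρ (J n) := by
    intro n
    obtain ⟨i, hi, e⟩ := k3 n
    obtain ⟨s, e1, e2, e3⟩ := g2 _ i hi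
    exact ⟨s, ⟨J n, e1, e2, e ▸ e3⟩, e ▸ e3⟩
  have key : ∀ (j : ℕ) (r : ℝ), r < 1 → {n | ‖Λ n‖ < r}.Finite ∧
      ({n | ‖Λ n‖ < r}.ncard : ℝ) ≤ {n | J n < j}.ncard + 2 * (1 / (j + 1) / (1 - r)) := by
    intro j r hr
    have f1 : {n | J n < j}.Finite := by
      obtain ⟨M, hM⟩ := tendsto_atTop_atTop.1 k2 j
      exact (Set.finite_lt_nat M).subset fun n hn => by
        by_contra h
        exact absurd (hM n (not_lt.1 h)) (not_le.2 hn)
    have hr' : 0 < 1 - r := by linarith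
    obtain ⟨f2, f3⟩ := cnt T hT (1 / (j + 1) / (1 - r)) (by positivity)
    set W := {z | ∃ s : ℕ, (2 : ℝ) ^ s ≤ 1 / (j + 1) / (1 - r) ∧ z ∈ T s}
    have hsub : {n | ‖Λ n‖ < r} ⊆ {n | J n < j} ∪ Λ ⁻¹' W := by
      intro n hn
      rcases lt_or_ge (J n) j with h | h
      · exact Or.inl h
      · obtain ⟨s, e1, e2⟩ := hΛ n
        refine Or.inr ⟨s, ?_, e1⟩
        have := rad e2 hn hr
        push_cast at this
        refine this.trans ?_
        gcongr
    have f4 : (Λ ⁻¹' W).Finite := f2.preimage k1.injOn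
    have f5 : (Λ ⁻¹' W).ncard ≤ W.ncard := Set.ncard_le_ncard_of_injOn Λ (fun _ h => h) k1.injOn f2
    refine ⟨(f1.union f4).subset hsub, ?_⟩
    have f6 := (Set.ncard_le_ncard hsub (f1.union f4)).trans (Set.ncard_union_le _ _)
    have f7 : ({n | ‖Λ n‖ < r}.ncard : ℝ) ≤ ({n | J n < j}.ncard + W.ncard : ℕ) := by
      exact_mod_cast (by omega)
    push_cast at f7
    linarith
  refine ⟨Λ, k1, fun n => ?_, fun r hr => (key 0 r hr).1, ?_, k4⟩
  · obtain ⟨s, -, e⟩ := hΛ n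
    have := congrArg norm e
    rw [norm_pow, Complex.norm_real, Real.norm_of_nonneg (r0 _).le] at this
    exact lt_of_pow_lt_pow_left₀ (2 ^ s) zero_le_one (by rw [this, one_pow]; exact r1 _)
  · rw [Metric.tendsto_nhds]
    intro ε hε
    obtain ⟨j, hj⟩ := exists_nat_one_div_lt (show 0 < ε / 4 by positivity)
    have ht : Tendsto (fun r : ℝ => (1 - r) * ({n | J n < j}.ncard : ℝ)) (𝓝[<] 1) (𝓝 0) := by
      have : Continuous fun r : ℝ => (1 - r) * ({n | J n < j}.ncard : ℝ) := by fun_prop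
      simpa using (this.tendsto 1).mono_left (nhdsWithin_le_nhds (s := Set.Iio 1))
    filter_upwards [ht.eventually (gt_mem_nhds (half_pos hε)), self_mem_nhdsWithin] with r e1 e2
    have hr' : 0 < 1 - r := sub_pos.2 e2
    rw [dist_zero_right, Real.norm_of_nonneg (by positivity)]
    have e3 := mul_le_mul_of_nonneg_left (key j r e2).2 hr'.le
    have e4 : (1 - r) * (2 * (1 / (j + 1) / (1 - r))) = 2 * (1 / (j + 1)) := by field_simp
    rw [mul_add, e4] at e3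
    linarith

end Pool.Agent.H1.RepE
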