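import Mathlib
import Pool.Agent.H1.RepE

open Filter Topology Set Finset MeasureTheory AddCircle
open scoped ENNReal

namespace Pool.Agent.H1.RepF
open RepD

lemma nrm (p : ℝ≥0∞) [Fact (1 ≤ p)] (u : C(AddCircle (1 : ℝ), ℂ)) :
    ‖ContinuousMap.toLp p haarAddCircle ℂ u‖ = (eLpNorm u p haarAddCircle).toReal := by
  rw [Lp.norm_def, eLpNorm_congr_ae (ContinuousMap.coeFn_toLp _ u)]

lemma mem (q : ℝ≥0∞) (u : C(AddCircle (1 : ℝ), ℂ)) : MemLp u q haarAddCircle :=
  MemLp.of_bound u.continuous.aestronglyMeasurable ‖u‖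
    (Eventually.of_forall fun x => u.norm_coe_le_norm x)

lemma interp (p : ℝ≥0∞) [Fact (1 ≤ p)] {q : ℝ} (hq : 2 ≤ q) (hpq : p ≤ ENNReal.ofReal q)
    (u : C(AddCircle (1 : ℝ), ℂ)) {α γ : ℝ} (hα : ∀ x, ‖u x‖ ≤ α)
    (hγ : ‖ContinuousMap.toLp 2 haarAddCircle ℂ u‖ ^ 2 ≤ γ) :
    ‖ContinuousMap.toLp p haarAddCircle ℂ u‖ ≤ (α ^ (q - 2) * γ) ^ q⁻¹ := by
  have hα0 : 0 ≤ α := (norm_nonneg _).trans (hα 0)
  have h2 : ∫ x, ‖u x‖ ^ (2 : ℝ) ∂haarAddCircle ≤ γ := by
    have h0 : 0 ≤ ∫ x, ‖u x‖ ^ (2 : ℝ) ∂haarAddCircle := integral_nonneg fun x => by positivity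
    rw [nrm, (mem 2 u).eLpNorm_eq_integral_rpow_norm (by simp) (by simp),
      ENNReal.toReal_ofReal (by positivity)] at hγ
    simp only [ENNReal.toReal_ofNat] at hγ
    rwa [← Real.rpow_natCast, ← Real.rpow_mul h0, show (2 : ℝ)⁻¹ * (2 : ℕ) = 1 by norm_num,
      Real.rpow_one] at hγ
  have h3 : ∫ x, ‖u x‖ ^ q ∂haarAddCircle ≤ α ^ (q - 2) * γ := by
    refine le_trans ?_ (mul_le_mul_of_nonneg_left h2 (by positivity))
    rw [← integral_const_mul]
    refine integral_mono_of_nonneg (Eventually.of_forall fun x => by positivity) ?_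
      (Eventually.of_forall fun x => ?_)
    · refine Integrable.const_mul ?_ _
      simpa using (mem 2 u).integrable_norm_rpow (by simp) (by simp)
    · simp only
      rw [show q = (q - 2) + 2 by ring, Real.rpow_add_of_nonneg (norm_nonneg _) (by linarith)
        zero_le_two, add_sub_cancel_right]
      gcongr
      exact hα x
  have h4 := eLpNorm_le_eLpNorm_of_exponent_le (μ := haarAddCircle) hpq
    u.continuous.aestronglyMeasurable
  rw [(mem (ENNReal.ofReal q) u).eLpNorm_eq_integral_rpow_norm (by simp; linarith) (by simp),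
    ENNReal.toReal_ofReal (by linarith)] at h4
  rw [nrm]
  have h0 : 0 ≤ ∫ x, ‖u x‖ ^ q ∂haarAddCircle := integral_nonneg fun x => by positivity
  refine (ENNReal.toReal_le_of_le_ofReal (by positivity) h4).trans ?_
  gcongr

lemma fin_le (p : ℝ≥0∞) [Fact (1 ≤ p)] {q : ℝ} (hq : 2 ≤ q) (hpq : p ≤ ENNReal.ofReal q)
    (a : ℕ → ℂ) (φ : ℕ → ℕ) (hφ : Function.Injective φ) (n : ℕ) {α γ : ℝ}
    (hα : ∑ i ∈ range n, ‖a i‖ ≤ α) (hγ : ∑ i ∈ range n, ‖a i‖ ^ 2 ≤ γ) :
    ‖∑ i ∈ range n, a i • fourierLp (T := 1) p (φ i)‖ ≤ (α ^ (q - 2) * γ) ^ q⁻¹ := by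
  have e : ∀ (r : ℝ≥0∞) [Fact (1 ≤ r)], ∑ i ∈ range n, a i • fourierLp (T := 1) r (φ i) =
      ContinuousMap.toLp r haarAddCircle ℂ (∑ i ∈ range n, a i • fourier (φ i)) := by
    intro r _
    simp [map_sum]
  rw [e]
  refine interp p hq hpq _ (fun x => ?_) ?_
  · refine le_trans ?_ hα
    simp only [ContinuousMap.coe_sum, Finset.sum_apply]
    refine (norm_sum_le _ _).trans (le_of_eq (Finset.sum_congr rfl fun i _ => ?_))
    simp [fourier_apply]
  · have ho := (orthonormal_fourier (T := 1)).comp (fun i => (φ i : ℤ))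
      (fun i j h => hφ (Int.ofNat_injective h))
    have := ho.inner_sum a a (range n)
    rw [← e 2, @norm_sq_eq_re_inner ℂ]
    simp only [Function.comp_apply] at this
    rw [this, map_sum]
    refine le_trans (le_of_eq (Finset.sum_congr rfl fun i _ => ?_)) hγ
    simp [Complex.conj_mul', ← Complex.ofReal_pow]

noncomputable def Hp (p : ℝ≥0∞) [Fact (1 ≤ p)] :
    Submodule ℂ (Lp ℂ p (haarAddCircle (T := 1))) :=
  (Submodule.span ℂ (Set.range fun n : ℕ => fourierLp (T := 1) p n)).topologicalClosure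

noncomputable def F (p : ℝ≥0∞) [Fact (1 ≤ p)] (n : ℕ) : Hp p :=
  ⟨fourierLp p n, Submodule.le_topologicalClosure _ (Submodule.subset_span ⟨n, rfl⟩)⟩

theorem main (p : ℝ≥0∞) [Fact (1 ≤ p)] (hp : p ≠ ∞) :
    ∃ Λ : ℕ → ℂ, Function.Injective Λ ∧ (∀ n, ‖Λ n‖ < 1) ∧
      (∀ r < (1 : ℝ), {n | ‖Λ n‖ < r}.Finite) ∧
      Tendsto (fun r : ℝ => (1 - r) * ({n | ‖Λ n‖ < r}.ncard : ℝ)) (𝓝[<] 1) (𝓝 0) ∧
      ∃ k : ℕ → Lp ℂ p (haarAddCircle (T := 1)),
        (∀ n, k n =ᵐ[haarAddCircle] fun x => (1 - Λ n * fourier 1 x)⁻¹) ∧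
        ∀ f ∈ Hp p, ∃ c : ℕ → ℂ, Tendsto (fun N => ∑ n ∈ range N, c n • k n) atTop (𝓝 f) := by
  set q : ℝ := max 2 p.toReal with hqd
  have hq : 2 ≤ q := le_max_left _ _
  have hq0 : 0 < q := by linarith
  have hpq : p ≤ ENNReal.ofReal q := by
    conv_lhs => rw [← ENNReal.ofReal_toReal hp]
    exact ENNReal.ofReal_le_ofReal (le_max_right _ _)
  have : CompleteSpace (Hp p) := (Submodule.isClosed_topologicalClosure _).completeSpace_coe
  have fl : ∀ (a : ℕ → ℂ) (φ : ℕ → ℕ), Function.Injective φ → ∀ (n : ℕ) (α γ : ℝ),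
      ∑ i ∈ range n, ‖a i‖ ≤ α → ∑ i ∈ range n, ‖a i‖ ^ 2 ≤ γ →
      ‖∑ i ∈ range n, a i • F p (φ i)‖ ≤ (α ^ (q - 2) * γ) ^ q⁻¹ := by
    intro a φ hφ n α γ h1 h2
    have := fin_le p hq hpq a φ hφ n h1 h2
    rw [← Submodule.norm_coe]
    simpa [F] using this
  have hF : ∀ n, ‖F p n‖ ≤ 1 := fun n => by
    simpa using fl (fun _ => 1) (fun i => n + i) (add_right_injective n) 1 1 1 (by simp) (by simp)
  have hi : q⁻¹ ≤ 1 := inv_le_one_of_one_le₀ (by linarith)
  obtain ⟨Λ, h1, h2, h3, h4, h5⟩ := RepE.main hF (θ := 1 - q⁻¹) (by linarith)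
    (by linarith [inv_pos.2 hq0]) (fun w hw N hN a => by
      refine le_of_tendsto' (Gsum hF hw fun l => a + l * N).hasSum.tendsto_sum_nat.norm fun n => ?_
      have g1 : ∑ i ∈ range n, ‖w ^ i‖ ≤ (1 - ‖w‖)⁻¹ := by
        simp only [norm_pow]
        exact sum_le_hasSum _ (fun _ _ => by positivity)
          (hasSum_geometric_of_lt_one (norm_nonneg w) hw)
      have g2 : ∑ i ∈ range n, ‖w ^ i‖ ^ 2 ≤ (1 - ‖w‖)⁻¹ := by
        refine le_trans (Finset.sum_le_sum fun i _ => ?_) g1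
        have : ‖w ^ i‖ ≤ 1 := by rw [norm_pow]; exact pow_le_one₀ (norm_nonneg _) hw.le
        nlinarith [norm_nonneg (w ^ i)]
      refine (fl _ _ (fun i j h => Nat.eq_of_mul_eq_mul_right hN (Nat.add_left_cancel h)) n _ _
        g1 g2).trans (le_of_eq ?_)
      have h0 : 0 < 1 - ‖w‖ := by linarith
      rw [← Real.rpow_add_one (inv_pos.2 h0).ne', ← Real.rpow_mul (inv_pos.2 h0).le,
        Real.inv_rpow h0.le, ← Real.rpow_neg h0.le]
      congr 1
      field_simp
      ring)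
    (fun ε hε => by
      obtain ⟨M, hM⟩ := exists_nat_ge (ε ^ (-q))
      refine ⟨M, fun φ hφ => ?_⟩
      have h0 : (0 : ℝ) < M + 1 := by positivity
      have := fl (fun _ => 1) φ hφ (M + 1) (M + 1) (M + 1) (by simp) (by simp)
      simp only [one_smul] at this
      refine this.trans ?_
      rw [← Real.rpow_add_one h0.ne', ← Real.rpow_mul h0.le,
        show (q - 2 + 1) * q⁻¹ = -q⁻¹ + 1 by field_simp; ring, Real.rpow_add_one h0.ne']
      gcongr
      calc ((M : ℝ) + 1) ^ (-q⁻¹) ≤ (ε ^ (-q)) ^ (-q⁻¹) :=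
            Real.rpow_le_rpow_of_nonpos (by positivity) (by linarith) (by simp [hq0.le])
        _ = ε := by rw [← Real.rpow_mul hε.le, show -q * -q⁻¹ = 1 by field_simp, Real.rpow_one])
    (by
      rw [Subtype.dense_iff]
      have e : Subtype.val '' (Submodule.span ℂ (Set.range (F p)) : Set (Hp p)) =
          (Submodule.span ℂ (Set.range fun n : ℕ => fourierLp (T := 1) p n) : Set _) := by
        have := congrArg SetLike.coe (Submodule.map_span (Hp p).subtype (Set.range (F p)))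
        rw [← Set.range_comp] at this
        exact this
      exact fun x hx => closure_mono (le_of_eq e.symm) hx)
  refine ⟨Λ, h1, h2, h3, h4, fun n => (K (F p) (Λ n) : Hp p), fun n => ?_, fun f hf => ?_⟩
  · have hs : Summable fun l : ℕ => Λ n ^ l • fourier (T := 1) l := by
      refine Summable.of_norm_bounded (summable_geometric_of_lt_one (norm_nonneg _) (h2 n))
        fun l => ?_
      simp [norm_smul, fourier_norm]
    have e1 := (ContinuousMap.toLp p haarAddCircle ℂ).hasSum hs.hasSum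
    have e2 := (Hp p).subtypeL.hasSum (Gsum hF (h2 n) fun l => 0 + l * 1).hasSum
    have e3 : ((K (F p) (Λ n) : Hp p) : Lp ℂ p (haarAddCircle (T := 1))) =
        ContinuousMap.toLp p haarAddCircle ℂ (∑' l : ℕ, Λ n ^ l • fourier (T := 1) l) := by
      refine HasSum.unique e2 ?_
      simpa [F] using e1
    simp only [e3]
    refine (ContinuousMap.coeFn_toLp _ _).trans (Eventually.of_forall fun x => ?_)
    have e4 := (ContinuousMap.evalCLM ℂ x).hasSum hs.hasSum
    have e5 : ‖Λ n * fourier 1 x‖ < 1 := by simpa [fourier_apply] using h2 n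
    refine HasSum.unique e4 ?_
    have e6 : ∀ l : ℕ, fourier (T := 1) l x = fourier 1 x ^ l := by
      intro l
      induction l with
      | zero => simp
      | succ l ih => rw [pow_succ, ← ih, ← fourier_add]; push_cast; rfl
    have e7 := hasSum_geometric_of_norm_lt_one e5
    simp only [mul_pow, ← e6] at e7
    exact e7
  · obtain ⟨c, hc⟩ := h5 ⟨f, hf⟩
    refine ⟨c, tendsto_iff_norm_sub_tendsto_zero.2 (hc.congr fun N => ?_)⟩
    rw [← Submodule.norm_coe, norm_sub_rev]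
    simp

end Pool.Agent.H1.RepF
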