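import Pool.Agent.H1.RidA

set_option autoImplicit false

namespace Pool.Agent.H1.Rid
open MeasureTheory Filter Topology Finset
open scoped ComplexConjugate

noncomputable def J : C(T, ℝ) →L[ℝ] L1 :=
  ((ContinuousMap.toLp 1 μ ℂ).restrictScalars ℝ).comp (Complex.ofRealCLM.compLeftContinuous ℝ T)

lemma J_ae (W : C(T, ℝ)) : J W =ᵐ[μ] fun x => (W x : ℂ) :=
  ContinuousMap.coeFn_toLp μ (Complex.ofRealCLM.compLeftContinuous ℝ T W)

lemma J_norm (W : C(T, ℝ)) : ‖J W‖ = ∫ x, |W x| ∂μ := by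
  rw [L1.norm_eq_integral_norm]
  exact integral_congr_ae ((J_ae W).mono fun x hx => by simp [hx])

noncomputable def cf (m : ℤ) : C(T, ℝ) →L[ℝ] ℂ := ((co m).restrictScalars ℝ).comp J

lemma cf_co (m : ℤ) (W : C(T, ℝ)) : cf m W = co m (J W) := rfl

lemma cf_int (m : ℤ) (W : C(T, ℝ)) : cf m W = ∫ x, fourier (-m) x * W x ∂μ := by
  rw [cf_co, co_int]
  exact integral_congr_ae ((J_ae W).mono fun x hx => by simp only [hx])

lemma cf_neg (m : ℤ) (W : C(T, ℝ)) : cf (-m) W = conj (cf m W) := by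
  rw [cf_int, cf_int, ← integral_conj]
  simp only [map_mul, Complex.conj_ofReal, ← fourier_neg]

lemma cf_one (m : ℤ) : cf m 1 = if m = 0 then 1 else 0 := by
  rw [cf_int]; simp only [ContinuousMap.one_apply, Complex.ofReal_one, mul_one, int_f, neg_eq_zero]

noncomputable def rho (c : ℂ) (N : ℤ) : C(T, ℝ) := ⟨fun x => 2 * (c * fourier N x).re, by fun_prop⟩

lemma rho_le (c : ℂ) (N : ℤ) (x : T) : |rho c N x| ≤ 2 * ‖c‖ := by
  have := Complex.abs_re_le_norm (c * fourier N x)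
  rw [norm_mul, nf, mul_one] at this
  change |2 * (c * fourier N x).re| ≤ _
  rw [abs_mul, abs_two]; linarith

lemma cf_rho (W : C(T, ℝ)) (c : ℂ) (N m : ℤ) :
    cf m (W * rho c N) = c * cf (m - N) W + conj c * cf (m + N) W := by
  simp only [cf_int, ← integral_const_mul]
  rw [← integral_add (cintC (by fun_prop)) (cintC (by fun_prop))]
  refine integral_congr_ae (Eventually.of_forall fun x => ?_)
  have e : ((rho c N x : ℝ) : ℂ) = c * fourier N x + conj c * fourier (-N) x := by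
    rw [fourier_neg, ← map_mul, Complex.add_conj]; rfl
  simp only [ContinuousMap.mul_apply, Complex.ofReal_mul, e, neg_sub, neg_add_rev]
  rw [sub_eq_add_neg N m, fourier_add, fourier_add]; ring

noncomputable def En (W : C(T, ℝ)) : ℝ := ∑' m : ℤ, ‖cf m W‖ ^ 2

lemma summ_of {W : C(T, ℝ)} {D : ℕ} (h : ∀ m : ℤ, (D : ℤ) < |m| → cf m W = 0) :
    Summable fun m : ℤ => ‖cf m W‖ ^ 2 :=
  summable_of_ne_finset_zero (s := Icc (-D : ℤ) D) fun m hm => by
    rw [h m (by rw [mem_Icc, ← abs_le, not_le] at hm; exact hm)]; simp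

lemma En_step {A B : C(T, ℝ)} {D : ℕ} (hA : ∀ m : ℤ, (D : ℤ) < |m| → cf m A = 0)
    (hB : ∀ m : ℤ, (D : ℤ) < |m| → cf m B = 0) (c : ℂ) (N : ℕ) (hN : 2 * D < N) :
    En (A + B * rho c N) = En A + 2 * ‖c‖ ^ 2 * En B := by
  have e : ∀ m : ℤ, ‖cf m (A + B * rho c N)‖ ^ 2 = ‖cf m A‖ ^ 2 + ‖c‖ ^ 2 * ‖cf (m - N) B‖ ^ 2 +
      ‖c‖ ^ 2 * ‖cf (m + N) B‖ ^ 2 := fun m => by
    rw [map_add, cf_rho]
    by_cases h1 : |m| ≤ D
    · have := abs_le.mp h1
      rw [hB (m - N) (lt_abs.mpr (by omega)), hB (m + N) (lt_abs.mpr (by omega))]; simp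
    · rw [hA m (not_le.mp h1)]
      rcases le_total m 0 with h | h
      · rw [hB (m - N) (lt_abs.mpr (by omega))]; simp [mul_pow]
      · rw [hB (m + N) (lt_abs.mpr (by omega))]; simp [mul_pow]
  have s1 := summ_of hA
  have s2 := summ_of hB
  have s3 : Summable fun m : ℤ => ‖cf (m - N) B‖ ^ 2 := (Equiv.subRight (N : ℤ)).summable_iff.mpr s2
  have s4 : Summable fun m : ℤ => ‖cf (m + N) B‖ ^ 2 := (Equiv.addRight (N : ℤ)).summable_iff.mpr s2
  have t3 : ∑' m : ℤ, ‖cf (m - N) B‖ ^ 2 = En B :=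
    (Equiv.subRight (N : ℤ)).tsum_eq fun m => ‖cf m B‖ ^ 2
  have t4 : ∑' m : ℤ, ‖cf (m + N) B‖ ^ 2 = En B :=
    (Equiv.addRight (N : ℤ)).tsum_eq fun m => ‖cf m B‖ ^ 2
  rw [En]
  simp_rw [e]
  rw [(s1.add (s3.mul_left _)).tsum_add (s4.mul_left _), s1.tsum_add (s3.mul_left _),
    tsum_mul_left, tsum_mul_left, t3, t4]
  unfold En
  ring

lemma riesz (c d : ℕ → ℂ) (hc : ∀ j, ‖c j‖ ≤ 1 / 2) (L : ℕ) (P : Finset ℕ) :
    ∃ (ν : ℕ → ℕ) (D : ℕ) (F U V : C(T, ℝ)), L ≤ D ∧ Set.InjOn ν P ∧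
      (∀ j ∈ P, L < ν j ∧ ν j ≤ D) ∧ (∀ x, 0 ≤ F x) ∧ (cf 0 F = 1 ∧ cf 0 U = 1 ∧ cf 0 V = 0) ∧
      (∀ m : ℤ, (D : ℤ) < |m| ∨ (m ≠ 0 ∧ |m| ≤ L) → cf m F = 0 ∧ cf m U = 0 ∧ cf m V = 0) ∧
      (∀ j ∈ P, cf (ν j) F = c j ∧ cf (ν j) V = d j) ∧
      (∀ m : ℤ, m ≠ 0 → ‖cf m F‖ ≤ 1 / 2) ∧
      (∀ m : ℕ, m ≠ 0 → (∀ j ∈ P, ν j ≠ m) → ‖cf m F‖ ≤ 1 / 4) ∧
      (∀ x, U x ^ 2 + V x ^ 2 ≤ Real.exp (4 * ∑ j ∈ P, ‖d j‖ ^ 2)) ∧
      En U + En V ≤ Real.exp (2 * ∑ j ∈ P, ‖d j‖ ^ 2) := by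
  induction P using Finset.induction_on with
  | empty =>
    refine ⟨id, L, 1, 1, 0, le_rfl, by simp, by simp, by simp, by simp [cf_one], fun m hm => ?_,
      by simp, fun m hm => by simp [cf_one, hm], fun m hm _ => by simp [cf_one, hm], by simp, ?_⟩
    · have : m ≠ 0 := by
        rintro rfl
        simp at hm; omega
      simp [cf_one, this]
    · simp only [En, cf_one, map_zero, norm_zero, sum_empty, mul_zero, Real.exp_zero]
      rw [tsum_eq_single 0 (fun m hm => by simp [hm])]; simp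
  | insert i P hi ih =>
    obtain ⟨ν, D, F, U, V, h1, h2, h3, h4, ⟨h5, h5', h5''⟩, h6, h7, h8, h9, h10, h11⟩ := ih
    set N := 2 * D + L + 1 with hN
    have z : ∀ m : ℤ, (D : ℤ) < m ∨ (D : ℤ) < -m → cf m F = 0 ∧ cf m U = 0 ∧ cf m V = 0 :=
      fun m hm => h6 m (Or.inl (lt_abs.mpr hm))
    have low : ∀ m : ℤ, -(D : ℤ) ≤ m → m ≤ D → cf m (F + F * rho (c i) N) = cf m F ∧
        cf m (U + V * rho (-d i) N) = cf m U ∧ cf m (V + U * rho (d i) N) = cf m V := by
      intro m a1 a2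
      obtain ⟨b1, b2, b3⟩ := z (m - N) (by omega)
      obtain ⟨b4, b5, b6⟩ := z (m + N) (by omega)
      simp only [map_add, cf_rho, b1, b2, b3, b4, b5, b6, mul_zero, add_zero, and_self]
    have hu : ∀ j ∈ P, Function.update ν i N j = ν j := fun j hj =>
      Function.update_of_ne (by rintro rfl; exact hi hj) _ _
    have hp : ∀ m : ℤ, (D : ℤ) < m → cf m (F + F * rho (c i) N) = c i * cf (m - N) F := fun m hm => by
      rw [map_add, cf_rho, (z m (by omega)).1, (z (m + N) (by omega)).1]; simp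
    refine ⟨Function.update ν i N, N + D, F + F * rho (c i) N, U + V * rho (-d i) N,
      V + U * rho (d i) N, by omega, ?_, ?_, fun x => ?_, ?_, fun m hm => ?_, ?_, fun m hm => ?_,
      fun m hm hm' => ?_, fun x => ?_, ?_⟩
    · intro a ha b hb e
      rcases mem_insert.mp ha with ha' | ha' <;> rcases mem_insert.mp hb with hb' | hb'
      · rw [ha', hb']
      · rw [ha', Function.update_self, hu b hb'] at e; have := h3 b hb'; omega
      · rw [hb', Function.update_self, hu a ha'] at e; have := h3 a ha'; omega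
      · rw [hu a ha', hu b hb'] at e; exact h2 ha' hb' e
    · intro j hj
      rcases mem_insert.mp hj with rfl | hj
      · rw [Function.update_self]; omega
      · rw [hu j hj]; have := h3 j hj; omega
    · have := abs_le.mp (rho_le (c i) N x)
      have := hc i
      simp only [ContinuousMap.add_apply, ContinuousMap.mul_apply]
      nlinarith [h4 x]
    · obtain ⟨b1, b2, b3⟩ := low 0 (by omega) (by omega)
      rw [b1, b2, b3]; exact ⟨h5, h5', h5''⟩
    · rcases hm with hm | hm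
      · have := lt_abs.mp hm
        push_cast at this
        obtain ⟨b1, b2, b3⟩ := z (m - N) (by omega)
        obtain ⟨b4, b5, b6⟩ := z (m + N) (by omega)
        obtain ⟨b7, b8, b9⟩ := z m (by omega)
        simp only [map_add, cf_rho, b1, b2, b3, b4, b5, b6, b7, b8, b9, mul_zero, add_zero, and_self]
      · have := abs_le.mp hm.2
        obtain ⟨b1, b2, b3⟩ := low m (by omega) (by omega)
        rw [b1, b2, b3]; exact h6 m (Or.inr hm)
    · intro j hj
      rcases mem_insert.mp hj with rfl | hj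
      · rw [Function.update_self, hp _ (by omega), map_add, cf_rho, sub_self, h5, h5',
          (z N (by omega)).2.2, (z (N + N) (by omega)).2.1]
        simp
      · have := h3 j hj
        obtain ⟨b1, -, b3⟩ := low (ν j) (by omega) (by omega)
        rw [hu j hj, b1, b3]; exact h7 j hj
    · have key : ∀ m : ℤ, 0 < m → ‖cf m (F + F * rho (c i) N)‖ ≤ 1 / 2 := fun m hm => by
        rcases le_or_gt m D with h | h
        · rw [(low m (by omega) h).1]; exact h8 m hm.ne'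
        · rw [hp m h, norm_mul]
          by_cases e : m - N = 0
          · rw [e, h5, norm_one, mul_one]; exact hc i
          · nlinarith [h8 _ e, hc i, norm_nonneg (c i), norm_nonneg (cf (m - N) F)]
      rcases lt_or_gt_of_ne hm with h | h
      · have := key (-m) (by omega)
        rwa [cf_neg, Complex.norm_conj] at this
      · exact key m h
    · rcases le_or_gt m D with h | h
      · rw [(low m (by omega) (by omega)).1]
        exact h9 m hm fun j hj => by rw [← hu j hj]; exact hm' j (mem_insert_of_mem hj)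
      · have e := hm' i (mem_insert_self _ _)
        rw [Function.update_self] at e
        rw [hp m (by omega), norm_mul]
        nlinarith [h8 (m - N) (by omega), hc i, norm_nonneg (c i), norm_nonneg (cf (m - N) F)]
    · have e : rho (-d i) N x = -rho (d i) N x := by simp [rho]; ring
      simp only [ContinuousMap.add_apply, ContinuousMap.mul_apply, e]
      rw [sum_insert hi, mul_add, Real.exp_add]
      have a1 := Real.add_one_le_exp (4 * ‖d i‖ ^ 2)
      have a2 := sq_le_sq' (abs_le.mp (rho_le (d i) N x)).1 (abs_le.mp (rho_le (d i) N x)).2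
      have a3 : rho (d i) N x ^ 2 + 1 ≤ Real.exp (4 * ‖d i‖ ^ 2) := by linarith
      have := mul_le_mul a3 (h10 x) (by positivity) (by positivity)
      linarith
    · have b1 := fun m hm => (h6 m (Or.inl hm)).2.1
      have b2 := fun m hm => (h6 m (Or.inl hm)).2.2
      rw [En_step b1 b2 _ N (by omega), En_step b2 b1 _ N (by omega), norm_neg, sum_insert hi,
        mul_add, Real.exp_add]
      have a1 := Real.add_one_le_exp (2 * ‖d i‖ ^ 2)
      have a2 : 0 ≤ En U + En V := add_nonneg (tsum_nonneg fun _ => by positivity)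
        (tsum_nonneg fun _ => by positivity)
      have := mul_le_mul a1 h11 a2 (by positivity)
      linarith

lemma step (P : Finset ℕ) (x y : ℕ → ℂ) (a b : ℝ) (ha : 0 < a) (hb : 0 < b)
    (hx : ∀ j ∈ P, ‖x j‖ ≤ a) (hy : ∑ j ∈ P, ‖y j‖ ^ 2 ≤ b ^ 2) (L : ℕ) :
    ∃ (ν : ℕ → ℕ) (D : ℕ) (f φ : C(T, ℝ)), L ≤ D ∧ Set.InjOn ν P ∧
      (∀ j ∈ P, L < ν j ∧ ν j ≤ D) ∧
      (∀ m : ℤ, (D : ℤ) < |m| ∨ |m| ≤ L → cf m f = 0 ∧ cf m φ = 0) ∧
      (∀ j ∈ P, cf (ν j) f = x j ∧ cf (ν j) φ = -y j) ∧ ‖J f‖ ≤ 4 * a ∧ ‖φ‖ ≤ 8 * b ∧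
      (∀ m ∈ Ioc L D \ P.image ν, ‖cf m f‖ ≤ a / 2) ∧
      ∑ m ∈ Ioc L D \ P.image ν, ‖cf m φ‖ ^ 2 ≤ (b / 2) ^ 2 := by
  obtain ⟨ν, D, F, U, V, h1, h2, h3, h4, ⟨h5, h5', h5''⟩, h6, h7, h8, h9, h10, h11⟩ :=
    riesz (fun j => if j ∈ P then x j / (2 * a : ℝ) else 0) (fun j => -y j / (4 * b : ℝ))
      (fun j => by
        split_ifs with h
        · rw [norm_div, Complex.norm_real, Real.norm_of_nonneg (by positivity),
            div_le_iff₀ (by positivity)]
          linarith [hx j h]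
        · simp) L P
  set S := ∑ j ∈ P, ‖-y j / (4 * b : ℝ)‖ ^ 2 with hS
  have S0 : 0 ≤ S := by positivity
  have S1 : S ≤ 1 / 16 := by
    simp only [hS, norm_div, norm_neg, Complex.norm_real, div_pow, ← sum_div]
    rw [Real.norm_of_nonneg (by positivity), div_le_iff₀ (by positivity)]
    linarith
  have a0 : ((2 * a : ℝ) : ℂ) ≠ 0 := by exact_mod_cast (by positivity : 2 * a ≠ 0)
  have b0 : ((4 * b : ℝ) : ℂ) ≠ 0 := by exact_mod_cast (by positivity : 4 * b ≠ 0)
  refine ⟨ν, D, (2 * a) • (F - 1), (4 * b) • V, h1, h2, h3, fun m hm => ?_, fun j hj => ?_, ?_, ?_,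
    fun m hm => ?_, ?_⟩
  · simp only [map_smul, map_sub, cf_one]
    by_cases e : m = 0
    · simp [e, h5, h5'']
    · obtain ⟨b1, -, b3⟩ := h6 m (hm.imp_right fun h => ⟨e, h⟩)
      simp [b1, b3, e]
  · have := h3 j hj
    simp only [map_smul, map_sub, cf_one, (h7 j hj).1, (h7 j hj).2, if_pos hj, Complex.real_smul]
    rw [if_neg (by omega), sub_zero, mul_div_cancel₀ _ a0, mul_div_cancel₀ _ b0]
    exact ⟨rfl, rfl⟩
  · rw [map_smul, norm_smul, map_sub, Real.norm_of_nonneg (by positivity)]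
    have e1 : ‖J F‖ = 1 := by
      rw [J_norm]
      simp only [abs_of_nonneg (h4 _)]
      rw [cf_int] at h5
      simp only [neg_zero, fourier_zero, one_mul, integral_complex_ofReal] at h5
      exact_mod_cast h5
    have e2 : ‖J 1‖ = 1 := by rw [J_norm]; simp
    nlinarith [norm_sub_le (J F) (J 1)]
  · rw [norm_smul, Real.norm_of_nonneg (by positivity)]
    have : ‖V‖ ≤ 2 := (ContinuousMap.norm_le _ (by norm_num)).mpr fun t => by
      have a1 := h10 t
      have a2 : Real.exp (4 * S) ≤ Real.exp 1 := Real.exp_le_exp.mpr (by linarith)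
      refine abs_le_of_sq_le_sq ?_ (by norm_num)
      nlinarith [Real.exp_one_lt_d9, sq_nonneg (U t)]
    nlinarith
  · obtain ⟨m1, m2⟩ := mem_sdiff.mp hm
    have := mem_Ioc.mp m1
    rw [map_smul, map_sub, cf_one, if_neg (by omega), sub_zero, norm_smul,
      Real.norm_of_nonneg (by positivity)]
    nlinarith [h9 m (by omega) fun j hj e => m2 (mem_image.mpr ⟨j, hj, e⟩)]
  · simp only [map_smul, norm_smul, mul_pow, ← mul_sum]
    have sU := summ_of fun m hm => (h6 m (Or.inl hm)).2.1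
    have sV := summ_of fun m hm => (h6 m (Or.inl hm)).2.2
    have c1 : 1 ≤ En U := by
      simpa [h5', En] using sU.le_tsum 0 fun _ _ => by positivity
    have c2 := sum_le_hasSum (Ioc L D) (fun _ _ => by positivity) sV.hasSum.nat_add_neg
    simp only [cf_neg, Complex.norm_conj, h5'', norm_zero, ← two_mul, ← mul_sum] at c2
    have c3 : P.image ν ⊆ Ioc L D := fun m hm => by
      obtain ⟨j, hj, rfl⟩ := mem_image.mp hm
      exact mem_Ioc.mpr (h3 j hj)
    have c6 : ∑ j ∈ P, ‖cf (ν j) V‖ ^ 2 = S := sum_congr rfl fun j hj => by rw [(h7 j hj).2]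
    rw [← sum_sdiff c3, sum_image h2, c6] at c2
    have c4 := (abs_le.mp (Real.abs_exp_sub_one_sub_id_le (x := 2 * S)
      (by rw [abs_of_nonneg (by positivity)]; linarith))).2
    have c5 : ∑ m ∈ Ioc L D \ P.image ν, ‖cf m V‖ ^ 2 ≤ 1 / 64 := by
      unfold En at h11 c1
      nlinarith
    rw [Real.norm_of_nonneg (by positivity)]
    nlinarith

end Pool.Agent.H1.Rid
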