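import Pool.Agent.H1.RidB

set_option autoImplicit false

namespace Pool.Agent.H1.Rid
open MeasureTheory Filter Topology Finset
open scoped ComplexConjugate

noncomputable def Phi (Z : C(T, ℝ)) : L1 →L[ℂ] ℂ :=
  LinearMap.mkContinuous
    { toFun := fun g => ∫ x, (Z x : ℂ) * g x ∂μ
      map_add' := fun f g => by
        have hi : ∀ f : L1, Integrable (fun x => (Z x : ℂ) * f x) μ := fun f =>
          (int1 f).bdd_mul (c := ‖Z‖) (by fun_prop) (Eventually.of_forall fun x => by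
            simpa using Z.norm_coe_le_norm x)
        rw [← integral_add (hi f) (hi g)]
        exact integral_congr_ae ((Lp.coeFn_add f g).mono fun x hx => by simp only [hx, Pi.add_apply, mul_add])
      map_smul' := fun c f => by
        rw [RingHom.id_apply, smul_eq_mul, ← integral_const_mul]
        exact integral_congr_ae ((Lp.coeFn_smul c f).mono fun x hx => by
          simp only [hx, Pi.smul_apply, smul_eq_mul]; ring) }
    ‖Z‖ (fun f => by
      rw [L1.norm_eq_integral_norm, ← integral_const_mul]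
      exact norm_integral_le_of_norm_le ((int1 f).norm.const_mul _) (Eventually.of_forall fun x => by
        rw [norm_mul]
        exact mul_le_mul_of_nonneg_right (by simpa using Z.norm_coe_le_norm x) (norm_nonneg _)))

lemma Phi_le (Z : C(T, ℝ)) (g : L1) : ‖Phi Z g‖ ≤ ‖Z‖ * ‖g‖ :=
  (Phi Z).le_of_opNorm_le (LinearMap.mkContinuous_norm_le _ (norm_nonneg _) _) g

lemma Phi_tp (Z : C(T, ℝ)) (s : Finset ℤ) (a : ℤ → ℂ) :
    Phi Z (tp s a) = ∑ n ∈ s, a n * cf (-n) Z := by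
  rw [tp, map_sum]
  refine sum_congr rfl fun n _ => ?_
  rw [map_smul, smul_eq_mul, cf_int, neg_neg]
  congr 1
  exact integral_congr_ae ((coeFn_fourierLp 1 n).mono fun x hx => by simp only [hx, mul_comm])

lemma pair (W Z : C(T, ℝ)) (D : ℕ) (h : ∀ m : ℤ, (D : ℤ) < |m| → cf m W = 0) :
    Phi Z (J W) = ∑ m ∈ Icc (-D : ℤ) D, cf m W * cf (-m) Z := by
  rw [← Phi_tp, uniq (J W) (tp (Icc (-D : ℤ) D) fun m => cf m W) fun m => ?_]
  rw [co_tp]
  split_ifs with hm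
  · rfl
  · exact h m (by rw [mem_Icc, ← abs_le, not_le] at hm; exact hm)

theorem fin (τ : ℤ → ℤ) (hτ : Function.Involutive τ) (F : L1) (Z : C(T, ℝ))
    (hF : ∀ m, co (τ m) F = co m F) (hZ : ∀ m, cf (τ m) Z = -cf m Z) (h0 : Phi Z F ≠ 0) :
    ∃ A : Submodule ℂ L1, IsClosed (A : Set L1) ∧
      (∀ f ∈ A, ∀ g ∈ A, ∃ h ∈ A, ∀ n : ℤ, co n h = co n f * co n g) ∧
      ¬ (A ≤ (Submodule.span ℂ
          {e : L1 | e ∈ A ∧ ∀ n : ℤ, co n e * co n e = co n e}).topologicalClosure) ∧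
      ∀ n : ℤ, {m : ℤ | ∀ f ∈ A, co m f = co n f}.ncard ≤ 2 := by
  classical
  let A : Submodule ℂ L1 :=
    { carrier := {g | ∀ m, co (τ m) g = co m g}
      add_mem' := fun ha hb m => by rw [map_add, map_add, ha m, hb m]
      zero_mem' := fun m => by simp
      smul_mem' := fun c g ha m => by rw [map_smul, map_smul, ha m] }
  refine ⟨A, ?_, fun f hf g hg => ?_, fun hle => h0 ?_, fun n => ?_⟩
  · have : (A : Set L1) = ⋂ m, {g | co (τ m) g = co m g} := by ext g; simp [A]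
    rw [this]
    exact isClosed_iInter fun m => isClosed_eq (co _).continuous (co _).continuous
  · obtain ⟨h, -, h2⟩ := exists_conv f g
    exact ⟨h, fun m => by rw [h2, h2, hf m, hg m], h2⟩
  · refine Submodule.topologicalClosure_minimal _ (t := LinearMap.ker (Phi Z).toLinearMap)
      (Submodule.span_le.mpr ?_) (Phi Z).isClosed_ker (hle hF)
    rintro e ⟨e1, e2⟩
    obtain ⟨N, hN⟩ := (Metric.tendsto_nhds.mp (fej_lim e) 1 one_pos).exists
    have e3 : ∀ n, co n e = 0 ∨ co n e = 1 := fun n => by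
      by_cases h : co n e = 0
      · exact Or.inl h
      · exact Or.inr (mul_left_cancel₀ h (by rw [e2, mul_one]))
    let S := (sN N).filter fun n => co n e = 1
    have hS : ∀ n, n ∈ S ↔ co n e = 1 := fun n => ⟨fun h => (mem_filter.mp h).2, fun h => by
      refine mem_filter.mpr ⟨?_, h⟩
      by_contra hc
      have a1 := (co n).le_of_opNorm_le (LinearMap.mkContinuous_norm_le _ zero_le_one _)
        ((tp (sN N) fun n => w N n * co n e) - e)
      rw [map_sub, co_tp, if_neg hc, h] at a1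
      rw [dist_eq_norm] at hN
      simp at a1; linarith⟩
    have e4 : e = tp S fun _ => 1 := uniq _ _ fun n => by
      rw [co_tp]
      split_ifs with h
      · exact (hS n).mp h
      · exact (e3 n).resolve_right fun h' => h ((hS n).mpr h')
    have e5 : ∑ n ∈ S, cf (-n) Z = ∑ n ∈ S, -cf (-n) Z :=
      sum_nbij' τ τ (fun n hn => (hS _).mpr ((e1 n).trans ((hS n).mp hn)))
        (fun n hn => (hS _).mpr ((e1 n).trans ((hS n).mp hn))) (fun n _ => hτ n) (fun n _ => hτ n)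
        (fun n _ => by rw [cf_neg, cf_neg, hZ]; simp)
    change Phi Z e = 0
    rw [e4, Phi_tp]
    simp only [one_mul]
    rw [sum_neg_distrib] at e5
    linear_combination e5 / 2
  · have : {m : ℤ | ∀ f ∈ A, co m f = co n f} ⊆ ({n, τ n} : Finset ℤ) := fun m hm => by
      have := hm (tp {n, τ n} fun _ => 1) (fun p => by
        rw [co_tp, co_tp]
        refine if_congr ?_ rfl rfl
        simp only [mem_insert, mem_singleton, hτ.injective.eq_iff, hτ.eq_iff, or_comm,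
          eq_comm (a := p) (b := τ n)])
      rw [co_tp, co_tp, if_pos (mem_insert_self n _)] at this
      by_contra hc
      rw [if_neg (fun h => hc (mem_coe.mpr h))] at this
      exact zero_ne_one this
    refine (Set.ncard_le_ncard this (Finset.finite_toSet _)).trans ?_
    rw [Set.ncard_coe_finset]; exact card_le_two

lemma exists_invol (M : ℕ → ℕ → Prop) (h1 : ∀ m n n', M m n → M m n' → n = n')
    (h2 : ∀ m m' n, M m n → M m' n → m = m') (h3 : ∀ m n p, M m n → ¬ M n p) :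
    ∃ σ : ℕ → ℕ, Function.Involutive σ ∧ ∀ n, M n (σ n) ∨ M (σ n) n ∨
      (σ n = n ∧ (∀ p, ¬ M n p) ∧ ∀ p, ¬ M p n) := by
  have : ∀ n, ∃ s, M n s ∨ M s n ∨ (s = n ∧ (∀ p, ¬ M n p) ∧ ∀ p, ¬ M p n) := fun n => by
    by_cases a : ∃ p, M n p
    · obtain ⟨p, hp⟩ := a; exact ⟨p, Or.inl hp⟩
    by_cases b : ∃ p, M p n
    · obtain ⟨p, hp⟩ := b; exact ⟨p, Or.inr (Or.inl hp)⟩
    push Not at a b
    exact ⟨n, Or.inr (Or.inr ⟨rfl, a, b⟩)⟩
  choose σ hσ using this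
  refine ⟨σ, fun n => ?_, hσ⟩
  rcases hσ n with a | a | ⟨a, -, -⟩
  · rcases hσ (σ n) with b | b | ⟨-, -, b⟩
    · exact absurd b (h3 _ _ _ a)
    · exact h2 _ _ _ b a
    · exact absurd a (b n)
  · rcases hσ (σ n) with b | b | ⟨-, b, -⟩
    · exact h1 _ _ _ b a
    · exact absurd a (h3 _ _ _ b)
    · exact absurd a (b n)
  · rw [a, a]

lemma ext_invol (σ : ℕ → ℕ) (hσ : Function.Involutive σ) (h0 : σ 0 = 0) :
    ∃ τ : ℤ → ℤ, Function.Involutive τ ∧ ∀ n : ℕ, τ n = σ n ∧ τ (-n) = -σ n := by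
  have key : ∀ n : ℕ, (fun m : ℤ => m.sign * σ m.natAbs) n = σ n ∧
      (fun m : ℤ => m.sign * σ m.natAbs) (-n) = -σ n := fun n => by
    rcases n.eq_zero_or_pos with rfl | h
    · simp [h0]
    · simp [Int.sign_natCast_of_ne_zero h.ne']
  refine ⟨fun m : ℤ => m.sign * σ m.natAbs, fun m => ?_, key⟩
  obtain ⟨n, rfl | rfl⟩ := m.eq_nat_or_neg
  · rw [(key n).1, (key _).1, hσ]
  · rw [(key n).2, (key _).2, hσ]

lemma base (R : ℕ) : ∃ f : C(T, ℝ), ∀ m : ℤ, cf m f = if m ≠ 0 ∧ |m| ≤ R then 1 else 0 := by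
  induction R with
  | zero => exact ⟨0, fun m => by rw [if_neg (by simp)]; simp⟩
  | succ R ih =>
    obtain ⟨f, hf⟩ := ih
    refine ⟨f + 1 * rho 1 (R + 1 : ℕ), fun m => ?_⟩
    rw [map_add, cf_rho, hf, cf_one, cf_one]
    simp only [abs_le]
    split_ifs <;> first | omega | simp

lemma seq : ∃ (lo : ℕ → ℕ) (P : ℕ → Finset ℕ) (ν : ℕ → ℕ → ℕ) (f φ : ℕ → C(T, ℝ)),
    lo 0 = 0 ∧ Monotone lo ∧
    (∀ k (m : ℤ), (lo (k + 1) : ℤ) < |m| ∨ |m| ≤ lo k → cf m (f k) = 0 ∧ cf m (φ k) = 0) ∧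
    P 0 = Ioc (lo 0) (lo 1) ∧ (∀ k, P (k + 1) = Ioc (lo (k + 1)) (lo (k + 1 + 1)) \ (P k).image (ν k)) ∧
    (∀ k, Set.InjOn (ν k) (P k)) ∧
    (∀ k, ∀ j ∈ P k, (lo (k + 1) < ν k j ∧ ν k j ≤ lo (k + 1 + 1)) ∧
      cf (ν k j) (f (k + 1)) = cf j (f k) ∧ cf (ν k j) (φ (k + 1)) = -cf j (φ k)) ∧
    (∀ k, ‖J (f (k + 1))‖ ≤ 4 * (1 / 2) ^ k ∧ ‖φ (k + 1)‖ ≤ 256 * (1 / 2) ^ k) ∧
    Phi (φ 0) (J (f 0)) = 2048 := by
  let St := ℕ × Finset ℕ × C(T, ℝ) × C(T, ℝ)
  let I : ℕ → St → Prop := fun k s => (∀ j ∈ s.2.1, ‖cf j s.2.2.1‖ ≤ (1 / 2) ^ k) ∧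
    ∑ j ∈ s.2.1, ‖cf j s.2.2.2‖ ^ 2 ≤ (32 * (1 / 2) ^ k) ^ 2
  have hs : ∀ k (s : St), I k s → ∃ (s' : St) (ν : ℕ → ℕ), I (k + 1) s' ∧ s.1 ≤ s'.1 ∧
      Set.InjOn ν s.2.1 ∧ s'.2.1 = Ioc s.1 s'.1 \ s.2.1.image ν ∧
      (∀ m : ℤ, (s'.1 : ℤ) < |m| ∨ |m| ≤ s.1 → cf m s'.2.2.1 = 0 ∧ cf m s'.2.2.2 = 0) ∧
      (∀ j ∈ s.2.1, (s.1 < ν j ∧ ν j ≤ s'.1) ∧
        cf (ν j) s'.2.2.1 = cf j s.2.2.1 ∧ cf (ν j) s'.2.2.2 = -cf j s.2.2.2) ∧
      ‖J s'.2.2.1‖ ≤ 4 * (1 / 2) ^ k ∧ ‖s'.2.2.2‖ ≤ 256 * (1 / 2) ^ k := by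
    intro k s hI
    obtain ⟨ν, D, f, φ, a1, a2, a3, a4, a5, a6, a7, a8, a9⟩ := step s.2.1 (fun j => cf j s.2.2.1)
      (fun j => cf j s.2.2.2) _ _ (by positivity) (by positivity) hI.1 hI.2 s.1
    refine ⟨(D, Ioc s.1 D \ s.2.1.image ν, f, φ), ν, ⟨fun j hj => (a8 j hj).trans_eq (by ring),
      a9.trans_eq (by ring)⟩, a1, a2, rfl, a4, fun j hj => ⟨a3 j hj, a5 j hj⟩, a6,
      a7.trans_eq (by ring)⟩
  choose! nx ν hn using hs
  obtain ⟨R, hR⟩ : ∃ R : ℕ, R = 1024 := ⟨_, rfl⟩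
  obtain ⟨f0, hf0⟩ := base R
  let s : ℕ → St := fun k => Nat.rec (R, Ioc 0 R, f0, f0) nx k
  have s1 : ∀ k, s (k + 1) = nx k (s k) := fun k => rfl
  have hI : ∀ k, I k (s k) := fun k => by
    induction k with
    | zero =>
      have : ∀ j ∈ Ioc 0 R, cf j f0 = 1 := fun j hj => by
        have := mem_Ioc.mp hj
        rw [hf0, if_pos ⟨by omega, by rw [abs_le]; omega⟩]
      refine ⟨fun j hj => ?_, ?_⟩
      · change ‖cf j f0‖ ≤ _
        rw [this j hj]; simp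
      · change ∑ j ∈ Ioc 0 R, ‖cf j f0‖ ^ 2 ≤ _
        rw [sum_congr rfl fun j hj => by rw [this j hj]]
        simp only [norm_one, one_pow, sum_const, Nat.card_Ioc, nsmul_eq_mul, hR]
        norm_num
    | succ k ih => exact (hn k _ ih).1
  let lo : ℕ → ℕ := fun k => Nat.casesOn k 0 fun k => (s k).1
  have z0 : ∀ m : ℤ, (R : ℤ) < |m| ∨ |m| ≤ (0 : ℕ) → cf m f0 = 0 := fun m hm => by
    rw [hf0, if_neg]
    rintro ⟨a, b⟩
    have := abs_pos.mpr a
    omega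
  refine ⟨lo, fun k => (s k).2.1, fun k => ν k (s k), fun k => (s k).2.2.1, fun k => (s k).2.2.2,
    rfl, monotone_nat_of_le_succ fun k => ?_, fun k => ?_, rfl, fun k => (hn k _ (hI k)).2.2.2.1,
    fun k => (hn k _ (hI k)).2.2.1, fun k => (hn k _ (hI k)).2.2.2.2.2.1,
    fun k => (hn k _ (hI k)).2.2.2.2.2.2, ?_⟩
  · cases k with
    | zero => exact Nat.zero_le _
    | succ k => exact (hn k _ (hI k)).2.1
  · cases k with
    | zero => exact fun m hm => ⟨z0 m hm, z0 m hm⟩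
    | succ k => exact (hn k _ (hI k)).2.2.2.2.1
  · change Phi f0 (J f0) = _
    rw [pair f0 f0 R fun m hm => z0 m (Or.inl hm),
      sum_congr rfl (g := fun m => 1 - if m = 0 then 1 else 0) fun m hm => by
        have := abs_le.mpr (mem_Icc.mp hm)
        rw [hf0, hf0, abs_neg]
        by_cases e : m = 0 <;> simp [e, this]]
    rw [sum_sub_distrib, sum_ite_eq', if_pos (by simp), sum_const, Int.card_Icc, hR]
    norm_num [show Int.toNat 2049 = 2049 from rfl]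

theorem main : ∃ A : Submodule ℂ L1, IsClosed (A : Set L1) ∧
      (∀ f ∈ A, ∀ g ∈ A, ∃ h ∈ A, ∀ n : ℤ, co n h = co n f * co n g) ∧
      ¬ (A ≤ (Submodule.span ℂ
          {e : L1 | e ∈ A ∧ ∀ n : ℤ, co n e * co n e = co n e}).topologicalClosure) ∧
      ∀ n : ℤ, {m : ℤ | ∀ f ∈ A, co m f = co n f}.ncard ≤ 2 := by
  obtain ⟨lo, P, ν, f, φ, l0, lm, hs, p0, p1, hi, hν, hn, h0⟩ := seq
  have hu : ∀ k k' (m : ℤ), lo k < m → m ≤ lo (k + 1) → lo k' < m → m ≤ lo (k' + 1) → k = k' := by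
    intro k k' m a1 a2 a3 a4
    rcases lt_trichotomy k k' with h | h | h
    · have := lm (show k + 1 ≤ k' from h); omega
    · exact h
    · have := lm (show k' + 1 ≤ k from h); omega
  have hP : ∀ k, ∀ j ∈ P k, lo k < j ∧ j ≤ lo (k + 1) := fun k j hj => by
    cases k with
    | zero => rw [p0] at hj; exact mem_Ioc.mp hj
    | succ k => rw [p1] at hj; exact mem_Ioc.mp (mem_sdiff.mp hj).1
  have g2 : Summable fun k : ℕ => ((1 : ℝ) / 2) ^ k := summable_geometric_two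
  have sf : Summable fun k => J (f k) := (summable_nat_add_iff 1).mp
    (Summable.of_norm_bounded (g2.mul_left 4) fun k => (hn k).1)
  have sφ : Summable φ := (summable_nat_add_iff 1).mp
    (Summable.of_norm_bounded (g2.mul_left 256) fun k => (hn k).2)
  set F := ∑' k, J (f k)
  set Z := ∑' k, φ k
  have hF : ∀ m, co m F = ∑' k, cf m (f k) := fun m => (co m).map_tsum sf
  have hZ : ∀ m, cf m Z = ∑' k, cf m (φ k) := fun m => (cf m).map_tsum sφ
  have blk : ∀ k (m : ℤ), lo k < |m| → |m| ≤ lo (k + 1) → co m F = cf m (f k) ∧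
      cf m Z = cf m (φ k) := fun k m a1 a2 => by
    have : ∀ k' ≠ k, cf m (f k') = 0 ∧ cf m (φ k') = 0 := fun k' hk => hs k' m (by
      by_contra hc
      push Not at hc
      exact hk (hu _ _ _ hc.2 hc.1 a1 a2))
    rw [hF, hZ]
    exact ⟨tsum_eq_single k fun k' hk => (this k' hk).1, tsum_eq_single k fun k' hk => (this k' hk).2⟩
  let M : ℕ → ℕ → Prop := fun m n => ∃ k, m ∈ P k ∧ n = ν k m
  have hM : ∀ m n, M m n → co n F = co m F ∧ cf n Z = -cf m Z := by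
    rintro m _ ⟨k, hk, rfl⟩
    have a1 := hP k m hk
    obtain ⟨a2, a3, a4⟩ := hν k m hk
    obtain ⟨b1, b2⟩ := blk k m (by simpa using a1.1) (by simpa using a1.2)
    obtain ⟨b3, b4⟩ := blk (k + 1) (ν k m) (by simpa using a2.1) (by simpa using a2.2)
    rw [b1, b2, b3, b4]; exact ⟨a3, a4⟩
  obtain ⟨σ, σ1, σ2⟩ := exists_invol M
    (by
      rintro m _ _ ⟨k, a, rfl⟩ ⟨k', b, rfl⟩
      have := hP k m a; have := hP k' m b
      rw [hu k k' m (by omega) (by omega) (by omega) (by omega)])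
    (by
      rintro m m' _ ⟨k, a, rfl⟩ ⟨k', b, e⟩
      have := (hν k m a).1; have := (hν k' m' b).1
      have := hu (k + 1) (k' + 1) (ν k m) (by omega) (by omega) (by omega) (by omega)
      obtain rfl : k = k' := by omega
      exact hi k a b e)
    (by
      rintro m _ p ⟨k, a, rfl⟩ ⟨k', b, -⟩
      have := (hν k m a).1; have := hP k' _ b
      have := hu (k + 1) k' (ν k m) (by omega) (by omega) (by omega) (by omega)
      subst this
      rw [p1] at b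
      exact (mem_sdiff.mp b).2 (mem_image_of_mem _ a))
  have σ3 : ∀ n, co (σ n) F = co n F ∧ cf (σ n) Z = -cf n Z := fun n => by
    rcases σ2 n with a | a | ⟨a, b, c⟩
    · exact hM _ _ a
    · obtain ⟨b1, b2⟩ := hM _ _ a
      rw [b1, b2]; simp
    · have : cf n Z = 0 := by
        rw [hZ, tsum_congr fun k => (hs k n ?_).2, tsum_zero]
        by_contra hc
        push Not at hc
        simp only [Nat.abs_cast, Nat.cast_le, Nat.cast_lt] at hc
        have hk : n ∉ P k := fun h => b _ ⟨k, h, rfl⟩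
        cases k with
        | zero => exact hk (p0 ▸ mem_Ioc.mpr ⟨hc.2, hc.1⟩)
        | succ k =>
          refine hk (p1 k ▸ mem_sdiff.mpr ⟨mem_Ioc.mpr ⟨hc.2, hc.1⟩, fun h => ?_⟩)
          obtain ⟨j, hj, e⟩ := mem_image.mp h
          exact c j ⟨k, hj, e.symm⟩
      rw [a, this]; simp
  have σ0 : σ 0 = 0 := by
    rcases σ2 0 with ⟨k, a, -⟩ | ⟨k, a, e⟩ | ⟨a, -⟩
    · have := hP k 0 a; omega
    · have := (hν k _ a).1; omega
    · exact a
  obtain ⟨τ, τ1, τ2⟩ := ext_invol σ σ1 σ0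
  have cF : ∀ m, co (-m) F = conj (co m F) := fun m => by
    rw [hF, hF, Complex.conj_tsum]; simp only [cf_neg]
  refine fin τ τ1 F Z (fun m => ?_) (fun m => ?_) fun hz => ?_
  · obtain ⟨n, rfl | rfl⟩ := m.eq_nat_or_neg
    · rw [(τ2 n).1, (σ3 n).1]
    · rw [(τ2 n).2, cF, cF, (σ3 n).1]
  · obtain ⟨n, rfl | rfl⟩ := m.eq_nat_or_neg
    · rw [(τ2 n).1, (σ3 n).2]
    · rw [(τ2 n).2, cf_neg, cf_neg, (σ3 n).2, map_neg]
  · have e1 : ∀ k, Phi Z (J (f k)) = Phi (φ k) (J (f k)) := fun k => by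
      rw [pair _ _ (lo (k + 1)) fun m hm => (hs k m (Or.inl hm)).1,
        pair _ _ (lo (k + 1)) fun m hm => (hs k m (Or.inl hm)).1]
      refine sum_congr rfl fun m _ => ?_
      by_cases hc : (lo (k + 1) : ℤ) < |m| ∨ |m| ≤ lo k
      · rw [(hs k m hc).1, zero_mul, zero_mul]
      · push Not at hc
        rw [(blk k (-m) (by simpa using hc.2) (by simpa using hc.1)).2]
    have e2 := (Phi Z).map_tsum sf
    rw [hz, ((Phi Z).summable sf).tsum_eq_zero_add] at e2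
    simp only [e1, h0] at e2
    have e3 := tsum_of_norm_bounded (f := fun k => Phi (φ (k + 1)) (J (f (k + 1))))
      ((hasSum_geometric_of_lt_one (r := 1 / 4) (by norm_num) (by norm_num)).mul_left 1024)
      fun k => (Phi_le _ _).trans ((mul_le_mul (hn k).2 (hn k).1 (norm_nonneg _)
        (by positivity)).trans_eq (by
          rw [show (1 / 4 : ℝ) = 1 / 2 * (1 / 2) by norm_num, mul_pow]; ring))
    rw [eq_neg_of_add_eq_zero_right e2.symm, norm_neg] at e3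
    norm_num at e3

end Pool.Agent.H1.Rid
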