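import Pool.Agent.H1.WatA

namespace Pool.Agent.H1.Sat

open Filter Topology Set Metric Complex MeasureTheory Pool.Agent.H1.Jc Pool.Agent.H1.Prv
  Pool.Agent.H1.Wat

noncomputable def co (g : ℂ → ℂ) (k : ℕ) : ℂ := iteratedDeriv k g 0 / k.factorial

/-- mean of `‖g‖ ^ 2` over the circle of radius `r` -/
noncomputable def II (g : ℂ → ℂ) (r : ℝ) : ℝ := Real.circleAverage (fun z => ‖g z‖ ^ 2) 0 r

lemma cm_eq (r t : ℝ) : circleMap 0 r t = r * pt t := by rw [circleMap, zero_add, pt, mul_comm I]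

lemma norm_cm {r : ℝ} (h : 0 ≤ r) (t : ℝ) : ‖circleMap 0 r t‖ = r := by
  rw [norm_circleMap_zero, abs_of_nonneg h]

variable {g φ : ℂ → ℂ} {r : ℝ}

lemma cm_cont (hg : DifferentiableOn ℂ g (ball 0 1)) (h0 : 0 ≤ r) (h1 : r < 1) :
    Continuous fun t => g (circleMap 0 r t) :=
  hg.continuousOn.comp_continuous (continuous_circleMap 0 r) fun t => by
    rw [mem_ball_zero_iff, norm_cm h0]; exact h1

lemma four (n : ℤ) (x : ℝ) : fourier n (x : AddCircle (2 * Real.pi - 0)) = exp (x * I) ^ n := by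
  rw [fourier_coe_apply, ← Complex.exp_int_mul]; congr 1
  have : (Real.pi : ℂ) ≠ 0 := by exact_mod_cast Real.pi_ne_zero
  push_cast; field_simp; ring

lemma fc_nat (hg : DifferentiableOn ℂ g (ball 0 1)) (h0 : 0 < r) (h1 : r < 1) (k : ℕ) :
    fourierCoeffOn Real.two_pi_pos (fun t => g (circleMap 0 r t)) k = co g k * r ^ k := by
  have h := (hg.mono (closedBall_subset_ball h1)).circleIntegral_one_div_sub_center_pow_smul h0 k
  have hr : (r : ℂ) ≠ 0 := by exact_mod_cast h0.ne'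
  have hp : (Real.pi : ℂ) ≠ 0 := by exact_mod_cast Real.pi_ne_zero
  have hk : (k.factorial : ℂ) ≠ 0 := by exact_mod_cast k.factorial_ne_zero
  have h2 : (∮ z in C(0, r), (1 / (z - 0) ^ (k + 1)) • g z) = I / r ^ k * ∫ x in (0 : ℝ)..2 * Real.pi,
      fourier (-k) (x : AddCircle (2 * Real.pi - 0)) • g (circleMap 0 r x) := by
    rw [circleIntegral, ← intervalIntegral.integral_const_mul]
    congr 1; funext θ
    rw [deriv_circleMap, four, zpow_neg, zpow_natCast]
    generalize g (circleMap 0 r θ) = w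
    have b := exp_ne_zero (θ * I)
    simp only [circleMap, zero_add, sub_zero, smul_eq_mul, mul_pow, pow_succ]
    field_simp
  rw [fourierCoeffOn_eq_integral, co]
  rw [h2] at h
  generalize (∫ x in (0 : ℝ)..2 * Real.pi,
      fourier (-k) (x : AddCircle (2 * Real.pi - 0)) • g (circleMap 0 r x)) = J at h
  rw [smul_eq_mul] at h
  rw [real_smul]
  push_cast
  field_simp at h ⊢
  linear_combination h

lemma fc_neg (hg : DifferentiableOn ℂ g (ball 0 1)) (h0 : 0 < r) (h1 : r < 1) (k : ℕ) :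
    fourierCoeffOn Real.two_pi_pos (fun t => g (circleMap 0 r t)) (Int.negSucc k) = 0 := by
  have hd : DifferentiableOn ℂ (fun z => (z / r) ^ (k + 1) * g z) (closedBall 0 r) := by
    have := hg.mono (closedBall_subset_ball h1)
    fun_prop
  have h := (hd.mono closure_ball_subset_closedBall).diffContOnCl
  rw [← abs_of_pos h0] at h
  have h2 := h.circleAverage
  rw [abs_of_pos h0, Real.circleAverage_def] at h2
  have hr : (r : ℂ) ≠ 0 := by exact_mod_cast h0.ne'
  rw [fourierCoeffOn_eq_integral]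
  simp only [four]
  rw [zero_div, zero_pow (by omega), zero_mul] at h2
  refine Eq.trans ?_ h2
  rw [sub_zero, one_div]
  congr 2; funext θ
  rw [Int.neg_negSucc, zpow_natCast, smul_eq_mul, circleMap, zero_add, mul_div_cancel_left₀ _ hr]

lemma parseval (hg : DifferentiableOn ℂ g (ball 0 1)) (h0 : 0 < r) (h1 : r < 1) :
    HasSum (fun k => ‖co g k‖ ^ 2 * (r ^ 2) ^ k) (II g r) := by
  have h := hasSum_sq_fourierCoeffOn (f := fun t => g (circleMap 0 r t)) Real.two_pi_pos
    (by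
      obtain ⟨C, hC⟩ := isCompact_Icc.exists_bound_of_continuousOn
        (cm_cont hg h0.le h1).continuousOn (s := Icc 0 (2 * Real.pi))
      exact MemLp.of_bound (cm_cont hg h0.le h1).aestronglyMeasurable C
        ((ae_restrict_mem measurableSet_Ioc).mono fun t ht => hC t (Ioc_subset_Icc_self ht)))
  rw [← (Nat.cast_injective (R := ℤ)).hasSum_iff (fun n hn => by
    cases n with
    | ofNat k => exact absurd ⟨k, rfl⟩ hn
    | negSucc k => rw [fc_neg hg h0 h1]; simp), sub_zero] at h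
  have e : (fun k => ‖co g k‖ ^ 2 * (r ^ 2) ^ k) = (fun i => ‖fourierCoeffOn Real.two_pi_pos
      (fun t => g (circleMap 0 r t)) i‖ ^ 2) ∘ (Nat.cast : ℕ → ℤ) := by
    funext k
    rw [Function.comp, fc_nat hg h0 h1, norm_mul, norm_pow, norm_real, Real.norm_of_nonneg h0.le]
    ring
  rw [e]; exact h


lemma cda (hg : DifferentiableOn ℂ g (ball 0 1)) (k : ℕ) : ContDiffAt ℂ k g 0 :=
  (hg.analyticAt (ball_mem_nhds _ one_pos)).contDiffAt

lemma co_sub {h : ℂ → ℂ} (hg : DifferentiableOn ℂ g (ball 0 1)) (hh : DifferentiableOn ℂ h (ball 0 1))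
    (k : ℕ) : co (fun z => g z - h z) k = co g k - co h k := by
  rw [co, iteratedDeriv_fun_sub (cda hg k) (cda hh k), sub_div, co, co]

lemma co_add {h : ℂ → ℂ} (hg : DifferentiableOn ℂ g (ball 0 1)) (hh : DifferentiableOn ℂ h (ball 0 1))
    (k : ℕ) : co (fun z => g z + h z) k = co g k + co h k := by
  rw [co, iteratedDeriv_fun_add (cda hg k) (cda hh k), add_div, co, co]

lemma co_mul (c : ℂ) (g : ℂ → ℂ) (k : ℕ) : co (fun z => c * g z) k = c * co g k := by
  rw [co, iteratedDeriv_const_mul_field, co, mul_div_assoc]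

lemma co_pow (j k : ℕ) : co (fun z => z ^ j) k = if k = j then 1 else 0 := by
  have hk : (k.factorial : ℂ) ≠ 0 := by exact_mod_cast k.factorial_ne_zero
  rw [co, iteratedDeriv_pow]
  split_ifs with h
  · rw [h, Nat.descFactorial_self, Nat.sub_self, pow_zero, mul_one, div_self (h ▸ hk)]
  · rcases lt_or_gt_of_ne h with h | h
    · rw [zero_pow (by omega)]; simp
    · rw [Nat.descFactorial_of_lt h]; simp

lemma co_congr {h : ℂ → ℂ} (e : ∀ z, ‖z‖ < 1 → g z = h z) (k : ℕ) : co g k = co h k := by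
  rw [co, co, Filter.EventuallyEq.iteratedDeriv_eq k (f := g) (g := h)]
  filter_upwards [ball_mem_nhds (0 : ℂ) one_pos] with z hz using e z (by simpa using hz)

lemma scale_diff (hg : DifferentiableOn ℂ g (ball 0 1)) {l : ℝ} (h0 : 0 < l) (h1 : l ≤ 1) :
    DifferentiableOn ℂ (fun z => g (l * z)) (ball 0 1) :=
  hg.comp (by fun_prop) fun z hz => by
    rw [mem_ball_zero_iff] at hz ⊢
    rw [norm_mul, norm_real, Real.norm_of_nonneg h0.le]
    nlinarith [norm_nonneg z]

lemma cm_scale (l r t : ℝ) : l * circleMap 0 r t = circleMap 0 (l * r) t := by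
  rw [cm_eq, cm_eq]; push_cast; ring

lemma co_scale (hg : DifferentiableOn ℂ g (ball 0 1)) {l : ℝ} (h0 : 0 < l) (h1 : l ≤ 1) (k : ℕ) :
    co (fun z => g (l * z)) k = co g k * l ^ k := by
  have a1 := fc_nat (scale_diff hg h0 h1) (r := 1 / 2) (by norm_num) (by norm_num) k
  simp only [cm_scale] at a1
  rw [fc_nat hg (by positivity) (by linarith)] at a1
  refine mul_right_cancel₀ (b := ((1 / 2 : ℝ) : ℂ) ^ k) (pow_ne_zero _ (by norm_num)) ?_
  rw [← a1]; push_cast; ring

lemma sum_le (hg : DifferentiableOn ℂ g (ball 0 1)) {F : ℝ → ℝ} {C : ℝ}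
    (h : Tendsto F (𝓝[<] 1) (𝓝 C)) (h2 : ∀ r, 0 < r → r < 1 → II g r ≤ F r) (N : ℕ) :
    ∑ k ∈ Finset.range N, ‖co g k‖ ^ 2 ≤ C := by
  have c : Continuous fun r : ℝ => ∑ k ∈ Finset.range N, ‖co g k‖ ^ 2 * (r ^ 2) ^ k := by fun_prop
  have := le_of_tendsto_of_tendsto ((c.tendsto 1).mono_left (nhdsWithin_le_nhds (s := Iio 1))) h (by
    filter_upwards [Ioo_mem_nhdsLT (show (0 : ℝ) < 1 by norm_num)] with r hr
    exact (sum_le_hasSum _ (fun k _ => by positivity) (parseval hg hr.1 hr.2)).trans (h2 r hr.1 hr.2))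
  simpa using this

lemma II_le (hg : DifferentiableOn ℂ g (ball 0 1)) {S : ℝ}
    (h : ∀ N, ∑ k ∈ Finset.range N, ‖co g k‖ ^ 2 ≤ S) (h0 : 0 < r) (h1 : r < 1) : II g r ≤ S :=
  le_of_tendsto' (parseval hg h0 h1).tendsto_sum_nat fun N =>
    (Finset.sum_le_sum fun k _ => mul_le_of_le_one_right (sq_nonneg _)
      (pow_le_one₀ (sq_nonneg _) (by nlinarith))).trans (h N)

lemma ci {E : Type} [NormedAddCommGroup E] {F : ℂ → E} (hF : ContinuousOn F (ball 0 1)) (h0 : 0 < r)
    (h1 : r < 1) : CircleIntegrable F 0 r :=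
  (hF.mono (sphere_subset_closedBall.trans (closedBall_subset_ball h1))).circleIntegrable h0.le

lemma II_mono {h : ℂ → ℂ} (hg : DifferentiableOn ℂ g (ball 0 1)) (hh : DifferentiableOn ℂ h (ball 0 1))
    (e : ∀ z, ‖z‖ < 1 → ‖g z‖ ≤ ‖h z‖) (h0 : 0 < r) (h1 : r < 1) : II g r ≤ II h r :=
  Real.circleAverage_mono (ci (hg.continuousOn.norm.pow 2) h0 h1) (ci (hh.continuousOn.norm.pow 2) h0 h1)
    fun z hz => pow_le_pow_left₀ (norm_nonneg _) (e z (by
      rw [mem_sphere_zero_iff_norm, abs_of_pos h0] at hz; linarith)) 2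

/-- Littlewood's subordination estimate -/
lemma litt (hφ : DifferentiableOn ℂ φ (ball 0 1)) (hm : ∀ z, ‖z‖ < 1 → ‖φ z‖ < 1)
    (hg : DifferentiableOn ℂ g (ball 0 1)) {S : ℝ} (hS : ∀ r, 0 < r → r < 1 → II g r ≤ S)
    (h0 : 0 < r) (h1 : r < 1) : II (fun z => g (φ z)) r ≤ 4 / (1 - ‖φ 0‖) * S := by
  have hsub : closedBall (0 : ℂ) r ⊆ ball 0 1 := closedBall_subset_ball h1
  obtain ⟨z0, hz0, hmax⟩ := (isCompact_closedBall (0 : ℂ) r).exists_isMaxOn
    ⟨0, mem_closedBall_self h0.le⟩ (hφ.continuousOn.mono hsub).norm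
  have a0 := hm z0 (by simpa using hsub hz0)
  have a1 : ‖φ 0‖ ≤ ‖φ z0‖ := hmax (mem_closedBall_self h0.le)
  set ρ := (1 + ‖φ z0‖) / 2 with hρ
  have b0 : 0 < ρ := by positivity
  have b1 : ρ < 1 := by linarith
  have hb : ∀ z ∈ closedBall (0 : ℂ) r, φ z ∈ ball (0 : ℂ) ρ := fun z hz => by
    have : ‖φ z‖ ≤ ‖φ z0‖ := hmax hz
    rw [mem_ball_zero_iff]; linarith
  have c1 : CircleIntegrable (fun z => ‖g z‖ ^ 2) 0 ρ := ci (hg.continuousOn.norm.pow 2) b0 b1
  have c2 : CircleIntegrable (fun z => ((‖g z‖ ^ 2 : ℝ) : ℂ)) 0 ρ :=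
    ci (continuous_ofReal.comp_continuousOn (hg.continuousOn.norm.pow 2)) b0 b1
  set H : ℂ → ℂ := fun w => Real.circleAverage
    (fun ζ => herglotzRieszKernel 0 w ζ • ((‖g ζ‖ ^ 2 : ℝ) : ℂ)) 0 ρ
  have hH : DifferentiableOn ℂ H (ball 0 ρ) := differentiableOn_circleAverage_herglotzRieszKernel_smul c2
  have kc : ∀ w ∈ ball (0 : ℂ) ρ, ContinuousOn (re ∘ herglotzRieszKernel 0 w) (sphere 0 |ρ|) :=
    fun w hw => continuous_re.comp_continuousOn (continuousOn_herglotzRieszKernel_sphere hw)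
  have d1 : ∀ w ∈ ball (0 : ℂ) ρ, ‖g w‖ ^ 2 ≤ (H w).re := fun w hw => by
    have e := (((hg.pow 2).mono (closure_ball_subset_closedBall.trans
      (closedBall_subset_ball b1))).diffContOnCl).circleAverage_re_herglotzRieszKernel_smul hw
    rw [re_circleAverage_herglotzRieszKernel_smul c1 hw, ← norm_pow, ← Pi.pow_apply, ← e,
      Real.circleAverage_def, Real.circleAverage_def, norm_smul, Real.norm_of_nonneg (by positivity),
      smul_eq_mul]
    refine mul_le_mul_of_nonneg_left ((intervalIntegral.norm_integral_le_integral_norm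
      Real.two_pi_pos.le).trans (le_of_eq ?_)) (by positivity)
    congr 1; funext θ
    have k0 := le_re_herglotzRieszKernel (circleMap_mem_sphere 0 b0.le θ) hw
    have k1 : 0 ≤ (ρ - ‖w - 0‖) / (ρ + ‖w - 0‖) :=
      div_nonneg (sub_nonneg.2 (mem_ball_iff_norm.1 hw).le) (by positivity)
    simp only [Pi.smul_apply', Function.comp, norm_smul, Pi.pow_apply, norm_pow, smul_eq_mul,
      herglotzRieszKernel_def]
    rw [Real.norm_of_nonneg (k1.trans k0)]
  have hHφ : DifferentiableOn ℂ (fun z => H (φ z)) (closedBall 0 r) := hH.comp (hφ.mono hsub) hb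
  have d2 : Real.circleAverage (fun z => H (φ z)) 0 r = H (φ 0) := by
    refine DiffContOnCl.circleAverage ?_
    rw [abs_of_pos h0]
    exact (hHφ.mono closure_ball_subset_closedBall).diffContOnCl
  have c3 : CircleIntegrable (fun z => H (φ z)) 0 r :=
    (hHφ.continuousOn.mono sphere_subset_closedBall).circleIntegrable h0.le
  have d3 : II (fun z => g (φ z)) r ≤ (H (φ 0)).re := by
    rw [← d2, ← reCLM_apply, ← reCLM.circleAverage_comp_comm c3]
    refine Real.circleAverage_mono (ci ((hg.continuousOn.comp hφ.continuousOn fun z hz => by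
      simpa using hm z (by simpa using hz)).norm.pow 2) h0 h1)
      ((reCLM.continuous.comp_continuousOn (hHφ.continuousOn.mono
        sphere_subset_closedBall)).circleIntegrable h0.le) fun z hz => d1 _ (hb z ?_)
    rw [abs_of_pos h0] at hz; exact sphere_subset_closedBall hz
  have hw := hb 0 (mem_closedBall_self h0.le)
  have d4 : (H (φ 0)).re ≤ 4 / (1 - ‖φ 0‖) * II g ρ := by
    rw [re_circleAverage_herglotzRieszKernel_smul c1 hw, II, ← smul_eq_mul, ← Real.circleAverage_smul]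
    refine Real.circleAverage_mono (c1.continuousOn_smul (kc _ hw)) (c1.const_smul) fun z hz => ?_
    rw [abs_of_pos b0] at hz
    have k0 := re_herglotzRieszKernel_le hz hw
    refine mul_le_mul_of_nonneg_right (k0.trans ?_) (sq_nonneg _)
    rw [sub_zero, div_le_div_iff₀ (by linarith) (by linarith)]
    nlinarith [norm_nonneg (φ 0)]
  exact d3.trans (d4.trans (mul_le_mul_of_nonneg_left (hS ρ b0 b1)
    (div_nonneg (by norm_num) (by linarith))))

end Pool.Agent.H1.Sat
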