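import Pool.Agent.H1.SatA

namespace Pool.Agent.H1.Sat

open Filter Topology Set Metric Complex MeasureTheory Pool.Agent.H1.Jc Pool.Agent.H1.Prv
  Pool.Agent.H1.Wat

variable {φ : ℂ → ℂ}

lemma sum_le_one (hφ : DifferentiableOn ℂ φ (ball 0 1)) (hb : ∀ z, ‖z‖ < 1 → ‖φ z‖ ≤ 1) (N : ℕ) :
    ∑ k ∈ Finset.range N, ‖co φ k‖ ^ 2 ≤ 1 :=
  sum_le hφ tendsto_const_nhds (fun r h0 h1 => Real.circleAverage_mono_on_of_le_circle
    (ci (hφ.continuousOn.norm.pow 2) h0 h1) fun z hz => pow_le_one₀ (norm_nonneg _) (hb z (by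
      rw [mem_sphere_zero_iff_norm, abs_of_pos h0] at hz; linarith))) N

lemma summ (hφ : DifferentiableOn ℂ φ (ball 0 1)) (hb : ∀ z, ‖z‖ < 1 → ‖φ z‖ ≤ 1) :
    Summable fun k => ‖co φ k‖ ^ 2 := summable_of_sum_range_le (fun _ => sq_nonneg _) (sum_le_one hφ hb)

noncomputable def EE (φ : ℂ → ℂ) (s : ℝ) : ℝ := ∑' k, ‖co φ k‖ ^ 2 * (1 - s ^ k) ^ 2

lemma EE_nonneg (s : ℝ) : 0 ≤ EE φ s := tsum_nonneg fun _ => by positivity

lemma EE_bd {s : ℝ} (h0 : 0 < s) (h1 : s < 1) (k : ℕ) :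
    ‖‖co φ k‖ ^ 2 * (1 - s ^ k) ^ 2‖ ≤ ‖co φ k‖ ^ 2 := by
  rw [Real.norm_of_nonneg (by positivity)]
  refine mul_le_of_le_one_right (sq_nonneg _) ?_
  nlinarith [pow_pos h0 k, pow_le_one₀ h0.le h1.le (n := k)]

lemma EE_lim (hs : Summable fun k => ‖co φ k‖ ^ 2) : Tendsto (EE φ) (𝓝[<] 1) (𝓝 0) := by
  have := tendsto_tsum_of_dominated_convergence (𝓕 := 𝓝[<] (1 : ℝ)) (g := fun _ => (0 : ℝ))
    (f := fun s k => ‖co φ k‖ ^ 2 * (1 - s ^ k) ^ 2) hs (fun k => by
      have c : Continuous fun s : ℝ => ‖co φ k‖ ^ 2 * (1 - s ^ k) ^ 2 := by fun_prop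
      simpa using (c.tendsto 1).mono_left nhdsWithin_le_nhds) (by
      filter_upwards [Ioo_mem_nhdsLT (show (0 : ℝ) < 1 by norm_num)] with s hs using EE_bd hs.1 hs.2)
  rw [tsum_zero] at this
  exact this

lemma diff_le (hφ : DifferentiableOn ℂ φ (ball 0 1)) (hs : Summable fun k => ‖co φ k‖ ^ 2) {r s : ℝ}
    (h0 : 0 < s) (h : s ≤ r) (h1 : r < 1) : ∫ t in (0 : ℝ)..2 * Real.pi,
      ‖φ (circleMap 0 r t) - φ (circleMap 0 s t)‖ ^ 2 ≤ 2 * Real.pi * EE φ s := by
  have hr : 0 < r := h0.trans_le h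
  have l0 : 0 < s / r := by positivity
  have l1 : s / r ≤ 1 := (div_le_one hr).2 h
  have p := parseval (hφ.fun_sub (scale_diff hφ l0 l1)) hr h1
  have a1 := hasSum_le (fun k => ?_) p (hs.of_norm_bounded (EE_bd h0 (h.trans_lt h1))).hasSum
  · rw [II, Real.circleAverage_def, smul_eq_mul, inv_mul_le_iff₀ Real.two_pi_pos] at a1
    simp only [cm_scale, div_mul_cancel₀ _ hr.ne'] at a1
    exact a1
  · rw [co_sub hφ (scale_diff hφ l0 l1), co_scale hφ l0 l1, ← mul_one_sub, norm_mul, mul_pow, mul_assoc,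
      ← ofReal_pow, ← ofReal_one, ← ofReal_sub, norm_real, Real.norm_eq_abs, sq_abs]
    refine mul_le_mul_of_nonneg_left ?_ (sq_nonneg _)
    rw [← pow_mul, mul_comm 2 k, pow_mul, ← mul_pow, sub_mul, ← mul_pow, div_mul_cancel₀ _ hr.ne',
      one_mul]
    exact pow_le_pow_left₀ (sub_nonneg.2 (pow_le_pow_left₀ h0.le h k))
      (sub_le_sub_right (pow_le_one₀ hr.le h1.le) _) 2

lemma ae_seq (hφ : DifferentiableOn ℂ φ (ball 0 1)) (hs : Summable fun k => ‖co φ k‖ ^ 2) :
    ∃ ρ : ℕ → ℝ, (∀ m, ρ m ∈ Ioo (0 : ℝ) 1) ∧ Tendsto ρ atTop (𝓝 1) ∧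
      ∀ᵐ t : ℝ, ∃ l, Tendsto (fun m => φ (circleMap 0 (ρ m) t)) atTop (𝓝 l) := by
  have h1 : ∀ m : ℕ, ∃ r ∈ Ioo (0 : ℝ) 1, 1 - 1 / ((m : ℝ) + 1) < r ∧ EE φ r < (1 / 2) ^ m * (1 / 2) ^ m :=
    fun m => ((eventually_mem_set.2 (Ioo_mem_nhdsLT (show (0 : ℝ) < 1 by norm_num))).and
      (((eventually_gt_nhds (sub_lt_self (1 : ℝ) (by positivity))).filter_mono nhdsWithin_le_nhds).and
      ((EE_lim hs).eventually_lt_const (by positivity)))).exists
  choose ρ h2 h3 h4 using h1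
  refine ⟨ρ, h2, ?_, ?_⟩
  · refine tendsto_of_tendsto_of_tendsto_of_le_of_le ?_ tendsto_const_nhds (fun m => (h3 m).le)
      fun m => (h2 m).2.le
    simpa using (tendsto_one_div_add_atTop_nhds_zero_nat (𝕜 := ℝ)).const_sub 1
  set u : ℕ → ℝ → ℂ := fun m t => φ (circleMap 0 (ρ (m + 1)) t) - φ (circleMap 0 (ρ m) t)
  have uc : ∀ m, Continuous (u m) := fun m =>
    (cm_cont hφ (h2 _).1.le (h2 _).2).sub (cm_cont hφ (h2 _).1.le (h2 _).2)
  have a1 : ∀ m, ∫ t in (0 : ℝ)..2 * Real.pi, ‖u m t‖ ^ 2 ≤ 2 * Real.pi * ((1 / 2) ^ m * (1 / 2) ^ m) := by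
    intro m
    rcases le_total (ρ m) (ρ (m + 1)) with h | h
    · exact (diff_le hφ hs (h2 _).1 h (h2 _).2).trans
        (mul_le_mul_of_nonneg_left (h4 m).le Real.two_pi_pos.le)
    · simp only [u, norm_sub_rev (φ (circleMap 0 (ρ (m + 1)) _))]
      refine (diff_le hφ hs (h2 _).1 h (h2 _).2).trans
        (mul_le_mul_of_nonneg_left ((h4 _).le.trans ?_) Real.two_pi_pos.le)
      rw [pow_succ]
      nlinarith [pow_pos (show (0 : ℝ) < 1 / 2 by norm_num) m]
  have a2 : ∀ m, ∫ t in Ioc (0 : ℝ) (2 * Real.pi), ‖u m t‖ ≤ 4 * Real.pi * (1 / 2) ^ m := by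
    intro m
    have p : (0 : ℝ) < (1 / 2) ^ m := by positivity
    have := a1 m
    generalize ((1 : ℝ) / 2) ^ m = ε at p this
    rw [← intervalIntegral.integral_of_le Real.two_pi_pos.le]
    have c2 : Continuous fun t => ε⁻¹ * ‖u m t‖ ^ 2 := ((uc m).norm.pow 2).const_mul ε⁻¹
    refine (intervalIntegral.integral_mono_on (g := fun t => ε + ε⁻¹ * ‖u m t‖ ^ 2) Real.two_pi_pos.le
      ((uc m).norm.intervalIntegrable _ _) ((continuous_const.add c2).intervalIntegrable _ _)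
      fun t _ => ?_).trans ?_
    · rw [← sub_nonneg, show ε + ε⁻¹ * ‖u m t‖ ^ 2 - ‖u m t‖ =
        ε⁻¹ * ((ε - ‖u m t‖) ^ 2 + ε * ‖u m t‖) by field_simp; ring]
      positivity
    · rw [intervalIntegral.integral_add (continuous_const.intervalIntegrable _ _)
        (c2.intervalIntegrable _ _), intervalIntegral.integral_const_mul,
        intervalIntegral.integral_const, smul_eq_mul]
      have := mul_le_mul_of_nonneg_left this (inv_pos.2 p).le
      rw [show ε⁻¹ * (2 * Real.pi * (ε * ε)) = 2 * Real.pi * ε by field_simp] at this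
      linarith
  have a3 := summable_norm_of_tsum_eLpNorm_ne_top (p := 1) (μ := volume.restrict (Ioc 0 (2 * Real.pi)))
    le_rfl (fun m => (uc m).aestronglyMeasurable) (ne_top_of_le_ne_top
      (summable_geometric_two.mul_left (4 * Real.pi)).tsum_ofReal_ne_top (ENNReal.tsum_le_tsum fun m => by
        rw [eLpNorm_one_eq_lintegral_enorm, ← ofReal_integral_norm_eq_lintegral_enorm
          ((uc m).integrableOn_Icc.mono_set Ioc_subset_Icc_self)]
        exact ENNReal.ofReal_le_ofReal (a2 m)))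
  rw [ae_restrict_iff' measurableSet_Ioc] at a3
  refine (isAddFundamentalDomain_Ioc Real.two_pi_pos 0).measure_zero_of_invariant
    {t | ∃ l, Tendsto (fun m => φ (circleMap 0 (ρ m) t)) atTop (𝓝 l)}ᶜ (fun g => ?_)
    (measure_mono_null (fun t ht => ?_) (ae_iff.1 a3))
  · obtain ⟨n, hn⟩ := g.2
    ext t
    have : ∀ r, circleMap 0 r (-g +ᵥ t) = circleMap 0 r t := fun r => by
      rw [AddSubgroup.vadd_def, AddSubgroup.coe_neg, ← hn, vadd_eq_add, neg_add_eq_sub]
      exact (periodic_circleMap 0 r).sub_zsmul_eq n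
    simp only [mem_vadd_set_iff_neg_vadd_mem, mem_compl_iff, mem_ofPred_eq, this]
  · refine fun h => ht.1 (cauchySeq_tendsto_of_complete (cauchySeq_of_summable_dist ?_))
    simp only [dist_eq_norm']
    exact h (by simpa using ht.2)

lemma ker_le {r ρ θ t : ℝ} (h0 : 1 / 2 ≤ r) (h1 : (1 + r) / 2 ≤ ρ) (h2 : ρ < 1) (ht : |t - θ| ≤ Real.pi) :
    poissonKernel 0 (circleMap 0 r θ) (circleMap 0 ρ t) ≤ 32 * Pk (θ + (1 - r : ℝ) * I) t := by
  have e : ‖circleMap 0 ρ t - circleMap 0 r θ‖ ^ 2 = (ρ - r) ^ 2 + 2 * ρ * r * (1 - Real.cos (t - θ)) := by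
    rw [← normSq_eq_norm_sq, normSq_apply, Real.cos_sub]
    simp only [sub_re, sub_im, circleMap_zero_re, circleMap_zero_im]
    linear_combination ρ ^ 2 * Real.sin_sq_add_cos_sq t + r ^ 2 * Real.sin_sq_add_cos_sq θ
  have a1 := Real.cos_le_one_sub_mul_cos_sq ht
  have a2 : 1 / 8 ≤ 2 / Real.pi ^ 2 := by
    rw [div_le_div_iff₀ (by norm_num) (by positivity)]; nlinarith [Real.pi_lt_four, Real.pi_pos]
  have a3 : 1 / 8 * (t - θ) ^ 2 ≤ 1 - Real.cos (t - θ) := by nlinarith [sq_nonneg (t - θ)]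
  have a4 : 1 / 2 ≤ 2 * ρ * r := by nlinarith
  have a5 := mul_le_mul a4 a3 (by positivity) (by linarith)
  have a6 : ((t - θ) ^ 2 + (1 - r) ^ 2) / 16 ≤ ‖circleMap 0 ρ t - circleMap 0 r θ‖ ^ 2 := by
    rw [e]; nlinarith
  have a7 : 0 < (t - θ) ^ 2 + (1 - r) ^ 2 := add_pos_of_nonneg_of_pos (sq_nonneg _) (pow_pos (by linarith) _)
  rw [poissonKernel_def, sub_zero, sub_zero, norm_cm (by linarith), norm_cm (by linarith), Pk]
  simp only [add_im, ofReal_im, mul_I_im, ofReal_re, zero_add, add_re, mul_I_re, neg_zero, add_zero]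
  refine (div_le_div₀ (c := 2 * (1 - r)) (by linarith) (by nlinarith) (by positivity) a6).trans (le_of_eq ?_)
  field_simp; ring

/-- Fatou's theorem on radial limits of bounded analytic functions -/
theorem fatou (hφ : DifferentiableOn ℂ φ (ball 0 1)) (hb : ∀ z, ‖z‖ < 1 → ‖φ z‖ ≤ 1) :
    ∃ b : ℝ → ℂ, ∀ᵐ t : ℝ, Tendsto (fun r : ℝ => φ (circleMap 0 r t)) (𝓝[<] 1) (𝓝 (b t)) := by
  obtain ⟨ρ, h1, h2, h3⟩ := ae_seq hφ (summ hφ hb)
  set b : ℝ → ℂ := fun t => limUnder atTop fun m => φ (circleMap 0 (ρ m) t)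
  have h4 : ∀ᵐ t : ℝ, Tendsto (fun m => φ (circleMap 0 (ρ m) t)) atTop (𝓝 (b t)) :=
    h3.mono fun t ht => tendsto_nhds_limUnder ht
  have uc : ∀ m, Continuous fun t => φ (circleMap 0 (ρ m) t) := fun m => cm_cont hφ (h1 m).1.le (h1 m).2
  have ub : ∀ m t, ‖φ (circleMap 0 (ρ m) t)‖ ≤ 1 := fun m t =>
    hb _ (by rw [norm_cm (h1 m).1.le]; exact (h1 m).2)
  have hm : AEStronglyMeasurable b volume :=
    aestronglyMeasurable_of_tendsto_ae atTop (fun m => (uc m).aestronglyMeasurable) h4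
  have h5 : ∀ᵐ t : ℝ, ‖b t‖ ≤ 1 := h4.mono fun t ht => le_of_tendsto' ht.norm fun m => ub m t
  have hl : LocallyIntegrable b volume := (memLp_top_of_bound hm 1 h5).locallyIntegrable le_top
  refine ⟨b, ?_⟩
  filter_upwards [IsUnifLocDoublingMeasure.ae_tendsto_average_norm_sub volume hl 1, h5] with θ hθ hθ1
  have key : ∀ r : ℝ, 1 / 2 ≤ r → r < 1 → ‖φ (circleMap 0 r θ) - b θ‖ ≤ (2 * Real.pi)⁻¹ *
      ∫ t in Ioc (θ - Real.pi) (θ + Real.pi), 32 * Pk (θ + (1 - r : ℝ) * I) t * ‖b t - b θ‖ := by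
    intro r r0 r1
    have hw : 0 < (θ + (1 - r : ℝ) * I).im := by simpa using r1
    have kc := (Pk_cont hw).const_mul 32
    have t1 := tendsto_integral_of_dominated_convergence
      (μ := volume.restrict (Ioc (θ - Real.pi) (θ + Real.pi)))
      (F := fun m t => 32 * Pk (θ + (1 - r : ℝ) * I) t * ‖φ (circleMap 0 (ρ m) t) - b θ‖)
      (fun t => 32 * Pk (θ + (1 - r : ℝ) * I) t * 2)
      (fun m => (kc.mul ((uc m).sub continuous_const).norm).aestronglyMeasurable)
      ((kc.mul continuous_const).integrableOn_Icc.mono_set Ioc_subset_Icc_self)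
      (fun m => Eventually.of_forall fun t => by
        have := Pk_nonneg hw t
        rw [Real.norm_of_nonneg (by positivity)]
        exact mul_le_mul_of_nonneg_left ((norm_sub_le _ _).trans (by linarith [ub m t])) (by positivity))
      (ae_restrict_of_ae (h4.mono fun t ht => (ht.sub_const _).norm.const_mul _))
    refine ge_of_tendsto (t1.const_mul _) ?_
    filter_upwards [h2.eventually_const_le (show (1 + r) / 2 < 1 by linarith)] with m hr
    have hw2 : circleMap 0 r θ ∈ ball (0 : ℂ) (ρ m) := by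
      rw [mem_ball_zero_iff, norm_cm (by linarith)]; linarith
    have e := (((hφ.sub_const (b θ)).mono (closure_ball_subset_closedBall.trans
      (closedBall_subset_ball (h1 m).2))).diffContOnCl).circleAverage_poissonKernel_smul hw2
    rw [Real.circleAverage_eq_integral_add (θ - Real.pi), intervalIntegral.integral_comp_add_right
      (fun t => (poissonKernel 0 (circleMap 0 r θ) • fun z => φ z - b θ) (circleMap 0 (ρ m) t)),
      zero_add, show 2 * Real.pi + (θ - Real.pi) = θ + Real.pi by ring] at e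
    have hle : θ - Real.pi ≤ θ + Real.pi := by linarith [Real.pi_pos]
    rw [← e, norm_smul, Real.norm_of_nonneg (by positivity), ← intervalIntegral.integral_of_le hle]
    refine mul_le_mul_of_nonneg_left (intervalIntegral.norm_integral_le_of_norm_le hle
      (Eventually.of_forall fun t ht => ?_)
      ((kc.mul ((uc m).sub continuous_const).norm).intervalIntegrable _ _)) (by positivity)
    rw [Pi.smul_apply', norm_smul, Real.norm_of_nonneg]
    · exact mul_le_mul_of_nonneg_right (ker_le r0 hr (h1 m).2 (abs_le.2 ⟨by linarith [ht.1], by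
        linarith [ht.2]⟩)) (norm_nonneg _)
    · rw [poissonKernel_def, sub_zero, sub_zero, norm_cm (h1 m).1.le, norm_cm (by linarith)]
      exact div_nonneg (by nlinarith) (sq_nonneg _)
  rw [Metric.tendsto_nhds]
  intro ε hε
  have t1 := (((Real.tendsto_arctan_atTop.mono_right nhdsWithin_le_nhds).const_mul 2).const_sub
    Real.pi).const_mul 2
  rw [mul_div_cancel₀ _ two_ne_zero, sub_self, mul_zero] at t1
  obtain ⟨A, hA, hA0⟩ := ((t1.eventually_lt_const (show 0 < ε / 32 by positivity)).and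
    (eventually_gt_atTop 0)).exists
  have t2 : Tendsto (fun r : ℝ => A * (1 - r)) (𝓝[<] 1) (𝓝[>] 0) := by
    refine tendsto_nhdsWithin_iff.2 ⟨?_, ?_⟩
    · have c : Continuous fun r : ℝ => A * (1 - r) := by fun_prop
      simpa using (c.tendsto 1).mono_left nhdsWithin_le_nhds
    · filter_upwards [self_mem_nhdsWithin] with r hr using mul_pos hA0 (sub_pos.2 hr)
  have t3 := (hθ (fun _ => θ) _ t2 (by
    filter_upwards [t2.eventually self_mem_nhdsWithin] with r hr
    rw [one_mul]; exact mem_closedBall_self hr.le)).const_mul (2 * A)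
  rw [mul_zero] at t3
  filter_upwards [t3.eventually_lt_const (show 0 < ε / 32 by positivity),
    Ioo_mem_nhdsLT (show (1 / 2 : ℝ) < 1 by norm_num),
    (t2.mono_right nhdsWithin_le_nhds).eventually_lt_const Real.pi_pos] with r a1 a2 a3
  rw [dist_eq_norm]
  refine (key r a2.1.le a2.2).trans_lt ?_
  set w : ℂ := θ + (1 - r : ℝ) * I
  have e1 : w.im = 1 - r := by simp [w]
  have e2 : w.re = θ := by simp [w]
  have y0 : 0 < 1 - r := by linarith [a2.2]
  have hw : 0 < w.im := e1 ▸ y0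
  set B := closedBall θ (A * (1 - r)) with hB
  set U := Icc (θ - Real.pi) (θ + Real.pi)
  have hBU : B ⊆ U := by
    rw [hB, Real.closedBall_eq_Icc]; exact Icc_subset_Icc (by linarith) (by linarith)
  have hD : IntegrableOn (fun t => ‖b t - b θ‖) U :=
    ((hl.integrableOn_isCompact isCompact_Icc).sub continuous_const.integrableOn_Icc).norm
  have hI : IntegrableOn (fun t => Pk w t * ‖b t - b θ‖) U :=
    IntegrableOn.continuousOn_mul (Pk_cont hw).continuousOn hD isCompact_Icc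
  have b1 : ∫ t in B, Pk w t * ‖b t - b θ‖ ≤ 2 * A * ⨍ t in B, ‖b t - b θ‖ := by
    rw [setAverage_eq, hB, Real.volume_real_closedBall (by positivity), smul_eq_mul, ← mul_assoc,
      show 2 * A * (2 * (A * (1 - r)))⁻¹ = 1 / w.im by rw [e1]; field_simp, ← integral_const_mul]
    exact integral_mono (hI.mono_set hBU) ((hD.mono_set hBU).const_mul _)
      fun t => mul_le_mul_of_nonneg_right (Pk_le hw t) (norm_nonneg _)
  have b2 : ∫ t in U \ B, Pk w t * ‖b t - b θ‖ ≤ 2 * (Real.pi - 2 * Real.arctan A) := by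
    have c1 := vF_Icc hw (show -A ≤ A by linarith)
    rw [e1, e2, Real.arctan_neg, neg_mul, ← sub_eq_add_neg, ← Real.closedBall_eq_Icc] at c1
    have c2 := setIntegral_sdiff (μ := volume) measurableSet_closedBall (Pk_cont hw).integrableOn_Icc hBU
    have c3 := vF_le_pi (F := U) subset_rfl hw
    have c4 := integral_mono_ae (hI.mono_set (sdiff_subset (t := B)))
      (((Pk_cont hw).integrableOn_Icc.mono_set (sdiff_subset.trans (subset_refl U))).mul_const 2)
      (ae_restrict_of_ae (h5.mono fun t ht => mul_le_mul_of_nonneg_left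
        ((norm_sub_le _ _).trans (by linarith)) (Pk_nonneg hw t)))
    rw [integral_mul_const] at c4
    unfold vF at c1 c3
    linarith
  have b3 := setIntegral_sdiff measurableSet_closedBall hI hBU
  simp only [mul_assoc]
  rw [integral_const_mul, ← integral_Icc_eq_integral_Ioc, inv_mul_lt_iff₀ Real.two_pi_pos]
  nlinarith [Real.pi_gt_three]

end Pool.Agent.H1.Sat
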