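import Pool.Agent.H1.SatB

namespace Pool.Agent.H1.Sat

open Filter Topology Set Metric Complex MeasureTheory Pool.Agent.H1.Jc Pool.Agent.H1.Prv
  Pool.Agent.H1.Wat

variable {φ : ℂ → ℂ}

noncomputable def qq (φ : ℂ → ℂ) (t r : ℝ) : ℝ := (1 - ‖φ (circleMap 0 r t)‖) / (1 - r)

lemma ev01 : ∀ᶠ r : ℝ in 𝓝[<] 1, r ∈ Ioo (0 : ℝ) 1 := Ioo_mem_nhdsLT (by norm_num)

lemma rad_dist {r : ℝ} (h : r < 1) (t : ℝ) : ‖pt t - circleMap 0 r t‖ = 1 - r := by
  rw [cm_eq, ← one_sub_mul, norm_mul, norm_pt_real, ← ofReal_one, ← ofReal_sub, norm_real,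
    Real.norm_of_nonneg (by linarith), mul_one]

lemma one_sub_lim : Tendsto (fun r : ℝ => 1 - r) (𝓝[<] 1) (𝓝 0) := by
  have c : Continuous fun r : ℝ => 1 - r := by fun_prop
  simpa using (c.tendsto 1).mono_left nhdsWithin_le_nhds

lemma rad_St (t : ℝ) : Tendsto (fun r : ℝ => circleMap 0 r t) (𝓝[<] 1) (𝓝[St (pt t) 1] (pt t)) := by
  refine tendsto_nhdsWithin_iff.2 ⟨?_, ev01.mono fun r hr => ?_⟩
  · have c : Continuous fun r : ℝ => (r : ℂ) * pt t := by fun_prop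
    simpa [cm_eq] using (c.tendsto 1).mono_left nhdsWithin_le_nhds
  · exact ⟨by rw [norm_cm hr.1.le]; exact hr.2, by rw [rad_dist hr.2, norm_cm hr.1.le, one_mul]⟩

lemma q_jc {t : ℝ} {ω : ℂ} {d : ℝ} (h : JC φ (pt t) ω d) : Tendsto (qq φ t) (𝓝[<] 1) (𝓝 d) := by
  have hω : ω ≠ 0 := by intro h0; have := h.norm; rw [h0] at this; simp at this
  have hζ : pt t ≠ 0 := exp_ne_zero _
  have t1 := ((h.lim 1).comp (rad_St t)).mul_const (pt t / ω)
  rw [show d * ω / pt t * (pt t / ω) = d by field_simp] at t1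
  have t2 := ((h.val_lim (norm_pt_real t) 1).comp (rad_St t)).norm
  have t3 := ((((continuous_re.tendsto _).comp t1).const_mul 2).sub
    (one_sub_lim.mul (t1.norm.pow 2))).div (t2.const_add 1) (by rw [h.norm]; norm_num)
  rw [h.norm, ofReal_re, zero_mul, sub_zero, one_add_one_eq_two, mul_div_cancel_left₀ _ two_ne_zero] at t3
  refine t3.congr' (ev01.mono fun r hr => ?_)
  simp only [Function.comp, Pi.div_apply, qq]
  have b : (1 - r : ℂ) ≠ 0 := by exact_mod_cast (sub_pos.2 hr.2).ne'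
  set v := (ω - φ (circleMap 0 r t)) / (pt t - circleMap 0 r t) * (pt t / ω) with hv
  have e : φ (circleMap 0 r t) = ω * (1 - (1 - r : ℝ) * v) := by
    rw [hv, show pt t - circleMap 0 r t = (1 - r) * pt t by rw [cm_eq]; ring]
    push_cast; field_simp; ring
  have e2 : ‖φ (circleMap 0 r t)‖ ^ 2 = 1 - 2 * (1 - r) * v.re + (1 - r) ^ 2 * ‖v‖ ^ 2 := by
    rw [e, norm_mul, h.norm, one_mul, ← normSq_eq_norm_sq, ← normSq_eq_norm_sq, normSq_apply, normSq_apply]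
    simp only [sub_re, sub_im, mul_re, mul_im, ofReal_re, ofReal_im, one_re, one_im]
    ring
  rw [div_eq_div_iff (by positivity) (sub_pos.2 hr.2).ne']
  linear_combination e2

lemma q_inf {t : ℝ} (h : ∀ L : ℝ, ∃ δ > 0, ∀ z, ‖z‖ < 1 →
    ‖pt t - z‖ < δ → L * (1 - ‖z‖ ^ 2) ≤ 1 - ‖φ z‖ ^ 2) : Tendsto (qq φ t) (𝓝[<] 1) atTop := by
  refine tendsto_atTop.2 fun L => ?_
  obtain ⟨δ, hδ, h1⟩ := h (2 * |L|)
  filter_upwards [ev01, one_sub_lim.eventually_lt_const hδ] with r hr h2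
  have := h1 (circleMap 0 r t) (by rw [norm_cm hr.1.le]; exact hr.2) (by rwa [rad_dist hr.2])
  rw [norm_cm hr.1.le] at this
  rw [qq, le_div_iff₀ (sub_pos.2 hr.2)]
  have a1 : 1 - r ≤ 1 - r ^ 2 := by nlinarith [hr.1, hr.2]
  nlinarith [mul_le_mul_of_nonneg_left a1 (abs_nonneg L), sq_nonneg (1 - ‖φ (circleMap 0 r t)‖),
    mul_le_mul_of_nonneg_right (le_abs_self L) (sub_pos.2 hr.2).le]

noncomputable def rr (s : ℝ) (n : ℕ) : ℝ := Real.exp (-(s * (1 / n)))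

lemma rr_pos (s : ℝ) (n : ℕ) : 0 < rr s n := Real.exp_pos _

lemma rr_lt {s : ℝ} (hs : 0 < s) {n : ℕ} (hn : 1 ≤ n) : rr s n < 1 := by
  have : (0 : ℝ) < n := by exact_mod_cast hn
  exact Real.exp_lt_one_iff.2 (neg_neg_of_pos (by positivity))

lemma rr_lim {s : ℝ} (hs : 0 < s) : Tendsto (rr s) atTop (𝓝[<] 1) := by
  refine tendsto_nhdsWithin_iff.2 ⟨?_, (eventually_ge_atTop 1).mono fun n hn => rr_lt hs hn⟩
  have c : Continuous fun x : ℝ => Real.exp (-(s * x)) := by fun_prop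
  have := (c.tendsto 0).comp tendsto_one_div_atTop_nhds_zero_nat
  rw [mul_zero, neg_zero, Real.exp_zero] at this
  exact this

lemma rr_slope (s : ℝ) : Tendsto (fun n : ℕ => n * (1 - rr s n)) atTop (𝓝 s) := by
  have := ((continuous_re.tendsto _).comp (exp_slope (-s : ℝ))).neg
  rw [ofReal_re, neg_neg] at this
  refine this.congr fun n => ?_
  rw [Function.comp, ← ofReal_mul, ← ofReal_exp, ← ofReal_natCast, ← ofReal_one, ← ofReal_sub,
    ← ofReal_mul, ofReal_re, rr, neg_mul]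
  ring

lemma norm_q {s : ℝ} (hs : 0 < s) (t : ℝ) {n : ℕ} (hn : 1 ≤ n) :
    ‖φ (circleMap 0 (rr s n) t)‖ = 1 + -((1 - rr s n) * qq φ t (rr s n)) := by
  rw [qq, mul_div_cancel₀ _ (sub_pos.2 (rr_lt hs hn)).ne']; ring

lemma pow_fin {s : ℝ} (hs : 0 < s) {t d : ℝ} (h : Tendsto (qq φ t) (𝓝[<] 1) (𝓝 d)) (j : ℕ) :
    Tendsto (fun n => ‖φ (circleMap 0 (rr s n) t) ^ (n + j)‖ ^ 2) atTop (𝓝 (Real.exp (-(s * d)) ^ 2)) := by
  have t1 := Real.tendsto_one_add_pow_exp_of_tendsto (g := fun n => -((1 - rr s n) * qq φ t (rr s n)))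
    (((rr_slope s).mul (h.comp (rr_lim hs))).neg.congr fun n => by simp only [Function.comp]; ring)
  have t2 := (((one_sub_lim.mul h).comp (rr_lim hs)).neg.const_add 1).pow j
  have t3 := (t1.mul t2).pow 2
  rw [zero_mul, neg_zero, add_zero, one_pow, mul_one] at t3
  refine t3.congr' ((eventually_ge_atTop 1).mono fun n hn => ?_)
  simp only [Function.comp, norm_pow, pow_add, norm_mul, norm_q hs t hn]

lemma pow_inf (hm : ∀ z, ‖z‖ < 1 → ‖φ z‖ < 1) {s : ℝ} (hs : 0 < s) {t : ℝ}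
    (h : Tendsto (qq φ t) (𝓝[<] 1) atTop) (j : ℕ) :
    Tendsto (fun n => ‖φ (circleMap 0 (rr s n) t) ^ (n + j)‖ ^ 2) atTop (𝓝 0) := by
  have t1 := Real.tendsto_exp_neg_atTop_nhds_zero.comp ((rr_slope s).pos_mul_atTop hs (h.comp (rr_lim hs)))
  refine squeeze_zero' (Eventually.of_forall fun _ => sq_nonneg _)
    ((eventually_ge_atTop 1).mono fun n hn => ?_) t1
  have a0 : ‖φ (circleMap 0 (rr s n) t)‖ ≤ 1 :=
    (hm _ (by rw [norm_cm (rr_pos s n).le]; exact rr_lt hs hn)).le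
  have a1 : ‖φ (circleMap 0 (rr s n) t)‖ ≤ Real.exp (-((1 - rr s n) * qq φ t (rr s n))) := by
    rw [norm_q hs t hn, add_comm]; exact Real.add_one_le_exp _
  rw [norm_pow, ← pow_mul]
  refine (pow_le_pow_of_le_one (norm_nonneg _) a0 (show n ≤ (n + j) * 2 by omega)).trans
    ((pow_le_pow_left₀ (norm_nonneg _) a1 n).trans (le_of_eq ?_))
  rw [← Real.exp_nat_mul]; simp only [Function.comp]; congr 1; ring

lemma ex_y (hφ : DifferentiableOn ℂ φ (ball 0 1)) (hm : ∀ z, ‖z‖ < 1 → ‖φ z‖ < 1) (t : ℝ) :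
    ∃ y ∈ Icc (0 : ℝ) 1, (∀ m j : ℕ, Tendsto (fun n => ‖φ (circleMap 0 (rr (m + 1) n) t) ^ (n + j)‖ ^ 2)
      atTop (𝓝 (y ^ (m + 1)))) ∧ ((y = 0 ∧ Tendsto (qq φ t) (𝓝[<] 1) atTop) ∨
      ∃ ω d, JC φ (pt t) ω d ∧ y = Real.exp (-2 * d)) := by
  rcases dich hφ hm (norm_pt_real t) with h | ⟨ω, d, h⟩
  · refine ⟨0, ⟨le_rfl, zero_le_one⟩, fun m j => ?_, Or.inl ⟨rfl, q_inf h⟩⟩
    rw [zero_pow (by omega)]; exact pow_inf hm (by positivity) (q_inf h) j
  · refine ⟨_, ⟨(Real.exp_pos _).le, Real.exp_le_one_iff.2 (by linarith [h.pos])⟩, fun m j => ?_,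
      Or.inr ⟨ω, d, h, rfl⟩⟩
    convert pow_fin (s := m + 1) (by positivity) (q_jc h) j using 2
    rw [← Real.exp_nat_mul, ← Real.exp_nat_mul]; congr 1; push_cast; ring

section mom

variable {w x : ℕ → ℕ → ℝ} {ν : Measure ℝ} [IsFiniteMeasure ν] {y : ℝ → ℝ} {c : ℝ}

lemma mom (hw : ∀ n k, 0 ≤ w n k) (hs : ∀ n N, ∑ k ∈ Finset.range N, w n k ≤ 1)
    (hx : ∀ n k, x n k ∈ Icc (0 : ℝ) 1) (hy : AEStronglyMeasurable y ν) (hy1 : ∀ t, y t ∈ Icc (0 : ℝ) 1)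
    (hm : ∀ m, Tendsto (fun n => ∑' k, w n k * x n k ^ (m + 1)) atTop (𝓝 (c * ∫ t, y t ^ (m + 1) ∂ν)))
    {h : ℝ → ℝ} (hh : Continuous h) :
    Tendsto (fun n => ∑' k, w n k * (x n k * h (x n k))) atTop (𝓝 (c * ∫ t, y t * h (y t) ∂ν)) := by
  have sw : ∀ n, Summable (w n) := fun n => summable_of_sum_range_le (hw n) (hs n)
  have b0 : ∀ {h : ℝ → ℝ} {B : ℝ}, (∀ u ∈ Icc (0 : ℝ) 1, ‖h u‖ ≤ B) → ∀ u ∈ Icc (0 : ℝ) 1,
      ‖u * h u‖ ≤ B := fun hB u hu => by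
    rw [norm_mul, Real.norm_of_nonneg hu.1]
    exact (mul_le_of_le_one_left (norm_nonneg _) hu.2).trans (hB u hu)
  have b1 : ∀ {h : ℝ → ℝ} {B : ℝ}, (∀ u ∈ Icc (0 : ℝ) 1, ‖h u‖ ≤ B) → ∀ n k,
      ‖w n k * (x n k * h (x n k))‖ ≤ w n k * B := fun hB n k => by
    rw [norm_mul, Real.norm_of_nonneg (hw n k)]
    exact mul_le_mul_of_nonneg_left (b0 hB _ (hx n k)) (hw n k)
  have s1 : ∀ {h : ℝ → ℝ}, Continuous h → ∀ n, Summable fun k => w n k * (x n k * h (x n k)) :=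
    fun hh n => by
      obtain ⟨B, hB⟩ := isCompact_Icc.exists_bound_of_continuousOn (s := Icc (0 : ℝ) 1) hh.continuousOn
      exact ((sw n).mul_right B).of_norm_bounded (b1 hB n)
  have s2 : ∀ {h : ℝ → ℝ}, Continuous h → Integrable (fun t => y t * h (y t)) ν := fun hh => by
    obtain ⟨B, hB⟩ := isCompact_Icc.exists_bound_of_continuousOn (s := Icc (0 : ℝ) 1) hh.continuousOn
    exact Integrable.of_bound (hy.mul (hh.comp_aestronglyMeasurable hy)) B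
      (Eventually.of_forall fun t => b0 hB _ (hy1 t))
  have hp : ∀ p : Polynomial ℝ, Tendsto (fun n => ∑' k, w n k * (x n k * p.eval (x n k))) atTop
      (𝓝 (c * ∫ t, y t * p.eval (y t) ∂ν)) := fun p => by
    induction p using Polynomial.induction_on' with
    | add p q h1 h2 =>
      simp only [Polynomial.eval_add, mul_add]
      rw [integral_add (s2 p.continuous) (s2 q.continuous), mul_add]
      exact (h1.add h2).congr fun n => ((s1 p.continuous n).tsum_add (s1 q.continuous n)).symm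
    | monomial m a =>
      have := (hm m).const_mul a
      rw [mul_left_comm, ← integral_const_mul] at this
      convert this using 3
      · rw [← tsum_mul_left]; congr 1; funext k; rw [Polynomial.eval_monomial]; ring
      · congr 1; funext t; rw [Polynomial.eval_monomial]; ring
  rw [Metric.tendsto_nhds]
  intro ε hε
  set K := 2 + |c| * ν.real univ with hK
  have K0 : 0 < K := by positivity
  obtain ⟨p, h1⟩ := exists_polynomial_near_of_continuousOn 0 1 h hh.continuousOn (ε / K) (by positivity)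
  have h2 : ∀ u ∈ Icc (0 : ℝ) 1, ‖p.eval u - h u‖ ≤ ε / K := fun u hu => (h1 u hu).le
  filter_upwards [Metric.tendsto_nhds.1 (hp p) (ε / K) (by positivity)] with n hn
  have a1 := tsum_of_norm_bounded ((sw n).mul_right (ε / K)).hasSum (b1 h2 n)
  have a2 := norm_integral_le_of_norm_le_const (μ := ν) (Eventually.of_forall fun t => b0 h2 _ (hy1 t))
  simp only [mul_sub] at a1 a2
  rw [(s1 p.continuous n).tsum_sub (s1 hh n), tsum_mul_right] at a1
  rw [integral_sub (s2 p.continuous) (s2 hh)] at a2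
  have a3 := mul_le_mul_of_nonneg_left a2 (abs_nonneg c)
  rw [Real.norm_eq_abs, ← abs_mul, mul_sub] at a3
  have a4 := mul_le_of_le_one_left (show 0 ≤ ε / K by positivity)
    (Real.tsum_le_of_sum_range_le (hw n) (hs n))
  have a5 : ε / K * K = ε := div_mul_cancel₀ _ K0.ne'
  rw [Real.dist_eq, abs_lt] at hn ⊢
  rw [Real.norm_eq_abs] at a1
  rw [hK] at a5
  constructor <;> nlinarith [abs_le.1 (a1.trans a4), abs_le.1 a3]

lemma mom' (hw : ∀ n k, 0 ≤ w n k) (hs : ∀ n N, ∑ k ∈ Finset.range N, w n k ≤ 1)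
    (hx : ∀ n k, x n k ∈ Icc (0 : ℝ) 1) (hy : AEStronglyMeasurable y ν) (hy1 : ∀ t, y t ∈ Icc (0 : ℝ) 1)
    (hm : ∀ m, Tendsto (fun n => ∑' k, w n k * x n k ^ (m + 1)) atTop (𝓝 (c * ∫ t, y t ^ (m + 1) ∂ν)))
    {χ : ℝ → ℝ} (hh : Continuous χ) {a : ℝ} (ha : 0 < a) (h0 : ∀ u ≤ a, χ u = 0) :
    Tendsto (fun n => ∑' k, w n k * χ (x n k)) atTop (𝓝 (c * ∫ t, χ (y t) ∂ν)) := by
  have e : ∀ u, u * (χ u / max u a) = χ u := fun u => by
    rcases le_total u a with h | h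
    · rw [h0 u h]; simp
    · rw [max_eq_left h, mul_div_cancel₀ _ (ha.trans_le h).ne']
  simpa only [e] using mom hw hs hx hy hy1 hm (h := fun u => χ u / max u a)
    (hh.div (by fun_prop) fun u => (lt_max_of_lt_right ha).ne')

end mom

end Pool.Agent.H1.Sat
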