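import Pool.Agent.H1.SatC

namespace Pool.Agent.H1.Sat

open Filter Topology Set Metric Complex MeasureTheory Pool.Agent.H1.Jc Pool.Agent.H1.Prv
  Pool.Agent.H1.Wat

variable {φ : ℂ → ℂ}

noncomputable abbrev ν0 : Measure ℝ := volume.restrict (Ioc 0 (2 * Real.pi))

lemma II_eq (g : ℂ → ℂ) (r : ℝ) : II g r = (2 * Real.pi)⁻¹ * ∫ t, ‖g (circleMap 0 r t)‖ ^ 2 ∂ν0 := by
  rw [II, Real.circleAverage_def, intervalIntegral.integral_of_le Real.two_pi_pos.le, smul_eq_mul]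

lemma II_lim {ι : Type} {l : Filter ι} [l.IsCountablyGenerated] {G : ι → ℂ → ℂ} {ρ : ι → ℝ} {v : ℝ → ℝ}
    (hG : ∀ i, DifferentiableOn ℂ (G i) (ball 0 1)) (hb : ∀ i z, ‖z‖ < 1 → ‖G i z‖ ≤ 1)
    (hρ : ∀ᶠ i in l, ρ i ∈ Ioo (0 : ℝ) 1)
    (h : ∀ᵐ t ∂ν0, Tendsto (fun i => ‖G i (circleMap 0 (ρ i) t)‖ ^ 2) l (𝓝 (v t))) :
    Tendsto (fun i => II (G i) (ρ i)) l (𝓝 ((2 * Real.pi)⁻¹ * ∫ t, v t ∂ν0)) := by
  simp only [II_eq]
  refine (tendsto_integral_filter_of_dominated_convergence (fun _ => 1)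
    (hρ.mono fun i hi => ((cm_cont (hG i) hi.1.le hi.2).norm.pow 2).aestronglyMeasurable)
    (hρ.mono fun i hi => Eventually.of_forall fun t => ?_) (integrable_const _) h).const_mul _
  rw [Pi.pow_apply, norm_pow, norm_norm]
  exact pow_le_one₀ (norm_nonneg _) (hb i _ (by rw [norm_cm hi.1.le]; exact hi.2))

lemma pow_bd (hm : ∀ z, ‖z‖ < 1 → ‖φ z‖ < 1) (N : ℕ) (z : ℂ) (hz : ‖z‖ < 1) : ‖φ z ^ N‖ ≤ 1 := by
  rw [norm_pow]; exact pow_le_one₀ (norm_nonneg _) (hm z hz).le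

noncomputable def ww (φ : ℂ → ℂ) (j n k : ℕ) : ℝ := ‖co (fun z => φ z ^ (n + j)) k‖ ^ 2

noncomputable def xx (n k : ℕ) : ℝ := Real.exp (-2 * (k / n))

lemma xx_le {n k : ℕ} (hn : 1 ≤ n) (h : n ≤ k) : xx n k ≤ Real.exp (-2) := by
  have h1 : (0 : ℝ) < n := by exact_mod_cast hn
  have h2 : (1 : ℝ) ≤ k / n := by rw [le_div_iff₀ h1, one_mul]; exact_mod_cast h
  exact Real.exp_le_exp.2 (by linarith)

lemma le_xx {n k : ℕ} (h : k < n) : Real.exp (-2) ≤ xx n k := by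
  have h1 : (0 : ℝ) < n := by exact_mod_cast (by omega : 0 < n)
  have h2 : (k : ℝ) / n ≤ 1 := by rw [div_le_one h1]; exact_mod_cast h.le
  exact Real.exp_le_exp.2 (by linarith)

lemma key (hφ : DifferentiableOn ℂ φ (ball 0 1)) (hm : ∀ z, ‖z‖ < 1 → ‖φ z‖ < 1) :
    ∃ y : ℝ → ℝ, AEStronglyMeasurable y ν0 ∧ (∀ t, (y t = 0 ∧ Tendsto (qq φ t) (𝓝[<] 1) atTop) ∨
      ∃ ω d, JC φ (pt t) ω d ∧ y t = Real.exp (-2 * d)) ∧ ∀ (j : ℕ) (χ : ℝ → ℝ), Continuous χ →
      ∀ a > 0, (∀ u ≤ a, χ u = 0) → Tendsto (fun n => ∑' k, ww φ j n k * χ (xx n k)) atTop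
        (𝓝 ((2 * Real.pi)⁻¹ * ∫ t, χ (y t) ∂ν0)) := by
  choose y h1 h2 h3 using ex_y hφ hm
  have hy : AEStronglyMeasurable y ν0 := aestronglyMeasurable_of_tendsto_ae atTop
    (f := fun n t => ‖φ (circleMap 0 (rr ((0 : ℕ) + 1) (n + 1)) t) ^ (n + 1 + 0)‖ ^ 2)
    (fun n => (((cm_cont hφ (rr_pos _ _).le (rr_lt (by positivity) (by omega))).pow _).norm.pow
      2).aestronglyMeasurable)
    (Eventually.of_forall fun t => by
      have := (h2 t 0 0).comp (tendsto_add_atTop_nat 1)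
      rwa [zero_add 1, pow_one] at this)
  refine ⟨y, hy, h3, fun j χ hχ a ha h0 => mom' (fun n k => sq_nonneg _)
    (fun n => sum_le_one (hφ.fun_pow _) (pow_bd hm _))
    (fun n k => ⟨(Real.exp_pos _).le, Real.exp_le_one_iff.2 (by
      have : (0 : ℝ) ≤ k / n := by positivity
      linarith)⟩) hy h1 (fun m => ?_) hχ ha h0⟩
  refine (II_lim (G := fun n z => φ z ^ (n + j)) (fun n => hφ.fun_pow _) (fun n => pow_bd hm _)
    ((eventually_ge_atTop 1).mono fun n hn => ⟨rr_pos _ _, rr_lt (by positivity) hn⟩)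
    (Eventually.of_forall fun t => h2 t m j)).congr' ((eventually_ge_atTop 1).mono fun n hn => ?_)
  refine (parseval (hφ.fun_pow _) (rr_pos _ _) (rr_lt (by positivity) hn)).tsum_eq.symm.trans ?_
  refine tsum_congr fun k => ?_
  rw [rr, ← Real.exp_nat_mul, ← Real.exp_nat_mul, ← Real.exp_nat_mul]
  congr 2; push_cast; ring

variable {b : ℝ → ℂ}

lemma mass (hφ : DifferentiableOn ℂ φ (ball 0 1)) (hm : ∀ z, ‖z‖ < 1 → ‖φ z‖ < 1)
    (hb : ∀ᵐ t ∂ν0, Tendsto (fun r : ℝ => φ (circleMap 0 r t)) (𝓝[<] 1) (𝓝 (b t))) (j n : ℕ) :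
    ∑' k, ww φ j n k = (2 * Real.pi)⁻¹ * ∫ t, ‖b t ^ (n + j)‖ ^ 2 ∂ν0 := by
  have h := II_lim (G := fun _ z => φ z ^ (n + j)) (ρ := id) (fun _ => hφ.fun_pow _)
    (fun _ => pow_bd hm _) ev01 (hb.mono fun t ht => (ht.pow (n + j)).norm.pow 2)
  refine le_antisymm (Real.tsum_le_of_sum_range_le (fun _ => sq_nonneg _)
    (sum_le (hφ.fun_pow _) h fun _ _ _ => le_rfl)) (le_of_tendsto h (ev01.mono fun r hr => ?_))
  exact II_le (hφ.fun_pow _) (fun N => (summ (hφ.fun_pow _) (pow_bd hm _)).sum_le_tsum _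
    fun _ _ => sq_nonneg _) hr.1 hr.2

lemma b_meas (hφ : DifferentiableOn ℂ φ (ball 0 1))
    (hb : ∀ᵐ t ∂ν0, Tendsto (fun r : ℝ => φ (circleMap 0 r t)) (𝓝[<] 1) (𝓝 (b t))) :
    AEStronglyMeasurable b ν0 := aestronglyMeasurable_of_tendsto_ae atTop
  (f := fun n t => φ (circleMap 0 (rr 1 (n + 1)) t))
  (fun _ => (cm_cont hφ (rr_pos _ _).le (rr_lt one_pos (by omega))).aestronglyMeasurable)
  (hb.mono fun _ ht => ht.comp ((rr_lim one_pos).comp (tendsto_add_atTop_nat 1)))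

lemma b_le (hm : ∀ z, ‖z‖ < 1 → ‖φ z‖ < 1)
    (hb : ∀ᵐ t ∂ν0, Tendsto (fun r : ℝ => φ (circleMap 0 r t)) (𝓝[<] 1) (𝓝 (b t))) :
    ∀ᵐ t ∂ν0, ‖b t‖ ≤ 1 := hb.mono fun t ht => le_of_tendsto ht.norm (ev01.mono fun r hr =>
  (hm _ (by rw [norm_cm hr.1.le]; exact hr.2)).le)

/-- a ramp from `0` to `1` -/
noncomputable def ramp (u : ℝ) : ℝ := max 0 (min 1 u)

lemma ramp_cont : Continuous ramp := by unfold ramp; fun_prop
lemma ramp_nonneg (u : ℝ) : 0 ≤ ramp u := le_max_left _ _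
lemma ramp_le (u : ℝ) : ramp u ≤ 1 := max_le zero_le_one (min_le_left _ _)
lemma ramp_zero {u : ℝ} (h : u ≤ 0) : ramp u = 0 := max_eq_left ((min_le_right _ _).trans h)
lemma ramp_one {u : ℝ} (h : 1 ≤ u) : ramp u = 1 := by rw [ramp, min_eq_left h, max_eq_right zero_le_one]

lemma split (hφ : DifferentiableOn ℂ φ (ball 0 1)) (hm : ∀ z, ‖z‖ < 1 → ‖φ z‖ < 1) (j n : ℕ) :
    ∑ k ∈ Finset.range n, ww φ j n k + ∑' k, ww φ j n (k + n) = ∑' k, ww φ j n k :=
  (summ (hφ.fun_pow _) (pow_bd hm _)).sum_add_tsum_nat_add n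

theorem back (hφ : DifferentiableOn ℂ φ (ball 0 1)) (hm : ∀ z, ‖z‖ < 1 → ‖φ z‖ < 1)
    (hb : ∀ᵐ t ∂ν0, Tendsto (fun r : ℝ => φ (circleMap 0 r t)) (𝓝[<] 1) (𝓝 (b t)))
    (H : ∀ᵐ t ∂ν0, ‖b t‖ = 1 → ∃ d < 1, Tendsto (qq φ t) (𝓝[<] 1) (𝓝 d)) (j : ℕ) :
    Tendsto (fun n => ∑' k, ww φ j n (k + n)) atTop (𝓝 0) := by
  obtain ⟨y, hy, h1, h2⟩ := key hφ hm
  have bm := b_meas hφ hb
  have bl := b_le hm hb
  set χ : ℕ → ℝ → ℝ := fun m u => ramp (m * (u - Real.exp (-2)))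
  have χc : ∀ m, Continuous (χ m) := fun m => ramp_cont.comp (by fun_prop)
  have i1 : ∀ m, Integrable (fun t => χ m (y t)) ν0 := fun m =>
    Integrable.of_bound ((χc m).comp_aestronglyMeasurable hy) 1 (Eventually.of_forall fun t => by
      rw [Real.norm_of_nonneg (ramp_nonneg _)]; exact ramp_le _)
  have p1 : ∀ m, ∀ᵐ t ∂ν0, ‖b t ^ m‖ ^ 2 ≤ 1 := fun m => bl.mono fun t ht => by
    rw [norm_pow]; exact pow_le_one₀ (by positivity) (pow_le_one₀ (norm_nonneg _) ht)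
  have i2 : ∀ m, Integrable (fun t => ‖b t ^ m‖ ^ 2) ν0 := fun m =>
    Integrable.of_bound ((bm.pow m).norm.pow 2) 1 ((p1 m).mono fun t ht => by
      rwa [Real.norm_of_nonneg (sq_nonneg _)])
  have d1 : Tendsto (fun m => ∫ t, max (‖b t ^ m‖ ^ 2 - χ m (y t)) 0 ∂ν0) atTop (𝓝 (∫ _, (0 : ℝ) ∂ν0)) := by
    refine tendsto_integral_of_dominated_convergence (fun _ => 1)
      (fun m => ((i2 m).sub (i1 m)).pos_part.aestronglyMeasurable) (integrable_const _)
      (fun m => (p1 m).mono fun t ht => ?_) ?_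
    · rw [Real.norm_of_nonneg (le_max_right _ _)]
      exact max_le (by linarith [ramp_nonneg (m * (y t - Real.exp (-2)))]) zero_le_one
    filter_upwards [bl, H] with t a1 a2
    rcases a1.lt_or_eq with a3 | a3
    · have t1 := (tendsto_pow_atTop_nhds_zero_of_lt_one (norm_nonneg _) a3).pow 2
      rw [zero_pow two_ne_zero] at t1
      refine squeeze_zero (fun _ => le_max_right _ _) (fun m => ?_) t1
      rw [norm_pow]
      exact max_le (sub_le_self _ (ramp_nonneg _)) (sq_nonneg _)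
    · obtain ⟨d, a4, a5⟩ := a2 a3
      rcases h1 t with ⟨-, a6⟩ | ⟨ω, d', a6, a7⟩
      · exact absurd a5 (not_tendsto_nhds_of_tendsto_atTop a6 d)
      have a8 : 0 < y t - Real.exp (-2) := by
        rw [a7, tendsto_nhds_unique (q_jc a6) a5, sub_pos]; exact Real.exp_lt_exp.2 (by linarith)
      refine tendsto_const_nhds.congr' ?_
      filter_upwards [(tendsto_natCast_atTop_atTop.atTop_mul_const a8).eventually_ge_atTop 1] with m a9
      rw [show χ m (y t) = 1 from ramp_one a9, norm_pow, a3]; simp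
  rw [integral_zero] at d1
  rw [Metric.tendsto_nhds]
  intro ε hε
  obtain ⟨m, a1⟩ := (d1.eventually_lt_const (half_pos hε)).exists
  have a2 := h2 j (χ m) (χc m) _ (Real.exp_pos (-2)) fun u hu =>
    ramp_zero (mul_nonpos_of_nonneg_of_nonpos (Nat.cast_nonneg m) (sub_nonpos.2 hu))
  filter_upwards [a2.eventually_const_lt (sub_lt_self _ (half_pos hε)), eventually_ge_atTop 1,
    eventually_ge_atTop m] with n a3 hn hmn
  have a4 := split hφ hm j n
  have a5 : ∑' k, ww φ j n k * χ m (xx n k) ≤ ∑ k ∈ Finset.range n, ww φ j n k := by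
    rw [tsum_eq_sum (s := Finset.range n) fun k hk => by
      rw [show χ m (xx n k) = 0 from ramp_zero (mul_nonpos_of_nonneg_of_nonpos (Nat.cast_nonneg m)
        (sub_nonpos.2 (xx_le hn (by simpa using hk)))), mul_zero]]
    exact Finset.sum_le_sum fun k _ => mul_le_of_le_one_right (sq_nonneg _) (ramp_le _)
  have a6 : ∫ t, ‖b t ^ (n + j)‖ ^ 2 ∂ν0 ≤ ∫ t, max (‖b t ^ m‖ ^ 2 - χ m (y t)) 0 ∂ν0 +
      ∫ t, χ m (y t) ∂ν0 := by
    refine le_trans ?_ (integral_add ((i2 m).sub (i1 m)).pos_part (i1 m)).le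
    refine integral_mono_ae (i2 _) (((i2 m).sub (i1 m)).pos_part.add (i1 m)) (bl.mono fun t ht => ?_)
    have : ‖b t ^ (n + j)‖ ^ 2 ≤ ‖b t ^ m‖ ^ 2 := by
      rw [norm_pow, norm_pow]
      exact pow_le_pow_left₀ (by positivity) (pow_le_pow_of_le_one (norm_nonneg _) ht (by omega)) 2
    exact this.trans (sub_le_iff_le_add.1 (le_max_left _ _))
  have c0 : 0 ≤ (2 * Real.pi)⁻¹ := by positivity
  have c1 : (2 * Real.pi)⁻¹ ≤ 1 := inv_le_one_of_one_le₀ (by linarith [Real.pi_gt_three])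
  rw [mass hφ hm hb] at a4
  rw [Real.dist_eq, sub_zero, abs_of_nonneg (tsum_nonneg fun _ => sq_nonneg _)]
  nlinarith [mul_le_mul_of_nonneg_left a6 c0, mul_le_mul_of_nonneg_left a1.le c0]

theorem forth (hφ : DifferentiableOn ℂ φ (ball 0 1)) (hm : ∀ z, ‖z‖ < 1 → ‖φ z‖ < 1)
    (hn : ¬ ∃ c : ℂ, ‖c‖ = 1 ∧ ∀ z ∈ ball (0 : ℂ) 1, φ z = c * z)
    (hb : ∀ᵐ t ∂ν0, Tendsto (fun r : ℝ => φ (circleMap 0 r t)) (𝓝[<] 1) (𝓝 (b t)))
    (H : Tendsto (fun n => ∑' k, ww φ 0 n (k + n)) atTop (𝓝 0)) :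
    ∀ᵐ t ∂ν0, ‖b t‖ = 1 → ∃ d < 1, Tendsto (qq φ t) (𝓝[<] 1) (𝓝 d) := by
  obtain ⟨y, hy, h1, h2⟩ := key hφ hm
  have bm := b_meas hφ hb
  have bl := b_le hm hb
  set χ : ℕ → ℝ → ℝ := fun m u => ramp ((m + 2) * (u / Real.exp (-2) - 1) + 1)
  have χc : ∀ m, Continuous (χ m) := fun m => ramp_cont.comp (by fun_prop)
  have e0 := Real.exp_pos (-2)
  have χ1 : ∀ m u, Real.exp (-2) ≤ u → χ m u = 1 := fun m u hu => ramp_one (by
    have := (one_le_div e0).2 hu
    nlinarith [Nat.cast_nonneg (α := ℝ) m])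
  set e : ℝ → ℝ := fun t => indicator {z : ℂ | ‖z‖ = 1} 1 (b t)
  set e' : ℝ → ℝ := fun t => indicator (Ici (Real.exp (-2))) 1 (y t)
  have ie : Integrable e ν0 := Integrable.of_bound (((measurable_one.indicator
    (isClosed_eq continuous_norm continuous_const).measurableSet).comp_aemeasurable
    bm.aemeasurable).aestronglyMeasurable) 1 (Eventually.of_forall fun t =>
      (norm_indicator_le_norm_self _ _).trans (by simp))
  have ie' : Integrable e' ν0 := Integrable.of_bound (((measurable_one.indicator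
    measurableSet_Ici).comp_aemeasurable hy.aemeasurable).aestronglyMeasurable) 1
    (Eventually.of_forall fun t => (norm_indicator_le_norm_self _ _).trans (by simp))
  have c0 : 0 < (2 * Real.pi)⁻¹ := by positivity
  have d0 : ∀ m, ∫ t, e t ∂ν0 ≤ ∫ t, χ m (y t) ∂ν0 := fun m => by
    have a2 := (h2 0 (χ m) (χc m) _ (half_pos e0) fun u hu => ramp_zero (by
      have : u / Real.exp (-2) ≤ 1 / 2 := by rw [div_le_iff₀ e0]; linarith
      nlinarith [Nat.cast_nonneg (α := ℝ) m])).add H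
    rw [add_zero] at a2
    refine le_of_mul_le_mul_left (ge_of_tendsto' a2 fun n => ?_) c0
    have sw : Summable (ww φ 0 n) := summ (hφ.fun_pow _) (pow_bd hm _)
    have a5 : ∑ k ∈ Finset.range n, ww φ 0 n k ≤ ∑' k, ww φ 0 n k * χ m (xx n k) := by
      refine le_trans (le_of_eq (Finset.sum_congr rfl fun k hk => ?_))
        ((sw.of_nonneg_of_le (fun k => mul_nonneg (sq_nonneg _) (ramp_nonneg _)) fun k =>
          mul_le_of_le_one_right (sq_nonneg _) (ramp_le _)).sum_le_tsum (Finset.range n)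
          fun k _ => mul_nonneg (sq_nonneg _) (ramp_nonneg _))
      exact (mul_one _).symm.trans (congrArg _ (χ1 m _ (le_xx (by simpa using hk))).symm)
    have a4 := split hφ hm 0 n
    rw [mass hφ hm hb] at a4
    have a6 : ∫ t, e t ∂ν0 ≤ ∫ t, ‖b t ^ (n + 0)‖ ^ 2 ∂ν0 := by
      refine integral_mono ie (Integrable.of_bound ((bm.pow _).norm.pow 2) 1 (bl.mono fun t ht => ?_))
        fun t => ?_
      · rw [Real.norm_of_nonneg (sq_nonneg _), norm_pow]
        exact pow_le_one₀ (by positivity) (pow_le_one₀ (norm_nonneg _) ht)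
      · by_cases h : ‖b t‖ = 1
        · simp [e, h]
        · simp [e, h]
    linarith [mul_le_mul_of_nonneg_left a6 c0.le]
  have d1 : Tendsto (fun m => ∫ t, χ m (y t) ∂ν0) atTop (𝓝 (∫ t, e' t ∂ν0)) := by
    refine tendsto_integral_of_dominated_convergence (fun _ => 1)
      (fun m => (χc m).comp_aestronglyMeasurable hy) (integrable_const _)
      (fun m => Eventually.of_forall fun t => by
        rw [Real.norm_of_nonneg (ramp_nonneg _)]; exact ramp_le _) (Eventually.of_forall fun t => ?_)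
    by_cases h : Real.exp (-2) ≤ y t
    · simp [e', h, χ1 _ _ h]
    · have a1 : 0 < 1 - y t / Real.exp (-2) := by rw [sub_pos, div_lt_one e0]; exact not_le.1 h
      refine tendsto_const_nhds.congr' ?_
      filter_upwards [(tendsto_natCast_atTop_atTop.atTop_mul_const a1).eventually_ge_atTop 1] with m a9
      rw [show χ m (y t) = 0 from ramp_zero (by nlinarith)]; simp [e', h]
  have d2 := ge_of_tendsto' d1 d0
  have d3 : ∀ᵐ t ∂ν0, 0 ≤ e t - e' t := hb.mono fun t ht => by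
    by_cases h : Real.exp (-2) ≤ y t
    · rcases h1 t with ⟨a6, -⟩ | ⟨ω, d', a6, -⟩
      · linarith
      · have := tendsto_nhds_unique ht ((a6.val_lim (norm_pt_real t) 1).comp (rad_St t))
        simp [e, e', h, this, a6.norm]
    · have : 0 ≤ e t := indicator_nonneg (fun _ _ => zero_le_one) _
      simpa [e', h] using this
  have d4 := (integral_eq_zero_iff_of_nonneg_ae d3 (ie.sub ie')).1
    (le_antisymm (by rw [integral_sub ie ie']; linarith) (integral_nonneg_of_ae d3))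
  filter_upwards [d4, ae_restrict_of_ae (measure_eq_zero_iff_ae_notMem.1 (null_set hφ hm hn))]
    with t a1 a2 a3
  have a4 : Real.exp (-2) ≤ y t := by
    by_contra h
    simp [e, e', h, a3] at a1
  rcases h1 t with ⟨a6, -⟩ | ⟨ω, d, a6, a7⟩
  · linarith
  · rw [a7, Real.exp_le_exp] at a4
    exact ⟨d, lt_of_le_of_ne (by linarith) fun h => a2 ⟨ω, h ▸ a6⟩, q_jc a6⟩

/-- tail smallness, finite-sum form -/
def Z (a : ℕ → ℕ → ℂ) : Prop := ∀ ε > 0, ∀ᶠ n in atTop, ∀ N, ∑ k ∈ Finset.range N, ‖a n k‖ ^ 2 ≤ ε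

lemma enn_sum (a : ℕ → ℂ) (N : ℕ) : ∑ k ∈ Finset.range N, ‖a k‖ₑ ^ 2 =
    ENNReal.ofReal (∑ k ∈ Finset.range N, ‖a k‖ ^ 2) := by
  rw [ENNReal.ofReal_sum_of_nonneg fun _ _ => sq_nonneg _]
  exact Finset.sum_congr rfl fun k _ => by rw [ENNReal.ofReal_pow (norm_nonneg _), ofReal_norm]

lemma Z_iff (a : ℕ → ℕ → ℂ) : Tendsto (fun n => ∑' k, ‖a n k‖ₑ ^ 2) atTop (𝓝 0) ↔ Z a := by
  rw [ENNReal.tendsto_nhds_zero]
  refine ⟨fun h ε hε => (h (ENNReal.ofReal ε) (ENNReal.ofReal_pos.2 hε)).mono fun n hn N => ?_,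
    fun h ε hε => ?_⟩
  · rw [← ENNReal.ofReal_le_ofReal_iff hε.le, ← enn_sum]
    exact (ENNReal.sum_le_tsum _).trans hn
  · rcases eq_or_ne ε ⊤ with rfl | h1
    · exact Eventually.of_forall fun _ => le_top
    refine (h ε.toReal (ENNReal.toReal_pos hε.ne' h1)).mono fun n hn => ?_
    rw [ENNReal.tsum_eq_iSup_nat]
    refine iSup_le fun N => ?_
    rw [enn_sum]; exact ENNReal.ofReal_le_of_le_toReal (hn N)

lemma sum_add_le (a b : ℕ → ℂ) (N : ℕ) : ∑ k ∈ Finset.range N, ‖a k + b k‖ ^ 2 ≤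
    2 * ∑ k ∈ Finset.range N, ‖a k‖ ^ 2 + 2 * ∑ k ∈ Finset.range N, ‖b k‖ ^ 2 := by
  rw [Finset.mul_sum, Finset.mul_sum, ← Finset.sum_add_distrib]
  refine Finset.sum_le_sum fun k _ => (pow_le_pow_left₀ (norm_nonneg _) (norm_add_le _ _) 2).trans ?_
  nlinarith [sq_nonneg (‖a k‖ - ‖b k‖)]

lemma Z.add {a b : ℕ → ℕ → ℂ} (ha : Z a) (hb : Z b) : Z fun n k => a n k + b n k := fun ε hε => by
  filter_upwards [ha (ε / 4) (by positivity), hb (ε / 4) (by positivity)] with n h1 h2 N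
  linarith [sum_add_le (a n) (b n) N, h1 N, h2 N]

lemma Z.mul {a : ℕ → ℕ → ℂ} (ha : Z a) (c : ℂ) : Z fun n k => c * a n k := fun ε hε => by
  filter_upwards [ha (ε / (‖c‖ ^ 2 + 1)) (by positivity)] with n h1 N
  simp only [norm_mul, mul_pow, ← Finset.mul_sum]
  have := h1 N
  rw [le_div_iff₀ (by positivity)] at this
  have : 0 ≤ ∑ k ∈ Finset.range N, ‖a n k‖ ^ 2 := Finset.sum_nonneg fun _ _ => sq_nonneg _
  nlinarith

lemma Z.term {a : ℕ → ℕ → ℂ} (ha : Z a) (k : ℕ) : Tendsto (fun n => a n k) atTop (𝓝 0) := by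
  rw [Metric.tendsto_nhds]
  intro ε hε
  filter_upwards [ha (ε ^ 2 / 2) (by positivity)] with n h
  have := (Finset.single_le_sum (f := fun k => ‖a n k‖ ^ 2) (fun _ _ => sq_nonneg _)
    (Finset.self_mem_range_succ k)).trans (h _)
  rw [dist_zero_right]
  exact lt_of_pow_lt_pow_left₀ 2 hε.le (by nlinarith)

lemma co_shift {g : ℂ → ℂ} (hg : DifferentiableOn ℂ g (ball 0 1)) (n k : ℕ) :
    co (fun z => z ^ n * g z) (n + k) = co g k := by
  have a1 := fc_nat (g := fun z => z ^ n * g z) (by fun_prop) (r := 1 / 2) (by norm_num) (by norm_num)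
    (n + k)
  have a2 := fc_nat hg (r := 1 / 2) (by norm_num) (by norm_num) k
  rw [fourierCoeffOn_eq_integral] at a1 a2
  have e : ∀ x : ℝ, fourier (-((n + k : ℕ) : ℤ)) (x : AddCircle (2 * Real.pi - 0)) •
      (circleMap 0 (1 / 2) x ^ n * g (circleMap 0 (1 / 2) x)) = ((1 / 2 : ℝ) : ℂ) ^ n *
      (fourier (-(k : ℤ)) (x : AddCircle (2 * Real.pi - 0)) • g (circleMap 0 (1 / 2) x)) := fun x => by
    rw [four, four, zpow_neg, zpow_neg, zpow_natCast, zpow_natCast]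
    generalize g (circleMap 0 (1 / 2) x) = w
    have b := exp_ne_zero (x * I)
    simp only [circleMap, zero_add, smul_eq_mul, mul_pow, pow_add]
    field_simp
  simp only [e] at a1
  rw [intervalIntegral.integral_const_mul, ← mul_smul_comm, a2, pow_add] at a1
  refine mul_right_cancel₀ (b := ((1 / 2 : ℝ) : ℂ) ^ n * ((1 / 2 : ℝ) : ℂ) ^ k)
    (mul_ne_zero (pow_ne_zero _ (by norm_num)) (pow_ne_zero _ (by norm_num))) ?_
  rw [← a1]; ring

lemma Z_all (hφ : DifferentiableOn ℂ φ (ball 0 1)) (hm : ∀ z, ‖z‖ < 1 → ‖φ z‖ < 1)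
    (H : ∀ j, Tendsto (fun n => ∑' k, ww φ j n (k + n)) atTop (𝓝 0)) {f : ℂ → ℂ}
    (hf : DifferentiableOn ℂ f (ball 0 1)) (hs : Summable fun k => ‖co f k‖ ^ 2) :
    Z fun n k => co (fun z => φ z ^ n * f (φ z)) (n + k) := by
  have mt : MapsTo φ (ball 0 1) (ball 0 1) := fun z hz => by simpa using hm z (by simpa using hz)
  set p : ℕ → ℂ → ℂ := fun J z => ∑ j ∈ Finset.range J, co f j * z ^ j
  have pd : ∀ J, Differentiable ℂ (p J) := fun J => by unfold p; fun_prop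
  have dc : ∀ {F : ℂ → ℂ}, DifferentiableOn ℂ F (ball 0 1) → ∀ n,
      DifferentiableOn ℂ (fun z => φ z ^ n * F (φ z)) (ball 0 1) := fun hF n =>
    (hφ.fun_pow n).mul (hF.comp hφ mt)
  have z1 : ∀ J, Z fun n k => co (fun z => φ z ^ n * p J (φ z)) (n + k) := fun J => by
    induction J with
    | zero => exact fun ε hε => Eventually.of_forall fun _ _ => by simp [p, co, hε.le]
    | succ J ih =>
      have z0 : Z fun n k => co (fun z => φ z ^ (n + J)) (n + k) := fun ε hε =>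
        ((H J).eventually_le_const hε).mono fun n hn N => le_trans ((Finset.sum_congr rfl fun k _ => by rw [add_comm k n]).trans_le
          (((summable_nat_add_iff n).2 (summ (hφ.fun_pow _) (pow_bd hm _))).sum_le_tsum _
            fun _ _ => sq_nonneg _)) hn
      convert ih.add (z0.mul (co f J)) using 3 with n k
      rw [← co_mul, ← co_add (dc (pd J).differentiableOn n) ((hφ.fun_pow _).const_mul _)]
      congr 1; funext z
      simp only [p, Finset.sum_range_succ]; ring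
  have cp : ∀ J k, co (p J) k = if k < J then co f k else 0 := fun J k => by
    induction J with
    | zero => simp [p, co]
    | succ J ih =>
      simp only [p, Finset.sum_range_succ]
      rw [co_add (pd J).differentiableOn (by fun_prop), ih, co_mul, co_pow]
      rcases lt_trichotomy k J with h | h | h
      · rw [if_pos h, if_neg h.ne, if_pos (by omega)]; simp
      · rw [if_neg (by omega), if_pos h, if_pos (by omega), h]; simp
      · rw [if_neg (by omega), if_neg h.ne', if_neg (by omega)]; simp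
  intro ε hε
  set K := 4 / (1 - ‖φ 0‖)
  have K0 : 0 < K := div_pos (by norm_num) (sub_pos.2 (hm 0 (by simp)))
  obtain ⟨J, hJ⟩ := ((tendsto_sum_nat_add fun k => ‖co f k‖ ^ 2).eventually_le_const
    (show 0 < ε / 4 / K by positivity)).exists
  have hd := hf.fun_sub (pd J).differentiableOn
  have r1 : ∀ N, ∑ k ∈ Finset.range N, ‖co (fun z => f z - p J z) k‖ ^ 2 ≤ ε / 4 / K := fun N => by
    refine (Finset.sum_le_sum_of_subset_of_nonneg (Finset.range_subset_range.2 (Nat.le_add_left N J))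
      fun _ _ _ => sq_nonneg _).trans ?_
    rw [Finset.sum_range_add, Finset.sum_eq_zero fun k hk => by
      rw [co_sub hf (pd J).differentiableOn, cp, if_pos (by simpa using hk)]; simp, zero_add]
    refine le_trans (le_of_eq (Finset.sum_congr rfl fun k _ => ?_))
      ((((summable_nat_add_iff J).2 hs).sum_le_tsum (Finset.range N) fun _ _ => sq_nonneg _).trans hJ)
    rw [co_sub hf (pd J).differentiableOn, cp, if_neg (by omega), sub_zero, add_comm]
  filter_upwards [z1 J (ε / 4) (by positivity)] with n h1 N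
  have r2 := sum_le (dc hd n) (tendsto_const_nhds (x := K * (ε / 4 / K))) (fun r h0 h1 =>
    (II_mono (dc hd n) (hd.comp hφ mt) (fun z hz => by
      rw [norm_mul]; exact mul_le_of_le_one_left (norm_nonneg _) (pow_bd hm n z hz)) h0 h1).trans
      (litt hφ hm hd (fun r h0 h1 => II_le hd r1 h0 h1) h0 h1)) (n + N)
  rw [mul_div_cancel₀ _ K0.ne', Finset.sum_range_add] at r2
  have r3 := sum_add_le (fun k => co (fun z => φ z ^ n * p J (φ z)) (n + k))
    (fun k => co (fun z => φ z ^ n * (f (φ z) - p J (φ z))) (n + k)) N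
  simp only [← co_add (dc (pd J).differentiableOn n) (dc hd n), ← mul_add, add_sub_cancel] at r3
  have : 0 ≤ ∑ k ∈ Finset.range n, ‖co (fun z => φ z ^ n * (f (φ z) - p J (φ z))) k‖ ^ 2 :=
    Finset.sum_nonneg fun _ _ => sq_nonneg _
  linarith [h1 N]

theorem main (hφ : DifferentiableOn ℂ φ (ball 0 1)) (hm : ∀ z, ‖z‖ < 1 → ‖φ z‖ < 1) :
    (∀ f : ℂ → ℂ, DifferentiableOn ℂ f (ball 0 1) → Summable (fun k => ‖co f k‖ ^ 2) →
      ∃ g : ℕ → ℂ, Summable (fun k => ‖g k‖ ^ 2) ∧ Tendsto (fun n => ∑' k,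
        ‖co (fun z => φ z ^ n * f (φ z)) (n + k) - g k‖ₑ ^ 2) atTop (𝓝 0)) ↔
    (∀ z ∈ ball (0 : ℂ) 1, φ z = z) ∨ ∀ᵐ t ∂ν0,
      Tendsto (fun r : ℝ => ‖φ (circleMap 0 r t)‖) (𝓝[<] 1) (𝓝 1) →
      ∃ d < 1, Tendsto (qq φ t) (𝓝[<] 1) (𝓝 d) := by
  obtain ⟨b, hb⟩ := fatou hφ fun z hz => (hm z hz).le
  replace hb : ∀ᵐ t ∂ν0, _ := ae_restrict_of_ae hb
  constructor
  · intro h
    obtain ⟨g, -, hg⟩ := h (fun _ => 1) (by fun_prop) (summ (by fun_prop) fun _ _ => by simp)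
    rw [Z_iff] at hg
    simp only [mul_one] at hg
    by_cases hn : ∃ c : ℂ, ‖c‖ = 1 ∧ ∀ z ∈ ball (0 : ℂ) 1, φ z = c * z
    · obtain ⟨c, h1, h2⟩ := hn
      have e : ∀ n, co (fun z => φ z ^ n) (n + 0) = c ^ n := fun n => by
        rw [co_congr (h := fun z => c ^ n * z ^ n) fun z hz => by rw [h2 z (by simpa using hz), mul_pow],
          co_mul, co_pow]; simp
      have t1 := (hg.term 0).add_const (g 0)
      simp only [e, sub_add_cancel, zero_add] at t1
      have t2 := tendsto_nhds_unique (t1.comp (tendsto_add_atTop_nat 1))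
        ((t1.mul_const c).congr fun n => (pow_succ c n).symm)
      have t3 : ‖g 0‖ = 1 := tendsto_nhds_unique t1.norm (by simp [h1])
      have : c = 1 := (mul_right_eq_self₀.1 t2.symm).resolve_right fun h0 => by simp [h0] at t3
      exact Or.inl fun z hz => by rw [h2 z hz, this, one_mul]
    have g0 : ∀ k, g k = 0 := fun k => by
      have := tendsto_nhds_unique ((Wat.main hφ hm hn 0 k).sub_const (g k)) (hg.term k)
      simpa using this
    simp only [g0, sub_zero] at hg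
    refine Or.inr ?_
    filter_upwards [hb, forth hφ hm hn hb (Metric.tendsto_nhds.2 fun ε hε =>
      (hg (ε / 2) (half_pos hε)).mono fun n hn => by
        rw [Real.dist_eq, sub_zero, abs_of_nonneg (tsum_nonneg fun _ => sq_nonneg _)]
        refine (Real.tsum_le_of_sum_range_le (fun _ => sq_nonneg _) fun N => ?_).trans_lt
          (half_lt_self hε)
        simpa only [ww, add_comm n, add_zero, zero_add] using hn N)] with t a1 a2 a3
    exact a2 (tendsto_nhds_unique a1.norm a3)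
  · rintro (h | h) f hf hs
    · refine ⟨co f, hs, ?_⟩
      have e : ∀ n k, co (fun z => φ z ^ n * f (φ z)) (n + k) = co f k := fun n k => by
        rw [co_congr (h := fun z => z ^ n * f z) fun z hz => by rw [h z (by simpa using hz)], co_shift hf]
      simp [e]
    · refine ⟨0, by simp, ?_⟩
      simp only [Pi.zero_apply, sub_zero]
      refine (Z_iff _).2 (Z_all hφ hm (back hφ hm hb ?_) hf hs)
      filter_upwards [hb, h] with t a1 a2 a3 using a2 (a3 ▸ a1.norm)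

end Pool.Agent.H1.Sat
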