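import Mathlib

set_option autoImplicit false

namespace Pool.Agent.H1.Sel
open Polynomial Finset
open scoped ComplexConjugate

noncomputable def N (k : ℕ) (p : ℂ[X]) : ℝ := ∑ i ∈ range (k + 1), ‖p.coeff i‖ ^ 2

lemma N_X (k : ℕ) (p : ℂ[X]) : N k (X * p) ≤ N k p := by
  rw [N, N, sum_range_succ', sum_range_succ]
  simp [coeff_X_mul]

lemma N_lin (k : ℕ) (x : ℂ) (hx : 1 ≤ ‖x‖) (p : ℂ[X]) :
    N k ((1 - C (conj x) * X) * p) ≤ N k ((X - C x) * p) := by
  have e : ∀ a b : ℂ, ‖a - x * b‖ ^ 2 - ‖b - conj x * a‖ ^ 2 = (‖x‖ ^ 2 - 1) * (‖b‖ ^ 2 - ‖a‖ ^ 2) :=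
    fun a b => by
      simp only [Complex.sq_norm, Complex.normSq_apply, Complex.sub_re, Complex.sub_im,
        Complex.mul_re, Complex.mul_im, Complex.conj_re, Complex.conj_im]
      ring
  have : N k ((X - C x) * p) - N k ((1 - C (conj x) * X) * p) =
      (‖x‖ ^ 2 - 1) * (N k p - N k (X * p)) := by
    simp only [N, ← sum_sub_distrib, mul_sum, ← e, sub_mul, one_mul, mul_assoc, coeff_sub,
      coeff_C_mul]
  have h2 := mul_nonneg (show 0 ≤ ‖x‖ ^ 2 - 1 by nlinarith) (sub_nonneg.2 (N_X k p))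
  linarith

lemma rev_lin (x : ℂ) : (X - C x).reverse = 1 - C x * X := by
  rw [sub_eq_add_neg, ← C_neg, reverse_add_C, natDegree_X, pow_one]
  have : (X : ℂ[X]).reverse = 1 := by
    simpa [show (1 : ℂ[X]).reverse = 1 from reverse_C 1] using reverse_X_mul (1 : ℂ[X])
  rw [this, C_neg]; ring

lemma N_prod (k : ℕ) (s : Multiset ℂ) (hs : ∀ x ∈ s, 1 ≤ ‖x‖) : ∀ v : ℂ[X],
    N k (((s.map (X - C ·)).prod.map conj).reverse * v) ≤ N k ((s.map (X - C ·)).prod * v) := by
  induction s using Multiset.induction_on with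
  | empty => intro v; simp [show (1 : ℂ[X]).reverse = 1 from reverse_C 1]
  | cons a s ih =>
    intro v
    simp only [Multiset.map_cons, Multiset.prod_cons, Polynomial.map_mul, reverse_mul_of_domain,
      Polynomial.map_sub, map_X, map_C, rev_lin]
    rw [mul_assoc]
    refine (N_lin k a (hs a (by simp)) _).trans ?_
    rw [mul_left_comm, mul_assoc (X - C a), mul_left_comm (X - C a) (Multiset.prod _)]
    exact ih (fun x hx => hs x (by simp [hx])) _

lemma N_C (k : ℕ) (c : ℂ) (p : ℂ[X]) : N k (C c * p) = ‖c‖ ^ 2 * N k p := by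
  simp [N, mul_sum, mul_pow]

lemma N_star (k : ℕ) (f : ℂ[X]) (hf : ∀ x ∈ f.roots, 1 ≤ ‖x‖) (v : ℂ[X]) :
    N k ((f.map conj).reverse * v) ≤ N k (f * v) := by
  have := mul_le_mul_of_nonneg_left (N_prod k _ hf v) (sq_nonneg ‖f.leadingCoeff‖)
  conv_lhs => rw [(IsAlgClosed.splits f).eq_prod_roots]
  conv_rhs => rw [(IsAlgClosed.splits f).eq_prod_roots]
  rw [Polynomial.map_mul, reverse_mul_of_domain, map_C, reverse_C, mul_assoc, mul_assoc, N_C, N_C,
    Complex.norm_conj]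
  exact this

lemma star_coeff (f : ℂ[X]) {i : ℕ} (hi : i ≤ f.natDegree) :
    (f.map conj).reverse.coeff i = conj (f.coeff (f.natDegree - i)) := by
  rw [coeff_reverse, natDegree_map, revAt_le hi, coeff_map]

/-- Schur-Cohn minor -/
lemma schur (f : ℂ[X]) (hf : ∀ x ∈ f.roots, 1 ≤ ‖x‖) {k : ℕ} (k0 : 0 < k) (kn : k < f.natDegree)
    (h : ∀ i, 0 < i → i < f.natDegree → ‖f.coeff i‖ = ‖f.coeff (f.natDegree - i)‖) :
    ‖f.coeff 0 * conj (f.coeff k) - conj (f.coeff f.natDegree) * f.coeff (f.natDegree - k)‖ ≤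
      ‖f.coeff 0‖ ^ 2 - ‖f.coeff f.natDegree‖ ^ 2 := by
  obtain ⟨c, c1, hc⟩ := Complex.exists_norm_eq_mul_self (f.coeff 0 * conj (f.coeff k) -
    conj (f.coeff f.natDegree) * f.coeff (f.natDegree - k))
  have nv : ∀ p : ℂ[X], N k (p * (1 + C (-c) * X ^ k)) = ∑ i ∈ range k, ‖p.coeff i‖ ^ 2 +
      (‖p.coeff k‖ ^ 2 + ‖p.coeff 0‖ ^ 2 - 2 * (c * (p.coeff 0 * conj (p.coeff k))).re) := fun p => by
    simp only [N, sum_range_succ, mul_add, mul_one, mul_left_comm p, coeff_add, coeff_C_mul,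
      coeff_mul_X_pow', le_refl, if_true, Nat.sub_self]
    congr 1
    · exact sum_congr rfl fun i hi => by simp [(mem_range.mp hi).not_ge]
    · have := congrArg (· ^ 2) c1
      simp only [Complex.sq_norm, Complex.normSq_apply, Complex.add_re, Complex.add_im,
        Complex.mul_re, Complex.mul_im, Complex.conj_re, Complex.conj_im, Complex.neg_re,
        Complex.neg_im] at this ⊢
      linear_combination ((p.coeff 0).re ^ 2 + (p.coeff 0).im ^ 2) * this
  have := N_star k f hf (1 + C (-c) * X ^ k)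
  obtain ⟨j, rfl⟩ : ∃ j, k = j + 1 := ⟨k - 1, by omega⟩
  rw [nv, nv, sum_range_succ', sum_range_succ', star_coeff f kn.le, star_coeff f (Nat.zero_le _),
    sum_congr rfl (g := fun i => ‖f.coeff (i + 1)‖ ^ 2) fun i hi => by
      have := mem_range.mp hi
      rw [star_coeff f (by omega), Complex.norm_conj, ← h _ (by omega) (by omega)]] at this
  have e := congrArg Complex.re hc
  rw [mul_sub, Complex.sub_re, Complex.ofReal_re] at e
  simp only [Complex.norm_conj, Complex.conj_conj, Nat.sub_zero, ← h _ k0 kn] at this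
  linarith

lemma lag (f : ℂ[X]) (hf : ∀ x ∈ f.roots, 1 ≤ ‖x‖) {z : ℂ} (hz : ‖z‖ ≤ 1) (h0 : f.eval z ≠ 0) :
    (z * (f.derivative.eval z / f.eval z)).re ≤ f.natDegree / 2 := by
  rw [(IsAlgClosed.splits f).eval_derivative_div_eval_of_ne_zero h0, ← Multiset.sum_map_mul_left,
    ← IsAlgClosed.card_roots_eq_natDegree, ← Complex.reCLM_apply, map_multiset_sum, Multiset.map_map]
  refine (Multiset.sum_le_card_nsmul _ (1 / 2) fun y hy => ?_).trans_eq (by simp; ring)
  obtain ⟨x, hx, rfl⟩ := Multiset.mem_map.mp hy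
  have h1 : z - x ≠ 0 := sub_ne_zero.mpr fun e => h0 (e ▸ (isRoot_of_mem_roots hx))
  have h2 := Complex.normSq_pos.mpr h1
  simp only [Function.comp, Complex.reCLM_apply, mul_one_div, Complex.div_re]
  rw [← add_div, div_le_iff₀ h2]
  have a := pow_le_pow_left₀ (norm_nonneg _) (hz.trans (hf x hx)) 2
  simp only [Complex.sq_norm, Complex.normSq_apply, Complex.sub_re, Complex.sub_im] at a ⊢
  nlinarith

lemma lag' (f : ℂ[X]) (hf : ∀ x ∈ f.roots, 1 ≤ ‖x‖) {z : ℂ} (hz : ‖z‖ ≤ 1) :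
    ‖z * f.derivative.eval z‖ ≤ ‖f.natDegree * f.eval z - z * f.derivative.eval z‖ := by
  by_cases h0 : f.eval z = 0
  · simp [h0]
  have := lag f hf hz h0
  obtain ⟨y, hy⟩ : ∃ y, y = z * (f.derivative.eval z / f.eval z) := ⟨_, rfl⟩
  rw [← hy] at this
  rw [show z * f.derivative.eval z = y * f.eval z by rw [hy]; field_simp, ← sub_mul, norm_mul,
    norm_mul]
  refine mul_le_mul_of_nonneg_right (abs_le_of_sq_le_sq' ?_ (norm_nonneg _)).2 (norm_nonneg _)
  simp only [Complex.sq_norm, Complex.normSq_apply, Complex.sub_re, Complex.sub_im,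
    Complex.natCast_re, Complex.natCast_im]
  nlinarith [(Nat.cast_nonneg f.natDegree : (0 : ℝ) ≤ _)]

/-- de Bruijn on the boundary -/
lemma bruijn (P : ℂ[X]) (w : ℂ) (hw : ∀ x, ‖x‖ < 1 → P.eval x ≠ w) {z : ℂ} (hz : ‖z‖ ≤ 1) :
    ‖z * P.derivative.eval z‖ ≤ ‖P.natDegree * (P.eval z - w) - z * P.derivative.eval z‖ := by
  have := lag' (P - C w) (fun x hx => not_lt.mp fun h => hw x h (by
    simpa [sub_eq_zero] using isRoot_of_mem_roots hx)) hz
  simpa [natDegree_sub_C] using this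

lemma bern (P : ℂ[X]) (B : ℝ) (hB : ∀ x, ‖x‖ = 1 → ‖P.eval x‖ ≤ B) {z : ℂ} (hz : ‖z‖ ≤ 1)
    (he : ‖P.natDegree * P.eval z - z * P.derivative.eval z‖ = ‖z * P.derivative.eval z‖) :
    2 * ‖z * P.derivative.eval z‖ ≤ P.natDegree * B := by
  have mx : ∀ x, ‖x‖ < 1 → ‖P.eval x‖ ≤ B := fun x hx =>
    Complex.norm_le_of_forall_mem_frontier_norm_le (U := Metric.ball 0 1) Metric.isBounded_ball
      P.differentiable.diffContOnCl (fun y hy => hB y (by
        rwa [frontier_ball _ one_ne_zero, mem_sphere_zero_iff_norm] at hy))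
      (subset_closure (mem_ball_zero_iff.mpr hx))
  have B0 : 0 ≤ B := (norm_nonneg _).trans (hB 1 norm_one)
  by_contra hc
  push Not at hc
  obtain ⟨c, hc'⟩ : ∃ c, c = P.natDegree * P.eval z - z * P.derivative.eval z := ⟨_, rfl⟩
  obtain ⟨r, hr⟩ : ∃ r, r = ‖z * P.derivative.eval z‖ := ⟨_, rfl⟩
  rw [← hc', ← hr] at he
  rw [← hr] at hc
  have nB : 0 ≤ P.natDegree * B := by positivity
  have r0 : 0 < r := by linarith
  have n0 : (0 : ℝ) < P.natDegree := by
    rcases Nat.eq_zero_or_pos P.natDegree with h | h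
    · rw [derivative_of_natDegree_zero h] at hr; simp at hr; linarith
    · exact_mod_cast h
  obtain ⟨s, s1, s2⟩ := exists_between ((div_lt_iff₀ r0).mpr hc)
  have s0 : 0 < s := lt_of_le_of_lt (by positivity) s1
  have := bruijn P (s * c / P.natDegree) (fun x hx e => by
    have := mx x hx
    rw [e, norm_div, norm_mul, he, Complex.norm_real, Complex.norm_natCast, Real.norm_eq_abs,
      abs_of_pos s0, div_le_iff₀ n0] at this
    rw [div_lt_iff₀ r0] at s1
    linarith) hz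
  have n1 : (P.natDegree : ℂ) ≠ 0 := by exact_mod_cast n0.ne'
  rw [show P.natDegree * (P.eval z - s * c / P.natDegree) - z * P.derivative.eval z =
    ((1 - s : ℝ) : ℂ) * c by rw [hc']; push_cast; field_simp; ring, ← hr, norm_mul, he,
    Complex.norm_real, Real.norm_eq_abs] at this
  have h3 : |1 - s| < 1 := abs_lt.mpr ⟨by linarith, by linarith⟩
  nlinarith

end Pool.Agent.H1.Sel
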