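import Pool.Agent.H1.SelA

set_option autoImplicit false

namespace Pool.Agent.H1.Sel
open Polynomial Finset MeasureTheory Filter Topology Real
open scoped ComplexConjugate

lemma lagEq (f : ℂ[X]) (hf : ∀ x ∈ f.roots, ‖x‖ = 1) {z : ℂ} (hz : ‖z‖ = 1) (h0 : f.eval z ≠ 0) :
    (z * (f.derivative.eval z / f.eval z)).re = f.natDegree / 2 := by
  rw [(IsAlgClosed.splits f).eval_derivative_div_eval_of_ne_zero h0, ← Multiset.sum_map_mul_left,
    ← IsAlgClosed.card_roots_eq_natDegree, ← Complex.reCLM_apply, map_multiset_sum, Multiset.map_map,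
    Multiset.map_congr rfl (g := fun _ => (1 / 2 : ℝ)) fun x hx => ?_]
  · simp; ring
  have h1 : z - x ≠ 0 := sub_ne_zero.mpr fun e => h0 (e ▸ (isRoot_of_mem_roots hx))
  have h2 := Complex.normSq_pos.mpr h1
  simp only [Function.comp, Complex.reCLM_apply, mul_one_div, Complex.div_re]
  rw [← add_div, div_eq_iff h2.ne']
  have a := congrArg (· ^ 2) (hz.trans (hf x hx).symm)
  simp only [Complex.sq_norm, Complex.normSq_apply, Complex.sub_re, Complex.sub_im] at a ⊢
  linarith

noncomputable def K (f : ℂ[X]) (z : ℂ) : ℂ :=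
  f.natDegree / (f.natDegree - z * (f.derivative.eval z / f.eval z))

lemma K_den (f : ℂ[X]) (hf : ∀ x ∈ f.roots, ‖x‖ = 1) {z : ℂ} (hz : ‖z‖ ≤ 1) :
    (f.natDegree : ℝ) / 2 ≤ ‖f.natDegree - z * (f.derivative.eval z / f.eval z)‖ := by
  refine le_trans ?_ (Complex.re_le_norm _)
  rw [Complex.sub_re, Complex.natCast_re]
  by_cases h0 : f.eval z = 0
  · simp [h0]
  · linarith [lag f (fun x hx => (hf x hx).ge) hz h0]

lemma K_bd (f : ℂ[X]) (hn : 0 < f.natDegree) (hf : ∀ x ∈ f.roots, ‖x‖ = 1) {z : ℂ} (hz : ‖z‖ ≤ 1) :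
    ‖K f z‖ ≤ 2 := by
  have := K_den f hf hz
  have n0 : (0 : ℝ) < f.natDegree := by exact_mod_cast hn
  rw [K, norm_div, Complex.norm_natCast, div_le_iff₀ (by linarith)]
  linarith

lemma K_diff (f : ℂ[X]) (hn : 0 < f.natDegree) (hf : ∀ x ∈ f.roots, ‖x‖ = 1) {z : ℂ} (hz : ‖z‖ ≤ 1)
    (h0 : f.eval z ≠ 0) : DifferentiableAt ℂ (K f) z := by
  have := K_den f hf hz
  have n0 : (0 : ℝ) < f.natDegree := by exact_mod_cast hn
  exact (differentiableAt_const _).div ((differentiableAt_const _).sub (differentiableAt_id.mul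
    (f.derivative.differentiableAt.div f.differentiableAt h0))) (norm_pos_iff.mp (by linarith))

lemma K_meas (f : ℂ[X]) (r : ℝ) : Measurable fun θ => K f (circleMap 0 r θ) := by
  have a := (f.continuous.comp (continuous_circleMap 0 r)).measurable
  have b := (f.derivative.continuous.comp (continuous_circleMap 0 r)).measurable
  exact measurable_const.div (measurable_const.sub ((continuous_circleMap 0 r).measurable.mul
    (b.div a)))

lemma ae_ne (f : ℂ[X]) (hn : 0 < f.natDegree) : ∀ᵐ θ : ℝ, f.eval (circleMap 0 1 θ) ≠ 0 := by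
  have : f ≠ 0 := fun h => by simp [h] at hn
  exact ((finite_setOfPred_isRoot this).countable.preimage_circleMap 0 one_ne_zero).ae_notMem volume

lemma K_int (f : ℂ[X]) (hn : 0 < f.natDegree) (hf : ∀ x ∈ f.roots, ‖x‖ = 1) :
    ∫ θ in (0 : ℝ)..2 * π, K f (circleMap 0 1 θ) = 2 * π := by
  have f0 : f ≠ 0 := fun h => by simp [h] at hn
  have ev : ∀ᶠ r : ℝ in 𝓝[<] 1, r ∈ Set.Ioo (0 : ℝ) 1 := Ioo_mem_nhdsLT one_pos
  have h1 := intervalIntegral.tendsto_integral_filter_of_dominated_convergence (l := 𝓝[<] (1 : ℝ))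
    (μ := volume) (a := 0) (b := 2 * π) (F := fun r θ => K f (circleMap 0 r θ))
    (f := fun θ => K f (circleMap 0 1 θ)) (fun _ => 2)
    (Eventually.of_forall fun r => (K_meas f r).aestronglyMeasurable)
    (ev.mono fun r hr => Eventually.of_forall fun θ _ => K_bd f hn hf (by
      rw [norm_circleMap_zero, abs_of_pos hr.1]; exact hr.2.le)) (by simp)
    ((ae_ne f hn).mono fun θ h _ => by
      refine ((K_diff f hn hf (by simp) h).continuousAt.tendsto.comp ?_)
      exact tendsto_nhdsWithin_of_tendsto_nhds ((by unfold circleMap; fun_prop :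
        Continuous fun r : ℝ => circleMap 0 r θ).tendsto 1))
  refine tendsto_nhds_unique h1 (tendsto_const_nhds.congr' (ev.mono fun r hr => ?_))
  have : circleAverage (K f) 0 r = K f 0 := circleAverage_of_differentiable_on_off_countable
    Set.countable_empty (fun z hz => (K_diff f hn hf ?_ ?_).continuousAt.continuousWithinAt)
    fun z hz => K_diff f hn hf ?_ ?_
  · rw [circleAverage_def, K, zero_mul, sub_zero, div_self (by exact_mod_cast hn.ne'),
      inv_smul_eq_iff₀ (by positivity)] at this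
    simp only [this]; simp
  all_goals
    have hz' : ‖z‖ < 1 := by
      first
        | exact (mem_closedBall_zero_iff.mp hz).trans_lt (by rw [abs_of_pos hr.1]; exact hr.2)
        | exact (mem_ball_zero_iff.mp hz.1).trans (by rw [abs_of_pos hr.1]; exact hr.2)
    first
      | exact hz'.le
      | exact fun h => hz'.ne (hf z ((mem_roots f0).mpr h))

lemma nonneg_case (R : ℂ[X]) (m : ℕ) (m0 : 0 < m) (hR : R.natDegree = 2 * m)
    (hf : ∀ x ∈ R.roots, ‖x‖ = 1) (T : ℝ → ℝ) (Tc : Continuous T) (M : ℝ)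
    (hT : ∀ θ, R.eval (circleMap 0 1 θ) = circleMap 0 1 θ ^ m * T θ)
    (T0 : ∀ θ, 0 ≤ T θ) (TM : ∀ θ, T θ ≤ M) : ∫ θ in (0 : ℝ)..2 * π, T θ ≤ π * M := by
  have hn : 0 < R.natDegree := by omega
  have m1 : (0 : ℝ) < m := by exact_mod_cast m0
  have dg : (R - C (M / 2 : ℂ) * X ^ m).natDegree = 2 * m := by
    rw [natDegree_sub_eq_left_of_natDegree_lt ((natDegree_C_mul_X_pow_le _ _).trans_lt (by omega)), hR]
  have ii : IntervalIntegrable (fun θ => K R (circleMap 0 1 θ)) volume 0 (2 * π) :=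
    (intervalIntegrable_const (c := (2 : ℝ))).mono_fun' (K_meas R 1).aestronglyMeasurable
      (Eventually.of_forall fun θ => K_bd R hn hf (by simp))
  have i2 := Complex.reCLM.intervalIntegral_comp_comm ii
  rw [K_int R hn hf] at i2
  refine (intervalIntegral.integral_mono_ae (g := fun θ => M / 2 * Complex.reCLM (K R (circleMap 0 1 θ)))
    (by positivity) (Tc.intervalIntegrable _ _)
    (IntervalIntegrable.const_mul ⟨Complex.reCLM.integrable_comp ii.1, Complex.reCLM.integrable_comp ii.2⟩ _)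
    ((ae_ne R hn).mono fun θ h => ?_)).trans_eq ?_
  swap
  · rw [intervalIntegral.integral_const_mul, i2]; simp; ring
  have hz : ‖circleMap 0 1 θ‖ = 1 := by simp
  have hy := lagEq R hf hz h
  have b := bern (R - C (M / 2 : ℂ) * X ^ m) (M / 2) (fun x hx => by
    obtain ⟨t, rfl⟩ : x ∈ Set.range (circleMap 0 1) := by rw [range_circleMap]; simpa using hx
    rw [eval_sub, hT, eval_mul, eval_C, eval_pow, eval_X, mul_comm (M / 2 : ℂ), ← mul_sub, norm_mul,
      norm_pow, hx, one_pow, one_mul, show (T t - M / 2 : ℂ) = ((T t - M / 2 : ℝ) : ℂ) by simp,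
      Complex.norm_real, Real.norm_eq_abs, abs_le]
    constructor <;> linarith [T0 t, TM t]) hz.le
  simp only [Complex.reCLM_apply, K]
  have hT' := hT θ
  have T1 : 0 < T θ := lt_of_le_of_ne (T0 θ) fun e => h (by rw [hT, ← e]; simp)
  have := TM θ
  generalize circleMap 0 1 θ = z at *
  obtain ⟨y, e⟩ : ∃ y, y = z * (R.derivative.eval z / R.eval z) := ⟨_, rfl⟩
  rw [← e] at hy ⊢
  have e1 : z * (R - C (M / 2 : ℂ) * X ^ m).derivative.eval z = z ^ m * (y * T θ - m * M / 2) := by
    obtain ⟨j, rfl⟩ : ∃ j, m = j + 1 := ⟨m - 1, by omega⟩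
    have : z * R.derivative.eval z = y * R.eval z := by rw [e]; field_simp
    simp only [derivative_sub, derivative_C_mul, derivative_X_pow, eval_sub, eval_mul, eval_C,
      eval_pow, eval_X, mul_sub, this, hT', Nat.add_sub_cancel]
    ring
  have e2 : (R.natDegree : ℂ) - y = conj y := by
    apply Complex.ext <;> simp [hy]; ring
  rw [e1, dg, eval_sub, hT', eval_mul, eval_C, eval_pow, eval_X] at b
  have b2 := b (by
    rw [show ((2 * m : ℕ) : ℂ) * (z ^ m * T θ - M / 2 * z ^ m) - z ^ m * (y * T θ - m * M / 2) =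
      z ^ m * conj (y * T θ - m * M / 2) by
        rw [map_sub, map_mul, ← e2, hR]; simp [map_ofNat]; ring, norm_mul, norm_mul, Complex.norm_conj])
  rw [norm_mul, norm_pow, hz, one_pow, one_mul] at b2
  have b3 := pow_le_pow_left₀ (norm_nonneg _) (show ‖y * T θ - m * M / 2‖ ≤ m * M / 2 by
    push_cast at b2; linarith) 2
  rw [hR] at hy
  push_cast at hy
  have y0 : 0 < Complex.normSq y := Complex.normSq_pos.mpr fun h => by
    rw [h, Complex.zero_re] at hy; linarith
  rw [e2, Complex.div_re, Complex.normSq_conj, hR]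
  simp only [Complex.natCast_re, Complex.natCast_im, zero_mul, zero_div, add_zero, Complex.conj_re]
  rw [← mul_div_assoc, le_div_iff₀ y0]
  rw [show y * T θ - m * M / 2 = y * T θ - ((m * M / 2 : ℝ) : ℂ) by simp] at b3
  simp only [Complex.sq_norm, Complex.normSq_apply, Complex.sub_re, Complex.sub_im, Complex.mul_re,
    Complex.mul_im, Complex.ofReal_re, Complex.ofReal_im] at b3 ⊢
  have hy' : y.re = m := by linarith
  rw [hy'] at b3 ⊢
  push_cast
  refine le_of_mul_le_mul_left ?_ T1
  nlinarith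

end Pool.Agent.H1.Sel
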