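import Mathlib

set_option autoImplicit false

namespace Pool.Agent.H1.Sel
open Finset MeasureTheory Filter Topology Real

lemma intE (T T' E : ℝ → ℝ) (hT : ∀ x, HasDerivAt T (T' x) x) (Ec : Continuous E)
    (h0 : ∀ x, T 0 ≤ T x) (h1 : T' 0 = 0) (hE : ∀ x, sin x * E x = cos x * T' x) :
    0 ≤ ∫ x in -(π / 2)..π / 2, E x := by
  let G : ℝ → ℝ := fun x => (T x - T 0) * cos x / sin x
  have p0 := pi_div_two_pos
  have sn : ∀ x ∈ Set.Icc (-(π / 2)) (π / 2), x ≠ 0 → sin x ≠ 0 := fun x hx h e =>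
    h ((sin_eq_zero_iff_of_lt_of_lt (by linarith [hx.1]) (by linarith [hx.2])).mp e)
  have dG : ∀ x, sin x ≠ 0 → HasDerivAt G (E x - (T x - T 0) / sin x ^ 2) x := fun x hx => by
    refine ((((hT x).sub_const (T 0)).mul (hasDerivAt_cos x)).div (hasDerivAt_sin x) hx).congr_deriv ?_
    simp only [Pi.mul_apply]
    field_simp
    linear_combination (-sin x) * hE x - (T x - T 0) * (sin_sq_add_cos_sq x)
  have cG : ∀ x ∈ Set.Icc (-(π / 2)) (π / 2), ContinuousAt G x := fun x hx => by
    by_cases h : x = 0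
    · have : G = fun x => dslope T 0 x * cos x / dslope sin 0 x := by
        ext x
        by_cases h : x = 0
        · simp [G, h, (hT 0).deriv, h1]
        · simp only [G, dslope_of_ne _ h, slope_def_field, sin_zero, sub_zero]; field_simp
      rw [this, h]
      exact ((continuousAt_dslope_same.mpr (hT 0).differentiableAt).mul
        continuous_cos.continuousAt).div (continuousAt_dslope_same.mpr differentiableAt_sin) (by simp)
    · exact (dG x (sn x hx h)).continuousAt
  have k : ∀ a b, -(π / 2) ≤ a → a ≤ b → b ≤ π / 2 → (0 ∉ Set.Ioo a b) →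
      G b - G a ≤ ∫ x in a..b, E x := fun a b h1 h2 h3 h4 =>
    intervalIntegral.sub_le_integral_of_hasDeriv_right_of_le h2
      (fun x hx => (cG x ⟨h1.trans hx.1, hx.2.trans h3⟩).continuousWithinAt)
      (fun x hx => (dG x (sn x ⟨h1.trans hx.1.le, hx.2.le.trans h3⟩ fun e =>
        h4 (e ▸ hx))).hasDerivWithinAt) Ec.integrableOn_Icc
      fun x _ => sub_le_self _ (div_nonneg (sub_nonneg.2 (h0 x)) (sq_nonneg _))
  have k1 := k (-(π / 2)) 0 le_rfl (by linarith) p0.le (by simp)
  have k2 := k 0 (π / 2) (by linarith) p0.le le_rfl (by simp)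
  rw [← intervalIntegral.integral_add_adjacent_intervals (b := 0) (Ec.intervalIntegrable _ _)
    (Ec.intervalIntegrable _ _)]
  simp only [G, cos_neg, cos_pi_div_two, mul_zero, zero_div, sub_self, zero_mul] at k1 k2
  linarith

lemma unif (f D : ℝ → ℝ → ℝ) (hd : ∀ x e, HasDerivAt (f · x) (D e x) e)
    (Dc : Continuous fun p : ℝ × ℝ => D p.1 p.2) {K : Set ℝ} (hK : IsCompact K) {η : ℝ} (hη : 0 < η) :
    ∀ᶠ e in 𝓝[>] (0 : ℝ), ∀ x ∈ K, |f e x - f 0 x - e * D 0 x| ≤ η * e := by
  have := hK.eventually_forall_of_forall_eventually (x₀ := (0 : ℝ))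
    (P := fun e x => |D e x - D 0 x| < η) fun y _ =>
      ContinuousAt.eventually_lt (Continuous.continuousAt (Dc.sub
        (Dc.comp (by fun_prop : Continuous fun p : ℝ × ℝ => ((0 : ℝ), p.2)))).abs)
        continuousAt_const (by simpa using hη)
  obtain ⟨δ, δ0, hδ⟩ := Metric.eventually_nhds_iff.mp this
  filter_upwards [Ioo_mem_nhdsGT δ0] with e he x hx
  have := Convex.norm_image_sub_le_of_norm_hasDerivWithin_le (f := fun e => f e x - e * D 0 x)
    (s := Set.Ico 0 δ) (f' := fun e => D e x - D 0 x) (C := η)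
    (fun a _ => ((hd x a).sub (hasDerivAt_mul_const _)).hasDerivWithinAt)
    (fun a ha => (hδ (by simpa [abs_of_nonneg ha.1] using ha.2) x hx).le) (convex_Ico _ _)
    ⟨le_rfl, δ0⟩ ⟨he.1.le, he.2⟩
  rw [sub_zero, Real.norm_of_nonneg he.1.le, Real.norm_eq_abs] at this
  convert this using 2; ring

variable {n : ℕ}

noncomputable def TT (σ : ℝ) (α : Fin n → ℂ) (x : ℝ) : ℝ := σ * ∏ j, (α j * Complex.exp (x * Complex.I)).im

lemma TT_cont (σ : ℝ) : Continuous fun p : (Fin n → ℂ) × ℝ => TT σ p.1 p.2 := by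
  unfold TT; fun_prop

lemma TT_per (hn : Even n) (σ : ℝ) (α : Fin n → ℂ) : Function.Periodic (TT σ α) π := fun x => by
  simp only [TT, Complex.ofReal_add, add_mul, Complex.exp_add, Complex.exp_pi_mul_I, mul_neg, mul_one,
    Complex.neg_im]
  rw [prod_neg, card_univ, Fintype.card_fin, hn.neg_one_pow, one_mul]

lemma dl (a : ℂ) (t : ℝ) : HasDerivAt (fun t : ℝ => (a * Complex.exp (t * Complex.I)).im)
    (a * Complex.exp (t * Complex.I)).re t := by
  have := Complex.imCLM.hasFDerivAt.comp_hasDerivAt t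
    ((((hasDerivAt_id t).ofReal_comp.mul_const Complex.I).cexp).const_mul a)
  refine this.congr_deriv ?_
  simp [← mul_assoc]

lemma pert (σ : ℝ) (β : Fin n → ℂ) (y : ℝ) (hβ : TT σ β y < 0) (hy : ∀ x, TT σ β y ≤ TT σ β x) :
    ∃ (v : Fin n → ℝ) (D : ℝ → ℝ → ℝ) (T' : ℝ → ℝ), (∀ x e, HasDerivAt
      (fun e : ℝ => TT σ (fun j => β j * Complex.exp ((e * v j : ℝ) * Complex.I)) x) (D e x) e) ∧
      Continuous (fun p : ℝ × ℝ => D p.1 p.2) ∧ (∀ x, HasDerivAt (TT σ β) (T' x) x) ∧ T' y = 0 ∧
      ∀ x, sin (x - y) * (D 0 x - n * TT σ β x) = cos (x - y) * T' x := by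
  let l : Fin n → ℝ → ℝ := fun j t => (β j * Complex.exp (t * Complex.I)).im
  let c : Fin n → ℝ → ℝ := fun j t => (β j * Complex.exp (t * Complex.I)).re
  have hl : ∀ j, l j y ≠ 0 := fun j h => hβ.ne (mul_eq_zero_of_right _ (prod_eq_zero (mem_univ j) h))
  have dT : ∀ x, HasDerivAt (TT σ β) (σ * ∑ i, (∏ j ∈ univ.erase i, l j x) • c i x) x := fun x =>
    (HasDerivAt.fun_finsetProd fun i _ => dl (β i) x).const_mul σ
  have d0 := IsLocalMin.hasDerivAt_eq_zero (Eventually.of_forall hy) (dT y)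
  refine ⟨fun j => -(c j y / l j y), fun e x => σ * ∑ i, (∏ j ∈ univ.erase i,
    l j (x + e * -(c j y / l j y))) • (c i (x + e * -(c i y / l i y)) * -(c i y / l i y)), _,
    fun x e => ?_, by simp only [l, c]; fun_prop, dT, d0, fun x => ?_⟩
  · have := (HasDerivAt.fun_finsetProd (u := univ) fun i _ => (dl (β i) _).comp e
      ((hasDerivAt_mul_const (-(c i y / l i y))).const_add x)).const_mul σ
    refine this.congr_of_eventuallyEq (Eventually.of_forall fun e => ?_)
    simp only [TT, Function.comp, mul_assoc, ← Complex.exp_add]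
    congr 1
    refine prod_congr rfl fun j _ => ?_
    congr 3; push_cast; ring
  · have pe : ∀ i t, (∏ j ∈ univ.erase i, l j t) * l i t = ∏ j, l j t := fun i t =>
      prod_erase_mul _ _ (mem_univ i)
    have sw : σ * ∑ i, c i y / l i y = 0 := by
      refine mul_right_cancel₀ (prod_ne_zero_iff.mpr fun j (_ : j ∈ univ) => hl j) ?_
      rw [zero_mul, ← d0, mul_assoc, sum_mul]
      congr 1
      refine sum_congr rfl fun i _ => ?_
      have := hl i
      rw [← pe i y, smul_eq_mul]; field_simp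
    have ex : Complex.exp (x * Complex.I) = Complex.exp (y * Complex.I) *
        (cos (x - y) + sin (x - y) * Complex.I) := by
      rw [Complex.ofReal_cos, Complex.ofReal_sin, ← Complex.exp_mul_I, ← Complex.exp_add]
      congr 1; push_cast; ring
    have key : ∀ i, sin (x - y) * ((∏ j ∈ univ.erase i, l j x) • (c i x * -(c i y / l i y))) -
        sin (x - y) * ∏ j, l j x = cos (x - y) * (∏ j ∈ univ.erase i, l j x) • c i x -
        cos (x - y) * (∏ j, l j x) * (c i y / l i y) := fun i => by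
      have a1 : l i x = l i y * cos (x - y) + c i y * sin (x - y) := by
        simp only [l, c, ex, ← mul_assoc, Complex.mul_im (_ * _)]; simp [-Complex.ofReal_cos,
          -Complex.ofReal_sin]; ring
      have a2 : c i x = c i y * cos (x - y) - l i y * sin (x - y) := by
        simp only [l, c, ex, ← mul_assoc, Complex.mul_re (_ * _)]; simp [-Complex.ofReal_cos,
          -Complex.ofReal_sin]
      have := hl i
      rw [← pe i x, smul_eq_mul, smul_eq_mul, a2]
      generalize (∏ j ∈ univ.erase i, l j x) = Q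
      rw [a1]; field_simp; ring
    have := sum_congr rfl fun i (_ : i ∈ univ) => key i
    simp only [sum_sub_distrib, ← mul_sum, sum_const, card_univ, Fintype.card_fin,
      nsmul_eq_mul] at this
    simp only [zero_mul, add_zero, TT]
    linear_combination σ * this - cos (x - y) * (∏ j, l j x) * sw

theorem var (hn : Even n) (n0 : 0 < n) (σ : ℝ)
    (H : ∀ α : Fin n → ℂ, (∀ j, ‖α j‖ = 1) → (∀ x, 0 ≤ TT σ α x) → ∀ M, (∀ x, TT σ α x ≤ M) →
      ∫ x in (0 : ℝ)..π, TT σ α x ≤ π / 2 * M) (α : Fin n → ℂ) (hα : ∀ j, ‖α j‖ = 1) (M : ℝ)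
    (hM : ∀ x, TT σ α x ≤ M) : ∫ x in (0 : ℝ)..π, TT σ α x ≤ π / 2 * M := by
  have p0 := pi_pos
  let Mx : (Fin n → ℂ) → ℝ := fun α => sSup (TT σ α '' Set.Icc 0 π)
  have Tc : ∀ α : Fin n → ℂ, Continuous (TT σ α) := fun α => by unfold TT; fun_prop
  have M1 : ∀ α x, TT σ α x ≤ Mx α := fun α x => by
    obtain ⟨y, hy, e⟩ := (TT_per hn σ α).exists_mem_Ico₀ p0 x
    exact e ▸ le_csSup (isCompact_Icc.image (Tc α)).bddAbove ⟨y, Set.Ico_subset_Icc_self hy, rfl⟩
  have M2 : ∀ α B, (∀ x ∈ Set.Icc 0 π, TT σ α x ≤ B) → Mx α ≤ B := fun α B h =>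
    csSup_le ((Set.nonempty_Icc.mpr p0.le).image _) (by rintro _ ⟨x, hx, rfl⟩; exact h x hx)
  have Φc : Continuous fun α : Fin n → ℂ => (∫ x in (0 : ℝ)..π, TT σ α x) - π / 2 * Mx α :=
    (intervalIntegral.continuous_parametric_intervalIntegral_of_continuous' (TT_cont σ) _ _).sub
      (continuous_const.mul (isCompact_Icc.continuous_sSup (TT_cont σ)))
  have mem : ∀ α : Fin n → ℂ, α ∈ Set.pi Set.univ (fun _ => Metric.sphere (0 : ℂ) 1) ↔
      ∀ j, ‖α j‖ = 1 := fun α => by simp
  obtain ⟨β, hβ, hm⟩ := (isCompact_univ_pi fun _ : Fin n => isCompact_sphere (0 : ℂ) 1).exists_isMaxOn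
    ⟨α, (mem α).mpr hα⟩ Φc.continuousOn
  rw [mem] at hβ
  have hm' : ∀ α : Fin n → ℂ, (∀ j, ‖α j‖ = 1) → (∫ x in (0 : ℝ)..π, TT σ α x) - π / 2 * Mx α ≤
      (∫ x in (0 : ℝ)..π, TT σ β x) - π / 2 * Mx β := fun α h => hm ((mem α).mpr h)
  suffices (∫ x in (0 : ℝ)..π, TT σ β x) - π / 2 * Mx β ≤ 0 by
    have := hm' α hα
    have := mul_le_mul_of_nonneg_left (M2 α M fun x _ => hM x) (by positivity : 0 ≤ π / 2)
    linarith
  by_contra hc
  push Not at hc
  obtain ⟨y, y1, hy⟩ := isCompact_Icc.exists_isMinOn (Set.nonempty_Icc.mpr p0.le) (Tc β).continuousOn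
  have hy' : ∀ x, TT σ β y ≤ TT σ β x := fun x => by
    obtain ⟨z, hz, e⟩ := (TT_per hn σ β).exists_mem_Ico₀ p0 x
    exact e ▸ hy (Set.Ico_subset_Icc_self hz)
  have y0 : TT σ β y < 0 := not_le.mp fun h => by
    linarith [H β hβ (fun x => h.trans (hy' x)) _ (M1 β)]
  have Mp : 0 < Mx β := by
    have := intervalIntegral.integral_mono_on (μ := volume) p0.le ((Tc β).intervalIntegrable _ _)
      (intervalIntegrable_const (c := Mx β)) fun x _ => M1 β x
    simp only [intervalIntegral.integral_const, sub_zero, smul_eq_mul] at this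
    nlinarith
  obtain ⟨v, D, T', h1, h2, h3, h4, h5⟩ := pert σ β y y0 hy'
  have Dc : Continuous (D 0) := h2.comp (by fun_prop : Continuous fun x : ℝ => ((0 : ℝ), x))
  have sh : ∀ α : Fin n → ℂ, ∫ x in (0 : ℝ)..π, TT σ α x = ∫ x in y - π / 2..y + π / 2, TT σ α x :=
    fun α => by
      have := (TT_per hn σ α).intervalIntegral_add_eq 0 (y - π / 2)
      rwa [zero_add, show y - π / 2 + π = y + π / 2 by ring] at this
  have iE := intE (fun x => TT σ β (y + x)) (fun x => T' (y + x))
    (fun x => D 0 (y + x) - n * TT σ β (y + x)) (fun x => (h3 _).comp_const_add y x)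
    (by have := Tc β; fun_prop) (fun x => by simpa using hy' _) (by simpa using h4)
    fun x => by simpa using h5 (y + x)
  rw [intervalIntegral.integral_comp_add_left (fun x => D 0 x - n * TT σ β x),
    intervalIntegral.integral_sub (Dc.intervalIntegrable _ _) (((Tc β).intervalIntegrable _ _).const_mul _),
    intervalIntegral.integral_const_mul, ← sub_eq_add_neg, ← sh] at iE
  obtain ⟨η, hη⟩ : ∃ η, η = ((∫ x in (0 : ℝ)..π, TT σ β x) - π / 2 * Mx β) / (4 * π) := ⟨_, rfl⟩
  have η0 : 0 < η := by rw [hη]; positivity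
  have ev1 := unif _ D h1 h2 (isCompact_Icc (a := -π) (b := 2 * π)) η0
  have ev2 := ((isCompact_Icc (a := 0) (b := π)).inter_right (isClosed_le (continuous_const
    (y := n * Mx β + η)) Dc)).eventually_forall_of_forall_eventually (x₀ := (0 : ℝ))
    (P := fun e x => TT σ β x + e * D 0 x < Mx β + e * (n * Mx β + η)) fun x hx =>
      ContinuousAt.eventually_lt (by have := Tc β; fun_prop) (by fun_prop) (by
        simp only [zero_mul, add_zero]
        refine lt_of_le_of_ne (M1 β x) fun e => ?_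
        have a := IsLocalMax.hasDerivAt_eq_zero (Eventually.of_forall fun z => e ▸ M1 β z) (h3 x)
        have b := h5 x
        rw [a, mul_zero, mul_eq_zero] at b
        rcases b with b | b
        · obtain ⟨k, hk⟩ := sin_eq_zero_iff.mp b
          have := (TT_per hn σ β).int_mul k y
          rw [hk, add_sub_cancel] at this
          linarith
        · have : n * Mx β + η ≤ D 0 x := hx.2
          rw [e] at b
          linarith)
  obtain ⟨e, ⟨e1, e2⟩, e0⟩ := ((ev1.and (nhdsWithin_le_nhds ev2)).and self_mem_nhdsWithin).exists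
  have e0 : 0 < e := e0
  simp only [zero_mul, Complex.ofReal_zero, Complex.exp_zero, mul_one] at e1
  have a1 := hm' (fun j => β j * Complex.exp ((e * v j : ℝ) * Complex.I)) fun j => by
    rw [norm_mul, hβ, Complex.norm_exp_ofReal_mul_I, one_mul]
  have a2 := M2 (fun j => β j * Complex.exp ((e * v j : ℝ) * Complex.I))
    (Mx β + e * (n * Mx β + η) + η * e) fun x hx => by
      have := (abs_le.mp (e1 x ⟨by linarith [hx.1], by linarith [hx.2]⟩)).2
      by_cases h : n * Mx β + η ≤ D 0 x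
      · linarith [e2 x ⟨hx, h⟩]
      · linarith [M1 β x, mul_le_mul_of_nonneg_left (not_le.mp h).le e0.le]
  have a3 := intervalIntegral.integral_mono_on (μ := volume) (a := y - π / 2) (b := y + π / 2)
    (f := fun x => TT σ β x + e * D 0 x - η * e) (by linarith)
    (Continuous.intervalIntegrable (by have := Tc β; fun_prop) _ _) ((Tc _).intervalIntegrable _ _)
    fun x hx => show _ ≤ TT σ (fun j => β j * Complex.exp ((e * v j : ℝ) * Complex.I)) x by
      linarith [(abs_le.mp (e1 x ⟨by linarith [hx.1, y1.1], by linarith [hx.2, y1.2]⟩)).1]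
  rw [intervalIntegral.integral_sub (Continuous.intervalIntegrable (by have := Tc β; fun_prop) _ _)
    (by simp), intervalIntegral.integral_add ((Tc β).intervalIntegrable _ _)
    ((Dc.intervalIntegrable _ _).const_mul _), intervalIntegral.integral_const_mul, ← sh, ← sh,
    intervalIntegral.integral_const, smul_eq_mul] at a3
  have a4 := mul_le_mul_of_nonneg_left a2 (by positivity : 0 ≤ π / 2)
  have a5 := mul_nonneg e0.le iE
  have n1 : (1 : ℝ) ≤ n := by exact_mod_cast n0
  rw [eq_div_iff (by positivity)] at hη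
  have a6 := mul_nonneg (mul_pos e0 hc).le (sub_nonneg.2 n1)
  have a7 := mul_pos e0 hc
  have a8 := congrArg (e * ·) hη
  linarith

end Pool.Agent.H1.Sel
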