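import Pool.Agent.H1.SelB
import Pool.Agent.H1.SelC

set_option autoImplicit false

namespace Pool.Agent.H1.Sel
open Polynomial Finset MeasureTheory Filter Topology Real
open scoped ComplexConjugate

lemma coeff_int (p : ℂ[X]) (m : ℕ) : ∫ θ in (0 : ℝ)..2 * π,
    p.eval (circleMap 0 1 θ) / circleMap 0 1 θ ^ m = 2 * π * p.coeff m := by
  have c : ∀ p : ℂ[X], IntervalIntegrable (fun θ => p.eval (circleMap 0 1 θ) / circleMap 0 1 θ ^ m)
      volume 0 (2 * π) := fun p => Continuous.intervalIntegrable ((p.continuous.comp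
    (continuous_circleMap 0 1)).div (by fun_prop) fun θ => pow_ne_zero _ (by simp)) _ _
  induction p using Polynomial.induction_on' with
  | add p q hp hq =>
    simp only [eval_add, add_div, coeff_add, mul_add]
    rw [intervalIntegral.integral_add (c p) (c q), hp, hq]
  | monomial k a =>
    have e : ∀ θ : ℝ, (monomial k a).eval (circleMap 0 1 θ) / circleMap 0 1 θ ^ m =
        a * Complex.exp (((k - m : ℤ) * Complex.I) * θ) := fun θ => by
      rw [eval_monomial, circleMap_zero, Complex.ofReal_one, one_mul, mul_div_assoc,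
        ← Complex.exp_nat_mul, ← Complex.exp_nat_mul, ← Complex.exp_sub]
      congr 2; push_cast; ring
    simp only [e, intervalIntegral.integral_const_mul, coeff_monomial]
    split_ifs with h
    · simp [h, mul_comm]
    · rw [integral_exp_mul_complex (mul_ne_zero (by exact_mod_cast (by omega : (k - m : ℤ) ≠ 0))
        Complex.I_ne_zero), show ((k - m : ℤ) * Complex.I : ℂ) * (2 * π : ℝ) =
          (k - m : ℤ) * (2 * π * Complex.I) by push_cast; ring, Complex.exp_int_mul_two_pi_mul_I]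
      simp

noncomputable def RR {n : ℕ} (σ : ℝ) (α : Fin n → ℂ) : ℂ[X] :=
  C (σ * ∏ j, α j / (2 * Complex.I)) * ∏ j, (X - C ((α j)⁻¹ ^ 2))

lemma RR_eval {m : ℕ} (σ : ℝ) (α : Fin (2 * m) → ℂ) (hα : ∀ j, ‖α j‖ = 1) (θ : ℝ) :
    (RR σ α).eval (circleMap 0 1 θ) = circleMap 0 1 θ ^ m * TT σ α (θ / 2) := by
  obtain ⟨u, hu⟩ : ∃ u, u = Complex.exp ((θ / 2 : ℝ) * Complex.I) := ⟨_, rfl⟩
  have u1 : ‖u‖ = 1 := hu ▸ Complex.norm_exp_ofReal_mul_I _
  have e : circleMap 0 1 θ = u ^ 2 := by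
    rw [circleMap_zero, hu, ← Complex.exp_nat_mul]; push_cast; ring_nf
  have k : ∀ j, α j / (2 * Complex.I) * (u ^ 2 - (α j)⁻¹ ^ 2) = u * ((α j * u).im : ℂ) := fun j => by
    have a0 : α j ≠ 0 := norm_ne_zero_iff.mp (by simp [hα])
    have u0 : u ≠ 0 := norm_ne_zero_iff.mp (by simp [u1])
    rw [Complex.im_eq_sub_conj, ← Complex.inv_eq_conj (by simp [hα, u1])]
    field_simp
  simp only [RR, TT, ← hu, e, eval_mul, eval_C, eval_prod, eval_sub, eval_X, mul_assoc,
    ← prod_mul_distrib, k]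
  rw [prod_mul_distrib, prod_const, card_univ, Fintype.card_fin, ← pow_mul]
  push_cast; ring

lemma RR_var {m : ℕ} (m0 : 0 < m) (σ : ℝ) (σ0 : σ ≠ 0) (α : Fin (2 * m) → ℂ) (hα : ∀ j, ‖α j‖ = 1)
    (M : ℝ) (hM : ∀ x, TT σ α x ≤ M) : ∫ x in (0 : ℝ)..π, TT σ α x ≤ π / 2 * M := by
  refine var (even_two_mul m) (by omega) σ (fun α hα h0 M hM => ?_) α hα M hM
  have c0 : (σ * ∏ j, α j / (2 * Complex.I) : ℂ) ≠ 0 := mul_ne_zero (by exact_mod_cast σ0)
    (prod_ne_zero_iff.mpr fun j _ => div_ne_zero (norm_ne_zero_iff.mp (by simp [hα])) (by simp))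
  have := nonneg_case (RR σ α) m m0 (by
    rw [RR, natDegree_C_mul c0, natDegree_finsetProd_X_sub_C_eq_card]; simp) (fun x hx => by
    have := isRoot_of_mem_roots hx
    simp only [RR, IsRoot, eval_mul, eval_C, eval_prod, eval_sub, eval_X, mul_eq_zero_iff_left c0,
      prod_eq_zero_iff, sub_eq_zero] at this
    obtain ⟨j, -, rfl⟩ := this
    simp [hα]) (fun θ => TT σ α (θ / 2)) (by unfold TT; fun_prop) M (RR_eval σ α hα)
    (fun _ => h0 _) fun _ => hM _
  rw [intervalIntegral.integral_comp_div (TT σ α) two_ne_zero, zero_div,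
    mul_div_cancel_left₀ _ two_ne_zero, smul_eq_mul] at this
  linarith

theorem kris (R : ℂ[X]) (m : ℕ) (m0 : 0 < m) (hR : R.natDegree = 2 * m)
    (hf : ∀ x ∈ R.roots, ‖x‖ = 1) (B : ℝ) (hB : ∀ x, ‖x‖ = 1 → ‖R.eval x‖ ≤ B) :
    ‖R.coeff m‖ ≤ B / 2 := by
  obtain ⟨ζ, hζ⟩ : ∃ ζ : Fin (2 * m) → ℂ, univ.val.map ζ = R.roots := by
    rw [← hR, ← IsAlgClosed.card_roots_eq_natDegree]
    induction R.roots using Quotient.inductionOn with
    | h l => exact ⟨l.get, (Fin.univ_val_map l.get).trans (congrArg _ (List.ofFn_get l))⟩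
  choose β hβ using fun j => IsAlgClosed.exists_pow_nat_eq (ζ j) two_pos
  have b1 : ∀ j, ‖(β j)⁻¹‖ = 1 := fun j => by
    have := hf (ζ j) (hζ ▸ Multiset.mem_map_of_mem _ (mem_univ j))
    rw [← hβ, norm_pow, pow_eq_one_iff_of_nonneg (norm_nonneg _) two_ne_zero] at this
    simp [this]
  have c0 : ((1 : ℝ) * ∏ j, (β j)⁻¹ / (2 * Complex.I) : ℂ) ≠ 0 := mul_ne_zero (by simp)
    (prod_ne_zero_iff.mpr fun j _ => div_ne_zero (norm_ne_zero_iff.mp (by rw [b1]; simp)) (by simp))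
  obtain ⟨l, l0, e⟩ : ∃ l : ℂ, l ≠ 0 ∧ R = C l * RR 1 fun j => (β j)⁻¹ := by
    refine ⟨R.leadingCoeff / _, div_ne_zero (leadingCoeff_ne_zero.mpr fun h => ?_) c0, ?_⟩
    · simp [h] at hR; omega
    · rw [RR, ← mul_assoc, ← C_mul, div_mul_cancel₀ _ c0]
      conv_lhs => rw [(IsAlgClosed.splits R).eq_prod_roots, ← hζ, Multiset.map_map]
      simp only [inv_inv, hβ]; rfl
  have l1 := norm_pos_iff.mpr l0
  have bd : ∀ x, |TT 1 (fun j => (β j)⁻¹) x| ≤ B / ‖l‖ := fun x => by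
    have := hB (circleMap 0 1 (2 * x)) (by simp)
    rw [e, eval_mul, eval_C, RR_eval _ _ b1, mul_div_cancel_left₀ _ two_ne_zero] at this
    rw [le_div_iff₀' l1]
    simpa using this
  have a1 := RR_var m0 1 one_ne_zero _ b1 _ fun x => (abs_le.mp (bd x)).2
  have ng : ∀ x, TT (-1) (fun j => (β j)⁻¹) x = -TT 1 (fun j => (β j)⁻¹) x := fun x => by simp [TT]
  have a2 := RR_var m0 (-1) (by norm_num) _ b1 (B / ‖l‖) fun x => by
    linarith [ng x, (abs_le.mp (bd x)).1]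
  simp only [ng, intervalIntegral.integral_neg] at a2
  have a3 := coeff_int (RR 1 fun j => (β j)⁻¹) m
  rw [intervalIntegral.integral_congr (g := fun θ => (TT 1 (fun j => (β j)⁻¹) (θ / 2) : ℂ))
    fun θ _ => by simp only [RR_eval _ _ b1]; exact mul_div_cancel_left₀ _ (pow_ne_zero _ (by simp)),
    intervalIntegral.integral_ofReal, intervalIntegral.integral_comp_div (TT 1 _) two_ne_zero,
    zero_div, mul_div_cancel_left₀ _ two_ne_zero, smul_eq_mul] at a3
  have a4 := congrArg norm a3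
  rw [Complex.norm_real, Real.norm_eq_abs, abs_mul, abs_two, norm_mul, norm_mul, Complex.norm_real,
    Complex.norm_ofNat, Real.norm_of_nonneg pi_pos.le] at a4
  have a5 : |∫ x in (0 : ℝ)..π, TT 1 (fun j => (β j)⁻¹) x| ≤ π / 2 * (B / ‖l‖) :=
    abs_le.mpr ⟨by linarith, a1⟩
  have a6 : ‖(RR 1 fun j => (β j)⁻¹).coeff m‖ ≤ B / 2 / ‖l‖ :=
    le_of_mul_le_mul_left (by rw [div_right_comm]; linarith) pi_pos
  rw [e, coeff_C_mul, norm_mul]
  exact (le_div_iff₀' l1).mp a6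

/-- every coefficient of a polynomial with all zeros on the circle -/
theorem kris' (f : ℂ[X]) (hf : ∀ x ∈ f.roots, ‖x‖ = 1) {k : ℕ} (k0 : 0 < k) (kn : f.natDegree ≤ 2 * k)
    (k1 : k < f.natDegree) (h : ‖f.coeff k‖ = ‖f.coeff (f.natDegree - k)‖) (B : ℝ)
    (hB : ∀ x, ‖x‖ = 1 → ‖f.eval x‖ ≤ B) : ‖f.coeff k‖ ≤ B / 2 := by
  rcases kn.eq_or_lt with kn | kn
  · exact kris f k k0 kn hf B hB
  obtain ⟨j, hj⟩ : ∃ j, 2 * k = f.natDegree + (j + 1) := ⟨2 * k - f.natDegree - 1, by omega⟩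
  have f0 : f ≠ 0 := fun h => by simp [h] at k1
  by_cases a0 : f.coeff k = 0
  · rw [a0, norm_zero]; linarith [(norm_nonneg _).trans (hB 1 norm_one)]
  have l1 : ‖f.coeff (f.natDegree - k) / f.coeff k‖ = 1 := by
    rw [norm_div, ← h, div_self (norm_ne_zero_iff.mpr a0)]
  obtain ⟨l, hl⟩ : ∃ l, l = f.coeff (f.natDegree - k) / f.coeff k := ⟨_, rfl⟩
  rw [← hl] at l1
  have g0 : (X ^ (j + 1) + C l : ℂ[X]) ≠ 0 := (monic_X_pow_add_C l j.succ_ne_zero).ne_zero
  have := kris (f * (X ^ (j + 1) + C l)) k k0 (by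
    rw [natDegree_mul f0 g0, natDegree_X_pow_add_C, hj]) (fun x hx => by
    rw [roots_mul (mul_ne_zero f0 g0), Multiset.mem_add] at hx
    refine hx.elim (hf x) fun hx => ?_
    have := isRoot_of_mem_roots hx
    simp only [IsRoot, eval_add, eval_pow, eval_X, eval_C, add_eq_zero_iff_eq_neg] at this
    have := congrArg norm this
    rwa [norm_neg, l1, norm_pow, pow_eq_one_iff_of_nonneg (norm_nonneg _) j.succ_ne_zero] at this)
    (B * 2) fun x hx => by
      rw [eval_mul, norm_mul]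
      refine mul_le_mul (hB x hx) ?_ (norm_nonneg _) ((norm_nonneg _).trans (hB x hx))
      simp only [eval_add, eval_pow, eval_X, eval_C]
      refine (norm_add_le _ _).trans_eq ?_
      rw [norm_pow, hx, l1]; norm_num
  rw [mul_add, coeff_add, coeff_mul_C, coeff_mul_X_pow', if_pos (by omega),
    show k - (j + 1) = f.natDegree - k by omega, hl, mul_div_cancel₀ _ a0, ← two_mul, norm_mul,
    Complex.norm_ofNat, ← h] at this
  linarith

end Pool.Agent.H1.Sel
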