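import Pool.Agent.H1.SelD

set_option autoImplicit false

namespace Pool.Agent.H1.Sel
open Polynomial Finset
open scoped ComplexConjugate

lemma rts (P : ℂ[X]) (w : ℂ) (hw : w ∉ (fun z => P.eval z) '' Metric.ball 0 1) :
    ∀ x ∈ (P - C w).roots, 1 ≤ ‖x‖ := fun x hx => not_lt.mp fun h => hw ⟨x, mem_ball_zero_iff.mpr h, by
  simpa [sub_eq_zero] using isRoot_of_mem_roots hx⟩

lemma all_one (f : ℂ[X]) (f0 : f ≠ 0) (hf : ∀ x ∈ f.roots, 1 ≤ ‖x‖)
    (h : ‖f.coeff 0‖ = ‖f.leadingCoeff‖) : ∀ x ∈ f.roots, ‖x‖ = 1 := fun x hx => by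
  obtain ⟨s, hs⟩ := Multiset.exists_cons_of_mem hx
  rw [coeff_zero_eq_eval_zero, (IsAlgClosed.splits f).eval_eq_prod_roots, norm_mul, hs,
    Multiset.map_cons, Multiset.prod_cons, norm_mul, mul_eq_left₀ (by simpa using f0), zero_sub,
    norm_neg] at h
  have : 1 ≤ ‖(s.map (0 - ·)).prod‖ := by
    refine Multiset.prod_induction (fun z : ℂ => 1 ≤ ‖z‖) _ (fun a b ha hb => ?_) (by simp) fun a ha => ?_
    · rw [norm_mul]; nlinarith
    · obtain ⟨y, hy, rfl⟩ := Multiset.mem_map.mp ha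
      simpa using hf y (by simp [hs, hy])
  have := hf x hx
  nlinarith

theorem disc1 (P : ℂ[X]) (h : ∀ i ≤ P.natDegree, ‖P.coeff i‖ = ‖P.coeff (P.natDegree - i)‖) {k : ℕ}
    (k0 : 0 < k) (kn : P.natDegree ≤ 2 * k) (k1 : k < P.natDegree) :
    ∃ c : ℂ, Metric.ball c ‖P.coeff k‖ ⊆ (fun z => P.eval z) '' Metric.ball 0 1 := by
  by_cases a0 : P.coeff k = 0
  · exact ⟨0, by simp [a0]⟩
  have cf : ∀ (w : ℂ) i, 0 < i → (P - C w).coeff i = P.coeff i := fun w i hi => by
    simp [coeff_C, hi.ne']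
  have hf : ∀ (w : ℂ) i, 0 < i → i < (P - C w).natDegree →
      ‖(P - C w).coeff i‖ = ‖(P - C w).coeff ((P - C w).natDegree - i)‖ := fun w i h1 h2 => by
    rw [natDegree_sub_C] at h2 ⊢
    rw [cf w i h1, cf w _ (by omega), h i h2.le]
  obtain ⟨b, hb⟩ : ∃ b, b = P.coeff (P.natDegree - k) / conj (P.coeff k) *
    conj (P.coeff P.natDegree) := ⟨_, rfl⟩
  have b1 : ‖b‖ = ‖P.coeff P.natDegree‖ := by
    rw [hb, norm_mul, norm_div, Complex.norm_conj, Complex.norm_conj, ← h k k1.le,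
      div_self (norm_ne_zero_iff.mpr a0), one_mul]
  by_cases h0 : P.coeff 0 - b ∈ (fun z => P.eval z) '' Metric.ball 0 1
  · refine ⟨P.coeff 0 + b, fun w hw => by_contra fun hc => ?_⟩
    have := schur _ (rts P w hc) k0 (by rwa [natDegree_sub_C]) (hf w)
    have c0 : conj (P.coeff k) ≠ 0 := by simpa using a0
    rw [natDegree_sub_C, cf w k k0, cf w _ (by omega : 0 < P.natDegree), cf w _ (by omega :
      0 < P.natDegree - k), coeff_sub, coeff_C_zero, ← b1, show (P.coeff 0 - w) * conj (P.coeff k) -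
      conj (P.coeff P.natDegree) * P.coeff (P.natDegree - k) =
      conj (P.coeff k) * (P.coeff 0 - w - b) by rw [hb]; field_simp, norm_mul,
      Complex.norm_conj] at this
    have e : ‖P.coeff 0 - w‖ ^ 2 - ‖b‖ ^ 2 = ((P.coeff 0 - w + b) * conj (P.coeff 0 - w - b)).re := by
      simp only [Complex.sq_norm, Complex.normSq_apply, Complex.sub_re, Complex.sub_im,
        Complex.mul_re, Complex.conj_re, Complex.conj_im, Complex.add_re, Complex.add_im]
      ring
    have e2 := Complex.re_le_norm ((P.coeff 0 - w + b) * conj (P.coeff 0 - w - b))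
    rw [norm_mul, Complex.norm_conj] at e2
    have e3 : 0 < ‖P.coeff 0 - w - b‖ := norm_pos_iff.mpr fun e => hc (by
      rwa [show w = P.coeff 0 - b by linear_combination -e])
    rw [mem_ball_iff_norm', show P.coeff 0 + b - w = P.coeff 0 - w + b by ring] at hw
    nlinarith
  obtain ⟨w0, e0⟩ : ∃ w0, w0 = P.coeff 0 - b := ⟨_, rfl⟩
  rw [← e0] at h0
  have r1 := all_one (P - C w0) (fun e => by
    have := natDegree_sub_C (p := P) (a := w0); rw [e, natDegree_zero] at this; omega) (rts P w0 h0) (by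
    rw [leadingCoeff, natDegree_sub_C, cf _ _ (by omega : 0 < P.natDegree), coeff_sub, coeff_C_zero,
      e0, sub_sub_cancel, b1])
  obtain ⟨z, hz, hm⟩ := (isCompact_sphere (0 : ℂ) 1).exists_isMaxOn ⟨1, by simp⟩
    (P - C w0).continuous.norm.continuousOn
  rw [mem_sphere_zero_iff_norm] at hz
  have a1 := kris' _ r1 k0 (by rwa [natDegree_sub_C]) (by rwa [natDegree_sub_C])
    (hf _ k k0 (by rwa [natDegree_sub_C])) _ fun x hx => hm (mem_sphere_zero_iff_norm.mpr hx)
  rw [cf _ _ k0] at a1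
  have z0 : (P - C w0).eval z ≠ 0 := fun e => a0 (norm_le_zero_iff.mp (by simpa [e] using a1))
  have a2 := (lagEq _ r1 hz z0).ge.trans (Complex.re_le_norm _)
  rw [← mul_div_assoc, norm_div, le_div_iff₀ (norm_pos_iff.mpr z0), natDegree_sub_C, derivative_sub,
    derivative_C, sub_zero] at a2
  have n0 : (0 : ℝ) < P.natDegree := by exact_mod_cast k0.trans k1
  have n1 : (P.natDegree : ℂ) ≠ 0 := by exact_mod_cast n0.ne'
  refine ⟨P.eval z - z * P.derivative.eval z / P.natDegree, fun w hw => by_contra fun hc => ?_⟩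
  have a3 := bruijn P w (fun x hx e => hc ⟨x, mem_ball_zero_iff.mpr hx, e⟩) hz.le
  rw [show P.natDegree * (P.eval z - w) - z * P.derivative.eval z = P.natDegree *
    (P.eval z - z * P.derivative.eval z / P.natDegree - w) by field_simp; ring, norm_mul _ (_ - _),
    Complex.norm_natCast] at a3
  rw [mem_ball_iff_norm'] at hw
  nlinarith

theorem disc (P : ℂ[X]) (n0 : 0 < P.natDegree)
    (h : ∀ i ≤ P.natDegree, ‖P.coeff i‖ = ‖P.coeff (P.natDegree - i)‖) :
    ∃ c : ℂ, ∀ k, Metric.ball c ‖P.coeff k‖ ⊆ (fun z => P.eval z) '' Metric.ball 0 1 := by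
  obtain ⟨k, hk, hm⟩ := (range (P.natDegree + 1)).exists_max_image (fun k => ‖P.coeff k‖) (by simp)
  rw [mem_range] at hk
  suffices ∃ c : ℂ, Metric.ball c ‖P.coeff k‖ ⊆ (fun z => P.eval z) '' Metric.ball 0 1 by
    obtain ⟨c, hc⟩ := this
    refine ⟨c, fun j => (Metric.ball_subset_ball ?_).trans hc⟩
    by_cases hj : j < P.natDegree + 1
    · exact hm j (mem_range.mpr hj)
    · rw [coeff_eq_zero_of_natDegree_lt (by omega), norm_zero]; exact norm_nonneg _
  by_cases k0 : 0 < k ∧ k < P.natDegree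
  · rcases le_total P.natDegree (2 * k) with h1 | h1
    · exact disc1 P h k0.1 h1 k0.2
    · rw [h k k0.2.le]
      exact disc1 P h (by omega) (by omega) (by omega)
  have e : ‖P.coeff k‖ = ‖P.coeff P.natDegree‖ := by
    rcases (by omega : k = 0 ∨ k = P.natDegree) with rfl | rfl
    · exact h 0 n0.le
    · rfl
  refine ⟨P.coeff 0, fun w hw => by_contra fun hc => ?_⟩
  have := N_star 0 _ (rts P w hc) 1
  simp only [N, zero_add, range_one, sum_singleton, mul_one, star_coeff _ (Nat.zero_le _),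
    natDegree_sub_C, Nat.sub_zero, coeff_sub, coeff_C, n0.ne', if_false, if_true, sub_zero,
    Complex.norm_conj] at this
  rw [mem_ball_iff_norm', e] at hw
  nlinarith [norm_nonneg (P.coeff 0 - w)]

lemma rev_prod (σ : ℂ →+* ℂ) (s : Multiset ℂ) (hs : ∀ x ∈ s, x ≠ 0) : ∃ κ : ℂ,
    ((s.map (X - C ·)).prod.map σ).reverse = C κ * ((s.map fun x => (σ x)⁻¹).map (X - C ·)).prod := by
  induction s using Multiset.induction_on with
  | empty => exact ⟨1, by simp [show (1 : ℂ[X]).reverse = 1 from reverse_C 1]⟩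
  | cons a s ih =>
    obtain ⟨κ, h⟩ := ih fun x hx => hs x (by simp [hx])
    have a0 : σ a ≠ 0 := (map_ne_zero σ).mpr (hs a (by simp))
    refine ⟨-σ a * κ, ?_⟩
    have : (C (σ a) * C (σ a)⁻¹ : ℂ[X]) = 1 := by rw [← C_mul, mul_inv_cancel₀ a0, C_1]
    simp only [Multiset.map_cons, Multiset.prod_cons, Polynomial.map_mul, reverse_mul_of_domain,
      Polynomial.map_sub, map_X, map_C, rev_lin, h, C_mul, C_neg]
    linear_combination (-C κ * ((s.map fun x => (σ x)⁻¹).map (X - C ·)).prod) * this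

lemma symm (σ : ℂ →+* ℂ) (h1 : ∀ x, σ (σ x) = x) (h2 : ∀ x, ‖σ x‖ = ‖x‖) (P : ℂ[X]) (P0 : P ≠ 0)
    (h : ∀ ζ, P.IsRoot ζ → ζ ≠ 0 ∧ P.rootMultiplicity (σ ζ)⁻¹ = P.rootMultiplicity ζ) :
    ∀ i ≤ P.natDegree, ‖P.coeff i‖ = ‖P.coeff (P.natDegree - i)‖ := by
  classical
  have inv : Function.Involutive fun x => (σ x)⁻¹ := fun x => by simp [h1]
  have e : (P.roots.map fun x => (σ x)⁻¹) = P.roots := by
    ext ζ
    conv_lhs => rw [← inv ζ]
    rw [Multiset.count_map_eq_count' _ _ inv.injective, count_roots, count_roots]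
    by_cases a : P.IsRoot ζ
    · exact (h ζ a).2
    by_cases b : P.IsRoot (σ ζ)⁻¹
    · exact (h _ b).2.symm.trans (congrArg (rootMultiplicity · P) (inv ζ))
    · rw [rootMultiplicity_eq_zero a, rootMultiplicity_eq_zero b]
  obtain ⟨κ, hκ⟩ := rev_prod σ P.roots fun x hx => (h x (isRoot_of_mem_roots hx)).1
  have l0 := leadingCoeff_ne_zero.mpr P0
  have e2 : (P.map σ).reverse = C (σ P.leadingCoeff * κ / P.leadingCoeff) * P := by
    conv_lhs => rw [(IsAlgClosed.splits P).eq_prod_roots]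
    conv_rhs => rhs; rw [(IsAlgClosed.splits P).eq_prod_roots]
    rw [Polynomial.map_mul, reverse_mul_of_domain, map_C, reverse_C, hκ, e, ← mul_assoc, ← mul_assoc,
      ← C_mul, ← C_mul, div_mul_cancel₀ _ l0]
  have e3 : ∀ i ≤ P.natDegree, ‖P.coeff (P.natDegree - i)‖ =
      ‖σ P.leadingCoeff * κ / P.leadingCoeff‖ * ‖P.coeff i‖ := fun i hi => by
    rw [← norm_mul, ← coeff_C_mul, ← e2, coeff_reverse, natDegree_map, revAt_le hi, coeff_map, h2]
  have a := e3 0 (Nat.zero_le _)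
  have b := e3 _ le_rfl
  have c : 0 < ‖P.coeff P.natDegree‖ := norm_pos_iff.mpr l0
  rw [Nat.sub_self] at b
  rw [Nat.sub_zero, b, ← mul_assoc, eq_comm, mul_eq_right₀ c.ne', mul_self_eq_one_iff] at a
  intro i hi
  rw [e3 i hi, a.resolve_right (by linarith [norm_nonneg (σ P.leadingCoeff * κ / P.leadingCoeff)]),
    one_mul]

end Pool.Agent.H1.Sel
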