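import Mathlib

open scoped InnerProductSpace ComplexConjugate

namespace Pool.Agent.H1.Sh

variable {H₁ H₂ : Type} [NormedAddCommGroup H₁] [InnerProductSpace ℂ H₁]
  [NormedAddCommGroup H₂] [InnerProductSpace ℂ H₂]

lemma riesz_graph {U : Type} [AddCommGroup U] [Module ℂ U] [CompleteSpace H₂] (A : U →ₗ[ℂ] H₂)
    (φ : U →ₗ[ℂ] ℂ) (C : ℝ) (hC : 0 ≤ C) (h : ∀ u, ‖φ u‖ ≤ C * ‖A u‖) :
    ∃ η : H₂, ‖η‖ ≤ C ∧ ∀ u, ⟪η, A u⟫_ℂ = φ u := by
  have hk : LinearMap.ker A ≤ LinearMap.ker φ := fun u hu => by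
    have := h u
    rw [LinearMap.mem_ker.1 hu] at this
    simpa using this
  set ψ : LinearMap.range A →ₗ[ℂ] ℂ :=
    (LinearMap.ker A).liftQ φ hk ∘ₗ A.quotKerEquivRange.symm.toLinearMap with hψ
  have e : ∀ u, ψ ⟨A u, LinearMap.mem_range_self A u⟩ = φ u := fun u => by
    simp [hψ, LinearMap.quotKerEquivRange_symm_apply_image]
  have hb : ∀ x, ‖ψ x‖ ≤ C * ‖x‖ := by
    rintro ⟨_, u, rfl⟩
    rw [e]; exact h u
  obtain ⟨g, hg, hn⟩ := exists_extension_norm_eq _ (ψ.mkContinuous C hb)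
  refine ⟨(InnerProductSpace.toDual ℂ H₂).symm g, ?_, fun u => ?_⟩
  · rw [LinearIsometryEquiv.norm_map, hn]; exact ψ.mkContinuous_norm_le hC hb
  · rw [InnerProductSpace.toDual_symm_apply, ← e]; exact hg ⟨_, LinearMap.mem_range_self A u⟩

lemma parrott {U : Type} [AddCommGroup U] [Module ℂ U] (A : U →ₗ[ℂ] H₂) (B : U →ₗ[ℂ] H₁)
    (E : Submodule ℂ H₁) [CompleteSpace E] (x0 : H₂) (h1 : ∀ u, ‖B u‖ ≤ ‖A u‖)
    (h2 : ∀ u (α : ℂ), ∃ e ∈ E, ‖B u + e‖ ≤ ‖A u + α • x0‖) :
    ∃ e ∈ E, ∀ u (α : ℂ), ‖B u + α • e‖ ≤ ‖A u + α • x0‖ := by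
  set Q : U × E → ℝ := fun z => ‖A z.1‖ ^ 2 - ‖B z.1‖ ^ 2 + ‖z.2‖ ^ 2 with hQ
  have Q0 : ∀ z, 0 ≤ Q z := fun z => by
    have := pow_le_pow_left₀ (norm_nonneg _) (h1 z.1) 2
    simp only [hQ]; nlinarith [sq_nonneg ‖z.2‖]
  have Qs : ∀ (a : ℂ) z, Q (a • z) = ‖a‖ ^ 2 * Q z := fun a z => by
    simp only [hQ, Prod.smul_fst, Prod.smul_snd, map_smul, norm_smul]; ring
  set β : U × E → U × E → ℝ := fun z w =>
    (⟪A z.1, A w.1⟫_ℂ).re - (⟪B z.1, B w.1⟫_ℂ).re + (⟪z.2, w.2⟫_ℂ).re with hβ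
  have Qa : ∀ z w, Q (z + w) = Q z + 2 * β z w + Q w := fun z w => by
    simp only [hQ, hβ, Prod.fst_add, Prod.snd_add, map_add, @norm_add_sq ℂ, RCLike.re_to_complex]
    ring
  have βs : ∀ (t : ℝ) z w, β z ((t : ℂ) • w) = t * β z w := fun t z w => by
    simp only [hβ, Prod.smul_fst, Prod.smul_snd, map_smul, inner_smul_right, Complex.re_ofReal_mul]
    ring
  have cs : ∀ z w, β z w ≤ √(Q z) * √(Q w) := fun z w => by
    have := discrim_le_zero (a := Q w) (b := 2 * β z w) (c := Q z) fun t => by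
      have := Q0 (z + (t : ℂ) • w)
      rw [Qa, Qs, βs, Complex.norm_real, Real.norm_eq_abs, sq_abs] at this
      nlinarith
    rw [← Real.sqrt_mul (Q0 z)]
    refine Real.le_sqrt_of_sq_le ?_
    unfold discrim at this; nlinarith
  set q : Seminorm ℂ (U × E) := Seminorm.of (fun z => √(Q z)) (fun z w => by
    refine Real.sqrt_le_iff.2 ⟨by positivity, ?_⟩
    rw [Qa, add_sq, Real.sq_sqrt (Q0 z), Real.sq_sqrt (Q0 w)]
    linarith [cs z w]) (fun a z => by
    rw [Qs, Real.sqrt_mul (by positivity), Real.sqrt_sq (norm_nonneg _)]) with hq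
  set N : U →ₗ[ℂ] U × E := LinearMap.prod LinearMap.id
    ((E.orthogonalProjectionOnto : H₁ →ₗ[ℂ] E) ∘ₗ B) with hN
  set f : U × E →ₗ[ℂ] ℂ := (innerₛₗ ℂ x0) ∘ₗ A ∘ₗ LinearMap.fst ℂ U E with hf
  obtain ⟨g, hg, hgb⟩ := Module.Dual.exists_extension_of_le_seminorm (LinearMap.range N)
    (f ∘ₗ (LinearMap.range N).subtype) (p := ‖x0‖₊ • q) (by
      rintro ⟨_, u, rfl⟩
      change ‖⟪x0, A u⟫_ℂ‖ ≤ ‖x0‖ * √(‖A u‖ ^ 2 - ‖B u‖ ^ 2 + ‖E.orthogonalProjectionOnto (B u)‖ ^ 2)
      by_cases h0 : x0 = 0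
      · simp [h0]
      have n0 : 0 < ‖x0‖ := norm_pos_iff.2 h0
      obtain ⟨e, he, hle⟩ := h2 u (-(⟪x0, A u⟫_ℂ / ((‖x0‖ ^ 2 : ℝ) : ℂ)))
      have a1 := Submodule.norm_sq_eq_add_norm_sq_starProjection (B u) E
      have a2 := Submodule.norm_sq_eq_add_norm_sq_starProjection (B u + e) E
      have a3 : Eᗮ.starProjection (B u + e) = Eᗮ.starProjection (B u) := by
        rw [map_add, Submodule.starProjection_orthogonal_apply_eq_zero he, add_zero]
      have a4 := pow_le_pow_left₀ (norm_nonneg _) hle 2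
      have a5 : ‖A u + -(⟪x0, A u⟫_ℂ / ((‖x0‖ ^ 2 : ℝ) : ℂ)) • x0‖ ^ 2 =
          ‖A u‖ ^ 2 - ‖⟪x0, A u⟫_ℂ‖ ^ 2 / ‖x0‖ ^ 2 := by
        rw [@norm_add_sq ℂ, inner_smul_right, norm_smul, ← inner_conj_symm (A u) x0, neg_mul,
          div_mul_eq_mul_div, Complex.mul_conj, ← Complex.ofReal_div, norm_neg, norm_div,
          Complex.norm_real, Complex.normSq_eq_norm_sq, RCLike.re_to_complex, Complex.neg_re,
          Complex.ofReal_re, Real.norm_eq_abs, abs_of_pos (by positivity)]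
        field_simp
        ring
      rw [a5, a2, a3] at a4
      rw [← Real.sqrt_sq n0.le, ← Real.sqrt_mul (by positivity)]
      refine Real.le_sqrt_of_sq_le ?_
      rw [← div_le_iff₀' (by positivity)]
      have a6 : ‖E.orthogonalProjectionOnto (B u)‖ = ‖E.starProjection (B u)‖ := rfl
      rw [a6]
      nlinarith [sq_nonneg ‖E.starProjection (B u + e)‖])
  have hgb' : ∀ z, ‖g z‖ ≤ ‖x0‖ * √(Q z) := hgb
  obtain ⟨e0, -, he0⟩ := riesz_graph (H₂ := E) LinearMap.id (g ∘ₗ LinearMap.inr ℂ U E) ‖x0‖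
    (norm_nonneg _) fun e => by simpa [hQ] using hgb' (0, e)
  have key : ∀ u, ‖B u - e0‖ ≤ ‖A u - x0‖ := fun u => by
    have b1 : g (u, E.orthogonalProjectionOnto (B u)) = ⟪x0, A u⟫_ℂ :=
      hg ⟨N u, LinearMap.mem_range_self N u⟩
    have b2 : g (0, E.orthogonalProjectionOnto (B u)) = ⟪(e0 : H₁), B u⟫_ℂ := by
      have := he0 (E.orthogonalProjectionOnto (B u))
      rw [← Submodule.inner_orthogonalProjectionOnto_eq_of_mem_left]
      exact this.symm
    have b3 : g (0, e0) = ⟪e0, e0⟫_ℂ := (he0 e0).symm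
    have b4 : g (u, e0) = ⟪x0, A u⟫_ℂ - ⟪(e0 : H₁), B u⟫_ℂ + ⟪e0, e0⟫_ℂ := by
      rw [← b1, ← b2, ← b3, ← map_sub, ← map_add]; simp
    have b5 := (Complex.re_le_norm _).trans (hgb' (u, e0))
    have b6 : ‖x0‖ * √(Q (u, e0)) ≤ (‖x0‖ ^ 2 + Q (u, e0)) / 2 := by
      nlinarith [sq_nonneg (‖x0‖ - √(Q (u, e0))), Real.sq_sqrt (Q0 (u, e0))]
    have b7 : (⟪e0, e0⟫_ℂ).re = ‖e0‖ ^ 2 := by
      simpa using inner_self_eq_norm_sq (𝕜 := ℂ) e0
    rw [b4, Complex.add_re, Complex.sub_re, b7] at b5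
    refine (abs_le_of_sq_le_sq' ?_ (norm_nonneg _)).2
    rw [norm_sub_rev, norm_sub_rev (A u), @norm_sub_sq ℂ, @norm_sub_sq ℂ]
    simp only [hQ, RCLike.re_to_complex, Submodule.coe_norm] at *
    linarith
  refine ⟨e0, e0.2, fun u α => ?_⟩
  by_cases h0 : α = 0
  · simpa [h0] using h1 u
  have := mul_le_mul_of_nonneg_left (key ((-α⁻¹) • u)) (norm_nonneg (-α))
  rw [← norm_smul, ← norm_smul, smul_sub, smul_sub, map_smul, map_smul, smul_smul] at this
  simpa [h0] using this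

variable {X V : Type} [AddCommGroup V] [Module ℂ V] [FiniteDimensional ℂ V]
  (K : X → V →ₗ[ℂ] H₁) (L : X → V →ₗ[ℂ] H₂)

def Contr (Y : Finset X) (S : X → Submodule ℂ V) (W : X → V →ₗ[ℂ] V) : Prop :=
  ∀ c : X → V, (∀ x, c x ∈ S x) → ‖∑ x ∈ Y, K x (W x (c x))‖ ≤ ‖∑ x ∈ Y, L x (c x)‖

def Glob (Ψ : X → V →ₗ[ℂ] V) : Prop := ∀ Y, Contr K L Y (fun _ => ⊤) Ψ

def Ext (Y : Finset X) : Prop :=
  ∀ S W, Contr K L Y S W → ∃ Ψ, Glob K L Ψ ∧ ∀ x ∈ Y, ∀ v ∈ S x, Ψ x v = W x v

open Classical in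
lemma step (Y : Finset X) (a : X) (ha : a ∈ Y) (ih : Ext K L (Y.erase a))
    (S : X → Submodule ℂ V) (W : X → V →ₗ[ℂ] V) (h : Contr K L Y S W) (c' : V) (hc : c' ∉ S a) :
    ∃ W', (∀ x, ∀ v ∈ S x, W' x v = W x v) ∧
      Contr K L Y (Function.update S a (S a ⊔ Submodule.span ℂ {c'})) W' := by
  obtain ⟨Ψ, hΨ, hΨ'⟩ := ih S W fun c hc => by
    have := h (Function.update c a 0) fun x => by
      by_cases e : x = a
      · subst e; simp
      · simpa [e] using hc x
    rw [← Finset.add_sum_erase _ _ ha, ← Finset.add_sum_erase _ _ ha] at this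
    simp only [Function.update_self, map_zero, zero_add] at this
    rwa [Finset.sum_congr rfl fun x hx => by rw [Function.update_of_ne (Finset.ne_of_mem_erase hx)],
      Finset.sum_congr rfl (s₁ := Y.erase a) (f := fun x => L x _)
        fun x hx => by rw [Function.update_of_ne (Finset.ne_of_mem_erase hx)]] at this
  set U := Submodule.pi Set.univ S with hU
  set A : U →ₗ[ℂ] H₂ := ∑ x ∈ Y, L x ∘ₗ LinearMap.proj x ∘ₗ U.subtype with hA
  set B : U →ₗ[ℂ] H₁ := ∑ x ∈ Y, K x ∘ₗ W x ∘ₗ LinearMap.proj x ∘ₗ U.subtype with hB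
  have eA : ∀ u : U, A u = ∑ x ∈ Y, L x (u.1 x) := fun u => by simp [hA]
  have eB : ∀ u : U, B u = ∑ x ∈ Y, K x (W x (u.1 x)) := fun u => by simp [hB]
  have : CompleteSpace (LinearMap.range (K a)) := FiniteDimensional.complete ℂ _
  obtain ⟨_, ⟨w, rfl⟩, hw⟩ := parrott A B (LinearMap.range (K a)) (L a c')
    (fun u => by rw [eA, eB]; exact h _ fun x => u.2 x trivial) fun u α => by
      refine ⟨K a (Ψ a (u.1 a + α • c') - W a (u.1 a)), LinearMap.mem_range_self _ _, ?_⟩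
      have := hΨ Y (Function.update u.1 a (u.1 a + α • c')) fun _ => trivial
      rw [eA, eB]
      rw [← Finset.add_sum_erase _ _ ha, ← Finset.add_sum_erase _ _ ha] at this ⊢
      simp only [Function.update_self] at this
      rw [Finset.sum_congr rfl fun x hx => by
        rw [Function.update_of_ne (Finset.ne_of_mem_erase hx), hΨ' x hx _ (u.2 x trivial)],
        Finset.sum_congr rfl (s₁ := Y.erase a) (f := fun x => L x _)
          fun x hx => by rw [Function.update_of_ne (Finset.ne_of_mem_erase hx)]] at this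
      convert this using 2
      · rw [map_sub]; abel
      · rw [map_add, map_smul]; abel
  obtain ⟨φ, hφ1, hφ0⟩ := (S a).exists_dual_map_eq_bot_of_notMem hc inferInstance
  have hφ0' : ∀ v ∈ S a, φ v = 0 := fun v hv => by
    have : φ v ∈ (S a).map φ := Submodule.mem_map_of_mem hv
    rwa [hφ0, Submodule.mem_bot] at this
  refine ⟨Function.update W a (W a + ((φ c')⁻¹ • φ).smulRight (w - W a c')), fun x v hv => ?_,
    fun c hc => ?_⟩
  · by_cases e : x = a
    · subst e; simp [hφ0' v hv]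
    · simp [e]
  · have h1 := hc a
    rw [Function.update_self, Submodule.mem_sup] at h1
    obtain ⟨s, hs, t, ht, hst⟩ := h1
    obtain ⟨α, rfl⟩ := Submodule.mem_span_singleton.1 ht
    have := hw ⟨Function.update c a s, fun x _ => by
      by_cases e : x = a
      · subst e; simpa using hs
      · simpa [e] using hc x⟩ α
    rw [eA, eB] at this
    rw [← Finset.add_sum_erase _ _ ha, ← Finset.add_sum_erase _ _ ha] at this ⊢
    simp only [Function.update_self] at this ⊢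
    rw [Finset.sum_congr rfl fun x hx => by rw [Function.update_of_ne (Finset.ne_of_mem_erase hx)],
      Finset.sum_congr rfl (s₁ := Y.erase a) (f := fun x => L x _)
        fun x hx => by rw [Function.update_of_ne (Finset.ne_of_mem_erase hx)]] at this
    rw [Finset.sum_congr rfl fun x hx => by rw [Function.update_of_ne (Finset.ne_of_mem_erase hx)]]
    convert this using 2
    · rw [← hst]
      have e1 : (φ c')⁻¹ * (α * φ c') = α := by field_simp
      simp [hφ0' s hs, e1, smul_sub]; abel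
    · rw [← hst, map_add, map_smul]; abel

open Classical in
lemma ext_all (hCP : ∀ Y W, Contr K L Y (fun _ => ⊤) W → ∃ Ψ, Glob K L Ψ ∧ ∀ x ∈ Y, Ψ x = W x)
    (Y : Finset X) : Ext K L Y := by
  induction Y using Finset.strongInduction with
  | H Y ih =>
    have key : ∀ (n : ℕ) (S : X → Submodule ℂ V) (W : X → V →ₗ[ℂ] V),
        ∑ x ∈ Y, (Module.finrank ℂ V - Module.finrank ℂ (S x)) ≤ n → Contr K L Y S W →
        ∃ Ψ, Glob K L Ψ ∧ ∀ x ∈ Y, ∀ v ∈ S x, Ψ x v = W x v := by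
      intro n
      induction n using Nat.strong_induction_on with
      | _ n ihn =>
        intro S W hn h
        by_cases hall : ∀ x ∈ Y, S x = ⊤
        · obtain ⟨Ψ, h1, h2⟩ := hCP Y W fun c _ => by
            have := h (fun x => if x ∈ Y then c x else 0) fun x => by
              split_ifs with e
              · rw [hall x e]; trivial
              · exact zero_mem _
            rwa [Finset.sum_congr rfl fun x hx => by rw [if_pos hx],
              Finset.sum_congr rfl (s₁ := Y) (f := fun x => L x _)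
                fun x hx => by rw [if_pos hx]] at this
          exact ⟨Ψ, h1, fun x hx v _ => by rw [h2 x hx]⟩
        push Not at hall
        obtain ⟨a, ha, hne⟩ := hall
        obtain ⟨c', -, hc⟩ := SetLike.exists_of_lt (lt_top_iff_ne_top.2 hne)
        obtain ⟨W', h1, h2⟩ := step K L Y a ha (ih _ (Finset.erase_ssubset ha)) S W h c' hc
        have hlt : S a < S a ⊔ Submodule.span ℂ {c'} :=
          lt_of_le_of_ne le_sup_left fun e =>
            hc (e ▸ Submodule.mem_sup_right (Submodule.mem_span_singleton_self c'))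
        have hs : ∑ x ∈ Y, (Module.finrank ℂ V - Module.finrank ℂ
            (Function.update S a (S a ⊔ Submodule.span ℂ {c'}) x)) <
            ∑ x ∈ Y, (Module.finrank ℂ V - Module.finrank ℂ (S x)) := by
          refine Finset.sum_lt_sum (fun x _ => ?_) ⟨a, ha, ?_⟩
          · by_cases e : x = a
            · subst e
              rw [Function.update_self]
              exact Nat.sub_le_sub_left (Submodule.finrank_mono hlt.le) _
            · rw [Function.update_of_ne e]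
          · rw [Function.update_self]
            have a1 := Submodule.finrank_lt_finrank_of_lt hlt
            have a2 := Submodule.finrank_le (S a ⊔ Submodule.span ℂ {c'})
            omega
        obtain ⟨Ψ, h3, h4⟩ := ihn _ (lt_of_lt_of_le hs hn) _ W' le_rfl h2
        refine ⟨Ψ, h3, fun x hx v hv => ?_⟩
        rw [h4 x hx v, h1 x v hv]
        by_cases e : x = a
        · subst e; simpa using hlt.le hv
        · simpa [e] using hv
    exact fun S W h => key _ S W le_rfl h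

end Pool.Agent.H1.Sh
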