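import Mathlib

open Matrix
open scoped ComplexOrder

namespace Pool.Agent.H1.Sh

def HasKernel {X : Type} (N : ℕ) (k : Matrix X X ℂ) (H : Type) [NormedAddCommGroup H]
    [InnerProductSpace ℂ H] [CompleteSpace H] [RKHS ℂ H X (EuclideanSpace ℂ (Fin N))] : Prop :=
  ∀ (x y : X) (v : EuclideanSpace ℂ (Fin N)), RKHS.kernel H x y v = k x y • v

def ContrMult {X : Type} {N : ℕ} (H₁ H₂ : Type)
    [NormedAddCommGroup H₁] [InnerProductSpace ℂ H₁] [RKHS ℂ H₁ X (EuclideanSpace ℂ (Fin N))]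
    [NormedAddCommGroup H₂] [InnerProductSpace ℂ H₂] [RKHS ℂ H₂ X (EuclideanSpace ℂ (Fin N))]
    (Φ : X → Matrix (Fin N) (Fin N) ℂ) : Prop :=
  ∀ f : H₁, ∃ g : H₂, (∀ x, (g x).ofLp = Φ x *ᵥ (f x).ofLp) ∧ ‖g‖ ≤ ‖f‖

def pick {X : Type} {n N : ℕ} (k l : Matrix X X ℂ) (z : Fin n → X)
    (W : Fin n → Matrix (Fin N) (Fin N) ℂ) : Matrix (Fin n × Fin N) (Fin n × Fin N) ℂ :=
  Matrix.of fun i j => l (z i.1) (z j.1) * (1 : Matrix (Fin N) (Fin N) ℂ) i.2 j.2 -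
    k (z i.1) (z j.1) * (W i.1 * (W j.1)ᴴ) i.2 j.2

def IsCP {X : Type} (k l : Matrix X X ℂ) : Prop :=
  ∀ (n N : ℕ), 1 ≤ n → 1 ≤ N → ∀ (H₁ H₂ : Type)
    [NormedAddCommGroup H₁] [InnerProductSpace ℂ H₁] [CompleteSpace H₁]
    [RKHS ℂ H₁ X (EuclideanSpace ℂ (Fin N))]
    [NormedAddCommGroup H₂] [InnerProductSpace ℂ H₂] [CompleteSpace H₂]
    [RKHS ℂ H₂ X (EuclideanSpace ℂ (Fin N))],
    HasKernel N k H₁ → HasKernel N l H₂ →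
    ∀ (z : Fin n → X) (W : Fin n → Matrix (Fin N) (Fin N) ℂ), (pick k l z W).PosSemidef →
      ∃ Φ : X → Matrix (Fin N) (Fin N) ℂ, ContrMult H₁ H₂ Φ ∧ ∀ i, Φ (z i) = W i

noncomputable def kz {X : Type} (k : Matrix X X ℂ) (z : X) : Matrix X X ℂ :=
  Matrix.of fun x y => if k z z = 0 then k x y else k x y - k x z * k z y / k z z

def HasCert {X : Type} (k l : Matrix X X ℂ) : Prop :=
  ∃ p : X → Matrix X X ℂ, ∀ z, (p z).PosSemidef ∧ (kz l z - p z ⊙ l).PosSemidef ∧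
    (p z ⊙ k - kz k z).PosSemidef

end Pool.Agent.H1.Sh
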