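import Mathlib
import Pool.Agent.H1.ShDefs
import Pool.Agent.H1.ShA

open Matrix
open scoped InnerProductSpace ComplexConjugate ComplexOrder

namespace Pool.Agent.H1.Sh

abbrev EV (N : ℕ) := EuclideanSpace ℂ (Fin N)

variable {X : Type} {N : ℕ}

noncomputable def qf (M : Matrix X X ℂ) (α : X →₀ ℂ) : ℂ :=
  α.sum fun i xi => α.sum fun j xj => star xi * M i j * xj

lemma qf_eq (M : Matrix X X ℂ) (α : X →₀ ℂ) (Y : Finset X) (h : α.support ⊆ Y) :
    qf M α = ∑ x ∈ Y, ∑ y ∈ Y, conj (α x) * M x y * α y := by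
  unfold qf
  rw [Finsupp.sum_of_support_subset _ h _ (by simp)]
  refine Finset.sum_congr rfl fun x _ => ?_
  rw [Finsupp.sum_of_support_subset _ h _ (by simp)]
  rfl

lemma psd_of_re (M : Matrix X X ℂ) (h : M.IsHermitian) (h2 : ∀ α, 0 ≤ (qf M α).re) :
    M.PosSemidef := by
  refine ⟨h, fun α => ?_⟩
  change 0 ≤ qf M α
  refine Complex.nonneg_iff.2 ⟨h2 α, (Complex.conj_eq_iff_im.1 ?_).symm⟩
  rw [qf_eq M α _ le_rfl, map_sum, Finset.sum_comm]
  refine Finset.sum_congr rfl fun x _ => ?_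
  rw [map_sum]
  refine Finset.sum_congr rfl fun y _ => ?_
  have : conj (M x y) = M y x := h.apply y x
  simp only [map_mul, Complex.conj_conj, this]; ring

lemma inner_EV (u v : EV N) : ⟪u, v⟫_ℂ = ∑ a, conj (u a) * v a := by
  simp [PiLp.inner_apply, mul_comm]

lemma exists_rkhs (k : Matrix X X ℂ) (hk : k.PosSemidef) (N : ℕ) :
    ∃ (H : Type) (_ : NormedAddCommGroup H) (_ : InnerProductSpace ℂ H) (_ : CompleteSpace H)
      (_ : RKHS ℂ H X (EV N)), HasKernel N k H := by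
  set K : Matrix X X (EV N →L[ℂ] EV N) := Matrix.of fun x y => k x y • 1 with hK
  have hh : ∀ x y, conj (k x y) = k y x := fun x y => hk.1.apply y x
  have : Fact K.PosSemidef := ⟨by
    have t := (RKHS.posSemidef_tfae (K := K)).out 0 2
    refine t.2 (And.intro ?_ fun vv => ?_)
    · ext1 x y
      simp [hK, hh]
    · have : (vv.sum fun x w => vv.sum fun x' w' => ⟪K x' x w, w'⟫_ℂ) =
          ∑ a, qf k (vv.mapRange (fun w => w a) (by simp)) := by
        simp only [qf_eq k _ vv.support Finsupp.support_mapRange, Finsupp.sum]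
        rw [Finset.sum_comm (s := Finset.univ)]
        refine Finset.sum_congr rfl fun x _ => ?_
        rw [Finset.sum_comm (s := Finset.univ)]
        refine Finset.sum_congr rfl fun y _ => ?_
        simp only [hK, of_apply, ContinuousLinearMap.smul_apply, ContinuousLinearMap.one_apply,
          inner_smul_left, hh, Finsupp.mapRange_apply]
        rw [inner_EV, Finset.mul_sum]
        exact Finset.sum_congr rfl fun a _ => by ring
      rw [this]
      exact (Complex.nonneg_iff.1 (Finset.sum_nonneg fun a _ => hk.2 _)).1⟩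
  refine ⟨RKHS.OfKernel K, inferInstance, inferInstance, inferInstance, inferInstance,
    fun x y v => ?_⟩
  rw [RKHS.OfKernel.kernel_ofKernel]; simp [hK]

variable {H₁ H₂ : Type} [NormedAddCommGroup H₁] [InnerProductSpace ℂ H₁]
  [NormedAddCommGroup H₂] [InnerProductSpace ℂ H₂]

def Gram (k : Matrix X X ℂ) (K : X → EV N →ₗ[ℂ] H₁) : Prop :=
  ∀ x y u v, ⟪K x u, K y v⟫_ℂ = k x y * ⟪u, v⟫_ℂ

lemma Gram.normsq {k : Matrix X X ℂ} {K : X → EV N →ₗ[ℂ] H₁} (h : Gram k K) {ι : Type}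
    (s : Finset ι) (z : ι → X) (u : ι → EV N) :
    ‖∑ i ∈ s, K (z i) (u i)‖ ^ 2 = (∑ i ∈ s, ∑ j ∈ s, k (z i) (z j) * ⟪u i, u j⟫_ℂ).re := by
  rw [← inner_self_eq_norm_sq (𝕜 := ℂ), sum_inner]
  simp only [inner_sum, h _ _, RCLike.re_to_complex]

lemma Gram.compress {k : Matrix X X ℂ} {K : X → EV N →ₗ[ℂ] H₁} (h : Gram k K)
    (hk : k.PosSemidef) (Y : Finset X) (c : X → EV N) (z : X) :
    (∀ u, (∑ x ∈ Y, ∑ y ∈ Y, kz k z x y * ⟪c x, c y⟫_ℂ).re ≤ ‖∑ x ∈ Y, K x (c x) + K z u‖ ^ 2) ∧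
    ∃ u, (∑ x ∈ Y, ∑ y ∈ Y, kz k z x y * ⟪c x, c y⟫_ℂ).re = ‖∑ x ∈ Y, K x (c x) + K z u‖ ^ 2 := by
  have hh : ∀ x y, conj (k x y) = k y x := fun x y => hk.1.apply y x
  have n1 := h.normsq Y id c
  simp only [id] at n1
  obtain ⟨κ, hκ0, hκ⟩ : ∃ κ : ℝ, 0 ≤ κ ∧ k z z = κ := by
    have := Complex.nonneg_iff.1 (hk.diag_nonneg (i := z))
    exact ⟨(k z z).re, this.1, Complex.ext rfl (by simpa using this.2.symm)⟩
  have n2 : ∀ u, ‖K z u‖ ^ 2 = κ * ‖u‖ ^ 2 := fun u => by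
    rw [← inner_self_eq_norm_sq (𝕜 := ℂ), h, hκ, ← inner_self_eq_norm_sq (𝕜 := ℂ)]
    simp
  by_cases h0 : κ = 0
  · have e : ∀ u, K z u = 0 := fun u => by
      have := n2 u
      rw [h0, zero_mul] at this
      simpa using this
    have e2 : k z z = 0 := by rw [hκ, h0]; simp
    simp only [kz, of_apply, e2, if_true, e, add_zero, n1]
    exact ⟨fun _ => le_rfl, 0, trivial⟩
  have hpos : 0 < κ := lt_of_le_of_ne hκ0 (Ne.symm h0)
  have e2 : k z z ≠ 0 := by rw [hκ]; exact_mod_cast h0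
  set m : EV N := ∑ x ∈ Y, k z x • c x with hm
  have e3 : (∑ x ∈ Y, ∑ y ∈ Y, kz k z x y * ⟪c x, c y⟫_ℂ).re =
      ‖∑ x ∈ Y, K x (c x)‖ ^ 2 - ‖m‖ ^ 2 / κ := by
    have : ∑ x ∈ Y, ∑ y ∈ Y, kz k z x y * ⟪c x, c y⟫_ℂ =
        ∑ x ∈ Y, ∑ y ∈ Y, k x y * ⟪c x, c y⟫_ℂ - ⟪m, m⟫_ℂ / κ := by
      simp only [kz, of_apply, e2, if_false, hm, sum_inner, inner_sum, inner_smul_left,
        inner_smul_right, hh, Finset.sum_div, Finset.mul_sum]
      rw [Finset.sum_comm (f := fun y x => k z y * (k x z * ⟪c x, c y⟫_ℂ) / κ),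
        ← Finset.sum_sub_distrib]
      refine Finset.sum_congr rfl fun x _ => ?_
      rw [← Finset.sum_sub_distrib]
      refine Finset.sum_congr rfl fun y _ => ?_
      rw [hκ]; ring
    rw [this, Complex.sub_re, Complex.div_ofReal_re, n1, ← inner_self_eq_norm_sq (𝕜 := ℂ) m]
    rfl
  have e4 : ∀ u, ‖∑ x ∈ Y, K x (c x) + K z u‖ ^ 2 =
      ‖∑ x ∈ Y, K x (c x)‖ ^ 2 - ‖m‖ ^ 2 / κ + ‖m + (κ : ℂ) • u‖ ^ 2 / κ := fun u => by
    have : ⟪∑ x ∈ Y, K x (c x), K z u⟫_ℂ = ⟪m, u⟫_ℂ := by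
      simp only [hm, sum_inner, h _ _, inner_smul_left, hh]
    rw [@norm_add_sq ℂ, @norm_add_sq ℂ, this, n2, inner_smul_right, norm_smul]
    simp only [RCLike.re_to_complex, Complex.re_ofReal_mul, Complex.norm_real, Real.norm_eq_abs,
      mul_pow, sq_abs]
    field_simp; ring
  rw [e3]
  refine ⟨fun u => by rw [e4]; exact le_add_of_nonneg_right (by positivity),
    -((κ : ℂ)⁻¹ • m), ?_⟩
  have : (κ : ℂ) ≠ 0 := by exact_mod_cast h0
  rw [e4]; simp [smul_smul, this]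

lemma pick_iff {k l : Matrix X X ℂ} {K : X → EV N →ₗ[ℂ] H₁} {L : X → EV N →ₗ[ℂ] H₂}
    (hK : Gram k K) (hL : Gram l L) (hk : k.IsHermitian) (hl : l.IsHermitian) {n : ℕ}
    (z : Fin n → X) (W : Fin n → Matrix (Fin N) (Fin N) ℂ) :
    (pick k l z W).PosSemidef ↔ ∀ u : Fin n → EV N,
      ‖∑ i, K (z i) (toEuclideanLin (W i)ᴴ (u i))‖ ≤ ‖∑ i, L (z i) (u i)‖ := by
  have key : ∀ u : Fin n → EV N,
      (qf (pick k l z W) (Finsupp.equivFunOnFinite.symm fun i => u i.1 i.2)).re =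
      ‖∑ i, L (z i) (u i)‖ ^ 2 - ‖∑ i, K (z i) (toEuclideanLin (W i)ᴴ (u i))‖ ^ 2 := fun u => by
    rw [hK.normsq, hL.normsq, ← Complex.sub_re, qf_eq _ _ _ (Finset.subset_univ _),
      ← Finset.sum_sub_distrib, Fintype.sum_prod_type]
    congr 1
    refine Finset.sum_congr rfl fun i _ => ?_
    simp only [Fintype.sum_prod_type]
    rw [← Finset.sum_sub_distrib, Finset.sum_comm]
    refine Finset.sum_congr rfl fun j _ => ?_
    have e : ⟪toEuclideanLin (W i)ᴴ (u i), toEuclideanLin (W j)ᴴ (u j)⟫_ℂ =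
        ⟪u i, toEuclideanLin (W i * (W j)ᴴ) (u j)⟫_ℂ := by
      rw [toEuclideanLin_conjTranspose_eq_adjoint (W i), LinearMap.adjoint_inner_left]
      congr 1
      simp [toEuclideanLin_apply]
    rw [e, inner_EV, inner_EV, Finset.mul_sum, Finset.mul_sum, ← Finset.sum_sub_distrib]
    refine Finset.sum_congr rfl fun a _ => ?_
    simp only [pick, of_apply, Finsupp.coe_equivFunOnFinite_symm, mul_sub, sub_mul,
      Finset.sum_sub_distrib, ofLp_toEuclideanLin_apply, mulVec, dotProduct, Finset.mul_sum,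
      one_apply]
    congr 1
    · simp; ring
    · exact Finset.sum_congr rfl fun b _ => by ring
  constructor
  · intro h u
    have := (Complex.nonneg_iff.1 (h.2 (Finsupp.equivFunOnFinite.symm fun i => u i.1 i.2))).1
    change 0 ≤ (qf _ _).re at this
    rw [key] at this
    exact (abs_le_of_sq_le_sq' (by linarith) (norm_nonneg _)).2
  · intro h
    refine psd_of_re _ ?_ fun α => ?_
    · ext i j
      have a1 : conj (k (z j.1) (z i.1)) = k (z i.1) (z j.1) := hk.apply _ _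
      have a2 : conj (l (z j.1) (z i.1)) = l (z i.1) (z j.1) := hl.apply _ _
      simp [pick, a1, mul_apply, one_apply, eq_comm, mul_comm]
      split_ifs <;> simp [a2]
    · have := key fun i => WithLp.toLp 2 fun a => α (i, a)
      simp only [Prod.mk.eta, Finsupp.equivFunOnFinite_symm_coe] at this
      rw [this]
      linarith [pow_le_pow_left₀ (norm_nonneg _) (h fun i => WithLp.toLp 2 fun a => α (i, a)) 2]

variable [CompleteSpace H₁] [CompleteSpace H₂] [RKHS ℂ H₁ X (EV N)] [RKHS ℂ H₂ X (EV N)]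

variable (H₁) in
noncomputable def kf (x : X) : EV N →ₗ[ℂ] H₁ := (RKHS.kerFun H₁ x).toLinearMap

lemma gram_of {k : Matrix X X ℂ} (h : HasKernel N k H₁) : Gram k (kf H₁) := fun x y u v => by
  simp only [kf, ContinuousLinearMap.coe_coe]
  rw [RKHS.kerFun_inner, RKHS.kerFun_apply, h, inner_smul_right]

lemma mult_iff (Φ : X → Matrix (Fin N) (Fin N) ℂ) :
    ContrMult H₁ H₂ Φ ↔ Glob (kf H₁) (kf H₂) fun x => toEuclideanLin (Φ x)ᴴ := by
  have ad : ∀ x (u v : EV N), ⟪toEuclideanLin (Φ x)ᴴ u, v⟫_ℂ = ⟪u, toEuclideanLin (Φ x) v⟫_ℂ :=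
    fun x u v => by rw [toEuclideanLin_conjTranspose_eq_adjoint, LinearMap.adjoint_inner_left]
  constructor
  · intro h Y u _
    set f : H₁ := ∑ x ∈ Y, kf H₁ x (toEuclideanLin (Φ x)ᴴ (u x)) with hf
    obtain ⟨g, hg, hn⟩ := h f
    have e : ⟪f, f⟫_ℂ = ⟪∑ x ∈ Y, kf H₂ x (u x), g⟫_ℂ := by
      rw [show ⟪f, f⟫_ℂ = ⟪∑ x ∈ Y, kf H₁ x (toEuclideanLin (Φ x)ᴴ (u x)), f⟫_ℂ from rfl,
        sum_inner, sum_inner]
      refine Finset.sum_congr rfl fun x _ => ?_
      simp only [kf, ContinuousLinearMap.coe_coe, RKHS.kerFun_inner, ad]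
      congr 1
      exact (WithLp.ofLp_injective 2 (hg x)).symm
    have e2 := norm_inner_le_norm (𝕜 := ℂ) (∑ x ∈ Y, kf H₂ x (u x)) g
    rw [← e, inner_self_eq_norm_sq_to_K, norm_pow, RCLike.norm_ofReal, abs_norm] at e2
    by_cases h0 : ‖f‖ = 0
    · rw [h0]; positivity
    have : 0 < ‖f‖ := lt_of_le_of_ne (norm_nonneg _) (Ne.symm h0)
    nlinarith [norm_nonneg (∑ x ∈ Y, kf H₂ x (u x))]
  · intro h f
    obtain ⟨g, hn, hg⟩ := riesz_graph (Finsupp.lsum ℂ (kf H₂ (X := X) (N := N)))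
      (innerₛₗ ℂ f ∘ₗ Finsupp.lsum ℂ fun x => kf H₁ x ∘ₗ toEuclideanLin (Φ x)ᴴ) ‖f‖
      (norm_nonneg _) fun u => by
        refine (norm_inner_le_norm (𝕜 := ℂ) _ _).trans ?_
        gcongr
        exact h u.support u fun _ => trivial
    refine ⟨g, fun x => ?_, hn⟩
    have : g x = toEuclideanLin (Φ x) (f x) := ext_inner_right ℂ fun v => by
      have := hg (Finsupp.single x v)
      simp only [Finsupp.lsum_single, LinearMap.comp_apply, innerₛₗ_apply_apply, kf,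
        ContinuousLinearMap.coe_coe, RKHS.inner_kerFun] at this
      rw [this, ← inner_conj_symm, ad, inner_conj_symm]
    rw [this]; rfl

lemma ext_of_cp {k l : Matrix X X ℂ} (hk : k.IsHermitian) (hl : l.IsHermitian) (h : IsCP k l)
    (hN : 1 ≤ N) (h1 : HasKernel N k H₁) (h2 : HasKernel N l H₂) (Y : Finset X) :
    Ext (kf H₁ (N := N)) (kf H₂) Y := by
  refine ext_all _ _ (fun Y W hW => ?_) Y
  rcases Y.eq_empty_or_nonempty with rfl | hY
  · exact ⟨0, fun Y c _ => by simp, by simp⟩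
  set z : Fin Y.card → X := fun i => Y.equivFin.symm i with hz
  have hs : ∀ {H : Type} [AddCommMonoid H] (F : X → H), ∑ i, F (z i) = ∑ x ∈ Y, F x := fun F => by
    rw [← Finset.sum_coe_sort Y]
    exact Equiv.sum_comp Y.equivFin.symm fun x => F x
  obtain ⟨Φ, h3, h4⟩ := h _ N hY.card_pos hN H₁ H₂ h1 h2 z
    (fun i => (toEuclideanLin.symm (W (z i)))ᴴ) (by
      rw [pick_iff (gram_of h1) (gram_of h2) hk hl]
      intro u
      classical
      have := hW (fun x => if hx : x ∈ Y then u (Y.equivFin ⟨x, hx⟩) else 0) fun _ => trivial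
      rw [← hs, ← hs] at this
      simpa [hz] using this)
  refine ⟨_, (mult_iff Φ).1 h3, fun x hx => ?_⟩
  have := h4 (Y.equivFin ⟨x, hx⟩)
  simp only [hz, Equiv.symm_apply_apply] at this
  simp [this]

end Pool.Agent.H1.Sh
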