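import Mathlib
import Pool.Agent.H1.ShB

open Matrix
open scoped InnerProductSpace ComplexConjugate ComplexOrder

namespace Pool.Agent.H1.Sh

variable {X : Type}

noncomputable def val (k l : Matrix X X ℂ) (z : X) (t : (X →₀ ℂ) × (X →₀ ℂ)) (p : Matrix X X ℂ) :
    ℝ := (qf (kz l z - p ⊙ l) t.1).re + (qf (p ⊙ k - kz k z) t.2).re

lemma glob_add {H₁ H₂ V : Type} [NormedAddCommGroup H₁] [InnerProductSpace ℂ H₁]
    [NormedAddCommGroup H₂] [InnerProductSpace ℂ H₂] [AddCommGroup V] [Module ℂ V]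
    {K : X → V →ₗ[ℂ] H₁} {L : X → V →ₗ[ℂ] H₂} {Ψ : X → V →ₗ[ℂ] V} (h : Glob K L Ψ)
    (Y : Finset X) (c : X → V) (z : X) (u : V) :
    ‖∑ x ∈ Y, K x (Ψ x (c x)) + K z (Ψ z u)‖ ≤ ‖∑ x ∈ Y, L x (c x) + L z u‖ := by
  classical
  have := h (insert z Y) (fun x => (if x ∈ Y then c x else 0) + if x = z then u else 0)
    fun _ => trivial
  simp only [map_add, Finset.sum_add_distrib, apply_ite (K _), apply_ite (L _), apply_ite (Ψ _),
    map_zero, Finset.sum_ite_mem, Finset.sum_ite_eq', Finset.mem_insert_self, if_true,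
    Finset.inter_eq_right.2 (Finset.subset_insert z Y)] at this
  exact this

lemma finite_dual {k l : Matrix X X ℂ} (hk : k.PosSemidef) (hl : l.PosSemidef) (h : IsCP k l)
    (z : X) (N : ℕ) (hN : 1 ≤ N) (t : Fin N → (X →₀ ℂ) × (X →₀ ℂ)) (Y : Finset X)
    (hY : ∀ i, (t i).1.support ⊆ Y ∧ (t i).2.support ⊆ Y) (ε : ℝ) (hε : 0 < ε) :
    ∃ p : Matrix X X ℂ, p.PosSemidef ∧ (∀ x, x ∉ Y → p x x = 0) ∧ ∀ i, -ε < val k l z (t i) p := by
  classical
  by_contra hn
  push Not at hn
  have hv : ∀ i p, val k l z (t i) p =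
      (∑ x ∈ Y, ∑ y ∈ Y, conj ((t i).1 x) * (kz l z x y - p x y * l x y) * (t i).1 y).re +
      (∑ x ∈ Y, ∑ y ∈ Y, conj ((t i).2 x) * (p x y * k x y - kz k z x y) * (t i).2 y).re :=
    fun i p => by rw [val, qf_eq _ _ Y (hY i).1, qf_eq _ _ Y (hY i).2]; rfl
  set T : Set (Fin N → ℝ) := {τ | ∃ p : Matrix X X ℂ, p.PosSemidef ∧ (∀ x, x ∉ Y → p x x = 0) ∧
    ∀ i, τ i = val k l z (t i) p} with hT
  have Tc : Convex ℝ T := by
    rintro _ ⟨p, hp, hp0, h1⟩ _ ⟨q, hq, hq0, h2⟩ a b ha hb hab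
    refine ⟨(a : ℂ) • p + (b : ℂ) • q, (hp.smul (by exact_mod_cast ha)).add
      (hq.smul (by exact_mod_cast hb)), fun x hx => by simp [hp0 x hx, hq0 x hx], fun i => ?_⟩
    simp only [Pi.add_apply, Pi.smul_apply, smul_eq_mul, h1, h2, hv, mul_add,
      ← Complex.re_ofReal_mul, ← Complex.add_re, Finset.mul_sum, ← Finset.sum_add_distrib]
    congr 1
    refine Finset.sum_congr rfl fun x _ => Finset.sum_congr rfl fun y _ => ?_
    have : (b : ℂ) = 1 - a := by rw [eq_sub_iff_add_eq']; exact_mod_cast hab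
    simp only [Matrix.add_apply, Matrix.smul_apply, smul_eq_mul, this]; ring
  obtain ⟨f, u, hf1, hf2⟩ := geometric_hahn_banach_open (s := Set.pi Set.univ fun _ => Set.Ioi (-ε))
    (convex_pi fun _ _ => convex_Ioi _) (isOpen_set_pi Set.finite_univ fun _ _ => isOpen_Ioi) Tc
    (Set.disjoint_left.2 fun τ h1 ⟨p, hp, hp0, h2⟩ => by
      obtain ⟨i, hi⟩ := hn p hp hp0
      have := h1 i trivial
      rw [h2] at this
      exact absurd this (not_lt.2 hi))
  have u0 : 0 < u := by simpa using hf1 0 fun i _ => by simpa using hε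
  set lam : Fin N → ℝ := fun i => -f (Pi.single i 1) with hlam
  have l0 : ∀ i, 0 ≤ lam i := fun i => by
    by_contra hc
    have hc' : 0 < f (Pi.single i 1) := by simpa [hlam] using hc
    have := hf1 ((u / f (Pi.single i 1)) • Pi.single i 1) fun j _ => by
      have : 0 ≤ (u / f (Pi.single i 1)) * (Pi.single i (1 : ℝ) : Fin N → ℝ) j :=
        mul_nonneg (by positivity) (by rw [Pi.single_apply]; split_ifs <;> norm_num)
      simp only [Pi.smul_apply, smul_eq_mul, Set.mem_Ioi]; linarith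
    rw [map_smul, smul_eq_mul, div_mul_cancel₀ _ hc'.ne'] at this
    exact lt_irrefl _ this
  have hneg : ∀ p : Matrix X X ℂ, p.PosSemidef → (∀ x, x ∉ Y → p x x = 0) →
      ∑ i, lam i * val k l z (t i) p < 0 := fun p hp hp0 => by
    have := hf2 _ ⟨p, hp, hp0, fun i => rfl⟩
    rw [pi_eq_sum_univ' (fun i => val k l z (t i) p), map_sum] at this
    simp only [map_smul, smul_eq_mul] at this
    have e : ∑ i, lam i * val k l z (t i) p = -∑ i, val k l z (t i) p * f (Pi.single i 1) := by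
      rw [← Finset.sum_neg_distrib]
      exact Finset.sum_congr rfl fun i _ => by simp only [hlam]; ring
    linarith
  set c : X → EV N := fun x => WithLp.toLp 2 fun i => (√(lam i) : ℂ) * (t i).1 x with hc
  set w : X → EV N := fun x => WithLp.toLp 2 fun i => (√(lam i) : ℂ) * (t i).2 x with hw
  have sq : ∀ i, (√(lam i) : ℂ) * (√(lam i) : ℂ) = lam i := fun i => by
    exact_mod_cast Real.mul_self_sqrt (l0 i)
  have hsum : ∀ p : Matrix X X ℂ, ∑ i, lam i * val k l z (t i) p =
      (∑ x ∈ Y, ∑ y ∈ Y, (kz l z x y - p x y * l x y) * ⟪c x, c y⟫_ℂ).re +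
      (∑ x ∈ Y, ∑ y ∈ Y, (p x y * k x y - kz k z x y) * ⟪w x, w y⟫_ℂ).re := fun p => by
    simp only [hv, ← Complex.add_re, ← Complex.re_ofReal_mul, ← Complex.re_sum, mul_add,
      Finset.mul_sum, ← Finset.sum_add_distrib, inner_EV, hc, hw]
    congr 1
    rw [Finset.sum_comm]
    refine Finset.sum_congr rfl fun x _ => ?_
    rw [Finset.sum_comm]
    refine Finset.sum_congr rfl fun y _ => Finset.sum_congr rfl fun i _ => ?_
    simp only [map_mul, Complex.conj_ofReal, ← sq i]; ring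
  obtain ⟨H₁, _, _, _, _, h1⟩ := exists_rkhs k hk N
  obtain ⟨H₂, _, _, _, _, h2⟩ := exists_rkhs l hl N
  set τ0 := (∑ x ∈ Y, ∑ y ∈ Y, kz l z x y * ⟪c x, c y⟫_ℂ).re -
    (∑ x ∈ Y, ∑ y ∈ Y, kz k z x y * ⟪w x, w y⟫_ℂ).re with hτ0
  have hrk : ∀ (v : X → ℂ) (s : ℝ), 0 ≤ s → τ0 - s * (‖∑ x ∈ Y, kf H₂ x (v x • c x)‖ ^ 2 -
      ‖∑ x ∈ Y, kf H₁ x (v x • w x)‖ ^ 2) < 0 := fun v s hs => by
    set v' : X → ℂ := fun x => if x ∈ Y then v x else 0 with hv'
    have := hneg ((s : ℂ) • Matrix.of fun x y => conj (v' x) * v' y)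
      (PosSemidef.smul (psd_of_re _ (by ext x y; simp [mul_comm]) fun α => by
        rw [qf_eq _ _ _ le_rfl]
        have : ∑ x ∈ α.support, ∑ y ∈ α.support, conj (α x) * (Matrix.of fun x y =>
            conj (v' x) * v' y) x y * α y = conj (∑ x ∈ α.support, v' x * α x) *
            ∑ x ∈ α.support, v' x * α x := by
          rw [map_sum, Finset.sum_mul_sum]
          exact Finset.sum_congr rfl fun x _ => Finset.sum_congr rfl fun y _ => by
            simp only [of_apply, map_mul]; ring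
        rw [this, Complex.conj_mul']
        norm_cast; positivity) (by exact_mod_cast hs)) fun x hx => by simp [hv', hx]
    rw [hsum] at this
    refine lt_of_eq_of_lt ?_ this
    rw [(gram_of h1).normsq Y (fun x => x), (gram_of h2).normsq Y (fun x => x), hτ0]
    simp only [← Complex.sub_re, ← Complex.re_ofReal_mul, ← Complex.add_re,
      ← Finset.sum_sub_distrib, ← Finset.sum_add_distrib, Finset.mul_sum]
    congr 1
    refine Finset.sum_congr rfl fun x hx => Finset.sum_congr rfl fun y hy => ?_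
    simp only [inner_smul_left, inner_smul_right, Matrix.smul_apply, of_apply, hv', if_pos hx, if_pos hy,
      smul_eq_mul]
    ring
  have hτ : τ0 < 0 := by simpa using hrk 0 0 le_rfl
  have hle : ∀ v : X → ℂ, ‖∑ x ∈ Y, kf H₁ x (v x • w x)‖ ≤ ‖∑ x ∈ Y, kf H₂ x (v x • c x)‖ :=
    fun v => by
      refine (abs_le_of_sq_le_sq' ?_ (norm_nonneg _)).2
      by_contra hc
      push Not at hc
      have := hrk v (-τ0 / (‖∑ x ∈ Y, kf H₁ x (v x • w x)‖ ^ 2 -
        ‖∑ x ∈ Y, kf H₂ x (v x • c x)‖ ^ 2)) (div_nonneg (by linarith) (by linarith))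
      rw [← neg_sub (‖∑ x ∈ Y, kf H₁ x (v x • w x)‖ ^ 2), mul_neg,
        div_mul_cancel₀ _ (by linarith)] at this
      linarith
  set W : X → EV N →ₗ[ℂ] EV N := fun x =>
    ((⟪c x, c x⟫_ℂ)⁻¹ • innerₛₗ ℂ (c x)).smulRight (w x) with hW
  have hWc : ∀ x ∈ Y, kf H₁ x (W x (c x)) = kf H₁ x (w x) := fun x hx => by
    by_cases e : c x = 0
    · have := hle (Pi.single x 1)
      rw [Finset.sum_eq_single x (fun y _ hy => by simp [hy]) (fun hx' => absurd hx hx'),
        Finset.sum_eq_single x (fun y _ hy => by simp [hy]) (fun hx' => absurd hx hx')] at this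
      simp only [Pi.single_eq_same, one_smul, e, map_zero, norm_zero, norm_le_zero_iff] at this
      rw [e, this]; simp
    · have : ⟪c x, c x⟫_ℂ ≠ 0 := inner_self_ne_zero.2 e
      simp only [hW, LinearMap.smulRight_apply, LinearMap.smul_apply, innerₛₗ_apply_apply,
        smul_eq_mul, inv_mul_cancel₀ this, one_smul]
  obtain ⟨Ψ, g1, g2⟩ := ext_of_cp hk.1 hl.1 h hN h1 h2 Y (fun x => Submodule.span ℂ {c x}) W
    fun c' hc' => by
      choose v hv using fun x => Submodule.mem_span_singleton.1 (hc' x)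
      have := hle v
      simp only [← hv, map_smul] at this ⊢
      rwa [Finset.sum_congr rfl fun x hx => by rw [hWc x hx]]
  obtain ⟨u1, hu1⟩ := ((gram_of h2).compress hl Y c z).2
  have a1 := ((gram_of h1).compress hk Y w z).1 (Ψ z u1)
  have a2 := glob_add g1 Y c z u1
  rw [Finset.sum_congr rfl fun x hx => by
    rw [g2 x hx _ (Submodule.mem_span_singleton_self _), hWc x hx]] at a2
  have a3 := pow_le_pow_left₀ (norm_nonneg _) a2 2
  linarith

lemma psd_bound {p : Matrix X X ℂ} (hp : p.PosSemidef) (x y : X) :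
    ‖p x y‖ ≤ (p x x).re + (p y y).re := by
  have h := (hp.submatrix ![x, y]).det_nonneg
  have a : conj (p x y) = p y x := hp.1.apply y x
  have h1 := Complex.nonneg_iff.1 (hp.diag_nonneg (i := x))
  have h2 := Complex.nonneg_iff.1 (hp.diag_nonneg (i := y))
  rw [det_fin_two] at h
  simp only [submatrix_apply, cons_val_zero, cons_val_one, ← a, Complex.mul_conj] at h
  have h3 := (Complex.nonneg_iff.1 h).1
  simp only [Complex.sub_re, Complex.mul_re, ← h1.2, Complex.ofReal_re, zero_mul, sub_zero,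
    Complex.normSq_eq_norm_sq] at h3
  refine (abs_le_of_sq_le_sq' ?_ (by linarith [h1.1, h2.1])).2
  nlinarith [h1.1, h2.1, mul_nonneg h1.1 h2.1]

lemma kz_herm {k : Matrix X X ℂ} (hk : k.IsHermitian) (z : X) : (kz k z).IsHermitian := by
  ext x y
  have hh : ∀ x y, conj (k x y) = k y x := fun x y => hk.apply y x
  simp only [kz, conjTranspose_apply, of_apply]
  split_ifs <;> simp [hh, mul_comm]

lemma had_herm {p k : Matrix X X ℂ} (hp : p.IsHermitian) (hk : k.IsHermitian) :
    (p ⊙ k).IsHermitian := by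
  ext x y
  have h1 : conj (p y x) = p x y := hp.apply x y
  have h2 : conj (k y x) = k x y := hk.apply x y
  simp [h1, h2]

theorem positive {k l : Matrix X X ℂ} (hk : k.PosSemidef) (hl : l.PosSemidef)
    (h0 : ∀ x, l x x ≠ 0) (h : IsCP k l) : HasCert k l := by
  classical
  suffices ∀ z, ∃ p : Matrix X X ℂ, p.PosSemidef ∧ (kz l z - p ⊙ l).PosSemidef ∧
      (p ⊙ k - kz k z).PosSemidef by
    choose p hp using this
    exact ⟨p, hp⟩
  intro z
  have hd : ∀ x, 0 < (l x x).re ∧ (l x x).im = 0 := fun x => by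
    have := Complex.nonneg_iff.1 (hl.diag_nonneg (i := x))
    exact ⟨lt_of_le_of_ne this.1 fun e => h0 x (Complex.ext e.symm this.2.symm), this.2.symm⟩
  set r : X → ℝ := fun x => |((kz l z x x).re + 1) / (l x x).re| with hr
  have qc : ∀ (F : Matrix X X ℂ → Matrix X X ℂ) (α : X →₀ ℂ), (∀ x y, Continuous fun p => F p x y) →
      Continuous fun p => qf (F p) α := fun F α hF => by
    simp only [qf_eq _ α _ le_rfl]; fun_prop
  have ec : ∀ x y, Continuous fun p : Matrix X X ℂ => p x y := fun x y => by fun_prop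
  have hK : IsCompact {p : Matrix X X ℂ | ∀ x y, ‖p x y‖ ≤ r x + r y} := by
    have := isCompact_univ_pi fun x => isCompact_univ_pi fun y =>
      isCompact_closedBall (0 : ℂ) (r x + r y)
    have e : {p : X → X → ℂ | ∀ x y, ‖p x y‖ ≤ r x + r y} =
        Set.univ.pi fun x => Set.univ.pi fun y => Metric.closedBall (0 : ℂ) (r x + r y) := by
      ext p; simp
    rw [← e] at this
    exact this
  have hP : IsClosed {p : Matrix X X ℂ | p.PosSemidef} := by
    have : {p : Matrix X X ℂ | p.PosSemidef} =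
        {p : Matrix X X ℂ | pᴴ = p} ∩ ⋂ α, {p | 0 ≤ qf p α} := by
      ext p; simp only [Set.mem_inter_iff, Set.mem_iInter]; rfl
    rw [this]
    exact (isClosed_eq (by fun_prop) continuous_id).inter
      (isClosed_iInter fun α => isClosed_le continuous_const (qc _ α ec))
  have vc : ∀ t, Continuous (val k l z t) := fun t =>
    (Complex.continuous_re.comp (qc (fun p => kz l z - p ⊙ l) _ fun x y =>
      continuous_const.sub ((ec x y).mul continuous_const))).add
    (Complex.continuous_re.comp (qc (fun p => p ⊙ k - kz k z) _ fun x y =>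
      ((ec x y).mul continuous_const).sub continuous_const))
  obtain ⟨p, ⟨-, hp⟩, hp2⟩ := (hK.inter_right hP).inter_iInter_nonempty
    (fun i : ((X →₀ ℂ) × (X →₀ ℂ)) × ℕ => {p | -(1 / ((i.2 : ℝ) + 1)) ≤ val k l z i.1 p})
    (fun i => isClosed_le continuous_const (vc _)) fun u => by
      set Y : Finset X := u.biUnion fun i => i.1.1.support ∪ i.1.2.support with hY
      set T : Finset ((X →₀ ℂ) × (X →₀ ℂ)) := insert 0 (u.image Prod.fst ∪
        Y.image fun x => (Finsupp.single x 1, 0)) with hT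
      set m : ℕ := u.sup Prod.snd with hm
      obtain ⟨p, a1, a2, a3⟩ := finite_dual hk hl h z T.card
        (Finset.card_pos.2 (Finset.insert_nonempty _ _)) (fun i => T.equivFin.symm i) Y (fun i => by
          have := (T.equivFin.symm i).2
          generalize (T.equivFin.symm i).1 = s at this
          simp only [hT, Finset.mem_insert, Finset.mem_union, Finset.mem_image] at this
          rcases this with rfl | ⟨j, hj, rfl⟩ | ⟨x, hx, rfl⟩
          · simp
          · have := Finset.subset_biUnion_of_mem (fun i => i.1.1.support ∪ i.1.2.support) hj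
            exact Finset.union_subset_iff.1 this
          · simpa using hx) (1 / ((m : ℝ) + 1)) (by positivity)
      have a4 : ∀ s ∈ T, -(1 / ((m : ℝ) + 1)) < val k l z s p := fun s hs => by
        simpa using a3 (T.equivFin ⟨s, hs⟩)
      have a5 : ∀ x, (p x x).re ≤ r x := fun x => by
        by_cases hx : x ∈ Y
        · have b1 := a4 (Finsupp.single x 1, 0) (by
            simp only [hT, Finset.mem_insert, Finset.mem_union, Finset.mem_image]
            exact Or.inr (Or.inr ⟨x, hx, rfl⟩))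
          have b2 : 1 / ((m : ℝ) + 1) ≤ 1 := by
            rw [div_le_one (by positivity)]; linarith [Nat.cast_nonneg (α := ℝ) m]
          simp only [val, qf] at b1
          simp [(hd x).2] at b1
          refine le_trans ?_ (le_abs_self _)
          rw [le_div_iff₀ (hd x).1]
          rw [one_div] at b2
          linarith
        · rw [a2 x hx]; exact abs_nonneg _
      refine ⟨p, ⟨fun x y => (psd_bound a1 x y).trans (add_le_add (a5 x) (a5 y)), a1⟩, ?_⟩
      simp only [Set.mem_iInter, Set.mem_setOf_eq]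
      intro i hi
      refine le_trans (neg_le_neg (one_div_le_one_div_of_le (by positivity) ?_)) (a4 i.1 ?_).le
      · have : i.2 ≤ m := Finset.le_sup (f := Prod.snd) hi
        exact_mod_cast Nat.succ_le_succ this
      · simp only [hT, Finset.mem_insert, Finset.mem_union, Finset.mem_image]
        exact Or.inr (Or.inl ⟨i, hi, rfl⟩)
  have hv : ∀ t, 0 ≤ val k l z t p := fun t => by
    have := tendsto_one_div_add_atTop_nhds_zero_nat (𝕜 := ℝ).neg
    rw [neg_zero] at this
    exact le_of_tendsto' this fun n => Set.mem_iInter.1 hp2 (t, n)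
  refine ⟨p, hp, psd_of_re _ ((kz_herm hl.1 z).sub (had_herm hp.1 hl.1)) fun α => ?_,
    psd_of_re _ ((had_herm hp.1 hk.1).sub (kz_herm hk.1 z)) fun α => ?_⟩
  · simpa [val, qf] using hv (α, 0)
  · simpa [val, qf] using hv (0, α)

noncomputable def k0 : Matrix (Fin 3) (Fin 3) ℂ := !![1, 1 / 2, 1 / 2; 1 / 2, 1, 0; 1 / 2, 0, 1]

noncomputable def l0 : Matrix (Fin 3) (Fin 3) ℂ := !![1, 1 / 2, 0; 1 / 2, 1, 0; 0, 0, 0]

lemma k0_psd : k0.PosSemidef := by
  refine psd_of_re _ (by ext i j; fin_cases i <;> fin_cases j <;> simp [k0]) fun α => ?_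
  rw [qf_eq _ _ _ (Finset.subset_univ _)]
  simp [Fin.sum_univ_three, k0]
  nlinarith [sq_nonneg ((α 0).re + (α 1).re + (α 2).re), sq_nonneg ((α 0).im + (α 1).im + (α 2).im),
    sq_nonneg ((α 1).re - (α 2).re), sq_nonneg ((α 1).im - (α 2).im), sq_nonneg (α 0).re,
    sq_nonneg (α 0).im]

lemma l0_psd : l0.PosSemidef := by
  refine psd_of_re _ (by ext i j; fin_cases i <;> fin_cases j <;> simp [l0]) fun α => ?_
  rw [qf_eq _ _ _ (Finset.subset_univ _)]
  simp [Fin.sum_univ_three, l0]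
  nlinarith [sq_nonneg ((α 0).re + (α 1).re), sq_nonneg ((α 0).im + (α 1).im), sq_nonneg (α 0).re,
    sq_nonneg (α 0).im, sq_nonneg (α 1).re, sq_nonneg (α 1).im]

lemma no_cert : ¬ HasCert k0 l0 := by
  rintro ⟨p, hp⟩
  obtain ⟨-, h1, h2⟩ := hp 0
  have a := h1.diag_nonneg (i := 1)
  have b := h2.diag_nonneg (i := 1)
  have e : (p 0 ⊙ k0 - kz k0 0) 1 1 = 0 := by
    refine le_antisymm ?_ b
    have : (p 0 ⊙ k0 - kz k0 0) 1 1 = -(kz l0 0 - p 0 ⊙ l0) 1 1 := by simp [kz, k0, l0]
    rw [this]; exact neg_nonpos.2 a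
  have h := (h2.submatrix ![1, 2]).det_nonneg
  rw [det_fin_two] at h
  simp only [submatrix_apply, cons_val_zero, cons_val_one, e] at h
  have := (Complex.nonneg_iff.1 h).1
  simp [kz, k0] at this
  norm_num at this

lemma is_cp : IsCP k0 l0 := by
  intro n N _ _ H₁ H₂ _ _ _ _ _ _ _ _ h1 h2 z W hP
  classical
  have g1 := gram_of h1
  have g2 := gram_of h2
  rw [pick_iff g1 g2 k0_psd.1 l0_psd.1] at hP
  set A : Fin n → EV N →ₗ[ℂ] EV N := fun i => toEuclideanLin (W i)ᴴ with hA
  have two : ∀ i j u v, ‖kf H₁ (z i) (A i u) + kf H₁ (z j) (A j v)‖ ≤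
      ‖kf H₂ (z i) u + kf H₂ (z j) v‖ := fun i j u v => by
    have := hP (Pi.single i u + Pi.single j v)
    simp only [Pi.add_apply, map_add, Finset.sum_add_distrib, Pi.single_apply, apply_ite (kf _ _),
      apply_ite (toEuclideanLin _), map_zero, Finset.sum_ite_eq', Finset.mem_univ, if_true] at this
    exact this
  have n1 : ∀ x (u : EV N), ‖kf H₁ x u‖ = ‖u‖ := fun x u => by
    have := g1.normsq {()} (fun _ => x) fun _ => u
    have e : k0 x x = 1 := by fin_cases x <;> simp [k0]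
    simp only [Finset.sum_singleton, e, one_mul] at this
    rw [← sq_eq_sq₀ (norm_nonneg _) (norm_nonneg _), this]
    exact inner_self_eq_norm_sq (𝕜 := ℂ) u
  have n2 : ∀ u : EV N, kf H₂ (2 : Fin 3) u = 0 := fun u => by
    have := g2.normsq {()} (fun _ => 2) fun _ => u
    simpa [l0] using this
  have n3 : ∀ x (u : EV N), ‖kf H₂ x u‖ ≤ ‖u‖ := fun x u => by
    have := g2.normsq {()} (fun _ => x) fun _ => u
    simp only [Finset.sum_singleton] at this
    refine (abs_le_of_sq_le_sq' ?_ (norm_nonneg _)).2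
    rw [this]
    have e := inner_self_eq_norm_sq (𝕜 := ℂ) u
    fin_cases x <;> simp [l0] at e ⊢ <;> rw [e]
  have inj : ∀ M M' : Matrix (Fin N) (Fin N) ℂ,
      (∀ u, toEuclideanLin Mᴴ u = toEuclideanLin M'ᴴ u) → M = M' := fun M M' h =>
    conjTranspose_injective (toEuclideanLin.injective (LinearMap.ext h))
  have same : ∀ i j, z i = z j → W i = W j := fun i j e => inj _ _ fun u => by
    have := two i j u (-u)
    rw [← e, ← map_add, ← map_add, n1] at this
    simpa [hA, ← sub_eq_add_neg, sub_eq_zero] using this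
  have zero : ∀ i, z i = 2 → W i = 0 := fun i e => inj _ _ fun u => by
    have := two i i u 0
    rw [e] at this
    simpa [n1, n2, hA] using this
  have con : ∀ i u, ‖A i u‖ ≤ ‖u‖ := fun i u => by
    have := two i i u 0
    simp only [map_zero, add_zero, n1] at this
    exact this.trans (n3 _ _)
  have f1 : ∀ u v : EV N, 2 * ‖kf H₁ (0 : Fin 3) u + kf H₁ (1 : Fin 3) v‖ ^ 2 =
      ‖u‖ ^ 2 + ‖v‖ ^ 2 + ‖u + v‖ ^ 2 := fun u v => by
    rw [@norm_add_sq ℂ, @norm_add_sq ℂ, n1, n1, g1]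
    simp [k0]; ring
  have f2 : ∀ u v : EV N, 2 * ‖kf H₂ (0 : Fin 3) u + kf H₂ (1 : Fin 3) v‖ ^ 2 =
      ‖u‖ ^ 2 + ‖v‖ ^ 2 + ‖u + v‖ ^ 2 := fun u v => by
    rw [← f1, ← inner_self_eq_norm_sq (𝕜 := ℂ), ← inner_self_eq_norm_sq (𝕜 := ℂ)]
    simp only [inner_add_left, inner_add_right, g1 _ _, g2 _ _]
    simp [k0, l0]
  have fin : ∀ M0 M1 : Matrix (Fin N) (Fin N) ℂ, (∀ u v, ‖kf H₁ (0 : Fin 3) (toEuclideanLin M0ᴴ u) +
      kf H₁ (1 : Fin 3) (toEuclideanLin M1ᴴ v)‖ ≤ ‖kf H₂ (0 : Fin 3) u + kf H₂ (1 : Fin 3) v‖) →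
      (∀ i, z i = 0 → W i = M0) → (∀ i, z i = 1 → W i = M1) →
      ∃ Φ : Fin 3 → Matrix (Fin N) (Fin N) ℂ, ContrMult H₁ H₂ Φ ∧ ∀ i, Φ (z i) = W i :=
    fun M0 M1 h e0 e1 => by
      refine ⟨![M0, M1, 0], (mult_iff _).2 fun Y c _ => ?_, fun i => ?_⟩
      · have := h (if 0 ∈ Y then c 0 else 0) (if 1 ∈ Y then c 1 else 0)
        rw [← Finset.univ_inter Y, ← Finset.sum_ite_mem, ← Finset.sum_ite_mem]
        simp only [Fin.sum_univ_three, n2]
        simpa [apply_ite (kf _ _), apply_ite (toEuclideanLin _)] using this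
      · have : ∀ x : Fin 3, x = 0 ∨ x = 1 ∨ x = 2 := by decide
        rcases this (z i) with e | e | e
        · rw [e, e0 i e]; rfl
        · rw [e, e1 i e]; rfl
        · rw [e, zero i e]; rfl
  have eq : ∀ i u v, ‖kf H₁ (0 : Fin 3) (A i u) + kf H₁ (1 : Fin 3) (A i v)‖ ≤
      ‖kf H₂ (0 : Fin 3) u + kf H₂ (1 : Fin 3) v‖ := fun i u v => by
    refine (abs_le_of_sq_le_sq' ?_ (norm_nonneg _)).2
    have a := f1 (A i u) (A i v)
    rw [← map_add] at a
    linarith [f2 u v, pow_le_pow_left₀ (norm_nonneg _) (con i u) 2,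
      pow_le_pow_left₀ (norm_nonneg _) (con i v) 2, pow_le_pow_left₀ (norm_nonneg _) (con i (u + v)) 2]
  by_cases c0 : ∃ i, z i = 0 <;> by_cases c1 : ∃ j, z j = 1
  · obtain ⟨i, hi⟩ := c0
    obtain ⟨j, hj⟩ := c1
    exact fin (W i) (W j) (fun u v => by simpa only [hi, hj] using two i j u v)
      (fun a ha => same a i (ha.trans hi.symm)) fun a ha => same a j (ha.trans hj.symm)
  · obtain ⟨i, hi⟩ := c0
    exact fin (W i) (W i) (eq i) (fun a ha => same a i (ha.trans hi.symm))
      fun a ha => absurd ⟨a, ha⟩ c1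
  · obtain ⟨j, hj⟩ := c1
    exact fin (W j) (W j) (eq j) (fun a ha => absurd ⟨a, ha⟩ c0)
      fun a ha => same a j (ha.trans hj.symm)
  · exact fin 0 0 (fun u v => by simp) (fun a ha => absurd ⟨a, ha⟩ c0) fun a ha => absurd ⟨a, ha⟩ c1

end Pool.Agent.H1.Sh
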