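import Mathlib

set_option autoImplicit false
open MeasureTheory Set Filter Topology

namespace Pool.Agent.H1.Sharp

theorem local_bound (k : ℕ) (u u' : ℝ → ℝ) (hu : ∀ x, HasDerivAt u (u' x) x) (hc : Continuous u')
    (a b y z D : ℝ) (h0 : 0 ≤ a) (hay : a ≤ y) (hyz : y ≤ z) (hzb : z ≤ b) (hD : z - y ≤ D)
    (hD0 : 0 < D) :
    y ^ k * (u y - u z) ^ 2 ≤ D * ∫ v in a..b, v ^ k * u' v ^ 2 := by
  have hy0 : 0 ≤ y := le_trans h0 hay
  have hg : Continuous fun v : ℝ => v ^ k * u' v ^ 2 := by fun_prop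
  have hΔ : ∫ v in y..z, u' v = u z - u y :=
    intervalIntegral.integral_eq_sub_of_hasDerivAt (fun x _ => hu x) (hc.intervalIntegrable _ _)
  set Δ := u z - u y with hΔdef
  have h1 : ∫ v in y..z, y ^ k * Δ * u' v ≤
      ∫ v in y..z, (y ^ k * Δ ^ 2 / (2 * D) + D / 2 * (v ^ k * u' v ^ 2)) := by
    apply intervalIntegral.integral_mono_on hyz
    · exact (by fun_prop : Continuous fun v => y ^ k * Δ * u' v).intervalIntegrable _ _
    · exact (by fun_prop : Continuous fun v : ℝ =>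
        y ^ k * Δ ^ 2 / (2 * D) + D / 2 * (v ^ k * u' v ^ 2)).intervalIntegrable _ _
    · intro v hv
      have hyk : 0 ≤ y ^ k := pow_nonneg hy0 k
      have hvk : y ^ k ≤ v ^ k := pow_le_pow_left₀ hy0 hv.1 k
      have h2 : Δ * u' v ≤ Δ ^ 2 / (2 * D) + D / 2 * u' v ^ 2 := by
        have : Δ ^ 2 / (2 * D) + D / 2 * u' v ^ 2 - Δ * u' v = (Δ - D * u' v) ^ 2 / (2 * D) := by
          field_simp; ring
        have h3 : 0 ≤ (Δ - D * u' v) ^ 2 / (2 * D) := by positivity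
        linarith
      have h4 := mul_le_mul_of_nonneg_left h2 hyk
      have h5 : D / 2 * (y ^ k * u' v ^ 2) ≤ D / 2 * (v ^ k * u' v ^ 2) := by
        apply mul_le_mul_of_nonneg_left _ (by positivity)
        exact mul_le_mul_of_nonneg_right hvk (by positivity)
      calc y ^ k * Δ * u' v = y ^ k * (Δ * u' v) := by ring
        _ ≤ y ^ k * (Δ ^ 2 / (2 * D) + D / 2 * u' v ^ 2) := h4
        _ = y ^ k * Δ ^ 2 / (2 * D) + D / 2 * (y ^ k * u' v ^ 2) := by ring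
        _ ≤ _ := by linarith
  rw [intervalIntegral.integral_const_mul, hΔ, intervalIntegral.integral_add
    (continuous_const.intervalIntegrable _ _)
    ((by fun_prop : Continuous fun v : ℝ => D / 2 * (v ^ k * u' v ^ 2)).intervalIntegrable _ _),
    intervalIntegral.integral_const, intervalIntegral.integral_const_mul] at h1
  have h6 : ∫ v in y..z, v ^ k * u' v ^ 2 ≤ ∫ v in a..b, v ^ k * u' v ^ 2 := by
    apply intervalIntegral.integral_mono_interval hay hyz hzb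
    · filter_upwards [ae_restrict_mem measurableSet_Ioc] with v hv
      have : 0 ≤ v := le_trans h0 hv.1.le
      positivity
    · exact hg.intervalIntegrable _ _
  have h7 : (z - y) • (y ^ k * Δ ^ 2 / (2 * D)) ≤ y ^ k * Δ ^ 2 / 2 := by
    rw [smul_eq_mul]
    have hp : 0 ≤ y ^ k * Δ ^ 2 / (2 * D) := by positivity
    calc (z - y) * (y ^ k * Δ ^ 2 / (2 * D)) ≤ D * (y ^ k * Δ ^ 2 / (2 * D)) :=
          mul_le_mul_of_nonneg_right hD hp
      _ = y ^ k * Δ ^ 2 / 2 := by field_simp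
  have h8 : (u y - u z) ^ 2 = Δ ^ 2 := by rw [hΔdef]; ring
  rw [h8]
  have h9 : D / 2 * ∫ v in y..z, v ^ k * u' v ^ 2 ≤ D / 2 * ∫ v in a..b, v ^ k * u' v ^ 2 :=
    mul_le_mul_of_nonneg_left h6 (by positivity)
  nlinarith

theorem avg_bound (k : ℕ) (u u' : ℝ → ℝ) (hu : ∀ x, HasDerivAt u (u' x) x) (hc : Continuous u')
    (B : Finset ℕ) (hB : B.Nonempty) (p : ℕ → ℝ) (j : ℕ)
    (hp : ∀ n ∈ B, ((j : ℝ) + 2) / 6 ≤ p n ∧ p n ≤ ((j : ℝ) + 3) / 6)
    (y : ℝ) (hy1 : (j : ℝ) / 6 ≤ y) (hy2 : y ≤ ((j : ℝ) + 1) / 6) :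
    y ^ k * (u y - (∑ n ∈ B, u (p n)) / B.card) ^ 2 ≤
      1 / 2 * ∫ v in ((j : ℝ) / 6)..(((j : ℝ) + 3) / 6), v ^ k * u' v ^ 2 := by
  set G := ∫ v in ((j : ℝ) / 6)..(((j : ℝ) + 3) / 6), v ^ k * u' v ^ 2
  have hcard : (0 : ℝ) < B.card := by exact_mod_cast hB.card_pos
  have hy0 : 0 ≤ y := le_trans (by positivity) hy1
  have h1 : ∀ n ∈ B, y ^ k * (u y - u (p n)) ^ 2 ≤ 1 / 2 * G := by
    intro n hn
    obtain ⟨h2, h3⟩ := hp n hn
    exact local_bound k u u' hu hc _ _ y (p n) (1 / 2) (by positivity) hy1 (by linarith) h3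
      (by linarith) (by norm_num)
  have h2 : (∑ n ∈ B, (u y - u (p n))) ^ 2 ≤ B.card * ∑ n ∈ B, (u y - u (p n)) ^ 2 :=
    sq_sum_le_card_mul_sum_sq
  have h3 : u y - (∑ n ∈ B, u (p n)) / B.card = (∑ n ∈ B, (u y - u (p n))) / B.card := by
    rw [Finset.sum_sub_distrib, Finset.sum_const, nsmul_eq_mul]
    field_simp
  have h4 : y ^ k * ∑ n ∈ B, (u y - u (p n)) ^ 2 ≤ B.card * (1 / 2 * G) := by
    rw [Finset.mul_sum]
    calc ∑ n ∈ B, y ^ k * (u y - u (p n)) ^ 2 ≤ ∑ n ∈ B, 1 / 2 * G := Finset.sum_le_sum h1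
      _ = B.card * (1 / 2 * G) := by rw [Finset.sum_const, nsmul_eq_mul]
  rw [h3, div_pow, ← mul_div_assoc, div_le_iff₀ (by positivity)]
  have hyk : 0 ≤ y ^ k := pow_nonneg hy0 k
  calc y ^ k * (∑ n ∈ B, (u y - u (p n))) ^ 2
      ≤ y ^ k * (B.card * ∑ n ∈ B, (u y - u (p n)) ^ 2) := mul_le_mul_of_nonneg_left h2 hyk
    _ = B.card * (y ^ k * ∑ n ∈ B, (u y - u (p n)) ^ 2) := by ring
    _ ≤ B.card * (B.card * (1 / 2 * G)) := mul_le_mul_of_nonneg_left h4 hcard.le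
    _ = _ := by ring

theorem sampling (k : ℕ) (u u' : ℝ → ℝ) (hu : ∀ x, HasDerivAt u (u' x) x) (hc : Continuous u')
    (hI : IntegrableOn (fun v : ℝ => v ^ k * u v ^ 2) (Ioi 0))
    (hI' : IntegrableOn (fun v : ℝ => v ^ k * u' v ^ 2) (Ioi 0))
    (hE : ∫ v in Ioi (0 : ℝ), v ^ k * u' v ^ 2 = ∫ v in Ioi (0 : ℝ), v ^ k * u v ^ 2)
    (B : ℕ → Finset ℕ) (p : ℕ → ℝ) (hB : ∀ j, (B (j + 2)).Nonempty)
    (hp : ∀ j : ℕ, ∀ n ∈ B (j + 2), ((j : ℝ) + 2) / 6 ≤ p n ∧ p n ≤ ((j : ℝ) + 3) / 6)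
    (S : ℝ) (hS : ∀ N, ∑ j ∈ Finset.range N,
      (((j : ℝ) + 2) / 6) ^ k * ((∑ n ∈ B (j + 2), u (p n)) / (B (j + 2)).card) ^ 2 ≤ S) :
    (1 / 6 : ℝ) ^ k * u (1 / 6) ^ 2 ≤ 3 * S := by
  have huc : Continuous u := continuous_iff_continuousAt.mpr fun x => (hu x).continuousAt
  have hg : Continuous fun v : ℝ => v ^ k * u' v ^ 2 := by fun_prop
  have hf : Continuous fun v : ℝ => v ^ k * u v ^ 2 := by fun_prop
  set E := ∫ v in Ioi (0 : ℝ), v ^ k * u v ^ 2 with hEdef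
  set A : ℕ → ℝ := fun j => (∑ n ∈ B (j + 2), u (p n)) / (B (j + 2)).card with hA
  set R : ℝ → ℝ := fun x => ∫ v in (0 : ℝ)..x, v ^ k * u' v ^ 2 with hR
  set P : ℝ → ℝ := fun x => ∫ v in (0 : ℝ)..x, v ^ k * u v ^ 2 with hP
  have hRle : ∀ x, 0 ≤ x → R x ≤ E := by
    intro x hx
    rw [← hE, hR]
    simp only
    rw [intervalIntegral.integral_of_le hx]
    apply setIntegral_mono_set hI'
    · filter_upwards [ae_restrict_mem measurableSet_Ioi] with v hv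
      have : 0 ≤ v := le_of_lt hv
      positivity
    · exact (Ioc_subset_Ioi_self).eventuallyLE
  have hR0 : ∀ x, 0 ≤ x → 0 ≤ R x := by
    intro x hx
    apply intervalIntegral.integral_nonneg hx
    intro v hv
    have := hv.1
    positivity
  have hG : ∀ a b : ℝ, ∫ v in a..b, v ^ k * u' v ^ 2 = R b - R a := by
    intro a b
    rw [hR]
    simp only
    rw [intervalIntegral.integral_interval_sub_left (hg.intervalIntegrable _ _)
      (hg.intervalIntegrable _ _)]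
  have hstep : ∀ j : ℕ, P (((j : ℝ) + 1) / 6) - P ((j : ℝ) / 6) ≤
      1 / 3 * ((((j : ℝ) + 2) / 6) ^ k * A j ^ 2) +
        1 / 6 * (R (((j : ℝ) + 3) / 6) - R ((j : ℝ) / 6)) := by
    intro j
    rw [hP]
    simp only
    rw [intervalIntegral.integral_interval_sub_left (hf.intervalIntegrable _ _)
      (hf.intervalIntegrable _ _)]
    have h1 : ∫ v in ((j : ℝ) / 6)..(((j : ℝ) + 1) / 6), v ^ k * u v ^ 2 ≤
        ∫ v in ((j : ℝ) / 6)..(((j : ℝ) + 1) / 6),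
          (2 * ((((j : ℝ) + 2) / 6) ^ k * A j ^ 2) +
            (R (((j : ℝ) + 3) / 6) - R ((j : ℝ) / 6))) := by
      apply intervalIntegral.integral_mono_on (by linarith) (hf.intervalIntegrable _ _)
        (continuous_const.intervalIntegrable _ _)
      intro y hy
      have h2 := avg_bound k u u' hu hc (B (j + 2)) (hB j) p j (hp j) y hy.1 hy.2
      rw [hG] at h2
      have hy0 : 0 ≤ y := le_trans (by positivity) hy.1
      have h3 : y ^ k ≤ (((j : ℝ) + 2) / 6) ^ k :=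
        pow_le_pow_left₀ hy0 (by linarith [hy.2]) k
      have h4 : y ^ k * A j ^ 2 ≤ (((j : ℝ) + 2) / 6) ^ k * A j ^ 2 :=
        mul_le_mul_of_nonneg_right h3 (by positivity)
      have h5 : u y ^ 2 ≤ 2 * A j ^ 2 + 2 * (u y - A j) ^ 2 := by
        nlinarith [sq_nonneg (u y - 2 * A j)]
      have h6 := mul_le_mul_of_nonneg_left h5 (pow_nonneg hy0 k)
      change y ^ k * (u y - A j) ^ 2 ≤ _ at h2
      nlinarith
    rw [intervalIntegral.integral_const, smul_eq_mul] at h1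
    linarith
  have hind : ∀ N : ℕ, P ((N : ℝ) / 6) ≤
      1 / 3 * (∑ j ∈ Finset.range N, (((j : ℝ) + 2) / 6) ^ k * A j ^ 2) +
        1 / 6 * (R ((N : ℝ) / 6) + R (((N : ℝ) + 1) / 6) + R (((N : ℝ) + 2) / 6)) := by
    intro N
    induction N with
    | zero =>
      have h1 := hR0 (((0 : ℕ) : ℝ) / 6) (by positivity)
      have h2 := hR0 ((((0 : ℕ) : ℝ) + 1) / 6) (by positivity)
      have h3 := hR0 ((((0 : ℕ) : ℝ) + 2) / 6) (by positivity)
      have h4 : P (((0 : ℕ) : ℝ) / 6) = 0 := by simp [hP]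
      rw [h4, Finset.sum_range_zero]
      linarith
    | succ N ih =>
      rw [Finset.sum_range_succ]
      have h1 := hstep N
      push_cast
      have e1 : ((N : ℝ) + 1 + 1) / 6 = ((N : ℝ) + 2) / 6 := by ring
      have e2 : ((N : ℝ) + 1 + 2) / 6 = ((N : ℝ) + 3) / 6 := by ring
      rw [e1, e2]
      linarith
  have hlim : Tendsto (fun N : ℕ => P ((N : ℝ) / 6)) atTop (𝓝 E) := by
    apply intervalIntegral_tendsto_integral_Ioi 0 hI
    exact tendsto_natCast_atTop_atTop.atTop_div_const (by norm_num)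
  have hEle : E ≤ 1 / 3 * S + 1 / 2 * E := by
    apply le_of_tendsto' hlim
    intro N
    have h1 := hind N
    have h2 := hS N
    have h3 := hRle ((N : ℝ) / 6) (by positivity)
    have h4 := hRle (((N : ℝ) + 1) / 6) (by positivity)
    have h5 := hRle (((N : ℝ) + 2) / 6) (by positivity)
    linarith
  have h0 := avg_bound k u u' hu hc (B (0 + 2)) (hB 0) p 0 (hp 0) (1 / 6) (by norm_num)
    (by norm_num)
  rw [hG] at h0
  change (1 / 6 : ℝ) ^ k * (u (1 / 6) - A 0) ^ 2 ≤ _ at h0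
  have h1 := hRle ((((0 : ℕ) : ℝ) + 3) / 6) (by positivity)
  have h2 := hR0 (((0 : ℕ) : ℝ) / 6) (by positivity)
  have h3 := hS 1
  rw [Finset.sum_range_one] at h3
  change (((((0 : ℕ) : ℝ)) + 2) / 6) ^ k * A 0 ^ 2 ≤ S at h3
  have h4 : (1 / 6 : ℝ) ^ k ≤ (((((0 : ℕ) : ℝ)) + 2) / 6) ^ k :=
    pow_le_pow_left₀ (by norm_num) (by norm_num) k
  have h5 : (1 / 6 : ℝ) ^ k * A 0 ^ 2 ≤ S :=
    le_trans (mul_le_mul_of_nonneg_right h4 (by positivity)) h3
  have h6 : u (1 / 6) ^ 2 ≤ 2 * A 0 ^ 2 + 2 * (u (1 / 6) - A 0) ^ 2 := by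
    nlinarith [sq_nonneg (u (1 / 6) - 2 * A 0)]
  have h7 := mul_le_mul_of_nonneg_left h6 (show (0 : ℝ) ≤ (1 / 6) ^ k by positivity)
  have h8 : 0 ≤ S := le_trans (by positivity) h5
  nlinarith

theorem exp_int (k : ℕ) (a : ℝ) (ha : 0 < a) :
    IntegrableOn (fun v : ℝ => v ^ k * Real.exp (-(a * v))) (Ioi 0) ∧
    ∫ v in Ioi (0 : ℝ), v ^ k * Real.exp (-(a * v)) = k.factorial / a ^ (k + 1) := by
  constructor
  · have h := integrableOn_rpow_mul_exp_neg_mul_rpow (p := 1) (s := k) (b := a)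
      (by have : (0 : ℝ) ≤ k := Nat.cast_nonneg k; linarith) one_pos ha
    refine h.congr_fun ?_ measurableSet_Ioi
    intro x _
    simp
  · have h := Real.integral_rpow_mul_exp_neg_mul_Ioi (a := (k : ℝ) + 1) (r := a)
      (by positivity) ha
    rw [Real.Gamma_nat_eq_factorial, add_sub_cancel_right] at h
    simp only [Real.rpow_natCast] at h
    rw [h, ← Nat.cast_succ, Real.rpow_natCast]
    rw [one_div, inv_pow]
    field_simp

theorem pair_int (k : ℕ) (p a q b p' a' q' b' : ℝ) (ha : 0 < a) (hb : 0 < b) (ha' : 0 < a')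
    (hb' : 0 < b') :
    IntegrableOn (fun v : ℝ => v ^ k * ((p * Real.exp (-(a * v)) + q * Real.exp (-(b * v))) *
      (p' * Real.exp (-(a' * v)) + q' * Real.exp (-(b' * v))))) (Ioi 0) ∧
    ∫ v in Ioi (0 : ℝ), v ^ k * ((p * Real.exp (-(a * v)) + q * Real.exp (-(b * v))) *
      (p' * Real.exp (-(a' * v)) + q' * Real.exp (-(b' * v)))) =
      k.factorial * (p * p' / (a + a') ^ (k + 1) + p * q' / (a + b') ^ (k + 1) +
        q * p' / (b + a') ^ (k + 1) + q * q' / (b + b') ^ (k + 1)) := by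
  have e : (fun v : ℝ => v ^ k * ((p * Real.exp (-(a * v)) + q * Real.exp (-(b * v))) *
      (p' * Real.exp (-(a' * v)) + q' * Real.exp (-(b' * v))))) =
      fun v : ℝ => p * p' * (v ^ k * Real.exp (-((a + a') * v))) +
        p * q' * (v ^ k * Real.exp (-((a + b') * v))) +
        q * p' * (v ^ k * Real.exp (-((b + a') * v))) +
        q * q' * (v ^ k * Real.exp (-((b + b') * v))) := by
    funext v
    simp only [add_mul, neg_add, Real.exp_add]
    ring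
  obtain ⟨i1, j1⟩ := exp_int k (a + a') (by positivity)
  obtain ⟨i2, j2⟩ := exp_int k (a + b') (by positivity)
  obtain ⟨i3, j3⟩ := exp_int k (b + a') (by positivity)
  obtain ⟨i4, j4⟩ := exp_int k (b + b') (by positivity)
  have k1 := i1.const_mul (p * p')
  have k2 := i2.const_mul (p * q')
  have k3 := i3.const_mul (q * p')
  have k4 := i4.const_mul (q * q')
  rw [e]
  refine ⟨((k1.add k2).add k3).add k4, ?_⟩
  have m1 := integral_add ((k1.add k2).add k3) k4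
  have m2 := integral_add (k1.add k2) k3
  have m3 := integral_add k1 k2
  simp only [Pi.add_apply] at m1 m2 m3
  rw [m1, m2, m3]
  simp only [integral_const_mul, j1, j2, j3, j4]
  ring

/-- The test functions. -/
noncomputable def ut (k : ℕ) (t : ℝ) (v : ℝ) : ℝ :=
  1 * Real.exp (-(t * v)) + (-(t⁻¹ ^ k)) * Real.exp (-(t⁻¹ * v))

/-- Their derivatives. -/
noncomputable def ut' (k : ℕ) (t : ℝ) (v : ℝ) : ℝ :=
  (-t) * Real.exp (-(t * v)) + (t⁻¹ ^ (k + 1)) * Real.exp (-(t⁻¹ * v))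

theorem ut_deriv (k : ℕ) (t v : ℝ) : HasDerivAt (ut k t) (ut' k t v) v := by
  have h1 : ∀ a : ℝ, HasDerivAt (fun v : ℝ => Real.exp (-(a * v))) (Real.exp (-(a * v)) * (-a)) v := by
    intro a
    have := ((hasDerivAt_id v).const_mul a).neg.exp
    simpa using this
  have h := ((h1 t).const_mul 1).add ((h1 t⁻¹).const_mul (-(t⁻¹ ^ k)))
  have e : ut' k t v = 1 * (Real.exp (-(t * v)) * -t) +
      -t⁻¹ ^ k * (Real.exp (-(t⁻¹ * v)) * -t⁻¹) := by
    unfold ut'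
    ring
  rw [e]
  exact h

theorem ut_pair (k : ℕ) (s t : ℝ) (hs : 0 < s) (ht : 0 < t) :
    IntegrableOn (fun v : ℝ => v ^ k * (ut k s v * ut k t v)) (Ioi 0) ∧
    IntegrableOn (fun v : ℝ => v ^ k * (ut' k s v * ut' k t v)) (Ioi 0) ∧
    ∫ v in Ioi (0 : ℝ), v ^ k * (ut' k s v * ut' k t v) =
      ∫ v in Ioi (0 : ℝ), v ^ k * (ut k s v * ut k t v) := by
  obtain ⟨i1, j1⟩ := pair_int k 1 s (-(s⁻¹ ^ k)) s⁻¹ 1 t (-(t⁻¹ ^ k)) t⁻¹ hs (by positivity) ht
    (by positivity)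
  obtain ⟨i2, j2⟩ := pair_int k (-s) s (s⁻¹ ^ (k + 1)) s⁻¹ (-t) t (t⁻¹ ^ (k + 1)) t⁻¹ hs
    (by positivity) ht (by positivity)
  refine ⟨i1, i2, ?_⟩
  unfold ut ut'
  rw [j1, j2]
  congr 1
  have e1 : s + t⁻¹ = (s * t + 1) * t⁻¹ := by field_simp
  have e2 : s⁻¹ + t = (s * t + 1) * s⁻¹ := by field_simp; ring
  have e3 : s⁻¹ + t⁻¹ = (s + t) * (s⁻¹ * t⁻¹) := by field_simp; ring
  rw [e1, e2, e3]
  simp only [mul_pow, pow_succ]
  have h1 : 0 < s⁻¹ ^ k := by positivity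
  have h2 : 0 < t⁻¹ ^ k := by positivity
  have h3 : 0 < (s + t) ^ k := by positivity
  have h4 : 0 < (s * t + 1) ^ k := by positivity
  generalize s⁻¹ ^ k = x at *
  generalize t⁻¹ ^ k = y at *
  generalize (s + t) ^ k = z at *
  generalize (s * t + 1) ^ k = w at *
  field_simp
  ring

theorem sum_sq_int {ι : Type} (k : ℕ) (S : Finset ι) (c : ι → ℝ) (φ : ι → ℝ → ℝ)
    (h : ∀ s ∈ S, ∀ t ∈ S, IntegrableOn (fun v : ℝ => v ^ k * (φ s v * φ t v)) (Ioi 0)) :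
    IntegrableOn (fun v : ℝ => v ^ k * (∑ s ∈ S, c s * φ s v) ^ 2) (Ioi 0) ∧
    ∫ v in Ioi (0 : ℝ), v ^ k * (∑ s ∈ S, c s * φ s v) ^ 2 =
      ∑ s ∈ S, ∑ t ∈ S, c s * c t * ∫ v in Ioi (0 : ℝ), v ^ k * (φ s v * φ t v) := by
  have e : (fun v : ℝ => v ^ k * (∑ s ∈ S, c s * φ s v) ^ 2) =
      fun v : ℝ => ∑ s ∈ S, ∑ t ∈ S, c s * c t * (v ^ k * (φ s v * φ t v)) := by
    funext v
    rw [sq, Finset.sum_mul_sum, Finset.mul_sum]
    refine Finset.sum_congr rfl fun s _ => ?_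
    rw [Finset.mul_sum]
    refine Finset.sum_congr rfl fun t _ => ?_
    ring
  have hin : ∀ s ∈ S, IntegrableOn
      (fun v : ℝ => ∑ t ∈ S, c s * c t * (v ^ k * (φ s v * φ t v))) (Ioi 0) := fun s hs =>
    integrable_finsetSum S fun t ht => (h s hs t ht).const_mul _
  rw [e]
  refine ⟨integrable_finsetSum S hin, ?_⟩
  rw [integral_finsetSum S hin]
  refine Finset.sum_congr rfl fun s hs => ?_
  rw [integral_finsetSum S fun t ht => (h s hs t ht).const_mul _]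
  simp only [integral_const_mul]

theorem sampling_span {ι : Type} (k : ℕ) (T : Finset ι) (c : ι → ℝ) (τ : ι → ℝ)
    (hτ : ∀ i, 0 < τ i)
    (B : ℕ → Finset ℕ) (p : ℕ → ℝ) (hB : ∀ j, (B (j + 2)).Nonempty)
    (hp : ∀ j : ℕ, ∀ n ∈ B (j + 2), ((j : ℝ) + 2) / 6 ≤ p n ∧ p n ≤ ((j : ℝ) + 3) / 6)
    (S : ℝ) (hS : ∀ N, ∑ j ∈ Finset.range N, (((j : ℝ) + 2) / 6) ^ k *
      ((∑ n ∈ B (j + 2), ∑ i ∈ T, c i * ut k (τ i) (p n)) / (B (j + 2)).card) ^ 2 ≤ S) :
    (1 / 6 : ℝ) ^ k * (∑ i ∈ T, c i * ut k (τ i) (1 / 6)) ^ 2 ≤ 3 * S := by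
  obtain ⟨i1, j1⟩ := sum_sq_int k T c (fun i => ut k (τ i))
    (fun s _ t _ => (ut_pair k _ _ (hτ s) (hτ t)).1)
  obtain ⟨i2, j2⟩ := sum_sq_int k T c (fun i => ut' k (τ i))
    (fun s _ t _ => (ut_pair k _ _ (hτ s) (hτ t)).2.1)
  refine sampling k (fun v => ∑ i ∈ T, c i * ut k (τ i) v) (fun v => ∑ i ∈ T, c i * ut' k (τ i) v)
    ?_ ?_ i1 i2 ?_ B p hB hp S hS
  · intro x
    exact HasDerivAt.fun_sum fun i _ => (ut_deriv k (τ i) x).const_mul (c i)
  · unfold ut'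
    fun_prop
  · rw [j1, j2]
    refine Finset.sum_congr rfl fun s _ => Finset.sum_congr rfl fun t _ => ?_
    rw [(ut_pair k _ _ (hτ s) (hτ t)).2.2]

end Pool.Agent.H1.Sharp
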