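import Pool.Agent.H1.SharpA

set_option autoImplicit false
open MeasureTheory Set Filter Topology

namespace Pool.Agent.H1.Sharp

/-- Block index. -/
noncomputable def fl (lam : ℝ) (n : ℕ) : ℕ := ⌊(n : ℝ) ^ lam⁻¹⌋₊

/-- Blocks. -/
noncomputable def blk (lam : ℝ) (m : ℕ) : Finset ℕ :=
  if m = 1 then {1} else Finset.Ico ⌈(m : ℝ) ^ lam⌉₊ ⌈((m : ℝ) + 1) ^ lam⌉₊

/-- Nodes. -/
noncomputable def nd (lam : ℝ) (n : ℕ) : ℝ := (n : ℝ) ^ lam⁻¹ / 6

theorem blk_mem {lam : ℝ} (hlam : 1 ≤ lam) {m n : ℕ} (h : n ∈ blk lam m) :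
    (m : ℝ) ^ lam ≤ n ∧ (n : ℝ) < ((m : ℝ) + 1) ^ lam := by
  unfold blk at h
  split_ifs at h with h1
  · rw [Finset.mem_singleton] at h
    subst h1 h
    refine ⟨by simp, ?_⟩
    push_cast
    exact Real.one_lt_rpow (by norm_num) (by linarith)
  · rw [Finset.mem_Ico, Nat.ceil_le, Nat.lt_ceil] at h
    exact h

theorem blk_root {lam : ℝ} (hlam : 1 ≤ lam) {m n : ℕ} (h : n ∈ blk lam m) :
    (m : ℝ) ≤ (n : ℝ) ^ lam⁻¹ ∧ (n : ℝ) ^ lam⁻¹ < (m : ℝ) + 1 := by
  obtain ⟨h1, h2⟩ := blk_mem hlam h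
  have hl : 0 < lam := by linarith
  constructor
  · rw [Real.le_rpow_inv_iff_of_pos (by positivity) (by positivity) hl]
    exact h1
  · rw [Real.rpow_inv_lt_iff_of_pos (by positivity) (by positivity) hl]
    exact h2

theorem blk_fl {lam : ℝ} (hlam : 1 ≤ lam) {m n : ℕ} (h : n ∈ blk lam m) : fl lam n = m := by
  obtain ⟨h1, h2⟩ := blk_root hlam h
  unfold fl
  rw [Nat.floor_eq_iff (by positivity)]
  exact ⟨h1, h2⟩

theorem blk_card {lam : ℝ} (hlam : 1 ≤ lam) {m : ℕ} (hm : 1 ≤ m) :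
    1 ≤ (blk lam m).card ∧ (m : ℝ) ^ (lam - 1) / 2 ≤ (blk lam m).card := by
  unfold blk
  split_ifs with h1
  · subst h1
    simp
    norm_num
  · have hm0 : (1 : ℝ) ≤ m := by exact_mod_cast hm
    set X := (m : ℝ) ^ (lam - 1) with hX
    have hX1 : 1 ≤ X := Real.one_le_rpow hm0 (by linarith)
    have h2 : (m : ℝ) ^ lam + X ≤ ((m : ℝ) + 1) ^ lam := by
      have e1 : (m : ℝ) ^ lam = X * m := by
        rw [hX, ← Real.rpow_add_one (by positivity)]; simp
      have e2 : ((m : ℝ) + 1) ^ lam = ((m : ℝ) + 1) ^ (lam - 1) * (m + 1) := by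
        rw [← Real.rpow_add_one (by positivity)]; simp
      have e3 : X ≤ ((m : ℝ) + 1) ^ (lam - 1) :=
        Real.rpow_le_rpow (by positivity) (by linarith) (by linarith)
      rw [e1, e2]
      nlinarith
    have h3 : ⌈(m : ℝ) ^ lam⌉₊ + ⌊X⌋₊ ≤ ⌈((m : ℝ) + 1) ^ lam⌉₊ := by
      rw [← Nat.ceil_add_natCast (by positivity)]
      apply Nat.ceil_mono
      have := Nat.floor_le (show 0 ≤ X by linarith)
      linarith
    have h4 : 1 ≤ ⌊X⌋₊ := Nat.one_le_floor_iff X |>.mpr hX1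
    have h5 : ⌊X⌋₊ ≤ (Finset.Ico ⌈(m : ℝ) ^ lam⌉₊ ⌈((m : ℝ) + 1) ^ lam⌉₊).card := by
      rw [Nat.card_Ico]; omega
    refine ⟨le_trans h4 h5, ?_⟩
    have h6 : (⌊X⌋₊ : ℝ) ≤ (Finset.Ico ⌈(m : ℝ) ^ lam⌉₊ ⌈((m : ℝ) + 1) ^ lam⌉₊).card := by
      exact_mod_cast h5
    have h7 : X < ⌊X⌋₊ + 1 := Nat.lt_floor_add_one X
    have h8 : (1 : ℝ) ≤ ⌊X⌋₊ := by exact_mod_cast h4
    linarith

theorem emb_inj {lam : ℝ} (hlam : 1 ≤ lam) :
    Function.Injective (fun x : (Σ m : ℕ, blk lam m) => (x.2 : ℕ)) := by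
  rintro ⟨m, n, hn⟩ ⟨m', n', hn'⟩ h
  simp only at h
  subst h
  have := (blk_fl hlam hn).symm.trans (blk_fl hlam hn')
  subst this
  rfl

theorem emb_range {lam : ℝ} (f : ℕ → ℝ) (hz : ∀ n, n ∉ blk lam (fl lam n) → f n = 0) :
    ∀ x, x ∉ Set.range (fun x : (Σ m : ℕ, blk lam m) => (x.2 : ℕ)) → f x = 0 := by
  intro x hx
  apply hz
  intro h
  exact hx ⟨⟨fl lam x, x, h⟩, rfl⟩

theorem hasSum_blocks {lam : ℝ} (hlam : 1 ≤ lam) (f : ℕ → ℝ) (a : ℝ) (hf : HasSum f a)
    (hz : ∀ n, n ∉ blk lam (fl lam n) → f n = 0) :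
    HasSum (fun m => ∑ n ∈ blk lam m, f n) a := by
  have h := ((emb_inj hlam).hasSum_iff (emb_range f hz)).mpr hf
  exact h.sigma fun m => Finset.hasSum (blk lam m) f

theorem summable_of_blocks {lam : ℝ} (hlam : 1 ≤ lam) (f : ℕ → ℝ) (h0 : ∀ n, 0 ≤ f n)
    (hz : ∀ n, n ∉ blk lam (fl lam n) → f n = 0) (g : ℕ → ℝ) (hg : Summable g)
    (hle : ∀ m, ∑ n ∈ blk lam m, f n ≤ g m) : Summable f := by
  rw [← (emb_inj hlam).summable_iff (emb_range f hz)]
  refine (summable_sigma_of_nonneg (f := f ∘ fun x : (Σ m : ℕ, blk lam m) => (x.2 : ℕ))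
    (fun x => h0 _)).mpr ⟨fun m => (Finset.hasSum (blk lam m) f).summable, ?_⟩
  refine Summable.of_nonneg_of_le (fun m => tsum_nonneg fun x => h0 _) (fun m => ?_) hg
  exact le_trans (le_of_eq (Finset.hasSum (blk lam m) f).tsum_eq) (hle m)

theorem avg_le (B : Finset ℕ) (f : ℕ → ℝ) (C : ℝ) (hC : 0 ≤ C) (h : ∀ n ∈ B, |f n| ≤ C) :
    |(∑ n ∈ B, f n) / B.card| ≤ C := by
  rcases B.eq_empty_or_nonempty with rfl | hB
  · simpa using hC
  · have hcard : (0 : ℝ) < B.card := by exact_mod_cast hB.card_pos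
    rw [abs_div, abs_of_pos hcard, div_le_iff₀ hcard]
    calc |∑ n ∈ B, f n| ≤ ∑ n ∈ B, |f n| := Finset.abs_sum_le_sum_abs _ _
      _ ≤ ∑ n ∈ B, C := Finset.sum_le_sum h
      _ = C * B.card := by rw [Finset.sum_const, nsmul_eq_mul, mul_comm]

theorem exp_nd_le {lam : ℝ} (hlam : 1 ≤ lam) {m n : ℕ} (h : n ∈ blk lam m) (s : ℝ) (hs : 0 < s) :
    Real.exp (-(s * nd lam n)) ≤ Real.exp (-(s / 6) * m) := by
  apply Real.exp_le_exp.mpr
  have := (blk_root hlam h).1
  unfold nd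
  nlinarith

theorem summable_w (k : ℕ) (s : ℝ) (hs : 0 < s) :
    Summable fun m : ℕ => (√(((m : ℝ) / 6) ^ k) * Real.exp (-(s / 6) * m)) ^ 2 := by
  have h := (Real.summable_pow_mul_exp_neg_nat_mul k (r := s / 3) (by positivity)).mul_left
    ((1 / 6 : ℝ) ^ k)
  refine h.congr fun m => ?_
  rw [mul_pow, Real.sq_sqrt (by positivity), ← Real.exp_nat_mul, div_pow, div_pow]
  have : ((2 : ℕ) : ℝ) * (-(s / 6) * m) = -(s / 3) * m := by push_cast; ring
  rw [this]
  ring

/-- The sample vector of the test function `ut k t`. -/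
noncomputable def vec (lam : ℝ) (k : ℕ) (t : ℝ) (m : ℕ) : ℝ :=
  √(((m : ℝ) / 6) ^ k) * ((∑ n ∈ blk lam m, ut k t (nd lam n)) / (blk lam m).card)

theorem vec_summable {lam : ℝ} (hlam : 1 ≤ lam) (k : ℕ) (t : ℝ) (ht : 0 < t) :
    Summable fun m => vec lam k t m ^ 2 := by
  have h1 := summable_w k t ht
  have h2 := summable_w k t⁻¹ (by positivity)
  refine Summable.of_nonneg_of_le (fun m => by positivity) (fun m => ?_)
    ((h1.mul_left 2).add (h2.mul_left (2 * (t⁻¹ ^ k) ^ 2)))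
  have h3 := avg_le (blk lam m) (fun n => ut k t (nd lam n))
    (Real.exp (-(t / 6) * m) + t⁻¹ ^ k * Real.exp (-(t⁻¹ / 6) * m)) (by positivity) (by
      intro n hn
      have e1 := exp_nd_le hlam hn t ht
      have e2 := exp_nd_le hlam hn t⁻¹ (by positivity)
      have e3 : 0 < t⁻¹ ^ k := by positivity
      have e4 := mul_le_mul_of_nonneg_left e2 e3.le
      have e5 := Real.exp_pos (-(t * nd lam n))
      have e6 := mul_pos e3 (Real.exp_pos (-(t⁻¹ * nd lam n)))
      have e7 := Real.exp_pos (-(t / 6) * m)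
      unfold ut
      rw [abs_le]
      constructor <;> nlinarith)
  unfold vec
  have h4 := pow_le_pow_left₀ (abs_nonneg _) h3 2
  rw [sq_abs] at h4
  set W := √(((m : ℝ) / 6) ^ k)
  set x := Real.exp (-(t / 6) * m)
  set y := Real.exp (-(t⁻¹ / 6) * m)
  set q := t⁻¹ ^ k
  rw [mul_pow]
  have h5 := mul_le_mul_of_nonneg_left h4 (sq_nonneg W)
  nlinarith [sq_nonneg (W * x - W * q * y)]

/-- The sample vector as an element of the Hilbert space. -/
noncomputable def vecL {lam : ℝ} (hlam : 1 ≤ lam) (k : ℕ) (t : {t : ℝ // 0 < t}) :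
    lp (fun _ : ℕ => ℝ) 2 :=
  ⟨vec lam k t.1, memℓp_gen (by
    have := vec_summable hlam k t.1 t.2
    refine this.congr fun m => ?_
    simp)⟩

theorem hasSum_sq (v : lp (fun _ : ℕ => ℝ) 2) : HasSum (fun m => v m ^ 2) (‖v‖ ^ 2) := by
  have h := lp.hasSum_inner (𝕜 := ℝ) v v
  rw [real_inner_self_eq_norm_sq] at h
  refine h.congr_fun ?_
  intro m
  simp

theorem span_ineq {lam : ℝ} (hlam : 1 ≤ lam) (k : ℕ) (v : lp (fun _ : ℕ => ℝ) 2)
    (hv : v ∈ Submodule.span ℝ (Set.range (vecL hlam k))) : 4 * v 1 ^ 2 ≤ 3 * ‖v‖ ^ 2 := by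
  obtain ⟨c, hc⟩ := Finsupp.mem_span_range_iff_exists_finsupp.mp hv
  have hco : ∀ m, v m = √(((m : ℝ) / 6) ^ k) *
      ((∑ n ∈ blk lam m, ∑ i ∈ c.support, c i * ut k i.1 (nd lam n)) / (blk lam m).card) := by
    intro m
    rw [← hc, Finsupp.sum, lp.coeFn_sum, Finset.sum_apply, Finset.sum_comm, Finset.sum_div,
      Finset.mul_sum]
    refine Finset.sum_congr rfl fun i _ => ?_
    rw [lp.coeFn_smul, Pi.smul_apply, smul_eq_mul, ← Finset.mul_sum]
    change c i * vec lam k i.1 m = _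
    unfold vec
    ring
  have h := sampling_span k c.support c (fun i => i.1) (fun i => i.2) (blk lam) (nd lam)
    (fun j => Finset.card_pos.mp (blk_card hlam (by omega)).1)
    (fun j n hn => by
      obtain ⟨h1, h2⟩ := blk_root hlam hn
      push_cast at h1 h2
      unfold nd
      constructor <;> linarith)
    (‖v‖ ^ 2 - v 1 ^ 2) (fun N => by
      have h1 := sum_le_hasSum (Finset.range (N + 2)) (fun i _ => sq_nonneg (v i)) (hasSum_sq v)
      rw [Finset.sum_range_succ', Finset.sum_range_succ'] at h1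
      have h2 : ∀ j : ℕ, v (j + 1 + 1) ^ 2 = (((j : ℝ) + 2) / 6) ^ k *
          ((∑ n ∈ blk lam (j + 2), ∑ i ∈ c.support, c i * ut k i.1 (nd lam n)) /
            (blk lam (j + 2)).card) ^ 2 := by
        intro j
        rw [hco, mul_pow, Real.sq_sqrt (by positivity)]
        push_cast
        congr 2
        ring
      simp only [h2] at h1
      have := sq_nonneg (v 0)
      simp only [zero_add] at h1
      linarith)
  have h1 : v 1 ^ 2 = (1 / 6 : ℝ) ^ k * (∑ i ∈ c.support, c i * ut k i.1 (1 / 6)) ^ 2 := by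
    rw [hco, mul_pow, Real.sq_sqrt (by positivity)]
    simp [blk, nd]
  linarith

theorem exists_orth {lam : ℝ} (hlam : 1 ≤ lam) (k : ℕ) :
    ∃ b : ℕ → ℝ, Summable (fun m => b m ^ 2) ∧ b 1 * √((1 / 6 : ℝ) ^ k) = 1 ∧
      ∀ t, 0 < t → HasSum (fun m => b m * vec lam k t m) 0 := by
  set K := Submodule.span ℝ (Set.range (vecL hlam k)) with hK
  set e : lp (fun _ : ℕ => ℝ) 2 := lp.single 2 1 (1 : ℝ) with he
  have hin : ∀ v : lp (fun _ : ℕ => ℝ) 2, inner ℝ e v = v 1 := by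
    intro v
    rw [he, lp.inner_single_left]
    simp
  have hne : ∃ b ∈ Kᗮ, b 1 ≠ 0 := by
    by_contra hcon
    push Not at hcon
    have h1 : e ∈ Kᗮᗮ := by
      rw [Submodule.mem_orthogonal']
      intro u hu
      rw [hin, hcon u hu]
    rw [Submodule.orthogonal_orthogonal_eq_closure] at h1
    have h2 : IsClosed {v : lp (fun _ : ℕ => ℝ) 2 | 4 * (inner ℝ e v) ^ 2 ≤ 3 * ‖v‖ ^ 2} :=
      isClosed_le (by fun_prop) (by fun_prop)
    have h3 : (K : Set (lp (fun _ : ℕ => ℝ) 2)) ⊆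
        {v : lp (fun _ : ℕ => ℝ) 2 | 4 * (inner ℝ e v) ^ 2 ≤ 3 * ‖v‖ ^ 2} := by
      intro v hv
      rw [Set.mem_ofPred_eq, hin]
      exact span_ineq hlam k v hv
    have h4 := closure_minimal h3 h2 h1
    rw [Set.mem_ofPred_eq, real_inner_self_eq_norm_sq] at h4
    have h5 : ‖e‖ ^ 2 = 1 := by
      rw [← real_inner_self_eq_norm_sq, hin, he]
      simp
    rw [h5] at h4
    norm_num at h4
  obtain ⟨b, hb, hb1⟩ := hne
  have hw : 0 < √((1 / 6 : ℝ) ^ k) := by positivity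
  refine ⟨fun m => (b 1 * √((1 / 6 : ℝ) ^ k))⁻¹ * b m, ?_, ?_, ?_⟩
  · simp only [mul_pow]
    exact (hasSum_sq b).summable.mul_left _
  · field_simp
  · intro t ht
    have h1 := lp.hasSum_inner (𝕜 := ℝ) (vecL hlam k ⟨t, ht⟩) b
    rw [(Submodule.mem_orthogonal K b).mp hb _ (Submodule.subset_span ⟨⟨t, ht⟩, rfl⟩)] at h1
    have h2 := h1.mul_left (b 1 * √((1 / 6 : ℝ) ^ k))⁻¹
    rw [mul_zero] at h2
    refine h2.congr_fun ?_
    intro m
    simp only [vecL, RCLike.inner_apply, conj_trivial]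
    ring

theorem exists_coeff {lam : ℝ} (hlam : 1 ≤ lam) (k : ℕ) (hk : 1 ≤ k) :
    ∃ c : ℕ → ℝ, c 0 = 0 ∧ c 1 = 1 ∧
      (∀ σ : ℝ, 1 < σ → Summable fun n : ℕ => |c n| * (n : ℝ) ^ ((1 - k / lam) / 2 - σ)) ∧
      (2 ≤ lam → ∃ C : ℝ, ∀ n : ℕ, |c n| * (n : ℝ) ^ ((1 - k / lam) / 2) ≤ C) ∧
      (∀ s : ℝ, 0 < s → Summable fun n : ℕ => |c n| * Real.exp (-(s * nd lam n))) ∧
      ∀ t : ℝ, 0 < t → HasSum (fun n => c n * ut k t (nd lam n)) 0 := by
  classical
  obtain ⟨b, hb2, hb1, hb⟩ := exists_orth hlam k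
  have hl : 0 < lam := by linarith
  set c : ℕ → ℝ := fun n => if n ∈ blk lam (fl lam n) then
    b (fl lam n) * √(((fl lam n : ℝ) / 6) ^ k) / (blk lam (fl lam n)).card else 0 with hc
  have hcm : ∀ m, ∀ n ∈ blk lam m, c n = b m * √(((m : ℝ) / 6) ^ k) / (blk lam m).card := by
    intro m n hn
    simp only [hc, blk_fl hlam hn, hn, if_true]
  have hcz : ∀ n, n ∉ blk lam (fl lam n) → c n = 0 := by
    intro n hn
    simp only [hc, hn, if_false]
  have hw0 : √((((0 : ℕ) : ℝ) / 6) ^ k) = 0 := by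
    simp [zero_pow (show k ≠ 0 by omega)]
  have hblock : ∀ (φ : ℕ → ℝ) (g : ℕ → ℝ), (∀ n, 0 ≤ φ n) → (∀ m, 0 ≤ g m) →
      Summable (fun m => g m ^ 2) →
      (∀ m, ∀ n ∈ blk lam m, √(((m : ℝ) / 6) ^ k) * φ n ≤ g m) →
      Summable fun n => |c n| * φ n := by
    intro φ g h0 hg0 hg hle
    refine summable_of_blocks hlam _ (fun n => mul_nonneg (abs_nonneg _) (h0 n))
      (fun n hn => by rw [hcz n hn]; simp) _ (hb2.add hg) (fun m => ?_)
    have h1 : ∑ n ∈ blk lam m, |c n| * φ n =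
        |b m| * ((∑ n ∈ blk lam m, √(((m : ℝ) / 6) ^ k) * φ n) / (blk lam m).card) := by
      rw [Finset.sum_div, Finset.mul_sum]
      refine Finset.sum_congr rfl fun n hn => ?_
      rw [hcm m n hn, abs_div, abs_mul, abs_of_nonneg (Real.sqrt_nonneg _), Nat.abs_cast]
      ring
    have h2 := avg_le (blk lam m) (fun n => √(((m : ℝ) / 6) ^ k) * φ n) (g m) (hg0 m)
      (fun n hn => by
        rw [abs_of_nonneg (mul_nonneg (Real.sqrt_nonneg _) (h0 n))]
        exact hle m n hn)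
    have h3 := mul_le_mul_of_nonneg_left (le_trans (le_abs_self _) h2) (abs_nonneg (b m))
    rw [h1]
    have h4 := sq_abs (b m)
    nlinarith [sq_nonneg (|b m| - g m), mul_nonneg (abs_nonneg (b m)) (hg0 m)]
  have hroot : ∀ m : ℕ, ∀ n ∈ blk lam m, 1 ≤ m →
      √(((m : ℝ) / 6) ^ k) * (n : ℝ) ^ ((1 - k / lam) / 2) ≤ (n : ℝ) ^ (1 / 2 : ℝ) := by
    intro m n hn hm
    have h1 := (blk_root hlam hn).1
    have hm0 : (1 : ℝ) ≤ m := by exact_mod_cast hm
    have hn1 : (1 : ℝ) ≤ n := le_trans (Real.one_le_rpow hm0 hl.le) (blk_mem hlam hn).1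
    have h2 : √(((m : ℝ) / 6) ^ k) ≤ (n : ℝ) ^ (k / lam / 2) := by
      rw [Real.sqrt_le_left (by positivity), ← Real.rpow_natCast, ← Real.rpow_natCast,
        ← Real.rpow_mul (by positivity)]
      calc ((m : ℝ) / 6) ^ (k : ℝ) ≤ ((n : ℝ) ^ lam⁻¹) ^ (k : ℝ) :=
            Real.rpow_le_rpow (by positivity) (by linarith) (by positivity)
        _ = _ := by
            rw [← Real.rpow_mul (by positivity)]
            congr 1
            push_cast
            field_simp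
    calc √(((m : ℝ) / 6) ^ k) * (n : ℝ) ^ ((1 - k / lam) / 2)
        ≤ (n : ℝ) ^ (k / lam / 2) * (n : ℝ) ^ ((1 - k / lam) / 2) :=
          mul_le_mul_of_nonneg_right h2 (by positivity)
      _ = _ := by
          rw [← Real.rpow_add (by linarith)]
          congr 1
          ring
  have hexp : ∀ s : ℝ, 0 < s → Summable fun n : ℕ => |c n| * Real.exp (-(s * nd lam n)) := by
    intro s hs
    exact hblock _ _ (fun n => (Real.exp_pos _).le) (fun m => by positivity) (summable_w k s hs)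
      (fun m n hn => mul_le_mul_of_nonneg_left (exp_nd_le hlam hn s hs) (Real.sqrt_nonneg _))
  refine ⟨c, ?_, ?_, ?_, ?_, hexp, ?_⟩
  · have h0 : fl lam 0 = 0 := by
      simp [fl, Real.zero_rpow (inv_ne_zero hl.ne')]
    simp only [hc, h0, hw0]
    simp
  · rw [hcm 1 1 (by simp [blk])]
    simpa [blk] using hb1
  · intro σ hσ
    refine hblock _ (fun m => (m : ℝ) ^ (lam * (1 / 2 - σ))) (fun n => by positivity)
      (fun m => by positivity) ?_ ?_
    · have h := Real.summable_nat_rpow.mpr (show lam * (1 / 2 - σ) * 2 < -1 by nlinarith)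
      refine h.congr fun m => ?_
      rw [Real.rpow_mul (by positivity)]
      norm_cast
    · intro m n hn
      rcases Nat.eq_zero_or_pos m with rfl | hm
      · rw [hw0, zero_mul]; positivity
      · have hm0 : (1 : ℝ) ≤ m := by exact_mod_cast hm
        have h1 := (blk_mem hlam hn).1
        have hn1 : (1 : ℝ) ≤ n := le_trans (Real.one_le_rpow hm0 hl.le) h1
        have h2 := hroot m n hn hm
        rw [Real.rpow_sub (by linarith), ← mul_div_assoc]
        calc √(((m : ℝ) / 6) ^ k) * (n : ℝ) ^ ((1 - k / lam) / 2) / (n : ℝ) ^ σ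
            ≤ (n : ℝ) ^ (1 / 2 : ℝ) / (n : ℝ) ^ σ :=
              div_le_div_of_nonneg_right h2 (by positivity)
          _ = (n : ℝ) ^ (1 / 2 - σ) := (Real.rpow_sub (by linarith) _ _).symm
          _ ≤ ((m : ℝ) ^ lam) ^ (1 / 2 - σ) :=
              Real.rpow_le_rpow_of_nonpos (by positivity) h1 (by linarith)
          _ = _ := by rw [← Real.rpow_mul (by positivity)]
  · intro h2l
    refine ⟨(1 + ∑' m, b m ^ 2) * (2 * 2 ^ (lam / 2)), fun n => ?_⟩
    have hS : 0 ≤ ∑' m, b m ^ 2 := tsum_nonneg fun m => sq_nonneg _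
    by_cases hn : n ∈ blk lam (fl lam n)
    · set m := fl lam n
      rcases Nat.eq_zero_or_pos m with hm | hm
      · rw [hcm m n hn, hm, hw0]
        simp only [mul_zero, zero_div, abs_zero, zero_mul]
        positivity
      · have hm0 : (1 : ℝ) ≤ m := by exact_mod_cast hm
        have h1 := hroot m n hn hm
        have h2 := (blk_mem hlam hn).2
        obtain ⟨h3, h4⟩ := blk_card hlam hm
        have h5 : |b m| ≤ 1 + ∑' m, b m ^ 2 := by
          have := hb2.le_tsum m (fun j _ => sq_nonneg _)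
          have h6 := sq_abs (b m)
          nlinarith [sq_nonneg (|b m| - 1), abs_nonneg (b m)]
        have h6 : (n : ℝ) ^ (1 / 2 : ℝ) ≤ 2 ^ (lam / 2) * (m : ℝ) ^ (lam - 1) := by
          calc (n : ℝ) ^ (1 / 2 : ℝ) ≤ ((2 * (m : ℝ)) ^ lam) ^ (1 / 2 : ℝ) := by
                apply Real.rpow_le_rpow (by positivity) _ (by norm_num)
                exact le_trans h2.le (Real.rpow_le_rpow (by positivity) (by linarith) hl.le)
            _ = 2 ^ (lam / 2) * (m : ℝ) ^ (lam / 2) := by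
                rw [← Real.rpow_mul (by positivity), Real.mul_rpow (by norm_num) (by positivity)]
                congr 2 <;> ring
            _ ≤ _ := by
                apply mul_le_mul_of_nonneg_left _ (by positivity)
                exact Real.rpow_le_rpow_of_exponent_le hm0 (by linarith)
        have hcard : (0 : ℝ) < (blk lam m).card := by exact_mod_cast h3
        rw [hcm m n hn, abs_div, abs_mul, abs_of_nonneg (Real.sqrt_nonneg _), Nat.abs_cast]
        have h7 : √(((m : ℝ) / 6) ^ k) * (n : ℝ) ^ ((1 - k / lam) / 2) / (blk lam m).card ≤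
            2 * 2 ^ (lam / 2) := by
          rw [div_le_iff₀ hcard]
          have h8 : (0 : ℝ) < 2 ^ (lam / 2) := by positivity
          nlinarith
        calc |b m| * √(((m : ℝ) / 6) ^ k) / (blk lam m).card * (n : ℝ) ^ ((1 - k / lam) / 2)
            = |b m| * (√(((m : ℝ) / 6) ^ k) * (n : ℝ) ^ ((1 - k / lam) / 2) /
              (blk lam m).card) := by ring
          _ ≤ _ := mul_le_mul h5 h7 (by positivity) (by positivity)
    · rw [hcz n hn]
      simp only [abs_zero, zero_mul]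
      positivity
  · intro t ht
    have h1 : Summable fun n => c n * ut k t (nd lam n) := by
      refine Summable.of_norm_bounded
        ((hexp t ht).add ((hexp t⁻¹ (by positivity)).mul_left (t⁻¹ ^ k))) (fun n => ?_)
      rw [Real.norm_eq_abs, abs_mul]
      have e3 : 0 < t⁻¹ ^ k := by positivity
      have e5 := Real.exp_pos (-(t * nd lam n))
      have e6 := mul_pos e3 (Real.exp_pos (-(t⁻¹ * nd lam n)))
      have e7 : |ut k t (nd lam n)| ≤ Real.exp (-(t * nd lam n)) +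
          t⁻¹ ^ k * Real.exp (-(t⁻¹ * nd lam n)) := by
        unfold ut
        rw [abs_le]
        constructor <;> nlinarith
      have := mul_le_mul_of_nonneg_left e7 (abs_nonneg (c n))
      linarith
    have h2 := hasSum_blocks hlam _ _ h1.hasSum (fun n hn => by rw [hcz n hn]; simp)
    have h3 : HasSum (fun m => ∑ n ∈ blk lam m, c n * ut k t (nd lam n)) 0 := by
      refine (hb t ht).congr_fun ?_
      intro m
      unfold vec
      rw [Finset.sum_div, Finset.mul_sum, Finset.mul_sum]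
      refine Finset.sum_congr rfl fun n hn => ?_
      rw [hcm m n hn]
      ring
    rw [← h2.unique h3]
    exact h1.hasSum

end Pool.Agent.H1.Sharp
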