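import Mathlib
import Pool.Agent.H1.SharpB
import Pool.Agent.H1.SharpC

set_option autoImplicit false
open MeasureTheory Set Filter Topology Complex Asymptotics

namespace Pool.Agent.H1.Sharp

theorem nd_nonneg (lam : ℝ) (n : ℕ) : 0 ≤ nd lam n := by
  unfold nd
  positivity

theorem nd_ge {lam : ℝ} (hlam : 0 < lam) {n : ℕ} (hn : n ≠ 0) : 1 / 6 ≤ nd lam n := by
  unfold nd
  have h1 : (1 : ℝ) ≤ n := by exact_mod_cast Nat.one_le_iff_ne_zero.mpr hn
  have := Real.one_le_rpow h1 (inv_pos.mpr hlam).le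
  linarith

theorem exists_Lambda {lam : ℝ} (hl : 0 < lam) (k : ℕ) (hk : 1 ≤ k) (c : ℕ → ℝ) (hc0 : c 0 = 0)
    (hsum : ∀ s : ℝ, 0 < s → Summable fun n : ℕ => |c n| * Real.exp (-(s * nd lam n)))
    (hfe : ∀ t : ℝ, 0 < t → HasSum (fun n => c n * ut k t (nd lam n)) 0) :
    ∃ L : ℂ → ℂ, Differentiable ℂ L ∧
      (∀ a b : ℝ, ∃ C : ℝ, ∀ w : ℂ, a ≤ w.re → w.re ≤ b → ‖L w‖ ≤ C) ∧
      (∀ w : ℂ, L (k - starRingEnd ℂ w) = starRingEnd ℂ (L w)) ∧
      ∀ w : ℂ, 0 < w.re → Summable (fun n : ℕ => ‖(c n : ℂ)‖ / (nd lam n) ^ w.re) →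
        HasSum (fun n : ℕ => Gamma w * (c n : ℂ) / (nd lam n : ℂ) ^ w) (L w) := by
  set θ : ℝ → ℝ := fun t => ∑' n : ℕ, c n * Real.exp (-(t * nd lam n)) with hθ
  have hs : ∀ t : ℝ, 0 < t → Summable fun n : ℕ => c n * Real.exp (-(t * nd lam n)) := by
    intro t ht
    refine Summable.of_norm ?_
    simpa [abs_mul, Real.abs_exp] using hsum t ht
  have hcont : ContinuousOn θ (Ioi 0) := by
    intro t0 ht0
    have ht0' : (0 : ℝ) < t0 := ht0
    have h1 : ContinuousOn θ (Ici (t0 / 2)) := by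
      refine continuousOn_tsum (fun n => by fun_prop) (hsum (t0 / 2) (by linarith)) ?_
      intro n t ht
      rw [norm_mul, Real.norm_eq_abs, Real.norm_eq_abs, Real.abs_exp]
      apply mul_le_mul_of_nonneg_left _ (abs_nonneg _)
      apply Real.exp_le_exp.mpr
      have := mul_le_mul_of_nonneg_right (show t0 / 2 ≤ t from ht) (nd_nonneg lam n)
      linarith
    exact (h1.continuousAt (Ici_mem_nhds (by linarith))).continuousWithinAt
  have hfun : ∀ t : ℝ, 0 < t → θ (1 / t) = t ^ k * θ t := by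
    intro t ht
    have h1 := (hs t ht).hasSum
    have h2 := ((hs t⁻¹ (inv_pos.mpr ht)).hasSum).mul_left (-(t⁻¹ ^ k))
    have h3 := h1.add h2
    have h4 := hfe t ht
    have h5 : (fun n => c n * ut k t (nd lam n)) = fun n => c n * Real.exp (-(t * nd lam n)) +
        -(t⁻¹ ^ k) * (c n * Real.exp (-(t⁻¹ * nd lam n))) := by
      funext n
      unfold ut
      ring
    rw [h5] at h4
    have h6 := h3.unique h4
    have h7 : θ t = t⁻¹ ^ k * θ t⁻¹ := by
      simp only [hθ]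
      linarith
    rw [one_div, h7, ← mul_assoc, ← mul_pow, mul_inv_cancel₀ ht.ne', one_pow, one_mul]
  have hdec : ∀ r : ℝ, (fun t : ℝ => (θ t : ℂ) - 0) =O[atTop] (· ^ r) := by
    intro r
    refine IsBigO.trans ?_ (isLittleO_exp_neg_mul_rpow_atTop (a := 1 / 6) (by norm_num) r).isBigO
    refine IsBigO.of_bound ((∑' n : ℕ, |c n| * Real.exp (-(1 * nd lam n))) * Real.exp (1 / 6)) ?_
    filter_upwards [eventually_ge_atTop (1 : ℝ)] with t ht
    rw [sub_zero, Complex.norm_real, Real.norm_eq_abs (Real.exp _), Real.abs_exp, mul_assoc,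
      ← tsum_mul_right]
    refine tsum_of_norm_bounded ((hsum 1 one_pos).mul_right _).hasSum ?_
    intro n
    rcases eq_or_ne n 0 with rfl | hn
    · simp [hc0]
    rw [norm_mul, Real.norm_eq_abs, Real.norm_eq_abs, Real.abs_exp, mul_assoc]
    apply mul_le_mul_of_nonneg_left _ (abs_nonneg _)
    rw [← Real.exp_add, ← Real.exp_add]
    apply Real.exp_le_exp.mpr
    have := mul_le_mul_of_nonneg_left (nd_ge hl hn) (show 0 ≤ t - 1 by linarith)
    linarith
  have hli : LocallyIntegrableOn (fun t : ℝ => (θ t : ℂ)) (Ioi 0) :=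
    (continuous_ofReal.comp_continuousOn hcont).locallyIntegrableOn measurableSet_Ioi
  let P : WeakFEPair ℂ :=
    { f := fun t => (θ t : ℂ), g := fun t => (θ t : ℂ), k := k, ε := 1, f₀ := 0, g₀ := 0,
      hf_int := hli, hg_int := hli, hk := by exact_mod_cast hk, hε := one_ne_zero,
      h_feq := fun x hx => by
        rw [hfun x hx, Real.rpow_natCast]
        simp
      hf_top := hdec, hg_top := hdec }
  have hP : IsStrongFEPair P := ⟨rfl, rfl⟩
  have hΛ : P.Λ = mellin fun t => (θ t : ℂ) := hP.Λ_eq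
  have hΛ' : P.symm.Λ = mellin fun t => (θ t : ℂ) := hP.symm_Λ_eq
  refine ⟨mellin fun t => (θ t : ℂ), hΛ ▸ hP.differentiable_Λ,
    mellin_strip _ fun s => (hP.hasMellin s).1, fun w => ?_, fun w hw hsw => ?_⟩
  · have := P.functional_equation (starRingEnd ℂ w)
    rw [hΛ, hΛ'] at this
    rw [← mellin_conj]
    simpa [P] using this
  · refine hasSum_mellin (fun n => ?_) hw (fun t ht => ?_) hsw
    · rcases eq_or_ne n 0 with rfl | hn
      · left; simp [hc0]
      · right; linarith [nd_ge hl hn]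
    · have := Complex.hasSum_ofReal.mpr (hs t ht).hasSum
      convert this using 2 with n
      push_cast
      ring_nf

theorem pow_le_exp' (y : ℝ) (hy : 0 ≤ y) (N : ℕ) : y ^ N ≤ Real.exp (N * y) := by
  rw [Real.exp_nat_mul]
  apply pow_le_pow_left₀ hy
  linarith [Real.add_one_le_exp y]

theorem exists_F {lam : ℝ} (hlam : 1 ≤ lam) :
    ∃ (F Φ : ℂ → ℂ) (a : ℕ → ℂ) (mu : ℝ), 0 ≤ mu ∧ a 1 = 1 ∧ Differentiable ℂ F ∧
      Differentiable ℂ Φ ∧ F ≠ 0 ∧
      (∀ s : ℂ, 1 < s.re → LSeriesSummable a s ∧ F s = LSeries a s) ∧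
      (2 ≤ lam → ∃ C : ℝ, ∀ n, ‖a n‖ ≤ C) ∧
      (∀ σ₁ σ₂ : ℝ, ∃ C M : ℝ, ∀ s : ℂ, σ₁ ≤ s.re → s.re ≤ σ₂ → ‖F s‖ ≤ C * (1 + |s.im|) ^ M) ∧
      (∃ C : ℝ, ∀ s : ℂ, ‖F s‖ ≤ C * Real.exp (‖s‖ ^ (4 : ℝ))) ∧
      (∀ s : ℂ, (∀ m : ℕ, (lam : ℂ) * s + mu ≠ -(m : ℂ)) →
        Φ s = (((6 : ℝ) ^ lam : ℝ) : ℂ) ^ s * Gamma (lam * s + mu) * F s) ∧
      ∀ s : ℂ, Φ s = starRingEnd ℂ (Φ (1 - starRingEnd ℂ s)) := by
  have hl : 0 < lam := by linarith
  obtain ⟨k, hk⟩ : ∃ k : ℕ, k = ⌈lam⌉₊ := ⟨_, rfl⟩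
  have hkl : lam ≤ k := hk ▸ Nat.le_ceil lam
  have hk1 : 1 ≤ k := by exact_mod_cast le_trans hlam hkl
  obtain ⟨c, hc0, hc1, hcs, hcb, hce, hcf⟩ := exists_coeff hlam k hk1
  obtain ⟨L, hLd, hLs, hLf, hLm⟩ := exists_Lambda hl k hk1 c hc0 hce hcf
  obtain ⟨mu, hmu⟩ : ∃ mu : ℝ, mu = (k - lam) / 2 := ⟨_, rfl⟩
  have hmu0 : 0 ≤ mu := by rw [hmu]; linarith
  have hlc : (lam : ℂ) ≠ 0 := by exact_mod_cast hl.ne'
  set f : ℂ → ℂ := fun w => L w * (Gamma w)⁻¹ * (6 : ℂ) ^ (-w) with hf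
  have hfd : Differentiable ℂ f :=
    (hLd.mul differentiable_one_div_Gamma).mul
      (differentiable_id.neg.const_cpow (Or.inl (by norm_num)))
  set a : ℕ → ℂ := fun n => ((c n * (n : ℝ) ^ ((1 - k / lam) / 2) : ℝ) : ℂ) with ha
  have han : ∀ n, ‖a n‖ = |c n| * (n : ℝ) ^ ((1 - k / lam) / 2) := by
    intro n
    simp only [ha]
    rw [Complex.norm_real, Real.norm_eq_abs, abs_mul,
      abs_of_nonneg (Real.rpow_nonneg (Nat.cast_nonneg n) _)]
  have hterm : ∀ (s : ℂ) (n : ℕ),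
      ‖LSeries.term a s n‖ = |c n| * (n : ℝ) ^ ((1 - k / lam) / 2 - s.re) := by
    intro s n
    rw [LSeries.norm_term_eq]
    split_ifs with hn
    · simp [hn, hc0]
    · have hn0 : (0 : ℝ) < n := by exact_mod_cast Nat.pos_of_ne_zero hn
      rw [han, Real.rpow_sub hn0, mul_div_assoc]
  have hsumm : ∀ s : ℂ, 1 < s.re → LSeriesSummable a s := by
    intro s hs
    refine Summable.of_norm ?_
    simpa only [hterm] using hcs s.re hs
  have hwre : ∀ s : ℂ, ((lam : ℂ) * s + mu).re = lam * s.re + mu := by intro s; simp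
  have hFL : ∀ s : ℂ, 1 < s.re → f (lam * s + mu) = LSeries a s := by
    intro s hs
    have hw : 0 < ((lam : ℂ) * s + mu).re := by rw [hwre]; positivity
    have hG := Gamma_ne_zero_of_re_pos hw
    have hexp : lam⁻¹ * (lam * s.re + mu) = s.re - (1 - k / lam) / 2 := by
      rw [hmu]; field_simp; ring
    have h1 := hLm _ hw (by
      refine ((hcs s.re hs).mul_left ((6 : ℝ) ^ (lam * s.re + mu))).congr fun n => ?_
      rcases eq_or_ne n 0 with rfl | hn
      · simp [hc0]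
      have hn0 : (0 : ℝ) < n := by exact_mod_cast Nat.pos_of_ne_zero hn
      rw [hwre, Complex.norm_real, Real.norm_eq_abs, nd,
        Real.div_rpow (Real.rpow_nonneg hn0.le _) (by norm_num), ← Real.rpow_mul hn0.le, hexp,
        ← neg_sub s.re, Real.rpow_neg hn0.le]
      field_simp)
    have h2 := h1.mul_right ((Gamma (lam * s + mu))⁻¹ * (6 : ℂ) ^ (-(lam * s + mu)))
    have h3 : LSeriesHasSum a s (f (lam * s + mu)) := by
      simp only [hf]
      rw [mul_assoc]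
      refine HasSum.congr_fun h2 (fun n => ?_)
      rcases eq_or_ne n 0 with rfl | hn
      · simp [hc0]
      have hn0 : (0 : ℝ) < n := by exact_mod_cast Nat.pos_of_ne_zero hn
      have hnd : 0 < nd lam n := by linarith [nd_ge hl hn]
      rw [LSeries.term_of_ne_zero hn]
      have e1 : ((nd lam n : ℝ) : ℂ) ^ ((lam : ℂ) * s + mu) =
          cexp ((lam * s + mu) * (lam⁻¹ * Real.log n - Real.log 6 : ℝ)) := by
        rw [cpow_def_of_ne_zero (by exact_mod_cast hnd.ne'), ← ofReal_log hnd.le, nd,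
          Real.log_div (Real.rpow_pos_of_pos hn0 _).ne' (by norm_num), Real.log_rpow hn0, mul_comm]
      have e2 : (6 : ℂ) ^ (-((lam : ℂ) * s + mu)) = cexp (-(lam * s + mu) * (Real.log 6 : ℝ)) := by
        rw [cpow_def_of_ne_zero (by norm_num), mul_comm, ofReal_log (by norm_num)]
        norm_num
      have e3 : (n : ℂ) ^ s = cexp (s * (Real.log n : ℝ)) := by
        rw [cpow_def_of_ne_zero (by exact_mod_cast hn), mul_comm, ofReal_log hn0.le]
        norm_num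
      have e4 : a n = c n * cexp ((((1 - k / lam) / 2 : ℝ)) * (Real.log n : ℝ)) := by
        simp only [ha]
        rw [Real.rpow_def_of_pos hn0, ofReal_mul, ofReal_exp, ofReal_mul, mul_comm (Real.log n : ℂ)]
      rw [e1, e2, e3, e4, div_eq_mul_inv _ (cexp _), div_eq_mul_inv _ (cexp _), ← Complex.exp_neg,
        ← Complex.exp_neg]
      have e5 : cexp ((((1 - k / lam) / 2 : ℝ)) * (Real.log n : ℝ)) * cexp (-(s * (Real.log n : ℝ)))
          = cexp (-((lam * s + mu) * (lam⁻¹ * Real.log n - Real.log 6 : ℝ))) *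
            cexp (-(lam * s + mu) * (Real.log 6 : ℝ)) := by
        rw [← Complex.exp_add, ← Complex.exp_add]
        congr 1
        rw [hmu]
        push_cast
        field_simp
        ring
      rw [mul_assoc, e5]
      field_simp
    exact h3.LSeries_eq.symm
  obtain ⟨C0, hC0⟩ : ∃ C0 : ℝ, ∀ w : ℂ, 2 * lam + mu ≤ w.re → ‖f w‖ ≤ C0 := by
    refine ⟨∑' n : ℕ, |c n| * (n : ℝ) ^ ((1 - k / lam) / 2 - 2), fun w hw => ?_⟩
    obtain ⟨s, rfl⟩ : ∃ s : ℂ, w = lam * s + mu := ⟨(w - mu) / lam, by field_simp; ring⟩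
    rw [hwre] at hw
    have hs : 2 ≤ s.re := by nlinarith
    rw [hFL s (by linarith), LSeries]
    refine tsum_of_norm_bounded (hcs 2 (by norm_num)).hasSum fun n => ?_
    rw [hterm]
    rcases eq_or_ne n 0 with rfl | hn
    · simp [hc0]
    have h1 : (1 : ℝ) ≤ n := by exact_mod_cast Nat.one_le_iff_ne_zero.mpr hn
    exact mul_le_mul_of_nonneg_left (Real.rpow_le_rpow_of_exponent_le h1 (by linarith))
      (abs_nonneg _)
  have hC00 : 0 ≤ C0 := le_trans (norm_nonneg _) (hC0 ((2 * lam + mu : ℝ) : ℂ) (by simp))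
  have hpl := pl_bound L k (Nat.cast_nonneg k) hLd hLs
    (fun w => by rw [ofReal_natCast, hLf, Complex.norm_conj]) (2 * lam + mu) C0 hC0
  have hwn : ∀ s : ℂ, ‖(lam : ℂ) * s + mu‖ ≤ lam * ‖s‖ + mu := by
    intro s
    refine le_trans (norm_add_le _ _) (le_of_eq ?_)
    rw [norm_mul, Complex.norm_real, Complex.norm_real, Real.norm_of_nonneg hl.le,
      Real.norm_of_nonneg hmu0]
  refine ⟨fun s => f (lam * s + mu), fun s => (6 : ℂ) ^ (-(mu : ℂ)) * L (lam * s + mu), a, mu, hmu0,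
    by simp [ha, hc1], hfd.comp (by fun_prop), (hLd.comp (by fun_prop)).const_mul _, ?_,
    fun s hs => ⟨hsumm s hs, hFL s hs⟩, fun h2 => ?_, fun σ₁ σ₂ => ?_, ?_, fun s hs => ?_,
    fun s => ?_⟩
  · intro h0
    have hab : LSeries.abscissaOfAbsConv a < ⊤ :=
      lt_of_le_of_lt (hsumm 2 (by norm_num)).abscissaOfAbsConv_le (EReal.coe_lt_top _)
    have h1 := LSeries.tendsto_atTop hab
    have h2 : (fun x : ℝ => LSeries a x) =ᶠ[atTop] fun _ => 0 := by
      filter_upwards [eventually_gt_atTop (1 : ℝ)] with x hx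
      rw [← hFL x (by simpa using hx)]
      exact congrFun h0 x
    have h3 := tendsto_nhds_unique (h1.congr' h2) tendsto_const_nhds
    simp [ha, hc1] at h3
  · obtain ⟨C, hC⟩ := hcb h2
    exact ⟨C, fun n => by rw [han]; exact hC n⟩
  · obtain ⟨N, hN⟩ := exists_nat_ge (2 * lam * (|σ₁| + |σ₂| + 2))
    have ha1 := abs_nonneg σ₁
    have ha2 := abs_nonneg σ₂
    have hb1 := mul_nonneg hl.le ha1
    have hb2 := mul_nonneg hl.le ha2
    have hN1 : 1 ≤ N := by
      have : (1 : ℝ) ≤ N := by nlinarith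
      exact_mod_cast this
    refine ⟨C0 * (6 * (N + 2)) ^ N * (lam * (|σ₁| + |σ₂| + 1) + mu + N + 1) ^ N, N,
      fun s h1 h2 => ?_⟩
    have e1 := mul_le_mul_of_nonneg_left (le_trans (neg_abs_le σ₁) h1) hl.le
    have e2 := mul_le_mul_of_nonneg_left (le_trans h2 (le_abs_self σ₂)) hl.le
    refine le_trans (hpl N hN1 (by rw [hmu]; nlinarith) _ (by rw [hwre, hmu]; nlinarith)
      (by rw [hwre, hmu]; nlinarith)) ?_
    rw [Real.rpow_natCast, mul_assoc (C0 * _), ← mul_pow]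
    have e3 : ‖s‖ ≤ |σ₁| + |σ₂| + |s.im| := by
      refine le_trans (norm_le_abs_re_add_abs_im s) ?_
      have : |s.re| ≤ |σ₁| + |σ₂| := by
        rw [abs_le]
        constructor
        · linarith [neg_abs_le σ₁]
        · linarith [le_abs_self σ₂]
      linarith
    have e4 := hwn s
    have e5 := mul_le_mul_of_nonneg_left e3 hl.le
    have e6 := abs_nonneg s.im
    have hN0 : (0 : ℝ) ≤ N := Nat.cast_nonneg N
    have e7 : ‖(lam : ℂ) * s + mu‖ + N + 1 ≤
        (lam * (|σ₁| + |σ₂| + 1) + mu + N + 1) * (1 + |s.im|) := by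
      have e8 : 0 ≤ (lam * (|σ₁| + |σ₂|) + mu + N + 1) * |s.im| := by positivity
      nlinarith
    gcongr
  · obtain ⟨A, hA⟩ : ∃ A : ℝ, A = 6 * lam + mu + 13 := ⟨_, rfl⟩
    refine ⟨C0 * Real.exp ((8 * A ^ 2) ^ 2 + 2 * (8 * A ^ 2)), fun s => ?_⟩
    have hx := norm_nonneg s
    obtain ⟨N, hN⟩ : ∃ N : ℕ, N = ⌈2 * lam * (‖s‖ + 2)⌉₊ := ⟨_, rfl⟩
    have hb := mul_nonneg hl.le hx
    have hN2 : 2 * lam * (‖s‖ + 2) ≤ N := hN ▸ Nat.le_ceil _
    have hN3 : (N : ℝ) ≤ 2 * lam * (‖s‖ + 2) + 1 :=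
      hN ▸ (Nat.ceil_lt_add_one (by positivity)).le
    have hN1 : 1 ≤ N := by
      have : (1 : ℝ) ≤ N := by nlinarith
      exact_mod_cast this
    have hre := abs_le.mp (abs_re_le_norm s)
    have e1 := mul_le_mul_of_nonneg_left hre.1 hl.le
    have e2 := mul_le_mul_of_nonneg_left hre.2 hl.le
    refine le_trans (hpl N hN1 (by rw [hmu]; nlinarith) _ (by rw [hwre, hmu]; nlinarith)
      (by rw [hwre, hmu]; nlinarith)) ?_
    have hN0 : (0 : ℝ) ≤ N := Nat.cast_nonneg N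
    have e3 := pow_le_exp' (6 * ((N : ℝ) + 2)) (by positivity) N
    have e4 := pow_le_exp' (‖(lam : ℂ) * s + mu‖ + N + 1) (by positivity) N
    have e5 := hwn s
    have hA0 : 0 < A := by rw [hA]; positivity
    have hmx := mul_nonneg hmu0 hx
    have e6 : (N : ℝ) ≤ A * (‖s‖ + 1) := by rw [hA]; nlinarith
    have e7 : 6 * ((N : ℝ) + 2) + (‖(lam : ℂ) * s + mu‖ + N + 1) ≤ 8 * (A * (‖s‖ + 1)) := by
      have : lam * ‖s‖ + mu + 13 ≤ A * (‖s‖ + 1) := by rw [hA]; nlinarith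
      linarith
    have e8 : N * (6 * ((N : ℝ) + 2)) + N * (‖(lam : ℂ) * s + mu‖ + N + 1) ≤
        (8 * A ^ 2) ^ 2 + 2 * (8 * A ^ 2) + ‖s‖ ^ 4 := by
      rw [← mul_add]
      have e9 := mul_le_mul e6 e7 (by positivity) (by positivity)
      have e10 : A * (‖s‖ + 1) * (8 * (A * (‖s‖ + 1))) = (8 * A ^ 2) * (‖s‖ + 1) ^ 2 := by ring
      have e11 : (‖s‖ + 1) ^ 2 ≤ 2 * ‖s‖ ^ 2 + 2 := by nlinarith [sq_nonneg (‖s‖ - 1)]
      have e12 := mul_le_mul_of_nonneg_left e11 (show 0 ≤ 8 * A ^ 2 by positivity)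
      nlinarith [sq_nonneg (8 * A ^ 2 - ‖s‖ ^ 2)]
    rw [show (4 : ℝ) = ((4 : ℕ) : ℝ) by norm_num, Real.rpow_natCast, mul_assoc, mul_assoc,
      ← Real.exp_add]
    apply mul_le_mul_of_nonneg_left _ hC00
    refine le_trans (mul_le_mul e3 e4 (by positivity) (by positivity)) ?_
    rw [← Real.exp_add]
    exact Real.exp_le_exp.mpr e8
  · have hG := Gamma_ne_zero hs
    simp only [hf]
    have e1 : (((6 : ℝ) ^ lam : ℝ) : ℂ) ^ s = (6 : ℂ) ^ ((lam : ℂ) * s) := by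
      rw [cpow_def_of_ne_zero (by exact_mod_cast (Real.rpow_pos_of_pos (by norm_num) lam).ne'),
        ← ofReal_log (Real.rpow_pos_of_pos (by norm_num) lam).le, Real.log_rpow (by norm_num),
        cpow_def_of_ne_zero (by norm_num), ofReal_mul, ofReal_log (by norm_num)]
      congr 1
      push_cast
      ring
    have e2 : (6 : ℂ) ^ (-(mu : ℂ)) = (6 : ℂ) ^ ((lam : ℂ) * s) * (6 : ℂ) ^ (-((lam : ℂ) * s + mu)) := by
      rw [← cpow_add _ _ (by norm_num)]
      congr 1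
      ring
    rw [e1, e2]
    field_simp
  · have e1 : (lam : ℂ) * (1 - starRingEnd ℂ s) + mu = k - starRingEnd ℂ (lam * s + mu) := by
      rw [hmu]
      simp only [map_add, map_mul, conj_ofReal]
      push_cast
      ring
    simp only
    rw [e1, hLf, map_mul, conj_conj]
    congr 1
    have e2 : (6 : ℂ) ^ (-(mu : ℂ)) = (((6 : ℝ) ^ (-mu) : ℝ) : ℂ) := by
      rw [ofReal_cpow (by norm_num)]
      push_cast
      rfl
    rw [e2, conj_ofReal]

end Pool.Agent.H1.Sharp
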