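import Mathlib

namespace Pool.Agent.H1.Slit

open Metric Filter Topology Set Complex Bornology

lemma exlog {E : Type} [NormedAddCommGroup E] [NormedSpace ℝ E] {S : Set E} (hS : Convex ℝ S)
    {p : E} (hp : p ∈ S) {g : E → ℂ} (hg : ContinuousOn g S) (h0 : ∀ x ∈ S, g x ≠ 0) {a : ℂ}
    (ha : exp a = g p) : ∃ A : E → ℂ, ContinuousOn A S ∧ A p = a ∧ ∀ x ∈ S, exp (A x) = g x := by
  classical
  have := hS.contractibleSpace ⟨p, hp⟩
  have := hS.locallyPathConnectedSpace
  obtain ⟨f, ⟨h1, hf⟩, -⟩ := isCoveringMapOn_exp.existsUnique_continuousMap_lifts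
    ⟨S.domRestrict g, continuousOn_iff_continuous_domRestrict.mp hg⟩ (a₀ := ⟨p, hp⟩) ha
    fun x => h0 x x.2
  refine ⟨fun z => if hz : z ∈ S then f ⟨z, hz⟩ else 0, ?_, by simp [hp, h1], fun x hx => ?_⟩
  · rw [continuousOn_iff_continuous_domRestrict]
    convert! map_continuous f
    ext z
    simp
  · simpa [hx] using congr($hf ⟨x, hx⟩)

lemma loc {E : Type} [TopologicalSpace E] {A g : E → ℂ} {p : E} (hA : ContinuousAt A p)
    (h : ∀ᶠ x in 𝓝 p, exp (A x) = g x) : A =ᶠ[𝓝 p] fun x => A p + log (g x / g p) := by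
  filter_upwards [h, hA.eventually (ball_mem_nhds _ Real.pi_pos)] with x h1 h2
  have := abs_lt.1 ((abs_im_le_norm _).trans_lt (mem_ball_iff_norm.1 h2))
  rw [← h1, ← h.self_of_nhds, ← exp_sub, log_exp this.1 this.2.le, add_sub_cancel]

def X : Set ℂ := closedBall 0 1 \ {-1}

lemma X_re {z : ℂ} (hz : z ∈ X) : -1 < z.re := by
  have h := mem_closedBall_zero_iff.1 hz.1
  refine lt_of_le_of_ne (by linarith [neg_abs_le z.re, abs_re_le_norm z]) fun e => hz.2 ?_
  have := Complex.sq_norm z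
  rw [normSq_apply, ← e] at this
  exact Complex.ext (by simp [← e]) (by
    simp only [neg_im, one_im, neg_zero]; nlinarith [norm_nonneg z])

lemma X_conv : Convex ℝ X := by
  have : X = closedBall 0 1 ∩ {z : ℂ | -1 < z.re} := by
    ext z
    exact ⟨fun h => ⟨h.1, X_re h⟩, fun h => ⟨h.1, fun e => by
      have := h.2; rw [mem_singleton_iff.1 e] at this; simp at this⟩⟩
  rw [this]; exact (convex_closedBall 0 1).inter (convex_halfSpace_re_gt _)

lemma bX : ball (0 : ℂ) 1 ⊆ X := fun z hz => ⟨ball_subset_closedBall hz, fun e => by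
  rw [mem_singleton_iff.1 e] at hz; simp at hz⟩

lemma slit {z : ℂ} (hz : z ∈ X) : 1 + z ∈ slitPlane := Or.inl (by simp; linarith [X_re hz])

lemma opn {f : ℂ → ℂ} (hf : DifferentiableOn ℂ f (ball 0 1)) (hi : InjOn f (ball 0 1)) :
    ∀ s ⊆ ball (0 : ℂ) 1, IsOpen s → IsOpen (f '' s) :=
  ((hf.analyticOnNhd isOpen_ball).is_constant_or_isOpen (convex_ball 0 1).isPreconnected).resolve_left
    fun ⟨w, h⟩ => by
      have a : (0 : ℂ) ∈ ball (0 : ℂ) 1 := by simp
      have b : (1 / 2 : ℂ) ∈ ball (0 : ℂ) 1 := by simp; norm_num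
      have := hi a b (by rw [h _ a, h _ b])
      norm_num at this

lemma bdry {f : ℂ → ℂ} (hf : DifferentiableOn ℂ f (ball 0 1)) (hi : InjOn f (ball 0 1))
    (hc : ContinuousOn f X) {z : ℂ} (hz : z ∈ X) (h1 : ‖z‖ = 1) : f z ∉ f '' ball 0 1 := by
  rintro ⟨a, ha, e⟩
  obtain ⟨U, V, hU, hV, aU, zV, hd⟩ := t2_separation (show a ≠ z by
    rintro rfl; simp [h1] at ha)
  have : z ∈ closure (ball (0 : ℂ) 1) := by rw [closure_ball _ one_ne_zero]; exact hz.1
  have := mem_closure_iff_nhdsWithin_neBot.1 this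
  obtain ⟨w, ⟨b, hb, e2⟩, w1, w2⟩ := ((((hc z hz).mono bX).tendsto.eventually ((opn hf hi _
    inter_subset_right (hU.inter isOpen_ball)).mem_nhds ⟨a, ⟨aU, ha⟩, e⟩)).and
    ((nhdsWithin_le_nhds (hV.mem_nhds zV) |> eventually_mem_set.2).and self_mem_nhdsWithin)).exists
  exact disjoint_left.1 hd hb.1 (hi hb.2 w2 e2 ▸ w1)

lemma maxp {G : ℂ → ℂ} (hG : DifferentiableOn ℂ G (ball 0 1)) (hc : ContinuousOn G X) {C : ℝ}
    (hb : ∀ᶠ z in 𝓝 (-1 : ℂ), ‖z‖ < 1 → ‖G z‖ ≤ C) (h1 : ∀ z ∈ X, ‖z‖ = 1 → ‖G z‖ ≤ 1) {z : ℂ}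
    (hz : ‖z‖ < 1) : ‖G z‖ ≤ 1 := by
  have key : ∀ n : ℕ, ‖G z ^ n * (1 + z)‖ ≤ 2 := fun n => by
    refine norm_le_of_forall_mem_frontier_norm_le (U := ball 0 1) isBounded_ball
      (f := fun z => G z ^ n * (1 + z)) ⟨(hG.pow n).mul (by fun_prop), ?_⟩ (fun w hw => ?_)
      (subset_closure (mem_ball_zero_iff.2 hz))
    · rw [closure_ball _ one_ne_zero]
      intro w hw
      by_cases e : w = -1
      · subst e
        rw [ContinuousWithinAt, add_neg_cancel, mul_zero]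
        refine squeeze_zero_norm' (a := fun z => max C 1 ^ n * ‖1 + z‖) ?_
          ((Continuous.tendsto' (by fun_prop) _ _ (by simp)).mono_left nhdsWithin_le_nhds)
        filter_upwards [nhdsWithin_le_nhds hb, self_mem_nhdsWithin] with y y1 y2
        by_cases e : y = -1
        · simp [e]
        rw [norm_mul, norm_pow]
        gcongr
        exact (mem_closedBall_zero_iff.1 y2).lt_or_eq.elim (fun h => le_max_of_le_left (y1 h))
          fun h => le_max_of_le_right (h1 y ⟨y2, e⟩ h)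
      · exact (((hc w ⟨hw, e⟩).mono_of_mem_nhdsWithin
          (inter_mem_nhdsWithin _ (isOpen_ne.mem_nhds e))).pow n).mul (by fun_prop)
    · rw [frontier_ball _ one_ne_zero, mem_sphere_zero_iff_norm] at hw
      by_cases e : w = -1
      · simp [e]
      have := pow_le_one₀ (n := n) (norm_nonneg _) (h1 w ⟨by simp [hw], e⟩ hw)
      have := norm_add_le 1 w
      rw [norm_mul, norm_pow]
      simp only [norm_one] at this
      nlinarith [norm_nonneg (1 + w)]
  by_contra h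
  have p : 0 < ‖1 + z‖ := norm_pos_iff.2 (slitPlane_ne_zero (slit (bX (mem_ball_zero_iff.2 hz))))
  obtain ⟨n, hn⟩ := pow_unbounded_of_one_lt (2 / ‖1 + z‖) (not_le.1 h)
  have := key n
  rw [norm_mul, norm_pow] at this
  rw [div_lt_iff₀ p] at hn
  linarith

lemma mono_off {u : ℝ → ℝ} (T : Finset ℝ) : ∀ a b, a < b → ContinuousOn u (Icc a b) →
    (∀ t ∈ Ioo a b, t ∉ T → ∃ d, 0 < d ∧ HasDerivAt u d t) → u a < u b := by
  induction T using Finset.induction_on with
  | empty =>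
    intro a b h hc hd
    refine strictMonoOn_of_deriv_pos (convex_Icc a b) hc (fun t ht => ?_) (left_mem_Icc.2 h.le)
      (right_mem_Icc.2 h.le) h
    obtain ⟨d, d0, e⟩ := hd t (interior_Icc (a := a) (b := b) ▸ ht) (by simp)
    rwa [e.deriv]
  | insert s T _ ih =>
    intro a b h hc hd
    by_cases hs : s ∈ Ioo a b
    · exact (ih a s hs.1 (hc.mono (Icc_subset_Icc_right hs.2.le)) fun t ht h =>
        hd t ⟨ht.1, ht.2.trans hs.2⟩ (by simp [h, ht.2.ne])).trans
        (ih s b hs.2 (hc.mono (Icc_subset_Icc_left hs.1.le)) fun t ht h =>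
          hd t ⟨hs.1.trans ht.1, ht.2⟩ (by simp [h, ht.1.ne']))
    · exact ih a b h hc fun t ht h => hd t ht (by simp [h, (ne_of_mem_of_not_mem ht hs)])

end Pool.Agent.H1.Slit
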