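import Mathlib

namespace Pool.Agent.H1.Slit

open Metric Filter Topology Set Complex Bornology

/-- `f` is a normalised univalent map of the unit disc whose image omits exactly one slit, the
piecewise analytic Jordan arc `γ([0,∞))` from `γ 0` to infinity. `f` is continued to the closed
disc, `-1` goes to infinity and `exp (φ i)` is the boundary point that goes to the tip `γ 0`. -/
structure SlitMap (f : ℂ → ℂ) (γ : ℝ → ℂ) (φ : ℝ) : Prop where
  diff : DifferentiableOn ℂ f (ball 0 1)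
  inj : InjOn f (ball 0 1)
  zero : f 0 = 0
  one : deriv f 0 = 1
  cont : ContinuousOn γ (Ici 0)
  arc : InjOn γ (Ici 0)
  infty : Tendsto γ atTop (cobounded ℂ)
  piece : ∃ T : Finset ℝ, ∀ t, 0 < t → t ∉ T → AnalyticAt ℝ γ t ∧ deriv γ t ≠ 0
  compl : (f '' ball 0 1)ᶜ = γ '' Ici 0
  ext : ContinuousOn f (closedBall 0 1 \ {-1})
  pole : Tendsto f (𝓝[closedBall 0 1 \ {-1}] (-1)) (cobounded ℂ)
  mem : φ ∈ Ioo (-Real.pi) Real.pi
  tip : ∀ z : ℂ, ‖z‖ = 1 → z ≠ -1 → (f z = γ 0 ↔ z = exp (φ * I))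

end Pool.Agent.H1.Slit
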