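import Pool.Agent.H1.SlitA
import Pool.Agent.H1.SlitDef

namespace Pool.Agent.H1.Slit

open Metric Filter Topology Set Complex Bornology

variable {f : ℂ → ℂ} {γ : ℝ → ℂ} {φ : ℝ}

lemma SlitMap.ne (h : SlitMap f γ φ) {t : ℝ} (ht : 0 ≤ t) : γ t ≠ 0 := fun e =>
  (h.compl.ge ⟨t, ht, e⟩) ⟨0, by simp, h.zero⟩

lemma psi (h : SlitMap f γ φ) {c : ℂ} (hc : ∀ t, 0 < t → DifferentiableAt ℝ γ t → deriv γ t ≠ 0 →
    0 < (deriv γ t / γ t).re ∧ 0 < (c * (deriv γ t / γ t)).re) :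
    ∃ ψ : ℝ → ℝ, Continuous ψ ∧ ψ 0 = 0 ∧
      (∀ w ∈ γ '' Ici 0, ∃ r : ℝ, 0 ≤ r ∧ w = γ 0 * exp (r + ψ r * I)) ∧
      ∀ r : ℝ, 0 ≤ r → γ 0 * exp (r + ψ r * I) ∈ γ '' Ici 0 ∧ 0 ≤ (c * (r + ψ r * I)).re := by
  obtain ⟨T, hT⟩ := h.piece
  have n0 := h.ne le_rfl
  obtain ⟨Λ, c1, z1, e1⟩ := exlog (convex_Ici (0 : ℝ)) self_mem_Ici (h.cont.div_const (γ 0))
    (fun t ht => div_ne_zero (h.ne ht) n0) (a := 0) (by simp [n0])
  have d1 : ∀ t, 0 < t → t ∉ T → HasDerivAt Λ (deriv γ t / γ t) t := fun t ht hn => by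
    have n := h.ne ht.le
    have := ((((hT t ht hn).1.differentiableAt.hasDerivAt.div_const (γ 0)).div_const
      (γ t / γ 0)).clog_real (by simp [n, n0])).const_add (Λ t)
    refine (this.congr_of_eventuallyEq (loc (c1.continuousAt (Ici_mem_nhds ht))
      (mem_of_superset (Ici_mem_nhds ht) e1))).congr_deriv ?_
    field_simp
  have m : ∀ k : ℂ, (∀ t, 0 < t → t ∉ T → 0 < (k * (deriv γ t / γ t)).re) →
      ∀ a b, 0 ≤ a → a < b → (k * Λ a).re < (k * Λ b).re := fun k hk a b ha hab =>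
    mono_off (u := fun t => (k * Λ t).re) T a b hab (continuous_re.comp_continuousOn
      (continuousOn_const.mul (c1.mono fun t ht => ha.trans ht.1))) fun t ht hn =>
      ⟨_, hk t (ha.trans_lt ht.1) hn, reCLM.hasFDerivAt.comp_hasDerivAt t
        ((d1 t (ha.trans_lt ht.1) hn).const_mul k)⟩
  have m1 := m 1 fun t ht hn => by
    rw [one_mul]; exact (hc t ht (hT t ht hn).1.differentiableAt (hT t ht hn).2).1
  have m2 := m c fun t ht hn => (hc t ht (hT t ht hn).1.differentiableAt (hT t ht hn).2).2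
  simp only [one_mul] at m1
  have c2 : Continuous fun t => Λ (max t 0) :=
    c1.comp_continuous (by fun_prop) fun t => le_max_right t 0
  set ρ : ℝ → ℝ := fun t => (Λ (max t 0)).re + min t 0 with hρ
  have ρ1 : ∀ t, 0 ≤ t → ρ t = (Λ t).re := fun t ht => by simp [hρ, ht]
  have ρ2 : ∀ t, t ≤ 0 → ρ t = t := fun t ht => by simp [hρ, ht, z1]
  have sm : StrictMono ρ := fun a b hab => by
    rcases le_total 0 a with ha | ha
    · rw [ρ1 a ha, ρ1 b (ha.trans hab.le)]; exact m1 a b ha hab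
    rcases le_or_gt b 0 with hb | hb
    · rwa [ρ2 a ha, ρ2 b hb]
    · have := m1 0 b le_rfl hb
      rw [z1, zero_re] at this
      rw [ρ2 a ha, ρ1 b hb.le]; linarith
  have su : Function.Surjective ρ := by
    refine Continuous.surjective ((continuous_re.comp c2).add (by fun_prop)) ?_ (tendsto_id.congr' ((eventually_le_atBot 0).mono
      fun t ht => (ρ2 t ht).symm))
    refine (Real.tendsto_log_atTop.comp ((tendsto_norm_atTop_iff_cobounded.2 h.infty).atTop_div_const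
      (norm_pos_iff.2 n0))).congr' ((eventually_ge_atTop 0).mono fun t ht => ?_)
    simp only [Function.comp]
    rw [ρ1 t ht, ← norm_div, ← e1 t ht, norm_exp, Real.log_exp]
  set σ := (sm.orderIsoOfSurjective ρ su).symm
  have s1 : ∀ r, ρ (σ r) = r := sm.orderIsoOfSurjective_self_symm_apply ρ su
  have s2 : ∀ t, σ (ρ t) = t := sm.orderIsoOfSurjective_symm_apply_self ρ su
  have s3 : ∀ t, 0 ≤ t → (ρ t + (Λ (max (σ (ρ t)) 0)).im * I : ℂ) = Λ t := fun t ht => by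
    rw [s2, max_eq_left ht, ρ1 t ht, re_add_im]
  have s4 : ∀ t, 0 ≤ t → γ 0 * exp (Λ t) = γ t := fun t ht => by rw [e1 t ht]; field_simp
  refine ⟨fun r => (Λ (max (σ r) 0)).im, continuous_im.comp (c2.comp σ.continuous), ?_, ?_,
    fun r hr => ?_⟩
  · have := s2 0
    rw [ρ2 0 le_rfl] at this
    simp [this, z1]
  · rintro _ ⟨t, ht, rfl⟩
    exact ⟨ρ t, (ρ2 0 le_rfl).ge.trans (sm.monotone ht), by rw [s3 t ht, s4 t ht]⟩
  · have ht : 0 ≤ σ r := sm.le_iff_le.1 (by rwa [s1, ρ2 0 le_rfl])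
    have := s3 _ ht
    rw [s1] at this
    rw [this, s4 _ ht]
    refine ⟨mem_image_of_mem _ ht, ht.eq_or_lt.elim (fun e => by simp [← e, z1]) fun l => ?_⟩
    simpa [z1] using (m2 0 _ le_rfl l).le

lemma band {S : Set ℂ} (hS : IsPreconnected S) {κ : ℂ → ℝ} (hκ : ContinuousOn κ S)
    (h : ∀ z ∈ S, ∀ k : ℤ, κ z ≠ k * (2 * Real.pi)) : ∃ C, ∀ z ∈ S, |κ z| ≤ C := by
  rcases S.eq_empty_or_nonempty with rfl | ⟨a, ha⟩
  · simp
  have key : ∀ x ∈ S, ∀ y ∈ S, κ y ≤ κ x + 2 * Real.pi := fun x hx y hy => by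
    by_contra l
    obtain ⟨z, hz, e⟩ := hS.intermediate_value hx hy hκ (show (⌈κ x / (2 * Real.pi)⌉ * (2 * Real.pi) : ℝ)
      ∈ Icc (κ x) (κ y) from ⟨(div_le_iff₀ Real.two_pi_pos).1 (Int.le_ceil _), by
        have := mul_lt_mul_of_pos_right (Int.ceil_lt_add_one (κ x / (2 * Real.pi))) Real.two_pi_pos
        rw [add_mul, div_mul_cancel₀ _ Real.two_pi_pos.ne'] at this
        linarith⟩)
    exact h z hz _ e
  exact ⟨|κ a| + 2 * Real.pi, fun z hz => abs_le.2 ⟨by linarith [key z hz a ha, neg_abs_le (κ a)],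
    by linarith [key a ha z hz, le_abs_self (κ a)]⟩⟩

lemma lock {S : Set ℝ} (hS : IsPreconnected S) {κ : ℝ → ℝ} (hκ : ContinuousOn κ S)
    (h : ∀ z ∈ S, ∃ k : ℤ, κ z = k * (2 * Real.pi)) {a : ℝ} (ha : a ∈ S) (h0 : κ a = 0) :
    ∀ z ∈ S, κ z = 0 := fun z hz => by
  have odd : ∀ y ∈ S, |κ y| ≠ Real.pi := fun y hy e => by
    obtain ⟨k, hk⟩ := h y hy
    rw [hk, abs_mul, abs_of_pos Real.two_pi_pos, ← mul_assoc, mul_left_eq_self₀,
      or_iff_left Real.pi_ne_zero] at e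
    have : |k| * 2 = 1 := by exact_mod_cast e
    omega
  obtain ⟨k, hk⟩ := h z hz
  by_contra n
  have : k ≠ 0 := by rintro rfl; simp [hk] at n
  have : (1 : ℝ) ≤ |(k : ℝ)| := by exact_mod_cast Int.one_le_abs this
  obtain ⟨y, hy, e⟩ := hS.intermediate_value ha hz hκ.abs (show Real.pi ∈ Icc |κ a| |κ z| from
    ⟨by simp [h0, Real.pi_pos.le], by
      rw [hk, abs_mul, abs_of_pos Real.two_pi_pos]; nlinarith [Real.pi_pos]⟩)
  exact odd y hy e

end Pool.Agent.H1.Slit
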