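import Pool.Agent.H1.SlitB

namespace Pool.Agent.H1.Slit

open Metric Filter Topology Set Complex Bornology
open scoped Real

variable {f : ℂ → ℂ} {γ : ℝ → ℂ} {φ : ℝ}

lemma cosp {θ : ℝ} (h : θ ∈ Ioo (-π) π) : 0 < Real.cos (θ / 2) :=
  Real.cos_pos_of_mem_Ioo ⟨by linarith [h.1], by linarith [h.2]⟩

lemma one_add (θ : ℝ) : 1 + exp (θ * I) = (2 * Real.cos (θ / 2) : ℝ) * exp ((θ / 2 : ℝ) * I) := by
  push_cast
  rw [two_cos, add_mul, ← exp_add, ← exp_add, add_comm]
  congr 1
  · congr 1; ring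
  · rw [← exp_zero]; congr 1; ring

lemma log1 {θ : ℝ} (h : θ ∈ Ioo (-π) π) :
    log (1 + exp (θ * I)) = Real.log (2 * Real.cos (θ / 2)) + (θ / 2 : ℝ) * I := by
  rw [one_add, log_ofReal_mul (by linarith [cosp h]) (exp_ne_zero _), log_exp]
  · simp; linarith [h.1, Real.pi_pos]
  · simp; linarith [h.2, Real.pi_pos]

lemma circ {θ : ℝ} (h : θ ∈ Ioo (-π) π) : exp (θ * I) ∈ X :=
  ⟨by simp, fun e => by
    have := one_add θ
    rw [mem_singleton_iff.1 e, add_neg_cancel, eq_comm, mul_eq_zero, or_iff_left (exp_ne_zero _),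
      ofReal_eq_zero] at this
    linarith [cosp h]⟩

lemma circ' {z : ℂ} (hz : z ∈ X) (h1 : ‖z‖ = 1) : ∃ θ ∈ Ioo (-π) π, z = exp (θ * I) := by
  have e : z = exp (arg z * I) := by simpa [h1] using (norm_mul_exp_arg_mul_I z).symm
  refine ⟨arg z, ⟨neg_pi_lt_arg z, (arg_le_pi z).lt_of_ne fun h => hz.2 ?_⟩, e⟩
  rw [e, h, exp_pi_mul_I]; rfl

lemma Epos (hφ : φ ∈ Ioo (-π) π) {c : ℂ}
    (h : (c - 2 * c.im * I * (exp (φ * I) / (1 + exp (φ * I)))).re < 0) :
    ∀ᶠ w in 𝓝 (φ * I : ℂ), w.re < 0 →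
      0 < (c * (w - φ * I) - 2 * c.im * I * (log (1 + exp w) - log (1 + exp (φ * I)))).re := by
  have s := slit (circ hφ)
  have c1 : ContinuousAt (fun w : ℂ => (c - 2 * c.im * I * (exp w / (1 + exp w))).re) (φ * I) := by
    have := slitPlane_ne_zero s
    fun_prop (disch := assumption)
  have c2 : ContinuousAt (fun w : ℂ => 1 + exp w) (φ * I) := by fun_prop
  obtain ⟨δ, δ0, hδ⟩ := Metric.eventually_nhds_iff_ball.1 ((c1.eventually_lt_const h).and
    ((c2.eventually (isOpen_slitPlane.mem_nhds s)).and (continuous_im.continuousAt.eventually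
      (isOpen_Ioo.mem_nhds (show (φ * I : ℂ).im ∈ Ioo (-π) π by simpa using hφ)))))
  filter_upwards [ball_mem_nhds _ δ0] with w hw w0
  have b : ∀ x ∈ Icc w.re 0, (x + w.im * I : ℂ) ∈ ball (φ * I : ℂ) δ := fun x hx => by
    refine mem_ball_iff_norm.2 (lt_of_le_of_lt ?_ (mem_ball_iff_norm.1 hw))
    rw [← sq_le_sq₀ (norm_nonneg _) (norm_nonneg _), Complex.sq_norm, Complex.sq_norm, normSq_apply,
      normSq_apply]
    simp; nlinarith [hx.1, hx.2]
  have d : ∀ x ∈ Icc w.re 0, HasDerivAt (fun x : ℝ => -(c * (x + w.im * I - φ * I) - 2 * c.im * I *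
      (log (1 + exp (x + w.im * I)) - log (1 + exp (φ * I)))).re) (-(c - 2 * c.im * I *
      (exp (x + w.im * I) / (1 + exp (x + w.im * I)))).re) x := fun x hx => by
    have h1 := (hasDerivAt_id (x : ℂ)).add_const (w.im * I)
    have := (((h1.sub_const (φ * I)).const_mul c).fun_sub ((((h1.cexp.const_add 1).clog
      (hδ _ (b x hx)).2.1).sub_const (log (1 + exp (φ * I)))).const_mul
      (2 * c.im * I))).real_of_complex.fun_neg
    simpa only [id, mul_one] using this
  have := mono_off ∅ w.re 0 w0 (fun x hx => (d x hx).continuousAt.continuousWithinAt) fun x hx _ =>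
    ⟨_, neg_pos.2 (hδ _ (b x (Ioo_subset_Icc_self hx))).1, d x (Ioo_subset_Icc_self hx)⟩
  simp only [re_add_im, ofReal_zero, zero_add] at this
  rw [log1 (hδ w hw).2.2] at this
  nth_rw 2 [log1 hφ] at this
  refine neg_lt_zero.1 (this.trans_eq ?_)
  simp; ring

lemma core (h : SlitMap f γ φ) {c : ℂ} (c0 : 0 < c.re)
    (hc : ∀ t, 0 < t → DifferentiableAt ℝ γ t → deriv γ t ≠ 0 →
      0 < (deriv γ t / γ t).re ∧ 0 < (c * (deriv γ t / γ t)).re) :
    0 ≤ (c - 2 * c.im * I * (exp (φ * I) / (1 + exp (φ * I)))).re := by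
  obtain ⟨ψ, ψc, ψ0, P2, P3⟩ := psi h hc
  have n0 := h.ne le_rfl
  have ξX := circ h.mem
  have fξ := (h.tip _ (norm_exp_ofReal_mul_I φ) ξX.2).2 rfl
  have out : ∀ z ∈ ball (0 : ℂ) 1, f z ∉ γ '' Ici 0 := fun z hz e => h.compl.ge e ⟨z, hz, rfl⟩
  have bd : ∀ z ∈ X, ‖z‖ = 1 → f z ∈ γ '' Ici 0 := fun z hz e => h.compl.le (bdry h.diff h.inj h.ext hz e)
  have b0 : ball (0 : ℂ) 1 ∈ 𝓝 0 := ball_mem_nhds _ one_pos
  have fg : ∀ z, z * dslope f 0 z = f z := fun z => by simpa [h.zero] using sub_smul_dslope f 0 z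
  have fn : ∀ z ∈ X, z ≠ 0 → f z ≠ 0 := fun z hz z0 e =>
    (mem_closedBall_zero_iff.1 hz.1).lt_or_eq.elim (fun l => z0 (h.inj (mem_ball_zero_iff.2 l)
      (by simp) (e.trans h.zero.symm))) fun l => by
        obtain ⟨t, ht, e'⟩ := bd z hz l
        exact h.ne ht (e'.trans e)
  obtain ⟨A, Ac, Aξ, eA⟩ := exlog X_conv ξX (g := fun z => dslope f 0 z * (exp (φ * I) / γ 0))
    (((continuousOn_dslope (mem_of_superset b0 bX)).2 ⟨h.ext, h.diff.differentiableAt b0⟩).mul
      continuousOn_const) (fun z hz => mul_ne_zero (by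
        by_cases z0 : z = 0
        · simp [z0, h.one]
        · exact right_ne_zero_of_mul ((fg z).symm ▸ fn z hz z0)) (div_ne_zero (exp_ne_zero _) n0))
    (a := 0) (by rw [← mul_div_assoc, mul_comm, fg, fξ, div_self n0, exp_zero])
  have eL : ∀ z ∈ X, ∀ w, exp w = z → γ 0 * exp (w - φ * I + A z) = f z := fun z hz w e => by
    rw [exp_add, exp_sub, eA z hz, e, ← fg]; field_simp
  have Ad : DifferentiableOn ℂ A (ball 0 1) := fun z hz => by
    have m := isOpen_ball.mem_nhds hz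
    have n := (eA z (bX hz)).symm ▸ exp_ne_zero (A z)
    exact ((((((differentiableOn_dslope b0).2 h.diff).differentiableAt m).mul_const _).div_const
      _).clog (by simp only [div_self n]; simp) |>.const_add (A z)).congr_of_eventuallyEq
      (loc (Ac.continuousAt (mem_of_superset m bX)) (mem_of_superset m fun w hw => eA w (bX hw)))
      |>.differentiableWithinAt
  have V : ∀ z : ℂ, ‖z‖ < 1 →
      0 ≤ (c * A z + 2 * c.im * I * (log (1 + z) - log (1 + exp (φ * I)))).re := fun z hz => by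
    have cl : ContinuousOn (fun z => log (1 + z)) X := ContinuousOn.clog (by fun_prop) fun _ => slit
    obtain ⟨ε, ε0, hε⟩ := Metric.eventually_nhds_iff_ball.1 ((eventually_nhdsWithin_iff.1
      ((tendsto_norm_atTop_iff_cobounded.2 h.pole).eventually_ge_atTop ‖γ 0‖)).and
      (ball_mem_nhds (-1 : ℂ) one_pos))
    have ng : ∀ z ∈ ball (0 : ℂ) 1 ∩ ball (-1) ε, -z ∈ slitPlane := fun z hz => Or.inl (by
      have := (re_le_norm _).trans_lt (mem_ball_iff_norm.1 (hε z hz.2).2)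
      simp at this ⊢; linarith)
    have r0 : ∀ z ∈ ball (0 : ℂ) 1 ∩ ball (-1) ε, 0 ≤ (log (-z) + π * I - φ * I + A z).re ∧
        γ 0 * exp (log (-z) + π * I - φ * I + A z) = f z := fun z hz => by
      have := eL z (bX hz.1) (log (-z) + π * I) (by
        rw [exp_add, exp_log (slitPlane_ne_zero (ng z hz)), exp_pi_mul_I]; simp)
      refine ⟨?_, this⟩
      have l := (hε z hz.2).1 (bX hz.1)
      rwa [← this, norm_mul, le_mul_iff_one_le_right (norm_pos_iff.2 n0), norm_exp,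
        Real.one_le_exp_iff] at l
    have cW : ContinuousOn (fun z => log (-z) + π * I - φ * I + A z) (ball (0 : ℂ) 1 ∩ ball (-1) ε) :=
      (((ContinuousOn.clog (by fun_prop) ng).add continuousOn_const).sub continuousOn_const).add
        (Ac.mono fun z hz => bX hz.1)
    obtain ⟨C, hC⟩ := band ((convex_ball 0 1).inter (convex_ball (-1) ε)).isPreconnected
      (κ := fun z => (log (-z) + π * I - φ * I + A z).im - ψ (log (-z) + π * I - φ * I + A z).re)
      ((continuous_im.comp_continuousOn cW).sub ((ψc.comp continuous_re).comp_continuousOn cW))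
      fun z hz k e => out z hz.1 (by
        have := (P3 _ (r0 z hz).1).1
        rw [← (r0 z hz).2]
        convert this using 2
        exact exp_eq_exp_iff_exists_int.2 ⟨k, Complex.ext (by simp) (by
          rw [sub_eq_iff_eq_add.1 e]; simp [add_comm])⟩)
    have := maxp (G := fun z => exp (-(c * A z + 2 * c.im * I * (log (1 + z) - log (1 + exp (φ * I))))))
      (C := Real.exp (|c.im| * (C + 7 * π))) (((Ad.const_mul c).add (((DifferentiableOn.clog
        (by fun_prop) fun z hz => slit (bX hz)).sub_const _).const_mul _)).neg.cexp)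
      (((Ac.const_mul c).add ((cl.sub continuousOn_const).const_mul _)).neg.cexp) ?_ ?_ hz
    · rwa [norm_exp, Real.exp_le_one_iff, neg_re, neg_nonpos] at this
    · filter_upwards [ball_mem_nhds _ ε0] with z z1 z2
      have hz : z ∈ ball (0 : ℂ) 1 ∩ ball (-1) ε := ⟨mem_ball_zero_iff.2 z2, z1⟩
      have h1 := abs_le.1 (hC z hz)
      have h2 := (P3 _ (r0 z hz).1).2
      have h3 := abs_le.1 (abs_arg_le_pi (-z))
      have h4 := abs_le.1 (abs_arg_le_pi (1 + z))
      have h5 := abs_le.1 (abs_arg_le_pi (1 + exp (φ * I)))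
      have h6 := mul_nonpos_of_nonneg_of_nonpos c0.le (Real.log_nonpos (norm_nonneg z) z2.le)
      set y := ψ (log (-z) + π * I - φ * I + A z).re
      have h7 : |(A z).im - y + 2 * (arg (1 + z) - arg (1 + exp (φ * I)))| ≤ C + 7 * π := by
        simp [log_im] at h1
        rw [abs_le]; constructor <;> linarith [h.mem.1, h.mem.2]
      have h8 := (le_abs_self _).trans ((abs_mul c.im _).trans_le
        (mul_le_mul_of_nonneg_left h7 (abs_nonneg _)))
      rw [norm_exp, Real.exp_le_exp]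
      simp [log_im, log_re] at h2 ⊢
      linarith
    · intro z hz h1
      obtain ⟨θ, hθ, rfl⟩ := circ' hz h1
      have k : ∀ θ ∈ Ioo (-π) π, 0 ≤ (A (exp (θ * I))).re ∧ ∃ k : ℤ, θ - φ + (A (exp (θ * I))).im -
          ψ (A (exp (θ * I))).re = k * (2 * π) := fun θ hθ => by
        obtain ⟨r, r0, e⟩ := P2 _ (bd _ (circ hθ) (norm_exp_ofReal_mul_I θ))
        rw [← eL _ (circ hθ) _ rfl, mul_right_inj' n0, exp_eq_exp_iff_exists_int] at e
        obtain ⟨k, e⟩ := e
        have e1 := congrArg re e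
        have e2 := congrArg im e
        simp at e1 e2
        exact ⟨e1 ▸ r0, k, by rw [e1, e2]; ring⟩
      have cA : ContinuousOn (fun θ : ℝ => A (exp (θ * I))) (Ioo (-π) π) :=
        Ac.comp (by fun_prop) fun _ => circ
      have := lock isPreconnected_Ioo (((continuousOn_id.sub continuousOn_const).add
        (continuous_im.comp_continuousOn cA)).sub ((ψc.comp continuous_re).comp_continuousOn cA))
        (fun θ hθ => (k θ hθ).2) h.mem (by simp [Aξ, ψ0]) θ hθ
      have h2 := (P3 _ (k θ hθ).1).2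
      rw [norm_exp, Real.exp_le_one_iff, log1 hθ, log1 h.mem]
      simp at this h2 ⊢
      rw [← sub_eq_zero.1 this] at h2
      linarith
  by_contra hn
  have lξ : log (exp (φ * I)) = φ * I := log_exp (by simpa using h.mem.1) (by simpa using h.mem.2.le)
  have ξs : exp (φ * I) ∈ slitPlane := mem_slitPlane_iff_arg.2
    ⟨by rw [← log_im, lξ]; simpa using h.mem.2.ne, exp_ne_zero _⟩
  have tl : Tendsto log (𝓝 (exp (φ * I))) (𝓝 (φ * I)) := by
    simpa only [lξ] using (continuousAt_clog ξs).tendsto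
  obtain ⟨O, Oo, Oξ, hO⟩ := mem_nhdsWithin.1 (((tl.eventually (Epos h.mem (not_le.1 hn))).and
    (eventually_ne_nhds (exp_ne_zero _)) |>.filter_mono nhdsWithin_le_nhds).and
    ((((tl.mono_left nhdsWithin_le_nhds).sub_const (φ * I)).add (Ac _ ξX).tendsto).eventually
      (ball_mem_nhds _ Real.pi_pos)))
  obtain ⟨Q, Qo, Q1, hQ⟩ := mem_nhdsWithin.1
    ((tendsto_norm_atTop_iff_cobounded.2 h.pole).eventually_ge_atTop ‖γ 0‖)
  have KX : closedBall 0 1 \ (O ∪ Q) ⊆ X := fun z hz => ⟨hz.1, fun e => hz.2 (Or.inr (e ▸ Q1))⟩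
  have hK := (((isCompact_closedBall (0 : ℂ) 1).diff (Oo.union Qo)).image_of_continuousOn
    (h.ext.mono KX)).isClosed
  have ct : Tendsto (fun t : ℝ => γ 0 * exp (-t)) (𝓝[>] 0) (𝓝 (γ 0)) :=
    (Continuous.tendsto' (by fun_prop) _ _ (by simp)).mono_left nhdsWithin_le_nhds
  obtain ⟨t, h1, t0⟩ := ((ct.eventually (hK.isOpen_compl.mem_nhds (by
    rintro ⟨z, hz, e⟩
    rcases (mem_closedBall_zero_iff.1 hz.1).lt_or_eq with l | l
    · exact out z (mem_ball_zero_iff.2 l) ⟨0, self_mem_Ici, e.symm⟩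
    · exact hz.2 (Or.inl ((h.tip z l (KX hz).2).1 e ▸ Oξ))))).and self_mem_nhdsWithin).exists
  have lt : ‖γ 0 * exp (-t)‖ < ‖γ 0‖ := by
    rw [norm_mul, mul_lt_iff_lt_one_right (norm_pos_iff.2 n0), norm_exp, Real.exp_lt_one_iff]
    simpa using t0
  obtain ⟨z, hz, e⟩ : γ 0 * exp (-t) ∈ f '' ball 0 1 := by_contra fun k => by
    obtain ⟨r, r0, e⟩ := P2 _ (h.compl.le k)
    rw [e, norm_mul, mul_lt_iff_lt_one_right (norm_pos_iff.2 n0), norm_exp, Real.exp_lt_one_iff] at lt
    simp at lt; linarith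
  have zO : z ∈ O := by_contra fun k => h1 ⟨z, ⟨ball_subset_closedBall hz, fun u => u.elim k fun u =>
    lt.not_ge (e ▸ hQ ⟨u, bX hz⟩)⟩, e⟩
  obtain ⟨⟨a1, a2⟩, a3⟩ := hO ⟨zO, bX hz⟩
  rw [Aξ, sub_self, add_zero, dist_zero_right] at a3
  have a4 := abs_lt.1 ((abs_im_le_norm _).trans_lt a3)
  have a5 := eL z (bX hz) _ (exp_log a2)
  rw [e, mul_right_inj' n0] at a5
  have a6 := exp_inj_of_neg_pi_lt_of_le_pi a4.1 a4.2.le (by simpa using Real.pi_pos)
    (by simpa using Real.pi_pos.le) a5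
  have a7 := add_pos_of_pos_of_nonneg (a1 (by
    rw [log_re]; exact Real.log_neg (norm_pos_iff.2 a2) (mem_ball_zero_iff.1 hz)))
    (V z (mem_ball_zero_iff.1 hz))
  rw [exp_log a2, ← add_re, sub_add_add_cancel, ← mul_add, a6] at a7
  simp at a7
  nlinarith

lemma tanh2 : (exp (φ * I) / (1 + exp (φ * I))).im =
    Real.sin (φ / 2) / (2 * Real.cos (φ / 2)) := by
  rw [one_add, mul_comm (_ : ℂ) (exp _), ← div_div, ← exp_sub, div_ofReal_im,
    show (φ * I - (φ / 2 : ℝ) * I : ℂ) = (φ / 2 : ℝ) * I by push_cast; ring, exp_ofReal_mul_I_im]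

lemma upper (h : SlitMap f γ φ) {β : ℝ} (β0 : 0 ≤ β)
    (hc : ∀ t, 0 < t → DifferentiableAt ℝ γ t → deriv γ t ≠ 0 → |arg (deriv γ t / γ t)| ≤ β) :
    |φ| ≤ 2 * β := by
  by_contra hn
  obtain ⟨b, b1, b2⟩ := exists_between (show β < |φ| / 2 by linarith [not_le.1 hn])
  have hφ := abs_lt.2 h.mem
  have p := cosp h.mem
  obtain ⟨s, hs, s1⟩ : ∃ s : ℝ, (s = 1 ∨ s = -1) ∧ s * φ = |φ| :=
    (abs_cases φ).elim (fun e => ⟨1, by simp, by linarith [e.1]⟩) fun e => ⟨-1, by simp, by linarith [e.1]⟩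
  have ss : ∀ x, Real.sin (s * x) = s * Real.sin x := by rcases hs with rfl | rfl <;> simp
  have cs : ∀ x, Real.cos (s * x) = Real.cos x := by rcases hs with rfl | rfl <;> simp
  have sa : ∀ x, |s * x| = |x| := by rcases hs with rfl | rfl <;> simp
  have := core h (c := Real.sin b - s * Real.cos b * I) (by
    simpa [sin_ofReal_re] using Real.sin_pos_of_pos_of_lt_pi (x := b) (by linarith) (by linarith))
    fun t ht h1 h2 => by
      have a := abs_le.1 (hc t ht h1 h2)
      have a' := abs_le.1 ((sa _).trans_le (hc t ht h1 h2))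
      have n := norm_pos_iff.2 (div_ne_zero h2 (h.ne ht.le))
      set u := deriv γ t / γ t
      have h3 := mul_pos n (Real.cos_pos_of_mem_Ioo (x := arg u) ⟨by linarith, by linarith⟩)
      have h4 := mul_pos n (Real.sin_pos_of_pos_of_lt_pi (x := b + s * arg u) (by linarith)
        (by linarith))
      rw [Real.sin_add, ss, cs] at h4
      rw [norm_mul_cos_arg] at h3
      refine ⟨h3, h4.trans_eq ?_⟩
      simp only [mul_re, sub_re, sub_im, mul_im, ofReal_re, ofReal_im, I_re, I_im]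
      rw [← norm_mul_cos_arg u, ← norm_mul_sin_arg u]; ring
  have h5 := Real.sin_pos_of_pos_of_lt_pi (x := s * (φ / 2) - b) (by linarith) (by linarith)
  rw [Real.sin_sub, ss, cs] at h5
  simp only [mul_re, sub_re, sub_im, mul_im, ofReal_re, ofReal_im, I_re, I_im, tanh2,
    re_ofNat, im_ofNat] at this
  have := mul_nonneg this p.le
  field_simp at this
  nlinarith

end Pool.Agent.H1.Slit
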