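import Pool.Agent.H1.SlitC

namespace Pool.Agent.H1.Slit

open Metric Filter Topology Set Complex Bornology
open scoped Real

variable {φ : ℝ}

lemma nw {U : Set ℂ} (hU : Convex ℝ U) {g g' : ℂ → ℂ} (hd : ∀ z ∈ U, HasDerivAt g (g' z) z)
    (hp : ∀ z ∈ U, 0 < (g' z).re) : InjOn g U := fun a ha b hb e => by
  by_contra n
  have n := sub_ne_zero.2 (Ne.symm n)
  have m : ∀ t ∈ Icc (0 : ℝ) 1, a + t * (b - a) ∈ U := fun t ht => hU.add_smul_sub_mem ha hb ht
  have d : ∀ t ∈ Icc (0 : ℝ) 1, HasDerivAt (fun t : ℝ => (g (a + t * (b - a)) / (b - a)).re)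
      (g' (a + t * (b - a))).re t := fun t ht => by
    have := (((hd _ (m t ht)).comp (t : ℂ) (((hasDerivAt_id (t : ℂ)).mul_const (b - a)).const_add
      a)).div_const (b - a)).real_of_complex
    simpa [n] using this
  have := mono_off ∅ 0 1 one_pos (fun t ht => (d t ht).continuousAt.continuousWithinAt) fun t ht _ =>
    ⟨_, hp _ (m t (Ioo_subset_Icc_self ht)), d t (Ioo_subset_Icc_self ht)⟩
  simp [e] at this

noncomputable def P (φ : ℝ) (z : ℂ) : ℂ :=
  (exp ((φ / 2 : ℝ) * I) - exp (-((φ / 2 : ℝ) * I)) * z) / (1 + z)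

lemma eta (x : ℝ) : (exp (x * I)).re = Real.cos x ∧ (exp (x * I)).im = Real.sin x ∧
    (exp (-(x * I))).re = Real.cos x ∧ (exp (-(x * I))).im = -Real.sin x := by
  rw [← neg_mul, ← ofReal_neg]
  simp only [exp_ofReal_mul_I_re, exp_ofReal_mul_I_im, Real.cos_neg, Real.sin_neg, and_self]

lemma Ppos (h : φ ∈ Ioo (-π) π) {z : ℂ} (hz : z ∈ ball (0 : ℂ) 1) : 0 < (P φ z).re := by
  have n := normSq_pos.2 (slitPlane_ne_zero (slit (bX hz)))
  have l : normSq z < 1 := by
    rw [normSq_eq_norm_sq]; exact pow_lt_one₀ (norm_nonneg z) (mem_ball_zero_iff.1 hz) two_ne_zero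
  obtain ⟨a, b, c, d⟩ := eta (φ / 2)
  rw [P, div_re, ← add_div]
  refine div_pos ?_ n
  simp only [sub_re, sub_im, mul_re, mul_im, a, b, c, d, add_re, add_im, one_re, one_im]
  rw [normSq_apply] at l
  nlinarith [mul_pos (cosp h) (sub_pos.2 l)]

lemma nz : Tendsto (fun z : ℂ => ‖1 + z‖) (𝓝[X] (-1)) (𝓝[>] 0) :=
  tendsto_nhdsWithin_iff.2 ⟨(Continuous.tendsto' (by fun_prop) _ _ (by simp)).mono_left
    nhdsWithin_le_nhds, eventually_nhdsWithin_of_forall fun _ hz =>
      norm_pos_iff.2 (slitPlane_ne_zero (slit hz))⟩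

lemma ray (h : φ ∈ Ioo (-π) π) : SlitMap (fun z => (exp (φ * I) - P φ z ^ 2) / (2 * (1 + exp (φ * I))))
    (fun t => (exp (φ * I) + t) / (2 * (1 + exp (φ * I)))) φ := by
  have n := mul_ne_zero two_ne_zero (slitPlane_ne_zero (slit (circ h)))
  obtain ⟨a, b, c, d⟩ := eta (φ / 2)
  have p := cosp h
  have e1 : exp ((φ / 2 : ℝ) * I) * exp (-((φ / 2 : ℝ) * I)) = 1 := by rw [← exp_add]; simp
  have e2 : exp ((φ / 2 : ℝ) * I) ^ 2 = exp (φ * I) := by
    rw [← exp_nat_mul]; congr 1; push_cast; ring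
  have nz' : ∀ z ∈ X, 1 + z ≠ 0 := fun z hz => slitPlane_ne_zero (slit hz)
  have s0 : exp ((φ / 2 : ℝ) * I) + exp (-((φ / 2 : ℝ) * I)) ≠ 0 := fun e => by
    have := congrArg re e
    rw [add_re, a, c, zero_re] at this; linarith
  have dP : DifferentiableOn ℂ (P φ) X := DifferentiableOn.div (by fun_prop) (by fun_prop) nz'
  have dγ : ∀ t : ℝ, HasDerivAt (fun t : ℝ => (exp (φ * I) + t) / (2 * (1 + exp (φ * I))))
    (1 / (2 * (1 + exp (φ * I)))) t := fun t => (ofRealCLM.hasDerivAt.const_add _).div_const _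
  unfold P at *
  set η := exp ((φ / 2 : ℝ) * I)
  set ζ := exp (-((φ / 2 : ℝ) * I))
  refine ⟨((differentiableOn_const _).sub ((dP.mono bX).pow 2)).div_const _, fun x hx y hy e => ?_,
    by simp [e2], ?_, by fun_prop, fun x _ y _ e => by simpa [n] using e, ?_, ⟨∅, fun t _ _ =>
      ⟨?_, by rw [(dγ t).deriv]; exact one_div_ne_zero n⟩⟩, ?_,
      (continuousOn_const.sub (dP.continuousOn.pow 2)).div_const _, ?_, h, fun z h1 h2 => ?_⟩
  · rcases sq_eq_sq_iff_eq_or_eq_neg.1 (sub_right_injective ((div_left_inj' n).1 e)) with k | k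
    · rw [div_eq_div_iff (nz' x (bX hx)) (nz' y (bX hy))] at k
      exact mul_left_cancel₀ s0 (by linear_combination -k)
    · have := Ppos h hx
      have := Ppos h hy
      have := congrArg re k
      simp only [P, neg_re] at *; linarith
  · have := (((((((hasDerivAt_id (0 : ℂ)).const_mul ζ).const_sub η).fun_div
      ((hasDerivAt_id (0 : ℂ)).const_add 1) (by simp)).fun_pow 2).const_sub (exp (φ * I))).div_const
        (2 * (1 + exp (φ * I)))).deriv
    simp only [id] at this
    rw [this, div_eq_one_iff_eq n]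
    simp; linear_combination 2 * e1 + 2 * e2
  · exact (tendsto_mul_right_cobounded (inv_ne_zero n)).comp ((tendsto_const_add_cobounded _).comp
      (RCLike.tendsto_ofReal_atTop_cobounded ℂ))
  · exact (analyticAt_const.add (ofRealCLM.analyticAt t)).mul analyticAt_const
  · ext w
    constructor
    · intro hw
      by_contra k
      have s : exp (φ * I) - 2 * (1 + exp (φ * I)) * w ∈ slitPlane := by
        by_contra s
        obtain ⟨s1, s2⟩ := not_or.1 s
        refine k ⟨-(exp (φ * I) - 2 * (1 + exp (φ * I)) * w).re, neg_nonneg.2 (not_lt.1 s1), ?_⟩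
        beta_reduce
        rw [div_eq_iff n, ofReal_neg, show (((exp (φ * I) - 2 * (1 + exp (φ * I)) * w).re : ℝ) : ℂ)
          = exp (φ * I) - 2 * (1 + exp (φ * I)) * w from Complex.ext rfl (not_not.1 s2).symm]
        ring
      set v := exp (φ * I) - 2 * (1 + exp (φ * I)) * w with hv
      have q2 : exp (log v / 2) ^ 2 = v := by
        rw [← exp_nat_mul, Nat.cast_ofNat, mul_div_cancel₀ _ two_ne_zero, exp_log (slitPlane_ne_zero s)]
      have q0 : 0 < (exp (log v / 2)).re := by
        rw [exp_re]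
        refine mul_pos (Real.exp_pos _) ?_
        simpa [log_im] using cosp ⟨neg_pi_lt_arg v, (arg_le_pi v).lt_of_ne (slitPlane_arg_ne_pi s)⟩
      set q := exp (log v / 2)
      have q1 : q + ζ ≠ 0 := fun e => by
        have := congrArg re e
        rw [add_re, c, zero_re] at this; linarith
      refine hw ⟨(η - q) / (q + ζ), ?_, ?_⟩
      · rw [mem_ball_zero_iff, norm_div, div_lt_one (norm_pos_iff.2 q1),
          ← sq_lt_sq₀ (norm_nonneg _) (norm_nonneg _), Complex.sq_norm, Complex.sq_norm, normSq_apply,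
          normSq_apply]
        simp only [sub_re, sub_im, add_re, add_im, a, b, c, d]
        nlinarith [mul_pos p q0]
      · have : (η - ζ * ((η - q) / (q + ζ))) / (1 + (η - q) / (q + ζ)) = q := by
          have : 1 + (η - q) / (q + ζ) = (η + ζ) / (q + ζ) := by field_simp; ring
          rw [this]; field_simp; ring
        simp only [this, q2, hv]; rw [div_eq_iff n]; ring
    · rintro ⟨t, ht, rfl⟩ ⟨z, hz, e⟩
      have k := Ppos h hz
      have e := (div_left_inj' n).1 e
      have e3 := congrArg re e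
      have e4 := congrArg im e
      simp only [P] at k
      set u := (η - ζ * z) / (1 + z)
      simp [pow_two] at e3 e4
      have : u.im = 0 := by nlinarith
      rw [this] at e3
      nlinarith [mem_Ici.1 ht]
  · have t : Tendsto (fun z => (η - ζ * z) / (1 + z)) (𝓝[X] (-1)) (cobounded ℂ) := by
      rw [← tendsto_norm_atTop_iff_cobounded]
      simp only [div_eq_mul_inv, norm_mul, norm_inv]
      exact Tendsto.pos_mul_atTop (norm_pos_iff.2 s0) ((Continuous.tendsto' (by fun_prop) _ _
        (by simp)).mono_left nhdsWithin_le_nhds) (tendsto_inv_nhdsGT_zero.comp nz)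
    exact (tendsto_mul_right_cobounded (inv_ne_zero n)).comp ((tendsto_const_sub_cobounded _).comp
      ((tendsto_pow_cobounded_cobounded two_ne_zero).comp t))
  · have := nz' z ⟨by simp [h1], h2⟩
    rw [div_left_inj' n, ofReal_zero, add_zero, sub_eq_self, pow_eq_zero_iff two_ne_zero,
      div_eq_zero_iff, or_iff_left this, ← e2]
    exact ⟨fun e => by linear_combination -η * e - z * e1, fun e => by
      rw [e]; linear_combination -η * e1⟩

end Pool.Agent.H1.Slit
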