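import Pool.Agent.H1.SlitD

namespace Pool.Agent.H1.Slit

open Metric Filter Topology Set Complex Bornology
open scoped Real

variable {φ : ℝ}

lemma mk {f : ℂ → ℂ} {Γ : Set ℂ} (hf : DifferentiableOn ℂ f (ball 0 1)) (hi : InjOn f (ball 0 1))
    (hc : ContinuousOn f X) (hp : Tendsto f (𝓝[X] (-1)) (cobounded ℂ))
    (h1 : ∀ z ∈ X, ‖z‖ = 1 → f z ∈ Γ) (h2 : ∀ w ∈ Γ, ∃ z ∈ X, ‖z‖ = 1 ∧ f z = w)
    (h3 : ∀ w ∉ Γ, ∃ S, IsPreconnected S ∧ w ∈ S ∧ S ⊆ Γᶜ ∧ (S ∩ f '' ball 0 1).Nonempty) :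
    (f '' ball 0 1)ᶜ = Γ := by
  refine subset_antisymm (fun w hw => by_contra fun k => ?_) fun w hw => ?_
  · obtain ⟨S, s1, s2, s3, s4⟩ := h3 w k
    refine hw (s1.subset_of_closure_inter_subset (opn hf hi _ subset_rfl isOpen_ball) s4 ?_ s2)
    rintro v ⟨v1, v2⟩
    obtain ⟨Q, Qo, Q1, hQ⟩ := mem_nhdsWithin.1
      ((tendsto_norm_atTop_iff_cobounded.2 hp).eventually_ge_atTop (‖v‖ + 1))
    have KX : closedBall 0 1 \ Q ⊆ X := fun z hz => ⟨hz.1, fun e => hz.2 (e ▸ Q1)⟩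
    rcases closure_minimal (t := f '' (closedBall 0 1 \ Q) ∪ {u | ‖v‖ + 1 ≤ ‖u‖}) (by
      rintro _ ⟨z, hz, rfl⟩
      by_cases q : z ∈ Q
      · exact Or.inr (hQ ⟨q, bX hz⟩)
      · exact Or.inl ⟨z, ⟨ball_subset_closedBall hz, q⟩, rfl⟩) ((((isCompact_closedBall (0 : ℂ) 1).diff
        Qo).image_of_continuousOn (hc.mono KX)).isClosed.union (isClosed_le (by fun_prop)
        (by fun_prop))) v1 with ⟨z, hz, rfl⟩ | l
    · exact (mem_closedBall_zero_iff.1 hz.1).lt_or_eq.elim (fun l => ⟨z, mem_ball_zero_iff.2 l, rfl⟩)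
        fun l => (s3 v2 (h1 z (KX hz) l)).elim
    · simp at l; linarith
  · obtain ⟨z, a, b, rfl⟩ := h2 w hw
    exact bdry hf hi hc a b

noncomputable def m (φ θ : ℝ) : ℝ :=
  -θ * Real.sin (φ / 2) - 2 * Real.cos (φ / 2) * Real.log (2 * Real.cos (θ / 2))

lemma m_der {θ : ℝ} (h : θ ∈ Ioo (-π) π) :
    HasDerivAt (m φ) (Real.sin (θ / 2 - φ / 2) / Real.cos (θ / 2)) θ := by
  have p := cosp h
  refine (((hasDerivAt_id θ).fun_neg.mul_const _).fun_sub ((((((hasDerivAt_id θ).div_const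
    2).cos.const_mul 2).log (by simp only [id]; positivity))).const_mul _)).congr_deriv ?_
  simp only [id, Real.sin_sub]; field_simp; ring

lemma m_lt (hφ : φ ∈ Ioo (-π) π) {θ : ℝ} (h : θ ∈ Ioo (-π) π) (n : θ ≠ φ) : m φ φ < m φ θ := by
  rcases n.lt_or_gt with l | l
  · have s : ∀ t ∈ Icc θ φ, t ∈ Ioo (-π) π := fun t ht => ⟨h.1.trans_le ht.1, ht.2.trans_lt hφ.2⟩
    refine neg_lt_neg_iff.1 (mono_off (u := fun t => -m φ t) ∅ θ φ l (fun t ht =>
      (m_der (s t ht)).fun_neg.continuousAt.continuousWithinAt) fun t ht _ =>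
        ⟨_, neg_pos.2 (div_neg_of_neg_of_pos (Real.sin_neg_of_neg_of_neg_pi_lt ?_ ?_)
          (cosp (s t (Ioo_subset_Icc_self ht)))), (m_der (s t (Ioo_subset_Icc_self ht))).fun_neg⟩) <;>
      linarith [ht.1, ht.2, h.1, hφ.2]
  · have s : ∀ t ∈ Icc φ θ, t ∈ Ioo (-π) π := fun t ht => ⟨hφ.1.trans_le ht.1, ht.2.trans_lt h.2⟩
    refine mono_off ∅ φ θ l (fun t ht => (m_der (s t ht)).continuousAt.continuousWithinAt)
      fun t ht _ => ⟨_, div_pos (Real.sin_pos_of_pos_of_lt_pi ?_ ?_)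
        (cosp (s t (Ioo_subset_Icc_self ht))), m_der (s t (Ioo_subset_Icc_self ht))⟩ <;>
      linarith [ht.1, ht.2, h.2, hφ.1]

lemma spiral (h : φ ∈ Ioo (-π) π) :
    SlitMap (fun z => z * exp (-(1 + exp (-(φ * I))) * log (1 + z)))
      (fun t => exp (exp (-((φ / 2 : ℝ) * I)) * (m φ φ + t))) φ ∧
    ∀ t : ℝ, AnalyticAt ℝ (fun t : ℝ => exp (exp (-((φ / 2 : ℝ) * I)) * (m φ φ + t))) t ∧
      deriv (fun t : ℝ => exp (exp (-((φ / 2 : ℝ) * I)) * (m φ φ + t))) t =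
        exp (exp (-((φ / 2 : ℝ) * I)) * (m φ φ + t)) * exp (-((φ / 2 : ℝ) * I)) := by
  obtain ⟨a, b, c, d⟩ := eta (φ / 2)
  have p := cosp h
  have e1 : exp ((φ / 2 : ℝ) * I) * exp (-((φ / 2 : ℝ) * I)) = 1 := by rw [← exp_add]; simp
  have e2 : exp (-(φ * I)) = exp (-((φ / 2 : ℝ) * I)) ^ 2 := by
    rw [← exp_nat_mul]; congr 1; push_cast; ring
  have pp := @Ppos φ h
  unfold P at pp
  rw [e2]
  set η := exp ((φ / 2 : ℝ) * I)
  set ζ := exp (-((φ / 2 : ℝ) * I))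
  have ζ0 : ζ ≠ 0 := exp_ne_zero _
  have e3 : η + ζ = (2 * Real.cos (φ / 2) : ℝ) := Complex.ext (by
    rw [add_re, a, c, ofReal_re, two_mul]) (by rw [add_im, b, d, ofReal_im, add_neg_cancel])
  have e4 : η - ζ = (2 * Real.sin (φ / 2) : ℝ) * I := Complex.ext (by
    rw [sub_re, a, c, re_ofReal_mul]; simp) (by rw [sub_im, b, d, im_ofReal_mul]; simp [two_mul])
  set f : ℂ → ℂ := fun z => z * exp (-(1 + ζ ^ 2) * log (1 + z)) with hf
  set γ : ℝ → ℂ := fun t => exp (ζ * (m φ φ + t)) with hγ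
  have an : ∀ t : ℝ, AnalyticAt ℝ γ t ∧ deriv γ t = γ t * ζ := fun t =>
    ⟨(analyticAt_cexp.restrictScalars (𝕜 := ℝ)).comp (analyticAt_const.mul (analyticAt_const.add
      (ofRealCLM.analyticAt t))), by
        simpa using ((ofRealCLM.hasDerivAt.const_add (m φ φ : ℂ)).const_mul ζ).cexp.deriv⟩
  have ng : ∀ x : ℝ, ‖exp (ζ * x)‖ = Real.exp (Real.cos (φ / 2) * x) := fun x => by
    rw [norm_exp, re_mul_ofReal, c]
  have ij : ∀ x y : ℝ, exp (ζ * x) = exp (ζ * y) → x = y := fun x y e => by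
    have := congrArg norm e
    rwa [ng, ng, Real.exp_eq_exp, mul_right_inj' p.ne'] at this
  have dX : DifferentiableOn ℂ f X := differentiableOn_id.mul
    ((DifferentiableOn.clog (by fun_prop) fun _ => slit).const_mul _).cexp
  have fc : ∀ θ ∈ Ioo (-π) π, f (exp (θ * I)) = exp (ζ * m φ θ) := fun θ hθ => by
    simp only [hf, log1 hθ, ← exp_add, m]
    congr 1
    push_cast at e3 e4 ⊢
    linear_combination (-θ * I / 2 + (Real.log (2 * Real.cos (θ / 2)))) * e1 +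
      -ζ * (Real.log (2 * Real.cos (θ / 2))) * e3 + ζ * θ * I / 2 * e4 +
      ζ * θ * sin (φ / 2) * I_mul_I
  have em : ∀ w : ℂ, w.re < 0 → exp w ∈ ball (0 : ℂ) 1 := fun w hw => by
    rw [mem_ball_zero_iff, norm_exp]; exact Real.exp_lt_one_iff.2 hw
  have gi := nw (convex_halfSpace_re_lt 0) (g := fun w => η * (w + -(1 + ζ ^ 2) * log (1 + exp w)))
    (fun w hw => (((hasDerivAt_id w).fun_add ((((hasDerivAt_exp w).const_add 1).clog
      (slit (bX (em w hw)))).const_mul _)).const_mul η).congr_deriv (by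
        have := slitPlane_ne_zero (slit (bX (em w hw)))
        field_simp; linear_combination -ζ * exp w * e1)) fun w hw => pp (em w hw)
  have fi : InjOn f (ball 0 1) := fun x hx y hy he => by
    simp only [hf] at he
    by_cases x0 : x = 0
    · rw [x0, zero_mul, eq_comm, mul_eq_zero] at he
      rw [x0, he.resolve_right (exp_ne_zero _)]
    have y0 : y ≠ 0 := by
      rintro rfl
      rw [zero_mul, mul_eq_zero] at he
      exact x0 (he.resolve_right (exp_ne_zero _))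
    have lre : ∀ z ∈ ball (0 : ℂ) 1, z ≠ 0 → (log z).re < 0 := fun z hz z0 => by
      rw [log_re]; exact Real.log_neg (norm_pos_iff.2 z0) (mem_ball_zero_iff.1 hz)
    obtain ⟨k, hk⟩ := exp_eq_exp_iff_exists_int.1 (show exp (log x + -(1 + ζ ^ 2) * log (1 + x))
      = exp (log y + -(1 + ζ ^ 2) * log (1 + y)) by
      rw [exp_add, exp_add, exp_log x0, exp_log y0, he])
    have e : exp (log y + k * (2 * π * I)) = y := by
      rw [exp_add, exp_log y0, exp_int_mul_two_pi_mul_I, mul_one]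
    have := gi (x₁ := log x) (x₂ := log y + k * (2 * π * I)) (lre x hx x0)
      (by simpa using lre y hy y0) (by simp only [e, exp_log x0, hk]; ring)
    rw [← exp_log x0, this, e]
  have po : Tendsto f (𝓝[X] (-1)) (cobounded ℂ) := by
    have r : 0 < (1 + ζ ^ 2).re := by
      simp only [pow_two, add_re, one_re, mul_re, c, d]
      nlinarith [Real.sin_sq_add_cos_sq (φ / 2), mul_pos p p]
    rw [← tendsto_norm_atTop_iff_cobounded]
    simp only [hf, norm_mul, norm_exp]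
    refine Tendsto.pos_mul_atTop one_pos ((Continuous.tendsto' (by fun_prop) _ _
      (by simp)).mono_left nhdsWithin_le_nhds) (Real.tendsto_exp_atTop.comp (tendsto_atTop_mono
        (fun z => ?_) (tendsto_atTop_add_const_right _ (-(|(1 + ζ ^ 2).im| * π))
        ((Real.tendsto_log_nhdsGT_zero.comp nz).const_mul_atBot_of_neg (neg_lt_zero.2 r)))))
    have := neg_abs_le ((1 + ζ ^ 2).im * arg (1 + z))
    have := mul_le_mul_of_nonneg_left (abs_arg_le_pi (1 + z)) (abs_nonneg (1 + ζ ^ 2).im)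
    simp only [mul_re, neg_re, neg_im, log_re, log_im, Function.comp, abs_mul] at *
    linarith
  refine ⟨⟨dX.mono bX, fi, by simp [hf], ?_, fun t _ => (an t).1.continuousAt.continuousWithinAt,
    fun x _ y _ e => by simpa using ij _ _ (by simpa using e : exp (ζ * (m φ φ + x : ℝ)) =
      exp (ζ * (m φ φ + y : ℝ))), ?_, ⟨∅, fun t _ _ => ⟨(an t).1, (an t).2 ▸
      mul_ne_zero (exp_ne_zero _) ζ0⟩⟩, mk (dX.mono bX) fi dX.continuousOn po (fun z h1 h2 => ?_) ?_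
      fun w hw => ?_, dX.continuousOn, po, h, fun z h1 h2 => ?_⟩, an⟩
  · exact ((hasDerivAt_id (0 : ℂ)).fun_mul ((((hasDerivAt_id (0 : ℂ)).const_add 1).clog
      (by simp)).const_mul (-(1 + ζ ^ 2))).cexp).deriv.trans (by simp)
  · rw [← tendsto_norm_atTop_iff_cobounded]
    simp only [hγ, ← ofReal_add, ng]
    exact Real.tendsto_exp_atTop.comp ((tendsto_atTop_add_const_left _ _ tendsto_id).const_mul_atTop p)
  · obtain ⟨θ, hθ, rfl⟩ := circ' h1 h2
    refine ⟨m φ θ - m φ φ, mem_Ici.2 (sub_nonneg.2 ?_), by simp [hγ, fc θ hθ]⟩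
    exact (eq_or_ne θ φ).elim (fun e => by rw [e]) fun n => (m_lt h hθ n).le
  · rintro _ ⟨t, ht, rfl⟩
    have s : ∀ t ∈ Ico φ π, t ∈ Ioo (-π) π := fun t ht => ⟨h.1.trans_le ht.1, ht.2⟩
    have t1 : Tendsto (fun θ : ℝ => exp (θ * I)) (𝓝[<] π) (𝓝[X] (-1)) := tendsto_nhdsWithin_iff.2
      ⟨(Continuous.tendsto' (by fun_prop) _ _ (by simp)).mono_left nhdsWithin_le_nhds,
        mem_of_superset (Ico_mem_nhdsLT h.2) fun t ht => circ (s t ht)⟩
    obtain ⟨θ, hθ, e⟩ := isPreconnected_Ico.intermediate_value_Ici (left_mem_Ico.2 h.2) (l := 𝓝[<] π)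
      (le_principal_iff.2 (Ico_mem_nhdsLT h.2)) (fun t ht =>
        (m_der (φ := φ) (s t ht)).continuousAt.continuousWithinAt) (((Real.tendsto_log_atTop.comp
          (tendsto_norm_atTop_iff_cobounded.2 (po.comp t1))).atTop_div_const p).congr'
          (mem_of_superset (Ico_mem_nhdsLT h.2) fun t ht => by
            simp [fc t (s t ht), ng, p.ne'])) (le_add_of_nonneg_right ht : m φ φ ≤ m φ φ + t)
    exact ⟨_, circ (s θ hθ), norm_exp_ofReal_mul_I θ, by simp [hγ, fc θ (s θ hθ), e]⟩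
  · have t : Tendsto (fun s : ℝ => w * exp (ζ * (-s : ℝ))) atTop (𝓝 0) := by
      rw [tendsto_zero_iff_norm_tendsto_zero]
      simp only [norm_mul, ng]
      simpa using (Real.tendsto_exp_atBot.comp (tendsto_neg_atTop_atBot.const_mul_atBot p)).const_mul ‖w‖
    obtain ⟨s, s1, s2⟩ := ((t.eventually ((opn (dX.mono bX) fi _ subset_rfl isOpen_ball).mem_nhds
      ⟨0, by simp, by simp [hf]⟩)).and (eventually_ge_atTop 0)).exists
    refine ⟨_, isPreconnected_Ici.image (fun s : ℝ => w * exp (ζ * (-s : ℝ))) (by fun_prop),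
      ⟨0, self_mem_Ici, by simp⟩, ?_, _, ⟨s, s2, rfl⟩, s1⟩
    rintro _ ⟨s, hs, rfl⟩ ⟨t, ht, e⟩
    refine hw ⟨t + s, mem_Ici.2 (add_nonneg (mem_Ici.1 ht) (mem_Ici.1 hs)), ?_⟩
    simp only [hγ] at e ⊢
    rw [← mul_left_inj' (exp_ne_zero (ζ * (-s : ℝ))), ← e, ← exp_add]
    congr 1; push_cast; ring
  · obtain ⟨θ, hθ, rfl⟩ := circ' ⟨by simp [h1], h2⟩ h1
    refine ⟨fun e => ?_, fun e => by rw [e, fc φ h]; simp [hγ]⟩
    by_contra n
    exact (m_lt h hθ fun k => n (by rw [k])).ne' (ij _ _ (by simpa [hγ, fc θ hθ] using e))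

end Pool.Agent.H1.Slit
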