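import Mathlib

namespace Pool.Agent.H1.Smp

open MeasureTheory Metric Set

def S : Set ℝ := range fun k : ℕ => (1 / 4 : ℝ) ^ k

noncomputable def g (t : ℝ) : ℝ := max 0 ((max t 0) ^ 2 / 8 - infDist t S)
noncomputable def G1 (t : ℝ) : ℝ := ∫ s in (0 : ℝ)..t, g s
noncomputable def G (t : ℝ) : ℝ := ∫ s in (0 : ℝ)..t, G1 s
noncomputable def W (t : ℝ) : ℝ := g t / G t

lemma g_cont : Continuous g := by
  have := continuous_infDist_pt S
  unfold g; fun_prop

lemma g_nonneg (t : ℝ) : 0 ≤ g t := le_max_left _ _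

lemma g_zero {t : ℝ} (ht : t ≤ 0) : g t = 0 := by
  unfold g
  rw [max_eq_right ht]
  apply max_eq_left
  have := infDist_nonneg (x := t) (s := S)
  linarith

lemma G1_deriv (t : ℝ) : HasDerivAt G1 (g t) t := (g_cont.integral_hasStrictDerivAt 0 t).hasDerivAt
lemma G1_cont : Continuous G1 := continuous_iff_continuousAt.2 fun t => (G1_deriv t).continuousAt
lemma G_deriv (t : ℝ) : HasDerivAt G (G1 t) t := (G1_cont.integral_hasStrictDerivAt 0 t).hasDerivAt
lemma G_cont : Continuous G := continuous_iff_continuousAt.2 fun t => (G_deriv t).continuousAt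

lemma int_zero {h : ℝ → ℝ} (hh : ∀ t ≤ 0, h t = 0) {t : ℝ} (ht : t ≤ 0) :
    ∫ s in (0 : ℝ)..t, h s = 0 := by
  rw [intervalIntegral.integral_congr (g := fun _ => 0)]
  · simp
  · intro s hs
    rw [uIcc_of_ge ht] at hs
    exact hh s hs.2

lemma G1_zero {t : ℝ} (ht : t ≤ 0) : G1 t = 0 := int_zero (fun _ => g_zero) ht
lemma G_zero {t : ℝ} (ht : t ≤ 0) : G t = 0 := int_zero (fun _ => G1_zero) ht

lemma G1_nonneg (t : ℝ) : 0 ≤ G1 t := by
  rcases le_total t 0 with h | h
  · rw [G1_zero h]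
  · exact intervalIntegral.integral_nonneg h fun s _ => g_nonneg s

lemma G_nonneg (t : ℝ) : 0 ≤ G t := by
  rcases le_total t 0 with h | h
  · rw [G_zero h]
  · exact intervalIntegral.integral_nonneg h fun s _ => G1_nonneg s

lemma int_lower {h : ℝ → ℝ} (hc : Continuous h) (h0 : ∀ t, 0 ≤ h t) {a b t m : ℝ} (ha : 0 ≤ a)
    (hab : a ≤ b) (hb : b ≤ t) (hm : ∀ s ∈ Icc a b, m ≤ h s) :
    (b - a) * m ≤ ∫ s in (0 : ℝ)..t, h s := by
  calc (b - a) * m = ∫ _ in a..b, m := by simp
    _ ≤ ∫ s in a..b, h s := intervalIntegral.integral_mono_on hab (by simp)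
        (hc.intervalIntegrable _ _) hm
    _ ≤ _ := intervalIntegral.integral_mono_interval ha hab hb
        (Filter.Eventually.of_forall h0) (hc.intervalIntegrable _ _)

lemma G_lower {t : ℝ} (h0 : 0 < t) (h1 : t ≤ 1) : t ^ 5 / 2 ^ 22 ≤ G t := by
  obtain ⟨n, hn1, hn2⟩ := exists_nat_pow_near_of_lt_one (x := t / 2) (y := (1 / 4 : ℝ))
    (by positivity) (by linarith) (by norm_num) (by norm_num)
  set x := (1 / 4 : ℝ) ^ (n + 1) with hx
  have hx1 : t / 8 ≤ x := by rw [hx, pow_succ]; linarith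
  have hx0 : 0 < x := by positivity
  have hxS : x ∈ S := ⟨n + 1, rfl⟩
  have hG1 : ∀ s ∈ Icc (3 * t / 4) t, x ^ 4 / 256 ≤ G1 s := by
    intro s hs
    have := int_lower g_cont g_nonneg (a := x) (b := x + x ^ 2 / 16) (t := s) (m := x ^ 2 / 16)
      hx0.le (by nlinarith) (by nlinarith [hs.1]) (by
        intro r hr
        refine le_trans ?_ (le_max_right _ _)
        have h2 := infDist_le_dist_of_mem (x := r) hxS
        rw [Real.dist_eq, abs_of_nonneg (by linarith [hr.1])] at h2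
        rw [max_eq_left (by linarith [hr.1])]
        nlinarith [hr.1, hr.2])
    calc x ^ 4 / 256 = (x + x ^ 2 / 16 - x) * (x ^ 2 / 16) := by ring
      _ ≤ _ := this
  have := int_lower G1_cont G1_nonneg (a := 3 * t / 4) (b := t) (t := t) (by positivity)
    (by linarith) le_rfl hG1
  refine le_trans ?_ this
  have h4 : (t / 8) ^ 4 ≤ x ^ 4 := by gcongr
  nlinarith

lemma G_pos {t : ℝ} (h0 : 0 < t) (h1 : t ≤ 1) : 0 < G t :=
  lt_of_lt_of_le (by positivity) (G_lower h0 h1)

lemma W_nonneg (t : ℝ) : 0 ≤ W t := div_nonneg (g_nonneg t) (G_nonneg t)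

lemma W_meas : Measurable W := g_cont.measurable.div G_cont.measurable

lemma W_mul (t : ℝ) : W t * (G t * G (1 - t)) = g t * G (1 - t) := by
  rcases le_or_gt t 0 with h | h
  · simp [W, g_zero h]
  rcases le_or_gt t 1 with h1 | h1
  · have := (G_pos h h1).ne'
    unfold W; field_simp
  · simp [G_zero (show 1 - t ≤ 0 by linarith)]

lemma W_le {t : ℝ} (h0 : 0 < t) (h1 : t ≤ 1) : W t ≤ 2 ^ 19 / t ^ 3 := by
  have h2 : g t ≤ t ^ 2 / 8 := by
    unfold g
    rw [max_eq_left h0.le]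
    have := infDist_nonneg (x := t) (s := S)
    exact max_le (by positivity) (by linarith)
  calc W t ≤ (t ^ 2 / 8) / (t ^ 5 / 2 ^ 22) :=
        div_le_div₀ (by positivity) h2 (by positivity) (G_lower h0 h1)
    _ = _ := by field_simp; norm_num

lemma sqrtW_int : IntegrableOn (fun t => √(W t)) (Icc 0 1) := by
  rw [integrableOn_Icc_iff_integrableOn_Ioc]
  let B : ℕ → Set ℝ := fun k => closedBall ((1 / 4 : ℝ) ^ k) (((1 / 4 : ℝ) ^ k) ^ 2 / 4) ∩ Ioc 0 1
  have hm : Measurable fun t => √(W t) := W_meas.sqrt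
  have hfin : ∀ k, volume (B k) < ⊤ := fun k =>
    lt_of_le_of_lt (measure_mono inter_subset_left) measure_closedBall_lt_top
  have hbd : ∀ k, ∀ t ∈ B k, ‖√(W t)‖ ≤ 2 ^ 11 / ((1 / 2 : ℝ) ^ k) ^ 3 := by
    intro k t ht
    set y := (1 / 2 : ℝ) ^ k with hy
    have hy0 : 0 < y := by positivity
    have hy1 : y ≤ 1 := pow_le_one₀ (by norm_num) (by norm_num)
    have e : (1 / 4 : ℝ) ^ k = y ^ 2 := by rw [hy, ← pow_mul, mul_comm, pow_mul]; norm_num
    obtain ⟨h1, h2, h3⟩ := ht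
    rw [mem_closedBall, e, Real.dist_eq, abs_le] at h1
    have hy2 : y ^ 2 ≤ 1 := pow_le_one₀ hy0.le hy1
    have h4 : y ^ 2 / 2 ≤ t := by nlinarith [h1.1, sq_nonneg y]
    rw [Real.norm_eq_abs, abs_of_nonneg (Real.sqrt_nonneg _), Real.sqrt_le_iff]
    refine ⟨by positivity, (W_le h2 h3).trans ?_⟩
    calc (2 : ℝ) ^ 19 / t ^ 3 ≤ 2 ^ 19 / (y ^ 2 / 2) ^ 3 := by gcongr
      _ = _ := by field_simp
  have hU : IntegrableOn (fun t => √(W t)) (⋃ k, B k) := by
    apply integrableOn_iUnion_of_summable_integral_norm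
    · intro k
      exact Measure.integrableOn_of_bounded (hfin k).ne hm.aestronglyMeasurable
        ((ae_restrict_iff' (measurableSet_closedBall.inter measurableSet_Ioc)).2
          (Filter.Eventually.of_forall (hbd k)))
    · refine Summable.of_nonneg_of_le (fun k => integral_nonneg fun t => norm_nonneg _)
        (fun k => ?_) (summable_geometric_two.mul_left (2 ^ 10))
      have h1 := norm_setIntegral_le_of_norm_le_const (f := fun t => ‖√(W t)‖) (hfin k)
        (fun t ht => by rw [norm_norm]; exact hbd k t ht)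
      refine (le_abs_self _).trans (h1.trans ?_)
      have h2 : volume.real (B k) ≤ 2 * (((1 / 4 : ℝ) ^ k) ^ 2 / 4) := by
        rw [← Real.volume_real_closedBall (a := (1 / 4 : ℝ) ^ k) (by positivity)]
        exact measureReal_mono inter_subset_left measure_closedBall_lt_top.ne
      have e : (1 / 4 : ℝ) ^ k = ((1 / 2 : ℝ) ^ k) ^ 2 := by
        rw [← pow_mul, mul_comm, pow_mul]; norm_num
      rw [e] at h2
      have hy0 : 0 < (1 / 2 : ℝ) ^ k := by positivity
      refine (mul_le_mul_of_nonneg_left h2 (by positivity)).trans (le_of_eq ?_)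
      generalize (1 / 2 : ℝ) ^ k = y at hy0 h1 h2 ⊢
      have e2 : 2 ^ 11 / y ^ 3 * (2 * ((y ^ 2) ^ 2 / 4)) = 2 ^ 10 * y := by field_simp; norm_num
      rw [← e2]
  apply hU.of_forall_sdiff_eq_zero measurableSet_Ioc
  intro t ⟨ht, hn⟩
  have : g t = 0 := by
    by_contra hne
    apply hn
    have h1 : infDist t S < t ^ 2 / 8 := by
      by_contra hc
      apply hne
      unfold g
      rw [max_eq_left ht.1.le]
      exact max_eq_left (by linarith [not_lt.1 hc])
    obtain ⟨_, ⟨k, rfl⟩, hk⟩ := (infDist_lt_iff (range_nonempty _)).1 h1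
    refine mem_iUnion.2 ⟨k, ?_, ht⟩
    rw [mem_closedBall]
    have hk' := hk
    rw [Real.dist_eq, abs_lt] at hk'
    simp only at hk hk'
    have h5 : 7 * t / 8 ≤ (1 / 4 : ℝ) ^ k := by nlinarith [hk'.2, ht.1, ht.2]
    nlinarith [ht.1]
  simp [W, this]

end Pool.Agent.H1.Smp
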