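import Mathlib

namespace Pool.Agent.H1.Smp

/-- the derivative in the `i`-th coordinate direction -/
noncomputable def pd {N : ℕ} (i : Fin N) (φ : (Fin N → ℝ) → ℝ) (x : Fin N → ℝ) : ℝ :=
  fderiv ℝ φ x (Pi.single i 1)

/-- the Laplacian: the sum of the pure second derivatives -/
noncomputable def lap {N : ℕ} (φ : (Fin N → ℝ) → ℝ) (x : Fin N → ℝ) : ℝ :=
  ∑ i, pd i (pd i φ) x

end Pool.Agent.H1.Smp
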