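import Pool.Agent.H1.SmpA
import Pool.Agent.H1.SmpDefs

namespace Pool.Agent.H1.Smp

open MeasureTheory Metric Set

noncomputable def f (t : ℝ) : ℝ := G t * G (1 - t)
noncomputable def f1 (t : ℝ) : ℝ := G1 t * G (1 - t) - G t * G1 (1 - t)
noncomputable def q (t : ℝ) : ℝ := g t * G (1 - t) + G t * g (1 - t)
noncomputable def f2 (t : ℝ) : ℝ := q t - 2 * (G1 t * G1 (1 - t))
noncomputable def U (t : ℝ) : ℝ := W t + W (1 - t)

lemma f_deriv (t : ℝ) : HasDerivAt f (f1 t) t := by
  have h := (G_deriv t).fun_mul ((G_deriv (1 - t)).comp_const_sub 1 t)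
  exact h.congr_deriv (by unfold f1; ring)

lemma f1_deriv (t : ℝ) : HasDerivAt f1 (f2 t) t := by
  have h := ((G1_deriv t).fun_mul ((G_deriv (1 - t)).comp_const_sub 1 t)).fun_sub
    ((G_deriv t).fun_mul ((G1_deriv (1 - t)).comp_const_sub 1 t))
  exact h.congr_deriv (by unfold f2 q; ring)

lemma f_cont : Continuous f := continuous_iff_continuousAt.2 fun t => (f_deriv t).continuousAt
lemma f1_cont : Continuous f1 := continuous_iff_continuousAt.2 fun t => (f1_deriv t).continuousAt
lemma q_cont : Continuous q := by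
  have := g_cont; have := G_cont
  unfold q; fun_prop
lemma f2_cont : Continuous f2 := by
  have := q_cont; have := G1_cont
  unfold f2; fun_prop

lemma f_nonneg (t : ℝ) : 0 ≤ f t := mul_nonneg (G_nonneg _) (G_nonneg _)

lemma f2_le (t : ℝ) : f2 t ≤ q t := by
  have := mul_nonneg (G1_nonneg t) (G1_nonneg (1 - t))
  unfold f2; linarith

lemma U_mul (t : ℝ) : U t * f t = q t := by
  have h1 := W_mul t
  have h2 := W_mul (1 - t)
  rw [sub_sub_cancel] at h2
  unfold U f q
  linarith

lemma f_out {t : ℝ} (ht : t ∉ Icc (0 : ℝ) 1) : f t = 0 := by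
  rcases le_or_gt t 0 with h | h
  · simp [f, G_zero h]
  · have : 1 - t ≤ 0 := by
      by_contra hc
      exact ht ⟨h.le, by linarith⟩
    simp [f, G_zero this]

lemma q_out {t : ℝ} (ht : t ∉ Icc (0 : ℝ) 1) : q t = 0 := by rw [← U_mul, f_out ht, mul_zero]

lemma sqrtU_int : IntegrableOn (fun t => √(U t)) (Icc 0 1) := by
  have h1 : IntegrableOn (fun t => √(W (1 - t))) (Icc 0 1) := by
    have h := (intervalIntegrable_iff_integrableOn_Icc_of_le zero_le_one).2 sqrtW_int
    have h2 := (h.comp_sub_left 1).symm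
    simp only [sub_self, sub_zero] at h2
    exact (intervalIntegrable_iff_integrableOn_Icc_of_le zero_le_one).1 h2
  refine Integrable.mono' (sqrtW_int.add h1)
    ((W_meas.add (W_meas.comp (measurable_const.sub measurable_id))).sqrt.aestronglyMeasurable)
    (Filter.Eventually.of_forall fun t => ?_)
  rw [Real.norm_eq_abs, abs_of_nonneg (Real.sqrt_nonneg _), Real.sqrt_le_iff]
  simp only [Pi.add_apply]
  refine ⟨by positivity, ?_⟩
  have a := Real.sq_sqrt (W_nonneg t)
  have b := Real.sq_sqrt (W_nonneg (1 - t))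
  have c := mul_nonneg (Real.sqrt_nonneg (W t)) (Real.sqrt_nonneg (W (1 - t)))
  unfold U
  nlinarith

variable {N : ℕ}

noncomputable def P (i : Fin N) (h : ℝ → ℝ) (x : Fin N → ℝ) : ℝ :=
  h (x i) * ∏ j ∈ Finset.univ.erase i, f (x j)

noncomputable def u (x : Fin N → ℝ) : ℝ := ∏ j, f (x j)

noncomputable def V (x : Fin N → ℝ) : ℝ :=
  (Icc (0 : Fin N → ℝ) 1).indicator (fun x => ∑ i, U (x i)) x

lemma P_f (i : Fin N) : P i f = u := by
  ext x; exact Finset.mul_prod_erase Finset.univ (fun j => f (x j)) (Finset.mem_univ i)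

lemma P_cont (i : Fin N) {h : ℝ → ℝ} (hh : Continuous h) : Continuous (P i h) := by
  have := f_cont
  unfold P; fun_prop

lemma P_line (i : Fin N) {h h' : ℝ → ℝ} (hh : ∀ t, HasDerivAt h (h' t) t) (x : Fin N → ℝ) :
    HasLineDerivAt ℝ (P i h) (P i h' x) x (Pi.single i 1) := by
  unfold HasLineDerivAt
  have e : (fun t : ℝ => P i h (x + t • (Pi.single i 1 : Fin N → ℝ))) =
      fun t => h (x i + t) * ∏ j ∈ Finset.univ.erase i, f (x j) := by
    ext t
    unfold P
    congr 1
    · simp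
    · refine Finset.prod_congr rfl fun j hj => ?_
      simp [Pi.single_eq_of_ne (Finset.ne_of_mem_erase hj)]
  rw [e]
  have := (hh (x i + 0)).comp_const_add (x i) 0
  simp only [add_zero] at this
  exact this.mul_const _

lemma P_out (i : Fin N) {h : ℝ → ℝ} (hh : ∀ t, t ∉ Icc (0 : ℝ) 1 → h t = 0) {x : Fin N → ℝ}
    (hx : x ∉ Icc (0 : Fin N → ℝ) 1) : P i h x = 0 := by
  obtain ⟨j, hj⟩ : ∃ j, x j ∉ Icc (0 : ℝ) 1 := by
    by_contra hc
    push Not at hc
    exact hx ⟨fun j => (hc j).1, fun j => (hc j).2⟩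
  unfold P
  by_cases hij : j = i
  · rw [← hij, hh _ hj, zero_mul]
  · rw [Finset.prod_eq_zero (Finset.mem_erase.2 ⟨hij, Finset.mem_univ j⟩) (f_out hj), mul_zero]

lemma Vu (x : Fin N → ℝ) : V x * u x = ∑ i, P i q x := by
  by_cases hx : x ∈ Icc (0 : Fin N → ℝ) 1
  · rw [V, indicator_of_mem hx, Finset.sum_mul]
    refine Finset.sum_congr rfl fun i _ => ?_
    rw [← P_f i, P, P, ← U_mul, mul_assoc]
  · rw [V, indicator_of_notMem hx, zero_mul]
    exact (Finset.sum_eq_zero fun i _ => P_out i (fun t => q_out) hx).symm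

lemma U_meas : Measurable U := W_meas.add (W_meas.comp (measurable_const.sub measurable_id))

lemma V_meas : Measurable (V (N := N)) := by
  have := U_meas
  unfold V
  exact Measurable.indicator (by fun_prop) measurableSet_Icc

lemma U_nonneg (t : ℝ) : 0 ≤ U t := add_nonneg (W_nonneg _) (W_nonneg _)

lemma V_nonneg (x : Fin N → ℝ) : 0 ≤ V x :=
  indicator_nonneg (fun _ _ => Finset.sum_nonneg fun _ _ => U_nonneg _) x

lemma sqrtV_int : Integrable fun x : Fin N → ℝ => √(V x) := by
  let h : Fin N → Fin N → ℝ → ℝ := fun i j =>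
    (Icc (0 : ℝ) 1).indicator fun t => if j = i then √(U t) else 1
  have hi : ∀ i j, Integrable (h i j) := by
    intro i j
    rw [integrable_indicator_iff measurableSet_Icc]
    by_cases hij : j = i
    · simpa [hij] using sqrtU_int
    · simp [hij]
  have hI : Integrable fun x : Fin N → ℝ => ∑ i, ∏ j, h i j (x j) :=
    integrable_finsetSum _ fun i _ => Integrable.fintype_prod (hi i)
  refine hI.mono' V_meas.sqrt.aestronglyMeasurable (Filter.Eventually.of_forall fun x => ?_)
  rw [Real.norm_eq_abs, abs_of_nonneg (Real.sqrt_nonneg _)]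
  by_cases hx : x ∈ Icc (0 : Fin N → ℝ) 1
  · have e : ∀ i, ∏ j, h i j (x j) = √(U (x i)) := by
      intro i
      have : ∀ j, h i j (x j) = if j = i then √(U (x j)) else 1 := fun j =>
        indicator_of_mem (show x j ∈ Icc (0 : ℝ) 1 from ⟨hx.1 j, hx.2 j⟩) _
      simp [this]
    simp only [e]
    rw [V, indicator_of_mem hx, Real.sqrt_le_iff]
    refine ⟨Finset.sum_nonneg fun _ _ => Real.sqrt_nonneg _, ?_⟩
    calc ∑ i, U (x i) = ∑ i, √(U (x i)) ^ 2 :=
          Finset.sum_congr rfl fun i _ => (Real.sq_sqrt (U_nonneg _)).symm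
      _ ≤ _ := Finset.sum_sq_le_sq_sum_of_nonneg fun _ _ => Real.sqrt_nonneg _
  · rw [V, indicator_of_notMem hx, Real.sqrt_zero]
    refine Finset.sum_nonneg fun i _ => Finset.prod_nonneg fun j _ => indicator_nonneg ?_ _
    intro t _
    split_ifs <;> positivity

lemma weak (φ : (Fin N → ℝ) → ℝ) (hφ : ContDiff ℝ 2 φ) (hK : HasCompactSupport φ)
    (h0 : ∀ x, 0 ≤ φ x) : ∫ x, u x * lap φ x ≤ ∫ x, V x * u x * φ x := by
  have hd : ∀ i, ContDiff ℝ 1 (pd i φ) := fun i =>
    (hφ.fderiv_right (by norm_num)).clm_apply contDiff_const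
  have hdd : ∀ i, Continuous (pd i (pd i φ)) := fun i =>
    (((hd i).fderiv_right (m := 0) (by norm_num)).clm_apply contDiff_const).continuous
  have K1 : ∀ i, HasCompactSupport (pd i φ) := fun i => hK.fderiv_apply ℝ _
  have K2 : ∀ i, HasCompactSupport (pd i (pd i φ)) := fun i => (K1 i).fderiv_apply ℝ _
  have I : ∀ (i : Fin N) {h : ℝ → ℝ} {ψ : (Fin N → ℝ) → ℝ}, Continuous h → Continuous ψ →
      HasCompactSupport ψ → Integrable fun x => P i h x * ψ x := fun i _ _ hh hψ hk =>
    ((P_cont i hh).mul hψ).integrable_of_hasCompactSupport hk.mul_left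
  have step : ∀ i, ∫ x, P i f x * pd i (pd i φ) x ≤ ∫ x, P i q x * φ x := by
    intro i
    have a := integral_bilinear_hasLineDerivAt_right_eq_neg_left_of_integrable (μ := volume)
      (B := ContinuousLinearMap.mul ℝ ℝ) (I i f1_cont (hd i).continuous (K1 i))
      (I i f_cont (hdd i) (K2 i)) (I i f_cont (hd i).continuous (K1 i))
      (fun x _ => P_line i f_deriv x)
      (fun x _ => (((hd i).differentiable (by norm_num)) x).hasFDerivAt.hasLineDerivAt _)
    have b := integral_bilinear_hasLineDerivAt_right_eq_neg_left_of_integrable (μ := volume)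
      (B := ContinuousLinearMap.mul ℝ ℝ) (I i f2_cont hφ.continuous hK)
      (I i f1_cont (hd i).continuous (K1 i)) (I i f1_cont hφ.continuous hK)
      (fun x _ => P_line i f1_deriv x)
      (fun x _ => ((hφ.differentiable (by norm_num)) x).hasFDerivAt.hasLineDerivAt _)
    simp only [ContinuousLinearMap.mul_apply'] at a b
    rw [a, b, neg_neg]
    refine integral_mono (I i f2_cont hφ.continuous hK) (I i q_cont hφ.continuous hK) fun x => ?_
    refine mul_le_mul_of_nonneg_right ?_ (h0 x)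
    exact mul_le_mul_of_nonneg_right (f2_le _) (Finset.prod_nonneg fun j _ => f_nonneg _)
  have e1 : (fun x => u x * lap φ x) = fun x => ∑ i, P i f x * pd i (pd i φ) x := by
    ext x; simp only [lap, P_f, Finset.mul_sum]
  have e2 : (fun x => V x * u x * φ x) = fun x => ∑ i, P i q x * φ x := by
    ext x; rw [Vu, Finset.sum_mul]
  rw [e1, e2, integral_finsetSum _ fun i _ => I i f_cont (hdd i) (K2 i),
    integral_finsetSum _ fun i _ => I i q_cont hφ.continuous hK]
  exact Finset.sum_le_sum fun i _ => step i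

theorem main (n : ℕ) : ∃ u V : (Fin (n + 1) → ℝ) → ℝ, Measurable V ∧ Continuous u ∧ Integrable u ∧
    (∀ x, 0 ≤ u x) ∧ Integrable (fun x => V x * u x) ∧
    (∀ φ : (Fin (n + 1) → ℝ) → ℝ, ContDiff ℝ (⊤ : ℕ∞) φ → HasCompactSupport φ → (∀ x, 0 ≤ φ x) →
      ∫ x, u x * lap φ x ≤ ∫ x, V x * u x * φ x) ∧
    HasCompactSupport u ∧ Integrable (fun x => √(max (V x) 0)) ∧ ∃ x, 0 < u x := by
  have K : ∀ (i : Fin (n + 1)) {h : ℝ → ℝ}, (∀ t, t ∉ Icc (0 : ℝ) 1 → h t = 0) →
      HasCompactSupport (P i h) := fun i _ hh =>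
    HasCompactSupport.intro isCompact_Icc fun x hx => P_out i hh hx
  have hc : Continuous (u (N := n + 1)) := P_f (0 : Fin (n + 1)) ▸ P_cont 0 f_cont
  have hk : HasCompactSupport (u (N := n + 1)) := P_f (0 : Fin (n + 1)) ▸ K 0 fun t => f_out
  refine ⟨u, V, V_meas, hc, hc.integrable_of_hasCompactSupport hk,
    fun x => Finset.prod_nonneg fun j _ => f_nonneg _, ?_,
    fun φ hφ => weak φ (hφ.of_le (WithTop.coe_le_coe.2 (le_top : (2 : ℕ∞) ≤ ⊤))), hk, ?_, fun _ => 1 / 2, ?_⟩
  · simp only [Vu]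
    exact integrable_finsetSum _ fun i _ =>
      (P_cont i q_cont).integrable_of_hasCompactSupport (K i fun t => q_out)
  · simp only [max_eq_left (V_nonneg _)]
    exact sqrtV_int
  · exact Finset.prod_pos fun j _ =>
      mul_pos (G_pos (by norm_num) (by norm_num)) (G_pos (by norm_num) (by norm_num))

end Pool.Agent.H1.Smp
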