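import Mathlib

namespace Pool.Agent.H1.Star

open Metric Filter Topology Set Complex

variable {h : ℂ → ℂ}

lemma f_deriv (hd : DifferentiableOn ℂ h (ball 0 1)) {z : ℂ} (hz : z ∈ ball (0 : ℂ) 1) :
    HasStrictDerivAt (fun z => z * exp (h z)) (exp (h z) * (1 + z * deriv h z)) z := by
  have ha := (hd.analyticAt (isOpen_ball.mem_nhds hz)).hasStrictDerivAt
  refine ((hasStrictDerivAt_id z).fun_mul ha.cexp).congr_deriv ?_
  simp only [id]; ring

lemma exp_mem {w : ℂ} (hw : w.re < 0) : exp w ∈ ball (0 : ℂ) 1 := by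
  rw [mem_ball_zero_iff, norm_exp]; exact Real.exp_lt_one_iff.2 hw

lemma g_inj (hd : DifferentiableOn ℂ h (ball 0 1))
    (hp : ∀ z ∈ ball (0 : ℂ) 1, 0 < (1 + z * deriv h z).re) {a b : ℂ} (ha : a.re < 0)
    (hb : b.re < 0) (he : a + h (exp a) = b + h (exp b)) : a = b := by
  by_contra hne
  have hD : 0 < normSq (b - a) := normSq_pos.2 (sub_ne_zero.2 (Ne.symm hne))
  set φ : ℝ → ℝ := fun t => (((a + t * (b - a)) + h (exp (a + t * (b - a)))) *
    (starRingEnd ℂ) (b - a)).re with hφ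
  have key : ∀ t ∈ Icc (0 : ℝ) 1, HasDerivAt φ
      ((1 + exp (a + t * (b - a)) * deriv h (exp (a + t * (b - a)))).re * normSq (b - a)) t ∧
      0 < (1 + exp (a + t * (b - a)) * deriv h (exp (a + t * (b - a)))).re := by
    intro t ht
    have hw : (a + t * (b - a)).re < 0 := by
      simp only [add_re, re_ofReal_mul, sub_re]
      rcases le_total a.re b.re with l | l <;> nlinarith [ht.1, ht.2]
    refine ⟨?_, hp _ (exp_mem hw)⟩
    have h1 : HasDerivAt (fun s : ℂ => a + s * (b - a)) (b - a) t := by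
      simpa using ((hasDerivAt_id (t : ℂ)).mul_const (b - a)).const_add a
    have h2 := (hd.differentiableAt (isOpen_ball.mem_nhds (exp_mem hw))).hasDerivAt
    have h3 := ((h1.fun_add (h2.comp (t : ℂ) h1.cexp)).mul_const
      ((starRingEnd ℂ) (b - a))).real_of_complex
    refine h3.congr_deriv ?_
    rw [← re_mul_ofReal, ← mul_conj]; congr 1; ring
  have hm : StrictMonoOn φ (Icc 0 1) := by
    refine strictMonoOn_of_deriv_pos (convex_Icc 0 1)
      (fun t ht => (key t ht).1.continuousAt.continuousWithinAt) fun t ht => ?_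
    have := key t (interior_subset ht)
    rw [this.1.deriv]; exact mul_pos this.2 hD
  have := hm (left_mem_Icc.2 zero_le_one) (right_mem_Icc.2 zero_le_one) one_pos
  simp only [hφ, ofReal_zero, zero_mul, add_zero, ofReal_one, one_mul, add_sub_cancel, he] at this
  exact lt_irrefl _ this

lemma f_inj (hd : DifferentiableOn ℂ h (ball 0 1))
    (hp : ∀ z ∈ ball (0 : ℂ) 1, 0 < (1 + z * deriv h z).re) :
    InjOn (fun z => z * exp (h z)) (ball 0 1) := by
  intro x hx y hy he
  simp only at he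
  by_cases x0 : x = 0
  · rw [x0, zero_mul, eq_comm, mul_eq_zero] at he
    rw [x0, he.resolve_right (exp_ne_zero _)]
  have y0 : y ≠ 0 := by
    rintro rfl
    rw [zero_mul, mul_eq_zero] at he
    exact x0 (he.resolve_right (exp_ne_zero _))
  have lre : ∀ z ∈ ball (0 : ℂ) 1, z ≠ 0 → (log z).re < 0 := fun z hz z0 => by
    rw [log_re]; exact Real.log_neg (norm_pos_iff.2 z0) (mem_ball_zero_iff.1 hz)
  have : exp (log x + h x) = exp (log y + h y) := by
    rw [exp_add, exp_add, exp_log x0, exp_log y0, he]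
  obtain ⟨k, hk⟩ := exp_eq_exp_iff_exists_int.1 this
  have e1 : exp (log y + k * (2 * Real.pi * I)) = y := by
    rw [exp_add, exp_log y0, exp_int_mul_two_pi_mul_I, mul_one]
  have := g_inj hd hp (a := log x) (b := log y + k * (2 * Real.pi * I)) (lre x hx x0)
    (by simpa using lre y hy y0) (by rw [e1, exp_log x0, hk]; ring)
  rw [← exp_log x0, this, e1]

lemma f_star (hd : DifferentiableOn ℂ h (ball 0 1))
    (hp : ∀ z ∈ ball (0 : ℂ) 1, 0 < (1 + z * deriv h z).re) :
    StarConvex ℝ 0 ((fun z => z * exp (h z)) '' ball 0 1) := by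
  set f : ℂ → ℂ := fun z => z * exp (h z) with hf
  rw [starConvex_zero_iff]
  rintro _ ⟨z₀, hz₀, rfl⟩ t t0 t1
  have sub : closedBall (0 : ℂ) ‖z₀‖ ⊆ ball 0 1 := closedBall_subset_ball (mem_ball_zero_iff.1 hz₀)
  have hK : IsCompact (f '' closedBall 0 ‖z₀‖) := (isCompact_closedBall _ _).image_of_continuousOn
    fun z hz => (f_deriv hd (sub hz)).hasDerivAt.continuousAt.continuousWithinAt
  set S : Set ℝ := {s | ((1 - s : ℝ) : ℂ) * f z₀ ∈ f '' closedBall 0 ‖z₀‖} with hS
  have hc : IsClosed S := hK.isClosed.preimage (by fun_prop)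
  have : 1 - t ∈ S := by
    refine IsClosed.mem_of_ge_of_forall_exists_gt (a := 0) (hc.inter isClosed_Icc)
      ⟨z₀, by simp, by simp⟩ (by linarith) ?_
    rintro s ⟨⟨z, hz, hfz⟩, s0, s1⟩
    by_cases z0 : z = 0
    · have : f z₀ = 0 := by
        have e : ((1 - s : ℝ) : ℂ) * f z₀ = 0 := by rw [← hfz, z0]; simp [hf]
        refine (mul_eq_zero.1 e).resolve_left (ofReal_ne_zero.2 (by linarith))
      exact ⟨1 - t, ⟨0, by simp, by rw [this]; simp [hf]⟩, s1, le_rfl⟩
    have hD := f_deriv hd (sub hz)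
    set P := 1 + z * deriv h z with hP
    have P0 : 0 < P.re := hp z (sub hz)
    have Pn : P ≠ 0 := fun e => by rw [e] at P0; simp at P0
    have hne : exp (h z) * P ≠ 0 := mul_ne_zero (exp_ne_zero _) Pn
    set ψ := hD.localInverse f _ z hne
    have hψ : HasDerivAt ψ (exp (h z) * P)⁻¹ (((1 - s : ℝ) : ℂ) * f z₀) := by
      rw [← hfz]; exact (hD.to_localInverse hne).hasDerivAt
    have hψz : ψ (((1 - s : ℝ) : ℂ) * f z₀) = z := by
      rw [← hfz]; exact (hD.eventually_left_inverse hne).self_of_nhds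
    have l1 : HasDerivAt (fun σ : ℝ => ((1 - σ : ℝ) : ℂ) * f z₀) (-f z₀) s := by
      have := (((hasDerivAt_id s).const_sub 1).ofReal_comp).mul_const (f z₀)
      simpa using this
    have l2 : HasDerivAt (fun σ : ℝ => ψ (((1 - σ : ℝ) : ℂ) * f z₀))
        ((exp (h z) * P)⁻¹ * -f z₀) s := by
      have := (hψ.hasFDerivAt.restrictScalars ℝ).comp_hasDerivAt s l1
      refine this.congr_deriv ?_
      simp [mul_comm]
    have l3 := l2.norm_sq
    simp only [hψz] at l3
    have s2 : (0 : ℝ) < 1 - s := by linarith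
    have neg : 2 * inner ℝ z ((exp (h z) * P)⁻¹ * -f z₀) < 0 := by
      have e : f z₀ = ((1 - s)⁻¹ : ℝ) * (z * exp (h z)) := by
        have : z * exp (h z) = ((1 - s : ℝ) : ℂ) * f z₀ := hfz
        rw [this, ← mul_assoc, ← ofReal_mul, inv_mul_cancel₀ s2.ne', ofReal_one, one_mul]
      have e2 : (exp (h z) * P)⁻¹ * -f z₀ * (starRingEnd ℂ) z
          = -((((1 - s)⁻¹ * normSq z : ℝ) : ℂ) * P⁻¹) := by
        rw [e, ofReal_mul, ← mul_conj]; field_simp [exp_ne_zero]
      rw [Complex.inner, e2, neg_re, re_ofReal_mul, inv_re]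
      have : 0 < normSq z := normSq_pos.2 z0
      have : 0 < normSq P := normSq_pos.2 Pn
      have : 0 < (1 - s)⁻¹ * normSq z * (P.re / normSq P) := by positivity
      linarith
    have ev1 : ∀ᶠ σ in 𝓝[>] s, ‖ψ (((1 - σ : ℝ) : ℂ) * f z₀)‖ ^ 2 < ‖z‖ ^ 2 := by
      have := (hasDerivAt_iff_tendsto_slope_left_right.1 l3).2.eventually (gt_mem_nhds neg)
      filter_upwards [this, self_mem_nhdsWithin] with σ h1 h2
      rw [slope_def_field, hψz, div_neg_iff] at h1
      have : 0 < σ - s := sub_pos.2 h2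
      rcases h1 with h1 | h1 <;> linarith [h1.1, h1.2]
    have ev2 : ∀ᶠ σ in 𝓝[>] s, f (ψ (((1 - σ : ℝ) : ℂ) * f z₀)) = ((1 - σ : ℝ) : ℂ) * f z₀ := by
      have := hD.eventually_right_inverse hne
      have e : z * exp (h z) = ((1 - s : ℝ) : ℂ) * f z₀ := hfz
      rw [e] at this
      exact nhdsWithin_le_nhds (l1.continuousAt.eventually this)
    obtain ⟨σ, h1, h2, h3⟩ := (ev1.and (ev2.and (Ioc_mem_nhdsGT s1))).exists
    refine ⟨σ, ⟨_, ?_, h2⟩, h3⟩
    rw [mem_closedBall_zero_iff] at hz ⊢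
    exact (lt_of_pow_lt_pow_left₀ 2 (norm_nonneg _) h1).le.trans hz
  obtain ⟨z, hz, e⟩ := this
  exact ⟨z, sub hz, by rw [e]; simp⟩

end Pool.Agent.H1.Star
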