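import Mathlib

namespace Pool.Agent.H1.Star

open Metric Filter Topology Set Complex

noncomputable def nn (k : ℕ) (M : ℝ) : ℕ := ⌈320 * 4 ^ k * M⌉₊ + 1
noncomputable def MM : ℕ → ℝ
  | 0 => 0
  | k + 1 => MM k + Real.exp (4 * 2 ^ k * nn k (MM k))
noncomputable def n (k : ℕ) : ℕ := nn k (MM k)
noncomputable def L (k : ℕ) : ℝ := 4 * 2 ^ k * n k
noncomputable def ρ (k : ℕ) : ℝ := 1 - Real.exp (-L k)
noncomputable def c (k : ℕ) : ℝ := 1 / (4 * 4 ^ k * n k)
noncomputable def hk (k : ℕ) (z : ℂ) : ℂ := -(c k : ℂ) * log (1 - ρ k * z ^ n k)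
noncomputable def T (k : ℕ) (z : ℂ) : ℝ := -c k * Real.log ‖1 - ρ k * z ^ n k‖

lemma n1 (k : ℕ) : (1 : ℝ) ≤ n k := by simp [n, nn]
lemma n0 (k : ℕ) : n k ≠ 0 := by simp [n, nn]
lemma nM (k : ℕ) : 320 * 4 ^ k * MM k ≤ n k := by
  have := Nat.le_ceil (320 * 4 ^ k * MM k)
  simp only [n, nn, Nat.cast_add, Nat.cast_one]; linarith
lemma L4 (k : ℕ) : 4 ≤ L k := by
  have := n1 k
  have : (1 : ℝ) ≤ 2 ^ k := one_le_pow₀ (by norm_num)
  unfold L; nlinarith
lemma c0 (k : ℕ) : 0 < c k := by have := n1 k; unfold c; positivity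
lemma cL (k : ℕ) : c k * L k = 1 / 2 ^ k := by
  have := n1 k
  rw [c, L, show (4 : ℝ) ^ k = 2 ^ k * 2 ^ k by rw [← mul_pow]; norm_num]; field_simp
lemma cn (k : ℕ) : c k * n k = 1 / 4 * (1 / 4) ^ k := by
  have := n1 k
  rw [c, one_div_pow]; field_simp
lemma ρ0 (k : ℕ) : 0 ≤ ρ k := by
  have := Real.exp_le_one_iff.2 (show -L k ≤ 0 by linarith [L4 k])
  unfold ρ; linarith
lemma ρ1 (k : ℕ) : ρ k < 1 := by have := Real.exp_pos (-L k); unfold ρ; linarith

lemma hk_re (k : ℕ) (z : ℂ) : (hk k z).re = T k z := by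
  rw [hk, ← ofReal_neg, re_ofReal_mul, log_re, T]

lemma w_le (k : ℕ) {z : ℂ} (hz : ‖z‖ ≤ 1) : ‖(ρ k : ℂ) * z ^ n k‖ ≤ ρ k := by
  rw [norm_mul, norm_pow, norm_real, Real.norm_of_nonneg (ρ0 k)]
  exact mul_le_of_le_one_right (ρ0 k) (pow_le_one₀ (norm_nonneg _) hz)

lemma u_ge (k : ℕ) {z : ℂ} (hz : ‖z‖ ≤ 1) : Real.exp (-L k) ≤ ‖1 - (ρ k : ℂ) * z ^ n k‖ := by
  have := norm_sub_norm_le (1 : ℂ) (ρ k * z ^ n k)
  have := w_le k hz
  rw [norm_one] at *; unfold ρ at *; linarith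

lemma u_slit (k : ℕ) {z : ℂ} (hz : ‖z‖ ≤ 1) : 1 - (ρ k : ℂ) * z ^ n k ∈ slitPlane := by
  left
  have := (re_le_norm _).trans (w_le k hz)
  have := ρ1 k
  rw [sub_re, one_re]; linarith

lemma hk_norm (k : ℕ) {z : ℂ} (hz : ‖z‖ ≤ 1) : ‖hk k z‖ ≤ 2 * (1 / 2) ^ k := by
  set u := 1 - (ρ k : ℂ) * z ^ n k
  have h1 : -L k ≤ Real.log ‖u‖ :=
    (Real.le_log_iff_exp_le ((Real.exp_pos _).trans_le (u_ge k hz))).2 (u_ge k hz)
  have h2 : ‖u‖ ≤ 2 := by
    have := norm_sub_le (1 : ℂ) (ρ k * z ^ n k)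
    rw [norm_one] at this; linarith [w_le k hz, ρ1 k]
  have h3 := Real.log_le_self (norm_nonneg u)
  have h4 : ‖log u‖ ≤ 2 * L k := by
    have := norm_le_abs_re_add_abs_im (log u)
    rw [log_re, log_im] at this
    have := abs_arg_le_pi u
    have : |Real.log ‖u‖| ≤ L k := abs_le.2 ⟨h1, by linarith [L4 k]⟩
    linarith [Real.pi_le_four, L4 k]
  rw [hk, norm_mul, norm_neg, norm_real, Real.norm_of_nonneg (c0 k).le, one_div_pow, ← cL]
  nlinarith [c0 k]

lemma hk_deriv (k : ℕ) {z : ℂ} (hz : ‖z‖ ≤ 1) : HasDerivAt (hk k)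
    (-(c k : ℂ) * (-(ρ k * (n k * z ^ (n k - 1))) / (1 - ρ k * z ^ n k))) z :=
  ((((hasDerivAt_pow (n k) z).const_mul (ρ k : ℂ)).const_sub 1).clog (u_slit k hz)).const_mul _

lemma hk_pos (k : ℕ) {z : ℂ} (hz : ‖z‖ ≤ 1) : -(1 / 4 * (1 / 4) ^ k) ≤ (z * deriv (hk k) z).re := by
  set w := (ρ k : ℂ) * z ^ n k with hw
  have h0 : 1 - w ≠ 0 := slitPlane_ne_zero (u_slit k hz)
  have e : z * deriv (hk k) z = ((c k * n k : ℝ) : ℂ) * ((1 - w)⁻¹ - 1) := by
    rw [(hk_deriv k hz).deriv, ← hw]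
    have : z * z ^ (n k - 1) = z ^ n k := by rw [← pow_succ', Nat.sub_one_add_one (n0 k)]
    push_cast; field_simp
    rw [hw, ← this]; ring
  have : 0 ≤ ((1 - w)⁻¹).re := by
    rw [inv_re]
    have := (re_le_norm _).trans (w_le k hz)
    refine div_nonneg ?_ (normSq_nonneg _)
    rw [sub_re, one_re]; linarith [ρ1 k]
  rw [e, re_ofReal_mul, cn, sub_re, one_re]
  have : (0 : ℝ) < 1 / 4 * (1 / 4) ^ k := by positivity
  nlinarith

noncomputable def hh (z : ℂ) : ℂ := ∑' k, hk k z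

lemma sm : Summable fun k : ℕ => 2 * (1 / 2 : ℝ) ^ k := summable_geometric_two.mul_left 2

lemma hh_diff : DifferentiableOn ℂ hh (ball 0 1) :=
  differentiableOn_tsum_of_summable_norm sm (fun k z hz =>
    (hk_deriv k (mem_ball_zero_iff.1 hz).le).differentiableAt.differentiableWithinAt) isOpen_ball
    fun k z hz => hk_norm k (mem_ball_zero_iff.1 hz).le

lemma hh_cont : ContinuousOn hh (closedBall 0 1) :=
  continuousOn_tsum (fun k z hz =>
    (hk_deriv k (mem_closedBall_zero_iff.1 hz)).continuousAt.continuousWithinAt) sm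
    fun k z hz => hk_norm k (mem_closedBall_zero_iff.1 hz)

lemma hh_pos : ∀ z ∈ ball (0 : ℂ) 1, 0 < (1 + z * deriv hh z).re := by
  intro z hz
  have h1 := hasSum_deriv_of_summable_norm sm (fun k z hz =>
    (hk_deriv k (mem_ball_zero_iff.1 hz).le).differentiableAt.differentiableWithinAt) isOpen_ball
    (fun k z hz => hk_norm k (mem_ball_zero_iff.1 hz).le) hz
  have h2 := hasSum_re (h1.mul_left z)
  have h3 := ((hasSum_geometric_of_lt_one (r := 1 / 4) (by norm_num) (by norm_num)).mul_left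
    (1 / 4)).neg
  have := hasSum_le (fun k => hk_pos k (mem_ball_zero_iff.1 hz).le) h3 h2
  rw [add_re, one_re]
  change _ ≤ (z * deriv hh z).re at this
  linarith

lemma hh_zero : hh 0 = 0 := by simp [hh, hk, n0]

lemma hh_sum {z : ℂ} (hz : ‖z‖ ≤ 1) : HasSum (fun k => T k z) (hh z).re := by
  simpa only [hk_re, hh] using
    hasSum_re (Summable.of_norm_bounded sm fun k => hk_norm k hz).hasSum

lemma T_cont (k : ℕ) : ContinuousOn (T k) (sphere 0 1) := fun z hz =>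
  ((continuous_re.continuousAt.comp (hk_deriv k
    (mem_sphere_zero_iff_norm.1 hz).le).continuousAt).congr
    (Eventually.of_forall fun w => hk_re k w)).continuousWithinAt

lemma log_lip {a b m : ℝ} (hm : 0 < m) (ha : m ≤ a) (hb : m ≤ b) :
    Real.log a - Real.log b ≤ |a - b| / m := by
  have b0 : 0 < b := by linarith
  rw [← Real.log_div (by linarith) b0.ne']
  refine (Real.log_le_sub_one_of_pos (div_pos (by linarith) b0)).trans ?_
  rw [div_sub_one b0.ne']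
  exact (div_le_div_of_nonneg_right (le_abs_self _) b0.le).trans
    (div_le_div_of_nonneg_left (abs_nonneg _) hm hb)

lemma e_lip (x y : ℝ) : ‖exp (I * x) - exp (I * y)‖ ≤ |x - y| := by
  have : exp (I * x) - exp (I * y) = exp (I * y) * (exp (I * (x - y : ℝ)) - 1) := by
    rw [mul_sub, ← exp_add]; push_cast; ring_nf
  rw [this, norm_mul, norm_exp_I_mul_ofReal, one_mul]
  exact Real.norm_exp_I_mul_ofReal_sub_one_le

lemma T_lip (k : ℕ) (x y : ℝ) :
    |T k (exp (I * x)) - T k (exp (I * y))| ≤ Real.exp (L k) * |x - y| := by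
  have hx := u_ge k (norm_exp_I_mul_ofReal x).le
  have hy := u_ge k (norm_exp_I_mul_ofReal y).le
  set u := 1 - (ρ k : ℂ) * exp (I * x) ^ n k with hu
  set v := 1 - (ρ k : ℂ) * exp (I * y) ^ n k with hv
  have h1 : |‖u‖ - ‖v‖| ≤ n k * |x - y| := by
    refine (abs_norm_sub_norm_le u v).trans ?_
    have : u - v = -(ρ k : ℂ) * (exp (I * (n k * x : ℝ)) - exp (I * (n k * y : ℝ))) := by
      rw [hu, hv, ← exp_nat_mul, ← exp_nat_mul]; push_cast; ring_nf
    rw [this, norm_mul, norm_neg, norm_real, Real.norm_of_nonneg (ρ0 k)]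
    refine (mul_le_of_le_one_left (norm_nonneg _) (ρ1 k).le).trans ((e_lip _ _).trans ?_)
    rw [← mul_sub, abs_mul, Nat.abs_cast]
  have h2 : |Real.log ‖u‖ - Real.log ‖v‖| ≤ n k * |x - y| * Real.exp (L k) := by
    have a := log_lip (Real.exp_pos _) hx hy
    have b := log_lip (Real.exp_pos _) hy hx
    rw [abs_sub_comm] at b
    rw [Real.exp_neg, div_inv_eq_mul] at a b
    have := mul_le_mul_of_nonneg_right h1 (Real.exp_pos (L k)).le
    exact abs_le.2 ⟨by linarith, by linarith⟩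
  rw [T, T, ← mul_sub, abs_mul, abs_neg, abs_of_pos (c0 k)]
  refine (mul_le_mul_of_nonneg_left h2 (c0 k).le).trans ?_
  have : c k * n k ≤ 1 := by
    rw [cn]; nlinarith [pow_le_one₀ (n := k) (show (0 : ℝ) ≤ 1 / 4 by norm_num) (by norm_num)]
  have : 0 ≤ |x - y| * Real.exp (L k) := by positivity
  nlinarith

noncomputable def S (k : ℕ) (z : ℂ) : ℝ := ∑ j ∈ Finset.range k, T j z

lemma S_lip (k : ℕ) (x y : ℝ) : |S k (exp (I * x)) - S k (exp (I * y))| ≤ MM k * |x - y| := by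
  induction k with
  | zero => simp [S, MM]
  | succ k ih =>
    have := T_lip k x y
    simp only [S, Finset.sum_range_succ, MM] at ih ⊢
    rw [add_sub_add_comm, add_mul]
    exact (abs_add_le _ _).trans (add_le_add ih this)

lemma MM_mono : Monotone MM := monotone_nat_of_le_succ fun k => by
  simp only [MM]; linarith [Real.exp_pos (4 * 2 ^ k * nn k (MM k))]

lemma S_cont (k : ℕ) : ContinuousOn (S k) (sphere 0 1) :=
  continuousOn_finsetSum _ fun j _ => T_cont j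

end Pool.Agent.H1.Star
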