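import Pool.Agent.H1.StarB

namespace Pool.Agent.H1.Star

open Metric Filter Topology Set Complex MeasureTheory

def Inv (y : ℝ) (k : ℕ) (x : ℝ) : Prop := ∀ j ≤ k,
  |y - S j (exp (I * x)) - 3 / 2 / 2 ^ j| ≤ (1 / 8 - 1 / 16 / 2 ^ k) / 2 ^ j

lemma near {y : ℝ} {k : ℕ} {x : ℝ} (h : Inv y k x) {t : ℝ} (ht : |t - x| ≤ 10 / n k) {j : ℕ}
    (hj : j ≤ k) :
    |y - S j (exp (I * t)) - 3 / 2 / 2 ^ j| ≤ (1 / 8 - 1 / 16 / 2 ^ (k + 1)) / 2 ^ j := by
  have h1 := S_lip j t x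
  have h2 := h j hj
  have m0 : 0 ≤ MM j := MM_mono (Nat.zero_le j)
  have n1 := n1 k
  have h3 : MM j * |t - x| ≤ 1 / 32 / 2 ^ k / 2 ^ j := by
    have : (2 : ℝ) ^ j ≤ 2 ^ k := pow_le_pow_right₀ (by norm_num) hj
    calc _ ≤ MM k * (10 / n k) := by gcongr; exacts [m0.trans (MM_mono hj), MM_mono hj]
      _ ≤ 1 / 32 / 2 ^ k / 2 ^ k := by
        have := nM k
        rw [show (4 : ℝ) ^ k = 2 ^ k * 2 ^ k by rw [← mul_pow]; norm_num] at this
        rw [mul_div_assoc', div_div, div_div, div_le_div_iff₀ (by positivity) (by positivity)]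
        linarith
      _ ≤ _ := by gcongr
  have e : (1 / 8 - 1 / 16 / 2 ^ (k + 1) : ℝ) / 2 ^ j
      = (1 / 8 - 1 / 16 / 2 ^ k) / 2 ^ j + 1 / 32 / 2 ^ k / 2 ^ j := by
    field_simp; ring
  rw [e]
  rw [abs_le] at *
  constructor <;> linarith [h1.1, h1.2, h2.1, h2.2]

lemma step {y : ℝ} {k : ℕ} {x : ℝ} (h : Inv y k x) : ∃ t, Inv y (k + 1) t := by
  have n1 := n1 k
  have p0 := Real.pi_pos
  have p1 := Real.pi_le_four
  have p2 := Real.pi_lt_d2
  set m := ⌊x * n k / (2 * Real.pi)⌋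
  set a : ℝ := m * (2 * Real.pi) / n k with ha
  have m1 : m * (2 * Real.pi) ≤ x * n k := (le_div_iff₀ (by positivity)).1 (Int.floor_le _)
  have m2 : x * n k < (m + 1) * (2 * Real.pi) :=
    (div_lt_iff₀ (by positivity)).1 (Int.lt_floor_add_one _)
  have hn : ∀ t ∈ Icc a (a + Real.pi / n k), |t - x| ≤ 10 / n k := by
    rintro t ⟨t1, t2⟩
    rw [ha, div_le_iff₀ (by positivity)] at t1
    rw [ha, ← add_div, le_div_iff₀ (by positivity)] at t2
    rw [le_div_iff₀ (by positivity), ← abs_of_pos (show (0 : ℝ) < n k by positivity), ← abs_mul,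
      abs_le]
    constructor <;> nlinarith
  have nc : (n k : ℂ) ≠ 0 := Nat.cast_ne_zero.2 (n0 k)
  have ea : exp (I * a) ^ n k = 1 := by
    rw [← exp_nat_mul, ← exp_int_mul_two_pi_mul_I m, ha]; congr 1; push_cast; field_simp
  have eb : exp (I * (a + Real.pi / n k : ℝ)) ^ n k = -1 := by
    rw [ofReal_add, mul_add, exp_add, mul_pow, ea, one_mul, ← exp_nat_mul, ← exp_pi_mul_I]
    congr 1; push_cast; field_simp
  have Ta : T k (exp (I * a)) = 1 / 2 ^ k := by
    rw [T, ea, mul_one, ← ofReal_one, ← ofReal_sub, norm_real, ρ, sub_sub_cancel,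
      Real.norm_of_nonneg (Real.exp_pos _).le, Real.log_exp, ← cL]; ring
  have Tb : T k (exp (I * (a + Real.pi / n k : ℝ))) ≤ 0 := by
    rw [T, eb, mul_neg_one, sub_neg_eq_add, ← ofReal_one, ← ofReal_add, norm_real,
      Real.norm_of_nonneg (by linarith [ρ0 k]), neg_mul, neg_nonpos]
    exact mul_nonneg (c0 k).le (Real.log_nonneg (by linarith [ρ0 k]))
  have ab : a ≤ a + Real.pi / n k := le_add_of_nonneg_right (by positivity)
  have hc : ContinuousOn (fun t : ℝ => y - S (k + 1) (exp (I * t)) - 3 / 2 / 2 ^ (k + 1))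
      (Icc a (a + Real.pi / n k)) := by
    refine (continuousOn_const.sub ((S_cont (k + 1)).comp (by fun_prop) fun t _ => ?_)).sub
      continuousOn_const
    simp [norm_exp_I_mul_ofReal]
  have q0 : (0 : ℝ) < 1 / 2 ^ k := by positivity
  have q1 : (0 : ℝ) < 1 / 16 / 2 ^ (k + 1) / 2 ^ k := by positivity
  have e1 : (1 / 8 - 1 / 16 / 2 ^ (k + 1) : ℝ) / 2 ^ k
      = 1 / 8 * (1 / 2 ^ k) - 1 / 16 / 2 ^ (k + 1) / 2 ^ k := by ring
  have e2 : (3 / 2 / 2 ^ k : ℝ) = 3 / 2 * (1 / 2 ^ k) := by ring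
  have e3 : (3 / 2 / 2 ^ (k + 1) : ℝ) = 3 / 4 * (1 / 2 ^ k) := by ring
  have ia := abs_le.1 (near h (hn _ (left_mem_Icc.2 ab)) le_rfl)
  have ib := abs_le.1 (near h (hn _ (right_mem_Icc.2 ab)) le_rfl)
  obtain ⟨t, ht, h0⟩ := intermediate_value_Icc ab hc (show (0 : ℝ) ∈ Icc _ _ by
    simp only [S, Finset.sum_range_succ] at ia ib ⊢
    constructor <;> linarith [ia.1, ia.2, ib.1, ib.2])
  refine ⟨t, fun j hj => ?_⟩
  rcases hj.lt_or_eq with hj | rfl
  · exact near h (hn t ht) (Nat.lt_succ_iff.1 hj)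
  · simp only at h0
    rw [h0, abs_zero]
    have : (1 : ℝ) ≤ 2 ^ (k + 1) := one_le_pow₀ (by norm_num)
    have : (1 / 16 : ℝ) / 2 ^ (k + 1) ≤ 1 / 16 := div_le_self (by norm_num) this
    exact div_nonneg (by linarith) (by positivity)

def E : Set ℂ := {z | z ∈ sphere 0 1 ∧ ∀ k, 1 / 2 / 2 ^ k ≤ T k z}

lemma E_closed : IsClosed E := by
  have : E = ⋂ k, sphere 0 1 ∩ T k ⁻¹' Ici (1 / 2 / 2 ^ k) := by
    ext z; simp [E, forall_and]
  rw [this]
  exact isClosed_iInter fun k =>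
    (T_cont k).preimage_isClosed_of_isClosed isClosed_sphere isClosed_Ici

lemma hit {y : ℝ} (hy : |y - 3 / 2| ≤ 1 / 16) : ∃ z ∈ E, (hh z).re = y := by
  have h1 : ∀ k, ∃ t, Inv y k t := fun k => by
    induction k with
    | zero => exact ⟨0, fun j hj => by
        obtain rfl := Nat.le_zero.1 hj
        simp only [S, Finset.range_zero, Finset.sum_empty]; norm_num; simpa using hy⟩
    | succ k ih => obtain ⟨t, ht⟩ := ih; exact step ht
  set K : ℕ → Set ℂ := fun j => sphere 0 1 ∩ S j ⁻¹'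
    Icc (y - 13 / 8 * (1 / 2 ^ j)) (y - 11 / 8 * (1 / 2 ^ j))
  have Kc : ∀ j, IsClosed (K j) := fun j =>
    (S_cont j).preimage_isClosed_of_isClosed isClosed_sphere isClosed_Icc
  obtain ⟨z, hz⟩ := IsCompact.nonempty_iInter_of_sequence_nonempty_isCompact_isClosed
    (fun k => ⋂ j ≤ k, K j) (fun k z hz => mem_iInter₂.2 fun j hj =>
      mem_iInter₂.1 hz j (hj.trans (Nat.le_succ k))) (fun k => by
        obtain ⟨t, ht⟩ := h1 k
        refine ⟨exp (I * t), mem_iInter₂.2 fun j hj => ⟨by simp [norm_exp_I_mul_ofReal], ?_⟩⟩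
        have := abs_le.1 (ht j hj)
        have e1 : (1 / 8 - 1 / 16 / 2 ^ k : ℝ) / 2 ^ j
          = 1 / 8 * (1 / 2 ^ j) - 1 / 16 / 2 ^ k / 2 ^ j := by ring
        have e2 : (3 / 2 / 2 ^ j : ℝ) = 3 / 2 * (1 / 2 ^ j) := by ring
        have q1 : (0 : ℝ) < 1 / 16 / 2 ^ k / 2 ^ j := by positivity
        constructor <;> linarith [this.1, this.2])
    ((isCompact_sphere 0 1).of_isClosed_subset (isClosed_biInter fun j _ => Kc j)
      fun z hz => (mem_iInter₂.1 hz 0 le_rfl).1) fun k => isClosed_biInter fun j _ => Kc j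
  have hK : ∀ j, z ∈ K j := fun j => mem_iInter₂.1 (mem_iInter.1 hz j) j le_rfl
  refine ⟨z, ⟨(hK 0).1, fun k => ?_⟩, ?_⟩
  · have a := (hK k).2.2
    have b := (hK (k + 1)).2.1
    simp only [S, Finset.sum_range_succ] at a b
    have : (1 / 2 ^ (k + 1) : ℝ) = 1 / 2 * (1 / 2 ^ k) := by ring
    have : (1 / 2 / 2 ^ k : ℝ) = 1 / 2 * (1 / 2 ^ k) := by ring
    have q0 : (0 : ℝ) < 1 / 2 ^ k := by positivity
    linarith
  · have t1 := (hh_sum (mem_sphere_zero_iff_norm.1 (hK 0).1).le).tendsto_sum_nat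
    have t0 : ∀ r : ℝ, Tendsto (fun j : ℕ => y - r * (1 / 2 ^ j)) atTop (𝓝 y) := fun r => by
      have := ((tendsto_pow_atTop_nhds_zero_of_lt_one (r := (1 / 2 : ℝ)) (by norm_num)
        (by norm_num)).const_mul r).const_sub y
      simpa using this
    exact tendsto_nhds_unique t1 (tendsto_of_tendsto_of_tendsto_of_le_of_le (t0 _) (t0 _)
      (fun j => (hK j).2.1) fun j => (hK j).2.2)

lemma cover (k : ℕ) (hk : 3 ≤ k) : ∃ a : ℕ → ℝ, ∀ z ∈ E, ∃ i < n k,
    ∃ t ∈ Icc (a i) (a i + Real.exp (-(2 ^ k * n k))), z = exp (I * t) := by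
  set l := Real.exp (-(2 ^ k * n k)) with hl
  refine ⟨fun i => 2 * Real.pi * i / n k - l / 2, fun z ⟨hz, hT⟩ => ?_⟩
  have n1 := n1 k
  rw [mem_sphere_zero_iff_norm] at hz
  have l0 : 0 < l := Real.exp_pos _
  have l8 : 8 * l ≤ 1 := by
    have : (8 : ℝ) ≤ 2 ^ k := by
      calc (8 : ℝ) = 2 ^ 3 := by norm_num
        _ ≤ _ := pow_le_pow_right₀ (by norm_num) hk
    have := Real.add_one_le_exp (2 ^ k * n k)
    rw [hl, Real.exp_neg, ← div_eq_mul_inv, div_le_one (Real.exp_pos _)]; nlinarith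
  have h1 : ‖1 - (ρ k : ℂ) * z ^ n k‖ ≤ l ^ 2 := by
    have := hT k
    rw [T, div_div, mul_comm 2, ← div_div, ← cL] at this
    rw [hl, ← Real.exp_nat_mul, ← Real.log_le_iff_le_exp ((Real.exp_pos _).trans_le (u_ge k hz.le))]
    have h : Real.log ‖1 - (ρ k : ℂ) * z ^ n k‖ ≤ -L k / 2 :=
      le_of_mul_le_mul_left (by linarith) (c0 k)
    refine h.trans_eq ?_
    rw [L]; push_cast; ring
  have zn : ‖z ^ n k‖ = 1 := by rw [norm_pow, hz, one_pow]
  have h2 : ‖1 - z ^ n k‖ ≤ 2 * l ^ 2 := by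
    have e : 1 - z ^ n k = 1 - (ρ k : ℂ) * z ^ n k - (1 - ρ k : ℝ) * z ^ n k := by push_cast; ring
    have := (u_ge k hz.le).trans h1
    rw [e]; refine (norm_sub_le _ _).trans ?_
    rw [norm_mul, zn, norm_real, ρ, sub_sub_cancel, Real.norm_of_nonneg (Real.exp_pos _).le, ← ρ]
    linarith
  have z0 : z ^ n k ≠ 0 := norm_pos_iff.1 (by rw [zn]; exact one_pos)
  have h3 : |arg (z ^ n k)| ≤ l / 2 := by
    have := angle_le_mul_norm_sub norm_one zn
    rw [angle_one_left z0] at this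
    nlinarith [Real.pi_le_four, norm_nonneg (1 - z ^ n k)]
  set φ := arg (z ^ n k)
  have nc : (n k : ℂ) ≠ 0 := Nat.cast_ne_zero.2 (n0 k)
  have h4 : (z * exp (-(I * (φ / n k : ℝ)))) ^ n k = 1 := by
    have := norm_mul_exp_arg_mul_I (z ^ n k)
    rw [zn, ofReal_one, one_mul] at this
    rw [mul_pow, ← this, ← exp_nat_mul, ← exp_add, ← exp_zero]; congr 1; push_cast; field_simp; ring
  have : NeZero (n k) := ⟨n0 k⟩
  obtain ⟨i, hi, e⟩ := (isPrimitiveRoot_exp (n k) (n0 k)).eq_pow_of_pow_eq_one h4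
  have h5 : |φ / n k| ≤ l / 2 := by
    rw [abs_div, Nat.abs_cast]; exact (div_le_self (abs_nonneg _) n1).trans h3
  refine ⟨i, hi, 2 * Real.pi * i / n k + φ / n k, ⟨by linarith [(abs_le.1 h5).1],
    by linarith [(abs_le.1 h5).2]⟩, ?_⟩
  rw [exp_neg, ← div_eq_mul_inv, eq_div_iff (exp_ne_zero _), ← exp_nat_mul, ← exp_add] at e
  rw [← e]; congr 1; push_cast; ring

lemma energy (μ : Measure ℂ) [IsProbabilityMeasure μ] (hμ : μ Eᶜ = 0) :
    ∫⁻ x, ∫⁻ y, (if x = y then ⊤ else ENNReal.ofReal (Real.log (2 / ‖x - y‖))) ∂μ ∂μ = ⊤ := by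
  refine ENNReal.eq_top_of_forall_nnreal_le fun r => ?_
  obtain ⟨k, hk⟩ := ((tendsto_pow_atTop_atTop_of_one_lt (one_lt_two (α := ℝ))).eventually_ge_atTop
    (4 * r)).and (eventually_ge_atTop 3) |>.exists
  obtain ⟨a, ha⟩ := cover k hk.2
  set l := Real.exp (-(2 ^ k * n k)) with hl
  have n1 := n1 k
  set B : ℕ → Set ℂ := fun i => closedBall (exp (I * a i)) l
  set q := ENNReal.ofReal (1 / (2 * n k))
  set s := (Finset.range (n k)).filter fun i => μ (B i) < q
  set G := (⋃ i ∈ Finset.range (n k), B i) \ ⋃ i ∈ s, B i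
  have mG : MeasurableSet G := (Finset.measurableSet_biUnion _ fun _ _ => measurableSet_closedBall).diff
    (Finset.measurableSet_biUnion _ fun _ _ => measurableSet_closedBall)
  have hb : μ (⋃ i ∈ s, B i) ≤ ENNReal.ofReal (1 / 2) := by
    refine (measure_biUnion_finset_le _ _).trans ((Finset.sum_le_card_nsmul _ _ q fun i hi =>
      (Finset.mem_filter.1 hi).2.le).trans ?_)
    have : s.card ≤ n k := (Finset.card_filter_le _ _).trans (Finset.card_range _).le
    rw [nsmul_eq_mul, ← ENNReal.ofReal_natCast, ← ENNReal.ofReal_mul (by positivity)]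
    refine ENNReal.ofReal_le_ofReal ?_
    rw [mul_one_div, div_le_div_iff₀ (by positivity) (by positivity)]
    have : (s.card : ℝ) ≤ n k := by exact_mod_cast this
    linarith
  have hG : ENNReal.ofReal (1 / 2) ≤ μ G := by
    have : (univ : Set ℂ) ⊆ Eᶜ ∪ (G ∪ ⋃ i ∈ s, B i) := fun z _ => by
      by_cases hz : z ∈ E
      · right
        rw [sdiff_union_self]; left
        obtain ⟨i, hi, t, ht, rfl⟩ := ha z hz
        refine mem_iUnion₂.2 ⟨i, Finset.mem_range.2 hi, mem_closedBall_iff_norm.2 ?_⟩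
        exact (e_lip _ _).trans (abs_le.2 ⟨by linarith [ht.1, ht.2], by linarith [ht.1, ht.2]⟩)
      · exact Or.inl hz
    have h := (measure_mono (μ := μ) this).trans ((measure_union_le _ _).trans
      (add_le_add le_rfl ((measure_union_le _ _).trans (add_le_add le_rfl hb))))
    rw [hμ, zero_add, measure_univ, show (1 : ENNReal) = .ofReal (1 / 2) + .ofReal (1 / 2) by
      rw [← ENNReal.ofReal_add (by norm_num) (by norm_num)]; norm_num] at h
    exact (ENNReal.add_le_add_iff_right ENNReal.ofReal_ne_top).1 h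
  have hx : ∀ x ∈ G, ENNReal.ofReal (2 ^ k * n k) * q ≤
      ∫⁻ y, (if x = y then ⊤ else ENNReal.ofReal (Real.log (2 / ‖x - y‖))) ∂μ := by
    rintro x ⟨h1, h2⟩
    obtain ⟨i, hi, xi⟩ := mem_iUnion₂.1 h1
    have : q ≤ μ (B i) := not_lt.1 fun h => h2 (mem_iUnion₂.2 ⟨i, Finset.mem_filter.2 ⟨hi, h⟩, xi⟩)
    refine (mul_le_mul_right this _).trans ?_
    rw [← setLIntegral_const]
    refine (setLIntegral_mono' measurableSet_closedBall fun y hy => ?_).trans
      (setLIntegral_le_lintegral _ _)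
    split_ifs with e
    · exact le_top
    have d0 : 0 < ‖x - y‖ := norm_pos_iff.2 (sub_ne_zero.2 e)
    have d1 : ‖x - y‖ ≤ l + l := by
      rw [← dist_eq_norm]
      exact (dist_triangle_right _ _ _).trans (add_le_add (mem_closedBall.1 xi) (mem_closedBall.1 hy))
    refine ENNReal.ofReal_le_ofReal ((Real.le_log_iff_exp_le (by positivity)).2 ?_)
    rw [le_div_iff₀ d0]
    have : Real.exp (2 ^ k * n k) * l = 1 := by rw [hl, ← Real.exp_add]; simp
    nlinarith [Real.exp_pos (2 ^ k * n k)]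
  refine le_trans ?_ ((setLIntegral_mono' mG hx).trans (setLIntegral_le_lintegral _ _))
  rw [setLIntegral_const]
  refine le_trans ?_ (mul_le_mul_right hG _)
  rw [← ENNReal.ofReal_mul (by positivity), ← ENNReal.ofReal_mul (by positivity),
    ← ENNReal.ofReal_coe_nnreal]
  refine ENNReal.ofReal_le_ofReal ?_
  have : (2 : ℝ) ^ k * n k * (1 / (2 * n k)) * (1 / 2) = 2 ^ k / 4 := by field_simp; ring
  linarith [hk.1]

end Pool.Agent.H1.Star
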