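import Mathlib

namespace Pool.Agent.H1.Tau

open Filter Topology Set Complex MeasureTheory intervalIntegral

noncomputable def κ (u : ℝ → ℝ) (x : ℝ) : ℂ := ∫ s in (0 : ℝ)..2, (u s : ℂ) * exp (I * x * s)

lemma ne (x s : ℝ) : ‖exp (I * x * s)‖ = 1 := by
  rw [mul_assoc, ← ofReal_mul, norm_exp_I_mul_ofReal]

lemma bd {f : ℝ → ℂ} (hf : Continuous f) :
    ∃ C, 0 ≤ C ∧ ∀ x : ℝ, ‖∫ s in (0 : ℝ)..2, f s * exp (I * x * s)‖ ≤ C :=
  ⟨∫ s in (0 : ℝ)..2, ‖f s‖, integral_nonneg zero_le_two fun _ _ => norm_nonneg _, fun x =>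
    norm_integral_le_of_norm_le zero_le_two (ae_of_all _ fun s _ => by rw [norm_mul, ne, mul_one])
      (hf.norm.intervalIntegrable _ _)⟩

lemma parts {f : ℝ → ℂ} (hf : ContDiff ℝ 1 f) (x : ℝ) :
    I * x * ∫ s in (0 : ℝ)..2, f s * exp (I * x * s) = f 2 * exp (I * x * (2 : ℝ)) - f 0 -
      ∫ s in (0 : ℝ)..2, deriv f s * exp (I * x * s) := by
  have := integral_mul_deriv_eq_deriv_mul (a := 0) (b := 2) (u := f) (u' := deriv f)
    (v := fun s : ℝ => exp (I * x * s)) (v' := fun s : ℝ => exp (I * x * s) * (I * x))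
    (fun s _ => (hf.differentiable one_ne_zero s).hasDerivAt)
    (fun s _ => by simpa using (((hasDerivAt_id (s : ℂ)).const_mul (I * x)).cexp).comp_ofReal)
    ((hf.continuous_deriv le_rfl).intervalIntegrable _ _) (Continuous.intervalIntegrable (by fun_prop) _ _)
  simp only [← mul_assoc, intervalIntegral.integral_mul_const] at this
  rw [mul_comm (I * x), ← mul_assoc, this]; simp

lemma kern {u : ℝ → ℝ} (hu : ContDiff ℝ 2 u) (h2 : u 2 = 0) : ∃ C, 0 ≤ C ∧ (∀ x, ‖κ u x‖ ≤ C) ∧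
    ∀ x y, x ≤ y → ‖κ u y - κ u x‖ ≤ C * (Real.arctan y - Real.arctan x) := by
  set g : ℝ → ℂ := fun s => I * s * u s with hg
  have cu := hu.continuous
  have g2 : ContDiff ℝ 2 g := (contDiff_const.mul ofRealCLM.contDiff).mul (ofRealCLM.contDiff.comp hu)
  have g1 : ContDiff ℝ 1 (deriv g) := g2.deriv'
  obtain ⟨A, A0, hA⟩ := bd (f := fun s => (u s : ℂ)) (by fun_prop)
  obtain ⟨B, B0, hB⟩ := bd g2.continuous
  obtain ⟨D, D0, hD⟩ := bd (g1.continuous_deriv le_rfl)
  set C := A + B + D + ‖deriv g 2‖ + ‖deriv g 0‖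
  have n2 := norm_nonneg (deriv g 2)
  have n0 := norm_nonneg (deriv g 0)
  have hd : ∀ x : ℝ, HasDerivAt (κ u) (∫ s in (0 : ℝ)..2, g s * exp (I * x * s)) x := fun x =>
    (intervalIntegral.hasDerivAt_integral_of_dominated_loc_of_deriv_le (s := univ)
      (F := fun (x : ℝ) (s : ℝ) => (u s : ℂ) * exp (I * x * s))
      (F' := fun (x : ℝ) (s : ℝ) => g s * exp (I * x * s)) (bound := fun s => ‖g s‖) univ_mem
      (Eventually.of_forall fun _ => Continuous.aestronglyMeasurable (by fun_prop))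
      (Continuous.intervalIntegrable (by fun_prop) _ _)
      (Continuous.aestronglyMeasurable (by fun_prop))
      (ae_of_all _ fun s _ y _ => by rw [norm_mul, ne, mul_one])
      (g2.continuous.norm.intervalIntegrable _ _) (ae_of_all _ fun s _ y _ => by
        refine (((((hasDerivAt_id (y : ℂ)).const_mul I).mul_const (s : ℂ)).cexp.const_mul
          (u s : ℂ)).comp_ofReal).congr_deriv ?_
        simp only [hg, id]; ring)).2
  have hb : ∀ x : ℝ, ‖∫ s in (0 : ℝ)..2, g s * exp (I * x * s)‖ ≤ C * (1 / (1 + x ^ 2)) := fun x => by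
    have p1 := parts (g2.of_le one_le_two) x
    have p2 := parts g1 x
    rw [show g 2 = 0 by simp [hg, h2], show g 0 = 0 by simp [hg], zero_mul, sub_zero, zero_sub,
      ← neg_eq_iff_eq_neg] at p1
    rw [← p1] at p2
    have := congrArg norm p2
    simp only [norm_mul, norm_neg, norm_I, one_mul, norm_real, Real.norm_eq_abs] at this
    have h3 := (norm_sub_le (deriv g 2 * exp (I * x * (2 : ℝ)) - deriv g 0) _).trans
      (add_le_add (norm_sub_le _ _) (hD x))
    rw [← this, norm_mul, ne, ← mul_assoc, abs_mul_abs_self] at h3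
    rw [mul_one_div, le_div_iff₀ (by positivity)]
    nlinarith [hB x]
  refine ⟨C, by positivity, fun x => (hA x).trans (by linarith), fun x y hxy => ?_⟩
  rw [← integral_eq_sub_of_hasDerivAt (fun t _ => hd t) (Continuous.intervalIntegrable
    (continuous_parametric_intervalIntegral_of_continuous' (by fun_prop) _ _) _ _),
    ← integral_one_div_one_add_sq, ← intervalIntegral.integral_const_mul]
  exact norm_integral_le_of_norm_le hxy (ae_of_all _ fun t _ => hb t) (Continuous.intervalIntegrable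
    (continuous_const.mul (continuous_const.div (by fun_prop) fun t => by positivity)) _ _)

lemma abel {c f : ℕ → ℂ} {M V : ℝ} (hc : ∀ k, ‖∑ n ∈ Finset.range k, c n‖ ≤ M) (K : ℕ)
    (hV : ‖f (K - 1)‖ + ∑ i ∈ Finset.range (K - 1), ‖f (i + 1) - f i‖ ≤ V) :
    ‖∑ n ∈ Finset.range K, f n * c n‖ ≤ V * M := by
  have := Finset.sum_range_by_parts f c K
  simp only [smul_eq_mul] at this
  rw [this]
  refine (norm_sub_le _ _).trans (le_trans ?_
    (mul_le_mul_of_nonneg_right hV ((norm_nonneg _).trans (hc 0))))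
  rw [add_mul, Finset.sum_mul, norm_mul]
  refine add_le_add (by gcongr; exact hc _) (norm_sum_le_of_le _ fun i _ => ?_)
  rw [norm_mul]; gcongr; exact hc _

lemma geo {r : ℝ} (r0 : 0 ≤ r) (k : ℕ) : ∑ i ∈ Finset.range k, (r ^ i - r ^ (i + 1)) ≤ 1 := by
  rw [Finset.sum_range_sub']; simp [pow_nonneg r0]

noncomputable def F (a : ℕ → ℂ) (r : ℝ) (K : ℕ) (θ : ℝ) : ℂ :=
  ∑ n ∈ Finset.range K, (r : ℂ) ^ n * (a n * exp (θ * I) ^ n)

lemma F_le {a : ℕ → ℂ} {M r θ : ℝ} (hc : ∀ k, ‖∑ n ∈ Finset.range k, a n * exp (θ * I) ^ n‖ ≤ M)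
    (r0 : 0 ≤ r) (r1 : r ≤ 1) (K : ℕ) : ‖F a r K θ‖ ≤ 2 * M := by
  refine abel hc K ?_
  have : ∀ i : ℕ, ‖(r : ℂ) ^ (i + 1) - r ^ i‖ = r ^ i - r ^ (i + 1) := fun i => by
    rw [← ofReal_pow, ← ofReal_pow, ← ofReal_sub, norm_real, norm_sub_rev,
      Real.norm_of_nonneg (sub_nonneg.2 (pow_le_pow_of_le_one r0 r1 i.le_succ))]
  simp only [this, norm_pow, norm_real, Real.norm_of_nonneg r0]
  linarith [geo r0 (K - 1), pow_le_one₀ (n := K - 1) r0 r1]

lemma lemB {u : ℝ → ℝ} (hu : ContDiff ℝ 2 u) (h2 : u 2 = 0) : ∃ C, 0 ≤ C ∧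
    ∀ (a : ℕ → ℂ) (M r α η : ℝ) (K N : ℕ), 0 ≤ r → r ≤ 1 →
      (∀ k, ‖∑ n ∈ Finset.range k, a n * exp (α * I) ^ n‖ ≤ M) →
      ‖∫ s in (0 : ℝ)..2, (u s : ℂ) * (F a r K (α + η * s) * exp (-(N * ((α + η * s : ℝ) * I))))‖
        ≤ C * M := by
  obtain ⟨C, C0, h1, h3⟩ := kern hu h2
  have cu := hu.continuous
  refine ⟨6 * C, by positivity, fun a M r α η K N r0 r1 hc => ?_⟩
  have e : ∫ s in (0 : ℝ)..2, (u s : ℂ) * (F a r K (α + η * s) * exp (-(N * ((α + η * s : ℝ) * I))))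
      = exp (-(N * (α * I))) * ∑ n ∈ Finset.range K,
        ((r : ℂ) ^ n * κ u (η * (n - N))) * (a n * exp (α * I) ^ n) := by
    simp only [F, Finset.sum_mul, Finset.mul_sum]
    rw [integral_finsetSum fun n _ => Continuous.intervalIntegrable (by fun_prop) _ _]
    refine Finset.sum_congr rfl fun n _ => ?_
    rw [κ, ← intervalIntegral.integral_const_mul, ← intervalIntegral.integral_mul_const, ← intervalIntegral.integral_const_mul]
    congr 1; ext s
    have : exp ((α + η * s : ℝ) * I) ^ n * exp (-(N * ((α + η * s : ℝ) * I))) =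
        exp (-(N * (α * I))) * exp (I * (η * (n - N) : ℝ) * s) * exp (α * I) ^ n := by
      simp only [← exp_nat_mul, ← exp_add]; congr 1; push_cast; ring
    linear_combination u s * r ^ n * a n * this
  have e1 : ‖exp (-(N * (α * I)))‖ = 1 := by
    rw [exp_neg, norm_inv, exp_nat_mul, norm_pow, norm_exp_ofReal_mul_I]; simp
  rw [e, norm_mul, e1, one_mul]
  refine abel hc K ?_
  set A : ℕ → ℝ := fun n => Real.arctan (η * (n - N)) with hA
  have h4 : ∀ i : ℕ, ‖(r : ℂ) ^ (i + 1) * κ u (η * ((i + 1 : ℕ) - N)) - r ^ i * κ u (η * (i - N))‖ ≤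
      C * |A (i + 1) - A i| + C * (r ^ i - r ^ (i + 1)) := fun i => by
    have h5 : ‖κ u (η * ((i + 1 : ℕ) - N)) - κ u (η * (i - N))‖ ≤ C * |A (i + 1) - A i| := by
      rcases le_total (η * (i - N)) (η * ((i + 1 : ℕ) - N)) with h | h
      · exact (h3 _ _ h).trans (mul_le_mul_of_nonneg_left (le_abs_self _) C0)
      · rw [norm_sub_rev, abs_sub_comm]
        exact (h3 _ _ h).trans (mul_le_mul_of_nonneg_left (le_abs_self _) C0)
    rw [show ∀ x y : ℂ, (r : ℂ) ^ (i + 1) * x - r ^ i * y = (r ^ (i + 1) : ℝ) * (x - y) -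
      (r ^ i - r ^ (i + 1) : ℝ) * y by intros; push_cast; ring]
    have p := sub_nonneg.2 (pow_le_pow_of_le_one r0 r1 i.le_succ)
    refine (norm_sub_le _ _).trans (add_le_add ?_ ?_) <;> rw [norm_mul, norm_real]
    · rw [Real.norm_of_nonneg (by positivity)]
      exact (mul_le_of_le_one_left (norm_nonneg _) (pow_le_one₀ r0 r1)).trans h5
    · rw [Real.norm_of_nonneg p, mul_comm]; exact mul_le_mul_of_nonneg_right (h1 _) p
  have h6 : ∑ i ∈ Finset.range (K - 1), |A (i + 1) - A i| ≤ 4 := by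
    have b : ∀ n, |A n| ≤ 2 := fun n => abs_le.2 ⟨by
      linarith [Real.neg_pi_div_two_lt_arctan (η * (n - N)), Real.pi_le_four], by
      linarith [Real.arctan_lt_pi_div_two (η * (n - N)), Real.pi_le_four]⟩
    have b1 := abs_le.1 (b (K - 1))
    have b0 := abs_le.1 (b 0)
    rcases le_total 0 η with h | h
    · rw [Finset.sum_congr rfl fun i _ => abs_of_nonneg (sub_nonneg.2 (Real.arctan_mono
        (by push_cast; nlinarith))), Finset.sum_range_sub fun n : ℕ => Real.arctan (η * (n - N))]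
      linarith
    · rw [Finset.sum_congr rfl fun i _ => abs_of_nonpos (sub_nonpos.2 (Real.arctan_mono
        (by push_cast; nlinarith))), Finset.sum_neg_distrib,
        Finset.sum_range_sub fun n : ℕ => Real.arctan (η * (n - N))]
      linarith
  have h7 := Finset.sum_le_sum fun i (_ : i ∈ Finset.range (K - 1)) => h4 i
  rw [Finset.sum_add_distrib, ← Finset.mul_sum, ← Finset.mul_sum] at h7
  have h8 : ‖(r : ℂ) ^ (K - 1) * κ u (η * ((K - 1 : ℕ) - N))‖ ≤ C := by
    rw [norm_mul, norm_pow, norm_real, Real.norm_of_nonneg r0]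
    exact (mul_le_of_le_one_left (norm_nonneg _) (pow_le_one₀ r0 r1)).trans (h1 _)
  nlinarith [geo r0 (K - 1)]

end Pool.Agent.H1.Tau
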