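import Pool.Agent.H1.TauA

namespace Pool.Agent.H1.Tau

open Filter Topology Set Complex MeasureTheory

def Gap (Z : Set ℝ) (p q : ℝ) (L R : ℝ → ℝ) : Prop := ∀ x ∈ Ioo p q \ Z,
  L x ∈ Z ∧ R x ∈ Z ∧ L x < x ∧ x < R x ∧ ∀ z ∈ Z, z ≤ L x ∨ R x ≤ z

lemma ex_gap {Z : Set ℝ} (hZ : IsClosed Z) {p q : ℝ} (hp : p ∈ Z) (hq : q ∈ Z) :
    ∃ L R, Measurable L ∧ Measurable R ∧ Gap Z p q L R := by
  refine ⟨fun x => sSup (insert p (Z ∩ Iic x)), fun x => sInf (insert q (Z ∩ Ici x)),
    Monotone.measurable fun x y h => csSup_le_csSup ((bddAbove_Iic.mono inter_subset_right).insert p)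
      (insert_nonempty _ _) (insert_subset_insert (inter_subset_inter_right _ (Iic_subset_Iic.2 h))),
    Monotone.measurable fun x y h => csInf_le_csInf ((bddBelow_Ici.mono inter_subset_right).insert q)
      (insert_nonempty _ _) (insert_subset_insert (inter_subset_inter_right _ (Ici_subset_Ici.2 h))),
    fun x hx => ?_⟩
  have a : p ∈ Z ∩ Iic x := ⟨hp, hx.1.1.le⟩
  have b : q ∈ Z ∩ Ici x := ⟨hq, hx.1.2.le⟩
  simp only [insert_eq_of_mem a, insert_eq_of_mem b]
  have ba : BddAbove (Z ∩ Iic x) := bddAbove_Iic.mono inter_subset_right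
  have bb : BddBelow (Z ∩ Ici x) := bddBelow_Ici.mono inter_subset_right
  have m1 := (hZ.inter isClosed_Iic).csSup_mem ⟨p, a⟩ ba
  have m2 := (hZ.inter isClosed_Ici).csInf_mem ⟨q, b⟩ bb
  refine ⟨m1.1, m2.1, lt_of_le_of_ne m1.2 fun e => hx.2 (e ▸ m1.1),
    lt_of_le_of_ne m2.2 fun e => hx.2 (e ▸ m2.1), fun z hz => ?_⟩
  exact (le_total z x).imp (fun h => le_csSup ba ⟨hz, h⟩) fun h => csInf_le bb ⟨hz, h⟩

variable {Z : Set ℝ} {p q : ℝ} {L R : ℝ → ℝ}

lemma Gap.same (h : Gap Z p q L R) (hp : p ∈ Z) (hq : q ∈ Z) {x : ℝ} (hx : x ∈ Ioo p q \ Z) {y : ℝ}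
    (hy : y ∈ Ioo (L x) (R x)) : y ∈ Ioo p q \ Z ∧ L y = L x ∧ R y = R x := by
  obtain ⟨a, b, c, d, e⟩ := h x hx
  have yU : y ∈ Ioo p q \ Z := ⟨⟨by rcases e p hp with t | t <;> linarith [hy.1, hx.1.1],
    by rcases e q hq with t | t <;> linarith [hy.2, hx.1.2]⟩,
    fun hz => by rcases e y hz with t | t <;> linarith [hy.1, hy.2]⟩
  obtain ⟨a', b', c', d', e'⟩ := h y yU
  refine ⟨yU, ?_, ?_⟩
  · rcases e _ a' with t | t <;> rcases e' _ a with s | s <;> linarith [hy.1, hy.2]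
  · rcases e _ b' with t | t <;> rcases e' _ b with s | s <;> linarith [hy.1, hy.2]

lemma Gap.sum (h : Gap Z p q L R) (hp : p ∈ Z) (hq : q ∈ Z) {G : ℝ → ℂ} {ω : ℝ → ℝ}
    (hG : IntegrableOn G (Ioo p q \ Z)) (hω : IntegrableOn ω (Ioo p q \ Z))
    (H : ∀ x ∈ Ioo p q \ Z, ‖∫ y in Ioo (L x) (R x), G y‖ ≤ ∫ y in Ioo (L x) (R x), ω y) :
    ‖∫ y in Ioo p q \ Z, G y‖ ≤ ∫ y in Ioo p q \ Z, ω y := by
  set S : Set (Set ℝ) := (fun x => Ioo (L x) (R x)) '' (Ioo p q \ Z)
  have hd : S.PairwiseDisjoint id := by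
    rintro _ ⟨x, hx, rfl⟩ _ ⟨y, hy, rfl⟩ hne
    refine disjoint_left.2 fun z h1 h2 => hne ?_
    have a := h.same hp hq hx h1
    have b := h.same hp hq hy h2
    simp only [← a.2.1, ← a.2.2, ← b.2.1, ← b.2.2]
  have : Countable S := (hd.countable_of_isOpen (by rintro _ ⟨x, -, rfl⟩; exact isOpen_Ioo)
    (by rintro _ ⟨x, hx, rfl⟩; exact ⟨x, (h x hx).2.2.1, (h x hx).2.2.2.1⟩)).to_subtype
  have e : Ioo p q \ Z = ⋃ i : S, i.1 := by
    ext x; simp only [mem_iUnion]
    exact ⟨fun hx => ⟨⟨_, x, hx, rfl⟩, (h x hx).2.2.1, (h x hx).2.2.2.1⟩,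
      fun ⟨⟨_, y, hy, rfl⟩, t⟩ => (h.same hp hq hy t).1⟩
  have hm : ∀ i : S, MeasurableSet i.1 := by rintro ⟨_, x, -, rfl⟩; exact measurableSet_Ioo
  rw [e] at hG hω ⊢
  refine (hasSum_integral_iUnion hm (hd.subtype _ _) hG).norm_le_of_bounded
    (hasSum_integral_iUnion hm (hd.subtype _ _) hω) ?_
  rintro ⟨_, x, hx, rfl⟩
  exact H x hx

noncomputable def u0 (s : ℝ) : ℝ := Real.smoothTransition (2 - s)
noncomputable def u1 (s : ℝ) : ℝ := 1 - Real.smoothTransition (s - 1)
lemma u0c : ContDiff ℝ 2 u0 := Real.smoothTransition.contDiff.comp (by fun_prop)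
lemma u1c : ContDiff ℝ 2 u1 := contDiff_const.sub (Real.smoothTransition.contDiff.comp (by fun_prop))
lemma u0z {s : ℝ} (h : 2 ≤ s) : u0 s = 0 := Real.smoothTransition.zero_of_nonpos (by linarith)
lemma u1z {s : ℝ} (h : 2 ≤ s) : u1 s = 0 := by
  rw [u1, Real.smoothTransition.one_of_one_le (by linarith), sub_self]
lemma u0o {s : ℝ} (h : s ≤ 1) : u0 s = 1 := Real.smoothTransition.one_of_one_le (by linarith)
lemma u1o {s : ℝ} (h : s ≤ 1) : u1 s = 1 := by
  rw [u1, Real.smoothTransition.zero_of_nonpos (by linarith), sub_zero]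

noncomputable def η (δ : ℝ) (L R : ℝ → ℝ) (x : ℝ) : ℝ := min δ ((R x - L x) / 3)
noncomputable def χ (δ : ℝ) (L R : ℝ → ℝ) (x : ℝ) : ℝ :=
  u0 ((x - L x) / η δ L R x) + u1 ((R x - x) / η δ L R x)

lemma χ_bd (δ x : ℝ) : |1 - χ δ L R x| ≤ 1 := by
  simp only [χ, u0, u1, abs_le]
  constructor <;> linarith [Real.smoothTransition.le_one (2 - (x - L x) / η δ L R x),
    Real.smoothTransition.nonneg (2 - (x - L x) / η δ L R x),
    Real.smoothTransition.le_one ((R x - x) / η δ L R x - 1),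
    Real.smoothTransition.nonneg ((R x - x) / η δ L R x - 1)]

lemma χ_meas (hL : Measurable L) (hR : Measurable R) (δ : ℝ) : Measurable (χ δ L R) := by
  have := u0c.continuous.measurable
  have := u1c.continuous.measurable
  unfold χ η; fun_prop

lemma χ_one {δ x : ℝ} (hδ : 0 < δ) (h1 : L x < x) (h2 : x < R x) (h : x - L x < δ ∨ R x - x < δ) :
    χ δ L R x = 1 := by
  rw [χ, η]
  rcases le_total δ ((R x - L x) / 3) with t | t
  · rw [min_eq_left t]
    rcases h with h | h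
    · rw [u0o ((div_le_one hδ).2 h.le), u1z ((le_div_iff₀ hδ).2 (by linarith)), add_zero]
    · rw [u1o ((div_le_one hδ).2 h.le), u0z ((le_div_iff₀ hδ).2 (by linarith)), zero_add]
  · have : 0 < R x - L x := by linarith
    rw [min_eq_right t, u0, u1, show (R x - x) / ((R x - L x) / 3) - 1
      = 2 - (x - L x) / ((R x - L x) / 3) by field_simp; ring]; ring

lemma half {u : ℝ → ℝ} (hu : Continuous u) (hz : ∀ s, 2 ≤ s → u s = 0) {Φ : ℝ → ℂ}
    (hΦ : Continuous Φ) {α β c : ℝ} (hc : c ≠ 0) (h : 2 ≤ (β - α) / c) :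
    ∫ y in α..β, (u ((y - α) / c) : ℂ) * Φ y = c • ∫ s in (0 : ℝ)..2, (u s : ℂ) * Φ (α + c * s) := by
  have e := intervalIntegral.smul_integral_comp_add_mul (a := 0) (b := (β - α) / c)
    (fun y => (u ((y - α) / c) : ℂ) * Φ y) c α
  simp only [add_sub_cancel_left, mul_div_cancel_left₀ _ hc, mul_zero, add_zero,
    mul_div_cancel₀ _ hc, add_sub_cancel] at e
  rw [← e, ← intervalIntegral.integral_add_adjacent_intervals (b := 2)
    (Continuous.intervalIntegrable (by fun_prop) _ _) (Continuous.intervalIntegrable (by fun_prop) _ _),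
    intervalIntegral.integral_congr (a := 2) (g := fun _ => 0) fun s hs => by
      rw [uIcc_of_le h] at hs; simp [hz s hs.1]]
  simp

lemma est (h : Gap Z p q L R) (hL : Measurable L) (hR : Measurable R) (hp : p ∈ Z) (hq : q ∈ Z)
    {δ D : ℝ} (hδ : 0 < δ) {Φ : ℝ → ℂ} (hΦ : Continuous Φ)
    (H : ∀ α ∈ Z, ∀ c : ℝ, ‖∫ s in (0 : ℝ)..2, (u0 s : ℂ) * Φ (α + c * s)‖ +
      ‖∫ s in (0 : ℝ)..2, (u1 s : ℂ) * Φ (α + c * s)‖ ≤ D) :
    IntegrableOn (fun y => (χ δ L R y : ℂ) * Φ y) (Ioo p q \ Z) ∧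
    ‖∫ y in Ioo p q \ Z, (χ δ L R y : ℂ) * Φ y‖ ≤
      ∫ y in Ioo p q \ Z, 2 * D * (η δ L R y / (R y - L y)) := by
  have hi : IntegrableOn (fun y => (χ δ L R y : ℂ) * Φ y) (Ioo p q \ Z) :=
    ((hΦ.integrableOn_Icc (a := p) (b := q)).mono_set (sdiff_subset.trans Ioo_subset_Icc_self)).bdd_mul
      (c := 2) (continuous_ofReal.measurable.comp (χ_meas hL hR δ)).aestronglyMeasurable
      (ae_of_all _ fun y => by
        have := abs_le.1 (χ_bd (L := L) (R := R) δ y)
        rw [norm_real, Real.norm_eq_abs, abs_le]; constructor <;> linarith)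
  refine ⟨hi, h.sum hp hq hi (Measure.integrableOn_of_bounded (M := |2 * D| * 1)
    ((measure_mono sdiff_subset).trans_lt measure_Ioo_lt_top).ne
    (Measurable.aestronglyMeasurable (by unfold η; fun_prop)) (ae_of_all _ fun y => ?_))
    fun x hx => ?_⟩
  · rw [norm_mul]
    refine mul_le_mul_of_nonneg_left ?_ (abs_nonneg _)
    rw [norm_div, η]
    refine div_le_one_of_le₀ ?_ (norm_nonneg _)
    rw [Real.norm_eq_abs, Real.norm_eq_abs, abs_le]
    exact ⟨le_min (by linarith [abs_nonneg (R y - L y)]) (by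
      linarith [neg_abs_le (R y - L y), abs_nonneg (R y - L y)]), (min_le_right _ _).trans
      (by linarith [le_abs_self (R y - L y), abs_nonneg (R y - L y)])⟩
  obtain ⟨a, b, c, d, -⟩ := h x hx
  set e := η δ L R x with he
  have l0 : 0 < R x - L x := by linarith
  have e0 : 0 < e := lt_min hδ (by positivity)
  have e3 : 2 ≤ (R x - L x) / e := (le_div_iff₀ e0).2 (by
    have : e ≤ (R x - L x) / 3 := min_le_right _ _
    linarith)
  have c0 := u0c.continuous
  have c1 := u1c.continuous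
  rw [setIntegral_congr_fun measurableSet_Ioo (g := fun y => (u0 ((y - L x) / e) : ℂ) * Φ y +
      (u1 ((y - R x) / -e) : ℂ) * Φ y) fun y hy => by
        have := h.same hp hq hx hy
        simp only [χ, η, this.2.1, this.2.2, he, div_neg, ← neg_div, neg_sub]; push_cast; ring,
    setIntegral_congr_fun measurableSet_Ioo (g := fun _ => 2 * D * (e / (R x - L x))) fun y hy => by
        have := h.same hp hq hx hy
        simp only [η, this.2.1, this.2.2, he],
    ← integral_Ioc_eq_integral_Ioo, ← intervalIntegral.integral_of_le (c.trans d).le,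
    intervalIntegral.integral_add (Continuous.intervalIntegrable (by fun_prop) _ _)
      (Continuous.intervalIntegrable (by fun_prop) _ _), half c0 (fun _ => u0z) hΦ e0.ne' e3,
    intervalIntegral.integral_symm (R x), half c1 (fun _ => u1z) hΦ (neg_ne_zero.2 e0.ne')
      (by rwa [div_neg, ← neg_div, neg_sub])]
  simp only [setIntegral_const, Real.volume_real_Ioo_of_le (c.trans d).le, smul_eq_mul]
  refine (norm_add_le _ _).trans ?_
  rw [norm_neg, norm_smul, norm_smul, norm_neg, Real.norm_of_nonneg e0.le,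
    show (R x - L x) * (2 * D * (e / (R x - L x))) = e * D + e * D by field_simp; ring]
  exact add_le_add (mul_le_mul_of_nonneg_left ((le_add_of_nonneg_right (norm_nonneg _)).trans
    (H _ a _)) e0.le) (mul_le_mul_of_nonneg_left ((le_add_of_nonneg_left (norm_nonneg _)).trans
    (H _ b _)) e0.le)

lemma small (hZ : IsClosed Z) (h : Gap Z p q L R) (hL : Measurable L) (hR : Measurable R) (D : ℝ)
    {ε : ℝ} (hε : 0 < ε) :
    ∃ δ > 0, ∫ y in Ioo p q \ Z, 2 * D * (η δ L R y / (R y - L y)) ≤ ε := by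
  have m := (measurableSet_Ioo (a := p) (b := q)).diff hZ.measurableSet
  have : IsFiniteMeasure (volume.restrict (Ioo p q \ Z)) :=
    isFiniteMeasure_restrict.2 ((measure_mono sdiff_subset).trans_lt measure_Ioo_lt_top).ne
  have := tendsto_integral_filter_of_dominated_convergence (μ := volume.restrict (Ioo p q \ Z))
    (l := 𝓝[>] 0) (F := fun δ y => η δ L R y / (R y - L y)) (f := fun _ => 0) (fun _ => 1)
    (Eventually.of_forall fun δ => Measurable.aestronglyMeasurable (by unfold η; fun_prop))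
    (eventually_nhdsWithin_of_forall fun δ hδ => (ae_restrict_mem m).mono fun y hy => by
      have : 0 < R y - L y := by linarith [(h y hy).2.2.1, (h y hy).2.2.2.1]
      rw [η, Real.norm_of_nonneg (div_nonneg (le_min (le_of_lt hδ) (by positivity)) this.le),
        div_le_one this]
      exact (min_le_right _ _).trans (by linarith)) (integrable_const _)
    ((ae_restrict_mem m).mono fun y hy => by
      have : 0 < R y - L y := by linarith [(h y hy).2.2.1, (h y hy).2.2.2.1]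
      have c : Continuous fun δ => η δ L R y / (R y - L y) := by unfold η; fun_prop
      have := (c.tendsto 0).mono_left (nhdsWithin_le_nhds (s := Ioi 0))
      rwa [η, min_eq_left (by positivity), zero_div] at this)
  obtain ⟨δ, h1, h2⟩ := (((this.const_mul (2 * D)).eventually_le_const (u := ε)
    (by simpa using hε)).and self_mem_nhdsWithin).exists
  exact ⟨δ, h2, by rwa [integral_const_mul]⟩

end Pool.Agent.H1.Tau
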