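import Pool.Agent.H1.TauB

namespace Pool.Agent.H1.Tau

open Filter Topology Set Complex MeasureTheory
open scoped Real

lemma orth (a : ℕ → ℂ) (r p : ℝ) {K N : ℕ} (h : N < K) :
    ∫ θ in p..p + 2 * π, F a r K θ * exp (-(N * (θ * I))) = 2 * π * (r ^ N * a N) := by
  simp only [F, Finset.sum_mul]
  rw [intervalIntegral.integral_finsetSum fun n _ => Continuous.intervalIntegrable (by fun_prop) _ _]
  have e : ∀ (n : ℕ) (θ : ℝ), (r : ℂ) ^ n * (a n * exp (θ * I) ^ n) * exp (-(N * (θ * I)))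
      = r ^ n * a n * exp ((((n - N : ℤ) : ℂ) * I) * θ) := fun n θ => by
    rw [← exp_nat_mul, mul_assoc, mul_assoc, ← exp_add, mul_assoc]; congr 3; push_cast; ring
  simp only [e, intervalIntegral.integral_const_mul]
  rw [Finset.sum_eq_single N (fun n _ hn => ?_) fun hn => (hn (Finset.mem_range.2 h)).elim]
  · simp; ring
  · rw [integral_exp_mul_complex (mul_ne_zero (Int.cast_ne_zero.2 (by omega)) I_ne_zero)]
    have : exp (((n - N : ℤ) : ℂ) * I * (p + 2 * π : ℝ)) = exp (((n - N : ℤ) : ℂ) * I * p) := by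
      rw [← mul_one (exp (_ * _ * (p : ℂ))), ← exp_int_mul_two_pi_mul_I (n - N), ← exp_add]
      congr 1; push_cast; ring
    rw [this]; simp

lemma to_zero {a : ℕ → ℂ} {Z : Set ℝ} (hZ : IsClosed Z) {p M : ℝ} (hp : p ∈ Z)
    (hq : p + 2 * π ∈ Z) (hc : ∀ α ∈ Z, ∀ k, ‖∑ n ∈ Finset.range k, a n * exp (α * I) ^ n‖ ≤ M)
    (hreg : ∀ δ : ℝ, 0 < δ → ∃ B, ∀ᶠ r in 𝓝[<] (1 : ℝ), ∀ᶠ K in atTop, ∀ θ ∈ Icc p (p + 2 * π),
      (∀ z ∈ Z, δ ≤ |θ - z|) → ‖F a r K θ‖ ≤ B) : Tendsto a atTop (𝓝 0) := by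
  obtain ⟨L, R, hL, hR, h⟩ := ex_gap hZ hp hq
  obtain ⟨C0, -, b0⟩ := lemB u0c (u0z le_rfl)
  obtain ⟨C1, -, b1⟩ := lemB u1c (u1z le_rfl)
  have pq : p < p + 2 * π := by linarith [Real.pi_pos]
  set U := Ioo p (p + 2 * π) \ Z
  have mU : MeasurableSet U := measurableSet_Ioo.diff hZ.measurableSet
  rw [← Nat.cofinite_eq_atTop, NormedAddGroup.tendsto_nhds_zero]
  intro ε hε
  obtain ⟨δ, δ0, hδ⟩ := small hZ h hL hR (C0 * M + C1 * M) hε
  obtain ⟨B, hB⟩ := hreg δ δ0
  by_contra hinf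
  obtain ⟨k, hk⟩ := exists_nat_gt (16 * (|B| + 2 * |M|) ^ 2 / ε ^ 2)
  obtain ⟨S, hS, hk'⟩ := Set.Infinite.exists_subset_card_eq hinf k
  obtain ⟨P, hP⟩ := S.bddAbove
  have t : Tendsto (fun r : ℝ => r ^ P) (𝓝[<] 1) (𝓝 (1 ^ P)) :=
    ((continuous_pow P).tendsto 1).mono_left nhdsWithin_le_nhds
  obtain ⟨r, r1, r2, r3⟩ := (hB.and ((t.eventually_const_le (u := 1 / 2) (by norm_num)).and
    (Ioo_mem_nhdsLT (zero_lt_one' ℝ)))).exists
  obtain ⟨K, K1, K2⟩ := (r1.and (eventually_gt_atTop P)).exists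
  have cF : Continuous (F a r K) := by unfold F; fun_prop
  set g : ℝ → ℂ := fun θ => F a r K θ - U.indicator (fun θ => (χ δ L R θ : ℂ) * F a r K θ) θ with hg
  have gm : Measurable g := cF.measurable.sub (((continuous_ofReal.measurable.comp
    (χ_meas hL hR δ)).mul cF.measurable).indicator mU)
  have gb : ∀ θ ∈ Ioc p (p + 2 * π), ‖g θ‖ ≤ |B| + 2 * |M| := fun θ hθ => by
    have := abs_nonneg B
    have := abs_nonneg M
    by_cases hU : θ ∈ U
    · obtain ⟨-, -, c, d, e⟩ := h θ hU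
      rw [hg]; simp only [indicator_of_mem hU]
      by_cases h1 : θ - L θ < δ ∨ R θ - θ < δ
      · rw [χ_one δ0 c d h1]; simp; positivity
      · push Not at h1
        rw [← one_sub_mul, norm_mul, ← ofReal_one, ← ofReal_sub, norm_real]
        refine (mul_le_of_le_one_left (norm_nonneg _) (χ_bd δ θ)).trans
          ((K1 θ (Ioc_subset_Icc_self hθ) fun z hz => ?_).trans (by linarith [le_abs_self B]))
        rcases e z hz with s | s
        · exact le_abs.2 (Or.inl (by linarith [h1.1]))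
        · exact le_abs.2 (Or.inr (by linarith [h1.2]))
    · have : θ ∈ Z := by_contra fun hz => hU ⟨⟨hθ.1, lt_of_le_of_ne hθ.2 fun e => hz (e ▸ hq)⟩, hz⟩
      rw [hg]; simp only [indicator_of_notMem hU, sub_zero]
      exact (F_le (hc θ this) r3.1.le r3.2.le K).trans (by linarith [le_abs_self M])
  have bes := sum_le_hasSum (S.map ⟨((↑) : ℕ → ℤ), Nat.cast_injective⟩) (fun _ _ => sq_nonneg _)
    (hasSum_sq_fourierCoeffOn pq (MemLp.of_bound (p := 2) gm.aestronglyMeasurable _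
      ((ae_restrict_mem measurableSet_Ioc).mono gb)))
  have i2 : ∫ x in p..p + 2 * π, ‖g x‖ ^ 2 ≤ (|B| + 2 * |M|) ^ 2 * (2 * π) := by
    have := intervalIntegral.norm_integral_le_of_norm_le_const (a := p) (b := p + 2 * π)
      (f := fun x => ‖g x‖ ^ 2) (C := (|B| + 2 * |M|) ^ 2) fun x hx => by
        rw [uIoc_of_le pq.le] at hx
        rw [norm_pow, norm_norm]; exact pow_le_pow_left₀ (norm_nonneg _) (gb x hx) 2
    rw [add_sub_cancel_left, abs_of_pos Real.two_pi_pos] at this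
    exact (le_abs_self _).trans this
  have low : ∀ N ∈ S, (ε / 4) ^ 2 ≤ ‖fourierCoeffOn pq g (N : ℤ)‖ ^ 2 := fun N hN => by
    refine pow_le_pow_left₀ (by positivity) ?_ 2
    obtain ⟨e1, e2⟩ := est h hL hR hp hq δ0 (D := C0 * M + C1 * M)
      (Φ := fun θ => F a r K θ * exp (-(N * (θ * I)))) (by fun_prop) fun α hα c =>
        add_le_add (b0 a M r α c K N r3.1.le r3.2.le (hc α hα)) (b1 a M r α c K N r3.1.le r3.2.le (hc α hα))
    have e3 : ∀ x : ℝ, fourier (-(N : ℤ)) (x : AddCircle (p + 2 * π - p)) • g x =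
        F a r K x * exp (-(N * (x * I))) -
        U.indicator (fun y => (χ δ L R y : ℂ) * (F a r K y * exp (-(N * (y * I))))) x := fun x => by
      have : exp (2 * π * I * (-(N : ℤ) : ℤ) * x / (p + 2 * π - p : ℝ)) = exp (-(N * (x * I))) := by
        have : (π : ℂ) ≠ 0 := ofReal_ne_zero.2 Real.pi_ne_zero
        congr 1; push_cast; rw [add_sub_cancel_left]; field_simp
      rw [fourier_coe_apply, this, hg]
      by_cases hU : x ∈ U <;> simp [hU] <;> ring
    have sub : U ⊆ Ioc p (p + 2 * π) := sdiff_subset.trans Ioo_subset_Ioc_self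
    rw [fourierCoeffOn_eq_integral]
    simp only [e3]
    rw [intervalIntegral.integral_sub (Continuous.intervalIntegrable (by fun_prop) _ _)
      ((integrable_indicator_iff mU).2 e1).intervalIntegrable, orth a r p ((hP hN).trans_lt K2),
      intervalIntegral.integral_of_le pq.le, setIntegral_indicator mU, inter_eq_right.2 sub,
      add_sub_cancel_left, norm_smul, Real.norm_of_nonneg (by positivity), one_div,
      ← div_eq_inv_mul, le_div_iff₀ (by positivity)]
    refine le_trans ?_ (norm_sub_norm_le _ _)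
    have n1 : ε ≤ ‖a N‖ := not_lt.1 (hS hN)
    have n2 : 1 / 2 ≤ r ^ N := r2.trans (pow_le_pow_of_le_one r3.1.le r3.2.le (hP hN))
    have n3 : ‖(2 * π * (r ^ N * a N) : ℂ)‖ = 2 * π * (r ^ N * ‖a N‖) := by
      simp [abs_of_pos Real.pi_pos, abs_of_pos r3.1]
    have n4 : 1 / 2 * ε ≤ r ^ N * ‖a N‖ := by gcongr
    rw [n3]
    nlinarith [Real.pi_gt_three, e2.trans hδ]
  rw [Finset.sum_map, add_sub_cancel_left, smul_eq_mul] at bes
  have := (Finset.card_nsmul_le_sum S _ _ low).trans (bes.trans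
    (mul_le_mul_of_nonneg_left i2 (by positivity)))
  rw [hk', nsmul_eq_mul, mul_comm (_ ^ 2), inv_mul_cancel_left₀ (by positivity)] at this
  rw [div_lt_iff₀ (by positivity)] at hk
  linarith

end Pool.Agent.H1.Tau
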