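import Pool.Agent.H1.TauC

namespace Pool.Agent.H1.Tau

open Filter Topology Set Complex Metric

lemma tail {a : ℕ → ℂ} {ε : ℝ} {N : ℕ} (h : ∀ n, N ≤ n → ‖a n‖ ≤ ε) {w : ℂ} (hw : ‖w‖ < 1) :
    ‖∑' n, a n * w ^ n - ∑ n ∈ Finset.range N, a n * w ^ n‖ ≤ ε * ‖w‖ ^ N * (1 - ‖w‖)⁻¹ := by
  have s := (hasSum_geometric_of_lt_one (norm_nonneg w) hw).mul_left (ε * ‖w‖ ^ N)
  have b : ∀ n, ‖a (n + N) * w ^ (n + N)‖ ≤ ε * ‖w‖ ^ N * ‖w‖ ^ n := fun n => by
    rw [norm_mul, norm_pow, pow_add, mul_comm (_ ^ n), mul_assoc]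
    exact mul_le_mul_of_nonneg_right (h _ (by omega)) (by positivity)
  rw [← Summable.sum_add_tsum_nat_add' (f := fun n => a n * w ^ n) (k := N)
    (s.summable.of_norm_bounded b), add_sub_cancel_left]
  exact tsum_of_norm_bounded s b

lemma riesz {a : ℕ → ℂ} (ha : Tendsto a atTop (𝓝 0)) {z : ℂ} (hz : ‖z‖ = 1) {R : ℝ} (hR : 0 < R)
    {g : ℂ → ℂ} (hg : DifferentiableOn ℂ g (ball z R))
    (he : ∀ w ∈ ball z R, ‖w‖ < 1 → g w = ∑' n, a n * w ^ n) :
    Tendsto (fun N => ∑ n ∈ Finset.range N, a n * z ^ n) atTop (𝓝 (g z)) := by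
  obtain ⟨ρ, ρ0, ρ1, ρ2⟩ : ∃ ρ, 0 < ρ ∧ ρ < R ∧ ρ < 1 := by
    obtain ⟨ρ, h1, h2⟩ := exists_between (lt_min hR zero_lt_one)
    exact ⟨ρ, h1, h2.trans_le (min_le_left _ _), h2.trans_le (min_le_right _ _)⟩
  have sub := closedBall_subset_ball (x := z) ρ1
  obtain ⟨B, hB⟩ := (isCompact_closedBall z ρ).exists_bound_of_continuousOn (hg.continuousOn.mono sub)
  have B0 : 0 ≤ B := (norm_nonneg _).trans (hB z (mem_closedBall_self ρ0.le))
  have rg : ∀ w ∈ closedBall z ρ, 0 < ‖w‖ ∧ ‖w‖ < 2 := fun w hw => by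
    have := abs_le.1 ((abs_norm_sub_norm_le w z).trans (mem_closedBall_iff_norm.1 hw))
    constructor <;> linarith
  refine Metric.tendsto_nhds.2 fun e he' => ?_
  set ε := e * ρ ^ 2 / 7 with hε
  have ε0 : 0 < ε := by positivity
  obtain ⟨m, hm⟩ := eventually_atTop.1 (ha.norm.eventually_le_const (u := ε) (by simpa using ε0))
  set A := ∑ n ∈ Finset.range m, ‖a n‖ * 2 ^ n
  have A0 : 0 ≤ A := by positivity
  filter_upwards [eventually_ge_atTop m, (tendsto_natCast_atTop_atTop (R := ℝ)).eventually_ge_atTop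
    ((B + A) / ε)] with N hN hN'
  rw [div_le_iff₀ ε0] at hN'
  have key := norm_le_of_forall_mem_frontier_norm_le (U := ball z ρ) isBounded_ball (C := 6 * ε)
    (f := fun w => (g w - ∑ n ∈ Finset.range N, a n * w ^ n) / w ^ N *
      ((w - z) * (w * (starRingEnd ℂ) z - 1) + ρ ^ 2 * w)) (DifferentiableOn.diffContOnCl (by
      rw [closure_ball z ρ0.ne']
      exact (((hg.mono sub).sub (by fun_prop)).div (by fun_prop) fun w hw =>
        pow_ne_zero _ (norm_pos_iff.1 (rg w hw).1)).mul (by fun_prop))) (fun w hw => ?_)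
      (subset_closure (mem_ball_self ρ0))
  · simp only [sub_self, zero_mul, zero_add, norm_mul, norm_div, norm_pow, hz, norm_real, one_pow,
      div_one, mul_one, Real.norm_of_nonneg ρ0.le] at key
    rw [dist_comm, dist_eq_norm]
    refine lt_of_mul_lt_mul_right (key.trans_lt ?_) (sq_nonneg ρ)
    linarith
  rw [frontier_ball z ρ0.ne'] at hw
  obtain ⟨t0, t2⟩ := rg w (sphere_subset_closedBall hw)
  have e1 : (w - z) * (w * (starRingEnd ℂ) z - 1) + ρ ^ 2 * w = (w - z) * (‖w‖ ^ 2 - 1 : ℝ) := by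
    have h1 := mul_conj' (w - z)
    have h2 := mul_conj' w
    rw [mem_sphere_iff_norm.1 hw, map_sub] at h1
    push_cast
    linear_combination -w * h1 + (w - z) * h2
  have e2 : ‖(w - z) * (‖w‖ ^ 2 - 1 : ℝ)‖ ≤ 3 * |‖w‖ - 1| := by
    rw [norm_mul, mem_sphere_iff_norm.1 hw, norm_real, Real.norm_eq_abs,
      show ‖w‖ ^ 2 - 1 = (‖w‖ + 1) * (‖w‖ - 1) by ring, abs_mul, abs_of_pos (by linarith), ← mul_assoc]
    exact mul_le_mul_of_nonneg_right (by nlinarith) (abs_nonneg _)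
  have tN := pow_pos t0 N
  simp only [e1]
  rw [norm_mul, norm_div, norm_pow]
  refine (mul_le_mul_of_nonneg_left e2 (by positivity)).trans ?_
  rw [div_mul_eq_mul_div, div_le_iff₀ tN]
  rcases lt_trichotomy ‖w‖ 1 with t | t | t
  · have := tail (fun n hn => hm n (hN.trans hn)) t
    rw [← he w (sub (sphere_subset_closedBall hw)) t, ← div_eq_mul_inv, le_div_iff₀ (by linarith)] at this
    rw [abs_of_neg (by linarith)]
    nlinarith [mul_pos ε0 tN]
  · rw [t, sub_self, abs_zero]; simp [ε0.le]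
  · have h1 : ‖∑ n ∈ Finset.range N, a n * w ^ n‖ ≤ A + ε * ∑ n ∈ Finset.range N, ‖w‖ ^ n := by
      rw [← Finset.sum_range_add_sum_Ico _ hN, Finset.mul_sum]
      refine (norm_add_le _ _).trans (add_le_add (norm_sum_le_of_le _ fun n _ => ?_)
        ((norm_sum_le_of_le _ (n := fun n => ε * ‖w‖ ^ n) fun n hn => ?_).trans
          (Finset.sum_le_sum_of_subset_of_nonneg (fun n hn => Finset.mem_range.2
            (Finset.mem_Ico.1 hn).2) fun _ _ _ => by positivity))) <;> rw [norm_mul, norm_pow] <;> gcongr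
      exact hm n (Finset.mem_Ico.1 hn).1
    have h2 := geom_sum_mul ‖w‖ N
    have h3 := one_add_mul_sub_le_pow (a := ‖w‖) (by linarith) N
    have h4 := (norm_sub_le (g w) _).trans (add_le_add (hB w (sphere_subset_closedBall hw)) h1)
    have h5 := mul_le_mul_of_nonneg_right h4 (sub_pos.2 t).le
    have h6 := mul_le_mul_of_nonneg_right hN' (sub_pos.2 t).le
    have h7 := mul_le_mul_of_nonneg_left h3 ε0.le
    rw [abs_of_pos (by linarith)]
    have h8 := congrArg (ε * ·) h2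
    nlinarith

end Pool.Agent.H1.Tau
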