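import Mathlib

set_option autoImplicit false

namespace Pool.Agent.H1.Til
open MeasureTheory Filter Topology Complex
open scoped FourierTransform ComplexConjugate ContDiff SchwartzMap

noncomputable def ee (y : ℝ) : ℂ := cexp ((2 * Real.pi * y : ℝ) * I)

lemma ee_add (x y : ℝ) : ee (x + y) = ee x * ee y := by
  rw [ee, ee, ee, ← Complex.exp_add]; congr 1; push_cast; ring

@[simp] lemma ee_norm (x : ℝ) : ‖ee x‖ = 1 := Complex.norm_exp_ofReal_mul_I _

@[simp] lemma ee_zero : ee 0 = 1 := by simp [ee]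

lemma ee_conj (x : ℝ) : conj (ee x) = ee (-x) := by
  rw [ee, ee, ← Complex.exp_conj, map_mul, conj_ofReal, conj_I]; congr 1; push_cast; ring

lemma ee_smooth : ContDiff ℝ ∞ ee := by
  unfold ee
  exact ((Complex.ofRealCLM.contDiff.comp (by fun_prop : ContDiff ℝ ∞ fun y : ℝ =>
    2 * Real.pi * y)).mul contDiff_const).cexp

@[fun_prop] lemma ee_cont : Continuous ee := ee_smooth.continuous

lemma ee_deriv (x : ℝ) : HasDerivAt ee (2 * Real.pi * I * ee x) x := by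
  have := (((hasDerivAt_id x).const_mul (2 * Real.pi)).ofReal_comp.mul_const I).cexp
  refine this.congr_deriv ?_
  simp only [ee, id]; push_cast; ring

noncomputable def iv (ψ : ℝ → ℂ) (y : ℝ) : ℂ := ∫ ξ, ψ ξ * ee (y * ξ)

lemma four_eq (g : ℝ → ℂ) (y : ℝ) : 𝓕 g y = iv g (-y) := by
  rw [Real.fourier_eq', iv]
  refine integral_congr_ae (Eventually.of_forall fun ξ => ?_)
  simp only [smul_eq_mul, ee, mul_comm (g ξ)]
  congr 3
  simp

structure Good (ψ : ℝ → ℂ) : Prop where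
  sm : ContDiff ℝ ∞ ψ
  z : ∀ ξ, 1 / 2 ≤ |ξ| → ψ ξ = 0

lemma Good.hcs {ψ : ℝ → ℂ} (h : Good ψ) : HasCompactSupport ψ :=
  HasCompactSupport.intro (isCompact_Icc (a := -1 / 2) (b := 1 / 2)) fun ξ hξ => h.z ξ (by
    rw [Set.mem_Icc, not_and_or] at hξ
    rw [le_abs]; rcases hξ with h | h <;> [right; left] <;> linarith)

lemma poi {ψ : ℝ → ℂ} (h : Good ψ) (t ξ : ℝ) (hξ : |ξ| ≤ 1 / 2) :
    ∑' n : ℤ, iv ψ (n - t) * ee (-n * ξ) = ψ ξ * ee (-t * ξ) := by
  have hg : Good fun ξ => ψ ξ * ee (-t * ξ) :=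
    ⟨h.sm.mul (ee_smooth.comp (by fun_prop)), fun ξ hξ => by rw [h.z ξ hξ, zero_mul]⟩
  have := (hg.hcs.toSchwartzMap hg.sm).tsum_eq_tsum_fourier ξ
  rw [tsum_eq_single (f := fun n : ℤ => hg.hcs.toSchwartzMap hg.sm (ξ + n)) 0
    (fun n hn => hg.z _ ?_)] at this
  · rw [← (Equiv.neg ℤ).tsum_eq] at this
    refine Eq.trans (tsum_congr fun n => ?_) (this.symm.trans ?_)
    · rw [SchwartzMap.fourier_coe, four_eq, fourier_coe_apply]
      congr 1
      · refine integral_congr_ae (Eventually.of_forall fun ξ => ?_)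
        change ψ ξ * ee _ = ψ ξ * ee (-t * ξ) * _
        rw [mul_assoc, ← ee_add, Equiv.neg_apply, Int.cast_neg]; ring_nf
      · rw [ee]; congr 1; simp; ring
    · change ψ (ξ + (0 : ℤ)) * ee (-t * (ξ + (0 : ℤ))) = _
      simp
  · have h1 : (1 : ℝ) ≤ |(n : ℝ)| := by exact_mod_cast Int.one_le_abs hn
    have := abs_sub_abs_le_abs_add (n : ℝ) ξ
    rw [add_comm]; linarith

lemma samp {ψ χ : ℝ → ℂ} (h : Good ψ) (hχ : Good χ) (t x : ℝ)
    (hs : Summable fun m : ℤ => ‖iv ψ (m - t)‖) :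
    HasSum (fun m : ℤ => iv ψ (m - t) * iv χ (x - m)) (iv (fun ξ => ψ ξ * χ ξ) (x - t)) := by
  have hi : Integrable χ := hχ.sm.continuous.integrable_of_hasCompactSupport hχ.hcs
  have := hasSum_integral_of_summable_integral_norm (μ := volume)
    (F := fun (m : ℤ) ξ => iv ψ (m - t) * (χ ξ * ee ((x - m) * ξ)))
    (fun m => (hi.mul_bdd (c := 1) (by fun_prop) (Eventually.of_forall fun ξ => by simp)).const_mul _)
    (by simpa [integral_const_mul] using hs.mul_right _)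
  simp only [integral_const_mul] at this
  refine (show _ = iv (fun ξ => ψ ξ * χ ξ) (x - t) from ?_) ▸ this
  refine (integral_congr_ae (Eventually.of_forall fun ξ => ?_)).symm
  by_cases hξ : |ξ| ≤ 1 / 2
  · have e : ∀ m : ℤ, iv ψ (m - t) * (χ ξ * ee ((x - m) * ξ)) =
        χ ξ * ee (x * ξ) * (iv ψ (m - t) * ee (-m * ξ)) := fun m => by
      rw [show (x - m) * ξ = x * ξ + -m * ξ by ring, ee_add]; ring
    simp only [e, tsum_mul_left, poi h t ξ hξ]
    rw [show (x - t) * ξ = x * ξ + -t * ξ by ring, ee_add]; ring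
  · simp [hχ.z ξ (not_le.mp hξ).le]

lemma inv_conj (ψ : ℝ → ℝ) (y : ℝ) :
    conj (iv (fun ξ => ψ ξ) y) = iv (fun ξ => ψ (-ξ)) y := by
  rw [iv, iv, ← integral_conj, ← integral_neg_eq_self]
  simp [ee_conj]

lemma inv_scale (w : ℝ → ℂ) (η : ℝ) (hη : 0 < η) (y : ℝ) :
    iv (fun ξ => w ((ξ - 1 / 4) / η)) y = η * ee (y / 4) * iv w (η * y) := by
  rw [iv, iv, ← integral_add_right_eq_self _ (1 / 4)]
  have := Measure.integral_comp_div (fun u => w u * ee (η * y * u)) η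
  rw [abs_of_pos hη] at this
  rw [mul_comm (η : ℂ), mul_assoc, ← Complex.real_smul, ← this, ← integral_const_mul]
  refine integral_congr_ae (Eventually.of_forall fun ξ => ?_)
  simp only [add_sub_cancel_right]
  rw [show y * (ξ + 1 / 4) = y / 4 + η * y * (ξ / η) by field_simp; ring, ee_add]; ring

lemma schw {w : ℝ → ℂ} (h1 : HasCompactSupport w) (h2 : ContDiff ℝ ∞ w) :
    ∃ (W' : ℝ → ℂ) (C : ℝ), 1 ≤ C ∧ (∀ y, HasDerivAt (iv w) (W' y) y) ∧ Integrable (iv w) ∧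
      ∀ y, ‖iv w y‖ ≤ C / (1 + |y|) ^ 2 ∧ ‖W' y‖ ≤ C / (1 + |y|) ^ 2 := by
  let S : 𝓢(ℝ, ℂ) := 𝓕⁻ (h1.toSchwartzMap h2)
  have e : iv w = S := by
    ext y
    rw [SchwartzMap.fourierInv_coe, Real.fourierInv_eq_fourier_neg, four_eq, neg_neg]; rfl
  have dec : ∀ S : 𝓢(ℝ, ℂ), ∃ C : ℝ, 0 ≤ C ∧ ∀ y, ‖S y‖ ≤ C / (1 + |y|) ^ 2 := fun S => by
    have := SchwartzMap.one_add_le_sup_seminorm_apply (𝕜 := ℂ) (m := (2, 0)) (k := 2) (n := 0)
        le_rfl le_rfl S
    refine ⟨_, le_trans (by positivity) (this 0), fun y => ?_⟩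
    rw [le_div_iff₀ (by positivity), mul_comm]
    simpa using this y
  obtain ⟨C1, c1, h1⟩ := dec S
  obtain ⟨C2, c2, h2⟩ := dec (SchwartzMap.derivCLM ℂ ℂ S)
  rw [e]
  refine ⟨deriv S, C1 + C2 + 1, by linarith, fun y => (S.differentiable y).hasDerivAt, S.integrable,
    fun y => ⟨(h1 y).trans ?_, (h2 y).trans ?_⟩⟩ <;> gcongr <;> linarith

noncomputable def d (η y : ℝ) : ℝ := η / (1 + η * |y|) ^ 2

lemma kernels : ∃ C : ℝ, 1 ≤ C ∧ ∀ η : ℝ, 0 < η → η ≤ 1 / 8 → ∃ A A1 f : ℝ → ℂ,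
    (∀ y, HasDerivAt A (Real.pi / 2 * I * A y + η * A1 y) y) ∧
    (∀ y, ‖A y‖ ≤ C * d η y ∧ ‖A1 y‖ ≤ C * d η y ∧ ‖f y‖ ≤ C * d η y) ∧
    Integrable f ∧ Continuous f ∧ f 0 ≠ 0 ∧ (∀ x : ℝ, ∑' n : ℤ, f (x - n) = 0) ∧
    ∀ t x : ℝ, (Summable fun m : ℤ => ‖A (m - t)‖) →
      HasSum (fun m : ℤ => A (m - t) * f (x - m)) (f (x - t)) ∧
      HasSum (fun m : ℤ => conj (A (m - t)) * f (x - m)) 0 := by
  let w : ContDiffBump (0 : ℝ) := ⟨1 / 2, 1, by norm_num, by norm_num⟩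
  let v : ContDiffBump (0 : ℝ) := ⟨1 / 4, 1 / 2, by norm_num, by norm_num⟩
  have sm : ∀ u : ContDiffBump (0 : ℝ), ContDiff ℝ ∞ fun x => (u x : ℂ) := fun u =>
    Complex.ofRealCLM.contDiff.comp u.contDiff
  have cs : ∀ u : ContDiffBump (0 : ℝ), HasCompactSupport fun x => (u x : ℂ) := fun u =>
    u.hasCompactSupport.comp_left (g := fun x : ℝ => (x : ℂ)) (by simp)
  obtain ⟨W', C1, c1, a1, -, a3⟩ := schw (cs w) (sm w)
  obtain ⟨V', C2, c2, b1, b2, b3⟩ := schw (cs v) (sm v)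
  refine ⟨C1 + C2, by linarith, fun η h0 h1 => ?_⟩
  have zw : ∀ u : ContDiffBump (0 : ℝ), ∀ ξ, u.rOut * η ≤ |ξ - 1 / 4| → u ((ξ - 1 / 4) / η) = 0 :=
    fun u ξ h => u.zero_of_le_dist (by
      rwa [Real.dist_eq, sub_zero, abs_div, abs_of_pos h0, le_div_iff₀ h0])
  have gd : ∀ u : ContDiffBump (0 : ℝ), u.rOut ≤ 1 → Good fun ξ => (u ((ξ - 1 / 4) / η) : ℂ) :=
    fun u hu => ⟨(sm u).comp (by fun_prop), fun ξ hξ => by
      rw [zw u ξ, ofReal_zero]
      have := abs_sub_abs_le_abs_sub ξ (1 / 4)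
      rw [abs_of_pos (by norm_num : (0 : ℝ) < 1 / 4)] at this
      nlinarith⟩
  have gw := gd w le_rfl
  have gv := gd v (by norm_num [v])
  have bd : ∀ (g : ℝ → ℂ) (C : ℝ), C ≤ C1 + C2 → (∀ y, ‖g y‖ ≤ C / (1 + |y|) ^ 2) → ∀ y,
      ‖η * ee (y / 4) * g (η * y)‖ ≤ (C1 + C2) * d η y := fun g C hC hg y => by
    have := hg (η * y)
    rw [abs_mul, abs_of_pos h0] at this
    rw [norm_mul, norm_mul, ee_norm, mul_one, Complex.norm_real, Real.norm_of_nonneg h0.le, d,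
      mul_div_left_comm]
    exact mul_le_mul_of_nonneg_left (this.trans (by gcongr)) h0.le
  refine ⟨fun y => η * ee (y / 4) * iv (fun x => w x) (η * y), fun y => η * ee (y / 4) * W' (η * y),
    fun y => η * ee (y / 4) * iv (fun x => v x) (η * y), fun y => ?_,
    fun y => ⟨bd _ C1 (by linarith) (fun y => (a3 y).1) y, bd _ C1 (by linarith) (fun y => (a3 y).2) y,
      bd _ C2 (by linarith) (fun y => (b3 y).1) y⟩, ?_, ?_, ?_, fun x => ?_, fun t x hs => ⟨?_, ?_⟩⟩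
  · have d1 := ((ee_deriv (y / 4)).scomp y ((hasDerivAt_id y).div_const 4)).const_mul (η : ℂ)
    have d2 := (a1 (η * y)).scomp y ((hasDerivAt_id y).const_mul η)
    refine (d1.mul d2).congr_deriv ?_
    simp only [Function.comp, id, real_smul]; push_cast; ring
  · exact (b2.comp_mul_left' h0.ne').bdd_mul (c := η) (by fun_prop)
      (Eventually.of_forall fun y => by simp [abs_of_pos h0])
  · have : Continuous (iv fun x => (v x : ℂ)) := continuous_iff_continuousAt.mpr fun y =>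
      (b1 y).continuousAt
    fun_prop
  · simp only [zero_div, ee_zero, mul_one, mul_zero, iv, zero_mul, integral_complex_ofReal]
    exact_mod_cast mul_ne_zero h0.ne' v.integral_pos.ne'
  · have := poi gv (-x) 0 (by norm_num)
    rw [zw v 0 (by norm_num [v]; linarith), ← (Equiv.neg ℤ).tsum_eq] at this
    simp only [inv_scale (fun x => (v x : ℂ)) η h0, mul_zero, ee_zero, mul_one, ofReal_zero,
      Equiv.neg_apply, Int.cast_neg, sub_neg_eq_add, neg_add_eq_sub] at this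
    exact this
  · simp only [← inv_scale (fun x => (w x : ℂ)) η h0, ← inv_scale (fun x => (v x : ℂ)) η h0] at hs ⊢
    convert samp gw gv t x hs using 3 with ξ
    by_cases h : v.rOut * η ≤ |ξ - 1 / 4|
    · rw [zw v ξ h]; simp
    · rw [w.one_of_mem_closedBall]
      · simp
      · rw [mem_closedBall_zero_iff, Real.norm_eq_abs, abs_div, abs_of_pos h0, div_le_iff₀ h0]
        exact (not_le.mp h).le
  · simp only [← inv_scale (fun x => (w x : ℂ)) η h0, ← inv_scale (fun x => (v x : ℂ)) η h0] at hs ⊢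
    simp only [inv_conj (fun ξ => w ((ξ - 1 / 4) / η))]
    have gw' : Good fun ξ => (w ((-ξ - 1 / 4) / η) : ℂ) :=
      ⟨gw.sm.comp contDiff_neg, fun ξ hξ => gw.z (-ξ) (by rwa [abs_neg])⟩
    convert samp gw' gv t x (by
      simpa only [← inv_conj (fun ξ => w ((ξ - 1 / 4) / η)), Complex.norm_conj] using hs) using 1
    rw [iv, ← integral_zero ℝ ℂ (μ := volume)]
    refine integral_congr_ae (Eventually.of_forall fun ξ => ?_)
    rcases le_total ξ 0 with h | h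
    · have := zw v ξ (by rw [abs_of_neg (by linarith)]; norm_num [v]; linarith)
      simp only [this, ofReal_zero, mul_zero, zero_mul]
    · have := zw w (-ξ) (by rw [abs_of_neg (by linarith)]; norm_num [w]; linarith)
      simp only [this, ofReal_zero, zero_mul]

end Pool.Agent.H1.Til
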