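import Pool.Agent.H1.TilA

set_option autoImplicit false

namespace Pool.Agent.H1.Til
open MeasureTheory Filter Topology Complex
open scoped ComplexConjugate BoundedContinuousFunction

lemma d0 {η : ℝ} (h : 0 < η) (y : ℝ) : 0 ≤ d η y := by unfold d; positivity

lemma d_shift {η : ℝ} (h : 0 < η) (h1 : η ≤ 1) {u y : ℝ} (hy : |y - u| ≤ 1) : d η y ≤ 4 * d η u := by
  have a1 := abs_sub_abs_le_abs_sub u y
  rw [abs_sub_comm] at a1
  have a2 : 1 + η * |u| ≤ 2 * (1 + η * |y|) := by nlinarith [abs_nonneg y, mul_nonneg h.le (abs_nonneg y)]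
  rw [d, d, ← mul_div_assoc, div_le_div_iff₀ (by positivity) (by positivity)]
  have := pow_le_pow_left₀ (by positivity) a2 2
  nlinarith

lemma dnat {η : ℝ} (h : 0 < η) (N : ℕ) : ∑ n ∈ Finset.range N, d η (n + 1) ≤ 1 := by
  have : ∀ n : ℕ, d η (n + 1) ≤ 1 / (1 + η * n) - 1 / (1 + η * (n + 1 : ℕ)) := fun n => by
    rw [d, abs_of_pos (by positivity), div_sub_div _ _ (by positivity) (by positivity),
      div_le_div_iff₀ (by positivity) (by positivity)]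
    push_cast
    have : 0 ≤ η * n := by positivity
    nlinarith [mul_pos h h, mul_nonneg (mul_pos h h).le this, mul_pos (mul_pos h h) h]
  refine (Finset.sum_le_sum fun n _ => this n).trans ?_
  rw [Finset.sum_range_sub' (fun n : ℕ => 1 / (1 + η * n))]
  have : 0 ≤ 1 / (1 + η * N) := by positivity
  simp only [Nat.cast_zero, mul_zero, add_zero, div_one]; linarith

lemma dint {η : ℝ} (h : 0 < η) (h1 : η ≤ 1) :
    Summable (fun n : ℤ => d η n) ∧ ∑' n : ℤ, d η n ≤ 3 := by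
  have s1 : Summable fun n : ℕ => d η (n + 1) := summable_of_sum_range_le (fun _ => d0 h _) (dnat h)
  have t1 : ∑' n : ℕ, d η (n + 1) ≤ 1 := Real.tsum_le_of_sum_range_le (fun _ => d0 h _) (dnat h)
  have e1 : ∀ n : ℕ, d η (((n + 1 : ℤ)) : ℝ) = d η (n + 1) := fun n => by push_cast; rfl
  have e2 : ∀ n : ℕ, d η ((-(n + 1) : ℤ) : ℝ) = d η (n + 1) := fun n => by
    push_cast; rw [d, d, abs_neg]
  have := (show HasSum (fun n : ℕ => d η (((n + 1 : ℤ)) : ℝ)) _ by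
    simpa only [e1] using s1.hasSum).of_add_one_of_neg_add_one (f := fun n : ℤ => d η n)
    (show HasSum (fun n : ℕ => d η ((-(n + 1) : ℤ) : ℝ)) _ by simpa only [e2] using s1.hasSum)
  refine ⟨this.summable, ?_⟩
  rw [this.tsum_eq]
  have : d η ((0 : ℤ) : ℝ) = η := by simp [d]
  linarith

lemma dsum {η : ℝ} (h : 0 < η) (h1 : η ≤ 1) (s : ℝ) :
    Summable (fun n : ℤ => d η (s - n)) ∧ ∑' n : ℤ, d η (s - n) ≤ 12 := by
  obtain ⟨a, b⟩ := dint h h1
  have a' : Summable fun n : ℤ => d η ((⌊s⌋ - n : ℤ) : ℝ) := (Equiv.subLeft ⌊s⌋).summable_iff.mpr a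
  have b' : ∑' n : ℤ, d η ((⌊s⌋ - n : ℤ) : ℝ) = ∑' n : ℤ, d η n :=
    (Equiv.subLeft ⌊s⌋).tsum_eq fun n : ℤ => d η n
  have c : ∀ n : ℤ, d η (s - n) ≤ 4 * d η ((⌊s⌋ - n : ℤ) : ℝ) := fun n => d_shift h h1 (by
    push_cast
    rw [abs_le]; constructor <;> linarith [Int.floor_le s, Int.lt_floor_add_one s])
  have s1 := Summable.of_nonneg_of_le (fun n => d0 h _) c (a'.mul_left 4)
  refine ⟨s1, (s1.tsum_le_tsum c (a'.mul_left 4)).trans ?_⟩
  rw [tsum_mul_left, b']; linarith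

lemma d_neg (η y : ℝ) : d η (-y) = d η y := by rw [d, d, abs_neg]

lemma swap {ι : Type} (a : ι → ℤ → ℂ) (F : ℤ → ℂ) (B : ℝ) (hF : Summable fun m => ‖F m‖)
    (ha : ∀ m, Summable fun i => ‖a i m‖) (hB : ∀ m, ∑' i, ‖a i m‖ ≤ B) :
    ∑' i, ∑' m, a i m * F m = ∑' m, (∑' i, a i m) * F m := by
  have : Summable fun p : ℤ × ι => ‖a p.2 p.1 * F p.1‖ := by
    rw [summable_prod_of_nonneg fun _ => norm_nonneg _]
    simp only [norm_mul, tsum_mul_right]
    exact ⟨fun m => (ha m).mul_right _, Summable.of_nonneg_of_le (fun m => by positivity)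
      (fun m => mul_le_mul_of_nonneg_right (hB m) (norm_nonneg _)) (hF.mul_left B)⟩
  rw [Summable.tsum_comm (f := fun m i => a i m * F m) this.of_norm]
  simp only [tsum_mul_right]

lemma fixp (G : ℝ → ℝ → ℝ) (L : ℝ → ℝ) (ρ : ℝ) (hρ : 0 ≤ ρ) (β : ℤ → ℝ) (hβ : ∀ m, |β m| ≤ ρ / 2)
    (G0 : ∀ u, G u 0 = 0) (hL : ∀ u a b, |a| ≤ ρ → |b| ≤ ρ → |G u a - G u b| ≤ L u * |a - b|)
    (L0 : ∀ u, 0 ≤ L u) (sL : ∀ m : ℤ, Summable (fun n : ℤ => L (m - n)) ∧ ∑' n : ℤ, L (m - n) ≤ 1 / 2) :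
    ∃ α : ℤ → ℝ, (∀ m, |α m| ≤ ρ) ∧ ∀ m, α m = β m + ∑' n : ℤ, G (m - n) (α n) := by
  let c : ℝ → ℝ := fun a => max (-ρ) (min a ρ)
  have c1 : ∀ a, |c a| ≤ ρ := fun a => abs_le.mpr ⟨le_max_left _ _, max_le (by linarith) (min_le_right _ _)⟩
  have c2 : ∀ a b, |c a - c b| ≤ |a - b| := fun a b => by
    refine (abs_max_sub_max_le_max _ _ _ _).trans (max_le (by simp) ?_)
    exact (abs_min_sub_min_le_max _ _ _ _).trans (max_le le_rfl (by simp))
  have g1 : ∀ u a, ‖G u (c a)‖ ≤ L u * ρ := fun u a => by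
    have := hL u (c a) 0 (c1 a) (by simpa using hρ)
    rw [G0, sub_zero, sub_zero] at this
    exact this.trans (mul_le_mul_of_nonneg_left (c1 a) (L0 u))
  have g2 : ∀ (α : ℤ → ℝ) (m : ℤ), Summable fun n : ℤ => G (m - n) (c (α n)) := fun α m =>
    Summable.of_norm_bounded ((sL m).1.mul_right ρ) fun n => g1 _ _
  have g3 : ∀ (α : ℤ → ℝ) (m : ℤ), ‖β m + ∑' n : ℤ, G (m - n) (c (α n))‖ ≤ ρ := fun α m => by
    have := tsum_of_norm_bounded ((sL m).1.hasSum.mul_right ρ) fun n => g1 (m - n) (α n)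
    have h2 := mul_le_mul_of_nonneg_right (sL m).2 hρ
    have h3 := norm_add_le (β m) (∑' n : ℤ, G (m - n) (c (α n)))
    have h4 : ‖β m‖ ≤ ρ / 2 := hβ m
    linarith
  let T : (ℤ →ᵇ ℝ) → (ℤ →ᵇ ℝ) := fun α => BoundedContinuousFunction.ofNormedAddCommGroupDiscrete
    (fun m => β m + ∑' n : ℤ, G (m - n) (c (α n))) ρ (g3 α)
  have hT : ContractingWith (1 / 2) T := ⟨by norm_num, LipschitzWith.of_dist_le_mul fun a b => by
    refine (BoundedContinuousFunction.dist_le (by positivity)).mpr fun m => ?_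
    change dist (β m + _) (β m + _) ≤ _
    rw [dist_add_left, dist_eq_norm, ← (g2 a m).tsum_sub (g2 b m)]
    refine (tsum_of_norm_bounded ((sL m).1.hasSum.mul_right (dist a b)) fun n => ?_).trans ?_
    · refine (hL _ _ _ (c1 _) (c1 _)).trans (mul_le_mul_of_nonneg_left ((c2 _ _).trans ?_) (L0 _))
      exact BoundedContinuousFunction.dist_coe_le_dist (f := a) (g := b) n
    · exact mul_le_mul_of_nonneg_right (by simpa using (sL m).2) dist_nonneg⟩
  have hf := hT.fixedPoint_isFixedPt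
  set α := ContractingWith.fixedPoint T hT
  have e : ∀ m, α m = β m + ∑' n : ℤ, G (m - n) (c (α n)) := fun m =>
    (congrArg (fun f : ℤ →ᵇ ℝ => f m) hf).symm
  have b : ∀ m, |α m| ≤ ρ := fun m => by rw [e]; exact g3 α m
  refine ⟨α, b, fun m => (e m).trans ?_⟩
  congr 1
  refine tsum_congr fun n => ?_
  have := abs_le.mp (b n)
  rw [show c (α n) = α n by simp only [c]; rw [min_eq_left this.2, max_eq_right this.1]]

lemma lip {η C ρ : ℝ} (η0 : 0 < η) (η4 : η ≤ 1) (C0 : 0 ≤ C) (ρ1 : ρ ≤ 1) (H K K' E : ℝ → ℝ)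
    (dH : ∀ y, HasDerivAt H (K y + E y) y) (dK : ∀ y, HasDerivAt K (K' y) y)
    (bK : ∀ y, |K' y| ≤ 6 * (C * d η y)) (bE : ∀ y, |E y| ≤ 2 * η * (C * d η y)) (u a b : ℝ)
    (ha : |a| ≤ ρ) (hb : |b| ≤ ρ) : |H (u - a) - H u + a * K u - (H (u - b) - H u + b * K u)| ≤
      (24 * ρ + 8 * η) * C * d η u * |a - b| := by
  refine Convex.norm_image_sub_le_of_norm_hasDerivWithin_le
    (f := fun a => H (u - a) - H u + a * K u) (s := Set.Icc (-ρ) ρ)
    (f' := fun a => -(K (u - a) + E (u - a)) + K u)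
    (fun a _ => HasDerivAt.hasDerivWithinAt ?_) (fun a ha => ?_) (convex_Icc _ _)
    (abs_le.mp hb) (abs_le.mp ha)
  · have := (((dH (u - a)).comp a ((hasDerivAt_id a).const_sub u)).sub_const (H u)).add
      ((hasDerivAt_id a).mul_const (K u))
    exact this.congr_deriv (by ring)
  · have ha' := abs_le.mpr ha
    have sh : ∀ y ∈ Set.Icc (u - 1) (u + 1), C * d η y ≤ 4 * (C * d η u) := fun y hy => by
      have := mul_le_mul_of_nonneg_left (d_shift η0 η4 (u := u) (y := y)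
        (abs_le.mpr ⟨by linarith [hy.1], by linarith [hy.2]⟩)) C0
      linarith
    have m1 : u - a ∈ Set.Icc (u - 1) (u + 1) := ⟨by linarith [ha.2], by linarith [ha.1]⟩
    have k1 := Convex.norm_image_sub_le_of_norm_hasDerivWithin_le (f := K)
      (s := Set.Icc (u - 1) (u + 1)) (C := 24 * (C * d η u)) (fun y _ => (dK y).hasDerivWithinAt)
      (fun y hy => (bK y).trans (by linarith [sh y hy])) (convex_Icc _ _) m1
      (show u ∈ _ from ⟨by linarith, by linarith⟩)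
    rw [sub_sub_cancel, Real.norm_eq_abs, Real.norm_eq_abs] at k1
    have k2 := (bE (u - a)).trans (mul_le_mul_of_nonneg_left (sh _ m1) (by positivity))
    have k3 := mul_le_mul_of_nonneg_left ha' (show 0 ≤ 24 * (C * d η u) by
      have := d0 η0 u; positivity)
    rw [Real.norm_eq_abs, show -(K (u - a) + E (u - a)) + K u =
      (K u - K (u - a)) - E (u - a) by ring]
    refine (abs_sub _ _).trans ?_
    linarith

lemma sgam {M η : ℝ} (η0 : 0 < η) (hη : η * M = 1) (y : ℝ) :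
    Summable (fun k : ℕ => d η (y - (M * k + 1 / 2))) ∧
      ∑' k : ℕ, d η (y - (M * k + 1 / 2)) ≤ 12 * η := by
  have e : ∀ k : ℕ, d η (y - (M * k + 1 / 2)) = η * d 1 (η * (y - 1 / 2) - ((k : ℤ) : ℝ)) := fun k => by
    rw [d, d, show η * (y - 1 / 2) - ((k : ℤ) : ℝ) = η * (y - (M * k + 1 / 2)) by
      push_cast; linear_combination (k : ℝ) * hη, abs_mul, abs_of_pos η0]
    ring
  have key : ∀ g : ℤ → ℝ, (∀ n, 0 ≤ g n) → Summable g →
      Summable (fun k : ℕ => g k) ∧ ∑' k : ℕ, g k ≤ ∑' n, g n := fun g g0 a => by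
    have a' : Summable fun k : ℕ => g k := a.comp_injective (Nat.cast_injective (R := ℤ))
    exact ⟨a', a'.tsum_le_tsum_of_inj ((↑) : ℕ → ℤ) Nat.cast_injective (fun _ _ => g0 _)
      (fun _ => le_rfl) a⟩
  obtain ⟨a, b⟩ := dsum one_pos le_rfl (η * (y - 1 / 2))
  obtain ⟨a', b'⟩ := key _ (fun _ => d0 one_pos _) a
  simp only [e, tsum_mul_left]
  refine ⟨a'.mul_left η, ?_⟩
  rw [mul_comm]
  exact mul_le_mul_of_nonneg_right (b'.trans b) η0.le

lemma final (H K : ℝ → ℝ) (F : ℝ → ℂ) (κ : ℂ) (κ0 : κ ≠ 0) (α : ℤ → ℝ) (γ : ℕ → ℝ) (B ρ : ℝ)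
    (G : ℤ → ℤ → ℝ) (hG : ∀ n m : ℤ, G n m = H (m - n - α n) - H (m - n) + α n * K (m - n))
    (iH : ∀ t, HasSum (fun m : ℤ => (H (m - t) : ℂ) * F m) (κ * F t))
    (iK : ∀ t, HasSum (fun m : ℤ => (K (m - t) : ℂ) * F m) (F t))
    (sF : Summable fun m : ℤ => ‖F m‖) (s1 : Summable fun n : ℤ => ‖F (n + α n)‖)
    (fz : ∑' n : ℤ, F n = 0) (hα : ∀ n, |α n| ≤ ρ)
    (gs : ∀ m, Summable (fun n => |G n m|) ∧ ∑' n, |G n m| ≤ B)
    (sH : ∀ m : ℤ, Summable (fun k => |H (m - γ k)|) ∧ ∑' k, |H (m - γ k)| ≤ B)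
    (hfix : ∀ m, α m = ∑' k, H (m - γ k) + ∑' n, G n m) :
    ∑' n : ℤ, F (n + α n) + ∑' k, F (γ k) = 0 := by
  have iG : ∀ n : ℤ, ∑' m : ℤ, (G n m : ℂ) * F m =
      κ * F (n + α n) - κ * F n + α n * F n := fun n => by
    rw [← (((iH (n + α n)).sub (iH n)).add ((iK n).mul_left (α n : ℂ))).tsum_eq]
    refine tsum_congr fun m => ?_
    rw [hG, sub_sub]; push_cast; ring
  have w1 := swap (fun (n m : ℤ) => (G n m : ℂ)) (fun m => F m) B sF
    (fun m => by simpa using (gs m).1) fun m => by simpa using (gs m).2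
  have w2 := swap (fun (k : ℕ) (m : ℤ) => (H (m - γ k) : ℂ)) (fun m => F m) B
    sF (fun m => by simpa using (sH m).1) fun m => by simpa using (sH m).2
  have sα : Summable fun n : ℤ => (α n : ℂ) * F n :=
    Summable.of_norm_bounded (sF.mul_left ρ) fun n => by
      rw [norm_mul, Complex.norm_real]
      exact mul_le_mul_of_nonneg_right (hα n) (norm_nonneg _)
  have sβ : Summable fun m : ℤ => (∑' k : ℕ, (H (m - γ k) : ℂ)) * F m :=
    Summable.of_norm_bounded (sF.mul_left B) fun m => by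
      rw [norm_mul, ← Complex.ofReal_tsum, Complex.norm_real]
      exact mul_le_mul_of_nonneg_right ((norm_tsum_le_tsum_norm (sH m).1).trans (sH m).2)
        (norm_nonneg _)
  have e1 : ∀ m : ℤ, (∑' n : ℤ, (G n m : ℂ)) * F m = α m * F m -
      (∑' k : ℕ, (H (m - γ k) : ℂ)) * F m := fun m => by
    rw [← Complex.ofReal_tsum, ← Complex.ofReal_tsum, hfix m]; push_cast; ring
  simp only [iG, e1] at w1
  simp only [(iH _).tsum_eq] at w2
  rw [((s1.of_norm.mul_left κ).sub (sF.of_norm.mul_left κ)).tsum_add sα,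
    (s1.of_norm.mul_left κ).tsum_sub (sF.of_norm.mul_left κ), sα.tsum_sub sβ, ← w2, tsum_mul_left,
    tsum_mul_left, tsum_mul_left, fz] at w1
  refine mul_left_cancel₀ κ0 ?_
  linear_combination w1

lemma real_ker : ∃ C : ℝ, 1 ≤ C ∧ ∀ η : ℝ, 0 < η → η ≤ 1 / 8 → ∃ (H K K' E : ℝ → ℝ) (f : ℝ → ℂ)
    (κ : ℂ), κ ≠ 0 ∧ (∀ y, HasDerivAt H (K y + E y) y) ∧ (∀ y, HasDerivAt K (K' y) y) ∧
    (∀ y, |K' y| ≤ 6 * (C * d η y)) ∧ (∀ y, |E y| ≤ 2 * η * (C * d η y)) ∧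
    (∀ y, |H y| ≤ 2 * (C * d η y)) ∧ (∀ y, ‖f y‖ ≤ C * d η y) ∧
    Integrable f ∧ Continuous f ∧ f 0 ≠ 0 ∧ (∀ x : ℝ, ∑' n : ℤ, f (x - n) = 0) ∧
    (∀ x t : ℝ, HasSum (fun m : ℤ => (H (m - t) : ℂ) * f (x - m)) (κ * f (x - t))) ∧
    ∀ x t : ℝ, HasSum (fun m : ℤ => (K (m - t) : ℂ) * f (x - m)) (f (x - t)) := by
  obtain ⟨C, C1, hk⟩ := kernels
  refine ⟨C, C1, fun η η0 η1 => ?_⟩
  obtain ⟨A, A1, f, hd, hb, fi, fc, f0, fz, hs⟩ := hk η η0 η1
  have hπ := Real.pi_pos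
  have π4 := Real.pi_lt_four
  have c4 : 4 / Real.pi ≤ 2 := by rw [div_le_iff₀ hπ]; linarith [Real.pi_gt_three]
  have hs' := fun x t => hs t x (Summable.of_nonneg_of_le (fun _ => norm_nonneg _)
    (fun m => (hb _).1.trans_eq (by rw [← d_neg, neg_sub])) ((dsum η0 (by linarith) t).1.mul_left C))
  have π0 : (Real.pi : ℂ) ≠ 0 := by exact_mod_cast hπ.ne'
  refine ⟨fun y => 4 / Real.pi * (A y).im, fun y => 2 * (A y).re,
    fun y => 2 * (Real.pi / 2 * I * A y + η * A1 y).re, fun y => 4 / Real.pi * η * (A1 y).im, f,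
    2 / (Real.pi * I), div_ne_zero two_ne_zero (mul_ne_zero π0 I_ne_zero), fun y => ?_,
    fun y => (Complex.reCLM.hasFDerivAt.comp_hasDerivAt y (hd y)).const_mul 2, fun y => ?_,
    fun y => ?_, fun y => ?_, fun y => (hb y).2.2, fi, fc, f0, fz, fun x t => ?_, fun x t => ?_⟩
  · refine ((Complex.imCLM.hasFDerivAt.comp_hasDerivAt y (hd y)).const_mul
      (4 / Real.pi)).congr_deriv ?_
    simp; field_simp; ring
  · have a1 := Complex.abs_re_le_norm (Real.pi / 2 * I * A y + η * A1 y)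
    have a2 := norm_add_le (Real.pi / 2 * I * A y) (η * A1 y)
    simp only [norm_mul, norm_div, Complex.norm_real, Complex.norm_I, Real.norm_eq_abs,
      abs_of_pos hπ, abs_of_pos η0, Complex.norm_ofNat, mul_one] at a2
    have a3 := mul_le_mul (show Real.pi / 2 ≤ 2 by linarith) (hb y).1 (norm_nonneg _) two_pos.le
    have a4 := mul_le_mul (show η ≤ 1 by linarith) (hb y).2.1 (norm_nonneg _) one_pos.le
    rw [abs_mul, abs_two]
    linarith
  · rw [abs_mul, abs_of_pos (by positivity)]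
    exact mul_le_mul (mul_le_mul_of_nonneg_right c4 η0.le) ((Complex.abs_im_le_norm _).trans
      (hb _).2.1) (abs_nonneg _) (by positivity)
  · rw [abs_mul, abs_of_pos (by positivity)]
    exact mul_le_mul c4 ((Complex.abs_im_le_norm _).trans (hb y).1) (abs_nonneg _) (by norm_num)
  · have := ((hs' x t).1.sub (hs' x t).2).mul_left (2 / (Real.pi * I))
    rw [sub_zero] at this
    refine (congrArg (HasSum · _) (funext fun m => ?_)).mp this
    rw [← sub_mul, Complex.sub_conj]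
    push_cast; field_simp; ring
  · have := (hs' x t).1.add (hs' x t).2
    rw [add_zero] at this
    refine (congrArg (HasSum · _) (funext fun m => ?_)).mp this
    rw [← add_mul, Complex.add_conj]

lemma consts {C : ℝ} (C1 : 1 ≤ C) : ∃ (M : ℕ) (η ρ : ℝ), 2 ≤ M ∧ 0 < η ∧ η ≤ 1 / 8 ∧ η * M = 1 ∧
    0 ≤ ρ ∧ ρ ≤ 1 / 4 ∧ 2 * (C * (12 * η)) ≤ ρ / 2 ∧ (24 * ρ + 8 * η) * C * 12 ≤ 1 / 2 := by
  obtain ⟨M, hM⟩ := exists_nat_ge (30000 * C ^ 2)
  have hM1 : (30000 : ℝ) ≤ M := by nlinarith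
  have M0 : (0 : ℝ) < M := by linarith
  obtain ⟨η, hη⟩ : ∃ η : ℝ, η = 1 / M := ⟨_, rfl⟩
  have η0 : 0 < η := by rw [hη]; positivity
  have η2 : C ^ 2 * η ≤ 1 / 30000 := by rw [hη, mul_one_div, div_le_iff₀ M0]; linarith
  have η3 : C * η ≤ 1 / 30000 := by
    nlinarith [mul_nonneg (mul_pos (by linarith : 0 < C) η0).le (sub_nonneg.2 C1)]
  have η1 : η ≤ 1 / 30000 := by nlinarith
  refine ⟨M, η, 48 * C * η, by exact_mod_cast (by linarith : (2 : ℝ) ≤ M), η0, by linarith,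
    by rw [hη]; field_simp, by positivity, by linarith, by linarith, by linarith⟩

theorem tiling : ∃ (M : ℕ) (α : ℤ → ℝ) (f : ℝ → ℂ), 2 ≤ M ∧ (∀ n, |α n| ≤ 1 / 4) ∧ Integrable f ∧
    Continuous f ∧ f 0 ≠ 0 ∧ ∀ x : ℝ, (Summable fun n : ℤ => ‖f (x - (n + α n))‖) ∧
      (Summable fun k : ℕ => ‖f (x - (M * k + 1 / 2))‖) ∧
      ∑' n : ℤ, f (x - (n + α n)) + ∑' k : ℕ, f (x - (M * k + 1 / 2)) = 0 := by
  obtain ⟨C, C1, hk⟩ := real_ker
  obtain ⟨M, η, ρ, M2, η0, η1, hη, ρ0, ρ1, c1, c2⟩ := consts C1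
  obtain ⟨H, K, K', E, f, κ, κ0, dH, dK, bK, bE, bH, bf, fi, fc, f0, fz, iH, iK⟩ := hk η η0 η1
  have η4 : η ≤ 1 := by linarith
  have C0 : 0 ≤ C := by linarith
  have hL := lip η0 η4 C0 (show ρ ≤ 1 by linarith) H K K' E dH dK bK bE
  have sγ := sgam η0 hη
  have sH : ∀ y : ℝ, Summable (fun k : ℕ => |H (y - (M * k + 1 / 2))|) ∧
      ∑' k : ℕ, |H (y - (M * k + 1 / 2))| ≤ ρ / 2 := fun y => by
    have a := ((sγ y).1.mul_left C).mul_left 2
    have b := Summable.of_nonneg_of_le (fun _ => abs_nonneg _) (fun k => bH _) a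
    refine ⟨b, (b.tsum_le_tsum (fun k => bH _) a).trans ?_⟩
    rw [tsum_mul_left, tsum_mul_left]
    have := mul_le_mul_of_nonneg_left (sγ y).2 C0
    linarith
  have L0 : ∀ u, 0 ≤ (24 * ρ + 8 * η) * C * d η u := fun u => by have := d0 η0 u; positivity
  have sL : ∀ m : ℤ, Summable (fun n : ℤ => (24 * ρ + 8 * η) * C * d η (m - n)) ∧
      ∑' n : ℤ, (24 * ρ + 8 * η) * C * d η (m - n) ≤ 1 / 2 := fun m => by
    obtain ⟨a, b⟩ := dsum η0 η4 m
    refine ⟨a.mul_left _, ?_⟩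
    rw [tsum_mul_left]
    exact (mul_le_mul_of_nonneg_left b (by positivity)).trans c2
  obtain ⟨α, hα, hfix⟩ := fixp (fun u a => H (u - a) - H u + a * K u) _ ρ ρ0
    (fun m => ∑' k : ℕ, H (m - (M * k + 1 / 2)))
    (fun m => (norm_tsum_le_tsum_norm (f := fun k : ℕ => H (m - (M * k + 1 / 2))) (sH m).1).trans
      (sH m).2) (fun u => by simp) hL L0 sL
  refine ⟨M, α, f, M2, fun n => (hα n).trans ρ1, fi, fc, f0, fun x => ?_⟩
  have s1 : Summable fun n : ℤ => ‖f (x - (n + α n))‖ :=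
    Summable.of_nonneg_of_le (fun _ => norm_nonneg _) (fun n => (bf _).trans
      (mul_le_mul_of_nonneg_left (d_shift η0 η4 (u := x - n) (by
        rw [show x - (n + α n) - (x - n) = -α n by ring, abs_neg]; linarith [hα n])) C0))
      (((dsum η0 η4 x).1.mul_left 4).mul_left C)
  refine ⟨s1, Summable.of_nonneg_of_le (fun _ => norm_nonneg _) (fun m => bf _)
    ((sγ x).1.mul_left C), final H K (fun t => f (x - t)) κ κ0 α (fun k => M * k + 1 / 2) (1 / 2) ρ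
    _ (fun _ _ => rfl) (iH x) (iK x) (Summable.of_nonneg_of_le (fun _ => norm_nonneg _)
    (fun m => bf _) ((dsum η0 η4 x).1.mul_left C)) s1 (fz x) hα (fun m => ?_)
    (fun m => ⟨(sH m).1, (sH m).2.trans (by linarith)⟩) hfix⟩
  have gb : ∀ n : ℤ, |H (m - n - α n) - H (m - n) + α n * K (m - n)| ≤
      (24 * ρ + 8 * η) * C * d η (m - n) := fun n => by
    have := hL (m - n) (α n) 0 (hα n) (by simpa using ρ0)
    simp only [sub_zero, sub_self, zero_mul, add_zero] at this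
    exact this.trans (mul_le_of_le_one_right (L0 _) (by linarith [hα n]))
  have gs := Summable.of_nonneg_of_le (fun _ => abs_nonneg _) gb (sL m).1
  exact ⟨gs, (gs.tsum_le_tsum gb (sL m).1).trans (sL m).2⟩

end Pool.Agent.H1.Til
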