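import Pool.Agent.H1.TilB

set_option autoImplicit false

namespace Pool.Agent.H1.Til
open MeasureTheory Filter Topology

noncomputable def pp (M : ℕ) (α : ℤ → ℝ) : ℤ ⊕ ℕ → ℝ :=
  Sum.elim (fun n => n + α n) fun k => M * k + 1 / 2

variable {M : ℕ} {α : ℤ → ℝ}

lemma pp_inj (M2 : 2 ≤ M) (hα : ∀ n, |α n| ≤ 1 / 4) : Function.Injective (pp M α) := by
  have x : ∀ (n : ℤ) (k : ℕ), (n : ℝ) + α n ≠ M * k + 1 / 2 := fun n k h => by
    have := abs_le.mp (hα n)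
    have a : ((M * k : ℤ) : ℝ) < n := by push_cast; linarith
    have b : (n : ℝ) < (M * k + 1 : ℤ) := by push_cast; linarith
    have a' := Int.cast_lt.mp a
    have b' := Int.cast_lt.mp b
    omega
  rintro (n | k) (m | l) h <;> simp only [pp, Sum.elim_inl, Sum.elim_inr] at h
  · have := abs_le.mp (hα n)
    have := abs_le.mp (hα m)
    have a : (n : ℝ) < (m + 1 : ℤ) := by push_cast; linarith
    have b : (m : ℝ) < (n + 1 : ℤ) := by push_cast; linarith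
    have a' := Int.cast_lt.mp a
    have b' := Int.cast_lt.mp b
    congr 1; omega
  · exact (x _ _ h).elim
  · exact (x _ _ h.symm).elim
  · have M0 : (M : ℝ) ≠ 0 := by positivity
    congr 1
    exact_mod_cast mul_left_cancel₀ M0 (add_right_cancel h)

lemma pp_sub (hα : ∀ n, |α n| ≤ 1 / 4) (a b : ℝ) : Set.range (pp M α) ∩ Set.Ico a b ⊆
    (fun n : ℤ => n + α n) '' ↑(Finset.Icc (⌊a⌋ - 1) (⌊b⌋ + 1)) ∪
      (fun n : ℤ => (n + 1 / 2 : ℝ)) '' ↑(Finset.Icc (⌊a⌋ - 1) (⌊b⌋ + 1)) := by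
  have k : ∀ (n : ℤ) (t : ℝ), |t| ≤ 1 / 2 → n + t ∈ Set.Ico a b →
      n ∈ (↑(Finset.Icc (⌊a⌋ - 1) (⌊b⌋ + 1)) : Set ℤ) := fun n t ht h => by
    have := abs_le.mp ht
    have a1 : ((⌊a⌋ - 1 : ℤ) : ℝ) ≤ n := by push_cast; linarith [Int.floor_le a, h.1]
    have a2 : (n : ℝ) ≤ (⌊b⌋ + 2 : ℤ) - 1 / 2 := by push_cast; linarith [Int.lt_floor_add_one b, h.2]
    have a3 : (n : ℝ) < (⌊b⌋ + 2 : ℤ) := by linarith
    have := Int.cast_le.mp a1
    have := Int.cast_lt.mp a3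
    simp only [Finset.coe_Icc, Set.mem_Icc]; omega
  rintro _ ⟨⟨n | l, rfl⟩, h⟩
  · exact Or.inl ⟨n, k n _ ((hα n).trans (by norm_num)) h, rfl⟩
  · exact Or.inr ⟨(M * l : ℕ), k _ (1 / 2) (by norm_num) (by simpa [pp] using h), by simp [pp]⟩

lemma pp_bdd (hα : ∀ n, |α n| ≤ 1 / 4) (x : ℝ) :
    (Set.range (pp M α) ∩ Set.Ico x (x + 1)).encard ≤ ((8 : ℕ) : ℕ∞) := by
  refine (Set.encard_le_encard (pp_sub hα _ _)).trans ((Set.encard_union_le _ _).trans ?_)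
  refine (add_le_add (Set.encard_image_le _ _) (Set.encard_image_le _ _)).trans ?_
  rw [Set.encard_coe_eq_coe_finsetCard, Int.card_Icc, Int.floor_add_one,
    show ⌊x⌋ + 1 + 1 + 1 - (⌊x⌋ - 1) = (4 : ℕ) by push_cast; ring, Int.toNat_natCast]
  norm_num

lemma pp_low (hα : ∀ n, |α n| ≤ 1 / 4) (r : ℕ) :
    (Set.range (pp M α) ∩ Set.Ico (-r - 1 / 2 : ℝ) (-r - 1 / 2 + r)).ncard ≤ r := by
  have : Set.range (pp M α) ∩ Set.Ico (-r - 1 / 2 : ℝ) (-r - 1 / 2 + r) ⊆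
      (fun n : ℤ => n + α n) '' ↑(Finset.Ico (-r : ℤ) 0) := by
    rintro _ ⟨⟨n | l, rfl⟩, h1, h2⟩ <;> simp only [pp, Sum.elim_inl, Sum.elim_inr] at h1 h2
    · have := abs_le.mp (hα n)
      have a : ((-r - 1 : ℤ) : ℝ) < n := by push_cast; linarith
      have b : (n : ℝ) < (0 : ℤ) := by push_cast; linarith
      have := Int.cast_lt.mp a
      have := Int.cast_lt.mp b
      exact ⟨n, by simp only [Finset.coe_Ico, Set.mem_Ico]; omega, rfl⟩
    · have : (0 : ℝ) ≤ M * l := by positivity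
      linarith
  refine (Set.ncard_le_ncard this).trans ((Set.ncard_image_le).trans ?_)
  rw [Set.ncard_coe_finset]; simp

lemma pp_up (M2 : 2 ≤ M) (hα : ∀ n, |α n| ≤ 1 / 4) (J : ℕ) : M * J + J ≤
    (Set.range (pp M α) ∩ Set.Ico (-1 / 2 : ℝ) (-1 / 2 + (M * J : ℕ))).ncard := by
  have : pp M α '' ↑((Finset.Ico (0 : ℤ) (M * J : ℕ)).disjSum (Finset.range J)) ⊆
      Set.range (pp M α) ∩ Set.Ico (-1 / 2 : ℝ) (-1 / 2 + (M * J : ℕ)) := by
    rintro _ ⟨n | l, h, rfl⟩ <;> refine ⟨⟨_, rfl⟩, ?_⟩ <;>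
      simp only [pp, Sum.elim_inl, Sum.elim_inr, Set.mem_Ico]
    · have := abs_le.mp (hα n)
      have h := Finset.mem_Ico.mp (Finset.inl_mem_disjSum.mp h)
      have a : (0 : ℝ) ≤ n := by exact_mod_cast h.1
      have b : (n : ℝ) + 1 ≤ (M * J : ℕ) := by exact_mod_cast h.2
      constructor <;> linarith
    · have h := Finset.mem_range.mp (Finset.inr_mem_disjSum.mp h)
      have a : (0 : ℝ) ≤ M * l := by positivity
      have b : ((M * l + 2 : ℕ) : ℝ) ≤ (M * J : ℕ) := by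
        exact_mod_cast (by nlinarith : M * l + 2 ≤ M * J)
      push_cast at b ⊢
      constructor <;> linarith
  refine le_trans ?_ (Set.ncard_le_ncard this ((((Finset.finite_toSet _).image _).union
    ((Finset.finite_toSet _).image _)).subset (pp_sub hα _ _)))
  rw [Set.ncard_image_of_injective _ (pp_inj M2 hα), Set.ncard_coe_finset, Finset.card_disjSum]
  simp only [Int.card_Ico, sub_zero, Int.toNat_natCast, Finset.card_range, le_refl]

theorem main : ¬ (∀ (f : ℝ → ℂ) (Λ : Set ℝ),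
      Integrable f volume →
      ¬ (f =ᵐ[volume] 0) →
      Λ.Nonempty →
      (∃ M : ℕ, ∀ x : ℝ, (Λ ∩ Set.Ico x (x + 1)).encard ≤ (M : ℕ∞)) →
      (∀ᵐ x ∂(volume : Measure ℝ),
        Summable (fun l : Λ => ‖f (x - (l : ℝ))‖) ∧
        ∑' l : Λ, f (x - (l : ℝ)) = 0) →
      ∃ D : ℝ, 0 < D ∧
        ∀ ε : ℝ, 0 < ε → ∃ R : ℝ, 0 < R ∧
          ∀ r : ℝ, R ≤ r → ∀ x : ℝ,
            |((Λ ∩ Set.Ico x (x + r)).ncard : ℝ) - D * r| ≤ ε * r) := by
  intro h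
  obtain ⟨M, α, f, M2, hα, fi, fc, f0, hf⟩ := tiling
  obtain ⟨D, -, hD⟩ := h f (Set.range (pp M α)) fi
    (fun e => f0 (congrFun ((fc.ae_eq_iff_eq volume continuous_zero).mp e) 0))
    (Set.range_nonempty _) ⟨8, pp_bdd hα⟩ (Eventually.of_forall fun x => by
      obtain ⟨a, b, c⟩ := hf x
      let e := Equiv.ofInjective _ (pp_inj M2 hα)
      rw [← e.summable_iff, ← e.tsum_eq]
      refine ⟨Summable.sum _ a b, ?_⟩
      rw [← c]
      exact (HasSum.sum (f := fun i => f (x - pp M α i)) a.of_norm.hasSum b.of_norm.hasSum).tsum_eq)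
  have M0 : (0 : ℝ) < M := by positivity
  obtain ⟨R, R0, hR⟩ := hD (1 / (4 * M)) (by positivity)
  obtain ⟨J, hJ⟩ := exists_nat_ge R
  have M1 : (2 : ℝ) ≤ M := by exact_mod_cast M2
  have hr : R ≤ (M * J : ℕ) := by push_cast; nlinarith
  have a := (abs_le.mp (hR _ hr (-(M * J : ℕ) - 1 / 2))).1
  have b := (abs_le.mp (hR _ hr (-1 / 2))).2
  have c := (Nat.cast_le (α := ℝ)).mpr (pp_low (M := M) hα (M * J))
  have e := (Nat.cast_le (α := ℝ)).mpr (pp_up M2 hα J)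
  have g : 1 / (4 * M : ℝ) * (M * J : ℕ) = J / 4 := by push_cast; field_simp
  rw [Nat.cast_add] at e
  linarith

end Pool.Agent.H1.Til
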