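import Mathlib

namespace Pool.Agent.H1.Toe

open MeasureTheory Finset
open scoped ENNReal NNReal ComplexConjugate InnerProductSpace

abbrev T : Type := AddCircle (1 : ℝ)
noncomputable abbrev μ : Measure T := AddCircle.haarAddCircle
abbrev H : Type := Lp ℂ 2 μ

def Bd (U : T → ℂ) : Prop := AEStronglyMeasurable U μ ∧ ∃ C : ℝ, ∀ x, ‖U x‖ ≤ C

lemma Bd.of_cont {U : T → ℂ} (h : Continuous U) : Bd U := by
  refine ⟨h.aestronglyMeasurable, ?_⟩
  obtain ⟨C, hC⟩ := isCompact_univ.exists_bound_of_continuousOn h.continuousOn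
  exact ⟨C, fun x => hC x (Set.mem_univ _)⟩

lemma Bd.mul {U W : T → ℂ} (h : Bd U) (k : Bd W) : Bd (fun x => U x * W x) := by
  obtain ⟨C, hC⟩ := h.2
  obtain ⟨D, hD⟩ := k.2
  refine ⟨h.1.mul k.1, C * D, fun x => ?_⟩
  rw [norm_mul]
  exact mul_le_mul (hC x) (hD x) (norm_nonneg _) ((norm_nonneg _).trans (hC x))

lemma Bd.memLp {U : T → ℂ} (h : Bd U) : MemLp U ∞ μ := by
  obtain ⟨C, hC⟩ := h.2
  exact memLp_top_of_bound h.1 C (Filter.Eventually.of_forall hC)

lemma int_H (g : H) : Integrable g μ := (Lp.memLp g).integrable (by norm_num)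

lemma Bd.integ {U : T → ℂ} (h : Bd U) (g : H) : Integrable (fun x => U x * g x) μ := by
  obtain ⟨C, hC⟩ := h.2
  exact (int_H g).bdd_mul (c := C) h.1 (Filter.Eventually.of_forall hC)

noncomputable def pr (U : T → ℂ) (g : H) : ℂ := ∫ x, U x * g x ∂μ

lemma inner_eq_pr {U : T → ℂ} {b : H} (hb : b =ᵐ[μ] fun x => conj (U x)) (g : H) :
    ⟪b, g⟫_ℂ = pr U g := by
  rw [L2.inner_def, pr]
  apply integral_congr_ae
  filter_upwards [hb] with x hx
  rw [hx]; simp [mul_comm]

/-- the element of `H` whose inner product is `pr U` -/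
noncomputable def cj {U : T → ℂ} (h : Bd U) : H :=
  MemLp.toLp (fun x => conj (U x)) (by
    obtain ⟨C, hC⟩ := h.2
    exact MemLp.of_bound (Complex.continuous_conj.comp_aestronglyMeasurable h.1) C
      (Filter.Eventually.of_forall fun x => by simpa using hC x))

lemma cj_ae {U : T → ℂ} (h : Bd U) : cj h =ᵐ[μ] fun x => conj (U x) := MemLp.coeFn_toLp _

noncomputable def prL {U : T → ℂ} (h : Bd U) : H →L[ℂ] ℂ := innerSL ℂ (cj h)

lemma prL_apply {U : T → ℂ} (h : Bd U) (g : H) : prL h g = pr U g := inner_eq_pr (cj_ae h) g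

lemma pr_sub_left {U W : T → ℂ} (h : Bd U) (k : Bd W) (g : H) :
    pr (fun x => U x - W x) g = pr U g - pr W g := by
  unfold pr
  rw [← integral_sub (h.integ g) (k.integ g)]
  simp_rw [sub_mul]

lemma pr_add_left {U W : T → ℂ} (h : Bd U) (k : Bd W) (g : H) :
    pr (fun x => U x + W x) g = pr U g + pr W g := by
  unfold pr
  rw [← integral_add (h.integ g) (k.integ g)]
  simp_rw [add_mul]

lemma pr_const_mul (c : ℂ) (U : T → ℂ) (g : H) : pr (fun x => c * U x) g = c * pr U g := by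
  unfold pr
  rw [← integral_const_mul]
  simp_rw [mul_assoc]

lemma int_norm_mul_le (b g : H) : ∫ x, ‖b x‖ * ‖g x‖ ∂μ ≤ ‖b‖ * ‖g‖ := by
  have h := integral_mul_norm_le_Lp_mul_Lq (μ := μ) (f := b) (g := g) Real.HolderConjugate.two_two
    (by simpa using Lp.memLp b) (by simpa using Lp.memLp g)
  have e : ∀ u : H, (∫ x, ‖u x‖ ^ (2 : ℝ) ∂μ) ^ (1 / (2 : ℝ)) = ‖u‖ := by
    intro u
    rw [Lp.norm_def, MemLp.eLpNorm_eq_integral_rpow_norm (by norm_num) (by norm_num) (Lp.memLp u),
      ENNReal.toReal_ofReal (by positivity)]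
    simp
  rwa [e, e] at h

lemma int_norm_le (g : H) : ∫ x, ‖g x‖ ∂μ ≤ ‖g‖ := by
  have h := int_norm_mul_le (fourierLp 2 0) g
  rw [orthonormal_fourier.1 0, one_mul] at h
  refine le_trans (le_of_eq ?_) h
  apply integral_congr_ae
  filter_upwards [coeFn_fourierLp (T := 1) 2 0] with x hx
  rw [hx]; simp

/-- localisation estimate -/
lemma loc {U V : T → ℂ} {b : H} (hb : b =ᵐ[μ] fun x => conj (V x)) (hb1 : ‖b‖ ≤ 1) {ε τ : ℝ}
    (hε : 0 ≤ ε) (hτ : 0 ≤ τ) (hU : ∀ x, ‖U x‖ ≤ ε * ‖V x‖ + τ) (g : H) :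
    ‖pr U g‖ ≤ (ε + τ) * ‖g‖ := by
  have i1 : Integrable (fun x => ‖b x‖ * ‖g x‖) μ := by
    have := (L2.integrable_inner (𝕜 := ℂ) b g).norm
    refine this.congr (Filter.Eventually.of_forall fun x => ?_)
    simp [mul_comm]
  have i2 : Integrable (fun x => ‖g x‖) μ := (int_H g).norm
  have h := norm_integral_le_of_norm_le (f := fun x => U x * g x)
    ((i1.const_mul ε).add (i2.const_mul τ)) (by
      filter_upwards [hb] with x hx
      simp only [Pi.add_apply]
      rw [norm_mul, hx, RCLike.norm_conj]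
      nlinarith [hU x, norm_nonneg (g x)])
  refine h.trans ?_
  simp only [Pi.add_apply]
  rw [integral_add (i1.const_mul ε) (i2.const_mul τ), integral_const_mul, integral_const_mul]
  have h1 := int_norm_mul_le b g
  have h2 := int_norm_le g
  have h3 : ‖b‖ * ‖g‖ ≤ ‖g‖ := by nlinarith [norm_nonneg g]
  nlinarith [mul_le_mul_of_nonneg_left (h1.trans h3) hε, mul_le_mul_of_nonneg_left h2 hτ]

/-- multiplication operator -/
noncomputable def Mul {U : T → ℂ} (h : Bd U) : H →L[ℂ] H :=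
  (ContinuousLinearMap.mul ℂ ℂ).holderL μ ∞ 2 2 h.memLp.toLp

lemma Mul_ae {U : T → ℂ} (h : Bd U) (g : H) : Mul h g =ᵐ[μ] fun x => U x * g x := by
  have h1 := (ContinuousLinearMap.mul ℂ ℂ).coeFn_holder (r := 2) h.memLp.toLp g
  filter_upwards [h1, h.memLp.coeFn_toLp] with x hx hy
  simp only [Mul, ContinuousLinearMap.holderL_apply_apply]
  rw [hx, hy]; simp

lemma pr_Mul {U : T → ℂ} (h : Bd U) (W : T → ℂ) (g : H) :
    pr W (Mul h g) = pr (fun x => W x * U x) g := by
  unfold pr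
  apply integral_congr_ae
  filter_upwards [Mul_ae h g] with x hx
  rw [hx, mul_assoc]

lemma norm_Mul_le {U : T → ℂ} (h : Bd U) {C : ℝ} (hC : ∀ x, ‖U x‖ ≤ C) (g : H) :
    ‖Mul h g‖ ≤ C * ‖g‖ := by
  have hC0 : 0 ≤ C := (norm_nonneg _).trans (hC 0)
  apply Lp.norm_le_mul_norm_of_ae_le_mul
  filter_upwards [Mul_ae h g] with x hx
  rw [hx, norm_mul]
  exact mul_le_mul_of_nonneg_right (hC x) (norm_nonneg _)

/-- Fourier coefficient functional -/
noncomputable def co (n : ℤ) : H →L[ℂ] ℂ := innerSL ℂ (fourierLp 2 n)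

lemma co_eq_pr (n : ℤ) (g : H) : co n g = pr (fourier (-n)) g := by
  apply inner_eq_pr
  filter_upwards [coeFn_fourierLp (T := 1) 2 n] with x hx
  rw [hx, fourier_neg]; simp

lemma co_eq (n : ℤ) (g : H) : co n g = fourierCoeff g n := by
  rw [co_eq_pr]; rfl

lemma co_e (n m : ℤ) : co n (fourierLp 2 m) = if n = m then 1 else 0 :=
  orthonormal_iff_ite.1 orthonormal_fourier n m

lemma co_ext {g h : H} (e : ∀ n, co n g = co n h) : g = h := by
  apply fourierBasis.repr.injective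
  ext n
  rw [fourierBasis_repr, fourierBasis_repr, ← co_eq, ← co_eq, e]

lemma norm_co_le (n : ℤ) (g : H) : ‖co n g‖ ≤ ‖g‖ := by
  have := norm_inner_le_norm (𝕜 := ℂ) (fourierLp (T := 1) 2 n) g
  rwa [orthonormal_fourier.1 n, one_mul] at this

/-- the Hardy space -/
noncomputable def H2 : Submodule ℂ H := (Submodule.span ℂ ((fun n => fourierLp 2 n) '' Set.Iio (0 : ℤ)))ᗮ

lemma mem_H2 {g : H} : g ∈ H2 ↔ ∀ n < 0, co n g = 0 := by
  constructor
  · intro h n hn
    exact (Submodule.mem_orthogonal _ _).1 h _ (Submodule.subset_span ⟨n, hn, rfl⟩)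
  · intro h
    rw [H2, Submodule.mem_orthogonal]
    intro u hu
    induction hu using Submodule.span_induction with
    | mem x hx => obtain ⟨n, hn, rfl⟩ := hx; exact h n hn
    | zero => simp
    | add x y _ _ hx hy => rw [inner_add_left, hx, hy, add_zero]
    | smul c x _ hx => rw [inner_smul_left, hx, mul_zero]

instance : H2.HasOrthogonalProjection := by unfold H2; infer_instance

noncomputable def P : H →L[ℂ] H := H2.starProjection

lemma P_mem (g : H) : P g ∈ H2 := H2.starProjection_apply_mem g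

lemma e_mem {n : ℤ} (hn : 0 ≤ n) : (fourierLp 2 n : H) ∈ H2 :=
  mem_H2.2 fun m hm => by rw [co_e, if_neg (by omega)]

lemma co_P (n : ℤ) (g : H) : co n (P g) = if 0 ≤ n then co n g else 0 := by
  split_ifs with h
  · show ⟪fourierLp 2 n, H2.starProjection g⟫_ℂ = ⟪fourierLp 2 n, g⟫_ℂ
    rw [← Submodule.inner_starProjection_left_eq_right, Submodule.starProjection_eq_self_iff.2 (e_mem h)]
  · exact mem_H2.1 (P_mem g) n (by omega)

lemma norm_P_le (g : H) : ‖P g‖ ≤ ‖g‖ := H2.norm_starProjection_apply_le g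

/-- `U` is a combination of the characters `fourier (-n)`, `a ≤ n < b` -/
def FS (U : T → ℂ) (a b : ℤ) : Prop :=
  U ∈ Submodule.span ℂ ((fun n : ℤ => (fourier (-n) : T → ℂ)) '' Set.Ico a b)

lemma FS.cont {U : T → ℂ} {a b : ℤ} (h : FS U a b) : Continuous U := by
  induction h using Submodule.span_induction with
  | mem x hx => obtain ⟨n, _, rfl⟩ := hx; exact map_continuous _
  | zero => exact continuous_zero
  | add x y _ _ hx hy => exact hx.add hy
  | smul c x _ hx => exact hx.const_smul c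

lemma FS.pr_zero {U : T → ℂ} {a b : ℤ} (h : FS U a b) {g : H}
    (hg : ∀ n, a ≤ n → n < b → co n g = 0) : pr U g = 0 := by
  induction h using Submodule.span_induction with
  | mem x hx => obtain ⟨n, hn, rfl⟩ := hx; rw [← co_eq_pr]; exact hg n hn.1 hn.2
  | zero => simp [pr]
  | add x y h1 h2 hx hy =>
    have := pr_add_left (Bd.of_cont (FS.cont h1)) (Bd.of_cont (FS.cont h2)) g
    rw [hx, hy, add_zero] at this; exact this
  | smul c x _ hx =>
    have := pr_const_mul c x g
    rw [hx, mul_zero] at this; exact this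

lemma FS.pr_eq {U : T → ℂ} {a b : ℤ} (h : FS U a b) {g k : H}
    (hg : ∀ n, a ≤ n → n < b → co n g = co n k) : pr U g = pr U k := by
  have hb := Bd.of_cont h.cont
  have := h.pr_zero (g := g - k) fun n h1 h2 => by rw [map_sub, hg n h1 h2, sub_self]
  rwa [← prL_apply hb, map_sub, prL_apply, prL_apply, sub_eq_zero] at this

lemma FS.mono {U : T → ℂ} {a b a' b' : ℤ} (h : FS U a b) (h1 : a' ≤ a) (h2 : b ≤ b') :
    FS U a' b' :=
  Submodule.span_mono (Set.image_mono (Set.Ico_subset_Ico h1 h2)) h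

lemma FS.shift {U : T → ℂ} {a b : ℤ} (h : FS U a b) (m : ℤ) (s : T) :
    FS (fun x => U x * fourier (-m) (x - s)) (a + m) (b + m) := by
  induction h using Submodule.span_induction with
  | mem x hx =>
    obtain ⟨n, hn, rfl⟩ := hx
    have : (fun x : T => (fourier (-n) : T → ℂ) x * fourier (-m) (x - s)) =
        (fourier (-m) (-s) : ℂ) • (fourier (-(n + m)) : T → ℂ) := by
      funext x
      simp only [Pi.smul_apply, smul_eq_mul, sub_eq_add_neg, neg_add, fourier_add]
      simp only [fourier_apply, smul_add, AddCircle.toCircle_add, Circle.coe_mul]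
      ring
    rw [this]
    exact Submodule.smul_mem _ _ (Submodule.subset_span ⟨n + m, ⟨by linarith [hn.1], by linarith [hn.2]⟩, rfl⟩)
  | zero => simp only [Pi.zero_apply, zero_mul]; exact Submodule.zero_mem _
  | add x y _ _ hx hy =>
    simp only [Pi.add_apply, add_mul]; exact Submodule.add_mem _ hx hy
  | smul c x _ hx =>
    simp only [Pi.smul_apply, smul_eq_mul, mul_assoc]; exact Submodule.smul_mem _ c hx

lemma FS.sum {ι : Type*} (s : Finset ι) {U : ι → T → ℂ} {a b : ℤ} (h : ∀ i ∈ s, FS (U i) a b) :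
    FS (fun x => ∑ i ∈ s, U i x) a b := by
  have := Submodule.sum_mem _ h
  rwa [show (∑ i ∈ s, U i) = fun x => ∑ i ∈ s, U i x from funext fun x => Finset.sum_apply _ _ _] at this

lemma FS.cmul {U : T → ℂ} {a b : ℤ} (h : FS U a b) (c : ℂ) : FS (fun x => c * U x) a b :=
  Submodule.smul_mem _ c h

lemma FS.one : FS (fun _ => 1) 0 1 :=
  Submodule.subset_span ⟨0, ⟨le_rfl, by norm_num⟩, by funext x; simp⟩

lemma norm_fourier (n : ℤ) (x : T) : ‖fourier n x‖ = 1 := by simp [fourier_apply]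

lemma fourier_add_pt (n : ℤ) (x y : T) : fourier n (x + y) = fourier n x * fourier n y := by
  simp only [fourier_apply, smul_add, AddCircle.toCircle_add, Circle.coe_mul]

lemma fourier_pow (n : ℤ) (m : ℕ) (x : T) : fourier n x ^ m = fourier (m * n) x := by
  induction m with
  | zero => simp
  | succ m ih => rw [pow_succ, ih, ← fourier_add]; congr 2; push_cast; ring

lemma exists_rep (x : T) : ∃ t : ℝ, (t : T) = x ∧ |t| ≤ 1 / 2 ∧ ‖x‖ = |t| := by
  obtain ⟨r, rfl⟩ := QuotientAddGroup.mk_surjective x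
  refine ⟨r - round r, ?_, abs_sub_round r, UnitAddCircle.norm_eq⟩
  rw [AddCircle.coe_sub]
  have : ((round r : ℝ) : T) = 0 := by
    rw [AddCircle.coe_eq_zero_iff]; exact ⟨round r, by simp⟩
  rw [this, sub_zero]

lemma fourier_sub_one_le (n : ℤ) (x : T) : ‖fourier n x - 1‖ ≤ 7 * |(n : ℝ)| * ‖x‖ := by
  obtain ⟨t, rfl, -, h⟩ := exists_rep x
  rw [h, fourier_coe_apply]
  have : 2 * (Real.pi : ℂ) * Complex.I * n * t / (1 : ℝ) = Complex.I * (2 * Real.pi * n * t : ℝ) := by
    push_cast; ring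
  rw [this]
  refine Real.norm_exp_I_mul_ofReal_sub_one_le.trans ?_
  rw [Real.norm_eq_abs, abs_mul, abs_mul, abs_of_pos (by positivity : 0 < 2 * Real.pi)]
  have := Real.pi_lt_d2
  gcongr; linarith

lemma fourier_lip (n : ℤ) (x y : T) : ‖fourier n x - fourier n y‖ ≤ 7 * |(n : ℝ)| * ‖x - y‖ := by
  have : fourier n x - fourier n y = fourier n y * (fourier n (x - y) - 1) := by
    rw [mul_sub, ← fourier_add_pt]; simp
  rw [this, norm_mul, norm_fourier, one_mul]
  exact fourier_sub_one_le n _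

lemma le_fourier_sub_one (x : T) : 4 * ‖x‖ ≤ ‖fourier (-1) x - 1‖ := by
  obtain ⟨t, rfl, ht, h⟩ := exists_rep x
  rw [h, fourier_coe_apply]
  have : 2 * (Real.pi : ℂ) * Complex.I * (-1 : ℤ) * t / (1 : ℝ) =
      Complex.I * (-(2 * Real.pi * t) : ℝ) := by
    push_cast; ring
  rw [this, Complex.norm_exp_I_mul_ofReal_sub_one, Real.norm_eq_abs, abs_mul,
    show -(2 * Real.pi * t) / 2 = -(Real.pi * t) by ring, Real.sin_neg, abs_neg]
  have hp := Real.pi_pos
  have h1 := Real.mul_abs_le_abs_sin (x := Real.pi * t) (by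
    rw [abs_mul, abs_of_pos hp]; nlinarith)
  rw [abs_mul, abs_of_pos hp, ← mul_assoc, div_mul_cancel₀ _ hp.ne'] at h1
  rw [abs_two]; linarith

end Pool.Agent.H1.Toe
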