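import Pool.Agent.H1.ToeA

namespace Pool.Agent.H1.Toe

open MeasureTheory Finset
open scoped ENNReal NNReal ComplexConjugate InnerProductSpace

def aN (k : ℕ) : ℕ := 100 ^ 6 ^ k
noncomputable def a (k : ℕ) : ℝ := aN k

lemma aN_succ (k : ℕ) : aN (k + 1) = aN k ^ 6 := by
  rw [aN, aN, ← pow_mul, pow_succ]

lemma aN_ge (k : ℕ) : 100 * 2 ^ k ≤ aN k := by
  induction k with
  | zero => simp [aN]
  | succ k ih =>
    rw [aN_succ]
    have h1 : 100 ≤ aN k := le_trans (Nat.le_mul_of_pos_right _ (by positivity)) ih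
    calc 100 * 2 ^ (k + 1) = 2 * (100 * 2 ^ k) := by ring
      _ ≤ aN k * aN k := Nat.mul_le_mul (by omega) ih
      _ = aN k ^ 2 := by ring
      _ ≤ aN k ^ 6 := Nat.pow_le_pow_right (by omega) (by norm_num)

lemma a_succ (k : ℕ) : a (k + 1) = a k ^ 6 := by rw [a, aN_succ]; push_cast; rfl

lemma a_ge (k : ℕ) : 100 * 2 ^ k ≤ a k := by unfold a; exact_mod_cast aN_ge k

lemma a_ge100 (k : ℕ) : 100 ≤ a k := by
  have := a_ge k
  have h : (1 : ℝ) ≤ 2 ^ k := one_le_pow₀ (by norm_num)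
  linarith

lemma a_pos (k : ℕ) : 0 < a k := by linarith [a_ge100 k]

lemma inv_a_le (k : ℕ) : 1 / a k ≤ (1 / 2) ^ k / 100 := by
  have := a_ge k
  rw [div_le_div_iff₀ (a_pos k) (by norm_num), one_div, inv_pow, inv_mul_eq_div,
    le_div_iff₀ (by positivity)]
  linarith

lemma a_step (k : ℕ) : 100 * a k ≤ a (k + 1) := by
  rw [a_succ]
  have h := a_ge100 k
  calc 100 * a k ≤ a k * a k := by nlinarith
    _ = a k ^ 2 := by ring
    _ ≤ a k ^ 6 := pow_le_pow_right₀ (by linarith) (by norm_num)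

lemma a_mono {j k : ℕ} (h : j ≤ k) : a j ≤ a k :=
  monotone_nat_of_le_succ (fun k => by linarith [a_step k, a_pos k]) h

lemma a_lt {j k : ℕ} (h : j < k) : 100 * a j ≤ a k := (a_step j).trans (a_mono h)

lemma sum_a4 (k : ℕ) : 37 * ∑ j ∈ range k, a j ^ 4 ≤ a k * (1 / 2) ^ k := by
  induction k with
  | zero => simp [(a_pos 0).le]
  | succ k ih =>
    rw [Finset.sum_range_succ, a_succ, mul_add]
    have h := a_ge k
    have h0 := a_ge100 k
    have h1 : (1 / 2 : ℝ) ^ k ≤ 1 := pow_le_one₀ (by norm_num) (by norm_num)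
    have h2 : a k ≤ a k ^ 4 := le_self_pow₀ (by linarith) (by norm_num)
    have h3 : a k * (1 / 2) ^ k ≤ a k ^ 4 := by nlinarith
    have h4 : 100 ≤ a k * (1 / 2) ^ k := by
      rw [one_div, inv_pow, ← div_eq_mul_inv, le_div_iff₀ (by positivity)]; exact h
    have h5 : a k ^ 6 * (1 / 2) ^ (k + 1) = a k ^ 4 * (a k * (a k * (1 / 2) ^ k)) / 2 := by ring
    have h6 : 100 * 100 ≤ a k * (a k * (1 / 2) ^ k) := by nlinarith
    have h7 : 0 < a k ^ 4 := by positivity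
    rw [h5]; nlinarith

/-- degree parameter -/
def nN (k : ℕ) : ℕ := aN k ^ 4

lemma nN_cast (k : ℕ) : (nN k : ℝ) = a k ^ 4 := by rw [nN, a]; push_cast; rfl

lemma nN_pos (k : ℕ) : 0 < nN k := by
  have : (0 : ℝ) < nN k := by rw [nN_cast]; have := a_pos k; positivity
  exact_mod_cast this

lemma nN_step (k : ℕ) : 6 * (k + 2) * nN k ≤ nN (k + 1) := by
  rw [nN, nN, aN_succ, ← pow_mul]
  have h := aN_ge k
  have h2 : k + 1 ≤ 2 ^ k := Nat.lt_two_pow_self
  calc 6 * (k + 2) * aN k ^ 4 ≤ aN k * aN k ^ 4 := Nat.mul_le_mul_right _ (by omega)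
    _ = aN k ^ 5 := by ring
    _ ≤ aN k ^ (6 * 4) := Nat.pow_le_pow_right (by omega) (by norm_num)

lemma nN_mono {j k : ℕ} (h : j ≤ k) : nN j ≤ nN k :=
  monotone_nat_of_le_succ (fun k => by have := nN_step k; nlinarith) h

lemma nN_ge (k : ℕ) : k ≤ nN k := by
  induction k with
  | zero => simp
  | succ k ih => have := nN_step k; have := nN_pos k; nlinarith

/-- conjugate of a normalised shifted Dirichlet kernel centred at `c` -/
noncomputable def Db (k : ℕ) (c : T) (x : T) : ℂ :=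
  ∑ i ∈ range (nN k), ((1 / a k ^ 2 : ℝ) : ℂ) * fourier (-((nN k : ℤ) + i)) (x - c)

lemma Db_FS (k : ℕ) (c : T) : FS (Db k c) (nN k) (2 * nN k) := by
  apply FS.sum
  intro i hi
  have h := ((FS.one.cmul ((1 / a k ^ 2 : ℝ) : ℂ)).shift ((nN k : ℤ) + i) c)
  simp only [mul_one] at h
  have := Finset.mem_range.1 hi
  exact h.mono (by omega) (by omega)

lemma Db_far (k : ℕ) (c x : T) (h : 1 / (2 * a k) ≤ ‖x - c‖) : ‖Db k c x‖ ≤ 1 / a k := by
  have ha := a_pos k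
  set q : ℂ := fourier (-1) (x - c) with hq
  have e : Db k c x = ((1 / a k ^ 2 : ℝ) : ℂ) * fourier (-(nN k : ℤ)) (x - c) *
      ∑ i ∈ range (nN k), q ^ i := by
    rw [Db, Finset.mul_sum]
    refine Finset.sum_congr rfl fun i _ => ?_
    rw [hq, fourier_pow, mul_assoc, ← fourier_add]; congr 3; ring
  have h1 : 2 / a k ≤ ‖q - 1‖ := by
    have := le_fourier_sub_one (x - c)
    have e2 : 2 / a k = 4 * (1 / (2 * a k)) := by field_simp; norm_num
    rw [e2]; linarith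
  have h2 : ‖∑ i ∈ range (nN k), q ^ i‖ * ‖q - 1‖ ≤ 2 := by
    rw [← norm_mul, geom_sum_mul]
    refine (norm_sub_le _ _).trans ?_
    rw [norm_pow, hq, norm_fourier]; norm_num
  have h3 : ‖∑ i ∈ range (nN k), q ^ i‖ ≤ a k := by
    have := (mul_le_mul_of_nonneg_left h1 (norm_nonneg (∑ i ∈ range (nN k), q ^ i))).trans h2
    rw [← mul_div_assoc, div_le_iff₀ ha] at this
    linarith
  rw [e, norm_mul, norm_mul, norm_fourier, Complex.norm_real, Real.norm_of_nonneg (by positivity)]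
  calc 1 / a k ^ 2 * 1 * _ ≤ 1 / a k ^ 2 * 1 * a k := by gcongr
    _ = 1 / a k := by field_simp

noncomputable def bH (k : ℕ) (c : T) : H :=
  ∑ i ∈ range (nN k), (((1 / a k ^ 2 : ℝ) : ℂ) * fourier ((nN k : ℤ) + i) (-c)) •
    fourierLp 2 ((nN k : ℤ) + i)

lemma bH_ae (k : ℕ) (c : T) : bH k c =ᵐ[μ] fun x => conj (Db k c x) := by
  have h1 : ∀ i : ℕ, ∀ᵐ x ∂μ, ((((1 / a k ^ 2 : ℝ) : ℂ) * fourier ((nN k : ℤ) + i) (-c)) •
      (fourierLp 2 ((nN k : ℤ) + i) : H)) x =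
      conj (((1 / a k ^ 2 : ℝ) : ℂ) * fourier (-((nN k : ℤ) + i)) (x - c)) := by
    intro i
    filter_upwards [Lp.coeFn_smul (((1 / a k ^ 2 : ℝ) : ℂ) * fourier ((nN k : ℤ) + i) (-c))
      (fourierLp 2 ((nN k : ℤ) + i) : H), coeFn_fourierLp (T := 1) 2 ((nN k : ℤ) + i)] with x h1 h2
    rw [h1, Pi.smul_apply, h2, map_mul, Complex.conj_ofReal, fourier_neg, Complex.conj_conj,
      sub_eq_add_neg, fourier_add_pt, smul_eq_mul]
    ring
  filter_upwards [Lp.coeFn_finsetSum (range (nN k)) (fun i : ℕ =>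
    (((1 / a k ^ 2 : ℝ) : ℂ) * fourier ((nN k : ℤ) + i) (-c)) •
      (fourierLp 2 ((nN k : ℤ) + i) : H)), ae_all_iff.2 h1] with x hx hy
  rw [bH, hx, Finset.sum_apply, Db, map_sum]
  exact Finset.sum_congr rfl fun i _ => hy i

lemma co_bH (k : ℕ) (c : T) (m : ℤ) (h : m < nN k ∨ 2 * (nN k : ℤ) ≤ m) : co m (bH k c) = 0 := by
  rw [bH, map_sum]
  refine Finset.sum_eq_zero fun i hi => ?_
  have := Finset.mem_range.1 hi
  rw [map_smul, co_e, if_neg (by omega), smul_zero]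

lemma inner_bH (k : ℕ) (c : T) : ⟪bH k c, bH k c⟫_ℂ = 1 := by
  have ho : Orthonormal ℂ (fun i : ℕ => (fourierLp 2 ((nN k : ℤ) + i) : H)) :=
    orthonormal_fourier.comp (fun i : ℕ => (nN k : ℤ) + i) (fun i j h => by simpa using h)
  rw [bH, ho.inner_sum]
  have : ∀ i : ℕ, conj (((1 / a k ^ 2 : ℝ) : ℂ) * fourier ((nN k : ℤ) + i) (-c)) *
      (((1 / a k ^ 2 : ℝ) : ℂ) * fourier ((nN k : ℤ) + i) (-c)) = ((1 / a k ^ 4 : ℝ) : ℂ) := by
    intro i
    rw [Complex.conj_mul', norm_mul, norm_fourier, Complex.norm_real,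
      Real.norm_of_nonneg (by positivity)]
    push_cast; ring
  simp_rw [this]
  rw [Finset.sum_const, Finset.card_range, nsmul_eq_mul]
  have h := nN_cast k
  have ha := a_pos k
  rw [show (nN k : ℂ) = ((nN k : ℝ) : ℂ) by simp, h, ← Complex.ofReal_mul,
    mul_one_div_cancel (by positivity)]
  simp

lemma norm_bH (k : ℕ) (c : T) : ‖bH k c‖ = 1 := by
  have h := inner_bH k c
  have h2 : ‖bH k c‖ ^ 2 = 1 := by
    rw [@norm_sq_eq_re_inner ℂ, h]; simp
  exact (pow_eq_one_iff_of_nonneg (norm_nonneg _) (by norm_num)).1 h2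

noncomputable def θ (k : ℕ) : T := ((3 / a k : ℝ) : T)

lemma norm_θ (k : ℕ) : ‖θ k‖ = 3 / a k := by
  have h := a_ge100 k
  have h0 : 0 < 3 / a k := by positivity
  have : 3 / a k ≤ 1 / 2 := by rw [div_le_div_iff₀ (by linarith) (by norm_num)]; linarith
  rw [θ, (AddCircle.norm_coe_eq_abs_iff (1 : ℝ) one_ne_zero).2 (by rw [abs_of_pos h0]; simpa using this),
    abs_of_pos h0]

noncomputable def uu (k : ℕ) (x : T) : ℂ := fourier (2 * nN k) x
noncomputable def vv (k : ℕ) (x : T) : ℂ := fourier (-(2 * nN k)) x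

lemma uu_vv (k : ℕ) (x : T) : uu k x * vv k x = 1 := by
  rw [uu, vv, ← fourier_add]; simp

lemma norm_uu (k : ℕ) (x : T) : ‖uu k x‖ = 1 := norm_fourier _ _
lemma norm_vv (k : ℕ) (x : T) : ‖vv k x‖ = 1 := norm_fourier _ _

noncomputable def φ (k : ℕ) (x : T) : ℂ := uu k x ^ 2 + vv k x / 2

lemma φ_cont (k : ℕ) : Continuous (φ k) := by unfold φ uu vv; fun_prop

lemma norm_φ (k : ℕ) (x : T) : ‖φ k x‖ ≤ 3 / 2 := by
  refine (norm_add_le _ _).trans ?_
  rw [norm_pow, norm_div, norm_uu, norm_vv]; norm_num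

lemma φ_lip (k : ℕ) (x y : T) : ‖φ k x - φ k y‖ ≤ 35 * a k ^ 4 * ‖x - y‖ := by
  have h1 := fourier_lip (2 * nN k) x y
  have h2 := fourier_lip (-(2 * nN k)) x y
  have e : |((2 * (nN k : ℤ) : ℤ) : ℝ)| = 2 * a k ^ 4 := by
    push_cast; rw [nN_cast, abs_of_nonneg (by positivity)]
  rw [Int.cast_neg, abs_neg] at h2
  rw [e] at h1 h2
  have : φ k x - φ k y = (uu k x - uu k y) * (uu k x + uu k y) + (vv k x - vv k y) / 2 := by
    unfold φ; ring
  rw [this]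
  refine (norm_add_le _ _).trans ?_
  rw [norm_mul, norm_div]
  have h3 : ‖uu k x + uu k y‖ ≤ 2 := by
    refine (norm_add_le _ _).trans ?_; rw [norm_uu, norm_uu]; norm_num
  have h4 := mul_le_mul h1 h3 (norm_nonneg _) (by positivity)
  unfold uu vv at *
  rw [Complex.norm_ofNat]
  linarith

noncomputable def geo (k : ℕ) (x : T) : ℂ := ∑ j ∈ range (k + 2), (-(vv k x ^ 3) / 2) ^ j

lemma norm_q (k : ℕ) (x : T) : ‖-(vv k x ^ 3) / 2‖ = 1 / 2 := by
  rw [norm_div, norm_neg, norm_pow, norm_vv]; simp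

lemma norm_geo (k : ℕ) (x : T) : ‖geo k x‖ ≤ 2 := by
  refine (norm_sum_le _ _).trans ?_
  simp_rw [norm_pow, norm_q]
  exact sum_geometric_two_le _

/-- the test function at scale `k`, rotated by `s` -/
noncomputable def ζ (k : ℕ) (s : T) (x : T) : ℂ :=
  Db k (θ k + s) x * (vv k (x - s) * geo k (x - s))

lemma norm_ζ (k : ℕ) (s x : T) : ‖ζ k s x‖ ≤ 2 * ‖Db k (θ k + s) x‖ := by
  rw [ζ, norm_mul, norm_mul, norm_vv, one_mul, mul_comm]
  exact mul_le_mul_of_nonneg_right (norm_geo _ _) (norm_nonneg _)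

lemma ζ_FS (k : ℕ) (s : T) : FS (ζ k s) (2 * nN k) (nN (k + 1)) := by
  have e : ζ k s = fun x => ∑ j ∈ range (k + 2), (-1 / 2 : ℂ) ^ j *
      (Db k (θ k + s) x * fourier (-((3 * j + 1) * (2 * nN k))) (x - s)) := by
    funext x
    rw [ζ, geo, Finset.mul_sum, Finset.mul_sum]
    refine Finset.sum_congr rfl fun j _ => ?_
    have : fourier (-((3 * (j : ℤ) + 1) * (2 * nN k))) (x - s) = vv k (x - s) ^ (3 * j + 1) := by
      rw [vv, fourier_pow]; congr 2; push_cast; ring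
    rw [this, show -(vv k (x - s) ^ 3) / 2 = (-1 / 2) * vv k (x - s) ^ 3 by ring, mul_pow, ← pow_mul]
    ring
  rw [e]
  apply FS.sum
  intro j hj
  have hj' : (j : ℤ) ≤ k + 1 := by have := Finset.mem_range.1 hj; omega
  have h1 : (6 * (k + 2) * nN k : ℤ) ≤ nN (k + 1) := by exact_mod_cast nN_step k
  have h2 : (0 : ℤ) ≤ nN k := by positivity
  refine (((Db_FS k (θ k + s)).shift _ s).cmul _).mono ?_ ?_
  · nlinarith [mul_nonneg h2 (by positivity : (0 : ℤ) ≤ j)]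
  · nlinarith [mul_le_mul_of_nonneg_left hj' h2]

lemma ζ_bd (k : ℕ) (s : T) : Bd (ζ k s) := Bd.of_cont (ζ_FS k s).cont

lemma ζ_shift (k : ℕ) (s t x : T) : ζ k s (x - t) = ζ k (s + t) x := by
  unfold ζ Db
  simp only [show ∀ y : T, x - t - y = x - (y + t) from fun y => by abel, add_assoc]

lemma ζ_φ (k : ℕ) (s x : T) : ζ k s x * φ k (x - s) =
    Db k (θ k + s) x * uu k (x - s) * (1 - (-(vv k (x - s) ^ 3) / 2) ^ (k + 2)) := by
  have h := uu_vv k (x - s)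
  have h2 := mul_neg_geom_sum (-(vv k (x - s) ^ 3) / 2) (k + 2)
  rw [← h2, ζ, φ, geo]
  set u := uu k (x - s)
  set v := vv k (x - s)
  have : v * (u ^ 2 + v / 2) = u * (1 - -(v ^ 3) / 2) := by
    linear_combination (u - v ^ 2 / 2) * h
  linear_combination (Db k (θ k + s) x * ∑ i ∈ range (k + 2), (-(v ^ 3) / 2) ^ i) * this

lemma ζ_loc (k : ℕ) (s : T) {U : T → ℂ} {ε τ : ℝ} (hε : 0 ≤ ε) (hτ : 0 ≤ τ)
    (hU : ∀ x, ‖U x‖ ≤ ε * ‖Db k (θ k + s) x‖ + τ) (g : H) : ‖pr U g‖ ≤ (ε + τ) * ‖g‖ :=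
  loc (bH_ae k (θ k + s)) (norm_bH _ _).le hε hτ hU g

lemma pr_ζ_le (k : ℕ) (s : T) (g : H) : ‖pr (ζ k s) g‖ ≤ 2 * ‖g‖ := by
  have := ζ_loc k s (ε := 2) (τ := 0) (by norm_num) le_rfl (fun x => by
    rw [add_zero]; exact norm_ζ k s x) g
  rwa [add_zero] at this

/-- multiplying by a function which is nearly constant near the centre of the test function -/
lemma near_const (k : ℕ) (s : T) {U : T → ℂ} (hU : Bd U) {C ε : ℝ} (hC : ∀ x, ‖U x‖ ≤ C)
    (hε : 0 ≤ ε) (h : ∀ x, ‖x - (θ k + s)‖ < 1 / (2 * a k) → ‖U x - U (θ k + s)‖ ≤ ε) (g : H) :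
    ‖pr (fun x => ζ k s x * U x) g - U (θ k + s) * pr (ζ k s) g‖ ≤
      (2 * ε + 4 * C / a k) * ‖g‖ := by
  have hC0 : 0 ≤ C := (norm_nonneg _).trans (hC 0)
  have ha := a_pos k
  rw [← pr_const_mul, ← pr_sub_left ((ζ_bd k s).mul hU)
    ((Bd.of_cont continuous_const).mul (ζ_bd k s))]
  refine ζ_loc k s (by positivity) (by positivity) (fun x => ?_) g
  rw [show ζ k s x * U x - U (θ k + s) * ζ k s x = ζ k s x * (U x - U (θ k + s)) by ring, norm_mul]
  have h1 := norm_ζ k s x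
  have h0 := norm_nonneg (Db k (θ k + s) x)
  by_cases hx : ‖x - (θ k + s)‖ < 1 / (2 * a k)
  · have h2 := mul_le_mul h1 (h x hx) (norm_nonneg _) (by positivity)
    have : 0 ≤ 4 * C / a k := by positivity
    linarith
  · have h2 := Db_far k (θ k + s) x (not_lt.1 hx)
    have h3 : ‖U x - U (θ k + s)‖ ≤ 2 * C := (norm_sub_le _ _).trans (by linarith [hC x, hC (θ k + s)])
    have h4 := mul_le_mul (h1.trans (mul_le_mul_of_nonneg_left h2 (by norm_num))) h3 (norm_nonneg _)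
      (by positivity)
    have e : 2 * (1 / a k) * (2 * C) = 4 * C / a k := by ring
    have : 0 ≤ 2 * ε * ‖Db k (θ k + s) x‖ := by positivity
    linarith

end Pool.Agent.H1.Toe
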