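import Pool.Agent.H1.ToeB

namespace Pool.Agent.H1.Toe

open MeasureTheory Finset
open scoped ENNReal NNReal ComplexConjugate InnerProductSpace

noncomputable def B (k : ℕ) (x : T) : ℝ := max 0 (min 1 (2 - a k * ‖x - θ k‖))

lemma B_cont (k : ℕ) : Continuous (B k) := by unfold B; fun_prop

lemma B_nonneg (k : ℕ) (x : T) : 0 ≤ B k x := le_max_left _ _
lemma B_le (k : ℕ) (x : T) : B k x ≤ 1 := max_le (by norm_num) (min_le_left _ _)

lemma B_one {k : ℕ} {x : T} (h : ‖x - θ k‖ ≤ 1 / a k) : B k x = 1 := by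
  have ha := a_pos k
  rw [le_div_iff₀ ha] at h
  rw [B, min_eq_left (by linarith), max_eq_right (by norm_num)]

lemma B_zero {k : ℕ} {x : T} (h : 2 / a k ≤ ‖x - θ k‖) : B k x = 0 := by
  have ha := a_pos k
  rw [div_le_iff₀ ha] at h
  rw [B, max_eq_left (min_le_of_right_le (by linarith))]

lemma B_lip (k : ℕ) (x y : T) : |B k x - B k y| ≤ a k * ‖x - y‖ := by
  have ha := a_pos k
  have h1 : |‖x - θ k‖ - ‖y - θ k‖| ≤ ‖x - y‖ := by
    have := abs_norm_sub_norm_le (x - θ k) (y - θ k)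
    rwa [sub_sub_sub_cancel_right] at this
  unfold B
  rw [max_comm 0, max_comm 0]
  refine (abs_max_sub_max_le_abs _ _ _).trans ?_
  refine (abs_min_sub_min_le_max _ _ _ _).trans (max_le (by simp; positivity) ?_)
  rw [show 2 - a k * ‖x - θ k‖ - (2 - a k * ‖y - θ k‖) = -(a k * (‖x - θ k‖ - ‖y - θ k‖)) by ring,
    abs_neg, abs_mul, abs_of_pos ha]
  exact mul_le_mul_of_nonneg_left h1 ha.le

noncomputable def ψ (k : ℕ) (x : T) : ℂ := B k x * φ k x

lemma ψ_cont (k : ℕ) : Continuous (ψ k) :=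
  (Complex.continuous_ofReal.comp (B_cont k)).mul (φ_cont k)

lemma norm_ψ (k : ℕ) (x : T) : ‖ψ k x‖ ≤ 3 / 2 := by
  rw [ψ, norm_mul, Complex.norm_real, Real.norm_of_nonneg (B_nonneg k x)]
  nlinarith [B_le k x, B_nonneg k x, norm_φ k x, norm_nonneg (φ k x)]

lemma ψ_zero {k : ℕ} {x : T} (h : ‖x‖ ≤ 1 / a k ∨ 5 / a k ≤ ‖x‖) : ψ k x = 0 := by
  have h1 := norm_θ k
  have h2 := abs_norm_sub_norm_le x (θ k)
  have e1 : 5 / a k = 5 * (1 / a k) := by ring
  have e2 : 3 / a k = 3 * (1 / a k) := by ring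
  have e3 : 2 / a k = 2 * (1 / a k) := by ring
  rw [ψ, B_zero]
  · simp
  · rw [abs_le] at h2
    rcases h with h | h <;> linarith [h2.1, h2.2]

lemma ψ_lip (k : ℕ) (x y : T) : ‖ψ k x - ψ k y‖ ≤ 37 * a k ^ 4 * ‖x - y‖ := by
  have e : ψ k x - ψ k y = ((B k x - B k y : ℝ) : ℂ) * φ k x + B k y * (φ k x - φ k y) := by
    unfold ψ; push_cast; ring
  rw [e]
  refine (norm_add_le _ _).trans ?_
  rw [norm_mul, norm_mul, Complex.norm_real, Complex.norm_real, Real.norm_eq_abs,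
    Real.norm_of_nonneg (B_nonneg k y)]
  have ha := a_ge100 k
  have h1 := mul_le_mul (B_lip k x y) (norm_φ k x) (norm_nonneg _) (by positivity)
  have h2 := mul_le_mul (B_le k y) (φ_lip k x y) (norm_nonneg _) (by norm_num)
  have h3 : a k ≤ a k ^ 4 := le_self_pow₀ (by linarith) (by norm_num)
  have h4 := mul_le_mul_of_nonneg_right h3 (norm_nonneg (x - y))
  have h5 : 0 ≤ a k ^ 4 * ‖x - y‖ := by positivity
  linarith

lemma five_le {j k : ℕ} (h : j < k) : 100 * (1 / a k) ≤ 1 / a j := by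
  have := a_lt h
  rw [mul_one_div, div_le_div_iff₀ (a_pos k) (a_pos j)]; linarith

noncomputable def f (x : T) : ℂ := ∑' j, ψ j x

lemma f_single {k : ℕ} {x : T} (h1 : 1 / a k ≤ ‖x‖) (h2 : ‖x‖ ≤ 5 / a k) : f x = ψ k x := by
  refine tsum_eq_single k fun j hj => ψ_zero ?_
  have p1 : 0 < 1 / a k := by have := a_pos k; positivity
  have p2 : 0 < 1 / a j := by have := a_pos j; positivity
  have e1 : 5 / a k = 5 * (1 / a k) := by ring
  have e2 : 5 / a j = 5 * (1 / a j) := by ring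
  rcases lt_or_gt_of_ne hj with h | h
  · left; linarith [five_le h]
  · right; linarith [five_le h]

lemma ψ_zero_of_ge {k j : ℕ} {x : T} (h : 5 / a k ≤ ‖x‖) (hj : k ≤ j) : ψ j x = 0 :=
  ψ_zero (Or.inr ((div_le_div_of_nonneg_left (by norm_num) (a_pos k) (a_mono hj)).trans h))

lemma f_sum {k : ℕ} {x : T} (h : 5 / a k ≤ ‖x‖) : f x = ∑ j ∈ range k, ψ j x :=
  tsum_eq_sum fun j hj => ψ_zero_of_ge h (by simpa using hj)

lemma norm_f (x : T) : ‖f x‖ ≤ 3 / 2 := by
  by_cases h : ∃ k, ψ k x ≠ 0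
  · obtain ⟨k, hk⟩ := h
    have h1 : ¬ (‖x‖ ≤ 1 / a k ∨ 5 / a k ≤ ‖x‖) := fun h => hk (ψ_zero h)
    push Not at h1
    rw [f_single h1.1.le h1.2.le]; exact norm_ψ k x
  · push Not at h
    simp [f, h]; norm_num

lemma f_bd : Bd f := by
  refine ⟨?_, 3 / 2, norm_f⟩
  have hm : Measurable f := by
    refine measurable_of_tendsto_metrizable (f := fun K x => ∑ j ∈ range K, ψ j x)
      (fun K => (continuous_finsetSum _ fun j _ => ψ_cont j).measurable) ?_
    rw [tendsto_pi_nhds]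
    intro x
    have hs : Summable fun j => ψ j x := by
      by_cases hx : x = 0
      · have : ∀ j, ψ j x = 0 := fun j => ψ_zero (Or.inl (by
          rw [hx, norm_zero]; have := a_pos j; positivity))
        simp [this, summable_zero]
      · have h0 : 0 < ‖x‖ := norm_pos_iff.2 hx
        obtain ⟨k, hk⟩ := exists_pow_lt_of_lt_one h0 (by norm_num : (1 / 2 : ℝ) < 1)
        have h5 : 5 / a k ≤ ‖x‖ := by
          have := inv_a_le k
          have e1 : 5 / a k = 5 * (1 / a k) := by ring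
          linarith
        exact summable_of_ne_finset_zero (s := range k) fun j hj => ψ_zero_of_ge h5 (by simpa using hj)
    exact hs.hasSum.tendsto_sum_nat
  exact hm.aestronglyMeasurable

lemma f_plateau {k : ℕ} {x : T} (h : ‖x - θ k‖ ≤ 1 / a k) : f x = φ k x := by
  have h1 := norm_θ k
  have h2 := abs_norm_sub_norm_le x (θ k)
  have p1 : 0 < 1 / a k := by have := a_pos k; positivity
  have e1 : 5 / a k = 5 * (1 / a k) := by ring
  have e2 : 3 / a k = 3 * (1 / a k) := by ring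
  rw [abs_le] at h2
  rw [f_single (k := k) (by linarith [h2.1]) (by linarith [h2.2]), ψ, B_one h]; simp

lemma norm_qpow (k : ℕ) (x : T) : ‖(-(vv k x ^ 3) / 2) ^ (k + 2)‖ = (1 / 2) ^ k / 4 := by
  rw [norm_pow, norm_q]; ring

lemma aligned (k : ℕ) (s : T) (hs : ‖s‖ ≤ 9 / a (k + 1)) {g : H} (hg : g ∈ H2) :
    ‖pr (fun x => ζ k s x * f x) g‖ ≤ 2 * (1 / 2) ^ k * ‖g‖ := by
  have ha := a_ge100 k
  have ha0 := a_pos k
  have hW : FS (fun x => Db k (θ k + s) x * uu k (x - s)) (-nN k) 0 := by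
    have := (Db_FS k (θ k + s)).shift (-(2 * nN k)) s
    rw [neg_neg] at this
    exact this.mono (by omega) (by omega)
  have h0 := hW.pr_zero (g := g) fun n _ hn => mem_H2.1 hg n hn
  rw [← sub_zero (pr _ g), ← h0, ← pr_sub_left ((ζ_bd k s).mul f_bd) (Bd.of_cont hW.cont)]
  have hi := inv_a_le k
  have p1 : 0 < 1 / a k := by positivity
  have hp : (0 : ℝ) < (1 / 2) ^ k := by positivity
  refine (ζ_loc k s (ε := 8 * (1 / a k) + (1 / 2) ^ k / 4) (τ := 6 * (1 / a k)) (by positivity)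
    (by positivity) (fun x => ?_) g).trans
    (mul_le_mul_of_nonneg_right (by linarith) (norm_nonneg _))
  have e : ζ k s x * f x - Db k (θ k + s) x * uu k (x - s) = ζ k s x * (f x - φ k (x - s)) -
      Db k (θ k + s) x * uu k (x - s) * (-(vv k (x - s) ^ 3) / 2) ^ (k + 2) := by
    linear_combination ζ_φ k s x
  rw [e]
  refine (norm_sub_le _ _).trans ?_
  rw [norm_mul, norm_mul, norm_mul, norm_uu, norm_qpow]
  have h1 := norm_ζ k s x
  have hD := norm_nonneg (Db k (θ k + s) x)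
  by_cases hx : ‖x - (θ k + s)‖ < 1 / (2 * a k)
  · rw [a_succ] at hs
    have h5 : 100 ^ 5 ≤ a k ^ 5 := pow_le_pow_left₀ (by norm_num) ha 5
    have h6 : 9 / a k ^ 6 ≤ 1 / (2 * a k) := by
      rw [div_le_div_iff₀ (by positivity) (by positivity)]
      nlinarith
    have h7 : ‖x - θ k‖ ≤ 1 / a k := by
      have := norm_add_le (x - (θ k + s)) s
      rw [show x - (θ k + s) + s = x - θ k by abel] at this
      have e2 : 1 / a k = 2 * (1 / (2 * a k)) := by field_simp
      linarith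
    have h8 := φ_lip k x (x - s)
    rw [sub_sub_cancel] at h8
    have h9 : 35 * a k ^ 4 * ‖s‖ ≤ 4 * (1 / a k) := by
      refine (mul_le_mul_of_nonneg_left hs (by positivity)).trans ?_
      rw [show 35 * a k ^ 4 * (9 / a k ^ 6) = (315 / a k) * (1 / a k) by field_simp; norm_num]
      refine mul_le_mul_of_nonneg_right ?_ p1.le
      rw [div_le_iff₀ ha0]; linarith
    rw [f_plateau h7]
    have := mul_le_mul h1 (h8.trans h9) (norm_nonneg _) (by positivity)
    nlinarith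
  · have h2 := Db_far k (θ k + s) x (not_lt.1 hx)
    have h3 : ‖f x - φ k (x - s)‖ ≤ 3 :=
      (norm_sub_le _ _).trans (by linarith [norm_f x, norm_φ k (x - s)])
    have h4 := mul_le_mul (h1.trans (mul_le_mul_of_nonneg_left h2 (by norm_num))) h3 (norm_nonneg _)
      (by positivity)
    nlinarith [mul_nonneg p1.le hD]

lemma nonaligned (k : ℕ) (s : T) (hs : 9 / a k < ‖s‖) (g : H) :
    ‖pr (fun x => ζ k s x * f x) g - f (θ k + s) * pr (ζ k s) g‖ ≤ 2 * (1 / 2) ^ k * ‖g‖ := by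
  have ha0 := a_pos k
  have hi := inv_a_le k
  have hp : (0 : ℝ) < (1 / 2) ^ k := by positivity
  have p1 : 0 < 1 / a k := by positivity
  refine (near_const k s f_bd norm_f (ε := (1 / 2) ^ k / 2) (by positivity) (fun x hx => ?_) g).trans
    (mul_le_mul_of_nonneg_right ?_ (norm_nonneg _))
  · have h1 := norm_θ k
    have h2 := norm_sub_le (θ k + s) (θ k)
    rw [add_sub_cancel_left] at h2
    have h3 := abs_norm_sub_norm_le x (θ k + s)
    rw [abs_le] at h3
    have e1 : 5 / a k = 5 * (1 / a k) := by ring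
    have e2 : 3 / a k = 3 * (1 / a k) := by ring
    have e3 : 9 / a k = 9 * (1 / a k) := by ring
    have e4 : 1 / (2 * a k) = (1 / a k) / 2 := by field_simp
    rw [f_sum (k := k) (x := x) (by linarith [h3.1]), f_sum (k := k) (x := θ k + s) (by linarith),
      ← Finset.sum_sub_distrib]
    refine (norm_sum_le _ _).trans ((Finset.sum_le_sum fun j _ => ψ_lip j x (θ k + s)).trans ?_)
    rw [← Finset.sum_mul, ← Finset.mul_sum]
    refine (mul_le_mul (sum_a4 k) hx.le (norm_nonneg _) (by positivity)).trans (le_of_eq ?_)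
    field_simp
  · have e : 4 * (3 / 2) / a k = 6 * (1 / a k) := by ring
    rw [e]; linarith

lemma pr_ζf_le (k : ℕ) (s : T) (g : H) : ‖pr (fun x => ζ k s x * f x) g‖ ≤ 3 * ‖g‖ := by
  rw [← pr_Mul f_bd]
  linarith [pr_ζ_le k s (Mul f_bd g), norm_Mul_le f_bd norm_f g]

lemma sum_f (s : T) {g : H} (hg : g ∈ H2) (F : Finset ℕ) {X : ℝ} (hX0 : 0 ≤ X)
    (hX : ∀ k ∈ F, ‖pr (fun x => ζ k s x * f x) g‖ ≤ X) :
    ∑ k ∈ F, ‖pr (fun x => ζ k s x * f x) g‖ ≤
      ∑ k ∈ F, (3 / 2 * ‖pr (ζ k s) g‖ + 2 * (1 / 2) ^ k * ‖g‖) + X := by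
  classical
  have good : ∀ k, (‖s‖ ≤ 9 / a (k + 1) ∨ 9 / a k < ‖s‖) →
      ‖pr (fun x => ζ k s x * f x) g‖ ≤ 3 / 2 * ‖pr (ζ k s) g‖ + 2 * (1 / 2) ^ k * ‖g‖ := by
    rintro k (h | h)
    · have := aligned k s h hg
      have := norm_nonneg (pr (ζ k s) g)
      linarith
    · have h1 := nonaligned k s h g
      have h2 := norm_sub_norm_le (pr (fun x => ζ k s x * f x) g) (f (θ k + s) * pr (ζ k s) g)
      rw [norm_mul] at h2
      have h3 := mul_le_mul_of_nonneg_right (norm_f (θ k + s)) (norm_nonneg (pr (ζ k s) g))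
      linarith
  obtain ⟨k0, hk0⟩ : ∃ k0, ∀ k, k ≠ k0 → (‖s‖ ≤ 9 / a (k + 1) ∨ 9 / a k < ‖s‖) := by
    by_cases h : ∃ k0, ¬ (‖s‖ ≤ 9 / a (k0 + 1) ∨ 9 / a k0 < ‖s‖)
    · obtain ⟨k0, h0⟩ := h
      push Not at h0
      refine ⟨k0, fun k hk => ?_⟩
      rcases lt_or_gt_of_ne hk with h | h
      · left
        exact h0.2.trans (div_le_div_of_nonneg_left (by norm_num) (a_pos _) (a_mono h))
      · right
        exact lt_of_le_of_lt (div_le_div_of_nonneg_left (by norm_num) (a_pos _) (a_mono h)) h0.1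
    · push Not at h
      exact ⟨0, fun k _ => h k⟩
  have h1 : ∀ k ∈ F, ‖pr (fun x => ζ k s x * f x) g‖ ≤
      (3 / 2 * ‖pr (ζ k s) g‖ + 2 * (1 / 2) ^ k * ‖g‖) + if k = k0 then X else 0 := by
    intro k hk
    split_ifs with h
    · have := hX k hk
      have : 0 ≤ 3 / 2 * ‖pr (ζ k s) g‖ + 2 * (1 / 2) ^ k * ‖g‖ := by positivity
      linarith
    · rw [add_zero]; exact good k (hk0 k h)
  refine (Finset.sum_le_sum h1).trans ?_
  rw [Finset.sum_add_distrib, Finset.sum_ite_eq']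
  split_ifs <;> linarith

lemma four_est (k : ℕ) (s : T) (m : ℤ) (g : H) :
    ‖pr (fun x => ζ k s x * fourier m x) g‖ ≤
      ‖pr (ζ k s) g‖ + (|(m : ℝ)| + 1) / 2 * (1 / 2) ^ k * ‖g‖ := by
  have ha0 := a_pos k
  have h1 := near_const k s (U := fourier m) (Bd.of_cont (map_continuous _)) (C := 1)
    (fun x => (norm_fourier m x).le) (ε := 7 * |(m : ℝ)| * (1 / (2 * a k))) (by positivity)
    (fun x hx => (fourier_lip m x _).trans (mul_le_mul_of_nonneg_left hx.le (by positivity))) g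
  have h2 := norm_sub_norm_le (pr (fun x => ζ k s x * fourier m x) g)
    (fourier m (θ k + s) * pr (ζ k s) g)
  rw [norm_mul, norm_fourier, one_mul] at h2
  have e : 2 * (7 * |(m : ℝ)| * (1 / (2 * a k))) + 4 * 1 / a k = (7 * |(m : ℝ)| + 4) * (1 / a k) := by
    field_simp
  rw [e] at h1
  have h3 : (7 * |(m : ℝ)| + 4) * (1 / a k) ≤ (|(m : ℝ)| + 1) / 2 * (1 / 2) ^ k := by
    refine (mul_le_mul_of_nonneg_left (inv_a_le k) (by positivity)).trans ?_
    have hp : (0 : ℝ) < (1 / 2) ^ k := by positivity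
    nlinarith [mul_nonneg (abs_nonneg (m : ℝ)) hp.le]
  have h4 := mul_le_mul_of_nonneg_right h3 (norm_nonneg g)
  linarith

lemma sq_main (k : ℕ) :
    ‖pr (fun x => ζ k 0 x * (f x * f x)) (bH k (θ k + 0)) - 1 / 2‖ ≤ (1 / 2) ^ k := by
  have ha0 := a_pos k
  have hD := Db_FS k (θ k + 0)
  have hW : FS (fun x => Db k (θ k + 0) x * uu k (x - 0) ^ 3) (-(5 * nN k)) 0 := by
    have := hD.shift (-(3 * (2 * nN k))) 0
    rw [neg_neg] at this
    have e : (fun x => Db k (θ k + 0) x * uu k (x - 0) ^ 3) =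
        fun x => Db k (θ k + 0) x * fourier (3 * (2 * nN k)) (x - 0) := by
      funext x; rw [uu, fourier_pow]; rfl
    rw [e]
    exact this.mono (by omega) (by omega)
  have h0 := hW.pr_zero (g := bH k (θ k + 0)) fun n _ hn => co_bH _ _ _ (Or.inl (by omega))
  have h1 : pr (Db k (θ k + 0)) (bH k (θ k + 0)) = 1 := by
    rw [← inner_eq_pr (bH_ae _ _), inner_bH]
  have b1 := Bd.of_cont hW.cont
  have b2 := Bd.of_cont (hD.cmul (1 / 2)).cont
  have h2 := pr_add_left b1 b2 (bH k (θ k + 0))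
  rw [h0, pr_const_mul, h1, zero_add, mul_one] at h2
  have b3 : Bd (fun x => Db k (θ k + 0) x * uu k (x - 0) ^ 3 + 1 / 2 * Db k (θ k + 0) x) :=
    Bd.of_cont (hW.cont.add (hD.cmul (1 / 2)).cont)
  rw [← h2, ← pr_sub_left ((ζ_bd k 0).mul (f_bd.mul f_bd)) b3]
  have hi := inv_a_le k
  have p1 : 0 < 1 / a k := by positivity
  have hp : (0 : ℝ) < (1 / 2) ^ k := by positivity
  refine (ζ_loc k 0 (ε := 3 / 8 * (1 / 2) ^ k) (τ := 9 * (1 / a k)) (by positivity)
    (by positivity) (fun x => ?_) _).trans (by rw [norm_bH]; linarith)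
  have e : ζ k 0 x * (f x * f x) - (Db k (θ k + 0) x * uu k (x - 0) ^ 3 + 1 / 2 * Db k (θ k + 0) x)
      = ζ k 0 x * (f x * f x - φ k (x - 0) * φ k (x - 0)) -
      Db k (θ k + 0) x * uu k (x - 0) * (-(vv k (x - 0) ^ 3) / 2) ^ (k + 2) * φ k (x - 0) := by
    have h3 := ζ_φ k 0 x
    have h4 := uu_vv k (x - 0)
    have h5 : φ k (x - 0) = uu k (x - 0) ^ 2 + vv k (x - 0) / 2 := rfl
    linear_combination φ k (x - 0) * h3 + Db k (θ k + 0) x * uu k (x - 0) * h5 +
      Db k (θ k + 0) x / 2 * h4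
  rw [e]
  refine (norm_sub_le _ _).trans ?_
  rw [norm_mul, norm_mul, norm_mul, norm_mul, norm_uu, norm_qpow]
  have h3 := norm_ζ k 0 x
  have hD0 := norm_nonneg (Db k (θ k + 0) x)
  have h4 := mul_le_mul_of_nonneg_left (norm_φ k (x - 0))
    (by positivity : 0 ≤ ‖Db k (θ k + 0) x‖ * 1 * ((1 / 2) ^ k / 4))
  by_cases hx : ‖x - (θ k + 0)‖ < 1 / (2 * a k)
  · have h7 : ‖x - θ k‖ ≤ 1 / a k := by
      rw [add_zero] at hx
      have e2 : 1 / a k = 2 * (1 / (2 * a k)) := by field_simp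
      linarith [norm_nonneg (x - θ k)]
    rw [f_plateau h7, sub_zero x, sub_self, norm_zero, mul_zero]
    rw [sub_zero x] at h4
    linarith
  · have h5 := Db_far k (θ k + 0) x (not_lt.1 hx)
    have h6 : ‖f x * f x - φ k (x - 0) * φ k (x - 0)‖ ≤ 9 / 2 := by
      refine (norm_sub_le _ _).trans ?_
      rw [norm_mul, norm_mul]
      nlinarith [norm_f x, norm_φ k (x - 0), norm_nonneg (f x), norm_nonneg (φ k (x - 0))]
    have h7 := mul_le_mul (h3.trans (mul_le_mul_of_nonneg_left h5 (by norm_num))) h6 (norm_nonneg _)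
      (by positivity)
    linarith

lemma arcs {j k : ℕ} (h : j < k) (x : T) :
    1 / (2 * a j) ≤ ‖x - (θ j + 0)‖ ∨ 1 / (2 * a k) ≤ ‖x - (θ k + 0)‖ := by
  by_contra hc
  push Not at hc
  rw [add_zero, add_zero] at hc
  have h1 := abs_norm_sub_norm_le x (θ k)
  have h2 := abs_norm_sub_norm_le x (θ j)
  rw [abs_le, norm_θ] at h1 h2
  have := five_le h
  have p1 : 0 < 1 / a k := by have := a_pos k; positivity
  have e1 : 3 / a k = 3 * (1 / a k) := by ring
  have e2 : 3 / a j = 3 * (1 / a j) := by ring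
  have e3 : 1 / (2 * a k) = (1 / a k) / 2 := by field_simp
  have e4 : 1 / (2 * a j) = (1 / a j) / 2 := by field_simp
  linarith [h1.2, h2.1, hc.1, hc.2]

lemma sq_cross {j k : ℕ} (h : j ≠ k) :
    ‖pr (fun x => ζ k 0 x * (f x * f x)) (bH j (θ j + 0))‖ ≤ 9 / 2 * (1 / a k + 1 / a j) := by
  have p1 : 0 < 1 / a k := by have := a_pos k; positivity
  have p2 : 0 < 1 / a j := by have := a_pos j; positivity
  have i1 := ((int_H (bH j (θ j + 0))).norm.const_mul (9 / 2 * (1 / a k)))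
  have i2 := ((int_H (bH k (θ k + 0))).norm.const_mul (9 / 2 * (1 / a j)))
  have h1 := norm_integral_le_of_norm_le
    (f := fun x => ζ k 0 x * (f x * f x) * bH j (θ j + 0) x) (i1.add i2) (by
      filter_upwards [bH_ae j (θ j + 0), bH_ae k (θ k + 0)] with x hj hk
      simp only [Pi.add_apply]
      rw [hj, hk, norm_mul, norm_mul, norm_mul, RCLike.norm_conj, RCLike.norm_conj]
      have a1 := norm_ζ k 0 x
      have a2 : ‖f x‖ * ‖f x‖ ≤ 9 / 4 := by nlinarith [norm_f x, norm_nonneg (f x)]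
      have a3 := mul_le_mul a1 a2 (by positivity) (by positivity)
      have d1 := norm_nonneg (Db j (θ j + 0) x)
      have d2 := norm_nonneg (Db k (θ k + 0) x)
      have a4 := mul_le_mul_of_nonneg_right a3 d1
      have a5 : 1 / (2 * a j) ≤ ‖x - (θ j + 0)‖ ∨ 1 / (2 * a k) ≤ ‖x - (θ k + 0)‖ := by
        rcases lt_or_gt_of_ne h with h | h
        · exact arcs h x
        · exact (arcs h x).symm
      rcases a5 with a5 | a5
      · have := mul_le_mul_of_nonneg_left (Db_far j _ x a5) d2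
        nlinarith [mul_nonneg p1.le d1]
      · have := mul_le_mul_of_nonneg_left (Db_far k _ x a5) d1
        nlinarith [mul_nonneg p2.le d2])
  refine h1.trans ?_
  simp only [Pi.add_apply]
  rw [integral_add i1 i2, integral_const_mul, integral_const_mul]
  have b1 := int_norm_le (bH j (θ j + 0))
  have b2 := int_norm_le (bH k (θ k + 0))
  rw [norm_bH] at b1 b2
  nlinarith

end Pool.Agent.H1.Toe
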