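import Pool.Agent.H1.ToeC

namespace Pool.Agent.H1.Toe

open MeasureTheory Finset Filter Topology
open scoped ENNReal NNReal ComplexConjugate InnerProductSpace

abbrev A : Type := {a : T × ℕ × (ℕ → ℂ) // ∀ k, ‖a.2.2 k‖ ≤ 1}

noncomputable def ell (α : A) : H →L[ℂ] ℂ :=
  ∑ k ∈ range α.1.2.1, α.1.2.2 k • prL (ζ_bd k α.1.1)

lemma ell_apply (α : A) (g : H) :
    ell α g = ∑ k ∈ range α.1.2.1, α.1.2.2 k * pr (ζ k α.1.1) g := by
  simp [ell, prL_apply]

def NB (h : H) (D : ℝ) : Prop := ∀ s K, ∑ k ∈ range K, ‖pr (ζ k s) h‖ ≤ D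

abbrev E : Type := H × lp (fun _ : A => ℂ) ∞

noncomputable def G : Submodule ℂ E where
  carrier := {x | x.1 ∈ H2 ∧ ∀ α, x.2 α = ell α x.1}
  add_mem' := fun {x y} hx hy => ⟨H2.add_mem hx.1 hy.1, fun α => by
    simp only [Prod.snd_add, Prod.fst_add, map_add, lp.coeFn_add, Pi.add_apply, hx.2 α, hy.2 α]⟩
  zero_mem' := ⟨H2.zero_mem, fun α => by simp⟩
  smul_mem' := fun c x hx => ⟨H2.smul_mem c hx.1, fun α => by
    simp only [Prod.smul_snd, Prod.smul_fst, map_smul, lp.coeFn_smul, Pi.smul_apply, hx.2 α]⟩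

lemma G_closed : IsClosed (G : Set E) := by
  have h1 : IsClosed (H2 : Set H) := Submodule.isClosed_orthogonal _
  have : (G : Set E) = Prod.fst ⁻¹' (H2 : Set H) ∩ ⋂ α, {x : E | x.2 α = ell α x.1} := by
    ext x; simp [G]
  rw [this]
  refine (h1.preimage continuous_fst).inter (isClosed_iInter fun α => isClosed_eq ?_ ?_)
  · exact ((lp.lipschitzWith_one_eval ∞ α).continuous).comp continuous_snd
  · exact (ell α).continuous.comp continuous_fst

lemma G_ext {x y : E} (hx : x ∈ G) (hy : y ∈ G) (h : x.1 = y.1) : x = y := by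
  refine Prod.ext h ?_
  ext α
  rw [hx.2 α, hy.2 α, h]

lemma NB_of_G {x : E} (hx : x ∈ G) : NB x.1 ‖x.2‖ := by
  intro s K
  have h : ∀ k, ∃ c : ℂ, ‖c‖ ≤ 1 ∧ c * pr (ζ k s) x.1 = ‖pr (ζ k s) x.1‖ := by
    intro k
    by_cases h0 : pr (ζ k s) x.1 = 0
    · exact ⟨0, by simp, by simp [h0]⟩
    · refine ⟨conj (pr (ζ k s) x.1) / ‖pr (ζ k s) x.1‖, ?_, ?_⟩
      · rw [norm_div, RCLike.norm_conj, Complex.norm_real, norm_norm, div_self (norm_ne_zero_iff.2 h0)]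
      · have : ((‖pr (ζ k s) x.1‖ : ℝ) : ℂ) ≠ 0 := by exact_mod_cast norm_ne_zero_iff.2 h0
        rw [div_mul_eq_mul_div, Complex.conj_mul', div_eq_iff this]; ring
  choose c hc1 hc2 using h
  have h1 := lp.norm_apply_le_norm (by simp) x.2 ⟨(s, K, c), hc1⟩
  rw [hx.2, ell_apply] at h1
  simp only [hc2] at h1
  rw [← Complex.ofReal_sum, Complex.norm_real] at h1
  exact (le_abs_self _).trans h1

lemma exists_lift {h : H} (hh : h ∈ H2) {D : ℝ} (hD : NB h D) :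
    ∃ x ∈ G, x.1 = h ∧ ‖x.2‖ ≤ D := by
  have hb : ∀ α, ‖ell α h‖ ≤ D := by
    intro α
    rw [ell_apply]
    refine (norm_sum_le _ _).trans (le_trans (Finset.sum_le_sum fun k _ => ?_) (hD α.1.1 α.1.2.1))
    rw [norm_mul]
    exact mul_le_of_le_one_left (norm_nonneg _) (α.2 k)
  have hD0 : 0 ≤ D := by simpa using hD 0 0
  refine ⟨(h, ⟨fun α => ell α h, memℓp_infty ⟨D, ?_⟩⟩), ⟨hh, fun α => rfl⟩, rfl, ?_⟩
  · rintro _ ⟨α, rfl⟩; exact hb α
  · exact lp.norm_le_of_forall_le hD0 hb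

noncomputable def Poly : Submodule ℂ H where
  carrier := {h | h ∈ H2 ∧ ∃ N : ℕ, ∀ n : ℤ, (N : ℤ) ≤ n → co n h = 0}
  add_mem' := fun {x y} ⟨hx, N, hN⟩ ⟨hy, M, hM⟩ => ⟨H2.add_mem hx hy, N + M, fun n hn => by
    rw [map_add, hN n (by omega), hM n (by omega), add_zero]⟩
  zero_mem' := ⟨H2.zero_mem, 0, fun n _ => by simp⟩
  smul_mem' := fun c x ⟨hx, N, hN⟩ => ⟨H2.smul_mem c hx, N, fun n hn => by
    rw [map_smul, hN n hn, smul_zero]⟩

lemma poly_van {p : H} (hp : p ∈ Poly) : ∃ K0, ∀ k, K0 ≤ k → ∀ s, pr (ζ k s) p = 0 := by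
  obtain ⟨N, hN⟩ := hp.2
  refine ⟨N, fun k hk s => (ζ_FS k s).pr_zero fun n h1 _ => hN n ?_⟩
  have := nN_ge k
  omega

lemma sum_le_of_ne_zero {s t : Finset ℕ} {u : ℕ → ℝ} (hu : ∀ k, 0 ≤ u k)
    (h : ∀ k ∈ s, u k ≠ 0 → k ∈ t) : ∑ k ∈ s, u k ≤ ∑ k ∈ t, u k := by
  classical
  rw [← Finset.sum_filter_ne_zero s]
  exact Finset.sum_le_sum_of_subset_of_nonneg (fun k hk =>
    h k (Finset.mem_filter.1 hk).1 (Finset.mem_filter.1 hk).2) fun k _ _ => hu k

lemma poly_NB {p : H} (hp : p ∈ Poly) : ∃ D, NB p D := by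
  obtain ⟨K0, hK⟩ := poly_van hp
  refine ⟨∑ _k ∈ range K0, 2 * ‖p‖, fun s K => ?_⟩
  refine le_trans ?_ (Finset.sum_le_sum fun k _ => pr_ζ_le k s p)
  refine sum_le_of_ne_zero (fun _ => norm_nonneg _) fun k _ hk => Finset.mem_range.2 ?_
  by_contra h
  exact hk (by rw [hK k (not_lt.1 h) s, norm_zero])

noncomputable def S0 : Submodule ℂ E := G ⊓ Poly.comap (LinearMap.fst ℂ _ _)

noncomputable def XS : Submodule ℂ E := S0.topologicalClosure

lemma XS_le : XS ≤ G := Submodule.topologicalClosure_minimal _ inf_le_left G_closed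

lemma XS_closed : IsClosed (XS : Set E) := S0.isClosed_topologicalClosure

instance : CompleteSpace XS := XS_closed.completeSpace_coe

lemma mem_of_poly {y : E} (hy : y ∈ G) (hp : y.1 ∈ Poly) : y ∈ XS :=
  S0.le_topologicalClosure ⟨hy, hp⟩

lemma exists_poly {p : H} (hp : p ∈ Poly) : ∃ x : XS, x.1.1 = p ∧ x.1 ∈ S0 := by
  obtain ⟨D, hD⟩ := poly_NB hp
  obtain ⟨x, hx, h1, -⟩ := exists_lift hp.1 hD
  exact ⟨⟨x, mem_of_poly hx (h1 ▸ hp)⟩, h1, hx, show x.1 ∈ Poly from h1 ▸ hp⟩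

lemma mem_of_tail {y : E} (hy : y ∈ G)
    (h : ∀ ε > 0, ∃ p ∈ Poly, ‖y.1 - p‖ ≤ ε ∧ NB (y.1 - p) ε) : y ∈ XS := by
  show y ∈ closure (S0 : Set E)
  rw [Metric.mem_closure_iff]
  intro ε hε
  obtain ⟨p, hp, h1, h2⟩ := h (ε / 2) (by linarith)
  obtain ⟨x, hx, hx0⟩ := exists_poly hp
  obtain ⟨z, hz, hz1, hz2⟩ := exists_lift (H2.sub_mem hy.1 hp.1) h2
  refine ⟨x.1, hx0, ?_⟩
  have : y - x.1 = z := G_ext (G.sub_mem hy hx0.1) hz (by rw [hz1, Prod.fst_sub, hx])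
  rw [dist_eq_norm, this, Prod.norm_def, hz1]
  exact max_lt (by linarith) (by linarith)

lemma XS_ext {x y : XS} (h : x.1.1 = y.1.1) : x = y :=
  Subtype.ext (G_ext (XS_le x.2) (XS_le y.2) h)

lemma exists_op (L : H →L[ℂ] H) {C : ℝ} (hC : 0 ≤ C) (h1 : ∀ g ∈ H2, L g ∈ H2)
    (h2 : ∀ g, ‖L g‖ ≤ C * ‖g‖) (h3 : ∀ g ∈ H2, ∀ D, NB g D → NB (L g) (C * (D + ‖g‖)))
    (h4 : ∀ p ∈ Poly, ∀ y ∈ G, y.1 = L p → y ∈ XS) :
    ∃ S : XS →L[ℂ] XS, (∀ x, (S x).1.1 = L x.1.1) ∧ ‖S‖ ≤ 2 * C := by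
  have h : ∀ x : XS, ∃ y ∈ G, y.1 = L x.1.1 ∧ ‖y.2‖ ≤ C * (‖x.1.2‖ + ‖x.1.1‖) := fun x =>
    exists_lift (h1 _ (XS_le x.2).1) (h3 _ (XS_le x.2).1 _ (NB_of_G (XS_le x.2)))
  choose F hF1 hF2 hF3 using h
  let Fl : XS →ₗ[ℂ] E :=
    { toFun := F
      map_add' := fun x y => G_ext (hF1 _) (G.add_mem (hF1 _) (hF1 _)) (by
        rw [Prod.fst_add, hF2, hF2, hF2, ← map_add]; rfl)
      map_smul' := fun c x => G_ext (hF1 _) (G.smul_mem c (hF1 _)) (by
        rw [Prod.smul_fst, hF2, hF2, RingHom.id_apply, ← map_smul]; rfl) }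
  have hb : ∀ x, ‖Fl x‖ ≤ 2 * C * ‖x‖ := by
    intro x
    have a1 : ‖x.1.1‖ ≤ ‖x‖ := norm_fst_le x.1
    have a2 : ‖x.1.2‖ ≤ ‖x‖ := norm_snd_le x.1
    have a0 := norm_nonneg x
    show ‖F x‖ ≤ _
    rw [Prod.norm_def, hF2]
    refine max_le ((h2 _).trans ?_) ((hF3 x).trans ?_)
    · nlinarith [mul_le_mul_of_nonneg_left a1 hC, mul_nonneg hC a0]
    · nlinarith [mul_le_mul_of_nonneg_left a1 hC, mul_le_mul_of_nonneg_left a2 hC]
  let Fc : XS →L[ℂ] E := Fl.mkContinuous _ hb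
  have hmem : ∀ x, Fc x ∈ XS := by
    intro x
    obtain ⟨u, hu, hlim⟩ := mem_closure_iff_seq_limit.1 (show x.1 ∈ closure (S0 : Set E) from x.2)
    have hl : Tendsto (fun n => (⟨u n, S0.le_topologicalClosure (hu n)⟩ : XS)) atTop (𝓝 x) :=
      tendsto_subtype_rng.2 hlim
    refine XS_closed.mem_of_tendsto ((Fc.continuous.tendsto x).comp hl)
      (Eventually.of_forall fun n => ?_)
    exact h4 _ (hu n).2 _ (hF1 _) (hF2 _)
  refine ⟨Fc.codRestrict XS hmem, fun x => hF2 x, ?_⟩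
  exact ContinuousLinearMap.opNorm_le_bound _ (by positivity) fun x => hb x

/-- Toeplitz operator on `L²` -/
noncomputable def Tp {U : T → ℂ} (h : Bd U) : H →L[ℂ] H := P ∘L Mul h

lemma pr_Tp {U : T → ℂ} (h : Bd U) (k : ℕ) (s : T) (g : H) :
    pr (ζ k s) (Tp h g) = pr (fun x => ζ k s x * U x) g := by
  rw [← pr_Mul h]
  refine (ζ_FS k s).pr_eq fun n h1 _ => ?_
  show co n (P (Mul h g)) = _
  rw [co_P, if_pos (by omega)]

lemma norm_Tp_le {U : T → ℂ} (h : Bd U) {C : ℝ} (hC : ∀ x, ‖U x‖ ≤ C) (g : H) :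
    ‖Tp h g‖ ≤ C * ‖g‖ := (norm_P_le _).trans (norm_Mul_le h hC g)

lemma four_bd (m : ℤ) : Bd (fourier m) := Bd.of_cont (map_continuous _)

lemma co_Tp_four (m n : ℤ) (g : H) :
    co n (Tp (four_bd m) g) = if 0 ≤ n then co (n - m) g else 0 := by
  show co n (P (Mul (four_bd m) g)) = _
  rw [co_P]
  split_ifs
  · rw [co_eq_pr, co_eq_pr, pr_Mul]
    congr 1
    funext x
    rw [← fourier_add]; congr 2; ring
  · rfl

lemma exists_four (m : ℤ) : ∃ S : XS →L[ℂ] XS, (∀ x, (S x).1.1 = Tp (four_bd m) x.1.1) ∧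
    ‖S‖ ≤ 2 * (|(m : ℝ)| + 1) := by
  have hm := abs_nonneg (m : ℝ)
  refine exists_op _ (by positivity) (fun g _ => P_mem _) (fun g => ?_) (fun g _ D hD s K => ?_) ?_
  · have := norm_Tp_le (four_bd m) (fun x => (norm_fourier m x).le) g
    nlinarith [norm_nonneg g]
  · simp_rw [pr_Tp]
    refine (Finset.sum_le_sum fun k _ => four_est k s m g).trans ?_
    rw [Finset.sum_add_distrib, ← Finset.sum_mul, ← Finset.mul_sum]
    have h1 := hD s K
    have hD0 : 0 ≤ D := by simpa using hD 0 0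
    have h2 := sum_geometric_two_le K
    have h3 : (|(m : ℝ)| + 1) / 2 * ∑ i ∈ range K, (1 / 2 : ℝ) ^ i ≤ |(m : ℝ)| + 1 := by nlinarith
    nlinarith [mul_le_mul_of_nonneg_right h3 (norm_nonneg g), mul_nonneg hm hD0]
  · rintro p ⟨_, N, hN⟩ y hy h
    refine mem_of_poly hy (h ▸ ⟨P_mem _, N + m.natAbs, fun n hn => ?_⟩)
    rw [co_Tp_four]
    split_ifs
    · exact hN _ (by omega)
    · rfl

noncomputable def Rot (t : T) : H →L[ℂ] H :=
  (Lp.compMeasurePreservingₗᵢ ℂ (fun x => x + t) (measurePreserving_add_right μ t)).toContinuousLinearMap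

lemma pr_Rot (t : T) (U : T → ℂ) (g : H) : pr U (Rot t g) = pr (fun x => U (x - t)) g := by
  unfold pr
  rw [← integral_add_right_eq_self (fun x => U (x - t) * g x) t]
  apply integral_congr_ae
  filter_upwards [Lp.coeFn_compMeasurePreserving g (measurePreserving_add_right μ t)] with x hx
  rw [add_sub_cancel_right]
  congr 1

lemma co_Rot (t : T) (n : ℤ) (g : H) : co n (Rot t g) = fourier n t * co n g := by
  rw [co_eq_pr, co_eq_pr, pr_Rot, ← pr_const_mul]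
  congr 1
  funext x
  rw [sub_eq_add_neg, fourier_add_pt, mul_comm]
  congr 1
  simp [fourier_apply]

lemma exists_rot (t : T) : ∃ S : XS →L[ℂ] XS, ∀ x, (S x).1.1 = Rot t x.1.1 := by
  have hH : ∀ g ∈ H2, Rot t g ∈ H2 := fun g hg =>
    mem_H2.2 fun n hn => by rw [co_Rot, mem_H2.1 hg n hn, mul_zero]
  obtain ⟨S, h, -⟩ := exists_op (Rot t) (C := 1) (by norm_num) hH (fun g => by
    rw [one_mul]; exact (LinearIsometry.norm_map _ g).le) (fun g _ D hD s K => by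
      simp_rw [pr_Rot, ζ_shift]
      linarith [hD (s + t) K, norm_nonneg g]) (by
      rintro p ⟨hp, N, hN⟩ y hy h
      exact mem_of_poly hy (h ▸ ⟨hH p hp, N, fun n hn => by rw [co_Rot, hN n hn, mul_zero]⟩))
  exact ⟨S, h⟩

noncomputable def PS (N : ℕ) (h : H) : H := ∑ n ∈ range N, co n h • fourierLp 2 n

lemma co_PS (N : ℕ) (h : H) (m : ℤ) : co m (PS N h) = if 0 ≤ m ∧ m < N then co m h else 0 := by
  rw [PS, map_sum]
  simp_rw [map_smul, co_e]
  split_ifs with hm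
  · obtain ⟨k, rfl⟩ := Int.eq_ofNat_of_zero_le hm.1
    rw [Finset.sum_eq_single k]
    · simp
    · intro b _ hb; rw [if_neg (by omega), smul_zero]
    · intro hk; exact absurd (Finset.mem_range.2 (by omega)) hk
  · refine Finset.sum_eq_zero fun n hn => ?_
    have := Finset.mem_range.1 hn
    rw [if_neg (by omega), smul_zero]

lemma PS_poly (N : ℕ) (h : H) : PS N h ∈ Poly :=
  ⟨mem_H2.2 fun n hn => by rw [co_PS, if_neg (by omega)], N, fun n hn => by
    rw [co_PS, if_neg (by omega)]⟩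

lemma PS_tendsto {h : H} (hh : h ∈ H2) : Tendsto (fun N => PS N h) atTop (𝓝 h) := by
  have h1 := hasSum_fourier_series_L2 h
  simp_rw [← co_eq] at h1
  have h2 := (Nat.cast_injective (R := ℤ)).hasSum_iff (f := fun i => co i h • fourierLp (T := 1) 2 i)
    (a := h) (fun n hn => by
      have : n < 0 := by
        by_contra h0
        exact hn ⟨n.toNat, by omega⟩
      rw [mem_H2.1 hh n this, zero_smul])
  exact (h2.2 h1).tendsto_sum_nat

lemma exists_f : ∃ S : XS →L[ℂ] XS, ∀ x, (S x).1.1 = Tp f_bd x.1.1 := by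
  obtain ⟨S, h, -⟩ := exists_op (Tp f_bd) (C := 7) (by norm_num) (fun g _ => P_mem _)
    (fun g => by linarith [norm_Tp_le f_bd norm_f g, norm_nonneg g]) (fun g hg D hD s K => by
      simp_rw [pr_Tp]
      refine (sum_f s hg _ (by positivity) fun k _ => pr_ζf_le k s g).trans ?_
      rw [Finset.sum_add_distrib, ← Finset.sum_mul, ← Finset.mul_sum, ← Finset.mul_sum]
      have h1 := hD s K
      have hD0 : 0 ≤ D := by simpa using hD 0 0
      have h2 := mul_le_mul_of_nonneg_right (sum_geometric_two_le K) (norm_nonneg g)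
      linarith) (by
      intro p hp y hy h
      refine mem_of_tail hy fun ε hε => ?_
      obtain ⟨K0, hK0⟩ := poly_van hp
      have t1 : Tendsto (fun K => ‖y.1 - PS (nN K) y.1‖) atTop (𝓝 0) := by
        have := ((PS_tendsto hy.1).comp (tendsto_atTop_mono nN_ge tendsto_id)).const_sub y.1
        rw [sub_self] at this
        simpa using this.norm
      have t2 : Tendsto (fun K : ℕ => 4 * (1 / 2 : ℝ) ^ K * ‖p‖) atTop (𝓝 0) := by
        have := ((tendsto_pow_atTop_nhds_zero_of_lt_one (by norm_num : (0 : ℝ) ≤ 1 / 2)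
          (by norm_num)).const_mul 4).mul_const ‖p‖
        simpa using this
      obtain ⟨K, ⟨a1, a2⟩, a3⟩ := (((t1.eventually_lt_const (by linarith : 0 < ε / 4)).and
        (t2.eventually_lt_const (by linarith : 0 < ε / 2))).and (eventually_ge_atTop K0)).exists
      refine ⟨PS (nN K) y.1, PS_poly _ _, by linarith, fun s K' => ?_⟩
      have b1 : ∀ k, k < K → pr (ζ k s) (y.1 - PS (nN K) y.1) = 0 := by
        intro k hk
        refine (ζ_FS k s).pr_zero fun n h1 h2 => ?_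
        have := nN_mono (show k + 1 ≤ K from hk)
        rw [map_sub, co_PS, if_pos (by omega), sub_self]
      have b2 : ∀ k, K ≤ k → pr (ζ k s) (y.1 - PS (nN K) y.1) =
          pr (fun x => ζ k s x * f x) p := by
        intro k hk
        rw [← pr_Tp f_bd, ← h]
        refine (ζ_FS k s).pr_eq fun n h1 h2 => ?_
        have := nN_mono hk
        rw [map_sub, co_PS, if_neg (by omega), sub_zero]
      have b3 : ∑ k ∈ range K', ‖pr (ζ k s) (y.1 - PS (nN K) y.1)‖ ≤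
          ∑ k ∈ Ico K K', ‖pr (fun x => ζ k s x * f x) p‖ := by
        rw [← Finset.sum_congr rfl fun k hk => congrArg norm (b2 k (Finset.mem_Ico.1 hk).1)]
        refine sum_le_of_ne_zero (fun _ => norm_nonneg _) fun k hk h0 =>
          Finset.mem_Ico.2 ⟨?_, Finset.mem_range.1 hk⟩
        by_contra h'
        exact h0 (by rw [b1 k (not_le.1 h'), norm_zero])
      refine b3.trans ((sum_f s hp.1 _ (X := 2 * ‖y.1 - PS (nN K) y.1‖) (by positivity)
        fun k hk => ?_).trans ?_)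
      · rw [← b2 k (Finset.mem_Ico.1 hk).1]; exact pr_ζ_le _ _ _
      · have b4 : ∑ k ∈ Ico K K', (3 / 2 * ‖pr (ζ k s) p‖ + 2 * (1 / 2) ^ k * ‖p‖) =
            2 * (∑ k ∈ Ico K K', (1 / 2 : ℝ) ^ k) * ‖p‖ := by
          rw [Finset.mul_sum, Finset.sum_mul]
          refine Finset.sum_congr rfl fun k hk => ?_
          rw [hK0 k (a3.trans (Finset.mem_Ico.1 hk).1) s]; simp
        have b5 : ∑ k ∈ Ico K K', (1 / 2 : ℝ) ^ k ≤ 2 * (1 / 2) ^ K := by
          rw [Finset.sum_Ico_eq_sum_range]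
          simp_rw [pow_add]
          rw [← Finset.mul_sum, mul_comm]
          exact mul_le_mul_of_nonneg_right (sum_geometric_two_le _) (by positivity)
        rw [b4]
        nlinarith [mul_le_mul_of_nonneg_right b5 (norm_nonneg p)])
  exact ⟨S, h⟩

end Pool.Agent.H1.Toe
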