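import Pool.Agent.H1.ToeD

namespace Pool.Agent.H1.Toe

open MeasureTheory Finset Filter Topology Metric
open scoped ENNReal NNReal ComplexConjugate InnerProductSpace

noncomputable def gK (K : ℕ) : H := ∑ j ∈ range K, bH j (θ j + 0)

lemma gK_poly (K : ℕ) : gK K ∈ Poly :=
  Poly.sum_mem fun j _ => ⟨mem_H2.2 fun n hn => co_bH _ _ _ (Or.inl (by omega)), 2 * nN j,
    fun n hn => co_bH _ _ _ (Or.inr (by exact_mod_cast hn))⟩

lemma pr_gK {U : T → ℂ} (h : Bd U) (K : ℕ) :
    pr U (gK K) = ∑ j ∈ range K, pr U (bH j (θ j + 0)) := by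
  rw [← prL_apply h, gK, map_sum]; simp_rw [prL_apply]

lemma two_nN {j k : ℕ} (h : j < k) : 2 * nN j ≤ nN k := by
  have h1 := nN_step j
  have h2 := nN_mono (show j + 1 ≤ k from h)
  nlinarith

lemma gK_NB (K : ℕ) : NB (gK K) 0 := by
  intro s K'
  refine le_of_eq (Finset.sum_eq_zero fun k _ => ?_)
  rw [pr_gK (ζ_bd k s), Finset.sum_eq_zero, norm_zero]
  intro j _
  refine (ζ_FS k s).pr_zero fun n h1 h2 => co_bH _ _ _ ?_
  rcases le_or_gt j k with h | h
  · right; have := nN_mono h; omega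
  · left; have := nN_mono (show k + 1 ≤ j from h); omega

lemma norm_gK (K : ℕ) : ‖gK K‖ ^ 2 = K := by
  have h : ⟪gK K, gK K⟫_ℂ = K := by
    conv_lhs => rw [gK, sum_inner]
    have : ∀ j ∈ range K, ⟪bH j (θ j + 0), ∑ k ∈ range K, bH k (θ k + 0)⟫_ℂ = 1 := by
      intro j hj
      rw [inner_sum, Finset.sum_eq_single j, inner_bH]
      · intro k _ hk
        rw [inner_eq_pr (bH_ae _ _)]
        refine (Db_FS j _).pr_zero fun n h1 h2 => co_bH _ _ _ ?_
        rcases lt_or_gt_of_ne hk with h | h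
        · right; have := two_nN h; omega
        · left; have := two_nN h; omega
      · intro h; exact absurd hj h
    rw [Finset.sum_congr rfl this]; simp
  rw [@norm_sq_eq_re_inner ℂ, h]; simp

lemma sum_inv_a (K : ℕ) : ∑ j ∈ range K, 1 / a j ≤ 1 / 50 := by
  refine (Finset.sum_le_sum fun j _ => inv_a_le j).trans ?_
  rw [← Finset.sum_div]
  linarith [sum_geometric_two_le K]

lemma not_sq (S : XS →L[ℂ] XS) (h : ∀ x : XS, x.1.1 ∈ Poly → ∀ n : ℕ,
    co n (S x).1.1 = co n (Mul (f_bd.mul f_bd) x.1.1)) : False := by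
  have key : ∀ K : ℕ, 8 / 25 * (K : ℝ) - 2 ≤ ‖S‖ * ‖gK K‖ := by
    intro K
    obtain ⟨y, hy, hy1, hy2⟩ := exists_lift (gK_poly K).1 (gK_NB K)
    let x : XS := ⟨y, mem_of_poly hy (hy1 ▸ gK_poly K)⟩
    have hx : ‖x‖ ≤ ‖gK K‖ := by
      show ‖y‖ ≤ _
      rw [Prod.norm_def, hy1]
      exact max_le le_rfl (hy2.trans (norm_nonneg _))
    have h1 := NB_of_G (XS_le (S x).2) 0 K
    have h2 : ‖(S x).1.2‖ ≤ ‖S‖ * ‖gK K‖ :=
      ((norm_snd_le (S x).1).trans (S.le_opNorm x)).trans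
        (mul_le_mul_of_nonneg_left hx (norm_nonneg _))
    have h3 : ∀ k ∈ range K, 1 / 2 - (1 / 2) ^ k - 9 / 2 * (K * (1 / a k) + 1 / 50) ≤
        ‖pr (ζ k 0) (S x).1.1‖ := by
      intro k hk
      have e : pr (ζ k 0) (S x).1.1 = pr (fun t => ζ k 0 t * (f t * f t)) (gK K) := by
        rw [← pr_Mul (f_bd.mul f_bd), ← hy1]
        refine (ζ_FS k 0).pr_eq fun n h1 _ => ?_
        obtain ⟨m, rfl⟩ := Int.eq_ofNat_of_zero_le (show 0 ≤ n by omega)
        exact h x (hy1 ▸ gK_poly K) m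
      rw [e, pr_gK ((ζ_bd k 0).mul (f_bd.mul f_bd)), ← Finset.add_sum_erase _ _ hk]
      have a1 := sq_main k
      have a2 : ‖∑ j ∈ (range K).erase k, pr (fun t => ζ k 0 t * (f t * f t)) (bH j (θ j + 0))‖ ≤
          9 / 2 * (K * (1 / a k) + 1 / 50) := by
        refine (norm_sum_le _ _).trans ((Finset.sum_le_sum fun j hj =>
          sq_cross (Finset.mem_erase.1 hj).1).trans ?_)
        refine (Finset.sum_le_sum_of_subset_of_nonneg (Finset.erase_subset _ _) fun j _ _ => by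
          have := a_pos j; have := a_pos k; positivity).trans ?_
        rw [← Finset.mul_sum, Finset.sum_add_distrib, Finset.sum_const, Finset.card_range, nsmul_eq_mul]
        linarith [sum_inv_a K]
      set u := pr (fun t => ζ k 0 t * (f t * f t)) (bH k (θ k + 0))
      set v := ∑ j ∈ (range K).erase k, pr (fun t => ζ k 0 t * (f t * f t)) (bH j (θ j + 0))
      have a3 : ‖(1 / 2 : ℂ)‖ ≤ ‖u + v‖ + ‖u - 1 / 2‖ + ‖v‖ := by
        rw [show (1 / 2 : ℂ) = (u + v) - (u - 1 / 2) - v by ring]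
        refine (norm_sub_le _ _).trans (add_le_add_left ((norm_sub_le _ _).trans (le_of_eq ?_)) _)
        congr 2; ring
      have a4 : ‖(1 / 2 : ℂ)‖ = 1 / 2 := by simp
      linarith
    have h4 := Finset.sum_le_sum h3
    rw [Finset.sum_sub_distrib, Finset.sum_sub_distrib, ← Finset.mul_sum, Finset.sum_add_distrib,
      ← Finset.mul_sum, Finset.sum_const, Finset.sum_const, Finset.card_range, nsmul_eq_mul,
      nsmul_eq_mul] at h4
    have h5 := mul_le_mul_of_nonneg_left (sum_inv_a K) (Nat.cast_nonneg K)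
    linarith [sum_geometric_two_le K]
  obtain ⟨m, hm⟩ := exists_nat_gt (25 / 8 * (‖S‖ + 2))
  have h1 := key (m ^ 2)
  have h2 := norm_gK (m ^ 2)
  push_cast at h1 h2
  have h3 : ‖gK (m ^ 2)‖ = m := (pow_left_inj₀ (norm_nonneg _) (Nat.cast_nonneg m) (by norm_num)).1 h2
  rw [h3] at h1
  have h0 := norm_nonneg S
  nlinarith

lemma spec_one {𝔸 : Type*} [NormedRing 𝔸] [NormedAlgebra ℂ 𝔸] [CompleteSpace 𝔸] (b : 𝔸)
    (h1 : ∀ n : ℕ, ‖b ^ n‖ ≤ 2 * (n + 1)) (h2 : ∀ n : ℕ, 1 ≤ 2 * (n + 1) * ‖b ^ n‖) :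
    spectralRadius ℂ b = 1 := by
  have t1 : Tendsto (fun n : ℕ => (2 * ((n : ℝ) + 1)) ^ (1 / (n : ℝ))) atTop (𝓝 1) := by
    have a1 : Tendsto (fun n : ℕ => 2 * ((n : ℝ) + 1)) atTop atTop :=
      (tendsto_atTop_add_const_right _ 1 tendsto_natCast_atTop_atTop).const_mul_atTop (by norm_num)
    refine ((tendsto_rpow_div_mul_add 1 (1 / 2) (-1) (by norm_num)).comp a1).congr fun n => ?_
    simp only [Function.comp]
    congr 2; ring
  have t2 : Tendsto (fun n : ℕ => ‖b ^ n‖ ^ (1 / (n : ℝ))) atTop (𝓝 1) := by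
    have t3 := t1.inv₀ one_ne_zero
    rw [inv_one] at t3
    refine tendsto_of_tendsto_of_tendsto_of_le_of_le t3 t1 (fun n => ?_) (fun n => ?_)
    · rw [← Real.inv_rpow (by positivity)]
      refine Real.rpow_le_rpow (by positivity) ?_ (by positivity)
      rw [inv_le_iff_one_le_mul₀' (by positivity)]; exact h2 n
    · exact Real.rpow_le_rpow (norm_nonneg _) (h1 n) (by positivity)
  have t4 := ENNReal.tendsto_ofReal t2
  rw [ENNReal.ofReal_one] at t4
  exact tendsto_nhds_unique (spectrum.pow_norm_pow_one_div_tendsto_nhds_spectralRadius b) t4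

lemma XS_co_ext {x y : XS} (h : ∀ n : ℕ, co n x.1.1 = co n y.1.1) : x = y := by
  refine XS_ext (co_ext fun n => ?_)
  rcases le_or_gt 0 n with hn | hn
  · obtain ⟨m, rfl⟩ := Int.eq_ofNat_of_zero_le hn; exact h m
  · rw [mem_H2.1 (XS_le x.2).1 n hn, mem_H2.1 (XS_le y.2).1 n hn]

noncomputable def Fm (m : ℤ) : XS →L[ℂ] XS := (exists_four m).choose

lemma co_Fm (m : ℤ) (x : XS) (n : ℤ) :
    co n (Fm m x).1.1 = if 0 ≤ n then co (n - m) x.1.1 else 0 := by
  rw [Fm, (exists_four m).choose_spec.1, co_Tp_four]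

lemma norm_Fm (m : ℤ) : ‖Fm m‖ ≤ 2 * (|(m : ℝ)| + 1) := (exists_four m).choose_spec.2

lemma Fm_pow (n : ℕ) : Fm 1 ^ n = Fm n := by
  induction n with
  | zero => ext1 x; exact XS_co_ext fun n => by rw [co_Fm, if_pos (by omega)]; simp
  | succ n ih =>
    ext1 x
    refine XS_co_ext fun j => ?_
    rw [pow_succ', ih, mul_apply_eq_comp, co_Fm, co_Fm, co_Fm, if_pos (by omega),
      if_pos (by omega : (0 : ℤ) ≤ j)]
    split_ifs with h
    · rw [show (j : ℤ) - 1 - n = j - (n + 1 : ℕ) by push_cast; ring]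
    · exact (mem_H2.1 (XS_le x.2).1 _ (by push_cast; omega)).symm

lemma Fm_neg_pow (n : ℕ) : Fm (-1) ^ n = Fm (-n) := by
  induction n with
  | zero => ext1 x; exact XS_co_ext fun n => by rw [co_Fm, if_pos (by omega)]; simp
  | succ n ih =>
    ext1 x
    refine XS_co_ext fun j => ?_
    rw [pow_succ', ih, mul_apply_eq_comp, co_Fm, co_Fm, co_Fm, if_pos (by omega),
      if_pos (by omega), if_pos (by omega),
      show (j : ℤ) - -1 - -n = j - -(n + 1 : ℕ) by push_cast; ring]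

lemma Fm_mul (n : ℕ) : Fm (-n) * Fm n = 1 := by
  ext1 x
  refine XS_co_ext fun j => ?_
  rw [mul_apply_eq_comp, co_Fm, co_Fm, if_pos (by omega), if_pos (by omega),
    show (j : ℤ) - -n - n = j by ring]
  rfl

lemma one_le_Fm (n : ℕ) : 1 ≤ ‖Fm (-n)‖ * ‖Fm n‖ := by
  obtain ⟨x, hx, -⟩ := exists_poly (gK_poly 1)
  have hx0 : 0 < ‖x‖ := by
    have h1 := norm_gK 1
    have h2 : ‖x.1.1‖ ≤ ‖x‖ := norm_fst_le x.1
    rw [hx] at h2
    have h3 : ‖gK 1‖ ≠ 0 := by
      intro h; rw [h] at h1; norm_num at h1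
    exact lt_of_lt_of_le (lt_of_le_of_ne (norm_nonneg _) h3.symm) h2
  have h1 : Fm (-n) (Fm n x) = x := by rw [← mul_apply_eq_comp, Fm_mul]; rfl
  have h2 := ((Fm (-n)).le_opNorm (Fm n x)).trans
    (mul_le_mul_of_nonneg_left ((Fm n).le_opNorm x) (norm_nonneg _))
  rw [h1, ← mul_assoc] at h2
  exact le_of_mul_le_mul_right (by linarith) hx0

lemma norm_Fm1 (n : ℕ) : ‖Fm n‖ ≤ 2 * (n + 1) := by simpa using norm_Fm n
lemma norm_Fm2 (n : ℕ) : ‖Fm (-n)‖ ≤ 2 * (n + 1) := by simpa using norm_Fm (-n)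

lemma spec_one' {X : Type} [NormedAddCommGroup X] [NormedSpace ℂ X] [CompleteSpace X]
    (b : X →L[ℂ] X) (h1 : ∀ n : ℕ, ‖b ^ n‖ ≤ 2 * (n + 1))
    (h2 : ∀ n : ℕ, 1 ≤ 2 * (n + 1) * ‖b ^ n‖) : spectralRadius ℂ b = 1 := spec_one b h1 h2

lemma spec_S : spectralRadius ℂ (Fm 1) = 1 := by
  refine spec_one' _ (fun n => ?_) fun n => ?_
  · rw [Fm_pow]; exact norm_Fm1 n
  · rw [Fm_pow]; exact (one_le_Fm n).trans (mul_le_mul_of_nonneg_right (norm_Fm2 n)
      (ContinuousLinearMap.opNorm_nonneg _))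

lemma spec_R : spectralRadius ℂ (Fm (-1)) = 1 := by
  refine spec_one' _ (fun n => ?_) fun n => ?_
  · rw [Fm_neg_pow]; exact norm_Fm2 n
  · rw [Fm_neg_pow, mul_comm]
    exact (one_le_Fm n).trans (mul_le_mul_of_nonneg_left (norm_Fm1 n)
      (ContinuousLinearMap.opNorm_nonneg _))

lemma summ (h : H) {z : ℂ} (hz : ‖z‖ < 1) : Summable fun n : ℕ => co n h * z ^ n :=
  Summable.of_norm_bounded ((summable_geometric_of_lt_one (norm_nonneg z) hz).mul_left ‖h‖)
    fun n => by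
      rw [norm_mul, norm_pow]
      exact mul_le_mul_of_nonneg_right (norm_co_le _ _) (by positivity)

open Classical in
/-- the analytic function attached to an element of the space -/
noncomputable def iota : XS →ₗ[ℂ] (ℂ → ℂ) where
  toFun x z := if ‖z‖ < 1 then ∑' n : ℕ, co n x.1.1 * z ^ n else 0
  map_add' x y := by
    funext z
    simp only [Pi.add_apply]
    split_ifs with hz
    · rw [← (summ _ hz).tsum_add (summ _ hz)]
      simp [add_mul]
    · simp
  map_smul' c x := by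
    funext z
    simp only [Pi.smul_apply, RingHom.id_apply, smul_eq_mul]
    split_ifs with hz
    · rw [← tsum_mul_left]
      simp [mul_assoc]
    · simp

lemma iota_hasSum (x : XS) {z : ℂ} (hz : z ∈ ball (0 : ℂ) 1) :
    HasSum (fun n : ℕ => co n x.1.1 * z ^ n) (iota x z) := by
  have hz' : ‖z‖ < 1 := by simpa using hz
  show HasSum _ (if ‖z‖ < 1 then _ else _)
  rw [if_pos hz']
  exact (summ _ hz').hasSum

lemma coef_unique {c d : ℕ → ℂ} {F : ℂ → ℂ}
    (hc : ∀ z ∈ ball (0 : ℂ) 1, HasSum (fun n => c n * z ^ n) (F z))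
    (hd : ∀ z ∈ ball (0 : ℂ) 1, HasSum (fun n => d n * z ^ n) (F z)) : c = d := by
  have key : ∀ c : ℕ → ℂ, (∀ z ∈ ball (0 : ℂ) 1, HasSum (fun n => c n * z ^ n) (F z)) →
      HasFPowerSeriesAt F (FormalMultilinearSeries.ofScalars ℂ c) 0 := by
    intro c hc
    rw [hasFPowerSeriesAt_iff]
    filter_upwards [ball_mem_nhds (0 : ℂ) one_pos] with z hz
    simpa [mul_comm] using hc z hz
  exact FormalMultilinearSeries.ofScalars_series_injective ℂ ℂ
    ((key c hc).eq_formalMultilinearSeries (key d hd))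

lemma iota_diff (x : XS) : DifferentiableOn ℂ (iota x) (ball 0 1) := by
  intro z hz
  have hz' : ‖z‖ < 1 := by simpa using hz
  obtain ⟨r, hr1, hr2⟩ := exists_between hz'
  have hr0 : 0 ≤ r := (norm_nonneg z).trans hr1.le
  have h := Complex.differentiableOn_tsum_of_summable_norm (U := ball (0 : ℂ) r)
    (F := fun (n : ℕ) w => co n x.1.1 * w ^ n)
    ((summable_geometric_of_lt_one hr0 hr2).mul_left ‖x.1.1‖) (fun n => by fun_prop) isOpen_ball
    (fun n w hw => by
      have : ‖w‖ ≤ r := by simpa using (mem_ball.1 hw).le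
      rw [norm_mul, norm_pow]
      exact mul_le_mul (norm_co_le _ _) (pow_le_pow_left₀ (norm_nonneg _) this n) (by positivity)
        (norm_nonneg _))
  have hm : ball (0 : ℂ) r ∈ 𝓝 z := isOpen_ball.mem_nhds (by simpa using hr1)
  refine ((h.differentiableAt hm).congr_of_eventuallyEq ?_).differentiableWithinAt
  filter_upwards [hm] with w hw
  exact (iota_hasSum x (ball_subset_ball hr2.le hw)).tsum_eq.symm

lemma iota_cont {z : ℂ} (hz : z ∈ ball (0 : ℂ) 1) : Continuous fun x : XS => iota x z := by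
  have hz' : ‖z‖ < 1 := by simpa using hz
  refine (((LinearMap.proj z).comp iota).mkContinuous (1 - ‖z‖)⁻¹ fun x => ?_).continuous
  have h1 := (hasSum_geometric_of_lt_one (norm_nonneg z) hz').mul_left ‖x‖
  rw [mul_comm]
  refine (iota_hasSum x hz).norm_le_of_bounded h1 fun n => ?_
  rw [norm_mul, norm_pow]
  exact mul_le_mul_of_nonneg_right ((norm_co_le _ _).trans (norm_fst_le x.1)) (by positivity)

lemma poly_hasSum (p : Polynomial ℂ) (z : ℂ) : HasSum (fun n => p.coeff n * z ^ n) (p.eval z) := by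
  rw [Polynomial.eval_eq_sum_range]
  refine hasSum_sum_of_ne_finset_zero fun n hn => ?_
  rw [Polynomial.coeff_eq_zero_of_natDegree_lt (by simpa using hn), zero_mul]

noncomputable def pH (p : Polynomial ℂ) : H :=
  ∑ n ∈ range (p.natDegree + 1), p.coeff n • fourierLp 2 n

lemma co_pH (p : Polynomial ℂ) (m : ℕ) : co m (pH p) = p.coeff m := by
  rw [pH, map_sum]
  simp_rw [map_smul, co_e]
  rw [Finset.sum_eq_single m]
  · simp
  · intro b _ hb; rw [if_neg (by omega), smul_zero]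
  · intro hm
    rw [Polynomial.coeff_eq_zero_of_natDegree_lt (by simpa using hm), zero_smul]

lemma pH_poly (p : Polynomial ℂ) : pH p ∈ Poly :=
  Poly.sum_mem fun n _ => Poly.smul_mem _ ⟨e_mem (by omega), n + 1, fun m hm => by
    rw [co_e, if_neg (by omega)]⟩

lemma pH_ae (p : Polynomial ℂ) : pH p =ᵐ[μ] fun t => p.eval (fourier 1 t) := by
  have h1 : ∀ i : ℕ, ∀ᵐ x ∂μ, (p.coeff i • (fourierLp 2 (i : ℤ) : H)) x =
      p.coeff i * fourier 1 x ^ i := by
    intro i
    filter_upwards [Lp.coeFn_smul (p.coeff i) (fourierLp 2 (i : ℤ) : H),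
      coeFn_fourierLp (T := 1) 2 (i : ℤ)] with x h1 h2
    rw [h1, Pi.smul_apply, h2, fourier_pow, mul_one, smul_eq_mul]
  filter_upwards [Lp.coeFn_finsetSum (range (p.natDegree + 1)) (fun i : ℕ =>
    p.coeff i • (fourierLp 2 (i : ℤ) : H)), ae_all_iff.2 h1] with x hx hy
  rw [pH, hx, Finset.sum_apply, Polynomial.eval_eq_sum_range]
  exact Finset.sum_congr rfl fun i _ => hy i

lemma eq_pH {x : XS} {p : Polynomial ℂ} (h : ∀ z ∈ ball (0 : ℂ) 1, iota x z = p.eval z) :
    x.1.1 = pH p := by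
  have h1 := coef_unique (fun z hz => iota_hasSum x hz) (fun z hz => h z hz ▸ poly_hasSum p z)
  obtain ⟨y, hy, -⟩ := exists_poly (pH_poly p)
  rw [← hy, XS_co_ext (x := x) (y := y) fun n => by rw [hy, co_pH]; exact congrFun h1 n]

lemma iota_pH {x : XS} {p : Polynomial ℂ} (h : x.1.1 = pH p) :
    ∀ z ∈ ball (0 : ℂ) 1, iota x z = p.eval z := fun z hz => by
  refine (iota_hasSum x hz).unique ?_
  simp_rw [h, co_pH]
  exact poly_hasSum p z

lemma poly_pH {h : H} (hh : h ∈ Poly) : ∃ p, h = pH p := by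
  obtain ⟨N, hN⟩ := hh.2
  refine ⟨∑ n ∈ range N, Polynomial.monomial n (co n h), co_ext fun n => ?_⟩
  rcases le_or_gt 0 n with hn | hn
  · obtain ⟨m, rfl⟩ := Int.eq_ofNat_of_zero_le hn
    rw [co_pH, Polynomial.finsetSum_coeff]
    simp_rw [Polynomial.coeff_monomial]
    rw [Finset.sum_ite_eq']
    split_ifs with hm
    · rfl
    · exact hN _ (by have : N ≤ m := by simpa using hm
                     omega)
  · rw [mem_H2.1 hh.1 n hn, mem_H2.1 (pH_poly _).1 n hn]

lemma co_Mul_pH {U : T → ℂ} (hU : Bd U) (p : Polynomial ℂ) (n : ℤ) :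
    co n (Mul hU (pH p)) = fourierCoeff (fun t => U t * p.eval (fourier 1 t)) n := by
  rw [co_eq]
  refine congrFun (fourierCoeff_congr_ae ?_) n
  filter_upwards [Mul_ae hU (pH p), pH_ae p] with x h1 h2
  rw [h1, h2]

end Pool.Agent.H1.Toe
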