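import Mathlib

namespace Pool.Agent.H1.Uc

open MeasureTheory Set

abbrev E := EuclideanSpace ℝ (Fin 3)

noncomputable def p (t : ℝ) : ℝ := min (max t 0) 1
noncomputable def p1 (t : ℝ) : ℝ := ∫ s in (0 : ℝ)..t, p s
noncomputable def p2 (t : ℝ) : ℝ := ∫ s in (0 : ℝ)..t, p1 s

lemma p_cont : Continuous p := by unfold p; fun_prop
lemma p_mem (t : ℝ) : 0 ≤ p t ∧ p t ≤ 1 := ⟨le_min (le_max_right _ _) zero_le_one, min_le_right _ _⟩
lemma p_lip (s t : ℝ) : |p s - p t| ≤ |s - t| :=
  (abs_min_sub_min_le_max _ _ _ _).trans (by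
    simpa using abs_max_sub_max_le_abs s t 0)
lemma p1_deriv (t : ℝ) : HasDerivAt p1 (p t) t := (p_cont.integral_hasStrictDerivAt 0 t).hasDerivAt
lemma p1_cont : Continuous p1 := continuous_iff_continuousAt.2 fun t => (p1_deriv t).continuousAt
lemma p2_deriv (t : ℝ) : HasDerivAt p2 (p1 t) t := (p1_cont.integral_hasStrictDerivAt 0 t).hasDerivAt

lemma int_zero {h : ℝ → ℝ} (hh : ∀ t ≤ 0, h t = 0) {t : ℝ} (ht : t ≤ 0) :
    ∫ s in (0 : ℝ)..t, h s = 0 := by
  rw [intervalIntegral.integral_congr (g := fun _ => 0)]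
  · simp
  · intro s hs
    rw [uIcc_of_ge ht] at hs
    exact hh s hs.2

lemma p2_zero {t : ℝ} (ht : t ≤ 0) : p2 t = 0 :=
  int_zero (fun _ => int_zero fun s hs => by simp [p, max_eq_right hs]) ht

lemma p2_one : 0 < p2 1 := by
  apply intervalIntegral.intervalIntegral_pos_of_pos_on (p1_cont.intervalIntegrable _ _) _ one_pos
  intro x hx
  apply intervalIntegral.intervalIntegral_pos_of_pos_on (p_cont.intervalIntegrable _ _) _ hx.1
  intro s hs
  exact lt_min (lt_max_of_lt_left hs.1) one_pos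

lemma p2_C1 : ContDiff ℝ 1 p2 := by
  rw [contDiff_one_iff_deriv]
  refine ⟨fun t => (p2_deriv t).differentiableAt, ?_⟩
  have : deriv p2 = p1 := funext fun t => (p2_deriv t).deriv
  rw [this]; exact p1_cont

noncomputable def A (x : E) : Matrix (Fin 3) (Fin 3) ℝ :=
  !![1, 0, 0; 0, 1, -(p (x 0)) / 2; 0, -(p (x 0)) / 2, 1]

noncomputable def u (x : E) : ℝ := x 2
noncomputable def v (x : E) : ℝ := x 1 * x 2 + p2 (x 0)

lemma u_fderiv (x : E) : fderiv ℝ u x = EuclideanSpace.proj (𝕜 := ℝ) (2 : Fin 3) :=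
  (EuclideanSpace.proj (𝕜 := ℝ) (2 : Fin 3)).hasFDerivAt.fderiv

lemma v_fderiv (x e : E) : fderiv ℝ v x e = x 1 * e 2 + x 2 * e 1 + p1 (x 0) * e 0 := by
  have h := fun i : Fin 3 => (EuclideanSpace.proj (𝕜 := ℝ) i).hasFDerivAt (x := x)
  have h2 := (((h 1).fun_mul (h 2)).fun_add ((p2_deriv (x 0)).comp_hasFDerivAt x (h 0))).fderiv
  have e0 : fderiv ℝ v x = _ := h2
  rw [e0]
  simp

lemma weak (X D : Fin 3 → E → ℝ) (hX : ∀ i, Continuous (X i)) (hD : ∀ i, Continuous (D i))
    (hl : ∀ i x, HasLineDerivAt ℝ (X i) (D i x) x (EuclideanSpace.single i 1))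
    (h0 : ∀ x, ∑ i, D i x = 0) (φ : E → ℝ) (hφ : ContDiff ℝ 1 φ) (hK : HasCompactSupport φ) :
    ∫ x, ∑ i, X i x * fderiv ℝ φ x (EuclideanSpace.single i 1) = 0 := by
  have hd : ∀ i : Fin 3, Continuous fun x => fderiv ℝ φ x (EuclideanSpace.single i 1) := fun i =>
    ((hφ.fderiv_right (m := 0) (by norm_num)).clm_apply contDiff_const).continuous
  have I1 : ∀ i, Integrable fun x => X i x * fderiv ℝ φ x (EuclideanSpace.single i 1) := fun i =>
    ((hX i).mul (hd i)).integrable_of_hasCompactSupport (hK.fderiv_apply ℝ _).mul_left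
  have I2 : ∀ i, Integrable fun x => D i x * φ x := fun i =>
    ((hD i).mul hφ.continuous).integrable_of_hasCompactSupport hK.mul_left
  have ibp : ∀ i, ∫ x, X i x * fderiv ℝ φ x (EuclideanSpace.single i 1) = -∫ x, D i x * φ x :=
    fun i => integral_bilinear_hasLineDerivAt_right_eq_neg_left_of_integrable (μ := volume)
      (B := ContinuousLinearMap.mul ℝ ℝ) (I2 i) (I1 i)
      (((hX i).mul hφ.continuous).integrable_of_hasCompactSupport hK.mul_left)
      (fun x _ => hl i x)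
      (fun x _ => ((hφ.differentiable (by norm_num)) x).hasFDerivAt.hasLineDerivAt _)
  rw [integral_finsetSum _ fun i _ => I1 i]
  simp_rw [ibp]
  rw [Finset.sum_neg_distrib, ← integral_finsetSum _ fun i _ => I2 i]
  simp_rw [← Finset.sum_mul, h0]
  simp

lemma weak_u (φ : E → ℝ) (hφ : ContDiff ℝ 1 φ) (hK : HasCompactSupport φ) :
    ∫ x, ∑ i, ∑ j, A x i j * fderiv ℝ u x (EuclideanSpace.single j 1)
      * fderiv ℝ φ x (EuclideanSpace.single i 1) = 0 := by
  have := p_cont
  rw [← weak ![fun _ => 0, fun x => -(p (x 0)) / 2, fun _ => 1] (fun _ _ => 0)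
    (fun i => by fin_cases i <;> simp <;> fun_prop) (fun _ => continuous_const)
    (fun i x => by
      fin_cases i <;> simp [HasLineDerivAt, hasDerivAt_const]) (by simp) φ hφ hK]
  congr 1
  ext x
  simp [Fin.sum_univ_three, A, u_fderiv]

lemma weak_v (φ : E → ℝ) (hφ : ContDiff ℝ 1 φ) (hK : HasCompactSupport φ) :
    ∫ x, ∑ i, ∑ j, A x i j * fderiv ℝ v x (EuclideanSpace.single j 1)
      * fderiv ℝ φ x (EuclideanSpace.single i 1) = 0 := by
  have := p_cont
  have := p1_cont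
  rw [← weak ![fun x => p1 (x 0), fun x => x 2 + -(p (x 0)) / 2 * x 1,
      fun x => -(p (x 0)) / 2 * x 2 + x 1]
    ![fun x => p (x 0), fun x => -(p (x 0)) / 2, fun x => -(p (x 0)) / 2]
    (fun i => by fin_cases i <;> simp <;> fun_prop) (fun i => by fin_cases i <;> simp <;> fun_prop)
    (fun i x => by
      fin_cases i
      · have := (p1_deriv (x 0 + 0)).comp_const_add (x 0) 0
        simpa [HasLineDerivAt] using this
      · have := ((((hasDerivAt_id' (0 : ℝ)).const_add (x 1)).const_mul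
          (-(p (x 0)) / 2)).const_add (x 2))
        simpa [HasLineDerivAt] using this
      · have := ((((hasDerivAt_id' (0 : ℝ)).const_add (x 2)).const_mul
          (-(p (x 0)) / 2)).add_const (x 1))
        simpa [HasLineDerivAt] using this)
    (fun x => by simp [Fin.sum_univ_three]; ring) φ hφ hK]
  congr 1
  ext x
  simp [Fin.sum_univ_three, A, v_fderiv]
  ring

end Pool.Agent.H1.Uc
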