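import Pool.Agent.H1.SlitD

namespace Pool.Agent.H1.Val

open Metric Filter Topology Set Complex Pool.Agent.H1.Slit
open scoped Real

lemma spi {h h' : ℂ → ℂ} {k : ℂ} (hd : ∀ z ∈ ball (0 : ℂ) 1, HasDerivAt h (h' z) z)
    (hp : ∀ z ∈ ball (0 : ℂ) 1, 0 < (k * (1 + z * h' z)).re) :
    InjOn (fun z => z * exp (h z)) (ball 0 1) := fun x hx y hy he => by
  have em : ∀ w : ℂ, w.re < 0 → exp w ∈ ball (0 : ℂ) 1 := fun w hw => by
    rw [mem_ball_zero_iff, norm_exp]; exact Real.exp_lt_one_iff.2 hw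
  have gi := nw (convex_halfSpace_re_lt 0) (g := fun w => k * (w + h (exp w)))
    (fun w hw => (((hasDerivAt_id w).fun_add ((hd _ (em w hw)).comp w (hasDerivAt_exp w))).const_mul
      k).congr_deriv (by rw [mul_comm (h' _)])) fun w hw => hp _ (em w hw)
  simp only at he
  by_cases x0 : x = 0
  · rw [x0, zero_mul, eq_comm, mul_eq_zero] at he
    rw [x0, he.resolve_right (exp_ne_zero _)]
  have y0 : y ≠ 0 := by
    rintro rfl
    rw [zero_mul, mul_eq_zero] at he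
    exact x0 (he.resolve_right (exp_ne_zero _))
  have lre : ∀ z ∈ ball (0 : ℂ) 1, z ≠ 0 → (log z).re < 0 := fun z hz z0 => by
    rw [log_re]; exact Real.log_neg (norm_pos_iff.2 z0) (mem_ball_zero_iff.1 hz)
  obtain ⟨n, hk⟩ := exp_eq_exp_iff_exists_int.1 (show exp (log x + h x) = exp (log y + h y) by
    rw [exp_add, exp_add, exp_log x0, exp_log y0, he])
  have e : exp (log y + n * (2 * π * I)) = y := by
    rw [exp_add, exp_log y0, exp_int_mul_two_pi_mul_I, mul_one]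
  have := gi (x₁ := log x) (x₂ := log y + n * (2 * π * I)) (lre x hx x0)
    (by simpa using lre y hy y0) (by simp only [e, exp_log x0, hk]; ring)
  rw [← exp_log x0, this, e]

noncomputable def U (δ : ℝ) (z : ℂ) : ℂ := -(1 - z) * (1 - cos (δ * log (1 - z)))
noncomputable def q (δ : ℝ) (z : ℂ) : ℂ := 1 - cos (δ * log (1 - z)) + δ * sin (δ * log (1 - z))

lemma pos {z : ℂ} (hz : z ∈ ball (0 : ℂ) 1) : 0 < (1 - z).re := by
  simpa using (re_le_norm z).trans_lt (mem_ball_zero_iff.1 hz)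

lemma Ud (δ : ℝ) {z : ℂ} (hz : z ∈ ball (0 : ℂ) 1) : HasDerivAt (U δ) (q δ z) z := by
  have h := (hasDerivAt_id z).const_sub 1
  refine (h.fun_neg.fun_mul (((h.clog (Or.inl (pos hz))).const_mul (δ : ℂ)).ccos.const_sub
    1)).congr_deriv ?_
  have := slitPlane_ne_zero (Or.inl (pos hz))
  simp only [q, id]; field_simp

lemma qb {δ : ℝ} (δ0 : 0 < δ) (δ1 : δ ≤ 1 / 2) {z : ℂ} (hz : z ∈ ball (0 : ℂ) 1) :
    |(q δ z).im| ≤ 8 * δ ∧ |(z * q δ z).im| ≤ 30 * δ := by
  have n := mem_ball_zero_iff.1 hz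
  set s := ‖1 - z‖ with hs
  have s0 : 0 < s := norm_pos_iff.2 (slitPlane_ne_zero (Or.inl (pos hz)))
  have s2 : s ≤ 2 := (norm_sub_le _ _).trans (by simp; linarith)
  set x := δ * Real.log s with hx
  set y := δ * arg (1 - z) with hy
  have y1 : |y| ≤ 2 * δ := by
    rw [hy, abs_mul, abs_of_pos δ0, mul_comm]
    exact mul_le_mul_of_nonneg_right ((abs_arg_le_pi_div_two_iff.2 (pos hz).le).trans
      (by linarith [Real.pi_le_four])) δ0.le
  have e1 := abs_le.1 (Real.abs_exp_sub_one_le (x := y) (by linarith))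
  have e2 := abs_le.1 (Real.abs_exp_sub_one_le (x := -y) (by rw [abs_neg]; linarith))
  rw [abs_neg] at e2
  have sh : |Real.sinh y| ≤ 4 * δ := by rw [Real.sinh_eq, abs_le]; constructor <;> linarith
  have ch : Real.cosh y ≤ 1 + 4 * δ := by rw [Real.cosh_eq]; linarith
  have c1 := Real.one_le_cosh y
  have w : (δ * log (1 - z) : ℂ) = x + y * I := Complex.ext (by simp [hx, log_re, hs])
    (by simp [hy, log_im])
  have qi : (q δ z).im = (Real.sin x + δ * Real.cos x) * Real.sinh y := by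
    rw [q, w, cos_add_mul_I, sin_add_mul_I]; simp [sin_ofReal_re, cos_ofReal_re, sinh_ofReal_re]; ring
  have qr : (q δ z).re = 1 - Real.cos x - Real.cos x * (Real.cosh y - 1) +
      Real.sin x * (δ * Real.cosh y) := by
    rw [q, w, cos_add_mul_I, sin_add_mul_I]; simp [sin_ofReal_re, cos_ofReal_re]; ring
  have a1 := abs_le.1 (Real.abs_sin_le_one x)
  have a2 := abs_le.1 (Real.abs_cos_le_one x)
  have i1 : |(q δ z).im| ≤ 8 * δ := by
    rw [qi, abs_mul]
    refine (mul_le_mul (b := 2) (abs_le.2 ⟨by nlinarith, by nlinarith⟩) sh (abs_nonneg _)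
      two_pos.le).trans (by linarith)
  have i2 : |(q δ z).re| ≤ |x| + 7 * δ := by
    have := abs_le.1 (Real.abs_cos_sub_cos_le 0 x)
    rw [Real.cos_zero, zero_sub, abs_neg] at this
    have t : 0 ≤ δ * Real.cosh y := by positivity
    have t2 : δ * Real.cosh y ≤ 3 * δ := by nlinarith
    rw [qr, abs_le]; constructor <;> nlinarith
  have i3 : s * |x| ≤ 2 * δ := by
    have : |Real.log s| * s ≤ 2 := by
      rcases le_total s 1 with l | l
      · have := Real.abs_log_mul_self_lt s s0 l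
        rw [abs_mul, abs_of_pos s0] at this; linarith
      · rw [abs_of_nonneg (Real.log_nonneg l)]
        nlinarith [Real.log_le_sub_one_of_pos s0]
    rw [hx, abs_mul, abs_of_pos δ0]; nlinarith
  refine ⟨i1, ?_⟩
  have i4 : |z.im| ≤ s := by simpa using abs_im_le_norm (1 - z)
  have i5 := mul_le_mul ((abs_re_le_norm z).trans n.le) i1 (abs_nonneg _) zero_le_one
  have i6 := mul_le_mul i4 i2 (abs_nonneg _) s0.le
  rw [mul_im]
  refine (abs_add_le _ _).trans ?_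
  rw [abs_mul, abs_mul]
  nlinarith

lemma inf {δ : ℝ} (δ0 : 0 < δ) {p : ℂ → Prop} (h : ∀ k : ℕ, ∃ t : ℝ, k < t ∧
    p (1 - Real.exp (-t / δ) : ℝ)) : {z | z ∈ ball (0 : ℂ) 1 ∧ p z}.Infinite := by
  refine ((infinite_of_forall_exists_gt (s := {t : ℝ | 0 < t ∧ p (1 - Real.exp (-t / δ) : ℝ)})
    fun a => ?_).image (f := fun t : ℝ => ((1 - Real.exp (-t / δ) : ℝ) : ℂ)) fun x _ y _ e => by
      simpa [div_left_inj' δ0.ne', -ofReal_exp] using e).mono ?_
  · obtain ⟨k, hk⟩ := exists_nat_gt a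
    obtain ⟨t, h1, h2⟩ := h k
    exact ⟨t, ⟨k.cast_nonneg.trans_lt h1, h2⟩, hk.trans h1⟩
  · rintro _ ⟨t, ⟨h1, h2⟩, rfl⟩
    have := Real.exp_pos (-t / δ)
    have := Real.exp_lt_one_iff.2 (div_neg_of_neg_of_pos (neg_lt_zero.2 h1) δ0)
    exact ⟨by rw [mem_ball_zero_iff, norm_real, Real.norm_eq_abs, abs_lt]; constructor <;> linarith, h2⟩

lemma Ur {δ : ℝ} (δ0 : 0 < δ) (t : ℝ) : U δ (1 - Real.exp (-t / δ) : ℝ) =
    (-Real.exp (-t / δ) * (1 - Real.cos t) : ℝ) := by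
  rw [U, ← ofReal_one, ← ofReal_sub, sub_sub_cancel, ← ofReal_log (Real.exp_pos _).le, Real.log_exp,
    ← ofReal_mul, mul_div_cancel₀ _ δ0.ne']
  simp

def InS (f : ℂ → ℂ) : Prop :=
  DifferentiableOn ℂ f (ball 0 1) ∧ InjOn f (ball 0 1) ∧ f 0 = 0 ∧ deriv f 0 = 1

lemma hp {α c : ℝ} (h0 : 0 < α) (h1 : α < 1) {u : ℂ} (hc : c ≤ α * (1 - α) / 3) (h : |u.im| ≤ c) :
    0 < ((α * (1 - α - I) : ℂ) * (1 + (I * (1 - α) - 1) / α * u)).re ∧ 0 < (1 * (1 + -I * u)).re := by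
  have := ofReal_ne_zero.2 h0.ne'
  have := abs_le.1 h
  rw [show ((α * (1 - α - I) : ℂ) * (1 + (I * (1 - α) - 1) / α * u)) = α * (1 - α - I) +
    (1 - α - I) * (I * (1 - α) - 1) * u by field_simp]
  have p := mul_pos h0 (sub_pos.2 h1)
  have : (1 - α) ^ 2 * u.im ≤ c := by nlinarith [abs_nonneg u.im]
  simp
  constructor <;> nlinarith

lemma arith {α : ℝ} (h0 : 0 < α) (h1 : α < 1) : ∃ f g, InS f ∧ InS g ∧
    {z | z ∈ ball (0 : ℂ) 1 ∧ α * f z + (1 - α) * g z = 1}.Infinite := by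
  have p := mul_pos h0 (sub_pos.2 h1)
  set δ := α * (1 - α) / 24 with hδ
  have δ0 : 0 < δ := by positivity
  have key : ∀ c k : ℂ, (∀ z ∈ ball (0 : ℂ) 1, 0 < (k * (1 + c * q δ z)).re) →
      InS fun z => z + c * U δ z := fun c k h => by
    have d : ∀ z ∈ ball (0 : ℂ) 1, HasDerivAt (fun z => z + c * U δ z) (1 + c * q δ z) z :=
      fun z hz => (hasDerivAt_id z).fun_add ((Ud δ hz).const_mul c)
    exact ⟨fun z hz => (d z hz).differentiableAt.differentiableWithinAt, fun x hx y hy e =>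
      nw (convex_ball 0 1) (fun z hz => (d z hz).const_mul k) h hx hy (congrArg (k * ·) e),
      by simp [U], by rw [(d 0 (by simp)).deriv]; simp [q]⟩
  have b := fun z hz => hp h0 h1 (by linarith) (qb δ0 (by nlinarith) (z := z) hz).1
  refine ⟨_, _, key _ _ fun z hz => (b z hz).1, key _ _ fun z hz => (b z hz).2,
    inf δ0 fun k => ⟨k * π + π / 2, by nlinarith [Real.pi_gt_three, k.cast_nonneg (α := ℝ)], ?_⟩⟩
  have := ofReal_ne_zero.2 h0.ne'
  rw [Ur δ0, Real.cos_add_pi_div_two, Real.sin_nat_mul_pi]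
  push_cast; field_simp; ring

lemma geom {α : ℝ} (h0 : 0 < α) (h1 : α < 1) : ∃ L M : ℂ → ℂ, InS (fun z => z * exp (L z)) ∧
    InS (fun z => z * exp (M z)) ∧ DifferentiableOn ℂ L (ball 0 1) ∧ DifferentiableOn ℂ M (ball 0 1) ∧
    L 0 = 0 ∧ M 0 = 0 ∧ {z | z ∈ ball (0 : ℂ) 1 ∧ z * exp (α * L z + (1 - α) * M z) = 1}.Infinite := by
  have p := mul_pos h0 (sub_pos.2 h1)
  set δ := α * (1 - α) / 180 with hδ
  have δ0 : 0 < δ := by positivity
  have δ1 : δ ≤ 1 / 2 := by nlinarith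
  have d : ∀ c : ℂ, ∀ z ∈ ball (0 : ℂ) 1, HasDerivAt (fun z => c * (2 * U δ z)) (c * (2 * q δ z)) z :=
    fun c z hz => ((Ud δ hz).const_mul 2).const_mul c
  have d' : ∀ c : ℂ, DifferentiableOn ℂ (fun z => c * (2 * U δ z)) (ball 0 1) := fun c z hz =>
    (d c z hz).differentiableAt.differentiableWithinAt
  have key : ∀ c k : ℂ, (∀ z ∈ ball (0 : ℂ) 1, 0 < (k * (1 + c * ((2 : ℝ) * (z * q δ z)))).re) →
      InS fun z => z * exp (c * (2 * U δ z)) := fun c k h =>
    ⟨differentiableOn_id.mul (d' c).cexp, spi (k := k) (d c) fun z hz => (h z hz).trans_eq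
      (by congr 1; push_cast; ring), by simp,
      ((hasDerivAt_id (0 : ℂ)).fun_mul (d c 0 (by simp)).cexp).deriv.trans (by simp [U])⟩
  have b := fun z hz => hp h0 h1 (u := (2 : ℝ) * (z * q δ z)) (c := 60 * δ) (by linarith) (by
    rw [im_ofReal_mul, abs_mul, abs_two]; linarith [(qb δ0 δ1 (z := z) hz).2])
  refine ⟨_, _, key _ _ fun z hz => (b z hz).1, key _ _ fun z hz => (b z hz).2, d' _, d' _,
    by simp [U], by simp [U], inf δ0 fun k => ?_⟩
  have k0 := k.cast_nonneg (α := ℝ)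
  obtain ⟨t, ht, e⟩ := intermediate_value_Ioo (a := k * (2 * π)) (b := k * (2 * π) + π)
    (f := fun t => (1 - Real.exp (-t / δ)) * Real.exp (2 * Real.exp (-t / δ) * (1 - Real.cos t)))
    (by linarith [Real.pi_pos]) (by fun_prop) (show 1 ∈ _ from ⟨by simp [Real.exp_pos], by
      have h2 : 1 ≤ (k * (2 * π) + π) / δ := (one_le_div δ0).2 (by nlinarith [Real.pi_gt_three])
      have h3 := Real.add_one_le_exp ((k * (2 * π) + π) / δ)
      simp only [Real.cos_nat_mul_two_pi_add_pi, neg_div, Real.exp_neg]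
      set s := (Real.exp ((k * (2 * π) + π) / δ))⁻¹
      have s0 : 0 < s := by positivity
      have s1 : s ≤ 2⁻¹ := inv_anti₀ two_pos (by linarith)
      nlinarith [mul_le_mul_of_nonneg_left (Real.add_one_le_exp (2 * s * (1 - -1)))
        (show 0 ≤ 1 - s by linarith)]⟩)
  refine ⟨t, lt_of_le_of_lt (by nlinarith [Real.pi_gt_three]) ht.1, ?_⟩
  have := ofReal_ne_zero.2 h0.ne'
  refine Eq.trans ?_ ((congrArg ofReal e).trans ofReal_one)
  rw [Ur δ0, ofReal_mul (1 - _), ofReal_exp (2 * _ * _)]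
  congr 2; push_cast; field_simp; ring

end Pool.Agent.H1.Val
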