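import Mathlib

namespace Pool.Agent.H1.Visc

open Set Filter Topology Metric

noncomputable def g (y : ℝ) : ℝ := min (√y) 1 - min (√(-y)) 1

lemma g_cont : Continuous g := by unfold g; fun_prop

lemma g_neg (y : ℝ) : g (-y) = -g y := by simp [g]

lemma g_abs (y : ℝ) : |g y| ≤ 1 := by
  have h1 : 0 ≤ min (√y) 1 := le_min (Real.sqrt_nonneg _) zero_le_one
  have h2 : 0 ≤ min (√(-y)) 1 := le_min (Real.sqrt_nonneg _) zero_le_one
  have h3 := min_le_right (√y) 1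
  have h4 := min_le_right (√(-y)) 1
  unfold g; rw [abs_le]; constructor <;> linarith

lemma g_gt {y t : ℝ} (h0 : 0 ≤ t) (h1 : t ≤ 1) (hy : (1 - t) ^ 2 / 16 < y) : (1 - t) / 8 < g y := by
  have hy0 : 0 < y := lt_of_le_of_lt (by positivity) hy
  have h2 : √(-y) = 0 := Real.sqrt_eq_zero_of_nonpos (by linarith)
  have h3 : (1 - t) / 8 < √y := Real.lt_sqrt_of_sq_lt (by nlinarith [sq_nonneg (1 - t)])
  unfold g
  rw [h2, min_eq_left zero_le_one, sub_zero]
  exact lt_min h3 (by linarith)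

lemma key {E : Type} [NormedAddCommGroup E] [InnerProductSpace ℝ E] [ProperSpace E]
    (U : ℝ → E → ℝ) (hU : ContinuousOn (fun q : ℝ × E => U q.1 q.2) (Icc 0 1 ×ˢ univ))
    (hs : ∀ φ : ℝ → E → ℝ, ContDiff ℝ ((⊤ : ℕ∞) : WithTop ℕ∞) (fun q : ℝ × E => φ q.1 q.2) →
      ∀ t0 ∈ Ioo (0 : ℝ) 1, ∀ x0 : E,
        IsLocalMin (fun q : ℝ × E => U q.1 q.2 - φ q.1 q.2) (t0, x0) →
          deriv (fun s => φ s x0) t0 + g (U t0 x0) ≤ 0)
    (x0 : E) (hx : 0 < U 1 x0) : 1 / 64 < U (1 / 2) x0 := by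
  by_contra hcon
  set v : ℝ → ℝ := fun t => U t x0 - (1 - t) ^ 2 / 16 with hv
  have hvc : ContinuousOn v (Icc 0 1) := by
    have h1 : ContinuousOn (fun t => U t x0) (Icc 0 1) :=
      hU.comp (f := fun t : ℝ => (t, x0)) (by fun_prop) fun t ht => ⟨ht, trivial⟩
    exact h1.sub (by fun_prop)
  have hsub : Icc (1 / 2 : ℝ) 1 ⊆ Icc 0 1 := Icc_subset_Icc (by norm_num) le_rfl
  have hK : IsCompact (Icc (1 / 2 : ℝ) 1 ∩ v ⁻¹' Iic 0) :=
    isCompact_Icc.of_isClosed_subset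
      ((hvc.mono hsub).preimage_isClosed_of_isClosed isClosed_Icc isClosed_Iic) inter_subset_left
  obtain ⟨a', ⟨ha'I, ha'v⟩, ha'max⟩ := hK.exists_isGreatest ⟨1 / 2, ⟨le_rfl, by norm_num⟩, by
    simp only [mem_preimage, mem_Iic, hv]; norm_num at hcon ⊢; linarith⟩
  have ha'v : v a' ≤ 0 := ha'v
  set β := U 1 x0 with hβ
  have hv1 : v 1 = β := by simp [hv, hβ]
  have ha'1 : a' < 1 := lt_of_le_of_ne ha'I.2 (by rintro rfl; linarith)
  have hpos : ∀ t, a' < t → t ≤ 1 → 0 < v t := by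
    intro t h1 h2
    by_contra h
    exact absurd (ha'max ⟨⟨by linarith [ha'I.1], h2⟩, not_lt.1 h⟩) (not_le.2 h1)
  obtain ⟨b, hb1, hb2, hb3⟩ : ∃ b, a' < b ∧ b < 1 ∧ β / 2 < v b := by
    have h1 : ∀ᶠ t in 𝓝[Icc 0 1] (1 : ℝ), β / 2 < v t :=
      (hvc 1 ⟨zero_le_one, le_rfl⟩).eventually (lt_mem_nhds (by rw [hv1]; linarith))
    have h2 : ∀ᶠ t in 𝓝[<] (1 : ℝ), β / 2 < v t :=
      (nhdsWithin_le_of_mem (Icc_mem_nhdsLT one_pos)) h1
    obtain ⟨b, h3, h4⟩ := (h2.and (Ioo_mem_nhdsLT ha'1)).exists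
    exact ⟨b, h4.1, h4.2, h3⟩
  obtain ⟨a, ha1, ha2, ha3⟩ : ∃ a, a' < a ∧ a < b ∧ v a < β / 4 := by
    have h1 : ∀ᶠ t in 𝓝[Icc 0 1] a', v t < β / 4 :=
      (hvc a' (hsub ha'I)).eventually (gt_mem_nhds (by linarith))
    have h2 : ∀ᶠ t in 𝓝[>] a', v t < β / 4 :=
      (nhdsWithin_le_of_mem (Icc_mem_nhdsGT_of_mem ⟨by linarith [ha'I.1], ha'1⟩)) h1
    obtain ⟨a, h3, h4⟩ := (h2.and (Ioo_mem_nhdsGT hb1)).exists
    exact ⟨a, h4.1, h4.2, h3⟩
  set c := (a' + a) / 2 with hc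
  have hc1 : a' < c := by linarith
  have hc2 : c < a := by linarith
  have hI : Icc c b ⊆ Icc 0 1 := Icc_subset_Icc (by linarith [ha'I.1]) hb2.le
  obtain ⟨m, hm, hmin⟩ := (isCompact_Icc (a := c) (b := b)).exists_isMinOn
    ⟨a, hc2.le, ha2.le⟩ (hvc.mono hI)
  have hm0 : 0 < v m := hpos m (by linarith [hm.1]) (by linarith [hm.2])
  have hK2 : IsCompact (Icc c b ×ˢ closedBall x0 1) := isCompact_Icc.prod (isCompact_closedBall _ _)
  obtain ⟨r0, hr0, hr⟩ := Metric.uniformContinuousOn_iff.1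
    (hK2.uniformContinuousOn_of_continuous (hU.mono (prod_mono hI (subset_univ _))))
    (min (v m) (β / 16)) (lt_min hm0 (by linarith))
  set r := min (r0 / 2) 1 with hrd
  have hrpos : 0 < r := by positivity
  have hclose : ∀ t ∈ Icc c b, ∀ x ∈ closedBall x0 r,
      v t - min (v m) (β / 16) < U t x - (1 - t) ^ 2 / 16 := by
    intro t ht x hx
    have h1 := hr (t, x) ⟨ht, closedBall_subset_closedBall (min_le_right _ _) hx⟩ (t, x0)
      ⟨ht, mem_closedBall_self zero_le_one⟩ (by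
        rw [Prod.dist_eq]
        simp only [dist_self]
        exact max_lt hr0 (lt_of_le_of_lt (mem_closedBall.1 hx) (by
          linarith [min_le_left (r0 / 2) 1])))
    rw [Real.dist_eq, abs_lt] at h1
    simp only [hv] at h1 ⊢
    linarith [h1.1]
  set lam := 8 / (a - c) with hlam
  have hlam0 : 0 < lam := div_pos (by norm_num) (by linarith)
  set φ : ℝ → E → ℝ := fun t x => (1 - t) ^ 2 / 16 - β / 8 * Real.exp (-lam * (t - a))
    - β / r ^ 2 * ‖x - x0‖ ^ 2 with hφ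
  have hφs : ContDiff ℝ ((⊤ : ℕ∞) : WithTop ℕ∞) (fun q : ℝ × E => φ q.1 q.2) := by
    have h1 : ContDiff ℝ ((⊤ : ℕ∞) : WithTop ℕ∞) (fun q : ℝ × E => ‖q.2 - x0‖ ^ 2) :=
      (contDiff_snd.sub contDiff_const).norm_sq ℝ
    simp only [hφ]
    refine ContDiff.sub (by fun_prop) (contDiff_const.mul h1)
  have hK3 : IsCompact (Icc c b ×ˢ closedBall x0 r) := isCompact_Icc.prod (isCompact_closedBall _ _)
  obtain ⟨⟨t, x⟩, ⟨ht, hxr⟩, hW⟩ := hK3.exists_isMinOn
    ⟨(a, x0), ⟨hc2.le, ha2.le⟩, mem_closedBall_self hrpos.le⟩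
    ((hU.mono (prod_mono hI (subset_univ _))).sub hφs.continuous.continuousOn)
  have hW0 : U t x - φ t x ≤ U a x0 - φ a x0 :=
    hW (a := (a, x0)) ⟨⟨hc2.le, ha2.le⟩, mem_closedBall_self hrpos.le⟩
  have hW1 : U a x0 - φ a x0 < 3 * β / 8 := by
    simp only [hφ, hv] at ha3 ⊢
    simp
    linarith
  have h1 := hclose t ht x hxr
  have h2 : v m ≤ v t := hmin ht
  have hm1 := min_le_left (v m) (β / 16)
  have hm2 := min_le_right (v m) (β / 16)
  have hE : 0 < β / 8 * Real.exp (-lam * (t - a)) := by positivity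
  have hQ : 0 ≤ β / r ^ 2 * ‖x - x0‖ ^ 2 := by positivity
  have hφt : φ t x = (1 - t) ^ 2 / 16 - β / 8 * Real.exp (-lam * (t - a))
    - β / r ^ 2 * ‖x - x0‖ ^ 2 := rfl
  have ht1 : c < t := lt_of_le_of_ne ht.1 (by
    rintro rfl
    have e : -lam * (c - a) = 8 := by
      have : a - c ≠ 0 := by linarith
      rw [hlam]; field_simp; ring
    rw [e] at hφt hE
    have := Real.add_one_le_exp 8
    nlinarith)
  have ht2 : t < b := lt_of_le_of_ne ht.2 (by
    intro h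
    have h : t = b := h
    rw [h] at h1 hφt hW0 hE
    linarith)
  have hx2 : x ∈ ball x0 r := by
    rw [mem_ball_iff_norm]
    refine lt_of_le_of_ne (mem_closedBall_iff_norm.1 hxr) fun h => ?_
    rw [h, div_mul_cancel₀ _ (by positivity)] at hφt
    linarith
  have hloc : IsLocalMin (fun q : ℝ × E => U q.1 q.2 - φ q.1 q.2) (t, x) :=
    hW.isLocalMin (prod_mem_nhds (Icc_mem_nhds ht1 ht2)
      (mem_of_superset (isOpen_ball.mem_nhds hx2) ball_subset_closedBall))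
  have h3 := hs φ hφs t ⟨by linarith [ha'I.1], by linarith⟩ x hloc
  have hd : HasDerivAt (fun s => φ s x)
      (-(1 - t) / 8 + lam * (β / 8 * Real.exp (-lam * (t - a)))) t := by
    have d1 := (((hasDerivAt_id' t).const_sub 1).fun_pow 2).div_const 16
    have d2 := ((((hasDerivAt_id' t).sub_const a).const_mul (-lam)).exp).const_mul (β / 8)
    refine HasDerivAt.congr_deriv ((d1.fun_sub d2).sub_const _) ?_
    norm_num; ring
  rw [hd.deriv] at h3
  have h4 := g_gt (y := U t x) (t := t) (by linarith [ha'I.1]) (by linarith) (by linarith)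
  have h5 := mul_pos hlam0 hE
  linarith

end Pool.Agent.H1.Visc
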