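import Mathlib

set_option autoImplicit false
open Height

namespace Pool.Agent.H1.Vojta

theorem sum_posLog_ge (P : Finset ℕ) (x : ℚ) (hx : x ≠ 0)
    (hd : ∀ p : ℕ, p.Prime → p ∣ x.den → p ∈ P) :
    logHeight₁ x ≤ Real.posLog |(x : ℝ)| + ∑ p ∈ P, Real.posLog (padicNorm p x : ℝ) := by
  have h1 : Real.log x.den ≤ ∑ p ∈ P, Real.posLog (padicNorm p x : ℝ) := by
    rw [Real.log_nat_eq_sum_factorization, Finsupp.sum]
    have hsub : x.den.factorization.support ⊆ P := by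
      intro p hp
      rw [Nat.support_factorization, Nat.mem_primeFactors] at hp
      exact hd p hp.1 hp.2.1
    refine le_trans (Finset.sum_le_sum fun p hp => ?_)
      (Finset.sum_le_sum_of_subset_of_nonneg hsub fun _ _ _ => Real.posLog_nonneg)
    rw [Nat.support_factorization, Nat.mem_primeFactors] at hp
    have hp1 := hp.1
    have : Fact p.Prime := ⟨hp1⟩
    refine le_trans (le_of_eq ?_) (le_max_right _ _)
    have h2 : padicValInt p x.num = 0 := by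
      apply padicValInt.eq_zero_of_not_dvd
      intro h
      have h3 : p ∣ x.num.natAbs := Int.natCast_dvd.mp h
      exact hp1.one_lt.ne' (Nat.eq_one_of_dvd_coprimes x.reduced h3 hp.2.1)
    rw [padicNorm.eq_zpow_of_nonzero hx, padicValRat, h2, Nat.factorization_def _ hp1]
    simp
  have hd0 : (0 : ℝ) < x.den := by exact_mod_cast x.den_pos
  have h2 : logHeight₁ x = Real.posLog |(x : ℝ)| + Real.log x.den := by
    rw [Rat.logHeight₁_eq_log_max, Real.posLog_eq_log_max_one (abs_nonneg _),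
      ← Real.log_mul (by positivity) hd0.ne', max_mul_of_nonneg _ _ hd0.le, one_mul, max_comm 
      (x.den : ℝ)]
    congr 1
    push_cast
    congr 1
    rw [Nat.cast_natAbs, Int.cast_abs, Rat.cast_def, abs_div, abs_of_pos hd0]
    field_simp
  linarith

theorem den_div (a b : ℕ) : ((a : ℚ) / b).den ∣ b := by
  have := Rat.den_dvd a b
  rw [Rat.divInt_eq_div, Int.cast_natCast, Int.cast_natCast] at this
  exact Int.natCast_dvd_natCast.mp this

theorem exists_pair (T : Finset ℕ) (hT : ∀ p ∈ T, p.Prime) (hT0 : T.Nonempty) (j : ℕ) (hj : 1 ≤ j) :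
    ∃ a b : ℕ, a ≠ 0 ∧ b ≠ 0 ∧ a ≠ b ∧ (∀ p : ℕ, p.Prime → p ∣ a → p ∈ T) ∧
      (∀ p : ℕ, p.Prime → p ∣ b → p ∈ T) ∧ a ≤ (∏ p ∈ T, p) ^ 2 ^ j ∧ b ≤ (∏ p ∈ T, p) ^ 2 ^ j ∧
      ((2 ^ (T.card * j - 1) : ℕ) : ℤ) ∣ (a : ℤ) - b := by
  classical
  set N : (T → Fin (2 ^ j)) → ℕ := fun f => ∏ p : T, (p : ℕ) ^ (f p : ℕ) with hN
  have hc : 1 ≤ T.card * j := Nat.mul_pos hT0.card_pos hj
  obtain ⟨f, g, hfg, h⟩ := Fintype.exists_ne_map_eq_of_card_lt
    (fun f => (N f : ZMod (2 ^ (T.card * j - 1)))) (by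
      rw [ZMod.card, Fintype.card_fun, Fintype.card_fin, Fintype.card_coe, ← pow_mul, mul_comm j]
      exact Nat.pow_lt_pow_right (by norm_num) (by omega))
  have hN0 : ∀ f, N f ≠ 0 := fun f =>
    Finset.prod_ne_zero_iff.mpr fun p _ => pow_ne_zero _ (hT p p.2).ne_zero
  have hNp : ∀ f, ∀ p : ℕ, p.Prime → p ∣ N f → p ∈ T := by
    intro f p hp hd
    obtain ⟨q, -, hq⟩ := (Prime.dvd_finsetProd_iff hp.prime _).mp hd
    rw [(Nat.prime_dvd_prime_iff_eq hp (hT q q.2)).mp (hp.dvd_of_dvd_pow hq)]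
    exact q.2
  have hNl : ∀ f, N f ≤ (∏ p ∈ T, p) ^ 2 ^ j := by
    intro f
    rw [← Finset.prod_pow, ← Finset.prod_coe_sort]
    exact Finset.prod_le_prod' fun p _ => Nat.pow_le_pow_right (hT p p.2).pos (f p).2.le
  have hNf : ∀ f (q : T), (N f).factorization q = f q := by
    intro f q
    simp only [hN]
    rw [Nat.factorization_prod fun (p : T) _ => pow_ne_zero _ (hT p p.2).ne_zero,
      Finsupp.finsetSum_apply,
      Finset.sum_eq_single q]
    · rw [(hT q q.2).factorization_pow]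
      simp
    · intro p _ hpq
      rw [(hT p p.2).factorization_pow, Finsupp.single_eq_of_ne]
      exact fun h => hpq (Subtype.ext h.symm)
    · simp
  refine ⟨N f, N g, hN0 f, hN0 g, fun he => hfg ?_, hNp f, hNp g, hNl f, hNl g, ?_⟩
  · funext q
    apply Fin.ext
    rw [← hNf f q, ← hNf g q, he]
  · exact (Nat.modEq_iff_dvd.mp ((ZMod.natCast_eq_natCast_iff _ _ _).mp h.symm))

theorem exists_x (T : Finset ℕ) (hT : ∀ p ∈ T, p.Prime) (hT2 : 2 ∉ T) (hT0 : T.Nonempty) (j : ℕ)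
    (hj : 1 ≤ j) : ∃ x : ℚ, x ≠ 0 ∧ x ≠ 1 ∧ (∀ p : ℕ, p.Prime → p ∣ x.den → p ∈ T) ∧
      (∀ p : ℕ, p.Prime → p ∣ x⁻¹.den → p ∈ T) ∧
      logHeight₁ x ≤ 2 ^ j * (2 * Real.log (∏ p ∈ T, p : ℕ)) ∧
      (T.card * j - 1 : ℝ) * Real.log 2 ≤ Real.log (padicNorm 2 (x - 1) : ℝ)⁻¹ := by
  obtain ⟨a, b, ha, hb, hab, hpa, hpb, hla, hlb, hd⟩ := exists_pair T hT hT0 j hj
  have ha' : (a : ℚ) ≠ 0 := by exact_mod_cast ha
  have hb' : (b : ℚ) ≠ 0 := by exact_mod_cast hb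
  have hx1 : (a : ℚ) / b ≠ 1 := by
    rw [Ne, div_eq_one_iff_eq hb']
    exact_mod_cast hab
  refine ⟨a / b, div_ne_zero ha' hb', hx1, fun p hp h => hpb p hp (h.trans (den_div a b)),
    fun p hp h => hpa p hp (h.trans (by rw [inv_div]; exact den_div b a)), ?_, ?_⟩
  · have : NeZero a := ⟨ha⟩
    have : NeZero b := ⟨hb⟩
    rw [div_eq_mul_inv]
    refine le_trans (logHeight₁_mul_le _ _) ?_
    rw [logHeight₁_inv, Rat.logHeight₁_natCast, Rat.logHeight₁_natCast]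
    have key : ∀ c : ℕ, c ≠ 0 → c ≤ (∏ p ∈ T, p) ^ 2 ^ j →
        Real.log c ≤ 2 ^ j * Real.log (∏ p ∈ T, p : ℕ) := by
      intro c hc hl
      have h1 : (0 : ℝ) < c := by exact_mod_cast Nat.pos_of_ne_zero hc
      have h2 : (c : ℝ) ≤ ((∏ p ∈ T, p : ℕ) : ℝ) ^ 2 ^ j := by exact_mod_cast hl
      refine le_trans (Real.log_le_log h1 h2) (le_of_eq ?_)
      rw [Real.log_pow]
      norm_num
    linarith [key a ha hla, key b hb hlb]
  · have hc : 1 ≤ T.card * j := Nat.mul_pos hT0.card_pos hj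
    have h1 := padicNorm.dvd_iff_norm_le.mp hd
    have h2 : padicNorm 2 (b : ℚ) = 1 :=
      (padicNorm.nat_eq_one_iff b).mpr fun h => hT2 (hpb 2 Nat.prime_two h)
    have h3 : (a : ℚ) / b - 1 = (((a : ℤ) - b : ℤ) : ℚ) / b := by
      push_cast
      field_simp
    have h4 : 0 < padicNorm 2 ((a : ℚ) / b - 1) :=
      lt_of_le_of_ne (padicNorm.nonneg _) (padicNorm.nonzero (sub_ne_zero.mpr hx1)).symm
    have h5 : padicNorm 2 ((a : ℚ) / b - 1) ≤ (2 : ℚ) ^ (-((T.card * j - 1 : ℕ) : ℤ)) := by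
      rw [h3, padicNorm.div, h2, div_one]
      exact_mod_cast h1
    have h6 : (padicNorm 2 ((a : ℚ) / b - 1) : ℝ) ≤ (2 : ℝ) ^ (-((T.card * j - 1 : ℕ) : ℤ)) := by
      have := (Rat.cast_le (K := ℝ)).mpr h5
      rwa [Rat.cast_zpow, Rat.cast_ofNat] at this
    have h7 := Real.log_le_log (Rat.cast_pos.mpr h4) h6
    rw [Real.log_zpow] at h7
    rw [Real.log_inv]
    push_cast [hc] at h7
    linarith

end Pool.Agent.H1.Vojta
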