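import Pool.Agent.H1.VoteDefs

namespace Pool.Agent.H1.Vote

lemma loc_in (y y' : V → Bool) (M : ℤ) (h : ∀ v : V, |v.1| ≤ M → y v = y' v) (t : ℕ) :
    ∀ v : V, |v.1| ≤ M - 2 * t → F^[t] y v = F^[t] y' v := by
  induction t with
  | zero => simpa using h
  | succ t ih =>
    rintro ⟨i, j⟩ hv
    simp only [Function.iterate_succ_apply', F]
    push_cast at hv
    rw [abs_le] at hv
    rcases Int.units_eq_one_or j with rfl | rfl <;>
    · rw [ih, ih, ih] <;> simp only [Units.val_one, Units.val_neg, abs_le] <;> omega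

lemma loc_out (y y' : V → Bool) (N : ℤ) (h : ∀ v : V, N < |v.1| → y v = y' v) (t : ℕ) :
    ∀ v : V, N + 2 * t < |v.1| → F^[t] y v = F^[t] y' v := by
  induction t with
  | zero => simpa using h
  | succ t ih =>
    rintro ⟨i, j⟩ hv
    simp only [Function.iterate_succ_apply', F]
    push_cast at hv
    rw [lt_abs] at hv
    rcases Int.units_eq_one_or j with rfl | rfl <;>
    · rw [ih, ih, ih] <;> simp only [Units.val_one, Units.val_neg, lt_abs] <;> omega

lemma maj_ne {a b d c : Bool} (h : maj a b d ≠ c) :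
    (a ≠ c ∧ b ≠ c) ∨ (a ≠ c ∧ d ≠ c) ∨ (b ≠ c ∧ d ≠ c) := by
  revert a b d c; decide

lemma erode (y : V → Bool) (c : Bool) (a : ℕ) (h : ∀ v : V, (a : ℤ) < |v.1| → y v = c) (t : ℕ) :
    ∀ v : V, F^[t] y v ≠ c → (t : ℤ) - a ≤ v.1 * v.2 ∧ v.1 * v.2 ≤ a + t ∧
      2 * (t : ℤ) - 2 * a - 1 ≤ v.1 * v.2 := by
  induction t with
  | zero =>
    rintro ⟨i, j⟩ hv
    have : |i| ≤ a := by
      by_contra hc
      exact hv (h (i, j) (not_le.1 hc))
    rw [abs_le] at this
    rcases Int.units_eq_one_or j with rfl | rfl <;> simp <;> omega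
  | succ t ih =>
    rintro ⟨i, j⟩ hv
    rw [Function.iterate_succ_apply'] at hv
    rcases maj_ne hv with ⟨h1, h2⟩ | ⟨h1, h2⟩ | ⟨h1, h2⟩ <;>
    · have h3 := ih _ h1
      have h4 := ih _ h2
      rcases Int.units_eq_one_or j with rfl | rfl <;> simp at h3 h4 ⊢ <;> omega

lemma erode' (y : V → Bool) (c : Bool) (a : ℕ) (h : ∀ v : V, (a : ℤ) < |v.1| → y v = c) (v : V) :
    F^[3 * a + 2] y v = c := by
  by_contra hc
  have := erode y c a h _ v hc
  push_cast at this
  omega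

lemma absorb (y : V → Bool) (c : Bool) (a : ℕ)
    (h : ∀ v : V, (a : ℤ) < |v.1| → |v.1| ≤ 13 * a + 8 → y v = c) (v : V)
    (hv : |v.1| ≤ 7 * a + 4) : F^[3 * a + 2] y v = c := by
  rw [loc_in y (fun w => if |w.1| ≤ a then y w else c) (13 * a + 8) ?_ _ v (by push_cast; omega)]
  · apply erode'
    intro w hw
    simp [not_le.2 hw]
  · intro w hw
    by_cases h1 : |w.1| ≤ a
    · simp [h1]
    · simp only [h1, if_false]; exact h w (not_le.1 h1) hw

/-- nested annuli of alternating colour -/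
def s0 : V → Bool := fun v => decide (Even (Nat.log 32 v.1.natAbs))

lemma s0_ann (k : ℕ) (v : V) (h1 : ((32 ^ k : ℕ) : ℤ) ≤ |v.1|)
    (h2 : |v.1| ≤ 13 * ((32 ^ k : ℕ) : ℤ) + 8) : s0 v = decide (Even k) := by
  have h0 : 1 ≤ 32 ^ k := Nat.one_le_pow _ _ (by norm_num)
  rw [← Int.natCast_natAbs] at h1 h2
  have : Nat.log 32 v.1.natAbs = k := by
    apply Nat.log_eq_of_pow_le_of_lt_pow
    · exact_mod_cast h1
    · rw [pow_succ]; omega
  simp [s0, this]

lemma s0_attr : IsAttractor s0 := by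
  intro s' hs
  obtain ⟨N, hN⟩ := (hs.image fun v => v.1.natAbs).bddAbove
  set a := 32 ^ N with ha
  have hNa : N < a := Nat.lt_pow_self (by norm_num)
  have hout : ∀ v : V, (a : ℤ) < |v.1| → s0 v = s' v := by
    intro v hv
    by_contra hc
    have := hN ⟨v, hc, rfl⟩
    rw [← Int.natCast_natAbs] at hv
    simp only at this
    omega
  have hT : F^[3 * a + 2] s0 = F^[3 * a + 2] s' := by
    ext v
    by_cases hv : |v.1| ≤ 7 * a + 4
    · rw [absorb s0 (decide (Even N)) a (fun w h1 h2 => s0_ann N w h1.le h2) v hv,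
        absorb s' (decide (Even N)) a
          (fun w h1 h2 => (hout w h1).symm.trans (s0_ann N w h1.le h2)) v hv]
    · exact loc_out _ _ a hout _ v (by push_cast; omega)
  apply Set.Finite.subset (((Set.finite_Icc (-(7 * a + 4 : ℤ)) (7 * a + 4)).prod
    (Set.finite_univ (α := ℤˣ))).prod (Set.finite_Iio (3 * a + 2)))
  rintro ⟨v, t⟩ hp
  simp only [Set.mem_ofPred_eq] at hp
  have ht : t < 3 * a + 2 := by
    by_contra hc
    obtain ⟨u, rfl⟩ := Nat.exists_eq_add_of_le' (not_lt.1 hc)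
    apply hp
    rw [Function.iterate_add_apply F u (3 * a + 2), Function.iterate_add_apply F u (3 * a + 2), hT]
  refine ⟨⟨?_, trivial⟩, ht⟩
  rw [Set.mem_Icc, ← abs_le]
  by_contra hc
  simp only at hc
  exact hp (loc_out _ _ a hout t v (by omega))

lemma s0_osc (c : Bool) (v : V) (T : ℕ) : ∃ t ≥ T, F^[t] s0 v = c := by
  obtain ⟨k, hk, hc⟩ : ∃ k, T + v.1.natAbs ≤ k ∧ decide (Even k) = c := by
    cases c
    · exact ⟨2 * (T + v.1.natAbs) + 1, by omega, by simp⟩
    · exact ⟨2 * (T + v.1.natAbs), by omega, by simp⟩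
  have hlt : k < 32 ^ k := Nat.lt_pow_self (by norm_num)
  refine ⟨3 * 32 ^ k + 2, by omega, ?_⟩
  rw [← hc]
  apply absorb s0 _ (32 ^ k) (fun w h1 h2 => s0_ann k w h1.le h2)
  rw [← Int.natCast_natAbs]
  omega

lemma not_bunch (c : Bool) (t : ℕ) : ¬ FinPert (F^[t] s0) (fun _ => c) := by
  intro hs
  obtain ⟨N, hN⟩ := (hs.image fun v => v.1.natAbs).bddAbove
  have hout : ∀ v : V, (N : ℤ) < |v.1| → F^[t] s0 v = c := by
    intro v hv
    by_contra hc
    have := hN ⟨v, hc, rfl⟩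
    rw [← Int.natCast_natAbs] at hv
    simp only at this
    omega
  have h1 : F^[3 * N + 2] (F^[t] s0) = fun _ => c := funext (erode' _ c N hout)
  have h2 : F (fun _ => c) = fun _ => c := by
    ext v; cases c <;> rfl
  obtain ⟨u, hu, h3⟩ := s0_osc (!c) (0, 1) (3 * N + 2 + t)
  obtain ⟨w, rfl⟩ := Nat.exists_eq_add_of_le' hu
  rw [Function.iterate_add_apply, Function.iterate_add_apply, h1,
    Function.iterate_fixed h2] at h3
  simp at h3

end Pool.Agent.H1.Vote
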