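import Mathlib

namespace Pool.Agent.H1.Vote

/-- sites `(i, j)` with `i ∈ ℤ` and `j ∈ {1, -1}` -/
abbrev V := ℤ × ℤˣ

/-- majority of three bits -/
def maj (a b c : Bool) : Bool := (a && b) || (a && c) || (b && c)

/-- one step of the 2-line voting -/
def F (y : V → Bool) : V → Bool := fun v =>
  maj (y (v.1 - 2 * (v.2 : ℤ), v.2)) (y (v.1 - (v.2 : ℤ), v.2)) (y (v.1, -v.2))

/-- two configurations differ at only finitely many sites -/
def FinPert (s s' : V → Bool) : Prop := {v | s v ≠ s' v}.Finite

/-- every finite perturbation changes the trajectory at only finitely many space-time points -/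
def IsAttractor (s : V → Bool) : Prop :=
  ∀ s', FinPert s s' → {p : V × ℕ | F^[p.2] s p.1 ≠ F^[p.2] s' p.1}.Finite

end Pool.Agent.H1.Vote
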