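import Pool.Agent.H1.JcA
import Pool.Agent.H1.PrvA

namespace Pool.Agent.H1.Wat

open Filter Topology Set Metric Complex MeasureTheory Pool.Agent.H1.Jc Pool.Agent.H1.Prv

noncomputable def pt (w : ℂ) : ℂ := exp (I * w)

lemma norm_pt (w : ℂ) : ‖pt w‖ = Real.exp (-w.im) := by rw [pt, Complex.norm_exp]; simp

lemma norm_pt_real (t : ℝ) : ‖pt t‖ = 1 := by rw [norm_pt]; simp

lemma pt_lt {w : ℂ} (h : 0 < w.im) : ‖pt w‖ < 1 := by
  rw [norm_pt]; exact Real.exp_lt_one_iff.2 (by linarith)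

lemma pt_geo (t : ℝ) {w : ℂ} (h0 : 0 < w.im) (h1 : w.im ≤ 1) :
    w.im / 2 ≤ 1 - ‖pt w‖ ∧ 1 - ‖pt w‖ ≤ w.im ∧ ‖pt t - pt w‖ ≤ 1 - ‖pt w‖ + |w.re - t| := by
  have a1 := Real.add_one_le_exp (-w.im)
  have a2 := Real.add_one_le_exp w.im
  have a3 : Real.exp (-w.im) * Real.exp w.im = 1 := by rw [← Real.exp_add]; simp
  have a4 := Real.exp_pos (-w.im)
  have a5 := pt_lt h0
  rw [norm_pt] at a5 ⊢
  refine ⟨by nlinarith, by linarith, ?_⟩
  have e : pt t - pt w = pt w.re * ((1 - Real.exp (-w.im) : ℝ) + (exp (I * (t - w.re : ℝ)) - 1)) := by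
    have e1 : pt t = pt w.re * exp (I * (t - w.re : ℝ)) := by
      rw [pt, pt, ← Complex.exp_add]; congr 1; push_cast; ring
    have e2 : pt w = pt w.re * (Real.exp (-w.im) : ℝ) := by
      rw [pt, pt, ofReal_exp, ← Complex.exp_add]; congr 1
      conv_lhs => rw [← re_add_im w]
      push_cast; linear_combination (w.im : ℂ) * I_mul_I
    rw [e1, e2]; push_cast; ring
  rw [e, norm_mul, norm_pt_real, one_mul]
  refine (norm_add_le _ _).trans (add_le_add ?_ ?_)
  · rw [norm_real, Real.norm_of_nonneg (by linarith)]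
  · exact Real.norm_exp_I_mul_ofReal_sub_one_le.trans (by rw [Real.norm_eq_abs, abs_sub_comm])

lemma pt_St (t : ℝ) {w : ℂ} (h0 : 0 < w.im) (h1 : w.im ≤ 1) {A : ℝ} (hA : |w.re - t| ≤ A * w.im) :
    pt w ∈ St (pt t) (2 * A + 1) := by
  obtain ⟨a1, -, a3⟩ := pt_geo t h0 h1
  have hA0 : 0 ≤ A := nonneg_of_mul_nonneg_left ((abs_nonneg _).trans hA) h0
  exact ⟨pt_lt h0, by nlinarith⟩

variable {φ : ℂ → ℂ}

lemma pt_deriv (w : ℂ) : HasDerivAt pt (pt w * I) w := by
  have := ((hasDerivAt_id w).const_mul I).cexp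
  rw [mul_one] at this
  exact this

lemma null_set (hφ : DifferentiableOn ℂ φ (ball 0 1)) (hm : ∀ z, ‖z‖ < 1 → ‖φ z‖ < 1)
    (hn : ¬ ∃ c : ℂ, ‖c‖ = 1 ∧ ∀ z ∈ ball (0 : ℂ) 1, φ z = c * z) :
    volume {t : ℝ | ∃ ω, JC φ (pt t) ω 1} = 0 := by
  by_contra hK
  have hb : ∀ w : ℂ, 0 < w.im → ball (0 : ℂ) 1 ∈ 𝓝 (pt w) := fun w hw =>
    isOpen_ball.mem_nhds (by simpa using pt_lt hw)
  have cone : ∀ (t : ℝ) (w : ℂ), ‖w - t‖ < 3 * w.im → w.im ≤ 1 →
      0 < w.im ∧ pt w ∈ St (pt t) (2 * 3 + 1) := fun t w h1 h2 => by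
    have h0 : 0 < w.im := by linarith [norm_nonneg (w - t)]
    refine ⟨h0, pt_St t h0 h2 (le_trans ?_ h1.le)⟩
    simpa using Complex.abs_re_le_norm (w - t)
  have hG := privalov (G := fun w => pt w * deriv φ (pt w) - φ (pt w)) (B := 451)
    (K := {t : ℝ | ∃ ω, JC φ (pt t) ω 1})
    (fun w hw => (((pt_deriv w).differentiableAt.mul
      (((hφ.deriv isOpen_ball).differentiableAt (hb w hw)).comp w (pt_deriv w).differentiableAt)).sub
      ((hφ.differentiableAt (hb w hw)).comp w (pt_deriv w).differentiableAt)).differentiableWithinAt)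
    (by norm_num) (fun t ⟨ω, h⟩ w h1 h2 => by
      obtain ⟨h0, hs⟩ := cone t w h1 h2
      have a1 := h.deriv_bd hφ hm (by norm_num) hs
      refine (norm_sub_le _ _).trans ?_
      rw [norm_mul]
      nlinarith [hm _ hs.1, hs.1, norm_nonneg (pt w), norm_nonneg (deriv φ (pt w))])
    (fun t ⟨ω, h⟩ η hη => by
      have t3 : Tendsto (fun z : ℂ => z) (𝓝[St (pt t) (2 * 3 + 1)] (pt t)) (𝓝 (pt t)) :=
        tendsto_nhdsWithin_of_tendsto_nhds tendsto_id
      have t4 := (t3.mul (h.deriv_lim (norm_pt_real t) hφ (by norm_num))).sub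
        (h.val_lim (norm_pt_real t) _)
      rw [ofReal_one, one_mul, mul_div_cancel₀ _ (show pt t ≠ 0 from exp_ne_zero _), sub_self,
        Metric.tendsto_nhdsWithin_nhds] at t4
      obtain ⟨δ, hδ, h3⟩ := t4 η hη
      refine ⟨min 1 (δ / 8), by positivity, fun w h1 h2 => ?_⟩
      obtain ⟨h0, hs⟩ := cone t w h1 (h2.trans (min_le_left _ _))
      have := h3 hs (by
        rw [dist_eq_norm, norm_sub_rev]
        have a1 := (pt_geo t h0 (h2.trans (min_le_left _ _))).2.1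
        have a2 := h2.trans (min_le_right _ _)
        linarith [hs.2])
      simpa using this.le) hK
  have hc : ∀ w : ℂ, 0 < w.im → φ (pt w) / pt w = φ (pt I) / pt I := by
    have hd : ∀ w : ℂ, 0 < w.im → HasDerivAt (fun w => φ (pt w) / pt w) 0 w := fun w hw => by
      refine (((hφ.differentiableAt (hb w hw)).hasDerivAt.comp w (pt_deriv w)).div (pt_deriv w)
        (exp_ne_zero _)).congr_deriv ?_
      rw [div_eq_zero_iff]; left
      simp only [Function.comp]
      linear_combination (pt w * I) * hG w hw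
    intro w hw
    exact (isOpen_lt continuous_const continuous_im).is_const_of_deriv_eq_zero
      (convex_halfSpace_im_gt 0).isPreconnected
      (fun w hw => (hd w hw).differentiableAt.differentiableWithinAt)
      (fun w hw => (hd w hw).deriv) hw (by simp)
  set c := φ (pt I) / pt I
  have h1 : ∀ z, ‖z‖ < 1 → z ≠ 0 → φ z = c * z := fun z hz h0 => by
    have e : pt (-I * log z) = z := by
      rw [pt, ← mul_assoc, mul_neg, I_mul_I, neg_neg, one_mul, exp_log h0]
    have := hc (-I * log z) (by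
      simpa [Complex.log_re] using Real.log_neg (norm_pos_iff.2 h0) hz)
    rwa [e, div_eq_iff h0] at this
  obtain ⟨t, ω, h⟩ := nonempty_of_measure_ne_zero hK
  refine hn ⟨c, ?_, fun z hz => ?_⟩
  · have c1 : Continuous fun r : ℝ => ‖ω - c * (r * pt t)‖ - 2 * (1 - r) := by fun_prop
    have a1 := le_of_tendsto ((c1.tendsto 1).mono_left (nhdsWithin_le_nhds (s := Iio 1))) (b := 0) (by
      filter_upwards [Ioo_mem_nhdsLT (show (0 : ℝ) < 1 by norm_num)] with r hr
      have e1 : ‖(r : ℂ) * pt t‖ = r := by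
        rw [norm_mul, norm_pt_real, norm_real, Real.norm_of_nonneg hr.1.le, mul_one]
      have e2 : ‖pt t - r * pt t‖ = 1 - r := by
        rw [← one_sub_mul, norm_mul, norm_pt_real, ← ofReal_one, ← ofReal_sub, norm_real,
          Real.norm_of_nonneg (by linarith [hr.2]), mul_one]
      have a2 := h.close hm (z := r * pt t) (by rw [e1]; exact hr.2)
      rw [e1, e2, h1 _ (by rw [e1]; exact hr.2) (by rw [← norm_pos_iff, e1]; exact hr.1)] at a2
      nlinarith [hr.2])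
    have a2 : ω = c * pt t := by simpa [sub_eq_zero] using a1
    have := h.norm
    rwa [a2, norm_mul, norm_pt_real, mul_one] at this
  · by_cases h0 : z = 0
    · subst h0
      have c1 : ContinuousAt (fun z => φ z - c * z) 0 :=
        (hφ.differentiableAt (ball_mem_nhds _ one_pos)).continuousAt.sub (by fun_prop)
      have := tendsto_nhds_unique (c1.tendsto.mono_left (nhdsWithin_le_nhds (s := {0}ᶜ)))
        (tendsto_const_nhds (x := (0 : ℂ)).congr' (by
          filter_upwards [nhdsWithin_le_nhds (ball_mem_nhds (0 : ℂ) one_pos), self_mem_nhdsWithin]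
            with z a b
          rw [h1 z (by simpa using a) b, sub_self]))
      exact sub_eq_zero.1 this
    · exact h1 z (by simpa using hz) h0

noncomputable def zz (n : ℕ) (s : ℝ) : ℂ := pt (s + (1 / n : ℝ) * I)

noncomputable def uu (φ : ℂ → ℂ) (j k n : ℕ) (s : ℝ) : ℂ := φ (zz n s) ^ (n + j) / zz n s ^ (n + k)

lemma zz_eq (n : ℕ) (t τ : ℝ) : zz n (t + τ / n) = pt t * exp ((I * τ - 1) * (1 / n : ℝ)) := by
  rw [zz, pt, pt, ← Complex.exp_add]; congr 1; push_cast
  linear_combination (1 / (n : ℂ)) * I_mul_I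

lemma zz_geo {n : ℕ} (hn : 1 ≤ n) (t τ : ℝ) : zz n (t + τ / n) ∈ St (pt t) (2 * |τ| + 1) ∧
    1 / (n : ℝ) / 2 ≤ 1 - ‖zz n (t + τ / n)‖ := by
  have h1 : (1 : ℝ) ≤ n := by exact_mod_cast hn
  have e1 : (((t + τ / n : ℝ) : ℂ) + (1 / n : ℝ) * I).im = 1 / n := by
    rw [add_im, ofReal_im, mul_I_im, ofReal_re, zero_add]
  have e2 : (((t + τ / n : ℝ) : ℂ) + (1 / n : ℝ) * I).re = t + τ / n := by
    rw [add_re, ofReal_re, mul_I_re, ofReal_im, neg_zero, add_zero]
  have a1 : 0 < (((t + τ / n : ℝ) : ℂ) + (1 / n : ℝ) * I).im := by rw [e1]; positivity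
  have a2 : (((t + τ / n : ℝ) : ℂ) + (1 / n : ℝ) * I).im ≤ 1 := by
    rw [e1, div_le_one (by linarith)]; exact h1
  refine ⟨pt_St t a1 a2 ?_, e1 ▸ (pt_geo t a1 a2).1⟩
  rw [e1, e2, add_sub_cancel_left, abs_div, Nat.abs_cast, mul_one_div]

lemma zz_lt {n : ℕ} (hn : 1 ≤ n) (s : ℝ) : ‖zz n s‖ < 1 := by
  simpa using (zz_geo hn s 0).1.1

lemma exp_slope (σ : ℂ) :
    Tendsto (fun n : ℕ => (n : ℂ) * (exp (σ * (1 / n : ℝ)) - 1)) atTop (𝓝 σ) := by
  have h : HasDerivAt (fun x : ℝ => exp (σ * x)) σ 0 := by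
    simpa using (((hasDerivAt_id (0 : ℝ)).ofReal_comp.const_mul σ).cexp)
  have h2 : Tendsto (fun n : ℕ => 1 / (n : ℝ)) atTop (𝓝[>] 0) :=
    tendsto_nhdsWithin_iff.2 ⟨tendsto_one_div_atTop_nhds_zero_nat, by
      filter_upwards [eventually_ge_atTop 1] with n hn
      have : (0 : ℝ) < n := by exact_mod_cast hn
      exact one_div_pos.2 this⟩
  refine (h.tendsto_slope_zero_right.comp h2).congr fun n => ?_
  simp

lemma zz_lim (t τ : ℝ) : Tendsto (fun n : ℕ => zz n (t + τ / n)) atTop (𝓝 (pt t)) := by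
  simp_rw [zz_eq]
  have c : Continuous fun x : ℝ => pt t * exp ((I * τ - 1) * x) := by fun_prop
  have := (c.tendsto 0).comp tendsto_one_div_atTop_nhds_zero_nat
  rw [ofReal_zero, mul_zero, Complex.exp_zero, mul_one] at this
  exact this

lemma norm_zz_pow {n : ℕ} (hn : 1 ≤ n) (k : ℕ) (s : ℝ) : Real.exp (-(1 + k)) ≤ ‖zz n s ^ (n + k)‖ := by
  have h1 : (1 : ℝ) ≤ n := by exact_mod_cast hn
  rw [norm_pow, zz, norm_pt, ← Real.exp_nat_mul, add_im, ofReal_im, mul_I_im, ofReal_re, zero_add]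
  refine Real.exp_le_exp.2 ?_
  rw [mul_neg, neg_le_neg_iff, mul_one_div, div_le_iff₀ (by linarith)]
  push_cast
  nlinarith [Nat.cast_nonneg (α := ℝ) k]

lemma norm_uu (hm : ∀ z, ‖z‖ < 1 → ‖φ z‖ < 1) (j k : ℕ) {n : ℕ} (hn : 1 ≤ n) (s : ℝ) :
    ‖uu φ j k n s‖ ≤ ‖φ (zz n s)‖ ^ n * Real.exp (1 + k) := by
  rw [uu, norm_div, div_le_iff₀ ((Real.exp_pos _).trans_le (norm_zz_pow hn k s)), norm_pow, pow_add]
  have a1 : ‖φ (zz n s)‖ ^ j ≤ 1 := pow_le_one₀ (norm_nonneg _) (hm _ (zz_lt hn s)).le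
  have a2 := mul_le_mul_of_nonneg_left (norm_zz_pow hn k s) (Real.exp_pos (1 + k)).le
  rw [← Real.exp_add, add_neg_cancel, Real.exp_zero] at a2
  rw [mul_assoc]
  exact mul_le_mul_of_nonneg_left (a1.trans a2) (by positivity)

lemma lim_jc {t : ℝ} {ω : ℂ} {d : ℝ} (h : JC φ (pt t) ω d) (j k : ℕ) (τ : ℝ) :
    Tendsto (fun n : ℕ => uu φ j k n (t + τ / n) * (pt t / ω) ^ n) atTop
      (𝓝 (ω ^ j / pt t ^ k * exp ((d - 1) * (I * τ - 1)))) := by
  have hω : ω ≠ 0 := by intro h0; have := h.norm; rw [h0] at this; simp at this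
  have hζ : pt t ≠ 0 := exp_ne_zero _
  have t0 := zz_lim t τ
  have t1 : Tendsto (fun n : ℕ => zz n (t + τ / n)) atTop (𝓝[St (pt t) (2 * |τ| + 1)] (pt t)) :=
    tendsto_nhdsWithin_iff.2 ⟨t0, (eventually_ge_atTop 1).mono fun n hn => (zz_geo hn t τ).1⟩
  have t2 := (((h.lim _).comp t1).mul (exp_slope (I * τ - 1))).mul_const (pt t / ω)
  rw [show d * ω / pt t * (I * τ - 1) * (pt t / ω) = d * (I * τ - 1) by field_simp] at t2
  have t3 := Complex.tendsto_one_add_pow_exp_of_tendsto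
    (g := fun n : ℕ => φ (zz n (t + τ / n)) / ω - 1) (t2.congr' (by
      filter_upwards [eventually_ge_atTop 1] with n hn
      have b := sub_ne' (norm_pt_real t) (zz_lt hn (t + τ / n))
      have e : exp ((I * τ - 1) * (1 / n : ℝ)) - 1 = -(pt t - zz n (t + τ / n)) / pt t := by
        rw [zz_eq]; field_simp; ring
      simp only [Function.comp]
      rw [e]
      generalize zz n (t + τ / n) = z at b
      field_simp; ring))
  have t4 := (t3.mul ((((h.val_lim (norm_pt_real t) _).comp t1).pow j).div (t0.pow k)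
    (pow_ne_zero k hζ))).mul_const (exp (-(I * τ - 1)))
  rw [show exp (d * (I * τ - 1)) * (ω ^ j / pt t ^ k) * exp (-(I * τ - 1)) =
    ω ^ j / pt t ^ k * exp ((d - 1) * (I * τ - 1)) by
      rw [mul_right_comm, ← Complex.exp_add, mul_comm]; congr 2; ring] at t4
  refine t4.congr' ?_
  filter_upwards [eventually_ge_atTop 1] with n hn
  have hn' : (n : ℂ) ≠ 0 := by exact_mod_cast (by omega : n ≠ 0)
  have e : zz n (t + τ / n) ^ n = pt t ^ n * exp (I * τ - 1) := by
    rw [zz_eq, mul_pow, ← Complex.exp_nat_mul]; congr 2; push_cast; field_simp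
  have b : zz n (t + τ / n) ≠ 0 := exp_ne_zero _
  have b2 := exp_ne_zero (I * τ - 1)
  simp only [Function.comp, Pi.div_apply, uu, add_sub_cancel, pow_add, e, Complex.exp_neg, div_pow]
  generalize zz n (t + τ / n) = z at b
  field_simp

lemma lim_inf (hm : ∀ z, ‖z‖ < 1 → ‖φ z‖ < 1) {t : ℝ} (h : ∀ L : ℝ, ∃ δ > 0, ∀ z, ‖z‖ < 1 →
    ‖pt t - z‖ < δ → L * (1 - ‖z‖ ^ 2) ≤ 1 - ‖φ z‖ ^ 2) (j k : ℕ) (τ : ℝ) :
    Tendsto (fun n : ℕ => uu φ j k n (t + τ / n)) atTop (𝓝 0) := by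
  have t1 : Tendsto (fun n : ℕ => ‖φ (zz n (t + τ / n))‖ ^ n) atTop (𝓝 0) := by
    rw [Metric.tendsto_nhds]
    intro ε hε
    obtain ⟨L, hL, hL0⟩ := ((Real.tendsto_exp_neg_atTop_nhds_zero.eventually_lt_const hε).and
      (eventually_ge_atTop 0)).exists
    obtain ⟨δ, hδ, h1⟩ := h (4 * L)
    filter_upwards [eventually_ge_atTop 1, Metric.tendsto_nhds.1 (zz_lim t τ) δ hδ] with n hn h2
    obtain ⟨a1, a2⟩ := zz_geo hn t τ
    set z := zz n (t + τ / n)
    have a3 := h1 z a1.1 (by rwa [dist_eq_norm, norm_sub_rev] at h2)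
    have hn' : (0 : ℝ) < n := by exact_mod_cast hn
    have a4 : 1 / (n : ℝ) / 2 ≤ 1 - ‖z‖ ^ 2 := by nlinarith [norm_nonneg z, a1.1]
    have a5 : ‖φ z‖ ≤ Real.exp (-(L * (1 / n))) := by
      have := Real.add_one_le_exp (-(L * (1 / n)))
      nlinarith [mul_le_mul_of_nonneg_left a4 hL0, hm z a1.1, norm_nonneg (φ z)]
    rw [Real.dist_eq, sub_zero, abs_of_nonneg (by positivity)]
    refine lt_of_le_of_lt ((pow_le_pow_left₀ (norm_nonneg _) a5 n).trans (le_of_eq ?_)) hL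
    rw [← Real.exp_nat_mul]; congr 1; field_simp
  have t2 := t1.mul_const (Real.exp (1 + k))
  rw [zero_mul] at t2
  exact squeeze_zero_norm' ((eventually_ge_atTop 1).mono fun n hn => norm_uu hm j k hn _) t2

lemma geo_small {x : ℝ} (hx : x ≠ 0) : Tendsto (fun m : ℕ =>
    ‖(1 / (m : ℂ) ^ 2) * ∑ l ∈ Finset.range (m ^ 2), exp (x * (I * ((l : ℝ) / m : ℝ) - 1))‖)
    atTop (𝓝 0) := by
  have hx' : (x : ℂ) * I ≠ 0 := mul_ne_zero (by exact_mod_cast hx) I_ne_zero
  have t1 := (exp_slope (x * I)).norm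
  have t2 := ((tendsto_one_div_atTop_nhds_zero_nat (𝕜 := ℝ)).mul
    (t1.inv₀ (norm_ne_zero_iff.2 hx'))).const_mul (2 * Real.exp (-x))
  rw [zero_mul, mul_zero] at t2
  refine squeeze_zero' (Eventually.of_forall fun _ => norm_nonneg _) ?_ t2
  filter_upwards [eventually_ge_atTop 1, t1.eventually_const_lt (norm_pos_iff.2 hx')] with m hm h0
  have hm' : (0 : ℝ) < m := by exact_mod_cast hm
  set q := exp (x * I * (1 / m : ℝ)) with hq
  have e : ∀ l : ℕ, exp (x * (I * ((l : ℝ) / m : ℝ) - 1)) = exp (-x : ℝ) * q ^ l := fun l => by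
    rw [hq, ← Complex.exp_nat_mul, ← Complex.exp_add]; congr 1; push_cast; ring
  have hq1 : ‖q‖ = 1 := by rw [hq, Complex.norm_exp]; simp
  have h1 : ‖∑ l ∈ Finset.range (m ^ 2), q ^ l‖ * ‖q - 1‖ ≤ 2 := by
    rw [← norm_mul, geom_sum_mul]
    refine (norm_sub_le _ _).trans ?_
    rw [norm_pow, hq1]; norm_num
  rw [norm_mul, Complex.norm_natCast] at h0
  have h2 : 0 < ‖q - 1‖ := (pos_iff_pos_of_mul_pos h0).1 hm'
  simp_rw [e]
  rw [← Finset.mul_sum, norm_mul, norm_mul, norm_mul, norm_div, norm_pow, Complex.norm_natCast,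
    norm_one, Complex.norm_exp_ofReal]
  rw [← le_div_iff₀ h2] at h1
  refine (mul_le_mul_of_nonneg_left (mul_le_mul_of_nonneg_left h1 (Real.exp_pos _).le)
    (by positivity)).trans (le_of_eq ?_)
  field_simp

noncomputable def VV (φ : ℂ → ℂ) (j k m n : ℕ) (t : ℝ) : ℂ :=
  (1 / (m : ℂ) ^ 2) * ∑ l ∈ Finset.range (m ^ 2), uu φ j k n (t + ((l : ℝ) / m) / n)

lemma VV_lim (hφ : DifferentiableOn ℂ φ (ball 0 1)) (hm : ∀ z, ‖z‖ < 1 → ‖φ z‖ < 1) (j k : ℕ)
    (t : ℝ) : ∃ b : ℕ → ℝ, (∀ m, Tendsto (fun n => ‖VV φ j k m n t‖) atTop (𝓝 (b m))) ∧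
      ((¬ ∃ ω, JC φ (pt t) ω 1) → Tendsto b atTop (𝓝 0)) := by
  rcases dich hφ hm (norm_pt_real t) with h | ⟨ω, d, h⟩
  · refine ⟨fun _ => 0, fun m => ?_, fun _ => tendsto_const_nhds⟩
    have := ((tendsto_finsetSum (Finset.range (m ^ 2)) fun l _ =>
      lim_inf hm h j k ((l : ℝ) / m)).const_mul (1 / (m : ℂ) ^ 2)).norm
    rw [Finset.sum_const_zero, mul_zero, norm_zero] at this
    exact this
  · refine ⟨_, fun m => ?_, fun hd => geo_small (x := d - 1) fun h0 =>
      hd ⟨ω, by rwa [sub_eq_zero.1 h0] at h⟩⟩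
    have := ((tendsto_finsetSum (Finset.range (m ^ 2)) fun l _ =>
      lim_jc h j k ((l : ℝ) / m)).const_mul (1 / (m : ℂ) ^ 2)).norm
    rw [← Finset.mul_sum, mul_left_comm, norm_mul, norm_div, norm_pow, norm_pow, h.norm,
      norm_pt_real, one_pow, one_pow, div_one, one_mul] at this
    rw [ofReal_sub, ofReal_one]
    refine this.congr fun n => ?_
    rw [← Finset.sum_mul, ← mul_assoc, norm_mul, norm_pow, norm_div (pt t), h.norm, norm_pt_real]
    simp [VV]

lemma uu_cont (hφ : DifferentiableOn ℂ φ (ball 0 1)) (j k : ℕ) {n : ℕ} (hn : 1 ≤ n) :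
    Continuous (uu φ j k n) := by
  have c : Continuous (zz n) := by unfold zz pt; fun_prop
  exact ((hφ.continuousOn.comp_continuous c fun s => by simpa using zz_lt hn s).pow _).div (c.pow _)
    fun s => pow_ne_zero _ (exp_ne_zero _)

lemma uu_int (hφ : DifferentiableOn ℂ φ (ball 0 1)) (j k : ℕ) {n : ℕ} (hn : 1 ≤ n) (s : ℝ) :
    ∫ t in (0 : ℝ)..2 * Real.pi, uu φ j k n (t + s) = 2 * Real.pi *
      (iteratedDeriv (n + k) (fun z => φ z ^ (n + j)) 0 / ((n + k).factorial : ℂ)) := by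
  have hp : Function.Periodic (uu φ j k n) (2 * Real.pi) := fun x => by
    have : zz n (x + 2 * Real.pi) = zz n x := by
      rw [zz, zz, pt, pt, ← Complex.exp_periodic (I * (x + _))]; congr 1; push_cast; ring
    rw [uu, uu, this]
  rw [intervalIntegral.integral_comp_add_right, zero_add, add_comm _ s, hp.intervalIntegral_add_eq s 0,
    zero_add]
  have hn' : (0 : ℝ) < n := by exact_mod_cast hn
  have hr : Real.exp (-(1 / n)) < 1 := Real.exp_lt_one_iff.2 (neg_neg_of_pos (by positivity))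
  have h := ((hφ.mono (closedBall_subset_ball hr)).pow (n + j)).circleIntegral_one_div_sub_center_pow_smul
    (Real.exp_pos _) (n + k)
  have e : ∀ θ, circleMap 0 (Real.exp (-(1 / n))) θ = zz n θ := fun θ => by
    rw [circleMap, zero_add, zz, pt, ofReal_exp, ← Complex.exp_add]; congr 1; push_cast
    linear_combination (-(1 / (n : ℂ))) * I_mul_I
  have h2 : (∮ z in C(0, Real.exp (-(1 / n))), (1 / (z - 0) ^ (n + k + 1)) • (φ ^ (n + j)) z) =
      I * ∫ t in (0 : ℝ)..2 * Real.pi, uu φ j k n t := by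
    rw [circleIntegral, ← intervalIntegral.integral_const_mul]
    congr 1; funext θ
    have b : zz n θ ≠ 0 := exp_ne_zero _
    rw [deriv_circleMap, e, uu, sub_zero, smul_eq_mul, smul_eq_mul, Pi.pow_apply, pow_succ _ (n + k)]
    field_simp
  rw [h2, smul_eq_mul] at h
  refine mul_left_cancel₀ I_ne_zero (h.trans ?_)
  rw [show φ ^ (n + j) = fun z => φ z ^ (n + j) from rfl]; ring

theorem main (hφ : DifferentiableOn ℂ φ (ball 0 1)) (hm : ∀ z, ‖z‖ < 1 → ‖φ z‖ < 1)
    (hn : ¬ ∃ c : ℂ, ‖c‖ = 1 ∧ ∀ z ∈ ball (0 : ℂ) 1, φ z = c * z) (j k : ℕ) :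
    Tendsto (fun n : ℕ => iteratedDeriv (n + k) (fun z => φ z ^ (n + j)) 0 /
      ((n + k).factorial : ℂ)) atTop (𝓝 0) := by
  choose b hb1 hb2 using VV_lim hφ hm j k
  have hV : ∀ m {n}, 1 ≤ n → Continuous (VV φ j k m n) := fun m n hn =>
    continuous_const.mul (continuous_finsetSum _ fun l _ => (uu_cont hφ j k hn).comp (by fun_prop))
  have hB : ∀ m {n}, 1 ≤ n → ∀ t, ‖VV φ j k m n t‖ ≤ Real.exp (1 + k) := fun m n hn t => by
    have a1 : ∀ s, ‖uu φ j k n s‖ ≤ Real.exp (1 + k) := fun s => (norm_uu hm j k hn s).trans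
      (mul_le_of_le_one_left (Real.exp_pos _).le (pow_le_one₀ (norm_nonneg _) (hm _ (zz_lt hn s)).le))
    have a2 := (norm_sum_le (Finset.range (m ^ 2)) fun l => uu φ j k n (t + ((l : ℝ) / m) / n)).trans
      (Finset.sum_le_sum fun l _ => a1 _)
    rw [Finset.sum_const, Finset.card_range, nsmul_eq_mul] at a2
    rw [VV, norm_mul, norm_div, norm_one, norm_pow, Complex.norm_natCast]
    refine (mul_le_mul_of_nonneg_left a2 (by positivity)).trans ?_
    rw [← mul_assoc]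
    refine mul_le_of_le_one_left (Real.exp_pos _).le ?_
    push_cast
    rw [one_div_mul_eq_div]; exact div_self_le_one _
  set ν : Measure ℝ := volume.restrict (Ioc 0 (2 * Real.pi))
  have hmeas : ∀ m, AEStronglyMeasurable (fun t => b t m) ν := fun m =>
    aestronglyMeasurable_of_tendsto_ae atTop (f := fun n t => ‖VV φ j k m (n + 1) t‖)
      (fun n => (hV m (by omega)).norm.aestronglyMeasurable)
      (Eventually.of_forall fun t => (hb1 t m).comp (tendsto_add_atTop_nat 1))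
  have d1 : ∀ m, Tendsto (fun n => ∫ t, ‖VV φ j k m n t‖ ∂ν) atTop (𝓝 (∫ t, b t m ∂ν)) := fun m =>
    tendsto_integral_filter_of_dominated_convergence (fun _ => Real.exp (1 + k))
      ((eventually_ge_atTop 1).mono fun n hn => (hV m hn).norm.aestronglyMeasurable)
      ((eventually_ge_atTop 1).mono fun n hn => Eventually.of_forall fun t => by
        rw [norm_norm]; exact hB m hn t) (integrable_const _) (Eventually.of_forall fun t => hb1 t m)
  have d2 : Tendsto (fun m => ∫ t, b t m ∂ν) atTop (𝓝 (∫ _, (0 : ℝ) ∂ν)) :=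
    tendsto_integral_of_dominated_convergence (fun _ => Real.exp (1 + k)) hmeas (integrable_const _)
      (fun m => Eventually.of_forall fun t => le_of_tendsto (hb1 t m).norm
        ((eventually_ge_atTop 1).mono fun n hn => by rw [norm_norm]; exact hB m hn t))
      (ae_restrict_of_ae (measure_mono_null (fun t ht => not_not.1 fun h => ht (hb2 t h))
        (null_set hφ hm hn)))
  rw [integral_zero] at d2
  rw [Metric.tendsto_nhds]
  intro ε hε
  obtain ⟨m, h1, h2⟩ := ((d2.eventually_lt_const hε).and (eventually_ge_atTop 1)).exists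
  filter_upwards [(d1 m).eventually_lt_const h1, eventually_ge_atTop 1] with n h3 h4
  have hm' : (m : ℂ) ≠ 0 := by exact_mod_cast (by omega : m ≠ 0)
  set a := iteratedDeriv (n + k) (fun z => φ z ^ (n + j)) 0 / ((n + k).factorial : ℂ) with ha
  have e : ∫ t in (0 : ℝ)..2 * Real.pi, VV φ j k m n t = 2 * Real.pi * a := by
    unfold VV
    rw [intervalIntegral.integral_const_mul, intervalIntegral.integral_finsetSum
      (f := fun (l : ℕ) (t : ℝ) => uu φ j k n (t + ((l : ℝ) / m) / n)) fun l _ =>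
      ((uu_cont hφ j k h4).comp (continuous_id.add continuous_const)).intervalIntegrable _ _]
    simp_rw [uu_int hφ j k h4]
    rw [Finset.sum_const, Finset.card_range, nsmul_eq_mul, ← ha]
    push_cast; field_simp
  have h5 := intervalIntegral.norm_integral_le_integral_norm (μ := volume) (f := VV φ j k m n)
    (show (0 : ℝ) ≤ 2 * Real.pi by positivity)
  rw [e, intervalIntegral.integral_of_le (by positivity), norm_mul, norm_mul, norm_real,
    Real.norm_of_nonneg Real.pi_pos.le, Complex.norm_ofNat] at h5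
  rw [dist_zero_right]
  nlinarith [Real.pi_gt_three, norm_nonneg a]

end Pool.Agent.H1.Wat
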