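import Pool.Agent.H26.BFP

namespace Pool.Agent.H1.Wav

open Filter Topology Set

lemma miranda {f g : ℝ × ℝ → ℝ} (hf : Continuous f) (hg : Continuous g)
    (f1 : ∀ y ∈ Icc (-1 : ℝ) 1, 0 ≤ f (-1, y) ∧ f (1, y) ≤ 0)
    (g1 : ∀ x ∈ Icc (-1 : ℝ) 1, 0 ≤ g (x, -1) ∧ g (x, 1) ≤ 0) :
    ∃ x ∈ Icc (-1 : ℝ) 1, ∃ y ∈ Icc (-1 : ℝ) 1, f (x, y) = 0 ∧ g (x, y) = 0 := by
  have key : ∀ x a : ℝ, max (-1) (min 1 (x + a)) = x → (x = -1 → 0 ≤ a) → (x = 1 → a ≤ 0) → a = 0 :=
    fun x a h h1 h2 => by grind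
  obtain ⟨z, hz, e⟩ := H26.BFP.brouwer_cube (ι := Fin 2) (fun z =>
    ![max (-1) (min 1 (z 0 + f (z 0, z 1))), max (-1) (min 1 (z 1 + g (z 0, z 1)))])
    (Continuous.continuousOn (by fun_prop)) fun z _ => by
      rw [mem_closedBall_zero_iff, pi_norm_le_iff_of_nonneg zero_le_one]
      intro i
      fin_cases i <;> exact abs_le.2 ⟨le_max_left _ _, max_le (by norm_num) (min_le_left _ _)⟩
  rw [mem_closedBall_zero_iff, pi_norm_le_iff_of_nonneg zero_le_one] at hz
  have a0 := abs_le.1 (hz 0)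
  have a1 := abs_le.1 (hz 1)
  exact ⟨z 0, a0, z 1, a1, key _ _ (congrFun e 0) (fun h => h ▸ (f1 _ a1).1) fun h => h ▸ (f1 _ a1).2,
    key _ _ (congrFun e 1) (fun h => h ▸ (g1 _ a0).1) fun h => h ▸ (g1 _ a0).2⟩

/-- the four-tap refinement operator -/
def op (p k : ℝ) (f : ℝ → ℝ) (x : ℝ) : ℝ :=
  p * f (2 * x) + (1 + k) * f (2 * x - 1) + (1 - p) * f (2 * x - 2) - k * f (2 * x - 3)

/-- support in `[0,3]` -/
def Sp (f : ℝ → ℝ) : Prop := ∀ x, x ≤ 0 ∨ 3 ≤ x → f x = 0

/-- a condition on the three values -/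
def In (f : ℝ → ℝ) (K : ℝ → ℝ → ℝ → Prop) : Prop := ∀ t ∈ Icc (0 : ℝ) 1, K (f t) (f (t + 1)) (f (t + 2))

variable {p k : ℝ} {f : ℝ → ℝ}

lemma Sp.op (h : Sp f) : Sp (op p k f) := fun x hx => by
  rw [Wav.op, h _ (by grind), h _ (by grind), h _ (by grind), h _ (by grind)]; simp

lemma In.op {K K' : ℝ → ℝ → ℝ → Prop} (h : Sp f) (hK : In f K) (hh : ∀ a b c, K a b c →
    K' (p * a) ((1 - p) * a + (1 + k) * b + p * c) ((1 - p) * c - k * b) ∧
    K' ((1 + k) * a + p * b) ((1 + k) * c + (1 - p) * b - k * a) (-k * c)) : In (op p k f) K' := by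
  intro t ⟨t0, t1⟩
  rcases le_total t (1 / 2) with h1 | h1
  · convert (hh _ _ _ (hK (2 * t) ⟨by linarith, by linarith⟩)).1 using 1
    · rw [Wav.op, h (_ - 1) (by grind), h (_ - 2) (by grind), h (_ - 3) (by grind)]; ring
    · rw [Wav.op, h (_ - 3) (by grind)]; ring_nf
    · rw [Wav.op, h (2 * _) (by grind), h (_ - 1) (by grind)]; ring_nf
  · convert (hh _ _ _ (hK (2 * t - 1) ⟨by linarith, by linarith⟩)).2 using 1
    · rw [Wav.op, h (_ - 2) (by grind), h (_ - 3) (by grind)]; ring_nf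
    · rw [Wav.op, h (2 * _) (by grind)]; ring_nf
    · rw [Wav.op, h (2 * _) (by grind), h (_ - 1) (by grind), h (_ - 2) (by grind)]; ring_nf

/-- invariant box -/
def Bx (a b c : ℝ) : Prop := a + b + c = 1 ∧ 0 ≤ a ∧ a ≤ 9 / 4 ∧ -1 / 2 ≤ c ∧ c ≤ 5 / 8

theorem fam {p k : ℝ → ℝ} (hp : Continuous p) (hk : Continuous k) (p0 : ∀ z, 3 / 5 ≤ p z)
    (p1 : ∀ z, p z ≤ 4 / 5) (k0 : ∀ z, 0 ≤ k z) (k1 : ∀ z, k z ≤ 1 / 5) :
    ∃ φ : ℝ → ℝ → ℝ, (Continuous fun w : ℝ × ℝ => φ w.1 w.2) ∧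
      ∀ z, Sp (φ z) ∧ op (p z) (k z) (φ z) = φ z ∧ In (φ z) Bx := by
  set F : ℕ → ℝ → ℝ → ℝ := fun n z => (op (p z) (k z))^[n] fun x => max 0 (1 - |x - 1|)
  have s : ∀ n z, F (n + 1) z = op (p z) (k z) (F n z) := fun n z => Function.iterate_succ_apply' _ _ _
  have c1 : ∀ n, Continuous fun w : ℝ × ℝ => F n w.1 w.2 := fun n => by
    induction n with
    | zero => simp only [F, Function.iterate_zero, id]; fun_prop
    | succ n ih =>
      have : ∀ a : ℝ, Continuous fun w : ℝ × ℝ => F n w.1 (2 * w.2 - a) := fun a =>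
        ih.comp (f := fun w : ℝ × ℝ => (w.1, 2 * w.2 - a)) (by fun_prop)
      have h0 := this 0
      simp only [sub_zero] at h0
      simp only [s, op]
      exact ((((hp.comp continuous_fst).mul h0).add (.mul (by fun_prop) (this 1))).add
        (.mul (by fun_prop) (this 2))).sub (.mul (by fun_prop) (this 3))
  have c2 : ∀ z n, Sp (F n z) ∧ In (F n z) Bx := fun z n => by
    induction n with
    | zero => exact ⟨fun x hx => by simp only [F, Function.iterate_zero, id]; grind,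
        fun t ⟨_, _⟩ => by simp only [F, Function.iterate_zero, id, Bx]; grind⟩
    | succ n ih =>
      rw [s]
      refine ⟨ih.1.op, ih.2.op ih.1 fun a b c ⟨h1, h2, h3, h4, h5⟩ => ?_⟩
      obtain rfl : b = 1 - a - c := by linarith
      have := p0 z; have := p1 z; have := k0 z; have := k1 z
      refine ⟨⟨by ring, by positivity, by nlinarith, by nlinarith, by nlinarith⟩,
        by ring, by nlinarith, by nlinarith, by nlinarith, by nlinarith⟩
  have c3 : ∀ z n, In (F (n + 1) z - F n z) fun a b c => a + b + c = 0 ∧ |a| ≤ 3 * (19 / 20) ^ n ∧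
      7 / 4 * |c| ≤ 3 * (19 / 20) ^ n := fun z n => by
    induction n with
    | zero =>
      intro t ht
      have := (c2 z 1).2 t ht
      have := (c2 z 0).2 t ht
      simp only [Pi.sub_apply, Bx] at *
      grind
    | succ n ih =>
      have e : F (n + 1 + 1) z - F (n + 1) z = op (p z) (k z) (F (n + 1) z - F n z) := by
        ext x; rw [Pi.sub_apply, s (n + 1), congrFun (s n z) x]; simp only [op, Pi.sub_apply]; ring
      rw [e]
      refine ih.op (fun x hx => sub_eq_zero.2 (((c2 z _).1 x hx).trans ((c2 z _).1 x hx).symm))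
        fun a b c ⟨h1, h2, h3⟩ => ?_
      obtain rfl : b = -a - c := by linarith
      have := p0 z; have := p1 z; have := k0 z; have := k1 z
      have d0 : 0 ≤ 1 + k z - p z := by linarith
      have a1 := abs_add_le (k z * a) ((1 + k z - p z) * c)
      have a2 := abs_sub ((1 + k z - p z) * a) (p z * c)
      rw [abs_mul, abs_mul, abs_of_nonneg d0] at a1 a2
      rw [abs_of_nonneg (k0 z)] at a1
      rw [abs_of_nonneg (by linarith : 0 ≤ p z)] at a2
      have := abs_nonneg a; have := abs_nonneg c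
      rw [pow_succ, show (1 - p z) * c - k z * (-a - c) = k z * a + (1 + k z - p z) * c by ring,
        show (1 + k z) * a + p z * (-a - c) = (1 + k z - p z) * a - p z * c by ring, abs_mul, abs_mul,
        abs_neg, abs_of_nonneg (k0 z), abs_of_nonneg (by linarith : 0 ≤ p z)]
      refine ⟨⟨by ring, by nlinarith, by nlinarith⟩, by ring, by nlinarith, by nlinarith⟩
  have c4 : ∀ n (w : ℝ × ℝ), ‖F (n + 1) w.1 w.2 - F n w.1 w.2‖ ≤ 6 * (19 / 20) ^ n := fun n ⟨z, x⟩ => by
    have : (0 : ℝ) < (19 / 20) ^ n := by positivity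
    by_cases h : x ≤ 0 ∨ 3 ≤ x
    · rw [(c2 z _).1 x h, (c2 z _).1 x h, sub_zero, norm_zero]; positivity
    rw [Real.norm_eq_abs]
    rcases le_total x 1 with h1 | h1
    · have := (c3 z n x ⟨by grind, h1⟩).2.1
      simp only [Pi.sub_apply] at this ⊢; linarith
    rcases le_total x 2 with h2 | h2
    · have := c3 z n (x - 1) ⟨by linarith, by linarith⟩
      simp only [Pi.sub_apply, sub_add_cancel] at this ⊢; grind
    · have := (c3 z n (x - 2) ⟨by linarith, by grind⟩).2.2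
      simp only [Pi.sub_apply, sub_add_cancel] at this ⊢; grind
  have c5 : Summable fun n => 6 * (19 / 20 : ℝ) ^ n :=
    (summable_geometric_of_lt_one (by norm_num) (by norm_num)).mul_left _
  have c6 : ∀ z x, Tendsto (fun n => F n z x) atTop (𝓝 (F 0 z x + ∑' n, (F (n + 1) z x - F n z x))) :=
    fun z x => ((Summable.of_norm_bounded c5 fun n => c4 n (z, x)).hasSum.tendsto_sum_nat.const_add _).congr
      fun n => by rw [Finset.sum_range_sub (fun n => F n z x), add_sub_cancel]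
  refine ⟨fun z x => F 0 z x + ∑' n, (F (n + 1) z x - F n z x), (c1 0).add (continuous_tsum
    (fun n => (c1 _).sub (c1 _)) c5 c4), fun z => ⟨fun x hx => tendsto_nhds_unique (c6 z x)
      (tendsto_const_nhds.congr fun n => ((c2 z n).1 x hx).symm), funext fun x => tendsto_nhds_unique
      (((((c6 z _).const_mul _).add ((c6 z _).const_mul _)).add ((c6 z _).const_mul _)).sub
        ((c6 z _).const_mul _)) (((c6 z x).comp (tendsto_add_atTop_nat 1)).congr fun n => congrFun (s n z) x),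
      fun t ht => ?_⟩⟩
  have h := fun n => (c2 z n).2 t ht
  exact ⟨tendsto_nhds_unique (((c6 z _).add (c6 z _)).add (c6 z _)) (tendsto_const_nhds.congr
    fun n => (h n).1.symm), ge_of_tendsto' (c6 z _) fun n => (h n).2.1,
    le_of_tendsto' (c6 z _) fun n => (h n).2.2.1, ge_of_tendsto' (c6 z _) fun n => (h n).2.2.2.1,
    le_of_tendsto' (c6 z _) fun n => (h n).2.2.2.2⟩

end Pool.Agent.H1.Wav
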