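import Pool.Agent.H1.WavA

namespace Pool.Agent.H1.Wav

open Filter Topology Set

/-- box test -/
def ok (l : ℤ × ℤ × ℤ) : Bool :=
  decide (0 ≤ 8 * l.2.2 + min 0 (l.1 * 18) + min (l.2.1 * -4) (l.2.1 * 5))

/-- subdivision test -/
def chk (p k d : ℤ) : ℕ → ℤ × ℤ × ℤ → ℤ × ℤ × ℤ → Bool
  | 0, l, m => ok l || ok m
  | n + 1, l, m => ok l || ok m ||
    (chk p k d n (l.1 * p + l.2.1 * k, l.2.1 * (d + k - p), l.2.2 * d - l.2.1 * k)
      (m.1 * p + m.2.1 * k, m.2.1 * (d + k - p), m.2.2 * d - m.2.1 * k) &&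
    chk p k d n (l.1 * (d + k - p), -l.1 * p - l.2.1 * k, l.2.2 * d + l.1 * p)
      (m.1 * (d + k - p), -m.1 * p - m.2.1 * k, m.2.2 * d + m.1 * p))

lemma ok_sound {l : ℤ × ℤ × ℤ} (h : ok l = true) {a b c : ℝ} (hB : Bx a b c) :
    0 ≤ l.1 * a + l.2.1 * c + l.2.2 := by
  have h1 := (Int.cast_le (R := ℝ)).2 (of_decide_eq_true h)
  push_cast at h1
  obtain ⟨-, h2, h3, h4, h5⟩ := hB
  have a1 : min 0 ((l.1 : ℝ) * 18) ≤ 8 * (l.1 * a) := by
    rcases le_total 0 (l.1 : ℝ) with h | h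
    · exact (min_le_left _ _).trans (by positivity)
    · exact (min_le_right _ _).trans (by nlinarith)
  have a2 : min ((l.2.1 : ℝ) * -4) (l.2.1 * 5) ≤ 8 * (l.2.1 * c) := by
    rcases le_total 0 (l.2.1 : ℝ) with h | h
    · exact (min_le_left _ _).trans (by nlinarith)
    · exact (min_le_right _ _).trans (by nlinarith)
  linarith

lemma In.and {f : ℝ → ℝ} {K L : ℝ → ℝ → ℝ → Prop} (h : In f K) (h' : In f L) :
    In f fun a b c => K a b c ∧ L a b c := fun t ht => ⟨h t ht, h' t ht⟩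

lemma chk_sound {p k d : ℤ} (hd : (0 : ℝ) < d) {φ : ℝ → ℝ} (h1 : Sp φ) (h2 : op (p / d) (k / d) φ = φ)
    (h3 : In φ Bx) (n : ℕ) : ∀ l m, chk p k d n l m = true → In φ fun a _ c =>
      0 ≤ l.1 * a + l.2.1 * c + l.2.2 ∨ 0 ≤ m.1 * a + m.2.1 * c + m.2.2 := by
  induction n with
  | zero =>
    intro l m h t ht
    exact (Bool.or_eq_true_iff.1 h).imp (ok_sound · (h3 t ht)) (ok_sound · (h3 t ht))
  | succ n ih =>
    intro l m h
    rcases Bool.or_eq_true_iff.1 h with h | h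
    · exact fun t ht => (Bool.or_eq_true_iff.1 h).imp (ok_sound · (h3 t ht)) (ok_sound · (h3 t ht))
    rw [Bool.and_eq_true] at h
    rw [← h2]
    refine (h3.and ((ih _ _ h.1).and (ih _ _ h.2))).op h1 fun a b c ⟨⟨e, _⟩, e1, e2⟩ => ?_
    obtain rfl : b = 1 - a - c := by linarith
    push_cast at e1 e2
    exact ⟨e1.imp (fun h => (div_nonneg h hd.le).trans_eq (by field_simp; ring))
      fun h => (div_nonneg h hd.le).trans_eq (by field_simp; ring),
      e2.imp (fun h => (div_nonneg h hd.le).trans_eq (by field_simp; ring))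
      fun h => (div_nonneg h hd.le).trans_eq (by field_simp; ring)⟩

theorem exφ : ∃ (p k t : ℝ) (φ : ℝ → ℝ), Continuous φ ∧ Sp φ ∧ op p k φ = φ ∧ In φ Bx ∧
    p * (1 - p) = k * (1 + k) ∧ 0 ≤ p * k ∧ t ∈ Icc (0 : ℝ) 1 ∧ φ (t + 1) = 0 ∧ φ (t + 2) = 0 := by
  set s : ℝ → ℝ := fun z => 7 / 4 + max (-1) (min 1 z) / 4 with hs
  have s0 : ∀ z, 3 / 2 ≤ s z ∧ s z ≤ 2 := fun z => by simp only [hs]; grind
  have sp : ∀ z, 0 < 1 + s z ^ 2 := fun z => by positivity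
  set p : ℝ → ℝ := fun z => (1 + s z) / (1 + s z ^ 2)
  set k : ℝ → ℝ := fun z => (s z - 1) / (1 + s z ^ 2)
  have p0 : ∀ z, 3 / 5 ≤ p z := fun z => (le_div_iff₀ (sp z)).2 (by nlinarith [s0 z])
  have k0 : ∀ z, 0 ≤ k z := fun z => div_nonneg (by linarith [s0 z]) (sp z).le
  have k1 : ∀ z, k z ≤ 1 / 5 := fun z => (div_le_iff₀ (sp z)).2 (by nlinarith [s0 z])
  obtain ⟨φ, hc, h⟩ := fam (p := p) (k := k) (.div (by fun_prop) (by fun_prop) fun z => (sp z).ne')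
    (.div (by fun_prop) (by fun_prop) fun z => (sp z).ne') p0
    (fun z => (div_le_iff₀ (sp z)).2 (by nlinarith [s0 z])) k0 k1
  have c : ∀ a : ℝ, Continuous fun w : ℝ × ℝ => φ w.1 ((w.2 + 1) / 2 + a) := fun a =>
    hc.comp (f := fun w : ℝ × ℝ => (w.1, (w.2 + 1) / 2 + a)) (by fun_prop)
  obtain ⟨x, -, y, hy, e1, e2⟩ := miranda
    (f := fun w => φ w.1 ((w.2 + 1) / 2 + 2) - w.1 * |φ w.1 ((w.2 + 1) / 2 + 1) + 2 * φ w.1 ((w.2 + 1) / 2 + 2)|)
    (g := fun w => φ w.1 ((w.2 + 1) / 2 + 1) + 2 * φ w.1 ((w.2 + 1) / 2 + 2))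
    ((c 2).sub (continuous_fst.mul ((c 1).add ((c 2).const_mul 2)).abs)) ((c 1).add ((c 2).const_mul 2))
    (fun y hy => by
      have ht : (y + 1) / 2 ∈ Icc (0 : ℝ) 1 := ⟨by linarith [hy.1], by linarith [hy.2]⟩
      have a1 := chk_sound (p := 10) (k := 2) (d := 13) (by norm_num) (h (-1)).1 (by
        convert (h (-1)).2.1 using 2 <;> norm_num [p, k, s]) (h _).2.2 10 (-1, 2, 1) (1, 0, -1)
        (by decide +kernel) _ ht
      have a2 := chk_sound (p := 3) (k := 1) (d := 5) (by norm_num) (h 1).1 (by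
        convert (h 1).2.1 using 2 <;> norm_num [p, k, s]) (h _).2.2 10 (-1, 0, 1) (1, -2, -1)
        (by decide +kernel) _ ht
      have a3 := ((h (-1)).2.2 _ ht).1
      have a4 := ((h 1).2.2 _ ht).1
      push_cast at a1 a2
      grind)
    fun x _ => by
      have a1 := congrFun (h x).2.1 1
      have a2 := ((h x).2.2 1 ⟨zero_le_one, le_rfl⟩).1
      have a3 := (h x).1 3 (.inr le_rfl)
      rw [op, (h x).1 (_ - 2) (by norm_num), (h x).1 (_ - 3) (by norm_num)] at a1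
      norm_num at a1 a2 ⊢
      have := p0 x; have := k0 x; have := k1 x
      have a4 : φ x 2 ≤ 0 := by nlinarith
      exact ⟨by nlinarith, by linarith⟩
  simp only [e2, abs_zero, mul_zero, sub_zero] at e1
  refine ⟨p x, k x, (y + 1) / 2, φ x, hc.comp (f := fun t => (x, t)) (by fun_prop), (h x).1, (h x).2.1,
    (h x).2.2, ?_, mul_nonneg (by linarith [p0 x]) (k0 x), ⟨by linarith [hy.1], by linarith [hy.2]⟩,
    by linarith, e1⟩
  simp only [p, k]
  field_simp [(sp x).ne']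
  ring

end Pool.Agent.H1.Wav
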