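import Pool.Agent.H1.WavB

namespace Pool.Agent.H1.Wav

open Filter Topology Set MeasureTheory
open scoped CompactlySupported InnerProductSpace

lemma mem (g : C_c(ℝ, ℝ)) : MemLp (fun x => (g x : ℂ)) 2 volume :=
  (Complex.continuous_ofReal.comp g.continuous).memLp_of_hasCompactSupport
    (g.hasCompactSupport.comp_left Complex.ofReal_zero)

/-- test functions in `L²` -/
noncomputable def T : C_c(ℝ, ℝ) →ₗ[ℝ] Lp ℂ 2 (volume : Measure ℝ) where
  toFun g := (mem g).toLp _
  map_add' g h := (MemLp.toLp_congr _ ((mem g).add (mem h)) (.of_eq (by ext; simp))).trans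
    (MemLp.toLp_add _ _)
  map_smul' c g := (MemLp.toLp_congr _ ((mem g).const_smul c) (.of_eq (by ext; simp))).trans
    (MemLp.toLp_const_smul _ _)

lemma inn (g : C_c(ℝ, ℝ)) (f : Lp ℂ 2 (volume : Measure ℝ)) : ⟪T g, f⟫_ℂ = ∫ x, g x • f x :=
  integral_congr_ae ((mem g).coeFn_toLp.mono fun x hx => by
    simp only [T, LinearMap.coe_mk, AddHom.coe_mk, hx]; simp [mul_comm])

lemma inn2 (g h : C_c(ℝ, ℝ)) : ⟪T g, T h⟫_ℂ = (∫ x, g x * h x : ℝ) := by
  rw [inn, ← integral_complex_ofReal]
  exact integral_congr_ae ((mem h).coeFn_toLp.mono fun x hx => by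
    simp only [T, LinearMap.coe_mk, AddHom.coe_mk, hx]; simp)

lemma tst {f : Lp ℂ 2 (volume : Measure ℝ)} (h : ∀ g, ⟪T g, f⟫_ℂ = 0) : f = 0 :=
  Lp.eq_zero_iff_ae_eq_zero.2 (ae_eq_zero_of_integral_contDiff_smul_eq_zero
    ((Lp.memLp f).locallyIntegrable one_le_two) fun g h1 h2 =>
      (inn ⟨⟨g, h1.continuous⟩, h2⟩ f).symm.trans (h _))

variable {φ : ℝ → ℝ} (hc : Continuous φ) (hs : Sp φ) {p k : ℝ}

/-- dilates and translates -/
noncomputable def w (j : ℤ) (b : ℝ) : C_c(ℝ, ℝ) := ⟨⟨fun x => φ (2 ^ j * x - b), by fun_prop⟩,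
  .intro (isCompact_Icc (a := b / 2 ^ j) (b := (b + 3) / 2 ^ j)) fun x hx => hs _ (by
    have : (0 : ℝ) < 2 ^ j := by positivity
    rw [mem_Icc, div_le_iff₀' this, le_div_iff₀' this] at hx
    grind)⟩

lemma w_apply (j : ℤ) (b x : ℝ) : w hc hs j b x = φ (2 ^ j * x - b) := rfl

lemma ww (j : ℤ) (b c : ℝ) : ⟪T (w hc hs j b), T (w hc hs j c)⟫_ℂ =
    ((2 ^ j)⁻¹ * ∫ x, φ x * φ (x - (c - b)) : ℝ) := by
  rw [inn2, ← integral_sub_right_eq_self (fun x => φ x * φ (x - (c - b))) b]
  simp only [w_apply, sub_sub_sub_cancel_right]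
  rw [Measure.integral_comp_mul_left (fun y => φ (y - b) * φ (y - c)), abs_of_pos (by positivity)]
  rfl

lemma ref (h : op p k φ = φ) (j : ℤ) (b : ℝ) : T (w hc hs j b) =
    (p : ℂ) • T (w hc hs (j + 1) (2 * b)) + ((1 + k : ℝ) : ℂ) • T (w hc hs (j + 1) (2 * b + 1)) +
    ((1 - p : ℝ) : ℂ) • T (w hc hs (j + 1) (2 * b + 2)) - (k : ℂ) • T (w hc hs (j + 1) (2 * b + 3)) := by
  simp only [Complex.coe_smul, ← map_smul, ← map_add, ← map_sub]
  congr 1
  ext x
  refine (congrFun h _).symm.trans ?_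
  simp only [op, CompactlySupportedContinuousMap.sub_apply, CompactlySupportedContinuousMap.add_apply,
    CompactlySupportedContinuousMap.smul_apply, w_apply, smul_eq_mul, zpow_add_one₀ (two_ne_zero' ℝ)]
  ring_nf

include hc hs in
lemma auto (h : op p k φ = φ) (hB : In φ Bx) (h1 : p * (1 - p) = k * (1 + k)) (h2 : 0 ≤ p * k) (m : ℤ) :
    ∫ x, φ x * φ (x - m) = if m = 0 then 1 else 0 := by
  set A : ℝ → ℝ := fun y => ∫ x, φ x * φ (x - y) with hA
  have e : ∀ j b c, ⟪T (w hc hs j b), T (w hc hs j c)⟫_ℂ = ((2 ^ j)⁻¹ * A (c - b) : ℝ) := ww hc hs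
  have a1 : ∀ y, A (-y) = A y := fun y => by
    have := (inn2 _ _).symm.trans (e 0 y 0)
    simp only [mul_comm (w hc hs 0 y _), ← inn2, e] at this
    simpa using this.symm
  have a2 : ∀ y, 3 ≤ y → A y = 0 := fun y hy => integral_eq_zero_of_ae (.of_eq (funext fun x => by
    rcases le_total x 3 with h | h
    · simp [hs (x - y) (.inl (by linarith))]
    · simp [hs x (.inr h)]))
  have a3 : ∀ y, 2 * A y = -p * k * (A (2 * y - 3) + A (2 * y + 3)) + (1 + p * k) * (A (2 * y - 1) +
      A (2 * y + 1)) + 2 * A (2 * y) := fun y => by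
    have := e 0 0 y
    rw [ref hc hs h, ref hc hs h 0 y] at this
    simp only [inner_add_left, inner_sub_left, inner_add_right, inner_sub_right, inner_smul_left,
      inner_smul_right, Complex.conj_ofReal, e] at this
    norm_cast at this
    ring_nf at this ⊢
    linear_combination (-2) * this - (2 * A (y * 2) - A (-2 + y * 2) - A (2 + y * 2)) * h1
  have b1 := a3 1
  have b2 := a3 2
  norm_num at b1 b2
  rw [a1, a2 5 (by norm_num), a2 3 le_rfl] at b1
  rw [a2 7 (by norm_num), a2 5 (by norm_num), a2 3 le_rfl, a2 4 (by norm_num)] at b2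
  have b3 : A 1 = 0 := by nlinarith
  have b4 : A 2 = 0 := by nlinarith
  have b5 : ∫ x, φ x = 1 := by
    have i := fun a b => hc.intervalIntegrable (μ := volume) a b
    rw [← intervalIntegral.integral_eq_integral_of_support_subset (a := 0) (b := 3) fun x hx => by
      by_contra h; exact hx (hs x (by simp at h; grind)),
      ← intervalIntegral.integral_add_adjacent_intervals (i 0 1) (i 1 3),
      ← intervalIntegral.integral_add_adjacent_intervals (i 1 2) (i 2 3)]
    have c1 := intervalIntegral.integral_comp_add_right (a := 0) (b := 1) φ 1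
    have c2 := intervalIntegral.integral_comp_add_right (a := 0) (b := 1) φ 2
    rw [zero_add, show (1 : ℝ) + 1 = 2 by norm_num] at c1
    rw [zero_add, show (1 : ℝ) + 2 = 3 by norm_num] at c2
    rw [← c1, ← c2, ← add_assoc, ← intervalIntegral.integral_add (i _ _) (Continuous.intervalIntegrable
      (by fun_prop) _ _), ← intervalIntegral.integral_add (Continuous.intervalIntegrable
      (by fun_prop) _ _) (Continuous.intervalIntegrable (by fun_prop) _ _),
      intervalIntegral.integral_congr (g := fun _ => 1) fun t ht => (hB t (by simpa using ht)).1]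
    simp
  have b6 : A 0 = 1 := by
    have := inn2 (w hc hs 0 0) (w hc hs 0 (-2) + w hc hs 0 (-1) + w hc hs 0 0 + w hc hs 0 1 + w hc hs 0 2)
    simp only [map_add, inner_add_right, e, sub_zero, a1, b3, b4] at this
    norm_cast at this
    refine (by simpa using this : _ = _).trans ((integral_congr_ae (.of_eq (funext fun x => ?_))).trans b5)
    simp only [w_apply, zpow_zero, one_mul, sub_zero, sub_neg_eq_add]
    by_cases h : x ≤ 0 ∨ 3 ≤ x
    · simp [hs x h]
    refine mul_right_eq_self₀.2 (.inl ?_)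
    rcases le_total x 1 with h1 | h1
    · linarith [(hB x ⟨by grind, h1⟩).1, hs (x - 1) (by grind), hs (x - 2) (by grind)]
    rcases le_total x 2 with h2 | h2
    · have := (hB (x - 1) ⟨by grind, by grind⟩).1
      have := hs (x + 2) (by grind); have := hs (x - 2) (by grind)
      ring_nf at *; linarith
    · have := (hB (x - 2) ⟨by grind, by grind⟩).1
      have := hs (x + 2) (by grind); have := hs (x + 1) (by grind)
      ring_nf at *; linarith
  have b7 : ∀ n : ℕ, A n = if n = 0 then 1 else 0 := fun n => by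
    rcases n with _ | _ | _ | n
    · simpa using b6
    · simpa using b3
    · norm_num; exact b4
    · exact a2 _ (by push_cast; linarith [n.cast_nonneg (α := ℝ)])
  obtain ⟨n, rfl | rfl⟩ := m.eq_nat_or_neg
  · simpa using b7 n
  · simpa [A] using (a1 n).trans (b7 n)

end Pool.Agent.H1.Wav
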