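import Pool.Agent.H1.WavC

namespace Pool.Agent.H1.Wav

open Filter Topology Set MeasureTheory
open scoped CompactlySupported InnerProductSpace

variable {φ : ℝ → ℝ} (hc : Continuous φ) (hs : Sp φ) (hB : In φ Bx)

include hs hB in
lemma bd (x : ℝ) : |φ x| ≤ 3 := by
  by_cases h : x ≤ 0 ∨ 3 ≤ x
  · simp [hs x h]
  rcases le_total x 1 with h1 | h1
  · have := hB x ⟨by grind, h1⟩
    grind [Bx]
  rcases le_total x 2 with h2 | h2
  · have := hB (x - 1) ⟨by grind, by grind⟩
    rw [sub_add_cancel] at this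
    grind [Bx]
  · have := hB (x - 2) ⟨by grind, by grind⟩
    rw [sub_add_cancel] at this
    grind [Bx]

lemma rad (g : C_c(ℝ, ℝ)) : ∃ R : ℕ, ∀ x, (R : ℝ) < |x| → g x = 0 := by
  obtain ⟨r, hr⟩ := g.hasCompactSupport.isBounded.subset_closedBall 0
  refine ⟨⌈r⌉₊, fun x hx => image_eq_zero_of_notMem_tsupport fun h => ?_⟩
  exact ((mem_closedBall_zero_iff.1 (hr h)).trans (Nat.le_ceil r)).not_gt hx

include hs in
lemma loc (G : ℤ → ℝ) {F : Finset ℤ} (h : ∀ m ∉ F, G m = 0) (y : ℝ) :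
    ∑ m ∈ F, G m * φ (y - m) = ∑ i ∈ Finset.range 3, G (⌊y⌋ - i) * φ (Int.fract y + i) := by
  rw [← tsum_eq_sum (L := .unconditional _) fun m hm => by rw [h m hm, zero_mul],
    tsum_eq_sum (s := (Finset.range 3).image fun i : ℕ => ⌊y⌋ - i) fun m hm => ?_,
    Finset.sum_image fun i _ j _ h => by simpa using h]
  · exact Finset.sum_congr rfl fun i _ => by rw [Int.fract]; push_cast; ring_nf
  · have h1 : ⌊y⌋ + 1 ≤ m ∨ m + 3 ≤ ⌊y⌋ := by
      simp [Finset.range_add_one] at hm; omega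
    rw [hs _ (h1.imp (fun h => ?_) fun h => ?_), mul_zero]
    · have := (Int.cast_le (R := ℝ)).2 h
      push_cast at this; linarith [Int.lt_floor_add_one y]
    · have := (Int.cast_le (R := ℝ)).2 h
      push_cast at this; linarith [Int.floor_le y]

include hB in
lemma dens {f : Lp ℂ 2 (volume : Measure ℝ)} (h : ∀ j m : ℤ, ⟪T (w hc hs j m), f⟫_ℂ = 0) : f = 0 := by
  refine tst fun g => ?_
  obtain ⟨R, hR⟩ := rad g
  obtain ⟨M, hM⟩ := g.continuous.bounded_above_of_compact_support g.hasCompactSupport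
  set Q : ℕ → C_c(ℝ, ℝ) := fun n => ∑ m ∈ Finset.Icc (-(R * 2 ^ n) : ℤ) (R * 2 ^ n),
    g (m / 2 ^ n) • w hc hs n m
  have q1 : ∀ n x, Q n x = ∑ i ∈ Finset.range 3, g ((⌊2 ^ n * x⌋ - i : ℤ) / 2 ^ n) *
      φ (Int.fract (2 ^ n * x) + i) := fun n x => by
    rw [← loc hs (fun m => g (m / 2 ^ n)) (F := Finset.Icc (-(R * 2 ^ n) : ℤ) (R * 2 ^ n)) fun m hm => hR _ ?_]
    · simp [Q, w_apply]
    rw [abs_div, abs_of_pos (by positivity : (0 : ℝ) < 2 ^ n), lt_div_iff₀ (by positivity)]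
    rw [Finset.mem_Icc, ← abs_le, not_le] at hm
    exact_mod_cast hm
  have q2 : ∀ (n : ℕ) (x : ℝ), ∀ i ∈ Finset.range 3,
      |((⌊2 ^ n * x⌋ - i : ℤ) : ℝ) / 2 ^ n - x| ≤ 3 * (1 / 2) ^ n := fun n x i hi => by
    have : (i : ℝ) ≤ 2 := by exact_mod_cast Nat.lt_succ_iff.1 (Finset.mem_range.1 hi)
    rw [div_sub' (by positivity), abs_div, abs_of_pos (by positivity : (0 : ℝ) < 2 ^ n), one_div_pow,
      mul_one_div]
    push_cast
    exact div_le_div_of_nonneg_right (abs_le.2 ⟨by linarith [Int.lt_floor_add_one (2 ^ n * x)],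
      by linarith [Int.floor_le (2 ^ n * x), i.cast_nonneg (α := ℝ)]⟩) (by positivity)
  have q3 : ∀ n x, |Q n x| ≤ 9 * M := fun n x => by
    rw [q1]
    refine (Finset.abs_sum_le_sum_abs _ _).trans ((Finset.sum_le_card_nsmul _ _ (M * 3) fun i _ => ?_).trans_eq
      (by simp; ring))
    rw [abs_mul]
    exact mul_le_mul (hM _) (bd hs hB _) (abs_nonneg _) ((norm_nonneg _).trans (hM 0))
  have t := tendsto_integral_of_dominated_convergence (μ := volume) (F := fun n x => Q n x • f x)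
    (f := fun x => g x • f x) ((Icc (-(R + 3 : ℝ)) (R + 3)).indicator fun x => 9 * M * ‖f x‖)
    (fun n => (Q n).continuous.aestronglyMeasurable.smul (Lp.aestronglyMeasurable f))
    (IntegrableOn.integrable_indicator (((((Lp.memLp f).locallyIntegrable one_le_two).integrableOn_isCompact
      isCompact_Icc).norm).const_mul _) measurableSet_Icc)
    (fun n => .of_forall fun x => by
      by_cases hx : x ∈ Icc (-(R + 3 : ℝ)) (R + 3)
      · rw [indicator_of_mem hx, norm_smul]
        exact mul_le_mul_of_nonneg_right (q3 n x) (norm_nonneg _)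
      · rw [indicator_of_notMem hx, q1, Finset.sum_eq_zero fun i hi => mul_eq_zero_of_left (hR _ ?_) _]
        · simp
        have := q2 n x i hi
        have : (1 / 2 : ℝ) ^ n ≤ 1 := pow_le_one₀ (by norm_num) (by norm_num)
        grind)
    (.of_forall fun x => Tendsto.smul_const (by
      have a1 : ∀ i ∈ Finset.range 3, Tendsto (fun n : ℕ => (g ((⌊2 ^ n * x⌋ - i : ℤ) / 2 ^ n) - g x) *
          φ (Int.fract (2 ^ n * x) + i)) atTop (𝓝 0) := fun i hi => by
        refine bdd_le_mul_tendsto_zero' 3 (.of_forall fun n => bd hs hB _) (tendsto_sub_nhds_zero_iff.2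
          ((g.continuous.tendsto x).comp (tendsto_iff_norm_sub_tendsto_zero.2 (squeeze_zero
            (fun _ => norm_nonneg _) (fun n => q2 n x i hi) ?_)))) |>.congr fun n => mul_comm _ _
        simpa using (tendsto_pow_atTop_nhds_zero_of_lt_one (r := (1 / 2 : ℝ)) (by norm_num)
          (by norm_num)).const_mul 3
      have a2 := (tendsto_finsetSum _ a1).add_const (g x)
      rw [Finset.sum_const_zero, zero_add] at a2
      refine a2.congr fun n => ?_
      have := (hB _ ⟨Int.fract_nonneg (2 ^ n * x), (Int.fract_lt_one _).le⟩).1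
      simp only [q1, Finset.sum_range_succ, Finset.sum_range_zero]
      push_cast
      simp only [add_zero]
      linear_combination (-g x) * this) _)
  rw [inn]
  refine tendsto_nhds_unique t (tendsto_const_nhds.congr fun n => ?_)
  rw [← inn, map_sum, sum_inner]
  exact (Finset.sum_eq_zero fun m _ => by rw [map_smul, inner_smul_left_eq_smul, h, smul_zero]).symm

/-- the normalised family -/
noncomputable def E (j m : ℤ) : Lp ℂ 2 (volume : Measure ℝ) := ((√(2 ^ j) : ℝ) : ℂ) • T (w hc hs j m)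

lemma orth (h : ∀ m : ℤ, ∫ x, φ x * φ (x - m) = if m = 0 then 1 else 0) (j : ℤ) :
    Orthonormal ℂ (E hc hs j) := by
  classical
  refine orthonormal_iff_ite.2 fun m n => ?_
  simp only [E, inner_smul_left, inner_smul_right, ww, Complex.conj_ofReal, ← Int.cast_sub, h, sub_eq_zero,
    @eq_comm _ n]
  norm_cast
  rw [← mul_assoc, Real.mul_self_sqrt (by positivity), mul_inv_cancel_left₀ (by positivity)]
  split_ifs <;> simp

include hB in
lemma triv (h : ∀ j, Orthonormal ℂ (E hc hs j)) {f : Lp ℂ 2 (volume : Measure ℝ)}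
    (hf : ∀ j, f ∈ (Submodule.span ℂ (range (E hc hs j))).topologicalClosure) : f = 0 := by
  refine tst fun g => norm_le_zero_iff.1 ?_
  obtain ⟨R, hR⟩ := rad g
  have t : Tendsto (fun n : ℕ => 4 * (√((1 / 2) ^ n) * (3 * ∫ x, |g x|) * ‖f‖)) atTop (𝓝 0) := by
    simpa using ((((tendsto_pow_atTop_nhds_zero_of_lt_one (r := (1 / 2 : ℝ)) (by norm_num)
      (by norm_num)).sqrt.mul_const (3 * ∫ x, |g x|)).mul_const ‖f‖).const_mul 4)
  refine ge_of_tendsto t ((eventually_ge_atTop R).mono fun n hn => ?_)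
  have e1 : (2 : ℝ) ^ (-n : ℤ) = (1 / 2) ^ n := by simp
  have a1 : ∀ m ∉ Finset.Icc (-3 : ℤ) 0, ⟪E hc hs (-n) m, T g⟫_ℂ = 0 := fun m hm => by
    rw [E, inner_smul_left, inn2, integral_eq_zero_of_ae (.of_eq (funext fun x => ?_))]
    · simp
    rcases lt_or_ge (R : ℝ) |x| with hx | hx
    · simp [hR x hx]
    have b1 : |2 ^ (-n : ℤ) * x| ≤ 1 := by
      rw [abs_mul, abs_of_pos (by positivity), zpow_neg, zpow_natCast, inv_mul_le_iff₀ (by positivity), mul_one]
      exact hx.trans (by exact_mod_cast hn.trans Nat.lt_two_pow_self.le)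
    have b2 : 1 ≤ m ∨ m ≤ -4 := by simp at hm; omega
    refine mul_eq_zero_of_left (hs _ (b2.imp (fun h => ?_) fun h => ?_)) _ <;>
    · have := (Int.cast_le (R := ℝ)).2 h
      push_cast at this; linarith [abs_le.1 b1]
  have a2 : ⟪T g - ∑ m ∈ Finset.Icc (-3 : ℤ) 0, ⟪E hc hs (-n) m, T g⟫_ℂ • E hc hs (-n) m, f⟫_ℂ = 0 := by
    refine Submodule.topologicalClosure_minimal (t := (innerSL ℂ _).ker) _ (Submodule.span_le.2 ?_)
      (ContinuousLinearMap.isClosed_ker _) (hf (-n))
    rintro _ ⟨m, rfl⟩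
    refine (inner_eq_zero_symm (𝕜 := ℂ) (x := E hc hs (-n) m)).1 ?_
    rw [inner_sub_right, sub_eq_zero]
    by_cases hm : m ∈ Finset.Icc (-3 : ℤ) 0
    · exact ((h _).inner_right_sum (fun m => ⟪E hc hs (-n) m, T g⟫_ℂ) hm).symm
    · rw [a1 m hm, inner_sum, Finset.sum_eq_zero fun i hi => ?_]
      rw [inner_smul_right, (h _).2 (by rintro rfl; exact hm hi : m ≠ i), mul_zero]
  rw [inner_sub_left, sub_eq_zero, sum_inner] at a2
  rw [a2]
  refine (norm_sum_le _ _).trans ((Finset.sum_le_card_nsmul _ _ _ fun m _ => ?_).trans_eq (nsmul_eq_mul _ _))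
  refine (norm_inner_le_norm _ _).trans (mul_le_mul_of_nonneg_right ?_ (norm_nonneg _))
  rw [norm_smul, (h _).1, mul_one, E, inner_smul_left, inn2, norm_mul, Complex.conj_ofReal, Complex.norm_real,
    Complex.norm_real, Real.norm_of_nonneg (Real.sqrt_nonneg _), e1, ← integral_const_mul]
  exact mul_le_mul_of_nonneg_left (norm_integral_le_of_norm_le
    ((g.continuous.integrable_of_hasCompactSupport g.hasCompactSupport).abs.const_mul 3) (.of_forall fun x =>
      (norm_mul _ _).trans_le (mul_le_mul_of_nonneg_right (bd hs hB _) (abs_nonneg _)))) (Real.sqrt_nonneg _)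

end Pool.Agent.H1.Wav
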