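import Pool.Agent.H1.WellA

namespace Pool.Agent.H1.Well

open Real Filter Topology InnerProductSpace Laplacian

noncomputable def P (t : ℝ) : ℝ := S (-exp (-t))

lemma P_d (t : ℝ) : HasDerivAt P (S1 (-exp (-t)) * exp (-t)) t := by
  have h1 : HasDerivAt (fun t : ℝ => -exp (-t)) (exp (-t)) t := by
    have := ((hasDerivAt_neg' t).exp).fun_neg
    simpa using this
  exact (S_d (neg_lt_zero.2 (exp_pos _))).comp t h1

lemma P_mono : StrictMono P :=
  strictMono_of_hasDerivAt_pos P_d fun _ =>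
    mul_pos (S1_pos (neg_lt_zero.2 (exp_pos _))) (exp_pos _)

lemma P_cont : Continuous P := continuous_iff_continuousAt.2 fun t => (P_d t).continuousAt

lemma S_le {w : ℝ} (hw : w ≤ -2) : S w ≤ w⁻¹ ^ 2 + exp (-1) * w := by
  have h1 : expNegInvGlue 1 ≤ expNegInvGlue (-w - 1) := expNegInvGlue.monotone (by linarith)
  have h2 : expNegInvGlue 1 = exp (-1) := by simp [expNegInvGlue]
  have h3 : -w ≤ exp (-w - 1) := by linarith [add_one_le_exp (-w - 1)]
  have h4 : -w * exp (-1) ≤ exp (-w - 1) * expNegInvGlue (-w - 1) :=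
    mul_le_mul h3 (h2 ▸ h1) (exp_pos _).le (exp_pos _).le
  unfold S k0 G0; linarith

lemma P_surj : Function.Surjective P := by
  refine P_cont.surjective ?_ ?_
  · refine tendsto_atTop_mono' atTop ?_ tendsto_id
    filter_upwards [eventually_ge_atTop (0 : ℝ)] with t ht
    have h1 : exp (-t) ≤ 1 := exp_le_one_iff.2 (by linarith)
    have h2 := (k_zero (w := -exp (-t)) (by linarith)).1
    have h3 : P t = exp t ^ 2 := by
      unfold P S; rw [h2, exp_neg]; simp
    have h4 := add_one_le_exp t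
    rw [h3, id]; nlinarith
  · have h0 : Tendsto (fun t : ℝ => 1 + exp (-1) * t) atBot atBot :=
      tendsto_atBot_add_const_left _ _ (tendsto_id.const_mul_atBot (exp_pos _))
    refine tendsto_atBot_mono' atBot ?_ h0
    filter_upwards [eventually_le_atBot (-1 : ℝ)] with t ht
    have h1 := add_one_le_exp (-t)
    have h2 := S_le (w := -exp (-t)) (by linarith)
    have h3 : (-exp (-t))⁻¹ ^ 2 ≤ 1 := by
      rw [inv_neg, neg_sq, ← exp_neg, neg_neg]
      exact pow_le_one₀ (exp_pos _).le (exp_le_one_iff.2 (by linarith))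
    have h4 : exp (-1) * -exp (-t) ≤ exp (-1) * t :=
      mul_le_mul_of_nonneg_left (by linarith) (exp_pos _).le
    unfold P; linarith

noncomputable def Q : ℝ ≃o ℝ := P_mono.orderIsoOfSurjective P P_surj

noncomputable def U (s : ℝ) : ℝ := -exp (-Q.symm s)

lemma U_neg (s : ℝ) : U s < 0 := neg_lt_zero.2 (exp_pos _)

lemma S_U (s : ℝ) : S (U s) = s := Q.apply_symm_apply s

lemma U_cont : Continuous U := by
  have := Q.symm.continuous
  unfold U; fun_prop

noncomputable def U1 (s : ℝ) : ℝ := (S1 (U s))⁻¹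
noncomputable def U2 (s : ℝ) : ℝ := -S2 (U s) / S1 (U s) ^ 3

lemma U_d (s : ℝ) : HasDerivAt U (U1 s) s :=
  HasDerivAt.of_local_left_inverse U_cont.continuousAt (S_d (U_neg s)) (S1_pos (U_neg s)).ne'
    (Eventually.of_forall S_U)

lemma U1_d (s : ℝ) : HasDerivAt U1 (U2 s) s := by
  have h := ((S1_d (U_neg s)).comp s (U_d s)).fun_inv (S1_pos (U_neg s)).ne'
  refine HasDerivAt.congr_deriv h ?_
  have := (S1_pos (U_neg s)).ne'
  simp only [U1, U2, Function.comp]; field_simp

lemma U2_cont : Continuous U2 := by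
  refine continuous_iff_continuousAt.2 fun s => ?_
  have h1 : ContinuousAt (fun s => S1 (U s)) s :=
    (S1_d (U_neg s)).continuousAt.comp U_cont.continuousAt
  have h2 : ContinuousAt S2 (U s) :=
    (continuousAt_const.mul ((continuousAt_inv₀ (U_neg s).ne).pow 4)).sub
      k2_s.continuous.continuousAt
  exact (h2.comp U_cont.continuousAt).neg.div (h1.pow 3) (pow_pos (S1_pos (U_neg s)) 3).ne'

lemma U_C2 : ContDiff ℝ 2 U := by
  have e1 : deriv U = U1 := funext fun s => (U_d s).deriv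
  have e2 : deriv U1 = U2 := funext fun s => (U1_d s).deriv
  have h1 : ContDiff ℝ 1 U1 :=
    contDiff_one_iff_deriv.2 ⟨fun s => (U1_d s).differentiableAt, e2 ▸ U2_cont⟩
  rw [show (2 : WithTop ℕ∞) = 1 + 1 from rfl, contDiff_succ_iff_deriv]
  exact ⟨fun s => (U_d s).differentiableAt, by simp, e1 ▸ h1⟩

lemma U_mono : StrictMono U :=
  strictMono_of_hasDerivAt_pos U_d fun s => inv_pos.2 (S1_pos (U_neg s))

lemma U_gt {s : ℝ} (hs : 0 ≤ s) : -3 < U s := by
  have h1 := S_le (w := -3) (by norm_num)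
  have h2 : (1 : ℝ) / 3 ≤ exp (-1) := by
    rw [exp_neg, one_div]
    exact inv_anti₀ (exp_pos _) (by linarith [exp_one_lt_d9])
  have h3 : S (-3) < 0 := by norm_num at h1 ⊢; linarith
  have h4 : P (-log 3) = S (-3) := by unfold P; rw [neg_neg, exp_log (by norm_num)]
  have h5 : U (S (-3)) = -3 := by
    rw [← h4]
    have : Q.symm (P (-log 3)) = -log 3 := Q.symm_apply_apply _
    unfold U; rw [this, neg_neg, exp_log (by norm_num)]
  rw [← h5]
  exact U_mono (by linarith)

noncomputable def u (x : EuclideanSpace ℝ (Fin 3)) : ℝ := U (‖x‖ ^ 2)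

lemma u_C2 : ContDiff ℝ 2 u := U_C2.comp (contDiff_norm_sq ℝ)

lemma u_lap (x : EuclideanSpace ℝ (Fin 3)) : Δ u x = f (u x) := by
  have h := rad_lap U_d U1_d x
  have h1 : smoothTransition (U (‖x‖ ^ 2) + 4) = 1 :=
    smoothTransition.one_of_one_le (by linarith [U_gt (sq_nonneg ‖x‖)])
  have h2 := (S1_pos (U_neg (‖x‖ ^ 2))).ne'
  unfold u
  rw [h]
  simp only [f, h1, S_U, U1, U2]
  field_simp
  push_cast
  ring

lemma u_crit (x : EuclideanSpace ℝ (Fin 3)) (hx : fderiv ℝ u x = 0) : x = 0 := by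
  have h : fderiv ℝ u x = _ := (rad_fderiv U_d x).fderiv
  rw [hx] at h
  have h1 := congrArg (fun L : EuclideanSpace ℝ (Fin 3) →L[ℝ] ℝ => L x) h
  have h2 : 0 < U1 (‖x‖ ^ 2) := inv_pos.2 (S1_pos (U_neg _))
  simpa [h2.ne'] using h1

lemma f_ne : f ≠ 0 := by
  intro h
  have h0 := u_lap 0
  have h1 := rad_lap (n := 3) U_d U1_d 0
  have h2 : 0 < U1 (‖(0 : EuclideanSpace ℝ (Fin 3))‖ ^ 2) := inv_pos.2 (S1_pos (U_neg _))
  unfold u at h0
  rw [h1, h] at h0
  simp at h0 h2
  exact h2.ne' h0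

lemma not_oneD (e : EuclideanSpace ℝ (Fin 3)) (c : ℝ) (V : ℝ → ℝ)
    (h : ∀ x, u x = V (inner ℝ e x + c)) : False := by
  have key : ∀ y : EuclideanSpace ℝ (Fin 3), inner ℝ e y = 0 → y = 0 := by
    intro y hy
    have h1 : u y = u 0 := by rw [h, h, hy]; simp
    have h2 := U_mono.injective h1
    simpa using h2
  have a1 := key !₂[e 1, -e 0, 0] (by
    simp [EuclideanSpace.inner_eq_star_dotProduct, dotProduct, Fin.sum_univ_three]
    ring)
  have b0 : e 0 = 0 := by simpa using congrArg (fun y : EuclideanSpace ℝ (Fin 3) => y 1) a1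
  have a2 := key !₂[1, 0, 0] (by
    simp [EuclideanSpace.inner_eq_star_dotProduct, dotProduct, Fin.sum_univ_three, b0])
  simpa using congrArg (fun y : EuclideanSpace ℝ (Fin 3) => y 0) a2

end Pool.Agent.H1.Well
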