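import Mathlib

namespace Pool.Agent.H1.Wid

open Real Metric Filter Topology Set MeasureTheory

open Classical in
noncomputable def kk (D x y : ℝ) : ENNReal :=
  if x = y then ⊤ else ENNReal.ofReal (Real.log (D / |x - y|))

lemma kk_symm (D x y : ℝ) : kk D x y = kk D y x := by
  unfold kk; rw [abs_sub_comm]; simp only [eq_comm]

lemma kk_meas (D : ℝ) : Measurable (Function.uncurry (kk D)) := by
  unfold kk Function.uncurry
  exact Measurable.ite (measurableSet_eq_fun measurable_fst measurable_snd) measurable_const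
    (by fun_prop)

lemma kk_cont {D : ℝ} (hD : 0 < D) (y : ℝ) : Continuous fun x => kk D x y := by
  refine continuous_iff_continuousAt.2 fun c => ?_
  by_cases h : c = y
  · subst h
    rw [ContinuousAt, show kk D c c = ⊤ by simp [kk]]
    refine ENNReal.tendsto_nhds_top fun n => ?_
    filter_upwards [ball_mem_nhds c (show 0 < D * exp (-n) by positivity)] with x hx
    unfold kk
    split_ifs with h
    · simp
    · have h0 : 0 < |x - c| := abs_pos.2 (sub_ne_zero.2 h)
      rw [← ENNReal.ofReal_natCast, ENNReal.ofReal_lt_ofReal_iff_of_nonneg (Nat.cast_nonneg n),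
        lt_log_iff_exp_lt (by positivity), lt_div_iff₀ h0]
      have h1 : |x - c| < D * exp (-n) := hx
      rw [exp_neg, ← div_eq_mul_inv, lt_div_iff₀ (exp_pos _)] at h1
      linarith
  · have : ContinuousAt (fun x => ENNReal.ofReal (Real.log (D / |x - y|))) c := by
      have h0 : |c - y| ≠ 0 := abs_ne_zero.2 (sub_ne_zero.2 h)
      refine ENNReal.continuous_ofReal.continuousAt.comp (ContinuousAt.log (by fun_prop) ?_)
      exact div_ne_zero hD.ne' h0
    refine this.congr ?_
    filter_upwards [eventually_ne_nhds h] with x hx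
    simp [kk, hx]

noncomputable def II (D : ℝ) (α β : Measure ℝ) : ENNReal := ∫⁻ x, ∫⁻ y, kk D x y ∂β ∂α

lemma V_meas (D : ℝ) (β : Measure ℝ) [SFinite β] : Measurable fun x => ∫⁻ y, kk D x y ∂β :=
  (kk_meas D).lintegral_prod_right

lemma II_symm (D : ℝ) (α β : Measure ℝ) [SFinite α] [SFinite β] : II D α β = II D β α := by
  unfold II
  rw [lintegral_lintegral_swap (kk_meas D).aemeasurable]
  simp only [kk_symm D]

lemma II_left (D : ℝ) (α α' β : Measure ℝ) (s t : ENNReal) :
    II D (s • α + t • α') β = s * II D α β + t * II D α' β := by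
  simp [II, lintegral_add_measure, lintegral_smul_measure]

lemma II_quad (D : ℝ) (α β : Measure ℝ) [SFinite α] [SFinite β] (s t : ENNReal) :
    II D (s • α + t • β) (s • α + t • β) =
      s * (s * II D α α + t * II D α β) + t * (s * II D α β + t * II D β β) := by
  rw [II_left, II_symm D α, II_symm D β, II_left, II_left, II_symm D β α]

lemma V_ae {K : Set ℝ} {D : ℝ} {μ : Measure ℝ} [IsProbabilityMeasure μ] (hK : μ Kᶜ = 0)
    (hE : II D μ μ < ⊤)
    (hm : ∀ ν : Measure ℝ, IsProbabilityMeasure ν → ν Kᶜ = 0 → II D μ μ ≤ II D ν ν) :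
    ∀ᵐ x ∂μ, ∫⁻ y, kk D x y ∂μ ≤ II D μ μ := by
  set A := {x | II D μ μ < ∫⁻ y, kk D x y ∂μ} with hA
  have hAm : MeasurableSet A := measurableSet_lt measurable_const (V_meas D μ)
  rw [ae_iff]
  simp only [not_le]
  by_contra h0
  set α := μ.restrict A
  set β := μ.restrict Aᶜ
  have e : μ = (1 : ENNReal) • α + (1 : ENNReal) • β := by
    simp [α, β, Measure.restrict_add_restrict_compl hAm]
  have e1 : II D μ μ = II D α α + II D α β + (II D α β + II D β β) := by
    conv_lhs => rw [e]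
    simp [II_quad, -one_smul]
  have e2 : II D α μ = II D α α + II D α β := by
    rw [II_symm]
    conv_lhs => rw [e]
    rw [II_left, II_symm D β]; simp
  have h1 : II D μ μ * μ A < II D α μ := by
    have := lintegral_strict_mono (μ := α) (f := fun _ => II D μ μ)
      (by simpa [α] using h0) (V_meas D μ).aemeasurable
      (by simpa using ENNReal.mul_ne_top hE.ne (measure_ne_top _ _))
      ((ae_restrict_mem hAm).mono fun x hx => hx)
    simpa [α, II] using this
  rw [e2] at h1
  have fa : II D α α ≠ ⊤ := fun h => by simp [e1, h] at hE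
  have fb : II D α β ≠ ⊤ := fun h => by simp [e1, h] at hE
  have fd : II D β β ≠ ⊤ := fun h => by simp [e1, h] at hE
  have m1 : μ A + μ Aᶜ = 1 := prob_add_prob_compl hAm
  lift II D α α to NNReal using fa with a ha
  lift II D α β to NNReal using fb with b hb
  lift II D β β to NNReal using fd with d hd
  lift μ A to NNReal using measure_ne_top _ _ with m hm1
  lift μ Aᶜ to NNReal using measure_ne_top _ _ with m' hm2
  rw [e1] at h1
  have h2 : ((a : ℝ) + b + (b + d)) * m < a + b := by exact_mod_cast h1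
  have h3 : (m : ℝ) + m' = 1 := by exact_mod_cast m1
  have a0 := a.2; have b0 := b.2; have d0 := d.2; have m0 := m.2; have m0' := m'.2
  simp only [NNReal.val_eq_coe] at a0 b0 d0 m0 m0'
  set δ : ℝ := a + b - (a + b + (b + d)) * m with hδ
  set ε : ℝ := min (1 / 2) (δ / (a + 1)) with hε
  have δ0 : 0 < δ := by linarith
  have ε0 : 0 < ε := lt_min (by norm_num) (by positivity)
  have ε1 : ε ≤ 1 / 2 := min_le_left _ _
  have ε2 : ε * (a + 1) ≤ δ := (le_div_iff₀ (by positivity)).1 (min_le_right _ _)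
  have w0 : 0 < 1 - ε * m := by nlinarith
  obtain ⟨s, hs⟩ : ∃ s : NNReal, (s : ℝ) = (1 - ε) / (1 - ε * m) :=
    ⟨⟨_, div_nonneg (by linarith) w0.le⟩, rfl⟩
  obtain ⟨t, ht⟩ : ∃ t : NNReal, (t : ℝ) = 1 / (1 - ε * m) := ⟨⟨_, by positivity⟩, rfl⟩
  have key := hm ((s : ENNReal) • α + (t : ENNReal) • β) ⟨by
      simp only [Measure.add_apply, Measure.smul_apply, α, β, Measure.restrict_apply_univ,
        smul_eq_mul, ← hm1, ← hm2]
      norm_cast
      ext
      simp only [NNReal.coe_add, NNReal.coe_mul, hs, ht, NNReal.coe_one]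
      field_simp
      linarith⟩ (by
      have k1 : α Kᶜ = 0 := le_antisymm ((Measure.restrict_le_self _).trans hK.le) zero_le
      have k2 : β Kᶜ = 0 := le_antisymm ((Measure.restrict_le_self _).trans hK.le) zero_le
      simp [k1, k2])
  rw [II_quad, e1, ← ha, ← hb, ← hd] at key
  have k3 : (a : ℝ) + b + (b + d) ≤ s * (s * a + t * b) + t * (s * b + t * d) := by
    exact_mod_cast key
  have k4 : (s : ℝ) * (s * a + t * b) + t * (s * b + t * d)
      = ((1 - ε) ^ 2 * a + 2 * (1 - ε) * b + d) / (1 - ε * m) ^ 2 := by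
    rw [hs, ht]; field_simp; ring
  rw [k4, le_div_iff₀ (by positivity)] at k3
  have k5 : 0 ≤ ε ^ 2 * m ^ 2 * (a + b + (b + d)) := by positivity
  nlinarith

lemma S_closed {D : ℝ} (hD : 0 < D) (μ : Measure ℝ) (E : ENNReal) :
    IsClosed {c | ∫⁻ y, kk D c y ∂μ ≤ E} := by
  refine IsSeqClosed.isClosed fun u c hu hc => ?_
  have h := lintegral_liminf_le (μ := μ) (f := fun n y => kk D (u n) y) (u := atTop)
    fun n => (kk_meas D).of_uncurry_left
  have e : ∀ y, liminf (fun n => kk D (u n) y) atTop = kk D c y := fun y =>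
    ((kk_cont hD y).tendsto c |>.comp hc).liminf_eq
  simp only [e] at h
  exact h.trans (liminf_le_of_frequently_le' (Frequently.of_forall hu))

/-- Frostman's lower bound for the potential, at real points -/
lemma frost {K : Set ℝ} (hKc : IsCompact K) {D : ℝ} (hD : diam K < D) {μ : Measure ℝ}
    [IsProbabilityMeasure μ] (hK : μ Kᶜ = 0) (hE : II D μ μ < ⊤)
    (hm : ∀ ν : Measure ℝ, IsProbabilityMeasure ν → ν Kᶜ = 0 → II D μ μ ≤ II D ν ν) (a : ℝ) :
    Integrable (fun y => log |a - y|) μ ∧ (∀ᵐ y ∂μ, y ≠ a) ∧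
      log D - (II D μ μ).toReal ≤ ∫ y, log |a - y| ∂μ := by
  have D0 : 0 < D := diam_nonneg.trans_lt hD
  set S := K ∩ {c | ∫⁻ y, kk D c y ∂μ ≤ II D μ μ} with hS
  have Sc : IsCompact S := hKc.inter_right (S_closed D0 μ _)
  have Sae : ∀ᵐ y ∂μ, y ∈ S := (show ∀ᵐ y ∂μ, y ∈ K from hK).and (V_ae hK hE hm)
  have h1 : ∀ c ∈ S, Integrable (fun y => log |c - y|) μ ∧ (∀ᵐ y ∂μ, y ≠ c) ∧
      log D - (II D μ μ).toReal ≤ ∫ y, log |c - y| ∂μ := fun c hc => by
    have f1 : ∫⁻ y, kk D c y ∂μ ≠ ⊤ := (hc.2.trans_lt hE).ne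
    have f2 : ∀ᵐ y ∂μ, y ≠ c := (ae_lt_top (kk_meas D).of_uncurry_left f1).mono fun y hy h => by
      simp [kk, h] at hy
    have f3 : (fun y => log |c - y|) =ᵐ[μ] fun y => log D - (kk D c y).toReal := by
      filter_upwards [f2, Sae] with y h hy
      have h0 : 0 < |c - y| := abs_pos.2 (sub_ne_zero.2 h.symm)
      have h1 : |c - y| ≤ D := (dist_le_diam_of_mem hKc.isBounded hc.1 hy.1).trans hD.le
      rw [kk, if_neg h.symm, ENNReal.toReal_ofReal (log_nonneg ((one_le_div h0).2 h1)),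
        log_div D0.ne' h0.ne']
      ring
    have f4 := integrable_toReal_of_lintegral_ne_top (kk_meas D).of_uncurry_left.aemeasurable f1
    refine ⟨((integrable_const _).sub f4).congr f3.symm, f2, ?_⟩
    rw [integral_congr_ae f3, integral_sub (integrable_const _) f4, integral_toReal
      (kk_meas D).of_uncurry_left.aemeasurable (ae_lt_top (kk_meas D).of_uncurry_left f1)]
    simp only [integral_const, probReal_univ, one_smul]
    linarith [ENNReal.toReal_mono hE.ne hc.2]
  by_cases ha : a ∈ S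
  · exact h1 a ha
  have n1 : ∀ y ∈ S, y ≠ a := fun y hy h => ha (h ▸ hy)
  have i1 : Integrable (fun y => log |a - y|) μ := by
    have : IntegrableOn (fun y => log |a - y|) S μ := ContinuousOn.integrableOn_compact Sc
      (ContinuousOn.log (by fun_prop) fun y hy => abs_ne_zero.2 (sub_ne_zero.2 (n1 y hy).symm))
    rwa [IntegrableOn, Measure.restrict_eq_self_of_ae_mem Sae] at this
  refine ⟨i1, Sae.mono n1, ?_⟩
  have key : ∀ c ∈ S, ∀ d ∈ S, ∀ θ ∈ Icc (0 : ℝ) 1,
      (∀ y ∈ S, θ * |c - y| + (1 - θ) * |d - y| ≤ |a - y|) →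
      log D - (II D μ μ).toReal ≤ ∫ y, log |a - y| ∂μ := fun c hc d hd θ hθ h => by
    obtain ⟨c1, c2, c3⟩ := h1 c hc
    obtain ⟨d1, d2, d3⟩ := h1 d hd
    have := integral_mono_ae ((c1.const_mul θ).add (d1.const_mul (1 - θ))) i1 (by
      filter_upwards [c2, d2, Sae] with y k1 k2 k3
      have p1 : 0 < |c - y| := abs_pos.2 (sub_ne_zero.2 k1.symm)
      have p2 : 0 < |d - y| := abs_pos.2 (sub_ne_zero.2 k2.symm)
      have p3 := strictConcaveOn_log_Ioi.concaveOn.2 p1 p2 hθ.1 (sub_nonneg.2 hθ.2) (by ring)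
      have p4 := (convex_Ioi (0 : ℝ)) p1 p2 hθ.1 (sub_nonneg.2 hθ.2) (by ring)
      exact p3.trans (log_le_log p4 (h y k3)))
    rw [integral_add' (c1.const_mul θ) (d1.const_mul (1 - θ)), integral_const_mul,
      integral_const_mul] at this
    nlinarith [hθ.1, hθ.2]
  obtain ⟨z, hz⟩ := Sae.exists
  rcases (S ∩ Iic a).eq_empty_or_nonempty with e1 | e1
  · obtain ⟨d, hd, hd'⟩ := Sc.exists_isLeast ⟨z, hz⟩
    have : a ≤ d := le_of_not_ge fun h => eq_empty_iff_forall_notMem.1 e1 d ⟨hd, h⟩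
    refine key d hd d hd 0 (by simp) fun y hy => ?_
    have := hd' hy
    rw [abs_of_nonpos (by linarith), abs_of_nonpos (by linarith)]; linarith
  rcases (S ∩ Ici a).eq_empty_or_nonempty with e2 | e2
  · obtain ⟨d, hd, hd'⟩ := Sc.exists_isGreatest ⟨z, hz⟩
    have : d ≤ a := le_of_not_ge fun h => eq_empty_iff_forall_notMem.1 e2 d ⟨hd, h⟩
    refine key d hd d hd 0 (by simp) fun y hy => ?_
    have := hd' hy
    rw [abs_of_nonneg (by linarith), abs_of_nonneg (by linarith)]; linarith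
  obtain ⟨c, hc, hc'⟩ := (Sc.inter_right isClosed_Iic).exists_isGreatest e1
  obtain ⟨d, hd, hd'⟩ := (Sc.inter_right isClosed_Ici).exists_isLeast e2
  have c1 : c < a := lt_of_le_of_ne hc.2 (n1 c hc.1)
  have d1 : a < d := lt_of_le_of_ne hd.2 (n1 d hd.1).symm
  have p : 0 < d - c := by linarith
  have e : (d - a) / (d - c) * c + (1 - (d - a) / (d - c)) * d = a := by field_simp; ring
  refine key c hc.1 d hd.1 ((d - a) / (d - c)) ⟨div_nonneg (by linarith) p.le,
    (div_le_one p).2 (by linarith)⟩ fun y hy => ?_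
  rcases le_total y a with h | h
  · have := hc' ⟨hy, h⟩
    rw [abs_of_nonneg (by linarith), abs_of_nonneg (by linarith), abs_of_nonneg (by linarith)]
    linarith
  · have := hd' ⟨hy, h⟩
    rw [abs_of_nonpos (by linarith), abs_of_nonpos (by linarith), abs_of_nonpos (by linarith)]
    linarith

lemma poly {K : Set ℝ} (hKc : IsCompact K) {μ : Measure ℝ} [IsProbabilityMeasure μ]
    (hK : μ Kᶜ = 0) {γ : ℝ} (h : ∀ a : ℝ, Integrable (fun y => log |a - y|) μ ∧ (∀ᵐ y ∂μ, y ≠ a) ∧
      γ ≤ ∫ y, log |a - y| ∂μ) (P : Polynomial ℝ) (hP : P.Monic) :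
    Integrable (fun y => log |P.eval y|) μ ∧ P.natDegree * γ ≤ ∫ y, log |P.eval y| ∂μ := by
  have h1 : ∀ z : ℂ, Integrable (fun y : ℝ => log ‖(y : ℂ) - z‖) μ ∧ (∀ᵐ y : ℝ ∂μ, (y : ℂ) ≠ z) ∧
      γ ≤ ∫ y : ℝ, log ‖(y : ℂ) - z‖ ∂μ := fun z => by
    obtain ⟨a1, a2, a3⟩ := h z.re
    have i1 : Integrable (fun y : ℝ => log ‖(y : ℂ) - z‖) μ := by
      by_cases hz : z.im = 0
      · convert a1 using 3 with y
        rw [← Complex.abs_re_eq_norm.2 (by simp [hz]), abs_sub_comm]; simp
      · have : IntegrableOn (fun y : ℝ => log ‖(y : ℂ) - z‖) K μ :=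
          ContinuousOn.integrableOn_compact hKc (ContinuousOn.log (by fun_prop) fun y _ =>
            norm_ne_zero_iff.2 fun e => hz (by simpa using congrArg Complex.im e))
        rwa [IntegrableOn, Measure.restrict_eq_self_of_ae_mem hK] at this
    refine ⟨i1, a2.mono fun y hy e => hy (by simp [← e]), a3.trans (integral_mono_ae a1 i1 ?_)⟩
    filter_upwards [a2] with y hy
    refine log_le_log (abs_pos.2 (sub_ne_zero.2 hy.symm)) ?_
    simpa [abs_sub_comm] using Complex.abs_re_le_norm ((y : ℂ) - z)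
  have h2 : ∀ s : Multiset ℂ, Integrable (fun y : ℝ => log ‖(s.map ((y : ℂ) - ·)).prod‖) μ ∧
      (∀ᵐ y : ℝ ∂μ, (s.map ((y : ℂ) - ·)).prod ≠ 0) ∧
      s.card * γ ≤ ∫ y : ℝ, log ‖(s.map ((y : ℂ) - ·)).prod‖ ∂μ := fun s => by
    induction s using Multiset.induction_on with
    | empty => simp
    | cons z s ih =>
      obtain ⟨a1, a2, a3⟩ := h1 z
      obtain ⟨b1, b2, b3⟩ := ih
      have e : (fun y : ℝ => log ‖((z ::ₘ s).map ((y : ℂ) - ·)).prod‖) =ᵐ[μ]
          fun y : ℝ => log ‖(y : ℂ) - z‖ + log ‖(s.map ((y : ℂ) - ·)).prod‖ := by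
        filter_upwards [a2, b2] with y k1 k2
        rw [Multiset.map_cons, Multiset.prod_cons, norm_mul,
          log_mul (norm_ne_zero_iff.2 (sub_ne_zero.2 k1)) (norm_ne_zero_iff.2 k2)]
      refine ⟨(a1.add b1).congr e.symm, ?_, ?_⟩
      · filter_upwards [a2, b2] with y k1 k2
        rw [Multiset.map_cons, Multiset.prod_cons]
        exact mul_ne_zero (sub_ne_zero.2 k1) k2
      · rw [integral_congr_ae e, integral_add a1 b1, Multiset.card_cons]
        push_cast; linarith
  set Q := P.map (algebraMap ℝ ℂ)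
  have e : ∀ y : ℝ, |P.eval y| = ‖(Q.roots.map ((y : ℂ) - ·)).prod‖ := fun y => by
    rw [← (IsAlgClosed.splits Q).eval_eq_prod_roots_of_monic (hP.map _),
      show (y : ℂ) = algebraMap ℝ ℂ y from rfl, Polynomial.eval_map_algebraMap,
      Polynomial.aeval_algebraMap_apply_eq_algebraMap_eval]
    simp
  have e2 : Q.roots.card = P.natDegree := by
    rw [← (IsAlgClosed.splits Q).natDegree_eq_card_roots, hP.natDegree_map]
  simp only [e, ← e2]
  exact ⟨(h2 _).1, (h2 _).2.2⟩

end Pool.Agent.H1.Wid
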