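import Pool.Agent.H1.WidA

namespace Pool.Agent.H1.Wid

open Real Metric Filter Topology Set MeasureTheory

noncomputable def aa (t : ℝ) : ℝ := log (1 + √(1 - t)) - log t / 2
noncomputable def G (r : ℝ) : ℝ := if r ^ 2 ≤ 1 then 0 else aa (r ^ 2)⁻¹

lemma G_meas : Measurable G := by
  unfold G aa
  exact Measurable.ite (measurableSet_le (by fun_prop) measurable_const) measurable_const
    (by fun_prop)

lemma aa_nn {t : ℝ} (h0 : 0 ≤ t) (h1 : t ≤ 1) : 0 ≤ aa t := by
  have := log_nonneg (show 1 ≤ 1 + √(1 - t) by linarith [Real.sqrt_nonneg (1 - t)])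
  have := log_nonpos h0 h1
  unfold aa; linarith

lemma exw (r : ℝ) : ∃ w : ℂ, w ≠ 0 ∧ w + w⁻¹ = 2 * r ∧ 1 ≤ ‖w‖ ∧ log ‖w‖ = G r := by
  unfold G
  split_ifs with h
  · set w : ℂ := ⟨r, √(1 - r ^ 2)⟩
    have h1 : ‖w‖ = 1 := by
      rw [← sq_eq_sq₀ (norm_nonneg _) zero_le_one, Complex.sq_norm, Complex.normSq_apply]
      simp only [w]
      rw [Real.mul_self_sqrt (by linarith)]; ring
    refine ⟨w, norm_ne_zero_iff.1 (by rw [h1]; norm_num), ?_, h1.ge, by rw [h1, log_one]⟩
    rw [Complex.inv_eq_conj h1, Complex.add_conj]; simp [w]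
  · have key : ∀ r : ℝ, 1 < r → ∃ w : ℝ, w + w⁻¹ = 2 * r ∧ 1 ≤ w ∧ log w = aa (r ^ 2)⁻¹ := by
      intro r hr
      have h2 : (r ^ 2)⁻¹ ≤ 1 := inv_le_one_of_one_le₀ (by nlinarith)
      have h3 := Real.sq_sqrt (show 0 ≤ 1 - (r ^ 2)⁻¹ by linarith)
      have h4 := Real.sqrt_nonneg (1 - (r ^ 2)⁻¹)
      generalize hs : √(1 - (r ^ 2)⁻¹) = s at h3 h4
      refine ⟨r * (1 + s), ?_, by nlinarith, ?_⟩
      · have : (r * (1 + s))⁻¹ = r * (1 - s) := by
          refine inv_eq_of_mul_eq_one_right ?_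
          rw [show r * (1 + s) * (r * (1 - s)) = r ^ 2 * (1 - s ^ 2) by ring, h3]
          field_simp; ring
        rw [this]; ring
      · rw [aa, hs, log_mul (by linarith) (by linarith), log_inv, log_pow]; push_cast; ring
    obtain ⟨w, h1, h2, h3⟩ := key |r| (by
      by_contra c; exact h (by nlinarith [abs_nonneg r, sq_abs r]))
    rw [sq_abs] at h3
    rcases abs_choice r with e | e <;> rw [e] at h1
    · refine ⟨w, by exact_mod_cast (by linarith : w ≠ 0), by exact_mod_cast h1, ?_, ?_⟩ <;>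
        simp [abs_of_pos (show 0 < w by linarith), h2, h3]
    · refine ⟨-w, neg_ne_zero.2 (by exact_mod_cast (by linarith : w ≠ 0)), ?_, ?_, ?_⟩
      · have : ((w + w⁻¹ : ℝ) : ℂ) = ((2 * -r : ℝ) : ℂ) := by rw [h1]
        push_cast at this
        rw [inv_neg]; linear_combination -this
      all_goals simp [abs_of_pos (show 0 < w by linarith), h2, h3]

lemma arc (s : ℝ) {y : ℝ} (hy : 0 < y) :
    ∫ θ in Ioc 0 (2 * π), log |s - y * cos θ| = 2 * π * (log (y / 2) + G (s / y)) := by
  obtain ⟨w, h0, h1, h2, h3⟩ := exw (s / y)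
  have e : ∀ᵐ θ : ℝ, log |s - y * cos θ| =
      log (y / 2) + (log ‖circleMap 0 1 θ - w‖ + log ‖circleMap 0 1 θ - w⁻¹‖) := by
    filter_upwards [measure_eq_zero_iff_ae_notMem.1 (((toFinite {w, w⁻¹}).countable.preimage_circleMap
      0 one_ne_zero).measure_zero volume)] with θ hθ
    simp only [mem_preimage, mem_insert_iff, mem_singleton_iff, not_or] at hθ
    set z := circleMap 0 1 θ
    have z1 : ‖z‖ = 1 := by simp [z]
    have z2 : z * (starRingEnd ℂ) z = 1 := by rw [Complex.mul_conj, Complex.normSq_eq_norm_sq, z1]; simp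
    have z3 : z + (starRingEnd ℂ) z = 2 * cos θ := by
      rw [Complex.add_conj, show z.re = cos θ by simp [z, circleMap_zero_re]]; push_cast; ring
    have e1 : ((s - y * cos θ : ℝ) : ℂ) * z = -((y / 2 : ℝ) * ((z - w) * (z - w⁻¹))) := by
      have hy' : (y : ℂ) ≠ 0 := by exact_mod_cast hy.ne'
      have h4 : (s : ℂ) = y * (w + w⁻¹) / 2 := by rw [h1]; push_cast; field_simp
      have h5 : w * w⁻¹ = 1 := mul_inv_cancel₀ h0
      rw [Complex.ofReal_sub, Complex.ofReal_mul, h4]
      push_cast at z3 ⊢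
      linear_combination (y * z / 2) * z3 - (y / 2) * z2 + (y / 2) * h5
    have e2 := congrArg norm e1
    rw [norm_mul, z1, mul_one, norm_neg, norm_mul, norm_mul, Complex.norm_real, Complex.norm_real,
      Real.norm_eq_abs, Real.norm_eq_abs, abs_of_pos (half_pos hy)] at e2
    have n1 := norm_ne_zero_iff.2 (sub_ne_zero.2 hθ.1)
    have n2 := norm_ne_zero_iff.2 (sub_ne_zero.2 hθ.2)
    rw [e2, log_mul (half_pos hy).ne' (mul_ne_zero n1 n2), log_mul n1 n2]
  have c1 := circleAverage_log_norm_sub_const_eq_posLog (a := w)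
  have c2 := circleAverage_log_norm_sub_const_eq_posLog (a := w⁻¹)
  have i1 : IntervalIntegrable (fun θ => log ‖circleMap 0 1 θ - w‖) volume 0 (2 * π) :=
    circleIntegrable_log_norm_sub_const (a := w) (c := 0) 1
  have i2 : IntervalIntegrable (fun θ => log ‖circleMap 0 1 θ - w⁻¹‖) volume 0 (2 * π) :=
    circleIntegrable_log_norm_sub_const (a := w⁻¹) (c := 0) 1
  rw [posLog_eq_log (by rwa [abs_norm]), h3, circleAverage, smul_eq_mul,
    inv_mul_eq_iff_eq_mul₀ two_pi_pos.ne'] at c1
  rw [(posLog_eq_zero_iff _).2 (by rw [abs_norm, norm_inv]; exact inv_le_one_of_one_le₀ h2),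
    circleAverage, smul_eq_mul, inv_mul_eq_iff_eq_mul₀ two_pi_pos.ne'] at c2
  rw [integral_congr_ae (ae_restrict_of_ae e), ← intervalIntegral.integral_of_le two_pi_pos.le,
    intervalIntegral.integral_add intervalIntegrable_const (i1.add i2),
    intervalIntegral.integral_add i1 i2, c1, c2]
  simp; ring

lemma stage1 {K : Set ℝ} (hKc : IsCompact K) {μ : Measure ℝ} [IsProbabilityMeasure μ]
    (hK : μ Kᶜ = 0) {γ : ℝ} (h : ∀ a : ℝ, Integrable (fun y => log |a - y|) μ ∧ (∀ᵐ y ∂μ, y ≠ a) ∧
      γ ≤ ∫ y, log |a - y| ∂μ) (P : Polynomial ℝ) (hP : P.Monic) (hn : 1 ≤ P.natDegree) {y : ℝ}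
    (hy : 0 < y) : P.natDegree * γ - log (y / 2) ≤ ∫ x, G (P.eval x / y) ∂μ := by
  have h1 : ∀ θ, Integrable (fun x => log |P.eval x - y * cos θ|) μ ∧
      P.natDegree * γ ≤ ∫ x, log |P.eval x - y * cos θ| ∂μ := fun θ => by
    have := poly hKc hK h (P - Polynomial.C (y * cos θ)) (hP.sub_of_left
      (Polynomial.degree_C_le.trans_lt (Polynomial.natDegree_pos_iff_degree_pos.1 hn)))
    simpa only [Polynomial.eval_sub, Polynomial.eval_C, Polynomial.natDegree_sub_C] using this
  obtain ⟨B, hB⟩ := hKc.exists_bound_of_continuousOn P.continuous.continuousOn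
  set M := |B| + y with hM
  have hb : ∀ᵐ x ∂μ, ∀ θ, log |P.eval x - y * cos θ| ≤ M := by
    filter_upwards [show ∀ᵐ x ∂μ, x ∈ K from hK] with x hx θ
    refine (log_le_self (abs_nonneg _)).trans ((abs_sub _ _).trans (add_le_add
      ((hB x hx).trans (le_abs_self B)) ?_))
    rw [abs_mul, abs_of_pos hy]
    exact mul_le_of_le_one_right hy.le (abs_cos_le_one θ)
  have M0 : 0 ≤ M := by positivity
  have me : Measurable (Function.uncurry fun x θ : ℝ => log |P.eval x - y * cos θ|) := by
    have := P.continuous.measurable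
    unfold Function.uncurry; fun_prop
  have hi : Integrable (Function.uncurry fun x θ : ℝ => log |P.eval x - y * cos θ|)
      (μ.prod (volume.restrict (Ioc 0 (2 * π)))) := by
    refine (integrable_prod_iff' me.aestronglyMeasurable).2 ⟨ae_of_all _ fun θ => (h1 θ).1, ?_⟩
    refine Integrable.mono' (integrable_const (2 * M - P.natDegree * γ))
      me.norm.stronglyMeasurable.integral_prod_left'.aestronglyMeasurable (ae_of_all _ fun θ => ?_)
    rw [Real.norm_eq_abs, abs_of_nonneg (integral_nonneg fun _ => norm_nonneg _)]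
    have := integral_mono_ae (h1 θ).1.norm ((integrable_const (2 * M)).sub (h1 θ).1)
      (hb.mono fun x hx => abs_le.2 ⟨by simp only [Pi.sub_apply]; linarith,
        by simp only [Pi.sub_apply]; linarith [hx θ]⟩)
    rw [integral_sub' (integrable_const _) (h1 θ).1] at this
    simp only [integral_const, probReal_univ, one_smul] at this
    exact this.trans (by linarith [(h1 θ).2])
  have sw := integral_integral_swap hi
  have i2 := hi.integral_prod_left
  simp only [Function.uncurry, arc _ hy] at i2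
  simp only [arc _ hy] at sw
  have i3 : Integrable (fun x => G (P.eval x / y)) μ := by
    have := (i2.const_mul (2 * π)⁻¹).sub (integrable_const (log (y / 2)))
    refine this.congr (ae_of_all _ fun x => ?_)
    simp only [Pi.sub_apply]; field_simp; ring
  have k := integral_mono (integrable_const (P.natDegree * γ)) hi.integral_prod_right
    fun θ => (h1 θ).2
  simp only [Function.uncurry] at k
  rw [← sw, integral_const_mul (2 * π), integral_add (integrable_const _) i3] at k
  simp only [integral_const, probReal_univ, one_smul, smul_eq_mul, MeasurableSet.univ,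
    measureReal_restrict_apply, univ_inter, volume_real_Ioc, sub_zero,
    max_eq_left two_pi_pos.le] at k
  linarith [le_of_mul_le_mul_left k two_pi_pos]

lemma pl_cont {q : ℝ} (hq : 0 < q) : ContinuousOn (fun t : ℝ => t ^ q * log t) (Icc 0 1) := by
  have := ((continuous_mul_log.comp (continuous_rpow_const hq.le)).div_const q).continuousOn
    (s := Icc 0 1)
  refine this.congr fun t ht => ?_
  rcases ht.1.eq_or_lt with h | h
  · simp [← h, zero_rpow hq.ne']
  · simp only [Function.comp, log_rpow h]; field_simp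

lemma I1 {q : ℝ} (hq : 0 < q) : IntervalIntegrable (fun t : ℝ => -(t ^ (q - 1) * log t)) volume 0 1 ∧
    ∫ t in (0 : ℝ)..1, -(t ^ (q - 1) * log t) = 1 / q ^ 2 := by
  have c : ContinuousOn (fun t : ℝ => t ^ q / q ^ 2 - t ^ q * log t / q) (Icc 0 1) :=
    ((continuous_rpow_const hq.le).continuousOn.div_const _).sub ((pl_cont hq).div_const _)
  have d : ∀ t ∈ Ioo (0 : ℝ) 1, HasDerivAt (fun t : ℝ => t ^ q / q ^ 2 - t ^ q * log t / q)
      (-(t ^ (q - 1) * log t)) t := fun t ht => by
    have h1 := hasDerivAt_rpow_const (p := q) (Or.inl ht.1.ne')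
    refine HasDerivAt.congr_deriv ((h1.div_const _).sub ((h1.mul (hasDerivAt_log ht.1.ne')).div_const
      _)) ?_
    have := ht.1.ne'
    rw [rpow_sub_one this]; field_simp; ring
  have i := (intervalIntegrable_iff_integrableOn_Ioc_of_le zero_le_one).2
    (intervalIntegral.integrableOn_deriv_of_nonneg c d fun t ht => neg_nonneg.2
      (mul_nonpos_of_nonneg_of_nonpos (rpow_nonneg ht.1.le _) (log_nonpos ht.1.le ht.2.le)))
  refine ⟨i, ?_⟩
  rw [intervalIntegral.integral_eq_sub_of_hasDerivAt_of_le zero_le_one c d i]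
  simp [zero_rpow hq.ne']

lemma Ibeta {q : ℝ} (hq : 0 < q) :
    IntervalIntegrable (fun t : ℝ => t ^ (q - 1) * (1 - t) ^ ((1 / 2 : ℝ) - 1)) volume 0 1 ∧
    ∫ t in (0 : ℝ)..1, t ^ (q - 1) * (1 - t) ^ ((1 / 2 : ℝ) - 1)
      = Gamma q * Gamma (1 / 2) / Gamma (q + 1 / 2) := by
  have i := Complex.betaIntegral_convergent (u := q) (v := (1 / 2 : ℝ)) (by simpa) (by simp)
  have e : EqOn (fun x : ℝ => (x : ℂ) ^ ((q : ℂ) - 1) * (1 - (x : ℂ)) ^ (((1 / 2 : ℝ) : ℂ) - 1))
      (fun t : ℝ => ((t ^ (q - 1) * (1 - t) ^ ((1 / 2 : ℝ) - 1) : ℝ) : ℂ)) (uIcc 0 1) := by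
    intro t ht
    rw [uIcc_of_le zero_le_one] at ht
    simp only [Complex.ofReal_mul, Complex.ofReal_cpow ht.1, Complex.ofReal_cpow (sub_nonneg.2 ht.2)]
    push_cast; rfl
  refine ⟨?_, ?_⟩
  · have := (i.congr (e.mono uIoc_subset_uIcc))
    exact ⟨by simpa [IntegrableOn] using this.1.re, by simp⟩
  · have := ProbabilityTheory.beta_eq_betaIntegralReal q (1 / 2) hq (by norm_num)
    rw [Complex.betaIntegral, intervalIntegral.integral_congr e, intervalIntegral.integral_ofReal,
      Complex.ofReal_re] at this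
    exact this.symm

lemma I2 {q : ℝ} (hq : 0 < q) : IntervalIntegrable (fun t : ℝ => t ^ (q - 1) * aa t) volume 0 1 ∧
    ∫ t in (0 : ℝ)..1, t ^ (q - 1) * aa t
      = Gamma q * Gamma (1 / 2) / Gamma (q + 1 / 2) / (2 * q) := by
  have c0 : Continuous fun t : ℝ => log (1 + √(1 - t)) :=
    Continuous.log (by fun_prop) fun t => by positivity
  have i : IntervalIntegrable (fun t : ℝ => t ^ (q - 1) * aa t) volume 0 1 := by
    have := ((intervalIntegral.intervalIntegrable_rpow' (a := 0) (b := 1) (show -1 < q - 1 by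
      linarith)).mul_continuousOn c0.continuousOn).add ((I1 hq).1.div_const 2)
    convert this using 2 with t
    unfold aa; ring
  refine ⟨i, ?_⟩
  have c : ContinuousOn (fun t : ℝ => (t ^ q * log (1 + √(1 - t)) - t ^ q * log t / 2) / q)
      (Icc 0 1) := ((((continuous_rpow_const hq.le).mul c0).continuousOn).sub
        ((pl_cont hq).div_const _)).div_const _
  have k := intervalIntegral.integral_eq_sub_of_hasDerivAt_of_le zero_le_one c (fun t ht => by
    have h1 := hasDerivAt_rpow_const (p := q) (Or.inl ht.1.ne')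
    have p : 0 < 1 - t := sub_pos.2 ht.2
    have h2 := (((hasDerivAt_id t).const_sub 1).sqrt p.ne').const_add 1
    refine HasDerivAt.congr_deriv (((h1.mul (h2.log (by positivity))).sub
      ((h1.mul (hasDerivAt_log ht.1.ne')).div_const _)).div_const _) ?_
    have t0 := ht.1.ne'
    have s0 := Real.sqrt_pos.2 p
    have s1 := Real.sq_sqrt p.le
    rw [show (1 / 2 : ℝ) - 1 = -(1 / 2) by norm_num, rpow_neg p.le, ← Real.sqrt_eq_rpow,
      rpow_sub_one t0, aa]
    simp only [id]
    generalize √(1 - t) = s at s0 s1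
    obtain rfl : t = 1 - s ^ 2 := by linarith
    generalize (1 - s ^ 2) ^ q = u
    field_simp; ring) (i.sub ((Ibeta hq).1.div_const (2 * q)))
  rw [intervalIntegral.integral_sub i ((Ibeta hq).1.div_const (2 * q)),
    intervalIntegral.integral_div, (Ibeta hq).2] at k
  simp only [zero_rpow hq.ne', sub_self, Real.sqrt_zero, add_zero, log_one, mul_zero, zero_mul,
    zero_div] at k
  linarith

lemma P2 {q : ℝ} (hq : 0 < q) (X : ℝ) :
    IntegrableOn (fun t : ℝ => t ^ (q - 1) * G (X / √t)) (Ioc 0 1) ∧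
    ∫ t in Ioc (0 : ℝ) 1, t ^ (q - 1) * G (X / √t) ≤
      (X ^ 2) ^ q * ∫ t in (0 : ℝ)..1, t ^ (q - 1) * aa t := by
  rcases eq_or_ne X 0 with rfl | hX
  · simp [G, zero_rpow hq.ne']
  have u0 : 0 < X ^ 2 := by positivity
  generalize hu : X ^ 2 = u at u0
  set f : ℝ → ℝ := fun t => t ^ (q - 1) * aa t with hf
  have i : IntervalIntegrable (fun t => u ^ (q - 1) * f (t / u)) volume 0 u := by
    have := ((I2 hq).1.comp_mul_right (c := u⁻¹)).const_mul (u ^ (q - 1))
    simpa [div_eq_mul_inv] using this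
  have i' := (integrable_indicator_iff measurableSet_Ioc).2 i.1
  have e : EqOn (fun t : ℝ => t ^ (q - 1) * G (X / √t))
      ((Ioc 0 u).indicator fun t => u ^ (q - 1) * f (t / u)) (Ioc 0 1) := fun t ht => by
    have t0 := ht.1
    simp only [G, div_pow, Real.sq_sqrt t0.le, hu, div_le_one t0, inv_div, indicator, mem_Ioc, t0,
      true_and, hf]
    rw [div_rpow t0.le u0.le]
    have := (rpow_pos_of_pos u0 (q - 1)).ne'
    rcases lt_trichotomy t u with h | h | h
    · rw [if_neg (not_le.2 h), if_pos h.le]; field_simp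
    · simp [h, aa, u0.ne']
    · rw [if_pos h.le, if_neg (not_le.2 h), mul_zero]
  refine ⟨i'.integrableOn.congr_fun e.symm measurableSet_Ioc, ?_⟩
  rw [setIntegral_congr_fun measurableSet_Ioc e]
  refine (setIntegral_le_integral i' (ae_of_all _ fun t => indicator_nonneg (fun t ht => ?_) t)).trans
    (le_of_eq ?_)
  · have h0 := div_nonneg ht.1.le u0.le
    exact mul_nonneg (rpow_nonneg u0.le _) (mul_nonneg (rpow_nonneg h0 _)
      (aa_nn h0 ((div_le_one u0).2 ht.2)))
  · rw [integral_indicator measurableSet_Ioc, ← intervalIntegral.integral_of_le u0.le,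
      intervalIntegral.integral_const_mul, intervalIntegral.integral_comp_div _ u0.ne', zero_div,
      div_self u0.ne', smul_eq_mul, rpow_sub_one u0.ne']
    field_simp

lemma G_nn (r : ℝ) : 0 ≤ G r := by
  unfold G; split_ifs with h
  · rfl
  · exact aa_nn (by positivity) (inv_le_one_of_one_le₀ (not_le.1 h).le)

theorem main {K : Set ℝ} (hKc : IsCompact K) {μ : Measure ℝ} [IsProbabilityMeasure μ]
    (hK : μ Kᶜ = 0) {γ : ℝ} (h : ∀ a : ℝ, Integrable (fun y => log |a - y|) μ ∧ (∀ᵐ y ∂μ, y ≠ a) ∧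
      γ ≤ ∫ y, log |a - y| ∂μ) (P : Polynomial ℝ) (hP : P.Monic) (hn : 1 ≤ P.natDegree) {p : ℝ}
    (hp : 0 < p) : (2 : ℝ) ^ p / √π * Gamma ((p + 1) / 2) / Gamma (p / 2 + 1)
      * exp γ ^ ((P.natDegree : ℝ) * p) ≤ ∫ x, |P.eval x| ^ p ∂μ := by
  set q := p / 2 with hq
  have q0 : 0 < q := half_pos hp
  set Y := 2 * exp (P.natDegree * γ) with hY
  have Y0 : 0 < Y := by positivity
  set J := ∫ t in (0 : ℝ)..1, t ^ (q - 1) * aa t with hJ
  have ic : Integrable (fun x => |P.eval x| ^ p) μ := by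
    have : IntegrableOn (fun x => |P.eval x| ^ p) K μ := ContinuousOn.integrableOn_compact hKc
      (P.continuous.abs.rpow_const fun _ => Or.inr hp.le).continuousOn
    rwa [IntegrableOn, Measure.restrict_eq_self_of_ae_mem hK] at this
  have e : ∀ x, ((P.eval x / Y) ^ 2) ^ q * J = J / Y ^ p * |P.eval x| ^ p := fun x => by
    rw [← sq_abs, ← rpow_natCast, ← rpow_mul (abs_nonneg _), abs_div, abs_of_pos Y0,
      div_rpow (abs_nonneg _) Y0.le, show ((2 : ℕ) : ℝ) * q = p by rw [hq]; push_cast; ring]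
    ring
  have me : Measurable (Function.uncurry fun x t : ℝ => t ^ (q - 1) * G (P.eval x / Y / √t)) := by
    have := P.continuous.measurable
    have := G_meas
    unfold Function.uncurry; fun_prop
  have hi : Integrable (Function.uncurry fun x t : ℝ => t ^ (q - 1) * G (P.eval x / Y / √t))
      (μ.prod (volume.restrict (Ioc 0 1))) := by
    refine (integrable_prod_iff me.aestronglyMeasurable).2 ⟨ae_of_all _ fun x => (P2 q0 (P.eval x / Y)).1, ?_⟩
    refine Integrable.mono' (ic.const_mul (J / Y ^ p))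
      me.norm.stronglyMeasurable.integral_prod_right'.aestronglyMeasurable (ae_of_all _ fun x => ?_)
    rw [Real.norm_eq_abs, abs_of_nonneg (integral_nonneg fun _ => norm_nonneg _), ← e]
    refine le_trans (le_of_eq (setIntegral_congr_fun measurableSet_Ioc fun t ht => ?_)) (P2 q0 _).2
    exact Real.norm_of_nonneg (mul_nonneg (rpow_nonneg ht.1.le _) (G_nn _))
  have k1 := integral_mono hi.integral_prod_left (ic.const_mul (J / Y ^ p)) fun x =>
    (P2 q0 _).2.trans (e x).le
  have k2 := integral_mono_ae ((I1 q0).1.1.div_const 2) hi.integral_prod_right (by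
    filter_upwards [ae_restrict_mem measurableSet_Ioc] with t ht
    have s0 := Real.sqrt_pos.2 ht.1
    have := stage1 hKc hK h P hP hn (mul_pos Y0 s0)
    rw [show Y * √t / 2 = exp (P.natDegree * γ) * √t by rw [hY]; ring,
      log_mul (exp_pos _).ne' s0.ne', log_exp, log_sqrt ht.1.le] at this
    simp only [Function.uncurry, div_div, integral_const_mul]
    nlinarith [mul_le_mul_of_nonneg_left this (rpow_nonneg ht.1.le (q - 1))])
  simp only [Function.uncurry] at k1 k2
  rw [← integral_integral_swap hi, integral_div, ← intervalIntegral.integral_of_le zero_le_one,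
    (I1 q0).2] at k2
  rw [integral_const_mul, hJ, (I2 q0).2, Gamma_one_half_eq] at k1
  have k := k2.trans k1
  have g1 := Gamma_pos_of_pos q0
  have g2 := Gamma_pos_of_pos (show 0 < q + 1 / 2 by linarith)
  have g3 := Real.sqrt_pos.2 pi_pos
  have g4 := rpow_pos_of_pos Y0 p
  have e2 : (2 : ℝ) ^ p / √π * Gamma ((p + 1) / 2) / Gamma (q + 1) * exp γ ^ ((P.natDegree : ℝ) * p)
      = 1 / q ^ 2 / 2 / (Gamma q * √π / Gamma (q + 1 / 2) / (2 * q) / Y ^ p) := by
    rw [Gamma_add_one q0.ne', show (p + 1) / 2 = q + 1 / 2 by rw [hq]; ring, hY,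
      mul_rpow zero_le_two (exp_pos _).le, ← exp_mul, ← exp_mul, mul_comm γ, mul_right_comm _ p]
    field_simp
  rw [e2, div_le_iff₀' (by positivity)]
  exact k

end Pool.Agent.H1.Wid
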